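import Pool.Agent.Lib.Pa76659G.IfaceP
import Pool.Agent.Lib.Pa76659G.Defs2

set_option autoImplicit false

/-!
Computable advice: if `A` is in `NP^X` and the complement of `A` is in `NP^X` with advice whose bits
are decided in `Δ_{k+1}^X`, then `Δ_{k+1}^P(X ⊕ A) ⊆ Δ_{k+1}^P(X)` (`k ≥ 1`).
-/

namespace Pool.Agent.Lib.Pa76659G

open Pool.Agent.Lib.Pa76659

theorem advStr_length (W : Lang) (r : Polynomial ℕ) (n : ℕ) : (advStr W r n).length = r.eval n := by
  simp [advStr]

theorem NPAdv_poly {X : Lang} {k : ℕ} : NPAdv X k ⊆ NPPoly X := by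
  rintro B ⟨C, hC, W, -, r, hB⟩
  exact ⟨C, hC, advStr W r, r, fun n => (advStr_length W r n).le, hB⟩

namespace PC

variable {α : Type*} {orc : α → Lang}

theorem PO_join {O L1 L2 : Lang} (h1 : L1 ∈ PO O) (h2 : L2 ∈ PO O) : join L1 L2 ∈ PO O := by
  have hx : PolyC (fun _ : Str => O) (fun _ => True) [fun x => x] (fun x => x) :=
    PolyC.var (by simp)
  have ha : PolyB (fun _ : Str => O) (fun _ => True) [fun x => x] (fun x => L1 x.tail) :=
    polyB_of_PO h1 hx.tail
  have hb : PolyB (fun _ : Str => O) (fun _ => True) [fun x => x] (fun x => L2 x.tail) :=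
    polyB_of_PO h2 hx.tail
  refine mem_PO (PolyC.congr (PolyC.cases hx (u0 := fun _ => [false])
      (u1 := fun x : Str => [L1 x.tail]) (u2 := fun x : Str => [L2 x.tail])
      (PolyC.const _) (PolyC.mono ha fun _ h => h.1) (PolyC.mono hb fun _ h => h.1)) ?_)
  intro x _
  rcases x with _ | ⟨b, v⟩
  · rfl
  · cases b <;> rfl

theorem Sig_join {X : Lang} : ∀ {k : ℕ} {L1 L2 : Lang}, L1 ∈ Sig X k → L2 ∈ Sig X k →
    join L1 L2 ∈ Sig X k
  | 0, _, _, h1, h2 => PO_join h1 h2
  | _ + 1, _, _, ⟨B1, hB1, h1⟩, ⟨B2, hB2, h2⟩ =>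
      ⟨join B1 B2, Sig_join hB1 hB2, NPO_join (NPO_subset (left_PO _ _) h1)
        (NPO_subset (right_PO _ _) h2)⟩

theorem Sig_mono {X Y : Lang} (h : X ∈ PO Y) : ∀ k : ℕ, Sig X k ⊆ Sig Y k
  | 0 => PO_subset h
  | k + 1 => by
      rintro L ⟨B, hB, hL⟩
      exact ⟨B, Sig_mono h k hB, hL⟩

theorem DelSucc_mono {X Y : Lang} (h : X ∈ PO Y) (k : ℕ) : DelSucc X k ⊆ DelSucc Y k := by
  rintro L ⟨B, hB, hL⟩
  exact ⟨B, Sig_mono h k hB, hL⟩

theorem lenc_map_range (f : ℕ → Str) (n : ℕ) :
    lenc ((List.range n).map f) = (List.range n).flatMap (fun k => pr (f k) []) := by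
  have key : ∀ l : List Str, lenc l = l.flatMap (fun x => pr x []) := by
    intro l
    induction l with
    | nil => rfl
    | cons x l ih =>
      rw [lenc, List.flatMap_cons, ← ih]
      simp [pr]
  rw [key, List.flatMap_map]

/-- Tables of strings. -/
theorem PolyC.lenc_range {D : α → Prop} {ctx : List (α → Str)} {n : α → ℕ} {f : α × ℕ → Str}
    (hn : PolyN orc D ctx n)
    (hf : PolyC (fun p : α × ℕ => orc p.1) (fun p => D p.1 ∧ p.2 < n p.1)
      (PC.lift ctx ++ [fun p => una p.2]) f) :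
    PolyC orc D ctx (fun a => PC.lenc ((List.range (n a)).map (fun k => f (a, k)))) := by
  refine (PolyC.flatMap_range (t := fun p : α × ℕ => Pa76659G.pr (f p) []) hn
    (PolyC.pr hf PolyC.nil)).congr ?_
  intro a _
  rw [lenc_map_range]

/-- The advice string is computable. -/
theorem PolyC.advStr {O W : Lang} (hW : W ∈ PO O) (r : Polynomial ℕ) {D : α → Prop}
    {ctx : List (α → Str)} {n : α → ℕ} (hn : PolyN (fun _ => O) D ctx n) :
    PolyC (fun _ => O) D ctx (fun a => Pa76659G.advStr W r (n a)) := by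
  refine PolyC.map_range (hn.poly r) (φ := fun p : α × ℕ => W (Pa76659G.pr (on1 (n p.1)) (on1 p.2))) ?_
  refine polyB_of_PO hW (PolyC.pr ?_ (PolyC.var (by simp [on1_eq])))
  exact (PolyC.lift hn (fun p hp => hp.1)).weakenRight _

/-- Translation of the languages of `Σ_{k+1}(X ⊕ A)` with the advice as additional input. -/
theorem transl {X A C : Lang} (hA : A ∈ NPO X) (hC : C ∈ NPO X) : ∀ (k : ℕ), ∀ B ∈ Sig (join X A) (k + 1),
    ∃ B' ∈ Sig X (k + 1), ∃ F : Polynomial ℕ, ∀ u m, Corr A C u m → ∀ z : Str,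
      F.eval z.length ≤ m → B' (pr u z) = B z
  | 0, B1, ⟨B0, hB0, hB1⟩ => by
      obtain ⟨V1, q1, hV1, hA1⟩ := exists_of_NPO hA
      obtain ⟨V2, q2, hV2, hC2⟩ := exists_of_NPO hC
      obtain ⟨M0, p0, hM0⟩ := hB0
      obtain ⟨M1, p1, k1, hM1⟩ := hB1
      set P := P0 X V1 q1 with hPdef
      set Q := Q0 X V2 q2 with hQdef
      have hP : PB3 X P := PB3_P0 hV1
      have hQ : PB3 X Q := PB3_Q0 hV2
      set s0 : Polynomial ℕ := q1 + q2.comp (2 * Polynomial.X + 1) with hs0
      set P' : Str → Str → Str → Bool := fun u z w => crt P Q M0 p0 true u z [] w with hP'def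
      set Q' : Str → Str → Str → Bool := fun u z w => crt P Q M0 p0 false u z [] w with hQ'def
      have hP' : PB3 X P' := PB3_crt hP hQ M0 p0 true
      have hQ' : PB3 X Q' := PB3_crt hP hQ M0 p0 false
      set s1 : Polynomial ℕ := (sb s0).comp (Polynomial.X + p0) with hs1
      set s2 : Polynomial ℕ := 2 * k1 + 1 + (sb s1).comp (Polynomial.X + (Polynomial.X + k1 + p1))
        with hs2
      refine ⟨T1 P' Q' M1 p1 k1 s2, ⟨X, query_mem X, T1_mem hP' hQ' _ _ _ _⟩,
        (Polynomial.X + p0).comp (Polynomial.X + k1 + p1), ?_⟩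
      intro u m hu z hz
      refine T1_eq (hM1 z).2 ?_
      refine good1 (O := join X A) (fun x => ?_) ?_
      · rw [(hM0 x).2, inp_eq]
      · refine good0 hA1 hC2 (fun v hv => hu v ?_)
        simp only [Polynomial.eval_comp, Polynomial.eval_add, Polynomial.eval_X] at hz
        omega
  | k + 1, B2, ⟨B1, hB1, hB2⟩ => by
      obtain ⟨B1', hB1', F1, h1⟩ := transl hA hC k B1 hB1
      obtain ⟨M2, p2, k2, hM2⟩ := hB2
      refine ⟨T2 B1' M2 p2 k2, ⟨B1', hB1', T2_mem _ _ _ _⟩, F1.comp (Polynomial.X + k2 + p2), ?_⟩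
      intro u m hu z hz
      refine T2_eq (hM2 z).2 (fun v hv => h1 u m hu v ?_)
      refine (eval_mono F1 hv).trans ?_
      simpa using hz

end PC

open PC

/-- Computable advice gives lowness. -/
theorem rlow_of_adv {X A : Lang} {k : ℕ} (hA : A ∈ NPO X)
    (hc : (fun x => !(A x)) ∈ NPAdv X (k + 1)) : A ∈ RLowSucc X (k + 1) := by
  refine ⟨hA, ?_⟩
  obtain ⟨C, hC, W, ⟨BW, hBW, hW⟩, r, hAC⟩ := hc
  rintro L ⟨B, hB, hL⟩
  obtain ⟨B', hB', F, hF⟩ := transl hA hC k B hB
  obtain ⟨p, rfl⟩ := exists_pEval hL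
  set O := join B' BW with hO
  refine ⟨O, Sig_join hB' hBW, ?_⟩
  have hW' : W ∈ PO O := PO_subset (right_PO _ _) hW
  set m : ℕ → ℕ := fun n => F.eval (n + p.2.eval n) with hm
  set u : ℕ → Str := fun n => lenc ((List.range (m n + 1)).map (advStr W r)) with hu
  have hx : PolyC (fun _ : Str => O) (fun _ => True) [fun x => x] (fun x => x) :=
    PolyC.var (by simp)
  have hmn : PolyN (fun _ : Str => O) (fun _ => True) [fun x => x] (fun x => m x.length) := by
    have := (PolyN.length hx).poly (F.comp (Polynomial.X + p.2))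
    refine this.congr (fun x _ => ?_)
    simp [hm]
  have hun : PolyC (fun _ : Str => O) (fun _ => True) [fun x => x] (fun x => u x.length) := by
    refine PolyC.lenc_range (f := fun p : Str × ℕ => advStr W r p.2) hmn.succ ?_
    exact PolyC.advStr hW' r (PolyC.var (by simp))
  have hcor : ∀ n, Corr A C (u n) (m n) := by
    intro n v hv
    rw [av, hu]
    beta_reduce
    rw [nth_lenc, List.getD_eq_getElem _ _ (by simp; omega)]
    simp only [List.getElem_map, List.getElem_range]
    exact (hAC v).symm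
  have h1 : PolyB (fun _ : Str => O) (fun _ => True) [fun x => x]
      (fun x => pEval p (fun v => B' (pr (u x.length) v)) x) := by
    refine PolyB.pEval (orc := fun _ : Str => O) p (fun x v => B' (pr (u x.length) v)) (fun x => x)
      ?_ hx
    have h2 : PolyC (fun _ : Str × Str => O) (fun _ => True) (PC.lift [fun x => x] ++ [fun p => p.2])
        (fun p => u p.1.length) :=
      ((PolyC.lift (D' := fun _ : Str × Str => True) hun (fun _ _ => trivial))).weakenRight _
    have h3 : PolyC (fun _ : Str × Str => O) (fun _ => True) (PC.lift [fun x => x] ++ [fun p => p.2])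
        (fun p => [O (false :: pr (u p.1.length) p.2)]) :=
      PolyC.query (PolyC.cons false (PolyC.pr h2 (PolyC.var (by simp))))
    exact h3
  refine mem_PO (h1.congr ?_)
  intro x _
  show pEval p (fun v => B' (pr (u x.length) v)) x = pEval p B x
  unfold pEval
  rw [inp_eq]
  refine accepts_congr ?_
  intro v hv
  refine hF (u x.length) (m x.length) (hcor _) v ?_
  rw [hm]
  refine eval_mono F ?_
  simpa using hv

/-- Advice on one more oracle. -/
theorem NPAdv_mono {X Y : Lang} (h : X ∈ PO Y) (k : ℕ) : NPAdv X k ⊆ NPAdv Y k := by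
  rintro B ⟨C, hC, W, hW, r, hB⟩
  exact ⟨C, NPO_subset h hC, W, DelSucc_mono h k hW, r, hB⟩

end Pool.Agent.Lib.Pa76659G
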