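import Pool.Agent.Lib.Pa76659G.Run

set_option autoImplicit false

/-!
Closure properties of polynomial-time computable functions of bit-list variables.
`PolyC orc D ctx t`: one program computes, with the oracle `orc a`, the value `t a` in a fresh
register from the registers holding the context variables `ctx` (a list of functions of the
parameter `a`), for every `a` with `D a`, in time polynomial in the total length of the context
variables. (Oracle version of `PolyTime.Basic`.)
-/

namespace Pool.Agent.Lib.Pa76659G.PC

open Function
open Pool.Agent.Lib.Pa76659 (Str Lang Prog Cfg step runN Exec)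

variable {O : Lang}

/-! ### Register files given by lists -/

/-- Registers holding the entries of a list. -/
def R (V : List (List Bool)) : Regs := fun i => V.getD i []

theorem R_length (V : List (List Bool)) (x : List Bool) (E : List (List Bool)) :
    R (V ++ x :: E) V.length = x := by
  simp [R]

theorem R_length_add (V : List (List Bool)) (E : List (List Bool)) (i : ℕ) :
    R (V ++ E) (V.length + i) = R E i := by
  simp only [R]
  rw [List.getD_append_right _ _ _ _ (by omega)]
  congr 1
  omega

theorem R_of_lt {V : List (List Bool)} {i : ℕ} (E : List (List Bool)) (h : i < V.length) :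
    R (V ++ E) i = R V i := by
  simp only [R]
  rw [List.getD_append _ _ _ _ h]

theorem R_of_ge {V : List (List Bool)} {i : ℕ} (h : V.length ≤ i) : R V i = [] := by
  simp only [R]
  exact List.getD_eq_default _ _ h

theorem R_append_nil (V : List (List Bool)) : R (V ++ [[]]) = R V := by
  funext i
  rcases lt_or_ge i V.length with h | h
  · rw [R_of_lt _ h]
  · rw [R_of_ge h]
    obtain ⟨j, rfl⟩ := Nat.exists_eq_add_of_le h
    rw [R_length_add]
    rcases j with _ | j
    · rfl
    · exact R_of_ge (by simp)

theorem R_update (V : List (List Bool)) (x y : List Bool) (E : List (List Bool)) :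
    update (R (V ++ x :: E)) V.length y = R (V ++ y :: E) := by
  funext i
  by_cases h : i = V.length
  · subst h
    rw [update_self, R_length]
  · rw [update_of_ne h]
    rcases lt_or_ge i V.length with h1 | h1
    · rw [R_of_lt _ h1, R_of_lt _ h1]
    · obtain ⟨j, rfl⟩ := Nat.exists_eq_add_of_le h1
      rw [R_length_add, R_length_add]
      rcases j with _ | j
      · simp at h
      · simp [R]

theorem R_update1 (V : List (List Bool)) (x0 x y : List Bool) (E : List (List Bool)) :
    update (R (V ++ x0 :: x :: E)) (V.length + 1) y = R (V ++ x0 :: y :: E) := by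
  have := R_update (V ++ [x0]) x y E
  simpa using this

theorem R_update2 (V : List (List Bool)) (x0 x1 x y : List Bool) (E : List (List Bool)) :
    update (R (V ++ x0 :: x1 :: x :: E)) (V.length + 2) y = R (V ++ x0 :: x1 :: y :: E) := by
  have := R_update (V ++ [x0, x1]) x y E
  simpa using this

theorem R_update3 (V : List (List Bool)) (x0 x1 x2 x y : List Bool) (E : List (List Bool)) :
    update (R (V ++ x0 :: x1 :: x2 :: x :: E)) (V.length + 3) y =
      R (V ++ x0 :: x1 :: x2 :: y :: E) := by
  have := R_update (V ++ [x0, x1, x2]) x y E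
  simpa using this

theorem R_length1 (V : List (List Bool)) (x0 x : List Bool) (E : List (List Bool)) :
    R (V ++ x0 :: x :: E) (V.length + 1) = x := by
  rw [R_length_add]; rfl

theorem R_length2 (V : List (List Bool)) (x0 x1 x : List Bool) (E : List (List Bool)) :
    R (V ++ x0 :: x1 :: x :: E) (V.length + 2) = x := by
  rw [R_length_add]; rfl

theorem R_length3 (V : List (List Bool)) (x0 x1 x2 x : List Bool) (E : List (List Bool)) :
    R (V ++ x0 :: x1 :: x2 :: x :: E) (V.length + 3) = x := by
  rw [R_length_add]; rfl

/-! ### Basic programs -/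

theorem Run.cast {P : Prog} {S S' S'' : Regs} {n m : ℕ} (h : Run O P S S' n) (e : S' = S'')
    (e' : n = m) : Run O P S S'' m := by
  subst e; subst e'; exact h

/-- Empty a register. -/
def clear (r : ℕ) : Prog := .loop r (.pop r)

theorem run_clear (r : ℕ) (S : Regs) :
    Run O (clear r) S (update S r []) (2 * (S r).length + 1) := by
  generalize hl : S r = l
  induction l generalizing S with
  | nil =>
    have : update S r [] = S := by rw [← hl, update_eq_self]
    rw [this]
    exact Run.loopNil hl
  | cons b l ih =>
    have h1 : Run O (.pop r) S (update S r l) 1 := by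
      have := Run.pop (O := O) S r
      rwa [hl] at this
    have h2 := ih (update S r l) (by simp)
    rw [update_idem] at h2
    have := Run.loopCons (P := .pop r) (by rw [hl]; simp) h1 h2
    exact this.cast rfl (by simp only [List.length_cons]; omega)

/-- Move a register onto another one, reversing. -/
def moveRev (r s : ℕ) : Prog :=
  .loop r (.branch r (.seq (.pop r) (.push s true)) (.seq (.pop r) (.push s false)) .skip)

theorem run_moveRev {r s : ℕ} (hrs : r ≠ s) (S : Regs) :
    Run O (moveRev r s) S (update (update S r []) s ((S r).reverse ++ S s))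
      (5 * (S r).length + 1) := by
  generalize hl : S r = l
  induction l generalizing S with
  | nil =>
    have : update (update S r []) s ([].reverse ++ S s) = S := by
      funext i
      by_cases hi : i = s
      · subst hi; simp
      · rw [update_of_ne hi]
        by_cases hi' : i = r
        · subst hi'; simp [hl]
        · rw [update_of_ne hi']
    rw [this]
    exact Run.loopNil hl
  | cons b l ih =>
    have h1 : Run O (.seq (.pop r) (.push s b)) S
        (update (update S r l) s (b :: S s)) 3 := by
      have h1 := Run.pop (O := O) S r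
      rw [hl, List.tail_cons] at h1
      have h2 := Run.push (O := O) (update S r l) s b
      rw [update_of_ne hrs.symm] at h2
      exact Run.seq h1 h2
    have h2 : Run O (.branch r (.seq (.pop r) (.push s true)) (.seq (.pop r) (.push s false)) .skip)
        S (update (update S r l) s (b :: S s)) 4 := by
      cases b with
      | false => exact Run.casesFalse hl h1
      | true => exact Run.casesTrue hl h1
    have h3 := ih (update (update S r l) s (b :: S s)) (by
      rw [update_of_ne hrs, update_self])
    have := Run.loopCons (by rw [hl]; simp) h2 h3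
    have e : update (update (update (update S r l) s (b :: S s)) r []) s
        (l.reverse ++ update (update S r l) s (b :: S s) s) =
        update (update S r []) s ((b :: l).reverse ++ S s) := by
      funext i
      by_cases hi : i = s
      · subst hi; simp
      · rw [update_of_ne hi, update_of_ne hi]
        by_cases hi' : i = r
        · subst hi'; simp
        · rw [update_of_ne hi', update_of_ne hi, update_of_ne hi', update_of_ne hi']
    rw [e] at this
    exact this.cast rfl (by simp only [List.length_cons]; omega)

/-- Move a register onto another one, keeping the order. -/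
def move (r s tmp : ℕ) : Prog := .seq (moveRev r tmp) (moveRev tmp s)

theorem run_move {r s tmp : ℕ} (hrs : r ≠ s) (hrt : r ≠ tmp) (hst : s ≠ tmp) (S : Regs)
    (ht : S tmp = []) :
    Run O (move r s tmp) S (update (update S r []) s (S r ++ S s))
      (10 * (S r).length + 3) := by
  have h1 := run_moveRev (O := O) hrt S
  have h2 := run_moveRev (O := O) hst.symm (update (update S r []) tmp ((S r).reverse ++ S tmp))
  refine (Run.seq h1 h2).cast ?_ ?_
  · funext i
    by_cases hi : i = s
    · subst hi
      simp [ht, update_of_ne hst, update_of_ne hrs.symm]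
    · rw [update_of_ne hi, update_of_ne hi]
      by_cases hi' : i = tmp
      · subst hi'
        rw [update_self, update_of_ne hrt.symm, ht]
      · rw [update_of_ne hi', update_of_ne hi']
  · simp [ht]
    omega

/-- Second half of copying: move `tmp` onto both `r` and `s`. -/
def spread (tmp r s : ℕ) : Prog :=
  .loop tmp (.branch tmp
    (.seq (.pop tmp) (.seq (.push r true) (.push s true)))
    (.seq (.pop tmp) (.seq (.push r false) (.push s false))) .skip)

theorem run_spread {r s tmp : ℕ} (hrs : r ≠ s) (hrt : r ≠ tmp) (hst : s ≠ tmp) (S : Regs) :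
    Run O (spread tmp r s) S
      (update (update (update S tmp []) r ((S tmp).reverse ++ S r)) s ((S tmp).reverse ++ S s))
      (7 * (S tmp).length + 1) := by
  generalize hl : S tmp = l
  induction l generalizing S with
  | nil =>
    have : update (update (update S tmp []) r ([].reverse ++ S r)) s ([].reverse ++ S s) = S := by
      funext i
      by_cases hi : i = s
      · subst hi; simp
      · rw [update_of_ne hi]
        by_cases hi' : i = r
        · subst hi'; simp
        · rw [update_of_ne hi']
          by_cases hi'' : i = tmp
          · subst hi''; simp [hl]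
          · rw [update_of_ne hi'']
    rw [this]
    exact Run.loopNil hl
  | cons b l ih =>
    have h1 : Run O (.seq (.pop tmp) (.seq (.push r b) (.push s b))) S
        (update (update (update S tmp l) r (b :: S r)) s (b :: S s)) 5 := by
      have h1 := Run.pop (O := O) S tmp
      rw [hl, List.tail_cons] at h1
      have h2 := Run.push (O := O) (update S tmp l) r b
      rw [update_of_ne hrt] at h2
      have h3 := Run.push (O := O) (update (update S tmp l) r (b :: S r)) s b
      rw [update_of_ne hrs.symm, update_of_ne hst] at h3
      exact Run.seq h1 (Run.seq h2 h3)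
    have h2 : Run O (.branch tmp
        (.seq (.pop tmp) (.seq (.push r true) (.push s true)))
        (.seq (.pop tmp) (.seq (.push r false) (.push s false))) .skip)
        S (update (update (update S tmp l) r (b :: S r)) s (b :: S s)) 6 := by
      cases b with
      | false => exact Run.casesFalse hl h1
      | true => exact Run.casesTrue hl h1
    have h3 := ih (update (update (update S tmp l) r (b :: S r)) s (b :: S s)) (by
      rw [update_of_ne hst.symm, update_of_ne hrt.symm, update_self])
    refine (Run.loopCons (by rw [hl]; simp) h2 h3).cast ?_ ?_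
    · funext i
      by_cases hi : i = s
      · subst hi; simp
      · rw [update_of_ne hi, update_of_ne hi]
        by_cases hi' : i = r
        · subst hi'
          simp [update_of_ne hi]
        · rw [update_of_ne hi', update_of_ne hi']
          by_cases hi'' : i = tmp
          · subst hi''; simp
          · rw [update_of_ne hi'', update_of_ne hi'', update_of_ne hi, update_of_ne hi',
              update_of_ne hi'']
    · simp only [List.length_cons]
      omega

/-- Copy a register onto another one. -/
def copy (r s tmp : ℕ) : Prog := .seq (moveRev r tmp) (spread tmp r s)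

theorem run_copy {r s tmp : ℕ} (hrs : r ≠ s) (hrt : r ≠ tmp) (hst : s ≠ tmp) (S : Regs)
    (ht : S tmp = []) :
    Run O (copy r s tmp) S (update S s (S r ++ S s)) (12 * (S r).length + 3) := by
  have h1 := run_moveRev (O := O) hrt S
  have h2 := run_spread (O := O) hrs hrt hst (update (update S r []) tmp ((S r).reverse ++ S tmp))
  refine (Run.seq h1 h2).cast ?_ ?_
  · funext i
    by_cases hi : i = s
    · subst hi
      simp [ht, update_of_ne hst, update_of_ne hrs.symm]
    · rw [update_of_ne hi, update_of_ne hi]
      by_cases hi' : i = r
      · subst hi'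
        simp [ht, update_of_ne hrt]
      · rw [update_of_ne hi']
        by_cases hi'' : i = tmp
        · subst hi''; simp [ht]
        · rw [update_of_ne hi'', update_of_ne hi'', update_of_ne hi']
  · simp [ht]
    omega

/-! ### Polynomial bounds -/

theorem eval_mono (p : Polynomial ℕ) {m n : ℕ} (h : m ≤ n) : p.eval m ≤ p.eval n := by
  rw [Polynomial.eval_eq_sum, Polynomial.eval_eq_sum]
  unfold Polynomial.sum
  apply Finset.sum_le_sum
  intro i _
  exact Nat.mul_le_mul_left _ (Nat.pow_le_pow_left h i)

/-! ### The closure predicate -/

variable {α β : Type*} {orc : α → Lang}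

/-- Total length of a list of registers. -/
def total (V : List (List Bool)) : ℕ := (V.map List.length).sum

@[simp] theorem total_nil : total [] = 0 := rfl

@[simp] theorem total_cons (x : List Bool) (V : List (List Bool)) :
    total (x :: V) = x.length + total V := by simp [total]

@[simp] theorem total_append (V W : List (List Bool)) : total (V ++ W) = total V + total W := by
  simp [total]

/-- Values of the context variables. -/
def vals (ctx : List (α → List Bool)) (a : α) : List (List Bool) := ctx.map (fun f => f a)

@[simp] theorem vals_length (ctx : List (α → List Bool)) (a : α) :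
    (vals ctx a).length = ctx.length := by simp [vals]

@[simp] theorem vals_append (ctx ctx' : List (α → List Bool)) (a : α) :
    vals (ctx ++ ctx') a = vals ctx a ++ vals ctx' a := by simp [vals]

@[simp] theorem vals_cons (f : α → List Bool) (ctx : List (α → List Bool)) (a : α) :
    vals (f :: ctx) a = f a :: vals ctx a := by simp [vals]

@[simp] theorem vals_nil (a : α) : vals ([] : List (α → List Bool)) a = [] := rfl

/-- `t` is computable in polynomial time from the context variables, on the domain `D`. -/
def PolyC (orc : α → Lang) (D : α → Prop) (ctx : List (α → List Bool)) (t : α → List Bool) : Prop :=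
  ∃ (P : Prog) (p : Polynomial ℕ), ∀ a, D a → ∃ n, n ≤ p.eval (total (vals ctx a)) ∧
    Run (orc a) P (R (vals ctx a)) (R (vals ctx a ++ [t a])) n

theorem PolyC.mono {D D' : α → Prop} {ctx : List (α → List Bool)} {t : α → List Bool}
    (h : PolyC orc D ctx t) (hD : ∀ a, D' a → D a) : PolyC orc D' ctx t := by
  obtain ⟨P, p, hP⟩ := h
  exact ⟨P, p, fun a ha => hP a (hD a ha)⟩

theorem PolyC.congr {D : α → Prop} {ctx : List (α → List Bool)} {t t' : α → List Bool}
    (h : PolyC orc D ctx t) (e : ∀ a, D a → t a = t' a) : PolyC orc D ctx t' := by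
  obtain ⟨P, p, hP⟩ := h
  refine ⟨P, p, fun a ha => ?_⟩
  rw [← e a ha]
  exact hP a ha

theorem PolyC.reindex {D : α → Prop} {D' : β → Prop} {ctx : List (α → List Bool)}
    {t : α → List Bool} (h : PolyC orc D ctx t) (π : β → α) (hD : ∀ b, D' b → D (π b)) :
    PolyC (orc ∘ π) D' (ctx.map (fun f => f ∘ π)) (t ∘ π) := by
  obtain ⟨P, p, hP⟩ := h
  refine ⟨P, p, fun b hb => ?_⟩
  have e : vals (ctx.map (fun f => f ∘ π)) b = vals ctx (π b) := by
    simp [vals]
  rw [e]
  exact hP (π b) (hD b hb)

/-- The output is polynomially bounded. -/
theorem PolyC.length_le {D : α → Prop} {ctx : List (α → List Bool)} {t : α → List Bool}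
    (h : PolyC orc D ctx t) :
    ∃ p : Polynomial ℕ, ∀ a, D a → (t a).length ≤ p.eval (total (vals ctx a)) := by
  obtain ⟨P, p, hP⟩ := h
  refine ⟨p, fun a ha => ?_⟩
  obtain ⟨n, hn, hr⟩ := hP a ha
  have := hr.length_le (vals ctx a).length
  rw [R_length, R_of_ge le_rfl] at this
  simp only [List.length_nil, Nat.zero_add] at this
  omega

/-- Weakening at the end of the context. -/
theorem PolyC.weakenRight {D : α → Prop} {ctx : List (α → List Bool)} {t : α → List Bool}
    (h : PolyC orc D ctx t) (E : List (α → List Bool)) : PolyC orc D (ctx ++ E) t := by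
  obtain ⟨P, p, hP⟩ := h
  refine ⟨rename (fun i => if i < ctx.length then i else i + E.length) P, p, fun a ha => ?_⟩
  obtain ⟨n, hn, hr⟩ := hP a ha
  have hinj : Function.Injective (fun i => if i < ctx.length then i else i + E.length) := by
    intro i j hij
    simp only at hij
    split_ifs at hij <;> omega
  obtain ⟨T', h1, h2, h3⟩ := hr.rename hinj (R (vals (ctx ++ E) a)) (by
    intro i
    rw [vals_append]
    split_ifs with hi
    · rw [R_of_lt _ (by simpa using hi)]
    · rw [R_of_ge, R_of_ge]
      · simp; omega
      · simp; omega)
  refine ⟨n, hn.trans (eval_mono _ ?_), ?_⟩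
  · rw [vals_append, total_append]; omega
  · refine h1.cast ?_ rfl
    funext j
    rcases lt_or_ge j ctx.length with hj | hj
    · have := h2 j
      simp only [if_pos hj] at this
      rw [this, R_of_lt _ (by simpa using hj), vals_append, R_of_lt _ (by simp; omega),
        R_of_lt _ (by simp; omega)]
    · rcases lt_or_ge j (ctx.length + E.length) with hj' | hj'
      · rw [h3 j]
        · rw [R_of_lt _ (by simp; omega)]
        · intro i
          split_ifs <;> omega
      · have := h2 (j - E.length)
        simp only [if_neg (show ¬ (j - E.length < ctx.length) by omega)] at this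
        rw [show j - E.length + E.length = j by omega] at this
        rw [this]
        have e1 : R (vals (ctx ++ E) a ++ [t a]) j = R [t a] (j - (ctx.length + E.length)) := by
          have := R_length_add (vals (ctx ++ E) a) [t a] (j - (ctx.length + E.length))
          rw [vals_length, List.length_append, show ctx.length + E.length +
            (j - (ctx.length + E.length)) = j by omega] at this
          exact this
        have e2 : R (vals ctx a ++ [t a]) (j - E.length) =
            R [t a] (j - (ctx.length + E.length)) := by
          have := R_length_add (vals ctx a) [t a] (j - (ctx.length + E.length))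
          rw [vals_length, show ctx.length +
            (j - (ctx.length + E.length)) = j - E.length by omega] at this
          exact this
        rw [e1, e2]

/-- Weakening at the start of the context. -/
theorem PolyC.weakenLeft {D : α → Prop} {ctx : List (α → List Bool)} {t : α → List Bool}
    (h : PolyC orc D ctx t) (E : List (α → List Bool)) : PolyC orc D (E ++ ctx) t := by
  obtain ⟨P, p, hP⟩ := h
  refine ⟨rename (fun i => E.length + i) P, p, fun a ha => ?_⟩
  obtain ⟨n, hn, hr⟩ := hP a ha
  have hinj : Function.Injective (fun i => E.length + i) := by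
    intro i j hij
    simpa using hij
  obtain ⟨T', h1, h2, h3⟩ := hr.rename hinj (R (vals (E ++ ctx) a)) (by
    intro i
    have := R_length_add (vals E a) (vals ctx a) i
    rw [vals_length] at this
    rw [vals_append, this])
  refine ⟨n, hn.trans (eval_mono _ ?_), ?_⟩
  · rw [vals_append, total_append]; omega
  · refine h1.cast ?_ rfl
    funext j
    rcases lt_or_ge j E.length with hj | hj
    · rw [h3 j (by intro i; omega), vals_append, List.append_assoc,
        R_of_lt _ (by simpa using hj), R_of_lt _ (by simpa using hj)]
    · obtain ⟨i, rfl⟩ := Nat.exists_eq_add_of_le hj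
      have := R_length_add (vals E a) (vals ctx a ++ [t a]) i
      rw [vals_length] at this
      rw [h2 i, vals_append, List.append_assoc, this]

/-- Local definitions. -/
theorem PolyC.bind {D : α → Prop} {ctx : List (α → List Bool)} {t u : α → List Bool}
    (ht : PolyC orc D ctx t) (hu : PolyC orc D (ctx ++ [t]) u) : PolyC orc D ctx u := by
  obtain ⟨P, p, hP⟩ := ht
  obtain ⟨Q, q, hQ⟩ := hu
  refine ⟨.seq P (.seq Q (.seq (clear ctx.length)
    (move (ctx.length + 1) ctx.length (ctx.length + 2)))),
    p + (q.comp (Polynomial.X + p) + ((2 * p + 1) +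
      (10 * q.comp (Polynomial.X + p) + 6))), fun a ha => ?_⟩
  obtain ⟨n, hn, hr⟩ := hP a ha
  obtain ⟨m, hm, hr'⟩ := hQ a ha
  have hlt : (t a).length ≤ n := by
    have := hr.length_le (vals ctx a).length
    rw [R_length, R_of_ge le_rfl] at this
    simpa using this
  have hm' : m ≤ q.eval (total (vals ctx a) + p.eval (total (vals ctx a))) := by
    refine hm.trans (eval_mono _ ?_)
    simp only [vals_append, vals_cons, vals_nil, total_append, total_cons, total_nil]
    omega
  have hlu : (u a).length ≤ m := by
    have := hr'.length_le (vals (ctx ++ [t]) a).length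
    rw [R_length, R_of_ge le_rfl] at this
    simpa using this
  have e1 : vals (ctx ++ [t]) a = vals ctx a ++ [t a] := by simp
  rw [e1, List.append_assoc, List.singleton_append] at hr'
  have h3 := run_clear (O := orc a) ctx.length (R (vals ctx a ++ [t a, u a]))
  have e2 : ctx.length = (vals ctx a).length := by simp
  rw [e2, R_update, R_length] at h3
  have h4 := run_move (O := orc a) (r := (vals ctx a).length + 1) (s := (vals ctx a).length)
    (tmp := (vals ctx a).length + 2) (by omega) (by omega) (by omega)
    (R (vals ctx a ++ [[], u a])) (by rw [R_of_ge]; simp)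
  rw [R_update1, R_length1, R_update, R_length, List.append_nil] at h4
  have e3 : R (vals ctx a ++ [u a, []]) = R (vals ctx a ++ [u a]) := by
    have := R_append_nil (vals ctx a ++ [u a])
    simpa using this
  rw [e3] at h4
  have h5 := Run.seq hr (Run.seq hr' (Run.seq h3 h4))
  refine ⟨_, ?_, by rw [e2]; exact h5⟩
  simp only [Polynomial.eval_add, Polynomial.eval_comp, Polynomial.eval_X, Polynomial.eval_mul,
    Polynomial.eval_ofNat, Polynomial.eval_one]
  omega

/-- General substitution. -/
theorem PolyC.comp {D : α → Prop} {ctx ctx' : List (α → List Bool)} {t : α → List Bool}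
    (h : PolyC orc D ctx t) (hg : ∀ f ∈ ctx, PolyC orc D ctx' f) : PolyC orc D ctx' t := by
  have h1 : PolyC orc D (ctx' ++ ctx) t := h.weakenLeft ctx'
  clear h
  induction ctx using List.reverseRecOn with
  | nil => simpa using h1
  | append_singleton l f ih =>
    refine ih (fun g hgl => hg g (by simp [hgl])) ?_
    have h2 : PolyC orc D (ctx' ++ l) f := (hg f (by simp)).weakenRight l
    refine PolyC.bind h2 ?_
    simpa using h1

/-- Variables. -/
theorem PolyC.var {D : α → Prop} {ctx : List (α → List Bool)} {f : α → List Bool}
    (h : f ∈ ctx) : PolyC orc D ctx f := by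
  obtain ⟨i, hi, hf⟩ := List.getElem_of_mem h
  refine ⟨copy i ctx.length (ctx.length + 1), 12 * Polynomial.X + 3, fun a _ => ?_⟩
  have e2 : ctx.length = (vals ctx a).length := by simp
  have h4 := run_copy (O := orc a) (r := i) (s := (vals ctx a).length)
    (tmp := (vals ctx a).length + 1) (by omega) (by omega) (by omega)
    (R (vals ctx a)) (by rw [R_of_ge]; simp)
  have e3 : R (vals ctx a) i = f a := by
    simp [R, vals, hi, hf]
  rw [e3] at h4
  rw [← R_append_nil (vals ctx a), R_length, R_update, R_append_nil] at h4
  refine ⟨_, ?_, by rw [e2]; simpa using h4⟩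
  simp only [Polynomial.eval_add, Polynomial.eval_mul, Polynomial.eval_X,
    Polynomial.eval_ofNat]
  have : (f a).length ≤ total (vals ctx a) := by
    have : f a ∈ vals ctx a := List.mem_map.2 ⟨f, h, rfl⟩
    exact List.le_sum_of_mem (List.mem_map_of_mem this)
  omega

/-- The empty list. -/
theorem PolyC.nil {D : α → Prop} {ctx : List (α → List Bool)} :
    PolyC orc D ctx (fun _ => []) := by
  refine ⟨.skip, 1, fun a _ => ⟨1, by simp, ?_⟩⟩
  rw [R_append_nil]
  exact Run.skip _

/-- Consing a fixed bit. -/
theorem PolyC.cons {D : α → Prop} {ctx : List (α → List Bool)} {t : α → List Bool} (b : Bool)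
    (h : PolyC orc D ctx t) : PolyC orc D ctx (fun a => b :: t a) := by
  obtain ⟨P, p, hP⟩ := h
  refine ⟨.seq P (.push ctx.length b), p + 2, fun a ha => ?_⟩
  obtain ⟨n, hn, hr⟩ := hP a ha
  have h2 := Run.push (O := orc a) (R (vals ctx a ++ [t a])) (vals ctx a).length b
  rw [R_update, R_length] at h2
  have e2 : ctx.length = (vals ctx a).length := by simp
  refine ⟨_, ?_, by rw [e2]; exact Run.seq hr h2⟩
  simp only [Polynomial.eval_add, Polynomial.eval_ofNat]
  omega

/-- Tail. -/
theorem PolyC.tail {D : α → Prop} {ctx : List (α → List Bool)} {t : α → List Bool}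
    (h : PolyC orc D ctx t) : PolyC orc D ctx (fun a => (t a).tail) := by
  obtain ⟨P, p, hP⟩ := h
  refine ⟨.seq P (.pop ctx.length), p + 2, fun a ha => ?_⟩
  obtain ⟨n, hn, hr⟩ := hP a ha
  have h2 := Run.pop (O := orc a) (R (vals ctx a ++ [t a])) (vals ctx a).length
  rw [R_update, R_length] at h2
  have e2 : ctx.length = (vals ctx a).length := by simp
  refine ⟨_, ?_, by rw [e2]; exact Run.seq hr h2⟩
  simp only [Polynomial.eval_add, Polynomial.eval_ofNat]
  omega

/-- Case distinction on the head of a list. The branches may be verified on the restricted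
domains. -/
theorem PolyC.cases {D : α → Prop} {ctx : List (α → List Bool)} {t u0 u1 u2 : α → List Bool}
    (h : PolyC orc D ctx t) (h0 : PolyC orc (fun a => D a ∧ t a = []) ctx u0)
    (h1 : PolyC orc (fun a => D a ∧ (t a).head? = some false) ctx u1)
    (h2 : PolyC orc (fun a => D a ∧ (t a).head? = some true) ctx u2) :
    PolyC orc D ctx (fun a => match (t a).head? with
      | none => u0 a
      | some false => u1 a
      | some true => u2 a) := by
  obtain ⟨P, p, hP⟩ := h
  obtain ⟨P0, p0, hP0⟩ := h0
  obtain ⟨P1, p1, hP1⟩ := h1
  obtain ⟨P2, p2, hP2⟩ := h2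
  refine ⟨.seq P (.branch ctx.length (.seq (clear ctx.length) P2) (.seq (clear ctx.length) P1)
    (.seq (clear ctx.length) P0)), p + 2 * p + 4 + p0 + p1 + p2, fun a ha => ?_⟩
  obtain ⟨n, hn, hr⟩ := hP a ha
  have e2 : ctx.length = (vals ctx a).length := by simp
  have hlt : (t a).length ≤ n := by
    have := hr.length_le (vals ctx a).length
    rw [R_length, R_of_ge le_rfl] at this
    simpa using this
  have hc := run_clear (O := orc a) (vals ctx a).length (R (vals ctx a ++ [t a]))
  rw [R_update, R_length, R_append_nil] at hc
  rw [← e2] at hc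
  have key : ∀ (Q : Prog) (q : Polynomial ℕ) (u : α → List Bool)
      (hQ : ∃ n, n ≤ q.eval (total (vals ctx a)) ∧
        Run (orc a) Q (R (vals ctx a)) (R (vals ctx a ++ [u a])) n),
      ∃ n, n ≤ 2 * (t a).length + 2 + q.eval (total (vals ctx a)) ∧
        Run (orc a) (.seq (clear ctx.length) Q) (R (vals ctx a ++ [t a])) (R (vals ctx a ++ [u a])) n := by
    rintro Q q u ⟨m, hm, hrm⟩
    exact ⟨_, by omega, Run.seq hc hrm⟩
  have hreg : R (vals ctx a ++ [t a]) ctx.length = t a := by rw [e2, R_length]
  rcases hta : t a with _ | ⟨b, l⟩
  · obtain ⟨m, hm, hrm⟩ := key P0 p0 u0 (hP0 a ⟨ha, hta⟩)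
    simp only [hta, List.head?_nil]
    rw [hta] at hr hrm hreg
    refine ⟨_, ?_, Run.seq hr (Run.casesNil hreg hrm)⟩
    simp only [Polynomial.eval_add, Polynomial.eval_one, Polynomial.eval_mul,
      Polynomial.eval_ofNat]
    omega
  · cases b with
    | false =>
      obtain ⟨m, hm, hrm⟩ := key P1 p1 u1 (hP1 a ⟨ha, by rw [hta]; rfl⟩)
      simp only [hta, List.head?_cons]
      rw [hta] at hr hrm hreg
      refine ⟨_, ?_, Run.seq hr (Run.casesFalse hreg hrm)⟩
      simp only [Polynomial.eval_add, Polynomial.eval_one, Polynomial.eval_mul,
        Polynomial.eval_ofNat]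
      omega
    | true =>
      obtain ⟨m, hm, hrm⟩ := key P2 p2 u2 (hP2 a ⟨ha, by rw [hta]; rfl⟩)
      simp only [hta, List.head?_cons]
      rw [hta] at hr hrm hreg
      refine ⟨_, ?_, Run.seq hr (Run.casesTrue hreg hrm)⟩
      simp only [Polynomial.eval_add, Polynomial.eval_one, Polynomial.eval_mul,
        Polynomial.eval_ofNat]
      omega

/-- Lift a context to a larger parameter type. -/
def lift (ctx : List (α → List Bool)) : List (α × β → List Bool) :=
  ctx.map (fun f => fun p => f p.1)

@[simp] theorem vals_lift (ctx : List (α → List Bool)) (p : α × β) :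
    vals (lift ctx) p = vals ctx p.1 := by
  simp [vals, lift]

@[simp] theorem lift_length (ctx : List (α → List Bool)) :
    (lift (β := β) ctx).length = ctx.length := by simp [lift]

theorem PolyC.lift {D : α → Prop} {D' : α × β → Prop} {ctx : List (α → List Bool)}
    {t : α → List Bool} (h : PolyC orc D ctx t) (hD : ∀ p, D' p → D p.1) :
    PolyC (fun p : α × β => orc p.1) D' (PC.lift ctx) (fun p => t p.1) :=
  h.reindex Prod.fst hD

/-- Bounded recursion on notation. -/
theorem PolyC.recOn {D : α → Prop} {ctx : List (α → List Bool)} {x : α → List Bool}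
    (F : α → List Bool → List Bool)
    (hx : PolyC orc D ctx x) (h0 : PolyC orc D ctx (fun a => F a []))
    (hstep : ∀ b : Bool, PolyC (fun p : α × List Bool => orc p.1) (fun p => D p.1 ∧ (b :: p.2) <:+ x p.1)
      (PC.lift ctx ++ [fun p => p.2, fun p => F p.1 p.2]) (fun p => F p.1 (b :: p.2)))
    (hB : ∃ B : Polynomial ℕ, ∀ a, D a → ∀ l, l <:+ x a →
      (F a l).length ≤ B.eval (total (vals ctx a))) :
    PolyC orc D ctx (fun a => F a (x a)) := by
  obtain ⟨Px, px, hPx⟩ := hx
  obtain ⟨P0, p0, hP0⟩ := h0.weakenRight [x]
  obtain ⟨B, hB⟩ := hB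
  -- step programs, with one more register (the remaining input)
  have hstep' : ∀ b : Bool, ∃ (Q : Prog) (q : Polynomial ℕ), ∀ a, D a → ∀ l, (b :: l) <:+ x a →
      ∀ rem : List Bool, ∃ n, n ≤ q.eval (total (vals ctx a) + l.length + (F a l).length +
        rem.length) ∧
        Run (orc a) Q (R (vals ctx a ++ [l, F a l, rem])) (R (vals ctx a ++ [l, F a l, rem, F a (b :: l)]))
          n := by
    intro b
    obtain ⟨Q, q, hQ⟩ := ((hstep b).reindex (β := (α × List Bool) × List Bool)
      (D' := fun z => D z.1.1 ∧ (b :: z.1.2) <:+ x z.1.1) Prod.fst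
      (fun z hz => hz)).weakenRight [fun z => z.2]
    refine ⟨Q, q, fun a ha l hl rem => ?_⟩
    obtain ⟨n, hn, hr⟩ := hQ ((a, l), rem) ⟨ha, hl⟩
    have e : vals (List.map (fun f => f ∘ Prod.fst)
        (PC.lift ctx ++ [fun p : α × List Bool => p.2, fun p => F p.1 p.2]) ++
        [fun z => z.2]) ((a, l), rem) = vals ctx a ++ [l, F a l, rem] := by
      simp [vals, PC.lift]
    rw [e] at hn hr
    refine ⟨n, hn.trans (eval_mono _ ?_), ?_⟩
    · simp only [total_append, total_cons, total_nil]; omega
    · simpa using hr
  obtain ⟨Qf, qf, hQf⟩ := hstep' false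
  obtain ⟨Qt, qt, hQt⟩ := hstep' true
  set w := ctx.length with hw
  let fin (b : Bool) : Prog := .seq (clear (w + 1)) (.seq (move (w + 3) (w + 1) (w + 4))
    (.seq (.pop (w + 2)) (.push w b)))
  let body : Prog := .branch (w + 2) (.seq Qt (fin true)) (.seq Qf (fin false)) .skip
  -- bound for one iteration
  let arg : Polynomial ℕ := Polynomial.X + px + B + px
  let C : Polynomial ℕ := qf.comp arg + qt.comp arg + 12 * B + 20
  refine ⟨.seq Px (.seq P0 (.seq (moveRev w (w + 2)) (.seq (.loop (w + 2) body)
    (.seq (clear w) (move (w + 1) w (w + 2)))))),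
    px + (p0.comp (Polynomial.X + px) + ((5 * px + 1) + (px * (C + 1) + 1 +
      ((2 * px + 1) + (10 * B + 10))))), fun a ha => ?_⟩
  have e2 : w = (vals ctx a).length := by simp [hw]
  set V := vals ctx a with hV
  obtain ⟨n1, hn1, hr1⟩ := hPx a ha
  obtain ⟨n2, hn2, hr2⟩ := hP0 a ha
  rw [← hV] at hn1 hr1
  have hx1 : (x a).length ≤ px.eval (total V) := by
    have := hr1.length_le V.length
    rw [R_length, R_of_ge le_rfl] at this
    simp only [List.length_nil, Nat.zero_add] at this
    omega
  have ev : vals (ctx ++ [x]) a = V ++ [x a] := by simp [hV]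
  rw [ev] at hn2 hr2
  have hn2' : n2 ≤ p0.eval (total V + px.eval (total V)) := by
    refine hn2.trans (eval_mono _ ?_)
    simp only [total_append, total_cons, total_nil]
    omega
  -- reverse the input
  have hr3 : Run (orc a) (moveRev w (w + 2)) (R (V ++ [x a, F a []]))
      (R (V ++ [[], F a [], (x a).reverse])) (5 * (x a).length + 1) := by
    have h := run_moveRev (O := orc a) (r := V.length) (s := V.length + 2) (by omega)
      (R (V ++ [x a, F a []]))
    have e3 : R (V ++ [x a, F a []]) = R (V ++ [x a, F a [], []]) := by
      have := R_append_nil (V ++ [x a, F a []])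
      simpa using this.symm
    rw [e2]
    rw [e3, R_length, R_update, R_length2, List.append_nil, R_update2] at h
    rw [e3]
    exact h
  -- one iteration
  have hfin : ∀ (b : Bool) (l rem : List Bool), (b :: l) <:+ x a →
      ∃ n, n ≤ 12 * B.eval (total V) + 12 ∧
      Run (orc a) (fin b) (R (V ++ [l, F a l, b :: rem, F a (b :: l)]))
        (R (V ++ [b :: l, F a (b :: l), rem])) n := by
    intro b l rem hl
    have hl' : l <:+ x a := (List.suffix_cons b l).trans hl
    have b1 := hB a ha l hl'
    have b2 := hB a ha (b :: l) hl
    have h1 := run_clear (O := orc a) (V.length + 1) (R (V ++ [l, F a l, b :: rem, F a (b :: l)]))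
    rw [R_length1, R_update1] at h1
    have h2 := run_move (O := orc a) (r := V.length + 3) (s := V.length + 1) (tmp := V.length + 4)
      (by omega) (by omega) (by omega) (R (V ++ [l, [], b :: rem, F a (b :: l)]))
      (by rw [R_of_ge]; simp)
    rw [R_length3, R_update3, R_length1, R_update1, List.append_nil] at h2
    have h3 := Run.pop (O := orc a) (R (V ++ [l, F a (b :: l), b :: rem, []])) (V.length + 2)
    rw [R_length2, R_update2, List.tail_cons] at h3
    have h4 := Run.push (O := orc a) (R (V ++ [l, F a (b :: l), rem, []])) V.length b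
    rw [R_length, R_update] at h4
    have e4 : R (V ++ [b :: l, F a (b :: l), rem, []]) = R (V ++ [b :: l, F a (b :: l), rem]) := by
      have := R_append_nil (V ++ [b :: l, F a (b :: l), rem])
      simpa using this
    rw [e4] at h4
    have h5 := Run.seq h1 (Run.seq h2 (Run.seq h3 h4))
    refine ⟨_, ?_, by simp only [fin, e2]; exact h5⟩
    rw [← hV] at b1 b2
    omega
  have hbody : ∀ (b : Bool) (l rem : List Bool), rem.reverse ++ b :: l = x a →
      ∃ n, n ≤ C.eval (total V) ∧
      Run (orc a) body (R (V ++ [l, F a l, b :: rem])) (R (V ++ [b :: l, F a (b :: l), rem])) n := by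
    intro b l rem hxl
    have hsuf : (b :: l) <:+ x a := ⟨rem.reverse, hxl⟩
    have hlen : rem.length + (l.length + 1) = (x a).length := by
      rw [← hxl]; simp
    have b1 := hB a ha l ((List.suffix_cons b l).trans hsuf)
    rw [← hV] at b1
    obtain ⟨n, hn, hr⟩ := hfin b l rem hsuf
    have hreg : R (V ++ [l, F a l, b :: rem]) (w + 2) = b :: rem := by rw [e2, R_length2]
    have harg : total V + l.length + (F a l).length + (b :: rem).length ≤
        arg.eval (total V) := by
      simp only [arg, Polynomial.eval_add, Polynomial.eval_X, List.length_cons]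
      omega
    cases b with
    | false =>
      obtain ⟨m, hm, hrm⟩ := hQf a ha l hsuf (false :: rem)
      refine ⟨_, ?_, Run.casesFalse hreg (Run.seq hrm hr)⟩
      have := hm.trans (eval_mono qf harg)
      simp only [C, Polynomial.eval_add, Polynomial.eval_comp, Polynomial.eval_mul,
        Polynomial.eval_ofNat]
      omega
    | true =>
      obtain ⟨m, hm, hrm⟩ := hQt a ha l hsuf (true :: rem)
      refine ⟨_, ?_, Run.casesTrue hreg (Run.seq hrm hr)⟩
      have := hm.trans (eval_mono qt harg)
      simp only [C, Polynomial.eval_add, Polynomial.eval_comp, Polynomial.eval_mul,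
        Polynomial.eval_ofNat]
      omega
  -- the loop
  have hloop : ∀ (rem l : List Bool), rem.reverse ++ l = x a →
      ∃ n, n ≤ rem.length * (C.eval (total V) + 1) + 1 ∧
      Run (orc a) (.loop (w + 2) body) (R (V ++ [l, F a l, rem])) (R (V ++ [x a, F a (x a), []])) n := by
    intro rem
    induction rem with
    | nil =>
      intro l hl
      simp only [List.reverse_nil, List.nil_append] at hl
      subst hl
      exact ⟨1, by simp, Run.loopNil (by rw [e2, R_length2])⟩
    | cons b rem ih =>
      intro l hl
      have hl' : rem.reverse ++ b :: l = x a := by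
        rw [← hl]; simp
      obtain ⟨n, hn, hr⟩ := hbody b l rem hl'
      obtain ⟨m, hm, hrm⟩ := ih (b :: l) hl'
      refine ⟨_, ?_, Run.loopCons (by rw [e2, R_length2]; simp) hr hrm⟩
      simp only [List.length_cons]
      rw [Nat.add_mul, Nat.one_mul]
      omega
  obtain ⟨n4, hn4, hr4⟩ := hloop (x a).reverse [] (by simp)
  -- final clean-up
  have h5 := run_clear (O := orc a) V.length (R (V ++ [x a, F a (x a), []]))
  rw [R_length, R_update] at h5
  have h6 := run_move (O := orc a) (r := V.length + 1) (s := V.length) (tmp := V.length + 2)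
    (by omega) (by omega) (by omega) (R (V ++ [[], F a (x a), []]))
    (by rw [R_length2])
  rw [R_length1, R_update1, R_length, R_update, List.append_nil] at h6
  have e6 : R (V ++ [F a (x a), [], []]) = R (V ++ [F a (x a)]) := by
    have h1 := R_append_nil (V ++ [F a (x a)])
    have h2 := R_append_nil (V ++ [F a (x a), []])
    simp only [List.append_assoc, List.cons_append, List.nil_append] at h1 h2
    rw [h2, h1]
  rw [e6] at h6
  rw [← e2] at h5 h6
  have hr2' : Run (orc a) P0 (R (V ++ [x a])) (R (V ++ [x a, F a []])) n2 := by simpa using hr2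
  have h7 := Run.seq hr1 (Run.seq hr2' (Run.seq hr3 (Run.seq hr4 (Run.seq h5 h6))))
  refine ⟨_, ?_, h7⟩
  have b3 := hB a ha (x a) List.suffix_rfl
  rw [← hV] at b3
  have b4 : (x a).length * (C.eval (total V) + 1) ≤
      px.eval (total V) * (C.eval (total V) + 1) := Nat.mul_le_mul_right _ hx1
  simp only [List.length_reverse] at hn4
  simp only [Polynomial.eval_add, Polynomial.eval_comp, Polynomial.eval_X, Polynomial.eval_mul,
    Polynomial.eval_ofNat, Polynomial.eval_one]
  omega

/-- Asking the oracle. -/
theorem PolyC.query {D : α → Prop} {ctx : List (α → List Bool)} {t : α → List Bool}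
    (h : PolyC orc D ctx t) : PolyC orc D ctx (fun a => [orc a (t a)]) := by
  obtain ⟨P, p, hP⟩ := h
  refine ⟨.seq P (.seq (.query ctx.length (ctx.length + 1)) (.seq (clear ctx.length)
    (move (ctx.length + 1) ctx.length (ctx.length + 2)))), 3 * p + 30, fun a ha => ?_⟩
  obtain ⟨n, hn, hr⟩ := hP a ha
  have hlt : (t a).length ≤ n := by
    have := hr.length_le (vals ctx a).length
    rw [R_length, R_of_ge le_rfl] at this
    simpa using this
  have e2 : ctx.length = (vals ctx a).length := by simp
  have h2 := Run.query (O := orc a) (R (vals ctx a ++ [t a, []])) (vals ctx a).length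
    ((vals ctx a).length + 1)
  rw [R_length, R_length1, R_update1] at h2
  have e0 : R (vals ctx a ++ [t a, []]) = R (vals ctx a ++ [t a]) := by
    have := R_append_nil (vals ctx a ++ [t a])
    simpa using this
  rw [e0] at h2
  have h3 := run_clear (O := orc a) (vals ctx a).length (R (vals ctx a ++ [t a, [orc a (t a)]]))
  rw [R_update, R_length] at h3
  have h4 := run_move (O := orc a) (r := (vals ctx a).length + 1) (s := (vals ctx a).length)
    (tmp := (vals ctx a).length + 2) (by omega) (by omega) (by omega)
    (R (vals ctx a ++ [[], [orc a (t a)]])) (by rw [R_of_ge]; simp)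
  rw [R_update1, R_length1, R_update, R_length, List.append_nil] at h4
  have e3 : R (vals ctx a ++ [[orc a (t a)], []]) = R (vals ctx a ++ [[orc a (t a)]]) := by
    have := R_append_nil (vals ctx a ++ [[orc a (t a)]])
    simpa using this
  rw [e3] at h4
  refine ⟨_, ?_, by rw [e2]; exact Run.seq hr (Run.seq h2 (Run.seq h3 h4))⟩
  simp only [Polynomial.eval_add, Polynomial.eval_mul, Polynomial.eval_ofNat, List.length_singleton]
  omega

end Pool.Agent.Lib.Pa76659G.PC
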