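import Pool.Agent.Lib.Pa76659G.Pair
import Pool.Agent.Lib.Pa76659.Sem

set_option autoImplicit false

/-!
From the calculus `PolyC` to the classes `PO`, `NPO`.
-/

namespace Pool.Agent.Lib.Pa76659G.PC

open Pool.Agent.Lib.Pa76659 (Str Lang Prog Cfg step runN Exec PO NPO inp inp2 Halts accepts)

/-- A computable predicate of one string is in `P`. -/
theorem mem_PO {O L : Lang} (h : PolyB (fun _ : Str => O) (fun _ => True) [fun x => x] L) :
    L ∈ PO O := by
  obtain ⟨P, p, hP⟩ := h
  refine ⟨.seq P (.seq (clear 0) (move 1 0 2)), p + 2 * Polynomial.X + 20, fun x => ?_⟩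
  obtain ⟨n, hn, hr⟩ := hP x trivial
  simp only [vals_cons, vals_nil, total_cons, total_nil, Nat.add_zero, List.cons_append,
    List.nil_append] at hn hr
  have h1 := run_clear (O := O) 0 (R [x, [L x]])
  have e1 : Function.update (R [x, [L x]]) 0 [] = R [[], [L x]] := R_update [] x [] [[L x]]
  have e2 : R [x, [L x]] 0 = x := R_length [] x [[L x]]
  rw [e1, e2] at h1
  have h2 := run_move (O := O) (r := 1) (s := 0) (tmp := 2) (by omega) (by omega) (by omega)
    (R [[], [L x]]) (by rw [R_of_ge]; simp)
  have e3 : R [[], [L x]] 1 = [L x] := R_length [[]] [L x] []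
  have e4 : R [[], [L x]] 0 = [] := R_length [] [] [[L x]]
  have e5 : Function.update (R [[], [L x]]) 1 [] = R [[], []] := R_update [[]] [L x] [] []
  have e6 : Function.update (R [[], []]) 0 [L x] = R [[L x], []] := R_update [] [] [L x] [[]]
  rw [e3, e4, e5, List.append_nil, e6] at h2
  have h3 := (Run.seq hr (Run.seq h1 h2)).exec
  have e7 : R [x] = inp x := by
    funext i
    rcases i with _ | i
    · simp [R, inp]
    · simp [R, inp]
  rw [e7] at h3
  have h4 := h3.halts (N := (p + 2 * Polynomial.X + 20).eval x.length) (by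
    simp only [Polynomial.eval_add, Polynomial.eval_mul, Polynomial.eval_X, Polynomial.eval_ofNat,
      List.length_singleton]
    omega)
  refine ⟨h4.1, ?_⟩
  rw [h4.2]
  have e8 : R [[L x], []] 0 = [L x] := R_length [] [L x] [[]]
  rw [e8]
  cases L x <;> rfl

theorem mem_PO2 {O : Lang} {V : Str × Str → Bool}
    (h : PolyB (fun _ : Str × Str => O) (fun _ => True) [fun p => p.1, fun p => p.2] V) :
    ∃ (M : Prog) (p : Polynomial ℕ), ∀ x y : Str, ∀ N, p.eval (x.length + y.length) ≤ N →
      Halts O M (inp2 x y) N ∧ accepts O M (inp2 x y) N = V (x, y) := by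
  obtain ⟨P, p, hP⟩ := h
  refine ⟨.seq P (.seq (clear 0) (move 2 0 3)), p + 2 * Polynomial.X + 20, fun x y N hN => ?_⟩
  obtain ⟨n, hn, hr⟩ := hP (x, y) trivial
  simp only [vals_cons, vals_nil, total_cons, total_nil, Nat.add_zero, List.cons_append,
    List.nil_append] at hn hr
  have h1 := run_clear (O := O) 0 (R [x, y, [V (x, y)]])
  have e1 : Function.update (R [x, y, [V (x, y)]]) 0 [] = R [[], y, [V (x, y)]] :=
    R_update [] x [] [y, [V (x, y)]]
  have e2 : R [x, y, [V (x, y)]] 0 = x := R_length [] x [y, [V (x, y)]]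
  rw [e1, e2] at h1
  have h2 := run_move (O := O) (r := 2) (s := 0) (tmp := 3) (by omega) (by omega) (by omega)
    (R [[], y, [V (x, y)]]) (by rw [R_of_ge]; simp)
  have e3 : R [[], y, [V (x, y)]] 2 = [V (x, y)] := R_length [[], y] [V (x, y)] []
  have e4 : R [[], y, [V (x, y)]] 0 = [] := R_length [] [] [y, [V (x, y)]]
  have e5 : Function.update (R [[], y, [V (x, y)]]) 2 [] = R [[], y, []] :=
    R_update [[], y] [V (x, y)] [] []
  have e6 : Function.update (R [[], y, []]) 0 [V (x, y)] = R [[V (x, y)], y, []] :=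
    R_update [] [] [V (x, y)] [y, []]
  rw [e3, e4, e5, List.append_nil, e6] at h2
  have h3 := (Run.seq hr (Run.seq h1 h2)).exec
  have e7 : R [x, y] = inp2 x y := by
    funext i
    rcases i with _ | _ | i
    · simp [R, inp2]
    · simp [R, inp2]
    · simp [R, inp2]
  rw [e7] at h3
  have h4 := h3.halts (N := N) (by
    simp only [Polynomial.eval_add, Polynomial.eval_mul, Polynomial.eval_X, Polynomial.eval_ofNat,
      List.length_singleton] at hN ⊢
    omega)
  refine ⟨h4.1, ?_⟩
  rw [h4.2]
  have e8 : R [[V (x, y)], y, []] 0 = [V (x, y)] := R_length [] [V (x, y)] [y, []]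
  rw [e8]
  cases V (x, y) <;> rfl

/-- A language defined by polynomially long witnesses is in `NP`. -/
theorem mem_NPO {O L : Lang} {V : Str × Str → Bool} (q : Polynomial ℕ)
    (hV : PolyB (fun _ : Str × Str => O) (fun _ => True) [fun p => p.1, fun p => p.2] V)
    (h : ∀ x, L x = true ↔ ∃ y : Str, y.length = q.eval x.length ∧ V (x, y) = true) :
    L ∈ NPO O := by
  obtain ⟨M, p, hM⟩ := mem_PO2 hV
  refine ⟨M, p.comp (Polynomial.X + q), q, fun x => ⟨fun y hy => ?_, ?_⟩⟩
  · refine (hM x y _ ?_).1
    simp only [Polynomial.eval_comp, Polynomial.eval_add, Polynomial.eval_X, hy]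
    exact le_rfl
  · rw [h x]
    constructor
    · rintro ⟨y, hy, hv⟩
      refine ⟨y, hy, ?_⟩
      rw [(hM x y _ ?_).2, hv]
      simp only [Polynomial.eval_comp, Polynomial.eval_add, Polynomial.eval_X, hy]
      exact le_rfl
    · rintro ⟨y, hy, hv⟩
      refine ⟨y, hy, ?_⟩
      rw [(hM x y _ ?_).2] at hv
      · exact hv
      · simp only [Polynomial.eval_comp, Polynomial.eval_add, Polynomial.eval_X, hy]
        exact le_rfl

theorem afterTrue_length_le (l : Str) : (afterTrue l).length ≤ l.length - 1 := by
  induction l with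
  | nil => simp [afterTrue]
  | cons b l ih =>
    cases b
    · simp [afterTrue]
    · simp only [afterTrue, List.length_cons]; omega

/-- The same with witnesses of bounded length. -/
theorem mem_NPO_le {O L : Lang} {V : Str × Str → Bool} (q : Polynomial ℕ)
    (hV : PolyB (fun _ : Str × Str => O) (fun _ => True) [fun p => p.1, fun p => p.2] V)
    (h : ∀ x, L x = true ↔ ∃ y : Str, y.length ≤ q.eval x.length ∧ V (x, y) = true) :
    L ∈ NPO O := by
  have hV' : PolyB (fun _ : Str × Str => O) (fun _ => True) [fun p => p.1, fun p => p.2]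
      (fun p => V (p.1, afterTrue p.2)) := by
    have h1 : PolyC (fun _ : Str × Str => O) (fun _ => True) ([fun p => p.1, fun p => p.2].map
        (fun f => f ∘ fun p : Str × Str => (p.1, afterTrue p.2))) (fun p => [V (p.1, afterTrue p.2)]) :=
      PolyC.reindex (D' := fun _ => True) hV (fun p : Str × Str => (p.1, afterTrue p.2)) (fun _ _ => trivial)
    refine PolyC.comp h1 ?_
    intro f hf
    simp only [List.map_cons, List.map_nil, List.mem_cons, List.not_mem_nil, or_false] at hf
    rcases hf with rfl | rfl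
    · exact PolyC.var (f := fun p : Str × Str => p.1) (by simp)
    · exact PolyC.afterTrue (PolyC.var (f := fun p : Str × Str => p.2) (by simp))
  refine mem_NPO (q + 1) hV' (fun x => ?_)
  rw [h x]
  constructor
  · rintro ⟨y, hy, hv⟩
    refine ⟨una (q.eval x.length - y.length) ++ false :: y, ?_, ?_⟩
    · simp only [List.length_append, un_length, List.length_cons, Polynomial.eval_add,
        Polynomial.eval_one]
      omega
    · show V (x, afterTrue _) = true
      rw [afterTrue_un]
      exact hv
  · rintro ⟨y, hy, hv⟩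
    refine ⟨afterTrue y, ?_, hv⟩
    have := afterTrue_length_le y
    rw [hy, Polynomial.eval_add, Polynomial.eval_one] at this
    omega

end Pool.Agent.Lib.Pa76659G.PC
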