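import Pool.Agent.Lib.Pa76659.Basic

set_option autoImplicit false

/-!
Category on the space of oracles: criteria with finite conditions.
-/

namespace Pool.Agent.Lib.Pa76659G

open Pool.Agent.Lib.Pa76659

/-- all oracles that agree with `G` on the strings shorter than `N` -/
def nb (G : Lang) (N : ℕ) : Set Lang := {G' | ∀ v : Str, v.length < N → G' v = G v}

theorem nb_self (G : Lang) (N : ℕ) : G ∈ nb G N := fun _ _ => rfl

theorem nb_open (G : Lang) (N : ℕ) : IsOpen (nb G N) := by
  have h : nb G N = Set.pi {v : Str | v.length < N} (fun v => {G v}) := by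
    ext G'
    simp [nb, Set.mem_pi]
  rw [h]
  exact isOpen_set_pi (List.finite_length_lt Bool N) fun v _ => isOpen_discrete _

theorem nb_basis {G : Lang} {U : Set Lang} (hU : IsOpen U) (hG : G ∈ U) : ∃ N, nb G N ⊆ U := by
  rw [isOpen_pi_iff] at hU
  obtain ⟨I, u, hu, hsub⟩ := hU G hG
  refine ⟨I.sup List.length + 1, fun G' hG' => hsub ?_⟩
  intro v hv
  have h1 : v.length ≤ I.sup List.length := Finset.le_sup (f := List.length) hv
  rw [hG' v (by omega)]
  exact (hu v hv).2

theorem nb_trans {G G' : Lang} {N : ℕ} (h : G' ∈ nb G N) {G'' : Lang} (h' : G'' ∈ nb G' N) :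
    G'' ∈ nb G N := fun v hv => (h' v hv).trans (h v hv)

/-- A property decided by finite parts of the oracle which can always be forced holds for
comeager many oracles. -/
theorem residual_of (P : Lang → Prop) (h1 : ∀ G, P G → ∃ N, ∀ G' ∈ nb G N, P G')
    (h2 : ∀ G N, ∃ G' ∈ nb G N, P G') : ∀ᶠ G in residual Lang, P G := by
  have ho : IsOpen {G | P G} := by
    rw [isOpen_iff_forall_mem_open]
    intro G hG
    obtain ⟨N, hN⟩ := h1 G hG
    exact ⟨nb G N, fun G' hG' => hN G' hG', nb_open G N, nb_self G N⟩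
  have hd : Dense {G | P G} := by
    intro G
    rw [mem_closure_iff]
    intro U hU hG
    obtain ⟨N, hN⟩ := nb_basis hU hG
    obtain ⟨G', hG', hP⟩ := h2 G N
    exact ⟨G', hN hG', hP⟩
  exact residual_of_dense_open ho hd

/-- Let `P` be a property whose failure is decided by finite parts of the oracle. Then for comeager
many oracles with the property `P` a finite part of the oracle already forces `P`. -/
theorem forced_of (P : Lang → Prop) (h1 : ∀ G, ¬ P G → ∃ N, ∀ G' ∈ nb G N, ¬ P G') :
    ∀ᶠ G in residual Lang, P G → ∃ N, ∀ G' ∈ nb G N, P G' := by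
  refine (residual_of (fun G => ¬ P G ∨ ∃ N, ∀ G' ∈ nb G N, P G') ?_ ?_).mono ?_
  · rintro G (h | ⟨N, hN⟩)
    · obtain ⟨N, hN⟩ := h1 G h
      exact ⟨N, fun G' hG' => Or.inl (hN G' hG')⟩
    · exact ⟨N, fun G' hG' => Or.inr ⟨N, fun G'' hG'' => hN G'' (nb_trans hG' hG'')⟩⟩
  · intro G N
    by_cases h : ∃ G' ∈ nb G N, ¬ P G'
    · obtain ⟨G', hG', hP⟩ := h
      exact ⟨G', hG', Or.inl hP⟩
    · push Not at h
      exact ⟨G, nb_self G N, Or.inr ⟨N, h⟩⟩
  · rintro G (h | h) hP
    · exact absurd hP h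
    · exact h

/-- A non-meager set whose complement is decided by finite parts contains all oracles extending
some finite part. -/
theorem exists_forced (P : Lang → Prop) (h1 : ∀ G, ¬ P G → ∃ N, ∀ G' ∈ nb G N, ¬ P G')
    (h : ¬ IsMeagre {G | P G}) : ∃ G N, ∀ G' ∈ nb G N, P G' := by
  by_contra hcon
  push Not at hcon
  apply h
  have h2 := residual_of (fun G => ¬ P G) h1 hcon
  have h3 : {G | P G}ᶜ ∈ residual Lang := h2
  exact h3

theorem side_mem (b : Bool) (O L : Lang) (h : ∀ x, O (b :: x) = L x) : L ∈ PO O := by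
  refine ⟨Prog.seq (Prog.push 0 b) (Prog.query 0 0), 3, fun x => ?_⟩
  have h1 := exec_push (O := O) 0 b (inp x)
  have h2 := exec_query (O := O) 0 0 (Function.update (inp x) 0 (b :: inp x 0))
  have h3 := (h1.seq h2).halts (N := 3) le_rfl
  rw [Polynomial.eval_ofNat]
  refine ⟨h3.1, ?_⟩
  rw [h3.2]
  simp [inp, h]

theorem left_mem (Y G : Lang) : Y ∈ PO (join Y G) := side_mem false _ _ fun _ => rfl

theorem right_mem (Y G : Lang) : G ∈ PO (join Y G) := side_mem true _ _ fun _ => rfl

end Pool.Agent.Lib.Pa76659G
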