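import Pool.Agent.Lib.Pa76659G.Thr

set_option autoImplicit false

/-!
Certified runs: if positive and negative answers of the oracle `O` have certificates checked by
computable predicates `P`, `Q`, then so have the runs of a program with the oracle `O`.
-/

namespace Pool.Agent.Lib.Pa76659G.PC

open Pool.Agent.Lib.Pa76659 (Str Lang Prog Cfg step runN Exec PO NPO inp inp2 Halts accepts Bdd Sig
  join PIx NIx pEval nEval)

/-! ### Queries -/

/-- The query of a configuration. -/
def qry : Cfg → Option Str
  | (Prog.query r _ :: _, s) => some (s r)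
  | _ => none

theorem step_some {O O' : Lang} {c : Cfg} {q : Str} (h : qry c = some q) (h' : O q = O' q) :
    step O c = step O' c := by
  obtain ⟨κ, s⟩ := c
  rcases κ with _ | ⟨p, k⟩
  · simp [qry] at h
  · cases p <;> simp [qry] at h
    subst h
    simp [step, h']

theorem step_none {c : Cfg} (h : qry c = none) (O O' : Lang) : step O c = step O' c := by
  obtain ⟨κ, s⟩ := c
  rcases κ with _ | ⟨p, k⟩
  · rfl
  · cases p <;> first | rfl | simp [qry] at h

theorem qry_bdd {m : ℕ} {c : Cfg} {q : Str} (h : Bdd m c.2) (hq : qry c = some q) :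
    q.length ≤ m := by
  obtain ⟨κ, s⟩ := c
  rcases κ with _ | ⟨p, k⟩
  · simp [qry] at hq
  · cases p <;> simp [qry] at hq
    subst hq
    exact h _

/-- The virtual oracle given by a list of answers. -/
def ansO (ans : Str) : ℕ → Lang := fun k _ => ans.getD k false

theorem runT_eq {O : Lang} {ans : Str} {c : Cfg} : ∀ {n : ℕ},
    (∀ k < n, ∀ q, qry (runT (ansO ans) k c) = some q → ans.getD k false = O q) →
    runT (ansO ans) n c = runN O n c
  | 0, _ => rfl
  | n + 1, h => by
    have ih := runT_eq (n := n) (fun k hk => h k (by omega))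
    rw [Pa76659.runN_add O n 1 c, ← ih, runT]
    show step (ansO ans n) (runT (ansO ans) n c) = step O (runT (ansO ans) n c)
    rcases hq : qry (runT (ansO ans) n c) with _ | q
    · exact step_none hq _ _
    · exact step_some hq (h n (by omega) q hq)

/-- The true answers. -/
def trueAns (O : Lang) (c : Cfg) (n : ℕ) : Str :=
  (List.range n).map (fun k => match qry (runN O k c) with
    | some q => O q
    | none => false)

theorem trueAns_spec (O : Lang) (c : Cfg) (n : ℕ) : ∀ k ≤ n,
    runT (ansO (trueAns O c n)) k c = runN O k c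
  | 0, _ => rfl
  | k + 1, hk => by
    have ih := trueAns_spec O c n k (by omega)
    rw [Pa76659.runN_add O k 1 c, ← ih, runT]
    show step (ansO (trueAns O c n) k) (runT (ansO (trueAns O c n)) k c) =
      step O (runT (ansO (trueAns O c n)) k c)
    rcases hq : qry (runT (ansO (trueAns O c n)) k c) with _ | q
    · exact step_none hq _ _
    · refine step_some hq ?_
      rw [ih] at hq
      show (trueAns O c n).getD k false = O q
      rw [trueAns, List.getD_eq_getElem _ _ (by simp; omega)]
      simp [hq]

theorem trueAns_get (O : Lang) (c : Cfg) {n k : ℕ} (hk : k < n) {q : Str}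
    (hq : qry (runN O k c) = some q) : (trueAns O c n).getD k false = O q := by
  rw [trueAns, List.getD_eq_getElem _ _ (by simpa using hk)]
  simp [hq]

variable {α : Type} {orc : α → Lang}

theorem PolyC.qry {D : α → Prop} {ctx : List (α → Str)} (M : Prog) (m : ℕ) (hm : M.bnd ≤ m)
    (κ : α → List Prog) (S : α → Regs)
    (hκ : PolyC orc D ctx (fun a => cod M (κ a))) (hK : ∀ a, D a → κ a ∈ KK M)
    (hS : ∀ r < m, PolyC orc D ctx (fun a => S a r)) :
    PolyC orc D ctx (fun a => oc (PC.qry (κ a, S a))) := by
  refine PolyC.finCases M κ (fun i a => oc (PC.qry (i, S a))) hκ hK ?_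
  intro i hi
  have hb := KK_bnd hm hi
  rcases i with _ | ⟨q, k⟩
  · exact PolyC.nil
  · have hq := hb q List.mem_cons_self
    cases q with
    | query r t =>
      have hr : r < m := by
        have : max r t + 1 ≤ m := hq
        omega
      exact ((hS r hr).mono fun _ h => h.1).cons true
    | skip => exact PolyC.nil
    | push r b => exact PolyC.nil
    | pop r => exact PolyC.nil
    | seq p q => exact PolyC.nil
    | branch r p q e => exact PolyC.nil
    | loop r p => exact PolyC.nil

theorem PolyC.qry' {D : α → Prop} {ctx : List (α → Str)} (M : Prog) (c : α → Cfg)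
    (hc : PolyC orc D ctx (fun a => PC.enc M (M.bnd + 1) (c a))) (hK : ∀ a, D a → (c a).1 ∈ KK M) :
    PolyC orc D ctx (fun a => oc (PC.qry (c a))) := by
  have h1 : PolyC orc D ctx (fun a => cod M (c a).1) :=
    (PolyC.fst hc).congr (fun a _ => enc_cod M _ _)
  have h2 : ∀ r < M.bnd + 1, PolyC orc D ctx (fun a => (c a).2 r) := fun r hr =>
    (PolyC.nth (PolyC.snd hc) (PolyN.const r)).congr (fun a _ => enc_reg M _ _ hr)
  exact PolyC.qry M (M.bnd + 1) (by omega) (fun a => (c a).1) (fun a => (c a).2) h1 hK h2

/-! ### Predicates of three strings -/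

/-- Computable predicates of three strings. -/
def PB3 (X : Lang) (P : Str → Str → Str → Bool) : Prop :=
  PolyB (fun _ : Str × Str × Str => X) (fun _ => True)
    [fun p => p.1, fun p => p.2.1, fun p => p.2.2] (fun p => P p.1 p.2.1 p.2.2)

theorem PB3.arg {X : Lang} {P : Str → Str → Str → Bool} (h : PB3 X P) {D : α → Prop}
    {ctx : List (α → Str)} {u z w : α → Str} (hu : PolyC (fun _ => X) D ctx u)
    (hz : PolyC (fun _ => X) D ctx z) (hw : PolyC (fun _ => X) D ctx w) :
    PolyB (fun _ => X) D ctx (fun a => P (u a) (z a) (w a)) := by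
  have h1 : PolyC (fun _ : α => X) D
      ([fun p : Str × Str × Str => p.1, fun p => p.2.1, fun p => p.2.2].map
        (fun f => f ∘ fun a => (u a, z a, w a)))
      (fun a => [P (u a) (z a) (w a)]) :=
    PolyC.reindex (D' := D) h (fun a => (u a, z a, w a)) (fun _ _ => trivial)
  refine PolyC.comp h1 ?_
  intro f hf
  simp only [List.map_cons, List.map_nil, List.mem_cons, List.not_mem_nil, or_false] at hf
  rcases hf with rfl | rfl | rfl
  · exact hu
  · exact hz
  · exact hw

/-- Check of one answer. -/
def chk1 (P Q : Str → Str → Str → Bool) (u o : Str) (b : Bool) (w : Str) : Bool :=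
  if o.isEmpty = true then true else if b = true then P u o.tail w else Q u o.tail w

/-- The configuration of the run with given answers. -/
def cf (M : Prog) (x y ans : Str) (k : ℕ) : Cfg := runT (ansO ans) k ([M], inp2 x y)

theorem cf_KK (M : Prog) (x y ans : Str) (k : ℕ) : (cf M x y ans k).1 ∈ KK M :=
  runT_KK (ansO ans) (inp2 x y) k

/-- Check of all answers. -/
def CHK (P Q : Str → Str → Str → Bool) (M : Prog) (tb : Polynomial ℕ) (u x y ans W : Str) : Prop :=
  ∀ k < tb.eval x.length, chk1 P Q u (oc (qry (cf M x y ans k))) (ans.getD k false) (nth W k) = true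

/-- The answer of the run. -/
def top (c : Cfg) : Bool := (c.2 0).head? == some true

open Classical in
/-- Certified run with answer `b`; the certificate is `w = pr ans W`. -/
noncomputable def crt (P Q : Str → Str → Str → Bool) (M : Prog) (tb : Polynomial ℕ) (b : Bool)
    (u x y w : Str) : Bool :=
  decide (CHK P Q M tb u x y (fst w) (snd w)) && (top (cf M x y (fst w) (tb.eval x.length)) == b)

theorem PolyC.cf {X : Lang} {D : α → Prop} {ctx : List (α → Str)} (M : Prog)
    {x y ans : α → Str} {n : α → ℕ} (hx : PolyC (fun _ => X) D ctx x)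
    (hy : PolyC (fun _ => X) D ctx y) (ha : PolyC (fun _ => X) D ctx ans)
    (hn : PolyN (fun _ => X) D ctx n) :
    PolyC (fun _ => X) D ctx (fun a => PC.enc M (M.bnd + 1) (PC.cf M (x a) (y a) (ans a) (n a))) := by
  obtain ⟨ps, hps⟩ := hx.length_le
  obtain ⟨pt, hpt⟩ := hy.length_le
  refine PolyC.runT (orc := fun _ : α => X) (D := D) (ctx := ctx) M (M.bnd + 1) (by omega)
    (fun a => ansO (ans a)) (fun a => inp2 (x a) (y a)) n ?_ ?_ hn ⟨ps + pt, ?_⟩
  · have h1 : PolyC (fun _ : (α × ℕ) × Str => X) (fun p => D p.1.1 ∧ p.1.2 < n p.1.1)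
        (PC.lift (PC.lift ctx ++ [fun p => una p.2]) ++ [fun p => p.2]) (fun p => ans p.1.1) :=
      (((ha.lift (D' := fun p : α × ℕ => D p.1 ∧ p.2 < n p.1) (fun p hp => hp.1)).weakenRight
        [fun p => una p.2]).lift
        (D' := fun p : (α × ℕ) × Str => D p.1.1 ∧ p.1.2 < n p.1.1) (fun p hp => hp)).weakenRight _
    have h2 : PolyN (fun _ : (α × ℕ) × Str => X) (fun p => D p.1.1 ∧ p.1.2 < n p.1.1)
        (PC.lift (PC.lift ctx ++ [fun p => una p.2]) ++ [fun p => p.2]) (fun p => p.1.2) := by
      refine PolyC.var ?_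
      simp [PC.lift]
    exact PolyB.getD h1 h2
  · intro r _
    rcases r with _ | _ | r
    · exact hx.congr (fun a _ => by simp [inp2])
    · exact hy.congr (fun a _ => by simp [inp2])
    · exact PolyC.nil.congr (fun a _ => by simp [inp2])
  · intro a ha
    refine (Pa76659.inp2_bdd (x a) (y a)).mono ?_
    have h2 := hps a ha
    have h3 := hpt a ha
    rw [Polynomial.eval_add]
    omega

theorem PolyB.crt {X : Lang} {P Q : Str → Str → Str → Bool} (hP : PB3 X P) (hQ : PB3 X Q)
    (M : Prog) (tb : Polynomial ℕ) (b : Bool) {D : α → Prop} {ctx : List (α → Str)}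
    {u x y w : α → Str} (hu : PolyC (fun _ => X) D ctx u) (hx : PolyC (fun _ => X) D ctx x)
    (hy : PolyC (fun _ => X) D ctx y) (hw : PolyC (fun _ => X) D ctx w) :
    PolyB (fun _ => X) D ctx (fun a => PC.crt P Q M tb b (u a) (x a) (y a) (w a)) := by
  have hn : PolyN (fun _ => X) D ctx (fun a => tb.eval (x a).length) := (PolyN.length hx).poly tb
  have h1 : PolyB (fun _ => X) D ctx
      (fun a => top (PC.cf M (x a) (y a) (Pa76659G.fst (w a)) (tb.eval (x a).length)) == b) := by
    refine PolyB.beq ?_ (PolyB.const b)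
    have h2 := PolyC.cf M hx hy (PolyC.fst hw) hn
    refine (PolyB.headD (PolyC.nth (PolyC.snd h2) (PolyN.const 0))).congr ?_
    intro a _
    rw [enc_reg _ _ _ (by omega), top]
    rcases (PC.cf M (x a) (y a) (Pa76659G.fst (w a)) (tb.eval (x a).length)).2 0 with _ | ⟨c, l⟩
    · rfl
    · cases c <;> rfl
  have h3 : PolyB (fun _ => X) D ctx
      (fun a => decide (∀ k < tb.eval (x a).length, chk1 P Q (u a)
        (oc (PC.qry (PC.cf M (x a) (y a) (Pa76659G.fst (w a)) k)))
        ((Pa76659G.fst (w a)).getD k false) (PC.nth (Pa76659G.snd (w a)) k) = true)) := by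
    refine PolyB.forall_lt (φ := fun p : α × ℕ => chk1 P Q (u p.1)
        (oc (PC.qry (PC.cf M (x p.1) (y p.1) (Pa76659G.fst (w p.1)) p.2)))
        ((Pa76659G.fst (w p.1)).getD p.2 false) (PC.nth (Pa76659G.snd (w p.1)) p.2)) hn ?_
    have lf : ∀ {t : α → Str}, PolyC (fun _ => X) D ctx t →
        PolyC (fun _ : α × ℕ => X) (fun p => D p.1 ∧ p.2 < tb.eval (x p.1).length)
          (PC.lift ctx ++ [fun p => una p.2]) (fun p => t p.1) := fun ht =>
      (ht.lift (D' := fun p : α × ℕ => D p.1 ∧ p.2 < tb.eval (x p.1).length)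
        (fun p hp => hp.1)).weakenRight _
    have hk : PolyN (fun _ : α × ℕ => X) (fun p => D p.1 ∧ p.2 < tb.eval (x p.1).length)
        (PC.lift ctx ++ [fun p => una p.2]) (fun p => p.2) := PolyC.var (by simp)
    have hx' := lf hx
    have hy' := lf hy
    have hw' := PolyC.fst (lf hw)
    have h4 : PolyC (fun _ : α × ℕ => X) (fun p => D p.1 ∧ p.2 < tb.eval (x p.1).length)
        (PC.lift ctx ++ [fun p => una p.2])
        (fun p => PC.enc M (M.bnd + 1) (PC.cf M (x p.1) (y p.1) (Pa76659G.fst (w p.1)) p.2)) :=
      PolyC.cf M hx' hy' hw' hk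
    have h5 : PolyC (fun _ : α × ℕ => X) (fun p => D p.1 ∧ p.2 < tb.eval (x p.1).length)
        (PC.lift ctx ++ [fun p => una p.2])
        (fun p => oc (PC.qry (PC.cf M (x p.1) (y p.1) (Pa76659G.fst (w p.1)) p.2))) :=
      PolyC.qry' (α := α × ℕ) (orc := fun _ => X)
        (D := fun p => D p.1 ∧ p.2 < tb.eval (x p.1).length) (ctx := PC.lift ctx ++ [fun p => una p.2])
        M (fun p => PC.cf M (x p.1) (y p.1) (Pa76659G.fst (w p.1)) p.2) h4
        (fun p _ => cf_KK M (x p.1) (y p.1) (Pa76659G.fst (w p.1)) p.2)
    have h6 := PolyC.nth (PolyC.snd (lf hw)) hk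
    refine PolyB.ite (PolyB.isNil h5) (PolyB.const true) ?_
    refine PolyB.ite ((PolyB.getD (PolyC.fst (lf hw)) hk).mono fun _ h => h.1) ?_ ?_
    · exact PolyC.mono (hP.arg (lf hu) h5.tail h6) fun _ h => h.1.1
    · exact PolyC.mono (hQ.arg (lf hu) h5.tail h6) fun _ h => h.1.1
  refine (h3.and h1).congr ?_
  intro a _
  rw [Bool.eq_iff_iff]
  unfold PC.crt CHK
  simp only [Bool.and_eq_true, decide_eq_true_eq]

/-! ### Good advice -/

/-- `P`, `Q` certify the answers of `O` to the queries of length at most `m`, with the advice `u`. -/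
structure Good (O : Lang) (P Q : Str → Str → Str → Bool) (s : Polynomial ℕ) (u : Str) (m : ℕ) :
    Prop where
  posS : ∀ z : Str, z.length ≤ m → ∀ w, P u z w = true → O z = true
  negS : ∀ z : Str, z.length ≤ m → ∀ w, Q u z w = true → O z = false
  posC : ∀ z : Str, z.length ≤ m → O z = true → ∃ w : Str, w.length ≤ s.eval (u.length + m) ∧
    P u z w = true
  negC : ∀ z : Str, z.length ≤ m → O z = false → ∃ w : Str, w.length ≤ s.eval (u.length + m) ∧
    Q u z w = true

/-- The bound for the certificates of runs. -/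
noncomputable def sb (s : Polynomial ℕ) : Polynomial ℕ :=
  2 * Polynomial.X + 1 + Polynomial.X * (2 * s + 1)

theorem total_map_range' (W : ℕ → Str) (N : ℕ) : ∀ m : ℕ, (∀ r < m, (W r).length ≤ N) →
    total ((List.range m).map W) ≤ m * N := fun m h => total_map_range W N m h

theorem cf_bdd (M : Prog) (x y ans : Str) (k : ℕ) : Bdd (x.length + y.length + k) (cf M x y ans k).2 :=
  runT_bdd (ansO ans) (c := ([M], inp2 x y)) (Pa76659.inp2_bdd x y) k

theorem Good.sound {O : Lang} {P Q : Str → Str → Str → Bool} {s : Polynomial ℕ} {u : Str} {m : ℕ}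
    (h : Good O P Q s u m) {M : Prog} {tb : Polynomial ℕ} {x y w : Str} {b : Bool}
    (hm : x.length + y.length + tb.eval x.length ≤ m) (hc : crt P Q M tb b u x y w = true) :
    accepts O M (inp2 x y) (tb.eval x.length) = b := by
  unfold crt at hc
  simp only [Bool.and_eq_true, decide_eq_true_eq, beq_iff_eq] at hc
  obtain ⟨h1, h2⟩ := hc
  have h3 : cf M x y (fst w) (tb.eval x.length) = runN O (tb.eval x.length) ([M], inp2 x y) := by
    refine runT_eq (O := O) ?_
    intro k hk q hq
    have h4 := h1 k hk
    have hq' : qry (cf M x y (fst w) k) = some q := hq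
    have hql : q.length ≤ m := by
      have := qry_bdd (cf_bdd M x y (fst w) k) hq'
      omega
    rw [hq'] at h4
    unfold chk1 at h4
    have h5 : (oc (some q)).isEmpty = false := rfl
    have h6 : (oc (some q)).tail = q := rfl
    rw [if_neg (by rw [h5]; simp), h6] at h4
    cases h7 : (fst w).getD k false
    · rw [h7, if_neg (by simp)] at h4
      exact (h.negS q hql _ h4).symm
    · rw [h7, if_pos rfl] at h4
      exact (h.posS q hql _ h4).symm
  rw [← h2, h3]
  rfl

theorem Good.complete {O : Lang} {P Q : Str → Str → Str → Bool} {s : Polynomial ℕ} {u : Str} {m : ℕ}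
    (h : Good O P Q s u m) (M : Prog) (tb : Polynomial ℕ) {x y : Str}
    (hm : x.length + y.length + tb.eval x.length ≤ m) :
    ∃ w : Str, w.length ≤ (sb s).eval (u.length + m) ∧
      crt P Q M tb (accepts O M (inp2 x y) (tb.eval x.length)) u x y w = true := by
  set n := tb.eval x.length with hn
  set c : Cfg := ([M], inp2 x y) with hc
  have hex : ∀ k : ℕ, ∃ w : Str, w.length ≤ s.eval (u.length + m) ∧
      (k < n → ∀ q, qry (runN O k c) = some q → (O q = true → P u q w = true) ∧
        (O q = false → Q u q w = true)) := by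
    intro k
    rcases hq : qry (runN O k c) with _ | q
    · exact ⟨[], by simp, fun _ q hq' => by simp at hq'⟩
    · by_cases hk : k < n
      · have hb : q.length ≤ m := by
          have h1 : Bdd (x.length + y.length + k) (runN O k c).2 :=
            Pa76659.runN_bdd O k _ c (Pa76659.inp2_bdd x y)
          have := qry_bdd h1 hq
          omega
        cases hO : O q
        · obtain ⟨w, hw1, hw2⟩ := h.negC q hb hO
          refine ⟨w, hw1, fun _ q' hq' => ?_⟩
          obtain rfl : q = q' := by simpa using hq'
          exact ⟨fun h' => absurd h' (by rw [hO]; simp), fun _ => hw2⟩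
        · obtain ⟨w, hw1, hw2⟩ := h.posC q hb hO
          refine ⟨w, hw1, fun _ q' hq' => ?_⟩
          obtain rfl : q = q' := by simpa using hq'
          exact ⟨fun _ => hw2, fun h' => absurd h' (by rw [hO]; simp)⟩
      · exact ⟨[], by simp, fun hk' => absurd hk' hk⟩
  choose W hW1 hW2 using hex
  refine ⟨pr (trueAns O c n) (lenc ((List.range n).map W)), ?_, ?_⟩
  · rw [pr_length, lenc_length]
    have h1 : (trueAns O c n).length = n := by simp [trueAns]
    have h2 : total ((List.range n).map W) ≤ n * s.eval (u.length + m) :=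
      total_map_range' W _ n (fun k _ => hW1 k)
    have h3 : n ≤ u.length + m := by omega
    rw [h1]
    simp only [List.length_map, List.length_range, sb, Polynomial.eval_add, Polynomial.eval_mul,
      Polynomial.eval_X, Polynomial.eval_ofNat, Polynomial.eval_one]
    have h4 : n * (2 * s.eval (u.length + m) + 1) ≤
        (u.length + m) * (2 * s.eval (u.length + m) + 1) := Nat.mul_le_mul_right _ h3
    have h5 : n * (2 * s.eval (u.length + m) + 1) = 2 * (n * s.eval (u.length + m)) + n := by ring
    omega
  · unfold crt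
    rw [fst_pr, snd_pr]
    have h1 : ∀ k ≤ n, cf M x y (trueAns O c n) k = runN O k c := trueAns_spec O c n
    simp only [Bool.and_eq_true, decide_eq_true_eq, beq_iff_eq]
    constructor
    · intro k hk
      rw [← hn] at hk
      rw [h1 k hk.le, nth_lenc, List.getD_eq_getElem ((List.range n).map W) _ (by simpa using hk)]
      simp only [List.getElem_map, List.getElem_range]
      unfold chk1
      rcases hq : qry (runN O k c) with _ | q
      · rfl
      · have h5 : (oc (some q)).isEmpty = false := rfl
        have h6 : (oc (some q)).tail = q := rfl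
        rw [if_neg (by rw [h5]; simp), h6, trueAns_get O c hk hq]
        obtain ⟨h7, h8⟩ := hW2 k hk q hq
        cases hO : O q
        · rw [if_neg (by simp)]
          exact h8 hO
        · rw [if_pos rfl]
          exact h7 hO
    · rw [← hn, h1 n le_rfl]
      rfl

end Pool.Agent.Lib.Pa76659G.PC
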