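import Pool.Agent.Lib.Pa76659G.Adv

set_option autoImplicit false

/-!
Advice that can be checked in coNP: if `A` is in `NP^X` and the complement of `A` is in `NP^X` with
checkable advice, then `Σ_2^P(X ⊕ A) ⊆ Σ_2^P(X)`.
-/

namespace Pool.Agent.Lib.Pa76659G

open Pool.Agent.Lib.Pa76659 PC

theorem NPChk_mono {X Y : Lang} (h : X ∈ PO Y) : NPChk X ⊆ NPChk Y := by
  rintro B ⟨C, hC, D, hD, r, hB⟩
  exact ⟨C, NPO_subset h hC, D, NPO_subset h hD, r, hB⟩

theorem NPChk_poly {X : Lang} : NPChk X ⊆ NPPoly X := by
  rintro B ⟨C, hC, D, -, r, hB⟩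
  choose h1 h2 using hB
  choose u hu hu2 using h1
  exact ⟨C, hC, u, r, hu, fun x => h2 _ _ (hu _) (hu2 _) x rfl⟩

theorem chk_low {X A : Lang} (hA : A ∈ NPO X) (hc : (fun x => !(A x)) ∈ NPChk X) :
    Sig (join X A) 2 ⊆ Sig X 2 := by
  obtain ⟨C, hC, D, hD, r, hAC⟩ := hc
  rintro L ⟨B, hB, hL⟩
  obtain ⟨B', hB', F, hF⟩ := transl hA hC 0 B hB
  obtain ⟨M, p, k, hM⟩ := hL
  set O := join B' D with hO
  have hOm : O ∈ Sig X 1 := Sig_join hB' ⟨X, query_mem X, hD⟩
  refine ⟨O, hOm, ?_⟩
  set F3 : Polynomial ℕ := F.comp (Polynomial.X + k + p) with hF3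
  have hx : PolyC (fun _ : Str × Str => O) (fun _ => True) [fun p => p.1, fun p => p.2]
    (fun p => p.1) := PolyC.var (by simp)
  have hw : PolyC (fun _ : Str × Str => O) (fun _ => True) [fun p => p.1, fun p => p.2]
    (fun p => p.2) := PolyC.var (by simp)
  have e1 := PolyB.natEq (PolyN.length (PolyC.snd hw)) ((PolyN.length hx).poly k)
  have e2 : PolyB (fun _ : Str × Str => O) (fun _ => True) [fun p => p.1, fun p => p.2]
      (fun a => decide (∀ n < F3.eval a.1.length + 1, (decide ((nth (fst a.2) n).length ≤ r.eval n) &&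
        !(D (pr (on1 n) (nth (fst a.2) n)))) = true)) := by
    refine PolyB.forall_lt (φ := fun q : (Str × Str) × ℕ =>
      decide ((nth (fst q.1.2) q.2).length ≤ r.eval q.2) && !(D (pr (on1 q.2) (nth (fst q.1.2) q.2))))
      ((PolyN.length hx).poly F3).succ ?_
    have hw' : PolyC (fun _ : (Str × Str) × ℕ => O)
        (fun q => True ∧ q.2 < F3.eval q.1.1.length + 1)
        (PC.lift [fun p : Str × Str => p.1, fun p => p.2] ++ [fun q => una q.2])
        (fun q => fst q.1.2) :=
      ((PolyC.fst hw).lift (D' := fun q : (Str × Str) × ℕ => True ∧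
        q.2 < F3.eval q.1.1.length + 1) (fun _ h => h.1)).weakenRight _
    have hn : PolyN (fun _ : (Str × Str) × ℕ => O)
        (fun q => True ∧ q.2 < F3.eval q.1.1.length + 1)
        (PC.lift [fun p : Str × Str => p.1, fun p => p.2] ++ [fun q => una q.2])
        (fun q => q.2) := PolyC.var (by simp)
    have h1 := PolyB.le (PolyN.length (PolyC.nth hw' hn)) (hn.poly r)
    have h2 : PolyB (fun _ : (Str × Str) × ℕ => O)
        (fun q => True ∧ q.2 < F3.eval q.1.1.length + 1)
        (PC.lift [fun p : Str × Str => p.1, fun p => p.2] ++ [fun q => una q.2])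
        (fun q => O (true :: pr (una q.2) (nth (fst q.1.2) q.2))) :=
      PolyC.query (PolyC.cons true (PolyC.pr hn (PolyC.nth hw' hn)))
    exact h1.and h2.not
  have e3 : PolyB (fun _ : Str × Str => O) (fun _ => True) [fun p => p.1, fun p => p.2]
      (fun a => accepts (fun v => B' (pr (fst a.2) v)) M (inp2 a.1 (snd a.2))
        (p.eval a.1.length)) := by
    refine PolyB.accepts (α := Str × Str) (orc := fun _ => O) (D := fun _ => True)
      (ctx := [fun p => p.1, fun p => p.2]) M (fun a v => B' (pr (fst a.2) v)) (fun a => a.1)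
      (fun a => snd a.2) (fun a => p.eval a.1.length) ?_ hx (PolyC.snd hw)
      ((PolyN.length hx).poly p)
    have h5 : PolyC (fun _ : (Str × Str) × Str => O) (fun _ => True)
        (PC.lift [fun p => p.1, fun p => p.2] ++ [fun p => p.2]) (fun p => fst p.1.2) :=
      ((PolyC.fst hw).lift (D' := fun _ : (Str × Str) × Str => True)
        (fun _ _ => trivial)).weakenRight _
    have h6 : PolyC (fun _ : (Str × Str) × Str => O) (fun _ => True)
        (PC.lift [fun p => p.1, fun p => p.2] ++ [fun p => p.2]) (fun p => p.2) :=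
      PolyC.var (List.mem_append_right _ List.mem_cons_self)
    have h7 : PolyC (fun _ : (Str × Str) × Str => O) (fun _ => True)
        (PC.lift [fun p => p.1, fun p => p.2] ++ [fun p => p.2])
        (fun p => [O (false :: pr (fst p.1.2) p.2)]) :=
      PolyC.query (PolyC.cons false (PolyC.pr h5 h6))
    exact h7
  set G : Polynomial ℕ := 2 * (2 * ((F3 + 1) * r.comp F3) + (F3 + 1)) + 1 + k with hG
  refine mem_NPO_le G ((e1.and e2).and e3) (fun x => ?_)
  rw [(hM x).2]
  have last : ∀ u y : Str, Corr A C u (F3.eval x.length) → y.length = k.eval x.length →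
      accepts (fun v => B' (pr u v)) M (inp2 x y) (p.eval x.length) =
        accepts B M (inp2 x y) (p.eval x.length) := by
    intro u y hu hy
    refine accepts_congr ?_
    intro v hv
    refine hF u _ hu v ?_
    rw [hy] at hv
    refine (eval_mono F hv).trans ?_
    simp [hF3]
  constructor
  · rintro ⟨y, hy1, hy2⟩
    choose h1 h2 using hAC
    choose h hh1 hh2 using h1
    set m := F3.eval x.length with hm
    set u := lenc ((List.range (m + 1)).map h) with hu
    have hnth : ∀ n ≤ m, nth u n = h n := by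
      intro n hn
      rw [hu, nth_lenc, List.getD_eq_getElem _ _ (by simp; omega)]
      simp
    have hcor : Corr A C u m := by
      intro v hv
      rw [av, hnth _ hv.le]
      exact (h2 _ _ (hh1 _) (hh2 _) v rfl).symm
    refine ⟨pr u y, ?_, ?_⟩
    · rw [pr_length, hy1, hu, lenc_length]
      have h1 : total ((List.range (m + 1)).map h) ≤ (m + 1) * r.eval m := by
        refine total_map_range h _ (m + 1) (fun k hk => (hh1 k).trans (eval_mono r (by omega)))
      simp only [hG, Polynomial.eval_add, Polynomial.eval_mul, Polynomial.eval_ofNat,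
        Polynomial.eval_one, Polynomial.eval_comp, List.length_map, List.length_range]
      rw [← hm]
      omega
    · simp only [Bool.and_eq_true, Bool.not_eq_true', decide_eq_true_eq]
      rw [fst_pr, snd_pr]
      refine ⟨⟨hy1, ?_⟩, ?_⟩
      · intro n hn
        rw [hnth n (by omega)]
        exact ⟨hh1 n, hh2 n⟩
      · rw [last u y hcor hy1]
        exact hy2
  · rintro ⟨w, -, hv⟩
    simp only [Bool.and_eq_true, Bool.not_eq_true', decide_eq_true_eq] at hv
    obtain ⟨⟨h1, h2⟩, h3⟩ := hv
    refine ⟨snd w, h1, ?_⟩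
    rw [last (fst w) (snd w) ?_ h1] at h3
    · exact h3
    · intro v hv
      obtain ⟨h4, h5⟩ := h2 v.length (by omega)
      exact ((hAC v.length).2 _ h4 h5 v rfl).symm

end Pool.Agent.Lib.Pa76659G
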