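import Pool.Agent.Lib.Pa76659G.Cls

/-!
The functions of the classes are circuits, also along mixed arrays.
-/

set_option maxHeartbeats 4000000

namespace Pool.Agent.Lib.Pa76659G

open Pool.Agent.Lib.Pa76659

/-- a literal is a circuit of depth one -/
theorem lit_isC (p : PIx) (i : NIx) (c : ℕ) : ∃ b : ℕ, ∀ N : ℕ, 2 ≤ N →
    ∀ τ : Bool × Str × Str, τ.2.1.length ≤ N ^ c → τ.2.2.length ≤ N ^ c →
      IsC (SL (N ^ b)) (N ^ b) (N ^ b) 1 (fun O => lit p i O τ) := by
  obtain ⟨b1, hb1⟩ := sEval_isC p [i]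
  obtain ⟨b2, hb2⟩ := pEval_isC p
  obtain ⟨d, hd⟩ := poly_le (i.2.1.comp (Polynomial.X ^ c))
  obtain ⟨e, he⟩ := poly_le (Polynomial.X ^ c + Polynomial.X ^ c + Polynomial.X ^ d)
  obtain ⟨b, hb⟩ := poly_le (Polynomial.X ^ ((c + 1) * b1) + Polynomial.X ^ (e * b2) +
    Polynomial.X ^ d * Polynomial.X ^ (e * b2))
  refine ⟨b, fun N hN τ hτ1 hτ2 => ?_⟩
  have hd' := hd N hN
  have he' := he N hN
  have hb' := hb N hN
  simp only [Polynomial.eval_add, Polynomial.eval_mul, Polynomial.eval_pow, Polynomial.eval_X,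
    Polynomial.eval_comp] at hd' he' hb'
  have hNc : N ^ c ≤ N ^ (c + 1) := Nat.pow_le_pow_right (by omega) (by omega)
  have hN1 : 2 ≤ N ^ (c + 1) := by
    calc 2 ≤ N := hN
      _ = N ^ 1 := (pow_one N).symm
      _ ≤ N ^ (c + 1) := Nat.pow_le_pow_right (by omega) (by omega)
  unfold lit
  by_cases h1 : τ.1 = true
  · simp only [h1, if_true]
    have h2 := hb1 (N ^ (c + 1)) hN1 τ.2.1 (hτ1.trans hNc)
    rw [← pow_mul] at h2
    exact h2.mono (SL_mono (by omega)) (by omega) (by omega)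
  · simp only [h1, if_false, Bool.false_eq_true]
    have hE : 2 ≤ N ^ e := by
      have hpos : 1 ≤ N ^ c := Nat.one_le_pow _ _ (by omega)
      omega
    have hsub : ∀ u : Str, u ∈ SL (N ^ e) → ∃ D : DT Str Bool, D.depth ≤ N ^ (e * b2) ∧
        D.QIn (SL (N ^ (e * b2))) ∧ ∀ O : Lang, pEval p O u = D.eval O := by
      intro u hu
      have h3 := hb2 (N ^ e) hE u hu
      rw [← pow_mul] at h3
      exact h3
    have hch : ∀ u : Str, ∃ D : DT Str Bool, u ∈ SL (N ^ e) → D.depth ≤ N ^ (e * b2) ∧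
        D.QIn (SL (N ^ (e * b2))) ∧ ∀ O : Lang, pEval p O u = D.eval O := by
      intro u
      by_cases hu : u ∈ SL (N ^ e)
      · obtain ⟨D, hD⟩ := hsub u hu
        exact ⟨D, fun _ => hD⟩
      · exact ⟨DT.leaf false, fun h => absurd h hu⟩
    choose sub hsub' using hch
    set n := i.2.1.eval τ.2.1.length with hn
    have hnd : n ≤ N ^ d := (poly_mono _ hτ1).trans hd'
    set A := accTree i.1 (inp2 τ.2.1 τ.2.2) n with hA
    have hAd : A.depth ≤ n := accTree_depth _ _ _
    have hAq : A.QIn (SL (N ^ e)) := by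
      apply (accTree_qin _ _ _ _ (inp2_bdd _ _)).mono
      intro v hv
      simp only [Set.mem_ofPred_eq] at hv
      show v.length ≤ _
      omega
    have h5 : IsC (SL (N ^ b)) (N ^ b) (N ^ b) 0 (fun O => acc p i O τ.2.1 τ.2.2) := by
      refine ⟨A.subst sub, ?_, ?_, ?_⟩
      · refine (DT.depth_subst sub (SL (N ^ e)) (N ^ (e * b2)) (fun v hv => (hsub' v hv).1) A
          hAq).trans ?_
        have h6 : A.depth * N ^ (e * b2) ≤ N ^ d * N ^ (e * b2) :=
          Nat.mul_le_mul_right _ (hAd.trans hnd)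
        omega
      · exact DT.QIn.subst (fun v hv => ((hsub' v hv).2.1).mono (SL_mono (by omega))) hAq
      · intro O
        rw [DT.eval_subst]
        show accepts (pEval p O) i.1 (inp2 τ.2.1 τ.2.2) n = _
        rw [← accTree_eval]
        apply DT.eval_congr (S := SL (N ^ e)) _ hAq
        intro v hv
        exact (hsub' v hv).2.2 O
    exact h5.not

theorem FF_isC (p : PIx) (i : NIx) (c : ℕ) : ∃ b : ℕ, ∀ N : ℕ, 2 ≤ N → ∀ (j : ℕ)
    (F : Lang → Bool), F ∈ FF p i (N ^ c) (N ^ c) (N ^ c) j →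
      IsC (SL (N ^ b)) (N ^ b) (N ^ b) (j + 1) F := by
  obtain ⟨b, hb⟩ := lit_isC p i c
  obtain ⟨d, hd⟩ := poly_le (Polynomial.X ^ c + Polynomial.X ^ b)
  refine ⟨d, fun N hN j => ?_⟩
  have hd' := hd N hN
  simp only [Polynomial.eval_add, Polynomial.eval_pow, Polynomial.eval_X] at hd'
  induction j with
  | zero =>
      intro F ⟨ts, h1, h2, h3⟩
      have h4 : Fintype.card (Fin ts.length) ≤ 2 ^ (N ^ c) := by
        rw [Fintype.card_fin]
        exact h1.trans (Nat.lt_two_pow_self).le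
      have h5 := IsC.exists_or (S := SL (N ^ b)) (w := N ^ b) (t := N ^ b) (k := 0) h4
        (fun k O => lit p i O (ts.get k)) (fun k => hb N hN _ (h2 _ (List.get_mem _ _)).1
          (h2 _ (List.get_mem _ _)).2) (f := F) (by
          intro O
          rw [h3]
          constructor
          · rintro ⟨τ, hτ, hτ2⟩
            obtain ⟨k, hk⟩ := List.get_of_mem hτ
            exact ⟨k, by rw [hk]; exact hτ2⟩
          · rintro ⟨k, hk⟩
            exact ⟨_, List.get_mem _ _, hk⟩)
      exact h5.mono (SL_mono (by omega)) (by omega) (by omega)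
  | succ j ih =>
      intro F ⟨g, h1, h2⟩
      refine IsC.of_exists (ι := Fin (2 ^ (N ^ c))) ?_ g (fun v => ih _ (h1 v)) h2
      simpa using Nat.pow_le_pow_right (by norm_num) (show N ^ c ≤ N ^ d by omega)

/-- circuits along mixed arrays -/
theorem mix_isC (Y G : Lang) {m n : ℕ} {S : Set Str} {W T k r : ℕ} (hk : k ≤ r) {F : Lang → Bool}
    (hF : IsC S W T k F) (j : ℕ) (w : Str) (P Q : Idx m → Arr (Idx m) (Idx n) j)
    (a : List (Str × Str)) : IsC Set.univ W T r (fun b : Idx m → Bool =>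
      F (join Y (patchL G (tabL (j + 1) w (mix b P Q : Arr (Idx m) (Idx n) (j + 1)) ++ a)))) := by
  choose sub h1 h2 using tab_mix_dt Y G j w P Q a
  have hq : ∀ D : DT (Idx m) Bool, D.QIn Set.univ := by
    intro D
    induction D with
    | leaf _ => trivial
    | node v f t hf ht => exact ⟨trivial, hf, ht⟩
  have h3 := hF.subst (S' := (Set.univ : Set (Idx m))) (d := 1) sub (fun v _ => h1 v)
    (fun v _ => hq _)
  rw [mul_one] at h3
  refine (h3.lift_le hk).congr (fun b => ?_)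
  congr 1
  funext v
  exact h2 v b

end Pool.Agent.Lib.Pa76659G
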