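import Pool.Agent.Lib.Pa76659.Defs

/-!
Boolean circuits; deterministic exponential time with an oracle in `NP(X)`.
-/

set_option autoImplicit false

namespace Pool.Agent.Lib.Pa76659G

open Pool.Agent.Lib.Pa76659

/-- Gates of Boolean circuits: AND of two wires, OR of two wires, NOT of a wire. -/
inductive Gate : Type
  | and : ℕ → ℕ → Gate
  | or : ℕ → ℕ → Gate
  | not : ℕ → Gate

/-- The value of a gate if the wires `0, 1, …` carry the bits of `v` (other wires carry `false`). -/
def Gate.val (v : Str) : Gate → Bool
  | Gate.and i j => v.getD i false && v.getD j false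
  | Gate.or i j => v.getD i false || v.getD j false
  | Gate.not i => !(v.getD i false)

/-- The output of the circuit with the list of gates `C` on the input `x`: the first wires carry the
bits of `x`, each gate adds a wire with its value, the last wire is the output. -/
def cval (C : List Gate) (x : Str) : Bool :=
  (C.foldl (fun v g => v ++ [g.val v]) x).getLastD false

/-- `E(O)`: languages decided in time `2^{O(n)}` with oracle `O` (here with bound `2^{c(n+1)}`). -/
def EO (O : Lang) : Set Lang :=
  {L | ∃ (M : Prog) (c : ℕ), ∀ x : Str,
    Halts O M (inp x) (2 ^ (c * (x.length + 1))) ∧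
      (L x = accepts O M (inp x) (2 ^ (c * (x.length + 1))))}

/-- `E^NP` relative to `X`: languages in `E(B)` for some `B` in `NP(X)`. -/
def ENP (X : Lang) : Set Lang := {L | ∃ B ∈ NPO X, L ∈ EO B}

/-- `NE(O)`: languages decided in nondeterministic time `2^{O(n)}` with oracle `O`: `x ∈ L` iff some
witness of length `2^{c(n+1)}` is accepted by a verifier with running time at most `2^{d(n+1)}`. -/
def NEO (O : Lang) : Set Lang :=
  {L | ∃ (M : Prog) (c d : ℕ), ∀ x : Str,
    (∀ y : Str, y.length = 2 ^ (c * (x.length + 1)) →
      Halts O M (inp2 x y) (2 ^ (d * (x.length + 1)))) ∧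
    (L x = true ↔ ∃ y : Str, y.length = 2 ^ (c * (x.length + 1)) ∧
      accepts O M (inp2 x y) (2 ^ (d * (x.length + 1))) = true)}

end Pool.Agent.Lib.Pa76659G
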