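import Pool.Agent.Lib.Pa76659G.Mem
import Pool.Agent.Lib.Pa76659G.CircSpec

set_option autoImplicit false

/-!
Binary numbers and the evaluation of encoded circuits.
-/

namespace Pool.Agent.Lib.Pa76659G.Circ

open Pool.Agent.Lib.Pa76659 Pool.Agent.Lib.Pa76659G

/-! ### binary numbers -/

/-- increment (least significant bit first), without overflow -/
def inc : Str → Str
  | [] => []
  | true :: l => false :: inc l
  | false :: l => true :: l

@[simp] theorem inc_length : ∀ l : Str, (inc l).length = l.length
  | [] => rfl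
  | true :: l => by simp [inc, inc_length l]
  | false :: l => by simp [inc]

/-- the value of a binary number -/
def bval : Str → ℕ
  | [] => 0
  | b :: l => b.toNat + 2 * bval l

theorem bval_lt : ∀ l : Str, bval l < 2 ^ l.length
  | [] => by simp [bval]
  | b :: l => by
      have := bval_lt l
      cases b <;> simp only [bval, List.length_cons, pow_succ, Bool.toNat_true, Bool.toNat_false] <;>
        omega

theorem bval_inc : ∀ l : Str, bval l + 1 < 2 ^ l.length → bval (inc l) = bval l + 1
  | [], h => by simp [bval] at h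
  | true :: l, h => by
      have h1 : bval l + 1 < 2 ^ l.length := by
        simp only [bval, List.length_cons, pow_succ, Bool.toNat_true] at h
        omega
      simp only [inc, bval, bval_inc l h1, Bool.toNat_true, Bool.toNat_false]
      omega
  | false :: l, h => by
      simp only [inc, bval, Bool.toNat_true, Bool.toNat_false]
      omega

theorem bval_inj : ∀ l l' : Str, l.length = l'.length → bval l = bval l' → l = l'
  | [], [], _, _ => rfl
  | [], _ :: _, h, _ => by simp at h
  | _ :: _, [], h, _ => by simp at h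
  | b :: l, b' :: l', h, h' => by
      simp only [List.length_cons, Nat.add_right_cancel_iff] at h
      simp only [bval] at h'
      have h1 : b.toNat = b'.toNat ∧ bval l = bval l' := by
        have := Bool.toNat_le b
        have := Bool.toNat_le b'
        omega
      rw [bval_inj l l' h h1.2]
      have : b = b' := by
        cases b <;> cases b' <;> simp_all
      rw [this]

/-- the binary number `a` with `n` bits -/
def bin (n a : ℕ) : Str := inc^[a] (List.replicate n false)

@[simp] theorem bin_length (n a : ℕ) : (bin n a).length = n := by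
  unfold bin
  induction a with
  | zero => simp
  | succ a ih => rw [Function.iterate_succ_apply', inc_length, ih]

theorem bval_replicate (n : ℕ) : bval (List.replicate n false) = 0 := by
  induction n with
  | zero => rfl
  | succ n ih => simp [List.replicate_succ, bval, ih]

theorem bval_bin {n a : ℕ} (h : a < 2 ^ n) : bval (bin n a) = a := by
  induction a with
  | zero => exact bval_replicate n
  | succ a ih =>
    have h1 := ih (by omega)
    have h2 : bin n (a + 1) = inc (bin n a) := by
      unfold bin
      rw [Function.iterate_succ_apply']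
    rw [h2, bval_inc, h1]
    rw [h1, bin_length]
    exact h

theorem bin_bval {n : ℕ} {x : Str} (h : x.length = n) : bin n (bval x) = x := by
  apply bval_inj
  · rw [bin_length, h]
  · rw [bval_bin]
    rw [← h]
    exact bval_lt x

theorem bin_inj {n a b : ℕ} (ha : a < 2 ^ n) (hb : b < 2 ^ n) (h : bin n a = bin n b) : a = b := by
  rw [← bval_bin ha, h, bval_bin hb]

/-! ### encoded circuits -/

/-- the wire with the binary number `b` -/
def sel (n : ℕ) (b v : Str) : Bool :=
  decide (∃ w < v.length, (decide (bin n w = b) && v.getD w false) = true)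

/-- the value of the gate that is written at the start of `s` -/
def gval (n : ℕ) (s v : Str) : Bool :=
  if s.getD 0 false then !(sel n ((s.drop 2).take n) v) else
    if s.getD 1 false then sel n ((s.drop 2).take n) v || sel n ((s.drop (n + 2)).take n) v
    else sel n ((s.drop 2).take n) v && sel n ((s.drop (n + 2)).take n) v

/-- the wires after `k` gates of the circuit with the code `y` -/
def wires (n : ℕ) (y x : Str) : ℕ → Str
  | 0 => x
  | k + 1 => wires n y x k ++ [gval n (y.drop (k * (2 * n + 2))) (wires n y x k)]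

@[simp] theorem wires_length (n : ℕ) (y x : Str) (k : ℕ) :
    (wires n y x k).length = x.length + k := by
  induction k with
  | zero => rfl
  | succ k ih => simp [wires, ih, Nat.add_assoc]

/-- the number of bits of an input, for a code of length `m` -/
def lgm (m : ℕ) : ℕ := ((List.range (m + 1)).filter (fun i => decide (2 ^ (i + 1) ≤ m + 1))).length

/-- the number of gates, for a code of length `m` and `n` inputs -/
def ngt (m n : ℕ) : ℕ :=
  ((List.range m).filter (fun k => decide ((k + 1) * (2 * n + 2) ≤ m))).length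

/-- the truth table of the circuit with the code `y` -/
def tt (y : Str) : Str :=
  (List.range (y.length + 1)).map (fun a =>
    (wires (lgm y.length) y (bin (lgm y.length) a) (ngt y.length (lgm y.length))).getLastD false)

@[simp] theorem tt_length (y : Str) : (tt y).length = y.length + 1 := by simp [tt]

/-! ### polynomial time -/

section

open Pool.Agent.Lib.Pa76659G.PC

variable {α : Type*} {orc : α → Lang} {D : α → Prop} {ctx : List (α → Str)}

theorem polyC_inc {t : α → Str} (ht : PolyC orc D ctx t) : PolyC orc D ctx (fun a => inc (t a)) := by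
  obtain ⟨pt, hpt⟩ := ht.length_le
  refine PolyC.recOn (x := t) (fun a l => inc l) ht PolyC.nil (fun b => ?_)
    ⟨pt, fun a ha l hl => ?_⟩
  · cases b
    · refine PolyC.congr (PolyC.cons true (PolyC.var (f := fun p : α × Str => p.2) (by simp))) ?_
      intro p _
      rfl
    · refine PolyC.congr (PolyC.cons false (PolyC.var (f := fun p : α × Str => inc p.2)
        (by simp))) ?_
      intro p _
      rfl
  · rw [inc_length]
    exact hl.length_le.trans (hpt a ha)

theorem polyC_bin {n k : α → ℕ} (hn : PolyN orc D ctx n) (hk : PolyN orc D ctx k) :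
    PolyC orc D ctx (fun a => bin (n a) (k a)) := by
  obtain ⟨pn, hpn⟩ := PolyC.length_le hn
  refine PolyC.iter (g := fun _ => inc) (t := fun a => List.replicate (n a) false)
    (polyC_inc (PolyC.var (by simp))) ?_ hk ⟨pn, fun a ha j _ => ?_⟩
  · refine PolyC.congr (PolyC.map_range hn (φ := fun _ => false) (PolyB.const false)) ?_
    intro a _
    simp [List.map_const']
  · have h := hpn a ha
    rw [un_length] at h
    have h2 : (inc^[j] (List.replicate (n a) false)).length = n a := bin_length (n a) j
    rw [h2]
    exact h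

theorem polyB_sel {n : α → ℕ} {b v : α → Str} (hn : PolyN orc D ctx n) (hb : PolyC orc D ctx b)
    (hv : PolyC orc D ctx v) : PolyB orc D ctx (fun a => sel (n a) (b a) (v a)) := by
  refine PolyB.exists_lt (φ := fun p : α × ℕ =>
    decide (bin (n p.1) p.2 = b p.1) && (v p.1).getD p.2 false) (PolyN.length hv) ?_
  have hD : ∀ p : α × ℕ, (D p.1 ∧ p.2 < (v p.1).length) → D p.1 := fun p hp => hp.1
  have hw : PolyN (fun p : α × ℕ => orc p.1) (fun p => D p.1 ∧ p.2 < (v p.1).length)
      (PC.lift ctx ++ [fun p => una p.2]) (fun p => p.2) := PolyC.var (by simp)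
  exact (PolyB.strEq (polyC_bin ((PolyC.lift hn hD).weakenRight _) hw)
    ((PolyC.lift hb hD).weakenRight _)).and (PolyB.getD ((PolyC.lift hv hD).weakenRight _) hw)

theorem polyB_gval {n : α → ℕ} {s v : α → Str} (hn : PolyN orc D ctx n) (hs : PolyC orc D ctx s)
    (hv : PolyC orc D ctx v) : PolyB orc D ctx (fun a => gval (n a) (s a) (v a)) := by
  have h0 : PolyB orc D ctx (fun a => (s a).getD 0 false) := PolyB.getD hs (PolyN.const 0)
  have h1 : PolyB orc D ctx (fun a => (s a).getD 1 false) := PolyB.getD hs (PolyN.const 1)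
  have h2 : PolyB orc D ctx (fun a => sel (n a) (((s a).drop 2).take (n a)) (v a)) :=
    polyB_sel hn (PolyC.take (PolyC.drop hs (PolyN.const 2)) hn) hv
  have h3 : PolyB orc D ctx (fun a => sel (n a) (((s a).drop (n a + 2)).take (n a)) (v a)) :=
    polyB_sel hn (PolyC.take (PolyC.drop hs (hn.add (PolyN.const 2))) hn) hv
  exact PolyB.ite h0 (PolyC.mono h2.not fun _ h => h.1)
    (PolyB.ite (PolyC.mono h1 fun _ h => h.1) (PolyC.mono (h2.or h3) fun _ h => h.1.1)
      (PolyC.mono (h2.and h3) fun _ h => h.1.1))

theorem polyC_wires {n k : α → ℕ} {y x : α → Str} (hn : PolyN orc D ctx n)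
    (hy : PolyC orc D ctx y) (hx : PolyC orc D ctx x) (hk : PolyN orc D ctx k) :
    PolyC orc D ctx (fun a => wires (n a) (y a) (x a) (k a)) := by
  obtain ⟨px, hpx⟩ := hx.length_le
  obtain ⟨pk, hpk⟩ := PolyC.length_le hk
  refine PolyC.natRec (fun a j => wires (n a) (y a) (x a) j) hk hx ?_ ⟨px + pk, fun a ha j hj => ?_⟩
  · have hD : ∀ p : α × ℕ, (D p.1 ∧ p.2 < k p.1) → D p.1 := fun p hp => hp.1
    have hj : PolyN (fun p : α × ℕ => orc p.1) (fun p => D p.1 ∧ p.2 < k p.1)
        (PC.lift ctx ++ [fun p => una p.2, fun p => wires (n p.1) (y p.1) (x p.1) p.2])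
        (fun p => p.2) := PolyC.var (by simp)
    have hw : PolyC (fun p : α × ℕ => orc p.1) (fun p => D p.1 ∧ p.2 < k p.1)
        (PC.lift ctx ++ [fun p => una p.2, fun p => wires (n p.1) (y p.1) (x p.1) p.2])
        (fun p => wires (n p.1) (y p.1) (x p.1) p.2) := PolyC.var (by simp)
    have hn' : PolyN (fun p : α × ℕ => orc p.1) (fun p => D p.1 ∧ p.2 < k p.1)
        (PC.lift ctx ++ [fun p => una p.2, fun p => wires (n p.1) (y p.1) (x p.1) p.2])
        (fun p => n p.1) := (PolyC.lift hn hD).weakenRight _
    have hy' : PolyC (fun p : α × ℕ => orc p.1) (fun p => D p.1 ∧ p.2 < k p.1)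
        (PC.lift ctx ++ [fun p => una p.2, fun p => wires (n p.1) (y p.1) (x p.1) p.2])
        (fun p => y p.1) := (PolyC.lift hy hD).weakenRight _
    refine PolyC.congr (hw.append (polyB_gval hn' (PolyC.drop hy'
      (hj.mul (((PolyN.const 2).mul hn').add (PolyN.const 2)))) hw)) ?_
    intro p _
    rfl
  · rw [wires_length, Polynomial.eval_add]
    have h1 := hpx a ha
    have h2 := hpk a ha
    rw [un_length] at h2
    omega

theorem polyB_pow {m k : α → ℕ} (hm : PolyN orc D ctx m) (hk : PolyN orc D ctx k) :
    PolyB orc D ctx (fun a => decide (2 ^ (k a) ≤ m a)) := by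
  obtain ⟨pm, hpm⟩ := PolyC.length_le hm
  have h1 : PolyN orc D ctx (fun a => Min.min (2 ^ (k a)) (m a + 1)) := by
    refine PolyC.natRec (fun a j => una (Min.min (2 ^ j) (m a + 1))) hk ?_ ?_
      ⟨pm + 1, fun a ha j _ => ?_⟩
    · refine PolyC.congr (PolyN.const 1) ?_
      intro a _
      have : Min.min (2 ^ 0) (m a + 1) = 1 := by
        rw [pow_zero]
        omega
      rw [this]
    · have hD : ∀ p : α × ℕ, (D p.1 ∧ p.2 < k p.1) → D p.1 := fun p hp => hp.1
      have hw : PolyN (fun p : α × ℕ => orc p.1) (fun p => D p.1 ∧ p.2 < k p.1)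
          (PC.lift ctx ++ [fun p => una p.2, fun p => una (Min.min (2 ^ p.2) (m p.1 + 1))])
          (fun p => Min.min (2 ^ p.2) (m p.1 + 1)) := PolyC.var (by simp)
      have hm' : PolyN (fun p : α × ℕ => orc p.1) (fun p => D p.1 ∧ p.2 < k p.1)
          (PC.lift ctx ++ [fun p => una p.2, fun p => una (Min.min (2 ^ p.2) (m p.1 + 1))])
          (fun p => m p.1) := (PolyC.lift hm hD).weakenRight _
      refine PolyN.congr (PolyN.min (hw.add hw) hm'.succ) ?_
      intro p _
      rw [pow_succ]
      omega
    · have h := hpm a ha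
      rw [un_length] at h ⊢
      rw [Polynomial.eval_add, Polynomial.eval_one]
      omega
  refine PolyB.congr (PolyB.le h1 hm) ?_
  intro a _
  rw [Bool.eq_iff_iff, decide_eq_true_iff, decide_eq_true_iff]
  omega

theorem polyN_lgm {m : α → ℕ} (hm : PolyN orc D ctx m) : PolyN orc D ctx (fun a => lgm (m a)) := by
  refine PolyN.count (φ := fun p : α × ℕ => decide (2 ^ (p.2 + 1) ≤ m p.1 + 1)) hm.succ ?_
  have hD : ∀ p : α × ℕ, (D p.1 ∧ p.2 < m p.1 + 1) → D p.1 := fun p hp => hp.1
  have hm' : PolyN (fun p : α × ℕ => orc p.1) (fun p => D p.1 ∧ p.2 < m p.1 + 1)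
      (PC.lift ctx ++ [fun p => una p.2]) (fun p => m p.1) := (PolyC.lift hm hD).weakenRight _
  exact polyB_pow hm'.succ (PolyN.succ (f := fun p : α × ℕ => p.2) (PolyC.var (by simp)))

theorem polyN_ngt {m n : α → ℕ} (hm : PolyN orc D ctx m) (hn : PolyN orc D ctx n) :
    PolyN orc D ctx (fun a => ngt (m a) (n a)) := by
  refine PolyN.count (φ := fun p : α × ℕ => decide ((p.2 + 1) * (2 * n p.1 + 2) ≤ m p.1)) hm ?_
  have hD : ∀ p : α × ℕ, (D p.1 ∧ p.2 < m p.1) → D p.1 := fun p hp => hp.1
  have hj : PolyN (fun p : α × ℕ => orc p.1) (fun p => D p.1 ∧ p.2 < m p.1)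
      (PC.lift ctx ++ [fun p => una p.2]) (fun p => p.2) := PolyC.var (by simp)
  have hn' : PolyN (fun p : α × ℕ => orc p.1) (fun p => D p.1 ∧ p.2 < m p.1)
      (PC.lift ctx ++ [fun p => una p.2]) (fun p => n p.1) := (PolyC.lift hn hD).weakenRight _
  exact PolyB.le (hj.succ.mul (((PolyN.const 2).mul hn').add (PolyN.const 2)))
    ((PolyC.lift hm hD).weakenRight _)

theorem getLastD_eq (v : Str) : v.getLastD false = v.getD (v.length - 1) false := by
  rcases List.eq_nil_or_concat v with rfl | ⟨l, b, rfl⟩
  · rfl
  · simp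

/-- the truth table is computable in polynomial time -/
theorem polyC_tt {y : α → Str} (hy : PolyC orc D ctx y) : PolyC orc D ctx (fun a => tt (y a)) := by
  have hm := PolyN.length hy
  refine PolyC.map_range (φ := fun p : α × ℕ => (wires (lgm (y p.1).length) (y p.1)
    (bin (lgm (y p.1).length) p.2) (ngt (y p.1).length (lgm (y p.1).length))).getLastD false)
    hm.succ ?_
  have hD : ∀ p : α × ℕ, (D p.1 ∧ p.2 < (y p.1).length + 1) → D p.1 := fun p hp => hp.1
  have hj : PolyN (fun p : α × ℕ => orc p.1) (fun p => D p.1 ∧ p.2 < (y p.1).length + 1)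
      (PC.lift ctx ++ [fun p => una p.2]) (fun p => p.2) := PolyC.var (by simp)
  have hy' : PolyC (fun p : α × ℕ => orc p.1) (fun p => D p.1 ∧ p.2 < (y p.1).length + 1)
      (PC.lift ctx ++ [fun p => una p.2]) (fun p => y p.1) := (PolyC.lift hy hD).weakenRight _
  have hl := polyN_lgm (PolyN.length hy')
  have hw := polyC_wires hl hy' (polyC_bin hl hj) (polyN_ngt (PolyN.length hy') hl)
  refine PolyB.congr (PolyB.getD hw ((PolyN.length hw).sub (PolyN.const 1))) ?_
  intro p _
  rw [getLastD_eq]

end

end Pool.Agent.Lib.Pa76659G.Circ
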