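import Pool.Agent.Lib.Pa76659G.Circ1

set_option autoImplicit false

/-!
Every small circuit has a code.
-/

namespace Pool.Agent.Lib.Pa76659G.Circ

open Pool.Agent.Lib.Pa76659 Pool.Agent.Lib.Pa76659G

theorem count_lt (m K : ℕ) : ((List.range m).filter (fun k => decide (k < K))).length = min m K := by
  induction m with
  | zero => simp
  | succ m ih =>
    rw [List.range_succ, List.filter_append, List.length_append, ih]
    by_cases h : m < K
    · simp [h]
      omega
    · simp [h]
      omega

theorem lgm_eq (n : ℕ) : lgm (2 ^ n - 1) = n := by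
  have h0 : 2 ^ n - 1 + 1 = 2 ^ n := Nat.sub_add_cancel Nat.one_le_two_pow
  unfold lgm
  rw [h0]
  have h1 : (fun i => decide (2 ^ (i + 1) ≤ 2 ^ n)) = fun i => decide (i < n) := by
    funext i
    rw [Bool.eq_iff_iff, decide_eq_true_iff, decide_eq_true_iff,
      Nat.pow_le_pow_iff_right (by omega)]
    exact Iff.rfl
  rw [h1, count_lt]
  have := Nat.lt_two_pow_self (n := n)
  omega

theorem ngt_eq (m n : ℕ) : ngt m n = m / (2 * n + 2) := by
  unfold ngt
  have h1 : (fun k => decide ((k + 1) * (2 * n + 2) ≤ m)) =
      fun k => decide (k < m / (2 * n + 2)) := by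
    funext k
    rw [Bool.eq_iff_iff, decide_eq_true_iff, decide_eq_true_iff,
      ← Nat.le_div_iff_mul_le (by omega)]
    exact Iff.rfl
  rw [h1, count_lt]
  have := Nat.div_le_self m (2 * n + 2)
  omega

/-! ### reading -/

theorem sel_bin {n i : ℕ} {v : Str} (hv : v.length < 2 ^ n) :
    sel n (bin n (min i (2 ^ n - 1))) v = v.getD i false := by
  have h0 : 0 < 2 ^ n := by positivity
  rw [Bool.eq_iff_iff]
  unfold sel
  rw [decide_eq_true_iff]
  constructor
  · rintro ⟨w, hw, h⟩
    rw [Bool.and_eq_true, decide_eq_true_iff] at h
    have h1 := bin_inj (by omega) (by omega) h.1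
    have h2 : w = i := by omega
    rw [← h2]
    exact h.2
  · intro h
    have h1 : i < v.length := by
      by_contra hcon
      rw [List.getD_eq_default _ _ (by omega)] at h
      exact absurd h (by simp)
    refine ⟨i, h1, ?_⟩
    rw [Bool.and_eq_true, decide_eq_true_iff, show min i (2 ^ n - 1) = i by omega]
    exact ⟨rfl, h⟩

/-- the code of a gate -/
def enc (n : ℕ) : Gate → Str
  | Gate.and i j => false :: false :: (bin n (min i (2 ^ n - 1)) ++ bin n (min j (2 ^ n - 1)))
  | Gate.or i j => false :: true :: (bin n (min i (2 ^ n - 1)) ++ bin n (min j (2 ^ n - 1)))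
  | Gate.not i => true :: false :: (bin n (min i (2 ^ n - 1)) ++ bin n 0)

@[simp] theorem enc_length (n : ℕ) (g : Gate) : (enc n g).length = 2 * n + 2 := by
  cases g <;> simp [enc] <;> omega

theorem gval_enc {n : ℕ} {v : Str} (hv : v.length < 2 ^ n) (g : Gate) (s : Str) :
    gval n (enc n g ++ s) v = g.val v := by
  have h1 : ∀ (b b' : Bool) (p q : Str), p.length = n → q.length = n →
      (((b :: b' :: (p ++ q)) ++ s).drop 2).take n = p ∧
      (((b :: b' :: (p ++ q)) ++ s).drop (n + 2)).take n = q := by
    intro b b' p q hp hq
    constructor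
    · simp only [List.cons_append, List.drop_succ_cons, List.drop_zero, List.append_assoc]
      rw [← hp, List.take_left]
    · simp only [List.cons_append, List.drop_succ_cons, List.append_assoc]
      rw [← hp, List.drop_left, hp, ← hq, List.take_left]
  cases g with
  | and i j =>
    obtain ⟨h2, h3⟩ := h1 false false (bin n (min i (2 ^ n - 1))) (bin n (min j (2 ^ n - 1)))
      (bin_length _ _) (bin_length _ _)
    unfold gval enc
    rw [h2, h3, sel_bin hv, sel_bin hv]
    rfl
  | or i j =>
    obtain ⟨h2, h3⟩ := h1 false true (bin n (min i (2 ^ n - 1))) (bin n (min j (2 ^ n - 1)))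
      (bin_length _ _) (bin_length _ _)
    unfold gval enc
    rw [h2, h3, sel_bin hv, sel_bin hv]
    rfl
  | not i =>
    obtain ⟨h2, -⟩ := h1 true false (bin n (min i (2 ^ n - 1))) (bin n 0)
      (bin_length _ _) (bin_length _ _)
    unfold gval enc
    rw [h2, sel_bin hv]
    rfl

/-! ### codes of circuits -/

/-- all wires -/
def allw (C : List Gate) (x : Str) : Str := C.foldl (fun v g => v ++ [g.val v]) x

theorem cval_eq (C : List Gate) (x : Str) : cval C x = (allw C x).getLastD false := rfl

theorem allw_concat (C : List Gate) (g : Gate) (x : Str) :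
    allw (C ++ [g]) x = allw C x ++ [g.val (allw C x)] := by
  simp [allw, List.foldl_append]

@[simp] theorem allw_length (C : List Gate) : ∀ x : Str, (allw C x).length = x.length + C.length := by
  induction C using List.reverseRecOn with
  | nil => intro x; rfl
  | append_singleton C g ih =>
    intro x
    rw [allw_concat, List.length_append, ih]
    simp [Nat.add_assoc]

/-- a longer circuit with the same value -/
theorem exists_pad (n : ℕ) (C : List Gate) (j : ℕ) : ∃ C' : List Gate,
    C'.length = C.length + j ∧ ∀ x : Str, x.length = n → cval C' x = cval C x := by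
  induction j with
  | zero => exact ⟨C, rfl, fun _ _ => rfl⟩
  | succ j ih =>
    obtain ⟨C', h1, h2⟩ := ih
    refine ⟨C' ++ [Gate.and (n + C'.length - 1) (n + C'.length - 1)], ?_, ?_⟩
    · simp [h1, Nat.add_assoc]
    · intro x hx
      rw [← h2 x hx, cval_eq, cval_eq, allw_concat, getLastD_eq (allw C' x), allw_length, hx]
      simp [Gate.val]

/-- the code of a circuit -/
def code (n : ℕ) (C : List Gate) : Str := C.flatMap (enc n)

@[simp] theorem code_length (n : ℕ) (C : List Gate) : (code n C).length = C.length * (2 * n + 2) := by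
  induction C with
  | nil => simp [code]
  | cons g C ih =>
    have : code n (g :: C) = enc n g ++ code n C := rfl
    rw [this, List.length_append, ih, enc_length, List.length_cons]
    ring

theorem drop_code (n : ℕ) (C : List Gate) (s : Str) (k : ℕ) (hk : k < C.length) :
    ∃ s' : Str, (code n C ++ s).drop (k * (2 * n + 2)) = enc n C[k] ++ s' := by
  have h1 : C = C.take k ++ C[k] :: C.drop (k + 1) := by
    rw [← List.drop_eq_getElem_cons hk, List.take_append_drop]
  have h2 : code n (C.take k ++ C[k] :: C.drop (k + 1)) =
      code n (C.take k) ++ (enc n C[k] ++ code n (C.drop (k + 1))) := by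
    simp only [code, List.flatMap_append, List.flatMap_cons]
  rw [← h1] at h2
  refine ⟨code n (C.drop (k + 1)) ++ s, ?_⟩
  have h3 : k * (2 * n + 2) = (code n (C.take k)).length := by
    rw [code_length, List.length_take]
    congr 1
    omega
  rw [h2, List.append_assoc, h3, List.drop_left, List.append_assoc]

theorem wires_code {n : ℕ} {C : List Gate} {s x : Str} (hx : x.length + C.length ≤ 2 ^ n) :
    ∀ k ≤ C.length, wires n (code n C ++ s) x k = allw (C.take k) x := by
  intro k
  induction k with
  | zero => intro _; rfl
  | succ k ih =>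
    intro hk
    obtain ⟨s', hs'⟩ := drop_code n C s k (by omega)
    have h1 : C.take (k + 1) = C.take k ++ [C[k]] := by
      rw [List.take_add_one, List.getElem?_eq_getElem (by omega)]
      rfl
    rw [wires, hs', ih (by omega), h1, allw_concat, gval_enc]
    rw [allw_length, List.length_take]
    omega

/-- every small circuit has a code -/
theorem exists_code (n : ℕ) (C : List Gate) (hC : C.length * (2 * n + 2) ≤ 2 ^ n - 1) :
    ∃ y : Str, y.length = 2 ^ n - 1 ∧
      tt y = (List.range (2 ^ n)).map fun a => cval C (bin n a) := by
  set m := 2 ^ n - 1 with hm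
  have h0 : m + 1 = 2 ^ n := Nat.sub_add_cancel Nat.one_le_two_pow
  set K := m / (2 * n + 2) with hK
  have hCK : C.length ≤ K := (Nat.le_div_iff_mul_le (by omega)).2 hC
  have hKm : K * (2 * n + 2) ≤ m := Nat.div_mul_le_self _ _
  obtain ⟨C', h1, h2⟩ := exists_pad n C (K - C.length)
  have h1' : C'.length = K := by omega
  refine ⟨code n C' ++ List.replicate (m - K * (2 * n + 2)) false, ?_, ?_⟩
  · rw [List.length_append, code_length, List.length_replicate, h1']
    omega
  · have h3 : (code n C' ++ List.replicate (m - K * (2 * n + 2)) false).length = m := by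
      rw [List.length_append, code_length, List.length_replicate, h1']
      omega
    unfold tt
    rw [h3, h0, hm, lgm_eq, ← hm, ngt_eq, ← hK]
    refine List.map_congr_left ?_
    intro a _
    have h4 : n + K ≤ 2 ^ n := by
      have h5 : 2 * K ≤ m := by
        refine le_trans ?_ hKm
        rw [mul_comm]
        exact Nat.mul_le_mul_left _ (by omega)
      have h6 : 2 * n ≤ 2 ^ n := by
        rcases n with _ | n
        · simp
        · have := Nat.lt_two_pow_self (n := n)
          rw [pow_succ]
          omega
      omega
    rw [wires_code (by rw [bin_length, h1']; exact h4) K (by omega), ← h1', List.take_length,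
      ← cval_eq, h2 _ (bin_length _ _)]

end Pool.Agent.Lib.Pa76659G.Circ
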