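import Pool.Agent.Lib.Pa76659G.Mem
import Pool.Agent.Lib.Pa76659G.CircSpec

set_option autoImplicit false

/-!
Exponential time: polynomial time computations with the unary number `2^n` as an additional input.
-/

namespace Pool.Agent.Lib.Pa76659G.Circ

open Pool.Agent.Lib.Pa76659 Pool.Agent.Lib.Pa76659G Pool.Agent.Lib.Pa76659G.PC

theorem exists_bound (q : Polynomial ℕ) : ∃ c : ℕ, ∀ n : ℕ, q.eval (2 ^ n) ≤ 2 ^ (c * (n + 1)) := by
  induction q using Polynomial.induction_on' with
  | add p q hp hq =>
    obtain ⟨c, hc⟩ := hp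
    obtain ⟨d, hd⟩ := hq
    refine ⟨c + d + 1, fun n => ?_⟩
    rw [Polynomial.eval_add]
    have h1 := hc n
    have h2 := hd n
    have h3 : 2 ^ (c * (n + 1)) ≤ 2 ^ ((c + d) * (n + 1)) :=
      Nat.pow_le_pow_right (by omega) (Nat.mul_le_mul_right _ (by omega))
    have h4 : 2 ^ (d * (n + 1)) ≤ 2 ^ ((c + d) * (n + 1)) :=
      Nat.pow_le_pow_right (by omega) (Nat.mul_le_mul_right _ (by omega))
    have h5 : 2 ^ ((c + d) * (n + 1)) * 2 ≤ 2 ^ ((c + d + 1) * (n + 1)) := by
      rw [← pow_succ]
      exact Nat.pow_le_pow_right (by omega) (by ring_nf; omega)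
    omega
  | monomial k a =>
    refine ⟨a + k, fun n => ?_⟩
    rw [Polynomial.eval_monomial, ← pow_mul]
    calc a * 2 ^ (n * k) ≤ 2 ^ a * 2 ^ (n * k) :=
          Nat.mul_le_mul_right _ (Nat.lt_two_pow_self (n := a)).le
      _ = 2 ^ (a + n * k) := by rw [pow_add]
      _ ≤ 2 ^ ((a + k) * (n + 1)) := Nat.pow_le_pow_right (by omega) (by
          have h1 : (a + k) * (n + 1) = a + n * k + (a * n + k) := by ring
          omega)

variable {O : Lang}

/-- double the register `1` -/
def dbl : Prog := .seq (copy 1 3 4) (moveRev 3 1)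

theorem run_dbl (x rem : Str) (k : ℕ) :
    Run O dbl (R [x, una k, rem]) (R [x, una (2 * k), rem]) (17 * k + 5) := by
  have h1 := run_copy (O := O) (r := 1) (s := 3) (tmp := 4) (by omega) (by omega) (by omega)
    (R [x, una k, rem]) (by rw [R_of_ge]; simp)
  have e1 : R [x, una k, rem] 1 = una k := rfl
  have e2 : R [x, una k, rem] 3 = [] := rfl
  rw [e1, e2, List.append_nil] at h1
  have e3 : Function.update (R [x, una k, rem]) 3 (una k) = R [x, una k, rem, una k] := by
    have h := R_update [x, una k, rem] [] (una k) []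
    have h' := R_append_nil [x, una k, rem]
    simp only [List.cons_append, List.nil_append, List.length_cons, List.length_nil] at h h'
    rw [h'] at h
    exact h
  rw [e3] at h1
  have h2 := run_moveRev (O := O) (r := 3) (s := 1) (by omega) (R [x, una k, rem, una k])
  have e4 : R [x, una k, rem, una k] 1 = una k := rfl
  have e5 : R [x, una k, rem, una k] 3 = una k := rfl
  rw [e4, e5] at h2
  have e6 : Function.update (R [x, una k, rem, una k]) 3 [] = R [x, una k, rem] := by
    have h := R_update [x, una k, rem] (una k) [] []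
    have h' := R_append_nil [x, una k, rem]
    simp only [List.cons_append, List.nil_append, List.length_cons, List.length_nil] at h h'
    rw [h'] at h
    exact h
  have e7 : (una k).reverse ++ una k = una (2 * k) := by
    unfold una
    rw [List.reverse_replicate, ← List.replicate_add]
    congr 1
    omega
  have e8 : Function.update (R [x, una k, rem]) 1 (una (2 * k)) = R [x, una (2 * k), rem] := by
    have h := R_update [x] (una k) (una (2 * k)) [rem]
    simpa using h
  rw [e6, e7, e8] at h2
  refine (Run.seq h1 h2).cast rfl ?_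
  rw [un_length]
  omega

/-- double the register `1` as often as given by the length of the register `2` -/
def pw : Prog := .loop 2 (.seq (.pop 2) dbl)

theorem run_pw (x : Str) : ∀ (rem : Str) (k : ℕ), ∃ n, n + 17 * k ≤
    17 * (2 ^ rem.length * k) + 8 * rem.length + 1 ∧
      Run O pw (R [x, una k, rem]) (R [x, una (2 ^ rem.length * k)]) n
  | [], k => by
      refine ⟨1, by simp; omega, ?_⟩
      have h := Run.loopNil (O := O) (r := 2) (P := .seq (.pop 2) dbl) (S := R [x, una k, []]) rfl
      have h' := R_append_nil [x, una k]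
      simp only [List.cons_append, List.nil_append] at h'
      refine h.cast ?_ rfl
      rw [h']
      simp
  | b :: rem, k => by
      obtain ⟨n, hn, hr⟩ := run_pw x rem (2 * k)
      have h1 := Run.pop (O := O) (R [x, una k, b :: rem]) 2
      have e1 : R [x, una k, b :: rem] 2 = b :: rem := rfl
      have e2 : Function.update (R [x, una k, b :: rem]) 2 rem = R [x, una k, rem] := by
        have h := R_update [x, una k] (b :: rem) rem []
        simpa using h
      rw [e1, List.tail_cons, e2] at h1
      have h2 := Run.seq h1 (run_dbl (O := O) x rem k)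
      have h3 := Run.loopCons (r := 2) (by rw [e1]; simp) h2 hr
      have e3 : 2 ^ rem.length * (2 * k) = 2 ^ (b :: rem).length * k := by
        rw [List.length_cons, pow_succ]
        ring
      rw [e3] at h3 hn
      refine ⟨_, ?_, h3⟩
      rw [List.length_cons] at hn ⊢
      omega

/-- write `2^n` ones -/
def mkpow : Prog := .seq (.push 1 true) (.seq (copy 0 2 3) pw)

theorem run_mkpow (x : Str) : ∃ n, n ≤ 17 * 2 ^ x.length + 20 * x.length + 7 ∧
    Run O mkpow (R [x]) (R [x, una (2 ^ x.length)]) n := by
  have h1 := Run.push (O := O) (R [x]) 1 true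
  have e1 : R [x] 1 = [] := rfl
  have e2 : Function.update (R [x]) 1 [true] = R [x, una 1] := by
    have h := R_update [x] [] [true] []
    have h' := R_append_nil [x]
    simp only [List.cons_append, List.nil_append, List.length_cons, List.length_nil] at h h'
    rw [h'] at h
    exact h
  rw [e1, e2] at h1
  have h2 := run_copy (O := O) (r := 0) (s := 2) (tmp := 3) (by omega) (by omega) (by omega)
    (R [x, una 1]) (by rw [R_of_ge]; simp)
  have e3 : R [x, una 1] 0 = x := rfl
  have e4 : R [x, una 1] 2 = [] := rfl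
  have e5 : Function.update (R [x, una 1]) 2 x = R [x, una 1, x] := by
    have h := R_update [x, una 1] [] x []
    have h' := R_append_nil [x, una 1]
    simp only [List.cons_append, List.nil_append, List.length_cons, List.length_nil] at h h'
    rw [h'] at h
    exact h
  rw [e3, e4, List.append_nil, e5] at h2
  obtain ⟨n, hn, hr⟩ := run_pw (O := O) x x 1
  rw [mul_one] at hn hr
  refine ⟨_, ?_, Run.seq h1 (Run.seq h2 hr)⟩
  omega

/-- Computations in exponential time. -/
theorem mem_EO {φ : Str × Str → Bool}
    (h : PolyB (fun _ : Str × Str => O) (fun _ => True) [fun p => p.1, fun p => p.2] φ) :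
    (fun x => φ (x, una (2 ^ x.length))) ∈ EO O := by
  obtain ⟨P, p, hP⟩ := h
  obtain ⟨c, hc⟩ := exists_bound (p.comp (2 * Polynomial.X) + 40 * Polynomial.X + 40)
  refine ⟨.seq mkpow (.seq P (.seq (clear 0) (move 2 0 3))), c, fun x => ?_⟩
  set t := una (2 ^ x.length) with ht
  obtain ⟨n0, hn0, hr0⟩ := run_mkpow (O := O) x
  obtain ⟨n, hn, hr⟩ := hP (x, t) trivial
  simp only [vals_cons, vals_nil, total_cons, total_nil, Nat.add_zero, List.cons_append,
    List.nil_append] at hn hr
  have h1 := run_clear (O := O) 0 (R [x, t, [φ (x, t)]])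
  have e1 : Function.update (R [x, t, [φ (x, t)]]) 0 [] = R [[], t, [φ (x, t)]] :=
    R_update [] x [] [t, [φ (x, t)]]
  have e2 : R [x, t, [φ (x, t)]] 0 = x := R_length [] x [t, [φ (x, t)]]
  rw [e1, e2] at h1
  have h2 := run_move (O := O) (r := 2) (s := 0) (tmp := 3) (by omega) (by omega) (by omega)
    (R [[], t, [φ (x, t)]]) (by rw [R_of_ge]; simp)
  have e3 : R [[], t, [φ (x, t)]] 2 = [φ (x, t)] := R_length [[], t] [φ (x, t)] []
  have e4 : R [[], t, [φ (x, t)]] 0 = [] := R_length [] [] [t, [φ (x, t)]]
  have e5 : Function.update (R [[], t, [φ (x, t)]]) 2 [] = R [[], t, []] :=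
    R_update [[], t] [φ (x, t)] [] []
  have e6 : Function.update (R [[], t, []]) 0 [φ (x, t)] = R [[φ (x, t)], t, []] :=
    R_update [] [] [φ (x, t)] [t, []]
  rw [e3, e4, e5, List.append_nil, e6] at h2
  have h3 := (Run.seq hr0 (Run.seq hr (Run.seq h1 h2))).exec
  have e7 : R [x] = inp x := by
    funext i
    rcases i with _ | i
    · simp [R, inp]
    · simp [R, inp]
  rw [e7] at h3
  have hlt : x.length < 2 ^ x.length := Nat.lt_two_pow_self
  have h4 := h3.halts (N := 2 ^ (c * (x.length + 1))) (by
    have h5 := hc x.length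
    simp only [Polynomial.eval_add, Polynomial.eval_mul, Polynomial.eval_X, Polynomial.eval_comp,
      Polynomial.eval_ofNat] at h5
    have h6 : n ≤ p.eval (2 * 2 ^ x.length) := by
      refine hn.trans (eval_mono p ?_)
      rw [ht, un_length]
      omega
    rw [List.length_singleton]
    omega)
  refine ⟨h4.1, ?_⟩
  rw [h4.2]
  have e8 : R [[φ (x, t)], t, []] 0 = [φ (x, t)] := R_length [] [φ (x, t)] [t, []]
  rw [e8]
  show φ (x, t) = _
  cases φ (x, t) <;> rfl

end Pool.Agent.Lib.Pa76659G.Circ
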