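import Pool.Agent.Lib.Pa76659G.Circ2
import Pool.Agent.Lib.Pa76659G.Circ3
import Pool.Agent.Lib.Pa76659.Subst

set_option autoImplicit false

/-!
From unary range avoidance to a language in `E^NP` without small circuits.
-/

namespace Pool.Agent.Lib.Pa76659G.Circ

open Pool.Agent.Lib.Pa76659 Pool.Agent.Lib.Pa76659G Pool.Agent.Lib.Pa76659G.PC

/-- the language given by the strings `advStr W`, read as truth tables -/
noncomputable def hd (W : Lang) : Lang := fun x =>
  decide (∃ a < (una (2 ^ x.length)).length, (decide (bin x.length a = x) &&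
    W (pr (una (2 ^ x.length)).tail (una a))) = true)

theorem hd_eq {W : Lang} {x : Str} :
    hd W x = W (pr (on1 (2 ^ x.length - 1)) (on1 (bval x))) := by
  have h1 : (una (2 ^ x.length)).tail = on1 (2 ^ x.length - 1) := by
    rw [on1_eq]
    unfold una
    rw [List.tail_replicate]
  have h2 := bin_bval (n := x.length) (x := x) rfl
  rw [Bool.eq_iff_iff]
  unfold hd
  rw [decide_eq_true_iff, h1, un_length]
  constructor
  · rintro ⟨a, ha, h⟩
    rw [Bool.and_eq_true, decide_eq_true_iff] at h
    have h3 : a = bval x := bin_inj ha (bval_lt x) (h.1.trans h2.symm)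
    rw [← h3]
    exact h.2
  · intro h
    refine ⟨bval x, bval_lt x, ?_⟩
    rw [Bool.and_eq_true, decide_eq_true_iff]
    exact ⟨h2, h⟩

theorem hd_mem {B W : Lang} (hW : W ∈ PO B) : hd W ∈ EO B := by
  have hx : PolyC (fun _ : Str × Str => B) (fun _ => True) [fun p => p.1, fun p => p.2]
    (fun p => p.1) := PolyC.var (by simp)
  have ht : PolyC (fun _ : Str × Str => B) (fun _ => True) [fun p => p.1, fun p => p.2]
    (fun p => p.2) := PolyC.var (by simp)
  have h := PolyB.exists_lt (orc := fun _ : Str × Str => B) (D := fun _ => True)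
    (ctx := [fun p : Str × Str => p.1, fun p => p.2]) (n := fun p => p.2.length)
    (φ := fun q : (Str × Str) × ℕ => decide (bin q.1.1.length q.2 = q.1.1) &&
      W (pr q.1.2.tail (una q.2))) (PolyN.length ht) (by
      have hD : ∀ p : (Str × Str) × ℕ, (True ∧ p.2 < p.1.2.length) → True := fun _ _ => trivial
      have hx' : PolyC (fun _ : (Str × Str) × ℕ => B) (fun p => True ∧ p.2 < p.1.2.length)
        (PC.lift [fun p : Str × Str => p.1, fun p => p.2] ++ [fun p => una p.2])
        (fun p => p.1.1) := (PolyC.lift hx hD).weakenRight _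
      have ht' : PolyC (fun _ : (Str × Str) × ℕ => B) (fun p => True ∧ p.2 < p.1.2.length)
        (PC.lift [fun p : Str × Str => p.1, fun p => p.2] ++ [fun p => una p.2])
        (fun p => p.1.2) := (PolyC.lift ht hD).weakenRight _
      have ha : PolyN (fun _ : (Str × Str) × ℕ => B) (fun p => True ∧ p.2 < p.1.2.length)
        (PC.lift [fun p : Str × Str => p.1, fun p => p.2] ++ [fun p => una p.2])
        (fun p => p.2) := PolyC.var (by simp)
      exact (PolyB.strEq (polyC_bin (PolyN.length hx') ha) hx').and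
        (polyB_of_PO hW (PolyC.pr ht'.tail ha)))
  have h' := mem_EO h
  exact h'

/-- hardness of the language -/
theorem hard_hd {W : Lang} (hav : ∀ (n : ℕ) (x : Str), x.length = n →
    tt x ≠ advStr W (Polynomial.X + 1) n) (n : ℕ) (C : List Gate)
    (hC : ∀ x : Str, x.length = n → cval C x = hd W x) :
    2 ^ n ≤ (2 * n + 2) * (C.length + 1) := by
  by_contra hcon
  push Not at hcon
  have h0 : 2 ^ n - 1 + 1 = 2 ^ n := Nat.sub_add_cancel Nat.one_le_two_pow
  obtain ⟨y, hy, hy2⟩ := exists_code n C (by
    have h1 : (2 * n + 2) * (C.length + 1) = C.length * (2 * n + 2) + (2 * n + 2) := by ring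
    omega)
  refine hav (2 ^ n - 1) y hy ?_
  rw [hy2]
  unfold advStr
  simp only [Polynomial.eval_add, Polynomial.eval_X, Polynomial.eval_one]
  rw [h0]
  refine List.map_congr_left ?_
  intro a ha
  rw [List.mem_range] at ha
  rw [hC _ (bin_length _ _), hd_eq, bin_length, bval_bin ha]

/-- **Range avoidance gives hard functions.** -/
theorem hard_of_avoid {X : Lang}
    (h : ∀ F : Str → Str, (∀ x, (F x).length = x.length + 1) →
      PolyC (fun _ : Str => X) (fun _ => True) [fun x => x] F →
      ∃ W ∈ DelSucc X 1, ∀ (n : ℕ) (x : Str), x.length = n →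
        F x ≠ advStr W (Polynomial.X + 1) n) :
    ∃ L ∈ ENP X, ∀ (n : ℕ) (C : List Gate), (∀ x : Str, x.length = n → cval C x = L x) →
      2 ^ n ≤ (2 * n + 2) * (C.length + 1) := by
  obtain ⟨W, ⟨B, ⟨B', hB', hB⟩, hW⟩, hav⟩ := h tt tt_length
    (polyC_tt (PolyC.var (f := fun x : Str => x) (by simp)))
  exact ⟨hd W, ⟨B, NPO_subset hB' hB, hd_mem hW⟩, hard_hd hav⟩

end Pool.Agent.Lib.Pa76659G.Circ
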