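import Pool.Agent.Lib.Pa76659G.Circ4

set_option autoImplicit false

/-!
Nondeterministic exponential time.
-/

namespace Pool.Agent.Lib.Pa76659G.Circ

open Pool.Agent.Lib.Pa76659 Pool.Agent.Lib.Pa76659G Pool.Agent.Lib.Pa76659G.PC

variable {O : Lang}

/-- A language defined by exponentially long witnesses is in `NE`. -/
theorem mem_NEO {L : Lang} {V : Str × Str → Bool} (c : ℕ) (hc : 1 ≤ c)
    (hV : PolyB (fun _ : Str × Str => O) (fun p => 2 ^ p.1.length ≤ p.2.length)
      [fun p => p.1, fun p => p.2] V)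
    (h : ∀ x, L x = true ↔ ∃ y : Str, y.length = 2 ^ (c * (x.length + 1)) ∧ V (x, y) = true) :
    L ∈ NEO O := by
  obtain ⟨P, p, hP⟩ := hV
  obtain ⟨d, hd⟩ := exists_bound ((p.comp (2 * Polynomial.X) + 40 * Polynomial.X + 40).comp
    (Polynomial.X ^ c))
  obtain ⟨d', hd'⟩ : ∃ d' : ℕ, ∀ n : ℕ, (p.comp (2 * Polynomial.X) + 40 * Polynomial.X +
      40).eval (2 ^ (c * (n + 1))) ≤ 2 ^ (d' * (n + 1)) := by
    refine ⟨2 * d, fun n => ?_⟩
    have h1 := hd (n + 1)
    rw [Polynomial.eval_comp, Polynomial.eval_pow, Polynomial.eval_X, ← pow_mul] at h1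
    rw [mul_comm c (n + 1)]
    refine h1.trans (Nat.pow_le_pow_right (by omega) ?_)
    have h2 : 2 * d * (n + 1) = d * (n + 1 + 1) + d * n := by ring
    omega
  refine ⟨.seq P (.seq (clear 0) (move 2 0 3)), c, d', fun x => ?_⟩
  have key : ∀ y : Str, y.length = 2 ^ (c * (x.length + 1)) →
      Halts O (.seq P (.seq (clear 0) (move 2 0 3))) (inp2 x y) (2 ^ (d' * (x.length + 1))) ∧
      accepts O (.seq P (.seq (clear 0) (move 2 0 3))) (inp2 x y) (2 ^ (d' * (x.length + 1))) =
        V (x, y) := by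
    intro y hy
    have hlt : x.length < 2 ^ x.length := Nat.lt_two_pow_self
    have hle : 2 ^ x.length ≤ y.length := by
      rw [hy]
      refine Nat.pow_le_pow_right (by omega) ?_
      calc x.length ≤ 1 * (x.length + 1) := by omega
        _ ≤ c * (x.length + 1) := Nat.mul_le_mul_right _ hc
    obtain ⟨n, hn, hr⟩ := hP (x, y) hle
    simp only [vals_cons, vals_nil, total_cons, total_nil, Nat.add_zero, List.cons_append,
      List.nil_append] at hn hr
    have h1 := run_clear (O := O) 0 (R [x, y, [V (x, y)]])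
    have e1 : Function.update (R [x, y, [V (x, y)]]) 0 [] = R [[], y, [V (x, y)]] :=
      R_update [] x [] [y, [V (x, y)]]
    have e2 : R [x, y, [V (x, y)]] 0 = x := R_length [] x [y, [V (x, y)]]
    rw [e1, e2] at h1
    have h2 := run_move (O := O) (r := 2) (s := 0) (tmp := 3) (by omega) (by omega) (by omega)
      (R [[], y, [V (x, y)]]) (by rw [R_of_ge]; simp)
    have e3 : R [[], y, [V (x, y)]] 2 = [V (x, y)] := R_length [[], y] [V (x, y)] []
    have e4 : R [[], y, [V (x, y)]] 0 = [] := R_length [] [] [y, [V (x, y)]]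
    have e5 : Function.update (R [[], y, [V (x, y)]]) 2 [] = R [[], y, []] :=
      R_update [[], y] [V (x, y)] [] []
    have e6 : Function.update (R [[], y, []]) 0 [V (x, y)] = R [[V (x, y)], y, []] :=
      R_update [] [] [V (x, y)] [y, []]
    rw [e3, e4, e5, List.append_nil, e6] at h2
    have h3 := (Run.seq hr (Run.seq h1 h2)).exec
    have e7 : R [x, y] = inp2 x y := by
      funext i
      rcases i with _ | _ | i
      · simp [R, inp2]
      · simp [R, inp2]
      · simp [R, inp2]
    rw [e7] at h3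
    have h4 := h3.halts (N := 2 ^ (d' * (x.length + 1))) (by
      have h5 := hd' x.length
      simp only [Polynomial.eval_add, Polynomial.eval_mul, Polynomial.eval_X,
        Polynomial.eval_comp, Polynomial.eval_ofNat] at h5
      have h6 : n ≤ p.eval (2 * 2 ^ (c * (x.length + 1))) := by
        refine hn.trans (eval_mono p ?_)
        omega
      rw [List.length_singleton]
      omega)
    refine ⟨h4.1, ?_⟩
    rw [h4.2]
    have e8 : R [[V (x, y)], y, []] 0 = [V (x, y)] := R_length [] [V (x, y)] [y, []]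
    rw [e8]
    cases V (x, y) <;> rfl
  refine ⟨fun y hy => (key y hy).1, ?_⟩
  rw [h x]
  constructor
  · rintro ⟨y, hy, hv⟩
    exact ⟨y, hy, by rw [(key y hy).2, hv]⟩
  · rintro ⟨y, hy, hv⟩
    rw [(key y hy).2] at hv
    exact ⟨y, hy, hv⟩

variable {α : Type*} {orc : α → Lang} {D : α → Prop} {ctx : List (α → Str)}

/-- powers of two that are smaller than the input -/
theorem polyN_pow {k m : α → ℕ} (hk : PolyN orc D ctx k) (hm : PolyN orc D ctx m)
    (hD : ∀ a, D a → 2 ^ (k a) ≤ m a) : PolyN orc D ctx (fun a => 2 ^ (k a)) := by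
  obtain ⟨pm, hpm⟩ := PolyC.length_le hm
  refine PolyC.natRec (fun a j => una (2 ^ j)) hk (PolyN.const 1) ?_ ⟨pm, fun a ha j hj => ?_⟩
  · have hw : PolyN (fun p : α × ℕ => orc p.1) (fun p => D p.1 ∧ p.2 < k p.1)
        (PC.lift ctx ++ [fun p => una p.2, fun p => una (2 ^ p.2)])
        (fun p => 2 ^ p.2) := PolyC.var (by simp)
    refine PolyN.congr (hw.add hw) ?_
    intro p _
    rw [pow_succ]
    omega
  · have h1 := hpm a ha
    rw [un_length] at h1 ⊢
    exact ((Nat.pow_le_pow_right (by omega) hj).trans (hD a ha)).trans h1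

/-- The language of the truth tables is in `NE`. -/
theorem hd_NEO {W : Lang} (hW : W ∈ NPO O) : hd W ∈ NEO O := by
  obtain ⟨V, q, hV, hL⟩ := exists_of_NPO hW
  obtain ⟨c, hc⟩ := exists_bound (q.comp (4 * Polynomial.X) + Polynomial.X + 1)
  have hx : PolyC (fun _ : Str × Str => O) (fun p => 2 ^ p.1.length ≤ p.2.length)
    [fun p => p.1, fun p => p.2] (fun p => p.1) := PolyC.var (by simp)
  have hy : PolyC (fun _ : Str × Str => O) (fun p => 2 ^ p.1.length ≤ p.2.length)
    [fun p => p.1, fun p => p.2] (fun p => p.2) := PolyC.var (by simp)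
  have ht : PolyN (fun _ : Str × Str => O) (fun p => 2 ^ p.1.length ≤ p.2.length)
    [fun p => p.1, fun p => p.2] (fun p => 2 ^ p.1.length) :=
    polyN_pow (PolyN.length hx) (PolyN.length hy) (fun _ h => h)
  have hz : ∀ (x : Str) (a : ℕ), a < 2 ^ x.length →
      (pr (una (2 ^ x.length)).tail (una a)).length ≤ 4 * 2 ^ x.length := by
    intro x a ha
    rw [pr_length, List.length_tail, un_length, un_length]
    omega
  have h := PolyB.exists_lt (orc := fun _ : Str × Str => O)
    (D := fun p => 2 ^ p.1.length ≤ p.2.length)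
    (ctx := [fun p : Str × Str => p.1, fun p => p.2]) (n := fun p => 2 ^ p.1.length)
    (φ := fun s : (Str × Str) × ℕ => (decide (bin s.1.1.length s.2 = s.1.1) &&
      decide ((afterTrue s.1.2).length =
        q.eval (pr (una (2 ^ s.1.1.length)).tail (una s.2)).length)) &&
      V (pr (una (2 ^ s.1.1.length)).tail (una s.2), afterTrue s.1.2)) ht (by
      have hD : ∀ p : (Str × Str) × ℕ, (2 ^ p.1.1.length ≤ p.1.2.length ∧
        p.2 < 2 ^ p.1.1.length) → 2 ^ p.1.1.length ≤ p.1.2.length := fun _ h => h.1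
      have hx' : PolyC (fun _ : (Str × Str) × ℕ => O)
        (fun p => 2 ^ p.1.1.length ≤ p.1.2.length ∧ p.2 < 2 ^ p.1.1.length)
        (PC.lift [fun p : Str × Str => p.1, fun p => p.2] ++ [fun p => una p.2])
        (fun p => p.1.1) := (PolyC.lift hx hD).weakenRight _
      have hy' : PolyC (fun _ : (Str × Str) × ℕ => O)
        (fun p => 2 ^ p.1.1.length ≤ p.1.2.length ∧ p.2 < 2 ^ p.1.1.length)
        (PC.lift [fun p : Str × Str => p.1, fun p => p.2] ++ [fun p => una p.2])
        (fun p => p.1.2) := (PolyC.lift hy hD).weakenRight _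
      have ht' : PolyN (fun _ : (Str × Str) × ℕ => O)
        (fun p => 2 ^ p.1.1.length ≤ p.1.2.length ∧ p.2 < 2 ^ p.1.1.length)
        (PC.lift [fun p : Str × Str => p.1, fun p => p.2] ++ [fun p => una p.2])
        (fun p => 2 ^ p.1.1.length) := (PolyC.lift ht hD).weakenRight _
      have ha : PolyN (fun _ : (Str × Str) × ℕ => O)
        (fun p => 2 ^ p.1.1.length ≤ p.1.2.length ∧ p.2 < 2 ^ p.1.1.length)
        (PC.lift [fun p : Str × Str => p.1, fun p => p.2] ++ [fun p => una p.2])
        (fun p => p.2) := PolyC.var (by simp)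
      have hz' := PolyC.pr (PolyC.tail ht') ha
      have hay := PolyC.afterTrue hy'
      exact ((PolyB.strEq (polyC_bin (PolyN.length hx') ha) hx').and
        (PolyB.natEq (PolyN.length hay) ((PolyN.length hz').poly q))).and
        (PolyB.arg2 hV hz' hay))
  refine mem_NEO (c + 1) (by omega) h (fun x => ?_)
  rw [hd_eq]
  have h1 : (una (2 ^ x.length)).tail = on1 (2 ^ x.length - 1) := by
    rw [on1_eq]
    unfold una
    rw [List.tail_replicate]
  have h2 := bin_bval (n := x.length) (x := x) rfl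
  constructor
  · intro hW1
    obtain ⟨y, hy1, hy2⟩ := (hL _).1 hW1
    have h3 : y.length + 1 ≤ 2 ^ ((c + 1) * (x.length + 1)) := by
      have h4 := hc x.length
      simp only [Polynomial.eval_add, Polynomial.eval_mul, Polynomial.eval_X,
        Polynomial.eval_comp, Polynomial.eval_ofNat, Polynomial.eval_one] at h4
      have h5 := eval_mono q (hz x (bval x) (bval_lt x))
      rw [h1, on1_eq] at h5
      rw [on1_eq] at hy1
      have h6 : 2 ^ (c * (x.length + 1)) ≤ 2 ^ ((c + 1) * (x.length + 1)) :=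
        Nat.pow_le_pow_right (by omega) (Nat.mul_le_mul_right _ (by omega))
      have h7 : 0 < 2 ^ x.length := by positivity
      rw [hy1, on1_eq]
      omega
    refine ⟨una (2 ^ ((c + 1) * (x.length + 1)) - (y.length + 1)) ++ false :: y, ?_, ?_⟩
    · rw [List.length_append, un_length, List.length_cons]
      omega
    · rw [decide_eq_true_iff]
      refine ⟨bval x, bval_lt x, ?_⟩
      simp only [afterTrue_un, Bool.and_eq_true, decide_eq_true_eq]
      rw [h1]
      exact ⟨⟨h2, hy1⟩, hy2⟩
  · rintro ⟨y, -, hy⟩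
    rw [decide_eq_true_iff] at hy
    obtain ⟨a, ha, hy⟩ := hy
    simp only [Bool.and_eq_true, decide_eq_true_eq] at hy
    have h3 : a = bval x := bin_inj ha (bval_lt x) (hy.1.1.trans h2.symm)
    subst h3
    rw [h1] at hy
    exact (hL _).2 ⟨_, hy.1.2, hy.2⟩

/-- The complement. -/
theorem hd_not (W : Lang) : (fun x => !(hd W x)) = hd (fun x => !(W x)) := by
  funext x
  rw [hd_eq, hd_eq]

end Pool.Agent.Lib.Pa76659G.Circ
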