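import Pool.Agent.Lib.Pa76659G.UoE

set_option autoImplicit false

/-!
If `\hat L_2 = L_2` then strings outside the range of a polynomial time function with one more bit of
output are computable in polynomial time with an oracle in `NP`.
-/

namespace Pool.Agent.Lib.Pa76659G

open Pool.Agent.Lib.Pa76659 PC

namespace Uo

section

variable (F : Str → Str)

/-- the state after `k` steps -/
def sk (k : ℕ) (x : Str) : Str := (fun s => (F s).tail)^[k] x

/-- the last state and the bits which are written in `|x|` steps -/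
def FC (b : Bool) (x : Str) : Str :=
  if b then (List.range x.length).map (fun k => (F (sk F k x)).headD false) else sk F x.length x

/-- `s` leads to the state `a`, and the bits of `b` from `i` on are written -/
def chn (n i : ℕ) (a b s : Str) : Bool :=
  decide (sk F (n - i) s = a) &&
  decide (∀ k < n - i, ((F (sk F k s)).headD false == b.getD (i + k) false) = true)

theorem chn_iff {n i : ℕ} {a b s : Str} : chn F n i a b s = true ↔ sk F (n - i) s = a ∧
    ∀ k < n - i, (F (sk F k s)).headD false = b.getD (i + k) false := by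
  unfold chn
  simp only [Bool.and_eq_true, decide_eq_true_eq, beq_iff_eq]

theorem chn_top (n : ℕ) (a b : Str) : chn F n n a b a = true := by
  rw [chn_iff, Nat.sub_self]
  exact ⟨rfl, fun k hk => absurd hk (by omega)⟩

theorem chn_step {n i : ℕ} {a b s x : Str} (hi : i < n) (h : chn F n (i + 1) a b s = true)
    (hx : F x = b.getD i false :: s) : chn F n i a b x = true := by
  rw [chn_iff] at h ⊢
  have h1 : ∀ k, sk F (k + 1) x = sk F k s := by
    intro k
    unfold sk
    rw [Function.iterate_succ_apply, hx, List.tail_cons]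
  obtain ⟨h2, h3⟩ := h
  refine ⟨?_, fun k hk => ?_⟩
  · rw [show n - i = n - (i + 1) + 1 by omega, h1]
    exact h2
  · rcases k with _ | k
    · unfold sk
      rw [Function.iterate_zero, id, hx, List.headD_cons, Nat.add_zero]
    · rw [h1, h3 k (by omega), show i + 1 + k = i + (k + 1) by omega]

variable {F} (hF : ∀ x, (F x).length = x.length + 1)

include hF

theorem sk_length (k : ℕ) (x : Str) : (sk F k x).length = x.length := by
  unfold sk
  induction k generalizing x with
  | zero => rfl
  | succ k ih =>
    rw [Function.iterate_succ_apply, ih, List.length_tail, hF]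
    omega

theorem FC_length (b : Bool) (x : Str) : (FC F b x).length = x.length := by
  unfold FC
  cases b
  · exact sk_length hF _ x
  · simp

omit hF in
theorem chn_zero {n : ℕ} {a b s : Str} (hs : s.length = n) (hb : b.length = n) :
    chn F n 0 a b s = true ↔ FC F false s = a ∧ FC F true s = b := by
  rw [chn_iff, Nat.sub_zero]
  have h1 : FC F false s = sk F n s := by
    unfold FC
    rw [hs]
    rfl
  rw [h1]
  refine and_congr_right fun _ => ?_
  constructor
  · intro h
    apply List.ext_getElem
    · unfold FC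
      simp [hs, hb]
    · intro i hi1 hi2
      unfold FC
      simp only [if_true, List.getElem_map, List.getElem_range]
      rw [h i (by omega), Nat.zero_add, List.getD_eq_getElem _ _ hi2]
  · rintro h k hk
    rw [← h]
    unfold FC
    simp only [if_true]
    rw [Nat.zero_add, List.getD_eq_getElem _ _ (by simp; omega)]
    simp only [List.getElem_map, List.getElem_range]

variable {X : Lang} (hP : PolyC (fun _ : Str => X) (fun _ => True) [fun x => x] F)

include hP

theorem sk_poly {α : Type*} {D : α → Prop} {ctx : List (α → Str)} {k : α → ℕ} {x : α → Str}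
    (hk : PolyN (fun _ => X) D ctx k) (hx : PolyC (fun _ => X) D ctx x) :
    PolyC (fun _ => X) D ctx (fun a => sk F (k a) (x a)) := by
  obtain ⟨px, hpx⟩ := hx.length_le
  refine PolyC.iter (g := fun _ s => (F s).tail) ?_ hx hk ⟨px, fun a ha j _ => ?_⟩
  · exact (PolyC.arg hP (PolyC.var (by simp))).tail
  · have := sk_length hF j (x a)
    unfold sk at this
    rw [this]
    exact hpx a ha

theorem FC_poly (b : Bool) :
    PolyC (fun _ : Str => X) (fun _ => True) [fun x => x] (FC F b) := by
  have hx : PolyC (fun _ : Str => X) (fun _ => True) [fun x => x] (fun x => x) :=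
    PolyC.var (by simp)
  cases b
  · exact (sk_poly hF hP (PolyN.length hx) hx).congr (fun x _ => rfl)
  · refine (PolyC.map_range (φ := fun p : Str × ℕ => (F (sk F p.2 p.1)).headD false)
      (PolyN.length hx) ?_).congr (fun x _ => rfl)
    refine PolyB.headD (PolyC.arg hP (sk_poly hF hP (PolyC.var (by simp)) ?_))
    exact (PolyC.lift hx (D' := fun p : Str × ℕ => True ∧ p.2 < p.1.length)
      (fun p hp => hp.1)).weakenRight _

theorem chn_poly {α : Type*} {D : α → Prop} {ctx : List (α → Str)} {n i : α → ℕ}
    {a b s : α → Str} (hn : PolyN (fun _ => X) D ctx n) (hi : PolyN (fun _ => X) D ctx i)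
    (ha : PolyC (fun _ => X) D ctx a) (hb : PolyC (fun _ => X) D ctx b)
    (hs : PolyC (fun _ => X) D ctx s) :
    PolyB (fun _ => X) D ctx (fun q => chn F (n q) (i q) (a q) (b q) (s q)) := by
  have hm := hn.sub hi
  refine (PolyB.strEq (sk_poly hF hP hm hs) ha).and (PolyB.forall_lt (φ := fun p : α × ℕ =>
    (F (sk F p.2 (s p.1))).headD false == (b p.1).getD (i p.1 + p.2) false) hm ?_)
  have lf : ∀ {t : α → Str}, PolyC (fun _ => X) D ctx t →
      PolyC (fun _ : α × ℕ => X) (fun p => D p.1 ∧ p.2 < n p.1 - i p.1)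
        (PC.lift ctx ++ [fun p => una p.2]) (fun p => t p.1) := fun ht =>
    (ht.lift (D' := fun p : α × ℕ => D p.1 ∧ p.2 < n p.1 - i p.1)
      (fun p hp => hp.1)).weakenRight _
  have hk : PolyN (fun _ : α × ℕ => X) (fun p => D p.1 ∧ p.2 < n p.1 - i p.1)
      (PC.lift ctx ++ [fun p => una p.2]) (fun p => p.2) := PolyC.var (by simp)
  have hi' : PolyN (fun _ : α × ℕ => X) (fun p => D p.1 ∧ p.2 < n p.1 - i p.1)
      (PC.lift ctx ++ [fun p => una p.2]) (fun p => i p.1) := lf hi
  exact PolyB.beq (PolyB.headD (PolyC.arg hP (sk_poly hF hP hk (lf hs))))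
    (PolyB.getD (lf hb) (hi'.add hk))

end

/-! ### the search -/

/-- the predicate of the search -/
def VF (F : Str → Str) (p : Str × Str) : Bool :=
  chn F (fst p.1).length (fst (snd p.1)).length (fst (snd (snd p.1))) (snd (snd (snd p.1)))
    (p.2.take (fst p.1).length)

/-- the instance -/
def inst (n i : ℕ) (a b : Str) : Str := pr (on1 n) (pr (on1 i) (pr a b))

theorem inst_length (n i : ℕ) (a b : Str) : n ≤ (inst n i a b).length := by
  unfold inst
  rw [pr_length, on1_eq, PC.un_length]
  omega

theorem VF_inst (F : Str → Str) (n i : ℕ) (a b c : Str) :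
    VF F (inst n i a b, c) = chn F n i a b (c.take n) := by
  unfold VF inst
  simp only [fst_pr, snd_pr, on1_eq, PC.un_length]

section

variable (F : Str → Str) (tb : ℕ → Str)

/-- the left entry -/
def eL (n t : ℕ) : Str := nth (tb n) (1 + t)

/-- the right entry -/
def eR (n t : ℕ) : Str := nth (tb n) (1 + n + t)

/-- there is a state from which the end is reached -/
noncomputable def KK (n t i : ℕ) : Bool :=
  PSL (VF F) Polynomial.X (pr (inst n i (eL tb n t) (eR tb n t)) [])

/-- the state which is found -/
noncomputable def SS (n t i : ℕ) : Str :=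
  (gr (VF F) Polynomial.X (inst n i (eL tb n t) (eR tb n t))
    (inst n i (eL tb n t) (eR tb n t)).length).take n

open Classical in
/-- the place of the first failure -/
noncomputable def good (n t i : ℕ) : Bool :=
  decide (∀ t' < t, KK F tb n t' 0 = true) &&
    (decide (∀ i' < i + 1, (!(KK F tb n t i')) = true) && KK F tb n t (i + 1))

/-- the string outside the range -/
noncomputable def YY (n t i : ℕ) : Str := (eR tb n t).getD i false :: SS F tb n t (i + 1)

open Classical in
/-- the bits of the string outside the range -/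
noncomputable def inn (n t m : ℕ) : Bool :=
  decide (∃ i < n, (good F tb n t i && (YY F tb n t i).getD m false) = true)

open Classical in
/-- the bits of the string outside the range -/
noncomputable def WW (n m : ℕ) : Bool := decide (∃ t < n, inn F tb n t m = true)

variable {F tb}

theorem KK_iff {n t i : ℕ} : KK F tb n t i = true ↔
    ∃ s : Str, s.length = n ∧ chn F n i (eL tb n t) (eR tb n t) s = true := by
  unfold KK PSL
  rw [fst_pr, snd_pr, PS_iff]
  set z := inst n i (eL tb n t) (eR tb n t) with hz
  have hl : n ≤ z.length := inst_length _ _ _ _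
  constructor
  · rintro ⟨c, h1, -, h3⟩
    rw [Polynomial.eval_X] at h1
    rw [hz, VF_inst] at h3
    exact ⟨c.take n, by rw [List.length_take]; omega, h3⟩
  · rintro ⟨s, h1, h2⟩
    refine ⟨s ++ List.replicate (z.length - n) false, ?_, by simp, ?_⟩
    · rw [Polynomial.eval_X, List.length_append, List.length_replicate]; omega
    · rw [hz, VF_inst, List.take_append_of_le_length h1.ge, List.take_of_length_le h1.le]
      exact h2

theorem SS_spec {n t i : ℕ} (h : KK F tb n t i = true) : (SS F tb n t i).length = n ∧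
    chn F n i (eL tb n t) (eR tb n t) (SS F tb n t i) = true := by
  unfold KK PSL at h
  rw [fst_pr, snd_pr, PS_iff] at h
  unfold SS
  set z := inst n i (eL tb n t) (eR tb n t) with hz
  have hl : n ≤ z.length := inst_length _ _ _ _
  obtain ⟨c, h1, -, h3⟩ := h
  have h4 := (gr_spec (V := VF F) (l := Polynomial.X) (x := z) ⟨c, h1, h3⟩).1
  rw [Polynomial.eval_X, hz, VF_inst] at h4
  refine ⟨?_, ?_⟩
  · rw [List.length_take, gr_length]; omega
  · exact h4

/-- the string is outside the range -/
theorem YY_spec {n t i : ℕ} (hi : i < n) (h : good F tb n t i = true) {x : Str}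
    (hx : x.length = n) : F x ≠ YY F tb n t i := by
  unfold good at h
  simp only [Bool.and_eq_true, decide_eq_true_eq, Bool.not_eq_true'] at h
  obtain ⟨-, h1, h2⟩ := h
  intro h3
  have h4 := chn_step F hi (SS_spec h2).2 h3
  have h5 := h1 i (by omega)
  rw [KK_iff.2 ⟨x, hx, h4⟩] at h5
  exact absurd h5 (by simp)

theorem good_unique {n t i t' i' : ℕ} (h : good F tb n t i = true)
    (h' : good F tb n t' i' = true) : t = t' ∧ i = i' := by
  unfold good at h h'
  simp only [Bool.and_eq_true, decide_eq_true_eq, Bool.not_eq_true'] at h h'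
  obtain ⟨a1, a2, a3⟩ := h
  obtain ⟨b1, b2, b3⟩ := h'
  have ht : t = t' := by
    rcases lt_trichotomy t t' with h | h | h
    · have h1 := b1 t h
      rw [a2 0 (by omega)] at h1
      exact absurd h1 (by simp)
    · exact h
    · have h1 := a1 t' h
      rw [b2 0 (by omega)] at h1
      exact absurd h1 (by simp)
  subst ht
  refine ⟨rfl, ?_⟩
  rcases lt_trichotomy i i' with h | h | h
  · have h1 := b2 (i + 1) (by omega)
    rw [a3] at h1
    exact absurd h1 (by simp)
  · exact h
  · have h1 := a2 (i' + 1) (by omega)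
    rw [b3] at h1
    exact absurd h1 (by simp)

theorem exists_good {n : ℕ} (hl : ∀ t < n, (eL tb n t).length = n)
    (h : ∃ t < n, KK F tb n t 0 = false) : ∃ t < n, ∃ i < n, good F tb n t i = true := by
  classical
  have hf := Nat.find_spec h
  set t := Nat.find h with ht
  have h1 : ∀ t' < t, KK F tb n t' 0 = true := by
    intro t' ht'
    have h2 := Nat.find_min h ht'
    cases h3 : KK F tb n t' 0
    · exact absurd ⟨by omega, h3⟩ h2
    · rfl
  have h2 : ∃ i, KK F tb n t i = true :=
    ⟨n, KK_iff.2 ⟨eL tb n t, hl t hf.1, chn_top F n _ _⟩⟩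
  have hg := Nat.find_spec h2
  have hgn : Nat.find h2 ≤ n :=
    Nat.find_min' h2 (KK_iff.2 ⟨eL tb n t, hl t hf.1, chn_top F n _ _⟩)
  have h3 : Nat.find h2 ≠ 0 := by
    intro h3
    rw [h3, hf.2] at hg
    exact absurd hg (by simp)
  refine ⟨t, hf.1, Nat.find h2 - 1, by omega, ?_⟩
  unfold good
  simp only [Bool.and_eq_true, decide_eq_true_eq, Bool.not_eq_true']
  refine ⟨h1, fun i' hi' => ?_, ?_⟩
  · have h4 := Nat.find_min h2 (show i' < Nat.find h2 by omega)
    cases h5 : KK F tb n t i'
    · rfl
    · exact absurd h5 h4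
  · rw [show Nat.find h2 - 1 + 1 = Nat.find h2 by omega]
    exact hg

theorem WW_eq {n t i m : ℕ} (ht : t < n) (hi : i < n) (h : good F tb n t i = true) :
    WW F tb n m = (YY F tb n t i).getD m false := by
  rw [Bool.eq_iff_iff]
  unfold WW inn
  simp only [Bool.and_eq_true, decide_eq_true_eq]
  constructor
  · rintro ⟨t', -, i', -, h1, h2⟩
    obtain ⟨rfl, rfl⟩ := good_unique h h1
    exact h2
  · intro h2
    exact ⟨t, ht, i, hi, h, h2⟩

/-! ### computability -/

variable {O : Lang} (hT : ∀ {α : Type} {D : α → Prop} {ctx : List (α → Str)} {n : α → ℕ},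
    PolyN (fun _ => O) D ctx n → PolyC (fun _ => O) D ctx (fun a => tb (n a)))
  (hO : PSL (VF F) Polynomial.X ∈ PO O)

include hT

theorem inst_poly {α : Type} {D : α → Prop} {ctx : List (α → Str)} {n t i : α → ℕ}
    (hn : PolyN (fun _ => O) D ctx n) (ht : PolyN (fun _ => O) D ctx t)
    (hi : PolyN (fun _ => O) D ctx i) :
    PolyC (fun _ => O) D ctx (fun a => inst (n a) (i a) (eL tb (n a) (t a)) (eR tb (n a) (t a))) := by
  have h1 : PolyC (fun _ => O) D ctx (fun a => eL tb (n a) (t a)) :=
    PolyC.nth (hT hn) ((PolyN.const 1).add ht)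
  have h2 : PolyC (fun _ => O) D ctx (fun a => eR tb (n a) (t a)) :=
    PolyC.nth (hT hn) (((PolyN.const 1).add hn).add ht)
  exact PolyC.pr (t := fun a => on1 (n a)) hn (PolyC.pr (t := fun a => on1 (i a)) hi
    (PolyC.pr h1 h2))

include hO

theorem KK_poly {α : Type} {D : α → Prop} {ctx : List (α → Str)} {n t i : α → ℕ}
    (hn : PolyN (fun _ => O) D ctx n) (ht : PolyN (fun _ => O) D ctx t)
    (hi : PolyN (fun _ => O) D ctx i) :
    PolyB (fun _ => O) D ctx (fun a => KK F tb (n a) (t a) (i a)) :=
  polyB_of_PO hO (PolyC.pr (inst_poly hT hn ht hi) PolyC.nil)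

theorem SS_poly {α : Type} {D : α → Prop} {ctx : List (α → Str)} {n t i : α → ℕ}
    (hn : PolyN (fun _ => O) D ctx n) (ht : PolyN (fun _ => O) D ctx t)
    (hi : PolyN (fun _ => O) D ctx i) :
    PolyC (fun _ => O) D ctx (fun a => SS F tb (n a) (t a) (i a)) :=
  (PolyC.gr hO (inst_poly hT hn ht hi) (PolyN.length (inst_poly hT hn ht hi))).take hn

theorem good_poly {α : Type} {D : α → Prop} {ctx : List (α → Str)} {n t i : α → ℕ}
    (hn : PolyN (fun _ => O) D ctx n) (ht : PolyN (fun _ => O) D ctx t)
    (hi : PolyN (fun _ => O) D ctx i) :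
    PolyB (fun _ => O) D ctx (fun a => good F tb (n a) (t a) (i a)) := by
  refine ((PolyB.forall_lt (φ := fun p : α × ℕ => KK F tb (n p.1) p.2 0) ht ?_).and
    ((PolyB.forall_lt (φ := fun p : α × ℕ => !(KK F tb (n p.1) (t p.1) p.2)) hi.succ ?_).and
      (KK_poly hT hO hn ht hi.succ))).congr ?_
  · refine KK_poly hT hO (n := fun p : α × ℕ => n p.1) (t := fun p => p.2) (i := fun _ => 0) ?_
      (PolyC.var (by simp)) (PolyN.const 0)
    exact (PolyC.lift hn (D' := fun p : α × ℕ => D p.1 ∧ p.2 < t p.1)
      (fun p hp => hp.1)).weakenRight _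
  · refine (KK_poly hT hO (n := fun p : α × ℕ => n p.1) (t := fun p => t p.1)
      (i := fun p => p.2) ?_ ?_ (PolyC.var (by simp))).not
    · exact (PolyC.lift hn (D' := fun p : α × ℕ => D p.1 ∧ p.2 < i p.1 + 1)
        (fun p hp => hp.1)).weakenRight _
    · exact (PolyC.lift ht (D' := fun p : α × ℕ => D p.1 ∧ p.2 < i p.1 + 1)
        (fun p hp => hp.1)).weakenRight _
  · intro a _
    unfold good
    rw [Bool.eq_iff_iff]

theorem inn_poly {α : Type} {D : α → Prop} {ctx : List (α → Str)} {n t m : α → ℕ}
    (hn : PolyN (fun _ => O) D ctx n) (ht : PolyN (fun _ => O) D ctx t)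
    (hm : PolyN (fun _ => O) D ctx m) :
    PolyB (fun _ => O) D ctx (fun a => inn F tb (n a) (t a) (m a)) := by
  refine (PolyB.exists_lt (φ := fun p : α × ℕ => good F tb (n p.1) (t p.1) p.2 &&
    (YY F tb (n p.1) (t p.1) p.2).getD (m p.1) false) hn ?_).congr ?_
  · have lf : ∀ {f : α → ℕ}, PolyN (fun _ => O) D ctx f →
        PolyN (fun _ : α × ℕ => O) (fun p => D p.1 ∧ p.2 < n p.1)
          (PC.lift ctx ++ [fun p => una p.2]) (fun p => f p.1) := fun hf =>
      (PolyC.lift hf (D' := fun p : α × ℕ => D p.1 ∧ p.2 < n p.1)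
        (fun p hp => hp.1)).weakenRight _
    have hk : PolyN (fun _ : α × ℕ => O) (fun p => D p.1 ∧ p.2 < n p.1)
        (PC.lift ctx ++ [fun p => una p.2]) (fun p => p.2) := PolyC.var (by simp)
    have h1 : PolyC (fun _ : α × ℕ => O) (fun p => D p.1 ∧ p.2 < n p.1)
        (PC.lift ctx ++ [fun p => una p.2]) (fun p => eR tb (n p.1) (t p.1)) :=
      PolyC.nth (hT (lf hn)) (((PolyN.const 1).add (lf hn)).add (lf ht))
    have h2 : PolyC (fun _ : α × ℕ => O) (fun p => D p.1 ∧ p.2 < n p.1)
        (PC.lift ctx ++ [fun p => una p.2]) (fun p => YY F tb (n p.1) (t p.1) p.2) :=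
      (PolyC.append (PolyB.getD h1 hk) (SS_poly hT hO (lf hn) (lf ht) hk.succ)).congr
        (fun p _ => rfl)
    exact (good_poly hT hO (lf hn) (lf ht) hk).and (PolyB.getD h2 (lf hm))
  · intro a _
    unfold inn
    rw [Bool.eq_iff_iff]

theorem WW_poly {α : Type} {D : α → Prop} {ctx : List (α → Str)} {n m : α → ℕ}
    (hn : PolyN (fun _ => O) D ctx n) (hm : PolyN (fun _ => O) D ctx m) :
    PolyB (fun _ => O) D ctx (fun a => WW F tb (n a) (m a)) := by
  refine (PolyB.exists_lt (φ := fun p : α × ℕ => inn F tb (n p.1) p.2 (m p.1)) hn ?_).congr ?_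
  · refine inn_poly hT hO (n := fun p : α × ℕ => n p.1) (t := fun p => p.2)
      (m := fun p => m p.1) ?_ (PolyC.var (by simp)) ?_
    · exact (PolyC.lift hn (D' := fun p : α × ℕ => D p.1 ∧ p.2 < n p.1)
        (fun p hp => hp.1)).weakenRight _
    · exact (PolyC.lift hm (D' := fun p : α × ℕ => D p.1 ∧ p.2 < n p.1)
        (fun p hp => hp.1)).weakenRight _
  · intro a _
    unfold WW
    rw [Bool.eq_iff_iff]

end

/-- Range avoidance. -/
theorem avoid {X : Lang} (h2 : Low X 2 ⊆ RLowSucc X 1) {F : Str → Str}
    (hF : ∀ x, (F x).length = x.length + 1)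
    (hP : PolyC (fun _ : Str => X) (fun _ => True) [fun x => x] F) :
    ∃ W ∈ DelSucc X 1, ∀ (n : ℕ) (x : Str), x.length = n →
      F x ≠ advStr W (Polynomial.X + 1) n := by
  have hC : ∀ b x, (FC F b x).length = x.length := FC_length hF
  obtain ⟨W1, ⟨B1, hB1, hW1⟩, hT1⟩ := unique_obj h2 (RT_poly (FC_poly hF hP) hC) (tbl_unq hC)
  set tb : ℕ → Str := tbl hC with htb
  -- the search problem
  have hV : PolyB (fun _ : Str × Str => X) (fun _ => True) [fun p => p.1, fun p => p.2] (VF F) := by
    have hz : PolyC (fun _ : Str × Str => X) (fun _ => True) [fun p => p.1, fun p => p.2]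
      (fun p => p.1) := PolyC.var (by simp)
    have hc : PolyC (fun _ : Str × Str => X) (fun _ => True) [fun p => p.1, fun p => p.2]
      (fun p => p.2) := PolyC.var (by simp)
    have h1 := PolyC.snd hz
    have h3 := PolyC.snd h1
    have hn := PolyN.length (PolyC.fst hz)
    exact chn_poly hF hP hn (PolyN.length (PolyC.fst h1)) (PolyC.fst h3) (PolyC.snd h3)
      (hc.take hn)
  have hS : PSL (VF F) Polynomial.X ∈ NPO X := PSL_mem hV
  set O := join B1 (PSL (VF F) Polynomial.X) with hO
  have hOm : O ∈ Sig X 1 := Sig_join hB1 ⟨X, query_mem X, hS⟩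
  have hW1' : W1 ∈ PO O := PO_subset (left_PO _ _) hW1
  have hT : ∀ {α : Type} {D : α → Prop} {ctx : List (α → Str)} {n : α → ℕ},
      PolyN (fun _ => O) D ctx n → PolyC (fun _ => O) D ctx (fun a => tb (n a)) := by
    intro α D ctx n hn
    refine (PolyC.advStr hW1' qT hn).congr (fun a _ => ?_)
    rw [hT1]
  have hO' : PSL (VF F) Polynomial.X ∈ PO O := right_PO _ _
  set W : Lang := fun v => if decide ((fst v).length = 0) then
    (decide ((snd v).length = 0) && !((F []).headD false)) else WW F tb (fst v).length (snd v).length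
    with hW
  have hWm : W ∈ PO O := by
    refine mem_PO ?_
    have hv : PolyC (fun _ : Str => O) (fun _ => True) [fun x => x] (fun x => x) :=
      PolyC.var (by simp)
    have h1 := PolyN.length (PolyC.fst hv)
    have h3 := PolyN.length (PolyC.snd hv)
    exact PolyB.ite (PolyB.natEq h1 (PolyN.const 0))
      (((PolyB.natEq h3 (PolyN.const 0)).and (PolyB.const (!((F []).headD false)))).mono
        fun _ h => h.1) ((WW_poly hT hO' h1 h3).mono fun _ h => h.1)
  refine ⟨W, ⟨O, hOm, hWm⟩, fun n x hx => ?_⟩
  by_cases hn : n = 0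
  · subst hn
    have h1 : x = [] := List.length_eq_zero_iff.1 hx
    rw [h1]
    intro h3
    have h4 : (advStr W (Polynomial.X + 1) 0).headD false = !((F []).headD false) := by
      unfold advStr
      simp only [Polynomial.eval_add, Polynomial.eval_X, Polynomial.eval_one, Nat.zero_add,
        List.range_one, List.map_cons, List.map_nil, List.headD_cons, hW, fst_pr, snd_pr, on1_eq,
        PC.un_length, decide_true, if_true, Bool.true_and]
    rw [← h3] at h4
    cases h5 : (F []).headD false <;> rw [h5] at h4 <;> simp at h4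
  · obtain ⟨t0, ht0, hgap⟩ := tbl_gap hC (show 1 ≤ n by omega)
    have hk : KK F tb n t0 0 = false := by
      rw [← Bool.not_eq_true, KK_iff]
      rintro ⟨s, hs, h3⟩
      refine hgap s hs ((chn_zero hs ?_).1 h3)
      show (nth (tbl hC n) (1 + n + t0)).length = n
      rw [nth_tbl hC (by omega)]
      exact ent_length hC _ _
    obtain ⟨t, ht, i, hi, hg⟩ := exists_good (F := F) (tb := tb) (n := n) (fun t ht => by
      show (nth (tbl hC n) (1 + t)).length = n
      rw [nth_tbl hC (by omega)]
      exact ent_length hC _ _) ⟨t0, ht0, hk⟩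
    have h3 : advStr W (Polynomial.X + 1) n = YY F tb n t i := by
      have hg' := hg
      unfold good at hg'
      simp only [Bool.and_eq_true, decide_eq_true_eq, Bool.not_eq_true'] at hg'
      apply List.ext_getElem
      · rw [advStr_length]
        unfold YY
        rw [List.length_cons, (SS_spec hg'.2.2).1]
        simp
      · intro m hm1 hm2
        unfold advStr
        rw [List.getElem_map, List.getElem_range, ← List.getD_eq_getElem _ false hm2,
          ← WW_eq ht hi hg]
        simp only [hW, fst_pr, snd_pr, on1_eq, PC.un_length]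
        rw [if_neg (by rw [decide_eq_true_eq]; exact hn)]
    rw [h3]
    exact YY_spec hi hg hx

end Uo

end Pool.Agent.Lib.Pa76659G
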