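import Pool.Agent.Lib.Pa76659G.Circ5
import Pool.Agent.Lib.Pa76659G.UoF

set_option autoImplicit false

/-!
The circuit lower bounds which follow from equalities at the second level of the low hierarchy.
-/

namespace Pool.Agent.Lib.Pa76659G.Circ

open Pool.Agent.Lib.Pa76659 Pool.Agent.Lib.Pa76659G Pool.Agent.Lib.Pa76659G.PC

/-- If `L_2 ⊆ \hat L_2` then some language in `E^NP` has no small circuits. -/
theorem circ_ENP {X : Lang} (h : Low X 2 ⊆ RLowSucc X 1) :
    ∃ L ∈ ENP X, ∀ (n : ℕ) (C : List Gate), (∀ x : Str, x.length = n → cval C x = L x) →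
      2 ^ n ≤ (2 * n + 2) * (C.length + 1) :=
  hard_of_avoid fun _ hF hP => Uo.avoid h hF hP

/-! ### nondeterministic exponential time -/

/-- a number for a pair -/
def pn (n i : ℕ) : ℕ := (n + i) * (n + i) + i

theorem pn_inj {n i s j : ℕ} (hj : j ≤ s) (h : s * s + j = pn n i) : s = n + i ∧ j = i := by
  unfold pn at h
  have h1 : s = n + i := by
    rcases lt_trichotomy s (n + i) with h2 | h2 | h2
    · have h3 : (s + 1) * (s + 1) ≤ (n + i) * (n + i) := Nat.mul_le_mul h2 h2
      have h4 : (s + 1) * (s + 1) = s * s + 2 * s + 1 := by ring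
      omega
    · exact h2
    · have h3 : (n + i + 1) * (n + i + 1) ≤ s * s := Nat.mul_le_mul h2 h2
      have h4 : (n + i + 1) * (n + i + 1) = (n + i) * (n + i) + 2 * (n + i) + 1 := by ring
      omega
  subst h1
  exact ⟨rfl, by omega⟩

/-- a language with the same information as `W`, depending only on the length -/
noncomputable def Tn (W : Lang) : Lang := fun z =>
  decide (∃ s < z.length + 1, decide (∃ j < s + 1, (decide (s * s + j = z.length) &&
    W (pr (una (s - j)) (una j))) = true) = true)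

theorem Tn_pn (W : Lang) (n i : ℕ) : Tn W (on1 (pn n i)) = W (pr (on1 n) (on1 i)) := by
  have hl : (on1 (pn n i)).length = pn n i := by rw [on1_eq, PC.un_length]
  rw [Bool.eq_iff_iff]
  unfold Tn
  rw [hl]
  simp only [Bool.and_eq_true, decide_eq_true_eq]
  constructor
  · rintro ⟨s, -, j, hj, h1, h2⟩
    obtain ⟨h3, h4⟩ := pn_inj (by omega) h1
    subst h3 h4
    rw [Nat.add_sub_cancel] at h2
    exact h2
  · intro h
    refine ⟨n + i, ?_, i, by omega, rfl, ?_⟩
    · unfold pn
      have : n + i ≤ (n + i) * (n + i) := Nat.le_mul_self _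
      omega
    · rw [Nat.add_sub_cancel]
      exact h

theorem Tn_mem {X W : Lang} (h : W ∈ DelSucc X 1) : Tn W ∈ DelSucc X 1 := by
  obtain ⟨B, hB, hW⟩ := h
  refine ⟨B, hB, mem_PO ?_⟩
  have hz : PolyC (fun _ : Str => B) (fun _ => True) [fun x => x] (fun x => x) :=
    PolyC.var (by simp)
  refine PolyB.exists_lt (φ := fun p : Str × ℕ => decide (∃ j < p.2 + 1,
    (decide (p.2 * p.2 + j = p.1.length) && W (pr (una (p.2 - j)) (una j))) = true))
    (PolyN.length hz).succ ?_
  have hs : PolyN (fun _ : Str × ℕ => B) (fun p => True ∧ p.2 < p.1.length + 1)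
      (PC.lift [fun x => x] ++ [fun p => una p.2]) (fun p => p.2) := PolyC.var (by simp)
  have hz' : PolyC (fun _ : Str × ℕ => B) (fun p => True ∧ p.2 < p.1.length + 1)
      (PC.lift [fun x => x] ++ [fun p => una p.2]) (fun p => p.1) :=
    (PolyC.lift hz (D' := fun p : Str × ℕ => True ∧ p.2 < p.1.length + 1)
      (fun p hp => hp.1)).weakenRight _
  refine PolyB.exists_lt (φ := fun p : (Str × ℕ) × ℕ =>
    decide (p.1.2 * p.1.2 + p.2 = p.1.1.length) && W (pr (una (p.1.2 - p.2)) (una p.2)))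
    hs.succ ?_
  have hD : ∀ p : (Str × ℕ) × ℕ, ((True ∧ p.1.2 < p.1.1.length + 1) ∧ p.2 < p.1.2 + 1) →
      (True ∧ p.1.2 < p.1.1.length + 1) := fun p hp => hp.1
  have hs' : PolyN (fun _ : (Str × ℕ) × ℕ => B)
      (fun p => (True ∧ p.1.2 < p.1.1.length + 1) ∧ p.2 < p.1.2 + 1)
      (PC.lift (PC.lift [fun x => x] ++ [fun p => una p.2]) ++ [fun p => una p.2])
      (fun p => p.1.2) := (PolyC.lift hs hD).weakenRight _
  have hz'' : PolyC (fun _ : (Str × ℕ) × ℕ => B)
      (fun p => (True ∧ p.1.2 < p.1.1.length + 1) ∧ p.2 < p.1.2 + 1)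
      (PC.lift (PC.lift [fun x => x] ++ [fun p => una p.2]) ++ [fun p => una p.2])
      (fun p => p.1.1) := (PolyC.lift hz' hD).weakenRight _
  have hj : PolyN (fun _ : (Str × ℕ) × ℕ => B)
      (fun p => (True ∧ p.1.2 < p.1.1.length + 1) ∧ p.2 < p.1.2 + 1)
      (PC.lift (PC.lift [fun x => x] ++ [fun p => una p.2]) ++ [fun p => una p.2])
      (fun p => p.2) := PolyC.var (by simp)
  exact (PolyB.natEq ((hs'.mul hs').add hj) (PolyN.length hz'')).and
    (polyB_of_PO hW (PolyC.pr (hs'.sub hj) hj))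

theorem not_DelSucc {X W : Lang} {k : ℕ} (h : W ∈ DelSucc X k) :
    (fun x => !(W x)) ∈ DelSucc X k := by
  obtain ⟨B, hB, hW⟩ := h
  exact ⟨B, hB, mem_PO (polyB_of_PO hW (PolyC.var (by simp))).not⟩

/-- If all tally sets in `P^NP` are in `NP` and unary range avoidance is in `P^NP`, then some language
in `NE ∩ coNE` has no small circuits. -/
theorem circ_NE {X : Lang} (h : Low X 2 ⊆ RLowSucc X 1)
    (hU : ∀ T ∈ DelSucc X 1, (fun x : Str => T (on1 x.length)) ∈ NPO X) :
    ∃ L ∈ NEO X, (fun x => !(L x)) ∈ NEO X ∧ ∀ (n : ℕ) (C : List Gate),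
      (∀ x : Str, x.length = n → cval C x = L x) → 2 ^ n ≤ (2 * n + 2) * (C.length + 1) := by
  obtain ⟨W, hW, hav⟩ := Uo.avoid h tt_length
    (polyC_tt (PolyC.var (f := fun x : Str => x) (by simp)))
  have key : ∀ V : Lang, V ∈ DelSucc X 1 → hd V ∈ NEO X := by
    intro V hV
    have h1 := hU _ (Tn_mem hV)
    have hx : PolyC (fun _ : Str => X) (fun _ => True) [fun x => x] (fun x => x) :=
      PolyC.var (by simp)
    have hn := PolyN.length (PolyC.fst hx)
    have hi := PolyN.length (PolyC.snd hx)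
    have h2 := NPO_comp h1 (f := fun z => una (pn (fst z).length (snd z).length))
      (((hn.add hi).mul (hn.add hi)).add hi)
    have h3 : hd V = hd (fun z => Tn V (on1 (una (pn (fst z).length (snd z).length)).length)) := by
      funext x
      rw [hd_eq, hd_eq, fst_pr, snd_pr, on1_eq, on1_eq, PC.un_length, PC.un_length, PC.un_length, Tn_pn]
      rfl
    rw [h3]
    exact hd_NEO h2
  refine ⟨hd W, key W hW, ?_, hard_hd hav⟩
  rw [hd_not]
  exact key _ (not_DelSucc hW)

end Pool.Agent.Lib.Pa76659G.Circ
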