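import Pool.Agent.Lib.Pa76659G.Tab2

/-!
Classes of functions of the oracle: alternations over disjunctions of literals, and the normal form
of the machines of the levels of the hierarchy.
-/

set_option maxHeartbeats 4000000

namespace Pool.Agent.Lib.Pa76659G

open Pool.Agent.Lib.Pa76659 Pool.Agent.Lib.Pa76659.Switch

/-- classes of functions of the oracle -/
def FF (p : PIx) (i : NIx) (w t s : ℕ) : ℕ → Set (Lang → Bool)
  | 0 => {F | ∃ ts : List (Bool × Str × Str), ts.length ≤ t ∧
      (∀ τ ∈ ts, τ.2.1.length ≤ s ∧ τ.2.2.length ≤ s) ∧
      ∀ O, F O = true ↔ ∃ τ ∈ ts, lit p i O τ = true}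
  | j + 1 => {F | ∃ g : Fin (2 ^ w) → (Lang → Bool), (∀ v, g v ∈ FF p i w t s j) ∧
      ∀ O, F O = true ↔ ∃ v, g v O = false}

theorem nEval_true {i : NIx} {B : Lang} {u : Str} : nEval i B u = true ↔
    ∃ y : Str, y.length = i.2.2.eval u.length ∧
      accepts B i.1 (inp2 u y) (i.2.1.eval u.length) = true := by
  simp [nEval]

theorem FF_const (p : PIx) (i : NIx) (w t s : ℕ) (ht : 2 ≤ t) (hs : i.2.2.eval 0 ≤ s) :
    ∀ (j : ℕ) (b : Bool), (fun _ => b) ∈ FF p i w t s j
  | 0, false => ⟨[], by simp, by simp, by simp⟩
  | 0, true => by
      refine ⟨[(true, [], []), (false, [], List.replicate (i.2.2.eval 0) false)], by simpa using ht,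
        ?_, fun O => ?_⟩
      · intro τ hτ
        simp only [List.mem_cons, List.not_mem_nil, or_false] at hτ
        rcases hτ with rfl | rfl
        · simp
        · simpa using hs
      · simp only [List.mem_cons, List.not_mem_nil, or_false, exists_eq_or_imp, exists_eq_left,
          true_iff]
        by_cases h : lit p i O (false, [], List.replicate (i.2.2.eval 0) false) = true
        · exact Or.inr h
        · left
          simp only [lit, if_true]
          rw [nEval_true]
          refine ⟨List.replicate (i.2.2.eval 0) false, by simp, ?_⟩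
          simp only [lit, Bool.false_eq_true, if_false, Bool.not_eq_true', Bool.not_eq_false] at h
          exact h
  | j + 1, b => by
      refine ⟨fun _ _ => !b, fun _ => FF_const p i w t s ht hs j _, fun O => ?_⟩
      have : Nonempty (Fin (2 ^ w)) := ⟨⟨0, by positivity⟩⟩
      cases b <;> simp

theorem FF_of_exists {p : PIx} {i : NIx} {w t s j : ℕ} (ht : 2 ≤ t) (hs : i.2.2.eval 0 ≤ s)
    {κ : Type} [Fintype κ] (hc : Fintype.card κ ≤ 2 ^ w) (g : κ → (Lang → Bool))
    (hg : ∀ v, g v ∈ FF p i w t s j) {F : Lang → Bool}
    (hF : ∀ O, F O = true ↔ ∃ v, g v O = false) : F ∈ FF p i w t s (j + 1) := by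
  classical
  let e : κ → Fin (2 ^ w) := fun i => Fin.castLE hc (Fintype.equivFin κ i)
  have he : Function.Injective e := by
    intro i j hij
    exact (Fintype.equivFin κ).injective (Fin.castLE_injective hc hij)
  refine ⟨fun j => if h : ∃ i, e i = j then g h.choose else fun _ => true, ?_, ?_⟩
  · intro k
    by_cases h : ∃ i, e i = k
    · simp only [h, dite_true]; exact hg _
    · simp only [h, dite_false]; exact FF_const p i w t s ht hs j true
  · intro O
    rw [hF]
    constructor
    · rintro ⟨i, hi⟩
      refine ⟨e i, ?_⟩
      have h : ∃ i', e i' = e i := ⟨i, rfl⟩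
      have h2 : h.choose = i := he h.choose_spec
      simp only [h, dite_true, h2, hi]
    · rintro ⟨j, hj⟩
      by_cases h : ∃ i, e i = j
      · simp only [h, dite_true] at hj
        exact ⟨_, hj⟩
      · simp [h] at hj

theorem FF_mono {p : PIx} {i : NIx} {w t s w' t' s' : ℕ} (hw : w ≤ w') (ht : t ≤ t')
    (hs : s ≤ s') (ht2 : 2 ≤ t') (hq : i.2.2.eval 0 ≤ s') : ∀ {j : ℕ} {F : Lang → Bool},
    F ∈ FF p i w t s j → F ∈ FF p i w' t' s' j
  | 0, F, ⟨ts, h1, h2, h3⟩ => ⟨ts, h1.trans ht, fun τ hτ =>
      ⟨(h2 τ hτ).1.trans hs, (h2 τ hτ).2.trans hs⟩, h3⟩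
  | j + 1, F, ⟨g, h1, h2⟩ => by
      refine FF_of_exists ht2 hq (κ := Fin (2 ^ w)) ?_ g
        (fun v => FF_mono hw ht hs ht2 hq (h1 v)) h2
      simpa using Nat.pow_le_pow_right (by norm_num) hw

/-- the literal which contradicts that the `l.1`-th bit of the oracle is `l.2` -/
def vio (i : NIx) (l : Str × Bool) (y : Str) : Bool × Str × Str :=
  if l.2 = true then (false, l.1, y.take (i.2.2.eval l.1.length)) else (true, l.1, [])

theorem FF_of_isC (p : PIx) (i : NIx) {W T S0 Q w t s : ℕ}
    (hQ : ∀ u : Str, u.length ≤ S0 → i.2.2.eval u.length ≤ Q) (hw : W + T + Q * T ≤ w)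
    (ht : T ≤ t) (ht2 : 2 ≤ t) (hs : S0 ≤ s) (hQs : Q ≤ s) (hq0 : i.2.2.eval 0 ≤ s) :
    ∀ (r : ℕ) (C : (Str → Bool) → Bool), IsC (SL S0) W T (r + 1) C →
      (fun O => C (nEval i (pEval p O))) ∈ FF p i w t s (r + 1)
  | 0, C, hC => by
      classical
      obtain ⟨g, h1, h2⟩ := hC
      choose D hD1 hD2 hD3 using h1
      let κ : Type := Fin (2 ^ W) × Fin (2 ^ T) × (Fin T → Fin Q → Bool)
      let ys' : (Fin T → Fin Q → Bool) → ℕ → Str := fun ys k =>
        if h : k < T then List.ofFn (ys ⟨k, h⟩) else []
      let G : κ → Lang → Bool := fun c O => match (paths (D c.1) false)[c.2.1.1]? with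
        | some π => decide (∃ k : Fin π.length,
            lit p i O (vio i (π.get k) (ys' c.2.2 k.1)) = true)
        | none => true
      refine FF_of_exists ht2 hq0 (κ := κ) ?_ G ?_ ?_
      · simp only [κ, Fintype.card_prod, Fintype.card_fin, Fintype.card_fun, Fintype.card_bool]
        rw [← pow_mul, ← pow_add, ← pow_add]
        exact Nat.pow_le_pow_right (by norm_num) (by omega)
      · rintro ⟨j, k, ys⟩
        simp only [G]
        cases hπ : (paths (D j) false)[k.1]? with
        | none => exact FF_const p i w t s ht2 hq0 0 true
        | some π =>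
            have hmem : π ∈ paths (D j) false := List.mem_of_getElem? hπ
            have hlen := (paths_length _ _ _ hmem).trans (hD1 j)
            have hqin := paths_qin _ _ _ (hD2 j) _ hmem
            refine ⟨List.ofFn (fun k : Fin π.length => vio i (π.get k) (ys' ys k.1)), ?_, ?_, ?_⟩
            · rw [List.length_ofFn]; omega
            · intro τ hτ
              rw [List.mem_ofFn] at hτ
              obtain ⟨k, rfl⟩ := hτ
              have h3 : (π.get k).1.length ≤ S0 := hqin _ (List.get_mem _ _)
              unfold vio
              split_ifs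
              · refine ⟨h3.trans hs, ?_⟩
                simp only [List.length_take]
                exact (min_le_left _ _).trans ((hQ _ h3).trans hQs)
              · exact ⟨h3.trans hs, by simp⟩
            · intro O
              simp only [decide_eq_true_eq, List.mem_ofFn]
              constructor
              · rintro ⟨k, hk⟩; exact ⟨_, ⟨k, rfl⟩, hk⟩
              · rintro ⟨_, ⟨k, rfl⟩, hk⟩; exact ⟨k, hk⟩
      · intro O
        set B := nEval i (pEval p O) with hB
        rw [h2]
        constructor
        · rintro ⟨j, hj⟩
          rw [hD3, paths_eval] at hj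
          obtain ⟨π, hπ, hπ2⟩ := hj
          have hlen := (paths_length _ _ _ hπ).trans (hD1 j)
          have hqin := paths_qin _ _ _ (hD2 j) _ hπ
          obtain ⟨k, hk, hk2⟩ := List.getElem_of_mem hπ
          have hk3 : k < 2 ^ T := lt_of_lt_of_le hk ((paths_count _ _).trans
            (Nat.pow_le_pow_right (by norm_num) (hD1 j)))
          -- witnesses
          have hwit : ∀ k : ℕ, ∃ y : Str, ∀ l, π[k]? = some l → l.2 = true →
              y.length = i.2.2.eval l.1.length ∧ acc p i O l.1 y = true := by
            intro k
            cases hl : π[k]? with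
            | none => exact ⟨[], by simp⟩
            | some l =>
                by_cases hl2 : l.2 = true
                · have h4 := hπ2 l (List.mem_of_getElem? hl)
                  rw [hl2, hB, nEval_true] at h4
                  obtain ⟨y, hy1, hy2⟩ := h4
                  refine ⟨y, fun l' hl' _ => ?_⟩
                  simp only [Option.some.injEq] at hl'
                  rw [← hl']
                  exact ⟨hy1, hy2⟩
                · refine ⟨[], fun l' hl' h => ?_⟩
                  simp only [Option.some.injEq] at hl'
                  rw [← hl'] at h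
                  exact absurd h hl2
          choose wy hwy using hwit
          refine ⟨(j, ⟨k, hk3⟩, fun a b => (wy a.1).getD b.1 false), ?_⟩
          simp only [G]
          have e1 : (paths (D j) false)[k]? = some π := by
            rw [List.getElem?_eq_getElem hk, hk2]
          rw [e1]
          simp only [decide_eq_false_iff_not, not_exists, Bool.not_eq_true]
          intro a
          have ha : a.1 < T := lt_of_lt_of_le a.2 hlen
          have hget : π[a.1]? = some (π.get a) := by simp
          have h5 := hπ2 (π.get a) (List.get_mem _ _)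
          unfold vio
          split_ifs with h6
          · obtain ⟨h7, h8⟩ := hwy a.1 _ hget h6
            have hqq := hQ _ (hqin _ (List.get_mem π a))
            have h9 : (ys' (fun a b => (wy a.1).getD b.1 false) a.1).take
                (i.2.2.eval (π.get a).1.length) = wy a.1 := by
              simp only [ys', ha, dite_true]
              apply List.ext_getElem
              · simp only [List.length_take, List.length_ofFn, h7]; omega
              · intro m hm1 hm2
                simp only [List.getElem_take, List.getElem_ofFn, List.getD]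
                rw [List.getElem?_eq_getElem hm2]
                rfl
            rw [h9]
            simp only [lit, Bool.false_eq_true, if_false, h8, Bool.not_true]
          · simp only [lit, if_true]
            rw [Bool.not_eq_true] at h6
            rw [← hB, h5, h6]
        · rintro ⟨⟨j, k, ys⟩, hc⟩
          simp only [G] at hc
          refine ⟨j, ?_⟩
          rw [hD3, paths_eval]
          cases hπ : (paths (D j) false)[k.1]? with
          | none => rw [hπ] at hc; simp at hc
          | some π =>
              rw [hπ] at hc
              simp only [decide_eq_false_iff_not, not_exists, Bool.not_eq_true] at hc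
              have hmem : π ∈ paths (D j) false := List.mem_of_getElem? hπ
              have hlen := (paths_length _ _ _ hmem).trans (hD1 j)
              have hqin := paths_qin _ _ _ (hD2 j) _ hmem
              refine ⟨π, hmem, ?_⟩
              intro l hl
              obtain ⟨a, ha, ha2⟩ := List.getElem_of_mem hl
              have h3 := hc ⟨a, ha⟩
              have hget : π.get ⟨a, ha⟩ = l := ha2
              rw [hget] at h3
              unfold vio at h3
              split_ifs at h3 with h4
              · simp only [lit, Bool.false_eq_true, if_false, Bool.not_eq_false'] at h3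
                rw [h4, nEval_true]
                refine ⟨_, ?_, h3⟩
                have haT : a < T := lt_of_lt_of_le ha hlen
                simp only [ys', haT, dite_true, List.length_take, List.length_ofFn]
                have := hQ _ (hqin _ hl)
                omega
              · simp only [lit, if_true] at h3
                rw [Bool.not_eq_true] at h4
                rw [hB, h3, h4]
  | r + 1, C, hC => by
      obtain ⟨g, h1, h2⟩ := hC
      refine FF_of_exists ht2 hq0 (κ := Fin (2 ^ W)) ?_
        (fun v O => g v (nEval i (pEval p O))) (fun v =>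
          FF_of_isC p i hQ hw ht ht2 hs hQs hq0 r (g v) (h1 v)) (fun O => h2 _)
      simpa using Nat.pow_le_pow_right (by norm_num) (by omega)

/-- the query machine -/
noncomputable def pq : PIx := (Prog.query 0 0, 1)

theorem pEval_pq (Z : Lang) : pEval pq Z = Z := by
  funext x
  unfold pEval pq
  simp only [Polynomial.eval_one]
  have h := (exec_query (O := Z) 0 0 (inp x)).halts (N := 1) le_rfl
  rw [h.2]
  simp [inp]

theorem sEval_append (p : PIx) (i : NIx) (O : Lang) : ∀ l' : List NIx,
    sEval p (l' ++ [i]) O = sEval pq l' (nEval i (pEval p O))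
  | [] => by
      show nEval i (sEval p [] O) = pEval pq _
      rw [pEval_pq]; rfl
  | e :: l' => by
      show nEval e (sEval p (l' ++ [i]) O) = nEval e (sEval pq l' _)
      rw [sEval_append p i O l']

/-- normal form -/
theorem sEval_FF (p : PIx) (i : NIx) (l' : List NIx) (r : ℕ) (hr : l'.length = r + 1) :
    ∃ b : ℕ, ∀ N : ℕ, 2 ≤ N → ∀ x : Str, x.length ≤ N →
      (fun O => sEval p (l' ++ [i]) O x) ∈ FF p i (N ^ b) (N ^ b) (N ^ b) (r + 1) := by
  obtain ⟨b, hb⟩ := sEval_isC pq l'
  obtain ⟨c, hc⟩ := poly_le (i.2.2.comp (Polynomial.X ^ b))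
  obtain ⟨d, hd⟩ := poly_le (Polynomial.X ^ b + Polynomial.X ^ b + Polynomial.X ^ c *
    Polynomial.X ^ b + 2 + Polynomial.X ^ c)
  refine ⟨d, fun N hN x hx => ?_⟩
  have h1 := hb N hN x hx
  have h2 := hc N hN
  have h3 := hd N hN
  simp only [Polynomial.eval_add, Polynomial.eval_mul, Polynomial.eval_pow, Polynomial.eval_X,
    Polynomial.eval_comp, Polynomial.eval_ofNat] at h2 h3
  have hQ : ∀ u : Str, u.length ≤ N ^ b → i.2.2.eval u.length ≤ N ^ c :=
    fun u hu => (poly_mono _ hu).trans h2
  have hq0 : i.2.2.eval 0 ≤ N ^ d := by
    have := hQ [] (by simp)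
    simp only [List.length_nil] at this
    omega
  rw [hr] at h1
  have h4 := FF_of_isC p i (Q := N ^ c) (w := N ^ d) (t := N ^ d) (s := N ^ d) hQ (by omega)
    (by omega) (by omega) (by omega) (by omega) hq0 r _ h1
  simp only [sEval_append]
  exact h4

end Pool.Agent.Lib.Pa76659G
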