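import Pool.Agent.Lib.Pa76659G.Basic

set_option autoImplicit false

/-!
Derived combinators for `PolyC` (oracle version of `PC.Comb`): Booleans, unary naturals, recursion on naturals, bounded
quantifiers, tables, indexing.
-/

namespace Pool.Agent.Lib.Pa76659G.PC

open Pool.Agent.Lib.Pa76659 (Str Lang Prog Cfg step runN Exec)

variable {α β : Type*} {orc : α → Lang}

/-- Unary numeral. -/
def una (n : ℕ) : List Bool := List.replicate n true

@[simp] theorem un_length (n : ℕ) : (una n).length = n := by simp [una]

theorem un_succ (n : ℕ) : una (n + 1) = true :: una n := rfl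

@[simp] theorem un_zero : una 0 = [] := rfl

theorem un_add (m n : ℕ) : una (m + n) = una m ++ una n := by
  simp only [una]; rw [List.replicate_add]

theorem suffix_un {l : List Bool} {n : ℕ} (h : l <:+ una n) : l = una l.length ∧ l.length ≤ n := by
  refine ⟨?_, by simpa using h.length_le⟩
  obtain ⟨t, ht⟩ := h
  unfold una at ht ⊢
  rw [List.eq_replicate_iff]
  refine ⟨rfl, fun b hb => ?_⟩
  have : b ∈ List.replicate n true := by rw [← ht]; simp [hb]
  exact (List.mem_replicate.1 this).2

/-- Polynomial-time computable natural-number valued (unary) functions. -/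
def PolyN (orc : α → Lang) (D : α → Prop) (ctx : List (α → List Bool)) (f : α → ℕ) : Prop :=
  PolyC orc D ctx (fun a => una (f a))

/-- Polynomial-time computable Boolean functions. -/
def PolyB (orc : α → Lang) (D : α → Prop) (ctx : List (α → List Bool)) (φ : α → Bool) : Prop :=
  PolyC orc D ctx (fun a => [φ a])

theorem PolyB.congr {D : α → Prop} {ctx : List (α → List Bool)} {φ ψ : α → Bool}
    (h : PolyB orc D ctx φ) (e : ∀ a, D a → φ a = ψ a) : PolyB orc D ctx ψ :=
  PolyC.congr h (fun a ha => by rw [e a ha])

theorem PolyN.congr {D : α → Prop} {ctx : List (α → List Bool)} {f g : α → ℕ}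
    (h : PolyN orc D ctx f) (e : ∀ a, D a → f a = g a) : PolyN orc D ctx g :=
  PolyC.congr h (fun a ha => by rw [e a ha])

/-- Constants. -/
theorem PolyC.const {D : α → Prop} {ctx : List (α → List Bool)} (l : List Bool) :
    PolyC orc D ctx (fun _ => l) := by
  induction l with
  | nil => exact PolyC.nil
  | cons b l ih => exact ih.cons b

theorem PolyB.const {D : α → Prop} {ctx : List (α → List Bool)} (b : Bool) :
    PolyB orc D ctx (fun _ => b) := PolyC.const [b]

theorem PolyN.const {D : α → Prop} {ctx : List (α → List Bool)} (n : ℕ) :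
    PolyN orc D ctx (fun _ => n) := PolyC.const (una n)

theorem PolyN.succ {D : α → Prop} {ctx : List (α → List Bool)} {f : α → ℕ}
    (h : PolyN orc D ctx f) : PolyN orc D ctx (fun a => f a + 1) :=
  PolyC.cons true h

/-- If-then-else. -/
theorem PolyC.ite {D : α → Prop} {ctx : List (α → List Bool)} {φ : α → Bool}
    {t u : α → List Bool} (hφ : PolyB orc D ctx φ)
    (ht : PolyC orc (fun a => D a ∧ φ a = true) ctx t)
    (hu : PolyC orc (fun a => D a ∧ φ a = false) ctx u) :
    PolyC orc D ctx (fun a => if φ a then t a else u a) := by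
  refine PolyC.congr (PolyC.cases (t := fun a => [φ a]) (u0 := fun _ => []) (u1 := u) (u2 := t)
    hφ PolyC.nil (hu.mono ?_) (ht.mono ?_)) ?_
  · rintro a ⟨h1, h2⟩
    exact ⟨h1, by simpa using h2⟩
  · rintro a ⟨h1, h2⟩
    exact ⟨h1, by simpa using h2⟩
  · intro a _
    cases h : φ a <;> rfl

theorem PolyB.ite {D : α → Prop} {ctx : List (α → List Bool)} {φ ψ χ : α → Bool}
    (hφ : PolyB orc D ctx φ)
    (ht : PolyB orc (fun a => D a ∧ φ a = true) ctx ψ)
    (hu : PolyB orc (fun a => D a ∧ φ a = false) ctx χ) :
    PolyB orc D ctx (fun a => if φ a then ψ a else χ a) := by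
  refine PolyC.congr (PolyC.ite hφ ht hu) ?_
  intro a _
  change (if φ a = true then [ψ a] else [χ a]) = [if φ a = true then ψ a else χ a]
  split <;> rfl

theorem PolyB.not {D : α → Prop} {ctx : List (α → List Bool)} {φ : α → Bool}
    (hφ : PolyB orc D ctx φ) : PolyB orc D ctx (fun a => !φ a) :=
  PolyB.congr (PolyB.ite hφ (PolyB.const false) (PolyB.const true))
    (fun a _ => by cases φ a <;> rfl)

theorem PolyB.and {D : α → Prop} {ctx : List (α → List Bool)} {φ ψ : α → Bool}
    (hφ : PolyB orc D ctx φ) (hψ : PolyB orc D ctx ψ) : PolyB orc D ctx (fun a => φ a && ψ a) :=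
  PolyB.congr (PolyB.ite hφ (PolyC.mono hψ fun _ h => h.1) (PolyB.const false))
    (fun a _ => by cases φ a <;> rfl)

theorem PolyB.or {D : α → Prop} {ctx : List (α → List Bool)} {φ ψ : α → Bool}
    (hφ : PolyB orc D ctx φ) (hψ : PolyB orc D ctx ψ) : PolyB orc D ctx (fun a => φ a || ψ a) :=
  PolyB.congr (PolyB.ite hφ (PolyB.const true) (PolyC.mono hψ fun _ h => h.1))
    (fun a _ => by cases φ a <;> rfl)

/-- Short-circuit conjunction: the second conjunct may assume the first. -/
theorem PolyB.and' {D : α → Prop} {ctx : List (α → List Bool)} {φ ψ : α → Bool}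
    (hφ : PolyB orc D ctx φ) (hψ : PolyB orc (fun a => D a ∧ φ a = true) ctx ψ) :
    PolyB orc D ctx (fun a => φ a && ψ a) :=
  PolyB.congr (PolyB.ite hφ hψ (PolyB.const false))
    (fun a _ => by cases φ a <;> rfl)

theorem PolyB.isNil {D : α → Prop} {ctx : List (α → List Bool)} {t : α → List Bool}
    (h : PolyC orc D ctx t) : PolyB orc D ctx (fun a => (t a).isEmpty) := by
  refine PolyC.congr (PolyC.cases h (u0 := fun _ => [true]) (u1 := fun _ => [false])
    (u2 := fun _ => [false]) (PolyC.const _) (PolyC.const _) (PolyC.const _)) ?_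
  intro a _
  change _ = [(t a).isEmpty]
  rcases t a with _ | ⟨b, l⟩
  · rfl
  · cases b <;> rfl

theorem PolyB.headD {D : α → Prop} {ctx : List (α → List Bool)} {t : α → List Bool}
    (h : PolyC orc D ctx t) : PolyB orc D ctx (fun a => (t a).headD false) := by
  refine PolyC.congr (PolyC.cases h (u0 := fun _ => [false]) (u1 := fun _ => [false])
    (u2 := fun _ => [true]) (PolyC.const _) (PolyC.const _) (PolyC.const _)) ?_
  intro a _
  change _ = [(t a).headD false]
  rcases t a with _ | ⟨b, l⟩
  · rfl
  · cases b <;> rfl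

/-- Domain-sensitive replacement of a context. -/
theorem PolyC.changeCtx {D : α → Prop} {ctx ctx' : List (α → List Bool)} {t : α → List Bool}
    (h : PolyC orc D ctx t) (hg : ∀ f ∈ ctx, ∃ g ∈ ctx', ∀ a, D a → g a = f a) :
    PolyC orc D ctx' t := by
  refine h.comp (fun f hf => ?_)
  obtain ⟨g, hg, e⟩ := hg f hf
  exact (PolyC.var hg).congr e

theorem PolyC.subset {D : α → Prop} {ctx ctx' : List (α → List Bool)} {t : α → List Bool}
    (h : PolyC orc D ctx t) (hg : ∀ f ∈ ctx, f ∈ ctx') :
    PolyC orc D ctx' t := h.comp (fun f hf => PolyC.var (hg f hf))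

/-- Recursion on unary naturals. -/
theorem PolyC.natRec {D : α → Prop} {ctx : List (α → List Bool)} {n : α → ℕ}
    (F : α → ℕ → List Bool)
    (hn : PolyN orc D ctx n) (h0 : PolyC orc D ctx (fun a => F a 0))
    (hs : PolyC (fun p : α × ℕ => orc p.1) (fun p => D p.1 ∧ p.2 < n p.1)
      (PC.lift ctx ++ [fun p => una p.2, fun p => F p.1 p.2]) (fun p => F p.1 (p.2 + 1)))
    (hB : ∃ B : Polynomial ℕ, ∀ a, D a → ∀ k, k ≤ n a →
      (F a k).length ≤ B.eval (total (vals ctx a))) :
    PolyC orc D ctx (fun a => F a (n a)) := by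
  obtain ⟨B, hB⟩ := hB
  have key := PolyC.recOn (D := D) (ctx := ctx) (x := fun a => una (n a))
    (fun a l => F a l.length) hn h0 ?_ ⟨B, fun a ha l hl => hB a ha _ (by
      simpa using hl.length_le)⟩
  · exact key.congr (fun a _ => by simp)
  · intro b
    have h1 := hs.reindex (β := α × List Bool)
      (D' := fun p => D p.1 ∧ (b :: p.2) <:+ una (n p.1)) (fun p => (p.1, p.2.length)) (by
        rintro ⟨a, l⟩ ⟨h1, h2⟩
        refine ⟨h1, ?_⟩
        have := (suffix_un h2).2
        simpa using this)
    refine (h1.changeCtx ?_).congr (fun p _ => rfl)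
    intro f hf
    simp only [List.map_append, List.map_cons, List.map_nil, List.mem_append, List.mem_map,
      List.mem_cons, List.not_mem_nil, or_false, PC.lift] at hf
    rcases hf with ⟨g, ⟨g', hg', rfl⟩, rfl⟩ | rfl | rfl
    · refine ⟨fun p => g' p.1, ?_, fun _ _ => rfl⟩
      simp only [PC.lift, List.mem_append, List.mem_map]
      exact Or.inl ⟨g', hg', rfl⟩
    · refine ⟨fun p => p.2, by simp, ?_⟩
      rintro ⟨a, l⟩ ⟨h1, h2⟩
      have h3 : l <:+ una (n a) := (List.suffix_cons b l).trans h2
      exact (suffix_un h3).1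
    · exact ⟨fun p => F p.1 p.2.length, by simp, fun _ _ => rfl⟩

/-- Concatenation. -/
theorem PolyC.append {D : α → Prop} {ctx : List (α → List Bool)} {t u : α → List Bool}
    (ht : PolyC orc D ctx t) (hu : PolyC orc D ctx u) : PolyC orc D ctx (fun a => t a ++ u a) := by
  obtain ⟨pt, hpt⟩ := ht.length_le
  obtain ⟨pu, hpu⟩ := hu.length_le
  refine PolyC.recOn (x := t) (fun a l => l ++ u a) ht hu (fun b => ?_)
    ⟨pt + pu, fun a ha l hl => ?_⟩
  · have : PolyC (fun p : α × List Bool => orc p.1) (fun p => D p.1 ∧ (b :: p.2) <:+ t p.1)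
      (PC.lift ctx ++ [fun p => p.2, fun p => p.2 ++ u p.1])
      (fun p => b :: (p.2 ++ u p.1)) := PolyC.cons b (PolyC.var (by simp))
    exact this
  · simp only [List.length_append, Polynomial.eval_add]
    have h1 := hl.length_le
    have h2 := hpt a ha
    have h3 := hpu a ha
    omega

theorem PolyN.add {D : α → Prop} {ctx : List (α → List Bool)} {f g : α → ℕ}
    (hf : PolyN orc D ctx f) (hg : PolyN orc D ctx g) : PolyN orc D ctx (fun a => f a + g a) :=
  (PolyC.append hf hg).congr (fun a _ => (un_add _ _).symm)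

/-- Length of a list, in unary. -/
theorem PolyN.length {D : α → Prop} {ctx : List (α → List Bool)} {t : α → List Bool}
    (ht : PolyC orc D ctx t) : PolyN orc D ctx (fun a => (t a).length) := by
  obtain ⟨pt, hpt⟩ := ht.length_le
  refine PolyC.recOn (x := t) (fun a l => una l.length) ht PolyC.nil (fun b => ?_)
    ⟨pt, fun a ha l hl => ?_⟩
  · have : PolyC (fun p : α × List Bool => orc p.1) (fun p => D p.1 ∧ (b :: p.2) <:+ t p.1)
      (PC.lift ctx ++ [fun p => p.2, fun p => una p.2.length])
      (fun p => true :: una p.2.length) := PolyC.cons true (PolyC.var (by simp))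
    exact this
  · have h1 := hl.length_le
    have h2 := hpt a ha
    simp only [un_length]
    omega

/-- `n * f`. -/
theorem PolyN.mul {D : α → Prop} {ctx : List (α → List Bool)} {f g : α → ℕ}
    (hf : PolyN orc D ctx f) (hg : PolyN orc D ctx g) : PolyN orc D ctx (fun a => f a * g a) := by
  obtain ⟨pf, hpf⟩ := PolyC.length_le hf
  obtain ⟨pg, hpg⟩ := PolyC.length_le hg
  have := PolyC.natRec (D := D) (ctx := ctx) (n := f) (fun a k => una (k * g a)) hf
    (PolyC.nil.congr (fun a _ => by simp)) ?_ ⟨pf * pg, fun a ha k hk => ?_⟩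
  · exact this
  · have h1 : PolyN (fun p : α × ℕ => orc p.1) (fun p => D p.1 ∧ p.2 < f p.1)
        (PC.lift ctx ++ [fun p => una p.2, fun p => una (p.2 * g p.1)])
        (fun p => p.2 * g p.1) := PolyC.var (by simp)
    have h2 : PolyN (fun p : α × ℕ => orc p.1) (fun p => D p.1 ∧ p.2 < f p.1)
        (PC.lift ctx ++ [fun p => una p.2, fun p => una (p.2 * g p.1)])
        (fun p => g p.1) := (PolyC.lift hg (fun p hp => hp.1)).weakenRight _
    exact (h1.add h2).congr (fun p _ => by rw [Nat.succ_mul])
  · have h1 := hpf a ha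
    have h2 := hpg a ha
    simp only [un_length, Polynomial.eval_mul] at *
    exact Nat.mul_le_mul (hk.trans h1) h2

/-- Dropping a unary number of entries. -/
theorem PolyC.drop {D : α → Prop} {ctx : List (α → List Bool)} {t : α → List Bool} {k : α → ℕ}
    (ht : PolyC orc D ctx t) (hk : PolyN orc D ctx k) : PolyC orc D ctx (fun a => (t a).drop (k a)) := by
  obtain ⟨pt, hpt⟩ := ht.length_le
  refine PolyC.natRec (fun a k => (t a).drop k) hk (ht.congr (fun a _ => by simp)) ?_
    ⟨pt, fun a ha k _ => ?_⟩
  · have h1 : PolyC (fun p : α × ℕ => orc p.1) (fun p => D p.1 ∧ p.2 < k p.1)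
        (PC.lift ctx ++ [fun p => una p.2, fun p => (t p.1).drop p.2])
        (fun p => (t p.1).drop p.2) := PolyC.var (by simp)
    exact h1.tail.congr (fun p _ => by rw [List.tail_drop])
  · have h2 := hpt a ha
    simp only [List.length_drop]
    omega

/-- Indexing. -/
theorem PolyB.getD {D : α → Prop} {ctx : List (α → List Bool)} {t : α → List Bool} {k : α → ℕ}
    (ht : PolyC orc D ctx t) (hk : PolyN orc D ctx k) : PolyB orc D ctx (fun a => (t a).getD (k a) false) :=
  (PolyB.headD (ht.drop hk)).congr (fun a _ => by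
    rw [List.getD_eq_getElem?_getD, List.headD_eq_head?_getD, List.head?_drop])

theorem PolyB.le {D : α → Prop} {ctx : List (α → List Bool)} {f g : α → ℕ}
    (hf : PolyN orc D ctx f) (hg : PolyN orc D ctx g) : PolyB orc D ctx (fun a => decide (f a ≤ g a)) :=
  (PolyB.isNil (PolyC.drop hf hg)).congr (fun a _ => by
    rw [Bool.eq_iff_iff]
    simp only [List.isEmpty_iff, List.drop_eq_nil_iff, un_length, decide_eq_true_eq])

theorem PolyB.lt {D : α → Prop} {ctx : List (α → List Bool)} {f g : α → ℕ}
    (hf : PolyN orc D ctx f) (hg : PolyN orc D ctx g) : PolyB orc D ctx (fun a => decide (f a < g a)) :=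
  (PolyB.le hf.succ hg).congr (fun a _ => rfl)

theorem PolyB.natEq {D : α → Prop} {ctx : List (α → List Bool)} {f g : α → ℕ}
    (hf : PolyN orc D ctx f) (hg : PolyN orc D ctx g) : PolyB orc D ctx (fun a => decide (f a = g a)) :=
  ((PolyB.le hf hg).and (PolyB.le hg hf)).congr (fun a _ => by
    rw [Bool.eq_iff_iff]
    simp only [Bool.and_eq_true, decide_eq_true_eq]
    omega)

/-- Bounded existential quantification. -/
theorem PolyB.exists_lt {D : α → Prop} {ctx : List (α → List Bool)} {n : α → ℕ}
    {φ : α × ℕ → Bool} (hn : PolyN orc D ctx n)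
    (hφ : PolyB (fun p : α × ℕ => orc p.1) (fun p => D p.1 ∧ p.2 < n p.1)
      (PC.lift ctx ++ [fun p => una p.2]) φ) :
    PolyB orc D ctx (fun a => decide (∃ i < n a, φ (a, i) = true)) := by
  classical
  have := PolyC.natRec (D := D) (ctx := ctx) (n := n)
    (fun a k => [decide (∃ i < k, φ (a, i) = true)]) hn
    ((PolyC.const [false]).congr (fun a _ => by simp)) ?_ ⟨1, fun a ha k hk => by simp⟩
  · exact this
  · have h1 : PolyB (fun p : α × ℕ => orc p.1) (fun p => D p.1 ∧ p.2 < n p.1)
        (PC.lift ctx ++ [fun p => una p.2,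
          fun p => [decide (∃ i < p.2, φ (p.1, i) = true)]])
        (fun p => decide (∃ i < p.2, φ (p.1, i) = true)) := PolyC.var (by simp)
    have h2 : PolyB (fun p : α × ℕ => orc p.1) (fun p => D p.1 ∧ p.2 < n p.1)
        (PC.lift ctx ++ [fun p => una p.2,
          fun p => [decide (∃ i < p.2, φ (p.1, i) = true)]]) φ := by
      refine PolyC.subset hφ ?_
      intro f hf
      simp only [List.mem_append, List.mem_cons, List.not_mem_nil, or_false] at hf ⊢
      tauto
    refine (h2.or h1).congr (fun p _ => ?_)
    rw [Bool.eq_iff_iff]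
    simp only [Bool.or_eq_true, decide_eq_true_eq]
    constructor
    · rintro (h | ⟨i, hi, h⟩)
      · exact ⟨p.2, Nat.lt_succ_self _, h⟩
      · exact ⟨i, Nat.lt_succ_of_lt hi, h⟩
    · rintro ⟨i, hi, h⟩
      rcases Nat.lt_succ_iff_lt_or_eq.1 hi with h' | h'
      · exact Or.inr ⟨i, h', h⟩
      · subst h'; exact Or.inl h

/-- Bounded universal quantification. -/
theorem PolyB.forall_lt {D : α → Prop} {ctx : List (α → List Bool)} {n : α → ℕ}
    {φ : α × ℕ → Bool} (hn : PolyN orc D ctx n)
    (hφ : PolyB (fun p : α × ℕ => orc p.1) (fun p => D p.1 ∧ p.2 < n p.1)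
      (PC.lift ctx ++ [fun p => una p.2]) φ) :
    PolyB orc D ctx (fun a => decide (∀ i < n a, φ (a, i) = true)) := by
  refine (PolyB.exists_lt hn hφ.not).not.congr (fun a _ => ?_)
  rw [Bool.eq_iff_iff]
  simp

/-- Concatenation of a family indexed by an initial segment. -/
theorem PolyC.flatMap_range {D : α → Prop} {ctx : List (α → List Bool)} {n : α → ℕ}
    {t : α × ℕ → List Bool} (hn : PolyN orc D ctx n)
    (ht : PolyC (fun p : α × ℕ => orc p.1) (fun p => D p.1 ∧ p.2 < n p.1)
      (PC.lift ctx ++ [fun p => una p.2]) t) :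
    PolyC orc D ctx (fun a => (List.range (n a)).flatMap (fun i => t (a, i))) := by
  obtain ⟨pn, hpn⟩ := PolyC.length_le hn
  obtain ⟨pt, hpt⟩ := ht.length_le
  refine PolyC.natRec (fun a k => (List.range k).flatMap (fun i => t (a, i))) hn
    PolyC.nil ?_ ⟨pn * pt.comp (Polynomial.X + pn), fun a ha k hk => ?_⟩
  · have h1 : PolyC (fun p : α × ℕ => orc p.1) (fun p => D p.1 ∧ p.2 < n p.1)
        (PC.lift ctx ++ [fun p => una p.2,
          fun p => (List.range p.2).flatMap (fun i => t (p.1, i))])
        (fun p => (List.range p.2).flatMap (fun i => t (p.1, i))) := PolyC.var (by simp)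
    have h2 : PolyC (fun p : α × ℕ => orc p.1) (fun p => D p.1 ∧ p.2 < n p.1)
        (PC.lift ctx ++ [fun p => una p.2,
          fun p => (List.range p.2).flatMap (fun i => t (p.1, i))]) t := by
      refine PolyC.subset ht ?_
      intro f hf
      simp only [List.mem_append, List.mem_cons, List.not_mem_nil, or_false] at hf ⊢
      tauto
    exact (h1.append h2).congr (fun p _ => by
      rw [List.range_succ, List.flatMap_append]
      simp)
  · have hna := hpn a ha
    simp only [un_length] at hna
    have hk' : k ≤ pn.eval (total (vals ctx a)) := hk.trans hna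
    have h3 : ∀ j, j ≤ k → ((List.range j).flatMap (fun i => t (a, i))).length ≤
        j * pt.eval (total (vals ctx a) + pn.eval (total (vals ctx a))) := by
      intro j
      induction j with
      | zero => intro _; simp
      | succ j ih =>
        intro hj
        have h4 := ih (by omega)
        have h5 := hpt (a, j) ⟨ha, show j < n a by omega⟩
        simp only [vals_append, vals_lift, vals_cons, vals_nil, total_append, total_cons,
          total_nil, un_length] at h5
        have h6 : (t (a, j)).length ≤
            pt.eval (total (vals ctx a) + pn.eval (total (vals ctx a))) :=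
          h5.trans (eval_mono _ (by omega))
        rw [List.range_succ, List.flatMap_append, List.length_append, Nat.succ_mul]
        simp only [List.flatMap_cons, List.flatMap_nil, List.append_nil]
        omega
    refine (h3 k le_rfl).trans ?_
    simp only [Polynomial.eval_mul, Polynomial.eval_comp, Polynomial.eval_add,
      Polynomial.eval_X]
    exact Nat.mul_le_mul_right _ hk'

/-- Tables of bits. -/
theorem PolyC.map_range {D : α → Prop} {ctx : List (α → List Bool)} {n : α → ℕ}
    {φ : α × ℕ → Bool} (hn : PolyN orc D ctx n)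
    (hφ : PolyB (fun p : α × ℕ => orc p.1) (fun p => D p.1 ∧ p.2 < n p.1)
      (PC.lift ctx ++ [fun p => una p.2]) φ) :
    PolyC orc D ctx (fun a => (List.range (n a)).map (fun i => φ (a, i))) :=
  (PolyC.flatMap_range hn hφ).congr (fun a _ => by
    induction List.range (n a) with
    | nil => rfl
    | cons x l ih => simp [ih])

/-- Leading block of `true`s. -/
theorem PolyC.takeTrue {D : α → Prop} {ctx : List (α → List Bool)} {t : α → List Bool}
    (ht : PolyC orc D ctx t) : PolyC orc D ctx (fun a => (t a).takeWhile id) := by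
  obtain ⟨pt, hpt⟩ := ht.length_le
  refine PolyC.recOn (x := t) (fun a l => l.takeWhile id) ht PolyC.nil (fun b => ?_)
    ⟨pt, fun a ha l hl => ?_⟩
  · cases b with
    | false => exact (PolyC.nil).congr (fun p _ => by simp)
    | true =>
      have : PolyC (fun p : α × List Bool => orc p.1) (fun p => D p.1 ∧ (true :: p.2) <:+ t p.1)
        (PC.lift ctx ++ [fun p => p.2, fun p => p.2.takeWhile id])
        (fun p => true :: (p.2.takeWhile id)) := PolyC.cons true (PolyC.var (by simp))
      exact this.congr (fun p _ => by simp)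
  · have h1 := hl.length_le
    have h2 := hpt a ha
    have h3 := (List.takeWhile_prefix (p := id) (l := l)).length_le
    omega

/-- What follows the leading block of `true`s and one more bit. -/
def afterTrue : List Bool → List Bool
  | [] => []
  | true :: l => afterTrue l
  | false :: l => l

theorem afterTrue_un (n : ℕ) (l : List Bool) : afterTrue (una n ++ false :: l) = l := by
  induction n with
  | zero => rfl
  | succ n ih => exact ih

theorem takeWhile_un (n : ℕ) (l : List Bool) :
    (una n ++ false :: l).takeWhile id = una n := by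
  induction n with
  | zero => rfl
  | succ n ih =>
    rw [un_succ, List.cons_append, List.takeWhile_cons]
    simp [ih]

theorem PolyC.afterTrue {D : α → Prop} {ctx : List (α → List Bool)} {t : α → List Bool}
    (ht : PolyC orc D ctx t) : PolyC orc D ctx (fun a => PC.afterTrue (t a)) := by
  obtain ⟨pt, hpt⟩ := ht.length_le
  have hle : ∀ l : List Bool, (PC.afterTrue l).length ≤ l.length := by
    intro l
    induction l with
    | nil => simp [PC.afterTrue]
    | cons b l ih =>
      cases b
      · simp [PC.afterTrue]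
      · simp only [PC.afterTrue, List.length_cons]; omega
  refine PolyC.recOn (x := t) (fun a l => PC.afterTrue l) ht PolyC.nil (fun b => ?_)
    ⟨pt, fun a ha l hl => ?_⟩
  · cases b with
    | false =>
      have : PolyC (fun p : α × List Bool => orc p.1) (fun p => D p.1 ∧ (false :: p.2) <:+ t p.1)
        (PC.lift ctx ++ [fun p => p.2, fun p => PC.afterTrue p.2])
        (fun p => p.2) := PolyC.var (by simp)
      exact this
    | true =>
      have : PolyC (fun p : α × List Bool => orc p.1) (fun p => D p.1 ∧ (true :: p.2) <:+ t p.1)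
        (PC.lift ctx ++ [fun p => p.2, fun p => PC.afterTrue p.2])
        (fun p => PC.afterTrue p.2) := PolyC.var (by simp)
      exact this
  · have h1 := hl.length_le
    have h2 := hpt a ha
    have h3 := hle l
    omega

end Pool.Agent.Lib.Pa76659G.PC
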