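import Mathlib

set_option autoImplicit false

/-!
Multiplicative weights: either there are distributions on the two sides that no test separates, or
few tests separate the two sides by counting.
-/

namespace Pool.Agent.Lib.Pa76659G

open Finset

variable {ι P N : Type}

/-- difference of the values of the test `i` on `y` and on `x` -/
noncomputable def gap (T : ι → P → Bool) (U : ι → N → Bool) (i : ι) (x : P) (y : N) : ℝ :=
  (if U i y = true then 1 else 0) - (if T i x = true then 1 else 0)

theorem gap_sq (T : ι → P → Bool) (U : ι → N → Bool) (i : ι) (x : P) (y : N) :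
    gap T U i x y ^ 2 ≤ 1 := by
  unfold gap
  split_ifs <;> norm_num

theorem gap_abs (T : ι → P → Bool) (U : ι → N → Bool) (i : ι) (x : P) (y : N) :
    |gap T U i x y| ≤ 1 := by
  unfold gap
  split_ifs <;> norm_num

theorem exp_gap {η : ℝ} (h0 : 0 ≤ η) (h1 : η ≤ 1) (T : ι → P → Bool) (U : ι → N → Bool) (i : ι)
    (x : P) (y : N) :
    Real.exp (-η * gap T U i x y) ≤ 1 - η * gap T U i x y + η ^ 2 := by
  have h2 := gap_sq T U i x y
  have h3 : |-η * gap T U i x y| ≤ 1 := by
    rw [abs_mul, abs_neg, abs_of_nonneg h0]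
    have h4 := gap_abs T U i x y
    calc η * |gap T U i x y| ≤ 1 * 1 := mul_le_mul h1 h4 (abs_nonneg _) zero_le_one
      _ = 1 := one_mul 1
  have h4 := Real.abs_exp_sub_one_sub_id_le h3
  have h5 := (abs_le.1 h4).2
  have h6 : (-η * gap T U i x y) ^ 2 ≤ η ^ 2 := by
    rw [mul_pow, neg_sq]
    calc η ^ 2 * gap T U i x y ^ 2 ≤ η ^ 2 * 1 :=
          mul_le_mul_of_nonneg_left h2 (sq_nonneg η)
      _ = η ^ 2 := mul_one _
  linarith

/-- total gap of a list of tests -/
noncomputable def tot (T : ι → P → Bool) (U : ι → N → Bool) (L : List ι) (x : P) (y : N) : ℝ :=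
  (L.map fun i => gap T U i x y).sum

theorem tot_count (T : ι → P → Bool) (U : ι → N → Bool) (L : List ι) (x : P) (y : N) :
    tot T U L x y = (L.countP fun i => U i y : ℕ) - (L.countP fun i => T i x : ℕ) := by
  induction L with
  | nil => simp [tot]
  | cons a L ih =>
    have h : tot T U (a :: L) x y = gap T U a x y + tot T U L x y := by simp [tot]
    rw [h, ih, List.countP_cons, List.countP_cons]
    unfold gap
    push_cast
    split_ifs <;> ring

set_option linter.unusedSectionVars false

variable [Fintype P] [Fintype N] [Nonempty P] [Nonempty N]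

/-- the potential -/
noncomputable def pot (η : ℝ) (T : ι → P → Bool) (U : ι → N → Bool) (L : List ι) : ℝ :=
  ∑ x, ∑ y, Real.exp (-η * tot T U L x y)

theorem pot_pos (η : ℝ) (T : ι → P → Bool) (U : ι → N → Bool) (L : List ι) :
    0 < pot η T U L := by
  unfold pot
  refine Finset.sum_pos (fun x _ => Finset.sum_pos (fun y _ => Real.exp_pos _) ?_) ?_
  · exact Finset.univ_nonempty
  · exact Finset.univ_nonempty

theorem pot_step {η g : ℝ} (h0 : 0 ≤ η) (hη : η ≤ 1) (hg : g = 2 * η) (T : ι → P → Bool)
    (U : ι → N → Bool) (L : List ι) (i : ι)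
    (h : g * pot η T U L ≤
      ∑ x, ∑ y, Real.exp (-η * tot T U L x y) * gap T U i x y) :
    pot η T U (i :: L) ≤ (1 - η ^ 2) * pot η T U L := by
  have h1 : pot η T U (i :: L) ≤ ∑ x, ∑ y, Real.exp (-η * tot T U L x y) *
      (1 - η * gap T U i x y + η ^ 2) := by
    unfold pot
    refine Finset.sum_le_sum fun x _ => Finset.sum_le_sum fun y _ => ?_
    have h2 : tot T U (i :: L) x y = gap T U i x y + tot T U L x y := by simp [tot]
    rw [h2, mul_add, Real.exp_add, mul_comm]
    exact mul_le_mul_of_nonneg_left (exp_gap h0 hη T U i x y) (Real.exp_pos _).le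
  have h3 : ∑ x, ∑ y, Real.exp (-η * tot T U L x y) *
      (1 - η * gap T U i x y + η ^ 2) = (1 + η ^ 2) * pot η T U L
        - η * ∑ x, ∑ y, Real.exp (-η * tot T U L x y) * gap T U i x y := by
    unfold pot
    rw [Finset.mul_sum, Finset.mul_sum, ← Finset.sum_sub_distrib]
    refine Finset.sum_congr rfl fun x _ => ?_
    rw [Finset.mul_sum, Finset.mul_sum, ← Finset.sum_sub_distrib]
    exact Finset.sum_congr rfl fun y _ => by ring
  rw [h3] at h1
  have h4 := mul_le_mul_of_nonneg_left h h0
  rw [hg] at h4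
  nlinarith

theorem pot_list {η g : ℝ} (h0 : 0 ≤ η) (hη : η ≤ 1) (hg : g = 2 * η) (T : ι → P → Bool)
    (U : ι → N → Bool)
    (h : ∀ w : P → N → ℝ, (∀ x y, 0 ≤ w x y) → ∑ x, ∑ y, w x y = 1 →
      ∃ i, g ≤ ∑ x, ∑ y, w x y * gap T U i x y) (m : ℕ) :
    ∃ L : List ι, L.length = m ∧
      pot η T U L ≤ (1 - η ^ 2 : ℝ) ^ m * (Fintype.card P * Fintype.card N : ℝ) := by
  have hpos0 : (0 : ℝ) ≤ 1 - η ^ 2 := by nlinarith
  induction m with
  | zero =>
    refine ⟨[], rfl, le_of_eq ?_⟩
    unfold pot tot
    simp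
  | succ m ih =>
    obtain ⟨L, hL, hp⟩ := ih
    have hpos := pot_pos η T U L
    obtain ⟨i, hi⟩ := h (fun x y => Real.exp (-η * tot T U L x y) / pot η T U L)
      (fun x y => by positivity) (by
        have : ∑ x, ∑ y, Real.exp (-η * tot T U L x y) / pot η T U L
            = pot η T U L / pot η T U L := by
          conv_rhs => rw [show pot η T U L = ∑ x, ∑ y, Real.exp (-η * tot T U L x y)
            from rfl]
          rw [Finset.sum_div]
          refine Finset.sum_congr rfl fun x _ => ?_
          rw [Finset.sum_div]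
          rfl
        rw [this, div_self hpos.ne'])
    refine ⟨i :: L, by simp [hL], ?_⟩
    have h1 : ∑ x, ∑ y, Real.exp (-η * tot T U L x y) / pot η T U L * gap T U i x y
        = (∑ x, ∑ y, Real.exp (-η * tot T U L x y) * gap T U i x y) / pot η T U L := by
      rw [Finset.sum_div]
      refine Finset.sum_congr rfl fun x _ => ?_
      rw [Finset.sum_div]
      exact Finset.sum_congr rfl fun y _ => by ring
    rw [h1, le_div_iff₀ hpos] at hi
    refine (pot_step h0 hη hg T U L i hi).trans ?_
    calc (1 - η ^ 2) * pot η T U L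
        ≤ (1 - η ^ 2) * ((1 - η ^ 2 : ℝ) ^ m * (Fintype.card P * Fintype.card N : ℝ)) :=
          mul_le_mul_of_nonneg_left hp hpos0
      _ = _ := by ring

/-- Either two distributions that no test separates by more than `1 / q`, or `8 q ^ 2 (n + 1)`
tests that separate by counting. -/
theorem mwu_gen (T : ι → P → Bool) (U : ι → N → Bool) (n q : ℕ) (hq : 1 ≤ q)
    (hP : Fintype.card P ≤ 2 ^ n) (hN : Fintype.card N ≤ 2 ^ n) :
    (∃ (D : P → ℝ) (E : N → ℝ), (∀ x, 0 ≤ D x) ∧ ∑ x, D x = 1 ∧ (∀ y, 0 ≤ E y) ∧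
      ∑ y, E y = 1 ∧ ∀ i, ∑ y, E y * (if U i y = true then 1 else 0) ≤
        ∑ x, D x * (if T i x = true then 1 else 0) + 1 / q) ∨
    ∃ (L : List ι) (τ : ℕ), L.length = 8 * q ^ 2 * (n + 1) ∧
      (∀ y, τ ≤ L.countP fun i => U i y) ∧ ∀ x, (L.countP fun i => T i x) < τ := by
  have hq' : (1 : ℝ) ≤ q := by exact_mod_cast hq
  set η : ℝ := 1 / (2 * q) with hη
  have h0 : 0 < η := by positivity
  have h1 : η ≤ 1 := by
    rw [hη, div_le_one (by positivity)]
    linarith
  by_cases h : ∀ w : P → N → ℝ, (∀ x y, 0 ≤ w x y) → ∑ x, ∑ y, w x y = 1 →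
      ∃ i, 1 / (q : ℝ) ≤ ∑ x, ∑ y, w x y * gap T U i x y
  · right
    obtain ⟨L, hL, hp⟩ := pot_list h0.le h1 (by rw [hη]; field_simp) T U h (8 * q ^ 2 * (n + 1))
    have hlt : pot η T U L < 1 := by
      refine hp.trans_lt ?_
      have h1 : (Fintype.card P * Fintype.card N : ℝ) ≤ 4 ^ n := by
        have h2 : (Fintype.card P : ℝ) ≤ 2 ^ n := by exact_mod_cast hP
        have h3 : (Fintype.card N : ℝ) ≤ 2 ^ n := by exact_mod_cast hN
        calc (Fintype.card P * Fintype.card N : ℝ) ≤ 2 ^ n * 2 ^ n := by gcongr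
          _ = 4 ^ n := by rw [← mul_pow]; norm_num
      have hpos0 : (0 : ℝ) ≤ 1 - η ^ 2 := by nlinarith
      have h4 : (1 - η ^ 2 : ℝ) ^ (8 * q ^ 2) ≤ 1 / 4 := by
        have h5 : (1 : ℝ) - η ^ 2 ≤ Real.exp (-η ^ 2) := by
          have := Real.add_one_le_exp (-η ^ 2)
          linarith
        have h6 : Real.exp (-η ^ 2) ^ (8 * q ^ 2) = Real.exp (-2) := by
          rw [← Real.exp_nat_mul]
          congr 1
          rw [hη]
          push_cast
          field_simp
          ring
        have h7 : Real.exp (-2) ≤ 1 / 4 := by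
          rw [Real.exp_neg, ← one_div]
          apply one_div_le_one_div_of_le (by norm_num)
          have h8 := Real.add_one_le_exp (1 : ℝ)
          have h9 : Real.exp 2 = Real.exp 1 * Real.exp 1 := by
            rw [← Real.exp_add]
            norm_num
          rw [h9]
          nlinarith
        calc (1 - η ^ 2 : ℝ) ^ (8 * q ^ 2) ≤ Real.exp (-η ^ 2) ^ (8 * q ^ 2) :=
              pow_le_pow_left₀ hpos0 h5 _
          _ = Real.exp (-2) := h6
          _ ≤ 1 / 4 := h7
      calc (1 - η ^ 2 : ℝ) ^ (8 * q ^ 2 * (n + 1)) * (Fintype.card P * Fintype.card N : ℝ)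
          ≤ (1 / 4) ^ (n + 1) * 4 ^ n := by
            rw [pow_mul]
            have h5 : (0 : ℝ) ≤ (1 - η ^ 2) ^ (8 * q ^ 2) := pow_nonneg hpos0 _
            exact mul_le_mul (pow_le_pow_left₀ h5 h4 _) h1 (by positivity) (by positivity)
        _ = 1 / 4 := by
            rw [pow_succ]
            have : (1 / 4 : ℝ) ^ n * 4 ^ n = 1 := by rw [← mul_pow]; norm_num
            calc (1 / 4 : ℝ) ^ n * (1 / 4) * 4 ^ n = (1 / 4 : ℝ) ^ n * 4 ^ n * (1 / 4) := by ring
              _ = 1 / 4 := by rw [this]; ring
        _ < 1 := by norm_num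
    have key : ∀ x y, (L.countP fun i => T i x) < L.countP fun i => U i y := by
      intro x y
      have h1 : Real.exp (-η * tot T U L x y) ≤ pot η T U L := by
        unfold pot
        have h2 : Real.exp (-η * tot T U L x y) ≤
            ∑ y, Real.exp (-η * tot T U L x y) :=
          Finset.single_le_sum (f := fun y => Real.exp (-η * tot T U L x y))
            (fun y _ => (Real.exp_pos _).le) (Finset.mem_univ y)
        exact h2.trans (Finset.single_le_sum
          (f := fun x => ∑ y, Real.exp (-η * tot T U L x y))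
          (fun x _ => Finset.sum_nonneg fun y _ => (Real.exp_pos _).le) (Finset.mem_univ x))
      have h2 : Real.exp (-η * tot T U L x y) < 1 := h1.trans_lt hlt
      rw [Real.exp_lt_one_iff] at h2
      have h3 : 0 < tot T U L x y := by
        by_contra hcon
        push Not at hcon
        have := mul_nonneg_of_nonpos_of_nonpos (show -η ≤ 0 by linarith) hcon
        linarith
      rw [tot_count] at h3
      have h4 : ((L.countP fun i => T i x : ℕ) : ℝ) < (L.countP fun i => U i y : ℕ) := by
        linarith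
      exact_mod_cast h4
    refine ⟨L, (Finset.univ.sup fun x => L.countP fun i => T i x) + 1, hL, ?_, ?_⟩
    · intro y
      have : (Finset.univ.sup fun x => L.countP fun i => T i x) < L.countP fun i => U i y := by
        rw [Finset.sup_lt_iff]
        · exact fun x _ => key x y
        · exact lt_of_le_of_lt (Nat.zero_le _) (key (Classical.arbitrary P) y)
      omega
    · intro x
      have := Finset.le_sup (f := fun x => L.countP fun i => T i x) (Finset.mem_univ x)
      exact Nat.lt_succ_of_le this
  · left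
    push Not at h
    obtain ⟨w, h0, h1, h2⟩ := h
    refine ⟨fun x => ∑ y, w x y, fun y => ∑ x, w x y, fun x => Finset.sum_nonneg fun y _ => h0 x y,
      h1, fun y => Finset.sum_nonneg fun x _ => h0 x y, ?_, ?_⟩
    · rw [Finset.sum_comm]
      exact h1
    · intro i
      have h3 := (h2 i).le
      have h4 : ∑ x, ∑ y, w x y * gap T U i x y
          = ∑ y, (∑ x, w x y) * (if U i y = true then 1 else 0)
            - ∑ x, (∑ y, w x y) * (if T i x = true then 1 else 0) := by
        unfold gap
        have h5 : ∑ y, (∑ x, w x y) * (if U i y = true then (1 : ℝ) else 0)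
            = ∑ x, ∑ y, w x y * (if U i y = true then 1 else 0) := by
          rw [Finset.sum_comm]
          exact Finset.sum_congr rfl fun y _ => by rw [Finset.sum_mul]
        rw [h5, ← Finset.sum_sub_distrib]
        refine Finset.sum_congr rfl fun x _ => ?_
        rw [Finset.sum_mul, ← Finset.sum_sub_distrib]
        exact Finset.sum_congr rfl fun y _ => by ring
      rw [h4] at h3
      linarith

end Pool.Agent.Lib.Pa76659G
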