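import Pool.Agent.Lib.Pa76659G.Cube

set_option autoImplicit false

/-!
One step of the recursion on the dimension of the arrays: exchange of one entry.
-/

namespace Pool.Agent.Lib.Pa76659G

open Finset

/-- the array that takes the entries of `Y'` where `b` holds and the entries of `Y` elsewhere -/
def mix {ι A : Type} (b : ι → Bool) (Y Y' : ι → A) : ι → A :=
  fun i => if b i = true then Y' i else Y i

/-- indicator as a real number -/
noncomputable def bd (b : Bool) : ℝ := if b = true then 1 else 0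

theorem bd_nonneg (b : Bool) : 0 ≤ bd b := by unfold bd; split_ifs <;> norm_num

theorem bd_le_one (b : Bool) : bd b ≤ 1 := by unfold bd; split_ifs <;> norm_num

theorem bd_true : bd true = 1 := by simp [bd]

theorem bd_false : bd false = 0 := by simp [bd]

section

variable {ι Ω : Type} [Fintype ι] [DecidableEq ι] [Fintype Ω]

/-- product weight -/
noncomputable def pw (α : Ω → ℝ) (Y : ι → Ω) : ℝ := ∏ i, α (Y i)

/-- product weight with one random entry replaced -/
noncomputable def nx (α β : Ω → ℝ) (Y : ι → Ω) : ℝ :=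
  (∑ i, β (Y i) * ∏ j ∈ univ.erase i, α (Y j)) / Fintype.card ι

theorem pw_nonneg {α : Ω → ℝ} (hα : ∀ x, 0 ≤ α x) (Y : ι → Ω) : 0 ≤ pw α Y :=
  Finset.prod_nonneg fun i _ => hα _

theorem sum_pw {α : Ω → ℝ} (hα : ∑ x, α x = 1) : ∑ Y : ι → Ω, pw α Y = 1 := by
  have h := Finset.prod_univ_sum (fun _ : ι => (univ : Finset Ω)) (fun _ x => α x)
  rw [Fintype.piFinset_univ] at h
  unfold pw
  rw [← h, Finset.prod_const, hα, one_pow]

/-- splitting off one coordinate -/
theorem sum_split (i : ι) (F : (ι → Ω) → ℝ) :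
    ∑ Y, F Y = ∑ Y' : {j // j ≠ i} → Ω, ∑ y : Ω, F ((Equiv.funSplitAt i Ω).symm (y, Y')) := by
  rw [Finset.sum_comm, ← Fintype.sum_prod_type' (f := fun (y : Ω) (Y' : {j // j ≠ i} → Ω) =>
    F ((Equiv.funSplitAt i Ω).symm (y, Y')))]
  exact (Equiv.sum_comp (Equiv.funSplitAt i Ω).symm F).symm

theorem split_self (i : ι) (y : Ω) (Y' : {j // j ≠ i} → Ω) :
    (Equiv.funSplitAt i Ω).symm (y, Y') i = y := by
  simp [Equiv.funSplitAt, Equiv.piSplitAt]

theorem split_ne (i : ι) (y : Ω) (Y' : {j // j ≠ i} → Ω) {j : ι} (h : j ≠ i) :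
    (Equiv.funSplitAt i Ω).symm (y, Y') j = Y' ⟨j, h⟩ := by
  simp [Equiv.funSplitAt, Equiv.piSplitAt, h]

theorem split_update (i : ι) (y z : Ω) (Y' : {j // j ≠ i} → Ω) :
    Function.update ((Equiv.funSplitAt i Ω).symm (y, Y')) i z
      = (Equiv.funSplitAt i Ω).symm (z, Y') := by
  funext j
  by_cases h : j = i
  · subst h
    rw [Function.update_self, split_self]
  · rw [Function.update_of_ne h, split_ne _ _ _ h, split_ne _ _ _ h]

theorem pw_split (α : Ω → ℝ) (i : ι) (y : Ω) (Y' : {j // j ≠ i} → Ω) :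
    pw α ((Equiv.funSplitAt i Ω).symm (y, Y')) = α y * ∏ j, α (Y' j) := by
  unfold pw
  rw [← Finset.mul_prod_erase univ _ (Finset.mem_univ i), split_self]
  congr 1
  rw [Finset.prod_subtype (univ.erase i) (p := fun j => j ≠ i) (by simp)
    (f := fun j => α ((Equiv.funSplitAt i Ω).symm (y, Y') j))]
  · refine Finset.prod_congr rfl fun j _ => ?_
    rw [split_ne _ _ _ j.2]

theorem erase_split (α : Ω → ℝ) (i : ι) (y : Ω) (Y' : {j // j ≠ i} → Ω) :
    ∏ j ∈ univ.erase i, α ((Equiv.funSplitAt i Ω).symm (y, Y') j) = ∏ j, α (Y' j) := by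
  rw [Finset.prod_subtype (univ.erase i) (p := fun j => j ≠ i) (by simp)
    (f := fun j => α ((Equiv.funSplitAt i Ω).symm (y, Y') j))]
  refine Finset.prod_congr rfl fun j _ => ?_
  rw [split_ne _ _ _ j.2]

theorem resample {α β : Ω → ℝ} (hα : ∑ x, α x = 1) (i : ι) (F : (ι → Ω) → ℝ) :
    ∑ Y : ι → Ω, β (Y i) * (∏ j ∈ univ.erase i, α (Y j)) * F Y
      = ∑ Y : ι → Ω, pw α Y * ∑ y, β y * F (Function.update Y i y) := by
  rw [sum_split i, sum_split i]
  refine Finset.sum_congr rfl fun Y' _ => ?_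
  simp only [split_self, erase_split, split_update, pw_split]
  rw [← Finset.sum_mul]
  have h : ∑ x, α x * ∏ j, α (Y' j) = ∏ j, α (Y' j) := by
    rw [← Finset.sum_mul, hα, one_mul]
  rw [h, Finset.mul_sum]
  exact Finset.sum_congr rfl fun y _ => by ring

theorem sum_nx [Nonempty ι] {α β : Ω → ℝ} (hα : ∑ x, α x = 1) (F : (ι → Ω) → ℝ) :
    ∑ Y : ι → Ω, nx α β Y * F Y
      = (∑ i, ∑ Y : ι → Ω, pw α Y * ∑ y, β y * F (Function.update Y i y)) / Fintype.card ι := by
  have h : ∀ Y : ι → Ω, nx α β Y * F Y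
      = (∑ i, β (Y i) * (∏ j ∈ univ.erase i, α (Y j)) * F Y) / Fintype.card ι := by
    intro Y
    unfold nx
    rw [div_mul_eq_mul_div, Finset.sum_mul]
  simp only [h]
  rw [← Finset.sum_div, Finset.sum_comm]
  congr 1
  exact Finset.sum_congr rfl fun i _ => resample hα i F

theorem marg {α : Ω → ℝ} (hα : ∑ x, α x = 1) (i : ι) (f : Ω → ℝ) :
    ∑ Z : ι → Ω, pw α Z * f (Z i) = ∑ y, α y * f y := by
  rw [sum_split i]
  simp only [split_self, pw_split]
  have h : ∀ Y' : {j // j ≠ i} → Ω, ∑ y, α y * (∏ j, α (Y' j)) * f y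
      = pw α Y' * ∑ y, α y * f y := by
    intro Y'
    rw [Finset.mul_sum]
    exact Finset.sum_congr rfl fun y _ => by unfold pw; ring
  simp only [h]
  rw [← Finset.sum_mul, sum_pw hα, one_mul]

/-- exchange of the coordinates where `b` holds -/
def swp (b : ι → Bool) : ((ι → Ω) × (ι → Ω)) ≃ ((ι → Ω) × (ι → Ω)) where
  toFun p := (mix b p.1 p.2, mix b p.2 p.1)
  invFun p := (mix b p.1 p.2, mix b p.2 p.1)
  left_inv p := by
    refine Prod.ext ?_ ?_ <;> funext i <;> simp only [mix] <;> split_ifs <;> rfl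
  right_inv p := by
    refine Prod.ext ?_ ?_ <;> funext i <;> simp only [mix] <;> split_ifs <;> rfl

theorem exchange {α : Ω → ℝ} (hα : ∑ x, α x = 1) (b : ι → Bool) (i : ι)
    (F : (ι → Ω) → Ω → ℝ) :
    ∑ Y : ι → Ω, ∑ Y' : ι → Ω, pw α Y * pw α Y' * F (mix b Y Y') (mix b Y' Y i)
      = ∑ Y : ι → Ω, pw α Y * ∑ y, α y * F Y y := by
  have h1 : ∑ Y : ι → Ω, ∑ Y' : ι → Ω, pw α Y * pw α Y' * F (mix b Y Y') (mix b Y' Y i)
      = ∑ p : (ι → Ω) × (ι → Ω), pw α p.1 * pw α p.2 * F p.1 (p.2 i) := by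
    rw [← Fintype.sum_prod_type' (f := fun (Y Y' : ι → Ω) =>
      pw α Y * pw α Y' * F (mix b Y Y') (mix b Y' Y i)),
      ← Equiv.sum_comp (swp b) (fun p => pw α p.1 * pw α p.2 * F p.1 (p.2 i))]
    refine Finset.sum_congr rfl fun p _ => ?_
    have h2 : pw α p.1 * pw α p.2 = pw α (swp b p).1 * pw α (swp b p).2 := by
      unfold pw swp
      rw [← Finset.prod_mul_distrib, ← Finset.prod_mul_distrib]
      refine Finset.prod_congr rfl fun j _ => ?_
      simp only [Equiv.coe_fn_mk, mix]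
      split_ifs
      · ring
      · rfl
    rw [h2]
    rfl
  rw [h1, Fintype.sum_prod_type]
  refine Finset.sum_congr rfl fun Y _ => ?_
  have h3 : ∀ Y' : ι → Ω, pw α Y * pw α Y' * F Y (Y' i) = pw α Y * (pw α Y' * F Y (Y' i)) :=
    fun Y' => by ring
  simp only [h3]
  rw [← Finset.mul_sum, marg hα i (fun y => F Y y)]

theorem mix_flip (b : ι → Bool) (Y Y' : ι → Ω) (i : ι) :
    Function.update (mix b Y Y') i (mix b Y' Y i) = mix (flip1 b i) Y Y' := by
  funext j
  unfold mix flip1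
  by_cases h : j = i
  · subst h
    rw [Function.update_self, Function.update_self]
    cases b j <;> simp
  · rw [Function.update_of_ne h, Function.update_of_ne h]

theorem step_main [Nonempty ι] {V : Type} [Nonempty V] {α β : Ω → ℝ} (hα : ∀ x, 0 ≤ α x)
    (hα1 : ∑ x, α x = 1) (hβ : ∀ x, 0 ≤ β x) (hβ1 : ∑ x, β x = 1) (T : (ι → Ω) → Bool)
    (g : V → (ι → Ω) → Bool) (hT : ∀ Y, T Y = true ↔ ∃ v, g v Y = false) {C γ : ℝ}
    (hC : 0 ≤ C) (hγ : 0 ≤ γ)
    (hH : ∀ v (Y : ι → Ω) (i : ι), ∑ y, β y * bd (g v (Function.update Y i y)) ≤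
      C * ∑ y, α y * bd (g v (Function.update Y i y)) + γ)
    {Γ : Type} [Fintype Γ] (b : Γ → ι → Bool) (R : Γ → Finset ι) (n0 κ : ℕ) (hn0 : 0 < n0)
    (hR : open Classical in ∀ i, (Finset.univ.filter fun ρ => i ∈ R ρ).card = n0)
    (hcube : ∀ (Y Y' : ι → Ω) (c : (ι → Bool) → V), ∑ ρ, ((R ρ).filter fun i =>
      g (c (b ρ)) (mix (b ρ) Y Y') = false ∧
      g (c (b ρ)) (mix (flip1 (b ρ) i) Y Y') = true).card ≤ κ * n0) :
    ∑ Y : ι → Ω, pw α Y * bd (T Y) ≤
      ∑ Y : ι → Ω, nx α β Y * bd (T Y) + (γ + C * (κ / Fintype.card ι)) := by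
  classical
  have hM : (0 : ℝ) < Fintype.card ι := by exact_mod_cast Fintype.card_pos
  -- choice of a member of the family
  have hV : ∃ c0 : (ι → Ω) → V, ∀ Y, T Y = true → g (c0 Y) Y = false := by
    refine ⟨fun Y => if h : ∃ v, g v Y = false then h.choose else Classical.arbitrary V,
      fun Y hY => ?_⟩
    have h := (hT Y).1 hY
    simp only [dif_pos h]
    exact h.choose_spec
  obtain ⟨c0, hc0⟩ := hV
  set K : (ι → Ω) → ι → Ω → ℝ := fun Y i y =>
    bd (T Y) * bd (g (c0 Y) (Function.update Y i y)) with hK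
  -- the small term
  have hS : ∑ i, ∑ Y : ι → Ω, pw α Y * ∑ y, α y * K Y i y ≤ κ := by
    have h1 : (n0 : ℝ) * ∑ i, ∑ Y : ι → Ω, pw α Y * ∑ y, α y * K Y i y
        = ∑ ρ, ∑ i ∈ R ρ, ∑ Y : ι → Ω, pw α Y * ∑ y, α y * K Y i y := by
      have h2 : ∀ ρ, ∑ i ∈ R ρ, ∑ Y : ι → Ω, pw α Y * ∑ y, α y * K Y i y
          = ∑ i, if i ∈ R ρ then ∑ Y : ι → Ω, pw α Y * ∑ y, α y * K Y i y else 0 := by
        intro ρ
        rw [← Finset.sum_filter]
        congr 1
        ext i
        simp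
      simp only [h2]
      rw [Finset.mul_sum]
      conv_rhs => rw [Finset.sum_comm]
      refine Finset.sum_congr rfl fun i _ => ?_
      rw [← Finset.sum_filter, Finset.sum_const, hR i, nsmul_eq_mul]
    have h3 : ∀ ρ, ∑ i ∈ R ρ, ∑ Y : ι → Ω, pw α Y * ∑ y, α y * K Y i y
        = ∑ Y : ι → Ω, ∑ Y' : ι → Ω, pw α Y * pw α Y' *
          ∑ i ∈ R ρ, K (mix (b ρ) Y Y') i (mix (b ρ) Y' Y i) := by
      intro ρ
      have e : ∑ i ∈ R ρ, ∑ Y : ι → Ω, pw α Y * ∑ y, α y * K Y i y
          = ∑ i ∈ R ρ, ∑ Y : ι → Ω, ∑ Y' : ι → Ω, pw α Y * pw α Y' *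
            K (mix (b ρ) Y Y') i (mix (b ρ) Y' Y i) :=
        Finset.sum_congr rfl fun i _ => (exchange hα1 (b ρ) i (fun Y y => K Y i y)).symm
      rw [e, Finset.sum_comm]
      refine Finset.sum_congr rfl fun Y _ => ?_
      rw [Finset.sum_comm]
      refine Finset.sum_congr rfl fun Y' _ => ?_
      rw [Finset.mul_sum]
    have h4 : ∀ (Y Y' : ι → Ω), ∑ ρ, ∑ i ∈ R ρ, K (mix (b ρ) Y Y') i (mix (b ρ) Y' Y i)
        ≤ κ * n0 := by
      intro Y Y'
      have h5 := hcube Y Y' (fun b => c0 (mix b Y Y'))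
      have h6 : ∀ ρ, ∑ i ∈ R ρ, K (mix (b ρ) Y Y') i (mix (b ρ) Y' Y i) ≤
          (((R ρ).filter fun i => g (c0 (mix (b ρ) Y Y')) (mix (b ρ) Y Y') = false ∧
            g (c0 (mix (b ρ) Y Y')) (mix (flip1 (b ρ) i) Y Y') = true).card : ℝ) := by
        intro ρ
        rw [Finset.card_filter, Nat.cast_sum]
        refine Finset.sum_le_sum fun i _ => ?_
        simp only [hK, mix_flip]
        by_cases hTY : T (mix (b ρ) Y Y') = true
        · have h7 := hc0 _ hTY
          rw [hTY, bd_true, one_mul]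
          by_cases h8 : g (c0 (mix (b ρ) Y Y')) (mix (flip1 (b ρ) i) Y Y') = true
          · rw [if_pos ⟨h7, h8⟩, h8, bd_true]
            simp
          · rw [Bool.not_eq_true] at h8
            rw [h8, bd_false]
            exact Nat.cast_nonneg _
        · rw [Bool.not_eq_true] at hTY
          rw [hTY, bd_false, zero_mul]
          exact Nat.cast_nonneg _
      calc _ ≤ ∑ ρ, (((R ρ).filter fun i => g (c0 (mix (b ρ) Y Y')) (mix (b ρ) Y Y') = false ∧
            g (c0 (mix (b ρ) Y Y')) (mix (flip1 (b ρ) i) Y Y') = true).card : ℝ) :=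
            Finset.sum_le_sum fun ρ _ => h6 ρ
        _ ≤ κ * n0 := by exact_mod_cast h5
    have h7 : (n0 : ℝ) * ∑ i, ∑ Y : ι → Ω, pw α Y * ∑ y, α y * K Y i y ≤ n0 * κ := by
      rw [h1]
      simp only [h3]
      rw [Finset.sum_comm]
      have h8 : ∀ Y : ι → Ω, ∑ ρ, ∑ Y' : ι → Ω, pw α Y * pw α Y' *
          ∑ i ∈ R ρ, K (mix (b ρ) Y Y') i (mix (b ρ) Y' Y i) ≤ pw α Y * (κ * n0) := by
        intro Y
        rw [Finset.sum_comm]
        calc _ = ∑ Y' : ι → Ω, pw α Y * pw α Y' *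
              ∑ ρ, ∑ i ∈ R ρ, K (mix (b ρ) Y Y') i (mix (b ρ) Y' Y i) := by
                refine Finset.sum_congr rfl fun Y' _ => ?_
                rw [Finset.mul_sum]
          _ ≤ ∑ Y' : ι → Ω, pw α Y * pw α Y' * (κ * n0) := by
                refine Finset.sum_le_sum fun Y' _ => ?_
                exact mul_le_mul_of_nonneg_left (h4 Y Y')
                  (mul_nonneg (pw_nonneg hα Y) (pw_nonneg hα Y'))
          _ = _ := by
                rw [← Finset.sum_mul, ← Finset.mul_sum, sum_pw hα1, mul_one]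
      calc _ ≤ ∑ Y : ι → Ω, pw α Y * (κ * n0) := Finset.sum_le_sum fun Y _ => h8 Y
        _ = _ := by rw [← Finset.sum_mul, sum_pw hα1, one_mul, mul_comm]
    have hn : (0 : ℝ) < n0 := by exact_mod_cast hn0
    exact le_of_mul_le_mul_left h7 hn
  -- the main inequality
  have hmain : ∀ (Y : ι → Ω) (i : ι), bd (T Y) - γ * bd (T Y) - C * ∑ y, α y * K Y i y ≤
      ∑ y, β y * bd (T (Function.update Y i y)) := by
    intro Y i
    by_cases hTY : T Y = true
    · have h1 : 1 - ∑ y, β y * bd (g (c0 Y) (Function.update Y i y)) ≤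
          ∑ y, β y * bd (T (Function.update Y i y)) := by
        have h2 : (1 : ℝ) - ∑ y, β y * bd (g (c0 Y) (Function.update Y i y))
            = ∑ y, β y * (1 - bd (g (c0 Y) (Function.update Y i y))) := by
          simp only [mul_sub, mul_one, Finset.sum_sub_distrib, hβ1]
        rw [h2]
        refine Finset.sum_le_sum fun y _ => mul_le_mul_of_nonneg_left ?_ (hβ y)
        by_cases h3 : g (c0 Y) (Function.update Y i y) = true
        · rw [h3, bd_true, sub_self]
          exact bd_nonneg _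
        · rw [Bool.not_eq_true] at h3
          have h4 : T (Function.update Y i y) = true := (hT _).2 ⟨_, h3⟩
          rw [h3, h4, bd_false, bd_true, sub_zero]
      have h5 := hH (c0 Y) Y i
      have h6 : ∑ y, α y * K Y i y = ∑ y, α y * bd (g (c0 Y) (Function.update Y i y)) := by
        refine Finset.sum_congr rfl fun y _ => ?_
        simp only [hK, hTY, bd_true, one_mul]
      rw [h6, hTY, bd_true]
      linarith
    · rw [Bool.not_eq_true] at hTY
      have h6 : ∑ y, α y * K Y i y = 0 := by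
        refine Finset.sum_eq_zero fun y _ => ?_
        simp only [hK, hTY, bd_false, zero_mul, mul_zero]
      rw [h6, hTY, bd_false]
      simp only [mul_zero, sub_zero]
      exact Finset.sum_nonneg fun y _ => mul_nonneg (hβ y) (bd_nonneg _)
  set P := ∑ Y : ι → Ω, pw α Y * bd (T Y) with hP
  have hP1 : P ≤ 1 := by
    rw [hP, ← sum_pw (ι := ι) hα1]
    refine Finset.sum_le_sum fun Y _ => ?_
    have := mul_le_mul_of_nonneg_left (bd_le_one (T Y)) (pw_nonneg hα Y)
    linarith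
  have hfin : (Fintype.card ι : ℝ) * (P - γ * P) - C * κ ≤
      ∑ i, ∑ Y : ι → Ω, pw α Y * ∑ y, β y * bd (T (Function.update Y i y)) := by
    have h1 : ∀ i : ι, (P - γ * P) - C * ∑ Y : ι → Ω, pw α Y * ∑ y, α y * K Y i y ≤
        ∑ Y : ι → Ω, pw α Y * ∑ y, β y * bd (T (Function.update Y i y)) := by
      intro i
      have h2 : (P - γ * P) - C * ∑ Y : ι → Ω, pw α Y * ∑ y, α y * K Y i y
          = ∑ Y : ι → Ω, pw α Y * (bd (T Y) - γ * bd (T Y) - C * ∑ y, α y * K Y i y) := by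
        have h3 : ∀ Y : ι → Ω, pw α Y * (bd (T Y) - γ * bd (T Y) - C * ∑ y, α y * K Y i y)
            = pw α Y * bd (T Y) - γ * (pw α Y * bd (T Y))
              - C * (pw α Y * ∑ y, α y * K Y i y) := fun Y => by ring
        simp only [h3, Finset.sum_sub_distrib, ← Finset.mul_sum]
        rw [hP]
      rw [h2]
      exact Finset.sum_le_sum fun Y _ => mul_le_mul_of_nonneg_left (hmain Y i) (pw_nonneg hα Y)
    have h4 := Finset.sum_le_sum fun i (_ : i ∈ (univ : Finset ι)) => h1 i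
    rw [Finset.sum_sub_distrib, Finset.sum_const, Finset.card_univ, nsmul_eq_mul,
      ← Finset.mul_sum] at h4
    have h5 := mul_le_mul_of_nonneg_left hS hC
    linarith
  rw [sum_nx hα1 (fun Y => bd (T Y))]
  have h1 : (P - γ * P) - C * (κ / Fintype.card ι) ≤
      (∑ i, ∑ Y : ι → Ω, pw α Y * ∑ y, β y * bd (T (Function.update Y i y)))
        / Fintype.card ι := by
    rw [le_div_iff₀ hM]
    have : ((P - γ * P) - C * (κ / Fintype.card ι)) * Fintype.card ι
        = (Fintype.card ι : ℝ) * (P - γ * P) - C * κ := by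
      rw [sub_mul, mul_assoc C, div_mul_cancel₀ _ hM.ne']
      ring
    rw [this]
    exact hfin
  have h2 : γ * P ≤ γ := by
    have := mul_le_mul_of_nonneg_left hP1 hγ
    linarith
  linarith

end

end Pool.Agent.Lib.Pa76659G
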