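import Pool.Agent.Lib.Pa76659G.Defs
import Pool.Agent.Lib.Pa76659G.Step
import Pool.Agent.Lib.Pa76659G.Mwu
import Pool.Agent.Lib.Pa76659.LBReq

set_option autoImplicit false

/-!
The recursion on the dimension of the arrays: a machine that computes the negation of the
alternating value of an array has a test that separates any two distributions on its entries.
-/

namespace Pool.Agent.Lib.Pa76659G

open Pool.Agent.Lib.Pa76659 Finset

theorem KK_poly (r b : ℕ) : ∃ d, ∀ n ≥ 2, ∀ w t m, w ≤ n ^ b → t ≤ n ^ b → m ≤ n ^ b →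
    KK r w t m ≤ n ^ d := by
  obtain ⟨d, hd⟩ := poly_le
    ((Polynomial.X ^ b * Polynomial.C (r + 1) + Polynomial.X ^ b + Polynomial.C r
      + Polynomial.X ^ b + 1) *
      (8 * (Polynomial.X ^ b * Polynomial.C (r + 1) + Polynomial.X ^ b + Polynomial.C r
      + Polynomial.X ^ b) + 9) ^ (2 * r))
  refine ⟨d, fun n hn w t m hw ht hm => ?_⟩
  have h := hd n hn
  simp only [Polynomial.eval_add, Polynomial.eval_mul, Polynomial.eval_pow, Polynomial.eval_X,
    Polynomial.eval_C, Polynomial.eval_ofNat, Polynomial.eval_one] at h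
  refine le_trans ?_ h
  have h1 : ss r w t m ≤ n ^ b * (r + 1) + n ^ b + r + n ^ b := by
    unfold ss
    have := Nat.mul_le_mul_right (r + 1) hw
    omega
  unfold KK
  exact Nat.mul_le_mul (by omega) (Nat.pow_le_pow_left (by omega) _)

theorem Qv_succ {ι X : Type} (a : X → Bool) (j : ℕ) (Y : Arr ι X (j + 1)) :
    Qv a (j + 1) Y = true ↔ ∃ i, Qv a j (Y i) = false := by
  rw [Qv]
  exact @decide_eq_true_iff _ (Classical.propDecidable _)

section

variable {ι X : Type} [Fintype ι] [DecidableEq ι] [Nonempty ι] [Fintype X] [DecidableEq X]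

/-- distributions on the arrays, and the estimate for the tests -/
structure Inv (a : X → Bool) (r w t t' m : ℕ) (R : ∀ j, Set (Arr ι X j → Bool)) (j : ℕ)
    [Fintype (Arr ι X j)] (α β : Arr ι X j → ℝ) (C γ : ℝ) : Prop where
  a0 : ∀ x, 0 ≤ α x
  a1 : ∑ x, α x = 1
  b0 : ∀ x, 0 ≤ β x
  b1 : ∑ x, β x = 1
  sa : ∀ S, Qv a j S = false → α S = 0
  sb : ∀ S, Qv a j S = true → β S = 0
  hC : 0 ≤ C
  hg : 0 ≤ γ
  bound : γ + C * ((KK r w t m : ℝ) / Fintype.card ι) ≤
    1 / 4 + (t' + j) * ((KK r w t m : ℝ) / Fintype.card ι)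
  tst : ∀ T ∈ R j, ∑ S, β S * bd (T S) ≤ C * ∑ S, α S * bd (T S) + γ

theorem Inv.step {a : X → Bool} {r w t t' m : ℕ} (hm : Fintype.card ι ≤ 2 ^ m)
    {R : ∀ j, Set (Arr ι X j → Bool)} {j : ℕ} [hF : Fintype (Arr ι X j)]
    (hR : ∀ T ∈ R (j + 1), ∃ g : Fin (2 ^ w) → Arr ι X (j + 1) → Bool,
      (∀ Y, T Y = true ↔ ∃ v, g v Y = false) ∧
      (∀ v (Y : ι → Arr ι X j) (i : ι), (fun y => g v (Function.update Y i y)) ∈ R j) ∧
      ∀ v (Y Y' : ι → Arr ι X j), IsC Set.univ w t r (fun b : ι → Bool => g v (mix b Y Y')))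
    {α β : Arr ι X j → ℝ} {C γ : ℝ} (h : Inv a r w t t' m R j α β C γ) :
    ∃ (_ : Fintype (Arr ι X (j + 1))) (α' β' : Arr ι X (j + 1) → ℝ) (C' γ' : ℝ),
      Inv a r w t t' m R (j + 1) α' β' C' γ' := by
  classical
  have hM : (0 : ℝ) < Fintype.card ι := by exact_mod_cast Fintype.card_pos
  set ε : ℝ := (KK r w t m : ℝ) / Fintype.card ι with hε
  have hε0 : 0 ≤ ε := by positivity
  have hpn : ∀ Y : ι → Arr ι X j, 0 ≤ nx α β Y := by
    intro Y
    unfold nx
    refine div_nonneg (Finset.sum_nonneg fun i _ => mul_nonneg (h.b0 _) ?_) hM.le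
    exact Finset.prod_nonneg fun i _ => h.a0 _
  letI hF' : Fintype (Arr ι X (j + 1)) := (inferInstance : Fintype (ι → Arr ι X j))
  refine ⟨hF', (nx α β : (ι → Arr ι X j) → ℝ),
    (pw α : (ι → Arr ι X j) → ℝ), 1, γ + C * ε, ?_⟩
  refine ⟨hpn, ?_, pw_nonneg h.a0, sum_pw h.a1, ?_, ?_, zero_le_one, ?_, ?_, ?_⟩
  · have h1 := sum_nx (ι := ι) (β := β) h.a1 (fun _ => (1 : ℝ))
    simp only [mul_one] at h1
    refine h1.trans ?_
    rw [h.b1]
    simp only [mul_one]
    rw [sum_pw h.a1]
    simp only [Finset.sum_const, Finset.card_univ, nsmul_eq_mul, mul_one]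
    exact div_self hM.ne'
  · intro Y hY
    show nx α β Y = 0
    have h1 : ∀ i, Qv a j (Y i) = true := by
      intro i
      by_contra hcon
      rw [Bool.not_eq_true] at hcon
      have h2 : Qv a (j + 1) Y = true := (Qv_succ a j Y).2 ⟨i, hcon⟩
      rw [h2] at hY
      exact absurd hY (by simp)
    unfold nx
    rw [Finset.sum_eq_zero, zero_div]
    intro i _
    rw [h.sb _ (h1 i), zero_mul]
  · intro Y hY
    show pw α Y = 0
    obtain ⟨i, hi⟩ := (Qv_succ a j Y).1 hY
    exact Finset.prod_eq_zero (Finset.mem_univ i) (h.sa _ hi)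
  · have := h.hg
    have := h.hC
    positivity
  · have := h.bound
    push_cast
    linarith
  · intro T hT
    obtain ⟨g, hg1, hg2, hg3⟩ := hR T hT
    obtain ⟨Γ, hΓ, b, Rs, n0, hn0, hRs, hcube⟩ := cube ι r w t m hm
    have h1 := step_main (ι := ι) (Ω := Arr ι X j) (V := Fin (2 ^ w)) h.a0 h.a1 h.b0 h.b1 T g hg1
      h.hC h.hg (fun v Y i => h.tst _ (hg2 v Y i)) b Rs n0 (KK r w t m) hn0 hRs
      (fun Y Y' c => hcube (fun v b => g v (mix b Y Y')) (fun v => hg3 v Y Y') c)
    rw [one_mul]
    exact h1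

theorem rec_main (a : X → Bool) (r w t t' m : ℕ) (hm : Fintype.card ι ≤ 2 ^ m) (ht' : 1 ≤ t')
    (hbig : 4 * (t' + r) * KK r w t m ≤ Fintype.card ι) (R : ∀ j, Set (Arr ι X j → Bool))
    (hR : ∀ j < r, ∀ T ∈ R (j + 1), ∃ g : Fin (2 ^ w) → Arr ι X (j + 1) → Bool,
      (∀ Y, T Y = true ↔ ∃ v, g v Y = false) ∧
      (∀ v (Y : ι → Arr ι X j) (i : ι), (fun y => g v (Function.update Y i y)) ∈ R j) ∧
      ∀ v (Y Y' : ι → Arr ι X j), IsC Set.univ w t r (fun b : ι → Bool => g v (mix b Y Y')))
    (tests : Set (X → Bool))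
    (h0 : ∀ T ∈ R 0, ∃ ts : List (X → Bool), ts.length ≤ t' ∧ (∀ τ ∈ ts, τ ∈ tests) ∧
      ∀ x : X, T x = true ↔ ∃ τ ∈ ts, τ x = true)
    (T : Arr ι X r → Bool) (hTr : T ∈ R r) (hT : ∀ S, T S = !(Qv a r S))
    (D E : X → ℝ) (hD : ∀ x, 0 ≤ D x) (hD1 : ∑ x, D x = 1) (hDa : ∀ x, a x = false → D x = 0)
    (hE : ∀ x, 0 ≤ E x) (hE1 : ∑ x, E x = 1) (hEa : ∀ x, a x = true → E x = 0) :
    ∃ τ ∈ tests, ∑ x, D x * (if τ x = true then 1 else 0) + 1 / (4 * t') <
      ∑ x, E x * (if τ x = true then 1 else 0) := by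
  classical
  by_contra hcon
  push Not at hcon
  have hM : (0 : ℝ) < Fintype.card ι := by exact_mod_cast Fintype.card_pos
  have ht1 : (1 : ℝ) ≤ t' := by exact_mod_cast ht'
  have key : ∀ j ≤ r, ∃ (_ : Fintype (Arr ι X j)) (α β : Arr ι X j → ℝ) (C γ : ℝ),
      Inv a r w t t' m R j α β C γ := by
    intro j
    induction j with
    | zero =>
      intro _
      letI hF' : Fintype (Arr ι X 0) := (inferInstance : Fintype X)
      refine ⟨hF', D, E, t', 1 / 4, hD, hD1, hE, hE1, hDa, hEa,
        by positivity, by norm_num, ?_, ?_⟩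
      · push_cast
        linarith
      · intro T hT
        obtain ⟨ts, hts1, hts2, hts3⟩ := h0 T hT
        have h1 : ∀ x : X, bd (T x) ≤ (ts.map fun τ => bd (τ x)).sum := by
          intro x
          by_cases hx : T x = true
          · obtain ⟨τ, hτ, hτ2⟩ := (hts3 x).1 hx
            rw [hx, bd_true]
            have h2 : bd (τ x) ≤ (ts.map fun τ => bd (τ x)).sum :=
              List.single_le_sum (by
                intro y hy
                obtain ⟨σ, _, rfl⟩ := List.mem_map.1 hy
                exact bd_nonneg _) _ (List.mem_map.2 ⟨τ, hτ, rfl⟩)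
            rwa [hτ2, bd_true] at h2
          · rw [Bool.not_eq_true] at hx
            rw [hx, bd_false]
            apply List.sum_nonneg
            intro y hy
            obtain ⟨σ, _, rfl⟩ := List.mem_map.1 hy
            exact bd_nonneg _
        have h2 : ∀ τ ∈ ts, ∑ x, E x * bd (τ x) ≤ ∑ x, D x * bd (T x) + 1 / (4 * t') := by
          intro τ hτ
          have h3 := hcon τ (hts2 τ hτ)
          have h4 : ∑ x, D x * bd (τ x) ≤ ∑ x, D x * bd (T x) := by
            refine Finset.sum_le_sum fun x _ => mul_le_mul_of_nonneg_left ?_ (hD x)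
            by_cases hx : τ x = true
            · rw [hx, (hts3 x).2 ⟨τ, hτ, hx⟩]
            · rw [Bool.not_eq_true] at hx
              rw [hx, bd_false]
              exact bd_nonneg _
          have h5 : ∑ x, E x * bd (τ x) ≤ ∑ x, D x * bd (τ x) + 1 / (4 * t') := h3
          linarith
        show ∑ x : X, E x * bd (T x) ≤ t' * ∑ x : X, D x * bd (T x) + 1 / 4
        have h3 : ∑ x : X, E x * bd (T x) ≤ ∑ x : X, E x * (ts.map fun τ => bd (τ x)).sum :=
          Finset.sum_le_sum fun x _ => mul_le_mul_of_nonneg_left (h1 x) (hE x)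
        have h4 : ∀ l : List (X → Bool), ∑ x : X, E x * (l.map fun τ => bd (τ x)).sum
            = (l.map fun τ => ∑ x, E x * bd (τ x)).sum := by
          intro l
          induction l with
          | nil => simp
          | cons τ l ih =>
            simp only [List.map_cons, List.sum_cons, mul_add, Finset.sum_add_distrib, ih]
        have h5 : (ts.map fun τ => ∑ x, E x * bd (τ x)).sum ≤
            ts.length * (∑ x, D x * bd (T x) + 1 / (4 * t')) := by
          have h6 : ∀ l : List (X → Bool), (∀ τ ∈ l, ∑ x, E x * bd (τ x) ≤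
              ∑ x, D x * bd (T x) + 1 / (4 * t')) →
              (l.map fun τ => ∑ x, E x * bd (τ x)).sum ≤
              l.length * (∑ x, D x * bd (T x) + 1 / (4 * t')) := by
            intro l
            induction l with
            | nil => intro _; simp
            | cons τ l ih =>
              intro hl
              have h7 := hl τ (by simp)
              have h8 := ih fun σ hσ => hl σ (by simp [hσ])
              simp only [List.map_cons, List.sum_cons, List.length_cons]
              push_cast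
              linarith
          exact h6 ts h2
        have h6 : (0 : ℝ) ≤ ∑ x, D x * bd (T x) :=
          Finset.sum_nonneg fun x _ => mul_nonneg (hD x) (bd_nonneg _)
        have h7 : (ts.length : ℝ) ≤ t' := by exact_mod_cast hts1
        have h8 : (ts.length : ℝ) * (∑ x, D x * bd (T x) + 1 / (4 * t')) ≤
            t' * (∑ x, D x * bd (T x) + 1 / (4 * t')) :=
          mul_le_mul_of_nonneg_right h7 (by positivity)
        have h9 : (t' : ℝ) * (1 / (4 * t')) = 1 / 4 := by
          field_simp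
        have h10 : (t' : ℝ) * (∑ x, D x * bd (T x) + 1 / (4 * t'))
            = t' * ∑ x, D x * bd (T x) + 1 / 4 := by rw [mul_add, h9]
        rw [h4] at h3
        rw [h10] at h8
        linarith
    | succ j ih =>
      intro hj
      obtain ⟨hF, α, β, C, γ, hI⟩ := ih (by omega)
      exact hI.step hm (hR j (by omega))
  obtain ⟨hF, α, β, C, γ, hI⟩ := key r le_rfl
  have h1 := hI.tst T hTr
  have h2 : ∑ S, β S * bd (T S) = 1 := by
    rw [← hI.b1]
    refine Finset.sum_congr rfl fun S _ => ?_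
    rw [hT S]
    by_cases hS : Qv a r S = true
    · rw [hI.sb S hS, zero_mul]
    · rw [Bool.not_eq_true] at hS
      rw [hS]
      simp [bd]
  have h3 : ∑ S, α S * bd (T S) = 0 := by
    refine Finset.sum_eq_zero fun S _ => ?_
    rw [hT S]
    by_cases hS : Qv a r S = true
    · rw [hS]
      simp [bd]
    · rw [Bool.not_eq_true] at hS
      rw [hI.sa S hS, zero_mul]
  rw [h2, h3, mul_zero, zero_add] at h1
  have h4 := hI.bound
  have h5 : ((t' : ℝ) + r) * ((KK r w t m : ℝ) / Fintype.card ι) ≤ 1 / 4 := by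
    rw [← mul_div_assoc, div_le_iff₀ hM]
    have h6 : (4 : ℝ) * (t' + r) * KK r w t m ≤ Fintype.card ι := by exact_mod_cast hbig
    linarith
  have h6 : 0 ≤ C * ((KK r w t m : ℝ) / Fintype.card ι) :=
    mul_nonneg hI.hC (by positivity)
  linarith

/-- The form with a list of tests that separates by counting. -/
theorem sep_main (a : X → Bool) (r w t t' m n : ℕ) (hm : Fintype.card ι ≤ 2 ^ m)
    (hn : Fintype.card X ≤ 2 ^ n) (ht' : 1 ≤ t')
    (hbig : 4 * (t' + r) * KK r w t m ≤ Fintype.card ι) (R : ∀ j, Set (Arr ι X j → Bool))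
    (hR : ∀ j < r, ∀ T ∈ R (j + 1), ∃ g : Fin (2 ^ w) → Arr ι X (j + 1) → Bool,
      (∀ Y, T Y = true ↔ ∃ v, g v Y = false) ∧
      (∀ v (Y : ι → Arr ι X j) (i : ι), (fun y => g v (Function.update Y i y)) ∈ R j) ∧
      ∀ v (Y Y' : ι → Arr ι X j), IsC Set.univ w t r (fun b : ι → Bool => g v (mix b Y Y')))
    (tests : Set (X → Bool))
    (h0 : ∀ T ∈ R 0, ∃ ts : List (X → Bool), ts.length ≤ t' ∧ (∀ τ ∈ ts, τ ∈ tests) ∧
      ∀ x : X, T x = true ↔ ∃ τ ∈ ts, τ x = true)
    (T : Arr ι X r → Bool) (hTr : T ∈ R r) (hT : ∀ S, T S = !(Qv a r S)) :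
    ∃ (L : List (X → Bool)) (τ0 : ℕ), (∀ τ ∈ L, τ ∈ tests) ∧
      L.length ≤ 128 * t' ^ 2 * (n + 1) ∧ ∀ x, a x = false ↔ τ0 ≤ L.countP fun τ => τ x := by
  classical
  by_cases hP : ∀ x, a x = false
  · exact ⟨[], 0, by simp, by simp, fun x => by simp [hP x]⟩
  by_cases hN : ∀ x, a x = true
  · exact ⟨[], 1, by simp, by simp, fun x => by simp [hN x]⟩
  obtain ⟨x1, hx1⟩ := not_forall.1 hP
  obtain ⟨x2, hx2⟩ := not_forall.1 hN
  rw [Bool.not_eq_false] at hx1
  rw [Bool.not_eq_true] at hx2
  haveI : Nonempty {x // a x = true} := ⟨⟨x1, hx1⟩⟩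
  haveI : Nonempty {x // a x = false} := ⟨⟨x2, hx2⟩⟩
  rcases mwu_gen (P := {x // a x = true}) (N := {x // a x = false})
    (fun (τ : tests) x => τ.1 x.1) (fun (τ : tests) y => τ.1 y.1) n (4 * t') (by omega)
    ((Fintype.card_subtype_le _).trans hn) ((Fintype.card_subtype_le _).trans hn) with h | h
  · exfalso
    obtain ⟨D, E, hD, hD1, hE, hE1, h⟩ := h
    let D' : X → ℝ := fun x => if hx : a x = true then D ⟨x, hx⟩ else 0
    let E' : X → ℝ := fun x => if hx : a x = false then E ⟨x, hx⟩ else 0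
    have hsD : ∀ f : X → ℝ, ∑ x, D' x * f x = ∑ x : {x // a x = true}, D x * f x.1 := by
      intro f
      rw [← Finset.sum_filter_add_sum_filter_not univ (fun x => a x = true),
        Finset.sum_subtype (univ.filter fun x => a x = true) (p := fun x => a x = true)
          (by simp) (f := fun x => D' x * f x)]
      rw [Finset.sum_eq_zero (s := univ.filter fun x => ¬ a x = true), add_zero]
      · refine Finset.sum_congr rfl fun x _ => ?_
        simp only [D', dif_pos x.2]
      · intro x hx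
        have := (Finset.mem_filter.1 hx).2
        simp only [D', dif_neg this, zero_mul]
    have hsE : ∀ f : X → ℝ, ∑ x, E' x * f x = ∑ x : {x // a x = false}, E x * f x.1 := by
      intro f
      rw [← Finset.sum_filter_add_sum_filter_not univ (fun x => a x = false),
        Finset.sum_subtype (univ.filter fun x => a x = false) (p := fun x => a x = false)
          (by simp) (f := fun x => E' x * f x)]
      rw [Finset.sum_eq_zero (s := univ.filter fun x => ¬ a x = false), add_zero]
      · refine Finset.sum_congr rfl fun x _ => ?_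
        simp only [E', dif_pos x.2]
      · intro x hx
        have := (Finset.mem_filter.1 hx).2
        simp only [E', dif_neg this, zero_mul]
    obtain ⟨τ, hτ, hlt⟩ := rec_main a r w t t' m hm ht' hbig R hR tests h0 T hTr hT D' E'
      (fun x => by
        simp only [D']
        split_ifs
        · exact hD _
        · exact le_rfl)
      (by
        have := hsD fun _ => 1
        simp only [mul_one] at this
        rw [this, hD1])
      (fun x hx => by simp [D', hx])
      (fun x => by
        simp only [E']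
        split_ifs
        · exact hE _
        · exact le_rfl)
      (by
        have := hsE fun _ => 1
        simp only [mul_one] at this
        rw [this, hE1])
      (fun x hx => by simp [E', hx])
    rw [hsD, hsE] at hlt
    have h1 := h ⟨τ, hτ⟩
    push_cast at h1
    linarith
  · obtain ⟨L, τ0, hL, h1, h2⟩ := h
    refine ⟨L.map Subtype.val, τ0, ?_, ?_, ?_⟩
    · intro τ hτ
      obtain ⟨σ, _, rfl⟩ := List.mem_map.1 hτ
      exact σ.2
    · rw [List.length_map, hL]
      exact le_of_eq (by ring)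
    · intro x
      rw [List.countP_map]
      constructor
      · intro hx
        exact h1 ⟨x, hx⟩
      · intro hle
        by_contra hx
        rw [Bool.not_eq_false] at hx
        exact absurd hle (not_le.2 (h2 ⟨x, hx⟩))

end

end Pool.Agent.Lib.Pa76659G
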