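import Pool.Agent.Lib.Pa76659G.Circ
import Pool.Agent.Lib.Pa76659G.Rec

/-!
The level theorem: if a machine with patched oracles computes the alternating values of all tables
over `{0,1}^n`, then the complement of the language at length `n` is a threshold of few tests.
-/

set_option maxHeartbeats 4000000

namespace Pool.Agent.Lib.Pa76659G

open Pool.Agent.Lib.Pa76659

theorem FF_pad {p : PIx} {i : NIx} {w t s j w' : ℕ} (ht : 2 ≤ t) (hs : i.2.2.eval 0 ≤ s)
    (hw : w ≤ w') {F : Lang → Bool} (hF : F ∈ FF p i w t s (j + 1)) :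
    ∃ g : Fin (2 ^ w') → (Lang → Bool), (∀ v, g v ∈ FF p i w t s j) ∧
      ∀ O, F O = true ↔ ∃ v, g v O = false := by
  classical
  obtain ⟨g, h1, h2⟩ := hF
  have hle : 2 ^ w ≤ 2 ^ w' := Nat.pow_le_pow_right (by norm_num) hw
  refine ⟨fun v => if h : v.1 < 2 ^ w then g ⟨v.1, h⟩ else fun _ => true, fun v => ?_, fun O => ?_⟩
  · beta_reduce
    split_ifs with h
    · exact h1 _
    · exact FF_const p i w t s ht hs j true
  · rw [h2]
    constructor
    · rintro ⟨v, hv⟩
      refine ⟨⟨v.1, lt_of_lt_of_le v.2 hle⟩, ?_⟩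
      simp only [v.2, dite_true]
      exact hv
    · rintro ⟨v, hv⟩
      by_cases h : v.1 < 2 ^ w
      · simp only [h, dite_true] at hv
        exact ⟨_, hv⟩
      · simp [h] at hv

theorem exists_list {α β : Type} (Q : α → Prop) (V : α → β) : ∀ L : List β,
    (∀ f ∈ L, ∃ τ : α, Q τ ∧ f = V τ) → ∃ ts : List α, (∀ τ ∈ ts, Q τ) ∧ L = ts.map V
  | [], _ => ⟨[], by simp, rfl⟩
  | f :: L, h => by
      obtain ⟨τ, h1, h2⟩ := h f List.mem_cons_self
      obtain ⟨ts, h3, h4⟩ := exists_list Q V L (fun g hg => h g (List.mem_cons_of_mem _ hg))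
      refine ⟨τ :: ts, ?_, by rw [List.map_cons, h2, h4]⟩
      intro τ' hτ'
      rcases List.mem_cons.1 hτ' with h5 | h5
      · rw [h5]; exact h1
      · exact h3 τ' h5

/-- bounds for the length of a node and the size of the context after `d` steps -/
def Wd (W0 m : ℕ) : ℕ → ℕ
  | 0 => W0
  | d + 1 => 3 * Wd W0 m d + 2 * m + 2

def Sd (W0 m n r : ℕ) : ℕ → ℕ
  | 0 => 0
  | d + 1 => Sd W0 m n r d + (2 ^ m) ^ r * (3 ^ r * (Wd W0 m d + 2 * m + 2) + n + 1)

/-- functions of arrays -/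
def RR (Y G : Lang) (p : PIx) (i : NIx) (w t s W0 m n r j : ℕ) :
    Set (Arr (Idx m) (Idx n) j → Bool) :=
  {T | ∃ F ∈ FF p i w t s j, ∃ (u : Str) (a : List (Str × Str)), u.length ≤ Wd W0 m (r - j) ∧
    szL a ≤ Sd W0 m n r (r - j) ∧ T = fun S => F (join Y (patchL G (tabL j u S ++ a)))}

theorem finite_level (Y G A : Lang) (p : PIx) (i : NIx) (r n m w t s w2 t2 W0 : ℕ)
    (ht : 2 ≤ t) (hs : i.2.2.eval 0 ≤ s) (hw : w ≤ w2)
    (hC : ∀ (j : ℕ) (F : Lang → Bool), F ∈ FF p i w t s j →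
      ∃ S : Set Str, IsC S w2 t2 (j + 1) F)
    (hbig : 4 * (t + r) * KK r w2 t2 m ≤ 2 ^ m)
    (F : Lang → Bool) (hF : F ∈ FF p i w t s r) (u : Str) (hu : u.length ≤ W0)
    (hT : ∀ S : Arr (Idx m) (Idx n) r, F (join Y (patchL G (tabL r u S))) =
      !(Qv (fun x : Idx n => A x.1) r S)) :
    ∃ (θ : ℕ) (ts : List Test), θ ≤ 128 * t ^ 2 * (n + 1) + 1 ∧
      ts.length ≤ 128 * t ^ 2 * (n + 1) ∧
      (∀ τ ∈ ts, τ.size ≤ Wd W0 m r + Sd W0 m n r r + s + s + 1) ∧
      ∀ x : Str, x.length = n →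
        decide (θ ≤ ts.countP (fun τ => τ.val p i Y G x)) = !(A x) := by
  classical
  set B := Wd W0 m r + Sd W0 m n r r + s + s + 1 with hB
  have hcard : Fintype.card (Idx n) = 2 ^ n := by rw [card_vector, Fintype.card_bool]
  have hRR : ∀ j < r, ∀ T ∈ RR Y G p i w t s W0 m n r (j + 1),
      ∃ g : Fin (2 ^ w2) → Arr (Idx m) (Idx n) (j + 1) → Bool,
      (∀ Y, T Y = true ↔ ∃ v, g v Y = false) ∧
      (∀ v (S : Idx m → Arr (Idx m) (Idx n) j) (y : Idx m),
        (fun S' => g v (Function.update S y S')) ∈ RR Y G p i w t s W0 m n r j) ∧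
      ∀ v (S S' : Idx m → Arr (Idx m) (Idx n) j),
        IsC Set.univ w2 t2 r (fun b : Idx m → Bool => g v (mix b S S')) := by
    intro j hj T hT
    obtain ⟨F, hF, u, a, h1, h2, rfl⟩ := hT
    obtain ⟨g, hg, hg2⟩ := FF_pad ht hs hw hF
    refine ⟨fun v S => g v (join Y (patchL G (tabL (j + 1) u S ++ a))), fun S => hg2 _, ?_, ?_⟩
    · intro v S y
      refine ⟨g v, hg v, child u y.1, tabL (j + 1) u S ++ a, ?_, ?_, ?_⟩
      · have h3 : r - j = (r - (j + 1)) + 1 := by omega
        rw [h3, Wd]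
        have h4 := child_length_le u y.1
        rw [y.2] at h4
        omega
      · have h3 : r - j = (r - (j + 1)) + 1 := by omega
        rw [h3, Sd, szL_append]
        have h4 := szL_tab (j + 1) u S
        have h5 : (2 ^ m) ^ (j + 1) * (3 ^ (j + 1) * (u.length + 2 * m + 2) + n + 1) ≤
            (2 ^ m) ^ r * (3 ^ r * (Wd W0 m (r - (j + 1)) + 2 * m + 2) + n + 1) := by
          apply Nat.mul_le_mul
          · exact Nat.pow_le_pow_right (by positivity) (by omega)
          · have h6 : 3 ^ (j + 1) * (u.length + 2 * m + 2) ≤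
                3 ^ r * (Wd W0 m (r - (j + 1)) + 2 * m + 2) :=
              Nat.mul_le_mul (Nat.pow_le_pow_right (by norm_num) (by omega)) (by omega)
            omega
        omega
      · funext S'
        have h6 := patchL_congr (G := G) (look_update j u S y S' a)
        show g v (join Y (patchL G (tabL (j + 1) u (Function.update S y S') ++ a))) = _
        rw [h6]
    · intro v S S'
      obtain ⟨Z, hZ⟩ := hC j (g v) (hg v)
      exact mix_isC Y G (by omega) hZ j u S S' a
  have hbase : ∀ T ∈ RR Y G p i w t s W0 m n r 0, ∃ ts : List (Idx n → Bool),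
      ts.length ≤ t ∧
      (∀ τ ∈ ts, τ ∈ {f | ∃ τ : Test, τ.size ≤ B ∧ f = fun x => τ.val p i Y G x.1}) ∧
      ∀ x : Idx n, T x = true ↔ ∃ τ ∈ ts, τ x = true := by
    intro T hT
    obtain ⟨F, ⟨ts, hts1, hts2, hts3⟩, u, a, h1, h2, rfl⟩ := hT
    refine ⟨ts.map (fun τ => fun x : Idx n => Test.val p i Y G ⟨u, a, τ⟩ x.1), by simpa using hts1,
      ?_, ?_⟩
    · intro f hf
      obtain ⟨τ, hτ, rfl⟩ := List.mem_map.1 hf
      refine ⟨⟨u, a, τ⟩, ?_, rfl⟩
      obtain ⟨h3, h4⟩ := hts2 τ hτ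
      simp only [Test.size, hB]
      simp only [Nat.sub_zero] at h1 h2
      omega
    · intro x
      rw [hts3]
      simp only [List.mem_map, exists_exists_and_eq_and]
      rfl
  have hTT : (fun S => F (join Y (patchL G (tabL r u S ++ [])))) ∈
      RR Y G p i w t s W0 m n r r :=
    ⟨F, hF, u, [], by rw [Nat.sub_self]; exact hu, by simp [szL], rfl⟩
  have hT' : ∀ S : Arr (Idx m) (Idx n) r, F (join Y (patchL G (tabL r u S ++ []))) =
      !(Qv (fun x : Idx n => A x.1) r S) := by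
    intro S
    rw [List.append_nil]
    exact hT S
  obtain ⟨L, θ, hL1, hL2, hL3⟩ := sep_main (ι := Idx m) (X := Idx n) (fun x => A x.1) r w2 t2 t
    m n (by rw [card_vector, Fintype.card_bool]) hcard.le (by omega)
    (by rw [card_vector, Fintype.card_bool]; exact hbig)
    (RR Y G p i w t s W0 m n r) hRR {f | ∃ τ : Test, τ.size ≤ B ∧ f = fun x => τ.val p i Y G x.1}
    hbase _ hTT hT'
  obtain ⟨ts, hts1, hts2⟩ := exists_list (fun τ : Test => τ.size ≤ B)
    (fun τ : Test => fun x : Idx n => τ.val p i Y G x.1) L hL1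
  have hlen : ts.length ≤ 128 * t ^ 2 * (n + 1) := by
    rw [hts2, List.length_map] at hL2
    exact hL2
  have hcount : ∀ x : Idx n, L.countP (fun τ => τ x) =
      ts.countP (fun τ => τ.val p i Y G x.1) := by
    intro x
    rw [hts2, List.countP_map]
    rfl
  refine ⟨min θ (ts.length + 1), ts, ?_, hlen, hts1, fun x hx => ?_⟩
  · exact (min_le_right _ _).trans (by omega)
  · have h1 := hL3 ⟨x, hx⟩
    rw [hcount] at h1
    have h2 : ts.countP (fun τ => τ.val p i Y G x) ≤ ts.length := List.countP_le_length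
    cases hA : A x
    · have h3 := h1.1 hA
      simp only [Bool.not_false, decide_eq_true_eq]
      exact (min_le_left _ _).trans h3
    · have h3 : ¬ θ ≤ ts.countP (fun τ => τ.val p i Y G x) := fun h4 => by
        have h5 := h1.2 h4
        have h6 : A x = false := h5
        rw [hA] at h6
        simp at h6
      simp only [Bool.not_true, decide_eq_false_iff_not, le_min_iff, not_and_or] at *
      omega

end Pool.Agent.Lib.Pa76659G
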