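import Pool.Agent.Lib.Pa76659G.Intp

set_option autoImplicit false

/-!
Membership in `PO`, `NPO` in terms of the calculus; the hard languages `QL`; finite variations.
-/

namespace Pool.Agent.Lib.Pa76659G.PC

open Pool.Agent.Lib.Pa76659 (Str Lang Prog Cfg step runN Exec PO NPO inp inp2 Halts accepts Bdd Sig
  join PIx NIx pEval nEval)

variable {α : Type*} {orc : α → Lang}

/-! ### Contexts -/

/-- Change of variables for predicates with one more variable. -/
theorem PolyB.arg {D : α → Prop} {ctx : List (α → Str)} {φ : Str → Bool} {O : Lang}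
    (h : PolyB (fun _ : Str => O) (fun _ => True) [fun x => x] φ) {t : α → Str}
    (ht : PolyC (fun _ => O) D ctx t) : PolyB (fun _ => O) D ctx (fun a => φ (t a)) := by
  have h1 : PolyC (fun _ : α => O) D ([fun x : Str => x].map (fun f => f ∘ t)) (fun a => [φ (t a)]) :=
    PolyC.reindex (D' := D) h t (fun _ _ => trivial)
  refine PolyC.comp h1 ?_
  intro f hf
  simp only [List.map_cons, List.map_nil, List.mem_cons, List.not_mem_nil, or_false] at hf
  subst hf
  exact ht

theorem PolyC.arg {D : α → Prop} {ctx : List (α → Str)} {φ : Str → Str} {O : Lang}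
    (h : PolyC (fun _ : Str => O) (fun _ => True) [fun x => x] φ) {t : α → Str}
    (ht : PolyC (fun _ => O) D ctx t) : PolyC (fun _ => O) D ctx (fun a => φ (t a)) := by
  have h1 : PolyC (fun _ : α => O) D ([fun x : Str => x].map (fun f => f ∘ t)) (fun a => φ (t a)) :=
    PolyC.reindex (D' := D) h t (fun _ _ => trivial)
  refine PolyC.comp h1 ?_
  intro f hf
  simp only [List.map_cons, List.map_nil, List.mem_cons, List.not_mem_nil, or_false] at hf
  subst hf
  exact ht

theorem PolyB.arg2 {D : α → Prop} {ctx : List (α → Str)} {V : Str × Str → Bool} {O : Lang}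
    (h : PolyB (fun _ : Str × Str => O) (fun _ => True) [fun p => p.1, fun p => p.2] V)
    {s t : α → Str} (hs : PolyC (fun _ => O) D ctx s) (ht : PolyC (fun _ => O) D ctx t) :
    PolyB (fun _ => O) D ctx (fun a => V (s a, t a)) := by
  have h1 : PolyC (fun _ : α => O) D
      ([fun p : Str × Str => p.1, fun p => p.2].map (fun f => f ∘ fun a => (s a, t a)))
      (fun a => [V (s a, t a)]) :=
    PolyC.reindex (D' := D) h (fun a => (s a, t a)) (fun _ _ => trivial)
  refine PolyC.comp h1 ?_
  intro f hf
  simp only [List.map_cons, List.map_nil, List.mem_cons, List.not_mem_nil, or_false] at hf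
  rcases hf with rfl | rfl
  · exact hs
  · exact ht

/-! ### `PO` and `NPO` -/

theorem inp_eq (x : Str) : inp x = inp2 x [] := by
  funext r
  rcases r with _ | _ | r <;> simp [inp, inp2]

/-- A deterministic machine with a computable virtual oracle. -/
theorem PolyB.pEval {D : α → Prop} {ctx : List (α → Str)} (p : PIx)
    (O : α → Lang) (s : α → Str)
    (hO : PolyB (fun p : α × Str => orc p.1) (fun p => D p.1)
      (PC.lift ctx ++ [fun p => p.2]) (fun p => O p.1 p.2))
    (hs : PolyC orc D ctx s) : PolyB orc D ctx (fun a => Pa76659.pEval p (O a) (s a)) := by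
  have h := PolyB.accepts p.1 O s (fun _ => []) (fun a => p.2.eval (s a).length) hO hs PolyC.nil
    ((PolyN.length hs).poly p.2)
  refine h.congr ?_
  intro a _
  rw [Pa76659.pEval, inp_eq]

theorem PolyB.qry {O : Lang} {D : α → Prop} {ctx : List (α → Str)} {t : α → Str}
    (ht : PolyC (fun _ => O) D ctx t) : PolyB (fun _ => O) D ctx (fun a => O (t a)) :=
  PolyC.query ht

/-- The languages in `P`. -/
theorem polyB_of_PO {O L : Lang} (h : L ∈ PO O) {D : α → Prop} {ctx : List (α → Str)} {t : α → Str}
    (ht : PolyC (fun _ => O) D ctx t) : PolyB (fun _ => O) D ctx (fun a => L (t a)) := by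
  obtain ⟨p, hp⟩ := Pa76659.exists_pEval h
  have h1 := PolyB.pEval (orc := fun _ : α => O) (D := D) (ctx := ctx) p (fun _ => O) t
    (PolyB.qry (PolyC.var (by simp))) ht
  rw [hp]
  exact h1

/-- The languages in `NP`. -/
theorem exists_of_NPO {O L : Lang} (h : L ∈ NPO O) : ∃ (V : Str × Str → Bool) (q : Polynomial ℕ),
    PolyB (fun _ : Str × Str => O) (fun _ => True) [fun p => p.1, fun p => p.2] V ∧
      ∀ x, L x = true ↔ ∃ y : Str, y.length = q.eval x.length ∧ V (x, y) = true := by
  obtain ⟨M, p, q, hM⟩ := h
  refine ⟨fun z => accepts O M (inp2 z.1 z.2) (p.eval z.1.length), q, ?_, fun x => (hM x).2⟩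
  exact PolyB.accepts M (fun _ => O) (fun z : Str × Str => z.1) (fun z => z.2)
    (fun z => p.eval z.1.length) (PolyB.qry (PolyC.var (by simp))) (PolyC.var (by simp))
    (PolyC.var (by simp)) ((PolyN.length (PolyC.var (by simp))).poly p)

/-- Many-one reductions of `NP`. -/
theorem NPO_comp {O L : Lang} (h : L ∈ NPO O) {f : Str → Str}
    (hf : PolyC (fun _ : Str => O) (fun _ => True) [fun x => x] f) :
    (fun x => L (f x)) ∈ NPO O := by
  obtain ⟨V, q, hV, hL⟩ := exists_of_NPO h
  obtain ⟨pf, hpf⟩ := hf.length_le
  have hf' : PolyC (fun _ : Str × Str => O) (fun _ => True) [fun p => p.1, fun p => p.2]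
      (fun p => f p.1) := PolyC.arg hf (PolyC.var (by simp))
  have hy : PolyC (fun _ : Str × Str => O) (fun _ => True) [fun p => p.1, fun p => p.2]
      (fun p => p.2) := PolyC.var (by simp)
  have h1 := PolyB.natEq (PolyN.length hy) ((PolyN.length hf').poly q)
  have h2 := PolyB.arg2 hV hf' hy
  refine mem_NPO_le (q.comp pf) (h1.and h2) (fun x => ?_)
  show L (f x) = true ↔ _
  rw [hL]
  constructor
  · rintro ⟨y, hy, hv⟩
    refine ⟨y, ?_, ?_⟩
    · rw [hy, Polynomial.eval_comp]
      refine eval_mono q ?_
      have := hpf x trivial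
      simpa using this
    · simp only [hy, hv, decide_true, Bool.and_true]
  · rintro ⟨y, -, hv⟩
    simp only [Bool.and_eq_true, decide_eq_true_eq] at hv
    exact ⟨y, hv.1, hv.2⟩

/-! ### Finite sets -/

theorem PolyB.mem_list {D : α → Prop} {ctx : List (α → Str)} {t : α → Str}
    (ht : PolyC orc D ctx t) (l : List Str) : PolyB orc D ctx (fun a => decide (t a ∈ l)) := by
  induction l with
  | nil => exact (PolyB.const false).congr (fun a _ => by simp)
  | cons x l ih =>
    refine ((PolyB.strEq ht (PolyC.const x)).or ih).congr ?_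
    intro a _
    rw [Bool.eq_iff_iff]
    simp only [Bool.or_eq_true, decide_eq_true_eq, List.mem_cons]

/-- All strings of length less than `N`. -/
def allS : ℕ → List Str
  | 0 => []
  | N + 1 => [] :: (allS N).flatMap (fun l => [false :: l, true :: l])

theorem mem_allS (N : ℕ) (x : Str) : x.length < N → x ∈ allS N := by
  induction N generalizing x with
  | zero => intro h; omega
  | succ N ih =>
    intro h
    rcases x with _ | ⟨b, x⟩
    · simp [allS]
    · have := ih x (by simp only [List.length_cons] at h; omega)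
      rw [allS, List.mem_cons]
      right
      rw [List.mem_flatMap]
      refine ⟨x, this, ?_⟩
      cases b <;> simp

/-- Finitely many values. -/
theorem PolyB.finite {D : α → Prop} {ctx : List (α → Str)} {t : α → Str} (N : ℕ) (φ : Str → Bool)
    (ht : PolyC orc D ctx t) :
    PolyB orc D ctx (fun a => if (t a).length < N then φ (t a) else false) := by
  refine (PolyB.mem_list ht ((allS N).filter (fun x => decide (x.length < N) && φ x))).congr ?_
  intro a _
  rw [Bool.eq_iff_iff, decide_eq_true_eq, List.mem_filter]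
  constructor
  · rintro ⟨-, h⟩
    simp only [Bool.and_eq_true, decide_eq_true_eq] at h
    rw [if_pos h.1]
    exact h.2
  · intro h
    by_cases h1 : (t a).length < N
    · rw [if_pos h1] at h
      exact ⟨mem_allS N _ h1, by simp [h1, h]⟩
    · rw [if_neg h1] at h
      exact absurd h (by simp)

end Pool.Agent.Lib.Pa76659G.PC

namespace Pool.Agent.Lib.Pa76659G

open PC
open Pool.Agent.Lib.Pa76659

/-! ### The interface -/

/-- (P5) an oracle with a finite second part -/
theorem join_finite_mem {Y G : Lang} {N : ℕ} (h : ∀ v : Str, N ≤ v.length → G v = false) :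
    join Y G ∈ PO Y := by
  refine mem_PO ?_
  have hx : PolyC (fun _ : Str => Y) (fun _ => True) [fun x => x] (fun x => x) := PolyC.var (by simp)
  have h1 : PolyB (fun _ : Str => Y) (fun _ => True) [fun x => x]
      (fun x => if x.tail.length < N then G x.tail else false) := PolyB.finite N G hx.tail
  have h2 : PolyB (fun _ : Str => Y) (fun _ => True) [fun x => x] (fun x => Y x.tail) :=
    PolyC.query hx.tail
  refine PolyC.congr (PolyC.cases hx (u0 := fun _ => [false]) (u1 := fun x => [Y x.tail])
    (u2 := fun x => [if x.tail.length < N then G x.tail else false]) (PolyC.const _)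
    (h2.mono fun _ h => h.1) (h1.mono fun _ h => h.1)) ?_
  intro x _
  rcases x with _ | ⟨b, x⟩
  · rfl
  · cases b
    · rfl
    · show [if x.length < N then G x else false] = [G x]
      by_cases h3 : x.length < N
      · rw [if_pos h3]
      · rw [if_neg h3, h x (by omega)]

/-- (P5) -/
theorem NPPoly_mono {X Y : Lang} (h : X ∈ PO Y) : NPPoly X ⊆ NPPoly Y := by
  rintro B ⟨C, hC, a, r, ha, hB⟩
  exact ⟨C, NPO_subset h hC, a, r, ha, hB⟩

/-- (P4) finite variations -/
theorem NPPoly_fin {X B B' : Lang} (h : B ∈ NPPoly X) (N : ℕ)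
    (hN : ∀ x : Str, N ≤ x.length → B' x = B x) : B' ∈ NPPoly X := by
  obtain ⟨C, hC, a, r, ha, hB⟩ := h
  obtain ⟨V, q, hV, hL⟩ := exists_of_NPO hC
  refine ⟨fun z => if (fst z).length < N then B' (fst z) else C z, ?_, a, r, ha, fun x => ?_⟩
  · have hz : PolyC (fun _ : Str × Str => X) (fun _ => True) [fun p => p.1, fun p => p.2]
        (fun p => p.1) := PolyC.var (by simp)
    have h1 := PolyB.lt (PolyN.length (PolyC.fst hz)) (PolyN.const N)
    have h2 : PolyB (fun _ : Str × Str => X) (fun _ => True) [fun p => p.1, fun p => p.2]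
      (fun p => if (fst p.1).length < N then B' (fst p.1) else false) :=
      PolyB.finite N B' (PolyC.fst hz)
    refine mem_NPO q ((h1.and h2).or (h1.not.and hV)) (fun z => ?_)
    show (if (fst z).length < N then B' (fst z) else C z) = true ↔ _
    by_cases h3 : (fst z).length < N
    · simp only [if_pos h3, h3, decide_true, Bool.true_and, Bool.not_true, Bool.false_and,
        Bool.or_false]
      constructor
      · intro h4
        exact ⟨List.replicate (q.eval z.length) false, by simp, h4⟩
      · rintro ⟨y, -, h4⟩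
        exact h4
    · simp only [if_neg h3, h3, decide_false, Bool.false_and, Bool.not_false, Bool.true_and,
        Bool.false_or]
      exact hL z
  · show B' x = if (fst (pr x _)).length < N then _ else _
    rw [fst_pr]
    by_cases h3 : x.length < N
    · rw [if_pos h3]
    · rw [if_neg h3, hN x (by omega), hB x]

theorem on1_eq (n : ℕ) : on1 n = una n := rfl

theorem entry_polyC {O : Lang} {α : Type*} {D : α → Prop} {ctx : List (α → Str)} {t : α → Str}
    (ht : PolyC (fun _ => O) D ctx t) : PolyC (fun _ => O) D ctx (fun a => entry O (t a)) := by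
  have h1 : PolyN (fun _ => O) D ctx (fun a => (fst (fst (t a))).length) :=
    PolyN.length (PolyC.fst (PolyC.fst ht))
  refine PolyC.map_range h1 (φ := fun p : α × ℕ => O (false :: true :: pr (on1 p.2) (t p.1))) ?_
  refine PolyC.query (PolyC.cons _ (PolyC.cons _ (PolyC.pr (PolyC.var (by simp [on1_eq])) ?_)))
  exact (PolyC.lift ht (fun p hp => hp.1)).weakenRight _

theorem QL_succ (O : Lang) (j : ℕ) (w : Str) : QL O (j + 1) w = true ↔
    ∃ y : Str, y.length = (fst (snd (fst w))).length ∧
      QL O j (pr (fst w) (pr y (snd w))) = false := by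
  classical
  rw [QL]
  simp only [decide_eq_true_eq]

/-- (P1) -/
theorem QL_mem (O : Lang) : ∀ j : ℕ, QL O j ∈ Sig O j
  | 0 => by
    refine mem_PO ?_
    exact PolyC.query (PolyC.cons true (entry_polyC (PolyC.var (by simp))))
  | j + 1 => by
    refine ⟨QL O j, QL_mem O j, ?_⟩
    have hw : PolyC (fun _ : Str × Str => QL O j) (fun _ => True) [fun p => p.1, fun p => p.2]
      (fun p => p.1) := PolyC.var (by simp)
    have hy : PolyC (fun _ : Str × Str => QL O j) (fun _ => True) [fun p => p.1, fun p => p.2]
      (fun p => p.2) := PolyC.var (by simp)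
    have h1 : PolyB (fun _ : Str × Str => QL O j) (fun _ => True) [fun p => p.1, fun p => p.2]
        (fun p => QL O j (pr (fst p.1) (pr p.2 (snd p.1)))) :=
      PolyC.query (PolyC.pr (PolyC.fst hw) (PolyC.pr hy (PolyC.snd hw)))
    have h2 := PolyB.natEq (PolyN.length hy) (PolyN.length (PolyC.fst (PolyC.snd (PolyC.fst hw))))
    refine mem_NPO_le Polynomial.X (h2.and h1.not) (fun w => ?_)
    rw [Polynomial.eval_X]
    refine (QL_succ O j w).trans ?_
    constructor
    · rintro ⟨y, hy, hv⟩
      refine ⟨y, ?_, ?_⟩
      · rw [hy]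
        exact (fst_length_le _).trans ((snd_length_le _).trans (fst_length_le _))
      · simp only [hy, hv, decide_true, Bool.not_false, Bool.and_true]
    · rintro ⟨y, -, hv⟩
      simp only [Bool.and_eq_true, decide_eq_true_eq, Bool.not_eq_true'] at hv
      exact ⟨y, hv.1, hv.2⟩

/-- (P1) -/
theorem QL_not_mem (O : Lang) (j : ℕ) : (fun w => !(QL O j w)) ∈ Sig O (j + 1) := by
  refine ⟨QL O j, QL_mem O j, ?_⟩
  have hw : PolyC (fun _ : Str × Str => QL O j) (fun _ => True) [fun p => p.1, fun p => p.2]
    (fun p => p.1) := PolyC.var (by simp)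
  have h1 : PolyB (fun _ : Str × Str => QL O j) (fun _ => True) [fun p => p.1, fun p => p.2]
      (fun p => QL O j p.1) := PolyC.query hw
  refine mem_NPO 0 h1.not (fun w => ?_)
  simp

end Pool.Agent.Lib.Pa76659G
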