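import Pool.Agent.Lib.Pa76659G.Mem

set_option autoImplicit false

/-!
Threshold of tests over patched oracles is in `NP` (P2).
-/

namespace Pool.Agent.Lib.Pa76659G.PC

open Pool.Agent.Lib.Pa76659 (Str Lang Prog Cfg step runN Exec PO NPO inp inp2 Halts accepts Bdd Sig
  join PIx NIx pEval nEval)

variable {α : Type*} {orc : α → Lang}

/-- Code of an option. -/
def oc : Option Str → Str
  | none => []
  | some e => true :: e

/-- Code of an association list. -/
def ac (l : List (Str × Str)) : Str := lenc (l.map (fun e => pr e.1 e.2))

theorem ac_nil : ac [] = [] := rfl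

theorem ac_cons (e : Str × Str) (l : List (Str × Str)) : ac (e :: l) = pr (pr e.1 e.2) (ac l) := rfl

theorem nth_ac (l : List (Str × Str)) {k : ℕ} (hk : k < l.length) :
    nth (ac l) k = pr (l[k]).1 (l[k]).2 := by
  rw [ac, nth_lenc, List.getD_eq_getElem _ _ (by simpa using hk)]
  simp

theorem look_cons (e : Str × Str) (l : List (Str × Str)) (u : Str) :
    look (e :: l) u = if u = e.1 then some e.2 else look l u := rfl

theorem oc_look_length (l : List (Str × Str)) (u : Str) :
    (oc (look l u)).length ≤ (ac l).length := by
  induction l with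
  | nil => simp [look, oc]
  | cons e l ih =>
    rw [ac_cons, pr_length, pr_length]
    unfold look
    split
    · simp only [oc, List.length_cons]; omega
    · omega

/-- The association list of an arbitrary string. -/
def ra (c : Str) : List (Str × Str) :=
  (List.range (llen c)).map (fun k => (fst (nth c k), snd (nth c k)))

theorem ra_length (c : Str) : (ra c).length = llen c := by simp [ra]

theorem ra_get (c : Str) {k : ℕ} (hk : k < (ra c).length) :
    (ra c)[k] = (fst (nth c k), snd (nth c k)) := by simp [ra]

theorem ra_ac (l : List (Str × Str)) : ra (ac l) = l := by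
  have h1 : (ra (ac l)).length = l.length := by
    rw [ra_length, ac, llen_lenc]; simp
  apply List.ext_getElem h1
  intro k h2 h3
  rw [ra_get, nth_ac l h3, fst_pr, snd_pr]

theorem look_ra_length (c : Str) (u : Str) (j : ℕ) :
    (oc (look ((ra c).drop j) u)).length ≤ c.length + 1 := by
  have key : ∀ l : List (Str × Str), (∀ e ∈ l, e.2.length ≤ c.length) →
      (oc (look l u)).length ≤ c.length + 1 := by
    intro l
    induction l with
    | nil => intro _; simp [look, oc]
    | cons e l ih =>
      intro h
      rw [look_cons]
      split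
      · have := h e List.mem_cons_self
        simp only [oc, List.length_cons]; omega
      · exact ih (fun e' he' => h e' (List.mem_cons_of_mem _ he'))
  refine key _ ?_
  intro e he
  have h1 := List.mem_of_mem_drop he
  simp only [ra, List.mem_map] at h1
  obtain ⟨k, -, rfl⟩ := h1
  exact (snd_length_le _).trans (nth_length_le c k)

/-- Values in coded association lists. -/
theorem PolyC.look {D : α → Prop} {ctx : List (α → Str)} (c : α → Str) (u : α → Str)
    (hl : PolyC orc D ctx c) (hu : PolyC orc D ctx u) :
    PolyC orc D ctx (fun a => oc (Pa76659G.look (ra (c a)) (u a))) := by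
  obtain ⟨pl, hpl⟩ := hl.length_le
  have hn : PolyN orc D ctx (fun a => (ra (c a)).length) :=
    (PolyN.llen hl).congr (fun a _ => by rw [ra_length])
  have key : PolyC orc D ctx (fun a => oc (Pa76659G.look ((ra (c a)).drop ((ra (c a)).length - (ra (c a)).length)) (u a))) := by
    refine PolyC.natRec (n := fun a => (ra (c a)).length)
      (fun a j => oc (Pa76659G.look ((ra (c a)).drop ((ra (c a)).length - j)) (u a))) hn
      (PolyC.nil.congr (fun a _ => by
        rw [Nat.sub_zero, List.drop_length]
        rfl)) ?_ ⟨pl + 1, fun a ha j _ => ?_⟩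
    · set ctx' : List (α × ℕ → Str) := PC.lift ctx ++ [fun p => una p.2,
        fun p => oc (Pa76659G.look ((ra (c p.1)).drop ((ra (c p.1)).length - p.2)) (u p.1))] with hctx'
      have hF : PolyC (fun p : α × ℕ => orc p.1) (fun p : α × ℕ => D p.1 ∧ p.2 < (ra (c p.1)).length) ctx'
          (fun p => oc (Pa76659G.look ((ra (c p.1)).drop ((ra (c p.1)).length - p.2)) (u p.1))) :=
        PolyC.var (by simp [hctx'])
      have hj : PolyN (fun p : α × ℕ => orc p.1) (fun p : α × ℕ => D p.1 ∧ p.2 < (ra (c p.1)).length) ctx'
          (fun p => p.2) := PolyC.var (by simp [hctx'])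
      have hl' : PolyC (fun p : α × ℕ => orc p.1) (fun p : α × ℕ => D p.1 ∧ p.2 < (ra (c p.1)).length) ctx'
          (fun p => c p.1) := (hl.lift (fun p hp => hp.1)).weakenRight _
      have hu' : PolyC (fun p : α × ℕ => orc p.1) (fun p : α × ℕ => D p.1 ∧ p.2 < (ra (c p.1)).length) ctx'
          (fun p => u p.1) := (hu.lift (fun p hp => hp.1)).weakenRight _
      have hn' : PolyN (fun p : α × ℕ => orc p.1) (fun p : α × ℕ => D p.1 ∧ p.2 < (ra (c p.1)).length) ctx'
          (fun p => (ra (c p.1)).length) := (PolyC.lift hn (fun p hp => hp.1)).weakenRight _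
      have hk := PolyC.nth hl' (hn'.sub (hj.succ))
      refine (PolyC.ite (PolyB.strEq hu' (PolyC.fst hk))
        (PolyC.mono (PolyC.cons true (PolyC.snd hk)) fun _ h => h.1)
        (hF.mono fun _ h => h.1)).congr ?_
      rintro ⟨a, j⟩ ⟨-, hj⟩
      have hj : j < (ra (c a)).length := hj
      have h1 : (ra (c a)).length - (j + 1) < (ra (c a)).length := by omega
      have h2 : (ra (c a)).drop ((ra (c a)).length - (j + 1)) =
          (ra (c a))[(ra (c a)).length - (j + 1)] :: (ra (c a)).drop ((ra (c a)).length - j) := by
        rw [List.drop_eq_getElem_cons h1]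
        congr 2
        omega
      show (if decide (u a = Pa76659G.fst (PC.nth (c a) ((ra (c a)).length - (j + 1)))) = true then _ else _) =
        oc (Pa76659G.look ((ra (c a)).drop ((ra (c a)).length - (j + 1))) (u a))
      rw [h2, look_cons, ra_get]
      by_cases h3 : u a = Pa76659G.fst (PC.nth (c a) ((ra (c a)).length - (j + 1)))
      · rw [if_pos (by simpa using h3), if_pos h3]
        rfl
      · rw [if_neg (by simpa using h3), if_neg h3]
    · refine (look_ra_length _ _ _).trans ?_
      have h1 := hpl a ha
      rw [Polynomial.eval_add, Polynomial.eval_one]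
      omega
  exact key.congr (fun a _ => by rw [Nat.sub_self, List.drop_zero])

/-- Patched oracles. -/
theorem PolyB.patch {D : α → Prop} {ctx : List (α → Str)} {Y G : Lang} (c : α → Str)
    (v : α → Str) (hl : PolyC (fun _ => join Y G) D ctx c)
    (hv : PolyC (fun _ => join Y G) D ctx v) :
    PolyB (fun _ => join Y G) D ctx (fun a => join Y (patchL G (ra (c a))) (v a)) := by
  have ht := hv.tail
  have h1 : PolyB (fun _ : α => join Y G) D ctx (fun a => Y (v a).tail) := by
    have : PolyC (fun _ : α => join Y G) D ctx (fun a => [join Y G (false :: (v a).tail)]) :=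
      PolyC.query (PolyC.cons false ht)
    exact this
  have h2 : PolyB (fun _ : α => join Y G) D ctx (fun a => G (v a).tail) := by
    have : PolyC (fun _ : α => join Y G) D ctx (fun a => [join Y G (true :: (v a).tail)]) :=
      PolyC.query (PolyC.cons true ht)
    exact this
  have hk := PolyC.look c (fun a => snd (v a).tail) hl (PolyC.snd ht)
  have hi := PolyN.length (PolyC.fst ht)
  have h3 : PolyB (fun _ : α => join Y G) D ctx (fun a => patchL G (ra (c a)) (v a).tail) := by
    have h4 := PolyB.lt hi (PolyN.length hk.tail)
    have h5 := PolyB.getD hk.tail hi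
    have h6 : PolyC (fun _ : α => join Y G) D ctx (fun a =>
        if decide ((fst (v a).tail).length < (oc (Pa76659G.look (ra (c a)) (snd (v a).tail))).tail.length) = true
        then [(oc (Pa76659G.look (ra (c a)) (snd (v a).tail))).tail.getD (fst (v a).tail).length false]
        else [G (v a).tail]) :=
      PolyC.ite h4 (PolyC.mono h5 fun _ h => h.1) (PolyC.mono h2 fun _ h => h.1)
    refine PolyC.congr h6 ?_
    intro a _
    show _ = [patchL G (ra (c a)) (v a).tail]
    unfold patchL
    generalize Pa76659G.look (ra (c a)) (snd (v a).tail) = o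
    rcases o with _ | e
    · have : oc none = [] := rfl
      rw [this, if_neg (by simp)]
    · have : (oc (some e)).tail = e := rfl
      rw [this]
      by_cases h8 : (fst (v a).tail).length < e.length
      · rw [if_pos (by simpa using h8)]
        simp only [if_pos h8]
      · rw [if_neg (by simpa using h8)]
        simp only [if_neg h8]
  refine PolyC.congr (PolyC.cases hv (u0 := fun _ => [false]) (u1 := fun a => [Y (v a).tail])
    (u2 := fun a => [patchL G (ra (c a)) (v a).tail]) (PolyC.const _)
    (PolyC.mono h1 fun _ h => h.1) (PolyC.mono h3 fun _ h => h.1)) ?_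
  intro a _
  show _ = [join Y (patchL G (ra (c a))) (v a)]
  rcases v a with _ | ⟨b, w⟩
  · rfl
  · cases b <;> rfl

/-- Nested machines with a patched oracle. -/
theorem PolyB.acc {D : α → Prop} {ctx : List (α → Str)} {Y G : Lang} (p : PIx) (i : NIx)
    (c : α → Str) (u y : α → Str)
    (hl : PolyC (fun _ => join Y G) D ctx c)
    (hu : PolyC (fun _ => join Y G) D ctx u) (hy : PolyC (fun _ => join Y G) D ctx y) :
    PolyB (fun _ => join Y G) D ctx
      (fun a => Pa76659G.acc p i (join Y (patchL G (ra (c a)))) (u a) (y a)) := by
  refine PolyB.accepts i.1 (fun a => Pa76659.pEval p (join Y (patchL G (ra (c a))))) u y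
    (fun a => i.2.1.eval (u a).length) ?_ hu hy ((PolyN.length hu).poly _)
  have hl1 : PolyC (fun _ : α × Str => join Y G) (fun p => D p.1) (PC.lift ctx ++ [fun p => p.2])
      (fun p => c p.1) := (hl.lift (fun p hp => hp)).weakenRight _
  refine PolyB.pEval (orc := fun _ : α × Str => join Y G) p
    (fun q => join Y (patchL G (ra (c q.1)))) (fun q => q.2) ?_ (PolyC.var (by simp))
  have hl2 : PolyC (fun _ : (α × Str) × Str => join Y G) (fun p => D p.1.1)
      (PC.lift (PC.lift ctx ++ [fun p => p.2]) ++ [fun p => p.2]) (fun p => c p.1.1) :=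
    (hl1.lift (fun p hp => hp)).weakenRight _
  exact PolyB.patch (fun q : (α × Str) × Str => c q.1.1) (fun q => q.2) hl2 (PolyC.var (by simp))

instance : Inhabited Test := ⟨⟨[], [], (true, [], [])⟩⟩

/-- Code of a test. -/
def encT (τ : Test) : Str := pr τ.w (pr (ac τ.a) (pr [τ.t.1] (pr τ.t.2.1 τ.t.2.2)))

/-- Length of the coded association list. -/
theorem ac_length (l : List (Str × Str)) : (ac l).length ≤ 4 * szL l := by
  induction l with
  | nil => simp [ac]
  | cons e l ih =>
    rw [ac_cons, pr_length, pr_length]
    unfold szL at ih ⊢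
    rw [List.map_cons, List.sum_cons]
    omega

theorem encT_length (τ : Test) : (encT τ).length ≤ 10 * τ.size := by
  unfold encT Test.size
  simp only [pr_length, List.length_singleton]
  have := ac_length τ.a
  omega

/-- Sum of the sizes of a list of tests. -/
def szT (ts : List Test) : ℕ := (ts.map Test.size).sum

theorem lenc_encT_length (ts : List Test) : (lenc (ts.map encT)).length ≤ 21 * szT ts := by
  induction ts with
  | nil => simp
  | cons τ ts ih =>
    rw [List.map_cons, lenc_cons, pr_length]
    have h1 := encT_length τ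
    have h2 : 1 ≤ τ.size := by unfold Test.size; omega
    unfold szT at ih ⊢
    rw [List.map_cons, List.sum_cons]
    omega

/-- The evaluation of one coded test with a witness. -/
noncomputable def evT (p : PIx) (i : NIx) (Y G : Lang) (x : Str) (τ : Test) (y : Str) : Bool :=
  if τ.t.1 = true then decide (y.length = i.2.2.eval τ.t.2.1.length) &&
    acc p i (join Y (patchL G ((τ.w, x) :: τ.a))) τ.t.2.1 y
  else !(acc p i (join Y (patchL G ((τ.w, x) :: τ.a))) τ.t.2.1 τ.t.2.2)

theorem evT_val (p : PIx) (i : NIx) (Y G : Lang) (x : Str) (τ : Test) :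
    τ.val p i Y G x = true ↔ ∃ y : Str, y.length ≤ i.2.2.eval τ.t.2.1.length ∧
      evT p i Y G x τ y = true := by
  classical
  unfold Test.val lit evT
  by_cases h : τ.t.1 = true
  · simp only [if_pos h]
    unfold Pa76659.nEval acc
    simp only [decide_eq_true_eq, Bool.and_eq_true]
    constructor
    · rintro ⟨y, h1, h2⟩
      exact ⟨y, h1.le, h1, h2⟩
    · rintro ⟨y, -, h1, h2⟩
      exact ⟨y, h1, h2⟩
  · simp only [if_neg h]
    constructor
    · intro h1
      exact ⟨[], by simp, h1⟩
    · rintro ⟨y, -, h1⟩
      exact h1

theorem val_of_evT {p : PIx} {i : NIx} {Y G : Lang} {x : Str} {τ : Test} {y : Str}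
    (h : evT p i Y G x τ y = true) : τ.val p i Y G x = true := by
  rw [evT_val]
  unfold evT at h ⊢
  by_cases h1 : τ.t.1 = true
  · simp only [if_pos h1, Bool.and_eq_true, decide_eq_true_eq] at h ⊢
    exact ⟨y, h.1.le, h⟩
  · simp only [if_neg h1] at h ⊢
    exact ⟨[], by simp, h⟩

/-- The evaluation of a raw code of a test. -/
noncomputable def evR (p : PIx) (i : NIx) (Y G : Lang) (x c y : Str) : Bool :=
  if (fst (snd (snd c))).headD false = true then
    decide (y.length = i.2.2.eval (fst (snd (snd (snd c)))).length) &&
    acc p i (join Y (patchL G (ra (pr (pr (fst c) x) (fst (snd c)))))) (fst (snd (snd (snd c)))) y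
  else !(acc p i (join Y (patchL G (ra (pr (pr (fst c) x) (fst (snd c))))))
    (fst (snd (snd (snd c)))) (snd (snd (snd (snd c)))))

theorem evR_encT (p : PIx) (i : NIx) (Y G : Lang) (x y : Str) (τ : Test) :
    evR p i Y G x (encT τ) y = evT p i Y G x τ y := by
  unfold evR evT encT
  simp only [fst_pr, snd_pr, List.headD_cons]
  have : ra (pr (pr τ.w x) (ac τ.a)) = (τ.w, x) :: τ.a := ra_ac ((τ.w, x) :: τ.a)
  rw [this]

theorem PolyB.evR {D : α → Prop} {ctx : List (α → Str)} {Y G : Lang} (p : PIx) (i : NIx)
    (x c y : α → Str) (hx : PolyC (fun _ => join Y G) D ctx x)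
    (hc : PolyC (fun _ => join Y G) D ctx c) (hy : PolyC (fun _ => join Y G) D ctx y) :
    PolyB (fun _ => join Y G) D ctx (fun a => PC.evR p i Y G (x a) (c a) (y a)) := by
  have h1 := PolyC.snd hc
  have h2 := PolyC.snd h1
  have h3 := PolyC.snd h2
  have hu := PolyC.fst h3
  have hl := PolyC.pr (PolyC.pr (PolyC.fst hc) hx) (PolyC.fst h1)
  refine PolyB.ite (PolyB.headD (PolyC.fst h2)) ?_ ?_
  · exact PolyC.mono ((PolyB.natEq (PolyN.length hy) ((PolyN.length hu).poly _)).and
      (PolyB.acc p i _ _ _ hl hu hy)) fun _ h => h.1
  · exact PolyC.mono (PolyB.acc p i _ _ _ hl hu (PolyC.snd h3)).not fun _ h => h.1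

theorem countP_range {β : Type} [Inhabited β] (P : β → Bool) (l : List β) :
    ((List.range l.length).filter (fun k => P (l.getD k default))).length = l.countP P := by
  induction l with
  | nil => rfl
  | cons b l ih =>
    rw [List.length_cons, List.range_succ_eq_map, List.filter_cons, List.filter_map,
      List.countP_cons, ← ih]
    have h : (List.filter ((fun k => P ((b :: l).getD k default)) ∘ Nat.succ) (List.range l.length)) =
      List.filter (fun k => P (l.getD k default)) (List.range l.length) := rfl
    by_cases hb : P b = true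
    · rw [if_pos (by simpa using hb), List.length_cons, List.length_map, h, if_pos hb]
    · rw [if_neg (by simpa using hb), List.length_map, h, if_neg hb, Nat.add_zero]

theorem filter_length_le {l : List ℕ} {P Q : ℕ → Bool} (h : ∀ k ∈ l, P k = true → Q k = true) :
    (l.filter P).length ≤ (l.filter Q).length := by
  induction l with
  | nil => simp
  | cons a l ih =>
    have ih' := ih (fun k hk => h k (List.mem_cons_of_mem _ hk))
    have ha := h a List.mem_cons_self
    rw [List.filter_cons, List.filter_cons]
    by_cases h1 : P a = true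
    · rw [if_pos h1, if_pos (ha h1)]
      simp only [List.length_cons]; omega
    · rw [if_neg h1]
      split
      · simp only [List.length_cons]; omega
      · exact ih'

end Pool.Agent.Lib.Pa76659G.PC

namespace Pool.Agent.Lib.Pa76659G

open PC
open Pool.Agent.Lib.Pa76659

/-- The code of a threshold and a list of tests. -/
def encL (th : ℕ) (ts : List Test) : Str := pr (on1 th) (lenc (ts.map encT))

theorem encL_length (th : ℕ) (ts : List Test) : (encL th ts).length ≤ 2 * th + 1 + 21 * szT ts := by
  rw [encL, pr_length, on1_eq, un_length]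
  have := lenc_encT_length ts
  omega

/-- (P2) -/
theorem thr_mem0 (Y G : Lang) (p : PIx) (i : NIx) : ∃ C ∈ NPO (join Y G), ∀ (x : Str) (th : ℕ)
    (ts : List Test), C (pr x (encL th ts)) = decide (th ≤ ts.countP (fun τ => τ.val p i Y G x)) := by
  classical
  let V : Str × Str → Bool := fun z =>
    decide ((fst (snd z.1)).length ≤ ((List.range (llen (snd (snd z.1)))).filter
      (fun k => PC.evR p i Y G (fst z.1) (nth (snd (snd z.1)) k) (nth z.2 k))).length)
  let q : Polynomial ℕ := Polynomial.X * (2 * i.2.2 + 1)
  have hV : PolyB (fun _ : Str × Str => join Y G) (fun _ => True) [fun p => p.1, fun p => p.2] V := by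
    have hz : PolyC (fun _ : Str × Str => join Y G) (fun _ => True) [fun p => p.1, fun p => p.2]
      (fun p => p.1) := PolyC.var (by simp)
    have hy : PolyC (fun _ : Str × Str => join Y G) (fun _ => True) [fun p => p.1, fun p => p.2]
      (fun p => p.2) := PolyC.var (by simp)
    refine PolyB.le (PolyN.length (PolyC.fst (PolyC.snd hz))) ?_
    refine PolyN.count (φ := fun w : (Str × Str) × ℕ => PC.evR p i Y G (fst w.1.1)
      (nth (snd (snd w.1.1)) w.2) (nth w.1.2 w.2)) (PolyN.llen (PolyC.snd (PolyC.snd hz))) ?_
    have hz' := (hz.lift (D' := fun w : (Str × Str) × ℕ => True ∧ w.2 < llen (snd (snd w.1.1)))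
      (fun p hp => hp.1)).weakenRight [fun p => una p.2]
    have hy' := (hy.lift (D' := fun w : (Str × Str) × ℕ => True ∧ w.2 < llen (snd (snd w.1.1)))
      (fun p hp => hp.1)).weakenRight [fun p => una p.2]
    exact PolyB.evR p i _ _ _ (PolyC.fst hz')
      (PolyC.nth (PolyC.snd (PolyC.snd hz')) (PolyC.var (by simp)))
      (PolyC.nth hy' (PolyC.var (by simp)))
  refine ⟨fun z => decide (∃ y : Str, y.length ≤ q.eval z.length ∧ V (z, y) = true),
    mem_NPO_le q hV (fun z => by simp), ?_⟩
  intro x th ts
  rw [Bool.eq_iff_iff, decide_eq_true_eq, decide_eq_true_eq]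
  have hll : llen (snd (snd (pr x (encL th ts)))) = ts.length := by
    rw [snd_pr, encL, snd_pr, llen_lenc, List.length_map]
  have hth : (fst (snd (pr x (encL th ts)))).length = th := by
    rw [snd_pr, encL, fst_pr, on1_eq, un_length]
  have hnth : ∀ k < ts.length, nth (snd (snd (pr x (encL th ts)))) k = encT (ts.getD k default) := by
    intro k hk
    rw [snd_pr, encL, snd_pr, nth_lenc, List.getD_eq_getElem _ _ (by simpa using hk),
      List.getD_eq_getElem _ _ hk, List.getElem_map]
  have hcnt : ts.countP (fun τ => τ.val p i Y G x) =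
      ((List.range ts.length).filter (fun k => (ts.getD k default).val p i Y G x)).length :=
    (countP_range (fun τ => τ.val p i Y G x) ts).symm
  rw [hcnt]
  constructor
  · rintro ⟨W, -, hW⟩
    simp only [V, decide_eq_true_eq, hll, hth, fst_pr] at hW
    refine hW.trans (filter_length_le ?_)
    intro k hk h1
    rw [hnth k (List.mem_range.1 hk), evR_encT] at h1
    exact val_of_evT h1
  · intro h
    have hex : ∀ τ : Test, ∃ y : Str, y.length ≤ i.2.2.eval τ.t.2.1.length ∧
        (τ.val p i Y G x = true → evT p i Y G x τ y = true) := by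
      intro τ
      by_cases h1 : τ.val p i Y G x = true
      · obtain ⟨y, h2, h3⟩ := evT_val p i Y G x τ |>.1 h1
        exact ⟨y, h2, fun _ => h3⟩
      · exact ⟨[], by simp, fun h2 => absurd h2 h1⟩
    choose y hy1 hy2 using hex
    refine ⟨lenc (ts.map y), ?_, ?_⟩
    · have h1 : ∀ l : List Test, (∀ τ ∈ l, (y τ).length ≤ i.2.2.eval (pr x (encL th ts)).length) →
          (lenc (l.map y)).length ≤ l.length * (2 * i.2.2.eval (pr x (encL th ts)).length + 1) := by
        intro l
        induction l with
        | nil => simp
        | cons τ l ih =>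
          intro hl
          have h2 := ih (fun σ hσ => hl σ (List.mem_cons_of_mem _ hσ))
          have h3 := hl τ List.mem_cons_self
          rw [List.map_cons, lenc_cons, pr_length, List.length_cons, Nat.add_mul, Nat.one_mul]
          omega
      have h4 : ∀ τ ∈ ts, τ.t.2.1.length ≤ (pr x (encL th ts)).length := by
        intro τ hτ
        have h5 : (encT τ).length ≤ (lenc (ts.map encT)).length := by
          obtain ⟨k, hk, rfl⟩ := List.getElem_of_mem hτ
          have h6 : encT ts[k] = nth (lenc (ts.map encT)) k := by
            rw [nth_lenc, List.getD_eq_getElem _ _ (by simpa using hk), List.getElem_map]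
          rw [h6]
          exact nth_length_le _ _
        have h7 : τ.t.2.1.length ≤ (encT τ).length := by
          unfold encT
          simp only [pr_length]
          omega
        rw [encL, pr_length, pr_length]
        omega
      refine (h1 ts (fun τ hτ => (hy1 τ).trans (eval_mono _ (h4 τ hτ)))).trans ?_
      have h8 : ts.length ≤ (pr x (encL th ts)).length := by
        have h9 := length_le_lenc (ts.map encT)
        rw [List.length_map] at h9
        rw [encL, pr_length, pr_length]
        omega
      simp only [q, Polynomial.eval_mul, Polynomial.eval_X, Polynomial.eval_add,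
        Polynomial.eval_ofNat, Polynomial.eval_one]
      exact Nat.mul_le_mul_right _ h8
    · simp only [V, decide_eq_true_eq, hll, hth, fst_pr]
      refine h.trans (filter_length_le ?_)
      intro k hk h1
      have hk' := List.mem_range.1 hk
      rw [hnth k hk', evR_encT, nth_lenc, List.getD_eq_getElem ts _ hk',
        List.getD_eq_getElem (ts.map y) _ (by simpa using hk'), List.getElem_map]
      rw [List.getD_eq_getElem ts _ hk'] at h1
      exact hy2 _ h1

end Pool.Agent.Lib.Pa76659G
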