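import Pool.Agent.Lib.Pa76659G.Core
import Pool.Agent.Lib.Pa76659G.Mem
import Pool.Agent.Lib.Pa76659G.Thr
import Pool.Agent.Lib.Pa76659.LBReq

/-!
The core theorem: parameters, and the conclusion in terms of nonuniform classes.
-/

set_option maxHeartbeats 4000000

namespace Pool.Agent.Lib.Pa76659G

open Pool.Agent.Lib.Pa76659

theorem root_length (n m L : ℕ) : (root n m L).length = 4 * n + 4 * m + 2 * L + 5 := by
  unfold root on1
  rw [pr_length, pr_length, pr_length]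
  simp only [List.length_replicate, List.length_nil]
  ring

/-- logarithmic numbers of index bits -/
theorem exists_m (e : ℕ) : ∃ n1 : ℕ, ∀ n : ℕ, n1 ≤ n → ∃ m ≤ n, (n + 2) ^ e ≤ 2 ^ m ∧
    2 ^ m ≤ (n + 2) ^ (2 * e) := by
  obtain ⟨n0, hn0⟩ := pow_le_two_pow (2 * e + 2)
  refine ⟨max n0 4, fun n hn => ⟨e * (Nat.log 2 (n + 2) + 1), ?_, ?_, ?_⟩⟩
  · have h1 := hn0 n (le_trans (le_max_left _ _) hn)
    have h4 : 4 ≤ n := le_trans (le_max_right _ _) hn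
    have h2 : 2 ^ (e * (Nat.log 2 (n + 2) + 1)) ≤ 2 ^ n := by
      refine le_trans ?_ h1
      rw [mul_comm, pow_mul]
      have h3 : 2 ^ (Nat.log 2 (n + 2) + 1) ≤ n ^ 2 := by
        rw [pow_succ]
        have h5 := Nat.pow_log_le_self 2 (show n + 2 ≠ 0 by omega)
        nlinarith
      calc (2 ^ (Nat.log 2 (n + 2) + 1)) ^ e ≤ (n ^ 2) ^ e := Nat.pow_le_pow_left h3 _
        _ = n ^ (2 * e) := by rw [← pow_mul]
        _ ≤ n ^ (2 * e + 2) := Nat.pow_le_pow_right (by omega) (by omega)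
    exact (Nat.pow_le_pow_iff_right (by norm_num)).1 h2
  · rw [mul_comm, pow_mul]
    exact Nat.pow_le_pow_left (Nat.lt_pow_succ_log_self (by norm_num) _).le _
  · rw [mul_comm, pow_mul, pow_mul]
    apply Nat.pow_le_pow_left
    rw [pow_succ]
    have h5 := Nat.pow_log_le_self 2 (show n + 2 ≠ 0 by omega)
    nlinarith

theorem Wd_poly (c : ℕ) : ∀ r : ℕ, ∃ d : ℕ, ∀ N : ℕ, 2 ≤ N → ∀ W0 m : ℕ, W0 ≤ N ^ c → m ≤ N →
    ∀ k ≤ r, Wd W0 m k ≤ N ^ d
  | 0 => ⟨c, fun N _ W0 m h _ k hk => by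
      have : k = 0 := by omega
      subst this; exact h⟩
  | r + 1 => by
      obtain ⟨d, hd⟩ := Wd_poly c r
      obtain ⟨e, he⟩ := poly_le (3 * Polynomial.X ^ d + 2 * Polynomial.X + 2)
      refine ⟨e, fun N hN W0 m h1 h2 k hk => ?_⟩
      have he' := he N hN
      simp only [Polynomial.eval_add, Polynomial.eval_mul, Polynomial.eval_pow, Polynomial.eval_X,
        Polynomial.eval_ofNat] at he'
      rcases Nat.eq_or_lt_of_le hk with h3 | h3
      · subst h3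
        have h4 := hd N hN W0 m h1 h2 r le_rfl
        rw [Wd]
        omega
      · have h4 := hd N hN W0 m h1 h2 k (by omega)
        omega

theorem Sd_poly (c : ℕ) (r : ℕ) : ∀ k : ℕ, ∃ d : ℕ, ∀ N : ℕ, 2 ≤ N → ∀ W0 m n : ℕ,
    W0 ≤ N ^ c → m ≤ N → n ≤ N → 2 ^ m ≤ N ^ c → Sd W0 m n r k ≤ N ^ d
  | 0 => ⟨0, fun N _ W0 m n _ _ _ _ => by simp [Sd]⟩
  | k + 1 => by
      obtain ⟨d, hd⟩ := Sd_poly c r k
      obtain ⟨d', hd'⟩ := Wd_poly c k
      obtain ⟨e, he⟩ := poly_le (Polynomial.X ^ d + (Polynomial.X ^ c) ^ r *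
        (Polynomial.C (3 ^ r) * (Polynomial.X ^ d' + 2 * Polynomial.X + 2) + Polynomial.X + 1))
      refine ⟨e, fun N hN W0 m n h1 h2 h3 h4 => ?_⟩
      have he' := he N hN
      simp only [Polynomial.eval_add, Polynomial.eval_mul, Polynomial.eval_pow, Polynomial.eval_X,
        Polynomial.eval_ofNat, Polynomial.eval_C, Polynomial.eval_one] at he'
      have h5 := hd N hN W0 m n h1 h2 h3 h4
      have h6 := hd' N hN W0 m h1 h2 k le_rfl
      rw [Sd]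
      refine le_trans ?_ he'
      apply Nat.add_le_add h5
      apply Nat.mul_le_mul (Nat.pow_le_pow_left h4 _)
      have h7 : 3 ^ r * (Wd W0 m k + 2 * m + 2) ≤ 3 ^ r * (N ^ d' + 2 * N + 2) :=
        Nat.mul_le_mul_left _ (by omega)
      omega

/-- the hypothesis of the core theorem at one level -/
def Hyp (Y G A : Lang) (p : PIx) (l : List NIx) (r c n m : ℕ) : Prop :=
  ∀ S : Arr (Idx m) (Idx n) r,
    sEval p l (join Y (patchL G (tabL r (root n m ((n + 2) ^ c)) S))) (root n m ((n + 2) ^ c)) =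
      !(Qv (fun x : Idx n => A x.1) r S)

theorem level (p : PIx) (i : NIx) (l' : List NIx) (r : ℕ) (hr : l'.length = r) (hr1 : 1 ≤ r)
    (c : ℕ) : ∃ n1 d : ℕ, ∀ (Y G A : Lang) (n : ℕ), n1 ≤ n →
      (∀ m ≤ n, Hyp Y G A p (l' ++ [i]) r c n m) →
      ∃ (θ : ℕ) (ts : List Test), θ ≤ (n + 2) ^ d ∧ (ts.map Test.size).sum ≤ (n + 2) ^ d ∧
        ∀ x : Str, x.length = n →
          decide (θ ≤ ts.countP (fun τ => τ.val p i Y G x)) = !(A x) := by
  obtain ⟨r, rfl⟩ : ∃ r', r = r' + 1 := ⟨r - 1, by omega⟩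
  -- polynomial bounds
  obtain ⟨c1, hc1⟩ := poly_le (8 * Polynomial.X + 2 * Polynomial.X ^ c + 5)
  obtain ⟨b, hb⟩ := sEval_FF p i l' r hr
  obtain ⟨q0, hq0⟩ : ∃ q0, i.2.2.eval 0 ≤ 2 ^ q0 := ⟨_, (Nat.lt_two_pow_self).le⟩
  set e1 := (c1 + 1) * (b + q0 + 1) with he1
  obtain ⟨b2, hb2⟩ := FF_isC p i e1
  obtain ⟨d1, hd1⟩ := KK_poly (r + 1) (b2 + e1 + 1)
  obtain ⟨e0, he0⟩ := poly_le (4 * (Polynomial.X ^ e1 + Polynomial.C (r + 1)) * Polynomial.X ^ d1)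
  obtain ⟨n1, hn1⟩ := exists_m e0
  obtain ⟨dW, hdW⟩ := Wd_poly (c1 + 2 * e0) (r + 1)
  obtain ⟨dS, hdS⟩ := Sd_poly (c1 + 2 * e0) (r + 1) (r + 1)
  obtain ⟨d, hd⟩ := poly_le (128 * (Polynomial.X ^ e1) ^ 2 * (Polynomial.X + 1) *
    (Polynomial.X ^ dW + Polynomial.X ^ dS + Polynomial.X ^ e1 + Polynomial.X ^ e1 + 1) + 1)
  refine ⟨n1, d, fun Y G A n hn hyp => ?_⟩
  set N := n + 2 with hN
  have hN2 : 2 ≤ N := by omega
  obtain ⟨m, hmn, hm1, hm2⟩ := hn1 n hn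
  have hc1' := hc1 N hN2
  have he0' := he0 N hN2
  have hd' := hd N hN2
  simp only [Polynomial.eval_add, Polynomial.eval_mul, Polynomial.eval_pow, Polynomial.eval_X,
    Polynomial.eval_ofNat, Polynomial.eval_C, Polynomial.eval_one] at hc1' he0' hd'
  set u := root n m (N ^ c) with hu
  have hul : u.length ≤ N ^ c1 := by
    rw [hu, root_length]
    omega
  have hN1 : 2 ≤ N ^ (c1 + 1) := by
    calc 2 ≤ N := hN2
      _ = N ^ 1 := (pow_one N).symm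
      _ ≤ N ^ (c1 + 1) := Nat.pow_le_pow_right (by omega) (by omega)
  have hNc : N ^ c1 ≤ N ^ (c1 + 1) := Nat.pow_le_pow_right (by omega) (by omega)
  have hF := hb (N ^ (c1 + 1)) hN1 u (hul.trans hNc)
  rw [← pow_mul] at hF
  have hle : N ^ ((c1 + 1) * b) ≤ N ^ e1 := by
    apply Nat.pow_le_pow_right (by omega)
    rw [he1]
    exact Nat.mul_le_mul_left _ (by omega)
  have hF' := FF_mono (p := p) (i := i) hle hle hle (by
    calc 2 ≤ N := hN2
      _ = N ^ 1 := (pow_one N).symm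
      _ ≤ N ^ e1 := Nat.pow_le_pow_right (by omega) (by rw [he1]; nlinarith)) (by
    calc i.2.2.eval 0 ≤ 2 ^ q0 := hq0
      _ ≤ N ^ q0 := Nat.pow_le_pow_left hN2 _
      _ ≤ N ^ e1 := Nat.pow_le_pow_right (by omega) (by rw [he1]; nlinarith)) hF
  have ht2 : 2 ≤ N ^ e1 := by
    calc 2 ≤ N := hN2
      _ = N ^ 1 := (pow_one N).symm
      _ ≤ N ^ e1 := Nat.pow_le_pow_right (by omega) (by rw [he1]; nlinarith)
  have hs : i.2.2.eval 0 ≤ N ^ e1 := by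
    calc i.2.2.eval 0 ≤ 2 ^ q0 := hq0
      _ ≤ N ^ q0 := Nat.pow_le_pow_left hN2 _
      _ ≤ N ^ e1 := Nat.pow_le_pow_right (by omega) (by rw [he1]; nlinarith)
  have hC : ∀ (j : ℕ) (F : Lang → Bool), F ∈ FF p i (N ^ e1) (N ^ e1) (N ^ e1) j →
      ∃ S : Set Str, IsC S (N ^ (b2 + e1 + 1)) (N ^ (b2 + e1 + 1)) (j + 1) F := by
    intro j F hF
    refine ⟨SL (N ^ b2), (hb2 N hN2 j F hF).mono (subset_refl _) ?_ ?_⟩
    · exact Nat.pow_le_pow_right (by omega) (by omega)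
    · exact Nat.pow_le_pow_right (by omega) (by omega)
  have hbig : 4 * (N ^ e1 + (r + 1)) * KK (r + 1) (N ^ (b2 + e1 + 1)) (N ^ (b2 + e1 + 1)) m ≤
      2 ^ m := by
    have h1 := hd1 N hN2 _ _ m le_rfl (le_refl (N ^ (b2 + e1 + 1))) (by
      calc m ≤ N := by omega
        _ = N ^ 1 := (pow_one N).symm
        _ ≤ _ := Nat.pow_le_pow_right (by omega) (by omega))
    refine le_trans ?_ (he0'.trans hm1)
    exact Nat.mul_le_mul_left _ h1
  obtain ⟨θ, ts, h1, h2, h3, h4⟩ := finite_level Y G A p i (r + 1) n m (N ^ e1) (N ^ e1) (N ^ e1)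
    (N ^ (b2 + e1 + 1)) (N ^ (b2 + e1 + 1)) (N ^ c1) ht2 hs
    (Nat.pow_le_pow_right (by omega) (by omega)) hC hbig _ hF' u hul (hyp m hmn)
  have hWd := hdW N hN2 (N ^ c1) m (Nat.pow_le_pow_right (by omega) (by omega)) (by omega) (r + 1)
    le_rfl
  have hSd := hdS N hN2 (N ^ c1) m n (Nat.pow_le_pow_right (by omega) (by omega)) (by omega)
    (by omega) (hm2.trans (Nat.pow_le_pow_right (by omega) (by omega)))
  set B := Wd (N ^ c1) m (r + 1) + Sd (N ^ c1) m n (r + 1) (r + 1) + N ^ e1 + N ^ e1 + 1 with hB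
  have hB2 : B ≤ N ^ dW + N ^ dS + N ^ e1 + N ^ e1 + 1 := by omega
  have hsum : (ts.map Test.size).sum ≤ ts.length * B := by
    have := List.sum_le_card_nsmul (ts.map Test.size) B (by
      intro k hk
      obtain ⟨τ, hτ, rfl⟩ := List.mem_map.1 hk
      exact h3 τ hτ)
    rw [List.length_map, smul_eq_mul] at this
    exact this
  have hlen : 128 * (N ^ e1) ^ 2 * (n + 1) ≤ 128 * (N ^ e1) ^ 2 * (N + 1) :=
    Nat.mul_le_mul_left _ (by omega)
  refine ⟨θ, ts, ?_, ?_, h4⟩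
  · refine h1.trans (le_trans ?_ hd')
    have h5 : 128 * (N ^ e1) ^ 2 * (N + 1) * 1 ≤ 128 * (N ^ e1) ^ 2 * (N + 1) *
        (N ^ dW + N ^ dS + N ^ e1 + N ^ e1 + 1) := Nat.mul_le_mul_left _ (by omega)
    omega
  · have h5 : ts.length * B ≤ 128 * (N ^ e1) ^ 2 * (N + 1) *
        (N ^ dW + N ^ dS + N ^ e1 + N ^ e1 + 1) := Nat.mul_le_mul (h2.trans hlen) hB2
    omega

end Pool.Agent.Lib.Pa76659G
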