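import Pool.Agent.Lib.Pa76659G.Cat
import Pool.Agent.Lib.Pa76659.LBReq

set_option autoImplicit false
set_option maxHeartbeats 4000000

/-!
The relativised polynomial hierarchy is infinite for comeager many oracles.
-/

namespace Pool.Agent.Lib.Pa76659G

open Pool.Agent.Lib.Pa76659 Pool.Agent.Lib.Pa76659.Hier

/-- the right part of a join depends on the strings shorter than the string itself -/
theorem join_congr {Y G G' : Lang} {N : ℕ} (h : G' ∈ nb G N) {v : Str} (hv : v.length ≤ N) :
    join Y G' v = join Y G v := by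
  rcases v with _ | ⟨b, v⟩
  · rfl
  · cases b
    · rfl
    · show G' v = G v
      exact h v (by simp only [List.length_cons] at hv; omega)

theorem EE_congr {B B' : Lang} {m : ℕ} (h : ∀ v : Str, v.length ≤ 2 * m → B v = B' v) {s : Str}
    (hs : s.length ≤ m) : EE B s = EE B' s := by
  unfold EE
  apply decide_eq_decide.2
  constructor
  · rintro ⟨y, hy, hy2⟩
    refine ⟨y, hy, ?_⟩
    rw [← h _ (by rw [List.length_append]; omega)]
    exact hy2
  · rintro ⟨y, hy, hy2⟩
    refine ⟨y, hy, ?_⟩
    rw [h _ (by rw [List.length_append]; omega)]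
    exact hy2

theorem QQ_congr {X X' : Lang} : ∀ (k m : ℕ),
    (∀ v : Str, v.length ≤ 2 ^ k * m → X v = X' v) → ∀ s : Str, s.length ≤ m →
      QQ k X s = QQ k X' s
  | 0, m, h, s, hs => h s (by simpa using hs)
  | k + 1, m, h, s, hs => by
      rw [QQ_succ, QQ_succ]
      refine EE_congr (m := m) (fun v hv => ?_) hs
      refine QQ_congr k (2 * m) (fun u hu => h u ?_) v hv
      calc u.length ≤ 2 ^ k * (2 * m) := hu
        _ = 2 ^ (k + 1) * m := by ring

/-- The test language of level `k + 1` over the oracle `G` avoids every machine of level `k`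
after a finite change beyond any given length. -/
theorem exists_diff_G (Y G : Lang) (N : ℕ) (p : PIx) (l : List NIx) :
    ∃ G' ∈ nb G N, ∃ s : Str, sEval p l (join Y G') s ≠ QQ (l.length + 1) G' s := by
  classical
  by_contra hcon
  push Not at hcon
  set κ := l.length with hκ
  obtain ⟨b, hb⟩ := sEval_isC p l
  obtain ⟨d, hd⟩ := Mb_poly κ b (2 ^ κ) b
  obtain ⟨n1, hn1⟩ := pow_le_two_pow d
  set n := max n1 (max N 2) with hn
  have e1 : n1 ≤ n := le_max_left _ _
  have e2 : N ≤ n := le_trans (le_max_left _ _) (le_max_right _ _)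
  have e3 : 2 ≤ n := le_trans (le_max_right _ _) (le_max_right _ _)
  set s : Str := List.replicate n false with hs
  have hsl : s.length = n := by simp [hs]
  have h1 := hb n e3 s hsl.le
  -- the substitution of the variables
  let φ : Str → List ℕ ⊕ Bool := fun v =>
    match v with
    | [] => Sum.inr false
    | false :: v => Sum.inr (Y v)
    | true :: v => if h : ∃ u : List ℕ, u.length = κ + 1 ∧ Valid s u ∧ es s u = v then
      Sum.inl h.choose else Sum.inr (G v)
  have h2 := h1.rename (V' := List ℕ) (S' := Set.univ) φ (fun _ _ _ _ => trivial)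
  refine LB (n ^ b) (n * 2 ^ κ) (2 ^ (n * 2 ^ κ)) le_rfl κ (n ^ b)
    (fun i => 2 ^ (s.length * 2 ^ (κ + 1 - 1 - i))) ?_ (h2.congr ?_)
  · intro i hi
    have h3 := hd n e3 (n ^ b) le_rfl
    have h4 := hn1 n e1
    rw [hsl, Nat.add_sub_cancel]
    constructor
    · refine (h3.trans h4).trans (Nat.pow_le_pow_right (by norm_num) ?_)
      exact Nat.le_mul_of_pos_right _ (by positivity)
    · apply Nat.pow_le_pow_right (by norm_num)
      exact Nat.mul_le_mul_left _ (Nat.pow_le_pow_right (by norm_num) (Nat.sub_le _ _))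
  · intro x
    let G' : Lang := fun v => if h : ∃ u : List ℕ, u.length = κ + 1 ∧ Valid s u ∧ es s u = v then
      x h.choose else G v
    have hG' : G' ∈ nb G N := by
      intro v hv
      have h5 : ¬ ∃ u : List ℕ, u.length = κ + 1 ∧ Valid s u ∧ es s u = v := by
        rintro ⟨u, _, _, rfl⟩
        rw [es_length, hsl] at hv
        have := Nat.le_mul_of_pos_right n (show 0 < 2 ^ u.length by positivity)
        omega
      simp only [G', dif_neg h5]
    have h3 := hcon G' hG' s
    have h6 : (fun v => Sum.elim x id (φ v)) = join Y G' := by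
      funext v
      rcases v with _ | ⟨b, v⟩
      · rfl
      · cases b
        · rfl
        · show Sum.elim x id (φ (true :: v)) = G' v
          simp only [φ, G']
          split_ifs with h7
          · rfl
          · rfl
    show sEval p l (fun v => Sum.elim x id (φ v)) s = _
    rw [h6, h3]
    have h4 := QQ_tr s (κ + 1) G' x (by
      intro u hu hv
      have h5 : ∃ u' : List ℕ, u'.length = κ + 1 ∧ Valid s u' ∧ es s u' = es s u :=
        ⟨u, hu, hv, rfl⟩
      simp only [G']
      rw [dif_pos h5]
      obtain ⟨h6, h7, h8⟩ := h5.choose_spec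
      rw [es_inj s _ _ (h6.trans hu.symm) h7 hv h8]) (κ + 1) [] (by simp) trivial
    exact h4

theorem diff_residual (Y : Lang) (p : PIx) (l : List NIx) :
    ∀ᶠ G in residual Lang, sEval p l (join Y G) ≠ QQ (l.length + 1) G := by
  refine (residual_of (fun G => ∃ s : Str, sEval p l (join Y G) s ≠ QQ (l.length + 1) G s)
    ?_ ?_).mono fun G ⟨s, hs⟩ h => hs (by rw [h])
  · rintro G ⟨s, hs⟩
    obtain ⟨b, hb⟩ := sEval_congr p l
    refine ⟨(s.length + 2) ^ b + 2 ^ (l.length + 1) * s.length + 1, fun G' hG' => ⟨s, ?_⟩⟩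
    have h1 : sEval p l (join Y G') s = sEval p l (join Y G) s :=
      hb s _ _ fun v hv => join_congr hG' (by omega)
    have h2 : QQ (l.length + 1) G' s = QQ (l.length + 1) G s :=
      QQ_congr (l.length + 1) s.length (fun v hv => hG' v (by omega)) s le_rfl
    rw [h1, h2]
    exact hs
  · intro G N
    exact exists_diff_G Y G N p l

/-- For every oracle `Y` and comeager many oracles `G` the polynomial hierarchy relative to the
join of `Y` and `G` is infinite. -/
theorem ph_inf (Y : Lang) :
    ∀ᶠ G in residual Lang, ∀ k, Sig (join Y G) k ≠ Sig (join Y G) (k + 1) := by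
  have h : ∀ᶠ G in residual Lang, ∀ p : PIx, ∀ l : List NIx,
      sEval p l (join Y G) ≠ QQ (l.length + 1) G := by
    rw [eventually_countable_forall]
    intro p
    rw [eventually_countable_forall]
    intro l
    exact diff_residual Y p l
  refine h.mono fun G hG k hk => ?_
  have h1 : QQ (k + 1) G ∈ Sig (join Y G) (k + 1) := EE_iter_mem G (right_mem Y G) (k + 1)
  rw [← hk] at h1
  obtain ⟨p, l, hl, h2⟩ := exists_sEval h1
  apply hG p l
  rw [hl]
  exact h2.symm

end Pool.Agent.Lib.Pa76659G
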