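import Pool.Agent.Lib.Pa76659G.Core2
import Pool.Agent.Lib.Pa76659G.Cat
import Pool.Agent.Lib.Pa76659G.PHInf
import Pool.Agent.Lib.Pa76659.Limit

/-!
Conclusions: lowness relative to comeager (non-meager) many oracles gives nonuniform nondeterministic
acceptance of the complement.
-/

set_option maxHeartbeats 4000000

namespace Pool.Agent.Lib.Pa76659G

open Pool.Agent.Lib.Pa76659

theorem core (Y G A : Lang) (p : PIx) (i : NIx) (l' : List NIx) (r : ℕ) (hr : l'.length = r)
    (hr1 : 1 ≤ r) (c n0 : ℕ) (h : ∀ n, n0 ≤ n → ∀ m ≤ n, Hyp Y G A p (l' ++ [i]) r c n m) :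
    (fun x => !(A x)) ∈ NPPoly (join Y G) := by
  classical
  obtain ⟨n1, d, hl⟩ := level p i l' r hr hr1 c
  have key : ∀ n, ∃ (θ : ℕ) (ts : List Test), max n0 n1 ≤ n → θ ≤ (n + 2) ^ d ∧
      (ts.map Test.size).sum ≤ (n + 2) ^ d ∧ ∀ x : Str, x.length = n →
          decide (θ ≤ ts.countP (fun τ => τ.val p i Y G x)) = !(A x) := by
    intro n
    by_cases hn : max n0 n1 ≤ n
    · obtain ⟨θ, ts, h1⟩ := hl Y G A n (le_trans (le_max_right _ _) hn)
        (fun m hm => h n (le_trans (le_max_left _ _) hn) m hm)
      exact ⟨θ, ts, fun _ => h1⟩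
    · exact ⟨0, [], fun h => absurd h hn⟩
  choose θ ts hk using key
  obtain ⟨C, hC, hC2⟩ := thr_mem0 Y G p i
  have hB : (fun x : Str => C (pr x (if max n0 n1 ≤ x.length then encL (θ x.length) (ts x.length)
      else []))) ∈ NPPoly (join Y G) := by
    refine ⟨C, hC, fun n => if max n0 n1 ≤ n then encL (θ n) (ts n) else [],
      23 * (Polynomial.X + 2) ^ d + 1, ?_, fun x => rfl⟩
    intro n
    simp only [Polynomial.eval_add, Polynomial.eval_mul, Polynomial.eval_pow, Polynomial.eval_X,
      Polynomial.eval_ofNat, Polynomial.eval_one]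
    beta_reduce
    split_ifs with hn
    · have h1 := encL_length (θ n) (ts n)
      obtain ⟨h2, h3, _⟩ := hk n hn
      have h4 : PC.szT (ts n) = ((ts n).map Test.size).sum := rfl
      omega
    · simp
  refine NPPoly_fin hB (max n0 n1) ?_
  intro x hx
  beta_reduce
  rw [if_pos hx, hC2, (hk x.length hx).2.2 x rfl]

/-! ### the hard languages depend on finitely many bits -/

theorem loc_QL : ∀ j : ℕ, Loc (fun O => QL O j)
  | 0 => fun n => ⟨3 * n + 4, fun O O' h w hw => by
      have h1 := fst_length (fst w)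
      have h2 := fst_length w
      have h3 : entry O w = entry O' w := by
        unfold entry
        apply List.map_congr_left
        intro i hi
        rw [List.mem_range] at hi
        apply h
        simp only [List.length_cons, pr_length, on1, List.length_replicate]
        omega
      show O (true :: entry O w) = O' (true :: entry O' w)
      rw [h3]
      apply h
      simp only [List.length_cons, entry, List.length_map, List.length_range]
      omega⟩
  | j + 1 => fun n => by
      obtain ⟨M, hM⟩ := loc_QL j (5 * n + 2)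
      refine ⟨M, fun O O' h w hw => ?_⟩
      have hM' := hM O O' h
      beta_reduce at hM' ⊢
      rw [QL, QL]
      apply decide_eq_decide.2
      have h1 := fst_length (snd (fst w))
      have h2 := snd_length (fst w)
      have h3 := fst_length w
      have key : ∀ y : Str, y.length = (fst (snd (fst w))).length →
          QL O j (pr (fst w) (pr y (snd w))) = QL O' j (pr (fst w) (pr y (snd w))) := by
        intro y hy
        apply hM'
        have h4 := child_length_le w y
        rw [child] at h4
        omega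
      constructor
      · rintro ⟨y, hy, hy2⟩; exact ⟨y, hy, by rw [← key y hy]; exact hy2⟩
      · rintro ⟨y, hy, hy2⟩; exact ⟨y, hy, by rw [key y hy]; exact hy2⟩

/-- the machine computes the complement of the hard language -/
def Right (Y : Lang) (Φ : Lang → Lang) (p : PIx) (l : List NIx) (r : ℕ) (G : Lang) : Prop :=
  ∀ w : Str, sEval p l (join Y G) w = !(QL (join (join Y G) (Φ (join Y G))) r w)

theorem right_fin {Y : Lang} {Φ : Lang → Lang} (hΦ : Loc Φ) (p : PIx) (l : List NIx) (r : ℕ)
    (G : Lang) (h : ¬ Right Y Φ p l r G) : ∃ N, ∀ G' ∈ nb G N, ¬ Right Y Φ p l r G' := by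
  unfold Right at h
  push Not at h
  obtain ⟨w, hw⟩ := h
  obtain ⟨m1, h1⟩ := loc_sEval p l w.length
  obtain ⟨m2, h2⟩ := ((loc_QL r).comp (loc_join hΦ)) w.length
  refine ⟨max m1 m2, fun G' hG' hR => hw ?_⟩
  have h3 := hR w
  rw [h1 (join Y G') (join Y G) (fun v hv => join_congr hG' (hv.trans (le_max_left _ _))) w le_rfl]
    at h3
  have h4 := h2 (join Y G') (join Y G) (fun v hv => join_congr hG' (hv.trans (le_max_right _ _)))
    w le_rfl
  beta_reduce at h4
  rw [h4] at h3
  exact h3

/-- local dependence with a polynomial bound -/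
def PLoc (Φ : Lang → Lang) : Prop := ∃ c : ℕ, ∀ (x : Str) (X X' : Lang),
  (∀ v : Str, v.length ≤ (x.length + 2) ^ c → X v = X' v) → Φ X x = Φ X' x

theorem PLoc.loc {Φ : Lang → Lang} (h : PLoc Φ) : Loc Φ := by
  obtain ⟨c, hc⟩ := h
  intro n
  refine ⟨(n + 2) ^ c, fun O O' h x hx => hc x O O' (fun v hv => h v (hv.trans ?_))⟩
  exact Nat.pow_le_pow_left (by omega) c

theorem coNP_of_forced {Y : Lang} {Φ : Lang → Lang} (hΦ : PLoc Φ) {p : PIx} {l : List NIx} {r : ℕ}
    (hl : l.length = r + 1) (hr : 1 ≤ r) {G : Lang} {N : ℕ}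
    (h : ∀ G' ∈ nb G N, Right Y Φ p l r G') :
    (fun x => !(Φ (join Y G) x)) ∈ NPPoly (join Y G) := by
  obtain ⟨l', i, rfl⟩ : ∃ l' i, l = l' ++ [i] := by
    have h1 : l ≠ [] := by rintro rfl; simp at hl
    exact ⟨l.dropLast, l.getLast h1, (List.dropLast_append_getLast h1).symm⟩
  have hl' : l'.length = r := by
    rw [List.length_append] at hl
    simpa using hl
  obtain ⟨c, hc⟩ := hΦ
  refine core Y G (Φ (join Y G)) p i l' r hl' hr c N ?_
  intro n hn m hm S
  set u := root n m ((n + 2) ^ c) with hu
  have hul : u.length = 4 * n + 4 * m + 2 * (n + 2) ^ c + 5 := root_length _ _ _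
  have hun : u = pr (fst u) (snd u) := by
    rw [hu, root, fst_pr, snd_pr]
  set G' := patchL G (tabL r u S) with hG'
  have h1 : ∀ v : Str, v.length < u.length → G' v = G v := fun v hv =>
    patch_short G r u S hun v hv
  have h2 : G' ∈ nb G N := fun v hv => h1 v (by omega)
  have h3 := h G' h2 u
  have h4 : ∀ v : Str, v.length < u.length → join Y G' v = join Y G v := by
    intro v hv
    rcases v with _ | ⟨b, v⟩
    · rfl
    · cases b
      · rfl
      · simp only [List.length_cons] at hv
        exact h1 v (by omega)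
  have h5 : ∀ x : Str, x.length = n → Φ (join Y G') x = Φ (join Y G) x := by
    intro x hx
    apply hc
    intro v hv
    rw [hx] at hv
    exact h4 v (by omega)
  have hz1 : (fst (fst u)).length = n := by
    rw [hu, root, fst_pr, fst_pr, on1, List.length_replicate]
  have hz2 : (fst (snd (fst u))).length = m := by
    rw [hu, root, fst_pr, snd_pr, fst_pr, on1, List.length_replicate]
  have h6 := QL_tab Y G [] (fst u) hz1 hz2 (Φ (join Y G)) (Φ (join Y G')) h5 r u rfl S []
  rw [List.append_nil] at h6
  rw [h3, h6]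

/-- relative to comeager many oracles -/
theorem gen_coNP (Y : Lang) : ∀ᶠ G in residual Lang, ∀ k, ∀ A ∈ Low (join Y G) k,
    (fun x => !(A x)) ∈ NPPoly (join Y G) := by
  have h : ∀ᶠ G in residual Lang, ∀ (i0 : NIx) (p : PIx) (l : List NIx),
      Right Y (nEval i0) p l (l.length - 1) G →
        ∃ N, ∀ G' ∈ nb G N, Right Y (nEval i0) p l (l.length - 1) G' := by
    rw [eventually_countable_forall]
    intro i0
    rw [eventually_countable_forall]
    intro p
    rw [eventually_countable_forall]
    intro l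
    exact forced_of _ (fun G hG => right_fin (loc_nEval i0) p l (l.length - 1) G hG)
  filter_upwards [h] with G hG k A hA
  obtain ⟨i0, hi0⟩ := exists_nEval hA.1
  have h1 := low_mono (show k ≤ k + 2 by omega) hA
  have h2 := h1.2 (QL_not_mem (join (join Y G) A) (k + 1))
  obtain ⟨p, l, hl, h3⟩ := exists_sEval h2
  have h4 : Right Y (nEval i0) p l (l.length - 1) G := by
    intro w
    rw [← h3, hl, ← hi0]
    rfl
  obtain ⟨N, hN⟩ := hG i0 p l h4
  have h5 := coNP_of_forced (nEval_congr i0) (r := l.length - 1) (by omega) (by omega) hN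
  rw [← hi0] at h5
  exact h5

/-- relative to a non-meager set of oracles -/
theorem nonmeagre_QL (Y A : Lang)
    (h : ¬ IsMeagre {G : Lang | ∃ k, (fun w => !(QL (join (join Y G) A) (k + 1) w)) ∈
      Sig (join Y G) (k + 2)}) :
    (fun x => !(A x)) ∈ NPPoly Y := by
  have hex : ∃ (p : PIx) (l : List NIx), 2 ≤ l.length ∧
      ¬ IsMeagre {G | Right Y (fun _ => A) p l (l.length - 1) G} := by
    by_contra hcon
    push Not at hcon
    apply h
    have h1 : ∀ᶠ G in residual Lang, ∀ (p : PIx) (l : List NIx), 2 ≤ l.length →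
        ¬ Right Y (fun _ => A) p l (l.length - 1) G := by
      rw [eventually_countable_forall]
      intro p
      rw [eventually_countable_forall]
      intro l
      by_cases hl : 2 ≤ l.length
      · have h2 : {G | Right Y (fun _ => A) p l (l.length - 1) G}ᶜ ∈ residual Lang := hcon p l hl
        filter_upwards [h2] with G hG _
        exact hG
      · exact Filter.Eventually.of_forall fun G h2 => absurd h2 hl
    show {G : Lang | ∃ k, (fun w => !(QL (join (join Y G) A) (k + 1) w)) ∈
      Sig (join Y G) (k + 2)}ᶜ ∈ residual Lang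
    filter_upwards [h1] with G hG
    rintro ⟨k, h2⟩
    obtain ⟨p, l, hl, h3⟩ := exists_sEval h2
    apply hG p l (by omega)
    intro w
    rw [← h3, hl]
    rfl
  obtain ⟨p, l, hl, hm⟩ := hex
  obtain ⟨G, N, hN⟩ := exists_forced _ (fun G hG =>
    right_fin (Φ := fun _ => A) (fun n => ⟨0, fun _ _ _ _ _ => rfl⟩) p l (l.length - 1) G hG) hm
  set G1 : Lang := fun v => if v.length < N then G v else false with hG1
  have h1 : ∀ G' ∈ nb G1 N, Right Y (fun _ => A) p l (l.length - 1) G' := by
    intro G' hG'
    apply hN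
    intro v hv
    rw [hG' v hv, hG1]
    simp [hv]
  have h2 := coNP_of_forced (Φ := fun _ => A) ⟨0, fun _ _ _ _ => rfl⟩ (r := l.length - 1)
    (by omega) (by omega) h1
  refine NPPoly_mono (join_finite_mem (N := N) ?_) h2
  intro v hv
  rw [hG1]
  simp only [if_neg (not_lt.2 hv)]

/-- relative to a non-meager set of oracles -/
theorem nonmeagre_coNP (Y A : Lang)
    (h : ¬ IsMeagre {G : Lang | ∃ k, Sig (join (join Y G) A) k ⊆ Sig (join Y G) k}) :
    (fun x => !(A x)) ∈ NPPoly Y := by
  apply nonmeagre_QL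
  intro hm
  apply h
  refine hm.mono ?_
  rintro G ⟨k, hk⟩
  refine ⟨k, ?_⟩
  have hk2 : Sig (join (join Y G) A) (k + 2) ⊆ Sig (join Y G) (k + 2) := by
    rintro L ⟨B, ⟨B', hB', hB⟩, hL⟩
    exact ⟨B, ⟨B', hk hB', hB⟩, hL⟩
  exact hk2 (QL_not_mem (join (join Y G) A) (k + 1))

end Pool.Agent.Lib.Pa76659G
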