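import Pool.Agent.Lib.Pa76659.Hier

set_option autoImplicit false

/-!
The cube lemma: a random restriction, and a random edge at a star of it. A family of shallow
circuits on a cube is constant along most edges, whatever member of the family is chosen at the
vertex.
-/

namespace Pool.Agent.Lib.Pa76659G

open Pool.Agent.Lib.Pa76659 Pool.Agent.Lib.Pa76659.Switch Pool.Agent.Lib.Pa76659.Hier

variable {ι : Type} [Fintype ι] [DecidableEq ι]

/-- restrictions of the cube, one stage -/
abbrev Gm (ι : Type) [Fintype ι] [DecidableEq ι] (Q : ℕ) : Type :=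
  ((Finset.univ : Finset (ι ⊕ ι)) : Type) → Fin (Q + 1)

/-- the substitution of a restriction -/
def sb {Q : ℕ} (f : Gm ι Q) (x : ι → Bool) : ι → Bool :=
  fun v => val id (ext Finset.univ f) x v

/-- stars of a restriction -/
def stars {Q : ℕ} (f : Gm ι Q) : Finset ι :=
  Finset.univ.filter fun i => f ⟨Sum.inl i, Finset.mem_univ _⟩ = 0 ∧
    f ⟨Sum.inr i, Finset.mem_univ _⟩ = 0

/-- change one coordinate -/
def flip1 (b : ι → Bool) (i : ι) : ι → Bool := Function.update b i (!(b i))

theorem sb_flip {Q : ℕ} (f : Gm ι Q) {i : ι} (hi : i ∈ stars f) (x : ι → Bool) :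
    sb f (flip1 x i) = flip1 (sb f x) i := by
  obtain ⟨h1, h2⟩ := (Finset.mem_filter.1 hi).2
  funext v
  unfold flip1 sb
  by_cases hv : v = i
  · subst hv
    rw [Function.update_self]
    unfold val
    rw [ext_mem _ _ (Finset.mem_univ _), ext_mem _ _ (Finset.mem_univ _)]
    simp [h1, h2]
  · rw [Function.update_of_ne hv]
    unfold val
    simp only [id]
    rw [Function.update_of_ne hv]

theorem card_stars (Q : ℕ) (i : ι) :
    (Finset.univ.filter fun f : Gm ι Q => i ∈ stars f).card * (Q + 1) ^ 2
      = Fintype.card (Gm ι Q) := by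
  classical
  let a : (Finset.univ : Finset (ι ⊕ ι)) := ⟨Sum.inl i, Finset.mem_univ _⟩
  let b : (Finset.univ : Finset (ι ⊕ ι)) := ⟨Sum.inr i, Finset.mem_univ _⟩
  have hab : a ≠ b := by
    intro h
    have := congrArg Subtype.val h
    simp [a, b] at this
  have h1 : (Finset.univ.filter fun f : Gm ι Q => i ∈ stars f)
      = Fintype.piFinset (fun e => if e = a ∨ e = b then {0} else Finset.univ) := by
    ext f
    simp only [Finset.mem_filter, Finset.mem_univ, true_and, Fintype.mem_piFinset, stars]
    constructor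
    · rintro ⟨h1, h2⟩ e
      by_cases he : e = a ∨ e = b
      · rw [if_pos he]
        rcases he with rfl | rfl
        · simpa using h1
        · simpa using h2
      · rw [if_neg he]; exact Finset.mem_univ _
    · intro h
      have h1 := h a
      have h2 := h b
      rw [if_pos (Or.inl rfl)] at h1
      rw [if_pos (Or.inr rfl)] at h2
      exact ⟨by simpa using h1, by simpa using h2⟩
  rw [h1, Fintype.card_piFinset]
  have h2 : ∀ e, (if e = a ∨ e = b then ({0} : Finset (Fin (Q + 1))) else Finset.univ).card
      = if e = a ∨ e = b then 1 else (Q + 1) := by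
    intro e
    split_ifs <;> simp
  simp only [h2]
  rw [Finset.prod_ite, Finset.prod_const_one, one_mul, Finset.prod_const, Fintype.card_fun,
    Fintype.card_fin]
  have h3 : (Finset.univ.filter fun e => ¬ (e = a ∨ e = b)).card + 2
      = Fintype.card (Finset.univ : Finset (ι ⊕ ι)) := by
    have h4 : (Finset.univ.filter fun e => (e = a ∨ e = b)).card = 2 := by
      have : (Finset.univ.filter fun e => (e = a ∨ e = b)) = {a, b} := by
        ext e
        simp
      rw [this, Finset.card_pair hab]
    have h5 := Finset.card_filter_add_card_filter_not (s := (Finset.univ :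
      Finset (Finset.univ : Finset (ι ⊕ ι)))) (fun e => e = a ∨ e = b)
    rw [h4, Finset.card_univ] at h5
    omega
  rw [← h3, pow_add]

/-- one stage of the depth reduction -/
theorem stage {V' : Type} [Fintype V'] (a w s k c Q : ℕ) (hV : Fintype.card V' ≤ 2 ^ a)
    (hs : a + w * k + c ≤ s) (hQ : 8 * s + 8 ≤ Q) (g : V' → (ι → Bool) → Bool)
    (hg : ∀ v, IsC Set.univ w s (k + 1) (g v)) : open Classical in
    (Finset.univ.filter fun f : Gm ι Q =>
      ¬ ∀ v, IsC Set.univ w s k (fun x => g v (sb f x))).card * 2 ^ c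
      ≤ Fintype.card (Gm ι Q) := by
  classical
  choose κ hκ h hc hh hsb using fun v => reduce w s k (g v) (hg v)
  choose F hF1 hF2 using fun v i => toDNF (hh v i)
  have hsub : (Finset.univ.filter fun f : Gm ι Q =>
      ¬ ∀ v, IsC Set.univ w s k (fun x => g v (sb f x))) ⊆
      Finset.univ.biUnion fun p : (Σ v, κ v) => Finset.univ.filter fun f : Gm ι Q =>
        Hard id (F p.1 p.2) (ext Finset.univ f) (fun _ => none) s := by
    intro f hf
    rw [Finset.mem_filter] at hf
    rw [Finset.mem_biUnion]
    by_contra hcon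
    push Not at hcon
    apply hf.2
    intro v
    apply hsb v ι s (sb f)
    intro i
    have h1 := hcon ⟨v, i⟩ (Finset.mem_univ _)
    rw [Finset.mem_filter, not_and] at h1
    have h2 := h1 (Finset.mem_univ _)
    unfold Hard at h2
    rw [not_not] at h2
    obtain ⟨D, hD1, hD2⟩ := h2
    refine ⟨D, hD1.le, ?_, ?_⟩
    · clear hD1 hD2
      induction D with
      | leaf b => trivial
      | node v f t ih1 ih2 => exact ⟨Set.mem_univ _, ih1, ih2⟩
    · intro x
      have h3 := hD2 x (by intro b c hb; simp at hb)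
      have h4 := hF2 v i (sb f x)
      rw [Bool.eq_iff_iff, h4, h3]
      rfl
  have h1 := Finset.card_le_card hsub
  have h2 := h1.trans Finset.card_biUnion_le
  have h3 : ∀ p : (Σ v, κ v), (Finset.univ.filter fun f : Gm ι Q =>
        Hard id (F p.1 p.2) (ext Finset.univ f) (fun _ => none) s).card * 2 ^ s
        ≤ Fintype.card (Gm ι Q) := by
    intro p
    have := hard_count (V := ι) (B := ι) id s Q hQ Finset.univ (F p.1 p.2) (hF1 p.1 p.2) s
    convert this using 1
  have h4 : Fintype.card (Σ v, κ v) ≤ 2 ^ (a + w * k) := by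
    rw [Fintype.card_sigma, pow_add]
    calc ∑ v, Fintype.card (κ v) ≤ ∑ _v : V', 2 ^ (w * k) := Finset.sum_le_sum fun v _ => hc v
      _ = Fintype.card V' * 2 ^ (w * k) := by simp
      _ ≤ _ := Nat.mul_le_mul_right _ hV
  set bad := (Finset.univ.filter fun f : Gm ι Q =>
      ¬ ∀ v, IsC Set.univ w s k (fun x => g v (sb f x))).card with hbad
  have h5 : bad * 2 ^ s ≤ 2 ^ (a + w * k) * Fintype.card (Gm ι Q) := by
    calc bad * 2 ^ s ≤ (∑ p : (Σ v, κ v), (Finset.univ.filter fun f : Gm ι Q =>
        Hard id (F p.1 p.2) (ext Finset.univ f) (fun _ => none) s).card) * 2 ^ s :=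
          Nat.mul_le_mul_right _ h2
      _ = ∑ p : (Σ v, κ v), (Finset.univ.filter fun f : Gm ι Q =>
        Hard id (F p.1 p.2) (ext Finset.univ f) (fun _ => none) s).card * 2 ^ s := by
          rw [Finset.sum_mul]
      _ ≤ ∑ _p : (Σ v, κ v), Fintype.card (Gm ι Q) := Finset.sum_le_sum fun p _ => h3 p
      _ = Fintype.card (Σ v, κ v) * Fintype.card (Gm ι Q) := by simp
      _ ≤ _ := Nat.mul_le_mul_right _ h4
  have h6 : 2 ^ (a + w * k) * (bad * 2 ^ c) ≤ 2 ^ (a + w * k) * Fintype.card (Gm ι Q) := by
    calc 2 ^ (a + w * k) * (bad * 2 ^ c) = bad * 2 ^ (a + w * k + c) := by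
          rw [pow_add _ (a + w * k) c]; ring
      _ ≤ bad * 2 ^ s := Nat.mul_le_mul_left _ (Nat.pow_le_pow_right (by norm_num) hs)
      _ ≤ _ := h5
  exact Nat.le_of_mul_le_mul_left h6 (by positivity)

/-- all stages of the depth reduction -/
theorem stages (ι : Type) [Fintype ι] [DecidableEq ι] (a w s c Q : ℕ) (hQ : 8 * s + 8 ≤ Q) :
    ∀ k : ℕ, a + w * k + c ≤ s + w → open Classical in
    ∃ (Γ : Type) (_ : Fintype Γ) (_ : Nonempty Γ) (sub : Γ → (ι → Bool) → (ι → Bool))
      (R : Γ → Finset ι),
      (∀ i, (Finset.univ.filter fun ρ => i ∈ R ρ).card * (Q + 1) ^ (2 * k) = Fintype.card Γ) ∧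
      (∀ ρ, ∀ i ∈ R ρ, ∀ x, sub ρ (flip1 x i) = flip1 (sub ρ x) i) ∧
      ∀ (V' : Type) (_ : Fintype V') (g : V' → (ι → Bool) → Bool), Fintype.card V' ≤ 2 ^ a →
        (∀ v, IsC Set.univ w s k (g v)) →
        (Finset.univ.filter fun ρ => ¬ ∀ v, IsC Set.univ w s 0 (fun x => g v (sub ρ x))).card
          * 2 ^ c ≤ k * Fintype.card Γ := by
  classical
  intro k
  induction k with
  | zero =>
    intro _
    refine ⟨Unit, inferInstance, inferInstance, fun _ x => x, fun _ => Finset.univ, ?_, ?_, ?_⟩
    · intro i
      simp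
    · intro _ i _ x
      rfl
    · intro V' _ g _ hg
      simp [hg]
  | succ k ih =>
    intro hk
    obtain ⟨Γ, hΓ, hne, sub, R, h1, h2, h3⟩ := ih (by
      have : w * (k + 1) = w * k + w := by ring
      omega)
    refine ⟨Gm ι Q × Γ, inferInstance, inferInstance, fun p x => sb p.1 (sub p.2 x),
      fun p => stars p.1 ∩ R p.2, ?_, ?_, ?_⟩
    · intro i
      have h4 : (Finset.univ.filter fun p : Gm ι Q × Γ => i ∈ stars p.1 ∩ R p.2)
          = (Finset.univ.filter fun f : Gm ι Q => i ∈ stars f) ×ˢ
            (Finset.univ.filter fun ρ => i ∈ R ρ) := by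
        ext p
        simp [Finset.mem_product]
      rw [h4, Finset.card_product, Fintype.card_prod, ← h1 i, ← card_stars Q i]
      ring
    · rintro ⟨f, ρ⟩ i hi x
      rw [Finset.mem_inter] at hi
      show sb f (sub ρ (flip1 x i)) = flip1 (sb f (sub ρ x)) i
      rw [h2 ρ i hi.2, sb_flip f hi.1]
    · intro V' _ g hV hg
      have hst := stage a w s k c Q hV (by
        have : w * (k + 1) = w * k + w := by ring
        omega) hQ g hg
      set A := Finset.univ.filter fun f : Gm ι Q =>
        ¬ ∀ v, IsC Set.univ w s k (fun x => g v (sb f x)) with hA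
      let B : Gm ι Q → Finset Γ := fun f => Finset.univ.filter fun ρ =>
        ¬ ∀ v, IsC Set.univ w s 0 (fun x => g v (sb f (sub ρ x)))
      have hB : ∀ f, f ∉ A → (B f).card * 2 ^ c ≤ k * Fintype.card Γ := by
        intro f hf
        have h5 : ∀ v, IsC Set.univ w s k (fun x => g v (sb f x)) := by
          by_contra hcon
          exact hf (Finset.mem_filter.2 ⟨Finset.mem_univ _, hcon⟩)
        exact h3 V' inferInstance (fun v x => g v (sb f x)) hV h5
      have hsub : (Finset.univ.filter fun p : Gm ι Q × Γ =>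
          ¬ ∀ v, IsC Set.univ w s 0 (fun x => g v (sb p.1 (sub p.2 x)))) ⊆
          A ×ˢ Finset.univ ∪ (Finset.univ \ A).biUnion fun f => {f} ×ˢ B f := by
        rintro ⟨f, ρ⟩ hp
        rw [Finset.mem_union]
        by_cases hf : f ∈ A
        · left
          exact Finset.mem_product.2 ⟨hf, Finset.mem_univ _⟩
        · right
          rw [Finset.mem_biUnion]
          refine ⟨f, Finset.mem_sdiff.2 ⟨Finset.mem_univ _, hf⟩, Finset.mem_product.2
            ⟨Finset.mem_singleton_self _, ?_⟩⟩
          exact Finset.mem_filter.2 ⟨Finset.mem_univ _, (Finset.mem_filter.1 hp).2⟩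
      have h4 := Finset.card_le_card hsub
      have h5 := h4.trans (Finset.card_union_le _ _)
      have h6 : ((Finset.univ \ A).biUnion fun f => ({f} : Finset (Gm ι Q)) ×ˢ B f).card * 2 ^ c
          ≤ Fintype.card (Gm ι Q) * (k * Fintype.card Γ) := by
        calc _ ≤ (∑ f ∈ Finset.univ \ A, (({f} : Finset (Gm ι Q)) ×ˢ B f).card) * 2 ^ c :=
              Nat.mul_le_mul_right _ Finset.card_biUnion_le
          _ = ∑ f ∈ Finset.univ \ A, (B f).card * 2 ^ c := by
              rw [Finset.sum_mul]
              refine Finset.sum_congr rfl fun f _ => ?_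
              rw [Finset.card_product, Finset.card_singleton, one_mul]
          _ ≤ ∑ _f ∈ Finset.univ \ A, k * Fintype.card Γ :=
              Finset.sum_le_sum fun f hf => hB f (Finset.mem_sdiff.1 hf).2
          _ = (Finset.univ \ A).card * (k * Fintype.card Γ) := by simp
          _ ≤ _ := Nat.mul_le_mul_right _ (Finset.card_le_univ _)
      have h7 : (A ×ˢ (Finset.univ : Finset Γ)).card * 2 ^ c
          ≤ Fintype.card (Gm ι Q) * Fintype.card Γ := by
        rw [Finset.card_product, Finset.card_univ]
        calc A.card * Fintype.card Γ * 2 ^ c = A.card * 2 ^ c * Fintype.card Γ := by ring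
          _ ≤ _ := Nat.mul_le_mul_right _ hst
      calc _ ≤ ((A ×ˢ (Finset.univ : Finset Γ)).card + ((Finset.univ \ A).biUnion fun f =>
              ({f} : Finset (Gm ι Q)) ×ˢ B f).card) * 2 ^ c := Nat.mul_le_mul_right _ h5
        _ ≤ Fintype.card (Gm ι Q) * Fintype.card Γ
            + Fintype.card (Gm ι Q) * (k * Fintype.card Γ) := by
              rw [add_mul]
              exact Nat.add_le_add h7 h6
        _ = (k + 1) * Fintype.card (Gm ι Q × Γ) := by
              rw [Fintype.card_prod]; ring

/-- depth of the trees in the cube lemma -/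
def ss (r w t m : ℕ) : ℕ := w * (r + 1) + m + r + t

/-- constant of the cube lemma -/
def KK (r w t m : ℕ) : ℕ := (ss r w t m + 1) * (8 * ss r w t m + 9) ^ (2 * r)

/-- The cube lemma. -/
theorem cube (ι : Type) [Fintype ι] [DecidableEq ι] (r w t m : ℕ)
    (hm : Fintype.card ι ≤ 2 ^ m) : open Classical in
    ∃ (Γ : Type) (_ : Fintype Γ) (b : Γ → ι → Bool) (R : Γ → Finset ι) (n0 : ℕ), 0 < n0 ∧
      (∀ i, (Finset.univ.filter fun ρ => i ∈ R ρ).card = n0) ∧
      ∀ (g : Fin (2 ^ w) → (ι → Bool) → Bool), (∀ v, IsC Set.univ w t r (g v)) →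
      ∀ c : (ι → Bool) → Fin (2 ^ w),
        ∑ ρ, ((R ρ).filter fun i => g (c (b ρ)) (b ρ) = false ∧
          g (c (b ρ)) (flip1 (b ρ) i) = true).card ≤ KK r w t m * n0 := by
  classical
  set s := ss r w t m with hs
  obtain ⟨Γ, hΓ, hne, sub, R, h1, h2, h3⟩ := stages ι w w s (m + r) (8 * s + 8) le_rfl r (by
    rw [hs]
    unfold ss
    have : w * (r + 1) = w * r + w := by ring
    omega)
  have hcard : 0 < Fintype.card Γ := Fintype.card_pos
  rcases isEmpty_or_nonempty ι with hι | hι
  · refine ⟨Γ, hΓ, fun _ _ => false, R, 1, one_pos, fun i => (hι.false i).elim, ?_⟩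
    intro g _ c
    have : ∀ ρ, ((R ρ).filter fun i => g (c (fun _ => false)) (fun _ => false) = false ∧
          g (c (fun _ => false)) (flip1 (fun _ => false) i) = true).card = 0 := by
      intro ρ
      rw [Finset.card_eq_zero, Finset.eq_empty_iff_forall_notMem]
      intro i
      exact (hι.false i).elim
    simp only [this, Finset.sum_const_zero]
    exact Nat.zero_le _
  · set n0 := (Finset.univ.filter fun ρ => Classical.arbitrary ι ∈ R ρ).card with hn0
    have h4 : n0 * (8 * s + 8 + 1) ^ (2 * r) = Fintype.card Γ := h1 _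
    have h5 : 0 < n0 := by
      rcases Nat.eq_zero_or_pos n0 with h | h
      · rw [h, zero_mul] at h4
        omega
      · exact h
    refine ⟨Γ, hΓ, fun ρ => sub ρ (fun _ => false), R, n0, h5, ?_, ?_⟩
    · intro i
      have h6 := h1 i
      rw [← h4] at h6
      exact Nat.eq_of_mul_eq_mul_right (by positivity) h6
    · intro g hg c
      have ht : t ≤ s := by rw [hs]; unfold ss; omega
      have h6 := h3 (Fin (2 ^ w)) inferInstance g (by simp) fun v =>
        (hg v).mono (subset_refl _) le_rfl ht
      set A := Finset.univ.filter fun ρ =>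
        ¬ ∀ v, IsC Set.univ w s 0 (fun x => g v (sub ρ x)) with hA
      have h7 : ∀ ρ, ρ ∉ A → ((R ρ).filter fun i =>
          g (c (sub ρ (fun _ => false))) (sub ρ (fun _ => false)) = false ∧
          g (c (sub ρ (fun _ => false))) (flip1 (sub ρ (fun _ => false)) i) = true).card ≤ s := by
        intro ρ hρ
        have h8 : ∀ v, IsC Set.univ w s 0 (fun x => g v (sub ρ x)) := by
          by_contra hcon
          exact hρ (Finset.mem_filter.2 ⟨Finset.mem_univ _, hcon⟩)
        obtain ⟨D, hD1, _, hD3⟩ := h8 (c (sub ρ (fun _ => false)))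
        have hsub : ((R ρ).filter fun i =>
          g (c (sub ρ (fun _ => false))) (sub ρ (fun _ => false)) = false ∧
          g (c (sub ρ (fun _ => false))) (flip1 (sub ρ (fun _ => false)) i) = true) ⊆
            (queries (fun _ => false) D).toFinset := by
          intro i hi
          obtain ⟨hi1, hi2, hi3⟩ := Finset.mem_filter.1 hi
          rw [List.mem_toFinset]
          by_contra hq
          have h9 := queries_eval (fun _ => false) (flip1 (fun _ => false) i) D (by
            intro v hv
            unfold flip1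
            rw [Function.update_of_ne]
            rintro rfl
            exact hq hv)
          have h10 : g (c (sub ρ (fun _ => false))) (sub ρ (flip1 (fun _ => false) i))
              = g (c (sub ρ (fun _ => false))) (sub ρ (fun _ => false)) :=
            (hD3 _).trans (h9.trans (hD3 _).symm)
          rw [h2 ρ i hi1] at h10
          rw [h10, hi2] at hi3
          exact absurd hi3 (by simp)
        exact (Finset.card_le_card hsub).trans ((List.toFinset_card_le _).trans
          ((queries_length _ D).trans hD1))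
      have h8 : A.card * Fintype.card ι ≤ Fintype.card Γ := by
        have h9 : r ≤ 2 ^ r := Nat.lt_two_pow_self.le
        have h10 : 2 ^ r * (A.card * 2 ^ m) ≤ 2 ^ r * Fintype.card Γ := by
          calc 2 ^ r * (A.card * 2 ^ m) = A.card * 2 ^ (m + r) := by rw [pow_add]; ring
            _ ≤ r * Fintype.card Γ := by
                  rw [hA]
                  convert h6 using 4
            _ ≤ 2 ^ r * Fintype.card Γ := Nat.mul_le_mul_right _ h9
        exact (Nat.mul_le_mul_left _ hm).trans (Nat.le_of_mul_le_mul_left h10 (by positivity))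
      rw [← Finset.sum_filter_add_sum_filter_not Finset.univ (fun ρ => ρ ∈ A)]
      have h9 : ∑ ρ ∈ Finset.univ.filter (fun ρ => ρ ∈ A), ((R ρ).filter fun i =>
          g (c (sub ρ (fun _ => false))) (sub ρ (fun _ => false)) = false ∧
          g (c (sub ρ (fun _ => false))) (flip1 (sub ρ (fun _ => false)) i) = true).card
          ≤ Fintype.card Γ := by
        refine le_trans ?_ h8
        calc _ ≤ ∑ _ρ ∈ Finset.univ.filter (fun ρ => ρ ∈ A), Fintype.card ι :=
              Finset.sum_le_sum fun ρ _ => Finset.card_le_univ _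
          _ = A.card * Fintype.card ι := by simp
      have h10 : ∑ ρ ∈ Finset.univ.filter (fun ρ => ρ ∉ A), ((R ρ).filter fun i =>
          g (c (sub ρ (fun _ => false))) (sub ρ (fun _ => false)) = false ∧
          g (c (sub ρ (fun _ => false))) (flip1 (sub ρ (fun _ => false)) i) = true).card
          ≤ s * Fintype.card Γ := by
        calc _ ≤ ∑ _ρ ∈ Finset.univ.filter (fun ρ => ρ ∉ A), s :=
              Finset.sum_le_sum fun ρ hρ => h7 ρ (Finset.mem_filter.1 hρ).2
          _ = (Finset.univ.filter (fun ρ => ρ ∉ A)).card * s := by simp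
          _ ≤ Fintype.card Γ * s := Nat.mul_le_mul_right _ (Finset.card_le_univ _)
          _ = _ := by ring
      calc _ ≤ Fintype.card Γ + s * Fintype.card Γ := Nat.add_le_add h9 h10
        _ = KK r w t m * n0 := by
          rw [← h4]
          unfold KK
          rw [← hs]
          ring

end Pool.Agent.Lib.Pa76659G
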