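import Pool.Agent.Lib.Pa76659.Defs

/-!
Nondeterministic classes with advice: arbitrary advice of polynomial length, advice with bits in
`Δ_{k+1}`, advice that can be checked in coNP.
-/

set_option autoImplicit false

namespace Pool.Agent.Lib.Pa76659G

open Pool.Agent.Lib.Pa76659

/-- the empty oracle -/
def emp : Lang := fun _ => false

/-- the pair of two strings: every bit of `a` is preceded by `true`, then comes `false`, then `b` -/
def pr (a b : Str) : Str := a.flatMap (fun c => [true, c]) ++ false :: b

/-- `NP(X)/poly`: the languages `B` with `x ∈ B` iff `(x, h(|x|)) ∈ C`, for some `C` in `NP(X)` and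
some advice strings `h(n)` of polynomial length -/
def NPPoly (X : Lang) : Set Lang :=
  {B | ∃ C ∈ NPO X, ∃ (h : ℕ → Str) (r : Polynomial ℕ), (∀ n, (h n).length ≤ r.eval n) ∧
    ∀ x : Str, B x = C (pr x (h x.length))}

/-- the string `1^n` -/
def on1 (n : ℕ) : Str := List.replicate n true

/-- The advice string for the length `n`: its bits are the values of `W` at the pairs `(1^n, 1^i)`,
`i < r(n)`. -/
noncomputable def advStr (W : Lang) (r : Polynomial ℕ) (n : ℕ) : Str :=
  (List.range (r.eval n)).map (fun i => W (pr (on1 n) (on1 i)))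

/-- `NP(X)` with advice computable in `Δ_{k+1}^P(X)`: the languages `B` with `x ∈ B` iff
`(x, h(|x|)) ∈ C`, for some `C` in `NP(X)` and advice strings `h(n)` of polynomial length whose bits
are decided by a language in `Δ_{k+1}^P(X)`. For `k = 1`: the advice is computable in polynomial time
with an oracle in `NP(X)`. -/
def NPAdv (X : Lang) (k : ℕ) : Set Lang :=
  {B | ∃ C ∈ NPO X, ∃ W ∈ DelSucc X k, ∃ r : Polynomial ℕ,
    ∀ x : Str, B x = C (pr x (advStr W r x.length))}

/-- `NP(X)` with advice that can be checked in `coNP(X)`: for some `C`, `D` in `NP(X)` and each `n`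
there is a string `u` of polynomial length with `(1^n, u) ∉ D`, and all these strings `u` are correct
advice: `x ∈ B` iff `(x, u) ∈ C` for the strings `x` of length `n`. -/
def NPChk (X : Lang) : Set Lang :=
  {B | ∃ C ∈ NPO X, ∃ D ∈ NPO X, ∃ r : Polynomial ℕ, ∀ n : ℕ,
    (∃ u : Str, u.length ≤ r.eval n ∧ D (pr (on1 n) u) = false) ∧
    ∀ u : Str, u.length ≤ r.eval n → D (pr (on1 n) u) = false →
      ∀ x : Str, x.length = n → B x = C (pr x u)}

end Pool.Agent.Lib.Pa76659G
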