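import Pool.Agent.Lib.Pa76659.Basic
import Pool.Agent.Lib.Pa76659G.Spec

/-!
Definitions for the theorem on generic oracles and relativisably low sets: pairing of strings,
patched oracles, tables.
-/

namespace Pool.Agent.Lib.Pa76659G

open Pool.Agent.Lib.Pa76659

/-! ### pairing of strings -/

/-- decoding of a pair (total) -/
def un : Str → Str × Str
  | true :: c :: r => (c :: (un r).1, (un r).2)
  | false :: r => ([], r)
  | _ => ([], [])

def fst (x : Str) : Str := (un x).1

def snd (x : Str) : Str := (un x).2

/-! ### patched oracles -/

/-- first value of the key `u` in an association list -/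
def look : List (Str × Str) → Str → Option Str
  | [], _ => none
  | e :: a, u => if u = e.1 then some e.2 else look a u

/-- the oracle `G` with the strings `e` of the association list written at the addresses
`v` with `snd v = key`, bit number `|fst v|` -/
def patchL (G : Lang) (a : List (Str × Str)) : Lang := fun v =>
  match look a (snd v) with
  | some e => if (fst v).length < e.length then e.getD (fst v).length false else G v
  | none => G v

/-! ### the hard languages -/

/-- the string stored in the second half of the oracle `O = join (join Y G) A` at the node `w`:
`G (pr 1^i w)` for `i < n`, where `n = |fst (fst w)|` -/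
def entry (O : Lang) (w : Str) : Str :=
  (List.range (fst (fst w)).length).map (fun i => O (false :: true :: pr (on1 i) w))

open Classical in
/-- the alternating languages: `O = join (join Y G) A`; a node is `w = pr z path`,
`z = pr 1^n (pr 1^m 1^L)` -/
noncomputable def QL (O : Lang) : ℕ → Lang
  | 0, w => O (true :: entry O w)
  | j + 1, w => decide (∃ y : Str, y.length = (fst (snd (fst w))).length ∧
      QL O j (pr (fst w) (pr y (snd w))) = false)

/-! ### tests -/

/-- computation of the nondeterministic machine `i` on `u` with witness `y` and the oracle
`pEval p O` (clocked) -/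
def acc (p : PIx) (i : NIx) (O : Lang) (u y : Str) : Bool :=
  accepts (pEval p O) i.1 (inp2 u y) (i.2.1.eval u.length)

/-- literals: `(true, u, _)` is `machine i with oracle pEval p O accepts u`; `(false, u, y)` is
`the computation on u with witness y rejects` -/
noncomputable def lit (p : PIx) (i : NIx) (O : Lang) (t : Bool × Str × Str) : Bool :=
  if t.1 = true then nEval i (pEval p O) t.2.1 else !(acc p i O t.2.1 t.2.2)

/-- a test for strings `x`: the string `x` is written at the address `w`, the association list `a`
elsewhere, and the literal is evaluated -/
structure Test where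
  w : Str
  a : List (Str × Str)
  t : Bool × Str × Str

/-- total length of an association list -/
def szL (a : List (Str × Str)) : ℕ := (a.map (fun e => e.1.length + e.2.length + 1)).sum

def Test.size (τ : Test) : ℕ := τ.w.length + szL τ.a + τ.t.2.1.length + τ.t.2.2.length + 1

/-- value of the test on `x` -/
noncomputable def Test.val (p : PIx) (i : NIx) (Y G : Lang) (τ : Test) (x : Str) : Bool :=
  lit p i (join Y (patchL G ((τ.w, x) :: τ.a))) τ.t

/-! ### arrays -/

/-- `j`-dimensional arrays -/
def Arr (ι X : Type) : ℕ → Type
  | 0 => X
  | j + 1 => ι → Arr ι X j

open Classical in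
/-- the alternating value of an array -/
noncomputable def Qv {ι X : Type} (a : X → Bool) : ∀ j : ℕ, Arr ι X j → Bool
  | 0, x => a x
  | j + 1, Y => decide (∃ i : ι, Qv a j (Y i) = false)

/-- index strings -/
abbrev Idx (m : ℕ) := List.Vector Bool m

/-- child of a node -/
def child (w : Str) (y : Str) : Str := pr (fst w) (pr y (snd w))

/-- association list of an array of strings at the node `w` -/
noncomputable def tabL {m n : ℕ} : ∀ j : ℕ, Str → Arr (Idx m) (Idx n) j → List (Str × Str)
  | 0, w, x => [(w, x.1)]
  | j + 1, w, Y => (Finset.univ : Finset (Idx m)).toList.flatMap
      (fun y => tabL j (child w y.1) (Y y))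

/-- root node -/
def root (n m L : ℕ) : Str := pr (pr (on1 n) (pr (on1 m) (on1 L))) []

end Pool.Agent.Lib.Pa76659G
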