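import Pool.Agent.Lib.Pa76659G.Adv
import Pool.Agent.Lib.Pa76659G.PHInf
import Pool.Agent.Lib.Pa76659G.Cls
import Pool.Agent.Lib.Pa76659.Limit

set_option autoImplicit false

/-!
Two applications of computable advice.

* A set in `NP^X` whose complement has at most one element of each length is in `\hat L_3^X`.
* The tally set `{x : the second half of the oracle has an element of length |x|}` is in `\hat L_2^X`,
  and for comeager many oracles it is not in `L_1^X`.
-/

namespace Pool.Agent.Lib.Pa76659G

open Pool.Agent.Lib.Pa76659 Pool.Agent.Lib.Pa76659.Hier PC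

/-- A set with at most one exception of each length. -/
theorem rlow_of_exc {X A : Lang} (hA : A ∈ NPO X)
    (h1 : ∀ x y : Str, x.length = y.length → A x = false → A y = false → x = y) :
    A ∈ RLowSucc X 2 := by
  classical
  refine rlow_of_adv hA ?_
  set W : Lang := fun v => decide (∃ y : Str, y.length ≤ v.length ∧ (y.length = (fst v).length ∧
    A y = false ∧ (true :: y).getD (snd v).length false = true)) with hW
  have hWm : W ∈ NPO A := by
    have hv : PolyC (fun _ : Str × Str => A) (fun _ => True) [fun p => p.1, fun p => p.2]
      (fun p => p.1) := PolyC.var (by simp)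
    have hy : PolyC (fun _ : Str × Str => A) (fun _ => True) [fun p => p.1, fun p => p.2]
      (fun p => p.2) := PolyC.var (by simp)
    have e1 := PolyB.natEq (PolyN.length hy) (PolyN.length (PolyC.fst hv))
    have e2 : PolyB (fun _ : Str × Str => A) (fun _ => True) [fun p => p.1, fun p => p.2]
      (fun p => A p.2) := PolyC.query hy
    have e3 := PolyB.getD (PolyC.cons true hy) (PolyN.length (PolyC.snd hv))
    refine mem_NPO_le Polynomial.X (e1.and (e2.not.and e3)) (fun v => ?_)
    rw [hW, decide_eq_true_eq, Polynomial.eval_X]
    simp only [Bool.and_eq_true, decide_eq_true_eq, Bool.not_eq_true']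
  refine ⟨fun z => decide (snd z = true :: fst z), ?_, W,
    ⟨W, ⟨A, ⟨X, query_mem X, hA⟩, hWm⟩, query_mem W⟩, Polynomial.X + 1, ?_⟩
  · refine PO_subset_NPO X (mem_PO ?_)
    have hx : PolyC (fun _ : Str => X) (fun _ => True) [fun x => x] (fun x => x) :=
      PolyC.var (by simp)
    exact PolyB.strEq (PolyC.snd hx) (PolyC.cons true (PolyC.fst hx))
  · intro x
    show (!(A x)) = decide (snd (pr x _) = true :: fst (pr x _))
    rw [fst_pr, snd_pr]
    have hbit : ∀ i, W (pr (on1 x.length) (on1 i)) = true ↔ ∃ y : Str, y.length = x.length ∧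
        A y = false ∧ (true :: y).getD i false = true := by
      intro i
      rw [hW, decide_eq_true_eq, fst_pr, snd_pr, on1_eq, on1_eq, PC.un_length, PC.un_length]
      constructor
      · rintro ⟨y, -, h2⟩
        exact ⟨y, h2⟩
      · rintro ⟨y, h2, h3⟩
        refine ⟨y, ?_, h2, h3⟩
        rw [pr_length, PC.un_length]
        omega
    rw [Bool.eq_iff_iff, decide_eq_true_eq, Bool.not_eq_true']
    constructor
    · intro hx
      apply List.ext_getElem
      · rw [advStr_length]; simp
      · intro i h2 h3
        simp only [advStr, List.getElem_map, List.getElem_range]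
        rw [Bool.eq_iff_iff, hbit]
        constructor
        · rintro ⟨y, hy1, hy2, hy3⟩
          obtain rfl := h1 y x hy1 hy2 hx
          rw [List.getD_eq_getElem _ _ h3] at hy3
          exact hy3
        · intro h4
          refine ⟨x, rfl, hx, ?_⟩
          rw [List.getD_eq_getElem _ _ h3]
          exact h4
    · intro h2
      have h3 : W (pr (on1 x.length) (on1 0)) = true := by
        have h4 := congrArg (fun l => l.getD 0 false) h2
        simp only [List.getD_cons_zero] at h4
        rw [List.getD_eq_getElem _ _ (by rw [advStr_length]; simp)] at h4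
        simpa only [advStr, List.getElem_map, List.getElem_range] using h4
      obtain ⟨y, hy1, hy2, -⟩ := (hbit 0).1 h3
      have h5 : y = x := by
        have h6 : advStr W (Polynomial.X + 1) x.length = true :: y := by
          apply List.ext_getElem
          · rw [advStr_length]; simp [hy1]
          · intro i h2 h3
            simp only [advStr, List.getElem_map, List.getElem_range]
            rw [Bool.eq_iff_iff, hbit]
            constructor
            · rintro ⟨y', hy1', hy2', hy3'⟩
              obtain rfl := h1 y' y (hy1'.trans hy1.symm) hy2' hy2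
              rw [List.getD_eq_getElem _ _ h3] at hy3'
              exact hy3'
            · intro h4
              refine ⟨y, hy1, hy2, ?_⟩
              rw [List.getD_eq_getElem _ _ h3]
              exact h4
        rw [h6] at h2
        exact (List.cons_injective h2)
      rw [← h5]
      exact hy2

open Classical in
/-- The tally set of the lengths of the elements of the second half of the oracle. -/
noncomputable def Tal (X : Lang) : Lang :=
  fun x => decide (∃ z : Str, z.length = x.length ∧ X (true :: z) = true)

theorem Tal_iff (X : Lang) (x : Str) :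
    Tal X x = true ↔ ∃ z : Str, z.length = x.length ∧ X (true :: z) = true := by
  simp only [Tal, decide_eq_true_eq]

theorem Tal_mem (X : Lang) : Tal X ∈ NPO X := by
  have hx : PolyC (fun _ : Str × Str => X) (fun _ => True) [fun p => p.1, fun p => p.2]
    (fun p => p.1) := PolyC.var (by simp)
  have hy : PolyC (fun _ : Str × Str => X) (fun _ => True) [fun p => p.1, fun p => p.2]
    (fun p => p.2) := PolyC.var (by simp)
  have e2 : PolyB (fun _ : Str × Str => X) (fun _ => True) [fun p => p.1, fun p => p.2]
    (fun p => X (true :: p.2)) := PolyC.query (PolyC.cons true hy)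
  refine mem_NPO Polynomial.X e2 (fun x => ?_)
  rw [Tal_iff, Polynomial.eval_X]

theorem Tal_rlow (X : Lang) : Tal X ∈ RLowSucc X 1 := by
  refine rlow_of_adv (Tal_mem X) ?_
  refine ⟨fun z => !((snd z).headD false), ?_, fun v => Tal X (fst v),
    ⟨fun v => Tal X (fst v), ⟨X, query_mem X, NPO_comp (Tal_mem X)
      (PolyC.fst (PolyC.var (by simp)))⟩, query_mem _⟩, 1, ?_⟩
  · refine PO_subset_NPO X (mem_PO ?_)
    have hx : PolyC (fun _ : Str => X) (fun _ => True) [fun x => x] (fun x => x) :=
      PolyC.var (by simp)
    exact (PolyB.headD (PolyC.snd hx)).not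
  · intro x
    show (!(Tal X x)) = !((snd (pr x _)).headD false)
    rw [snd_pr, advStr, Polynomial.eval_one]
    have h1 : (List.range 1).map (fun i => Tal X (fst (pr (on1 x.length) (on1 i)))) =
      [Tal X (on1 x.length)] := by simp
    rw [h1, List.headD_cons]
    congr 1
    rw [Bool.eq_iff_iff, Tal_iff, Tal_iff, on1_eq, PC.un_length]

/-- certificates of the value `true` -/
theorem cert1 {V : Type*} {S : Set V} {w t : ℕ} {F : (V → Bool) → Bool} (hF : IsC S w t 1 F)
    {O : V → Bool} (h : F O = true) : ∃ Q : List V, Q.length ≤ t ∧
      ∀ O' : V → Bool, (∀ v ∈ Q, O' v = O v) → F O' = true := by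
  obtain ⟨g, h1, h2⟩ := hF
  obtain ⟨j, hj⟩ := (h2 O).1 h
  obtain ⟨T, hT1, -, hT3⟩ := h1 j
  refine ⟨queries O T, (queries_length O T).trans hT1, fun O' hO' => ?_⟩
  rw [h2 O']
  refine ⟨j, ?_⟩
  rw [hT3, queries_eval O O' T hO', ← hT3, hj]

theorem exists_str_not_mem (n : ℕ) (Q : List Str) (h : Q.length < 2 ^ n) :
    ∃ z : Str, z.length = n ∧ z ∉ Q := by
  classical
  by_contra hcon
  push Not at hcon
  have h1 : Finset.image (fun v : List.Vector Bool n => v.1) Finset.univ ⊆ Q.toFinset := by
    intro z hz
    rw [Finset.mem_image] at hz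
    obtain ⟨v, -, rfl⟩ := hz
    rw [List.mem_toFinset]
    exact hcon v.1 v.2
  have h2 := Finset.card_le_card h1
  have h4 := Finset.card_image_of_injective (Finset.univ : Finset (List.Vector Bool n))
    (f := fun v => v.1) (fun a b h => Subtype.ext h)
  rw [h4, Finset.card_univ, card_vector, Fintype.card_bool] at h2
  have h3 := List.toFinset_card_le Q
  omega

/-- certificates for nondeterministic machines -/
theorem nEval_cert (p : PIx) (i : NIx) : ∃ b : ℕ, ∀ (x : Str) (O : Lang),
    nEval i (pEval p O) x = true → ∃ Q : List Str, Q.length ≤ (x.length + 2) ^ b ∧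
      ∀ O' : Lang, (∀ v ∈ Q, O' v = O v) → nEval i (pEval p O') x = true := by
  obtain ⟨b, hb⟩ := sEval_isC p [i]
  refine ⟨b, fun x O h => ?_⟩
  have h1 := hb (x.length + 2) (by omega) x (by omega)
  exact cert1 (F := fun O => nEval i (pEval p O) x) h1 h

theorem Tal_diff (Y : Lang) (i : NIx) :
    ∀ᶠ G in residual Lang, ∃ x, nEval i (join Y G) x ≠ !(Tal (join Y G) x) := by
  refine residual_of (fun G => ∃ x, nEval i (join Y G) x ≠ !(Tal (join Y G) x)) ?_ ?_
  · rintro G ⟨x, hx⟩
    obtain ⟨m, hm⟩ := loc_nEval i x.length
    refine ⟨max m (x.length + 1), fun G' hG' => ⟨x, ?_⟩⟩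
    have h1 : nEval i (join Y G') x = nEval i (join Y G) x :=
      hm (join Y G') (join Y G) (fun v hv => join_congr hG' (hv.trans (le_max_left _ _))) x le_rfl
    have h2 : Tal (join Y G') x = Tal (join Y G) x := by
      rw [Bool.eq_iff_iff, Tal_iff, Tal_iff]
      constructor
      · rintro ⟨z, h3, h4⟩
        refine ⟨z, h3, ?_⟩
        rw [← join_congr hG' (v := true :: z) (by
          simp only [List.length_cons]; rw [h3]; exact le_max_right _ _)]
        exact h4
      · rintro ⟨z, h3, h4⟩
        refine ⟨z, h3, ?_⟩
        rw [join_congr hG' (v := true :: z) (by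
          simp only [List.length_cons]; rw [h3]; exact le_max_right _ _)]
        exact h4
    rw [h1, h2]
    exact hx
  · intro G N
    obtain ⟨b, hb⟩ := nEval_cert pq i
    obtain ⟨n0, hn0⟩ := pow_le_two_pow (2 * b + 1)
    set n := max n0 (max N 3) with hn
    have e1 : n0 ≤ n := le_max_left _ _
    have e2 : N ≤ n := le_trans (le_max_left _ _) (le_max_right _ _)
    have e3 : 3 ≤ n := le_trans (le_max_right _ _) (le_max_right _ _)
    set G1 : Lang := fun v => if v.length < N then G v else false with hG1
    have hG1m : G1 ∈ nb G N := by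
      intro v hv
      simp only [hG1, if_pos hv]
    set x : Str := on1 n with hx
    have hxl : x.length = n := by rw [hx, on1_eq, PC.un_length]
    have hT1 : Tal (join Y G1) x = false := by
      rw [← Bool.not_eq_true, Tal_iff]
      rintro ⟨z, h3, h4⟩
      have h5 : G1 z = true := h4
      simp only [hG1] at h5
      rw [if_neg (by omega)] at h5
      exact absurd h5 (by simp)
    by_cases h1 : nEval i (join Y G1) x = true
    · have h1' : nEval i (pEval pq (join Y G1)) x = true := by rw [pEval_pq]; exact h1
      obtain ⟨Q, hQ1, hQ2⟩ := hb x (join Y G1) h1'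
      obtain ⟨z, hz1, hz2⟩ := exists_str_not_mem n (Q.map List.tail) (by
        rw [List.length_map]
        rw [hxl] at hQ1
        have h2 := hn0 n e1
        have h4 : (n + 2) ^ b ≤ (n ^ 2) ^ b := Nat.pow_le_pow_left (by nlinarith) b
        have h5 : (n ^ 2) ^ b < n ^ (2 * b + 1) := by
          rw [← pow_mul]
          exact Nat.pow_lt_pow_right (by omega) (by omega)
        omega)
      classical
      refine ⟨Function.update G1 z true, ?_, x, ?_⟩
      · intro v hv
        rw [Function.update_of_ne, hG1m v hv]
        rintro rfl
        omega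
      · have h5 : nEval i (join Y (Function.update G1 z true)) x = true := by
          have h6 := hQ2 (join Y (Function.update G1 z true)) (fun v hv => by
            rcases v with _ | ⟨c, v⟩
            · rfl
            · cases c
              · rfl
              · show Function.update G1 z true v = G1 v
                rw [Function.update_of_ne]
                rintro rfl
                exact hz2 (List.mem_map.2 ⟨_, hv, rfl⟩))
          rwa [pEval_pq] at h6
        have h7 : Tal (join Y (Function.update G1 z true)) x = true := by
          rw [Tal_iff]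
          refine ⟨z, by rw [hz1, hxl], ?_⟩
          show Function.update G1 z true z = true
          simp
        rw [h5, h7]
        simp
    · refine ⟨G1, hG1m, x, ?_⟩
      rw [hT1]
      rw [Bool.not_eq_true] at h1
      rw [h1]
      simp

/-- For comeager many oracles the tally set is not in `L_1`. -/
theorem Tal_not_low (Y : Lang) : ∀ᶠ G in residual Lang, Tal (join Y G) ∉ Low (join Y G) 1 := by
  have h : ∀ᶠ G in residual Lang, ∀ i : NIx, ∃ x, nEval i (join Y G) x ≠ !(Tal (join Y G) x) := by
    rw [eventually_countable_forall]
    exact Tal_diff Y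
  filter_upwards [h] with G hG hlow
  have h1 : (fun x => !(Tal (join Y G) x)) ∈ Sig (join (join Y G) (Tal (join Y G))) 1 := by
    have h2 : (fun x => !(Tal (join Y G) x)) ∈ PO (join (join Y G) (Tal (join Y G))) := by
      have hx : PolyC (fun _ : Str => join (join Y G) (Tal (join Y G))) (fun _ => True)
        [fun x => x] (fun x => x) := PolyC.var (by simp)
      have h3 : PolyB (fun _ : Str => join (join Y G) (Tal (join Y G))) (fun _ => True)
        [fun x => x] (fun x => Tal (join Y G) x) := PolyC.query (PolyC.cons true hx)
      exact mem_PO h3.not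
    exact ⟨_, h2, PO_subset_NPO _ (query_mem _)⟩
  obtain ⟨B, hB, hL⟩ := hlow.2 h1
  obtain ⟨i, hi⟩ := exists_nEval (NPO_subset hB hL)
  obtain ⟨x, hx⟩ := hG i
  exact hx (by rw [← hi])

end Pool.Agent.Lib.Pa76659G
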