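import Pool.Agent.Lib.Pa76659G.Yap

set_option autoImplicit false

/-!
The interface of the program side. (`QL_mem` is in `Mem`, `yap` in `Yap`.)
-/

namespace Pool.Agent.Lib.Pa76659G

open Pool.Agent.Lib.Pa76659

theorem notQL_mem (O : Lang) (j : ℕ) : (fun w => !(QL O j w)) ∈ Sig O (j + 1) := QL_not_mem O j

/-- threshold of tests -/
theorem thr_mem (Y G : Lang) (p : PIx) (i : NIx) : ∃ C ∈ NPO (join Y G),
    ∃ (enc : ℕ → List Test → Str) (r : Polynomial ℕ),
      (∀ θ ts, (enc θ ts).length ≤ r.eval (θ + (ts.map Test.size).sum)) ∧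
      ∀ (x : Str) (θ : ℕ) (ts : List Test),
        C (pr x (enc θ ts)) = decide (θ ≤ ts.countP (fun τ => τ.val p i Y G x)) := by
  obtain ⟨C, hC, h⟩ := thr_mem0 Y G p i
  refine ⟨C, hC, encL, 21 * Polynomial.X + 1, fun θ ts => ?_, h⟩
  have h1 := encL_length θ ts
  have h2 : PC.szT ts = (ts.map Test.size).sum := rfl
  simp only [Polynomial.eval_add, Polynomial.eval_mul, Polynomial.eval_X, Polynomial.eval_ofNat,
    Polynomial.eval_one]
  omega

/-- finite variations -/
theorem nppoly_fin {X B B' : Lang} (hB : B ∈ NPPoly X) (N : ℕ)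
    (h : ∀ x : Str, N ≤ x.length → B' x = B x) : B' ∈ NPPoly X := NPPoly_fin hB N h

/-- a finite oracle can be built into a program -/
theorem join_fin_mem (Y G : Lang) (N : ℕ) (h : ∀ v : Str, N ≤ v.length → G v = false) :
    join Y G ∈ PO Y := join_finite_mem h

theorem nppoly_mono {X X' : Lang} (h : X ∈ PO X') : NPPoly X ⊆ NPPoly X' := NPPoly_mono h

/-- the empty oracle -/
theorem empty_mem (X : Lang) : (fun _ => false : Lang) ∈ PO X :=
  PC.mem_PO (PC.PolyB.const false)

end Pool.Agent.Lib.Pa76659G
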