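import Pool.Agent.Lib.Pa76659G.Core3
import Pool.Agent.Lib.Pa76659G.IfaceP
import Pool.Agent.Lib.Pa76659P.Member

/-!
The relativisable comparison of oracles and the low classes of generic oracles.
-/

set_option maxHeartbeats 4000000

namespace Pool.Agent.Lib.Pa76659G

open Pool.Agent.Lib.Pa76659

theorem sig_le {X X' : Lang} (h : X ∈ PO X') : ∀ k, Sig X k ⊆ Sig X' k
  | 0 => PO_subset h
  | k + 1 => by
      rintro L ⟨B, hB, hL⟩
      exact ⟨B, sig_le h k hB, hL⟩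

theorem sig_step {X X' : Lang} {k : ℕ} (h : Sig X k ⊆ Sig X' k) : Sig X (k + 1) ⊆ Sig X' (k + 1) := by
  rintro L ⟨B, hB, hL⟩
  exact ⟨B, h hB, hL⟩

theorem sig_up {X X' : Lang} {k m : ℕ} (hkm : k ≤ m) (h : Sig X k ⊆ Sig X' k) :
    Sig X m ⊆ Sig X' m := by
  induction m, hkm using Nat.le_induction with
  | base => exact h
  | succ m _ ih => exact sig_step ih

theorem del_of_sig {X X' : Lang} {k : ℕ} (h : Sig X k ⊆ Sig X' k) : DelSucc X k ⊆ DelSucc X' k := by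
  rintro L ⟨B, hB, hL⟩
  exact ⟨B, h hB, hL⟩

theorem sig_of_del {X X' : Lang} {k : ℕ} (h : DelSucc X k ⊆ DelSucc X' k) :
    Sig X (k + 1) ⊆ Sig X' (k + 1) := by
  rintro L ⟨B, hB, hL⟩
  obtain ⟨C, hC, hBC⟩ := h ⟨B, hB, query_mem B⟩
  exact ⟨C, hC, NPO_subset hBC hL⟩

theorem PO_tr {A B C : Lang} (h1 : A ∈ PO B) (h2 : B ∈ PO C) : A ∈ PO C := PO_subset h2 h1

theorem join_le {A B C : Lang} (h1 : A ∈ PO C) (h2 : B ∈ PO C) : join A B ∈ PO C :=
  Pool.Agent.Lib.Pa76659P.join_mem2 h1 h2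

/-- the easy direction -/
theorem cmp_of_coNP {A B : Lang} (hB : B ∈ NPO A) (hc : (fun x => !(B x)) ∈ NPPoly A)
    {k : ℕ} (hk : 3 ≤ k) (X : Lang) : Sig (join B X) k ⊆ Sig (join A X) k := by
  have h1 : B ∈ NPO (join A X) := NPO_subset (left_mem A X) hB
  have h2 : (fun x => !(B x)) ∈ NPPoly (join A X) := nppoly_mono (left_mem A X) hc
  have h3 := sig_up hk (yap h1 h2)
  refine Set.Subset.trans (sig_le ?_ k) h3
  exact join_le (right_mem _ _) (PO_tr (right_mem A X) (left_mem _ _))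

theorem QL_congr_base (Y Y' G A : Lang) : ∀ (j : ℕ) (w : Str),
    QL (join (join Y G) A) j w = QL (join (join Y' G) A) j w
  | 0, w => rfl
  | j + 1, w => by
      rw [QL, QL]
      apply decide_eq_decide.2
      constructor
      · rintro ⟨y, hy, hy2⟩
        exact ⟨y, hy, by rw [← QL_congr_base Y Y' G A j]; exact hy2⟩
      · rintro ⟨y, hy, hy2⟩
        exact ⟨y, hy, by rw [QL_congr_base Y Y' G A j]; exact hy2⟩

/-- the hard direction -/
theorem coNP_of_cmp {A B : Lang}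
    (h : ¬ IsMeagre {X : Lang | ∃ k, Sig (join B X) k ⊆ Sig (join A X) k}) :
    (fun x => !(B x)) ∈ NPPoly A := by
  apply nonmeagre_QL
  intro hm
  apply h
  refine hm.mono ?_
  rintro X ⟨k, hk⟩
  refine ⟨k, ?_⟩
  have h1 := QL_not_mem (join (join (fun _ => false) X) B) (k + 1)
  have h2 : join (join (fun _ => false) X) B ∈ PO (join B X) :=
    join_le (join_le (empty_mem _) (right_mem _ _)) (left_mem _ _)
  have h3 := sig_up (show k ≤ k + 2 by omega) hk (sig_le h2 _ h1)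
  have h4 : (fun w => !(QL (join (join A X) B) (k + 1) w)) =
      fun w => !(QL (join (join (fun _ => false) X) B) (k + 1) w) := by
    funext w
    rw [QL_congr_base A (fun _ => false) X B]
  rw [h4]
  exact h3

theorem not_meagre_univ : ¬ IsMeagre (Set.univ : Set Lang) := by
  intro h
  have h1 : (Set.univ : Set Lang)ᶜ ∈ residual Lang := h
  rw [Set.compl_univ] at h1
  obtain ⟨x, hx⟩ := (dense_of_mem_residual h1).nonempty
  exact hx

/-- Theorem (RR) -/
theorem cmp_iff (A B : Lang) (hB : B ∈ NPO A) (k : ℕ) (hk : 3 ≤ k) :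
    ((∀ X, Sig (join B X) k ⊆ Sig (join A X) k) ↔ (fun x => !(B x)) ∈ NPPoly A) ∧
    ((∀ X, DelSucc (join B X) k ⊆ DelSucc (join A X) k) ↔ (fun x => !(B x)) ∈ NPPoly A) ∧
    (¬ IsMeagre {X | ∃ m, Sig (join B X) m ⊆ Sig (join A X) m} ↔
      (fun x => !(B x)) ∈ NPPoly A) := by
  have h3 : (fun x => !(B x)) ∈ NPPoly A → ∀ X, Sig (join B X) k ⊆ Sig (join A X) k :=
    fun hc X => cmp_of_coNP hB hc hk X
  have h4 : ∀ {m : ℕ}, (∀ X, Sig (join B X) m ⊆ Sig (join A X) m) →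
      ¬ IsMeagre {X | ∃ m, Sig (join B X) m ⊆ Sig (join A X) m} := by
    intro m h hm
    apply not_meagre_univ
    refine hm.mono ?_
    intro X _
    exact ⟨m, h X⟩
  refine ⟨⟨fun h => coNP_of_cmp (h4 h), h3⟩, ⟨fun h => coNP_of_cmp (h4 fun X => sig_of_del (h X)),
    fun h X => del_of_sig (h3 h X)⟩, ⟨coNP_of_cmp, fun h => h4 (h3 h)⟩⟩

theorem low_iff (k : ℕ) (hk : 3 ≤ k) (B : Lang) :
    (∀ X, B ∈ Low X k) ↔ (B ∈ NPO (fun _ => false) ∧ (fun x => !(B x)) ∈ NPPoly (fun _ => false)) := by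
  constructor
  · intro h
    refine ⟨(h _).1, ?_⟩
    apply ((cmp_iff (fun _ => false) B (h _).1 k hk).1).1
    intro X
    have h1 := sig_le (join_le (right_mem X B) (left_mem X B)) k
    have h2 := sig_le (right_mem (fun _ => false) X) k
    exact (h1.trans (h X).2).trans h2
  · rintro ⟨h1, h2⟩ X
    refine ⟨NPO_subset (empty_mem X) h1, ?_⟩
    have h3 := cmp_of_coNP h1 h2 hk X
    have h4 := sig_le (X := join X B) (join_le (right_mem B X) (left_mem B X)) k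
    have h5 := sig_le (join_le (empty_mem X) (query_mem X)) k
    exact (h4.trans h3).trans h5

theorem rlow_iff (k : ℕ) (hk : 3 ≤ k) (B : Lang) :
    (∀ X, B ∈ RLowSucc X k) ↔
      (B ∈ NPO (fun _ => false) ∧ (fun x => !(B x)) ∈ NPPoly (fun _ => false)) := by
  constructor
  · intro h
    exact (low_iff (k + 1) (by omega) B).1 fun X => rlow_low (h X)
  · intro h X
    exact low_rlow ((low_iff k hk B).2 h X)

/-- Theorem (GG) -/
theorem generic (Y : Lang) : ∀ᶠ G in residual Lang,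
    (∀ k, Sig (join Y G) k ≠ Sig (join Y G) (k + 1)) ∧
    ∀ k, 3 ≤ k → ∀ A, (A ∈ Low (join Y G) k ↔ A ∈ NPO (join Y G) ∧
        (fun x => !(A x)) ∈ NPPoly (join Y G)) ∧
      (A ∈ RLowSucc (join Y G) k ↔ A ∈ NPO (join Y G) ∧
        (fun x => !(A x)) ∈ NPPoly (join Y G)) := by
  filter_upwards [gen_coNP Y, ph_inf Y] with G h1 h2
  refine ⟨h2, fun k hk A => ?_⟩
  have h3 : A ∈ NPO (join Y G) ∧ (fun x => !(A x)) ∈ NPPoly (join Y G) → A ∈ Low (join Y G) k :=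
    fun h => ⟨h.1, sig_up hk (yap h.1 h.2)⟩
  exact ⟨⟨fun h => ⟨h.1, h1 k A h⟩, h3⟩, ⟨fun h => ⟨h.1, h1 (k + 1) A (rlow_low h)⟩,
    fun h => low_rlow (h3 h)⟩⟩

end Pool.Agent.Lib.Pa76659G
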