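import Pool.Agent.Lib.Pa76659G.H2d
import Pool.Agent.Lib.Pa76659G.Core3

set_option autoImplicit false

/-!
The exact description of `\hat L_2` for generic oracles and of the relativisably `\hat L_2` sets:
forcing and the choice of the parameters.
-/

namespace Pool.Agent.Lib.Pa76659G

open Pool.Agent.Lib.Pa76659 PC

/-- the machine decides the hard language -/
def RightD (Y : Lang) (Φ : Lang → Lang) (p : PIx) (i : NIx) (p2 : PIx) (G : Lang) : Prop :=
  ∀ w : Str, pEval p2 (nEval i (pEval p (join Y G))) w = EL (join (join Y G) (Φ (join Y G))) w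

theorem loc_EL : Loc EL := by
  intro n
  refine ⟨5 * n + 5, fun O O' h z hz => ?_⟩
  rw [Bool.eq_iff_iff, EL_iff, EL_iff]
  have hl := PC.fst_length_le z
  have hs := PC.snd_length_le z
  have key : ∀ y : Str, y.length = (snd z).length → O (true :: entD O z y) = O' (true :: entD O' z y) := by
    intro y hy
    have h1 : entD O z y = entD O' z y := by
      unfold entD
      apply List.map_congr_left
      intro b hb
      rw [List.mem_range] at hb
      apply h
      simp only [List.length_cons, pr_length, on1, List.length_replicate]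
      omega
    rw [h1]
    apply h
    simp only [List.length_cons, entD, List.length_map, List.length_range]
    omega
  constructor
  · rintro ⟨y, h1, h2⟩
    exact ⟨y, h1, by rw [← key y h1]; exact h2⟩
  · rintro ⟨y, h1, h2⟩
    exact ⟨y, h1, by rw [key y h1]; exact h2⟩

theorem rightD_fin {Y : Lang} {Φ : Lang → Lang} (hΦ : Loc Φ) (p : PIx) (i : NIx) (p2 : PIx)
    (G : Lang) (h : ¬ RightD Y Φ p i p2 G) : ∃ N, ∀ G' ∈ nb G N, ¬ RightD Y Φ p i p2 G' := by
  unfold RightD at h
  push Not at h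
  obtain ⟨w, hw⟩ := h
  obtain ⟨m1, h1⟩ := (Loc.comp (loc_sEval p2 []) (loc_sEval p [i])) w.length
  obtain ⟨m2, h2⟩ := (loc_EL.comp (loc_join hΦ)) w.length
  refine ⟨max m1 m2, fun G' hG' hR => hw ?_⟩
  have h3 := hR w
  have h4 : pEval p2 (nEval i (pEval p (join Y G'))) w = pEval p2 (nEval i (pEval p (join Y G))) w :=
    h1 (join Y G') (join Y G) (fun v hv => join_congr hG' (hv.trans (le_max_left _ _))) w le_rfl
  have h5 : EL (join (join Y G') (Φ (join Y G'))) w = EL (join (join Y G) (Φ (join Y G))) w :=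
    h2 (join Y G') (join Y G) (fun v hv => join_congr hG' (hv.trans (le_max_right _ _))) w le_rfl
  rw [h4, h5] at h3
  exact h3

theorem adv_of_forced {Y : Lang} {Φ : Lang → Lang} (hΦ : PLoc Φ) {p : PIx} {i : NIx} {p2 : PIx}
    {G : Lang} {N : ℕ} (h : ∀ G' ∈ nb G N, RightD Y Φ p i p2 G')
    (hmem : Φ (join Y G) ∈ NPO (join Y G)) :
    (fun x => !(Φ (join Y G) x)) ∈ NPAdv (join Y G) 1 := by
  obtain ⟨c, hc⟩ := hΦ
  obtain ⟨VA, qA, hVA, hA⟩ := exists_of_NPO hmem
  obtain ⟨b, hb⟩ := nEval_cert p i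
  -- growth
  set f : Polynomial ℕ := p2.2 * (Polynomial.X + p2.2 + 2) ^ b with hf
  obtain ⟨d, hd⟩ := poly_le (2 * (f.comp (3 * Polynomial.X + 1) + 1))
  obtain ⟨n0, hn0⟩ := pow_le_two_pow d
  set m : Polynomial ℕ := (Polynomial.X + 2) ^ c + Polynomial.X + Polynomial.C (N + n0 + 2) with hm
  have hm' : ∀ n, m.eval n = (n + 2) ^ c + n + (N + n0 + 2) := by
    intro n
    rw [hm]
    simp only [Polynomial.eval_add, Polynomial.eval_pow, Polynomial.eval_X, Polynomial.eval_ofNat,
      Polynomial.eval_C]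
  set K : Polynomial ℕ := f.comp (2 * Polynomial.X + 1 + m) + 1 with hK
  have hK' : ∀ n, K.eval n = p2.2.eval (zz n (m.eval n)).length *
      ((zz n (m.eval n)).length + p2.2.eval (zz n (m.eval n)).length + 2) ^ b + 1 := by
    intro n
    rw [hK, hf, zz_length]
    simp only [Polynomial.eval_add, Polynomial.eval_mul, Polynomial.eval_pow, Polynomial.eval_comp,
      Polynomial.eval_X, Polynomial.eval_ofNat, Polynomial.eval_one]
  refine adv_of_right (P := ⟨p, i, p2, m, K, VA, qA⟩) b hVA hA ?_ ?_ ?_ ?_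
  · intro s q hq O hO
    obtain ⟨Q, h1, h2⟩ := hb q O hO
    exact ⟨Q, h1.trans (Nat.pow_le_pow_left (by omega) b), h2⟩
  · intro n S hS
    show pEval p2 (nEval i (pEval p (join Y (pD (zz n (m.eval n)) S G)))) (zz n (m.eval n)) = true ↔ _
    set z := zz n (m.eval n) with hz
    set G' := pD z S G with hG'
    have hzs : (snd z).length = m.eval n := zz_snd n _
    have h1 : ∀ v : Str, v.length < m.eval n → G' v = G v := fun v hv =>
      pD_short (by rw [hzs]; exact hv)
    have h2 : G' ∈ nb G N := by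
      intro v hv
      refine h1 v ?_
      rw [hm' n]
      omega
    rw [h G' h2 z, EL_iff, hzs]
    have h3 : ∀ y : Str, y.length = m.eval n →
        join (join Y G') (Φ (join Y G')) (true :: entD (join (join Y G') (Φ (join Y G'))) z y) =
          Φ (join Y G) (S y) := by
      intro y hy
      rw [hG', hz, entD_pD hy (hS y hy), ← hz, ← hG']
      show Φ (join Y G') (S y) = _
      refine hc _ _ _ ?_
      intro v hv
      rw [hS y hy] at hv
      rcases v with _ | ⟨e, v⟩
      · rfl
      · cases e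
        · rfl
        · refine h1 v ?_
          rw [hm' n]
          simp only [List.length_cons] at hv
          omega
    constructor
    · rintro ⟨y, h4, h5⟩
      exact ⟨y, h4, by rw [← h3 y h4]; exact h5⟩
    · rintro ⟨y, h4, h5⟩
      exact ⟨y, h4, by rw [h3 y h4]; exact h5⟩
  · intro n
    show _ < K.eval n
    rw [hK' n]
    exact Nat.lt_succ_self _
  · intro n
    show 2 * K.eval n ≤ 2 ^ (m.eval n)
    have h1 : n0 ≤ m.eval n := by rw [hm' n]; omega
    have h2 : 2 ≤ m.eval n := by rw [hm' n]; omega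
    have h3 : n ≤ m.eval n := by rw [hm' n]; omega
    refine le_trans ?_ ((hd _ h2).trans (hn0 _ h1))
    simp only [hK, Polynomial.eval_add, Polynomial.eval_mul, Polynomial.eval_comp,
      Polynomial.eval_X, Polynomial.eval_ofNat, Polynomial.eval_one]
    have h4 := eval_mono f (show 2 * n + 1 + m.eval n ≤ 3 * m.eval n + 1 by omega)
    omega

/-- relative to comeager many oracles -/
theorem gen_adv (Y : Lang) : ∀ᶠ G in residual Lang, ∀ A ∈ RLowSucc (join Y G) 1,
    (fun x => !(A x)) ∈ NPAdv (join Y G) 1 := by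
  have h : ∀ᶠ G in residual Lang, ∀ (i0 : NIx) (p : PIx) (i : NIx) (p2 : PIx),
      RightD Y (nEval i0) p i p2 G →
        ∃ N, ∀ G' ∈ nb G N, RightD Y (nEval i0) p i p2 G' := by
    rw [eventually_countable_forall]
    intro i0
    rw [eventually_countable_forall]
    intro p
    rw [eventually_countable_forall]
    intro i
    rw [eventually_countable_forall]
    intro p2
    exact forced_of _ (fun G hG => rightD_fin (loc_nEval i0) p i p2 G hG)
  filter_upwards [h] with G hG A hA
  obtain ⟨i0, hi0⟩ := exists_nEval hA.1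
  set O := join (join Y G) A with hO
  have h2 : EL O ∈ DelSucc O 1 := ⟨EL O, ⟨O, query_mem O, EL_mem O⟩, query_mem _⟩
  obtain ⟨B, ⟨B0, hB0, hB⟩, hL⟩ := hA.2 h2
  obtain ⟨p, rfl⟩ := exists_pEval hB0
  obtain ⟨i, rfl⟩ := exists_nEval hB
  obtain ⟨p2, hp2⟩ := exists_pEval hL
  have h4 : RightD Y (nEval i0) p i p2 G := by
    intro w
    rw [← hp2, ← hi0]
  obtain ⟨N, hN⟩ := hG i0 p i p2 h4
  have h5 := adv_of_forced (nEval_congr i0) hN (by rw [← hi0]; exact hA.1)
  rw [← hi0] at h5
  exact h5

/-- relative to a non-meager set of oracles -/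
theorem nonmeagre_adv (Y A : Lang) (hAm : A ∈ NPO Y)
    (h : ¬ IsMeagre {G : Lang | DelSucc (join (join Y G) A) 1 ⊆ DelSucc (join Y G) 1}) :
    (fun x => !(A x)) ∈ NPAdv Y 1 := by
  have hex : ∃ (p : PIx) (i : NIx) (p2 : PIx), ¬ IsMeagre {G | RightD Y (fun _ => A) p i p2 G} := by
    by_contra hcon
    push Not at hcon
    apply h
    have h1 : ∀ᶠ G in residual Lang, ∀ (p : PIx) (i : NIx) (p2 : PIx),
        ¬ RightD Y (fun _ => A) p i p2 G := by
      rw [eventually_countable_forall]
      intro p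
      rw [eventually_countable_forall]
      intro i
      rw [eventually_countable_forall]
      intro p2
      exact hcon p i p2
    show {G : Lang | DelSucc (join (join Y G) A) 1 ⊆ DelSucc (join Y G) 1}ᶜ ∈ residual Lang
    filter_upwards [h1] with G hG
    intro hk
    set O := join (join Y G) A with hO
    have h2 : EL O ∈ DelSucc O 1 := ⟨EL O, ⟨O, query_mem O, EL_mem O⟩, query_mem _⟩
    obtain ⟨B, ⟨B0, hB0, hB⟩, hL⟩ := hk h2
    obtain ⟨p, rfl⟩ := exists_pEval hB0
    obtain ⟨i, rfl⟩ := exists_nEval hB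
    obtain ⟨p2, hp2⟩ := exists_pEval hL
    apply hG p i p2
    intro w
    rw [← hp2]
  obtain ⟨p, i, p2, hm⟩ := hex
  obtain ⟨G, N, hN⟩ := exists_forced _ (fun G hG =>
    rightD_fin (Φ := fun _ => A) (fun n => ⟨0, fun _ _ _ _ _ => rfl⟩) p i p2 G hG) hm
  set G1 : Lang := fun v => if v.length < N then G v else false with hG1
  have h1 : ∀ G' ∈ nb G1 N, RightD Y (fun _ => A) p i p2 G' := by
    intro G' hG'
    apply hN
    intro v hv
    rw [hG' v hv, hG1]
    simp [hv]
  have h2 := adv_of_forced (Φ := fun _ => A) ⟨0, fun _ _ _ _ => rfl⟩ h1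
    (NPO_subset (left_PO Y G1) hAm)
  refine NPAdv_mono (join_finite_mem (N := N) ?_) 1 h2
  intro v hv
  rw [hG1]
  simp only [if_neg (not_lt.2 hv)]

/-- The exact description of `\hat L_2` relative to comeager many oracles. -/
theorem gen_adv_iff (Y : Lang) : ∀ᶠ G in residual Lang, ∀ A : Lang, A ∈ RLowSucc (join Y G) 1 ↔
    A ∈ NPO (join Y G) ∧ (fun x => !(A x)) ∈ NPAdv (join Y G) 1 := by
  filter_upwards [gen_adv Y] with G hG A
  exact ⟨fun h => ⟨h.1, hG A h⟩, fun h => rlow_of_adv h.1 h.2⟩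

/-- The exact description of the relativisably `\hat L_2` sets. -/
theorem rel_adv_iff (Y A : Lang) (hA : A ∈ NPO Y) :
    (∀ X : Lang, DelSucc (join (join Y X) A) 1 ⊆ DelSucc (join Y X) 1) ↔
      (fun x => !(A x)) ∈ NPAdv Y 1 := by
  constructor
  · intro h
    refine nonmeagre_adv Y A hA ?_
    have h1 : {G : Lang | DelSucc (join (join Y G) A) 1 ⊆ DelSucc (join Y G) 1} = Set.univ :=
      Set.eq_univ_of_forall h
    rw [h1]
    exact not_isMeagre_of_isOpen isOpen_univ Set.univ_nonempty
  · intro h X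
    exact (rlow_of_adv (NPO_subset (left_PO Y X) hA) (NPAdv_mono (left_PO Y X) 1 h)).2

end Pool.Agent.Lib.Pa76659G
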