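import Pool.Agent.Lib.Pa76659G.Lop

set_option autoImplicit false

/-!
For comeager many oracles the language of the linear ordering principle is not in `\hat L_2`.
-/

namespace Pool.Agent.Lib.Pa76659G

open Pool.Agent.Lib.Pa76659 Pool.Agent.Lib.Pa76659.Hier PC

open Classical in
/-- the language of the strings `s` such that some exception of length `|s| + 1` begins with `true` -/
noncomputable def lopT (X : Lang) : Lang := fun s =>
  decide (∃ z : Str, z.length = s.length ∧ lopL X (true :: z) = false)

theorem lopT_iff (X : Lang) (s : Str) : lopT X s = true ↔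
    ∃ z : Str, z.length = s.length ∧ lopL X (true :: z) = false := by
  simp only [lopT, decide_eq_true_eq]

theorem lopT_mem (X : Lang) : lopT X ∈ NPO (join X (lopL X)) := by
  have hs : PolyC (fun _ : Str × Str => join X (lopL X)) (fun _ => True)
    [fun p => p.1, fun p => p.2] (fun p => p.1) := PolyC.var (by simp)
  have hv : PolyC (fun _ : Str × Str => join X (lopL X)) (fun _ => True)
    [fun p => p.1, fun p => p.2] (fun p => p.2) := PolyC.var (by simp)
  have h1 : PolyB (fun _ : Str × Str => join X (lopL X)) (fun _ => True)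
    [fun p => p.1, fun p => p.2] (fun p => lopL X (true :: p.2)) :=
    PolyC.query (PolyC.cons true (PolyC.cons true hv))
  refine mem_NPO Polynomial.X h1.not (fun s => ?_)
  rw [lopT_iff]
  simp only [Polynomial.eval_X, Bool.not_eq_true']

/-- the oracle `G` with the linear order given by `f` on the strings of length `n` -/
def ordO (G : Lang) (n : ℕ) (f : Str → ℕ) : Lang := fun v =>
  if (fst v).length = n ∧ (snd v).length = n ∧ v = pr (fst v) (snd v) then
    decide (f (fst v) < f (snd v)) else G v

theorem le2_ord (Y G : Lang) {n : ℕ} (f : Str → ℕ) {u v : Str} (hu : u.length = n)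
    (hv : v.length = n) : le2 (join Y (ordO G n f)) u v = decide (f u < f v) := by
  show ordO G n f (pr u v) = _
  unfold ordO
  rw [fst_pr, snd_pr, if_pos ⟨hu, hv, rfl⟩]

theorem ord_nb (G : Lang) {n N : ℕ} (f : Str → ℕ) (h : N ≤ 3 * n + 1) : ordO G n f ∈ nb G N := by
  intro v hv
  unfold ordO
  rw [if_neg]
  rintro ⟨h1, h2, h3⟩
  have h4 := congrArg List.length h3
  rw [pr_length] at h4
  omega

/-- the orders agree on a list -/
def Agr (R : List Str) (f f' : Str → ℕ) : Prop := ∀ u ∈ R, ∀ v ∈ R, (f u < f v ↔ f' u < f' v)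

theorem Agr.trans {R : List Str} {f g h : Str → ℕ} (h1 : Agr R f g) (h2 : Agr R g h) : Agr R f h :=
  fun u hu v hv => (h1 u hu v hv).trans (h2 u hu v hv)

theorem Agr.sub {R R' : List Str} {f g : Str → ℕ} (h1 : Agr R' f g) (h : R ⊆ R') : Agr R f g :=
  fun u hu v hv => h1 u (h hu) v (h hv)

/-- the vertices which are touched by queries -/
def rdQ (Q : List Str) : List Str := Q.flatMap (fun v => [fst v.tail, snd v.tail])

theorem rdQ_length (Q : List Str) : (rdQ Q).length = 2 * Q.length := by
  induction Q with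
  | nil => rfl
  | cons v Q ih =>
    have h : rdQ (v :: Q) = [fst v.tail, snd v.tail] ++ rdQ Q := by
      unfold rdQ
      rw [List.flatMap_cons]
    rw [h, List.length_append, ih]
    simp only [List.length_cons, List.length_nil]
    omega

theorem ord_agree (Y G : Lang) (n : ℕ) {f f' : Str → ℕ} {Q : List Str} (h : Agr (rdQ Q) f f')
    (v : Str) (hv : v ∈ Q) : join Y (ordO G n f') v = join Y (ordO G n f) v := by
  have h1 : fst v.tail ∈ rdQ Q := List.mem_flatMap.2 ⟨v, hv, by simp⟩
  have h2 : snd v.tail ∈ rdQ Q := List.mem_flatMap.2 ⟨v, hv, by simp⟩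
  have h3 := h _ h1 _ h2
  rcases v with _ | ⟨b, v⟩
  · rfl
  · cases b
    · rfl
    · show ordO G n f' v = ordO G n f v
      unfold ordO
      rw [List.tail_cons] at h3
      split_ifs
      · exact decide_eq_decide.2 h3.symm
      · rfl

theorem loVio_ord (Y G : Lang) {n : ℕ} {f : Str → ℕ} (hf : Function.Injective f) {u v w : Str}
    (hu : u.length = n) (hv : v.length = n) (hw : w.length = n) :
    loVio (join Y (ordO G n f)) u v w = false := by
  unfold loVio
  rw [le2_ord Y G f hu hv, le2_ord Y G f hv hu, le2_ord Y G f hv hw, le2_ord Y G f hu hw,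
    ← Bool.not_eq_true]
  simp only [Bool.or_eq_true, Bool.and_eq_true, decide_eq_true_eq, Bool.not_eq_true',
    decide_eq_false_iff_not]
  rintro (⟨h1, h2 | h2⟩ | ⟨h1, h2, h3⟩)
  · omega
  · have h3 : f u = f v := by omega
    exact h1 (hf h3)
  · omega

theorem lopL_ord (Y G : Lang) {n : ℕ} {f : Str → ℕ} (hf : Function.Injective f) {m : Str}
    (hm : m.length = n) (hmin : ∀ u : Str, u ≠ m → f m < f u) {x : Str} (hx : x.length = n) :
    lopL (join Y (ordO G n f)) x = false ↔ x = m := by
  rw [← Bool.not_eq_true, lopL_iff]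
  constructor
  · intro h1
    by_contra hne
    apply h1
    left
    refine ⟨m, by omega, fun h => hne h.symm, ?_⟩
    rw [le2_ord Y G f hm hx, decide_eq_true_eq]
    exact hmin x hne
  · rintro rfl (⟨y, h1, h2, h3⟩ | ⟨u, v, w, h1, h2, h3, h4⟩)
    · rw [le2_ord Y G f (h1.trans hx) hx, decide_eq_true_eq] at h3
      have := hmin y h2
      omega
    · rw [loVio_ord Y G hf (h1.trans hx) (h2.trans hx) (h3.trans hx)] at h4
      exact absurd h4 (by simp)

/-- Certificates for the positive queries are fixed one after another. -/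
theorem greedy (Y G : Lang) (n m q : ℕ) (F : Str → Lang → Bool)
    (hF : ∀ u : Str, u.length ≤ m → ∀ O : Lang, F u O = true → ∃ Q : List Str, Q.length ≤ q ∧
      ∀ O' : Lang, (∀ v ∈ Q, O' v = O v) → F u O' = true) :
    ∀ T : DT Str Bool, T.QIn {v | v.length ≤ m} → ∀ (f : Str → ℕ) (R : List Str),
      Function.Injective f → ∃ (f' : Str → ℕ) (R' : List Str) (b : Bool), Function.Injective f' ∧
        R ⊆ R' ∧ R'.length ≤ R.length + T.depth * (2 * q) ∧ Agr R f f' ∧
        ∀ f'' : Str → ℕ, Function.Injective f'' → Agr R' f' f'' →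
          T.eval (fun u => F u (join Y (ordO G n f''))) = b
  | DT.leaf b, _, f, R, hf => ⟨f, R, b, hf, fun _ h => h, by simp, fun _ _ _ _ => Iff.rfl,
      fun _ _ _ => rfl⟩
  | DT.node u T0 T1, ⟨h1, h2, h3⟩, f, R, hf => by
      by_cases hp : ∃ g : Str → ℕ, Function.Injective g ∧ Agr R f g ∧
          F u (join Y (ordO G n g)) = true
      · obtain ⟨g, hg1, hg2, hg3⟩ := hp
        obtain ⟨Q, hQ1, hQ2⟩ := hF u h1 _ hg3
        obtain ⟨f', R', b, h4, h5, h6, h7, h8⟩ := greedy Y G n m q F hF T1 h3 g (R ++ rdQ Q) hg1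
        refine ⟨f', R', b, h4, fun x hx => h5 (List.mem_append_left _ hx), ?_,
          hg2.trans (h7.sub fun x hx => List.mem_append_left _ hx), fun f'' hf'' hA => ?_⟩
        · rw [List.length_append, rdQ_length] at h6
          simp only [DT.depth]
          have h9 : T1.depth ≤ max T0.depth T1.depth := le_max_right _ _
          have h10 : T1.depth * (2 * q) ≤ max T0.depth T1.depth * (2 * q) :=
            Nat.mul_le_mul_right _ h9
          rw [add_mul, one_mul]
          omega
        · have h9 : F u (join Y (ordO G n f'')) = true := by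
            apply hQ2
            intro v hv
            apply ord_agree Y G n _ v hv
            exact (h7.sub fun x hx => List.mem_append_right _ hx).trans
              (hA.sub fun x hx => h5 (List.mem_append_right _ hx))
          rw [DT.eval, if_pos h9]
          exact h8 f'' hf'' hA
      · obtain ⟨f', R', b, h4, h5, h6, h7, h8⟩ := greedy Y G n m q F hF T0 h2 f R hf
        refine ⟨f', R', b, h4, h5, ?_, h7, fun f'' hf'' hA => ?_⟩
        · simp only [DT.depth]
          have h9 : T0.depth ≤ max T0.depth T1.depth := le_max_left _ _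
          have h10 : T0.depth * (2 * q) ≤ max T0.depth T1.depth * (2 * q) :=
            Nat.mul_le_mul_right _ h9
          rw [add_mul, one_mul]
          omega
        · have h9 : ¬ F u (join Y (ordO G n f'')) = true := fun h => hp ⟨f'', hf'',
            h7.trans (hA.sub h5), h⟩
          rw [DT.eval, if_neg h9]
          exact h8 f'' hf'' hA

theorem lop_dense (Y : Lang) (p : PIx) (i : NIx) (G : Lang) (N : ℕ) : ∃ G' ∈ nb G N,
    ∃ s : Str, pEval p (nEval i (join Y G')) s ≠ lopT (join Y G') s := by
  obtain ⟨b, hb⟩ := nEval_cert pq i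
  obtain ⟨P, t⟩ := p
  obtain ⟨c, hc⟩ := poly_le (t * (2 * (Polynomial.X + t + 2) ^ b) + 1)
  obtain ⟨n0, hn0⟩ := pow_le_two_pow c
  set n := max n0 (max N 2) with hn
  have e1 : n0 ≤ n := le_max_left _ _
  have e2 : N ≤ n := le_trans (le_max_left _ _) (le_max_right _ _)
  have e3 : 2 ≤ n := le_trans (le_max_right _ _) (le_max_right _ _)
  have hc' := (hc n e3).trans (hn0 n e1)
  simp only [Polynomial.eval_add, Polynomial.eval_mul, Polynomial.eval_pow, Polynomial.eval_X,
    Polynomial.eval_ofNat, Polynomial.eval_one] at hc'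
  set s : Str := on1 n with hs
  have hsl : s.length = n := by rw [hs, on1_eq, PC.un_length]
  set T := accTree P (inp s) (t.eval s.length) with hT
  have hTd : T.depth ≤ t.eval n :=
    (accTree_depth P (inp s) (t.eval s.length)).trans (by rw [hsl])
  have hTq : T.QIn {v | v.length ≤ n + t.eval n} := by
    refine (accTree_qin P (inp s) (t.eval s.length) s.length (inp_bdd s)).mono ?_
    intro v hv
    simp only [Set.mem_ofPred_eq, hsl] at hv ⊢
    exact hv
  -- an injective function
  obtain ⟨f0, hf0⟩ : ∃ f : Str → ℕ, Function.Injective f := Countable.exists_injective_nat Str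
  obtain ⟨f', R', bo, h1, -, h2, -, h3⟩ := greedy Y G (n + 1) (n + t.eval n)
    ((n + t.eval n + 2) ^ b) (fun u O => nEval i O u) (by
      intro u hu O hO
      have hO' : nEval i (pEval pq O) u = true := by rw [pEval_pq]; exact hO
      obtain ⟨Q, hQ1, hQ2⟩ := hb u O hO'
      refine ⟨Q, hQ1.trans (Nat.pow_le_pow_left (by omega) b), fun O' hO' => ?_⟩
      have := hQ2 O' hO'
      rwa [pEval_pq] at this) T hTq f0 [] hf0
  have h4 : R'.length < 2 ^ n := by
    have h5 := Nat.mul_le_mul_right (2 * (n + t.eval n + 2) ^ b) hTd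
    simp only [List.length_nil, zero_add] at h2
    omega
  obtain ⟨z, hz1, hz2⟩ := exists_str_not_mem n (R'.map List.tail) (by rwa [List.length_map])
  set m : Str := (!bo) :: z with hm
  have hmR : m ∉ R' := by
    intro h
    exact hz2 (List.mem_map.2 ⟨m, h, by rw [hm]; rfl⟩)
  classical
  set f'' : Str → ℕ := fun u => if u = m then 0 else f' u + 1 with hf''
  have hinj : Function.Injective f'' := by
    intro u v huv
    simp only [hf''] at huv
    split_ifs at huv with h5 h6 h6
    · rw [h5, h6]
    · exact h1 (by omega)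
  have hagr : Agr R' f' f'' := by
    intro u hu v hv
    have h5 : u ≠ m := fun h => hmR (h ▸ hu)
    have h6 : v ≠ m := fun h => hmR (h ▸ hv)
    simp only [hf'', if_neg h5, if_neg h6]
    omega
  have hmin : ∀ u : Str, u ≠ m → f'' m < f'' u := by
    intro u hu
    simp only [hf'', if_neg hu, if_true]
    omega
  refine ⟨ordO G (n + 1) f'', ord_nb G f'' (by omega), s, ?_⟩
  have h5 : pEval (P, t) (nEval i (join Y (ordO G (n + 1) f''))) s = bo := by
    have h6 := h3 f'' hinj hagr
    rw [← h6, hT, accTree_eval]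
    rfl
  have h6 : lopT (join Y (ordO G (n + 1) f'')) s = !bo := by
    rw [Bool.eq_iff_iff, lopT_iff]
    constructor
    · rintro ⟨z', h7, h8⟩
      have h9 := (lopL_ord Y G hinj (by rw [hm, List.length_cons, hz1]) hmin
        (x := true :: z') (by rw [List.length_cons, h7, hsl])).1 h8
      rw [hm] at h9
      exact (List.cons.inj h9).1.symm
    · intro h7
      refine ⟨z, by rw [hz1, hsl], ?_⟩
      refine (lopL_ord Y G hinj (by rw [hm, List.length_cons, hz1]) hmin
        (x := true :: z) (by rw [List.length_cons, hz1])).2 ?_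
      rw [hm, h7]
  rw [h5, h6]
  cases bo <;> simp

theorem lopL_congr {Y G G' : Lang} {N : ℕ} (h : G' ∈ nb G N) {x : Str}
    (hx : 3 * x.length + 2 ≤ N) : lopL (join Y G') x = lopL (join Y G) x := by
  have h1 : ∀ u v : Str, u.length = x.length → v.length = x.length →
      le2 (join Y G') u v = le2 (join Y G) u v := by
    intro u v hu hv
    exact join_congr h (v := true :: pr u v) (by
      rw [List.length_cons, pr_length]
      omega)
  rw [Bool.eq_iff_iff, lopL_iff, lopL_iff]
  constructor
  · rintro (⟨y, h2, h3, h4⟩ | ⟨u, v, w, h2, h3, h4, h5⟩)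
    · exact Or.inl ⟨y, h2, h3, by rw [← h1 y x h2 rfl]; exact h4⟩
    · refine Or.inr ⟨u, v, w, h2, h3, h4, ?_⟩
      unfold loVio at h5 ⊢
      rw [h1 u v h2 h3, h1 v u h3 h2, h1 v w h3 h4, h1 u w h2 h4] at h5
      exact h5
  · rintro (⟨y, h2, h3, h4⟩ | ⟨u, v, w, h2, h3, h4, h5⟩)
    · exact Or.inl ⟨y, h2, h3, by rw [h1 y x h2 rfl]; exact h4⟩
    · refine Or.inr ⟨u, v, w, h2, h3, h4, ?_⟩
      unfold loVio at h5 ⊢
      rw [h1 u v h2 h3, h1 v u h3 h2, h1 v w h3 h4, h1 u w h2 h4]
      exact h5

theorem lop_diff (Y : Lang) (p : PIx) (i : NIx) : ∀ᶠ G in residual Lang,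
    ∃ s : Str, pEval p (nEval i (join Y G)) s ≠ lopT (join Y G) s := by
  refine residual_of (fun G => ∃ s : Str, pEval p (nEval i (join Y G)) s ≠ lopT (join Y G) s) ?_
    (fun G N => lop_dense Y p i G N)
  rintro G ⟨s, hs⟩
  obtain ⟨m, hm⟩ := ((loc_sEval p []).comp (loc_nEval i)) s.length
  refine ⟨max m (3 * s.length + 5), fun G' hG' => ⟨s, ?_⟩⟩
  have h1 : pEval p (nEval i (join Y G')) s = pEval p (nEval i (join Y G)) s :=
    hm (join Y G') (join Y G) (fun v hv => join_congr hG' (hv.trans (le_max_left _ _))) s le_rfl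
  have h2 : lopT (join Y G') s = lopT (join Y G) s := by
    rw [Bool.eq_iff_iff, lopT_iff, lopT_iff]
    constructor
    · rintro ⟨z, h3, h4⟩
      refine ⟨z, h3, ?_⟩
      rw [← lopL_congr hG' (x := true :: z) (by
        rw [List.length_cons, h3]
        exact le_trans (by omega) (le_max_right _ _))]
      exact h4
    · rintro ⟨z, h3, h4⟩
      refine ⟨z, h3, ?_⟩
      rw [lopL_congr hG' (x := true :: z) (by
        rw [List.length_cons, h3]
        exact le_trans (by omega) (le_max_right _ _))]
      exact h4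
  rw [h1, h2]
  exact hs

/-- For comeager many oracles the language of the linear ordering principle is not in `\hat L_2`. -/
theorem lop_not_rlow (Y : Lang) : ∀ᶠ G in residual Lang,
    lopL (join Y G) ∉ RLowSucc (join Y G) 1 := by
  have h : ∀ᶠ G in residual Lang, ∀ (p : PIx) (i : NIx), ∃ s : Str,
      pEval p (nEval i (join Y G)) s ≠ lopT (join Y G) s := by
    rw [eventually_countable_forall]
    intro p
    rw [eventually_countable_forall]
    intro i
    exact lop_diff Y p i
  filter_upwards [h] with G hG hlow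
  have h1 : lopT (join Y G) ∈ DelSucc (join (join Y G) (lopL (join Y G))) 1 :=
    ⟨_, ⟨_, query_mem _, lopT_mem (join Y G)⟩, query_mem _⟩
  obtain ⟨B, ⟨C, hC, hB⟩, hL⟩ := hlow.2 h1
  obtain ⟨i, hi⟩ := exists_nEval (NPO_subset hC hB)
  obtain ⟨p, hp⟩ := exists_pEval hL
  obtain ⟨s, hs⟩ := hG p i
  apply hs
  rw [← hi, ← hp]

end Pool.Agent.Lib.Pa76659G
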