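import Pool.Agent.Lib.Pa76659G.Adv

set_option autoImplicit false

/-!
The low sets of level one.
-/

namespace Pool.Agent.Lib.Pa76659G

open Pool.Agent.Lib.Pa76659 PC

/-- The low sets of level 1. -/
theorem low1_iff {X A : Lang} : A ∈ Low X 1 ↔ A ∈ NPO X ∧ (fun x => !(A x)) ∈ NPO X := by
  constructor
  · intro h
    refine ⟨h.1, ?_⟩
    have h1 : (fun x => !(A x)) ∈ Sig (join X A) 1 := by
      have h2 : (fun x => !(A x)) ∈ PO (join X A) := by
        have hx : PolyC (fun _ : Str => join X A) (fun _ => True)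
          [fun x => x] (fun x => x) := PolyC.var (by simp)
        have h3 : PolyB (fun _ : Str => join X A) (fun _ => True)
          [fun x => x] (fun x => A x) := PolyC.query (PolyC.cons true hx)
        exact mem_PO h3.not
      exact ⟨_, h2, PO_subset_NPO _ (query_mem _)⟩
    obtain ⟨B, hB, hL⟩ := h.2 h1
    exact NPO_subset hB hL
  · rintro ⟨h1, h2⟩
    refine ⟨h1, ?_⟩
    rintro L hL
    have hC : (fun z => !(A (fst z))) ∈ NPO X := NPO_comp h2 (PolyC.fst (PolyC.var (by simp)))
    obtain ⟨B', ⟨B0, hB0, hB'⟩, F, hF⟩ := transl h1 hC 0 L hL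
    have h3 : ∀ z : Str, L z = B' (pr [] z) := by
      intro z
      refine (hF [] (F.eval z.length) (fun v _ => ?_) z le_rfl).symm
      show (!(A (fst (av [] v)))) = _
      rw [av, fst_pr]
    have h4 : L = fun z => B' (pr [] z) := funext h3
    rw [h4]
    exact ⟨X, query_mem X, NPO_comp (NPO_subset hB0 hB') (PolyC.pr PolyC.nil (PolyC.var (by simp)))⟩

end Pool.Agent.Lib.Pa76659G
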