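import Pool.Agent.Lib.Pa76659G.Defs

set_option autoImplicit false

/-!
The pigeonhole tournament: a language in `NP(X)` with at most one exception for each length.
-/

namespace Pool.Agent.Lib.Pa76659G

open Pool.Agent.Lib.Pa76659

/-- the value at `z` of the function of the ordered pair `(u, v)` which is written in the second
half of the oracle `X = join Y G`: the bits `G (pr 1^i (pr u (pr v z)))`, `i < |z|` -/
def gv (X : Lang) (u v z : Str) : Str :=
  (List.range z.length).map (fun i => X (true :: pr (on1 i) (pr u (pr v z))))

/-- `u` beats `v`: the function of the pair `(u, v)` takes the value zero, or the function of the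
pair `(v, u)` has a collision -/
def Beats (X : Lang) (u v : Str) : Prop :=
  (∃ z : Str, z.length = v.length ∧ gv X u v z = List.replicate v.length false) ∨
  ∃ z z' : Str, z.length = v.length ∧ z'.length = v.length ∧ z ≠ z' ∧ gv X v u z = gv X v u z'

open Classical in
/-- the strings that are beaten by another string of the same length -/
noncomputable def phpL (X : Lang) : Lang := fun v =>
  decide (∃ u : Str, u.length = v.length ∧ u ≠ v ∧ Beats X u v)

open Classical in
/-- the language of the strings `s` such that all strings of the length of `s` are beaten -/
noncomputable def phpAll (X : Lang) : Lang := fun s =>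
  decide (∀ v : Str, v.length = s.length → phpL X v = true)

end Pool.Agent.Lib.Pa76659G
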