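import Pool.Agent.Lib.Pa76659G.Exc
import Pool.Agent.Lib.Pa76659G.Php

set_option autoImplicit false

/-!
The pigeonhole tournament: membership, uniqueness of the exception; the set of the beaten vertices
is in `\hat L_3`.
-/

namespace Pool.Agent.Lib.Pa76659G

open Pool.Agent.Lib.Pa76659 PC

theorem gv_length (X : Lang) (u v z : Str) : (gv X u v z).length = z.length := by simp [gv]

theorem phpL_iff (X : Lang) (v : Str) : phpL X v = true ↔
    ∃ u : Str, u.length = v.length ∧ u ≠ v ∧ Beats X u v := by
  simp only [phpL, decide_eq_true_eq]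

/-- At most one vertex of each length is not beaten. -/
theorem php_unique (X : Lang) {u v : Str} (h : u.length = v.length) (hu : phpL X u = false)
    (hv : phpL X v = false) : u = v := by
  by_contra hne
  rw [← Bool.not_eq_true, phpL_iff] at hu hv
  have h1 : ¬ Beats X u v := fun h2 => hv ⟨u, h, hne, h2⟩
  have h2 : ¬ Beats X v u := fun h3 => hu ⟨v, h.symm, fun h4 => hne h4.symm, h3⟩
  unfold Beats at h1 h2
  push Not at h1 h2
  set n := v.length with hn
  let f : List.Vector Bool n → List.Vector Bool n := fun z =>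
    ⟨gv X u v z.1, by rw [gv_length]; exact z.2⟩
  have hf : Function.Injective f := by
    intro z z' hzz
    by_contra hne2
    refine h2.2 z.1 z'.1 ?_ ?_ (fun h3 => hne2 (Subtype.ext h3)) (congrArg Subtype.val hzz)
    · rw [h]; exact z.2
    · rw [h]; exact z'.2
  obtain ⟨z, hz⟩ := (Finite.injective_iff_surjective.1 hf) ⟨List.replicate n false, by simp⟩
  exact h1.1 z.1 z.2 (congrArg Subtype.val hz)

theorem gv_polyC {X : Lang} {α : Type*} {D : α → Prop} {ctx : List (α → Str)} {u v z : α → Str}
    (hu : PolyC (fun _ => X) D ctx u) (hv : PolyC (fun _ => X) D ctx v)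
    (hz : PolyC (fun _ => X) D ctx z) : PolyC (fun _ => X) D ctx (fun a => gv X (u a) (v a) (z a)) := by
  refine PolyC.map_range (PolyN.length hz)
    (φ := fun p : α × ℕ => X (true :: pr (on1 p.2) (pr (u p.1) (pr (v p.1) (z p.1))))) ?_
  refine PolyC.query (PolyC.cons _ (PolyC.pr (PolyC.var (by simp [on1_eq])) (PolyC.pr ?_
    (PolyC.pr ?_ ?_))))
  · exact (PolyC.lift hu (fun p hp => hp.1)).weakenRight _
  · exact (PolyC.lift hv (fun p hp => hp.1)).weakenRight _
  · exact (PolyC.lift hz (fun p hp => hp.1)).weakenRight _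

theorem phpL_mem (X : Lang) : phpL X ∈ NPO X := by
  have hv : PolyC (fun _ : Str × Str => X) (fun _ => True) [fun p => p.1, fun p => p.2]
    (fun p => p.1) := PolyC.var (by simp)
  have hw : PolyC (fun _ : Str × Str => X) (fun _ => True) [fun p => p.1, fun p => p.2]
    (fun p => p.2) := PolyC.var (by simp)
  have hu := PolyC.fst hw
  have hz := PolyC.fst (PolyC.snd hw)
  have hz' := PolyC.snd (PolyC.snd hw)
  have h0 : PolyC (fun _ : Str × Str => X) (fun _ => True) [fun p => p.1, fun p => p.2]
      (fun p => List.replicate p.1.length false) := by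
    refine (PolyC.map_range (PolyN.length hv) (φ := fun _ => false) (PolyB.const false)).congr ?_
    intro p _
    simp
  have e1 := PolyB.natEq (PolyN.length hu) (PolyN.length hv)
  have e2 := (PolyB.strEq hu hv).not
  have e3 := PolyB.natEq (PolyN.length hz) (PolyN.length hv)
  have e4 := PolyB.strEq (gv_polyC hu hv hz) h0
  have e5 := PolyB.natEq (PolyN.length hz') (PolyN.length hv)
  have e6 := (PolyB.strEq hz hz').not
  have e7 := PolyB.strEq (gv_polyC hv hu hz) (gv_polyC hv hu hz')
  refine mem_NPO_le (5 * Polynomial.X + 2)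
    (((e1.and e2).and (e3.and (e4.or (e5.and (e6.and e7)))))) (fun v => ?_)
  rw [phpL_iff]
  simp only [Bool.and_eq_true, Bool.or_eq_true, decide_eq_true_eq, Bool.not_eq_true',
    decide_eq_false_iff_not, Polynomial.eval_add, Polynomial.eval_mul, Polynomial.eval_X,
    Polynomial.eval_ofNat]
  constructor
  · rintro ⟨u, h1, h2, h3 | h3⟩
    · obtain ⟨z, h4, h5⟩ := h3
      refine ⟨pr u (pr z []), ?_, ?_⟩
      · simp only [pr_length, List.length_nil]
        omega
      · simp only [fst_pr, snd_pr]
        exact ⟨⟨h1, h2⟩, h4, Or.inl h5⟩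
    · obtain ⟨z, z', h4, h5, h6, h7⟩ := h3
      refine ⟨pr u (pr z z'), ?_, ?_⟩
      · simp only [pr_length]
        omega
      · simp only [fst_pr, snd_pr]
        exact ⟨⟨h1, h2⟩, h4, Or.inr ⟨h5, h6, h7⟩⟩
  · rintro ⟨w, -, ⟨h1, h2⟩, h3, h4 | h4⟩
    · exact ⟨fst w, h1, h2, Or.inl ⟨fst (snd w), h3, h4⟩⟩
    · exact ⟨fst w, h1, h2, Or.inr ⟨fst (snd w), snd (snd w), h3, h4⟩⟩

/-- The set of the beaten vertices is in `\hat L_3`. -/
theorem phpL_rlow (X : Lang) : phpL X ∈ RLowSucc X 2 :=
  rlow_of_exc (phpL_mem X) (fun _ _ h hx hy => php_unique X h hx hy)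

theorem phpAll_mem (X : Lang) : phpAll X ∈ Sig (join X (phpL X)) 2 := by
  classical
  set O := join X (phpL X) with hO
  set E : Lang := fun s => decide (∃ v : Str, v.length = s.length ∧ phpL X v = false) with hE
  have hEm : E ∈ NPO O := by
    have hs : PolyC (fun _ : Str × Str => O) (fun _ => True) [fun p => p.1, fun p => p.2]
      (fun p => p.1) := PolyC.var (by simp)
    have hv : PolyC (fun _ : Str × Str => O) (fun _ => True) [fun p => p.1, fun p => p.2]
      (fun p => p.2) := PolyC.var (by simp)
    have h1 : PolyB (fun _ : Str × Str => O) (fun _ => True) [fun p => p.1, fun p => p.2]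
      (fun p => phpL X p.2) := PolyC.query (PolyC.cons true hv)
    refine mem_NPO Polynomial.X h1.not (fun s => ?_)
    simp only [hE, decide_eq_true_eq, Polynomial.eval_X, Bool.not_eq_true']
  refine ⟨E, ⟨O, query_mem O, hEm⟩, ?_⟩
  have hs : PolyC (fun _ : Str × Str => E) (fun _ => True) [fun p => p.1, fun p => p.2]
    (fun p => p.1) := PolyC.var (by simp)
  have h1 : PolyB (fun _ : Str × Str => E) (fun _ => True) [fun p => p.1, fun p => p.2]
    (fun p => E p.1) := PolyC.query hs
  refine mem_NPO 0 h1.not (fun s => ?_)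
  have h2 : phpAll X s = !(E s) := by
    rw [Bool.eq_iff_iff]
    simp only [phpAll, hE, decide_eq_true_eq, Bool.not_eq_true', decide_eq_false_iff_not,
      not_exists, not_and, Bool.not_eq_false]
  rw [h2]
  simp only [Polynomial.eval_zero, List.length_eq_zero_iff, exists_eq_left]

end Pool.Agent.Lib.Pa76659G
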