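import Pool.Agent.Lib.Pa76659G.PhpMain
import Pool.Agent.Lib.Pa76659G.PhpMem

set_option autoImplicit false

/-!
The pigeonhole tournament separates level 2 from level 3 of the low hierarchy for comeager many
oracles.
-/

namespace Pool.Agent.Lib.Pa76659G

open Pool.Agent.Lib.Pa76659

/-- For comeager many oracles the pigeonhole tournament is not low at level 2. -/
theorem php_not_low (Y : Lang) :
    ∀ᶠ G in residual Lang, phpL (join Y G) ∉ Low (join Y G) 2 :=
  (Php.phpAll_not_mem Y).mono fun _ hG h => hG (h.2 (phpAll_mem _))

end Pool.Agent.Lib.Pa76659G
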