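import Pool.Agent.Lib.Pa76659G.Two8

set_option autoImplicit false
set_option maxHeartbeats 4000000

/-!
The second level: lowness of the level 2 relative to comeager (non-meager) many oracles gives
nondeterministic acceptance of the complement with advice which can be checked in `coNP`.
-/

namespace Pool.Agent.Lib.Pa76659G

open Pool.Agent.Lib.Pa76659

/-- relative to comeager many oracles -/
theorem gen_chk (Y : Lang) : ∀ᶠ G in residual Lang, ∀ A ∈ Low (join Y G) 2,
    (fun x => !(A x)) ∈ NPChk (join Y G) := by
  have h : ∀ᶠ G in residual Lang, ∀ (i0 : NIx) (p : PIx) (l : List NIx),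
      Right Y (nEval i0) p l (l.length - 1) G →
        ∃ N, ∀ G' ∈ nb G N, Right Y (nEval i0) p l (l.length - 1) G' := by
    rw [eventually_countable_forall]
    intro i0
    rw [eventually_countable_forall]
    intro p
    rw [eventually_countable_forall]
    intro l
    exact forced_of _ (fun G hG => right_fin (loc_nEval i0) p l (l.length - 1) G hG)
  filter_upwards [h] with G hG A hA
  obtain ⟨i0, hi0⟩ := exists_nEval hA.1
  have h2 := hA.2 (QL_not_mem (join (join Y G) A) 1)
  obtain ⟨p, l, hl, h3⟩ := exists_sEval h2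
  have h4 : Right Y (nEval i0) p l (l.length - 1) G := by
    intro w
    rw [← h3, hl, ← hi0]
  obtain ⟨N, hN⟩ := hG i0 p l h4
  obtain ⟨i1, i, rfl⟩ := List.length_eq_two.1 hl
  have h5 := Two.chk_of_forced (nEval_congr i0) hN (by rw [← hi0]; exact hA.1)
  rw [← hi0] at h5
  exact h5

/-- relative to a non-meager set of oracles -/
theorem nonmeagre_chk (Y A : Lang) (hA : A ∈ NPO Y)
    (h : ¬ IsMeagre {G : Lang | Sig (join (join Y G) A) 2 ⊆ Sig (join Y G) 2}) :
    (fun x => !(A x)) ∈ NPChk Y := by
  have hex : ∃ (p : PIx) (l : List NIx), l.length = 2 ∧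
      ¬ IsMeagre {G | Right Y (fun _ => A) p l (l.length - 1) G} := by
    by_contra hcon
    push Not at hcon
    apply h
    have h1 : ∀ᶠ G in residual Lang, ∀ (p : PIx) (l : List NIx), l.length = 2 →
        ¬ Right Y (fun _ => A) p l (l.length - 1) G := by
      rw [eventually_countable_forall]
      intro p
      rw [eventually_countable_forall]
      intro l
      by_cases hl : l.length = 2
      · have h2 : {G | Right Y (fun _ => A) p l (l.length - 1) G}ᶜ ∈ residual Lang := hcon p l hl
        filter_upwards [h2] with G hG _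
        exact hG
      · exact Filter.Eventually.of_forall fun G h2 => absurd h2 hl
    show {G : Lang | Sig (join (join Y G) A) 2 ⊆ Sig (join Y G) 2}ᶜ ∈ residual Lang
    filter_upwards [h1] with G hG
    intro hk
    have h2 := hk (QL_not_mem (join (join Y G) A) 1)
    obtain ⟨p, l, hl, h3⟩ := exists_sEval h2
    apply hG p l (by omega)
    intro w
    rw [← h3, hl]
  obtain ⟨p, l, hl, hm⟩ := hex
  obtain ⟨G, N, hN⟩ := exists_forced _ (fun G hG =>
    right_fin (Φ := fun _ => A) (fun n => ⟨0, fun _ _ _ _ _ => rfl⟩) p l (l.length - 1) G hG) hm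
  set G1 : Lang := fun v => if v.length < N then G v else false with hG1
  have h1 : ∀ G' ∈ nb G1 N, Right Y (fun _ => A) p l (l.length - 1) G' := by
    intro G' hG'
    apply hN
    intro v hv
    rw [hG' v hv, hG1]
    simp [hv]
  obtain ⟨i1, i, rfl⟩ := List.length_eq_two.1 hl
  have h2 := Two.chk_of_forced (Φ := fun _ => A) ⟨0, fun _ _ _ _ => rfl⟩ h1
    (NPO_subset (PC.left_PO Y G1) hA)
  refine NPChk_mono (join_finite_mem (N := N) ?_) h2
  intro v hv
  rw [hG1]
  simp only [if_neg (not_lt.2 hv)]

end Pool.Agent.Lib.Pa76659G
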