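import Pool.Agent.Lib.Pa76659G.Final
import Pool.Agent.Lib.Pa76659G.H2e
import Pool.Agent.Lib.Pa76659G.PhpLow
import Pool.Agent.Lib.Pa76659G.PhpMem
import Pool.Agent.Lib.Pa76659G.LopHard
import Pool.Agent.Lib.Pa76659G.Low1
import Pool.Agent.Lib.Pa76659G.TwoLow

/-!
All levels: the relativisable comparison of oracles and the low classes of generic oracles.
-/

set_option maxHeartbeats 4000000

namespace Pool.Agent.Lib.Pa76659G

open Pool.Agent.Lib.Pa76659

theorem del_le {X X' : Lang} (h : X ∈ PO X') (k : ℕ) : DelSucc X k ⊆ DelSucc X' k :=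
  del_of_sig (sig_le h k)

theorem join3 (A B X : Lang) : join (join A X) B ∈ PO (join B (join A X)) :=
  join_le (right_mem _ _) (left_mem _ _)

theorem join4 (A X : Lang) : join A (join A X) ∈ PO (join A X) :=
  join_le (left_mem _ _) (query_mem _)

theorem join5 (A B X : Lang) : join B X ∈ PO (join (join A X) B) :=
  join_le (right_mem _ _) (PO_tr (right_mem A X) (left_mem _ _))

theorem sig_cmp (A B : Lang) (k : ℕ) : (∀ X, Sig (join B X) k ⊆ Sig (join A X) k) ↔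
    ∀ X, Sig (join (join A X) B) k ⊆ Sig (join A X) k :=
  ⟨fun h X => ((sig_le (join3 A B X) k).trans (h (join A X))).trans (sig_le (join4 A X) k),
    fun h X => (sig_le (join5 A B X) k).trans (h X)⟩

theorem del_cmp (A B : Lang) (k : ℕ) : (∀ X, DelSucc (join B X) k ⊆ DelSucc (join A X) k) ↔
    ∀ X, DelSucc (join (join A X) B) k ⊆ DelSucc (join A X) k :=
  ⟨fun h X => ((del_le (join3 A B X) k).trans (h (join A X))).trans (del_le (join4 A X) k),
    fun h X => (del_le (join5 A B X) k).trans (h X)⟩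

/-- level `0` -/
theorem cmp0 (A B : Lang) : (∀ X, Sig (join B X) 0 ⊆ Sig (join A X) 0) ↔ B ∈ PO A := by
  constructor
  · intro h
    have h1 : B ∈ PO (join A (fun _ => false)) := h (fun _ => false) (left_mem B _)
    exact PO_tr h1 (join_le (query_mem A) (empty_mem A))
  · intro h X
    exact PO_subset (join_le (PO_tr h (left_mem A X)) (right_mem A X))

/-- level `1` -/
theorem cmp1 (A B : Lang) (hB : B ∈ NPO A) :
    (∀ X, Sig (join B X) 1 ⊆ Sig (join A X) 1) ↔ (fun x => !(B x)) ∈ NPO A := by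
  rw [sig_cmp]
  constructor
  · intro h
    have h1 : B ∈ Low (join A (fun _ => false)) 1 :=
      ⟨NPO_subset (left_mem A _) hB, h (fun _ => false)⟩
    have h2 := (low1_iff.1 h1).2
    exact NPO_subset (join_le (query_mem A) (empty_mem A)) h2
  · intro h X
    exact (low1_iff.2 ⟨NPO_subset (left_mem A X) hB, NPO_subset (left_mem A X) h⟩).2

/-- advice computable in `Δ_3` -/
theorem cmpD2 (A B : Lang) (hB : B ∈ NPO A) (h : (fun x => !(B x)) ∈ NPAdv A 2) :
    ∀ X, DelSucc (join B X) 2 ⊆ DelSucc (join A X) 2 := by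
  rw [del_cmp]
  intro X
  exact (rlow_of_adv (NPO_subset (left_mem A X) hB) (NPAdv_mono (left_mem A X) 2 h)).2

/-- level `Δ_2` -/
theorem cmpD1 (A B : Lang) (hB : B ∈ NPO A) :
    (∀ X, DelSucc (join B X) 1 ⊆ DelSucc (join A X) 1) ↔ (fun x => !(B x)) ∈ NPAdv A 1 := by
  rw [del_cmp]
  exact rel_adv_iff A B hB

/-- level `2` -/
theorem cmp2 (A B : Lang) (hB : B ∈ NPO A) :
    (∀ X, Sig (join B X) 2 ⊆ Sig (join A X) 2) ↔ (fun x => !(B x)) ∈ NPChk A := by
  rw [sig_cmp]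
  constructor
  · intro h
    refine nonmeagre_chk A B hB (fun hm => not_meagre_univ (hm.mono ?_))
    intro X _
    exact h X
  · intro h X
    exact chk_low (NPO_subset (left_mem A X) hB) (NPChk_mono (left_mem A X) h)

/-! ### the low classes relative to all oracles -/

theorem emp_mem (X : Lang) : emp ∈ PO X := empty_mem X

theorem emp1 (B X : Lang) : join B X ∈ PO (join X B) := join_le (right_mem X B) (left_mem X B)

theorem emp2 (X : Lang) : join emp X ∈ PO X := join_le (emp_mem X) (query_mem X)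

theorem all_low (k : ℕ) (B : Lang) : (∀ X, B ∈ Low X k) ↔
    B ∈ NPO emp ∧ ∀ X, Sig (join B X) k ⊆ Sig (join emp X) k := by
  constructor
  · intro h
    exact ⟨(h _).1, fun X => ((sig_le (emp1 B X) k).trans (h X).2).trans
      (sig_le (right_mem emp X) k)⟩
  · rintro ⟨h1, h2⟩ X
    exact ⟨NPO_subset (emp_mem X) h1, ((sig_le (emp1 X B) k).trans (h2 X)).trans
      (sig_le (emp2 X) k)⟩

theorem all_rlow (k : ℕ) (B : Lang) : (∀ X, B ∈ RLowSucc X k) ↔
    B ∈ NPO emp ∧ ∀ X, DelSucc (join B X) k ⊆ DelSucc (join emp X) k := by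
  constructor
  · intro h
    exact ⟨(h _).1, fun X => ((del_le (emp1 B X) k).trans (h X).2).trans
      (del_le (right_mem emp X) k)⟩
  · rintro ⟨h1, h2⟩ X
    exact ⟨NPO_subset (emp_mem X) h1, ((del_le (emp1 X B) k).trans (h2 X)).trans
      (del_le (emp2 X) k)⟩

/-- The low classes relative to all oracles. -/
theorem all_classes :
    (∀ B, (∀ X, B ∈ Low X 0) ↔ B ∈ PO emp) ∧
    (∀ B, (∀ X, B ∈ Low X 1) ↔ B ∈ NPO emp ∧ (fun x => !(B x)) ∈ NPO emp) ∧
    (∀ B, (∀ X, B ∈ RLowSucc X 1) ↔ B ∈ NPO emp ∧ (fun x => !(B x)) ∈ NPAdv emp 1) ∧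
    (∀ B, (∀ X, B ∈ Low X 2) ↔ B ∈ NPO emp ∧ (fun x => !(B x)) ∈ NPChk emp) ∧
    (∀ B, B ∈ NPO emp → (fun x => !(B x)) ∈ NPAdv emp 2 → ∀ X, B ∈ RLowSucc X 2) ∧
    ∀ k, 3 ≤ k → ∀ B,
      ((∀ X, B ∈ Low X k) ↔ B ∈ NPO emp ∧ (fun x => !(B x)) ∈ NPPoly emp) ∧
      ((∀ X, B ∈ RLowSucc X k) ↔ B ∈ NPO emp ∧ (fun x => !(B x)) ∈ NPPoly emp) := by
  refine ⟨fun B => ?_, fun B => ?_, fun B => ?_, fun B => ?_, fun B hB h => ?_,
    fun k hk B => ⟨?_, ?_⟩⟩
  · rw [all_low]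
    constructor
    · rintro ⟨-, h⟩; exact (cmp0 _ _).1 h
    · intro h; exact ⟨PO_subset_NPO _ h, (cmp0 _ _).2 h⟩
  · rw [all_low]
    exact and_congr_right fun h => cmp1 _ _ h
  · rw [all_rlow]
    exact and_congr_right fun h => cmpD1 _ _ h
  · rw [all_low]
    exact and_congr_right fun h => cmp2 _ _ h
  · rw [all_rlow]
    exact ⟨hB, cmpD2 _ _ hB h⟩
  · rw [all_low]
    exact and_congr_right fun h => (cmp_iff _ _ h k hk).1
  · rw [all_rlow]
    exact and_congr_right fun h => (cmp_iff _ _ h k hk).2.1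

/-! ### generic oracles -/

/-- The low hierarchy relative to generic oracles. -/
theorem generic_all (Y : Lang) : ∀ᶠ G in residual Lang, ∀ X, X = join Y G →
    (∀ k, Sig X k ≠ Sig X (k + 1)) ∧
    Low X 1 ⊂ RLowSucc X 1 ∧ RLowSucc X 1 ⊂ Low X 2 ∧ Low X 2 ⊂ RLowSucc X 2 ∧
    (∀ k, 3 ≤ k → Low X k = RLowSucc X k ∧ RLowSucc X k = Low X (k + 1)) ∧
    Low X 1 = {A | A ∈ NPO X ∧ (fun x => !(A x)) ∈ NPO X} ∧
    RLowSucc X 1 = {A | A ∈ NPO X ∧ (fun x => !(A x)) ∈ NPAdv X 1} ∧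
    Low X 2 = {A | A ∈ NPO X ∧ (fun x => !(A x)) ∈ NPChk X} ∧
    Low X 3 = {A | A ∈ NPO X ∧ (fun x => !(A x)) ∈ NPPoly X} := by
  filter_upwards [generic Y, gen_adv_iff Y, gen_chk Y, Tal_not_low Y, lop_not_rlow Y,
    php_not_low Y] with G h1 h2 h3 h4 h5 h6
  rintro X rfl
  set X := join Y G
  refine ⟨h1.1, ⟨low_rlow, fun h => h4 (h (Tal_rlow X))⟩, ⟨rlow_low, fun h => h5 (h (lopL_low X))⟩,
    ⟨low_rlow, fun h => h6 (h (phpL_rlow X))⟩, ?_, ?_, ?_, ?_, ?_⟩
  · intro k hk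
    constructor
    · ext A
      rw [(h1.2 k hk A).1, (h1.2 k hk A).2]
    · ext A
      rw [(h1.2 k hk A).2, (h1.2 (k + 1) (by omega) A).1]
  · ext A
    exact low1_iff
  · ext A
    exact h2 A
  · ext A
    exact ⟨fun h => ⟨h.1, h3 A h⟩, fun h => ⟨h.1, chk_low h.1 h.2⟩⟩
  · ext A
    exact (h1.2 3 le_rfl A).1

end Pool.Agent.Lib.Pa76659G
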