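import Pool.Agent.Lib.Pa76659G.PhpWorld
import Pool.Agent.Lib.Pa76659G.Rec
import Pool.Agent.Lib.Pa76659G.PHInf
import Pool.Agent.Lib.Pa76659G.Core2

set_option autoImplicit false
set_option maxHeartbeats 4000000

/-!
The pigeonhole tournament is not low at level 2 for comeager many oracles.
-/

namespace Pool.Agent.Lib.Pa76659G.Php

open Finset Pool.Agent.Lib.Pa76659 Pool.Agent.Lib.Pa76659G Pool.Agent.Lib.Pa76659.Hier

theorem card_Idx (n : ℕ) : Fintype.card (Idx n) = 2 ^ n := by
  rw [card_vector, Fintype.card_bool]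

theorem nonempty_Om {B : Type} [Fintype B] [DecidableEq B] (z : B) (h : 3 ≤ Fintype.card B) :
    Nonempty (Om B z) := by
  have h1 : 1 < (univ.erase z).card := by
    rw [Finset.card_erase_of_mem (Finset.mem_univ _), Finset.card_univ]
    omega
  obtain ⟨a, ha, b, hb, hab⟩ := Finset.one_lt_card.1 h1
  exact ⟨⟨(Equiv.refl B, z, a, b), ⟨(Finset.ne_of_mem_erase ha).symm,
    (Finset.ne_of_mem_erase hb).symm, hab⟩, rfl⟩⟩

theorem exists_diff_php (Y G : Lang) (N : ℕ) (p : PIx) (l : List NIx) (hl : l.length = 2) :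
    ∃ G' ∈ nb G N, ∃ s : Str, sEval p l (join Y G') s ≠ phpAll (join Y G') s := by
  classical
  by_contra hcon
  push Not at hcon
  obtain ⟨b, hb⟩ := sEval_isC p l
  rw [hl] at hb
  obtain ⟨d, hd⟩ := KK_poly 1 (b + 1)
  obtain ⟨n1, hn1⟩ := exists_m (d + 1)
  obtain ⟨n2, hn2⟩ := pow_le_two_pow (b + 2)
  set n := max (max n1 n2) (max N 2) with hn
  have e1 : n1 ≤ n := le_trans (le_max_left _ _) (le_max_left _ _)
  have e2 : n2 ≤ n := le_trans (le_max_right _ _) (le_max_left _ _)
  have e3 : N ≤ n := le_trans (le_max_left _ _) (le_max_right _ _)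
  have e4 : 2 ≤ n := le_trans (le_max_right _ _) (le_max_right _ _)
  obtain ⟨m, hmn, hm1, _⟩ := hn1 n e1
  set s : Str := List.replicate n false with hs
  have hsl : s.length = n := by simp [hs]
  obtain ⟨g, hg1, hg2⟩ := hb n e4 s hsl.le
  have hpos : 1 ≤ n ^ b := Nat.one_le_pow _ _ (by omega)
  have hcard : Fintype.card (Idx m) = 2 ^ m := card_Idx m
  have hB : Fintype.card (Idx n) = 2 ^ n := card_Idx n
  have hbig : 4 * n ^ b ≤ 2 ^ n := by
    have h1 := hn2 n e2
    have h2 : n ^ (b + 2) = n ^ b * (n * n) := by rw [pow_add, pow_two]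
    have h3 : n ^ b * (2 * 2) ≤ n ^ b * (n * n) := Nat.mul_le_mul_left _ (Nat.mul_le_mul e4 e4)
    omega
  obtain ⟨vert⟩ : Nonempty (Idx m ↪ Idx n) := by
    apply Function.Embedding.nonempty_of_card_le
    rw [hcard, hB]
    exact Nat.pow_le_pow_right (by norm_num) hmn
  haveI : Nonempty (Om (Idx n) (zer n)) := nonempty_Om _ (by rw [hB]; omega)
  have hKK : 2 * KK 1 (n ^ b) (n ^ b * 2) m < 2 ^ m := by
    have h1 : KK 1 (n ^ b) (n ^ b * 2) m ≤ n ^ d := by
      apply hd n e4
      · exact Nat.pow_le_pow_right (by omega) (by omega)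
      · rw [pow_succ]
        exact Nat.mul_le_mul_left _ e4
      · refine hmn.trans ?_
        calc n = n ^ 1 := (pow_one n).symm
          _ ≤ n ^ (b + 1) := Nat.pow_le_pow_right (by omega) (by omega)
    have h2 : n ^ d ≤ (n + 2) ^ d := Nat.pow_le_pow_left (by omega) _
    have h3 : (n + 2) ^ (d + 1) = (n + 2) ^ d * (n + 2) := pow_succ _ _
    have h4 : 1 ≤ (n + 2) ^ d := Nat.one_le_pow _ _ (by omega)
    have h5 : (n + 2) ^ d * 3 ≤ (n + 2) ^ d * (n + 2) := Nat.mul_le_mul_left _ (by omega)
    omega
  have hval : ∀ x : Idx m × Idx m → Idx n → Idx n,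
      (phpAll (join Y (orc vert G x)) s = true ↔ ∃ v, g v (join Y (orc vert G x)) = false) := by
    intro x
    rw [← hg2, ← hcon (orc vert G x) (fun v hv => orc_nb vert G x v (by omega)) s]
  refine php_count (ι := Idx m) (B := Idx n) (z := zer n) (n ^ b) (n ^ b) (n ^ b * 2) m
    hcard.le (by rw [hcard]; exact hKK) (by rw [hB]; omega) (by rw [hB]; omega)
    (fun v x => g v (join Y (orc vert G x))) ?_ ?_ ?_ ?_
  · intro R
    refine (hval _).1 (all_true vert Y G (by omega) _ ?_ ?_ hsl)
    · intro j
      have h0 : n + 2 ≤ (n + 2) ^ (d + 1) := Nat.le_self_pow (by omega) _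
      have h1 : 1 < Fintype.card (Idx m) := by rw [hcard]; omega
      exact Fintype.exists_ne_of_one_lt_card h1 j
    · intro e
      exact ⟨(R e).z0, (R e).fd_z0⟩
  · intro i S R v
    by_contra h
    rw [Bool.not_eq_true] at h
    have h1 := (hval _).2 ⟨v, h⟩
    rw [all_false vert Y G (by omega) _ i ?_ ?_ hsl] at h1
    · exact absurd h1 (by simp)
    · intro l hl
      have h2 : crs i (i, l) = true := by simp [crs, hl]
      have h3 : kap i (i, l) = some false := by simp [kap, h2, hl]
      have h4 : mix (crs i) (fun e => (S e).fd) (mdf (kap i) R) (i, l) = (R (i, l)).f0 := by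
        unfold mix mdf
        rw [if_pos h2, h3]
        rfl
      rw [h4]
      exact (R (i, l)).f0_inj
    · intro l hl z
      have h2 : crs i (l, i) = true := by simp [crs, hl]
      have h3 : kap i (l, i) = some true := by simp [kap, h2]
      have h4 : mix (crs i) (fun e => (S e).fd) (mdf (kap i) R) (l, i) = (R (l, i)).f1 := by
        unfold mix mdf
        rw [if_pos h2, h3]
        rfl
      rw [h4]
      exact (R (l, i)).f1_ne z
  · intro v x hx
    exact orc_cert vert Y G (hg1 v) x hx
  · intro v Y0 Y1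
    exact orc_isC vert Y G Y0 Y1 (hg1 v)

/-! ### dependence on finite parts -/

theorem gv_congr {X X' : Lang} {m : ℕ} (h : ∀ v : Str, v.length ≤ 7 * m + 4 → X v = X' v)
    {u v z : Str} (hu : u.length = m) (hv : v.length = m) (hz : z.length = m) :
    gv X u v z = gv X' u v z := by
  unfold gv
  apply List.map_congr_left
  intro i hi
  rw [List.mem_range] at hi
  apply h
  rw [List.length_cons, pr_length, pr_length, pr_length]
  have : (on1 i).length = i := by simp [on1]
  omega

theorem Beats_congr {X X' : Lang} {m : ℕ} (h : ∀ v : Str, v.length ≤ 7 * m + 4 → X v = X' v)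
    {u v : Str} (hu : u.length = m) (hv : v.length = m) : Beats X u v ↔ Beats X' u v := by
  unfold Beats
  refine or_congr ?_ ?_
  · refine exists_congr fun z => and_congr_right fun hz => ?_
    rw [gv_congr h hu hv (hz.trans hv)]
  · refine exists_congr fun z => exists_congr fun z' => and_congr_right fun hz =>
      and_congr_right fun hz' => and_congr_right fun _ => ?_
    rw [gv_congr h hv hu (hz.trans hv), gv_congr h hv hu (hz'.trans hv)]

theorem phpL_congr {X X' : Lang} {m : ℕ} (h : ∀ v : Str, v.length ≤ 7 * m + 4 → X v = X' v)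
    {v : Str} (hv : v.length = m) : phpL X v = phpL X' v := by
  unfold phpL
  apply decide_eq_decide.2
  refine exists_congr fun u => and_congr_right fun hu => and_congr_right fun _ => ?_
  exact Beats_congr h (hu.trans hv) hv

theorem phpAll_congr {X X' : Lang} {s : Str}
    (h : ∀ v : Str, v.length ≤ 7 * s.length + 4 → X v = X' v) : phpAll X s = phpAll X' s := by
  unfold phpAll
  apply decide_eq_decide.2
  refine forall_congr' fun v => forall_congr' fun hv => ?_
  rw [phpL_congr h hv]

theorem php_residual (Y : Lang) (p : PIx) (l : List NIx) (hl : l.length = 2) :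
    ∀ᶠ G in residual Lang, sEval p l (join Y G) ≠ phpAll (join Y G) := by
  refine (residual_of (fun G => ∃ s : Str, sEval p l (join Y G) s ≠ phpAll (join Y G) s)
    ?_ ?_).mono fun G ⟨s, hs⟩ h => hs (by rw [h])
  · rintro G ⟨s, hs⟩
    obtain ⟨b, hb⟩ := sEval_congr p l
    refine ⟨(s.length + 2) ^ b + (7 * s.length + 4) + 1, fun G' hG' => ⟨s, ?_⟩⟩
    have h1 : sEval p l (join Y G') s = sEval p l (join Y G) s :=
      hb s _ _ fun v hv => join_congr hG' (by omega)
    have h2 : phpAll (join Y G') s = phpAll (join Y G) s :=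
      phpAll_congr fun v hv => join_congr hG' (by omega)
    rw [h1, h2]
    exact hs
  · intro G N
    exact exists_diff_php Y G N p l hl

/-- For comeager many oracles the language `phpAll` is not at level 2 of the hierarchy. -/
theorem phpAll_not_mem (Y : Lang) :
    ∀ᶠ G in residual Lang, phpAll (join Y G) ∉ Sig (join Y G) 2 := by
  have h : ∀ᶠ G in residual Lang, ∀ p : PIx, ∀ l : List NIx, l.length = 2 →
      sEval p l (join Y G) ≠ phpAll (join Y G) := by
    rw [eventually_countable_forall]
    intro p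
    rw [eventually_countable_forall]
    intro l
    by_cases hl : l.length = 2
    · exact (php_residual Y p l hl).mono fun G hG _ => hG
    · exact Filter.Eventually.of_forall fun G h => absurd h hl
  refine h.mono fun G hG hk => ?_
  obtain ⟨p, l, hl, h2⟩ := exists_sEval hk
  exact hG p l hl h2.symm

end Pool.Agent.Lib.Pa76659G.Php
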