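import Pool.Agent.Lib.Pa76659G.Cls

set_option autoImplicit false

/-!
Certificates for the positive answers of a deterministic computation are fixed one after another.
-/

namespace Pool.Agent.Lib.Pa76659G.T3

open Pool.Agent.Lib.Pa76659

/-- the conditions on the path given by the answers: `none`: negative answer, `some c`: positive
answer with the certificate `c` -/
def conds {C : Type} : DT Str Bool → List (Option C) → List (Str × C)
  | DT.node _ T0 _, none :: l => conds T0 l
  | DT.node u _ T1, some c :: l => (u, c) :: conds T1 l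
  | _, _ => []

theorem greedy3 {W C : Type} (S : Set Str) (F : Str → W → Bool) (cert : Str → C → W → Prop)
    (hF : ∀ u ∈ S, ∀ O, F u O = true ↔ ∃ c, cert u c O) :
    ∀ T : DT Str Bool, T.QIn S → ∀ d, T.depth ≤ d → ∀ P : W → Prop, (∃ O, P O) →
      ∃ α : List (Option C), α.length = d ∧ (∀ a ∈ conds T α, a.1 ∈ S) ∧ ∃ b : Bool,
        (∃ O, P O ∧ ∀ a ∈ conds T α, cert a.1 a.2 O) ∧
        ∀ O, P O → (∀ a ∈ conds T α, cert a.1 a.2 O) → T.eval (fun u => F u O) = b
  | DT.leaf b, _, d, _, P, ⟨O, hO⟩ => by
      refine ⟨List.replicate d none, by simp, by simp [conds], b, ⟨O, hO, by simp [conds]⟩, ?_⟩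
      intro O _ _
      rfl
  | DT.node u T0 T1, ⟨h1, h2, h3⟩, d, hd, P, hP => by
      simp only [DT.depth] at hd
      obtain ⟨d, rfl⟩ : ∃ d', d = d' + 1 := ⟨d - 1, by omega⟩
      have d0 : T0.depth ≤ d := le_trans (le_max_left _ _) (by omega : max T0.depth T1.depth ≤ d)
      have d1 : T1.depth ≤ d := le_trans (le_max_right _ _) (by omega : max T0.depth T1.depth ≤ d)
      by_cases hp : ∃ O, P O ∧ F u O = true
      · obtain ⟨O, hO, hFO⟩ := hp
        obtain ⟨c, hc⟩ := (hF u h1 O).1 hFO
        obtain ⟨α, e1, e2, b, ⟨O', ⟨e3, e3'⟩, e4⟩, e5⟩ := greedy3 S F cert hF T1 h3 d d1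
          (fun O => P O ∧ cert u c O) ⟨O, hO, hc⟩
        refine ⟨some c :: α, by simp [e1], ?_, b, ⟨O', e3, ?_⟩, ?_⟩
        · intro a ha
          rw [conds, List.mem_cons] at ha
          rcases ha with rfl | ha
          · exact h1
          · exact e2 a ha
        · intro a ha
          rw [conds, List.mem_cons] at ha
          rcases ha with rfl | ha
          · exact e3'
          · exact e4 a ha
        · intro O'' h4 h5
          have h6 : cert u c O'' := h5 (u, c) (by rw [conds]; exact List.mem_cons_self)
          have h7 : F u O'' = true := (hF u h1 O'').2 ⟨c, h6⟩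
          rw [DT.eval, if_pos h7]
          refine e5 O'' ⟨h4, h6⟩ ?_
          intro a ha
          exact h5 a (by rw [conds]; exact List.mem_cons_of_mem _ ha)
      · obtain ⟨α, e1, e2, b, ⟨O', e3, e4⟩, e5⟩ := greedy3 S F cert hF T0 h2 d d0 P hP
        refine ⟨none :: α, by simp [e1], ?_, b, ⟨O', e3, ?_⟩, ?_⟩
        · intro a ha
          rw [conds] at ha
          exact e2 a ha
        · intro a ha
          rw [conds] at ha
          exact e4 a ha
        · intro O'' h4 h5
          have h7 : ¬ F u O'' = true := fun h => hp ⟨O'', h4, h⟩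
          rw [DT.eval, if_neg h7]
          refine e5 O'' h4 ?_
          intro a ha
          exact h5 a (by rw [conds]; exact ha)

end Pool.Agent.Lib.Pa76659G.T3
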