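import Pool.Agent.Lib.Pa76659G.T3Defs

set_option autoImplicit false
set_option linter.unusedSectionVars false

/-!
For most choices of the functions few vertices can not be added at the top.
-/

namespace Pool.Agent.Lib.Pa76659G.T3

open Finset Pool.Agent.Lib.Pa76659G.Php

/-! ### independent sets -/

/-- a set with out-degrees at most `d` contains a large independent set -/
theorem indep {U : Type} [DecidableEq U] (N : U → Finset U) (d : ℕ) : ∀ (r : ℕ) (X : Finset U),
    (∀ u ∈ X, (N u).card ≤ d) → (2 * d + 1) * r ≤ X.card →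
    ∃ I ⊆ X, I.card = r ∧ ∀ u ∈ I, ∀ u' ∈ I, u' ≠ u → u' ∉ N u
  | 0, X, _, _ => ⟨∅, empty_subset _, rfl, by simp⟩
  | r + 1, X, h, hr => by
      have hne : X.Nonempty := by
        rw [← card_pos]
        have : 0 < (2 * d + 1) * (r + 1) := by positivity
        omega
      have h1 : ∑ w ∈ X, (X.filter fun u => w ∈ N u).card ≤ ∑ _w ∈ X, d := by
        calc ∑ w ∈ X, (X.filter fun u => w ∈ N u).card
            = ∑ w ∈ X, ∑ u ∈ X, (if w ∈ N u then 1 else 0) := by
              refine sum_congr rfl fun w _ => ?_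
              rw [card_filter]
          _ = ∑ u ∈ X, ∑ w ∈ X, (if w ∈ N u then 1 else 0) := sum_comm
          _ = ∑ u ∈ X, (X.filter fun w => w ∈ N u).card := by
              refine sum_congr rfl fun u _ => ?_
              rw [card_filter]
          _ ≤ ∑ _u ∈ X, d := by
              refine sum_le_sum fun u hu => ?_
              refine (card_le_card ?_).trans (h u hu)
              intro w hw
              exact (mem_filter.1 hw).2
      obtain ⟨w, hw, hw2⟩ := exists_le_of_sum_le hne h1
      set Y := insert w (N w ∪ X.filter fun u => w ∈ N u) with hY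
      have hYc : Y.card ≤ 2 * d + 1 := by
        rw [hY]
        refine (card_insert_le _ _).trans ?_
        have h2 := card_union_le (N w) (X.filter fun u => w ∈ N u)
        have h3 := h w hw
        omega
      have hX : (2 * d + 1) * r ≤ (X \ Y).card := by
        have h2 := le_card_sdiff Y X
        have h3 : (2 * d + 1) * (r + 1) = (2 * d + 1) * r + (2 * d + 1) := by ring
        omega
      obtain ⟨I, hI, hIc, hI2⟩ := indep N d r (X \ Y)
        (fun u hu => h u (mem_sdiff.1 hu).1) hX
      have hwI : w ∉ I := by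
        intro hwI
        exact (mem_sdiff.1 (hI hwI)).2 (by rw [hY]; exact mem_insert_self _ _)
      refine ⟨insert w I, ?_, ?_, ?_⟩
      · intro u hu
        rcases mem_insert.1 hu with rfl | hu
        · exact hw
        · exact (mem_sdiff.1 (hI hu)).1
      · rw [card_insert_of_notMem hwI, hIc]
      · intro u hu u' hu' hne'
        rcases mem_insert.1 hu with h5 | h5
        · rcases mem_insert.1 hu' with h6 | h6
          · exact absurd (h6.trans h5.symm) hne'
          · intro hcon
            refine (mem_sdiff.1 (hI h6)).2 ?_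
            rw [hY]
            rw [h5] at hcon
            exact mem_insert_of_mem (mem_union_left _ hcon)
        · rcases mem_insert.1 hu' with h6 | h6
          · intro hcon
            refine (mem_sdiff.1 (hI h5)).2 ?_
            rw [hY]
            rw [h6] at hcon
            exact mem_insert_of_mem (mem_union_right _
              (mem_filter.2 ⟨(mem_sdiff.1 (hI h5)).1, hcon⟩))
          · exact hI2 u h5 u' h6 hne'

/-! ### one coordinate -/

section

variable {E B : Type} [DecidableEq E] [Fintype E] [DecidableEq B] [Fintype B] {z : B}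

open Classical in
theorem exch_one (κ : E → Option Bool) (P : (E → Om B z) → Prop)
    (C : (E → Om B z) → E → Finset B) (e : E)
    (hP : ∀ R R' : E → Om B z, (∀ e', e' ≠ e → R e' = R' e') → P R → P R')
    (hC : ∀ R R' : E → Om B z, (∀ e', e' ≠ e → R e' = R' e') →
      ch (κ e) (R e) = ch (κ e) (R' e) → C R = C R') :
    (Fintype.card B - 2) * (univ.filter fun R => P R ∧ hit (κ e) (R e) (C R e)).card ≤
      ∑ R ∈ univ.filter fun R => P R, (C R e).card := by
  rw [card_filter, sum_filter, Finset.mul_sum, sum_split' e, sum_split' e]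
  refine sum_le_sum fun Y' _ => ?_
  by_cases h : ∃ y : Om B z, P ((Equiv.funSplitAt e (Om B z)).symm (y, Y'))
  · have hP' : ∀ y : Om B z, P ((Equiv.funSplitAt e (Om B z)).symm (y, Y')) := by
      obtain ⟨y0, hy0⟩ := h
      intro y
      refine hP _ _ ?_ hy0
      intro e' he'
      rw [split_ne' _ _ _ he', split_ne' _ _ _ he']
    let C0 : (B → B) → Finset B := fun g =>
      if h : ∃ y : Om B z, ch (κ e) y = g then
        C ((Equiv.funSplitAt e (Om B z)).symm (h.choose, Y')) e else ∅
    have hC0 : ∀ y : Om B z, C ((Equiv.funSplitAt e (Om B z)).symm (y, Y')) e =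
        C0 (ch (κ e) y) := by
      intro y
      have h : ∃ y' : Om B z, ch (κ e) y' = ch (κ e) y := ⟨y, rfl⟩
      simp only [C0]
      rw [dif_pos h]
      refine congrFun (hC _ _ ?_ ?_) e
      · intro e' he'
        rw [split_ne' _ _ _ he', split_ne' _ _ _ he']
      · rw [split_self', split_self']
        exact h.choose_spec.symm
    simp only [hP', true_and, if_true, split_self', hC0]
    rw [← Finset.mul_sum, ← card_filter]
    convert exch (κ e) C0
  · push Not at h
    simp [h]

open Classical in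
theorem exch_set (κ : E → Option Bool) (P : (E → Om B z) → Prop)
    (C : (E → Om B z) → E → Finset B) (F : E → Prop) (T : ℕ)
    (hP : ∀ e, F e → ∀ R R' : E → Om B z, (∀ e', e' ≠ e → R e' = R' e') → P R → P R')
    (hC : ∀ e, F e → ∀ R R' : E → Om B z, (∀ e', e' ≠ e → R e' = R' e') →
      ch (κ e) (R e) = ch (κ e) (R' e) → C R = C R')
    (hT : ∀ R, ∑ e, (C R e).card ≤ T) :
    (Fintype.card B - 2) *
      (univ.filter fun R => P R ∧ ∃ e, F e ∧ hit (κ e) (R e) (C R e)).card ≤
      T * (univ.filter fun R => P R).card := by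
  have h1 : (univ.filter fun R => P R ∧ ∃ e, F e ∧ hit (κ e) (R e) (C R e)) ⊆
      (univ.filter fun e => F e).biUnion fun e =>
        univ.filter fun R => P R ∧ hit (κ e) (R e) (C R e) := by
    intro R hR
    obtain ⟨-, h1, e, h2, h3⟩ := mem_filter.1 hR
    exact mem_biUnion.2 ⟨e, mem_filter.2 ⟨mem_univ _, h2⟩, mem_filter.2 ⟨mem_univ _, h1, h3⟩⟩
  calc (Fintype.card B - 2) *
      (univ.filter fun R => P R ∧ ∃ e, F e ∧ hit (κ e) (R e) (C R e)).card
      ≤ (Fintype.card B - 2) * ∑ e ∈ univ.filter fun e => F e,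
        (univ.filter fun R => P R ∧ hit (κ e) (R e) (C R e)).card :=
        Nat.mul_le_mul_left _ ((card_le_card h1).trans card_biUnion_le)
    _ = ∑ e ∈ univ.filter fun e => F e, (Fintype.card B - 2) *
        (univ.filter fun R => P R ∧ hit (κ e) (R e) (C R e)).card := by
        rw [Finset.mul_sum]
    _ ≤ ∑ e ∈ univ.filter fun e => F e, ∑ R ∈ univ.filter fun R => P R, (C R e).card := by
        refine sum_le_sum fun e he => ?_
        have h2 := (mem_filter.1 he).2
        exact exch_one κ P C e (hP e h2) (hC e h2)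
    _ = ∑ R ∈ univ.filter fun R => P R, ∑ e ∈ univ.filter fun e => F e, (C R e).card := sum_comm
    _ ≤ ∑ R ∈ univ.filter fun R => P R, ∑ e, (C R e).card := by
        refine sum_le_sum fun R _ => ?_
        exact sum_le_sum_of_subset (filter_subset _ _)
    _ ≤ ∑ _R ∈ univ.filter fun R => P R, T := sum_le_sum fun R _ => hT R
    _ = T * (univ.filter fun R => P R).card := by
        rw [sum_const, smul_eq_mul, mul_comm]

end

variable {U B S Q : Type} [DecidableEq U] [Fintype U] [DecidableEq B] [Fintype B]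
  [DecidableEq S] [Fintype S] [DecidableEq Q] [Fintype Q] {z : B}

/-! ### the kinds -/

omit [Fintype U] in
theorem dom_iff {K : List U} {u v : U} :
    dom K u v = true ↔ u ∉ K ∨ (v ∈ K ∧ K.idxOf u < K.idxOf v) := by
  unfold dom
  rw [decide_eq_true_iff]

omit [Fintype U] in
theorem kap_none_iff {K : List U} {e : U × U} : kap K e = none ↔ e.1 ∉ K ∧ e.2 ∉ K := by
  unfold kap
  constructor
  · intro h
    split_ifs at h with h1 h2
    rw [dom_iff] at h1 h2
    by_cases h3 : e.1 ∈ K
    · rcases h1 with h1 | ⟨h1, h1'⟩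
      · exact absurd h3 h1
      · rcases h2 with h2 | ⟨h2, h2'⟩
        · exact absurd h1 h2
        · omega
    · refine ⟨h3, ?_⟩
      rcases h2 with h2 | ⟨h2, h2'⟩
      · exact h2
      · exact absurd h2 h3
  · rintro ⟨h1, h2⟩
    rw [if_pos (dom_iff.2 (Or.inl h1)), if_pos (dom_iff.2 (Or.inl h2))]

omit [Fintype U] in
theorem kap_cons_ne_none {K : List U} {u : U} {e : U × U} (h : e.1 = u ∨ e.2 = u) :
    kap (u :: K) e ≠ none := by
  rw [Ne, kap_none_iff]
  rintro ⟨h1, h2⟩
  rcases h with h | h
  · exact h1 (by rw [h]; exact List.mem_cons_self)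
  · exact h2 (by rw [h]; exact List.mem_cons_self)

omit [Fintype U] in
theorem dom_cons_of_ne {K : List U} {u v w : U} (hv : v ≠ u) (hw : w ≠ u) :
    dom (u :: K) v w = dom K v w := by
  rw [Bool.eq_iff_iff, dom_iff, dom_iff, List.idxOf_cons_ne _ (Ne.symm hv),
    List.idxOf_cons_ne _ (Ne.symm hw)]
  simp [hv, hw]

omit [Fintype U] in
theorem kap_cons_of_ne {K : List U} {u : U} {e : U × U} (h1 : e.1 ≠ u) (h2 : e.2 ≠ u) :
    kap (u :: K) e = kap K e := by
  unfold kap
  rw [dom_cons_of_ne h1 h2, dom_cons_of_ne h2 h1]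

omit [Fintype U] in
theorem kap_cons_eq {K : List U} {u : U} (hu : u ∉ K) {e : U × U} (h : kap K e ≠ none) :
    kap (u :: K) e = kap K e := by
  by_cases h1 : e.1 = u
  · by_cases h2 : e.2 = u
    · exact absurd (kap_none_iff.2 ⟨by rwa [h1], by rwa [h2]⟩) h
    · have h3 : e.2 ∈ K := by
        by_contra h3
        exact h (kap_none_iff.2 ⟨by rwa [h1], h3⟩)
      have a1 : dom K e.1 e.2 = true := dom_iff.2 (Or.inl (by rwa [h1]))
      have a2 : ¬ dom K e.2 e.1 = true := by
        rw [dom_iff]
        push Not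
        exact ⟨h3, fun h4 => absurd h4 (by rwa [h1])⟩
      have a3 : dom (u :: K) e.1 e.2 = true := by
        refine dom_iff.2 (Or.inr ⟨List.mem_cons_of_mem _ h3, ?_⟩)
        rw [h1, List.idxOf_cons_self, List.idxOf_cons_ne _ (Ne.symm h2)]
        omega
      have a4 : ¬ dom (u :: K) e.2 e.1 = true := by
        rw [dom_iff, h1, List.idxOf_cons_self]
        push Not
        exact ⟨List.mem_cons_of_mem _ h3, fun _ => Nat.zero_le _⟩
      unfold kap
      rw [if_pos a1, if_neg a2, if_pos a3, if_neg a4]
  · by_cases h2 : e.2 = u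
    · have h3 : e.1 ∈ K := by
        by_contra h3
        exact h (kap_none_iff.2 ⟨h3, by rwa [h2]⟩)
      have a1 : ¬ dom K e.1 e.2 = true := by
        rw [dom_iff]
        push Not
        exact ⟨h3, fun h4 => absurd h4 (by rwa [h2])⟩
      have a2 : ¬ dom (u :: K) e.1 e.2 = true := by
        rw [dom_iff, h2, List.idxOf_cons_self]
        push Not
        exact ⟨List.mem_cons_of_mem _ h3, fun _ => Nat.zero_le _⟩
      unfold kap
      rw [if_neg a1, if_neg a2]
    · exact kap_cons_of_ne h1 h2

omit [Fintype U] in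
theorem kap_diag {K : List U} {u : U} : kap (u :: K) (u, u) = some true := by
  unfold kap
  rw [if_neg]
  rw [dom_iff]
  push Not
  exact ⟨List.mem_cons_self, fun _ => le_rfl⟩

omit [Fintype U] [Fintype B] in
theorem hit_mono {k : Option Bool} {ω : Om B z} {C C' : Finset B} (h : C ⊆ C')
    (hC : hit k ω C) : hit k ω C' := by
  rcases k with _ | _ | _
  · exact hC
  · exact h hC
  · exact h hC

omit [Fintype U] in
/-- a change of the world at a position is a hit -/
theorem diff_hit {K : List U} {u : U} (hu : u ∉ K) {R : U × U → Om B z} {e : U × U} {b : B}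
    (h : xw R K e b ≠ xw R (u :: K) e b) :
    (e.1 = u ∨ e.2 = u) ∧ hit (kap (u :: K) e) (R e) {b} := by
  by_cases h0 : kap K e = none
  · by_cases h1 : e.1 = u ∨ e.2 = u
    · refine ⟨h1, ?_⟩
      by_contra hcon
      apply h
      have h2 := kap_cons_ne_none (K := K) h1
      unfold xw
      refine Prod.ext ?_ ?_
      · simp only
        rw [ch_eq hcon (mem_singleton_self b), h0]
        rfl
      · simp only
        rw [Bool.eq_iff_iff, decide_eq_true_iff, decide_eq_true_iff]
        constructor
        · rintro ⟨h3, -, h4⟩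
          exfalso
          apply hcon
          have h5 : e = (u, u) := by
            rcases h1 with h1 | h1
            · exact Prod.ext h1 (by rw [← h3, h1])
            · exact Prod.ext (by rw [h3, h1]) h1
          rw [h5, kap_diag]
          show (R (u, u)).z0 ∈ ({b} : Finset B)
          rw [mem_singleton, h4, h5]
        · rintro ⟨-, h4, -⟩
          exact absurd h4 h2
    · push Not at h1
      exact absurd (by unfold xw; rw [kap_cons_of_ne h1.1 h1.2]) h
  · exact absurd (by unfold xw; rw [kap_cons_eq hu h0]) h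

/-! ### masked worlds -/

/-- the pair contains a vertex of `I` different from `u` -/
def msk (I : Finset U) (u : U) (e : U × U) : Prop := ∃ w ∈ I, w ≠ u ∧ (e.1 = w ∨ e.2 = w)

open Classical in
/-- the world with `u` on top of `K`, masked -/
noncomputable def mx (I : Finset U) (u : U) (K : List U) (R : U × U → Om B z) (e : U × U) (b : B) :
    B × Bool :=
  if msk I u e then (z, false) else xw R (u :: K) e b

open Classical in
/-- the reads of the first test that rejects and does not read a masked position -/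
noncomputable def Cx (v : ℕ → Tst (U × U) B (B × Bool)) (I : Finset U) (u : U)
    (x : U × U → B → B × Bool) : U × U → Finset B :=
  if h : ∃ j, (v j).val x = false ∧ ∀ e, msk I u e → (v j).qs x e = ∅ then
    (v (Nat.find h)).qs x else fun _ => ∅

/-- the event that the reads hit a changed position -/
def Ev (v : ℕ → Tst (U × U) B (B × Bool)) (I : Finset U) (K : List U) (u : U)
    (R : U × U → Om B z) : Prop :=
  ∃ e, ((e.1 = u ∨ e.2 = u) ∧ ¬ msk I u e) ∧
    hit (kap (u :: K) e) (R e) (Cx v I u (mx I u K R) e)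

theorem Cx_card {v : ℕ → Tst (U × U) B (B × Bool)} {T : ℕ} (hv : ∀ j, (v j).Ok T)
    (I : Finset U) (u : U) (x : U × U → B → B × Bool) : ∑ e, (Cx v I u x e).card ≤ T := by
  classical
  unfold Cx
  split_ifs with h
  · exact (hv _).1 x
  · simp

theorem Ev_of {v : ℕ → Tst (U × U) B (B × Bool)} {T : ℕ} (hv : ∀ j, (v j).Ok T)
    {I : Finset U} {K : List U} {u : U} (hu : u ∉ K) {R : U × U → Om B z}
    (hK : Acc v (xw R K))
    (hj : ∃ j, (v j).val (xw R (u :: K)) = false ∧
      ∀ e, msk I u e → (v j).qs (xw R (u :: K)) e = ∅) : Ev v I K u R := by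
  classical
  set x := xw R (u :: K) with hx
  set x' := mx I u K R with hx'
  have hxx : ∀ e b, ¬ msk I u e → x' e b = x e b := by
    intro e b he
    rw [hx', mx, if_neg he]
  have h : ∃ j, (v j).val x' = false ∧ ∀ e, msk I u e → (v j).qs x' e = ∅ := by
    obtain ⟨j, h1, h2⟩ := hj
    obtain ⟨h3, h4⟩ := (hv j).2 x x' (by
      intro e b hb
      apply hxx
      intro he
      rw [h2 e he] at hb
      exact absurd hb (notMem_empty _))
    refine ⟨j, by rw [h3, h1], ?_⟩
    intro e he
    rw [h4]
    exact h2 e he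
  have hC : Cx v I u x' = (v (Nat.find h)).qs x' := by
    unfold Cx
    rw [dif_pos h]
  obtain ⟨h1, h2⟩ := Nat.find_spec h
  set j := Nat.find h with hj'
  obtain ⟨h3, h4⟩ := (hv j).2 x' x (by
    intro e b hb
    refine (hxx e b ?_).symm
    intro he
    rw [h2 e he] at hb
    exact absurd hb (notMem_empty _))
  have h5 : ∃ e, ∃ b ∈ (v j).qs x e, xw R K e b ≠ x e b := by
    by_contra hcon
    push Not at hcon
    have h6 := ((hv j).2 x (xw R K) hcon).1
    rw [hK j, h3, h1] at h6
    exact absurd h6 (by simp)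
  obtain ⟨e, b, hb, hne⟩ := h5
  obtain ⟨h6, h7⟩ := diff_hit hu hne
  refine ⟨e, ⟨h6, ?_⟩, ?_⟩
  · intro he
    rw [h4, h2 e he] at hb
    exact absurd hb (notMem_empty _)
  · refine hit_mono ?_ h7
    rw [← hx', hC, ← h4]
    exact singleton_subset_iff.2 hb

theorem mx_congr {I : Finset U} {u : U} {K : List U} {R R' : U × U → Om B z} {e : U × U}
    (he : (e.1 = u ∨ e.2 = u) ∧ ¬ msk I u e) (h : ∀ e', e' ≠ e → R e' = R' e')
    (hch : ch (kap (u :: K) e) (R e) = ch (kap (u :: K) e) (R' e)) :
    mx I u K R = mx I u K R' := by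
  funext e' b
  unfold mx
  split_ifs with h1
  · rfl
  · by_cases h2 : e' = e
    · subst h2
      have h3 := kap_cons_ne_none (K := K) he.1
      unfold xw
      rw [hch]
      simp [h3]
    · unfold xw
      rw [h e' h2]

theorem Ev_indep {v : ℕ → Tst (U × U) B (B × Bool)} {I : Finset U} {K : List U} {u w : U}
    (hw : w ∈ I) (hwu : w ≠ u) {R R' : U × U → Om B z} {e : U × U} (he : e.1 = w ∨ e.2 = w)
    (h : ∀ e', e' ≠ e → R e' = R' e') (hE : Ev v I K u R) : Ev v I K u R' := by
  have hm : msk I u e := ⟨w, hw, hwu, he⟩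
  have h1 : mx I u K R = mx I u K R' := by
    funext e' b
    unfold mx
    split_ifs with h1
    · rfl
    · have h2 : e' ≠ e := by
        rintro rfl
        exact h1 hm
      unfold xw
      rw [h e' h2]
  obtain ⟨e', h2, h3⟩ := hE
  refine ⟨e', h2, ?_⟩
  have h4 : e' ≠ e := by
    rintro rfl
    exact h2.2 hm
  rw [← h1, ← h e' h4]
  exact h3

open Classical in
theorem prod_bound {v : ℕ → Tst (U × U) B (B × Bool)} {T : ℕ} (hv : ∀ j, (v j).Ok T)
    (I : Finset U) (K : List U) : ∀ J : Finset U, J ⊆ I →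
    (Fintype.card B - 2) ^ J.card *
      (univ.filter fun R : U × U → Om B z => ∀ u ∈ J, Ev v I K u R).card ≤
      T ^ J.card * Fintype.card (U × U → Om B z) := by
  intro J
  induction J using Finset.induction_on with
  | empty => intro _; simp
  | @insert w J hw ih =>
    intro hJ
    have hwI : w ∈ I := hJ (mem_insert_self _ _)
    have ih' := ih fun u hu => hJ (mem_insert_of_mem hu)
    have h1 := exch_set (z := z) (kap (w :: K)) (fun R => ∀ u ∈ J, Ev v I K u R)
      (fun R => Cx v I w (mx I w K R)) (fun e => (e.1 = w ∨ e.2 = w) ∧ ¬ msk I w e) T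
      (by
        intro e he R R' hR hP u hu
        exact Ev_indep hwI (by rintro rfl; exact hw hu) he.1 hR (hP u hu))
      (by
        intro e he R R' hR hch
        rw [mx_congr he hR hch])
      (fun R => Cx_card hv I w _)
    have h2 : (univ.filter fun R : U × U → Om B z => ∀ u ∈ insert w J, Ev v I K u R) =
        univ.filter fun R : U × U → Om B z => (∀ u ∈ J, Ev v I K u R) ∧
          ∃ e, ((e.1 = w ∨ e.2 = w) ∧ ¬ msk I w e) ∧
            hit (kap (w :: K) e) (R e) (Cx v I w (mx I w K R) e) := by
      ext R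
      simp only [mem_filter, mem_univ, true_and, mem_insert]
      constructor
      · intro h
        exact ⟨fun u hu => h u (Or.inr hu), h w (Or.inl rfl)⟩
      · rintro ⟨h3, h4⟩ u (rfl | hu)
        · exact h4
        · exact h3 u hu
    rw [h2, card_insert_of_notMem hw, pow_succ, pow_succ]
    obtain ⟨N, hN⟩ : ∃ N, N =
      (univ.filter fun R : U × U → Om B z => ∀ u ∈ J, Ev v I K u R).card := ⟨_, rfl⟩
    obtain ⟨N', hN'⟩ : ∃ N', N' =
      (univ.filter fun R : U × U → Om B z => (∀ u ∈ J, Ev v I K u R) ∧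
          ∃ e, ((e.1 = w ∨ e.2 = w) ∧ ¬ msk I w e) ∧
            hit (kap (w :: K) e) (R e) (Cx v I w (mx I w K R) e)).card := ⟨_, rfl⟩
    have h3 : (Fintype.card B - 2) * N' ≤ T * N := by
      rw [hN, hN']
      convert h1
    have h4 : (Fintype.card B - 2) ^ J.card * N ≤
        T ^ J.card * Fintype.card (U × U → Om B z) := by
      rw [hN]
      convert ih'
    rw [← hN']
    calc (Fintype.card B - 2) ^ J.card * (Fintype.card B - 2) * N'
        = (Fintype.card B - 2) ^ J.card * ((Fintype.card B - 2) * N') := mul_assoc _ _ _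
      _ ≤ (Fintype.card B - 2) ^ J.card * (T * N) := Nat.mul_le_mul_left _ h3
      _ = T * ((Fintype.card B - 2) ^ J.card * N) := Nat.mul_left_comm _ _ _
      _ ≤ T * (T ^ J.card * Fintype.card (U × U → Om B z)) := Nat.mul_le_mul_left _ h4
      _ = T ^ J.card * T * Fintype.card (U × U → Om B z) := by
          rw [← mul_assoc, mul_comm T (T ^ J.card)]

/-! ### the union bound -/

/-- the vertices of a pair in a set of reads -/
theorem nbr_card {v : Tst (U × U) B (B × Bool)} {T : ℕ} (hv : v.Ok T)
    (x : U × U → B → B × Bool) :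
    ((univ.filter fun e : U × U => (v.qs x e).Nonempty).biUnion
      fun e => ({e.1, e.2} : Finset U)).card ≤ 2 * T := by
  refine card_biUnion_le.trans ?_
  have h1 : ∀ e : U × U, ({e.1, e.2} : Finset U).card ≤ 2 := fun e => card_le_two
  refine (sum_le_sum fun e _ => h1 e).trans ?_
  rw [sum_const, smul_eq_mul, mul_comm]
  refine Nat.mul_le_mul_left _ ?_
  refine le_trans ?_ (hv.1 x)
  rw [card_filter]
  refine sum_le_sum fun e _ => ?_
  split_ifs with h
  · exact card_pos.2 h
  · exact Nat.zero_le _

open Classical in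
/-- many sensitive vertices give an independent set of them -/
theorem exists_I {v : ℕ → Tst (U × U) B (B × Bool)} {T r : ℕ} (hv : ∀ j, (v j).Ok T)
    {K : List U} {R : U × U → Om B z} (hK : Acc v (xw R K)) (X : Finset U)
    (hX : ∀ u ∈ X, u ∉ K ∧ ¬ Acc v (xw R (u :: K))) (hr : (4 * T + 1) * r ≤ X.card) :
    ∃ I ⊆ X, I.card = r ∧ ∀ u ∈ I, Ev v I K u R := by
  have h1 : ∀ u : U, ∃ j : ℕ, u ∈ X → (v j).val (xw R (u :: K)) = false := by
    intro u
    by_cases hu : u ∈ X
    · have h2 := (hX u hu).2
      unfold Acc at h2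
      push Not at h2
      obtain ⟨j, hj⟩ := h2
      refine ⟨j, fun _ => ?_⟩
      cases h0 : (v j).val (xw R (u :: K))
      · rfl
      · exact absurd h0 hj
    · exact ⟨0, fun h => absurd h hu⟩
  choose j hj using h1
  obtain ⟨I, hI, hIc, hI2⟩ := indep (fun u => (univ.filter fun e : U × U =>
      ((v (j u)).qs (xw R (u :: K)) e).Nonempty).biUnion fun e => ({e.1, e.2} : Finset U))
    (2 * T) r X (fun u _ => nbr_card (hv (j u)) _) (by
      have : 2 * (2 * T) + 1 = 4 * T + 1 := by ring
      rwa [this])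
  refine ⟨I, hI, hIc, ?_⟩
  intro u hu
  refine Ev_of hv (hX u (hI hu)).1 hK ⟨j u, hj u (hI hu), ?_⟩
  rintro e ⟨w, hw, hwu, he⟩
  by_contra hne
  refine hI2 u hu w hw hwu ?_
  rw [mem_biUnion]
  refine ⟨e, mem_filter.2 ⟨mem_univ _, nonempty_iff_ne_empty.2 hne⟩, ?_⟩
  rw [mem_insert, mem_singleton]
  rcases he with he | he
  · exact Or.inl he.symm
  · exact Or.inr he.symm

/-- the vertex of a slot -/
def pt (e : U ≃ S × Q) (f : S → Q) (σ : S) : U := e.symm (σ, f σ)

omit [DecidableEq U] [Fintype U] [DecidableEq S] [Fintype S] [DecidableEq Q] [Fintype Q] in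
theorem pt_of {e : U ≃ S × Q} {f : S → Q} {u : U} (h : Z0 e f u) : pt e f (e u).1 = u := by
  unfold pt
  rw [show ((e u).1, f (e u).1) = e u from Prod.ext rfl h]
  exact e.symm_apply_apply u

omit [DecidableEq U] [Fintype U] [DecidableEq S] [Fintype S] [DecidableEq Q] [Fintype Q] in
theorem exists_code {e : U ≃ S × Q} {f : S → Q} {s : ℕ} (L : List U) (hL : L.length = s)
    (h : ∀ u ∈ L, Z0 e f u) : ∃ g : Fin s → S, List.ofFn (fun i => pt e f (g i)) = L := by
  subst hL
  refine ⟨fun i => (e (L.get i)).1, ?_⟩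
  have h1 : (fun i => pt e f ((fun i => (e (L.get i)).1) i)) = L.get := by
    funext i
    exact pt_of (h _ (List.get_mem L i))
  rw [h1]
  exact List.ofFn_get L

open Classical in
theorem sens_bad {A : Type} [Fintype A] (a T s r : ℕ) (hr : 1 ≤ r) (hA : Fintype.card A ≤ 2 ^ a)
    (e : U ≃ S × Q) (f : S → Q)
    (v : A → ℕ → Tst (U × U) B (B × Bool)) (hv : ∀ α j, (v α j).Ok T) :
    (Fintype.card B - 2) ^ r * (univ.filter fun R : U × U → Om B z => ∃ α : A, ∃ K : List U,
      K.Nodup ∧ (∀ u ∈ K, Z0 e f u) ∧ K.length < s ∧ Acc (v α) (xw R K) ∧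
        (4 * T + 1) * r ≤ (univ.filter fun u : U => Z0 e f u ∧ u ∉ K ∧
          ¬ Acc (v α) (xw R (u :: K))).card).card ≤
      2 ^ a * Fintype.card S ^ (s + r) * T ^ r * Fintype.card (U × U → Om B z) := by
  let IJ : (Fin r → S) → Finset U := fun h => univ.image fun i => pt e f (h i)
  let KK : (Fin s → S) → Finset U → List U := fun g I =>
    (List.ofFn fun i => pt e f (g i)).takeWhile fun u => decide (u ∉ I)
  let G : A × (Fin s → S) × (Fin r → S) → Finset (U × U → Om B z) := fun c =>
    if (IJ c.2.2).card = r then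
      univ.filter fun R : U × U → Om B z =>
        ∀ u ∈ IJ c.2.2, Ev (v c.1) (IJ c.2.2) (KK c.2.1 (IJ c.2.2)) u R
    else ∅
  have h1 : (univ.filter fun R : U × U → Om B z => ∃ α : A, ∃ K : List U,
      K.Nodup ∧ (∀ u ∈ K, Z0 e f u) ∧ K.length < s ∧ Acc (v α) (xw R K) ∧
        (4 * T + 1) * r ≤ (univ.filter fun u : U => Z0 e f u ∧ u ∉ K ∧
          ¬ Acc (v α) (xw R (u :: K))).card) ⊆ univ.biUnion G := by
    intro R hR
    obtain ⟨-, α, K, -, hKZ, hKs, hKA, hc⟩ := mem_filter.1 hR
    obtain ⟨I, hI, hIc, hI2⟩ := exists_I (hv α) hKA _ (fun u hu => (mem_filter.1 hu).2.2) hc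
    have hIZ : ∀ u ∈ I, Z0 e f u := fun u hu => (mem_filter.1 (hI hu)).2.1
    have hIK : ∀ u ∈ K, u ∉ I := fun u hu hu' => (mem_filter.1 (hI hu')).2.2.1 hu
    obtain ⟨i0, hi0⟩ : I.Nonempty := by
      rw [← card_pos]
      omega
    obtain ⟨g, hg⟩ := exists_code (e := e) (f := f) (s := s)
      (K ++ List.replicate (s - K.length) i0) (by simp; omega) (by
        intro u hu
        rcases List.mem_append.1 hu with hu | hu
        · exact hKZ u hu
        · rw [List.eq_of_mem_replicate hu]
          exact hIZ _ hi0)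
    have hIl : I.toList.length = r := by rw [length_toList, hIc]
    obtain ⟨h, hh⟩ := exists_code (e := e) (f := f) (s := r) I.toList hIl
      (fun u hu => hIZ u (mem_toList.1 hu))
    have hIJ : IJ h = I := by
      ext u
      simp only [IJ, mem_image, mem_univ, true_and]
      rw [← mem_toList, ← hh, List.mem_ofFn]
    have hKK : KK g I = K := by
      simp only [KK]
      rw [hg, List.takeWhile_append_of_pos (by
        intro u hu
        exact decide_eq_true (hIK u hu))]
      obtain ⟨m, hm⟩ : ∃ m, s - K.length = m + 1 := ⟨s - K.length - 1, by omega⟩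
      rw [hm, List.replicate_succ, List.takeWhile_cons_of_neg (by simpa using hi0),
        List.append_nil]
    rw [mem_biUnion]
    refine ⟨(α, g, h), mem_univ _, ?_⟩
    simp only [G]
    rw [hIJ, if_pos hIc, mem_filter, hKK]
    exact ⟨mem_univ _, hI2⟩
  have h2 : ∀ c, (Fintype.card B - 2) ^ r * (G c).card ≤
      T ^ r * Fintype.card (U × U → Om B z) := by
    intro c
    simp only [G]
    split_ifs with h
    · have h3 := prod_bound (z := z) (hv c.1) (IJ c.2.2) (KK c.2.1 (IJ c.2.2)) (IJ c.2.2)
        (Subset.refl _)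
      rwa [h] at h3
    · simp
  calc (Fintype.card B - 2) ^ r * _
      ≤ (Fintype.card B - 2) ^ r * (univ.biUnion G).card :=
        Nat.mul_le_mul_left _ (card_le_card h1)
    _ ≤ (Fintype.card B - 2) ^ r * ∑ c, (G c).card := Nat.mul_le_mul_left _ card_biUnion_le
    _ = ∑ c, (Fintype.card B - 2) ^ r * (G c).card := by rw [Finset.mul_sum]
    _ ≤ ∑ _c : A × (Fin s → S) × (Fin r → S), T ^ r * Fintype.card (U × U → Om B z) :=
        sum_le_sum fun c _ => h2 c
    _ = Fintype.card A * (Fintype.card S ^ s * Fintype.card S ^ r) *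
        (T ^ r * Fintype.card (U × U → Om B z)) := by
        rw [sum_const, card_univ, Fintype.card_prod, Fintype.card_prod, Fintype.card_fun,
          Fintype.card_fun, Fintype.card_fin, Fintype.card_fin, smul_eq_mul]
    _ ≤ 2 ^ a * (Fintype.card S ^ s * Fintype.card S ^ r) *
        (T ^ r * Fintype.card (U × U → Om B z)) :=
        Nat.mul_le_mul_right _ (Nat.mul_le_mul_right _ hA)
    _ = _ := by rw [pow_add, ← mul_assoc (2 ^ a * _)]

end Pool.Agent.Lib.Pa76659G.T3
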