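import Pool.Agent.Lib.Pa76659G.T3Fit
import Pool.Agent.Lib.Pa76659G.T3Sens
import Pool.Agent.Lib.Pa76659G.T3Greedy
import Pool.Agent.Lib.Pa76659G.PhpMain

set_option autoImplicit false
set_option maxHeartbeats 4000000

/-!
For comeager many oracles the language `topL` is not in `\hat L_3`.
-/

namespace Pool.Agent.Lib.Pa76659G.T3

open Finset Pool.Agent.Lib.Pa76659 Pool.Agent.Lib.Pa76659G Pool.Agent.Lib.Pa76659.Hier
open Pool.Agent.Lib.Pa76659G.Php

/-- the normal form of circuits of depth two -/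
theorem dform {S : Set Str} {w T : ℕ} {F : Lang → Bool} (h : IsC S w T 2 F) :
    ∃ D : Fin (2 ^ w) → ℕ → DT Str Bool, (∀ c j, (D c j).depth ≤ T) ∧
      ∀ O, F O = true ↔ ∃ c, ∀ j, (D c j).eval O = true := by
  obtain ⟨g, h1, h2⟩ := h
  have h3 : ∀ c, ∃ D : ℕ → DT Str Bool, (∀ j, (D j).depth ≤ T) ∧
      ∀ O, g c O = false ↔ ∀ j, (D j).eval O = true := by
    intro c
    obtain ⟨g', h4, h5⟩ := h1 c
    have h6 : ∀ j : Fin (2 ^ w), ∃ D : DT Str Bool, D.depth ≤ T ∧ ∀ O, g' j O = D.eval O := by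
      intro j
      obtain ⟨D, h7, -, h8⟩ := h4 j
      exact ⟨D, h7, h8⟩
    choose D h7 h8 using h6
    refine ⟨fun j => if hj : j < 2 ^ w then D ⟨j, hj⟩ else DT.leaf true, fun j => ?_, fun O => ?_⟩
    · by_cases hj : j < 2 ^ w
      · simp only [dif_pos hj]
        exact h7 _
      · simp only [dif_neg hj, DT.depth]
        omega
    · rw [← Bool.not_eq_true, h5]
      constructor
      · intro h9 j
        by_cases hj : j < 2 ^ w
        · simp only [dif_pos hj]
          by_contra h10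
          rw [Bool.not_eq_true, ← h8] at h10
          exact h9 ⟨_, h10⟩
        · simp only [dif_neg hj, DT.eval]
      · rintro h9 ⟨j, hj⟩
        have h10 := h9 j.1
        simp only [dif_pos j.2] at h10
        rw [h8, h10] at hj
        exact absurd hj (by simp)
  choose D h4 h5 using h3
  refine ⟨D, h4, fun O => ?_⟩
  rw [h2]
  exact exists_congr fun c => h5 c O

open Classical in
/-- the number of the names with a given first bit -/
theorem card_first {m k n : ℕ} (h : n = m + k) (hm : 1 ≤ m) (f : Idx m → Idx k) (β : Bool) :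
    2 ^ (m - 1) ≤ (univ.filter fun u : Idx n => Z0 (spl h) f u ∧ u.1.headD false = β).card := by
  classical
  have h1 : Fintype.card (Idx (m - 1)) = 2 ^ (m - 1) := card_Idx _
  rw [← h1, ← Finset.card_univ]
  let g : Idx (m - 1) → Idx n := fun i =>
    (spl h).symm (⟨β :: i.1, by rw [List.length_cons, i.2]; omega⟩,
      f ⟨β :: i.1, by rw [List.length_cons, i.2]; omega⟩)
  refine Finset.card_le_card_of_injOn g ?_ ?_
  · intro i _
    simp only [Finset.coe_filter, Finset.mem_univ, true_and, Set.mem_ofPred_eq]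
    constructor
    · show f (spl h (g i)).1 = (spl h (g i)).2
      simp only [g, Equiv.apply_symm_apply]
    · show ((β :: i.1) ++ _).headD false = β
      rfl
  · intro i _ i' _ hii
    simp only [g] at hii
    have h2 := congrArg Prod.fst ((spl h).symm.injective hii)
    have h3 := congrArg Subtype.val h2
    exact Subtype.ext (List.cons_injective h3)

theorem top_dense (Y : Lang) (p p' : PIx) (l : List NIx) (hl : l.length = 2) (G : Lang) (N : ℕ) :
    ∃ G' ∈ nb G N, ∃ s : Str, pEval p (sEval p' l (join Y G')) s ≠ topQ (join Y G') s := by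
  classical
  obtain ⟨b, hb⟩ := sEval_isC p' l
  rw [hl] at hb
  obtain ⟨P, t⟩ := p
  -- numbers
  obtain ⟨c, hc⟩ := poly_le ((16 * (4 * Polynomial.X + t.comp (4 * Polynomial.X) + 2) ^ b + 16) *
    (((4 * Polynomial.X + t.comp (4 * Polynomial.X) + 2) ^ b + 1) * t.comp (4 * Polynomial.X) + 2))
  obtain ⟨n0, hn0⟩ := pow_le_two_pow c
  set m := max n0 (max N 2) with hm
  have e1 : n0 ≤ m := le_max_left _ _
  have e2 : N ≤ m := le_trans (le_max_left _ _) (le_max_right _ _)
  have e3 : 2 ≤ m := le_trans (le_max_right _ _) (le_max_right _ _)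
  have hc' := (hc m e3).trans (hn0 m e1)
  simp only [Polynomial.eval_add, Polynomial.eval_mul, Polynomial.eval_pow, Polynomial.eval_X,
    Polynomial.eval_ofNat, Polynomial.eval_one, Polynomial.eval_comp] at hc'
  set n := 4 * m with hn
  have hspl : n = m + 3 * m := by omega
  set d := t.eval n with hd
  set T := (n + d + 2) ^ b with hT
  have hT1 : 1 ≤ T := Nat.one_le_pow _ _ (by omega)
  set a := (T + 1) * d with ha
  set r := a + 2 with hr
  set M := 2 ^ m with hM
  have hnum : (16 * T + 16) * r ≤ M := hc'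
  set s : Str := List.replicate n false with hs
  have hsl : s.length = n := by simp [hs]
  -- the computation
  set A := accTree P (inp s) (t.eval s.length) with hA
  have hAd : A.depth ≤ d := (accTree_depth P (inp s) (t.eval s.length)).trans (by rw [hsl])
  set S : Set Str := {v | v.length ≤ n + d} with hS
  have hAq : A.QIn S := by
    refine (accTree_qin P (inp s) (t.eval s.length) s.length (inp_bdd s)).mono ?_
    intro v hv
    simp only [Set.mem_ofPred_eq, hsl, hS] at hv ⊢
    exact hv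
  -- the trees
  have hD0 : ∀ u : Str, ∃ D : Fin (2 ^ T) → ℕ → DT Str Bool, (∀ c j, (D c j).depth ≤ T) ∧
      (u ∈ S → ∀ O, sEval p' l O u = true ↔ ∃ c, ∀ j, (D c j).eval O = true) := by
    intro u
    by_cases hu : u ∈ S
    · have h1 : IsC (SL T) T T 2 (fun O => sEval p' l O u) := by
        refine hb (n + d + 2) (by omega) u ?_
        simp only [hS, Set.mem_ofPred_eq] at hu
        omega
      obtain ⟨D, h2, h3⟩ := dform h1
      exact ⟨D, h2, fun _ => h3⟩
    · exact ⟨fun _ _ => DT.leaf true, fun _ _ => by simp [DT.depth], fun h => absurd h hu⟩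
  choose D hDd hDS using hD0
  -- the family
  let Λ := List.Vector (Option (Fin (2 ^ T))) d
  have hΛ : Fintype.card Λ ≤ 2 ^ a := by
    rw [card_vector, Fintype.card_option, Fintype.card_fin, ha, pow_mul]
    refine Nat.pow_le_pow_left ?_ _
    rw [pow_succ]
    have : 1 ≤ 2 ^ T := Nat.one_le_two_pow
    omega
  let E : Λ → ℕ → DT Str Bool := fun α j =>
    match (conds A α.1)[(Nat.unpair j).1]? with
    | some q => D q.1 q.2 (Nat.unpair j).2
    | none => DT.leaf true
  have hE : ∀ α j, (E α j).depth ≤ T := by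
    intro α j
    simp only [E]
    split
    · exact hDd _ _ _
    · simp [DT.depth]
  have hEc : ∀ (α : Λ) (O : Lang), (∀ j, (E α j).eval O = true) ↔
      ∀ q ∈ conds A α.1, ∀ j, (D q.1 q.2 j).eval O = true := by
    intro α O
    constructor
    · intro h q hq j
      obtain ⟨i, hi, rfl⟩ := List.getElem_of_mem hq
      have h1 := h (Nat.pair i j)
      simp only [E, Nat.unpair_pair, List.getElem?_eq_getElem hi] at h1
      exact h1
    · intro h j
      simp only [E]
      split
      · rename_i q hq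
        exact h q (List.mem_of_getElem? hq) _
      · rfl
  -- a good pair
  have : Nonempty (Om (Idx n) (zer n)) := by
    refine nonempty_Om _ ?_
    rw [card_Idx]
    calc 3 ≤ 2 ^ 2 := by norm_num
      _ ≤ 2 ^ n := Nat.pow_le_pow_right (by norm_num) (by omega)
  have hB : Fintype.card (Idx n) = M ^ 4 := by
    rw [card_Idx, hn, hM, ← pow_mul, mul_comm]
  have hQ : Fintype.card (Idx (3 * m)) = M ^ 3 := by
    rw [card_Idx, hM, ← pow_mul, mul_comm]
  have hSm : Fintype.card (Idx m) = M := card_Idx m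
  obtain ⟨f, R, hf1, hf2⟩ := exists_pair (F := Idx m → Idx (3 * m))
    (R := Idx n × Idx n → Om (Idx n) (zer n))
    (fun f R => ∃ (α : Λ) (Z : List (Idx m × Idx (3 * m))), Z.Nodup ∧ (∀ u ∈ Z, f u.1 = u.2) ∧
      Pi E α (wo Y G R (Z.map (spl hspl).symm)) ∧ ∀ K : List (Idx m × Idx (3 * m)),
        K.Sublist Z → K.length < r → ¬ Pi E α (wo Y G R (K.map (spl hspl).symm)))
    (fun f R => ∃ (α : Λ) (K : List (Idx n)), K.Nodup ∧ (∀ u ∈ K, Z0 (spl hspl) f u) ∧
      K.length < r ∧ Acc (fun j => tst n Y G (E α j)) (xw R K) ∧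
      (4 * T + 1) * r ≤ (univ.filter fun u : Idx n => Z0 (spl hspl) f u ∧ u ∉ K ∧
        ¬ Acc (fun j => tst n Y G (E α j)) (xw R (u :: K))).card)
    (by
      intro R
      have h1 := K_lemma (T := T) (s := r) (D := E) (men := men hspl)
        (W := fun K => wo Y G R (K.map (spl hspl).symm)) hE (men_length hspl)
        (fun K Z hZ hK v hv => wo_sublist Y G hspl R K Z hZ hK v hv)
        (univ.filter fun f : Idx m → Idx (3 * m) => ∃ (α : Λ) (Z : List (Idx m × Idx (3 * m))),
          Z.Nodup ∧ (∀ u ∈ Z, f u.1 = u.2) ∧ Pi E α (wo Y G R (Z.map (spl hspl).symm)) ∧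
          ∀ K : List (Idx m × Idx (3 * m)), K.Sublist Z → K.length < r →
            ¬ Pi E α (wo Y G R (K.map (spl hspl).symm)))
        (fun ζ hζ => (Finset.mem_filter.1 hζ).2)
      rw [hQ] at h1
      have h2 : Fintype.card (Idx m → Idx (3 * m)) = (M ^ 3) ^ Fintype.card (Idx m) := by
        rw [Fintype.card_fun, hQ]
      rw [h2]
      refine num3 h1 (num1 hr hT1 hΛ hnum) ?_ (by congr!)
      have : 0 < M := by positivity
      positivity)
    (by
      intro f
      have h1 := sens_bad (z := zer n) a T r r (by omega) hΛ (spl hspl) f (fun α j => tst n Y G (E α j))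
        (fun α j => tst_ok Y G (hE α j))
      rw [hB, hSm, mul_comm] at h1
      exact num3 h1 (num2 hr hT1 hnum) Fintype.card_pos (by congr!))
  -- the computation on the worlds
  obtain ⟨α, hα1, -, bo, ⟨Z, hZ, hZ2⟩, hα2⟩ := greedy3 S
    (fun u (Z : List (Idx m × Idx (3 * m))) => sEval p' l (wo Y G R (Z.map (spl hspl).symm)) u)
    (fun u c Z => ∀ j, (D u c j).eval (wo Y G R (Z.map (spl hspl).symm)) = true)
    (fun u hu Z => hDS u hu _) A hAq d hAd
    (fun Z => Z.Nodup ∧ ∀ u ∈ Z, f u.1 = u.2) ⟨[], by simp, by simp⟩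
  have hval : ∀ Z : List (Idx m × Idx (3 * m)), Z.Nodup → (∀ u ∈ Z, f u.1 = u.2) →
      Pi E (⟨α, hα1⟩ : Λ) (wo Y G R (Z.map (spl hspl).symm)) →
      pEval (P, t) (sEval p' l (wo Y G R (Z.map (spl hspl).symm))) s = bo := by
    intro Z h1 h2 h3
    have h4 := hα2 Z ⟨h1, h2⟩ ((hEc ⟨α, hα1⟩ _).1 h3)
    rw [← h4]
    show accepts _ P (inp s) (t.eval s.length) = _
    rw [hA, ← accTree_eval]
  -- a small list
  obtain ⟨K, hK1, hK2, hK3⟩ : ∃ K : List (Idx m × Idx (3 * m)), K.Sublist Z ∧ K.length < r ∧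
      Pi E (⟨α, hα1⟩ : Λ) (wo Y G R (K.map (spl hspl).symm)) := by
    by_contra hcon
    push Not at hcon
    exact hf1 ⟨⟨α, hα1⟩, Z, hZ.1, hZ.2, (hEc ⟨α, hα1⟩ _).2 hZ2, fun K h1 h2 => hcon K h1 h2⟩
  set K' := K.map (spl hspl).symm with hK'
  have hKn : K'.Nodup := (hK1.nodup hZ.1).map (spl hspl).symm.injective
  have hKz : ∀ u ∈ K', Z0 (spl hspl) f u := by
    intro u hu
    rw [hK', mem_map_symm] at hu
    exact hZ.2 _ (hK1.subset hu)
  have hKl : K'.length < r := by rw [hK', List.length_map]; exact hK2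
  have hsens : (univ.filter fun u : Idx n => Z0 (spl hspl) f u ∧ u ∉ K' ∧
      ¬ Acc (fun j => tst n Y G (E ⟨α, hα1⟩ j)) (xw R (u :: K'))).card < (4 * T + 1) * r := by
    by_contra hcon
    push Not at hcon
    exact hf2 ⟨⟨α, hα1⟩, K', hKn, hKz, hKl, hK3, hcon⟩
  -- a vertex with the other first bit
  obtain ⟨u, hu1, hu2, hu3, hu4⟩ : ∃ u : Idx n, Z0 (spl hspl) f u ∧ u.1.headD false = !bo ∧
      u ∉ K' ∧ Acc (fun j => tst n Y G (E ⟨α, hα1⟩ j)) (xw R (u :: K')) := by
    by_contra hcon
    push Not at hcon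
    have h1 := card_first hspl (by omega) f (!bo)
    have h2 : (univ.filter fun u : Idx n => Z0 (spl hspl) f u ∧ u.1.headD false = !bo) ⊆
        K'.toFinset ∪ (univ.filter fun u : Idx n => Z0 (spl hspl) f u ∧ u ∉ K' ∧
          ¬ Acc (fun j => tst n Y G (E ⟨α, hα1⟩ j)) (xw R (u :: K'))) := by
      intro u hu
      obtain ⟨h3, h4⟩ := (Finset.mem_filter.1 hu).2
      by_cases h5 : u ∈ K'
      · exact Finset.mem_union_left _ (List.mem_toFinset.2 h5)
      · exact Finset.mem_union_right _ (Finset.mem_filter.2 ⟨Finset.mem_univ _, h3, h5,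
          hcon u h3 h4 h5⟩)
    have h3 := (Finset.card_le_card h2).trans (Finset.card_union_le _ _)
    have h4 := List.toFinset_card_le K'
    have h5 : M = 2 * 2 ^ (m - 1) := by
      rw [hM, ← pow_succ']
      congr 1
      omega
    have h6 : (4 * T + 1) * r + r ≤ 2 ^ (m - 1) := by
      have h7 : (16 * T + 16) * r = 16 * (T * r) + 16 * r := by ring
      have h8 : (4 * T + 1) * r = 4 * (T * r) + r := by ring
      omega
    omega
  -- the end
  have hNn : N ≤ n := by omega
  refine ⟨orx G (xw R (u :: K')), fun v hv => orx_nb (n := n) G _ v (lt_of_lt_of_le hv hNn), s, ?_⟩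
  have h1 : topQ (wo Y G R (u :: K')) s = !bo := by rw [topQ_wo Y G R K' u hsl, hu2]
  have h2 : pEval (P, t) (sEval p' l (wo Y G R (u :: K'))) s = bo := by
    have h3 := hval (spl hspl u :: K) ?_ ?_ ?_
    · rw [List.map_cons, Equiv.symm_apply_apply] at h3
      exact h3
    · rw [List.nodup_cons]
      refine ⟨fun h4 => hu3 ?_, hK1.nodup hZ.1⟩
      rw [hK', mem_map_symm]
      exact h4
    · intro v hv
      rcases List.mem_cons.1 hv with rfl | hv
      · exact hu1
      · exact hZ.2 _ (hK1.subset hv)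
    · rw [List.map_cons, Equiv.symm_apply_apply]
      exact hu4
  show pEval (P, t) (sEval p' l (wo Y G R (u :: K'))) s ≠ topQ (wo Y G R (u :: K')) s
  rw [h1, h2]
  cases bo <;> simp

/-! ### dependence on finite parts -/

theorem bt_congr {X X' : Lang} {m : ℕ} (h : ∀ v : Str, v.length ≤ 7 * m + 5 → X v = X' v)
    {u v : Str} (hm : u.length = m ∨ v.length = m) : bt X (pr u v) = true ↔ bt X' (pr u v) = true := by
  rw [bt_iff, bt_iff]
  constructor
  · rintro ⟨h1, h2, h3⟩
    exact ⟨h1, h2, (Beats_congr (m := m) (fun v hv => h v (by omega)) (by omega) (by omega)).1 h3⟩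
  · rintro ⟨h1, h2, h3⟩
    exact ⟨h1, h2, (Beats_congr (m := m) (fun v hv => h v (by omega)) (by omega) (by omega)).2 h3⟩

theorem vt_congr {X X' : Lang} {m : ℕ} (h : ∀ v : Str, v.length ≤ 7 * m + 5 → X v = X' v)
    {y : Str} (hm : y.length = m) (h4 : vt X y = true) : vt X' y = true := by
  rw [vt_iff] at h4 ⊢
  obtain ⟨w, h1, h2⟩ := h4
  refine ⟨w, h1, ?_⟩
  rw [← h]
  · exact h2
  · rw [List.length_cons, pr_length, pr_length, List.length_singleton]
    omega

theorem vp_congr {X X' : Lang} {m : ℕ} (h : ∀ v : Str, v.length ≤ 7 * m + 5 → X v = X' v)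
    {y : Str} (hm : y.length = m) (h4 : vp X y = true) : vp X' y = true := by
  rw [vp_iff] at h4 ⊢
  rcases h4 with h4 | ⟨u, h5, h6⟩ | ⟨u, w, h5, h6, h7⟩
  · exact Or.inl (vt_congr h hm h4)
  · exact Or.inr (Or.inl ⟨u, (bt_congr h (Or.inl hm)).1 h5, (bt_congr h (Or.inr hm)).1 h6⟩)
  · have h8 := bt_len h5
    have h9 := bt_len h6
    exact Or.inr (Or.inr ⟨u, w, (bt_congr h (Or.inl hm)).1 h5,
      (bt_congr h (Or.inl (by omega))).1 h6, (bt_congr h (Or.inr hm)).1 h7⟩)

theorem topL_congr' {X X' : Lang} {m : ℕ} (h : ∀ v : Str, v.length ≤ 7 * m + 5 → X v = X' v)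
    {y : Str} (hm : y.length = m) (h4 : topL X y = true) : topL X' y = true := by
  rw [topL_iff] at h4 ⊢
  rcases h4 with h4 | ⟨u, h5, h6⟩
  · exact Or.inl (vp_congr h hm h4)
  · have h8 := bt_len h6
    exact Or.inr ⟨u, vp_congr h (by omega) h5, (bt_congr h (Or.inl hm)).1 h6⟩

theorem topL_congr {X X' : Lang} {m : ℕ} (h : ∀ v : Str, v.length ≤ 7 * m + 5 → X v = X' v)
    {y : Str} (hm : y.length = m) : topL X y = topL X' y := by
  rw [Bool.eq_iff_iff]
  exact ⟨topL_congr' h hm, topL_congr' (fun v hv => (h v hv).symm) hm⟩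

theorem noTop_congr {X X' : Lang} {m : ℕ} (h : ∀ v : Str, v.length ≤ 7 * m + 5 → X v = X' v)
    {y : Str} (hm : y.length = m) : noTop X y = noTop X' y := by
  rw [Bool.eq_iff_iff, noTop_iff, noTop_iff, topL_congr h hm]
  refine or_congr Iff.rfl ⟨?_, ?_⟩
  · rintro ⟨x, h1, h2⟩
    have h3 := bt_len h2
    exact ⟨x, by rw [← topL_congr h (y := x) (by omega)]; exact h1,
      (bt_congr h (Or.inr hm)).1 h2⟩
  · rintro ⟨x, h1, h2⟩
    have h3 := bt_len h2
    exact ⟨x, by rw [topL_congr h (y := x) (by omega)]; exact h1, (bt_congr h (Or.inr hm)).2 h2⟩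

theorem topQ_congr {X X' : Lang} {s : Str} (h : ∀ v : Str, v.length ≤ 7 * s.length + 5 → X v = X' v) :
    topQ X s = topQ X' s := by
  rw [Bool.eq_iff_iff, topQ_iff, topQ_iff]
  constructor
  · rintro ⟨y, h1, h2, h3⟩
    exact ⟨y, h1, h2, by rw [← noTop_congr h h1]; exact h3⟩
  · rintro ⟨y, h1, h2, h3⟩
    exact ⟨y, h1, h2, by rw [noTop_congr h h1]; exact h3⟩

theorem top_diff (Y : Lang) (p p' : PIx) (l : List NIx) (hl : l.length = 2) :
    ∀ᶠ G in residual Lang, ∃ s : Str, pEval p (sEval p' l (join Y G)) s ≠ topQ (join Y G) s := by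
  refine residual_of (fun G => ∃ s : Str, pEval p (sEval p' l (join Y G)) s ≠ topQ (join Y G) s) ?_
    (fun G N => top_dense Y p p' l hl G N)
  rintro G ⟨s, hs⟩
  obtain ⟨m, hm⟩ := ((loc_sEval p []).comp (loc_sEval p' l)) s.length
  refine ⟨max m (7 * s.length + 5), fun G' hG' => ⟨s, ?_⟩⟩
  have h1 : pEval p (sEval p' l (join Y G')) s = pEval p (sEval p' l (join Y G)) s :=
    hm (join Y G') (join Y G) (fun v hv => join_congr hG' (hv.trans (le_max_left _ _))) s le_rfl
  have h2 : topQ (join Y G') s = topQ (join Y G) s :=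
    topQ_congr fun v hv => join_congr hG' (hv.trans (le_max_right _ _))
  rw [h1, h2]
  exact hs

/-- For comeager many oracles the language `topL` is not in `\hat L_3`. -/
theorem top_not_rlow (Y : Lang) : ∀ᶠ G in residual Lang,
    topL (join Y G) ∉ RLowSucc (join Y G) 2 := by
  have h : ∀ᶠ G in residual Lang, ∀ (p p' : PIx) (l : List NIx), l.length = 2 → ∃ s : Str,
      pEval p (sEval p' l (join Y G)) s ≠ topQ (join Y G) s := by
    rw [eventually_countable_forall]
    intro p
    rw [eventually_countable_forall]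
    intro p'
    rw [eventually_countable_forall]
    intro l
    by_cases hl : l.length = 2
    · exact (top_diff Y p p' l hl).mono fun G hG _ => hG
    · exact Filter.Eventually.of_forall fun G h => absurd h hl
  filter_upwards [h] with G hG hlow
  have h1 : topQ (join Y G) ∈ DelSucc (join (join Y G) (topL (join Y G))) 2 :=
    ⟨_, topQ_mem (join Y G), query_mem _⟩
  obtain ⟨C, hC, hL⟩ := hlow.2 h1
  obtain ⟨p', l, hl, hC'⟩ := exists_sEval hC
  obtain ⟨p, hp⟩ := exists_pEval hL
  obtain ⟨s, hs⟩ := hG p p' l hl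
  apply hs
  rw [← hC', ← hp]

end Pool.Agent.Lib.Pa76659G.T3
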