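import Pool.Agent.Lib.Pa76659G.Final2
import Pool.Agent.Lib.Pa76659G.T3End

/-!
The low classes of generic oracles: all levels.
-/

namespace Pool.Agent.Lib.Pa76659G

open Pool.Agent.Lib.Pa76659

/-- The low hierarchy relative to generic oracles, with the strictness at the level `3`. -/
theorem generic_chain (Y : Lang) : ∀ᶠ G in residual Lang, ∀ X, X = join Y G →
    (∀ k, Sig X k ≠ Sig X (k + 1)) ∧
    Low X 1 ⊂ RLowSucc X 1 ∧ RLowSucc X 1 ⊂ Low X 2 ∧ Low X 2 ⊂ RLowSucc X 2 ∧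
    RLowSucc X 2 ⊂ Low X 3 ∧
    (∀ k, 3 ≤ k → Low X k = RLowSucc X k ∧ RLowSucc X k = Low X (k + 1)) ∧
    Low X 1 = {A | A ∈ NPO X ∧ (fun x => !(A x)) ∈ NPO X} ∧
    RLowSucc X 1 = {A | A ∈ NPO X ∧ (fun x => !(A x)) ∈ NPAdv X 1} ∧
    Low X 2 = {A | A ∈ NPO X ∧ (fun x => !(A x)) ∈ NPChk X} ∧
    Low X 3 = {A | A ∈ NPO X ∧ (fun x => !(A x)) ∈ NPPoly X} := by
  filter_upwards [generic_all Y, T3.top_not_rlow Y] with G h1 h2
  intro X hX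
  obtain ⟨a1, a2, a3, a4, a5⟩ := h1 X hX
  refine ⟨a1, a2, a3, a4, ⟨rlow_low, fun h => ?_⟩, a5⟩
  subst hX
  exact h2 (h (T3.topL_low _))

end Pool.Agent.Lib.Pa76659G
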