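import Pool.Agent.Lib.Pa76659G.Adv
import Pool.Agent.Lib.Pa76659H.Fin

set_option autoImplicit false

/-!
A universal machine: for every oracle `X` there is a complete set of `NP^X`.
-/

namespace Pool.Agent.Lib.Pa76659G

open Pool.Agent.Lib.Pa76659 PC

namespace Unv

/-- the new contents of register `j` after the instruction `ins`, old contents `W` -/
def nv (O : Lang) (ins W : Str) (j : ℕ) : Str :=
  if decide (j = (nth ins 2).length) = true then
    (if (nth ins 0).isEmpty = true then nth W j
      else if (nth ins 0).headD false = true then (nth ins 3).headD false :: nth W j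
      else if (nth ins 3).headD false = true then O (nth W (nth ins 1).length) :: nth W j
      else (nth W j).tail)
  else nth W j

/-- the next instruction -/
def nx (ins W : Str) : Str :=
  if (nth W (nth ins 1).length).isEmpty = true then nth ins 6
  else if (nth W (nth ins 1).length).headD false = true then nth ins 4 else nth ins 5

/-- one step of the universal machine with table `T` and `m` registers -/
def ustep (O : Lang) (T : Str) (m : ℕ) (c : Str) : Str :=
  pr (nx (nth T (fst c).length) (snd c))
    (lenc ((List.range m).map (nv O (nth T (fst c).length) (snd c))))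

/-! ### Simulation -/

/-- the instruction of a stack -/
noncomputable def insOf (M : Prog) : List Prog → Str
  | [] => lenc [[], [], [], [], cod M [], cod M [], cod M []]
  | .skip :: k => lenc [[], [], [], [], cod M k, cod M k, cod M k]
  | .push r b :: k => lenc [[true], una r, una r, [b], cod M k, cod M k, cod M k]
  | .pop r :: k => lenc [[false], una r, una r, [false], cod M k, cod M k, cod M k]
  | .query r t :: k => lenc [[false], una r, una t, [true], cod M k, cod M k, cod M k]
  | .seq p q :: k =>
      lenc [[], [], [], [], cod M (p :: q :: k), cod M (p :: q :: k), cod M (p :: q :: k)]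
  | .branch r p q e :: k =>
      lenc [[], una r, [], [], cod M (p :: k), cod M (q :: k), cod M (e :: k)]
  | .loop r p :: k =>
      lenc [[], una r, [], [], cod M (p :: .loop r p :: k), cod M (p :: .loop r p :: k), cod M k]

/-- the table of a program -/
noncomputable def tabl (M : Prog) : Str := lenc ((KK M).map (insOf M))

theorem nth_tabl {M : Prog} {κ : List Prog} (h : κ ∈ KK M) :
    nth (tabl M) (cod M κ).length = insOf M κ := by
  classical
  rw [tabl, nth_lenc, cod, un_length]
  have h1 : (KK M).idxOf κ < (KK M).length := List.idxOf_lt_length_iff.2 h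
  rw [List.getD_eq_getElem _ _ (by rw [List.length_map]; exact h1), List.getElem_map,
    List.getElem_idxOf h1]

theorem pr_lenc_congr {a a' : Str} {m : ℕ} {f g : ℕ → Str} (h : a = a') (h' : ∀ j < m, f j = g j) :
    pr a (lenc ((List.range m).map f)) = pr a' (lenc ((List.range m).map g)) := by
  rw [h]
  congr 2
  exact List.map_congr_left (fun j hj => h' j (List.mem_range.1 hj))

theorem ustep_enc {O : Lang} {M : Prog} {m : ℕ} (hm : M.bnd ≤ m) {c : Cfg} (hκ : c.1 ∈ KK M) :
    ustep O (tabl M) m (enc M m c) = enc M m (step O c) := by
  have hb := KK_bnd hm hκ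
  have hK := step_KK hκ O c.2
  obtain ⟨κ, s⟩ := c
  have hreg : ∀ r < m, nth (snd (enc M m (κ, s))) r = s r := fun r hr => enc_reg M m (κ, s) hr
  unfold ustep
  rw [enc_cod, nth_tabl hκ]
  generalize hW : snd (enc M m (κ, s)) = W at hreg ⊢
  unfold enc
  rcases κ with _ | ⟨q, k⟩
  · refine pr_lenc_congr ?_ (fun j hj => ?_)
    · unfold nx
      simp only [insOf, nth_lenc, List.getD_cons_zero, List.getD_cons_succ, PC.un_length]
      simp [step]
    · unfold nv
      simp only [insOf, nth_lenc, List.getD_cons_zero, List.getD_cons_succ, PC.un_length]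
      simp [step, hreg j hj]
  · have hq := hb q List.mem_cons_self
    cases q with
    | skip =>
      refine pr_lenc_congr ?_ (fun j hj => ?_)
      · unfold nx
        simp only [insOf, nth_lenc, List.getD_cons_zero, List.getD_cons_succ, PC.un_length]
        simp [step]
      · unfold nv
        simp only [insOf, nth_lenc, List.getD_cons_zero, List.getD_cons_succ, PC.un_length]
        simp [step, hreg j hj]
    | push r b =>
      refine pr_lenc_congr ?_ (fun j hj => ?_)
      · unfold nx
        simp only [insOf, nth_lenc, List.getD_cons_zero, List.getD_cons_succ, PC.un_length]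
        simp [step]
      · unfold nv
        simp only [insOf, nth_lenc, List.getD_cons_zero, List.getD_cons_succ, PC.un_length]
        by_cases h : j = r
        · subst h
          simp [step, hreg j hj]
        · simp [step, hreg j hj, h, Function.update_of_ne h]
    | pop r =>
      refine pr_lenc_congr ?_ (fun j hj => ?_)
      · unfold nx
        simp only [insOf, nth_lenc, List.getD_cons_zero, List.getD_cons_succ, PC.un_length]
        simp [step]
      · unfold nv
        simp only [insOf, nth_lenc, List.getD_cons_zero, List.getD_cons_succ, PC.un_length]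
        by_cases h : j = r
        · subst h
          simp [step, hreg j hj]
        · simp [step, hreg j hj, h, Function.update_of_ne h]
    | query r t =>
      have hrt : r < m ∧ t < m := by
        have : max r t + 1 ≤ m := hq
        omega
      refine pr_lenc_congr ?_ (fun j hj => ?_)
      · unfold nx
        simp only [insOf, nth_lenc, List.getD_cons_zero, List.getD_cons_succ, PC.un_length]
        simp [step]
      · unfold nv
        simp only [insOf, nth_lenc, List.getD_cons_zero, List.getD_cons_succ, PC.un_length]
        by_cases h : j = t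
        · subst h
          simp [step, hreg j hj, hreg r hrt.1]
        · simp [step, hreg j hj, h, Function.update_of_ne h]
    | seq p q =>
      refine pr_lenc_congr ?_ (fun j hj => ?_)
      · unfold nx
        simp only [insOf, nth_lenc, List.getD_cons_zero, List.getD_cons_succ, PC.un_length]
        simp [step]
      · unfold nv
        simp only [insOf, nth_lenc, List.getD_cons_zero, List.getD_cons_succ, PC.un_length]
        simp [step, hreg j hj]
    | branch r p q e =>
      have hr : r < m := by
        have : max (r + 1) (max p.bnd (max q.bnd e.bnd)) ≤ m := hq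
        omega
      refine pr_lenc_congr ?_ (fun j hj => ?_)
      · unfold nx
        simp only [insOf, nth_lenc, List.getD_cons_zero, List.getD_cons_succ, PC.un_length]
        rcases hs : s r with _ | ⟨b, l⟩
        · simp [step, hs, hreg r hr]
        · cases b <;> simp [step, hs, hreg r hr]
      · unfold nv
        simp only [insOf, nth_lenc, List.getD_cons_zero, List.getD_cons_succ, PC.un_length]
        rcases hs : s r with _ | ⟨b, l⟩
        · simp [step, hs, hreg j hj]
        · cases b <;> simp [step, hs, hreg j hj]
    | loop r p =>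
      have hr : r < m := by
        have : max (r + 1) p.bnd ≤ m := hq
        omega
      refine pr_lenc_congr ?_ (fun j hj => ?_)
      · unfold nx
        simp only [insOf, nth_lenc, List.getD_cons_zero, List.getD_cons_succ, PC.un_length]
        rcases hs : s r with _ | ⟨b, l⟩
        · simp [step, hs, hreg r hr]
        · cases b <;> simp [step, hs, hreg r hr]
      · unfold nv
        simp only [insOf, nth_lenc, List.getD_cons_zero, List.getD_cons_succ, PC.un_length]
        rcases hs : s r with _ | ⟨b, l⟩
        · simp [step, hs, hreg j hj]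
        · cases b <;> simp [step, hs, hreg j hj]

theorem ustep_run {O : Lang} {M : Prog} {m : ℕ} (hm : M.bnd ≤ m) (s : ℕ → Str) : ∀ n : ℕ,
    (ustep O (tabl M) m)^[n] (enc M m ([M], s)) = enc M m (runN O n ([M], s))
  | 0 => rfl
  | n + 1 => by
    rw [Function.iterate_succ_apply', ustep_run hm s n, ustep_enc hm, runN_add O n 1 ([M], s)]
    · rfl
    · have h := runT_KK (M := M) (fun _ => O) s n
      rwa [runT_const] at h

/-! ### Computability -/

section
variable {α : Type*} {D : α → Prop} {ctx : List (α → Str)} {O : Lang}

theorem nv_poly {ins W : α → Str} {j : α → ℕ} (hi : PolyC (fun _ => O) D ctx ins)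
    (hW : PolyC (fun _ => O) D ctx W) (hj : PolyN (fun _ => O) D ctx j) :
    PolyC (fun _ => O) D ctx (fun a => nv O (ins a) (W a) (j a)) := by
  have f0 := PolyC.nth hi (PolyN.const 0)
  have f1 := PolyN.length (PolyC.nth hi (PolyN.const 1))
  have f2 := PolyN.length (PolyC.nth hi (PolyN.const 2))
  have f3 := PolyC.nth hi (PolyN.const 3)
  have w := PolyC.nth hW hj
  have w1 := PolyC.nth hW f1
  have b3 : PolyC (fun _ => O) D ctx (fun a => [(nth (ins a) 3).headD false]) := PolyB.headD f3
  have bq : PolyC (fun _ => O) D ctx (fun a => [O (nth (W a) (nth (ins a) 1).length)]) :=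
    PolyC.query w1
  unfold nv
  refine PolyC.ite (PolyB.natEq hj f2) ?_ (w.mono fun _ h => h.1)
  refine PolyC.ite ((PolyB.isNil f0).mono fun _ h => h.1) (w.mono fun _ h => h.1.1) ?_
  refine PolyC.ite ((PolyB.headD f0).mono fun _ h => h.1.1)
    ((b3.append w).mono fun _ h => h.1.1.1) ?_
  refine PolyC.ite ((PolyB.headD f3).mono fun _ h => h.1.1.1)
    ((bq.append w).mono fun _ h => h.1.1.1.1) (w.tail.mono fun _ h => h.1.1.1.1)

theorem nx_poly {ins W : α → Str} (hi : PolyC (fun _ => O) D ctx ins)
    (hW : PolyC (fun _ => O) D ctx W) :
    PolyC (fun _ => O) D ctx (fun a => nx (ins a) (W a)) := by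
  have f1 := PolyN.length (PolyC.nth hi (PolyN.const 1))
  have w1 := PolyC.nth hW f1
  unfold nx
  refine PolyC.ite (PolyB.isNil w1) ((PolyC.nth hi (PolyN.const 6)).mono fun _ h => h.1) ?_
  exact PolyC.ite ((PolyB.headD w1).mono fun _ h => h.1)
    ((PolyC.nth hi (PolyN.const 4)).mono fun _ h => h.1.1)
    ((PolyC.nth hi (PolyN.const 5)).mono fun _ h => h.1.1)

theorem ustep_poly {T c : α → Str} {m : α → ℕ} (hT : PolyC (fun _ => O) D ctx T)
    (hm : PolyN (fun _ => O) D ctx m) (hc : PolyC (fun _ => O) D ctx c) :
    PolyC (fun _ => O) D ctx (fun a => ustep O (T a) (m a) (c a)) := by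
  have hi := PolyC.nth hT (PolyN.length (PolyC.fst hc))
  have hW := PolyC.snd hc
  unfold ustep
  refine PolyC.pr (nx_poly hi hW) ?_
  refine PolyC.lenc_range (f := fun p : α × ℕ =>
    nv O (nth (T p.1) (fst (c p.1)).length) (snd (c p.1)) p.2) hm ?_
  refine nv_poly ?_ ?_ (PolyC.var (by simp))
  · exact (PolyC.lift hi (D' := fun p : α × ℕ => D p.1 ∧ p.2 < m p.1)
      (fun p hp => hp.1)).weakenRight _
  · exact (PolyC.lift hW (D' := fun p : α × ℕ => D p.1 ∧ p.2 < m p.1)
      (fun p hp => hp.1)).weakenRight _

end

/-! ### Bounds -/

theorem nv_length (O : Lang) (ins W : Str) (j : ℕ) :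
    (nv O ins W j).length ≤ (nth W j).length + 1 := by
  unfold nv
  split_ifs <;> simp <;> omega

theorem nx_length (ins W : Str) : (nx ins W).length ≤ ins.length := by
  unfold nx
  split_ifs <;> exact nth_length_le _ _

/-- invariant of the run -/
structure Inv (T : Str) (m N : ℕ) (c : Str) : Prop where
  ex : ∃ a f, c = pr a (lenc ((List.range m).map f)) ∧ a.length ≤ N ∧ ∀ j, (f j).length ≤ N

theorem Inv.step {O : Lang} {T : Str} {m N : ℕ} {c : Str} (h : Inv T m N c) (hT : T.length ≤ N) :
    Inv T m (N + 1) (ustep O T m c) := by
  obtain ⟨a, f, rfl, ha, hf⟩ := h.ex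
  refine ⟨nx (nth T a.length) (lenc ((List.range m).map f)),
    fun j => nv O (nth T a.length) (lenc ((List.range m).map f)) j, ?_, ?_, ?_⟩
  · unfold ustep
    rw [fst_pr, snd_pr]
  · have h1 := nx_length (nth T a.length) (lenc ((List.range m).map f))
    have h2 := nth_length_le T a.length
    omega
  · intro j
    have h1 := nv_length O (nth T a.length) (lenc ((List.range m).map f)) j
    have h2 : (nth (lenc ((List.range m).map f)) j).length ≤ N := by
      rw [nth_lenc]
      by_cases hj : j < m
      · rw [List.getD_eq_getElem _ _ (by simpa using hj)]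
        simpa using hf j
      · rw [List.getD_eq_default _ _ (by simpa using hj)]
        simp
    show (nv O (nth T a.length) (lenc ((List.range m).map f)) j).length ≤ N + 1
    omega

theorem Inv.iter {O : Lang} {T : Str} {m N : ℕ} {c : Str} (h : Inv T m N c) (hT : T.length ≤ N) :
    ∀ k, Inv T m (N + k) ((ustep O T m)^[k] c)
  | 0 => h
  | k + 1 => by
    rw [Function.iterate_succ_apply']
    exact Inv.step (Inv.iter h hT k) (by
      show T.length ≤ N + k
      omega)

theorem Inv.length {T : Str} {m N : ℕ} {c : Str} (h : Inv T m N c) :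
    c.length ≤ 2 * N + 1 + (2 * (m * N) + m) := by
  obtain ⟨a, f, rfl, ha, hf⟩ := h.ex
  rw [pr_length, lenc_length]
  have h1 := total_map_range f N m (fun j _ => hf j)
  simp only [List.length_map, List.length_range]
  omega

/-! ### The complete set -/

/-- initial configuration -/
def c0 (z y : Str) : Str :=
  pr (nth z 1) (lenc ((List.range (nth z 5).length).map
    (fun j => if decide (j = 0) = true then nth z 2 else if decide (j = 1) = true then y else [])))

/-- final configuration -/
def c1 (O : Lang) (z y : Str) : Str :=
  (ustep O (nth z 0) (nth z 5).length)^[(nth z 3).length] (c0 z y)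

/-- the universal verifier -/
def VU (O : Lang) (p : Str × Str) : Bool :=
  decide (p.2.length = (nth p.1 4).length) && (nth (snd (c1 O p.1 p.2)) 0).headD false

theorem c0_inv (z y : Str) : Inv (nth z 0) (nth z 5).length (z.length + y.length) (c0 z y) := by
  refine ⟨_, _, rfl, ?_, fun j => ?_⟩
  · have := nth_length_le z 1
    omega
  · have h2 := nth_length_le z 2
    split_ifs
    · omega
    · omega
    · simp

theorem VU_poly (O : Lang) :
    PolyB (fun _ : Str × Str => O) (fun _ => True) [fun p => p.1, fun p => p.2] (VU O) := by
  have hz : PolyC (fun _ : Str × Str => O) (fun _ => True) [fun p => p.1, fun p => p.2]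
    (fun p => p.1) := PolyC.var (by simp)
  have hy : PolyC (fun _ : Str × Str => O) (fun _ => True) [fun p => p.1, fun p => p.2]
    (fun p => p.2) := PolyC.var (by simp)
  have f : ∀ i, PolyC (fun _ : Str × Str => O) (fun _ => True) [fun p => p.1, fun p => p.2]
    (fun p => nth p.1 i) := fun i => PolyC.nth hz (PolyN.const i)
  have h0 : PolyC (fun _ : Str × Str => O) (fun _ => True) [fun p => p.1, fun p => p.2]
      (fun p => c0 p.1 p.2) := by
    unfold c0
    refine PolyC.pr (f 1) (PolyC.lenc_range (f := fun p : (Str × Str) × ℕ =>
      if decide (p.2 = 0) = true then nth p.1.1 2 else if decide (p.2 = 1) = true then p.1.2 else [])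
      (PolyN.length (f 5)) ?_)
    have hk : PolyN (fun _ : (Str × Str) × ℕ => O)
        (fun p => True ∧ p.2 < (nth p.1.1 5).length)
        (PC.lift [fun p : Str × Str => p.1, fun p => p.2] ++ [fun p => una p.2])
        (fun p => p.2) := PolyC.var (by simp)
    refine PolyC.ite (PolyB.natEq hk (PolyN.const 0)) ?_ ?_
    · exact (((f 2).lift (D' := fun p : (Str × Str) × ℕ => True ∧ p.2 < (nth p.1.1 5).length)
        (fun p hp => hp.1)).weakenRight _).mono fun _ h => h.1
    · refine PolyC.ite ((PolyB.natEq hk (PolyN.const 1)).mono fun _ h => h.1) ?_ PolyC.nil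
      exact ((hy.lift (D' := fun p : (Str × Str) × ℕ => True ∧ p.2 < (nth p.1.1 5).length)
        (fun p hp => hp.1)).weakenRight _).mono fun _ h => h.1.1
  have h1 : PolyC (fun _ : Str × Str => O) (fun _ => True) [fun p => p.1, fun p => p.2]
      (fun p => c1 O p.1 p.2) := by
    unfold c1
    refine PolyC.iter (g := fun p : Str × Str => ustep O (nth p.1 0) (nth p.1 5).length) ?_ h0
      (PolyN.length (f 3)) ⟨2 * (2 * Polynomial.X) + 1 +
        (2 * (Polynomial.X * (2 * Polynomial.X)) + Polynomial.X), fun p _ k hk => ?_⟩
    · refine ustep_poly (O := O) ?_ ?_ (PolyC.var (by simp))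
      · exact ((f 0).lift (D' := fun p : (Str × Str) × Str => True) (fun p hp => hp)).weakenRight _
      · exact (PolyC.lift (PolyN.length (f 5))
          (D' := fun p : (Str × Str) × Str => True) (fun p hp => hp)).weakenRight _
    · have h2 := ((c0_inv p.1 p.2).iter (O := O) (by
        have := nth_length_le p.1 0
        omega) k).length
      have h3 := nth_length_le p.1 3
      have h4 := nth_length_le p.1 5
      refine h2.trans ?_
      simp only [vals_cons, vals_nil, total_cons, total_nil, Nat.add_zero, Polynomial.eval_add,
        Polynomial.eval_mul, Polynomial.eval_ofNat, Polynomial.eval_X, Polynomial.eval_one]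
      have h5 : p.1.length + p.2.length + k ≤ 2 * (p.1.length + p.2.length) := by omega
      have h6 : (nth p.1 5).length * (p.1.length + p.2.length + k) ≤
          (p.1.length + p.2.length) * (2 * (p.1.length + p.2.length)) :=
        Nat.mul_le_mul (by omega) h5
      omega
  exact (PolyB.natEq (PolyN.length hy) (PolyN.length (f 4))).and
    (PolyB.headD (PolyC.nth (PolyC.snd h1) (PolyN.const 0)))

open Classical in
/-- the complete set -/
noncomputable def KU (O : Lang) : Lang := fun z => decide (∃ y : Str, VU O (z, y) = true)

theorem KU_mem (O : Lang) : KU O ∈ NPO O := by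
  classical
  refine mem_NPO_le Polynomial.X (VU_poly O) (fun z => ?_)
  unfold KU
  rw [decide_eq_true_eq]
  constructor
  · rintro ⟨y, hy⟩
    refine ⟨y, ?_, hy⟩
    unfold VU at hy
    rw [Bool.and_eq_true, decide_eq_true_eq] at hy
    rw [hy.1, Polynomial.eval_X]
    exact nth_length_le z 4
  · rintro ⟨y, -, hy⟩
    exact ⟨y, hy⟩

/-- reductions to the complete set -/
theorem KU_hard {O L : Lang} (h : L ∈ NPO O) : ∃ red : Str → Str,
    (∀ (O' : Lang), PolyC (fun _ : Str => O') (fun _ => True) [fun x => x] red) ∧
      ∀ x, KU O (red x) = L x := by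
  classical
  obtain ⟨M, p, q, hM⟩ := h
  set m : ℕ := M.bnd + 2 with hm
  refine ⟨fun x => lenc [tabl M, cod M [M], x, una (p.eval x.length), una (q.eval x.length), una m],
    fun O' => ?_, fun x => ?_⟩
  · have hx : PolyC (fun _ : Str => O') (fun _ => True) [fun x => x] (fun x => x) :=
      PolyC.var (by simp)
    have h3 : PolyC (fun _ : Str => O') (fun _ => True) [fun x => x]
      (fun x => una (p.eval x.length)) := (PolyN.length hx).poly p
    have h4 : PolyC (fun _ : Str => O') (fun _ => True) [fun x => x]
      (fun x => una (q.eval x.length)) := (PolyN.length hx).poly q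
    exact PolyC.pr (PolyC.const _) (PolyC.pr (PolyC.const _) (PolyC.pr hx (PolyC.pr h3
      (PolyC.pr h4 (PolyC.pr (PolyC.const _) PolyC.nil)))))
  · rw [Bool.eq_iff_iff, (hM x).2]
    unfold KU
    rw [decide_eq_true_eq]
    have key : ∀ y : Str, (nth (snd (c1 O (lenc [tabl M, cod M [M], x, una (p.eval x.length),
        una (q.eval x.length), una m]) y)) 0).headD false =
        accepts O M (inp2 x y) (p.eval x.length) := by
      intro y
      have e0 : c0 (lenc [tabl M, cod M [M], x, una (p.eval x.length),
          una (q.eval x.length), una m]) y = enc M m ([M], inp2 x y) := by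
        unfold c0 enc
        simp only [nth_lenc, List.getD_cons_zero, List.getD_cons_succ, PC.un_length]
        refine pr_lenc_congr rfl (fun j _ => ?_)
        unfold inp2
        simp only [decide_eq_true_eq]
      unfold c1
      rw [e0]
      simp only [nth_lenc, List.getD_cons_zero, List.getD_cons_succ, PC.un_length]
      rw [ustep_run (by omega), enc_reg _ _ _ (by omega), accepts]
      rcases (runN O (p.eval x.length) ([M], inp2 x y)).2 0 with _ | ⟨b, l⟩
      · rfl
      · cases b <;> rfl
    constructor
    · rintro ⟨y, hy⟩
      unfold VU at hy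
      rw [Bool.and_eq_true, decide_eq_true_eq, key] at hy
      refine ⟨y, ?_, hy.2⟩
      rw [hy.1]
      simp only [nth_lenc, List.getD_cons_zero, List.getD_cons_succ, PC.un_length]
    · rintro ⟨y, hy1, hy2⟩
      refine ⟨y, ?_⟩
      unfold VU
      rw [Bool.and_eq_true, decide_eq_true_eq, key]
      refine ⟨?_, hy2⟩
      simp only [nth_lenc, List.getD_cons_zero, List.getD_cons_succ, PC.un_length]
      exact hy1

/-- `NP^X` has a Turing complete set. -/
theorem KU_tcomp (X : Lang) : KU X ∈ Pool.Agent.Lib.Pa76659H.TComp X := by
  refine ⟨KU_mem X, fun L hL => ?_⟩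
  obtain ⟨red, h1, h2⟩ := KU_hard hL
  refine mem_PO ((polyB_of_PO (right_PO X (KU X)) (h1 (join X (KU X)))).congr (fun x _ => h2 x))

end Unv

end Pool.Agent.Lib.Pa76659G
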