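import Pool.Agent.Lib.Pa76659G.TrX
import Pool.Agent.Lib.Pa76659G.UniK

set_option autoImplicit false

/-!
The universal nondeterministic set depends locally on the oracle; the gate set.
-/

namespace Pool.Agent.Lib.Pa76659G.Tr

open Pool.Agent.Lib.Pa76659 Pool.Agent.Lib.Pa76659G Pool.Agent.Lib.Pa76659G.PC
open Pool.Agent.Lib.Pa76659G.Unv

theorem nv_congr {O O' : Lang} {ins W : Str} {N : ℕ} (h : ∀ v : Str, v.length ≤ N → O v = O' v)
    (hW : ∀ j, (nth W j).length ≤ N) (j : ℕ) : nv O ins W j = nv O' ins W j := by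
  unfold nv
  rw [h _ (hW _)]

theorem ustep_congr {O O' : Lang} {T : Str} {m N : ℕ} {c : Str}
    (h : ∀ v : Str, v.length ≤ N → O v = O' v) (hc : Inv T m N c) :
    ustep O T m c = ustep O' T m c := by
  obtain ⟨a, f, rfl, ha, hf⟩ := hc.ex
  have hW : ∀ j, (nth (lenc ((List.range m).map f)) j).length ≤ N := by
    intro j
    rw [nth_lenc]
    by_cases hj : j < m
    · rw [List.getD_eq_getElem _ _ (by simpa using hj)]
      simpa using hf j
    · rw [List.getD_eq_default _ _ (by simpa using hj)]
      simp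
  unfold ustep
  rw [fst_pr, snd_pr]
  refine pr_lenc_congr rfl (fun j _ => ?_)
  exact nv_congr h hW j

theorem iter_congr {O O' : Lang} {T : Str} {m N K : ℕ} {c : Str}
    (h : ∀ v : Str, v.length ≤ N + K → O v = O' v) (hc : Inv T m N c) (hT : T.length ≤ N) :
    ∀ k ≤ K, (ustep O T m)^[k] c = (ustep O' T m)^[k] c
  | 0, _ => rfl
  | k + 1, hk => by
    rw [Function.iterate_succ_apply', Function.iterate_succ_apply',
      ← iter_congr h hc hT k (by omega)]
    exact ustep_congr (fun v hv => h v (by omega)) (Inv.iter hc hT k)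

theorem VU_congr {O O' : Lang} {z y : Str}
    (h : ∀ v : Str, v.length ≤ 2 * z.length + y.length → O v = O' v) : VU O (z, y) = VU O' (z, y) := by
  have h1 : c1 O z y = c1 O' z y := by
    unfold c1
    refine iter_congr (N := z.length + y.length) (K := (nth z 3).length) (fun v hv => h v ?_)
      (c0_inv z y) ?_ _ le_rfl
    · have := nth_length_le z 3
      omega
    · have := nth_length_le z 0
      omega
  unfold VU
  rw [h1]

theorem VU_length {O : Lang} {z y : Str} (h : VU O (z, y) = true) : y.length ≤ z.length := by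
  unfold VU at h
  rw [Bool.and_eq_true, decide_eq_true_eq] at h
  have := nth_length_le z 4
  have h1 : y.length = (nth z 4).length := h.1
  omega

theorem loc_KU : Loc KU := by
  intro n
  refine ⟨3 * n, fun O O' h x hx => ?_⟩
  have key : ∀ y : Str, y.length ≤ x.length → VU O (x, y) = VU O' (x, y) := fun y hy =>
    VU_congr (fun v hv => h v (by omega))
  unfold KU
  refine decide_eq_decide.2 ⟨?_, ?_⟩
  · rintro ⟨y, hy⟩
    exact ⟨y, by rw [← key y (VU_length hy)]; exact hy⟩
  · rintro ⟨y, hy⟩
    exact ⟨y, by rw [key y (VU_length hy)]; exact hy⟩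

end Pool.Agent.Lib.Pa76659G.Tr
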