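import Pool.Agent.Lib.Pa76659G.GhSpec
import Pool.Agent.Lib.Pa76659G.TrZ

set_option autoImplicit false

/-!
Modification of a world: the test part of the oracle is changed, and the masks are changed at the
pairs `(z, y)` where the value of the universal verifier changes from false to true. Each bit of the
modified world depends on few bits of the test part.
-/

namespace Pool.Agent.Lib.Pa76659G.Gh

open Pool.Agent.Lib.Pa76659 Pool.Agent.Lib.Pa76659G Pool.Agent.Lib.Pa76659G.PC
open Pool.Agent.Lib.Pa76659G.Unv

/-! ### Certificates for the universal verifier -/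

/-- the query of a step of the universal machine -/
def uq (T : Str) (c : Str) : Str := nth (snd c) (nth (nth T (fst c).length) 1).length

theorem ustep_cert {O O' : Lang} {T : Str} {m : ℕ} {c : Str} (h : O' (uq T c) = O (uq T c)) :
    ustep O' T m c = ustep O T m c := by
  unfold ustep
  refine pr_lenc_congr rfl (fun j _ => ?_)
  unfold nv
  unfold uq at h
  rw [h]

theorem uq_length {T : Str} {m N : ℕ} {c : Str} (hc : Inv T m N c) : (uq T c).length ≤ N := by
  obtain ⟨a, f, rfl, ha, hf⟩ := hc.ex
  unfold uq
  rw [snd_pr, nth_lenc]
  by_cases hj : (nth (nth T (fst (pr a (lenc ((List.range m).map f)))).length) 1).length < m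
  · rw [List.getD_eq_getElem _ _ (by simpa using hj)]
    simpa using hf _
  · rw [List.getD_eq_default _ _ (by simpa using hj)]
    simp

theorem iter_cert {O O' : Lang} {T : Str} {m : ℕ} {c : Str} : ∀ K : ℕ,
    (∀ k < K, O' (uq T ((ustep O T m)^[k] c)) = O (uq T ((ustep O T m)^[k] c))) →
      (ustep O' T m)^[K] c = (ustep O T m)^[K] c
  | 0, _ => rfl
  | K + 1, h => by
    rw [Function.iterate_succ_apply', Function.iterate_succ_apply',
      iter_cert K (fun k hk => h k (by omega))]
    exact ustep_cert (h K (by omega))

/-- the universal verifier makes at most `|z|` queries -/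
theorem VU_cert (O : Lang) {z y : Str} (hy : y.length ≤ z.length) : ∃ Q : List Str,
    Q.length ≤ z.length ∧ (∀ q ∈ Q, q.length ≤ 3 * z.length) ∧
      ∀ O' : Lang, (∀ q ∈ Q, O' q = O q) → VU O' (z, y) = VU O (z, y) := by
  have h0 := nth_length_le z 0
  have h3 := nth_length_le z 3
  refine ⟨(List.range (nth z 3).length).map (fun k =>
    uq (nth z 0) ((ustep O (nth z 0) (nth z 5).length)^[k] (c0 z y))), ?_, ?_, ?_⟩
  · simpa using h3
  · intro q hq
    rw [List.mem_map] at hq
    obtain ⟨k, hk, rfl⟩ := hq
    rw [List.mem_range] at hk
    have h1 := uq_length ((c0_inv z y).iter (O := O) (by omega) k)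
    omega
  · intro O' h
    have h1 : c1 O' z y = c1 O z y := by
      unfold c1
      refine iter_cert _ (fun k hk => h _ ?_)
      exact List.mem_map.2 ⟨k, List.mem_range.2 hk, rfl⟩
    unfold VU
    rw [h1]

/-- the value of the universal verifier depends on the strings of length at most `3 |z|` -/
theorem VU_loc {O O' : Lang} {z y : Str} (h : ∀ v : Str, v.length ≤ 3 * z.length → O v = O' v) :
    VU O (z, y) = VU O' (z, y) := by
  by_cases hy : y.length ≤ z.length
  · exact Tr.VU_congr (fun v hv => h v (by omega))
  · rw [Bool.eq_iff_iff]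
    constructor
    · intro h1
      exact absurd (Tr.VU_length h1) hy
    · intro h1
      exact absurd (Tr.VU_length h1) hy

/-! ### Definition by recursion on the length -/

theorem fix_exists (Φ : Lang → Lang)
    (hΦ : ∀ (O O' : Lang) (v : Str), (∀ w : Str, w.length < v.length → O w = O' w) →
      Φ O v = Φ O' v) : ∃ O : Lang, ∀ v, O v = Φ O v := by
  have key : ∀ (n : ℕ) (v : Str), v.length = n → ∀ k l : ℕ, n < k → n < l →
      Φ^[k] (fun _ => false) v = Φ^[l] (fun _ => false) v := by
    intro n
    induction n using Nat.strong_induction_on with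
    | _ n ih =>
      intro v hv k l hk hl
      obtain ⟨k, rfl⟩ := Nat.exists_eq_succ_of_ne_zero (show k ≠ 0 by omega)
      obtain ⟨l, rfl⟩ := Nat.exists_eq_succ_of_ne_zero (show l ≠ 0 by omega)
      rw [Function.iterate_succ_apply', Function.iterate_succ_apply']
      refine hΦ _ _ v (fun w hw => ?_)
      exact ih w.length (by omega) w rfl k l (by omega) (by omega)
  refine ⟨fun v => Φ^[v.length + 1] (fun _ => false) v, fun v => ?_⟩
  show Φ^[v.length + 1] (fun _ => false) v = _
  rw [Function.iterate_succ_apply']
  refine hΦ _ _ v (fun w hw => ?_)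
  exact key w.length w rfl _ _ hw (Nat.lt_succ_self _)

/-! ### The modified world -/

/-- `v` is an address of a mask -/
def ism (v : Str) : Bool :=
  !(v.headD true) && decide (6 * (mz v).length < v.length) && decide ((my v).length ≤ (mz v).length)

theorem mz_adr (z y p : Str) (j : ℕ) : mz (false :: adr z y p j) = z := by
  unfold mz adr
  rw [List.tail_cons, PC.fst_pr, PC.fst_pr, PC.fst_pr]

theorem my_adr (z y p : Str) (j : ℕ) : my (false :: adr z y p j) = y := by
  unfold my adr
  rw [List.tail_cons, PC.fst_pr, PC.fst_pr, PC.snd_pr]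

theorem ism_adr {z y : Str} (p : Str) (j : ℕ) (hy : y.length ≤ z.length) :
    ism (false :: adr z y p j) = true := by
  unfold ism
  rw [mz_adr, my_adr, Bool.and_eq_true, Bool.and_eq_true, decide_eq_true_eq, decide_eq_true_eq]
  have := adr_length z y p j
  refine ⟨⟨rfl, ?_⟩, hy⟩
  rw [List.length_cons]
  omega

/-- `G'` is the world `G` modified: `R` on the test part `tst`, the masks `nw` where the verifier
changes from false to true. -/
def Mod (Y G : Lang) (tst : Str → Bool) (R nw G' : Lang) : Prop :=
  ∀ v, G' v = if tst v = true then R v else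
    if ism v = true ∧ VU (join Y G') (mz v, my v) = true ∧ VU (join Y G) (mz v, my v) = false
      then nw v else G v

theorem exists_mod (Y G : Lang) (tst : Str → Bool) (R nw : Lang) :
    ∃ G', Mod Y G tst R nw G' := by
  classical
  refine fix_exists (fun G' v => if tst v = true then R v else
    if ism v = true ∧ VU (join Y G') (mz v, my v) = true ∧ VU (join Y G) (mz v, my v) = false
      then nw v else G v) ?_
  intro O O' v h
  beta_reduce
  by_cases h1 : ism v = true
  · have h2 : 6 * (mz v).length < v.length := by
      unfold ism at h1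
      rw [Bool.and_eq_true, Bool.and_eq_true, decide_eq_true_eq] at h1
      exact h1.1.2
    have h3 : VU (join Y O) (mz v, my v) = VU (join Y O') (mz v, my v) := by
      refine VU_loc (fun u hu => ?_)
      rcases u with _ | ⟨b, u⟩
      · rfl
      · cases b
        · rfl
        · rw [List.length_cons] at hu
          exact h u (by omega)
    rw [h3]
  · rw [Bool.not_eq_true] at h1
    simp [h1]

variable {Y G : Lang} {tst : Str → Bool} {R nw G' : Lang}

/-- below the test part nothing changes -/
theorem Mod.low (h : Mod Y G tst R nw G') {l : ℕ} (hl : ∀ v, tst v = true → l ≤ v.length) :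
    ∀ (n : ℕ) (v : Str), v.length = n → n < l → G' v = G v := by
  intro n
  induction n using Nat.strong_induction_on with
  | _ n ih =>
    intro v hv hn
    rw [h v, if_neg (fun h1 => by have := hl v h1; omega), if_neg]
    rintro ⟨h1, h2, h3⟩
    unfold ism at h1
    rw [Bool.and_eq_true, Bool.and_eq_true, decide_eq_true_eq] at h1
    have h4 : VU (join Y G') (mz v, my v) = VU (join Y G) (mz v, my v) := by
      refine VU_loc (fun u hu => ?_)
      rcases u with _ | ⟨b, u⟩
      · rfl
      · cases b
        · rfl
        · rw [List.length_cons] at hu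
          exact ih u.length (by omega) u rfl (by omega)
    rw [h4, h3] at h2
    exact absurd h2 (by simp)

/-- the verifier does not change on short inputs -/
theorem Mod.low_VU (h : Mod Y G tst R nw G') {l : ℕ} (hl : ∀ v, tst v = true → l ≤ v.length)
    {z y : Str} (hz : 3 * z.length ≤ l) : VU (join Y G') (z, y) = VU (join Y G) (z, y) := by
  refine VU_loc (fun u hu => ?_)
  rcases u with _ | ⟨b, u⟩
  · rfl
  · cases b
    · rfl
    · rw [List.length_cons] at hu
      exact h.low hl u.length u rfl (by omega)

theorem log_step {a b : ℕ} (h : 2 * a < b) (hb : 2 ≤ b) : Nat.log 2 a + 1 ≤ Nat.log 2 b := by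
  rcases Nat.eq_zero_or_pos a with rfl | ha
  · rw [Nat.log_zero_right]
    exact Nat.log_pos (by norm_num) hb
  · rw [← Nat.log_mul_base (by norm_num) (by omega)]
    exact Nat.log_mono_right (by omega)

/-- a bound on the influence of the test part on one bit of the modified world -/
theorem infl (Y G : Lang) (tst : Str → Bool) (L : ℕ) (hL : 1 ≤ L) :
    ∀ (n : ℕ) (v : Str), v.length = n → n ≤ L → ∃ T : List Str, T.length ≤ L ^ Nat.log 2 n ∧
      ∀ R nw G', Mod Y G tst R nw G' → (∀ t ∈ T, tst t = true → R t = G t) → G' v = G v := by
  intro n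
  induction n using Nat.strong_induction_on with
  | _ n ih =>
    intro v hv hn
    by_cases h1 : tst v = true
    · refine ⟨[v], ?_, ?_⟩
      · rw [List.length_singleton]
        exact Nat.one_le_pow _ _ hL
      · intro R nw G' h h2
        rw [h v, if_pos h1]
        exact h2 v List.mem_cons_self h1
    · by_cases h2 : ism v = true
      · have h3 := h2
        unfold ism at h3
        rw [Bool.and_eq_true, Bool.and_eq_true, decide_eq_true_eq, decide_eq_true_eq] at h3
        obtain ⟨⟨-, h4⟩, h5⟩ := h3
        by_cases h6 : (mz v).length = 0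
        · refine ⟨[], by simp, ?_⟩
          intro R nw G' h _
          rw [h v, if_neg h1, if_neg]
          rintro ⟨-, h7, h8⟩
          have h9 : VU (join Y G') (mz v, my v) = VU (join Y G) (mz v, my v) := by
            refine VU_loc (fun u hu => ?_)
            have : u = [] := List.length_eq_zero_iff.1 (by omega)
            subst this
            rfl
          rw [h9, h8] at h7
          exact absurd h7 (by simp)
        obtain ⟨Q, hQ1, hQ2, hQ3⟩ := VU_cert (join Y G) h5
        have key : ∀ Q' : List Str, (∀ q ∈ Q', q.length ≤ 3 * (mz v).length) →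
            ∃ T : List Str, T.length ≤ Q'.length * L ^ (Nat.log 2 n - 1) ∧
              ∀ R nw G', Mod Y G tst R nw G' → (∀ t ∈ T, tst t = true → R t = G t) →
                ∀ q ∈ Q', join Y G' q = join Y G q := by
          intro Q'
          induction Q' with
          | nil => intro _; exact ⟨[], by simp, by simp⟩
          | cons q Q' ihQ =>
            intro hq
            obtain ⟨T1, hT1, hT2⟩ := ihQ (fun q' hq' => hq q' (List.mem_cons_of_mem _ hq'))
            have hq0 := hq q List.mem_cons_self
            have key2 : ∃ T2 : List Str, T2.length ≤ L ^ (Nat.log 2 n - 1) ∧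
                ∀ R nw G', Mod Y G tst R nw G' → (∀ t ∈ T2, tst t = true → R t = G t) →
                  join Y G' q = join Y G q := by
              rcases q with _ | ⟨b, u⟩
              · exact ⟨[], by simp, fun _ _ _ _ _ => rfl⟩
              · cases b
                · exact ⟨[], by simp, fun _ _ _ _ _ => rfl⟩
                · rw [List.length_cons] at hq0
                  obtain ⟨T2, hT3, hT4⟩ := ih u.length (by omega) u rfl (by omega)
                  refine ⟨T2, hT3.trans (Nat.pow_le_pow_right hL ?_), hT4⟩
                  have := log_step (a := u.length) (b := n) (by omega) (by omega)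
                  omega
            obtain ⟨T2, hT3, hT4⟩ := key2
            refine ⟨T2 ++ T1, ?_, ?_⟩
            · rw [List.length_append, List.length_cons]
              calc T2.length + T1.length ≤ L ^ (Nat.log 2 n - 1) + Q'.length * L ^ (Nat.log 2 n - 1) :=
                    Nat.add_le_add hT3 hT1
                _ = _ := by ring
            · intro R nw G' h h7 q' hq'
              rcases List.mem_cons.1 hq' with rfl | hq'
              · exact hT4 R nw G' h (fun t ht => h7 t (List.mem_append_left _ ht))
              · exact hT2 R nw G' h (fun t ht => h7 t (List.mem_append_right _ ht)) q' hq'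
        obtain ⟨T, hT1, hT2⟩ := key Q hQ2
        refine ⟨T, ?_, ?_⟩
        · have h7 : 1 ≤ Nat.log 2 n := Nat.log_pos (by norm_num) (by omega)
          calc T.length ≤ Q.length * L ^ (Nat.log 2 n - 1) := hT1
            _ ≤ L * L ^ (Nat.log 2 n - 1) := Nat.mul_le_mul_right _ (by omega)
            _ = L ^ Nat.log 2 n := by
              rw [← pow_succ', Nat.sub_add_cancel h7]
        · intro R nw G' h h7
          rw [h v, if_neg h1, if_neg]
          rintro ⟨-, h8, h9⟩
          rw [hQ3 _ (hT2 R nw G' h h7), h9] at h8
          exact absurd h8 (by simp)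
      · refine ⟨[], by simp, ?_⟩
        intro R nw G' h _
        rw [h v, if_neg h1, if_neg (fun h3 => h2 h3.1)]

/-- the same for several queries -/
theorem infl_list (Y G : Lang) (tst : Str → Bool) (L : ℕ) (hL : 1 ≤ L) : ∀ Q : List Str,
    (∀ q ∈ Q, q.length ≤ L + 1) → ∃ T : List Str, T.length ≤ Q.length * L ^ Nat.log 2 L ∧
      ∀ R nw G', Mod Y G tst R nw G' → (∀ t ∈ T, tst t = true → R t = G t) →
        ∀ q ∈ Q, join Y G' q = join Y G q
  | [], _ => ⟨[], by simp, by simp⟩
  | q :: Q, hq => by
    obtain ⟨T1, hT1, hT2⟩ := infl_list Y G tst L hL Q (fun q' hq' => hq q' (List.mem_cons_of_mem _ hq'))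
    have hq0 := hq q List.mem_cons_self
    have key2 : ∃ T2 : List Str, T2.length ≤ L ^ Nat.log 2 L ∧
        ∀ R nw G', Mod Y G tst R nw G' → (∀ t ∈ T2, tst t = true → R t = G t) →
          join Y G' q = join Y G q := by
      rcases q with _ | ⟨b, u⟩
      · exact ⟨[], by simp, fun _ _ _ _ _ => rfl⟩
      · cases b
        · exact ⟨[], by simp, fun _ _ _ _ _ => rfl⟩
        · rw [List.length_cons] at hq0
          obtain ⟨T2, hT3, hT4⟩ := infl Y G tst L hL u.length u rfl (by omega)
          exact ⟨T2, hT3.trans (Nat.pow_le_pow_right hL (Nat.log_mono_right (by omega))), hT4⟩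
    obtain ⟨T2, hT3, hT4⟩ := key2
    refine ⟨T2 ++ T1, ?_, ?_⟩
    · rw [List.length_append, List.length_cons]
      calc T2.length + T1.length ≤ L ^ Nat.log 2 L + Q.length * L ^ Nat.log 2 L :=
            Nat.add_le_add hT3 hT1
        _ = _ := by ring
    · intro R nw G' h h7 q' hq'
      rcases List.mem_cons.1 hq' with rfl | hq'
      · exact hT4 R nw G' h (fun t ht => h7 t (List.mem_append_left _ ht))
      · exact hT2 R nw G' h (fun t ht => h7 t (List.mem_append_right _ ht)) q' hq'

end Pool.Agent.Lib.Pa76659G.Gh
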