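import Pool.Agent.Lib.Pa76659G.HdT2

set_option autoImplicit false

/-!
The price of the equality of the first level of the high hierarchy and its deterministic version.
-/

namespace Pool.Agent.Lib.Pa76659G

open Pool.Agent.Lib.Pa76659 PC
open Pool.Agent.Lib.Pa76659H (High RHighSucc TComp)

namespace Hd

/-- If `\hat H_1 = H_1` then all tally sets in `Δ_2` are decided in subexponential time. -/
theorem tally_all {X T : Lang} (h : High X 1 ⊆ RHighSucc X 0) (hT : T ∈ DelSucc X 1) (k : ℕ) :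
    ∃ L ∈ PO X, ∀ n l : ℕ, l ≤ n → l ≤ Nat.log 2 n ^ k → L (pr (on1 n) (on1 l)) = T (on1 l) := by
  obtain ⟨B, ⟨C, hC, hB⟩, hTB⟩ := hT
  have hB' : B ∈ NPO X := NPO_subset hC hB
  have hx : PolyC (fun _ : Str => B) (fun _ => True) [fun x => x] (fun x => x) :=
    PolyC.var (by simp)
  have hG : (fun x => [T x]) ∈ FPO B := Uo.FPO_of_polyC (polyB_of_PO hTB hx)
  obtain ⟨F, hF, h1⟩ := fun_all h hB' hG k
  refine ⟨fun z => (F z).headD false, mem_PO (PolyB.headD (Uo.polyC_of_FPO hF)), fun n l hn hl => ?_⟩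
  beta_reduce
  rw [h1 n l hn hl]
  rfl

end Hd

/-- consequences of `\hat H_1 = H_1` -/
theorem cost_high {X : Lang} (h : High X 1 ⊆ RHighSucc X 0) :
    (∀ B ∈ NPO X, ∀ G ∈ FPO B, ∀ k : ℕ, ∃ F ∈ FPO X, ∀ n l : ℕ, l ≤ n → l ≤ Nat.log 2 n ^ k →
      F (pr (on1 n) (on1 l)) = G (on1 l)) ∧
    ∀ T ∈ DelSucc X 1, ∀ k : ℕ, ∃ L ∈ PO X, ∀ n l : ℕ, l ≤ n → l ≤ Nat.log 2 n ^ k →
      L (pr (on1 n) (on1 l)) = T (on1 l) :=
  ⟨fun _ hB _ hG k => Hd.fun_all h hB hG k, fun _ hT k => Hd.tally_all h hT k⟩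

end Pool.Agent.Lib.Pa76659G
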