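import Pool.Agent.Lib.Pa76659G.TrX
import Pool.Agent.Lib.Pa76659G.Exc
import Pool.Agent.Lib.Pa76659G.HdFinal

set_option autoImplicit false

/-!
For comeager many oracles `\hat H_1 ≠ H_1`; and an inclusion `P ⊂ NP ∩ coNP` proper relative to the
base stays proper.
-/

namespace Pool.Agent.Lib.Pa76659G.Tr

open Pool.Agent.Lib.Pa76659 Pool.Agent.Lib.Pa76659.Hier Pool.Agent.Lib.Pa76659G
open Pool.Agent.Lib.Pa76659G.PC
open Pool.Agent.Lib.Pa76659H (High RHighSucc)

theorem Tal_congr {Y G G' : Lang} {x : Str} (h : ∀ v : Str, v.length = x.length → G' v = G v) :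
    Tal (join Y G') x = Tal (join Y G) x := by
  rw [Bool.eq_iff_iff, Tal_iff, Tal_iff]
  constructor
  · rintro ⟨z, h3, h4⟩
    exact ⟨z, h3, (h z h3).symm.trans h4⟩
  · rintro ⟨z, h3, h4⟩
    exact ⟨z, h3, (h z h3).trans h4⟩

theorem pow_room (p : Polynomial ℕ) : ∃ m0 : ℕ, ∀ m, m0 ≤ m →
    p.eval (2 * 2 ^ m + 1 + m ^ 2) < 2 ^ m ^ 2 := by
  obtain ⟨c, hc⟩ := poly_le p
  obtain ⟨n0, hn0⟩ := pow_le_two_pow 2
  refine ⟨max n0 (4 * c + 4), fun m hm => ?_⟩
  have h1 : n0 ≤ m := le_trans (le_max_left _ _) hm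
  have h2 : 4 * c + 4 ≤ m := le_trans (le_max_right _ _) hm
  have h3 : m ^ 2 ≤ 2 ^ m := (hn0 m h1)
  have h4 : 1 ≤ 2 ^ m := Nat.one_le_two_pow
  have h5 : 2 * 2 ^ m + 1 + m ^ 2 ≤ 2 ^ (m + 2) := by
    rw [pow_add]; omega
  calc p.eval (2 * 2 ^ m + 1 + m ^ 2) ≤ (2 * 2 ^ m + 1 + m ^ 2) ^ c := hc _ (by omega)
    _ ≤ (2 ^ (m + 2)) ^ c := Nat.pow_le_pow_left h5 c
    _ = 2 ^ ((m + 2) * c) := by rw [← pow_mul]
    _ < 2 ^ m ^ 2 := by
      apply Nat.pow_lt_pow_right (by omega)
      nlinarith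

/-- certificates for deterministic machines -/
theorem pEval_cert (p : PIx) (x : Str) (O : Lang) : ∃ Q : List Str,
    Q.length ≤ p.2.eval x.length ∧
      ∀ O' : Lang, (∀ v ∈ Q, O' v = O v) → pEval p O' x = pEval p O x := by
  refine ⟨queries O (accTree p.1 (inp x) (p.2.eval x.length)),
    (queries_length _ _).trans (accTree_depth _ _ _), fun O' h => ?_⟩
  have h1 := queries_eval O O' _ h
  rw [accTree_eval, accTree_eval] at h1
  exact h1

theorem Tal_fast (Y : Lang) (p : PIx) : ∀ᶠ G in residual Lang, ∃ n l : ℕ, l ≤ n ∧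
    l ≤ Nat.log 2 n ^ 2 ∧ pEval p (join Y G) (pr (on1 n) (on1 l)) ≠ Tal (join Y G) (on1 l) := by
  refine residual_of (fun G => ∃ n l : ℕ, l ≤ n ∧ l ≤ Nat.log 2 n ^ 2 ∧
    pEval p (join Y G) (pr (on1 n) (on1 l)) ≠ Tal (join Y G) (on1 l)) ?_ ?_
  · rintro G ⟨n, l, h1, h2, h3⟩
    obtain ⟨m, hm⟩ := loc_pEval p (pr (on1 n) (on1 l)).length
    refine ⟨max m (l + 1), fun G' hG' => ⟨n, l, h1, h2, ?_⟩⟩
    have e1 : pEval p (join Y G') (pr (on1 n) (on1 l)) = pEval p (join Y G) (pr (on1 n) (on1 l)) :=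
      hm (join Y G') (join Y G) (fun v hv => join_congr hG' (hv.trans (le_max_left _ _))) _ le_rfl
    have e2 : Tal (join Y G') (on1 l) = Tal (join Y G) (on1 l) := by
      apply Tal_congr
      intro v hv
      apply hG'
      rw [hv, on1_eq, PC.un_length]
      exact lt_of_lt_of_le (Nat.lt_succ_self l) (le_max_right _ _)
    rw [e1, e2]
    exact h3
  · intro G N
    obtain ⟨m0, hm0⟩ := pow_room p.2
    obtain ⟨n0, hn0⟩ := pow_le_two_pow 2
    set m := max m0 (max n0 (N + 1)) with hm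
    have e0 : m0 ≤ m := le_max_left _ _
    have e1 : n0 ≤ m := le_trans (le_max_left _ _) (le_max_right _ _)
    have e2 : N + 1 ≤ m := le_trans (le_max_right _ _) (le_max_right _ _)
    have hsq : m ^ 2 ≤ 2 ^ m := hn0 m e1
    have hN : N < m ^ 2 := by nlinarith
    set G1 : Lang := cut G N with hG1
    set x : Str := pr (on1 (2 ^ m)) (on1 (m ^ 2)) with hx
    have hxl : x.length = 2 * 2 ^ m + 1 + m ^ 2 := by
      rw [hx, pr_length, on1_eq, on1_eq, PC.un_length, PC.un_length]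
    have hlog : m ^ 2 ≤ Nat.log 2 (2 ^ m) ^ 2 := by
      rw [Nat.log_pow (by norm_num)]
    obtain ⟨Q, hQ1, hQ2⟩ := pEval_cert p x (join Y G1)
    by_cases h1 : pEval p (join Y G1) x = Tal (join Y G1) (on1 (m ^ 2))
    · have hT1 : Tal (join Y G1) (on1 (m ^ 2)) = false := by
        rw [← Bool.not_eq_true, Tal_iff]
        rintro ⟨z, h3, h4⟩
        have h5 : G1 z = true := h4
        rw [hG1, cut_zero G N z (by rw [h3, on1_eq, PC.un_length]; omega)] at h5
        exact absurd h5 (by simp)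
      obtain ⟨z, hz1, hz2⟩ := exists_str_not_mem (m ^ 2) (Q.map List.tail) (by
        rw [List.length_map]
        rw [hxl] at hQ1
        exact lt_of_le_of_lt hQ1 (hm0 m e0))
      classical
      refine ⟨Function.update G1 z true, ?_, 2 ^ m, m ^ 2, hsq, hlog, ?_⟩
      · intro v hv
        rw [Function.update_of_ne, hG1, cut_nb G N v hv]
        rintro rfl
        omega
      · have h5 : pEval p (join Y (Function.update G1 z true)) x = pEval p (join Y G1) x := by
          refine hQ2 _ (fun v hv => ?_)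
          rcases v with _ | ⟨c, v⟩
          · rfl
          · cases c
            · rfl
            · show Function.update G1 z true v = G1 v
              rw [Function.update_of_ne]
              rintro rfl
              exact hz2 (List.mem_map.2 ⟨_, hv, rfl⟩)
        have h7 : Tal (join Y (Function.update G1 z true)) (on1 (m ^ 2)) = true := by
          rw [Tal_iff]
          refine ⟨z, by rw [hz1, on1_eq, PC.un_length], ?_⟩
          show Function.update G1 z true z = true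
          simp
        rw [← hx, h5, h7, h1, hT1]
        simp
    · exact ⟨G1, cut_nb G N, 2 ^ m, m ^ 2, hsq, hlog, h1⟩

/-- `\hat H_1 ≠ H_1` relative to generic oracles above any base. -/
theorem high_one (Y : Lang) : ∀ᶠ G in residual Lang,
    ¬ High (join Y G) 1 ⊆ RHighSucc (join Y G) 0 := by
  have h : ∀ᶠ G in residual Lang, ∀ p : PIx, ∃ n l : ℕ, l ≤ n ∧
      l ≤ Nat.log 2 n ^ 2 ∧ pEval p (join Y G) (pr (on1 n) (on1 l)) ≠ Tal (join Y G) (on1 l) := by
    rw [eventually_countable_forall]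
    exact Tal_fast Y
  filter_upwards [h] with G hG hle
  have hT : Tal (join Y G) ∈ DelSucc (join Y G) 1 :=
    ⟨_, ⟨_, query_mem _, Tal_mem _⟩, query_mem _⟩
  obtain ⟨L, hL, h1⟩ := (cost_high hle).2 _ hT 2
  obtain ⟨p, rfl⟩ := exists_pEval hL
  obtain ⟨n, l, h2, h3, h4⟩ := hG p
  exact h4 (h1 n l h2 h3)

/-- a language outside `P^Y` stays outside `P^X` -/
theorem back_P (Y B : Lang) (hB : B ∉ PO Y) : ∀ᶠ G in residual Lang, B ∉ PO (join Y G) := by
  have h : ∀ᶠ G in residual Lang, ∀ p : PIx, pEval p (join Y G) = B →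
      ∃ N, ∀ G' ∈ nb G N, pEval p (join Y G') = B := by
    rw [eventually_countable_forall]
    intro p
    exact forced_eq ((loc_pEval p).comp (Loc_join (loc_const Y) loc_id)) _
  filter_upwards [h] with G hG hBG
  obtain ⟨p, hp⟩ := exists_pEval hBG
  obtain ⟨N, hN⟩ := hG p hp.symm
  apply hB
  rw [← hN (cut G N) (cut_nb G N)]
  exact PO_subset (join_finite_mem (cut_zero G N)) (pEval_mem p _)

end Pool.Agent.Lib.Pa76659G.Tr
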