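import Pool.Agent.Lib.Pa76659G.GhA
import Pool.Agent.Lib.Pa76659G.TrY

set_option autoImplicit false

/-!
The set `A1` is not in `H_1` relative to generic oracles.
-/

namespace Pool.Agent.Lib.Pa76659G.Gh

open Pool.Agent.Lib.Pa76659 Pool.Agent.Lib.Pa76659.Hier Pool.Agent.Lib.Pa76659G
open Pool.Agent.Lib.Pa76659G.PC Pool.Agent.Lib.Pa76659G.Unv
open Pool.Agent.Lib.Pa76659H (High RHighSucc)

/-! ### Estimates -/

/-- quasipolynomial bounds are below `2^(m-1)` -/
theorem room (c : ℕ) : ∃ m0 : ℕ, ∀ m, m0 ≤ m →
    (m + 2) ^ c * ((m + 2) ^ c) ^ Nat.log 2 ((m + 2) ^ c) < 2 ^ (m - 1) := by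
  obtain ⟨n0, hn0⟩ := pow_le_two_pow 3
  set l0 := max n0 (2 * (c + c ^ 2) + 7) with hl0
  refine ⟨2 ^ l0, fun m hm => ?_⟩
  set l := Nat.log 2 (m + 2) + 1 with hl
  have h1 : l0 ≤ l := by
    have : l0 ≤ Nat.log 2 (m + 2) := Nat.le_log_of_pow_le (by norm_num) (by omega)
    omega
  have h2 : m + 2 < 2 ^ l := Nat.lt_pow_succ_log_self (by norm_num) _
  have h3 : 2 ^ (l - 1) ≤ m + 2 := by
    rw [hl, Nat.add_sub_cancel]
    exact Nat.pow_log_le_self 2 (by omega)
  have h4 : l ^ 3 ≤ 2 ^ l := hn0 l (le_trans (le_max_left _ _) h1)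
  have h5 : 2 * (c + c ^ 2) + 7 ≤ l := le_trans (le_max_right _ _) h1
  have h6 : (m + 2) ^ c ≤ 2 ^ (l * c) := by
    rw [pow_mul]
    exact Nat.pow_le_pow_left h2.le c
  have h7 : Nat.log 2 ((m + 2) ^ c) ≤ l * c := by
    calc Nat.log 2 ((m + 2) ^ c) ≤ Nat.log 2 (2 ^ (l * c)) := Nat.log_mono_right h6
      _ = l * c := Nat.log_pow (by norm_num) _
  have h8 : ((m + 2) ^ c) ^ Nat.log 2 ((m + 2) ^ c) ≤ 2 ^ (l * c * (l * c)) := by
    rw [pow_mul 2 (l * c) (l * c)]
    calc ((m + 2) ^ c) ^ Nat.log 2 ((m + 2) ^ c) ≤ ((m + 2) ^ c) ^ (l * c) :=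
          Nat.pow_le_pow_right (by positivity) h7
      _ ≤ _ := Nat.pow_le_pow_left h6 _
  calc (m + 2) ^ c * ((m + 2) ^ c) ^ Nat.log 2 ((m + 2) ^ c)
      ≤ 2 ^ (l * c) * 2 ^ (l * c * (l * c)) := Nat.mul_le_mul h6 h8
    _ = 2 ^ (l * c + l * c * (l * c)) := (pow_add _ _ _).symm
    _ < 2 ^ (m - 1) := by
      apply Nat.pow_lt_pow_right (by norm_num)
      have h9 : 2 * 2 ^ (l - 1) = 2 ^ l := by
        rw [← pow_succ', Nat.sub_add_cancel (by omega)]
      have h10 : l ^ 2 * (2 * (c + c ^ 2) + 7) ≤ l ^ 2 * l := Nat.mul_le_mul_left _ h5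
      have h11 : l ^ 2 * l = l ^ 3 := by ring
      have h12 : l ≤ l ^ 2 := Nat.le_self_pow (by norm_num) l
      have h13 : 7 ≤ l := by omega
      have h14 : l * c ≤ l ^ 2 * c := Nat.mul_le_mul_right _ h12
      have h15 : l ^ 2 * (2 * (c + c ^ 2) + 7) = 2 * (l ^ 2 * c) + 2 * (l * c * (l * c)) + 7 * l ^ 2 := by
        ring
      omega

theorem queries_mem {V α : Type*} {S : Set V} (x : V → Bool) : ∀ T : DT V α, T.QIn S →
    ∀ v ∈ queries x T, v ∈ S
  | DT.leaf _, _ => by simp [queries]
  | DT.node v f t, ⟨h1, h2, h3⟩ => by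
    intro u hu
    rw [queries, List.mem_cons] at hu
    rcases hu with rfl | hu
    · exact h1
    · split_ifs at hu with h
      · exact queries_mem x t h3 u hu
      · exact queries_mem x f h2 u hu

/-- certificates for runs -/
theorem run_cert (O : Lang) (M : Prog) (x y : Str) (t : ℕ) : ∃ Q : List Str, Q.length ≤ t ∧
    (∀ q ∈ Q, q.length ≤ x.length + y.length + t) ∧
    ∀ O' : Lang, (∀ q ∈ Q, O' q = O q) → accepts O' M (inp2 x y) t = accepts O M (inp2 x y) t := by
  refine ⟨queries O (accTree M (inp2 x y) t),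
    (queries_length _ _).trans (accTree_depth _ _ _), ?_, fun O' h => ?_⟩
  · exact queries_mem O _ (accTree_qin M (inp2 x y) t (x.length + y.length) (inp2_bdd x y))
  · have h1 := queries_eval O O' _ h
    rw [accTree_eval, accTree_eval] at h1
    exact h1

theorem A1_true (X : Lang) (w : Str) : A1 X (true :: w) =
    (decide ((fst w).length ≤ (fst (snd w)).length) &&
      (KU X (fst w) || !(kb X (fst (snd w)) (snd (snd w))))) := rfl

theorem A1_false_iff (X : Lang) (z : Str) : A1 X (false :: z) = true ↔
    ∃ y : Str, VU X (z, y) = true ∧ kb X z y = false := by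
  classical
  show @decide _ (Classical.propDecidable _) = true ↔ _
  rw [decide_eq_true_eq]

theorem KU_iff (O : Lang) (z : Str) : KU O z = true ↔ ∃ y : Str, VU O (z, y) = true := by
  classical
  unfold KU
  rw [decide_eq_true_eq]

/-! ### Locality -/

theorem loc_A1 : Loc A1 := by
  intro n
  refine ⟨20 * n + 20, fun O O' h x hx => ?_⟩
  rcases x with _ | ⟨b, z⟩
  · rfl
  have hkb : ∀ z y : Str, z.length + y.length ≤ n + n → kb O z y = kb O' z y := by
    intro z y hz
    unfold kb mb
    refine h _ ?_
    unfold adr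
    rw [List.length_cons, List.length_cons, PC.pr_length, PC.pr_length, PC.pr_length, on1_eq,
      PC.un_length]
    simp only [List.length_nil]
    omega
  have hVU : ∀ z y : Str, z.length ≤ n → VU O (z, y) = VU O' (z, y) := by
    intro z y hz
    exact VU_loc (fun v hv => h v (by omega))
  rw [List.length_cons] at hx
  cases b
  · rw [Bool.eq_iff_iff, A1_false_iff, A1_false_iff]
    constructor
    · rintro ⟨y, hy1, hy2⟩
      have h1 := Tr.VU_length hy1
      refine ⟨y, ?_, ?_⟩
      · rw [← hVU z y (by omega)]; exact hy1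
      · rw [← hkb z y (by omega)]; exact hy2
    · rintro ⟨y, hy1, hy2⟩
      have h1 := Tr.VU_length hy1
      refine ⟨y, ?_, ?_⟩
      · rw [hVU z y (by omega)]; exact hy1
      · rw [hkb z y (by omega)]; exact hy2
  · have h1 : KU O (fst z) = KU O' (fst z) := by
      have := fst_length_le z
      unfold KU
      refine decide_eq_decide.2 ⟨?_, ?_⟩
      · rintro ⟨y, hy⟩
        exact ⟨y, by rw [← hVU _ y (by omega)]; exact hy⟩
      · rintro ⟨y, hy⟩
        exact ⟨y, by rw [hVU _ y (by omega)]; exact hy⟩
    have h2 : kb O (fst (snd z)) (snd (snd z)) = kb O' (fst (snd z)) (snd (snd z)) := by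
      refine hkb _ _ ?_
      have h3 := snd_length_le z
      have h4 := snd_length_le (snd z)
      have h5 := fst_length_le (snd z)
      omega
    rw [A1_true, A1_true, h1, h2]

/-! ### The lower bound for `A1` -/

/-- the verifier and the masks in the modified world, for a query `q` -/
theorem A1_pres (Y G1 : Lang) (N m : ℕ) (hNm : N < m) (hG1 : ∀ v : Str, N ≤ v.length → G1 v = false)
    (q : Str) : ∃ P : List Str, P.length ≤ q.length + 1 ∧ (∀ u ∈ P, u.length ≤ 12 * q.length + 9) ∧
      ∀ R G', Mod Y G1 (fun v => decide (v.length = m) && v.headD false) R (fun _ => true) G' →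
        (∀ u ∈ P, join Y G' u = join Y G1 u) →
          join (join Y G') (A1 (join Y G')) q = join (join Y G1) (A1 (join Y G1)) q := by
  have htst : ∀ v : Str, (decide (v.length = m) && v.headD false) = true → m ≤ v.length := by
    intro v hv
    rw [Bool.and_eq_true, decide_eq_true_eq] at hv
    exact hv.1.ge
  rcases q with _ | ⟨b, v⟩
  · exact ⟨[], by simp, by simp, fun _ _ _ _ => rfl⟩
  cases b
  · refine ⟨[v], by simp, ?_, fun R G' _ h => h v List.mem_cons_self⟩
    intro u hu
    rw [List.mem_singleton] at hu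
    subst hu
    rw [List.length_cons]
    omega
  rcases v with _ | ⟨b, z⟩
  · exact ⟨[], by simp, by simp, fun _ _ _ _ => rfl⟩
  cases b
  · -- mode 0
    by_cases h1 : A1 (join Y G1) (false :: z) = true
    · obtain ⟨y, hy1, hy2⟩ := (A1_false_iff _ _).1 h1
      have hyl := Tr.VU_length hy1
      obtain ⟨Q, hQ1, hQ2, hQ3⟩ := VU_cert (join Y G1) hyl
      refine ⟨Q, ?_, ?_, ?_⟩
      · simp only [List.length_cons]; omega
      · intro u hu
        have := hQ2 u hu
        simp only [List.length_cons]
        omega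
      · intro R G' hmod hag
        show A1 (join Y G') (false :: z) = A1 (join Y G1) (false :: z)
        rw [h1, A1_false_iff]
        refine ⟨y, by rw [hQ3 _ hag]; exact hy1, ?_⟩
        have h2 := hmod (false :: adr z y [] 0)
        rw [if_neg (by simp), mz_adr, my_adr, if_neg] at h2
        · show G' (false :: adr z y [] 0) = false
          rw [h2]
          exact hy2
        · rintro ⟨-, -, h3⟩
          rw [hy1] at h3
          exact absurd h3 (by simp)
    · refine ⟨[], by simp, by simp, ?_⟩
      intro R G' hmod _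
      show A1 (join Y G') (false :: z) = A1 (join Y G1) (false :: z)
      rw [Bool.not_eq_true] at h1
      rw [h1, ← Bool.not_eq_true, A1_false_iff]
      rintro ⟨y, hy1, hy2⟩
      have hyl := Tr.VU_length hy1
      have h2 := hmod (false :: adr z y [] 0)
      rw [if_neg (by simp), mz_adr, my_adr] at h2
      have h3 : G' (false :: adr z y [] 0) = false := hy2
      rw [h3] at h2
      by_cases h4 : VU (join Y G1) (z, y) = true
      · rw [if_neg (fun h5 => by rw [h4] at h5; exact absurd h5.2.2 (by simp))] at h2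
        have h5 : A1 (join Y G1) (false :: z) = true := (A1_false_iff _ _).2 ⟨y, h4, h2.symm⟩
        rw [h1] at h5
        exact absurd h5 (by simp)
      · rw [Bool.not_eq_true] at h4
        rw [if_pos ⟨ism_adr _ _ hyl, hy1, h4⟩] at h2
        exact absurd h2 (by simp)
  · -- mode 1
    by_cases h1 : kb (join Y G1) (fst (snd z)) (snd (snd z)) = true
    · refine ⟨[], by simp, by simp, ?_⟩
      intro R G' hmod _
      show A1 (join Y G') (true :: z) = A1 (join Y G1) (true :: z)
      rw [A1_true, A1_true]
      by_cases h2 : (fst z).length ≤ (fst (snd z)).length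
      · have h3 : (false :: adr (fst (snd z)) (snd (snd z)) [] 0).length < N := by
          by_contra h4
          push Not at h4
          have h5 : G1 (false :: adr (fst (snd z)) (snd (snd z)) [] 0) = true := h1
          rw [hG1 _ h4] at h5
          exact absurd h5 (by simp)
        have h4 : kb (join Y G') (fst (snd z)) (snd (snd z)) = true := by
          show G' (false :: adr (fst (snd z)) (snd (snd z)) [] 0) = true
          rw [hmod.low htst _ _ rfl (by omega)]
          exact h1
        have h5 := adr_length (fst (snd z)) (snd (snd z)) [] 0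
        rw [List.length_cons] at h3
        have h6 : KU (join Y G') (fst z) = KU (join Y G1) (fst z) := by
          have h7 : ∀ y, VU (join Y G') (fst z, y) = VU (join Y G1) (fst z, y) := fun y =>
            hmod.low_VU htst (by omega)
          rw [Bool.eq_iff_iff, KU_iff, KU_iff]
          simp only [h7]
        rw [h4, h1, h6]
      · rw [decide_eq_false h2]
        rfl
    · rw [Bool.not_eq_true] at h1
      refine ⟨[true :: false :: adr (fst (snd z)) (snd (snd z)) [] 0], by simp, ?_, ?_⟩
      · intro u hu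
        rw [List.mem_singleton] at hu
        subst hu
        unfold adr
        simp only [List.length_cons, PC.pr_length, on1_eq, PC.un_length, List.length_nil]
        have h3 := snd_length_le z
        have h4 := snd_length_le (snd z)
        have h5 := fst_length_le (snd z)
        omega
      · intro R G' hmod hag
        show A1 (join Y G') (true :: z) = A1 (join Y G1) (true :: z)
        have h2 : kb (join Y G') (fst (snd z)) (snd (snd z)) = false := by
          rw [← h1]
          exact hag _ List.mem_cons_self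
        rw [A1_true, A1_true, h1, h2]
        simp

theorem A1_pres_list (Y G1 : Lang) (N m : ℕ) (hNm : N < m)
    (hG1 : ∀ v : Str, N ≤ v.length → G1 v = false) (B : ℕ) : ∀ Q : List Str,
    (∀ q ∈ Q, q.length ≤ B) → ∃ P : List Str, P.length ≤ Q.length * (B + 1) ∧
      (∀ u ∈ P, u.length ≤ 12 * B + 9) ∧
      ∀ R G', Mod Y G1 (fun v => decide (v.length = m) && v.headD false) R (fun _ => true) G' →
        (∀ u ∈ P, join Y G' u = join Y G1 u) → ∀ q ∈ Q,
          join (join Y G') (A1 (join Y G')) q = join (join Y G1) (A1 (join Y G1)) q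
  | [], _ => ⟨[], by simp, by simp, by simp⟩
  | q :: Q, h => by
    obtain ⟨P1, h1, h2, h3⟩ := A1_pres_list Y G1 N m hNm hG1 B Q
      (fun q' hq' => h q' (List.mem_cons_of_mem _ hq'))
    obtain ⟨P2, h4, h5, h6⟩ := A1_pres Y G1 N m hNm hG1 q
    have hq := h q List.mem_cons_self
    refine ⟨P2 ++ P1, ?_, ?_, ?_⟩
    · rw [List.length_append, List.length_cons, Nat.succ_mul]
      omega
    · intro u hu
      rcases List.mem_append.1 hu with hu | hu
      · have := h5 u hu
        omega
      · exact h2 u hu
    · intro R G' hmod hag q' hq'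
      rcases List.mem_cons.1 hq' with rfl | hq'
      · exact h6 R G' hmod (fun u hu => hag u (List.mem_append_left _ hu))
      · exact h3 R G' hmod (fun u hu => hag u (List.mem_append_right _ hu)) q' hq'

/-- the oracle `X ⊕ A1(X)`, `X = Y ⊕ G`, depends locally on `G` -/
theorem loc_XA (Y : Lang) {A : Lang → Lang} (hA : Loc A) :
    Loc (fun G => join (join Y G) (A (join Y G))) :=
  Tr.Loc_join (Tr.Loc_join (Tr.loc_const Y) Tr.loc_id)
    (hA.comp (Tr.Loc_join (Tr.loc_const Y) Tr.loc_id))

theorem A1_diff (Y : Lang) (i : NIx) : ∀ᶠ G in residual Lang, ∃ x,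
    nEval i (join (join Y G) (A1 (join Y G))) x ≠ !(Tal (join Y G) x) := by
  refine residual_of (fun G => ∃ x,
    nEval i (join (join Y G) (A1 (join Y G))) x ≠ !(Tal (join Y G) x)) ?_ ?_
  · rintro G ⟨x, hx⟩
    obtain ⟨m, hm⟩ := ((loc_nEval i).comp (loc_XA Y loc_A1)) x.length
    refine ⟨max (m + 1) (x.length + 1), fun G' hG' => ⟨x, ?_⟩⟩
    have h1 := hm G' G (fun v hv => hG' v (by
      have := le_max_left (m + 1) (x.length + 1)
      omega)) x le_rfl
    have h2 : Tal (join Y G') x = Tal (join Y G) x := by
      apply Tr.Tal_congr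
      intro v hv
      exact hG' v (by
        have := le_max_right (m + 1) (x.length + 1)
        omega)
    beta_reduce at h1
    rw [h1, h2]
    exact hx
  · intro G N
    set G1 : Lang := Tr.cut G N with hG1def
    have hG1 : ∀ v : Str, N ≤ v.length → G1 v = false := Tr.cut_zero G N
    obtain ⟨c0, hc0⟩ := poly_le (i.2.1 * (Polynomial.X + i.2.2 + i.2.1 + 1) +
      12 * (Polynomial.X + i.2.2 + i.2.1) + 9)
    obtain ⟨m0, hm0⟩ := room c0
    set m := max m0 (N + 1) with hm
    have e0 : m0 ≤ m := le_max_left _ _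
    have e1 : N < m := by
      have := le_max_right m0 (N + 1)
      omega
    by_cases h0 : nEval i (join (join Y G1) (A1 (join Y G1))) (on1 m) = true
    · obtain ⟨y, hy1, hy2⟩ := nEval_true.1 h0
      have hxl : (on1 m).length = m := by rw [on1_eq, PC.un_length]
      rw [hxl] at hy1 hy2
      set t := i.2.1.eval m with ht
      set B := m + y.length + t with hB
      obtain ⟨Q, hQ1, hQ2, hQ3⟩ := run_cert (join (join Y G1) (A1 (join Y G1))) i.1 (on1 m) y t
      rw [hxl] at hQ2
      obtain ⟨P, hP1, hP2, hP3⟩ := A1_pres_list Y G1 N m e1 hG1 B Q hQ2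
      set L := (m + 2) ^ c0 with hL
      have hle : t * (B + 1) + 12 * B + 9 ≤ L := by
        have h1 := hc0 (m + 2) (by omega)
        refine le_trans ?_ h1
        simp only [Polynomial.eval_add, Polynomial.eval_mul, Polynomial.eval_ofNat,
          Polynomial.eval_X, Polynomial.eval_one]
        have h2 : t ≤ i.2.1.eval (m + 2) := poly_mono _ (by omega)
        have h3 : y.length ≤ i.2.2.eval (m + 2) := by rw [hy1]; exact poly_mono _ (by omega)
        have h4 : B ≤ m + 2 + i.2.2.eval (m + 2) + i.2.1.eval (m + 2) := by omega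
        have h5 : t * (B + 1) ≤ i.2.1.eval (m + 2) *
            (m + 2 + i.2.2.eval (m + 2) + i.2.1.eval (m + 2) + 1) :=
          Nat.mul_le_mul h2 (by omega)
        omega
      obtain ⟨T, hT1, hT2⟩ := infl_list Y G1 (fun v => decide (v.length = m) && v.headD false) L
        (by omega) P (fun u hu => by have := hP2 u hu; omega)
      have hPL : P.length ≤ L := by
        have : Q.length * (B + 1) ≤ t * (B + 1) := Nat.mul_le_mul_right _ hQ1
        omega
      obtain ⟨a, ha1, ha2⟩ := exists_str_not_mem (m - 1) (T.map List.tail) (by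
        rw [List.length_map]
        calc T.length ≤ P.length * L ^ Nat.log 2 L := hT1
          _ ≤ L * L ^ Nat.log 2 L := Nat.mul_le_mul_right _ hPL
          _ < 2 ^ (m - 1) := hm0 m e0)
      obtain ⟨G', hG'⟩ := exists_mod Y G1 (fun v => decide (v.length = m) && v.headD false)
        (fun v => decide (v = true :: a)) (fun _ => true)
      have htst : ∀ v : Str, (decide (v.length = m) && v.headD false) = true → m ≤ v.length := by
        intro v hv
        rw [Bool.and_eq_true, decide_eq_true_eq] at hv
        exact hv.1.ge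
      refine ⟨G', fun v hv => ?_, on1 m, ?_⟩
      · rw [hG'.low htst _ v rfl (by omega)]
        exact Tr.cut_nb G N v hv
      · have h1 : ∀ u ∈ P, join Y G' u = join Y G1 u := by
          refine hT2 _ _ G' hG' (fun t ht htt => ?_)
          rw [Bool.and_eq_true, decide_eq_true_eq] at htt
          rw [hG1 t (by omega)]
          beta_reduce
          rw [decide_eq_false_iff_not]
          rintro rfl
          exact ha2 (List.mem_map.2 ⟨_, ht, rfl⟩)
        have h2 := hP3 _ G' hG' h1
        have h3 : nEval i (join (join Y G') (A1 (join Y G'))) (on1 m) = true := by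
          rw [nEval_true, hxl]
          exact ⟨y, hy1, by rw [hQ3 _ h2]; exact hy2⟩
        have h4 : Tal (join Y G') (on1 m) = true := by
          rw [Tal_iff]
          refine ⟨true :: a, ?_, ?_⟩
          · rw [hxl, List.length_cons, ha1]
            omega
          · show G' (true :: a) = true
            rw [hG' (true :: a), if_pos]
            · simp
            · simp only [List.length_cons, ha1, List.headD_cons, Bool.and_true, decide_eq_true_eq]
              omega
        rw [h3, h4]
        simp
    · refine ⟨G1, Tr.cut_nb G N, on1 m, ?_⟩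
      have h1 : Tal (join Y G1) (on1 m) = false := by
        rw [← Bool.not_eq_true, Tal_iff]
        rintro ⟨z, h3, h4⟩
        have h5 : G1 z = true := h4
        rw [hG1 z (by rw [h3, on1_eq, PC.un_length]; omega)] at h5
        exact absurd h5 (by simp)
      rw [h1]
      simpa using h0

/-- `A1` is not in `H_1` relative to generic oracles above any base -/
theorem A1_not_high (Y : Lang) : ∀ᶠ G in residual Lang, A1 (join Y G) ∉ High (join Y G) 1 := by
  have h : ∀ᶠ G in residual Lang, ∀ i : NIx, ∃ x,
      nEval i (join (join Y G) (A1 (join Y G))) x ≠ !(Tal (join Y G) x) := by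
    rw [eventually_countable_forall]
    exact A1_diff Y
  filter_upwards [h] with G hG hA
  have h1 : (fun x => !(Tal (join Y G) x)) ∈ Sig (join Y G) 2 :=
    ⟨Tal (join Y G), ⟨join Y G, query_mem _, Tal_mem _⟩, PO_subset_NPO _ (mem_PO
      (PolyB.not (PolyC.query (PolyC.var (by simp)))))⟩
  obtain ⟨C, hC, h2⟩ := hA.2 h1
  obtain ⟨i, hi⟩ := exists_nEval (NPO_subset hC h2)
  obtain ⟨x, hx⟩ := hG i
  exact hx (congrFun hi x).symm

end Pool.Agent.Lib.Pa76659G.Gh
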