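import Pool.Agent.Lib.Pa76659G.GhB

set_option autoImplicit false

/-!
Two tools for the lower bound for `A2`: the world with the largest answers, and a choice of the
forbidden blocks which masks few given strings.
-/

namespace Pool.Agent.Lib.Pa76659G.Gh

open Pool.Agent.Lib.Pa76659 Pool.Agent.Lib.Pa76659.Hier Pool.Agent.Lib.Pa76659G
open Pool.Agent.Lib.Pa76659G.PC Pool.Agent.Lib.Pa76659G.Unv
open Pool.Agent.Lib.Pa76659H (High RHighSucc)

/-! ### The world with the largest answers -/

/-- Among the worlds there is one such that the run is the same in all the worlds where its positive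
answers remain positive. -/
theorem max_world {ι : Type*} (B : ι → Lang) : ∀ (t : ℕ) (W : Set ι) (_ : W.Nonempty) (c : Cfg),
    ∃ g1 ∈ W, ∀ g2 ∈ W, (∀ k < t, ∀ q, qry (runN (B g1) k c) = some q → B g1 q = true →
      B g2 q = true) → runN (B g2) t c = runN (B g1) t c
  | 0, W, hW, c => by
    obtain ⟨g, hg⟩ := hW
    exact ⟨g, hg, fun _ _ _ => rfl⟩
  | t + 1, W, hW, c => by
    have hs : ∀ (O : Lang) (k : ℕ), runN O (k + 1) c = runN O k (step O c) := fun O k => rfl
    rcases hq : qry c with _ | q
    · obtain ⟨g0, hg0⟩ := hW
      obtain ⟨g1, hg1, h1⟩ := max_world B t W ⟨g0, hg0⟩ (step (B g0) c)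
      refine ⟨g1, hg1, fun g2 hg2 h2 => ?_⟩
      rw [hs, hs, step_none hq (B g2) (B g0), step_none hq (B g1) (B g0)]
      refine h1 g2 hg2 (fun k hk q' hq' h3 => ?_)
      refine h2 (k + 1) (by omega) q' ?_ h3
      rw [hs, step_none hq (B g1) (B g0)]
      exact hq'
    · by_cases hex : ∃ g ∈ W, B g q = true
      · obtain ⟨g0, hg0, h0⟩ := hex
        obtain ⟨g1, hg1, h1⟩ := max_world B t {g | g ∈ W ∧ B g q = true} ⟨g0, hg0, h0⟩
          (step (B g0) c)
        refine ⟨g1, hg1.1, fun g2 hg2 h2 => ?_⟩
        have h3 : B g2 q = true := h2 0 (by omega) q hq hg1.2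
        rw [hs, hs, step_some hq (h3.trans h0.symm), step_some hq (hg1.2.trans h0.symm)]
        refine h1 g2 ⟨hg2, h3⟩ (fun k hk q' hq' h4 => ?_)
        refine h2 (k + 1) (by omega) q' ?_ h4
        rw [hs, step_some hq (hg1.2.trans h0.symm)]
        exact hq'
      · push Not at hex
        obtain ⟨g0, hg0⟩ := hW
        have hall : ∀ g ∈ W, B g q = B g0 q := by
          intro g hg
          have h1 := Bool.eq_false_iff.2 (hex g hg)
          have h2 := Bool.eq_false_iff.2 (hex g0 hg0)
          rw [h1, h2]
        obtain ⟨g1, hg1, h1⟩ := max_world B t W ⟨g0, hg0⟩ (step (B g0) c)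
        refine ⟨g1, hg1, fun g2 hg2 h2 => ?_⟩
        rw [hs, hs, step_some hq (hall g2 hg2), step_some hq (hall g1 hg1)]
        refine h1 g2 hg2 (fun k hk q' hq' h4 => ?_)
        refine h2 (k + 1) (by omega) q' ?_ h4
        rw [hs, step_some hq (hall g1 hg1)]
        exact hq'

/-! ### Masking few strings -/

/-- the number of strings of the list with the prefix `p` -/
def cnt (S : List Str) (p : Str) : ℕ := S.countP (fun s => s.take p.length == p)

open Classical in
/-- the block which continues more than half of the strings with the prefix `p` -/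
noncomputable def maj (S : List Str) (c : ℕ) (p : Str) : Str :=
  if h : ∃ β : Str, β.length = c ∧ cnt S p < 2 * cnt S (p ++ β) then h.choose else []

theorem cnt_add (S : List Str) {p β β' : Str} (h : β.length = β'.length) (hne : β ≠ β') :
    cnt S (p ++ β) + cnt S (p ++ β') ≤ cnt S p := by
  unfold cnt
  induction S with
  | nil => simp
  | cons s S ih =>
    rw [List.countP_cons, List.countP_cons, List.countP_cons]
    have h1 : (s.take (p ++ β).length == p ++ β) = true → (s.take p.length == p) = true := by
      rw [beq_iff_eq, beq_iff_eq]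
      intro h2
      have h3 := congrArg (fun l => List.take p.length l) h2
      simpa [List.take_take] using h3
    have h1' : (s.take (p ++ β').length == p ++ β') = true → (s.take p.length == p) = true := by
      rw [beq_iff_eq, beq_iff_eq]
      intro h2
      have h3 := congrArg (fun l => List.take p.length l) h2
      simpa [List.take_take] using h3
    have h4 : ¬ ((s.take (p ++ β).length == p ++ β) = true ∧
        (s.take (p ++ β').length == p ++ β') = true) := by
      rintro ⟨h5, h6⟩
      rw [beq_iff_eq] at h5 h6
      have h7 : (p ++ β).length = (p ++ β').length := by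
        rw [List.length_append, List.length_append, h]
      rw [h7, h6] at h5
      exact hne (List.append_cancel_left h5).symm
    by_cases h5 : (s.take (p ++ β).length == p ++ β) = true
    · have h6 : ¬ (s.take (p ++ β').length == p ++ β') = true := fun h6 => h4 ⟨h5, h6⟩
      rw [if_pos h5, if_neg h6, if_pos (h1 h5)]
      omega
    · rw [if_neg h5]
      by_cases h6 : (s.take (p ++ β').length == p ++ β') = true
      · rw [if_pos h6, if_pos (h1' h6)]
        omega
      · rw [if_neg h6]
        split_ifs <;> omega

theorem maj_kill {S : List Str} {c n : ℕ} {s : Str} (hs : s ∈ S) (hl : s.length = n * c)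
    (hS : S.length < 2 ^ n) : ∃ i < n, ∀ j < c,
      (maj S c (s.take (i * c))).getD j false = s.getD (i * c + j) false := by
  classical
  by_contra hcon
  push Not at hcon
  have key : ∀ i ≤ n, 2 ^ i * cnt S (s.take (i * c)) ≤ S.length := by
    intro i
    induction i with
    | zero =>
      intro _
      rw [pow_zero, one_mul]
      exact List.countP_le_length
    | succ i ih =>
      intro hi
      obtain ⟨j, hj, hne⟩ := hcon i (by omega)
      set p := s.take (i * c) with hp
      have hpl : p.length = i * c := by
        rw [hp, List.length_take, hl]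
        exact min_eq_left (Nat.mul_le_mul_right c (by omega))
      set β := (s.drop (i * c)).take c with hβ
      have hβl : β.length = c := by
        rw [hβ, List.length_take, List.length_drop, hl]
        apply min_eq_left
        have : (i + 1) * c ≤ n * c := Nat.mul_le_mul_right c (by omega)
        rw [Nat.succ_mul] at this
        omega
      have hnext : s.take ((i + 1) * c) = p ++ β := by
        rw [hp, hβ, Nat.succ_mul, List.take_add]
      have hhalf : 2 * cnt S (p ++ β) ≤ cnt S p := by
        by_contra h1
        push Not at h1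
        have hex : ∃ β : Str, β.length = c ∧ cnt S p < 2 * cnt S (p ++ β) := ⟨β, hβl, h1⟩
        have h2 : maj S c p = hex.choose := by
          unfold maj
          rw [dif_pos hex]
        obtain ⟨h3, h4⟩ := hex.choose_spec
        rw [← h2] at h3 h4
        by_cases h5 : maj S c p = β
        · apply hne
          rw [h5, hβ, List.getD_eq_getElem?_getD, List.getD_eq_getElem?_getD,
            List.getElem?_take_of_lt hj, List.getElem?_drop]
        · have h6 := cnt_add S (p := p) (h3.trans hβl.symm) h5
          omega
      rw [hnext, pow_succ]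
      have := ih (by omega)
      calc 2 ^ i * 2 * cnt S (p ++ β) = 2 ^ i * (2 * cnt S (p ++ β)) := by ring
        _ ≤ 2 ^ i * cnt S p := Nat.mul_le_mul_left _ hhalf
        _ ≤ _ := this
  have h1 := key n le_rfl
  have h2 : 1 ≤ cnt S (s.take (n * c)) := by
    rw [List.take_of_length_le hl.le]
    unfold cnt
    exact List.countP_pos_iff.2 ⟨s, hs, by rw [List.take_length]; exact beq_self_eq_true s⟩
  have h3 : 2 ^ n * 1 ≤ 2 ^ n * cnt S (s.take (n * c)) := Nat.mul_le_mul_left _ h2
  omega

end Pool.Agent.Lib.Pa76659G.Gh
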