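import Pool.Agent.Lib.Pa76659G.GhC

set_option autoImplicit false

/-!
The set `A2` is not in `\hat H_2` relative to generic oracles.
-/

namespace Pool.Agent.Lib.Pa76659G.Gh

open Pool.Agent.Lib.Pa76659 Pool.Agent.Lib.Pa76659.Hier Pool.Agent.Lib.Pa76659G
open Pool.Agent.Lib.Pa76659G.PC Pool.Agent.Lib.Pa76659G.Unv
open Pool.Agent.Lib.Pa76659H (High RHighSucc)

theorem A2_iff (X : Lang) (v : Str) : A2 X v = true ↔
    (snd v).length = (fst v).length * cc (fst v).length ∧
      ∃ y : Str, VU X (fst v, y) = true ∧ kill X (snd v) (fst v) y = false := by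
  classical
  unfold A2
  rw [Bool.and_eq_true, decide_eq_true_eq, decide_eq_true_eq]

theorem kill_congr {X X' : Lang} {s z y : Str} (h : ∀ (p : Str) (j : ℕ), p.length ≤ s.length →
    j < cc z.length → mb X z y p j = mb X' z y p j) : kill X s z y = kill X' s z y := by
  unfold kill
  refine decide_eq_decide.2 ⟨?_, ?_⟩
  · rintro ⟨i, hi, h1⟩
    refine ⟨i, hi, fun j hj => ?_⟩
    rw [← h _ j (by rw [List.length_take]; exact min_le_right _ _) hj]
    exact h1 j hj
  · rintro ⟨i, hi, h1⟩
    refine ⟨i, hi, fun j hj => ?_⟩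
    rw [h _ j (by rw [List.length_take]; exact min_le_right _ _) hj]
    exact h1 j hj

theorem adr_le (z y p : Str) (j : ℕ) :
    (adr z y p j).length ≤ 8 * z.length + 4 * y.length + 2 * p.length + j + 7 := by
  unfold adr
  simp only [PC.pr_length, on1_eq, PC.un_length]
  omega

theorem loc_A2 : Loc A2 := by
  intro n
  refine ⟨20 * n + 20, fun O O' h x hx => ?_⟩
  have hVU : ∀ z y : Str, z.length ≤ n → VU O (z, y) = VU O' (z, y) := by
    intro z y hz
    exact VU_loc (fun v hv => h v (by omega))
  have h1 := fst_length_le x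
  have h2 := snd_length_le x
  have hk : ∀ y : Str, y.length ≤ (fst x).length →
      kill O (snd x) (fst x) y = kill O' (snd x) (fst x) y := by
    intro y hy
    refine kill_congr (fun p j hp hj => h _ ?_)
    have h3 := adr_le (fst x) y p j
    unfold cc at hj
    rw [List.length_cons, List.length_cons]
    omega
  rw [Bool.eq_iff_iff, A2_iff, A2_iff]
  refine and_congr_right (fun _ => ?_)
  constructor
  · rintro ⟨y, hy1, hy2⟩
    have h3 := Tr.VU_length hy1
    refine ⟨y, ?_, ?_⟩
    · rw [← hVU _ y (by omega)]; exact hy1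
    · rw [← hk y h3]; exact hy2
  · rintro ⟨y, hy1, hy2⟩
    have h3 := Tr.VU_length hy1
    refine ⟨y, ?_, ?_⟩
    · rw [hVU _ y (by omega)]; exact hy1
    · rw [hk y h3]; exact hy2

/-! ### The test language -/

open Classical in
/-- some `a` of length `|x|` has all its pairs in the oracle -/
noncomputable def T2 (X : Lang) : Lang := fun x =>
  decide (∃ a : Str, a.length = x.length ∧ ∀ b : Str, b.length = x.length →
    X (true :: true :: (a ++ b)) = true)

theorem T2_iff (X : Lang) (x : Str) : T2 X x = true ↔ ∃ a : Str, a.length = x.length ∧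
    ∀ b : Str, b.length = x.length → X (true :: true :: (a ++ b)) = true := by
  classical
  unfold T2
  rw [decide_eq_true_eq]

theorem T2_mem (X : Lang) : T2 X ∈ Sig X 2 := by
  classical
  set B : Lang := fun v => decide (∃ b : Str, b.length ≤ v.length ∧ (b.length = (fst v).length ∧
    X (true :: true :: (snd v ++ b)) = false)) with hB
  have hBm : B ∈ NPO X := by
    have hv : PolyC (fun _ : Str × Str => X) (fun _ => True) [fun p => p.1, fun p => p.2]
      (fun p => p.1) := PolyC.var (by simp)
    have hy : PolyC (fun _ : Str × Str => X) (fun _ => True) [fun p => p.1, fun p => p.2]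
      (fun p => p.2) := PolyC.var (by simp)
    have e1 := PolyB.natEq (PolyN.length hy) (PolyN.length (PolyC.fst hv))
    have e2 : PolyB (fun _ : Str × Str => X) (fun _ => True) [fun p => p.1, fun p => p.2]
      (fun p => X (true :: true :: (snd p.1 ++ p.2))) :=
      PolyC.query (PolyC.cons true (PolyC.cons true ((PolyC.snd hv).append hy)))
    refine mem_NPO_le Polynomial.X (e1.and e2.not) (fun v => ?_)
    rw [hB, decide_eq_true_eq, Polynomial.eval_X]
    simp only [Bool.and_eq_true, decide_eq_true_eq, Bool.not_eq_true']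
  refine ⟨B, ⟨X, query_mem X, hBm⟩, ?_⟩
  have hx : PolyC (fun _ : Str × Str => B) (fun _ => True) [fun p => p.1, fun p => p.2]
    (fun p => p.1) := PolyC.var (by simp)
  have ha : PolyC (fun _ : Str × Str => B) (fun _ => True) [fun p => p.1, fun p => p.2]
    (fun p => p.2) := PolyC.var (by simp)
  have e2 : PolyB (fun _ : Str × Str => B) (fun _ => True) [fun p => p.1, fun p => p.2]
    (fun p => B (pr p.1 p.2)) := PolyC.query (PolyC.pr hx ha)
  refine mem_NPO Polynomial.X e2.not (fun x => ?_)
  rw [T2_iff, Polynomial.eval_X]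
  have key : ∀ a : Str, (!(B (pr x a))) = true ↔ ∀ b : Str, b.length = x.length →
      X (true :: true :: (a ++ b)) = true := by
    intro a
    rw [Bool.not_eq_true', hB, decide_eq_false_iff_not, fst_pr, snd_pr]
    constructor
    · intro h b hb
      by_contra h1
      refine h ⟨b, ?_, hb, by simpa using h1⟩
      rw [PC.pr_length]
      omega
    · rintro h ⟨b, -, hb, h1⟩
      rw [h b hb] at h1
      exact absurd h1 (by simp)
  constructor
  · rintro ⟨a, ha, h⟩
    exact ⟨a, ha, (key a).2 h⟩
  · rintro ⟨a, ha, h⟩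
    exact ⟨a, ha, (key a).1 h⟩

theorem loc_T2 : Loc T2 := by
  intro n
  refine ⟨2 * n + 2, fun O O' h x hx => ?_⟩
  have key : ∀ a b : Str, a.length = x.length → b.length = x.length →
      O (true :: true :: (a ++ b)) = O' (true :: true :: (a ++ b)) := by
    intro a b ha hb
    refine h _ ?_
    simp only [List.length_cons, List.length_append]
    omega
  rw [Bool.eq_iff_iff, T2_iff, T2_iff]
  constructor
  · rintro ⟨a, ha, h1⟩
    exact ⟨a, ha, fun b hb => by rw [← key a b ha hb]; exact h1 b hb⟩
  · rintro ⟨a, ha, h1⟩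
    exact ⟨a, ha, fun b hb => by rw [key a b ha hb]; exact h1 b hb⟩

/-! ### Preservation -/

/-- the new masks -/
noncomputable def nw2 (S : ℕ → List Str) : Lang := fun v =>
  (maj (S (mz v).length) (cc (mz v).length) (snd (fst v.tail))).getD (snd v.tail).length false

theorem nw2_adr (S : ℕ → List Str) (z y p : Str) (j : ℕ) :
    nw2 S (false :: adr z y p j) = (maj (S z.length) (cc z.length) p).getD j false := by
  unfold nw2
  rw [mz_adr, List.tail_cons]
  unfold adr
  rw [fst_pr, snd_pr, snd_pr, on1_eq, PC.un_length]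

/-- the test part -/
def ts2 (m : ℕ) : Str → Bool := fun v => decide (v.length = 2 * m + 1) && v.headD false

theorem ts2_low (m : ℕ) (v : Str) (hv : ts2 m v = true) : 2 * m + 1 ≤ v.length := by
  unfold ts2 at hv
  rw [Bool.and_eq_true, decide_eq_true_eq] at hv
  exact hv.1.ge

/-- the masks in the modified world -/
theorem mb_mod {Y G1 R nw G' : Lang} {m : ℕ} (hmod : Mod Y G1 (ts2 m) R nw G') {z y : Str}
    (hy : y.length ≤ z.length) (p : Str) (j : ℕ) : mb (join Y G') z y p j =
      if VU (join Y G') (z, y) = true ∧ VU (join Y G1) (z, y) = false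
        then nw (false :: adr z y p j) else mb (join Y G1) z y p j := by
  have h := hmod (false :: adr z y p j)
  rw [if_neg (by simp [ts2]), mz_adr, my_adr] at h
  show G' (false :: adr z y p j) = _
  rw [h]
  by_cases h1 : VU (join Y G') (z, y) = true ∧ VU (join Y G1) (z, y) = false
  · rw [if_pos ⟨ism_adr p j hy, h1⟩, if_pos h1]
  · rw [if_neg (fun h2 => h1 h2.2), if_neg h1]
    rfl

theorem A2_pres (Y G1 : Lang) (m : ℕ) (S : ℕ → List Str) (q : Str)
    (hS : ∀ v : Str, q = true :: v → A2 (join Y G1) v = false →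
      (snd v).length = (fst v).length * cc (fst v).length → 2 * m + 1 < 3 * (fst v).length →
        snd v ∈ S (fst v).length ∧ (S (fst v).length).length < 2 ^ (fst v).length) :
    ∃ P : List Str, P.length ≤ q.length + 1 ∧ (∀ u ∈ P, u.length ≤ 12 * q.length + 9) ∧
      ∀ R G', Mod Y G1 (ts2 m) R (nw2 S) G' →
        (∀ u ∈ P, join Y G' u = join Y G1 u) →
          join (join Y G') (A2 (join Y G')) q = join (join Y G1) (A2 (join Y G1)) q := by
  rcases q with _ | ⟨b, v⟩
  · exact ⟨[], by simp, by simp, fun _ _ _ _ => rfl⟩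
  cases b
  · refine ⟨[v], by simp, ?_, fun R G' _ h => h v List.mem_cons_self⟩
    intro u hu
    rw [List.mem_singleton] at hu
    subst hu
    rw [List.length_cons]
    omega
  by_cases h1 : A2 (join Y G1) v = true
  · obtain ⟨hl, y, hy1, hy2⟩ := (A2_iff _ _).1 h1
    have hyl := Tr.VU_length hy1
    obtain ⟨Q, hQ1, hQ2, hQ3⟩ := VU_cert (join Y G1) hyl
    have h3 := fst_length_le v
    refine ⟨Q, ?_, ?_, ?_⟩
    · simp only [List.length_cons]; omega
    · intro u hu
      have := hQ2 u hu
      simp only [List.length_cons]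
      omega
    · intro R G' hmod hag
      show A2 (join Y G') v = A2 (join Y G1) v
      rw [h1, A2_iff]
      refine ⟨hl, y, by rw [hQ3 _ hag]; exact hy1, ?_⟩
      rw [← hy2]
      refine kill_congr (fun p j _ _ => ?_)
      rw [mb_mod hmod hyl p j, if_neg]
      rintro ⟨-, h4⟩
      rw [hy1] at h4
      exact absurd h4 (by simp)
  · refine ⟨[], by simp, by simp, ?_⟩
    intro R G' hmod _
    show A2 (join Y G') v = A2 (join Y G1) v
    rw [Bool.not_eq_true] at h1
    rw [h1, ← Bool.not_eq_true, A2_iff]
    rintro ⟨hl, y, hy1, hy2⟩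
    have hyl := Tr.VU_length hy1
    by_cases h4 : VU (join Y G1) (fst v, y) = true
    · have h5 : A2 (join Y G1) v = true := by
        rw [A2_iff]
        refine ⟨hl, y, h4, ?_⟩
        rw [← hy2]
        refine kill_congr (fun p j _ _ => ?_)
        rw [mb_mod hmod hyl p j, if_neg]
        rintro ⟨-, h6⟩
        rw [h4] at h6
        exact absurd h6 (by simp)
      rw [h1] at h5
      exact absurd h5 (by simp)
    · rw [Bool.not_eq_true] at h4
      have h5 : 2 * m + 1 < 3 * (fst v).length := by
        by_contra h6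
        push Not at h6
        have h7 := hmod.low_VU (fun u hu => ts2_low m u hu) (z := fst v) (y := y) h6
        rw [hy1, h4] at h7
        exact absurd h7 (by simp)
      obtain ⟨h6, h7⟩ := hS v rfl h1 hl h5
      obtain ⟨i, hi, h8⟩ := maj_kill h6 hl h7
      have h9 : kill (join Y G') (snd v) (fst v) y = true := by
        unfold kill
        rw [decide_eq_true_eq]
        refine ⟨i, hi, fun j hj => ?_⟩
        rw [mb_mod hmod hyl, if_pos ⟨hy1, h4⟩, nw2_adr]
        exact h8 j hj
      rw [h9] at hy2
      exact absurd hy2 (by simp)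

theorem A2_pres_list (Y G1 : Lang) (m : ℕ) (S : ℕ → List Str) (B : ℕ) : ∀ Q : List Str,
    (∀ q ∈ Q, q.length ≤ B) →
    (∀ q ∈ Q, ∀ v : Str, q = true :: v → A2 (join Y G1) v = false →
      (snd v).length = (fst v).length * cc (fst v).length → 2 * m + 1 < 3 * (fst v).length →
        snd v ∈ S (fst v).length ∧ (S (fst v).length).length < 2 ^ (fst v).length) →
    ∃ P : List Str, P.length ≤ Q.length * (B + 1) ∧ (∀ u ∈ P, u.length ≤ 12 * B + 9) ∧
      ∀ R G', Mod Y G1 (ts2 m) R (nw2 S) G' →
        (∀ u ∈ P, join Y G' u = join Y G1 u) → ∀ q ∈ Q,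
          join (join Y G') (A2 (join Y G')) q = join (join Y G1) (A2 (join Y G1)) q
  | [], _, _ => ⟨[], by simp, by simp, by simp⟩
  | q :: Q, h, hS => by
    obtain ⟨P1, h1, h2, h3⟩ := A2_pres_list Y G1 m S B Q
      (fun q' hq' => h q' (List.mem_cons_of_mem _ hq'))
      (fun q' hq' => hS q' (List.mem_cons_of_mem _ hq'))
    obtain ⟨P2, h4, h5, h6⟩ := A2_pres Y G1 m S q (hS q List.mem_cons_self)
    have hq := h q List.mem_cons_self
    refine ⟨P2 ++ P1, ?_, ?_, ?_⟩
    · rw [List.length_append, List.length_cons, Nat.succ_mul]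
      omega
    · intro u hu
      rcases List.mem_append.1 hu with hu | hu
      · have := h5 u hu
        omega
      · exact h2 u hu
    · intro R G' hmod hag q' hq'
      rcases List.mem_cons.1 hq' with rfl | hq'
      · exact h6 R G' hmod (fun u hu => hag u (List.mem_append_left _ hu))
      · exact h3 R G' hmod (fun u hu => hag u (List.mem_append_right _ hu)) q' hq'

end Pool.Agent.Lib.Pa76659G.Gh
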