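import Pool.Agent.Lib.Pa76659G.GhD

set_option autoImplicit false

/-!
The set `A2` is not in `\hat H_2` relative to generic oracles: the lower bound.
-/

namespace Pool.Agent.Lib.Pa76659G.Gh

open Pool.Agent.Lib.Pa76659 Pool.Agent.Lib.Pa76659.Hier Pool.Agent.Lib.Pa76659G
open Pool.Agent.Lib.Pa76659G.PC Pool.Agent.Lib.Pa76659G.Unv
open Pool.Agent.Lib.Pa76659H (High RHighSucc)

/-- the queries of the certificates of several positive answers -/
theorem cert_list (O : Lang) (i : NIx) (b : ℕ) : ∀ l : List Str,
    (∀ q ∈ l, q.length ≤ b) → (∀ q ∈ l, nEval i O q = true) →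
    ∃ Q : List Str, Q.length ≤ l.length * i.2.1.eval b ∧
      (∀ q ∈ Q, q.length ≤ b + i.2.2.eval b + i.2.1.eval b) ∧
      ∀ O' : Lang, (∀ q ∈ Q, O' q = O q) → ∀ q ∈ l, nEval i O' q = true
  | [], _, _ => ⟨[], by simp, by simp, by simp⟩
  | q :: l, h1, h2 => by
    obtain ⟨Q1, h3, h4, h5⟩ := cert_list O i b l (fun q' hq' => h1 q' (List.mem_cons_of_mem _ hq'))
      (fun q' hq' => h2 q' (List.mem_cons_of_mem _ hq'))
    have hq1 := h1 q List.mem_cons_self
    obtain ⟨y, hy1, hy2⟩ := nEval_true.1 (h2 q List.mem_cons_self)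
    obtain ⟨Q2, h6, h7, h8⟩ := run_cert O i.1 q y (i.2.1.eval q.length)
    have e1 : i.2.1.eval q.length ≤ i.2.1.eval b := poly_mono _ hq1
    have e2 : i.2.2.eval q.length ≤ i.2.2.eval b := poly_mono _ hq1
    refine ⟨Q2 ++ Q1, ?_, ?_, ?_⟩
    · rw [List.length_append, List.length_cons, Nat.succ_mul]
      omega
    · intro u hu
      rcases List.mem_append.1 hu with hu | hu
      · have := h7 u hu
        omega
      · exact h4 u hu
    · intro O' hag q' hq'
      rcases List.mem_cons.1 hq' with rfl | hq'
      · rw [nEval_true]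
        exact ⟨y, hy1, by rw [h8 O' (fun u hu => hag u (List.mem_append_left _ hu))]; exact hy2⟩
      · exact h5 O' (fun u hu => hag u (List.mem_append_right _ hu)) q' hq'

theorem A2_diff (Y : Lang) (p : PIx) (i : NIx) : ∀ᶠ G in residual Lang, ∃ x,
    pEval p (nEval i (join (join Y G) (A2 (join Y G)))) x ≠ T2 (join Y G) x := by
  classical
  refine residual_of (fun G => ∃ x,
    pEval p (nEval i (join (join Y G) (A2 (join Y G)))) x ≠ T2 (join Y G) x) ?_ ?_
  · rintro G ⟨x, hx⟩
    obtain ⟨m, hm⟩ := ((Tr.loc_pEval p).comp ((loc_nEval i).comp (loc_XA Y loc_A2))) x.length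
    obtain ⟨m', hm'⟩ := (loc_T2.comp (Tr.Loc_join (Tr.loc_const Y) Tr.loc_id)) x.length
    refine ⟨max (m + 1) (m' + 1), fun G' hG' => ⟨x, ?_⟩⟩
    have h1 := hm G' G (fun v hv => hG' v (by
      have := le_max_left (m + 1) (m' + 1)
      omega)) x le_rfl
    have h2 := hm' G' G (fun v hv => hG' v (by
      have := le_max_right (m + 1) (m' + 1)
      omega)) x le_rfl
    beta_reduce at h1 h2
    rw [h1, h2]
    exact hx
  · intro G N
    -- the numbers
    set b : Polynomial ℕ := Polynomial.X + p.2 with hb
    set t2 : Polynomial ℕ := i.2.1.comp b with ht2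
    set BB : Polynomial ℕ := b + i.2.2.comp b + t2 with hBB
    obtain ⟨c0, hc0⟩ := poly_le (p.2 * t2 * (BB + 1) + 12 * BB + 9 + p.2 * t2 + 2)
    obtain ⟨m0, hm0⟩ := room c0
    set m := max m0 (N + 2) with hm
    have e0 : m0 ≤ m := le_max_left _ _
    have e1 : N + 2 ≤ m := le_max_right _ _
    have hxl : (on1 m).length = m := by rw [on1_eq, PC.un_length]
    -- the world with the largest answers
    obtain ⟨G1, hG1, hmax⟩ := max_world
      (fun G' => nEval i (join (join Y G') (A2 (join Y G')))) (p.2.eval m) (nb G N)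
      ⟨G, nb_self G N⟩ ([p.1], inp (on1 m))
    set O1 := join (join Y G1) (A2 (join Y G1)) with hO1
    set β := pEval p (nEval i O1) (on1 m) with hβ
    -- its positive answers
    set l : List Str := ((List.range (p.2.eval m)).filterMap (fun k =>
      qry (runN (nEval i O1) k ([p.1], inp (on1 m))))).filter (fun q => nEval i O1 q) with hl
    have hbm : b.eval m = m + p.2.eval m := by simp [hb]
    have hl1 : ∀ q ∈ l, q.length ≤ b.eval m := by
      intro q hq
      rw [hl, List.mem_filter, List.mem_filterMap] at hq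
      obtain ⟨⟨k, hk, hq⟩, -⟩ := hq
      rw [List.mem_range] at hk
      have h1 := qry_bdd (runN_bdd (nEval i O1) k m ([p.1], inp (on1 m)) (by
        rw [inp_eq]
        have := inp2_bdd (on1 m) []
        rw [hxl] at this
        simpa using this)) hq
      omega
    have hl2 : ∀ q ∈ l, nEval i O1 q = true := by
      intro q hq
      rw [hl, List.mem_filter] at hq
      exact hq.2
    have hl3 : l.length ≤ p.2.eval m := by
      calc l.length ≤ _ := List.length_filter_le _ _
        _ ≤ (List.range (p.2.eval m)).length := List.length_filterMap_le _ _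
        _ = _ := List.length_range
    obtain ⟨Q, hQ1, hQ2, hQ3⟩ := cert_list O1 i (b.eval m) l hl1 hl2
    set B := b.eval m + i.2.2.eval (b.eval m) + i.2.1.eval (b.eval m) with hB
    -- the negative queries
    set S : ℕ → List Str := fun n => (Q.filter (fun q => decide (∃ v : Str, q = true :: v ∧
      (fst v).length = n))).map (fun q => snd q.tail) with hS
    set L := (m + 2) ^ c0 with hL
    have hle : p.2.eval m * i.2.1.eval (b.eval m) * (B + 1) + 12 * B + 9 +
        p.2.eval m * i.2.1.eval (b.eval m) + 2 ≤ L := by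
      refine le_trans ?_ (hc0 (m + 2) (by omega))
      refine le_trans ?_ (poly_mono _ (show m ≤ m + 2 by omega))
      apply le_of_eq
      simp [hBB, ht2, Polynomial.eval_comp, hB]
    have hQL : Q.length ≤ p.2.eval m * i.2.1.eval (b.eval m) :=
      hQ1.trans (Nat.mul_le_mul_right _ hl3)
    have hroom := hm0 m e0
    rw [← hL] at hroom
    have hS1 : ∀ q ∈ Q, ∀ v : Str, q = true :: v → A2 (join Y G1) v = false →
      (snd v).length = (fst v).length * cc (fst v).length → 2 * m + 1 < 3 * (fst v).length →
        snd v ∈ S (fst v).length ∧ (S (fst v).length).length < 2 ^ (fst v).length := by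
      intro q hq v hv _ _ h3
      refine ⟨?_, ?_⟩
      · rw [hS, List.mem_map]
        refine ⟨q, List.mem_filter.2 ⟨hq, ?_⟩, by rw [hv, List.tail_cons]⟩
        rw [decide_eq_true_eq]
        exact ⟨v, hv, rfl⟩
      · have h4 : (S (fst v).length).length ≤ L := by
          rw [hS]
          beta_reduce
          rw [List.length_map]
          exact (List.length_filter_le _ _).trans (by omega)
        refine lt_of_le_of_lt h4 ?_
        by_contra h5
        push Not at h5
        have h6 : 1 ≤ Nat.log 2 L := Nat.log_pos (by norm_num) (by omega)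
        have h7 : L * L ≤ L * L ^ Nat.log 2 L :=
          Nat.mul_le_mul_left _ (Nat.le_self_pow (by omega) L)
        have h8 : 2 ^ (fst v).length * 2 ^ (fst v).length ≤ L * L := Nat.mul_le_mul h5 h5
        have h9 : 2 ^ (m - 1) ≤ 2 ^ (fst v).length * 2 ^ (fst v).length := by
          rw [← pow_add]
          exact Nat.pow_le_pow_right (by norm_num) (by omega)
        omega
    obtain ⟨P, hP1, hP2, hP3⟩ := A2_pres_list Y G1 m S B Q hQ2 hS1
    obtain ⟨T, hT1, hT2⟩ := infl_list Y G1 (ts2 m) L (by omega) P
      (fun u hu => by have := hP2 u hu; omega)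
    have hTm : T.length < 2 ^ m := by
      have hPL : P.length ≤ L := by
        have : Q.length * (B + 1) ≤ p.2.eval m * i.2.1.eval (b.eval m) * (B + 1) :=
          Nat.mul_le_mul_right _ hQL
        omega
      calc T.length ≤ P.length * L ^ Nat.log 2 L := hT1
        _ ≤ L * L ^ Nat.log 2 L := Nat.mul_le_mul_right _ hPL
        _ < 2 ^ (m - 1) := hroom
        _ ≤ 2 ^ m := Nat.pow_le_pow_right (by norm_num) (by omega)
    obtain ⟨G', hG'⟩ := exists_mod Y G1 (ts2 m) (fun v => if v ∈ T then G1 v else !β) (nw2 S)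
    have hnb : G' ∈ nb G N := by
      intro v hv
      rw [hG'.low (ts2_low m) _ v rfl (by omega)]
      exact hG1 v hv
    have h1 : ∀ u ∈ P, join Y G' u = join Y G1 u := by
      refine hT2 _ _ G' hG' (fun t ht _ => ?_)
      beta_reduce
      rw [if_pos ht]
    have h2 := hP3 _ G' hG' h1
    have h3 := hQ3 _ h2
    have h4 := hmax G' hnb (fun k hk q hq hq2 => by
      refine h3 q ?_
      rw [hl, List.mem_filter, List.mem_filterMap]
      exact ⟨⟨k, List.mem_range.2 hk, hq⟩, hq2⟩)
    have h5 : pEval p (nEval i (join (join Y G') (A2 (join Y G')))) (on1 m) = β := by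
      rw [hβ]
      unfold pEval accepts
      rw [hxl, h4]
    have hval : ∀ a b' : Str, a.length = m → b'.length = m → true :: (a ++ b') ∉ T →
        (join Y G') (true :: true :: (a ++ b')) = !β := by
      intro a b' ha hb' hnot
      show G' (true :: (a ++ b')) = !β
      rw [hG' (true :: (a ++ b')), if_pos]
      · beta_reduce
        rw [if_neg hnot]
      · unfold ts2
        simp only [List.length_cons, List.length_append, ha, hb', List.headD_cons, Bool.and_true,
          decide_eq_true_eq]
        omega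
    refine ⟨G', hnb, on1 m, ?_⟩
    rw [h5]
    cases hβ2 : β
    · -- make the test language true
      obtain ⟨a, ha1, ha2⟩ := exists_str_not_mem m (T.map (fun t => t.tail.take m)) (by
        rw [List.length_map]; exact hTm)
      have h6 : T2 (join Y G') (on1 m) = true := by
        rw [T2_iff, hxl]
        refine ⟨a, ha1, fun b' hb' => ?_⟩
        rw [hval a b' ha1 hb' (fun h7 => ha2 (List.mem_map.2 ⟨_, h7, ?_⟩)), hβ2]
        · rfl
        · rw [List.tail_cons, List.take_append_of_le_length ha1.ge, List.take_of_length_le ha1.le]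
      rw [h6]
      simp
    · obtain ⟨b', hb1, hb2⟩ := exists_str_not_mem m (T.map (fun t => t.tail.drop m)) (by
        rw [List.length_map]; exact hTm)
      have h6 : T2 (join Y G') (on1 m) = false := by
        rw [← Bool.not_eq_true, T2_iff, hxl]
        rintro ⟨a, ha1, h7⟩
        have h8 := h7 b' hb1
        rw [hval a b' ha1 hb1 (fun h9 => hb2 (List.mem_map.2 ⟨_, h9, ?_⟩)), hβ2] at h8
        · exact absurd h8 (by simp)
        · rw [List.tail_cons, ← ha1, List.drop_left]
      rw [h6]
      simp

/-- `A2` is not in `\hat H_2` relative to generic oracles above any base -/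
theorem A2_not_rhigh (Y : Lang) : ∀ᶠ G in residual Lang,
    A2 (join Y G) ∉ RHighSucc (join Y G) 1 := by
  have h : ∀ᶠ G in residual Lang, ∀ (p : PIx) (i : NIx), ∃ x,
      pEval p (nEval i (join (join Y G) (A2 (join Y G)))) x ≠ T2 (join Y G) x := by
    rw [eventually_countable_forall]
    intro p
    rw [eventually_countable_forall]
    exact A2_diff Y p
  filter_upwards [h] with G hG hA
  obtain ⟨B, ⟨C, hC, hB⟩, h2⟩ := hA.2 ⟨_, T2_mem (join Y G), query_mem _⟩
  obtain ⟨i, hi⟩ := exists_nEval (NPO_subset hC hB)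
  obtain ⟨p, hp⟩ := exists_pEval h2
  obtain ⟨x, hx⟩ := hG p i
  rw [← hi, ← hp] at hx
  exact hx rfl

end Pool.Agent.Lib.Pa76659G.Gh
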