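import Pool.Agent.Lib.Pa76659G.Adv

set_option autoImplicit false

/-!
Search for the lexicographically largest solution by prefixes.
-/

namespace Pool.Agent.Lib.Pa76659G

open Pool.Agent.Lib.Pa76659 PC

/-- At the first difference `a` has `false` and `b` has `true`. -/
def lexLt (a b : Str) : Prop :=
  ∃ k, (∀ j < k, a.getD j false = b.getD j false) ∧ a.getD k false = false ∧ b.getD k false = true

open Classical in
/-- `p` is a prefix of a solution. -/
noncomputable def PS (V : Str × Str → Bool) (l : Polynomial ℕ) (x p : Str) : Bool :=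
  decide (∃ c : Str, c.length = l.eval x.length ∧ c.take p.length = p ∧ V (x, c) = true)

theorem PS_iff {V : Str × Str → Bool} {l : Polynomial ℕ} {x p : Str} : PS V l x p = true ↔
    ∃ c : Str, c.length = l.eval x.length ∧ c.take p.length = p ∧ V (x, c) = true := by
  simp only [PS, decide_eq_true_eq]

/-- The greedy search. -/
noncomputable def gr (V : Str × Str → Bool) (l : Polynomial ℕ) (x : Str) : ℕ → Str
  | 0 => []
  | j + 1 => gr V l x j ++ [PS V l x (gr V l x j ++ [true])]

theorem gr_length (V : Str × Str → Bool) (l : Polynomial ℕ) (x : Str) (j : ℕ) :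
    (gr V l x j).length = j := by
  induction j with
  | zero => rfl
  | succ j ih => simp [gr, ih]

theorem gr_prefix (V : Str × Str → Bool) (l : Polynomial ℕ) (x : Str) {j k : ℕ} (h : j ≤ k) :
    (gr V l x k).take j = gr V l x j := by
  induction k, h using Nat.le_induction with
  | base => exact List.take_of_length_le (gr_length V l x j).le
  | succ k hk ih =>
    rw [gr, List.take_append_of_le_length (by rw [gr_length]; exact hk), ih]

theorem gr_getD (V : Str × Str → Bool) (l : Polynomial ℕ) (x : Str) {j k : ℕ} (h : j < k) :
    (gr V l x k).getD j false = PS V l x (gr V l x j ++ [true]) := by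
  have h1 : (gr V l x (j + 1)).getD j false = PS V l x (gr V l x j ++ [true]) := by
    rw [gr, List.getD_append_right _ _ _ _ (by rw [gr_length]), gr_length, Nat.sub_self]
    rfl
  rw [← h1, ← gr_prefix V l x (show j + 1 ≤ k from h), List.getD_eq_getElem?_getD,
    List.getD_eq_getElem?_getD, List.getElem?_take_of_lt (by omega)]

theorem take_succ_eq {c : Str} {j : ℕ} (h : j < c.length) :
    c.take (j + 1) = c.take j ++ [c.getD j false] := by
  rw [List.take_add_one, List.getElem?_eq_getElem h, List.getD_eq_getElem _ _ h]
  rfl

theorem gr_inv {V : Str × Str → Bool} {l : Polynomial ℕ} {x : Str}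
    (h : ∃ c : Str, c.length = l.eval x.length ∧ V (x, c) = true) :
    ∀ j ≤ l.eval x.length, PS V l x (gr V l x j) = true
  | 0, _ => by
      obtain ⟨c, h1, h2⟩ := h
      exact PS_iff.2 ⟨c, h1, rfl, h2⟩
  | j + 1, hj => by
      have ih := gr_inv h j (by omega)
      rw [gr]
      by_cases h3 : PS V l x (gr V l x j ++ [true]) = true
      · rw [h3]; exact h3
      · rw [Bool.not_eq_true] at h3
        rw [h3]
        obtain ⟨c, h4, h5, h6⟩ := PS_iff.1 ih
        rw [gr_length] at h5
        have h7 := take_succ_eq (c := c) (j := j) (by omega)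
        rw [h5] at h7
        rw [PS_iff]
        refine ⟨c, h4, ?_, h6⟩
        rw [List.length_append, gr_length, List.length_singleton, h7]
        have h8 : c.getD j false = false := by
          by_contra h9
          rw [Bool.not_eq_false] at h9
          rw [h9] at h7
          have : PS V l x (gr V l x j ++ [true]) = true := PS_iff.2 ⟨c, h4, by
            rw [List.length_append, gr_length, List.length_singleton, h7], h6⟩
          rw [h3] at this
          exact absurd this (by simp)
        rw [h8]

/-- The greedy search finds the largest solution. -/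
theorem gr_spec {V : Str × Str → Bool} {l : Polynomial ℕ} {x : Str}
    (h : ∃ c : Str, c.length = l.eval x.length ∧ V (x, c) = true) :
    V (x, gr V l x (l.eval x.length)) = true ∧
      ∀ c : Str, c.length = l.eval x.length → V (x, c) = true →
        ¬ lexLt (gr V l x (l.eval x.length)) c := by
  refine ⟨?_, ?_⟩
  · obtain ⟨c, h1, h2, h3⟩ := PS_iff.1 (gr_inv h _ le_rfl)
    rw [gr_length, List.take_of_length_le h1.le] at h2
    rw [← h2]
    exact h3
  · rintro c h1 h2 ⟨k, h3, h4, h5⟩
    have hk : k < c.length := by
      by_contra hk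
      rw [List.getD_eq_default _ _ (by omega)] at h5
      exact absurd h5 (by simp)
    have hk' : k < l.eval x.length := by omega
    rw [gr_getD V l x hk'] at h4
    have h6 : c.take k = gr V l x k := by
      apply List.ext_getElem
      · rw [List.length_take, gr_length]; omega
      · intro j hj1 hj2
        rw [gr_length] at hj2
        have h7 := h3 j hj2
        rw [List.getElem_take]
        rw [List.getD_eq_getElem _ _ (by rw [gr_length]; omega),
          List.getD_eq_getElem _ _ (by omega)] at h7
        rw [← h7]
        have h8 := gr_prefix V l x hk'.le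
        have h9 : (gr V l x k)[j] = ((gr V l x (l.eval x.length)).take k)[j]'(by
          rw [List.length_take, gr_length]; omega) := by
          congr 1
          rw [h8]
        rw [h9, List.getElem_take]
    have h7 : PS V l x (gr V l x k ++ [true]) = true := by
      rw [PS_iff]
      refine ⟨c, h1, ?_, h2⟩
      rw [List.length_append, gr_length, List.length_singleton, take_succ_eq hk, h6, h5]
    rw [h4] at h7
    exact absurd h7 (by simp)

/-- The language of the prefixes of solutions. -/
noncomputable def PSL (V : Str × Str → Bool) (l : Polynomial ℕ) : Lang :=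
  fun z => PS V l (fst z) (snd z)

theorem PSL_mem {X : Lang} {V : Str × Str → Bool} {l : Polynomial ℕ}
    (hV : PolyB (fun _ : Str × Str => X) (fun _ => True) [fun p => p.1, fun p => p.2] V) :
    PSL V l ∈ NPO X := by
  have hz : PolyC (fun _ : Str × Str => X) (fun _ => True) [fun p => p.1, fun p => p.2]
    (fun p => p.1) := PolyC.var (by simp)
  have hc : PolyC (fun _ : Str × Str => X) (fun _ => True) [fun p => p.1, fun p => p.2]
    (fun p => p.2) := PolyC.var (by simp)
  have e1 := PolyB.natEq (PolyN.length hc) ((PolyN.length (PolyC.fst hz)).poly l)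
  have e2 := PolyB.strEq (PolyC.take hc (PolyN.length (PolyC.snd hz))) (PolyC.snd hz)
  have e3 := PolyB.arg2 hV (PolyC.fst hz) hc
  refine mem_NPO_le l (e1.and (e2.and e3)) (fun z => ?_)
  show PS V l (fst z) (snd z) = true ↔ _
  rw [PS_iff]
  simp only [Bool.and_eq_true, decide_eq_true_eq]
  constructor
  · rintro ⟨c, h1, h2, h3⟩
    refine ⟨c, ?_, h1, h2, h3⟩
    rw [h1]
    exact eval_mono l (fst_length_le z)
  · rintro ⟨c, -, h1, h2, h3⟩
    exact ⟨c, h1, h2, h3⟩

namespace PC

/-- The greedy search is computable with the oracle of the prefixes. -/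
theorem PolyC.gr {O : Lang} {V : Str × Str → Bool} {l : Polynomial ℕ} (hO : PSL V l ∈ PO O)
    {α : Type*} {D : α → Prop} {ctx : List (α → Str)} {x : α → Str} {n : α → ℕ}
    (hx : PolyC (fun _ => O) D ctx x) (hn : PolyN (fun _ => O) D ctx n) :
    PolyC (fun _ => O) D ctx (fun a => Pa76659G.gr V l (x a) (n a)) := by
  obtain ⟨pn, hpn⟩ := PolyC.length_le hn
  refine PolyC.natRec (fun a k => Pa76659G.gr V l (x a) k) hn PolyC.nil ?_
    ⟨pn, fun a ha k hk => ?_⟩
  · have h1 : PolyC (fun _ : α × ℕ => O) (fun p => D p.1 ∧ p.2 < n p.1)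
        (PC.lift ctx ++ [fun p => una p.2, fun p => Pa76659G.gr V l (x p.1) p.2])
        (fun p => Pa76659G.gr V l (x p.1) p.2) := PolyC.var (by simp)
    have h2 : PolyC (fun _ : α × ℕ => O) (fun p => D p.1 ∧ p.2 < n p.1)
        (PC.lift ctx ++ [fun p => una p.2, fun p => Pa76659G.gr V l (x p.1) p.2])
        (fun p => x p.1) := (hx.lift (fun p hp => hp.1)).weakenRight _
    have h3 : PolyB (fun _ : α × ℕ => O) (fun p => D p.1 ∧ p.2 < n p.1)
        (PC.lift ctx ++ [fun p => una p.2, fun p => Pa76659G.gr V l (x p.1) p.2])
        (fun p => PSL V l (Pa76659G.pr (x p.1) (Pa76659G.gr V l (x p.1) p.2 ++ [true]))) :=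
      polyB_of_PO hO (PolyC.pr h2 (h1.append (PolyC.const [true])))
    refine (h1.append h3).congr (fun p _ => ?_)
    rw [Pa76659G.gr]
    simp only [PSL, PC.fst_pr, PC.snd_pr]
  · rw [gr_length]
    have := hpn a ha
    rw [PC.un_length] at this
    omega

end PC

end Pool.Agent.Lib.Pa76659G
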