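import Pool.Agent.Lib.Pa76659G.GhB
import Pool.Agent.Lib.Pa76659G.Search

set_option autoImplicit false

/-!
The set `A1` is in `\hat H_2`, relative to every oracle.
-/

namespace Pool.Agent.Lib.Pa76659G.Gh

open Pool.Agent.Lib.Pa76659 Pool.Agent.Lib.Pa76659.Hier Pool.Agent.Lib.Pa76659G
open Pool.Agent.Lib.Pa76659G.PC Pool.Agent.Lib.Pa76659G.Unv
open Pool.Agent.Lib.Pa76659H (High RHighSucc)

/-- the masks are computable -/
theorem kb_poly {X O : Lang} (hX : X ∈ PO O) {α : Type*} {D : α → Prop} {ctx : List (α → Str)}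
    {z y : α → Str} (hz : PolyC (fun _ => O) D ctx z) (hy : PolyC (fun _ => O) D ctx y) :
    PolyB (fun _ => O) D ctx (fun a => kb X (z a) (y a)) := by
  refine (polyB_of_PO hX (PolyC.cons true (PolyC.cons false
    (PolyC.pr (PolyC.pr (PolyC.pr hz hy) PolyC.nil) PolyC.nil)))).congr (fun a _ => ?_)
  rfl

theorem VU_len {O : Lang} {z y : Str} (h : VU O (z, y) = true) : y.length = (nth z 4).length := by
  unfold VU at h
  rw [Bool.and_eq_true, decide_eq_true_eq] at h
  exact h.1

theorem A1_mem (X : Lang) : A1 X ∈ NPO X := by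
  have hv : PolyC (fun _ : Str × Str => X) (fun _ => True) [fun p => p.1, fun p => p.2]
    (fun p => p.1) := PolyC.var (by simp)
  have hy : PolyC (fun _ : Str × Str => X) (fun _ => True) [fun p => p.1, fun p => p.2]
    (fun p => p.2) := PolyC.var (by simp)
  have ht := hv.tail
  have hw := ht.tail
  have hX := query_mem X
  have h0 : PolyB (fun _ : Str × Str => X) (fun _ => True) [fun p => p.1, fun p => p.2]
      (fun p => VU X (p.1.tail, p.2) && !(kb X p.1.tail p.2)) :=
    (PolyB.arg2 (VU_poly X) ht hy).and (kb_poly hX ht hy).not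
  have hk : PolyB (fun _ : Str × Str => X) (fun _ => True) [fun p => p.1, fun p => p.2]
      (fun p => kb X (fst (snd p.1.tail)) (snd (snd p.1.tail))) :=
    kb_poly hX (PolyC.fst (PolyC.snd ht)) (PolyC.snd (PolyC.snd ht))
  have h1 : PolyB (fun _ : Str × Str => X) (fun _ => True) [fun p => p.1, fun p => p.2]
      (fun p => decide ((fst p.1.tail).length ≤ (fst (snd p.1.tail)).length) &&
        (VU X (fst p.1.tail, p.2) || !(kb X (fst (snd p.1.tail)) (snd (snd p.1.tail))))) :=
    (PolyB.le (PolyN.length (PolyC.fst ht)) (PolyN.length (PolyC.fst (PolyC.snd ht)))).and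
      ((PolyB.arg2 (VU_poly X) (PolyC.fst ht) hy).or hk.not)
  have h2 := (PolyB.isNil hv).not.and (PolyB.ite (PolyB.headD hv)
    (PolyC.mono h1 fun _ h => h.1) (PolyC.mono h0 fun _ h => h.1))
  refine mem_NPO_le Polynomial.X h2 (fun v => ?_)
  rw [Polynomial.eval_X]
  rcases v with _ | ⟨b, z⟩
  · constructor
    · intro h; exact absurd h (by simp [A1])
    · rintro ⟨y, -, h⟩
      simp at h
  cases b
  · rw [A1_false_iff]
    constructor
    · rintro ⟨y, hy1, hy2⟩
      refine ⟨y, ?_, ?_⟩
      · have := Tr.VU_length hy1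
        rw [List.length_cons]
        omega
      · simp [hy1, hy2]
    · rintro ⟨y, -, h⟩
      refine ⟨y, ?_⟩
      simpa using h
  · rw [A1_true]
    constructor
    · intro h
      rw [Bool.and_eq_true, Bool.or_eq_true] at h
      rcases h.2 with h3 | h3
      · obtain ⟨y, hy1⟩ := (KU_iff _ _).1 h3
        refine ⟨y, ?_, ?_⟩
        · have := Tr.VU_length hy1
          have := fst_length_le z
          rw [List.length_cons]
          omega
        · have := h.1
          simp [hy1] at this ⊢
          exact this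
      · refine ⟨[], by simp, ?_⟩
        have := h.1
        simp at this h3 ⊢
        exact ⟨this, Or.inr h3⟩
    · rintro ⟨y, -, h⟩
      simp only [List.headD_cons, List.tail_cons, if_true] at h
      rw [Bool.and_eq_true, Bool.and_eq_true, Bool.or_eq_true] at h
      rw [Bool.and_eq_true, Bool.or_eq_true]
      refine ⟨h.2.1, ?_⟩
      rcases h.2.2 with h3 | h3
      · exact Or.inl ((KU_iff _ _).2 ⟨y, h3⟩)
      · exact Or.inr h3

/-! ### The advice -/

/-- masked pairs of the level `|x|` -/
def Vc (X : Lang) (q : Str × Str) : Bool :=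
  decide ((fst q.2).length = q.1.length) &&
    kb X (fst q.2) ((snd q.2).take (nth (fst q.2) 4).length)

theorem Vc_iff (X : Lang) (x c : Str) : Vc X (x, c) = true ↔ (fst c).length = x.length ∧
    kb X (fst c) ((snd c).take (nth (fst c) 4).length) = true := by
  unfold Vc
  rw [Bool.and_eq_true, decide_eq_true_eq]

noncomputable def lc : Polynomial ℕ := 3 * Polynomial.X + 1

theorem Vc_poly (X : Lang) : PolyB (fun _ : Str × Str => X) (fun _ => True)
    [fun p => p.1, fun p => p.2] (Vc X) := by
  have hv : PolyC (fun _ : Str × Str => X) (fun _ => True) [fun p => p.1, fun p => p.2]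
    (fun p => p.1) := PolyC.var (by simp)
  have hy : PolyC (fun _ : Str × Str => X) (fun _ => True) [fun p => p.1, fun p => p.2]
    (fun p => p.2) := PolyC.var (by simp)
  exact (PolyB.natEq (PolyN.length (PolyC.fst hy)) (PolyN.length hv)).and
    (kb_poly (query_mem X) (PolyC.fst hy) (PolyC.take (PolyC.snd hy)
      (PolyN.length (PolyC.nth (PolyC.fst hy) (PolyN.const 4)))))

/-- the bits of the advice -/
noncomputable def Wa (X : Lang) : Lang := fun v =>
  if (snd v).isEmpty then PSL (Vc X) lc (pr (fst v) []) else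
    (gr (Vc X) lc (fst v) (lc.eval (fst v).length)).getD (snd v).tail.length false

theorem Wa_mem (X : Lang) : Wa X ∈ PO (PSL (Vc X) lc) := by
  set O := PSL (Vc X) lc with hO
  have hx : PolyC (fun _ : Str => O) (fun _ => True) [fun x => x] (fun x => x) :=
    PolyC.var (by simp)
  have h1 : PolyB (fun _ : Str => O) (fun _ => True) [fun x => x]
      (fun v => PSL (Vc X) lc (pr (fst v) [])) :=
    PolyC.query (PolyC.pr (PolyC.fst hx) PolyC.nil)
  have h2 : PolyB (fun _ : Str => O) (fun _ => True) [fun x => x]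
      (fun v => (gr (Vc X) lc (fst v) (lc.eval (fst v).length)).getD (snd v).tail.length false) :=
    PolyB.getD (PolyC.gr (query_mem O) (PolyC.fst hx) ((PolyN.length (PolyC.fst hx)).poly lc))
      (PolyN.length (PolyC.snd hx).tail)
  exact mem_PO (PolyB.ite (PolyB.isNil (PolyC.snd hx)) (PolyC.mono h1 fun _ h => h.1)
    (PolyC.mono h2 fun _ h => h.1))

theorem adv_eq (X : Lang) (n : ℕ) : advStr (Wa X) (lc + 1) n =
    PS (Vc X) lc (on1 n) [] :: gr (Vc X) lc (on1 n) (lc.eval n) := by
  apply List.ext_getElem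
  · rw [advStr_length, List.length_cons, gr_length]
    simp
  · intro i h1 h2
    simp only [advStr, List.getElem_map, List.getElem_range]
    unfold Wa
    rw [snd_pr, fst_pr]
    rcases i with _ | i
    · have : (on1 0).isEmpty = true := rfl
      rw [if_pos this, List.getElem_cons_zero]
      unfold PSL
      rw [fst_pr, snd_pr]
    · have : ¬ (on1 (i + 1)).isEmpty = true := by
        rw [on1_eq, PC.un_succ]
        simp
      have hon : (on1 n).length = n := by rw [on1_eq, PC.un_length]
      have hi : (on1 (i + 1)).tail.length = i := by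
        rw [on1_eq, PC.un_succ, List.tail_cons, PC.un_length]
      rw [if_neg this, List.getElem_cons_succ, hi]
      simp only [hon]
      rw [List.length_cons, gr_length] at h2
      exact List.getD_eq_getElem _ _ (by rw [gr_length]; omega)

/-- the co-certificates with advice -/
noncomputable def Ca (X : Lang) : Lang := fun v =>
  !(if (snd v).headD false then
    A1 X (true :: pr (fst v) (pr (fst (snd v).tail) ((snd (snd v).tail).take
      (nth (fst (snd v).tail) 4).length)))
    else A1 X (false :: fst v))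

theorem Ca_mem (X : Lang) : Ca X ∈ PO (join X (A1 X)) := by
  have hx : PolyC (fun _ : Str => join X (A1 X)) (fun _ => True) [fun x => x] (fun x => x) :=
    PolyC.var (by simp)
  have hA := right_PO X (A1 X)
  have hc := (PolyC.snd hx).tail
  refine mem_PO (PolyB.ite (PolyB.headD (PolyC.snd hx)) (PolyC.mono ?_ fun _ h => h.1)
    (PolyC.mono ?_ fun _ h => h.1)).not
  · exact polyB_of_PO hA (PolyC.cons true (PolyC.pr (PolyC.fst hx) (PolyC.pr (PolyC.fst hc)
      (PolyC.take (PolyC.snd hc) (PolyN.length (PolyC.nth (PolyC.fst hc) (PolyN.const 4)))))))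
  · exact polyB_of_PO hA (PolyC.cons false (PolyC.fst hx))

theorem Ca_eq (X : Lang) (x : Str) :
    (!(KU X x)) = Ca X (pr x (advStr (Wa X) (lc + 1) x.length)) := by
  rw [adv_eq]
  unfold Ca
  rw [snd_pr, fst_pr, List.headD_cons, List.tail_cons]
  congr 1
  set n := x.length with hn
  have hon : (on1 n).length = n := by rw [on1_eq, PC.un_length]
  by_cases hf : PS (Vc X) lc (on1 n) [] = true
  · rw [if_pos hf, A1_true, fst_pr, snd_pr, fst_pr, snd_pr]
    obtain ⟨c, hc1, -, hc2⟩ := PS_iff.1 hf
    have h1 := (gr_spec (V := Vc X) (l := lc) (x := on1 n) ⟨c, hc1, hc2⟩).1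
    rw [Vc_iff] at h1
    rw [hon] at h1
    rw [h1.2, decide_eq_true (by rw [h1.1])]
    simp
  · rw [if_neg hf, Bool.eq_iff_iff, KU_iff, A1_false_iff]
    constructor
    · rintro ⟨y, hy⟩
      refine ⟨y, hy, ?_⟩
      by_contra hk
      rw [Bool.not_eq_false] at hk
      apply hf
      rw [PS_iff]
      have h1 := VU_len hy
      have h2 := Tr.VU_length hy
      refine ⟨pr x (y ++ List.replicate (n - y.length) false), ?_, rfl, ?_⟩
      · rw [PC.pr_length, List.length_append, List.length_replicate, hon]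
        simp only [lc, Polynomial.eval_add, Polynomial.eval_mul, Polynomial.eval_ofNat,
          Polynomial.eval_X, Polynomial.eval_one]
        omega
      · rw [Vc_iff, fst_pr, snd_pr, ← h1, List.take_append_of_le_length le_rfl,
          List.take_of_length_le le_rfl, hon]
        exact ⟨hn.symm, hk⟩
    · rintro ⟨y, hy, -⟩
      exact ⟨y, hy⟩

/-! ### Membership -/

theorem sigK {X X' : Lang} (h : X ∈ PO X') : ∀ k : ℕ, Sig X (k + 1) ⊆ Sig (join X' (KU X)) k
  | 0 => by
    rintro L ⟨B, hB, hL⟩
    obtain ⟨red, hr1, hr2⟩ := KU_hard (NPO_subset hB hL)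
    exact mem_PO ((polyB_of_PO (right_PO X' (KU X)) (hr1 _)).congr (fun x _ => hr2 x))
  | k + 1 => by
    rintro L ⟨B, hB, hL⟩
    exact ⟨B, sigK h k hB, hL⟩

theorem A1_rhigh (X : Lang) : A1 X ∈ RHighSucc X 1 := by
  refine ⟨A1_mem X, ?_⟩
  set O := join X (A1 X) with hO
  have hXO : X ∈ PO O := left_PO _ _
  have hK : KU X ∈ NPO O := NPO_subset hXO (KU_mem X)
  have hlow : KU X ∈ RLowSucc O 1 := rlow_of_adv hK ⟨Ca X, PO_subset_NPO _ (Ca_mem X), Wa X,
    ⟨PSL (Vc X) lc, ⟨X, hXO, PSL_mem (Vc_poly X)⟩, Wa_mem X⟩, lc + 1, Ca_eq X⟩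
  rintro L ⟨B, hB, hL⟩
  exact hlow.2 ⟨B, sigK hXO 1 hB, hL⟩

end Pool.Agent.Lib.Pa76659G.Gh
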