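import Pool.Agent.Lib.Pa76659G.GhE
import Pool.Agent.Lib.Pa76659G.GhM1

set_option autoImplicit false

/-!
`H_1 ⊂ \hat H_2` relative to generic oracles above any base.
-/

namespace Pool.Agent.Lib.Pa76659G.Gh

open Pool.Agent.Lib.Pa76659 Pool.Agent.Lib.Pa76659G
open Pool.Agent.Lib.Pa76659H (High RHighSucc)

theorem high1_rhigh2 (Y : Lang) : ∀ᶠ G in residual Lang,
    High (join Y G) 1 ⊂ RHighSucc (join Y G) 1 := by
  filter_upwards [A1_not_high Y] with G hG
  exact ⟨Pa76659H.high_rhigh, fun h => hG (h (A1_rhigh _))⟩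

end Pool.Agent.Lib.Pa76659G.Gh
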