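import Pool.Agent.Lib.Pa76659G.TrB

set_option autoImplicit false

/-!
The transfer of high sets: if `H` is high relative to `Y` then the gated set is high relative to
`Y ⊕ G`, at the same level, for all `G`.
-/

namespace Pool.Agent.Lib.Pa76659G.Tr

open Pool.Agent.Lib.Pa76659 Pool.Agent.Lib.Pa76659H PC

/-- `Σ_{k+1}(X) = Σ_k(X ⊕ K)` for the complete set `K` -/
theorem Sig_succ_sub (X : Lang) (k : ℕ) : Sig X (k + 1) ⊆ Sig (join X (Unv.KU X)) k :=
  (tcomp_high (Unv.KU_tcomp X)).2

/-- the complete set is not empty -/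
theorem exists_KU (X : Lang) : ∃ z : Str, Unv.KU X z = true := by
  have h : (fun _ : Str => true) ∈ NPO X :=
    PO_subset_NPO X (mem_PO (PolyB.const true))
  obtain ⟨red, -, h2⟩ := Unv.KU_hard h
  exact ⟨red [], h2 []⟩

/-- the family for the lengths with an open gate -/
def U1 (X A : Lang) (a : Str) : Lang := join X (fun z => A (false :: pr z a))

/-- the family for the lengths with a closed gate -/
def U2 (Y : Lang) (T : Str) : Lang := join Y (GT T)

theorem fam_join {O : Lang} {U V : Str → Lang} (hU : Fam O U) (hV : Fam O V) :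
    Fam O (fun a => join (U a) (V a)) := by
  have hx : PolyC (fun _ : Str => O) (fun _ => True) [fun x => x] (fun x => x) :=
    PolyC.var (by simp)
  have h1 := hU.poly (PolyC.fst hx) (PolyC.tail (PolyC.snd hx))
  have h2 := hV.poly (PolyC.fst hx) (PolyC.tail (PolyC.snd hx))
  refine mem_PO (PolyC.congr (PolyC.cases (PolyC.snd hx) (u0 := fun _ => [false])
      (u1 := fun x : Str => [U (fst x) (snd x).tail]) (u2 := fun x : Str => [V (fst x) (snd x).tail])
      (PolyC.const _) (PolyC.mono h1 fun _ h => h.1) (PolyC.mono h2 fun _ h => h.1)) ?_)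
  intro x _
  show _ = [join (U (fst x)) (V (fst x)) (snd x)]
  generalize snd x = w
  rcases w with _ | ⟨b, v⟩
  · rfl
  · cases b <;> rfl

theorem fam_const {O L : Lang} (h : L ∈ PO O) : Fam O (fun _ => L) := by
  have hx : PolyC (fun _ : Str => O) (fun _ => True) [fun x => x] (fun x => x) :=
    PolyC.var (by simp)
  exact mem_PO (polyB_of_PO h (PolyC.snd hx))

theorem fam_U1 (X A : Lang) : Fam (join X A) (U1 X A) := by
  refine fam_join (fam_const (left_PO X A)) ?_
  have hx : PolyC (fun _ : Str => join X A) (fun _ => True) [fun x => x] (fun x => x) :=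
    PolyC.var (by simp)
  exact mem_PO (polyB_of_PO (right_PO X A)
    (PolyC.cons false (PolyC.pr (PolyC.snd hx) (PolyC.fst hx))))

theorem fam_U2 (Y : Lang) : Fam Y (U2 Y) := by
  refine fam_join (fam_const (query_mem Y)) ?_
  have hx : PolyC (fun _ : Str => Y) (fun _ => True) [fun x => x] (fun x => x) :=
    PolyC.var (by simp)
  exact mem_PO (GT_poly (PolyC.fst hx) (PolyC.snd hx))

/-- the switch between the two cases -/
noncomputable def sw (Y H G : Lang) (z0 : Str) (N : Polynomial ℕ) (x : Str) : Str :=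
  if AG Y H G (false :: pr z0 (on1 (N.eval x.length))) = true then
    false :: pr (on1 (N.eval x.length)) x
  else true :: pr (tabG G (N.eval x.length)) x

theorem sw_red (Y H G : Lang) (z0 : Str) (N : Polynomial ℕ) :
    Red (join (join Y G) (AG Y H G)) (sw Y H G z0 N) := by
  intro O' hO'
  have hx : PolyC (fun _ : Str => O') (fun _ => True) [fun x => x] (fun x => x) :=
    PolyC.var (by simp)
  have hn : PolyN (fun _ : Str => O') (fun _ => True) [fun x => x]
    (fun x => N.eval x.length) := (PolyN.length hx).poly N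
  have hA : AG Y H G ∈ PO O' := PO_subset hO' (right_PO _ _)
  have hG : G ∈ PO O' := PO_subset hO' (PO_subset (left_PO _ _) (right_PO Y G))
  have h1 : PolyB (fun _ : Str => O') (fun _ => True) [fun x => x]
      (fun x => AG Y H G (false :: pr z0 (on1 (N.eval x.length)))) :=
    polyB_of_PO hA (PolyC.cons false (PolyC.pr (PolyC.const z0) hn))
  have h2 : PolyC (fun _ : Str => O') (fun _ => True) [fun x => x]
      (fun x => false :: pr (on1 (N.eval x.length)) x) := PolyC.cons false (PolyC.pr hn hx)
  have h3 : PolyC (fun _ : Str => O') (fun _ => True) [fun x => x]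
      (fun x => true :: pr (tabG G (N.eval x.length)) x) :=
    PolyC.cons true (PolyC.pr (tabG_poly hG hn) hx)
  exact PolyC.ite h1 (h2.mono fun _ h => h.1) (h3.mono fun _ h => h.1)

/-- the value of the switch -/
theorem sw_spec {Y H G : Lang} {z0 : Str} {N : Polynomial ℕ} {x : Str} {L1 L2 : Lang} {b : Bool}
    (hz0 : Unv.KU (join Y G) z0 = true) (hN : z0.length ≤ N.eval x.length)
    (h1 : ne G (N.eval x.length) = true → L1 (pr (on1 (N.eval x.length)) x) = b)
    (h2 : ne G (N.eval x.length) = false → L2 (pr (tabG G (N.eval x.length)) x) = b) :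
    join L1 L2 (sw Y H G z0 N x) = b := by
  have e : AG Y H G (false :: pr z0 (on1 (N.eval x.length))) = ne G (N.eval x.length) := by
    show gate Y G _ = _
    rw [gate_pr hN, hz0, Bool.true_and]
  unfold sw
  rw [e]
  by_cases h : ne G (N.eval x.length) = true
  · rw [if_pos h]
    exact h1 h
  · rw [if_neg h]
    rw [Bool.not_eq_true] at h
    exact h2 h

theorem U1_spec {Y H G : Lang} {n : ℕ} (hn : ne G n = true) {v : Str} (hv : v.length ≤ n) :
    U1 (join Y G) (AG Y H G) (on1 n) v = join (join Y G) (Unv.KU (join Y G)) v := by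
  rcases v with _ | ⟨b, v⟩
  · rfl
  · cases b
    · rfl
    · show gate Y G _ = Unv.KU (join Y G) v
      rw [gate_pr (by simp only [List.length_cons] at hv; omega), hn, Bool.and_true]

theorem U2_spec {Y G : Lang} {n : ℕ} (hn : ne G n = false) {v : Str} (hv : v.length ≤ n) :
    U2 Y (tabG G n) v = join Y G v := by
  rcases v with _ | ⟨b, v⟩
  · rfl
  · cases b
    · rfl
    · exact GT_tab hn (by simp only [List.length_cons] at hv; omega)

theorem base_sub (Y H G : Lang) : join Y H ∈ PO (join (join Y G) (AG Y H G)) :=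
  PO_join (PO_subset (left_PO _ _) (left_PO Y G)) (PO_subset (right_PO _ _) (right_PO _ H))

/-- High sets, levels `H_k`. -/
theorem high_of_high {Y H : Lang} {k : ℕ} (hH : H ∈ High Y k) (G : Lang) :
    AG Y H G ∈ High (join Y G) k := by
  refine ⟨AG_mem hH.1 G, fun L hL => ?_⟩
  set X := join Y G with hX
  set A := AG Y H G with hA
  obtain ⟨p', l', hl', e'⟩ := exists_sEval hL
  obtain ⟨p, l, hl, e⟩ := exists_sEval (Sig_succ_sub X k hL)
  obtain ⟨b', hb'⟩ := sEval_congr p' l'
  obtain ⟨b, hb⟩ := sEval_congr p l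
  obtain ⟨z0, hz0⟩ := exists_KU X
  obtain ⟨L1, hL1, h1⟩ := sEval_param (fam_U1 X A) p l
  obtain ⟨L2, hL2, h2⟩ := sEval_param (fam_U2 Y) p' l'
  rw [hl] at hL1
  rw [hl'] at hL2
  have hL2' : L2 ∈ Sig (join X A) k := Sig_mono (base_sub Y H G) k (hH.2 hL2)
  let N : Polynomial ℕ := (Polynomial.X + 2) ^ b + (Polynomial.X + 2) ^ b' +
    Polynomial.C z0.length
  have hN : ∀ n : ℕ, N.eval n = (n + 2) ^ b + (n + 2) ^ b' + z0.length := by
    intro n
    simp [N]
  have key : L = fun x => join L1 L2 (sw Y H G z0 N x) := by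
    funext x
    symm
    have hNx := hN x.length
    refine sw_spec hz0 (by omega) (fun h => ?_) (fun h => ?_)
    · rw [h1, e]
      exact hb x _ _ fun v hv => U1_spec h (by omega)
    · rw [h2, e']
      exact hb' x _ _ fun v hv => U2_spec h (by omega)
  rw [key]
  exact Sig_comp (Sig_join hL1 hL2') (sw_red Y H G z0 N)

/-- High sets, levels `\hat H_{k+1}`. -/
theorem rhigh_of_rhigh {Y H : Lang} {k : ℕ} (hH : H ∈ RHighSucc Y k) (G : Lang) :
    AG Y H G ∈ RHighSucc (join Y G) k := by
  refine ⟨AG_mem hH.1 G, ?_⟩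
  rintro L ⟨B, hB, hLB⟩
  set X := join Y G with hX
  set A := AG Y H G with hA
  obtain ⟨q, hq⟩ := exists_pEval hLB
  obtain ⟨p', l', hl', e'⟩ := exists_sEval hB
  obtain ⟨p, l, hl, e⟩ := exists_sEval (Sig_succ_sub X k hB)
  obtain ⟨b', hb'⟩ := sEval_congr p' l'
  obtain ⟨b, hb⟩ := sEval_congr p l
  obtain ⟨z0, hz0⟩ := exists_KU X
  obtain ⟨B1, hB1, h1⟩ := sEval_param (fam_U1 X A) p l
  obtain ⟨B2, hB2, h2⟩ := sEval_param (fam_U2 Y) p' l'
  rw [hl] at hB1
  rw [hl'] at hB2
  have par : ∀ (B' : Lang), (fun w => pEval q (fun v => B' (pr (fst w) v)) (snd w)) ∈ PO B' := by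
    intro B'
    have hx : PolyC (fun _ : Str => B') (fun _ => True) [fun x => x] (fun x => x) :=
      PolyC.var (by simp)
    refine mem_PO (PolyB.pEval (orc := fun _ : Str => B') q (fun w v => B' (pr (fst w) v))
      (fun w => snd w) ?_ (PolyC.snd hx))
    refine PolyB.qry (PolyC.pr ?_ (PolyC.var (by simp)))
    exact ((PolyC.fst hx).lift (D' := fun _ : Str × Str => True)
      (fun _ _ => trivial)).weakenRight _
  set L1 : Lang := fun w => pEval q (fun v => B1 (pr (fst w) v)) (snd w) with hL1
  set L2 : Lang := fun w => pEval q (fun v => B2 (pr (fst w) v)) (snd w) with hL2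
  have m1 : L1 ∈ DelSucc (join X A) k := ⟨B1, hB1, par B1⟩
  have m2 : L2 ∈ DelSucc (join X A) k :=
    DelSucc_mono (base_sub Y H G) k (hH.2 ⟨B2, hB2, par B2⟩)
  let m : Polynomial ℕ := Polynomial.X + q.2
  let N : Polynomial ℕ := (m + 2) ^ b + (m + 2) ^ b' + Polynomial.C z0.length
  have hN : ∀ n : ℕ, N.eval n = (n + q.2.eval n + 2) ^ b + (n + q.2.eval n + 2) ^ b' + z0.length := by
    intro n
    simp [N, m]
  have key : L = fun x => join L1 L2 (sw Y H G z0 N x) := by
    funext x
    symm
    have hNx := hN x.length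
    refine sw_spec hz0 (by omega) (fun h => ?_) (fun h => ?_)
    · rw [hq, hL1]
      simp only [fst_pr, snd_pr]
      unfold pEval
      rw [inp_eq]
      refine accepts_congr ?_
      intro v hv
      have hv' : v.length ≤ x.length + q.2.eval x.length := by simpa using hv
      have h5 : (v.length + 2) ^ b ≤ (x.length + q.2.eval x.length + 2) ^ b :=
        Nat.pow_le_pow_left (by omega) b
      rw [h1, e]
      exact hb v _ _ fun u hu => U1_spec h (by omega)
    · rw [hq, hL2]
      simp only [fst_pr, snd_pr]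
      unfold pEval
      rw [inp_eq]
      refine accepts_congr ?_
      intro v hv
      have hv' : v.length ≤ x.length + q.2.eval x.length := by simpa using hv
      have h5 : (v.length + 2) ^ b' ≤ (x.length + q.2.eval x.length + 2) ^ b' :=
        Nat.pow_le_pow_left (by omega) b'
      rw [h2, e']
      exact hb' v _ _ fun u hu => U2_spec h (by omega)
  rw [key]
  exact Del_comp (Del_join m1 m2) (sw_red Y H G z0 N)

end Pool.Agent.Lib.Pa76659G.Tr
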