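import Pool.Agent.Lib.Pa76659G.GhA
import Pool.Agent.Lib.Pa76659G.Chk
import Pool.Agent.Lib.Pa76659G.TrC

set_option autoImplicit false

/-!
The second set is in `H_2`, relative to every oracle.
-/

namespace Pool.Agent.Lib.Pa76659G.Gh

open Pool.Agent.Lib.Pa76659 Pool.Agent.Lib.Pa76659G Pool.Agent.Lib.Pa76659G.PC
open Pool.Agent.Lib.Pa76659G.Unv
open Pool.Agent.Lib.Pa76659H (High RHighSucc)

/-! ### Computability -/

section
variable {α : Type} {O X : Lang} {D : α → Prop} {ctx : List (α → Str)}

theorem mb_poly (hX : X ∈ PO O) {z y p : α → Str} {j : α → ℕ}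
    (hz : PolyC (fun _ => O) D ctx z) (hy : PolyC (fun _ => O) D ctx y)
    (hp : PolyC (fun _ => O) D ctx p) (hj : PolyN (fun _ => O) D ctx j) :
    PolyB (fun _ => O) D ctx (fun a => mb X (z a) (y a) (p a) (j a)) :=
  polyB_of_PO hX (PolyC.cons true (PolyC.cons false
    (PolyC.pr (PolyC.pr (PolyC.pr hz hy) hp) (show PolyC (fun _ => O) D ctx
      (fun a => on1 (j a)) from hj))))

theorem cc_poly {n : α → ℕ} (hn : PolyN (fun _ => O) D ctx n) :
    PolyN (fun _ => O) D ctx (fun a => cc (n a)) :=
  ((PolyN.const 2).mul hn).add (PolyN.const 3)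

theorem kill_poly (hX : X ∈ PO O) {s z y : α → Str} (hs : PolyC (fun _ => O) D ctx s)
    (hz : PolyC (fun _ => O) D ctx z) (hy : PolyC (fun _ => O) D ctx y) :
    PolyB (fun _ => O) D ctx (fun a => kill X (s a) (z a) (y a)) := by
  refine (PolyB.exists_lt (n := fun a => (z a).length)
    (φ := fun p : α × ℕ => decide (∀ j < cc (z p.1).length,
      mb X (z p.1) (y p.1) ((s p.1).take (p.2 * cc (z p.1).length)) j =
        (s p.1).getD (p.2 * cc (z p.1).length + j) false)) (PolyN.length hz) ?_).congr
      (fun a _ => ?_)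
  · refine (PolyB.forall_lt (n := fun p : α × ℕ => cc (z p.1).length)
      (φ := fun q : (α × ℕ) × ℕ =>
        (mb X (z q.1.1) (y q.1.1) ((s q.1.1).take (q.1.2 * cc (z q.1.1).length)) q.2 ==
        (s q.1.1).getD (q.1.2 * cc (z q.1.1).length + q.2) false)) ?_ ?_).congr (fun p _ => ?_)
    · exact cc_poly (PolyN.length ((PolyC.lift hz (fun p hp => hp.1)).weakenRight _))
    · have lift2 : ∀ {t : α → Str}, PolyC (fun _ => O) D ctx t →
          PolyC (fun _ : (α × ℕ) × ℕ => O)
            (fun q => (D q.1.1 ∧ q.1.2 < (z q.1.1).length) ∧ q.2 < cc (z q.1.1).length)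
            (PC.lift (PC.lift ctx ++ [fun p : α × ℕ => una p.2]) ++
              [fun q : (α × ℕ) × ℕ => una q.2]) (fun q => t q.1.1) := by
        intro t ht
        have h1 : PolyC (fun _ : α × ℕ => O) (fun p => D p.1 ∧ p.2 < (z p.1).length)
            (PC.lift ctx ++ [fun p : α × ℕ => una p.2]) (fun p => t p.1) :=
          (PolyC.lift ht (fun p hp => hp.1)).weakenRight _
        exact (PolyC.lift h1 (fun q hq => hq.1)).weakenRight _
      have hi : PolyN (fun _ : (α × ℕ) × ℕ => O)
            (fun q => (D q.1.1 ∧ q.1.2 < (z q.1.1).length) ∧ q.2 < cc (z q.1.1).length)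
            (PC.lift (PC.lift ctx ++ [fun p : α × ℕ => una p.2]) ++
              [fun q : (α × ℕ) × ℕ => una q.2]) (fun q => q.1.2) := by
        have h1 : PolyC (fun _ : α × ℕ => O) (fun p => D p.1 ∧ p.2 < (z p.1).length)
            (PC.lift ctx ++ [fun p : α × ℕ => una p.2]) (fun p => una p.2) :=
          PolyC.var (by simp)
        exact (PolyC.lift h1 (fun q hq => hq.1)).weakenRight _
      have hj : PolyN (fun _ : (α × ℕ) × ℕ => O)
            (fun q => (D q.1.1 ∧ q.1.2 < (z q.1.1).length) ∧ q.2 < cc (z q.1.1).length)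
            (PC.lift (PC.lift ctx ++ [fun p : α × ℕ => una p.2]) ++
              [fun q : (α × ℕ) × ℕ => una q.2]) (fun q => q.2) := PolyC.var (by simp)
      have hz2 := lift2 hz
      have hy2 := lift2 hy
      have hs2 := lift2 hs
      have hc := cc_poly (PolyN.length hz2)
      exact PolyB.beq (mb_poly hX hz2 hy2 (PolyC.take hs2 (hi.mul hc)) hj)
        (PolyB.getD hs2 ((hi.mul hc).add hj))
    · rw [Bool.eq_iff_iff]
      simp only [decide_eq_true_eq, beq_iff_eq]
  · unfold kill
    rw [Bool.eq_iff_iff]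
    simp only [decide_eq_true_eq]

end

/-! ### Membership in `NP` -/

theorem A2_mem (X : Lang) : A2 X ∈ NPO X := by
  have hx : PolyC (fun _ : Str × Str => X) (fun _ => True) [fun p => p.1, fun p => p.2]
    (fun p => p.1) := PolyC.var (by simp)
  have hy : PolyC (fun _ : Str × Str => X) (fun _ => True) [fun p => p.1, fun p => p.2]
    (fun p => p.2) := PolyC.var (by simp)
  have hn := PolyN.length (PolyC.fst hx)
  refine mem_NPO_le (V := fun p =>
    decide ((snd p.1).length = (fst p.1).length * cc (fst p.1).length) &&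
      (VU X (fst p.1, p.2) && !(kill X (snd p.1) (fst p.1) p.2)))
    Polynomial.X ((PolyB.natEq (PolyN.length (PolyC.snd hx)) (hn.mul (cc_poly hn))).and
      ((PolyB.arg2 (VU_poly X) (PolyC.fst hx) hy).and
      (PolyB.not (kill_poly (query_mem X) (PolyC.snd hx) (PolyC.fst hx) hy)))) (fun v => ?_)
  unfold A2
  simp only [Bool.and_eq_true, decide_eq_true_eq, Polynomial.eval_X, Bool.not_eq_true']
  constructor
  · rintro ⟨h0, y, h1, h2⟩
    exact ⟨y, (Tr.VU_length h1).trans (fst_length_le v), h0, h1, h2⟩
  · rintro ⟨y, -, h0, h1, h2⟩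
    exact ⟨h0, y, h1, h2⟩

/-! ### The greedy advice -/

/-- decoding of short strings -/
def dcd (l : Str) : Str := (l.dropWhile (fun b => !b)).tail

theorem dcd_surj (n : ℕ) (y : Str) (hy : y.length ≤ n) : ∃ g : Fin (n + 1) → Bool,
    dcd (List.ofFn g) = y := by
  set l : Str := List.replicate (n - y.length) false ++ true :: y with hl
  have hlen : l.length = n + 1 := by
    rw [hl, List.length_append, List.length_replicate, List.length_cons]
    omega
  refine ⟨fun i => l.get (Fin.cast hlen.symm i), ?_⟩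
  have e : List.ofFn (fun i : Fin (n + 1) => l.get (Fin.cast hlen.symm i)) = l := by
    apply List.ext_getElem
    · rw [List.length_ofFn, hlen]
    · intro i h1 h2
      rw [List.getElem_ofFn]
      rfl
  rw [e, hl]
  unfold dcd
  have : ∀ k : ℕ, (List.replicate k false ++ true :: y).dropWhile (fun b => !b) = true :: y := by
    intro k
    induction k with
    | zero => rfl
    | succ k ih => rw [List.replicate_succ, List.cons_append, List.dropWhile_cons]; simp
  rw [this]
  rfl

theorem str_surj' (n : ℕ) (z : Str) (hz : z.length = n) : ∃ f : Fin n → Bool,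
    List.ofFn f = z := by
  refine ⟨fun i => z.get (Fin.cast hz.symm i), ?_⟩
  apply List.ext_getElem
  · simp [hz]
  · intro i h1 h2
    simp

/-- a block which avoids all forbidden values -/
theorem block (X : Lang) (n : ℕ) (p : Str) : ∃ b : Fin (cc n) → Bool, ∀ z y : Str,
    z.length = n → y.length ≤ n → ∃ j : Fin (cc n), mb X z y p j ≠ b j := by
  by_contra hcon
  push Not at hcon
  let Φ : (Fin n → Bool) × (Fin (n + 1) → Bool) → (Fin (cc n) → Bool) :=
    fun q j => mb X (List.ofFn q.1) (dcd (List.ofFn q.2)) p j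
  have hs : Function.Surjective Φ := by
    intro b
    obtain ⟨z, y, hz, hy, h⟩ := hcon b
    obtain ⟨f, hf⟩ := str_surj' n z hz
    obtain ⟨g, hg⟩ := dcd_surj n y hy
    refine ⟨(f, g), funext fun j => ?_⟩
    show mb X (List.ofFn f) (dcd (List.ofFn g)) p j = b j
    rw [hf, hg]
    exact h j
  have h1 := Fintype.card_le_of_surjective Φ hs
  simp only [Fintype.card_prod, Fintype.card_fun, Fintype.card_bool, Fintype.card_fin] at h1
  rw [← pow_add] at h1
  have h2 := (Nat.pow_le_pow_iff_right (by norm_num : 1 < 2)).1 h1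
  unfold cc at h2
  omega

theorem greedy (X : Lang) (n : ℕ) : ∀ m : ℕ, ∃ u : Str, u.length = m * cc n ∧ ∀ i < m,
    ∀ z y : Str, z.length = n → y.length ≤ n →
      ∃ j < cc n, mb X z y (u.take (i * cc n)) j ≠ u.getD (i * cc n + j) false
  | 0 => ⟨[], by simp, by simp⟩
  | m + 1 => by
      obtain ⟨u, hu, h⟩ := greedy X n m
      obtain ⟨b, hb⟩ := block X n u
      refine ⟨u ++ List.ofFn b, by rw [List.length_append, hu, List.length_ofFn]; ring, ?_⟩
      intro i hi z y hz hy
      have him : i * cc n ≤ m * cc n := Nat.mul_le_mul_right _ (by omega)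
      have ht : (u ++ List.ofFn b).take (i * cc n) = u.take (i * cc n) :=
        List.take_append_of_le_length (by omega)
      rw [ht]
      rcases Nat.lt_succ_iff_lt_or_eq.1 hi with him' | rfl
      · obtain ⟨j, hj, h1⟩ := h i him' z y hz hy
        refine ⟨j, hj, ?_⟩
        have h2 : i * cc n + j < u.length := by
          have : (i + 1) * cc n ≤ m * cc n := Nat.mul_le_mul_right _ him'
          rw [hu]
          rw [Nat.add_mul, one_mul] at this
          omega
        rw [List.getD_append _ _ _ _ h2]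
        exact h1
      · obtain ⟨j, h1⟩ := hb z y hz hy
        refine ⟨j.1, j.2, ?_⟩
        rw [List.take_of_length_le (by omega), List.getD_append_right _ _ _ _ (by omega), hu,
          Nat.add_sub_cancel_left, List.getD_eq_getElem _ _ (by simp)]
        simpa using h1

/-- every length has a good advice -/
theorem exists_good (X : Lang) (n : ℕ) : ∃ u : Str, u.length = n * cc n ∧
    ∀ z y : Str, z.length = n → y.length ≤ n → kill X u z y = false := by
  obtain ⟨u, hu, h⟩ := greedy X n n
  refine ⟨u, hu, fun z y hz hy => ?_⟩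
  unfold kill
  rw [decide_eq_false_iff_not]
  rintro ⟨i, hi, h1⟩
  rw [hz] at hi h1
  obtain ⟨j, hj, h2⟩ := h i hi z y hz hy
  exact h2 (h1 j hj)

/-! ### Highness -/

open Classical in
/-- the test of the advice -/
noncomputable def D1 (X : Lang) : Lang := fun w =>
  decide (∃ z y : Str, z.length = (fst w).length ∧ y.length ≤ (fst w).length ∧
    kill X (snd w) z y = true)

theorem D1_mem {X X' : Lang} (hX : X ∈ PO X') : D1 X ∈ NPO X' := by
  have hx : PolyC (fun _ : Str × Str => X') (fun _ => True) [fun p => p.1, fun p => p.2]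
    (fun p => p.1) := PolyC.var (by simp)
  have hy : PolyC (fun _ : Str × Str => X') (fun _ => True) [fun p => p.1, fun p => p.2]
    (fun p => p.2) := PolyC.var (by simp)
  have hn := PolyN.length (PolyC.fst hx)
  refine mem_NPO_le (V := fun p => decide ((fst p.2).length = (fst p.1).length) &&
    (decide ((snd p.2).length ≤ (fst p.1).length) && kill X (snd p.1) (fst p.2) (snd p.2)))
    (3 * Polynomial.X + 1)
    ((PolyB.natEq (PolyN.length (PolyC.fst hy)) hn).and
      ((PolyB.le (PolyN.length (PolyC.snd hy)) hn).and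
        (kill_poly hX (PolyC.snd hx) (PolyC.fst hy) (PolyC.snd hy)))) (fun w => ?_)
  unfold D1
  simp only [Bool.and_eq_true, decide_eq_true_eq]
  have hw := fst_length_le w
  constructor
  · rintro ⟨z, y, h1, h2, h3⟩
    refine ⟨pr z y, ?_, ?_⟩
    · rw [PC.pr_length]
      simp only [Polynomial.eval_add, Polynomial.eval_mul, Polynomial.eval_ofNat,
        Polynomial.eval_X, Polynomial.eval_one]
      omega
    · rw [fst_pr, snd_pr]
      exact ⟨h1, h2, h3⟩
  · rintro ⟨y, -, h1, h2, h3⟩
    exact ⟨fst y, snd y, h1, h2, h3⟩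

/-- the test of the length of the advice -/
def D0 : Lang := fun w => !(decide ((snd w).length = (fst w).length * cc (fst w).length))

theorem D0_mem (X' : Lang) : D0 ∈ NPO X' := by
  have hx : PolyC (fun _ : Str => X') (fun _ => True) [fun x => x] (fun x => x) :=
    PolyC.var (by simp)
  have hn := PolyN.length (PolyC.fst hx)
  exact PO_subset_NPO _ (mem_PO (PolyB.not (PolyB.natEq (PolyN.length (PolyC.snd hx))
    (hn.mul (cc_poly hn)))))

theorem coK_chk (X : Lang) : (fun z => !(KU X z)) ∈ NPChk (join X (A2 X)) := by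
  classical
  have hA : A2 X ∈ PO (join X (A2 X)) := right_PO X (A2 X)
  have hx : PolyC (fun _ : Str => join X (A2 X)) (fun _ => True) [fun x => x] (fun x => x) :=
    PolyC.var (by simp)
  refine ⟨fun w => !(A2 X w), PO_subset_NPO _ (mem_PO (PolyB.not (polyB_of_PO hA hx))),
    fun w => D0 w || D1 X w, Hc.NPO_or (D0_mem _) (D1_mem (left_PO X (A2 X))),
    Polynomial.X * (2 * Polynomial.X + 3), fun n => ⟨?_, ?_⟩⟩
  · obtain ⟨u, hu, h⟩ := exists_good X n
    refine ⟨u, ?_, ?_⟩
    · rw [hu]
      simp [cc]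
    · have h0 : D0 (pr (on1 n) u) = false := by
        unfold D0
        rw [fst_pr, snd_pr, show (on1 n).length = n by simp [on1], hu]
        simp
      have h1 : D1 X (pr (on1 n) u) = false := by
        unfold D1
        rw [decide_eq_false_iff_not, fst_pr, snd_pr, show (on1 n).length = n by simp [on1]]
        rintro ⟨z, y, h2, h3, h4⟩
        rw [h z y h2 h3] at h4
        exact absurd h4 (by simp)
      show (D0 (pr (on1 n) u) || D1 X (pr (on1 n) u)) = false
      rw [h0, h1]
      rfl
  · intro u _ hD x hx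
    have hD' : (D0 (pr (on1 n) u) || D1 X (pr (on1 n) u)) = false := hD
    rw [Bool.or_eq_false_iff] at hD'
    have h0 := hD'.1
    have h1 := hD'.2
    unfold D0 at h0
    rw [fst_pr, snd_pr, show (on1 n).length = n by simp [on1]] at h0
    have h0' : u.length = n * cc n := by simpa using h0
    unfold D1 at h1
    rw [decide_eq_false_iff_not, fst_pr, snd_pr, show (on1 n).length = n by simp [on1]] at h1
    show (!(KU X x)) = !(A2 X (pr x u))
    congr 1
    rw [Bool.eq_iff_iff]
    unfold KU A2
    rw [Bool.and_eq_true, decide_eq_true_eq, decide_eq_true_eq, decide_eq_true_eq, fst_pr, snd_pr]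
    constructor
    · rintro ⟨y, hy⟩
      refine ⟨by rw [hx, h0'], y, hy, ?_⟩
      rw [← Bool.not_eq_true]
      intro hk
      exact h1 ⟨x, y, hx, by rw [← hx]; exact Tr.VU_length hy, hk⟩
    · rintro ⟨-, y, hy, -⟩
      exact ⟨y, hy⟩

/-- The second set is in `H_2`, relative to every oracle. -/
theorem A2_high (X : Lang) : A2 X ∈ High X 2 := by
  refine ⟨A2_mem X, fun L hL => ?_⟩
  have h1 : L ∈ Sig (join X (KU X)) 2 := Tr.Sig_succ_sub X 2 hL
  have h2 : L ∈ Sig (join (join X (A2 X)) (KU X)) 2 :=
    Sig_mono (PO_join (PO_subset (left_PO _ _) (left_PO X (A2 X))) (right_PO _ _)) 2 h1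
  exact chk_low (NPO_subset (left_PO X (A2 X)) (KU_mem X)) (coK_chk X) h2

end Pool.Agent.Lib.Pa76659G.Gh
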