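import Pool.Agent.Lib.Pa76659G.GhFin1
import Pool.Agent.Lib.Pa76659G.GhM2

set_option autoImplicit false

/-!
`\hat H_2 ⊂ H_2` relative to generic oracles above any base.
-/

namespace Pool.Agent.Lib.Pa76659G.Gh

open Pool.Agent.Lib.Pa76659 Pool.Agent.Lib.Pa76659G
open Pool.Agent.Lib.Pa76659H (High RHighSucc)

theorem rhigh2_high2 (Y : Lang) : ∀ᶠ G in residual Lang,
    RHighSucc (join Y G) 1 ⊂ High (join Y G) 2 := by
  filter_upwards [A2_not_rhigh Y] with G hG
  exact ⟨Pa76659H.rhigh_high, fun h => hG (h (A2_high _))⟩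

end Pool.Agent.Lib.Pa76659G.Gh
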