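import Pool.Agent.Lib.Pa76659G.Cat
import Pool.Agent.Lib.Pa76659G.PHInf
import Pool.Agent.Lib.Pa76659G.Adv
import Pool.Agent.Lib.Pa76659.Limit

set_option autoImplicit false

/-!
Highness relative to a generic oracle: if the set `A G` is high relative to `X = Y ⊕ G` for comeager
many oracles `G`, then it is high relative to `Y ⊕ G0` for some finite `G0`.
-/

namespace Pool.Agent.Lib.Pa76659G.Tr

open Pool.Agent.Lib.Pa76659 Pool.Agent.Lib.Pa76659G Pool.Agent.Lib.Pa76659G.PC

/-! ### clocked machines compute languages of the classes -/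

theorem pEval_mem (p : PIx) (O : Lang) : pEval p O ∈ PO O := by
  refine mem_PO (PolyB.pEval (orc := fun _ : Str => O) p (fun _ => O) (fun x => x) ?_
    (PolyC.var (by simp)))
  exact PolyC.query (PolyC.var (by simp))

theorem nEval_mem (i : NIx) (O : Lang) : nEval i O ∈ NPO O := by
  refine mem_NPO i.2.2 (V := fun q => accepts O i.1 (inp2 q.1 q.2) (i.2.1.eval q.1.length)) ?_ ?_
  · refine PolyB.accepts (orc := fun _ : Str × Str => O) i.1 (fun _ => O) (fun q => q.1)
      (fun q => q.2) (fun q => i.2.1.eval q.1.length) ?_ (PolyC.var (by simp)) (PolyC.var (by simp))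
      ((PolyN.length (PolyC.var (by simp))).poly i.2.1)
    exact PolyC.query (PolyC.var (by simp))
  · intro x
    simp only [nEval, decide_eq_true_eq]

theorem sEval_mem (p : PIx) (O : Lang) : ∀ l : List NIx, sEval p l O ∈ Sig O l.length
  | [] => pEval_mem p O
  | i :: l => ⟨sEval p l O, sEval_mem p O l, nEval_mem i _⟩

/-! ### locality -/

theorem loc_pEval (p : PIx) : Loc (pEval p) := loc_sEval p []

theorem loc_id : Loc (fun G => G) := fun n => ⟨n, fun _ _ h x hx => h x hx⟩

theorem loc_const (Y : Lang) : Loc (fun _ => Y) := fun _ => ⟨0, fun _ _ _ _ _ => rfl⟩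

theorem Loc_join {F F' : Lang → Lang} (h1 : Loc F) (h2 : Loc F') : Loc (fun O => join (F O) (F' O)) := by
  intro n
  obtain ⟨m1, h1⟩ := h1 n
  obtain ⟨m2, h2⟩ := h2 n
  refine ⟨m1 + m2, fun O O' h x hx => ?_⟩
  rcases x with _ | ⟨b, v⟩
  · rfl
  · simp only [List.length_cons] at hx
    cases b
    · exact h1 O O' (fun v hv => h v (by omega)) v (by omega)
    · exact h2 O O' (fun v hv => h v (by omega)) v (by omega)

/-! ### forcing -/

/-- for comeager many `G`: a fixed language computed by a machine with an oracle depending locally on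
`G` is computed for all `G'` in a neighbourhood -/
theorem forced_eq {F : Lang → Lang} (hF : Loc F) (L : Lang) :
    ∀ᶠ G in residual Lang, F G = L → ∃ N, ∀ G' ∈ nb G N, F G' = L := by
  refine forced_of _ ?_
  intro G hG
  have hx : ∃ x, F G x ≠ L x := by
    by_contra hcon
    push Not at hcon
    exact hG (funext hcon)
  obtain ⟨x, hx⟩ := hx
  obtain ⟨m, hm⟩ := hF x.length
  refine ⟨m + 1, fun G' hG' h => hx ?_⟩
  rw [← h]
  exact (hm G' G (fun v hv => hG' v (by omega)) x le_rfl).symm

/-- the oracle below length `N`, zero above -/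
def cut (G : Lang) (N : ℕ) : Lang := fun v => if v.length < N then G v else false

theorem cut_nb (G : Lang) (N : ℕ) : cut G N ∈ nb G N := by
  intro v hv
  simp [cut, hv]

theorem cut_zero (G : Lang) (N : ℕ) (v : Str) (hv : N ≤ v.length) : cut G N v = false := by
  simp [cut, not_lt.2 hv]

/-- Transfer of an inclusion between levels relative to a generic oracle to the base. -/
theorem back_sig (Y H : Lang) {A : Lang → Lang} (hA : Loc A)
    (hfin : ∀ (G : Lang) (N : ℕ), (∀ v : Str, N ≤ v.length → G v = false) → A G ∈ PO (join Y H))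
    (hYH : Y ∈ PO (join Y H)) :
    ∀ᶠ G in residual Lang, ∀ k, Sig (join Y G) (k + 1) ⊆ Sig (join (join Y G) (A G)) k →
      Sig Y (k + 1) ⊆ Sig (join Y H) k := by
  have h : ∀ᶠ G in residual Lang, ∀ (p : PIx) (l : List NIx) (p' : PIx) (l' : List NIx),
      sEval p' l' (join (join Y G) (A G)) = sEval p l Y →
        ∃ N, ∀ G' ∈ nb G N, sEval p' l' (join (join Y G') (A G')) = sEval p l Y := by
    rw [eventually_countable_forall]; intro p
    rw [eventually_countable_forall]; intro l
    rw [eventually_countable_forall]; intro p'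
    rw [eventually_countable_forall]; intro l'
    exact forced_eq ((loc_sEval p' l').comp (Loc_join (Loc_join (loc_const Y) loc_id) hA)) _
  filter_upwards [h] with G hG k hk L hL
  obtain ⟨p, l, hl, rfl⟩ := exists_sEval hL
  obtain ⟨p', l', hl', h1⟩ := exists_sEval (hk (Sig_mono (left_mem Y G) (k + 1) hL))
  obtain ⟨N, hN⟩ := hG p l p' l' h1.symm
  have h2 := hN (cut G N) (cut_nb G N)
  rw [← h2, ← hl']
  have h3 : join (join Y (cut G N)) (A (cut G N)) ∈ PO (join Y H) := by
    refine PO_join ?_ (hfin _ N (cut_zero G N))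
    exact PO_subset hYH (join_finite_mem (cut_zero G N))
  exact Sig_mono h3 _ (sEval_mem p' _ l')

/-- The same for the refined levels. -/
theorem back_del (Y H : Lang) {A : Lang → Lang} (hA : Loc A)
    (hfin : ∀ (G : Lang) (N : ℕ), (∀ v : Str, N ≤ v.length → G v = false) → A G ∈ PO (join Y H))
    (hYH : Y ∈ PO (join Y H)) :
    ∀ᶠ G in residual Lang, ∀ k, DelSucc (join Y G) (k + 1) ⊆ DelSucc (join (join Y G) (A G)) k →
      DelSucc Y (k + 1) ⊆ DelSucc (join Y H) k := by
  have h : ∀ᶠ G in residual Lang, ∀ (q p : PIx) (l : List NIx) (q' p' : PIx) (l' : List NIx),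
      pEval q' (sEval p' l' (join (join Y G) (A G))) = pEval q (sEval p l Y) →
        ∃ N, ∀ G' ∈ nb G N, pEval q' (sEval p' l' (join (join Y G') (A G'))) =
          pEval q (sEval p l Y) := by
    rw [eventually_countable_forall]; intro q
    rw [eventually_countable_forall]; intro p
    rw [eventually_countable_forall]; intro l
    rw [eventually_countable_forall]; intro q'
    rw [eventually_countable_forall]; intro p'
    rw [eventually_countable_forall]; intro l'
    exact forced_eq ((loc_pEval q').comp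
      ((loc_sEval p' l').comp (Loc_join (Loc_join (loc_const Y) loc_id) hA))) _
  filter_upwards [h] with G hG k hk L hL
  obtain ⟨B, hB, hL'⟩ := hL
  obtain ⟨p, l, hl, rfl⟩ := exists_sEval hB
  obtain ⟨q, rfl⟩ := exists_pEval hL'
  obtain ⟨B', hB', hL2⟩ := hk (DelSucc_mono (left_mem Y G) (k + 1) ⟨_, hB, pEval_mem q _⟩)
  obtain ⟨p', l', hl', rfl⟩ := exists_sEval hB'
  obtain ⟨q', h1⟩ := exists_pEval hL2
  obtain ⟨N, hN⟩ := hG q p l q' p' l' h1.symm
  have h2 := hN (cut G N) (cut_nb G N)
  rw [← h2]
  have h3 : join (join Y (cut G N)) (A (cut G N)) ∈ PO (join Y H) := by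
    refine PO_join ?_ (hfin _ N (cut_zero G N))
    exact PO_subset hYH (join_finite_mem (cut_zero G N))
  refine ⟨_, ?_, pEval_mem q' _⟩
  rw [← hl']
  exact Sig_mono h3 _ (sEval_mem p' _ l')

end Pool.Agent.Lib.Pa76659G.Tr
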