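import Pool.Agent.Lib.Pa76659G.UniK
import Pool.Agent.Lib.Pa76659G.TrX

set_option autoImplicit false

/-!
Two sets with masks: `A1` (in `\hat H_2`, not in `H_1` relative to generic oracles) and `A2` (in
`H_2`, not in `\hat H_2` relative to generic oracles). The masks are bits of the second half of the
oracle.
-/

namespace Pool.Agent.Lib.Pa76659G.Gh

open Pool.Agent.Lib.Pa76659 Pool.Agent.Lib.Pa76659G Pool.Agent.Lib.Pa76659G.PC
open Pool.Agent.Lib.Pa76659G.Unv

/-- addresses of the masks of the pair `(z, y)` -/
def adr (z y p : Str) (j : ℕ) : Str := pr (pr (pr z y) p) (on1 j)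

theorem adr_length (z y p : Str) (j : ℕ) : 8 * z.length + 7 ≤ (adr z y p j).length := by
  unfold adr
  rw [PC.pr_length, PC.pr_length, PC.pr_length]
  omega

/-- the pair of an address -/
def mz (v : Str) : Str := fst (fst (fst v.tail))

def my (v : Str) : Str := snd (fst (fst v.tail))

/-- the mask bits -/
def mb (X : Lang) (z y p : Str) (j : ℕ) : Bool := X (true :: false :: adr z y p j)

/-! ### The first set -/

/-- the pair `(z, y)` is masked -/
def kb (X : Lang) (z y : Str) : Bool := mb X z y [] 0

open Classical in
noncomputable def A1 (X : Lang) : Lang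
  | [] => false
  | false :: z => decide (∃ y : Str, VU X (z, y) = true ∧ kb X z y = false)
  | true :: w => decide ((fst w).length ≤ (fst (snd w)).length) &&
      (KU X (fst w) || !(kb X (fst (snd w)) (snd (snd w))))

/-! ### The second set -/

/-- the length of the blocks -/
def cc (n : ℕ) : ℕ := 2 * n + 3

/-- the advice `s` is masked for the pair `(z, y)`: some block of `s` is the forbidden continuation
of the preceding blocks -/
def kill (X : Lang) (s z y : Str) : Bool :=
  decide (∃ i < z.length, ∀ j < cc z.length,
    mb X z y (s.take (i * cc z.length)) j = s.getD (i * cc z.length + j) false)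

open Classical in
noncomputable def A2 (X : Lang) : Lang := fun v =>
  decide ((snd v).length = (fst v).length * cc (fst v).length) &&
    decide (∃ y : Str, VU X (fst v, y) = true ∧ kill X (snd v) (fst v) y = false)

end Pool.Agent.Lib.Pa76659G.Gh
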