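import Pool.Agent.Lib.Pa76659G.TrFin
import Pool.Agent.Lib.Pa76659G.GhFin2

set_option autoImplicit false

/-!
Both hierarchies relative to generic oracles, with the strict inclusions of the high hierarchy which
hold above every base.
-/

namespace Pool.Agent.Lib.Pa76659G.Gh

open Pool.Agent.Lib.Pa76659 Pool.Agent.Lib.Pa76659G
open Pool.Agent.Lib.Pa76659H (High RHighSucc high_rhigh)

/-- Both hierarchies relative to generic oracles above an arbitrary base. -/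
theorem generic_strict (Y : Lang) : ∀ᶠ G in residual Lang, ∀ X, X = join Y G →
    ((∀ k, Sig X k ≠ Sig X (k + 1)) ∧
      Low X 1 ⊂ RLowSucc X 1 ∧ RLowSucc X 1 ⊂ Low X 2 ∧ Low X 2 ⊂ RLowSucc X 2 ∧
      RLowSucc X 2 ⊂ Low X 3 ∧
      (∀ k, 3 ≤ k → Low X k = RLowSucc X k ∧ RLowSucc X k = Low X (k + 1)) ∧
      Low X 1 = {A | A ∈ NPO X ∧ (fun x => !(A x)) ∈ NPO X} ∧
      RLowSucc X 1 = {A | A ∈ NPO X ∧ (fun x => !(A x)) ∈ NPAdv X 1} ∧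
      Low X 2 = {A | A ∈ NPO X ∧ (fun x => !(A x)) ∈ NPChk X} ∧
      Low X 3 = {A | A ∈ NPO X ∧ (fun x => !(A x)) ∈ NPPoly X}) ∧
    (RHighSucc X 0 ⊂ High X 1 ∧ High X 1 ⊂ RHighSucc X 1 ∧ RHighSucc X 1 ⊂ High X 2) ∧
    (RLowSucc Y 0 ⊂ Low Y 1 → RLowSucc X 0 ⊂ Low X 1) ∧
    (∀ k, High Y k ⊂ RHighSucc Y k → High X k ⊂ RHighSucc X k) ∧
    ∀ k, RHighSucc Y k ⊂ High Y (k + 1) → RHighSucc X k ⊂ High X (k + 1) := by
  filter_upwards [Tr.generic_both Tr.gate_AG Y, high1_rhigh2 Y, rhigh2_high2 Y] with G h1 h2 h3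
  rintro X rfl
  obtain ⟨c1, c2, c3, c4, c5⟩ := h1 _ rfl
  exact ⟨c1, ⟨c3, h2, h3⟩, c2, c4, c5⟩

end Pool.Agent.Lib.Pa76659G.Gh
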