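import Pool.Agent.Lib.Pa76659G.Search
import Pool.Agent.Lib.Pa76659G.Exc

set_option autoImplicit false

/-!
The semantic core of the exact description of `\hat L_2`: tables written by a rule, supported answer
strings, tests.
-/

namespace Pool.Agent.Lib.Pa76659G

open Pool.Agent.Lib.Pa76659 PC

/-! ### the hard language -/

/-- the string stored in the second half of the oracle `O = join (join Y G) A` at the position `y` of
the table with the name `z`: the bits `G (pr 1^b (pr z y))`, `b < |fst z|` -/
def entD (O : Lang) (z y : Str) : Str :=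
  (List.range (fst z).length).map (fun b => O (false :: true :: pr (on1 b) (pr z y)))

open Classical in
/-- some entry of the table `z` is not in `A` (`O = join (join Y G) A`) -/
noncomputable def EL (O : Lang) : Lang := fun z =>
  decide (∃ y : Str, y.length = (snd z).length ∧ O (true :: entD O z y) = false)

theorem EL_iff {O : Lang} {z : Str} : EL O z = true ↔
    ∃ y : Str, y.length = (snd z).length ∧ O (true :: entD O z y) = false := by
  simp only [EL, decide_eq_true_eq]

theorem EL_mem (O : Lang) : EL O ∈ NPO O := by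
  have hz : PolyC (fun _ : Str × Str => O) (fun _ => True) [fun p => p.1, fun p => p.2]
    (fun p => p.1) := PolyC.var (by simp)
  have hy : PolyC (fun _ : Str × Str => O) (fun _ => True) [fun p => p.1, fun p => p.2]
    (fun p => p.2) := PolyC.var (by simp)
  have e1 := PolyB.natEq (PolyN.length hy) (PolyN.length (PolyC.snd hz))
  have e2 : PolyC (fun _ : Str × Str => O) (fun _ => True) [fun p => p.1, fun p => p.2]
      (fun p => entD O p.1 p.2) := by
    refine PolyC.map_range (PolyN.length (PolyC.fst hz)) (φ := fun p : (Str × Str) × ℕ =>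
      O (false :: true :: pr (on1 p.2) (pr p.1.1 p.1.2))) ?_
    refine PolyC.query (PolyC.cons _ (PolyC.cons _ (PolyC.pr (PolyC.var (by simp [on1_eq]))
      (PolyC.pr ?_ ?_))))
    · exact (PolyC.lift hz (fun p hp => hp.1)).weakenRight _
    · exact (PolyC.lift hy (fun p hp => hp.1)).weakenRight _
  have e3 : PolyB (fun _ : Str × Str => O) (fun _ => True) [fun p => p.1, fun p => p.2]
      (fun p => O (true :: entD O p.1 p.2)) := PolyC.query (PolyC.cons true e2)
  refine mem_NPO_le Polynomial.X (e1.and e3.not) (fun z => ?_)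
  rw [EL_iff, Polynomial.eval_X]
  simp only [Bool.and_eq_true, decide_eq_true_eq, Bool.not_eq_true']
  constructor
  · rintro ⟨y, h1, h2⟩
    exact ⟨y, by rw [h1]; exact snd_length_le z, h1, h2⟩
  · rintro ⟨y, -, h1, h2⟩
    exact ⟨y, h1, h2⟩

/-- the oracle `G` with the table `S` written under the name `z` -/
def pD (z : Str) (S : Str → Str) (G : Lang) : Lang := fun v =>
  if fst (snd v) = z ∧ (snd (snd v)).length = (snd z).length then
    (S (snd (snd v))).getD (fst v).length false
  else G v

/-- names of tables -/
def zz (n m : ℕ) : Str := pr (on1 n) (on1 m)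

theorem zz_fst (n m : ℕ) : (fst (zz n m)).length = n := by
  rw [zz, fst_pr, on1_eq, PC.un_length]

theorem zz_snd (n m : ℕ) : (snd (zz n m)).length = m := by
  rw [zz, snd_pr, on1_eq, PC.un_length]

theorem zz_length (n m : ℕ) : (zz n m).length = 2 * n + 1 + m := by
  rw [zz, pr_length, on1_eq, on1_eq, PC.un_length, PC.un_length]

theorem pD_short {z : Str} {S : Str → Str} {G : Lang} {v : Str} (h : v.length < (snd z).length) :
    pD z S G v = G v := by
  unfold pD
  rw [if_neg]
  rintro ⟨-, h2⟩
  have h3 := snd_length_le v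
  have h4 := snd_length_le (snd v)
  omega

theorem pD_congr {z : Str} {S S' : Str → Str} {G : Lang} {v : Str}
    (h : S (snd (snd v)) = S' (snd (snd v))) : pD z S G v = pD z S' G v := by
  unfold pD
  rw [h]

theorem entD_pD {Y G A' : Lang} {n m : ℕ} {S : Str → Str} {y : Str} (hy : y.length = m)
    (hS : (S y).length = n) :
    entD (join (join Y (pD (zz n m) S G)) A') (zz n m) y = S y := by
  apply List.ext_getElem
  · rw [entD, List.length_map, List.length_range, zz_fst, hS]
  · intro b h1 h2
    simp only [entD, List.getElem_map, List.getElem_range]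
    show pD (zz n m) S G (pr (on1 b) (pr (zz n m) y)) = _
    unfold pD
    rw [snd_pr, fst_pr, snd_pr, fst_pr, if_pos ⟨rfl, by rw [zz_snd, hy]⟩, on1_eq, PC.un_length,
      List.getD_eq_getElem _ _ h2]

/-! ### supported answers -/

/-- all answers `true` are right -/
def Sup (B : Lang) (M : Prog) (z : Str) (N : ℕ) (c : Str) : Prop :=
  ∀ k < N, c.getD k false = true → ∃ q, qry (cf M z [] c k) = some q ∧ B q = true

/-- some answer `false` is wrong -/
def Tst (B : Lang) (M : Prog) (z : Str) (N : ℕ) (c : Str) : Prop :=
  ∃ k < N, c.getD k false = false ∧ ∃ q, qry (cf M z [] c k) = some q ∧ B q = true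

/-- the right answers -/
def rta (B : Lang) (M : Prog) (z : Str) (N : ℕ) : Str := trueAns B ([M], inp2 z []) N

theorem rta_true {B : Lang} {M : Prog} {z : Str} {N k : ℕ} (hk : k < N)
    (h : (rta B M z N).getD k false = true) :
    ∃ q, qry (runN B k ([M], inp2 z [])) = some q ∧ B q = true := by
  rw [rta, trueAns, List.getD_eq_getElem _ _ (by simpa using hk)] at h
  simp only [List.getElem_map, List.getElem_range] at h
  rcases hq : qry (runN B k ([M], inp2 z [])) with _ | q
  · rw [hq] at h
    exact absurd h (by simp)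
  · rw [hq] at h
    exact ⟨q, rfl, h⟩

theorem cf_run {B : Lang} {M : Prog} {z : Str} {N : ℕ} {c : Str} : ∀ {k : ℕ}, k ≤ N →
    (∀ j < k, c.getD j false = (rta B M z N).getD j false) →
      cf M z [] c k = runN B k ([M], inp2 z [])
  | 0, _, _ => rfl
  | k + 1, hk, h => by
      refine runT_eq (fun j hj q hq => ?_)
      have h1 : cf M z [] c j = runN B j ([M], inp2 z []) := cf_run (by omega) (fun i hi => h i (by omega))
      rw [h j hj, rta]
      refine trueAns_get B ([M], inp2 z []) (by omega) ?_
      rw [← h1]
      exact hq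

/-- supported answers are right or smaller than the right answers -/
theorem sup_cases {B : Lang} {M : Prog} {z : Str} {N : ℕ} {c : Str} (h : Sup B M z N c) :
    (∀ k < N, c.getD k false = (rta B M z N).getD k false) ∨
      (lexLt c (rta B M z N) ∧ Tst B M z N c) := by
  by_cases h1 : ∀ k < N, c.getD k false = (rta B M z N).getD k false
  · exact Or.inl h1
  · right
    push Not at h1
    classical
    have h2 := Nat.find_spec h1
    set k := Nat.find h1 with hk
    have h3 : ∀ j < k, c.getD j false = (rta B M z N).getD j false := by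
      intro j hj
      by_contra h4
      exact Nat.find_min h1 hj ⟨by omega, h4⟩
    obtain ⟨h4, h5⟩ := h2
    have h6 : cf M z [] c k = runN B k ([M], inp2 z []) := cf_run h4.le h3
    have h7 : c.getD k false = false := by
      by_contra h8
      rw [Bool.not_eq_false] at h8
      obtain ⟨q, hq, hB⟩ := h k h4 h8
      rw [h6] at hq
      have h9 := trueAns_get B ([M], inp2 z []) h4 hq
      apply h5
      rw [h8, rta, h9, hB]
    have h8 : (rta B M z N).getD k false = true := by
      rw [h7] at h5
      rcases h9 : (rta B M z N).getD k false with _ | _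
      · exact absurd h9.symm h5
      · rfl
    obtain ⟨q, hq, hB⟩ := rta_true h4 h8
    exact ⟨⟨k, h3, h7, h8⟩, ⟨k, h4, h7, q, by rw [h6]; exact hq, hB⟩⟩

theorem not_tst {B : Lang} {M : Prog} {z : Str} {N : ℕ} {c : Str}
    (h : ∀ k < N, c.getD k false = (rta B M z N).getD k false) : ¬ Tst B M z N c := by
  rintro ⟨k, hk, h1, q, hq, hB⟩
  have h6 : cf M z [] c k = runN B k ([M], inp2 z []) := cf_run hk.le (fun j hj => h j (by omega))
  rw [h6] at hq
  have h9 := trueAns_get B ([M], inp2 z []) hk hq
  rw [h k hk, rta, h9, hB] at h1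
  exact absurd h1 (by simp)

theorem qry_length {M : Prog} {z c : Str} {k : ℕ} {q : Str} (h : qry (cf M z [] c k) = some q) :
    q.length ≤ z.length + k := by
  have := qry_bdd (cf_bdd M z [] c k) h
  simpa using this

/-! ### the semantic core -/

/-- the oracle of the nondeterministic machine with the table `S` -/
noncomputable def Bf (Y G : Lang) (p : PIx) (i : NIx) (z : Str) (S : Str → Str) : Lang :=
  nEval i (pEval p (join Y (pD z S G)))

/-- tables with all entries in `A` -/
def Tb (A : Lang) (n m : ℕ) (S : Str → Str) : Prop :=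
  ∀ y : Str, y.length = m → (S y).length = n ∧ A (S y) = true

/-- certificates have at most `t` queries -/
def CB (p : PIx) (i : NIx) (s t : ℕ) : Prop := ∀ q : Str, q.length ≤ s → ∀ O : Lang,
  nEval i (pEval p O) q = true → ∃ Q : List Str, Q.length ≤ t ∧
    ∀ O' : Lang, (∀ v ∈ Q, O' v = O v) → nEval i (pEval p O') q = true

/-- the machine is right for all tables -/
def RightT (Y G A : Lang) (p : PIx) (i : NIx) (p2 : PIx) (n m : ℕ) : Prop :=
  ∀ S : Str → Str, (∀ y : Str, y.length = m → (S y).length = n) →
    (pEval p2 (Bf Y G p i (zz n m) S) (zz n m) = true ↔ ∃ y : Str, y.length = m ∧ A (S y) = false)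

/-- support depends on few entries -/
theorem sup_few {Y G : Lang} {p : PIx} {i : NIx} {z : Str} {S : Str → Str} {M : Prog} {N t : ℕ}
    {c : Str} (ht : CB p i (z.length + N) t) (h : Sup (Bf Y G p i z S) M z N c) :
    ∃ Q : List Str, Q.length ≤ N * t ∧ ∀ S' : Str → Str, (∀ y ∈ Q, S' y = S y) →
      Sup (Bf Y G p i z S') M z N c := by
  have h1 : ∀ k, ∃ Q : List Str, Q.length ≤ t ∧ (k < N → c.getD k false = true →
      ∃ q, qry (cf M z [] c k) = some q ∧ ∀ O' : Lang,
        (∀ v ∈ Q, O' v = join Y (pD z S G) v) → nEval i (pEval p O') q = true) := by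
    intro k
    by_cases hk : k < N ∧ c.getD k false = true
    · obtain ⟨q, hq, hB⟩ := h k hk.1 hk.2
      obtain ⟨Q, hQ1, hQ2⟩ := ht q (by have := qry_length hq; omega) _ hB
      exact ⟨Q, hQ1, fun _ _ => ⟨q, hq, hQ2⟩⟩
    · exact ⟨[], by simp, fun h2 h3 => absurd ⟨h2, h3⟩ hk⟩
  choose Q hQ1 hQ2 using h1
  refine ⟨(List.range N).flatMap (fun k => (Q k).map (fun v => snd (snd v.tail))), ?_, ?_⟩
  · have h2 : ∀ K : ℕ, ((List.range K).flatMap (fun k => (Q k).map (fun v => snd (snd v.tail)))).length
        ≤ K * t := by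
      intro K
      induction K with
      | zero => simp
      | succ K ih =>
        rw [List.range_succ, List.flatMap_append, List.length_append, Nat.succ_mul]
        simp only [List.flatMap_cons, List.flatMap_nil, List.append_nil, List.length_map]
        have := hQ1 K
        omega
    exact h2 N
  · intro S' hS' k hk hck
    obtain ⟨q, hq, hB⟩ := hQ2 k hk hck
    refine ⟨q, hq, hB _ ?_⟩
    intro v hv
    rcases v with _ | ⟨b, v⟩
    · rfl
    · cases b
      · rfl
      · refine pD_congr (hS' _ ?_)
        rw [List.mem_flatMap]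
        exact ⟨k, List.mem_range.2 hk, List.mem_map.2 ⟨_, hv, rfl⟩⟩

theorem pEval_top {B : Lang} {p2 : PIx} {z c : Str}
    (h : ∀ k < p2.2.eval z.length, c.getD k false = (rta B p2.1 z (p2.2.eval z.length)).getD k false) :
    pEval p2 B z = top (cf p2.1 z [] c (p2.2.eval z.length)) := by
  rw [cf_run le_rfl h]
  unfold pEval
  rw [inp_eq]
  rfl

/-- the semantic core: at most `N t` positions are bad, at the other positions the test is right -/
theorem core_pos {Y G A : Lang} {p : PIx} {i : NIx} {p2 : PIx} {n m t : ℕ} {c : Str} {S : Str → Str}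
    (hR : RightT Y G A p i p2 n m)
    (ht : CB p i ((zz n m).length + p2.2.eval (zz n m).length) t)
    (hS : Tb A n m S)
    (hsup : Sup (Bf Y G p i (zz n m) S) p2.1 (zz n m) (p2.2.eval (zz n m).length) c)
    (hmax : ∀ S', Tb A n m S' →
      ¬ lexLt c (rta (Bf Y G p i (zz n m) S') p2.1 (zz n m) (p2.2.eval (zz n m).length))) :
    ∃ Q : List Str, Q.length ≤ p2.2.eval (zz n m).length * t ∧
      ∀ x : Str, x.length = n → ∀ y : Str, y.length = m → y ∉ Q →
        (Tst (Bf Y G p i (zz n m) (Function.update S y x)) p2.1 (zz n m)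
          (p2.2.eval (zz n m).length) c ↔ A x = false) := by
  classical
  set z := zz n m with hz
  set N := p2.2.eval z.length with hN
  obtain ⟨Q, hQ1, hQ2⟩ := sup_few ht hsup
  refine ⟨Q, hQ1, fun x hx y hy hyQ => ?_⟩
  set S' := Function.update S y x with hS'
  have hsup' : Sup (Bf Y G p i z S') p2.1 z N c := by
    refine hQ2 S' (fun y' hy' => ?_)
    rw [hS', Function.update_of_ne]
    rintro rfl
    exact hyQ hy'
  rcases hAx : A x with _ | _
  · simp only [iff_true]
    rcases sup_cases hsup' with h1 | h1
    · exfalso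
      have h2 := pEval_top h1
      have h3 : pEval p2 (Bf Y G p i z S) z = top (cf p2.1 z [] c N) := by
        refine pEval_top ?_
        rcases sup_cases hsup with h4 | h4
        · exact h4
        · exact absurd h4.1 (hmax S hS)
      have h4 : pEval p2 (Bf Y G p i z S') z = true := by
        rw [hR S' (fun y' hy' => ?_)]
        · exact ⟨y, hy, by rw [hS', Function.update_self]; exact hAx⟩
        · by_cases hyy : y' = y
          · rw [hyy, hS', Function.update_self, hx]
          · rw [hS', Function.update_of_ne hyy]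
            exact (hS y' hy').1
      have h5 : ¬ pEval p2 (Bf Y G p i z S) z = true := by
        rw [hR S (fun y' hy' => (hS y' hy').1)]
        rintro ⟨y', h6, h7⟩
        rw [(hS y' h6).2] at h7
        exact absurd h7 (by simp)
      rw [h3, ← h2] at h5
      exact h5 h4
    · exact h1.2
  · simp only [Bool.true_eq_false, iff_false]
    have hTb : Tb A n m S' := by
      intro y' hy'
      by_cases hyy : y' = y
      · rw [hyy, hS', Function.update_self]
        exact ⟨hx, hAx⟩
      · rw [hS', Function.update_of_ne hyy]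
        exact hS y' hy'
    rcases sup_cases hsup' with h1 | h1
    · exact not_tst h1
    · exact absurd h1.1 (hmax S' hTb)

theorem exists_list_not_mem (n K : ℕ) (Q : List Str) (h : Q.length + K ≤ 2 ^ n) :
    ∃ L : List Str, L.length = K ∧ L.Nodup ∧ ∀ y ∈ L, y.length = n ∧ y ∉ Q := by
  classical
  set F : Finset Str := Finset.image (fun v : List.Vector Bool n => v.1) Finset.univ with hF
  have h4 : F.card = 2 ^ n := by
    rw [hF, Finset.card_image_of_injective (Finset.univ : Finset (List.Vector Bool n))
      (f := fun v => v.1) (fun a b h => Subtype.ext h), Finset.card_univ, card_vector,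
      Fintype.card_bool]
  have h5 : K ≤ (F \ Q.toFinset).card := by
    have h6 := Finset.le_card_sdiff Q.toFinset F
    have h7 := List.toFinset_card_le Q
    omega
  obtain ⟨T, hT1, hT2⟩ := Finset.exists_subset_card_eq h5
  refine ⟨T.toList, by rw [Finset.length_toList, hT2], T.nodup_toList, fun y hy => ?_⟩
  have h8 := hT1 (Finset.mem_toList.1 hy)
  rw [Finset.mem_sdiff, hF, Finset.mem_image] at h8
  obtain ⟨⟨v, -, rfl⟩, h9⟩ := h8
  exact ⟨v.2, fun h10 => h9 (List.mem_toFinset.2 h10)⟩

/-- the threshold form -/
theorem core_thr {Y G A : Lang} {p : PIx} {i : NIx} {p2 : PIx} {n m t K : ℕ} {c : Str}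
    {S : Str → Str} (hR : RightT Y G A p i p2 n m)
    (ht : CB p i ((zz n m).length + p2.2.eval (zz n m).length) t)
    (hK : p2.2.eval (zz n m).length * t < K) (hK2 : 2 * K ≤ 2 ^ m)
    (hS : Tb A n m S)
    (hsup : Sup (Bf Y G p i (zz n m) S) p2.1 (zz n m) (p2.2.eval (zz n m).length) c)
    (hmax : ∀ S', Tb A n m S' →
      ¬ lexLt c (rta (Bf Y G p i (zz n m) S') p2.1 (zz n m) (p2.2.eval (zz n m).length)))
    (x : Str) (hx : x.length = n) :
    A x = false ↔ ∃ L : List Str, L.length = K ∧ L.Nodup ∧ ∀ y ∈ L, y.length = m ∧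
      Tst (Bf Y G p i (zz n m) (Function.update S y x)) p2.1 (zz n m)
        (p2.2.eval (zz n m).length) c := by
  obtain ⟨Q, hQ1, hQ2⟩ := core_pos hR ht hS hsup hmax
  constructor
  · intro hA
    obtain ⟨L, hL1, hL2, hL3⟩ := exists_list_not_mem m K Q (by omega)
    exact ⟨L, hL1, hL2, fun y hy => ⟨(hL3 y hy).1,
      (hQ2 x hx y (hL3 y hy).1 (hL3 y hy).2).2 hA⟩⟩
  · rintro ⟨L, hL1, hL2, hL3⟩
    obtain ⟨y, hy1, hy2⟩ : ∃ y ∈ L, y ∉ Q := by
      by_contra hcon
      push Not at hcon
      classical
      have h1 : L.toFinset ⊆ Q.toFinset := by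
        intro y hy
        rw [List.mem_toFinset] at hy ⊢
        exact hcon y hy
      have h2 := Finset.card_le_card h1
      rw [List.toFinset_card_of_nodup hL2] at h2
      have h3 := List.toFinset_card_le Q
      omega
    exact (hQ2 x hx y (hL3 y hy1).1 hy2).1 (hL3 y hy1).2

end Pool.Agent.Lib.Pa76659G
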