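import Pool.Agent.Lib.Pa76659G.H2a

set_option autoImplicit false

/-!
The program side of the exact description of `\hat L_2`: coded tables, claims, tests.
-/

namespace Pool.Agent.Lib.Pa76659G.PC

open Pool.Agent.Lib.Pa76659 (Str Lang Prog Cfg step runN Exec PO NPO inp inp2 Halts accepts Bdd Sig
  join PIx NIx pEval nEval)

variable {α : Type}

/-- value of the coded table (default value, association list) -/
def val (T y : Str) : Str := (look (ra (snd T)) y).getD (fst T)

/-- the table of the first components of the values -/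
def tbl (T : Str) : Str → Str := fun y => fst (val T y)

theorem PolyC.val {O : Lang} {D : α → Prop} {ctx : List (α → Str)} {T y : α → Str}
    (hT : PolyC (fun _ => O) D ctx T) (hy : PolyC (fun _ => O) D ctx y) :
    PolyC (fun _ => O) D ctx (fun a => PC.val (T a) (y a)) := by
  have h1 := PolyC.look (fun a => Pa76659G.snd (T a)) y (PolyC.snd hT) hy
  have h2 : PolyC (fun _ : α => O) D ctx (fun a =>
      if (oc (Pa76659G.look (ra (Pa76659G.snd (T a))) (y a))).isEmpty = true
      then Pa76659G.fst (T a) else (oc (Pa76659G.look (ra (Pa76659G.snd (T a))) (y a))).tail) :=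
    PolyC.ite (PolyB.isNil h1) (PolyC.mono (PolyC.fst hT) fun _ h => h.1)
      (PolyC.mono h1.tail fun _ h => h.1)
  refine h2.congr ?_
  intro a _
  unfold PC.val
  generalize Pa76659G.look (ra (Pa76659G.snd (T a))) (y a) = o
  rcases o with _ | e
  · rfl
  · rfl

/-- The oracle with a coded table. -/
theorem PolyB.patchD {Y G : Lang} {D : α → Prop} {ctx : List (α → Str)} (z T v : α → Str)
    (hz : PolyC (fun _ => join Y G) D ctx z) (hT : PolyC (fun _ => join Y G) D ctx T)
    (hv : PolyC (fun _ => join Y G) D ctx v) :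
    PolyB (fun _ => join Y G) D ctx (fun a => join Y (pD (z a) (tbl (T a)) G) (v a)) := by
  have ht := hv.tail
  have h1 : PolyB (fun _ : α => join Y G) D ctx (fun a => Y (v a).tail) := by
    have : PolyC (fun _ : α => join Y G) D ctx (fun a => [join Y G (false :: (v a).tail)]) :=
      PolyC.query (PolyC.cons false ht)
    exact this
  have h2 : PolyB (fun _ : α => join Y G) D ctx (fun a => G (v a).tail) := by
    have : PolyC (fun _ : α => join Y G) D ctx (fun a => [join Y G (true :: (v a).tail)]) :=
      PolyC.query (PolyC.cons true ht)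
    exact this
  have hs := PolyC.snd (PolyC.snd ht)
  have h4 := (PolyB.strEq (PolyC.fst (PolyC.snd ht)) hz).and
    (PolyB.natEq (PolyN.length hs) (PolyN.length (PolyC.snd hz)))
  have h5 := PolyB.getD (PolyC.fst (PolyC.val hT hs)) (PolyN.length (PolyC.fst ht))
  have h3 : PolyB (fun _ : α => join Y G) D ctx (fun a => pD (z a) (tbl (T a)) G (v a).tail) := by
    refine (PolyB.ite h4 (PolyC.mono h5 fun _ h => h.1) (PolyC.mono h2 fun _ h => h.1)).congr ?_
    intro a _
    unfold pD
    by_cases h6 : fst (snd (v a).tail) = z a ∧ (snd (snd (v a).tail)).length = (snd (z a)).length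
    · rw [if_pos h6, if_pos (by simp only [h6.1, h6.2, decide_true, Bool.and_true])]
      rfl
    · rw [if_neg h6, if_neg (by
        simp only [Bool.and_eq_true, decide_eq_true_eq]
        exact h6)]
  refine PolyC.congr (PolyC.cases hv (u0 := fun _ => [false]) (u1 := fun a => [Y (v a).tail])
    (u2 := fun a => [pD (z a) (tbl (T a)) G (v a).tail]) (PolyC.const _)
    (PolyC.mono h1 fun _ h => h.1) (PolyC.mono h3 fun _ h => h.1)) ?_
  intro a _
  show _ = [join Y (pD (z a) (tbl (T a)) G) (v a)]
  rcases v a with _ | ⟨b, w⟩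
  · rfl
  · cases b <;> rfl

/-- Nested machines with the oracle with a coded table. -/
theorem PolyB.accD {Y G : Lang} {D : α → Prop} {ctx : List (α → Str)} (p : PIx) (i : NIx)
    (z T u y : α → Str)
    (hz : PolyC (fun _ => join Y G) D ctx z) (hT : PolyC (fun _ => join Y G) D ctx T)
    (hu : PolyC (fun _ => join Y G) D ctx u) (hy : PolyC (fun _ => join Y G) D ctx y) :
    PolyB (fun _ => join Y G) D ctx
      (fun a => Pa76659G.acc p i (join Y (pD (z a) (tbl (T a)) G)) (u a) (y a)) := by
  refine PolyB.accepts i.1 (fun a => Pa76659.pEval p (join Y (pD (z a) (tbl (T a)) G))) u y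
    (fun a => i.2.1.eval (u a).length) ?_ hu hy ((PolyN.length hu).poly _)
  have hz1 : PolyC (fun _ : α × Str => join Y G) (fun p => D p.1) (PC.lift ctx ++ [fun p => p.2])
      (fun p => z p.1) := (hz.lift (fun p hp => hp)).weakenRight _
  have hT1 : PolyC (fun _ : α × Str => join Y G) (fun p => D p.1) (PC.lift ctx ++ [fun p => p.2])
      (fun p => T p.1) := (hT.lift (fun p hp => hp)).weakenRight _
  refine PolyB.pEval (orc := fun _ : α × Str => join Y G) p
    (fun q => join Y (pD (z q.1) (tbl (T q.1)) G)) (fun q => q.2) ?_ (PolyC.var (by simp))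
  have hz2 : PolyC (fun _ : (α × Str) × Str => join Y G) (fun p => D p.1.1)
      (PC.lift (PC.lift ctx ++ [fun p => p.2]) ++ [fun p => p.2]) (fun p => z p.1.1) :=
    (hz1.lift (fun p hp => hp)).weakenRight _
  have hT2 : PolyC (fun _ : (α × Str) × Str => join Y G) (fun p => D p.1.1)
      (PC.lift (PC.lift ctx ++ [fun p => p.2]) ++ [fun p => p.2]) (fun p => T p.1.1) :=
    (hT1.lift (fun p hp => hp)).weakenRight _
  exact PolyB.patchD (fun q : (α × Str) × Str => z q.1.1) (fun q => T q.1.1) (fun q => q.2) hz2 hT2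
    (PolyC.var (by simp))

/-! ### claims -/

/-- parameters: machines, table size, verifier of `A` -/
structure Par where
  p : PIx
  i : NIx
  p2 : PIx
  m : Polynomial ℕ
  K : Polynomial ℕ
  VA : Str × Str → Bool
  qA : Polynomial ℕ

namespace Par

variable (P : Par) (Y G : Lang)

/-- name of the table for the length of `x` -/
noncomputable def z (x : Str) : Str := zz x.length (P.m.eval x.length)

/-- time bound -/
noncomputable def N (x : Str) : ℕ := P.p2.2.eval (P.z x).length

/-- a string of length `|x|` with a witness for `A` -/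
noncomputable def okv (x e : Str) : Bool :=
  decide ((fst e).length = x.length) && (decide ((snd e).length = P.qA.eval x.length) &&
    P.VA (fst e, snd e))

/-- all values of the coded table are in `A` -/
noncomputable def okT (x T : Str) : Bool :=
  P.okv x (fst T) && decide (∀ k < llen (snd T), P.okv x (snd (nth (snd T) k)) = true)

/-- the `k`-th query of the run with the answers `c` is accepted with the table `T`, witness `w` -/
noncomputable def anc (x c T w : Str) (k : ℕ) : Bool :=
  !((oc (qry (cf P.p2.1 (P.z x) [] c k))).isEmpty) &&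
    (decide (w.length = P.i.2.2.eval (oc (qry (cf P.p2.1 (P.z x) [] c k))).tail.length) &&
      Pa76659G.acc P.p P.i (join Y (pD (P.z x) (tbl T) G))
        (oc (qry (cf P.p2.1 (P.z x) [] c k))).tail w)

/-- the table of the claim -/
noncomputable def tab (x c : Str) : Str := fst (c.drop (P.N x))

/-- claims: answers, table, witnesses for the positive answers -/
noncomputable def claim (x c : Str) : Bool :=
  P.okT x (P.tab x c) && decide (∀ k < P.N x,
    (!(c.getD k false) || P.anc Y G x c (P.tab x c) (nth (fst (snd (c.drop (P.N x)))) k) k) = true)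

/-- the coded table with one more entry -/
def up (T y x : Str) : Str := Pa76659G.pr (fst T) (Pa76659G.pr (Pa76659G.pr y (Pa76659G.pr x [])) (snd T))

/-- one test: `e` is a position, the number of a query and a witness -/
noncomputable def one (x c e : Str) : Bool :=
  decide ((fst e).length = P.m.eval x.length) && (decide ((fst (snd e)).length < P.N x) &&
    (!(c.getD (fst (snd e)).length false) &&
      P.anc Y G x c (up (P.tab x c) (fst e) x) (snd (snd e)) (fst (snd e)).length))

/-- many tests at different positions -/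
noncomputable def many (x c W : Str) : Bool :=
  decide (∀ j < P.K.eval x.length, (P.one Y G x c (nth W j) &&
    decide (∀ j' < j, (!(decide (fst (nth W j') = fst (nth W j)))) = true)) = true)

end Par

section prog

variable {P : Par} {Y G : Lang} {D : α → Prop} {ctx : List (α → Str)}

theorem PolyC.zP {x : α → Str} (hx : PolyC (fun _ => join Y G) D ctx x) :
    PolyC (fun _ => join Y G) D ctx (fun a => P.z (x a)) := by
  have h1 : PolyC (fun _ : α => join Y G) D ctx (fun a => Pa76659G.pr (una (x a).length)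
      (una (P.m.eval (x a).length))) := PolyC.pr (PolyN.length hx) ((PolyN.length hx).poly P.m)
  exact h1

theorem PolyN.NP {x : α → Str} (hx : PolyC (fun _ => join Y G) D ctx x) :
    PolyN (fun _ => join Y G) D ctx (fun a => P.N (x a)) :=
  (PolyN.length (PolyC.zP (P := P) hx)).poly P.p2.2

theorem PolyB.okv (hVA : PolyB (fun _ : Str × Str => join Y G) (fun _ => True)
      [fun p => p.1, fun p => p.2] P.VA) {x e : α → Str}
    (hx : PolyC (fun _ => join Y G) D ctx x) (he : PolyC (fun _ => join Y G) D ctx e) :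
    PolyB (fun _ => join Y G) D ctx (fun a => P.okv (x a) (e a)) :=
  (PolyB.natEq (PolyN.length (PolyC.fst he)) (PolyN.length hx)).and
    ((PolyB.natEq (PolyN.length (PolyC.snd he)) ((PolyN.length hx).poly P.qA)).and
      (PolyB.arg2 hVA (PolyC.fst he) (PolyC.snd he)))

theorem PolyB.okT (hVA : PolyB (fun _ : Str × Str => join Y G) (fun _ => True)
      [fun p => p.1, fun p => p.2] P.VA) {x T : α → Str}
    (hx : PolyC (fun _ => join Y G) D ctx x) (hT : PolyC (fun _ => join Y G) D ctx T) :
    PolyB (fun _ => join Y G) D ctx (fun a => P.okT (x a) (T a)) := by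
  refine (PolyB.okv hVA hx (PolyC.fst hT)).and ?_
  refine PolyB.forall_lt (φ := fun q : α × ℕ => P.okv (x q.1)
    (Pa76659G.snd (PC.nth (Pa76659G.snd (T q.1)) q.2))) (PolyN.llen (PolyC.snd hT)) ?_
  refine PolyB.okv hVA ((hx.lift (fun p hp => hp.1)).weakenRight _) ?_
  exact PolyC.snd (PolyC.nth (((PolyC.snd hT).lift (fun p hp => hp.1)).weakenRight _)
    (PolyC.var (by simp)))

theorem PolyB.anc {x c T w : α → Str} {k : α → ℕ}
    (hx : PolyC (fun _ => join Y G) D ctx x) (hc : PolyC (fun _ => join Y G) D ctx c)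
    (hT : PolyC (fun _ => join Y G) D ctx T) (hw : PolyC (fun _ => join Y G) D ctx w)
    (hk : PolyN (fun _ => join Y G) D ctx k) :
    PolyB (fun _ => join Y G) D ctx (fun a => P.anc Y G (x a) (c a) (T a) (w a) (k a)) := by
  have hz := PolyC.zP (P := P) hx
  have h1 := PolyC.cf P.p2.1 hz (PolyC.nil (orc := fun _ : α => join Y G) (D := D) (ctx := ctx)) hc hk
  have h2 := PolyC.qry' P.p2.1 (fun a => PC.cf P.p2.1 (P.z (x a)) [] (c a) (k a)) h1
    (fun a _ => cf_KK _ _ _ _ _)
  exact (PolyB.isNil h2).not.and ((PolyB.natEq (PolyN.length hw)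
    ((PolyN.length h2.tail).poly P.i.2.2)).and (PolyB.accD P.p P.i _ _ _ _ hz hT h2.tail hw))

theorem PolyC.tabP {x c : α → Str}
    (hx : PolyC (fun _ => join Y G) D ctx x) (hc : PolyC (fun _ => join Y G) D ctx c) :
    PolyC (fun _ => join Y G) D ctx (fun a => P.tab (x a) (c a)) :=
  PolyC.fst (PolyC.drop hc (PolyN.NP (P := P) hx))

theorem PolyB.claim (hVA : PolyB (fun _ : Str × Str => join Y G) (fun _ => True)
      [fun p => p.1, fun p => p.2] P.VA) {x c : α → Str}
    (hx : PolyC (fun _ => join Y G) D ctx x) (hc : PolyC (fun _ => join Y G) D ctx c) :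
    PolyB (fun _ => join Y G) D ctx (fun a => P.claim Y G (x a) (c a)) := by
  have hN := PolyN.NP (P := P) hx
  refine (PolyB.okT hVA hx (PolyC.tabP (P := P) hx hc)).and ?_
  refine PolyB.forall_lt (φ := fun q : α × ℕ => !((c q.1).getD q.2 false) ||
    P.anc Y G (x q.1) (c q.1) (P.tab (x q.1) (c q.1))
      (PC.nth (Pa76659G.fst (Pa76659G.snd ((c q.1).drop (P.N (x q.1))))) q.2) q.2) hN ?_
  have hk : PolyN (fun _ : α × ℕ => join Y G) (fun p => D p.1 ∧ p.2 < P.N (x p.1))
    (PC.lift ctx ++ [fun p => una p.2]) (fun p => p.2) := PolyC.var (by simp)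
  have hx' : PolyC (fun _ : α × ℕ => join Y G) (fun p => D p.1 ∧ p.2 < P.N (x p.1))
    (PC.lift ctx ++ [fun p => una p.2]) (fun p => x p.1) :=
      (hx.lift (fun p hp => hp.1)).weakenRight _
  have hc' : PolyC (fun _ : α × ℕ => join Y G) (fun p => D p.1 ∧ p.2 < P.N (x p.1))
    (PC.lift ctx ++ [fun p => una p.2]) (fun p => c p.1) :=
      (hc.lift (fun p hp => hp.1)).weakenRight _
  have hd := PolyC.drop hc' (PolyN.NP (P := P) hx')
  exact (PolyB.getD hc' hk).not.or (PolyB.anc hx' hc' (PolyC.tabP hx' hc')
    (PolyC.nth (PolyC.fst (PolyC.snd hd)) hk) hk)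

theorem PolyC.up {T y x : α → Str} (hT : PolyC (fun _ => join Y G) D ctx T)
    (hy : PolyC (fun _ => join Y G) D ctx y) (hx : PolyC (fun _ => join Y G) D ctx x) :
    PolyC (fun _ => join Y G) D ctx (fun a => Par.up (T a) (y a) (x a)) :=
  PolyC.pr (PolyC.fst hT) (PolyC.pr (PolyC.pr hy (PolyC.pr hx PolyC.nil)) (PolyC.snd hT))

theorem PolyB.one {x c e : α → Str}
    (hx : PolyC (fun _ => join Y G) D ctx x) (hc : PolyC (fun _ => join Y G) D ctx c)
    (he : PolyC (fun _ => join Y G) D ctx e) :
    PolyB (fun _ => join Y G) D ctx (fun a => P.one Y G (x a) (c a) (e a)) := by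
  have hk := PolyN.length (PolyC.fst (PolyC.snd he))
  exact (PolyB.natEq (PolyN.length (PolyC.fst he)) ((PolyN.length hx).poly P.m)).and
    ((PolyB.lt hk (PolyN.NP hx)).and ((PolyB.getD hc hk).not.and
      (PolyB.anc hx hc (PolyC.up (PolyC.tabP hx hc) (PolyC.fst he) hx)
        (PolyC.snd (PolyC.snd he)) hk)))

theorem PolyB.many {x c W : α → Str}
    (hx : PolyC (fun _ => join Y G) D ctx x) (hc : PolyC (fun _ => join Y G) D ctx c)
    (hW : PolyC (fun _ => join Y G) D ctx W) :
    PolyB (fun _ => join Y G) D ctx (fun a => P.many Y G (x a) (c a) (W a)) := by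
  have hK := (PolyN.length hx).poly P.K
  refine PolyB.forall_lt (φ := fun q : α × ℕ => P.one Y G (x q.1) (c q.1) (PC.nth (W q.1) q.2) &&
    decide (∀ j' < q.2, (!(decide (Pa76659G.fst (PC.nth (W q.1) j') =
      Pa76659G.fst (PC.nth (W q.1) q.2)))) = true)) hK ?_
  have hj : PolyN (fun _ : α × ℕ => join Y G) (fun p => D p.1 ∧ p.2 < P.K.eval (x p.1).length)
    (PC.lift ctx ++ [fun p => una p.2]) (fun p => p.2) := PolyC.var (by simp)
  have hx' : PolyC (fun _ : α × ℕ => join Y G) (fun p => D p.1 ∧ p.2 < P.K.eval (x p.1).length)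
    (PC.lift ctx ++ [fun p => una p.2]) (fun p => x p.1) :=
      (hx.lift (fun p hp => hp.1)).weakenRight _
  have hc' : PolyC (fun _ : α × ℕ => join Y G) (fun p => D p.1 ∧ p.2 < P.K.eval (x p.1).length)
    (PC.lift ctx ++ [fun p => una p.2]) (fun p => c p.1) :=
      (hc.lift (fun p hp => hp.1)).weakenRight _
  have hW' : PolyC (fun _ : α × ℕ => join Y G) (fun p => D p.1 ∧ p.2 < P.K.eval (x p.1).length)
    (PC.lift ctx ++ [fun p => una p.2]) (fun p => W p.1) :=
      (hW.lift (fun p hp => hp.1)).weakenRight _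
  have he := PolyC.nth hW' hj
  refine (PolyB.one hx' hc' he).and ?_
  refine PolyB.forall_lt (φ := fun q : (α × ℕ) × ℕ => !(decide (Pa76659G.fst (PC.nth (W q.1.1) q.2) =
      Pa76659G.fst (PC.nth (W q.1.1) q.1.2)))) hj ?_
  refine (PolyB.strEq (PolyC.fst (PolyC.nth ((hW'.lift (fun p hp => hp.1)).weakenRight _)
    (PolyC.var (by simp)))) ?_).not
  exact (PolyC.lift (PolyC.fst he) (fun p hp => hp.1)).weakenRight _

end prog

end Pool.Agent.Lib.Pa76659G.PC
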