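import Pool.Agent.Lib.Pa76659G.H2b

set_option autoImplicit false

/-!
Soundness and completeness of the claims and the tests.
-/

namespace Pool.Agent.Lib.Pa76659G

open Pool.Agent.Lib.Pa76659 PC

/-! ### coded tables -/

theorem snd_lt : ∀ w : Str, w ≠ [] → (snd w).length < w.length
  | [], h => absurd rfl h
  | [true], _ => by show ([] : Str).length < _; simp
  | false :: l, _ => by rw [PC.snd_false]; simp
  | true :: c :: l, _ => by
    have := PC.snd_length_le l
    rw [PC.snd_cons]
    simp only [List.length_cons]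
    omega

theorem snd_iter_nil : ∀ (k : ℕ) (w : Str), w.length ≤ k → snd^[k] w = []
  | 0, w, h => by simpa using h
  | k + 1, w, h => by
    rw [Function.iterate_succ_apply]
    by_cases hw : w = []
    · subst hw
      exact snd_iter_nil k _ (by simp [PC.snd_nil])
    · exact snd_iter_nil k _ (by have := snd_lt w hw; omega)

theorem llen_pr (e t : Str) : llen (pr e t) = llen t + 1 := by
  unfold llen
  rw [pr_length, show 2 * e.length + 1 + t.length = (t.length + 2 * e.length) + 1 by ring,
    List.range_succ_eq_map, List.filter_cons]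
  have h0 : (!(snd^[0] (pr e t)).isEmpty) = true := by
    simp [PC.pr_ne_nil]
  rw [if_pos h0, List.length_cons, List.filter_map, List.length_map]
  congr 1
  have h1 : ((fun i => !(snd^[i] (pr e t)).isEmpty) ∘ Nat.succ) = fun i => !(snd^[i] t).isEmpty := by
    funext i
    simp only [Function.comp_apply, Function.iterate_succ_apply, snd_pr]
  rw [h1]
  have h2 : ∀ k, ((List.range (t.length + k)).filter (fun i => !(snd^[i] t).isEmpty)).length =
      ((List.range t.length).filter (fun i => !(snd^[i] t).isEmpty)).length := by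
    intro k
    induction k with
    | zero => rfl
    | succ k ih =>
      rw [← add_assoc, List.range_succ, List.filter_append, List.length_append, ih]
      rw [List.filter_cons, snd_iter_nil (t.length + k) t (by omega)]
      simp
  exact h2 _

theorem ra_pr (e t : Str) : ra (pr e t) = (fst e, snd e) :: ra t := by
  unfold ra
  rw [llen_pr, List.range_succ_eq_map, List.map_cons, List.map_map]
  have h0 : PC.nth (pr e t) 0 = e := by
    show fst (snd^[0] (pr e t)) = e
    rw [Function.iterate_zero, id_eq, fst_pr]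
  rw [h0]
  congr 1
  apply List.map_congr_left
  intro k _
  have h1 : PC.nth (pr e t) (k + 1) = PC.nth t k := by
    show fst (snd^[k + 1] (pr e t)) = fst (snd^[k] t)
    rw [Function.iterate_succ_apply, snd_pr]
  simp only [Function.comp_apply, Nat.succ_eq_add_one, h1]

theorem tbl_up (T y x : Str) : tbl (Par.up T y x) = Function.update (tbl T) y x := by
  funext y'
  unfold tbl val Par.up
  rw [snd_pr, fst_pr, ra_pr, fst_pr, snd_pr, look_cons]
  by_cases h : y' = y
  · rw [if_pos h, h, Function.update_self, Option.getD_some, fst_pr]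
  · rw [if_neg h, Function.update_of_ne h]

theorem look_map (f : Str → Str) (u : Str) : ∀ l : List Str,
    look (l.map (fun y => (y, f y))) u = if u ∈ l then some (f u) else none
  | [] => by simp [look]
  | y :: l => by
    rw [List.map_cons, look_cons, look_map f u l]
    by_cases h : u = y
    · subst h; simp
    · simp [h]

/-! ### queries -/

theorem anc_iff {P : Par} {Y G : Lang} {x c T w : Str} {k : ℕ} : P.anc Y G x c T w k = true ↔
    ∃ q, qry (cf P.p2.1 (P.z x) [] c k) = some q ∧ w.length = P.i.2.2.eval q.length ∧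
      accepts (pEval P.p (join Y (pD (P.z x) (tbl T) G))) P.i.1 (inp2 q w)
        (P.i.2.1.eval q.length) = true := by
  unfold Par.anc Pa76659G.acc
  simp only [Bool.and_eq_true, decide_eq_true_eq]
  rcases qry (cf P.p2.1 (P.z x) [] c k) with _ | q
  · simp [oc]
  · simp [oc]

theorem exists_anc {P : Par} {Y G : Lang} {x c T : Str} {k : ℕ} :
    (∃ w, P.anc Y G x c T w k = true) ↔ ∃ q, qry (cf P.p2.1 (P.z x) [] c k) = some q ∧
      Bf Y G P.p P.i (P.z x) (tbl T) q = true := by
  simp only [anc_iff, Bf, nEval, decide_eq_true_eq]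
  constructor
  · rintro ⟨w, q, h1, h2, h3⟩
    exact ⟨q, h1, w, h2, h3⟩
  · rintro ⟨q, h1, w, h2, h3⟩
    exact ⟨w, q, h1, h2, h3⟩

theorem anc_length {P : Par} {Y G : Lang} {x c T w : Str} {k : ℕ} (h : P.anc Y G x c T w k = true) :
    w.length ≤ P.i.2.2.eval ((P.z x).length + k) := by
  obtain ⟨q, h1, h2, -⟩ := anc_iff.1 h
  rw [h2]
  exact eval_mono _ (qry_length h1)

/-! ### the name of the table -/

theorem z_eq {P : Par} {x : Str} {n : ℕ} (hx : x.length = n) : P.z x = zz n (P.m.eval n) := by
  rw [Par.z, hx]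

theorem N_eq {P : Par} {x : Str} {n : ℕ} (hx : x.length = n) :
    P.N x = P.p2.2.eval (zz n (P.m.eval n)).length := by
  rw [Par.N, z_eq hx]

/-! ### claims -/

section

variable {P : Par} {Y G A : Lang}
  (hA : ∀ x, A x = true ↔ ∃ y : Str, y.length = P.qA.eval x.length ∧ P.VA (x, y) = true)

include hA

theorem okv_sound {x e : Str} (h : P.okv x e = true) : (fst e).length = x.length ∧ A (fst e) = true := by
  unfold Par.okv at h
  simp only [Bool.and_eq_true, decide_eq_true_eq] at h
  exact ⟨h.1, (hA _).2 ⟨snd e, by rw [h.2.1, h.1], h.2.2⟩⟩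

theorem okT_sound {x T : Str} (h : P.okT x T = true) (y : Str) :
    (tbl T y).length = x.length ∧ A (tbl T y) = true := by
  unfold Par.okT at h
  simp only [Bool.and_eq_true, decide_eq_true_eq] at h
  obtain ⟨h1, h2⟩ := h
  unfold tbl val
  rcases hl : look (ra (snd T)) y with _ | e
  · exact okv_sound hA h1
  · have h3 := look_mem hl
    simp only [ra, List.mem_map, List.mem_range] at h3
    obtain ⟨k, hk, h4⟩ := h3
    have h5 : snd (PC.nth (snd T) k) = e := (Prod.ext_iff.1 h4).2
    rw [Option.getD_some, ← h5]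
    exact okv_sound hA (h2 k hk)

theorem claim_sound {x c : Str} {n : ℕ} (hx : x.length = n) (h : P.claim Y G x c = true) :
    Tb A n (P.m.eval n) (tbl (P.tab x c)) ∧
      Sup (Bf Y G P.p P.i (zz n (P.m.eval n)) (tbl (P.tab x c))) P.p2.1 (zz n (P.m.eval n))
        (P.p2.2.eval (zz n (P.m.eval n)).length) c := by
  unfold Par.claim at h
  simp only [Bool.and_eq_true, decide_eq_true_eq, Bool.or_eq_true, Bool.not_eq_true'] at h
  obtain ⟨h1, h2⟩ := h
  refine ⟨fun y _ => ?_, fun k hk hc => ?_⟩
  · rw [← hx]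
    exact okT_sound hA h1 y
  · rcases h2 k (by rw [N_eq hx]; exact hk) with h3 | h3
    · rw [hc] at h3
      exact absurd h3 (by simp)
    · obtain ⟨q, h4, h5⟩ := exists_anc.1 ⟨_, h3⟩
      rw [z_eq hx] at h4 h5
      exact ⟨q, h4, h5⟩

end

/-! ### positions of the right length only -/

theorem pD_eq_of {z : Str} {S S' : Str → Str} {G : Lang}
    (h : ∀ y : Str, y.length = (snd z).length → S y = S' y) : pD z S G = pD z S' G := by
  funext v
  unfold pD
  by_cases h1 : fst (snd v) = z ∧ (snd (snd v)).length = (snd z).length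
  · rw [if_pos h1, if_pos h1, h _ h1.2]
  · rw [if_neg h1, if_neg h1]

theorem sup_few' {Y G : Lang} {p : PIx} {i : NIx} {z : Str} {S : Str → Str} {M : Prog} {N t : ℕ}
    {c : Str} (ht : CB p i (z.length + N) t) (h : Sup (Bf Y G p i z S) M z N c) :
    ∃ Q : List Str, Q.length ≤ N * t ∧ (∀ y ∈ Q, y.length = (snd z).length) ∧
      ∀ S' : Str → Str, (∀ y ∈ Q, S' y = S y) → Sup (Bf Y G p i z S') M z N c := by
  classical
  obtain ⟨Q, hQ1, hQ2⟩ := sup_few ht h
  refine ⟨Q.filter (fun y => decide (y.length = (snd z).length)), (List.length_filter_le _ _).trans hQ1,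
    fun y hy => by simpa using (List.mem_filter.1 hy).2, fun S' hS' => ?_⟩
  set S'' : Str → Str := fun y => if y.length = (snd z).length then S' y else S y with hS''
  have h1 : Bf Y G p i z S' = Bf Y G p i z S'' := by
    unfold Bf
    rw [pD_eq_of (S' := S'') (fun y hy => by simp only [hS'', if_pos hy])]
  rw [h1]
  refine hQ2 S'' (fun y hy => ?_)
  simp only [hS'']
  split_ifs with h2
  · exact hS' y (List.mem_filter.2 ⟨hy, by simpa using h2⟩)
  · rfl

theorem rta_sup (B : Lang) (M : Prog) (z : Str) (N : ℕ) : Sup B M z N (rta B M z N) := by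
  intro k hk h
  obtain ⟨q, hq, hB⟩ := rta_true hk h
  exact ⟨q, by rw [cf_run hk.le (fun _ _ => rfl)]; exact hq, hB⟩

theorem rta_length (B : Lang) (M : Prog) (z : Str) (N : ℕ) : (rta B M z N).length = N := by
  simp [rta, trueAns]

theorem total_le {l : List Str} {s : ℕ} (h : ∀ x ∈ l, x.length ≤ s) : total l ≤ l.length * s := by
  induction l with
  | nil => simp
  | cons x l ih =>
    have h1 := ih (fun y hy => h y (List.mem_cons_of_mem _ hy))
    have h2 := h x List.mem_cons_self
    rw [total_cons, List.length_cons, Nat.succ_mul]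
    omega

theorem lenc_le {l : List Str} {s : ℕ} (h : ∀ x ∈ l, x.length ≤ s) :
    (lenc l).length ≤ l.length * (2 * s + 1) := by
  rw [lenc_length]
  have := total_le h
  nlinarith

section

variable {P : Par} {Y G A : Lang}
  (hA : ∀ x, A x = true ↔ ∃ y : Str, y.length = P.qA.eval x.length ∧ P.VA (x, y) = true)

include hA

/-- Every table with entries in `A` gives a claim with the right answers. -/
theorem claim_complete {x : Str} {n t L : ℕ} (hx : x.length = n)
    (ht : CB P.p P.i ((zz n (P.m.eval n)).length + P.p2.2.eval (zz n (P.m.eval n)).length) t)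
    (hL : P.N x + (2 * (2 * (2 * n + 1 + P.qA.eval n) + 1 + P.N x * t *
      (2 * (2 * P.m.eval n + 1 + (2 * n + 1 + P.qA.eval n)) + 1)) + 1 +
      (2 * (P.N x * (2 * P.i.2.2.eval ((zz n (P.m.eval n)).length + P.N x) + 1)) + 1)) ≤ L)
    {S0 : Str → Str} (hS : Tb A n (P.m.eval n) S0) :
    ∃ c : Str, c.length = L ∧ P.claim Y G x c = true ∧ ∀ k < P.N x, c.getD k false =
      (rta (Bf Y G P.p P.i (zz n (P.m.eval n)) S0) P.p2.1 (zz n (P.m.eval n))
        (P.p2.2.eval (zz n (P.m.eval n)).length)).getD k false := by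
  classical
  set m := P.m.eval n with hm
  set z := zz n m with hz
  set N := P.p2.2.eval z.length with hN
  have hNx : P.N x = N := N_eq hx
  have hzx : P.z x = z := z_eq hx
  rw [hNx] at hL ⊢
  set B0 := Bf Y G P.p P.i z S0 with hB0
  set a := rta B0 P.p2.1 z N with ha
  have hal : a.length = N := rta_length _ _ _ _
  obtain ⟨Q, hQ1, hQ2, hQ3⟩ := sup_few' ht (rta_sup B0 P.p2.1 z N)
  have hzs : (snd z).length = m := zz_snd n m
  -- witnesses for `A`
  have hwit : ∀ y : Str, ∃ w : Str, A y = true → y.length = n →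
      w.length = P.qA.eval n ∧ P.VA (y, w) = true := by
    intro y
    by_cases h1 : A y = true ∧ y.length = n
    · obtain ⟨w, h2, h3⟩ := (hA y).1 h1.1
      exact ⟨w, fun _ _ => ⟨by rw [h2, h1.2], h3⟩⟩
    · exact ⟨[], fun h2 h3 => absurd ⟨h2, h3⟩ h1⟩
  choose wA hwA using hwit
  set f : Str → Str := fun y => pr (S0 y) (wA (S0 y)) with hf
  set y0 : Str := List.replicate m false with hy0
  have hy0l : y0.length = m := by simp [hy0]
  set T : Str := pr (f y0) (ac (Q.map (fun y => (y, f y)))) with hT
  have hval : ∀ y : Str, val T y = if y ∈ Q then f y else f y0 := by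
    intro y
    unfold val
    rw [hT, snd_pr, fst_pr, ra_ac, look_map]
    split_ifs <;> rfl
  have htbl : ∀ y ∈ Q, tbl T y = S0 y := by
    intro y hy
    unfold tbl
    rw [hval, if_pos hy, hf]
    simp only [fst_pr]
  have hokf : ∀ y : Str, y.length = m → P.okv x (f y) = true := by
    intro y hy
    obtain ⟨h1, h2⟩ := hS y hy
    obtain ⟨h3, h4⟩ := hwA (S0 y) h2 h1
    unfold Par.okv
    simp only [hf, fst_pr, snd_pr, Bool.and_eq_true, decide_eq_true_eq]
    exact ⟨by rw [h1, hx], by rw [h3, hx], h4⟩
  have hokT : P.okT x T = true := by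
    unfold Par.okT
    simp only [Bool.and_eq_true, decide_eq_true_eq]
    rw [hT, fst_pr, snd_pr]
    refine ⟨hokf y0 hy0l, fun k hk => ?_⟩
    have hk' : k < (Q.map (fun y => (y, f y))).length := by
      rw [ac, llen_lenc, List.length_map] at hk
      exact hk
    rw [nth_ac _ hk', snd_pr, List.getElem_map]
    refine hokf _ ?_
    rw [hQ2 _ (List.getElem_mem _), hzs]
  have hsupT : Sup (Bf Y G P.p P.i z (tbl T)) P.p2.1 z N a := hQ3 (tbl T) htbl
  -- the witnesses
  have hw : ∀ k, ∃ w : Str, w.length ≤ P.i.2.2.eval (z.length + N) ∧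
      (k < N → a.getD k false = true → P.anc Y G x a T w k = true) := by
    intro k
    by_cases h1 : k < N ∧ a.getD k false = true
    · obtain ⟨q, hq, hB⟩ := hsupT k h1.1 h1.2
      have h2 : ∃ w, P.anc Y G x a T w k = true := by
        rw [exists_anc, hzx]
        exact ⟨q, hq, hB⟩
      obtain ⟨w, hw⟩ := h2
      refine ⟨w, ?_, fun _ _ => hw⟩
      have h3 := anc_length hw
      rw [hzx] at h3
      exact h3.trans (eval_mono _ (by omega))
    · exact ⟨[], by simp, fun h2 h3 => absurd ⟨h2, h3⟩ h1⟩
  choose w hw1 hw2 using hw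
  set C : Str := lenc ((List.range N).map w) with hC
  have hClen : C.length ≤ N * (2 * P.i.2.2.eval (z.length + N) + 1) := by
    have := lenc_le (l := (List.range N).map w) (s := P.i.2.2.eval (z.length + N)) (by
      intro y hy
      obtain ⟨k, -, rfl⟩ := List.mem_map.1 hy
      exact hw1 k)
    simpa using this
  have hflen : ∀ y : Str, y.length = m → (f y).length = 2 * n + 1 + P.qA.eval n := by
    intro y hy
    obtain ⟨h1, h2⟩ := hS y hy
    obtain ⟨h3, h4⟩ := hwA (S0 y) h2 h1
    rw [hf]
    beta_reduce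
    rw [pr_length, h1, h3]
  have hTlen : T.length ≤ 2 * (2 * n + 1 + P.qA.eval n) + 1 + N * t *
      (2 * (2 * m + 1 + (2 * n + 1 + P.qA.eval n)) + 1) := by
    rw [hT, pr_length, hflen y0 hy0l]
    have h1 : (ac (Q.map (fun y => (y, f y)))).length ≤ Q.length *
        (2 * (2 * m + 1 + (2 * n + 1 + P.qA.eval n)) + 1) := by
      have := lenc_le (l := (Q.map (fun y => (y, f y))).map (fun e => pr e.1 e.2))
        (s := 2 * m + 1 + (2 * n + 1 + P.qA.eval n)) (by
        intro s hs
        rw [List.map_map] at hs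
        obtain ⟨y, hy, rfl⟩ := List.mem_map.1 hs
        simp only [Function.comp_apply]
        rw [pr_length, hflen y (by rw [hQ2 y hy, hzs]), hQ2 y hy, hzs])
      rw [List.length_map, List.length_map] at this
      exact this
    have h2 := Nat.mul_le_mul_right (2 * (2 * m + 1 + (2 * n + 1 + P.qA.eval n)) + 1) hQ1
    omega
  clear_value T C
  have hlen : (pr T (pr C [])).length ≤ L - N := by
    rw [pr_length, pr_length, List.length_nil]
    omega
  set pad : Str := List.replicate (L - N - (pr T (pr C [])).length) false with hpad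
  have hdrop : (a ++ pr T (pr C pad)).drop N = pr T (pr C pad) := by
    rw [← hal, List.drop_left]
  have hbits : ∀ k < N, (a ++ pr T (pr C pad)).getD k false = a.getD k false := by
    intro k hk
    rw [List.getD_append _ _ _ _ (by omega)]
  refine ⟨a ++ pr T (pr C pad), ?_, ?_, fun k hk => hbits k hk⟩
  · rw [List.length_append, hal, pr_length, pr_length, hpad, List.length_replicate]
    rw [pr_length, pr_length, List.length_nil] at hlen ⊢
    omega
  · have htab : P.tab x (a ++ pr T (pr C pad)) = T := by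
      rw [Par.tab, hNx, hdrop, fst_pr]
    unfold Par.claim
    rw [htab, hNx, hdrop, snd_pr, fst_pr]
    simp only [Bool.and_eq_true, decide_eq_true_eq, Bool.or_eq_true, Bool.not_eq_true']
    refine ⟨hokT, fun k hk => ?_⟩
    rw [hbits k hk]
    rcases h1 : a.getD k false with _ | _
    · exact Or.inl rfl
    · right
      have h2 := hw2 k hk h1
      have h3 : cf P.p2.1 z [] (a ++ pr T (pr C pad)) k = cf P.p2.1 z [] a k := by
        rw [cf_run (B := B0) (N := N) hk.le (fun j hj => hbits j (by omega)),
          cf_run (B := B0) (N := N) hk.le (fun j hj => rfl)]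
      have h4 : PC.nth C k = w k := by
        rw [hC, nth_lenc, List.getD_eq_getElem _ _ (by simpa using hk)]
        simp
      rw [h4]
      rw [anc_iff] at h2 ⊢
      rw [hzx] at h2 ⊢
      rw [h3]
      exact h2

end

/-! ### tests -/

theorem one_sound {P : Par} {Y G : Lang} {x c e : Str} {n : ℕ} (hx : x.length = n)
    (h : P.one Y G x c e = true) : (fst e).length = P.m.eval n ∧
      Tst (Bf Y G P.p P.i (zz n (P.m.eval n)) (Function.update (tbl (P.tab x c)) (fst e) x))
        P.p2.1 (zz n (P.m.eval n)) (P.p2.2.eval (zz n (P.m.eval n)).length) c := by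
  unfold Par.one at h
  simp only [Bool.and_eq_true, decide_eq_true_eq, Bool.not_eq_true'] at h
  obtain ⟨h1, h2, h3, h4⟩ := h
  refine ⟨by rw [h1, hx], (fst (snd e)).length, by rw [← N_eq hx]; exact h2, h3, ?_⟩
  obtain ⟨q, h5, h6⟩ := exists_anc.1 ⟨_, h4⟩
  rw [z_eq hx] at h5 h6
  rw [tbl_up] at h6
  exact ⟨q, h5, h6⟩

theorem one_complete {P : Par} {Y G : Lang} {x c y : Str} {n : ℕ} (hx : x.length = n)
    (hy : y.length = P.m.eval n)
    (h : Tst (Bf Y G P.p P.i (zz n (P.m.eval n)) (Function.update (tbl (P.tab x c)) y x))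
        P.p2.1 (zz n (P.m.eval n)) (P.p2.2.eval (zz n (P.m.eval n)).length) c) :
    ∃ e : Str, fst e = y ∧ e.length ≤ 2 * P.m.eval n + 1 + (2 * P.N x + 1 +
      P.i.2.2.eval ((zz n (P.m.eval n)).length + P.N x)) ∧ P.one Y G x c e = true := by
  obtain ⟨k, hk, h1, q, h2, h3⟩ := h
  have h4 : ∃ w, P.anc Y G x c (Par.up (P.tab x c) y x) w k = true := by
    rw [exists_anc, z_eq hx, tbl_up]
    exact ⟨q, h2, h3⟩
  obtain ⟨w, hw⟩ := h4
  refine ⟨pr y (pr (una k) w), by rw [fst_pr], ?_, ?_⟩
  · have h5 := anc_length hw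
    rw [z_eq hx] at h5
    rw [← N_eq hx] at hk
    have h6 := eval_mono P.i.2.2 (show (zz n (P.m.eval n)).length + k ≤
      (zz n (P.m.eval n)).length + P.N x by omega)
    rw [pr_length, pr_length, PC.un_length, hy]
    omega
  · unfold Par.one
    simp only [fst_pr, snd_pr, PC.un_length, Bool.and_eq_true, decide_eq_true_eq,
      Bool.not_eq_true']
    exact ⟨by rw [hy, hx], by rw [N_eq hx]; exact hk, h1, hw⟩

theorem many_iff {P : Par} {Y G : Lang} {x c : Str} {n B : ℕ} (hx : x.length = n)
    (hB : P.K.eval n * (2 * (2 * P.m.eval n + 1 + (2 * P.N x + 1 +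
      P.i.2.2.eval ((zz n (P.m.eval n)).length + P.N x))) + 1) ≤ B) :
    (∃ W : Str, W.length ≤ B ∧ P.many Y G x c W = true) ↔
      ∃ L : List Str, L.length = P.K.eval n ∧ L.Nodup ∧ ∀ y ∈ L, y.length = P.m.eval n ∧
        Tst (Bf Y G P.p P.i (zz n (P.m.eval n)) (Function.update (tbl (P.tab x c)) y x))
          P.p2.1 (zz n (P.m.eval n)) (P.p2.2.eval (zz n (P.m.eval n)).length) c := by
  constructor
  · rintro ⟨W, -, hW⟩
    unfold Par.many at hW
    simp only [Bool.and_eq_true, decide_eq_true_eq, Bool.not_eq_true', decide_eq_false_iff_not] at hW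
    rw [hx] at hW
    refine ⟨(List.range (P.K.eval n)).map (fun j => fst (PC.nth W j)), by simp, ?_, ?_⟩
    · rw [List.Nodup, List.pairwise_map]
      refine List.Pairwise.imp_of_mem ?_ (List.pairwise_lt_range)
      intro j j' _ hj' hlt
      exact (hW j' (List.mem_range.1 hj')).2 j hlt
    · intro y hy
      obtain ⟨j, hj, rfl⟩ := List.mem_map.1 hy
      exact one_sound hx (hW j (List.mem_range.1 hj)).1
  · rintro ⟨L, h1, h2, h3⟩
    have h4 : ∀ y : Str, ∃ e : Str, y ∈ L → fst e = y ∧ e.length ≤ 2 * P.m.eval n + 1 +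
        (2 * P.N x + 1 + P.i.2.2.eval ((zz n (P.m.eval n)).length + P.N x)) ∧
        P.one Y G x c e = true := by
      intro y
      by_cases hy : y ∈ L
      · obtain ⟨e, he⟩ := one_complete hx (h3 y hy).1 (h3 y hy).2
        exact ⟨e, fun _ => he⟩
      · exact ⟨[], fun h => absurd h hy⟩
    choose e he using h4
    refine ⟨lenc (L.map e), ?_, ?_⟩
    · refine (lenc_le (s := 2 * P.m.eval n + 1 +
        (2 * P.N x + 1 + P.i.2.2.eval ((zz n (P.m.eval n)).length + P.N x))) ?_).trans ?_
      · intro s hs
        obtain ⟨y, hy, rfl⟩ := List.mem_map.1 hs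
        exact (he y hy).2.1
      · rw [List.length_map, h1]
        exact hB
    · unfold Par.many
      simp only [Bool.and_eq_true, decide_eq_true_eq, Bool.not_eq_true', decide_eq_false_iff_not]
      rw [hx]
      have hn : ∀ (j : ℕ) (hj : j < L.length), PC.nth (lenc (L.map e)) j = e L[j] := by
        intro j hj
        rw [nth_lenc, List.getD_eq_getElem _ _ (by simpa using hj), List.getElem_map]
      intro j hj
      rw [← h1] at hj
      refine ⟨?_, fun j' hj' => ?_⟩
      · rw [hn j hj]
        exact (he _ (List.getElem_mem _)).2.2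
      · rw [hn j hj, hn j' (by omega), (he _ (List.getElem_mem _)).1,
          (he _ (List.getElem_mem _)).1]
        intro h5
        have h6 := (List.Nodup.getElem_inj_iff h2).1 h5
        omega

end Pool.Agent.Lib.Pa76659G
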