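import Pool.Agent.Lib.Pa76659G.H2c

set_option autoImplicit false

/-!
The exact description of `\hat L_2` for generic oracles and of the relativisably `\hat L_2` sets:
the complement is in `NP` with advice computable in `FP^NP`.
-/

namespace Pool.Agent.Lib.Pa76659G

open Pool.Agent.Lib.Pa76659 PC

/-- If the machine is right for all tables then the complement of `A` is in `NP` with computable
advice. -/
theorem adv_of_right {Y G A : Lang} {P : Par} (b : ℕ)
    (hVA : PolyB (fun _ : Str × Str => join Y G) (fun _ => True) [fun p => p.1, fun p => p.2] P.VA)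
    (hA : ∀ x, A x = true ↔ ∃ y : Str, y.length = P.qA.eval x.length ∧ P.VA (x, y) = true)
    (ht : ∀ s : ℕ, CB P.p P.i s ((s + 2) ^ b))
    (hR : ∀ n, RightT Y G A P.p P.i P.p2 n (P.m.eval n))
    (hK : ∀ n, P.p2.2.eval (zz n (P.m.eval n)).length *
      ((zz n (P.m.eval n)).length + P.p2.2.eval (zz n (P.m.eval n)).length + 2) ^ b < P.K.eval n)
    (hK2 : ∀ n, 2 * P.K.eval n ≤ 2 ^ (P.m.eval n)) :
    (fun x => !(A x)) ∈ NPAdv (join Y G) 1 := by
  classical
  set X := join Y G with hX
  -- the polynomials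
  set zl : Polynomial ℕ := 2 * Polynomial.X + 1 + P.m with hzl
  have hzl' : ∀ n, zl.eval n = (zz n (P.m.eval n)).length := by
    intro n
    rw [zz_length]
    simp [hzl]
  set Nl : Polynomial ℕ := P.p2.2.comp zl with hNl
  have hNl' : ∀ n, Nl.eval n = P.p2.2.eval (zz n (P.m.eval n)).length := by
    intro n
    rw [hNl, Polynomial.eval_comp, hzl']
  set l : Polynomial ℕ := Nl + (2 * (2 * (2 * Polynomial.X + 1 + P.qA) + 1 + Nl * (zl + Nl + 2) ^ b *
      (2 * (2 * P.m + 1 + (2 * Polynomial.X + 1 + P.qA)) + 1)) + 1 +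
      (2 * (Nl * (2 * P.i.2.2.comp (zl + Nl) + 1)) + 1)) with hl
  set Bl : Polynomial ℕ := P.K * (2 * (2 * P.m + 1 + (2 * Nl + 1 + P.i.2.2.comp (zl + Nl))) + 1)
    with hBl
  set V : Str × Str → Bool := fun p => P.claim Y G p.1 p.2 with hV
  have hVm : PolyB (fun _ : Str × Str => X) (fun _ => True) [fun p => p.1, fun p => p.2] V :=
    PolyB.claim hVA (PolyC.var (by simp)) (PolyC.var (by simp))
  set D := PSL V l with hD
  have hDm : D ∈ NPO X := PSL_mem hVm
  -- the advice
  set h : Str → Str := fun x => PS V l x [] :: gr V l x (l.eval x.length) with hh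
  have hhl : ∀ x : Str, (h x).length = l.eval x.length + 1 := by
    intro x
    rw [hh]
    beta_reduce
    rw [List.length_cons, gr_length]
  set W : Lang := fun v => (h (fst v)).getD (snd v).length false with hW
  have hWm : W ∈ DelSucc X 1 := by
    refine ⟨D, ⟨X, query_mem X, hDm⟩, mem_PO ?_⟩
    have hv : PolyC (fun _ : Str => D) (fun _ => True) [fun x => x] (fun x => x) :=
      PolyC.var (by simp)
    have h1 : PolyC (fun _ : Str => D) (fun _ => True) [fun x => x]
        (fun v => gr V l (fst v) (l.eval (fst v).length)) :=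
      PolyC.gr (query_mem D) (PolyC.fst hv) ((PolyN.length (PolyC.fst hv)).poly l)
    have h2 : PolyB (fun _ : Str => D) (fun _ => True) [fun x => x]
        (fun v => PS V l (fst v) []) := by
      have h3 : PolyB (fun _ : Str => D) (fun _ => True) [fun x => x]
        (fun v => D (pr (fst v) [])) := PolyC.query (PolyC.pr (PolyC.fst hv) PolyC.nil)
      refine h3.congr (fun v _ => ?_)
      simp only [hD, PSL, fst_pr, snd_pr]
    have h4 : PolyC (fun _ : Str => D) (fun _ => True) [fun x => x] (fun v => h (fst v)) :=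
      PolyC.append h2 h1
    exact PolyB.getD h4 (PolyN.length (PolyC.snd hv))
  have hadv : ∀ n, advStr W (l + 1) n = h (on1 n) := by
    intro n
    apply List.ext_getElem
    · rw [advStr_length, hhl, on1_eq, PC.un_length]
      simp
    · intro j h1 h2
      simp only [advStr, List.getElem_map, List.getElem_range]
      rw [hW]
      beta_reduce
      rw [fst_pr, snd_pr, on1_eq j, PC.un_length, List.getD_eq_getElem _ _ h2]
  -- the language
  set C : Lang := fun z => decide (∃ w : Str, w.length ≤ Bl.eval z.length ∧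
    (!((snd z).headD false) || P.many Y G (fst z) (snd z).tail w) = true) with hC
  have hCm : C ∈ NPO X := by
    have hz : PolyC (fun _ : Str × Str => X) (fun _ => True) [fun p => p.1, fun p => p.2]
      (fun p => p.1) := PolyC.var (by simp)
    have hw : PolyC (fun _ : Str × Str => X) (fun _ => True) [fun p => p.1, fun p => p.2]
      (fun p => p.2) := PolyC.var (by simp)
    refine mem_NPO_le Bl ((PolyB.headD (PolyC.snd hz)).not.or
      (PolyB.many (P := P) (PolyC.fst hz) (PolyC.snd hz).tail hw)) (fun z => ?_)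
    simp only [hC, decide_eq_true_eq]
  refine ⟨C, hCm, W, hWm, l + 1, fun x => ?_⟩
  set n := x.length with hn
  have hx : x.length = n := hn.symm
  set x0 := on1 n with hx0
  have hx0l : x0.length = n := by rw [hx0, on1_eq, PC.un_length]
  rw [hadv n]
  -- completeness
  have hcomp : ∀ S0 : Str → Str, Tb A n (P.m.eval n) S0 → ∃ c : Str, c.length = l.eval n ∧
      V (x0, c) = true ∧ ∀ k < P.N x0, c.getD k false =
      (rta (Bf Y G P.p P.i (zz n (P.m.eval n)) S0) P.p2.1 (zz n (P.m.eval n))
        (P.p2.2.eval (zz n (P.m.eval n)).length)).getD k false := by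
    intro S0 hS0
    refine claim_complete hA hx0l (ht _) ?_ hS0
    rw [N_eq hx0l, hl]
    simp only [Polynomial.eval_add, Polynomial.eval_mul, Polynomial.eval_pow, Polynomial.eval_comp,
      Polynomial.eval_X, Polynomial.eval_ofNat, Polynomial.eval_one, hNl', hzl']
    exact le_rfl
  -- the language on the advice
  have hCx : C (pr x (h x0)) = true ↔ (PS V l x0 [] = false ∨
      ∃ w : Str, w.length ≤ Bl.eval (pr x (h x0)).length ∧
        P.many Y G x (gr V l x0 (l.eval n)) w = true) := by
    rw [hC]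
    simp only [decide_eq_true_eq, fst_pr, snd_pr, hh, List.headD_cons, List.tail_cons,
      Bool.or_eq_true, Bool.not_eq_true', hx0l]
    constructor
    · rintro ⟨w, h1, h2 | h2⟩
      · exact Or.inl h2
      · exact Or.inr ⟨w, h1, h2⟩
    · rintro (h1 | ⟨w, h1, h2⟩)
      · exact ⟨[], by simp, Or.inl h1⟩
      · exact ⟨w, h1, Or.inr h2⟩
  rw [Bool.eq_iff_iff, hCx, Bool.not_eq_true']
  rcases hps : PS V l x0 [] with _ | _
  · simp only [true_or, iff_true]
    by_contra hAx
    rw [Bool.not_eq_false] at hAx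
    obtain ⟨c, h1, h2, -⟩ := hcomp (fun _ => x) (fun y _ => ⟨hx, hAx⟩)
    have h3 : PS V l x0 [] = true := PS_iff.2 ⟨c, by rw [h1, hx0l], rfl, h2⟩
    rw [hps] at h3
    exact absurd h3 (by simp)
  · obtain ⟨c0, h1, -, h2⟩ := PS_iff.1 hps
    obtain ⟨h3, h4⟩ := gr_spec (V := V) (l := l) (x := x0) ⟨c0, h1, h2⟩
    rw [hx0l] at h3 h4
    set c := gr V l x0 (l.eval n) with hc
    obtain ⟨h5, h6⟩ := claim_sound hA hx0l h3
    have htab : P.tab x0 c = P.tab x c := by
      rw [Par.tab, Par.tab, N_eq hx0l, N_eq hx]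
    rw [htab] at h5 h6
    have hmax : ∀ S', Tb A n (P.m.eval n) S' → ¬ lexLt c (rta (Bf Y G P.p P.i
        (zz n (P.m.eval n)) S') P.p2.1 (zz n (P.m.eval n))
        (P.p2.2.eval (zz n (P.m.eval n)).length)) := by
      rintro S' hS' ⟨k, hk1, hk2, hk3⟩
      obtain ⟨c', h7, h8, h9⟩ := hcomp S' hS'
      have hkN : k < P.N x0 := by
        rw [N_eq hx0l]
        by_contra hcon
        rw [List.getD_eq_default _ _ (by rw [rta_length]; omega)] at hk3
        exact absurd hk3 (by simp)
      refine h4 c' h7 h8 ⟨k, fun j hj => ?_, hk2, ?_⟩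
      · rw [hk1 j hj, h9 j (by omega)]
      · rw [h9 k hkN, hk3]
    rw [core_thr (hR n) (ht _) (hK n) (hK2 n) h5 h6 hmax x hx]
    simp only [Bool.true_eq_false, false_or]
    refine (many_iff hx ?_).symm
    have h7 : n ≤ (pr x (h x0)).length := by rw [pr_length]; omega
    refine le_trans (le_of_eq ?_) (eval_mono Bl h7)
    rw [N_eq hx, hBl]
    simp only [Polynomial.eval_add, Polynomial.eval_mul, Polynomial.eval_comp,
      Polynomial.eval_ofNat, Polynomial.eval_one, hNl', hzl']

end Pool.Agent.Lib.Pa76659G
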