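import Pool.Agent.Lib.Pa76659G.UoH
import Pool.Agent.Lib.Pa76659G.Circ4

set_option autoImplicit false

/-!
Hidden lengths: the intervals between the values of the tower function, alternately.
-/

namespace Pool.Agent.Lib.Pa76659G

open Pool.Agent.Lib.Pa76659 PC

namespace Hc

/-- the tower function -/
def tw : ℕ → ℕ
  | 0 => 1
  | j + 1 => 2 ^ tw j

/-- how often the logarithm can be taken -/
def cnt (m : ℕ) : ℕ :=
  ((List.range m).filter (fun i => decide (2 ≤ (fun a => Nat.log 2 a)^[i] m))).length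

/-- hidden lengths -/
def hid (m : ℕ) : Bool := (cnt m).testBit 0

theorem tw_lt (j : ℕ) : tw j < tw (j + 1) := Nat.lt_two_pow_self

theorem tw_mono {i j : ℕ} (h : i ≤ j) : tw i ≤ tw j := by
  induction j, h using Nat.le_induction with
  | base => exact le_rfl
  | succ j _ ih => exact ih.trans (tw_lt j).le

theorem lt_tw (j : ℕ) : j < tw j := by
  induction j with
  | zero => exact Nat.zero_lt_one
  | succ j ih => exact lt_of_le_of_lt ih (tw_lt j)

theorem log_mem {j m : ℕ} (h1 : tw (j + 1) ≤ m) (h2 : m < tw (j + 2)) :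
    tw j ≤ Nat.log 2 m ∧ Nat.log 2 m < tw (j + 1) := by
  have h0 : m ≠ 0 := by
    have := lt_tw (j + 1)
    omega
  exact ⟨Nat.le_log_of_pow_le (by norm_num) h1, Nat.log_lt_of_lt_pow h0 h2⟩

theorem iter_mem : ∀ (i j m : ℕ), i ≤ j → tw j ≤ m → m < tw (j + 1) →
    tw (j - i) ≤ (fun a => Nat.log 2 a)^[i] m ∧ (fun a => Nat.log 2 a)^[i] m < tw (j - i + 1)
  | 0, j, m, _, h1, h2 => ⟨h1, h2⟩
  | i + 1, j, m, hij, h1, h2 => by
    obtain ⟨j', rfl⟩ : ∃ j', j = j' + 1 := ⟨j - 1, by omega⟩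
    obtain ⟨h3, h4⟩ := log_mem h1 h2
    have h5 := iter_mem i j' (Nat.log 2 m) (by omega) h3 h4
    rw [Function.iterate_succ_apply, show j' + 1 - (i + 1) = j' - i by omega]
    exact h5

theorem iter_zero (i : ℕ) : (fun a => Nat.log 2 a)^[i] 0 = 0 := by
  induction i with
  | zero => rfl
  | succ i ih =>
    rw [Function.iterate_succ_apply]
    exact ih

theorem iter_one (i : ℕ) : (fun a => Nat.log 2 a)^[i] 1 < 2 := by
  cases i with
  | zero => exact Nat.one_lt_two
  | succ i =>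
    rw [Function.iterate_succ_apply]
    show (fun a => Nat.log 2 a)^[i] (Nat.log 2 1) < 2
    rw [Nat.log_one_right, iter_zero]
    norm_num

theorem cnt_eq {j m : ℕ} (h1 : tw j ≤ m) (h2 : m < tw (j + 1)) : cnt m = j := by
  have h3 : j ≤ m := ((lt_tw j).le).trans h1
  unfold cnt
  rw [← Hi.filter_lt j m h3]
  congr 1
  refine List.filter_congr (fun i _ => ?_)
  rw [Bool.eq_iff_iff, decide_eq_true_eq, decide_eq_true_eq]
  constructor
  · intro h
    by_contra h4
    push Not at h4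
    obtain ⟨d, rfl⟩ := Nat.exists_eq_add_of_le h4
    have h5 := (iter_mem j j m le_rfl h1 h2).2
    have h6 := (iter_mem j j m le_rfl h1 h2).1
    rw [Nat.sub_self] at h5 h6
    have h7 : (fun a => Nat.log 2 a)^[j] m = 1 := by
      have e1 : tw 0 = 1 := rfl
      have e2 : tw (0 + 1) = 2 := rfl
      omega
    rw [add_comm, Function.iterate_add_apply, h7] at h
    have := iter_one d
    omega
  · intro h
    have h5 := (iter_mem i j m h.le h1 h2).1
    have h6 : tw 1 ≤ tw (j - i) := tw_mono (by omega)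
    have e2 : tw 1 = 2 := rfl
    omega

theorem hid_eq {j m : ℕ} (h1 : tw j ≤ m) (h2 : m < tw (j + 1)) : hid m = decide (j % 2 = 1) := by
  unfold hid
  rw [cnt_eq h1 h2, Nat.testBit_eq_decide_div_mod_eq, pow_zero, Nat.div_one]

theorem exists_level {m : ℕ} (h : 1 ≤ m) : ∃ j, tw j ≤ m ∧ m < tw (j + 1) := by
  have h1 : ∃ j, m < tw (j + 1) := ⟨m, (lt_tw m).trans (tw_lt m)⟩
  classical
  refine ⟨Nat.find h1, ?_, Nat.find_spec h1⟩
  rcases h2 : Nat.find h1 with _ | j
  · exact h
  · have h3 := Nat.find_min h1 (m := j) (by omega)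
    omega

theorem hid_zero : hid 0 = false := rfl

section
variable {α : Type} {D : α → Prop} {ctx : List (α → Str)} {O : Lang}

theorem hid_poly {f : α → ℕ} (hf : PolyN (fun _ => O) D ctx f) :
    PolyB (fun _ => O) D ctx (fun a => hid (f a)) := by
  refine Hi.testBit_poly (f := fun a => cnt (f a)) ?_ (PolyN.const 0)
  refine PolyN.count (φ := fun p : α × ℕ => decide (2 ≤ (fun a => Nat.log 2 a)^[p.2] (f p.1))) hf ?_
  refine PolyB.le (PolyN.const 2) ?_
  obtain ⟨pf, hpf⟩ := PolyC.length_le hf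
  have hle : ∀ i m : ℕ, (fun a => Nat.log 2 a)^[i] m ≤ m := by
    intro i
    induction i with
    | zero => exact fun m => le_rfl
    | succ i ih =>
      intro m
      rw [Function.iterate_succ_apply]
      exact (ih _).trans (Nat.log_le_self 2 m)
  have hf' : PolyN (fun _ : α × ℕ => O) (fun p => D p.1 ∧ p.2 < f p.1)
      (PC.lift ctx ++ [fun p => una p.2]) (fun p => f p.1) :=
    (PolyC.lift hf (fun p hp => hp.1)).weakenRight _
  have hk : PolyN (fun _ : α × ℕ => O) (fun p => D p.1 ∧ p.2 < f p.1)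
      (PC.lift ctx ++ [fun p => una p.2]) (fun p => p.2) := PolyC.var (by simp)
  obtain ⟨pl, hpl⟩ := PolyC.length_le hf'
  refine PolyC.natRec (fun (a : α × ℕ) k => una ((fun a => Nat.log 2 a)^[k] (f a.1))) hk
    (hf'.congr (fun a _ => by simp)) ?_ ⟨pl, fun a ha k _ => ?_⟩
  · have h1 : PolyN (fun _ : (α × ℕ) × ℕ => O) (fun p => (D p.1.1 ∧ p.1.2 < f p.1.1) ∧ p.2 < p.1.2)
        (PC.lift (PC.lift ctx ++ [fun p => una p.2]) ++ [fun p => una p.2,
          fun p => una ((fun a => Nat.log 2 a)^[p.2] (f p.1.1))])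
        (fun p => (fun a => Nat.log 2 a)^[p.2] (f p.1.1)) := PolyC.var (by simp)
    refine PolyC.congr (Hi.log_poly h1) (fun p _ => ?_)
    show una _ = una _
    rw [Function.iterate_succ_apply']
  · have h2 := hpl a ha
    rw [PC.un_length] at h2 ⊢
    exact (hle k (f a.1)).trans h2

end

/-! ### good numbers -/

theorem hid_lt {i m : ℕ} (h : hid m = true) (h1 : m < tw (2 * i + 3)) : m < tw (2 * i + 2) := by
  have h0 : 1 ≤ m := by
    rcases Nat.eq_zero_or_pos m with rfl | h2
    · rw [hid_zero] at h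
      exact absurd h (by simp)
    · exact h2
  obtain ⟨j, h2, h3⟩ := exists_level h0
  rw [hid_eq h2 h3, decide_eq_true_eq] at h
  have h4 : j < 2 * i + 3 := by
    by_contra h5
    have := tw_mono (i := 2 * i + 3) (j := j) (by omega)
    omega
  exact h3.trans_le (tw_mono (by omega))

theorem good_w (k : ℕ) (r T : Polynomial ℕ) (N0 : ℕ) : ∃ w ≥ N0,
    (∀ m ≤ T.eval (2 ^ w), hid m = false → m ≤ w ^ (k + 2)) ∧
      (∀ m, hid m = true → w < r.eval m → w ^ k ≤ m) := by
  classical
  obtain ⟨c, hc⟩ := Circ.exists_bound T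
  obtain ⟨d, hd⟩ := Circ.exists_bound r
  obtain ⟨n0, hn0⟩ := Pool.Agent.Lib.Pa76659.pow_le_two_pow 3
  have hk2 : 1 ≤ 2 ^ k := Nat.one_le_two_pow
  set w0 : ℕ := N0 + 2 ^ k + c + 7 with hw0
  set B : ℕ := n0 + d * (k + 2) + w0 ^ (k + 2) + 3 with hB
  obtain ⟨b, hb⟩ : ∃ b, b = tw (2 * B + 1) := ⟨_, rfl⟩
  obtain ⟨s, hs⟩ : ∃ s, s = tw (2 * B + 2) := ⟨_, rfl⟩
  obtain ⟨a, ha⟩ : ∃ a, a = tw (2 * B + 3) := ⟨_, rfl⟩
  have hBb : B < b := by
    have := lt_tw (2 * B + 1)
    omega
  have es : s = 2 ^ b := by rw [hs, hb]; rfl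
  have ea : a = 2 ^ s := by rw [ha, hs]; rfl
  have hbs : b < s := by rw [hb, hs]; exact tw_lt _
  have hsa : s < a := by rw [hs, ha]; exact tw_lt _
  have hex : ∃ w, a ≤ w ^ (k + 2) := ⟨a, Nat.le_self_pow (by omega) a⟩
  set w := Nat.find hex with hw
  have h1 : a ≤ w ^ (k + 2) := Nat.find_spec hex
  have h2 : w0 < w := by
    by_contra h
    push Not at h
    have h3 := Nat.pow_le_pow_left h (k + 2)
    omega
  have h3 : (w - 1) ^ (k + 2) < a := by
    have := Nat.find_min hex (m := w - 1) (by omega)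
    omega
  have h4 : w - 1 ≤ (w - 1) ^ 2 := Nat.le_self_pow (by norm_num) _
  have h5 : (w - 1) ^ 2 ≤ (w - 1) ^ (k + 2) := Nat.pow_le_pow_right (by omega) (by omega)
  refine ⟨w, by omega, fun m hm hh => ?_, fun m hh hm => ?_⟩
  · by_contra h
    push Not at h
    have h6 : a ≤ m := h1.trans h.le
    have h7 : c * (w + 1) < a := by
      refine lt_of_le_of_lt ?_ (lt_of_le_of_lt h5 h3)
      obtain ⟨v, hv⟩ : ∃ v, w = v + 1 := ⟨w - 1, by omega⟩
      rw [hv, Nat.add_sub_cancel, pow_two]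
      have h8 : (c + 2) * v ≤ v * v := Nat.mul_le_mul_right v (by omega)
      have h9 : c ≤ v := by omega
      have h10 : c * (v + 1 + 1) = c * v + 2 * c := by ring
      have h11 : (c + 2) * v = c * v + 2 * v := by ring
      omega
    have h8 : m < tw (2 * B + 4) := by
      have e : tw (2 * B + 4) = 2 ^ a := by rw [ha]; rfl
      rw [e]
      exact lt_of_le_of_lt (hm.trans (hc w)) (Nat.pow_lt_pow_right (by norm_num) h7)
    rw [hid_eq (j := 2 * B + 3) (ha ▸ h6) h8, decide_eq_false_iff_not] at hh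
    omega
  · by_cases h6 : a ≤ m
    · have h7 : w ^ k ≤ (w - 1) ^ (k + 2) := by
        calc w ^ k ≤ (2 * (w - 1)) ^ k := Nat.pow_le_pow_left (by omega) k
          _ = 2 ^ k * (w - 1) ^ k := mul_pow 2 (w - 1) k
          _ ≤ (w - 1) ^ 2 * (w - 1) ^ k := Nat.mul_le_mul_right _ (by omega)
          _ = (w - 1) ^ (k + 2) := by rw [← pow_add, add_comm 2 k]
      omega
    · exfalso
      push Not at h6
      have h7 : m < s := by
        rw [hs]
        rw [ha] at h6
        exact hid_lt hh h6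
      have h8 : r.eval m ≤ 2 ^ (d * (b + 1)) := by
        refine (eval_mono r h7.le).trans ?_
        rw [es]
        exact hd b
      have h9 : a < 2 ^ (d * (b + 1) * (k + 2)) := by
        refine lt_of_le_of_lt h1 ?_
        rw [pow_mul]
        exact Nat.pow_lt_pow_left (by omega) (by omega)
      rw [ea] at h9
      have h10 : s < d * (b + 1) * (k + 2) := (Nat.pow_lt_pow_iff_right (by norm_num)).1 h9
      have h11 : b ^ 3 ≤ s := by
        rw [es]
        exact hn0 b (by omega)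
      have h12 : d * (b + 1) * (k + 2) ≤ b ^ 3 := by
        have h13 : d * (k + 2) ≤ b := by omega
        have h14 : b + 1 ≤ b * b := by nlinarith
        calc d * (b + 1) * (k + 2) = d * (k + 2) * (b + 1) := by ring
          _ ≤ b * (b * b) := Nat.mul_le_mul h13 h14
          _ = b ^ 3 := by ring
      omega

end Hc

end Pool.Agent.Lib.Pa76659G
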