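import Pool.Agent.Lib.Pa76659G.UoSpec
import Pool.Agent.Lib.Pa76659G.Search

/-!
The calculus `PolyC` and the functions in `FP`.
-/

set_option autoImplicit false

namespace Pool.Agent.Lib.Pa76659G

open Pool.Agent.Lib.Pa76659 PC

namespace Uo

theorem exec_run {O : Lang} {M : Prog} {s s' : ℕ → Str} {n N : ℕ} (h : Exec O M s s' n)
    (hn : n ≤ N) : runN O N ([M], s) = ([], s') := by
  obtain ⟨m, hm, h⟩ := h
  obtain ⟨d, hd⟩ := Nat.exists_eq_add_of_le (hm.trans hn)
  rw [hd, Pa76659.runN_add, h, Pa76659.runN_nil]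

theorem FPO_of_polyC {O : Lang} {F : Str → Str}
    (h : PolyC (fun _ : Str => O) (fun _ => True) [fun x => x] F) : F ∈ FPO O := by
  obtain ⟨P, p, hP⟩ := h
  have hlen := PolyC.length_le (orc := fun _ : Str => O) (D := fun _ => True) (ctx := [fun x => x])
    (t := F) ⟨P, p, hP⟩
  obtain ⟨pl, hpl⟩ := hlen
  refine ⟨.seq P (.seq (clear 0) (move 1 0 2)), p + 2 * Polynomial.X + 10 * pl + 20, fun x => ?_⟩
  obtain ⟨n, hn, hr⟩ := hP x trivial
  have hF := hpl x trivial
  simp only [vals_cons, vals_nil, total_cons, total_nil, Nat.add_zero, List.cons_append,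
    List.nil_append] at hn hr hF
  have h1 := run_clear (O := O) 0 (R [x, F x])
  have e1 : Function.update (R [x, F x]) 0 [] = R [[], F x] := R_update [] x [] [F x]
  have e2 : R [x, F x] 0 = x := R_length [] x [F x]
  rw [e1, e2] at h1
  have h2 := run_move (O := O) (r := 1) (s := 0) (tmp := 2) (by omega) (by omega) (by omega)
    (R [[], F x]) (by rw [R_of_ge]; simp)
  have e3 : R [[], F x] 1 = F x := R_length [[]] (F x) []
  have e4 : R [[], F x] 0 = [] := R_length [] [] [F x]
  have e5 : Function.update (R [[], F x]) 1 [] = R [[], []] := R_update [[]] (F x) [] []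
  have e6 : Function.update (R [[], []]) 0 (F x) = R [F x, []] := R_update [] [] (F x) [[]]
  rw [e3, e4, e5, List.append_nil, e6] at h2
  have h3 := (Run.seq hr (Run.seq h1 h2)).exec
  have e7 : R [x] = inp x := by
    funext i
    rcases i with _ | i
    · simp [R, inp]
    · simp [R, inp]
  rw [e7] at h3
  have h4 := exec_run h3 (N := (p + 2 * Polynomial.X + 10 * pl + 20).eval x.length) (by
    simp only [Polynomial.eval_add, Polynomial.eval_mul, Polynomial.eval_X, Polynomial.eval_ofNat]
    omega)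
  refine ⟨by rw [Halts, h4], ?_⟩
  rw [h4]
  exact R_length [] (F x) [[]]

theorem polyC_of_FPO {O : Lang} {F : Str → Str} (h : F ∈ FPO O) :
    PolyC (fun _ : Str => O) (fun _ => True) [fun x => x] F := by
  obtain ⟨M, p, hM⟩ := h
  have hx : PolyC (fun _ : Str => O) (fun _ => True) [fun x => x] (fun x => x) :=
    PolyC.var (by simp)
  have h1 := PolyC.runT (orc := fun _ : Str => O) (D := fun _ => True) (ctx := [fun x => x]) M
    (M.bnd + 1) (by omega) (fun _ _ => O) (fun x => inp2 x []) (fun x => p.eval x.length)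
    (PolyB.qry (PolyC.var (by simp))) (by
      intro r _
      rcases r with _ | _ | r
      · exact hx.congr (fun a _ => by simp [inp2])
      · exact PolyC.nil.congr (fun a _ => by simp [inp2])
      · exact PolyC.nil.congr (fun a _ => by simp [inp2])) ((PolyN.length hx).poly p)
    ⟨Polynomial.X, fun x _ => by
      refine (Pa76659.inp2_bdd x []).mono ?_
      simp⟩
  refine (PolyC.nth (PolyC.snd h1) (PolyN.const 0)).congr (fun x _ => ?_)
  rw [enc_reg _ _ _ (by omega), runT_const, ← inp_eq]
  exact (hM x).2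

theorem FPO_iff {O : Lang} {F : Str → Str} :
    F ∈ FPO O ↔ PolyC (fun _ : Str => O) (fun _ => True) [fun x => x] F :=
  ⟨polyC_of_FPO, FPO_of_polyC⟩

/-- functions of `1^n` whose bits are in a class `Δ` -/
theorem FPO_of_adv {X W : Lang} {k : ℕ} (hW : W ∈ DelSucc X k) (q : Polynomial ℕ) :
    ∃ B ∈ Sig X k, (fun x => advStr W q x.length) ∈ FPO B := by
  obtain ⟨B, hB, hW⟩ := hW
  exact ⟨B, hB, FPO_of_polyC (PolyC.advStr hW q (PolyN.length (PolyC.var (by simp))))⟩

end Uo

end Pool.Agent.Lib.Pa76659G
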