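import Pool.Agent.Lib.Pa76659G.UoH
import Pool.Agent.Lib.Pa76659G.UoFP

set_option autoImplicit false

/-!
Consequences of `H_1 = \hat H_1`: the algorithms.
-/

namespace Pool.Agent.Lib.Pa76659G

open Pool.Agent.Lib.Pa76659 PC
open Pool.Agent.Lib.Pa76659H (High RHighSucc TComp)

namespace Hi

section
variable {X V : Lang} {q : Polynomial ℕ} {k : ℕ}

theorem Sol.mono {n m : ℕ} {w : Str} (h : Sol V q k m w) (hn : n ≤ m) : Sol V q k n w := by
  obtain ⟨l, y, h1, h2, h3, h4⟩ := h
  exact ⟨l, y, h1, h2, h3, (Lk_mono k hn).trans h4⟩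

/-- Either the answer or a long solution. -/
theorem win_win (h : High X 1 ⊆ RHighSucc X 0) (hV : V ∈ PO X)
    (tot : ∀ n, ∃ y : Str, y.length = q.eval n ∧ V (pr (on1 n) y) = true) (k : ℕ) {L : Lang}
    (hL : L ∈ DelSucc X 1) : ∃ F : Str → Str,
      PolyC (fun _ : Str => X) (fun _ => True) [fun x => x] F ∧
      ∀ x, F x = [false, L x] ∨ ∃ w, F x = true :: w ∧ Sol V q k x.length w := by
  obtain ⟨B, hB, hLB⟩ := (h (AA_high (k := k) hV tot)).2 hL
  obtain ⟨M, p, hM⟩ := PO_subset hB hLB
  exact ⟨win X V q k M p, win_poly hV M p (PolyC.var (by simp)), win_spec (fun x => (hM x).2)⟩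

/-- the search by prefixes -/
def SS (f : Str → Str) (n : ℕ) : ℕ → Str
  | 0 => [false]
  | i + 1 => if (SS f n i).headD false = true then SS f n i else
      (if (f (pr (on1 n) ((SS f n i).tail ++ [true]))).headD false = true then
        f (pr (on1 n) ((SS f n i).tail ++ [true]))
      else false :: ((SS f n i).tail ++
        [(f (pr (on1 n) ((SS f n i).tail ++ [true]))).tail.headD false]))

/-- the result of the search -/
noncomputable def fin (f : Str → Str) (q : Polynomial ℕ) (n : ℕ) : Str :=
  if (SS f n (q.eval n)).headD false = true then (SS f n (q.eval n)).tail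
  else pr (on1 n) (SS f n (q.eval n)).tail

open Classical in
/-- prefixes of solutions -/
noncomputable def Pref (V : Lang) (q : Polynomial ℕ) : Lang := fun u =>
  decide (∃ y : Str, (snd u ++ y).length = q.eval (fst u).length ∧
    V (pr (on1 (fst u).length) (snd u ++ y)) = true)

theorem Pref_mem (hV : V ∈ PO X) : Pref V q ∈ NPO X := by
  classical
  have hz : PolyC (fun _ : Str × Str => X) (fun _ => True) [fun p => p.1, fun p => p.2]
    (fun p => p.1) := PolyC.var (by simp)
  have hy : PolyC (fun _ : Str × Str => X) (fun _ => True) [fun p => p.1, fun p => p.2]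
    (fun p => p.2) := PolyC.var (by simp)
  have hn := PolyN.length (PolyC.fst hz)
  have ha := (PolyC.snd hz).append hy
  have h1 := PolyB.natEq (PolyN.length ha) (hn.poly q)
  have h2 := polyB_of_PO hV (PolyC.pr (t := fun p : Str × Str => on1 (fst p.1).length) hn ha)
  refine mem_NPO_le q (h1.and h2) (fun u => ?_)
  unfold Pref
  simp only [Bool.and_eq_true, decide_eq_true_eq]
  constructor
  · rintro ⟨y, h3, h4⟩
    refine ⟨y, ?_, h3, h4⟩
    have h5 : y.length ≤ (snd u ++ y).length := by
      rw [List.length_append]
      omega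
    rw [h3] at h5
    exact h5.trans (eval_mono q (fst_length_le u))
  · rintro ⟨y, -, h3, h4⟩
    exact ⟨y, h3, h4⟩

theorem Pref_iff {n : ℕ} {z : Str} : Pref V q (pr (on1 n) z) = true ↔
    ∃ y : Str, (z ++ y).length = q.eval n ∧ V (pr (on1 n) (z ++ y)) = true := by
  classical
  unfold Pref
  rw [decide_eq_true_eq, fst_pr, snd_pr]
  simp only [on1_eq, PC.un_length]

theorem SS_inv {f : Str → Str}
    (hf : ∀ x, f x = [false, Pref V q x] ∨ ∃ w, f x = true :: w ∧ Sol V q k x.length w)
    (tot : ∀ n, ∃ y : Str, y.length = q.eval n ∧ V (pr (on1 n) y) = true) (n : ℕ) :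
    ∀ i ≤ q.eval n, (∃ w, SS f n i = true :: w ∧ Sol V q k n w) ∨
      ∃ z : Str, SS f n i = false :: z ∧ z.length = i ∧
        ∃ y : Str, (z ++ y).length = q.eval n ∧ V (pr (on1 n) (z ++ y)) = true
  | 0, _ => by
    obtain ⟨y, h1, h2⟩ := tot n
    exact Or.inr ⟨[], rfl, rfl, y, h1, h2⟩
  | i + 1, hi => by
    rcases SS_inv hf tot n i (by omega) with ⟨w, h1, h2⟩ | ⟨z, h1, h2, y, h3, h4⟩
    · left
      refine ⟨w, ?_, h2⟩
      rw [SS, h1, List.headD_cons, if_pos rfl]
    · have e : SS f n (i + 1) = if (f (pr (on1 n) (z ++ [true]))).headD false = true then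
          f (pr (on1 n) (z ++ [true])) else
          false :: (z ++ [(f (pr (on1 n) (z ++ [true]))).tail.headD false]) := by
        rw [SS, h1, if_neg (by simp)]
        rfl
      rcases hf (pr (on1 n) (z ++ [true])) with h5 | ⟨w, h5, h6⟩
      · right
        rw [e, h5, if_neg (by simp)]
        simp only [List.tail_cons, List.headD_cons]
        refine ⟨_, rfl, by rw [List.length_append, h2]; rfl, ?_⟩
        rcases hy : y with _ | ⟨b, y'⟩
        · exfalso
          rw [hy, List.append_nil, h2] at h3
          omega
        · rw [hy] at h3 h4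
          cases hp : Pref V q (pr (on1 n) (z ++ [true]))
          · refine ⟨y', ?_⟩
            cases b
            · rw [List.append_assoc]
              exact ⟨h3, h4⟩
            · exfalso
              have : Pref V q (pr (on1 n) (z ++ [true])) = true :=
                Pref_iff.2 ⟨y', by rw [List.append_assoc]; exact ⟨h3, h4⟩⟩
              rw [hp] at this
              exact absurd this (by simp)
          · obtain ⟨y2, h7⟩ := Pref_iff.1 hp
            exact ⟨y2, h7⟩
      · left
        refine ⟨w, by rw [e, h5, List.headD_cons, if_pos rfl], h6.mono ?_⟩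
        rw [pr_length, on1_eq, PC.un_length]
        omega

theorem fin_spec {f : Str → Str}
    (hf : ∀ x, f x = [false, Pref V q x] ∨ ∃ w, f x = true :: w ∧ Sol V q k x.length w)
    (tot : ∀ n, ∃ y : Str, y.length = q.eval n ∧ V (pr (on1 n) y) = true) (n : ℕ) :
    Sol V q k n (fin f q n) := by
  unfold fin
  rcases SS_inv hf tot n (q.eval n) le_rfl with ⟨w, h1, h2⟩ | ⟨z, h1, h2, y, h3, h4⟩
  · rw [h1, List.headD_cons, if_pos rfl]
    exact h2
  · rw [h1, if_neg (by simp)]
    have h5 : y = [] := by
      rw [List.length_append, h2] at h3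
      exact List.length_eq_zero_iff.1 (by omega)
    rw [h5, List.append_nil] at h3 h4
    exact ⟨n, z, rfl, h3, h4, min_le_left _ _⟩

theorem SS_length {f : Str → Str} {pw : Polynomial ℕ} (hpw : ∀ x, (f x).length ≤ pw.eval x.length)
    (n N : ℕ) : ∀ i ≤ N, ((SS f n i).headD false = false → (SS f n i).length = i + 1) ∧
      (SS f n i).length ≤ i + 1 + pw.eval (2 * n + 2 + N)
  | 0, _ => ⟨fun _ => rfl, by
      show 1 ≤ _
      omega⟩
  | i + 1, hi => by
    obtain ⟨h1, h2⟩ := SS_length hpw n N i (by omega)
    cases hh : (SS f n i).headD false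
    · have h3 := h1 hh
      have e : SS f n (i + 1) = if (f (pr (on1 n) ((SS f n i).tail ++ [true]))).headD false = true then
          f (pr (on1 n) ((SS f n i).tail ++ [true])) else
          false :: ((SS f n i).tail ++
            [(f (pr (on1 n) ((SS f n i).tail ++ [true]))).tail.headD false]) := by
        rw [SS, if_neg (by rw [hh]; simp)]
      rw [e]
      split_ifs with h4
      · refine ⟨fun h5 => ?_, ?_⟩
        · rw [h4] at h5
          exact absurd h5 (by simp)
        · refine (hpw _).trans ?_
          have h6 : (pr (on1 n) ((SS f n i).tail ++ [true])).length ≤ 2 * n + 2 + N := by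
            rw [pr_length, on1_eq, PC.un_length, List.length_append, List.length_tail, h3]
            simp only [List.length_singleton]
            omega
          have h7 := eval_mono pw h6
          omega
      · have h8 : (false :: ((SS f n i).tail ++
            [(f (pr (on1 n) ((SS f n i).tail ++ [true]))).tail.headD false])).length = i + 1 + 1 := by
          rw [List.length_cons, List.length_append, List.length_tail, h3]
          rfl
        refine ⟨fun _ => h8, ?_⟩
        rw [h8]
        omega
    · have e : SS f n (i + 1) = SS f n i := by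
        rw [SS, if_pos hh]
      rw [e]
      refine ⟨fun h5 => ?_, by omega⟩
      rw [hh] at h5
      exact absurd h5 (by simp)

theorem fin_poly {f : Str → Str} (hf : PolyC (fun _ : Str => X) (fun _ => True) [fun x => x] f) :
    PolyC (fun _ : Str => X) (fun _ => True) [fun x => x] (fun x : Str => fin f q x.length) := by
  obtain ⟨pw, hpw⟩ := hf.length_le
  have hpw' : ∀ x, (f x).length ≤ pw.eval x.length := fun x => by
    have := hpw x trivial
    simpa using this
  have hx : PolyC (fun _ : Str => X) (fun _ => True) [fun x => x] (fun x => x) :=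
    PolyC.var (by simp)
  have hn := PolyN.length hx
  have hS : PolyC (fun _ : Str => X) (fun _ => True) [fun x => x]
      (fun x : Str => SS f x.length (q.eval x.length)) := by
    refine PolyC.natRec (fun x k => SS f x.length k) (hn.poly q) (PolyC.const _) ?_
      ⟨q + 1 + pw.comp (2 * Polynomial.X + 2 + q), fun x _ k hk => ?_⟩
    · set ctx' : List (Str × ℕ → Str) := PC.lift [fun x : Str => x] ++ [fun p => una p.2,
        fun p => SS f p.1.length p.2] with hctx'
      have hF : PolyC (fun _ : Str × ℕ => X) (fun p => True ∧ p.2 < q.eval p.1.length) ctx'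
        (fun p => SS f p.1.length p.2) := PolyC.var (by simp [hctx'])
      have hx' : PolyC (fun _ : Str × ℕ => X) (fun p => True ∧ p.2 < q.eval p.1.length) ctx'
        (fun p => p.1) := PolyC.var (by simp [hctx', PC.lift])
      have hn' := PolyN.length hx'
      have ha := hF.tail.append (PolyC.const [true])
      have hp := PolyC.pr (t := fun p : Str × ℕ => on1 p.1.length) hn' ha
      have hfp : PolyC (fun _ : Str × ℕ => X) (fun p => True ∧ p.2 < q.eval p.1.length) ctx'
        (fun p => f (pr (on1 p.1.length) ((SS f p.1.length p.2).tail ++ [true]))) :=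
        PolyC.arg hf hp
      have hb : PolyC (fun _ : Str × ℕ => X) (fun p => True ∧ p.2 < q.eval p.1.length) ctx'
        (fun p => [(f (pr (on1 p.1.length)
          ((SS f p.1.length p.2).tail ++ [true]))).tail.headD false]) := PolyB.headD hfp.tail
      refine PolyC.congr (PolyC.ite (PolyB.headD hF) (hF.mono fun _ h => h.1)
        (PolyC.ite ((PolyB.headD hfp).mono fun _ h => h.1) (hfp.mono fun _ h => h.1.1)
          (((hF.tail.append hb).cons false).mono fun _ h => h.1.1))) (fun p _ => rfl)
    · have h1 := (SS_length hpw' x.length (q.eval x.length) k hk).2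
      simp only [vals_cons, vals_nil, total_cons, total_nil, Nat.add_zero, Polynomial.eval_add,
        Polynomial.eval_one, Polynomial.eval_comp, Polynomial.eval_mul, Polynomial.eval_X,
        Polynomial.eval_ofNat]
      omega
  exact PolyC.ite (PolyB.headD hS) (hS.tail.mono fun _ h => h.1)
    ((PolyC.pr (t := fun x : Str => on1 x.length) hn hS.tail).mono fun _ h => h.1)

/-- If `\hat H_1 = H_1` then for every `L` in `Δ_2` and every total unary search problem `V` some
polynomial time algorithm decides `x ∈ L` or finds a long solution of `V`. -/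
theorem h1_win (h : High X 1 ⊆ RHighSucc X 0) (hV : V ∈ PO X)
    (tot : ∀ n, ∃ y : Str, y.length = q.eval n ∧ V (pr (on1 n) y) = true) (k : ℕ) {L : Lang}
    (hL : L ∈ DelSucc X 1) : ∃ F ∈ FPO X,
      ∀ x, F x = [false, L x] ∨ ∃ w, F x = true :: w ∧ Sol V q k x.length w := by
  obtain ⟨F, h1, h2⟩ := win_win h hV tot k hL
  exact ⟨F, Uo.FPO_of_polyC h1, h2⟩

/-- If `\hat H_1 = H_1` then all total unary search problems are solved for infinitely many lengths
in subexponential time. -/
theorem h1_find (h : High X 1 ⊆ RHighSucc X 0) (hV : V ∈ PO X)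
    (tot : ∀ n, ∃ y : Str, y.length = q.eval n ∧ V (pr (on1 n) y) = true) (k : ℕ) :
    ∃ F ∈ FPO X, ∀ x, Sol V q k x.length (F x) := by
  have hL : Pref V q ∈ DelSucc X 1 := ⟨Pref V q, ⟨X, query_mem X, Pref_mem hV⟩, query_mem _⟩
  obtain ⟨f, h1, h2⟩ := win_win h hV tot k hL
  exact ⟨fun x => fin f q x.length, Uo.FPO_of_polyC (fin_poly h1), fun x => fin_spec h2 tot x.length⟩

end

end Hi

end Pool.Agent.Lib.Pa76659G
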