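import Pool.Agent.Lib.Pa76659G.HcA
import Pool.Agent.Lib.Pa76659G.UoH2

set_option autoImplicit false

/-!
Sets in `H_1` with keys which are verified in `coNP`.
-/

namespace Pool.Agent.Lib.Pa76659G

open Pool.Agent.Lib.Pa76659 PC
open Pool.Agent.Lib.Pa76659H (High RHighSucc TComp)

namespace Hc

/-! ### closure properties of `NP` -/

theorem NPO_and {O L1 L2 : Lang} (h1 : L1 ∈ NPO O) (h2 : L2 ∈ NPO O) :
    (fun x => L1 x && L2 x) ∈ NPO O := by
  obtain ⟨V1, q1, hV1, hL1⟩ := exists_of_NPO h1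
  obtain ⟨V2, q2, hV2, hL2⟩ := exists_of_NPO h2
  have hx : PolyC (fun _ : Str × Str => O) (fun _ => True) [fun p => p.1, fun p => p.2]
    (fun p => p.1) := PolyC.var (by simp)
  have hy : PolyC (fun _ : Str × Str => O) (fun _ => True) [fun p => p.1, fun p => p.2]
    (fun p => p.2) := PolyC.var (by simp)
  have a1 := PolyB.natEq (PolyN.length (PolyC.fst hy)) ((PolyN.length hx).poly q1)
  have a2 := PolyB.arg2 hV1 hx (PolyC.fst hy)
  have b1 := PolyB.natEq (PolyN.length (PolyC.snd hy)) ((PolyN.length hx).poly q2)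
  have b2 := PolyB.arg2 hV2 hx (PolyC.snd hy)
  refine mem_NPO_le (2 * q1 + 1 + q2) ((a1.and a2).and (b1.and b2)) (fun x => ?_)
  simp only [Bool.and_eq_true, decide_eq_true_eq, Polynomial.eval_add, Polynomial.eval_mul,
    Polynomial.eval_ofNat, Polynomial.eval_one]
  rw [hL1, hL2]
  constructor
  · rintro ⟨⟨y1, h3, h4⟩, ⟨y2, h5, h6⟩⟩
    refine ⟨pr y1 y2, ?_, ?_⟩
    · rw [pr_length]; omega
    · rw [fst_pr, snd_pr]
      exact ⟨⟨h3, h4⟩, ⟨h5, h6⟩⟩
  · rintro ⟨y, -, ⟨h3, h4⟩, ⟨h5, h6⟩⟩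
    exact ⟨⟨fst y, h3, h4⟩, ⟨snd y, h5, h6⟩⟩

theorem NPO_or {O L1 L2 : Lang} (h1 : L1 ∈ NPO O) (h2 : L2 ∈ NPO O) :
    (fun x => L1 x || L2 x) ∈ NPO O := by
  obtain ⟨V1, q1, hV1, hL1⟩ := exists_of_NPO h1
  obtain ⟨V2, q2, hV2, hL2⟩ := exists_of_NPO h2
  have hx : PolyC (fun _ : Str × Str => O) (fun _ => True) [fun p => p.1, fun p => p.2]
    (fun p => p.1) := PolyC.var (by simp)
  have hy : PolyC (fun _ : Str × Str => O) (fun _ => True) [fun p => p.1, fun p => p.2]
    (fun p => p.2) := PolyC.var (by simp)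
  have a1 := PolyB.natEq (PolyN.length (PolyC.fst hy)) ((PolyN.length hx).poly q1)
  have a2 := PolyB.arg2 hV1 hx (PolyC.fst hy)
  have b1 := PolyB.natEq (PolyN.length (PolyC.snd hy)) ((PolyN.length hx).poly q2)
  have b2 := PolyB.arg2 hV2 hx (PolyC.snd hy)
  refine mem_NPO_le (2 * q1 + 1 + q2) ((a1.and a2).or (b1.and b2)) (fun x => ?_)
  simp only [Bool.or_eq_true, Bool.and_eq_true, decide_eq_true_eq, Polynomial.eval_add,
    Polynomial.eval_mul, Polynomial.eval_ofNat, Polynomial.eval_one]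
  rw [hL1, hL2]
  constructor
  · rintro (⟨y, h3, h4⟩ | ⟨y, h3, h4⟩)
    · refine ⟨pr y [], ?_, Or.inl ?_⟩
      · rw [pr_length, List.length_nil]; omega
      · rw [fst_pr]; exact ⟨h3, h4⟩
    · refine ⟨pr [] y, ?_, Or.inr ?_⟩
      · rw [pr_length, List.length_nil]; omega
      · rw [snd_pr]; exact ⟨h3, h4⟩
  · rintro ⟨y, -, ⟨h3, h4⟩ | ⟨h3, h4⟩⟩
    · exact Or.inl ⟨_, h3, h4⟩
    · exact Or.inr ⟨_, h3, h4⟩

/-! ### The set -/

section
variable (X I : Lang) (q : Polynomial ℕ) (k : ℕ)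

/-- the condition on the key: no condition at lengths which are not hidden -/
def key (u : Str) : Bool :=
  hid (fst u).length && (!(decide ((snd u).length = q.eval (fst u).length)) ||
    I (pr (on1 (fst u).length) (snd u)))

/-- the set in `H_1` -/
noncomputable def AK : Lang := fun u => Hi.Kp X k (fst u) || key I q u

end

section
variable {X I : Lang} {q : Polynomial ℕ} {k : ℕ}

theorem mem_NPO_PO {O L : Lang} (h : L ∈ PO O) : L ∈ NPO O := by
  have hx : PolyC (fun _ : Str × Str => O) (fun _ => True) [fun p => p.1, fun p => p.2]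
    (fun p => p.1) := PolyC.var (by simp)
  refine mem_NPO_le 0 (polyB_of_PO h hx) (fun x => ⟨fun h1 => ⟨[], by simp, h1⟩, ?_⟩)
  rintro ⟨_, _, h1⟩
  exact h1

theorem AK_mem (hI : I ∈ NPO X) : AK X I q k ∈ NPO X := by
  have hx : PolyC (fun _ : Str => X) (fun _ => True) [fun x => x] (fun x => x) :=
    PolyC.var (by simp)
  have hf := PolyC.fst hx
  have hn := PolyN.length hf
  have h1 : (fun u => Hi.Kp X k (fst u)) ∈ NPO X := by
    have h2 : (fun u => Unv.KU X (fst (fst u))) ∈ NPO X :=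
      NPO_comp (Unv.KU_mem X) (PolyC.fst hf)
    have h3 := NPO_and h2 (mem_NPO_PO (mem_PO (Hi.pw_poly (O := X) (k := k) hf)))
    exact h3
  have h4 : (fun u => I (pr (on1 (fst u).length) (snd u))) ∈ NPO X :=
    NPO_comp hI (PolyC.pr (t := fun u : Str => on1 (fst u).length) hn (PolyC.snd hx))
  have h5 := NPO_or (mem_NPO_PO (mem_PO (PolyB.natEq (PolyN.length (PolyC.snd hx))
    (hn.poly q)).not)) h4
  exact NPO_or h1 (NPO_and (mem_NPO_PO (mem_PO (hid_poly hn))) h5)

theorem coK_mem (hI : I ∈ NPO X) (tot : ∀ m : ℕ, ∃ y : Str, y.length = q.eval m ∧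
    I (pr (on1 m) y) = false) : (fun z => !(Unv.KU X z)) ∈ NPO (join X (AK X I q k)) := by
  set O := join X (AK X I q k) with hO
  have hz : PolyC (fun _ : Str × Str => O) (fun _ => True) [fun p => p.1, fun p => p.2]
    (fun p => p.1) := PolyC.var (by simp)
  have hy : PolyC (fun _ : Str × Str => O) (fun _ => True) [fun p => p.1, fun p => p.2]
    (fun p => p.2) := PolyC.var (by simp)
  have hpr := PolyC.pr (Hi.pd_poly (k := k) hz) hy
  have h2 := (polyB_of_PO (right_PO X (AK X I q k)) hpr).not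
  refine mem_NPO_le (q.comp (2 * Polynomial.X + 1 + (Polynomial.X + 1) ^ k)) h2 (fun z => ?_)
  have hlen : (2 * Polynomial.X + 1 + (Polynomial.X + 1) ^ k : Polynomial ℕ).eval z.length =
      (Hi.pd k z).length := by
    unfold Hi.pd
    rw [pr_length, PC.un_length]
    simp
  rw [Polynomial.eval_comp, hlen]
  simp only [Bool.not_eq_true']
  have hA : ∀ y : Str, AK X I q k (pr (Hi.pd k z) y) =
      (Unv.KU X z || key I q (pr (Hi.pd k z) y)) := by
    intro y
    unfold AK
    rw [fst_pr, Hi.Kp_pd]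
  constructor
  · intro h3
    obtain ⟨y, hy1, hy2⟩ := tot (Hi.pd k z).length
    refine ⟨y, hy1.le, ?_⟩
    rw [hA, h3, Bool.false_or]
    unfold key
    rw [fst_pr, snd_pr, hy2, decide_eq_true hy1]
    simp
  · rintro ⟨y, -, h5⟩
    rw [hA, Bool.or_eq_false_iff] at h5
    exact h5.1

theorem AK_high (hI : I ∈ NPO X) (tot : ∀ m : ℕ, ∃ y : Str, y.length = q.eval m ∧
    I (pr (on1 m) y) = false) : AK X I q k ∈ High X 1 := by
  refine ⟨AK_mem hI, ?_⟩
  rintro L ⟨B, ⟨B0, hB0, hB⟩, hL⟩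
  set O := join X (AK X I q k) with hO
  have hB' : B ∈ NPO X := NPO_subset hB0 hB
  obtain ⟨red, hr1, hr2⟩ := Unv.KU_hard hB'
  have hK : Unv.KU X ∈ NPO O := NPO_subset (left_PO _ _) (Unv.KU_mem X)
  have hlow : Unv.KU X ∈ Low O 1 := low1_iff.2 ⟨hK, coK_mem hI tot⟩
  have hBj : B ∈ PO (join O (Unv.KU X)) :=
    mem_PO ((polyB_of_PO (right_PO O (Unv.KU X)) (hr1 _)).congr (fun x _ => hr2 x))
  exact hlow.2 ⟨join O (Unv.KU X), query_mem _, NPO_subset hBj hL⟩

end

/-! ### Search by prefixes with a fallible decider -/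

/-- search by prefixes -/
def srch (d : Str → Bool) : ℕ → Str
  | 0 => []
  | i + 1 => srch d i ++ [d (srch d i ++ [true])]

theorem srch_length (d : Str → Bool) : ∀ i, (srch d i).length = i
  | 0 => rfl
  | i + 1 => by rw [srch, List.length_append, srch_length d i]; rfl

/-- Either the result of the search is a solution or the decider has made a mistake. -/
theorem srch_or {P : Str → Prop} {L : ℕ} (d : Str → Bool)
    (h0 : ∃ y : Str, y.length = L ∧ P y) :
    P (srch d L) ∨ ∃ i < L, ¬ (d (srch d i ++ [true]) = true ↔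
      ∃ y : Str, ((srch d i ++ [true]) ++ y).length = L ∧ P ((srch d i ++ [true]) ++ y)) := by
  by_contra hcon
  rw [not_or] at hcon
  obtain ⟨hc1, hc2⟩ := hcon
  push Not at hc2
  have key : ∀ i ≤ L, ∃ y : Str, (srch d i ++ y).length = L ∧ P (srch d i ++ y) := by
    intro i
    induction i with
    | zero =>
      intro _
      obtain ⟨y, h1, h2⟩ := h0
      exact ⟨y, h1, h2⟩
    | succ i ih =>
      intro hi
      obtain ⟨y, h1, h2⟩ := ih (by omega)
      have h3 := hc2 i (by omega)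
      rw [srch]
      cases hd : d (srch d i ++ [true])
      · rcases y with _ | ⟨b, y⟩
        · exfalso
          rw [List.append_nil, srch_length] at h1
          omega
        · cases b
          · exact ⟨y, by simpa using h1, by simpa using h2⟩
          · exfalso
            have h4 := h3.2 ⟨y, by simpa using h1, by simpa using h2⟩
            rw [hd] at h4
            exact absurd h4 (by simp)
      · exact h3.1 hd
  obtain ⟨y, h1, h2⟩ := key L le_rfl
  have h3 : y = [] := by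
    rw [List.length_append, srch_length] at h1
    exact List.length_eq_zero_iff.1 (by omega)
  rw [h3, List.append_nil] at h2
  exact hc1 h2

end Hc

end Pool.Agent.Lib.Pa76659G
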