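import Pool.Agent.Lib.Pa76659G.HcB

set_option autoImplicit false

/-!
The virtual oracle: brute force if it is cheap, and the answer yes otherwise.
-/

namespace Pool.Agent.Lib.Pa76659G

open Pool.Agent.Lib.Pa76659 PC
open Pool.Agent.Lib.Pa76659H (High RHighSucc TComp)

namespace Hc

/-- the cost of brute force at length `m` -/
noncomputable def rr (q q1 : Polynomial ℕ) : Polynomial ℕ :=
  q1.comp (2 * Polynomial.X + 1 + q) + Polynomial.X

open Classical in
/-- brute force over the first `N` strings of length `l` -/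
noncomputable def bf (V : Str × Str → Bool) (u : Str) (l N : ℕ) : Bool :=
  decide (∃ i < N, V (u, Hi.bs l i) = true)

theorem bf_iff {V : Str × Str → Bool} {u : Str} {l N : ℕ} (h : 2 ^ l ≤ N) :
    bf V u l N = true ↔ ∃ y : Str, y.length = l ∧ V (u, y) = true := by
  classical
  unfold bf
  rw [decide_eq_true_eq]
  constructor
  · rintro ⟨i, -, hi⟩
    exact ⟨_, by simp [Hi.bs], hi⟩
  · rintro ⟨y, hy, hv⟩
    obtain ⟨i, hi, hb⟩ := Hi.bs_surj y
    rw [hy] at hi hb
    exact ⟨i, hi.trans_le h, by rw [hb]; exact hv⟩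

/-- the virtual oracle -/
noncomputable def vo (X : Lang) (V : Str × Str → Bool) (q q1 : Polynomial ℕ) (k N : ℕ) : Lang
  | [] => false
  | false :: u => X u
  | true :: u => (decide ((Hi.rk (fst u) + 1) ^ k ≤ (fst u).length) &&
      bf (Unv.VU X) (fst (fst u)) (Hi.rk (fst u)) N) ||
    (hid (fst u).length && ((!(decide ((snd u).length = q.eval (fst u).length)) ||
      !(decide ((rr q q1).eval (fst u).length ≤ Nat.log 2 N))) ||
      bf V (pr (on1 (fst u).length) (snd u))
        (q1.eval (pr (on1 (fst u).length) (snd u)).length) N))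

/-- the query shows a good key -/
def Show (I : Lang) (q q1 : Polynomial ℕ) (N : ℕ) (u : Str) : Prop :=
  hid (fst u).length = true ∧ (snd u).length = q.eval (fst u).length ∧
    I (pr (on1 (fst u).length) (snd u)) = false ∧ Nat.log 2 N < (rr q q1).eval (fst u).length

section
variable {X I : Lang} {V : Str × Str → Bool} {q q1 : Polynomial ℕ} {k N : ℕ}

theorem KU_iff (z : Str) : Unv.KU X z = true ↔
    ∃ y : Str, y.length = (nth z 4).length ∧ Unv.VU X (z, y) = true := by
  classical
  unfold Unv.KU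
  rw [decide_eq_true_eq]
  constructor
  · rintro ⟨y, hy⟩
    refine ⟨y, ?_, hy⟩
    have h2 := hy
    unfold Unv.VU at h2
    rw [Bool.and_eq_true, decide_eq_true_eq] at h2
    exact h2.1
  · rintro ⟨y, -, hy⟩
    exact ⟨y, hy⟩

theorem Kp_eq {x : Str} (hN : N ≠ 0) (h : (Hi.rk x + 1) ^ k ≤ x.length →
    Hi.rk x ≤ Nat.log 2 N) :
    (decide ((Hi.rk x + 1) ^ k ≤ x.length) && bf (Unv.VU X) (fst x) (Hi.rk x) N) =
      Hi.Kp X k x := by
  unfold Hi.Kp
  rw [Bool.and_comm]
  by_cases h1 : (Hi.rk x + 1) ^ k ≤ x.length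
  · rw [decide_eq_true h1, Bool.and_true, Bool.and_true, Bool.eq_iff_iff,
      bf_iff ((Nat.pow_le_pow_right (by norm_num) (h h1)).trans (Nat.pow_log_le_self 2 hN)), KU_iff]
    rfl
  · rw [decide_eq_false h1, Bool.and_false, Bool.and_false]

theorem vo_or (hV : ∀ x, I x = true ↔ ∃ y : Str, y.length = q1.eval x.length ∧ V (x, y) = true)
    (hk : k ≠ 0) (hN : N ≠ 0) {T : ℕ} (hT : ∀ m ≤ T, hid m = false → m ≤ Nat.log 2 N ^ k)
    {v : Str} (hv : v.length ≤ T) (h : vo X V q q1 k N v ≠ join X (AK X I q k) v) :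
    ∃ u, v = true :: u ∧ Show I q q1 N u := by
  rcases v with _ | ⟨b, u⟩
  · exact absurd rfl h
  cases b
  · exact absurd rfl h
  refine ⟨u, rfl, ?_⟩
  have hfl : (fst u).length ≤ T := (fst_length_le u).trans (by
    rw [List.length_cons] at hv
    omega)
  have hself : (Hi.rk (fst u) + 1) ^ k ≤ (fst u).length → Hi.rk (fst u) + 1 ≤ (fst u).length :=
    fun h1 => (Nat.le_self_pow hk _).trans h1
  change ((decide ((Hi.rk (fst u) + 1) ^ k ≤ (fst u).length) &&
      bf (Unv.VU X) (fst (fst u)) (Hi.rk (fst u)) N) ||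
    (hid (fst u).length && ((!(decide ((snd u).length = q.eval (fst u).length)) ||
      !(decide ((rr q q1).eval (fst u).length ≤ Nat.log 2 N))) ||
      bf V (pr (on1 (fst u).length) (snd u))
        (q1.eval (pr (on1 (fst u).length) (snd u)).length) N))) ≠
    (Hi.Kp X k (fst u) || key I q u) at h
  unfold key at h
  cases hh : hid (fst u).length
  · exfalso
    rw [hh, Bool.false_and, Bool.false_and, Bool.or_false, Bool.or_false] at h
    refine h (Kp_eq hN fun h1 => ?_)
    have h2 := h1.trans (hT _ hfl hh)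
    have h3 : Hi.rk (fst u) + 1 ≤ Nat.log 2 N := (Nat.pow_le_pow_iff_left hk).1 h2
    omega
  · rw [hh, Bool.true_and, Bool.true_and] at h
    by_cases h1 : (rr q q1).eval (fst u).length ≤ Nat.log 2 N
    · exfalso
      rw [decide_eq_true h1, Bool.not_true, Bool.or_false] at h
      have h2 : (rr q q1).eval (fst u).length =
          q1.eval (2 * (fst u).length + 1 + q.eval (fst u).length) + (fst u).length := by
        simp [rr, Polynomial.eval_comp]
      rw [Kp_eq hN fun h3 => by
        have := hself h3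
        omega] at h
      by_cases h3 : (snd u).length = q.eval (fst u).length
      · rw [decide_eq_true h3, Bool.not_true, Bool.false_or, Bool.false_or] at h
        refine h ?_
        congr 1
        rw [Bool.eq_iff_iff, bf_iff, hV]
        refine (Nat.pow_le_pow_right (by norm_num) ?_).trans (Nat.pow_log_le_self 2 hN)
        rw [pr_length, on1_eq, PC.un_length, h3]
        omega
      · rw [decide_eq_false h3, Bool.not_false, Bool.true_or, Bool.true_or] at h
        exact h rfl
    · rw [decide_eq_false h1, Bool.not_false, Bool.or_true, Bool.true_or, Bool.or_true] at h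
      have h2 : (Hi.Kp X k (fst u) || (!(decide ((snd u).length = q.eval (fst u).length)) ||
          I (pr (on1 (fst u).length) (snd u)))) = false := by
        cases h3 : (Hi.Kp X k (fst u) || (!(decide ((snd u).length = q.eval (fst u).length)) ||
          I (pr (on1 (fst u).length) (snd u))))
        · rfl
        · exact absurd h3.symm h
      rw [Bool.or_eq_false_iff, Bool.or_eq_false_iff, Bool.not_eq_false', decide_eq_true_eq] at h2
      exact ⟨hh, h2.2.1, h2.2.2, not_le.1 h1⟩

/-- the fallible decider -/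
noncomputable def Dd (X : Lang) (V : Str × Str → Bool) (q q1 : Polynomial ℕ) (k : ℕ) (M : Prog)
    (p : Polynomial ℕ) (N : ℕ) (z : Str) : Bool :=
  accepts (vo X V q q1 k N) M (inp2 z []) (p.eval z.length)

/-- the query at time `t` -/
noncomputable def qt (X : Lang) (V : Str × Str → Bool) (q q1 : Polynomial ℕ) (k : ℕ) (M : Prog)
    (N : ℕ) (z : Str) (t : ℕ) : Str :=
  (oc (qry (runN (vo X V q q1 k N) t ([M], inp2 z [])))).tail.tail

theorem Dd_or (hV : ∀ x, I x = true ↔ ∃ y : Str, y.length = q1.eval x.length ∧ V (x, y) = true)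
    (hk : k ≠ 0) (hN : N ≠ 0) {T : ℕ} (hT : ∀ m ≤ T, hid m = false → m ≤ Nat.log 2 N ^ k)
    {M : Prog} {p : Polynomial ℕ} {L : Lang} (hM : ∀ x : Str, L x =
      accepts (join X (AK X I q k)) M (inp x) (p.eval x.length)) {z : Str}
    (hz : z.length + p.eval z.length ≤ T) (h : Dd X V q q1 k M p N z ≠ L z) :
    ∃ t < p.eval z.length, Show I q q1 N (qt X V q q1 k M N z t) := by
  by_contra hcon
  push Not at hcon
  refine h ?_
  have h2 : runN (vo X V q q1 k N) (p.eval z.length) ([M], inp2 z []) =
      runN (join X (AK X I q k)) (p.eval z.length) ([M], inp2 z []) := by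
    refine Hi.run_eq (fun t ht v hv => ?_)
    by_contra h3
    have hb : v.length ≤ T := by
      have h4 := qry_bdd (Pa76659.runN_bdd (vo X V q q1 k N) t (z.length + 0) ([M], inp2 z [])
        (Pa76659.inp2_bdd z [])) hv
      omega
    obtain ⟨u, hu, hs⟩ := vo_or hV hk hN hT hb h3
    refine hcon t ht ?_
    unfold qt
    rw [hv, hu]
    exact hs
  unfold Dd
  rw [hM z, inp_eq, accepts, accepts, h2]

end

/-! ### Computability -/

section
variable {α : Type} {D : α → Prop} {ctx : List (α → Str)} {X : Lang} {V : Str × Str → Bool}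
  {q q1 : Polynomial ℕ} {k : ℕ}

theorem bf_poly {W : Str × Str → Bool}
    (hW : PolyB (fun _ : Str × Str => X) (fun _ => True) [fun p => p.1, fun p => p.2] W)
    {u : α → Str} {l n : α → ℕ} (hu : PolyC (fun _ => X) D ctx u) (hl : PolyN (fun _ => X) D ctx l)
    (hn : PolyN (fun _ => X) D ctx n) : PolyB (fun _ => X) D ctx (fun a => bf W (u a) (l a) (n a)) := by
  classical
  refine PolyB.exists_lt (φ := fun p : α × ℕ => W (u p.1, Hi.bs (l p.1) p.2)) hn ?_
  have hu' : PolyC (fun _ : α × ℕ => X) (fun p => D p.1 ∧ p.2 < n p.1)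
      (PC.lift ctx ++ [fun p => una p.2]) (fun p => u p.1) :=
    (PolyC.lift hu (fun p hp => hp.1)).weakenRight _
  have hl' : PolyN (fun _ : α × ℕ => X) (fun p => D p.1 ∧ p.2 < n p.1)
      (PC.lift ctx ++ [fun p => una p.2]) (fun p => l p.1) :=
    (PolyC.lift hl (fun p hp => hp.1)).weakenRight _
  exact PolyB.arg2 hW hu' (Hi.bs_poly hl' (PolyC.var (by simp)))

theorem vo_poly (hV : PolyB (fun _ : Str × Str => X) (fun _ => True) [fun p => p.1, fun p => p.2] V)
    {n : α → ℕ} {v : α → Str} (hn : PolyN (fun _ => X) D ctx n) (hv : PolyC (fun _ => X) D ctx v) :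
    PolyB (fun _ => X) D ctx (fun a => vo X V q q1 k (n a) (v a)) := by
  classical
  have hu := hv.tail
  have hx := PolyC.fst hu
  have hm := PolyN.length hx
  have hy := PolyC.snd hu
  have hw := PolyC.pr (t := fun a => on1 (fst (v a).tail).length) hm hy
  have h1 := Hi.pw_poly (k := k) hx
  have h2 := bf_poly (Unv.VU_poly X) (PolyC.fst hx) (Hi.rk_poly hx) hn
  have h3 := hid_poly hm
  have h4 := (PolyB.natEq (PolyN.length hy) (hm.poly q)).not
  have h5 := (PolyB.le (hm.poly (rr q q1)) (Hi.log_poly hn)).not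
  have h6 := bf_poly hV hw ((PolyN.length hw).poly q1) hn
  have h7 := (h1.and h2).or (h3.and ((h4.or h5).or h6))
  have h8 : PolyB (fun _ => X) D ctx (fun a => X (v a).tail) := PolyB.qry hu
  refine PolyC.congr (PolyC.cases hv (u0 := fun _ => [false]) (u1 := fun a => [X (v a).tail])
    (PolyC.const _) (PolyC.mono h8 fun _ h => h.1) (PolyC.mono h7 fun _ h => h.1)) ?_
  intro a _
  show _ = [vo X V q q1 k (n a) (v a)]
  rcases hv' : v a with _ | ⟨b, u⟩
  · rfl
  · cases b
    · rfl
    · beta_reduce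
      rw [hv']
      rfl

theorem cfg_poly (hV : PolyB (fun _ : Str × Str => X) (fun _ => True) [fun p => p.1, fun p => p.2] V)
    (M : Prog) {n m : α → ℕ} {x : α → Str}
    (hn : PolyN (fun _ => X) D ctx n) (hm : PolyN (fun _ => X) D ctx m)
    (hx : PolyC (fun _ => X) D ctx x) :
    PolyC (fun _ => X) D ctx (fun a => PC.enc M (M.bnd + 1)
      (runN (vo X V q q1 k (n a)) (m a) ([M], inp2 (x a) []))) := by
  obtain ⟨ps, hps⟩ := hx.length_le
  refine (PolyC.runT (orc := fun _ : α => X) (D := D) (ctx := ctx) M (M.bnd + 1) (by omega)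
    (fun a _ => vo X V q q1 k (n a)) (fun a => inp2 (x a) []) m ?_ ?_ hm ⟨ps, ?_⟩).congr
    (fun a _ => by rw [runT_const])
  · refine vo_poly (n := fun p : (α × ℕ) × Str => n p.1.1) (v := fun p => p.2) hV ?_
      (PolyC.var (by simp))
    exact (PolyC.lift ((PolyC.lift hn (D' := fun p : α × ℕ => D p.1 ∧ p.2 < m p.1)
      (fun p hp => hp.1)).weakenRight _)
      (D' := fun p : (α × ℕ) × Str => D p.1.1 ∧ p.1.2 < m p.1.1) (fun p hp => hp)).weakenRight _
  · intro r _
    rcases r with _ | _ | r
    · exact hx.congr (fun a _ => by simp [inp2])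
    · exact PolyC.nil.congr (fun a _ => by simp [inp2])
    · exact PolyC.nil.congr (fun a _ => by simp [inp2])
  · intro a ha
    refine (Pa76659.inp2_bdd (x a) []).mono ?_
    have h2 := hps a ha
    simpa using h2

theorem Dd_poly (hV : PolyB (fun _ : Str × Str => X) (fun _ => True) [fun p => p.1, fun p => p.2] V)
    (M : Prog) (p : Polynomial ℕ) {n : α → ℕ} {z : α → Str} (hn : PolyN (fun _ => X) D ctx n)
    (hz : PolyC (fun _ => X) D ctx z) :
    PolyB (fun _ => X) D ctx (fun a => Dd X V q q1 k M p (n a) (z a)) := by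
  refine PolyB.accepts M (fun a => vo X V q q1 k (n a)) z (fun _ => [])
      (fun a => p.eval (z a).length) ?_ hz PolyC.nil ((PolyN.length hz).poly p)
  exact vo_poly (n := fun z : α × Str => n z.1) (v := fun z => z.2) hV
      ((PolyC.lift hn (fun z hz => hz)).weakenRight _) (PolyC.var (by simp))

theorem qt_poly (hV : PolyB (fun _ : Str × Str => X) (fun _ => True) [fun p => p.1, fun p => p.2] V)
    (M : Prog) {n t : α → ℕ} {z : α → Str} (hn : PolyN (fun _ => X) D ctx n)
    (hz : PolyC (fun _ => X) D ctx z) (ht : PolyN (fun _ => X) D ctx t) :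
    PolyC (fun _ => X) D ctx (fun a => qt X V q q1 k M (n a) (z a) (t a)) := by
  refine PolyC.tail (PolyC.tail (PolyC.qry' M
    (fun a : α => runN (vo X V q q1 k (n a)) (t a) ([M], inp2 (z a) []))
      (cfg_poly hV M hn ht hz) (fun a _ => ?_)))
  have h := runT_KK (M := M) (fun _ => vo X V q q1 k (n a)) (inp2 (z a) []) (t a)
  rwa [runT_const] at h

end

end Hc

end Pool.Agent.Lib.Pa76659G
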