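import Pool.Agent.Lib.Pa76659G.HcC

set_option autoImplicit false

/-!
The nested search: lists which contain good keys.
-/

namespace Pool.Agent.Lib.Pa76659G

open Pool.Agent.Lib.Pa76659 PC
open Pool.Agent.Lib.Pa76659H (High RHighSucc TComp)

namespace Hc

open Classical in
/-- beginnings of witnesses -/
noncomputable def Pf (W : Str × Str → Bool) (l : Polynomial ℕ) : Lang := fun w =>
  decide (∃ y : Str, (snd w ++ y).length = l.eval (fst w).length ∧ W (fst w, snd w ++ y) = true)

theorem Pf_mem {X : Lang} {W : Str × Str → Bool} {l : Polynomial ℕ}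
    (hW : PolyB (fun _ : Str × Str => X) (fun _ => True) [fun p => p.1, fun p => p.2] W) :
    Pf W l ∈ NPO X := by
  classical
  have hz : PolyC (fun _ : Str × Str => X) (fun _ => True) [fun p => p.1, fun p => p.2]
    (fun p => p.1) := PolyC.var (by simp)
  have hy : PolyC (fun _ : Str × Str => X) (fun _ => True) [fun p => p.1, fun p => p.2]
    (fun p => p.2) := PolyC.var (by simp)
  have hn := PolyN.length (PolyC.fst hz)
  have ha := (PolyC.snd hz).append hy
  have h1 := PolyB.natEq (PolyN.length ha) (hn.poly l)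
  have h2 := PolyB.arg2 hW (PolyC.fst hz) ha
  refine mem_NPO_le l (h1.and h2) (fun u => ?_)
  unfold Pf
  simp only [Bool.and_eq_true, decide_eq_true_eq]
  constructor
  · rintro ⟨y, h3, h4⟩
    refine ⟨y, ?_, h3, h4⟩
    have h5 : y.length ≤ (snd u ++ y).length := by
      rw [List.length_append]
      omega
    rw [h3] at h5
    exact h5.trans (eval_mono l (fst_length_le u))
  · rintro ⟨y, -, h3, h4⟩
    exact ⟨y, h3, h4⟩

section
variable (X : Lang) (V : Str × Str → Bool) (q q1 : Polynomial ℕ) (k : ℕ) (M : Prog)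
  (p : Polynomial ℕ)

/-- the search by prefixes with the fallible decider -/
noncomputable def sr (red : Str → Str) (N : ℕ) (u : Str) (i : ℕ) : Str :=
  srch (fun z => Dd X V q q1 k M p N (red (pr u z))) i

/-- the calls of the decider -/
noncomputable def cl (red : Str → Str) (N : ℕ) (u : Str) (i : ℕ) : Str :=
  red (pr u (sr X V q q1 k M p red N u i ++ [true]))

end

section
variable {X I : Lang} {V : Str × Str → Bool} {q q1 : Polynomial ℕ} {k : ℕ} {M : Prog}
  {p : Polynomial ℕ} {red : Str → Str} {N : ℕ}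

theorem sr_length (u : Str) (i : ℕ) : (sr X V q q1 k M p red N u i).length = i := srch_length _ _

theorem level {W : Str × Str → Bool} {l : Polynomial ℕ}
    (hred : ∀ w, Unv.KU X (red w) = Pf W l w) (u : Str)
    (h0 : ∃ y : Str, y.length = l.eval u.length ∧ W (u, y) = true) :
    W (u, sr X V q q1 k M p red N u (l.eval u.length)) = true ∨
      ∃ i < l.eval u.length, Dd X V q q1 k M p N (cl X V q q1 k M p red N u i) ≠
        Unv.KU X (cl X V q q1 k M p red N u i) := by
  classical
  rcases srch_or (P := fun y => W (u, y) = true)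
    (fun z => Dd X V q q1 k M p N (red (pr u z))) h0 with h | ⟨i, hi, h⟩
  · exact Or.inl h
  · refine Or.inr ⟨i, hi, fun he => h ?_⟩
    unfold cl sr at he
    rw [he, hred]
    unfold Pf
    rw [decide_eq_true_eq, fst_pr, snd_pr]

theorem cl_length {pl : Polynomial ℕ} (hpl : ∀ x : Str, (red x).length ≤ pl.eval x.length)
    {l : Polynomial ℕ} (u : Str) {i : ℕ} (hi : i < l.eval u.length) :
    (cl X V q q1 k M p red N u i).length ≤
      (pl.comp (2 * Polynomial.X + 1 + l)).eval u.length := by
  unfold cl
  refine (hpl _).trans ?_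
  rw [Polynomial.eval_comp]
  refine eval_mono pl ?_
  rw [pr_length, List.length_append, sr_length]
  simp only [Polynomial.eval_add, Polynomial.eval_mul, Polynomial.eval_ofNat, Polynomial.eval_X,
    Polynomial.eval_one, List.length_singleton]
  omega

end

section
variable {α : Type} {D : α → Prop} {ctx : List (α → Str)} {X : Lang} {V : Str × Str → Bool}
  {q q1 : Polynomial ℕ} {k : ℕ} {red : Str → Str}

theorem sr_poly (hV : PolyB (fun _ : Str × Str => X) (fun _ => True) [fun p => p.1, fun p => p.2] V)
    (M : Prog) (p : Polynomial ℕ)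
    (hr : PolyC (fun _ : Str => X) (fun _ => True) [fun x => x] red)
    {n i : α → ℕ} {u : α → Str} (hn : PolyN (fun _ => X) D ctx n)
    (hu : PolyC (fun _ => X) D ctx u) (hi : PolyN (fun _ => X) D ctx i) :
    PolyC (fun _ => X) D ctx (fun a => sr X V q q1 k M p red (n a) (u a) (i a)) := by
  obtain ⟨pi, hpi⟩ := PolyC.length_le hi
  refine PolyC.natRec (fun a j => sr X V q q1 k M p red (n a) (u a) j) hi PolyC.nil ?_
    ⟨pi, fun a ha j hj => ?_⟩
  · set ctx' : List (α × ℕ → Str) := PC.lift ctx ++ [fun z => una z.2,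
      fun z => sr X V q q1 k M p red (n z.1) (u z.1) z.2] with hctx'
    have hF : PolyC (fun _ : α × ℕ => X) (fun z => D z.1 ∧ z.2 < i z.1) ctx'
      (fun z => sr X V q q1 k M p red (n z.1) (u z.1) z.2) := PolyC.var (by simp [hctx'])
    have hn' : PolyN (fun _ : α × ℕ => X) (fun z => D z.1 ∧ z.2 < i z.1) ctx'
      (fun z => n z.1) := (PolyC.lift hn (fun z hz => hz.1)).weakenRight _
    have hu' : PolyC (fun _ : α × ℕ => X) (fun z => D z.1 ∧ z.2 < i z.1) ctx'
      (fun z => u z.1) := (PolyC.lift hu (fun z hz => hz.1)).weakenRight _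
    have h1 := PolyC.arg hr (PolyC.pr hu' (hF.append (PolyC.const [true])))
    have h2 := Dd_poly (q := q) (q1 := q1) (k := k) hV M p hn' h1
    have h3 : PolyC (fun _ : α × ℕ => X) (fun z => D z.1 ∧ z.2 < i z.1) ctx'
      (fun z => [Dd X V q q1 k M p (n z.1) (red (pr (u z.1)
        (sr X V q q1 k M p red (n z.1) (u z.1) z.2 ++ [true])))]) := h2
    exact (hF.append h3).congr (fun z _ => rfl)
  · rw [sr_length]
    have h2 := hpi a ha
    rw [PC.un_length] at h2
    omega

theorem cl_poly (hV : PolyB (fun _ : Str × Str => X) (fun _ => True) [fun p => p.1, fun p => p.2] V)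
    (M : Prog) (p : Polynomial ℕ)
    (hr : PolyC (fun _ : Str => X) (fun _ => True) [fun x => x] red)
    {n i : α → ℕ} {u : α → Str} (hn : PolyN (fun _ => X) D ctx n)
    (hu : PolyC (fun _ => X) D ctx u) (hi : PolyN (fun _ => X) D ctx i) :
    PolyC (fun _ => X) D ctx (fun a => cl X V q q1 k M p red (n a) (u a) (i a)) :=
  PolyC.arg hr (PolyC.pr hu ((sr_poly hV M p hr hn hu hi).append (PolyC.const [true])))

end

end Hc

end Pool.Agent.Lib.Pa76659G
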