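import Pool.Agent.Lib.Pa76659G.HcD
import Pool.Agent.Lib.Pa76659G.UoFP

set_option autoImplicit false

/-!
If `\hat H_1 = H_1` then subexponential time lists contain good keys.
-/

namespace Pool.Agent.Lib.Pa76659G

open Pool.Agent.Lib.Pa76659 PC
open Pool.Agent.Lib.Pa76659H (High RHighSucc TComp)

namespace Hc

section
variable (X : Lang) (V : Str × Str → Bool) (q q1 : Polynomial ℕ) (k : ℕ) (M : Prog)
  (p : Polynomial ℕ)

/-- the test whether the search for a witness fails -/
noncomputable def W2 (red1 : Str → Str) (z : Str × Str) : Bool :=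
  !(V (pr (on1 z.1.length) z.2, sr X V q q1 k M p red1 z.1.length (pr (on1 z.1.length) z.2)
    (q1.eval (pr (on1 z.1.length) z.2).length)))

/-- the key found by the search -/
noncomputable def ys (red2 : Str → Str) (N : ℕ) : Str := sr X V q q1 k M p red2 N (on1 N) (q.eval N)

/-- the calls of the decider -/
noncomputable def call (red1 red2 : Str → Str) (N c : ℕ) : Str :=
  if decide (c < q.eval N) = true then cl X V q q1 k M p red2 N (on1 N) c
  else cl X V q q1 k M p red1 N (pr (on1 N) (ys X V q q1 k M p red2 N)) (c - q.eval N)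

/-- the lists -/
noncomputable def ff (red1 red2 : Str → Str) (N c t : ℕ) : Str :=
  if decide (t = 0) = true then pr (on1 N) (ys X V q q1 k M p red2 N)
  else pr (on1 (fst (qt X V q q1 k M N (call X V q q1 k M p red1 red2 N c) (t - 1))).length)
    (snd (qt X V q q1 k M N (call X V q q1 k M p red1 red2 N c) (t - 1)))

end

section
variable {α : Type} {D : α → Prop} {ctx : List (α → Str)} {X : Lang} {V : Str × Str → Bool}
  {q q1 : Polynomial ℕ} {k : ℕ} {red1 red2 : Str → Str}

theorem W2_poly (hV : PolyB (fun _ : Str × Str => X) (fun _ => True) [fun p => p.1, fun p => p.2] V)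
    (M : Prog) (p : Polynomial ℕ)
    (hr : PolyC (fun _ : Str => X) (fun _ => True) [fun x => x] red1) :
    PolyB (fun _ : Str × Str => X) (fun _ => True) [fun p => p.1, fun p => p.2]
      (W2 X V q q1 k M p red1) := by
  have hz : PolyC (fun _ : Str × Str => X) (fun _ => True) [fun p => p.1, fun p => p.2]
    (fun p => p.1) := PolyC.var (by simp)
  have hy : PolyC (fun _ : Str × Str => X) (fun _ => True) [fun p => p.1, fun p => p.2]
    (fun p => p.2) := PolyC.var (by simp)
  have hn := PolyN.length hz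
  have hu := PolyC.pr (t := fun z : Str × Str => on1 z.1.length) hn hy
  exact (PolyB.arg2 hV hu (sr_poly hV M p hr hn hu ((PolyN.length hu).poly q1))).not

theorem ys_poly (hV : PolyB (fun _ : Str × Str => X) (fun _ => True) [fun p => p.1, fun p => p.2] V)
    (M : Prog) (p : Polynomial ℕ)
    (hr2 : PolyC (fun _ : Str => X) (fun _ => True) [fun x => x] red2)
    {n : α → ℕ} (hn : PolyN (fun _ => X) D ctx n) :
    PolyC (fun _ => X) D ctx (fun a => ys X V q q1 k M p red2 (n a)) :=
  sr_poly hV M p hr2 hn (u := fun a => on1 (n a)) hn (hn.poly q)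

theorem call_poly (hV : PolyB (fun _ : Str × Str => X) (fun _ => True) [fun p => p.1, fun p => p.2] V)
    (M : Prog) (p : Polynomial ℕ)
    (hr1 : PolyC (fun _ : Str => X) (fun _ => True) [fun x => x] red1)
    (hr2 : PolyC (fun _ : Str => X) (fun _ => True) [fun x => x] red2)
    {n c : α → ℕ} (hn : PolyN (fun _ => X) D ctx n) (hc : PolyN (fun _ => X) D ctx c) :
    PolyC (fun _ => X) D ctx (fun a => call X V q q1 k M p red1 red2 (n a) (c a)) := by
  refine PolyC.ite (PolyB.lt hc (hn.poly q))
    ((cl_poly hV M p hr2 hn (u := fun a => on1 (n a)) hn hc).mono fun _ h => h.1)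
    ((cl_poly hV M p hr1 hn (PolyC.pr (t := fun a => on1 (n a)) hn (ys_poly hV M p hr2 hn))
      (hc.sub (hn.poly q))).mono fun _ h => h.1)

theorem ff_poly (hV : PolyB (fun _ : Str × Str => X) (fun _ => True) [fun p => p.1, fun p => p.2] V)
    (M : Prog) (p : Polynomial ℕ)
    (hr1 : PolyC (fun _ : Str => X) (fun _ => True) [fun x => x] red1)
    (hr2 : PolyC (fun _ : Str => X) (fun _ => True) [fun x => x] red2)
    {n c t : α → ℕ} (hn : PolyN (fun _ => X) D ctx n) (hc : PolyN (fun _ => X) D ctx c)
    (ht : PolyN (fun _ => X) D ctx t) :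
    PolyC (fun _ => X) D ctx (fun a => ff X V q q1 k M p red1 red2 (n a) (c a) (t a)) := by
  have h1 := qt_poly (q := q) (q1 := q1) (k := k) hV M hn (call_poly (q := q) (q1 := q1) (k := k)
    hV M p hr1 hr2 hn hc) (ht.sub (PolyN.const 1))
  refine PolyC.ite (PolyB.natEq ht (PolyN.const 0))
    ((PolyC.pr (t := fun a => on1 (n a)) hn (ys_poly hV M p hr2 hn)).mono fun _ h => h.1)
    ((PolyC.pr (t := fun a => on1 _) (PolyN.length (PolyC.fst h1))
      (PolyC.snd h1)).mono fun _ h => h.1)

end

/-- If `\hat H_1 = H_1` then for all search problems with unary instances whose solutions exist and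
are verified in `coNP`, subexponential time lists contain solutions, infinitely often. -/
theorem lists {X I : Lang} {q : Polynomial ℕ} (h : High X 1 ⊆ RHighSucc X 0) (hI : I ∈ NPO X)
    (tot : ∀ m : ℕ, ∃ y : Str, y.length = q.eval m ∧ I (pr (on1 m) y) = false) (k : ℕ) :
    ∃ f ∈ FPO X, ∃ P : Polynomial ℕ, ∀ w0 : ℕ, ∃ w ≥ w0, ∃ c ≤ P.eval (2 ^ w),
      ∃ t ≤ P.eval (2 ^ w), ∃ (m : ℕ) (y : Str),
        f (pr (on1 (2 ^ w)) (pr (on1 c) (on1 t))) = pr (on1 m) y ∧
        y.length = q.eval m ∧ I (pr (on1 m) y) = false ∧ w ^ k ≤ m := by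
  classical
  obtain ⟨V, q1, hV, hIV⟩ := exists_of_NPO hI
  set A := AK X I q (k + 2) with hA
  obtain ⟨B, hB, hLB⟩ := (h (AK_high (k := k + 2) hI tot)).2
    ⟨Unv.KU X, ⟨X, query_mem X, Unv.KU_mem X⟩, query_mem _⟩
  obtain ⟨M, p, hM⟩ := PO_subset hB hLB
  obtain ⟨red1, hr1, hr1'⟩ := Unv.KU_hard (Pf_mem (l := q1) hV)
  obtain ⟨red2, hr2, hr2'⟩ := Unv.KU_hard (Pf_mem (l := q)
    (W2_poly (q := q) (q1 := q1) (k := k + 2) hV M p (hr1 X)))
  obtain ⟨pl1, hpl1⟩ := (hr1 X).length_le
  obtain ⟨pl2, hpl2⟩ := (hr2 X).length_le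
  have hpl1' : ∀ x : Str, (red1 x).length ≤ pl1.eval x.length := fun x => by
    have := hpl1 x trivial
    simpa using this
  have hpl2' : ∀ x : Str, (red2 x).length ≤ pl2.eval x.length := fun x => by
    have := hpl2 x trivial
    simpa using this
  set U : Polynomial ℕ := 2 * Polynomial.X + 1 + q with hU
  set L1 : Polynomial ℕ := (pl1.comp (2 * Polynomial.X + 1 + q1)).comp U with hL1
  set L2 : Polynomial ℕ := pl2.comp (2 * Polynomial.X + 1 + q) with hL2
  set T : Polynomial ℕ := (L1 + p.comp L1) + (L2 + p.comp L2) with hT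
  set P : Polynomial ℕ := q + q1.comp U + T + 1 with hP
  have on1l : ∀ n, (on1 n).length = n := fun n => by rw [on1_eq, PC.un_length]
  have hTe : ∀ N, T.eval N = (L1.eval N + p.eval (L1.eval N)) + (L2.eval N + p.eval (L2.eval N)) := by
    intro N
    have h1 : (p.comp L1).eval N = p.eval (L1.eval N) := Polynomial.eval_comp
    have h2 : (p.comp L2).eval N = p.eval (L2.eval N) := Polynomial.eval_comp
    rw [hT, Polynomial.eval_add, Polynomial.eval_add, Polynomial.eval_add, h1, h2]
  refine ⟨fun w => ff X V q q1 (k + 2) M p red1 red2 (fst w).length (fst (snd w)).length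
    (snd (snd w)).length, ?_, P, fun w0 => ?_⟩
  · have hx : PolyC (fun _ : Str => X) (fun _ => True) [fun x => x] (fun x => x) :=
      PolyC.var (by simp)
    exact Uo.FPO_of_polyC (ff_poly hV M p (hr1 X) (hr2 X) (PolyN.length (PolyC.fst hx))
      (PolyN.length (PolyC.fst (PolyC.snd hx))) (PolyN.length (PolyC.snd (PolyC.snd hx))))
  obtain ⟨n0, hn0⟩ := Pool.Agent.Lib.Pa76659.pow_le_two_pow k
  obtain ⟨w, hw, hG1, hG2⟩ := good_w k (rr q q1) T (max w0 n0)
  obtain ⟨N, hNw⟩ : ∃ N, N = 2 ^ w := ⟨_, rfl⟩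
  have hlg : Nat.log 2 N = w := by rw [hNw]; exact Nat.log_pow (by norm_num) w
  rw [← hNw] at hG1
  have hN0 : N ≠ 0 := by
    have : 0 < 2 ^ w := by positivity
    omega
  have hlogN : w ^ k ≤ N := by
    rw [hNw]
    exact hn0 w ((le_max_right _ _).trans hw)
  have e : ∀ c t, (fun w => ff X V q q1 (k + 2) M p red1 red2 (fst w).length
      (fst (snd w)).length (snd (snd w)).length) (pr (on1 N) (pr (on1 c) (on1 t))) =
      ff X V q q1 (k + 2) M p red1 red2 N c t := by
    intro c t
    beta_reduce
    rw [fst_pr, snd_pr, fst_pr, snd_pr, on1l, on1l, on1l]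
  have hTN := hTe N
  refine ⟨w, (le_max_left _ _).trans hw, ?_⟩
  rw [← hNw]
  -- a wrong call gives a good key
  have wrong : ∀ c, c < q.eval N + (q1.comp U).eval N →
      (call X V q q1 (k + 2) M p red1 red2 N c).length +
        p.eval (call X V q q1 (k + 2) M p red1 red2 N c).length ≤ T.eval N →
      Dd X V q q1 (k + 2) M p N (call X V q q1 (k + 2) M p red1 red2 N c) ≠
        Unv.KU X (call X V q q1 (k + 2) M p red1 red2 N c) →
      ∃ c ≤ P.eval N, ∃ t ≤ P.eval N, ∃ (m : ℕ) (y : Str),
        (fun w => ff X V q q1 (k + 2) M p red1 red2 (fst w).length (fst (snd w)).length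
          (snd (snd w)).length) (pr (on1 N) (pr (on1 c) (on1 t))) = pr (on1 m) y ∧
        y.length = q.eval m ∧ I (pr (on1 m) y) = false ∧ w ^ k ≤ m := by
    intro c hc hlen hne
    obtain ⟨t, ht, hs1, hs2, hs3, hs4⟩ := Dd_or (k := k + 2) (M := M) (p := p) hIV (by omega) hN0
      (by rw [hlg]; exact hG1) (L := Unv.KU X) (fun x => (hM x).2) hlen hne
    rw [hlg] at hs4
    refine ⟨c, ?_, t + 1, ?_, _, _, (e c (t + 1)).trans ?_, hs2, hs3, hG2 _ hs1 hs4⟩
    · rw [hP]
      simp only [Polynomial.eval_add, Polynomial.eval_one]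
      omega
    · rw [hP]
      simp only [Polynomial.eval_add, Polynomial.eval_one]
      omega
    · unfold ff
      rw [if_neg (by simp), Nat.add_sub_cancel]
  set ystar := ys X V q q1 (k + 2) M p red2 N with hys
  have hysl : ystar.length = q.eval N := sr_length _ _
  have hul : (pr (on1 N) ystar).length = U.eval N := by
    rw [pr_length, on1l, hysl, hU]
    simp
  rcases level (X := X) (V := V) (q := q) (q1 := q1) (k := k + 2) (M := M) (p := p) (N := N)
    hr2' (on1 N) (by
      obtain ⟨y, hy1, hy2⟩ := tot N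
      refine ⟨y, by rw [on1l]; exact hy1, ?_⟩
      unfold W2
      rw [Bool.not_eq_true', on1l]
      by_contra h1
      rw [Bool.not_eq_false] at h1
      have h2 : I (pr (on1 N) y) = true := (hIV _).2 ⟨_, sr_length _ _, h1⟩
      rw [hy2] at h2
      exact absurd h2 (by simp)) with h1 | ⟨i, hi, h1⟩
  · rw [on1l] at h1
    change W2 X V q q1 (k + 2) M p red1 (on1 N, ystar) = true at h1
    unfold W2 at h1
    rw [Bool.not_eq_true', on1l] at h1
    cases hIy : I (pr (on1 N) ystar)
    · refine ⟨0, Nat.zero_le _, 0, Nat.zero_le _, N, ystar, (e 0 0).trans ?_, hysl, hIy, hlogN⟩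
      unfold ff
      rw [if_pos (by simp)]
    · rcases level (X := X) (V := V) (q := q) (q1 := q1) (k := k + 2) (M := M) (p := p) (N := N)
        hr1' (pr (on1 N) ystar) ((hIV _).1 hIy) with h2 | ⟨i, hi, h2⟩
      · rw [h1] at h2
        exact absurd h2 (by simp)
      · have hc : call X V q q1 (k + 2) M p red1 red2 N (q.eval N + i) =
            cl X V q q1 (k + 2) M p red1 N (pr (on1 N) ystar) i := by
          unfold call
          rw [if_neg (by rw [decide_eq_true_eq]; omega), Nat.add_sub_cancel_left]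
        have hl := cl_length (X := X) (V := V) (q := q) (q1 := q1) (k := k + 2) (M := M) (p := p)
          (N := N) hpl1' (pr (on1 N) ystar) hi
        rw [hul, ← Polynomial.eval_comp] at hl
        rw [hul] at hi
        refine wrong (q.eval N + i) ?_ ?_ ?_
        · rw [Polynomial.eval_comp]
          omega
        · rw [hc]
          have hl' : (cl X V q q1 (k + 2) M p red1 N (pr (on1 N) ystar) i).length ≤
            L1.eval N := hl
          have h3 := eval_mono p hl'
          omega
        · rw [hc]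
          exact h2
  · rw [on1l] at hi
    have hc : call X V q q1 (k + 2) M p red1 red2 N i =
        cl X V q q1 (k + 2) M p red2 N (on1 N) i := by
      unfold call
      rw [if_pos (by rw [decide_eq_true_eq]; exact hi)]
    have hl := cl_length (X := X) (V := V) (q := q) (q1 := q1) (k := k + 2) (M := M) (p := p)
      (N := N) hpl2' (on1 N) (by rw [on1l]; exact hi)
    rw [on1l] at hl
    refine wrong i (by omega) ?_ ?_
    · rw [hc]
      have hl' : (cl X V q q1 (k + 2) M p red2 N (on1 N) i).length ≤ L2.eval N := hl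
      have h3 := eval_mono p hl'
      omega
    · rw [hc]
      exact h1

end Hc

end Pool.Agent.Lib.Pa76659G
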