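import Pool.Agent.Lib.Pa76659G.Circ4

set_option autoImplicit false

/-!
Windows of the truth tables of small circuits.
-/

namespace Pool.Agent.Lib.Pa76659G

open Pool.Agent.Lib.Pa76659
open PC

namespace Hc

open Circ

/-- A string of length `m` is mapped to a string of length `m + 1`: a window of the truth table of the
circuit. The string is `(1^n, (s, (1^g, code)))`: number of inputs, start of the window, number of gates,
code of the circuit. -/
def Fc (z : Str) : Str :=
  (List.range (z.length + 1)).map (fun i =>
    (wires (fst z).length (snd (snd (snd z))) (inc^[i] (fst (snd z)))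
      (fst (snd (snd z))).length).getLastD false)

@[simp] theorem Fc_length (z : Str) : (Fc z).length = z.length + 1 := by simp [Fc]

section
variable {α : Type*} {orc : α → Lang} {D : α → Prop} {ctx : List (α → Str)}

theorem iter_inc_length (i : ℕ) (s : Str) : (inc^[i] s).length = s.length := by
  induction i with
  | zero => rfl
  | succ i ih => rw [Function.iterate_succ_apply', inc_length, ih]

theorem polyC_iter_inc {s : α → Str} {k : α → ℕ} (hs : PolyC orc D ctx s)
    (hk : PolyN orc D ctx k) : PolyC orc D ctx (fun a => inc^[k a] (s a)) := by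
  obtain ⟨pn, hpn⟩ := PolyC.length_le hs
  refine PolyC.iter (g := fun _ => inc) (t := s)
    (polyC_inc (PolyC.var (by simp))) hs hk ⟨pn, fun a ha j _ => ?_⟩
  rw [iter_inc_length]
  exact hpn a ha

theorem Fc_poly {z : α → Str} (hz : PolyC orc D ctx z) : PolyC orc D ctx (fun a => Fc (z a)) := by
  have hm := PolyN.length hz
  refine PolyC.map_range (φ := fun p : α × ℕ =>
    (wires (fst (z p.1)).length (snd (snd (snd (z p.1)))) (inc^[p.2] (fst (snd (z p.1))))
      (fst (snd (snd (z p.1)))).length).getLastD false) hm.succ ?_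
  have hD : ∀ p : α × ℕ, (D p.1 ∧ p.2 < (z p.1).length + 1) → D p.1 := fun p hp => hp.1
  have hj : PolyN (fun p : α × ℕ => orc p.1) (fun p => D p.1 ∧ p.2 < (z p.1).length + 1)
      (PC.lift ctx ++ [fun p => una p.2]) (fun p => p.2) := PolyC.var (by simp)
  have hz' : PolyC (fun p : α × ℕ => orc p.1) (fun p => D p.1 ∧ p.2 < (z p.1).length + 1)
      (PC.lift ctx ++ [fun p => una p.2]) (fun p => z p.1) := (PolyC.lift hz hD).weakenRight _
  have hw := polyC_wires (PolyN.length (PolyC.fst hz')) (PolyC.snd (PolyC.snd (PolyC.snd hz')))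
    (polyC_iter_inc (PolyC.fst (PolyC.snd hz')) hj)
    (PolyN.length (PolyC.fst (PolyC.snd (PolyC.snd hz'))))
  refine PolyB.congr (PolyB.getD hw ((PolyN.length hw).sub (PolyN.const 1))) ?_
  intro p _
  rw [getLastD_eq]

end

/-- small circuits give windows -/
theorem Fc_win {n m : ℕ} {C : List Gate} (s : Str) (hs : s.length = n) (h1 : n + C.length ≤ 2 ^ n)
    (h2 : 4 * n + 3 + C.length * (2 * n + 4) ≤ m) :
    ∃ z : Str, z.length = m ∧ Fc z = (List.range (m + 1)).map (fun i => cval C (inc^[i] s)) := by
  set P : Str := List.replicate (m - (4 * n + 3 + C.length * (2 * n + 4))) false with hP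
  set z : Str := pr (una n) (pr s (pr (una C.length) (code n C ++ P))) with hz
  have hlen : z.length = m := by
    rw [hz, pr_length, pr_length, pr_length, List.length_append, Circ.code_length, hP,
      List.length_replicate, un_length, un_length, hs]
    have h3 : C.length * (2 * n + 4) = C.length * (2 * n + 2) + 2 * C.length := by ring
    omega
  refine ⟨z, hlen, ?_⟩
  unfold Fc
  rw [hlen]
  refine List.map_congr_left (fun i _ => ?_)
  have e1 : fst z = una n := fst_pr _ _
  have e2 : snd z = pr s (pr (una C.length) (code n C ++ P)) := snd_pr _ _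
  rw [e1, e2, fst_pr, snd_pr, fst_pr, snd_pr, un_length, un_length,
    wires_code (by rw [iter_inc_length, hs]; exact h1) C.length le_rfl, List.take_length, cval_eq]

open Classical in
/-- the instances: `(1^m, y)` such that `y` is a window for some string of length `m` -/
noncomputable def IF : Lang := fun u =>
  decide (∃ z : Str, z.length = (fst u).length ∧ Fc z = snd u)

theorem IF_iff {m : ℕ} {y : Str} :
    IF (pr (on1 m) y) = true ↔ ∃ z : Str, z.length = m ∧ Fc z = y := by
  classical
  unfold IF
  rw [decide_eq_true_eq, fst_pr, snd_pr, on1_eq, un_length]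

theorem IF_mem (X : Lang) : IF ∈ NPO X := by
  have hu : PolyC (fun _ : Str × Str => X) (fun _ => True) [fun p => p.1, fun p => p.2]
    (fun p => p.1) := PolyC.var (by simp)
  have hz : PolyC (fun _ : Str × Str => X) (fun _ => True) [fun p => p.1, fun p => p.2]
    (fun p => p.2) := PolyC.var (by simp)
  refine mem_NPO_le Polynomial.X ((PolyB.natEq (PolyN.length hz) (PolyN.length (PolyC.fst hu))).and
    (PolyB.strEq (Fc_poly hz) (PolyC.snd hu))) (fun u => ?_)
  unfold IF
  simp only [Bool.and_eq_true, decide_eq_true_eq, Polynomial.eval_X]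
  constructor
  · rintro ⟨z, h1, h2⟩
    exact ⟨z, by rw [h1]; exact fst_length_le u, h1, h2⟩
  · rintro ⟨z, -, h1, h2⟩
    exact ⟨z, h1, h2⟩

/-- range avoidance has solutions -/
theorem exists_avoid {F : Str → Str} (m : ℕ) :
    ∃ y : Str, y.length = m + 1 ∧ ∀ z : Str, z.length = m → F z ≠ y := by
  classical
  by_contra hcon
  push Not at hcon
  have h1 : ∀ y : List.Vector Bool (m + 1), ∃ z : List.Vector Bool m, F z.1 = y.1 := by
    intro y
    obtain ⟨z, hz, h⟩ := hcon y.1 y.2
    exact ⟨⟨z, hz⟩, h⟩
  choose g hg using h1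
  have hinj : Function.Injective g := by
    intro a b hab
    apply Subtype.ext
    rw [← hg a, ← hg b, hab]
  have h2 := Fintype.card_le_of_injective g hinj
  rw [card_vector, card_vector, Fintype.card_bool, pow_succ] at h2
  have : 0 < 2 ^ m := by positivity
  omega

theorem IF_tot (m : ℕ) : ∃ y : Str, y.length = (Polynomial.X + 1 : Polynomial ℕ).eval m ∧
    IF (pr (on1 m) y) = false := by
  obtain ⟨y, h1, h2⟩ := exists_avoid (F := Fc) m
  refine ⟨y, by rw [h1]; simp, ?_⟩
  rw [← Bool.not_eq_true, IF_iff]
  rintro ⟨z, hz, h⟩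
  exact h2 z hz h

end Hc

end Pool.Agent.Lib.Pa76659G
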