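import Pool.Agent.Lib.Pa76659G.UniK
import Pool.Agent.Lib.Pa76659G.Low1
import Pool.Agent.Lib.Pa76659G.Cert

set_option autoImplicit false

/-!
Consequences of `H_1 = \hat H_1`.
-/

namespace Pool.Agent.Lib.Pa76659G

open Pool.Agent.Lib.Pa76659 PC
open Pool.Agent.Lib.Pa76659H (High RHighSucc TComp)

namespace Hi

/-! ### Binary digits -/

theorem filter_lt (b : ℕ) : ∀ N : ℕ, b ≤ N →
    ((List.range N).filter (fun i => decide (i < b))).length = b
  | 0, h => by
    have : b = 0 := by omega
    subst this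
    rfl
  | N + 1, h => by
    rw [List.range_succ, List.filter_append, List.length_append]
    by_cases h1 : b ≤ N
    · rw [filter_lt b N h1]
      have : decide (N < b) = false := by rw [decide_eq_false_iff_not]; omega
      simp [this]
    · have h2 : b = N + 1 := by omega
      subst h2
      rw [List.filter_eq_self.2]
      · simp
      · intro i hi
        rw [List.mem_range] at hi
        rw [decide_eq_true_eq]
        omega

section
variable {α : Type} {D : α → Prop} {ctx : List (α → Str)} {O : Lang}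

theorem half_poly {f : α → ℕ} (hf : PolyN (fun _ => O) D ctx f) :
    PolyN (fun _ => O) D ctx (fun a => f a / 2) := by
  have h1 := PolyN.count (n := f) (φ := fun p : α × ℕ => decide (2 * p.2 + 2 ≤ f p.1)) hf (by
    have hk : PolyN (fun _ : α × ℕ => O) (fun p => D p.1 ∧ p.2 < f p.1)
      (PC.lift ctx ++ [fun p => una p.2]) (fun p => p.2) := PolyC.var (by simp)
    have hf' : PolyN (fun _ : α × ℕ => O) (fun p => D p.1 ∧ p.2 < f p.1)
      (PC.lift ctx ++ [fun p => una p.2]) (fun p => f p.1) :=
      (PolyC.lift hf (fun p hp => hp.1)).weakenRight _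
    exact PolyB.le (((PolyN.const 2).mul hk).add (PolyN.const 2)) hf')
  refine h1.congr (fun a _ => ?_)
  rw [← filter_lt (f a / 2) (f a) (by omega)]
  congr 1
  refine List.filter_congr (fun i _ => ?_)
  rw [Bool.eq_iff_iff, decide_eq_true_eq, decide_eq_true_eq]
  show 2 * i + 2 ≤ f a ↔ i < f a / 2
  omega

theorem div_poly {f j : α → ℕ} (hf : PolyN (fun _ => O) D ctx f)
    (hj : PolyN (fun _ => O) D ctx j) :
    PolyN (fun _ => O) D ctx (fun a => f a / 2 ^ j a) := by
  obtain ⟨pf, hpf⟩ := PolyC.length_le hf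
  refine PolyC.natRec (fun a k => una (f a / 2 ^ k)) hj (hf.congr (fun a _ => by simp)) ?_
    ⟨pf, fun a ha k _ => ?_⟩
  · have h1 : PolyN (fun _ : α × ℕ => O) (fun p => D p.1 ∧ p.2 < j p.1)
        (PC.lift ctx ++ [fun p => una p.2, fun p => una (f p.1 / 2 ^ p.2)])
        (fun p => f p.1 / 2 ^ p.2) := PolyC.var (by simp)
    refine PolyC.congr (half_poly h1) (fun p _ => ?_)
    show una (f p.1 / 2 ^ p.2 / 2) = una (f p.1 / 2 ^ (p.2 + 1))
    rw [Nat.div_div_eq_div_mul, pow_succ]
  · have h2 := hpf a ha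
    rw [PC.un_length] at h2 ⊢
    exact (Nat.div_le_self _ _).trans h2

theorem testBit_poly {f j : α → ℕ} (hf : PolyN (fun _ => O) D ctx f)
    (hj : PolyN (fun _ => O) D ctx j) :
    PolyB (fun _ => O) D ctx (fun a => (f a).testBit (j a)) := by
  have h1 := div_poly hf hj
  have h2 := PolyB.natEq h1 (((PolyN.const 2).mul (half_poly h1)).add (PolyN.const 1))
  refine h2.congr (fun a _ => ?_)
  rw [Nat.testBit_eq_decide_div_mod_eq, Bool.eq_iff_iff, decide_eq_true_eq, decide_eq_true_eq]
  omega

theorem log_poly {f : α → ℕ} (hf : PolyN (fun _ => O) D ctx f) :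
    PolyN (fun _ => O) D ctx (fun a => Nat.log 2 (f a)) := by
  have h1 := PolyN.count (n := f) (φ := fun p : α × ℕ => decide (1 ≤ f p.1 / 2 ^ (p.2 + 1))) hf (by
    have hk : PolyN (fun _ : α × ℕ => O) (fun p => D p.1 ∧ p.2 < f p.1)
      (PC.lift ctx ++ [fun p => una p.2]) (fun p => p.2) := PolyC.var (by simp)
    have hf' : PolyN (fun _ : α × ℕ => O) (fun p => D p.1 ∧ p.2 < f p.1)
      (PC.lift ctx ++ [fun p => una p.2]) (fun p => f p.1) :=
      (PolyC.lift hf (fun p hp => hp.1)).weakenRight _
    exact PolyB.le (PolyN.const 1) (div_poly hf' hk.succ))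
  refine h1.congr (fun a _ => ?_)
  rw [← filter_lt (Nat.log 2 (f a)) (f a) (Nat.log_le_self 2 (f a))]
  congr 1
  refine List.filter_congr (fun i _ => ?_)
  rw [Bool.eq_iff_iff, decide_eq_true_eq, decide_eq_true_eq]
  by_cases h0 : f a = 0
  · rw [h0]
    simp
  · rw [Nat.lt_iff_add_one_le, Nat.le_log_iff_pow_le (by norm_num) h0,
      Nat.le_div_iff_mul_le (Nat.two_pow_pos _), one_mul]

/-- the length bound -/
def Lk (k n : ℕ) : ℕ := min n (Nat.log 2 n ^ k)

theorem Lk_mono (k : ℕ) {n m : ℕ} (h : n ≤ m) : Lk k n ≤ Lk k m :=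
  min_le_min h (Nat.pow_le_pow_left (Nat.log_mono_right h) k)

theorem Lk_poly (k : ℕ) {f : α → ℕ} (hf : PolyN (fun _ => O) D ctx f) :
    PolyN (fun _ => O) D ctx (fun a => Lk k (f a)) :=
  (hf.min ((log_poly hf).poly (Polynomial.X ^ k))).congr (fun a _ => by
    rw [Polynomial.eval_pow, Polynomial.eval_X]
    rfl)

/-- the strings of length `a` -/
def bs (a i : ℕ) : Str := (List.range a).map (fun j => i.testBit j)

theorem bs_surj (y : Str) : ∃ i < 2 ^ y.length, bs y.length i = y := by
  refine ⟨Nat.ofBits (fun j : Fin y.length => y[j]), Nat.ofBits_lt_two_pow _, ?_⟩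
  unfold bs
  apply List.ext_getElem
  · simp
  · intro j h1 h2
    rw [List.getElem_map, List.getElem_range, Nat.testBit_ofBits_lt _ _ h2]
    rfl

theorem bs_poly {a i : α → ℕ} (ha : PolyN (fun _ => O) D ctx a)
    (hi : PolyN (fun _ => O) D ctx i) : PolyC (fun _ => O) D ctx (fun x => bs (a x) (i x)) := by
  refine PolyC.map_range (φ := fun p : α × ℕ => (i p.1).testBit p.2) ha ?_
  exact testBit_poly ((PolyC.lift hi (fun p hp => hp.1)).weakenRight _) (PolyC.var (by simp))

end

/-! ### The set -/

/-- verification of solutions -/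
noncomputable def Vc (V : Lang) (q : Polynomial ℕ) (u : Str) : Bool :=
  V (pr (on1 (fst u).length) (snd u)) && decide ((snd u).length = q.eval (fst u).length)

/-- the length of the witnesses of the padded instance -/
def rk (x : Str) : ℕ := (nth (fst x) 4).length

/-- padded instances -/
noncomputable def Kp (X : Lang) (k : ℕ) : Lang := fun x =>
  Unv.KU X (fst x) && decide ((rk x + 1) ^ k ≤ x.length)

/-- the set in `H_1` -/
noncomputable def AA (X V : Lang) (q : Polynomial ℕ) (k : ℕ) : Lang := fun u =>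
  Vc V q u && Kp X k (fst u)

/-- padding -/
def pd (k : ℕ) (z : Str) : Str := pr z (una ((z.length + 1) ^ k))

theorem Kp_pd (X : Lang) (k : ℕ) (z : Str) : Kp X k (pd k z) = Unv.KU X z := by
  unfold Kp pd rk
  rw [fst_pr, pr_length, PC.un_length]
  have h1 : ((nth z 4).length + 1) ^ k ≤ 2 * z.length + 1 + (z.length + 1) ^ k := by
    have := Nat.pow_le_pow_left (Nat.add_le_add_right (nth_length_le z 4) 1) k
    omega
  rw [decide_eq_true h1, Bool.and_true]

section
variable {X V : Lang} {q : Polynomial ℕ} {k : ℕ}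

section
variable {α : Type} {D : α → Prop} {ctx : List (α → Str)} {O : Lang}

theorem Vc_poly (hV : V ∈ PO O) {u : α → Str} (hu : PolyC (fun _ => O) D ctx u) :
    PolyB (fun _ => O) D ctx (fun a => Vc V q (u a)) := by
  have h1 := PolyN.length (PolyC.fst hu)
  exact (polyB_of_PO hV (PolyC.pr (t := fun a => on1 (fst (u a)).length) h1 (PolyC.snd hu))).and
    (PolyB.natEq (PolyN.length (PolyC.snd hu)) (h1.poly q))

theorem rk_poly {x : α → Str} (hx : PolyC (fun _ => O) D ctx x) :
    PolyN (fun _ => O) D ctx (fun a => rk (x a)) :=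
  PolyN.length (PolyC.nth (PolyC.fst hx) (PolyN.const 4))

theorem pw_poly {x : α → Str} (hx : PolyC (fun _ => O) D ctx x) :
    PolyB (fun _ => O) D ctx (fun a => decide ((rk (x a) + 1) ^ k ≤ (x a).length)) := by
  refine (PolyB.le ((rk_poly hx).poly ((Polynomial.X + 1) ^ k)) (PolyN.length hx)).congr
    (fun a _ => ?_)
  simp only [Polynomial.eval_pow, Polynomial.eval_add, Polynomial.eval_X, Polynomial.eval_one]

theorem pd_poly {x : α → Str} (hx : PolyC (fun _ => O) D ctx x) :
    PolyC (fun _ => O) D ctx (fun a => pd k (x a)) := by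
  refine PolyC.pr hx ?_
  have h1 := (PolyN.length hx).poly ((Polynomial.X + 1) ^ k)
  refine PolyN.congr h1 (fun a _ => ?_)
  simp only [Polynomial.eval_pow, Polynomial.eval_add, Polynomial.eval_X, Polynomial.eval_one]

end

theorem AA_mem (hV : V ∈ PO X) : AA X V q k ∈ NPO X := by
  classical
  have hz : PolyC (fun _ : Str × Str => X) (fun _ => True) [fun p => p.1, fun p => p.2]
    (fun p => p.1) := PolyC.var (by simp)
  have hy : PolyC (fun _ : Str × Str => X) (fun _ => True) [fun p => p.1, fun p => p.2]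
    (fun p => p.2) := PolyC.var (by simp)
  have h1 : PolyB (fun _ : Str × Str => X) (fun _ => True) [fun p => p.1, fun p => p.2]
      (fun p => Unv.VU X (fst (fst p.1), p.2)) :=
    PolyB.arg2 (Unv.VU_poly X) (PolyC.fst (PolyC.fst hz)) hy
  refine mem_NPO_le Polynomial.X ((Vc_poly (q := q) hV hz).and (h1.and (pw_poly (k := k)
    (PolyC.fst hz)))) (fun u => ?_)
  unfold AA Kp Unv.KU
  simp only [Bool.and_eq_true, decide_eq_true_eq]
  constructor
  · rintro ⟨h2, ⟨y, hy⟩, h3⟩
    refine ⟨y, ?_, h2, hy, h3⟩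
    have h4 := hy
    unfold Unv.VU at h4
    rw [Bool.and_eq_true, decide_eq_true_eq] at h4
    rw [Polynomial.eval_X, h4.1]
    exact (nth_length_le _ _).trans ((fst_length_le _).trans (fst_length_le _))
  · rintro ⟨y, -, h2, hy, h3⟩
    exact ⟨h2, ⟨y, hy⟩, h3⟩

theorem coK_mem (hV : V ∈ PO X) (tot : ∀ n, ∃ y : Str, y.length = q.eval n ∧
    V (pr (on1 n) y) = true) : (fun z => !(Unv.KU X z)) ∈ NPO (join X (AA X V q k)) := by
  set O := join X (AA X V q k) with hO
  have hz : PolyC (fun _ : Str × Str => O) (fun _ => True) [fun p => p.1, fun p => p.2]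
    (fun p => p.1) := PolyC.var (by simp)
  have hy : PolyC (fun _ : Str × Str => O) (fun _ => True) [fun p => p.1, fun p => p.2]
    (fun p => p.2) := PolyC.var (by simp)
  have hpr := PolyC.pr (pd_poly (k := k) hz) hy
  have hVO : V ∈ PO O := PO_subset (left_PO _ _) hV
  have h1 := Vc_poly (q := q) hVO hpr
  have h2 := (polyB_of_PO (right_PO X (AA X V q k)) hpr).not
  refine mem_NPO_le (q.comp (2 * Polynomial.X + 1 + (Polynomial.X + 1) ^ k)) (h1.and h2)
    (fun z => ?_)
  have hlen : (2 * Polynomial.X + 1 + (Polynomial.X + 1) ^ k : Polynomial ℕ).eval z.length =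
      (pd k z).length := by
    unfold pd
    rw [pr_length, PC.un_length]
    simp
  rw [Polynomial.eval_comp, hlen]
  simp only [Bool.and_eq_true, Bool.not_eq_true']
  have hA : ∀ y : Str, Vc V q (pr (pd k z) y) = true →
      AA X V q k (pr (pd k z) y) = Unv.KU X z := by
    intro y hy
    unfold AA
    rw [hy, Bool.true_and, fst_pr, Kp_pd]
  constructor
  · intro h3
    obtain ⟨y, hy1, hy2⟩ := tot (pd k z).length
    have h4 : Vc V q (pr (pd k z) y) = true := by
      unfold Vc
      rw [fst_pr, snd_pr, hy2, decide_eq_true hy1]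
      rfl
    exact ⟨y, hy1.le, h4, by rw [hA y h4]; exact h3⟩
  · rintro ⟨y, -, h4, h5⟩
    rw [← hA y h4]
    exact h5

theorem AA_high (hV : V ∈ PO X) (tot : ∀ n, ∃ y : Str, y.length = q.eval n ∧
    V (pr (on1 n) y) = true) : AA X V q k ∈ High X 1 := by
  refine ⟨AA_mem hV, ?_⟩
  rintro L ⟨B, ⟨B0, hB0, hB⟩, hL⟩
  set O := join X (AA X V q k) with hO
  have hB' : B ∈ NPO X := NPO_subset hB0 hB
  obtain ⟨red, hr1, hr2⟩ := Unv.KU_hard hB'
  have hK : Unv.KU X ∈ NPO O := NPO_subset (left_PO _ _) (Unv.KU_mem X)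
  have hlow : Unv.KU X ∈ Low O 1 := low1_iff.2 ⟨hK, coK_mem hV tot⟩
  have hBj : B ∈ PO (join O (Unv.KU X)) :=
    mem_PO ((polyB_of_PO (right_PO O (Unv.KU X)) (hr1 _)).congr (fun x _ => hr2 x))
  exact hlow.2 ⟨join O (Unv.KU X), query_mem _, NPO_subset hBj hL⟩

/-! ### The virtual oracle -/

open Classical in
/-- brute force for short instances, `no` for long ones -/
noncomputable def vo (X V : Lang) (q : Polynomial ℕ) (k n : ℕ) : Lang
  | [] => false
  | false :: u => X u
  | true :: u => Vc V q u && (decide ((fst u).length < Lk k n) &&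
      (decide ((rk (fst u) + 1) ^ k ≤ (fst u).length) &&
        decide (∃ i < n, Unv.VU X (fst (fst u), bs (rk (fst u)) i) = true)))

/-- queries which reveal a solution -/
noncomputable def bad (V : Lang) (q : Polynomial ℕ) (k n : ℕ) (v : Str) : Bool :=
  v.headD false && (Vc V q v.tail && decide (Lk k n ≤ (fst v.tail).length))

theorem brute {n : ℕ} {x : Str} (h : x.length < Lk k n) (h' : (rk x + 1) ^ k ≤ x.length) :
    (∃ i < n, Unv.VU X (fst x, bs (rk x) i) = true) ↔ Unv.KU X (fst x) = true := by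
  classical
  unfold Unv.KU
  rw [decide_eq_true_eq]
  constructor
  · rintro ⟨i, -, hi⟩
    exact ⟨_, hi⟩
  · rintro ⟨y, hy⟩
    have h1 : y.length = rk x := by
      have h2 := hy
      unfold Unv.VU at h2
      rw [Bool.and_eq_true, decide_eq_true_eq] at h2
      exact h2.1
    obtain ⟨i, hi, hb⟩ := bs_surj y
    rw [h1] at hi hb
    refine ⟨i, hi.trans_le ?_, by rw [hb]; exact hy⟩
    have h3 : (rk x + 1) ^ k < Nat.log 2 n ^ k := h'.trans_lt (h.trans_le (min_le_right _ _))
    have h4 : rk x + 1 < Nat.log 2 n := lt_of_pow_lt_pow_left₀ k (Nat.zero_le _) h3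
    have hn : n ≠ 0 := by
      rintro rfl
      simp at h4
    calc 2 ^ rk x ≤ 2 ^ Nat.log 2 n := Nat.pow_le_pow_right (by norm_num) (by omega)
      _ ≤ n := Nat.pow_log_le_self 2 hn

theorem vo_eq {n : ℕ} {v : Str} (h : bad V q k n v = false) :
    vo X V q k n v = join X (AA X V q k) v := by
  classical
  rcases v with _ | ⟨b, u⟩
  · rfl
  · cases b
    · rfl
    · show (Vc V q u && _) = AA X V q k u
      unfold bad at h
      simp only [List.headD_cons, List.tail_cons, Bool.true_and] at h
      unfold AA Kp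
      cases hc : Vc V q u
      · rfl
      · rw [hc, Bool.true_and] at h
        have h0 : (fst u).length < Lk k n := not_le.1 (of_decide_eq_false h)
        clear h
        rename' h0 => h
        rw [Bool.true_and, Bool.true_and, decide_eq_true h, Bool.true_and, Bool.eq_iff_iff,
          Bool.and_eq_true, Bool.and_eq_true, decide_eq_true_eq, decide_eq_true_eq]
        constructor
        · rintro ⟨h1, h2⟩
          exact ⟨(brute h h1).1 h2, h1⟩
        · rintro ⟨h1, h2⟩
          exact ⟨h2, (brute h h2).2 h1⟩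

theorem run_eq {O O' : Lang} {c : Cfg} : ∀ {N : ℕ},
    (∀ t < N, ∀ v, qry (runN O' t c) = some v → O' v = O v) → runN O' N c = runN O N c
  | 0, _ => rfl
  | N + 1, h => by
    have ih := run_eq (O := O) (O' := O') (c := c) (N := N) (fun t ht => h t (by omega))
    rw [runN_add O' N 1 c, runN_add O N 1 c, ← ih]
    show step O' (runN O' N c) = step O (runN O' N c)
    rcases hq : qry (runN O' N c) with _ | v
    · exact step_none hq _ _
    · exact step_some hq (h N (by omega) v hq)

/-- the solution revealed by a configuration -/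
noncomputable def bq (V : Lang) (q : Polynomial ℕ) (k n : ℕ) (o : Str) : Str :=
  if (o.headD false && bad V q k n o.tail) = true then
    pr (on1 (fst o.tail.tail).length) (snd o.tail.tail) else []

/-- the first nonempty value -/
def GG (c : ℕ → Str) : ℕ → Str
  | 0 => []
  | t + 1 => if (GG c t).isEmpty = true then c t else GG c t

theorem GG_nil {c : ℕ → Str} : ∀ {t : ℕ}, GG c t = [] → ∀ s < t, c s = []
  | 0, _ => fun s hs => absurd hs (Nat.not_lt_zero s)
  | t + 1, h => by
    intro s hs
    by_cases h1 : GG c t = []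
    · have h2 : GG c (t + 1) = c t := by
        rw [GG, if_pos (by rw [h1]; rfl)]
      rcases Nat.lt_succ_iff_lt_or_eq.1 hs with h3 | rfl
      · exact GG_nil h1 s h3
      · rw [← h2, h]
    · have h2 : GG c (t + 1) = GG c t := by
        rw [GG, if_neg (by rwa [List.isEmpty_iff])]
      exact absurd (h2 ▸ h) h1

theorem GG_ne {c : ℕ → Str} : ∀ {t : ℕ}, GG c t ≠ [] → ∃ s < t, GG c t = c s
  | 0, h => absurd rfl h
  | t + 1, h => by
    by_cases h1 : GG c t = []
    · exact ⟨t, by omega, by rw [GG, if_pos (by rw [h1]; rfl)]⟩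
    · obtain ⟨s, hs, he⟩ := GG_ne h1
      exact ⟨s, by omega, by rw [GG, if_neg (by rwa [List.isEmpty_iff]), he]⟩

/-- the win-win algorithm -/
noncomputable def win (X V : Lang) (q : Polynomial ℕ) (k : ℕ) (M : Prog) (p : Polynomial ℕ)
    (x : Str) : Str :=
  if (GG (fun t => bq V q k x.length (oc (qry (runN (vo X V q k x.length) t ([M], inp2 x [])))))
    (p.eval x.length)).isEmpty = true
  then [false, accepts (vo X V q k x.length) M (inp2 x []) (p.eval x.length)]
  else true :: GG (fun t => bq V q k x.length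
    (oc (qry (runN (vo X V q k x.length) t ([M], inp2 x []))))) (p.eval x.length)

/-- solutions for long lengths -/
def Sol (V : Lang) (q : Polynomial ℕ) (k n : ℕ) (w : Str) : Prop :=
  ∃ (l : ℕ) (y : Str), w = pr (on1 l) y ∧ y.length = q.eval l ∧ V w = true ∧ Lk k n ≤ l

theorem win_spec {M : Prog} {p : Polynomial ℕ} {L : Lang} (hM : ∀ x : Str, L x =
    accepts (join X (AA X V q k)) M (inp x) (p.eval x.length)) (x : Str) :
    win X V q k M p x = [false, L x] ∨
      ∃ w, win X V q k M p x = true :: w ∧ Sol V q k x.length w := by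
  unfold win
  set c : ℕ → Str := fun t => bq V q k x.length
    (oc (qry (runN (vo X V q k x.length) t ([M], inp2 x [])))) with hc
  by_cases h : GG c (p.eval x.length) = []
  · left
    rw [if_pos (by rw [h]; rfl)]
    have h1 := GG_nil h
    have h2 : runN (vo X V q k x.length) (p.eval x.length) ([M], inp2 x []) =
        runN (join X (AA X V q k)) (p.eval x.length) ([M], inp2 x []) := by
      refine run_eq (fun t ht v hv => vo_eq ?_)
      have h3 := h1 t ht
      rw [hc] at h3
      simp only [hv] at h3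
      unfold bq at h3
      by_contra h4
      rw [Bool.not_eq_false] at h4
      rw [if_pos (by show (true && bad V q k x.length v) = true; rw [h4]; rfl)] at h3
      exact pr_ne_nil _ _ h3
    rw [hM x, inp_eq, accepts, accepts, h2]
  · right
    rw [if_neg (by rwa [List.isEmpty_iff])]
    refine ⟨_, rfl, ?_⟩
    obtain ⟨s, hs, he⟩ := GG_ne h
    rw [he]
    have h5 : c s ≠ [] := by rw [← he]; exact h
    rw [hc] at h5 ⊢
    simp only at h5 ⊢
    set o := oc (qry (runN (vo X V q k x.length) s ([M], inp2 x []))) with ho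
    unfold bq at h5 ⊢
    by_cases h6 : (o.headD false && bad V q k x.length o.tail) = true
    · rw [if_pos h6]
      rw [Bool.and_eq_true] at h6
      have h7 := h6.2
      unfold bad Vc at h7
      simp only [Bool.and_eq_true, decide_eq_true_eq] at h7
      exact ⟨_, _, rfl, h7.2.1.2, h7.2.1.1, h7.2.2⟩
    · rw [if_neg h6] at h5
      exact absurd rfl h5

end

/-! ### Computability -/

section
variable {α : Type} {D : α → Prop} {ctx : List (α → Str)} {X V : Lang} {q : Polynomial ℕ} {k : ℕ}

theorem vo_poly (hV : V ∈ PO X) {n : α → ℕ} {v : α → Str} (hn : PolyN (fun _ => X) D ctx n)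
    (hv : PolyC (fun _ => X) D ctx v) :
    PolyB (fun _ => X) D ctx (fun a => vo X V q k (n a) (v a)) := by
  classical
  have hu := hv.tail
  have hx := PolyC.fst hu
  have h1 := Vc_poly (q := q) hV hu
  have h2 := PolyB.lt (PolyN.length hx) (Lk_poly k hn)
  have h3 := pw_poly (k := k) hx
  have h4 : PolyB (fun _ => X) D ctx (fun a => decide (∃ i < n a,
      Unv.VU X (fst (fst (v a).tail), bs (rk (fst (v a).tail)) i) = true)) := by
    refine PolyB.exists_lt (φ := fun p : α × ℕ =>
      Unv.VU X (fst (fst (v p.1).tail), bs (rk (fst (v p.1).tail)) p.2)) hn ?_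
    have hx' : PolyC (fun _ : α × ℕ => X) (fun p => D p.1 ∧ p.2 < n p.1)
        (PC.lift ctx ++ [fun p => una p.2]) (fun p => fst (v p.1).tail) :=
      (PolyC.lift hx (fun p hp => hp.1)).weakenRight _
    exact PolyB.arg2 (Unv.VU_poly X) (PolyC.fst hx')
      (bs_poly (rk_poly hx') (PolyC.var (by simp)))
  have h5 := h1.and (h2.and (h3.and h4))
  have h6 : PolyB (fun _ => X) D ctx (fun a => X (v a).tail) := PolyB.qry hu
  refine PolyC.congr (PolyC.cases hv (u0 := fun _ => [false])
      (u1 := fun a => [X (v a).tail]) (u2 := fun a => [Vc V q (v a).tail &&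
        (decide ((fst (v a).tail).length < Lk k (n a)) &&
        (decide ((rk (fst (v a).tail) + 1) ^ k ≤ (fst (v a).tail).length) && decide (∃ i < n a,
      Unv.VU X (fst (fst (v a).tail), bs (rk (fst (v a).tail)) i) = true)))])
      (PolyC.const _) (PolyC.mono h6 fun _ h => h.1) (PolyC.mono h5 fun _ h => h.1)) ?_
  intro a _
  show _ = [vo X V q k (n a) (v a)]
  rcases hv' : v a with _ | ⟨b, u⟩
  · rfl
  · cases b <;> rfl

theorem bad_poly (hV : V ∈ PO X) {n : α → ℕ} {v : α → Str} (hn : PolyN (fun _ => X) D ctx n)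
    (hv : PolyC (fun _ => X) D ctx v) :
    PolyB (fun _ => X) D ctx (fun a => bad V q k (n a) (v a)) :=
  (PolyB.headD hv).and ((Vc_poly hV hv.tail).and
    (PolyB.le (Lk_poly k hn) (PolyN.length (PolyC.fst hv.tail))))

theorem bq_poly (hV : V ∈ PO X) {n : α → ℕ} {o : α → Str} (hn : PolyN (fun _ => X) D ctx n)
    (ho : PolyC (fun _ => X) D ctx o) :
    PolyC (fun _ => X) D ctx (fun a => bq V q k (n a) (o a)) := by
  have h1 := (PolyB.headD ho).and (bad_poly (q := q) (k := k) hV hn ho.tail)
  have h2 := ho.tail.tail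
  exact PolyC.ite h1 ((PolyC.pr (t := fun a => on1 (fst (o a).tail.tail).length)
    (PolyN.length (PolyC.fst h2)) (PolyC.snd h2)).mono fun _ h => h.1) PolyC.nil

theorem GG_poly {c : α × ℕ → Str} {n : α → ℕ} (hn : PolyN (fun _ => X) D ctx n)
    (hc : PolyC (fun _ : α × ℕ => X) (fun p => D p.1 ∧ p.2 < n p.1)
      (PC.lift ctx ++ [fun p => una p.2]) c) :
    PolyC (fun _ => X) D ctx (fun a => GG (fun t => c (a, t)) (n a)) := by
  obtain ⟨pc, hpc⟩ := hc.length_le
  obtain ⟨pn, hpn⟩ := PolyC.length_le hn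
  refine PolyC.natRec (fun a k => GG (fun t => c (a, t)) k) hn PolyC.nil ?_
    ⟨pc.comp (Polynomial.X + pn), fun a ha k hk => ?_⟩
  · set ctx' : List (α × ℕ → Str) := PC.lift ctx ++ [fun p => una p.2,
      fun p => GG (fun t => c (p.1, t)) p.2] with hctx'
    have hF : PolyC (fun _ : α × ℕ => X) (fun p => D p.1 ∧ p.2 < n p.1) ctx'
      (fun p => GG (fun t => c (p.1, t)) p.2) := PolyC.var (by simp [hctx'])
    have hc' : PolyC (fun _ : α × ℕ => X) (fun p => D p.1 ∧ p.2 < n p.1) ctx' c := by
      refine PolyC.subset hc ?_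
      intro f hf
      simp only [hctx', List.mem_append, List.mem_cons, List.not_mem_nil, or_false] at hf ⊢
      tauto
    exact (PolyC.ite (PolyB.isNil hF) (hc'.mono fun _ h => h.1) (hF.mono fun _ h => h.1)).congr
      (fun p _ => rfl)
  · by_cases h : GG (fun t => c (a, t)) k = []
    · rw [h]; simp
    · obtain ⟨s, hs, he⟩ := GG_ne h
      rw [he]
      have h1 := hpc (a, s) ⟨ha, by
        show s < n a
        omega⟩
      have h2 := hpn a ha
      rw [PC.un_length] at h2
      refine h1.trans ?_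
      rw [Polynomial.eval_comp]
      refine eval_mono pc ?_
      simp only [vals_append, total_append, vals_cons, vals_nil, total_cons, total_nil,
        Nat.add_zero, PC.un_length, Polynomial.eval_add, Polynomial.eval_X]
      have h3 : vals (PC.lift ctx) (a, s) = vals ctx a := by
        simp [vals, PC.lift]
      rw [h3]
      omega

theorem cfg_poly (hV : V ∈ PO X) (M : Prog) {n m : α → ℕ} {x : α → Str}
    (hn : PolyN (fun _ => X) D ctx n) (hm : PolyN (fun _ => X) D ctx m)
    (hx : PolyC (fun _ => X) D ctx x) :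
    PolyC (fun _ => X) D ctx (fun a => PC.enc M (M.bnd + 1)
      (runN (vo X V q k (n a)) (m a) ([M], inp2 (x a) []))) := by
  obtain ⟨ps, hps⟩ := hx.length_le
  refine (PolyC.runT (orc := fun _ : α => X) (D := D) (ctx := ctx) M (M.bnd + 1) (by omega)
    (fun a _ => vo X V q k (n a)) (fun a => inp2 (x a) []) m ?_ ?_ hm ⟨ps, ?_⟩).congr
    (fun a _ => by rw [runT_const])
  · refine vo_poly (n := fun p : (α × ℕ) × Str => n p.1.1) (v := fun p => p.2) hV ?_
      (PolyC.var (by simp))
    exact (PolyC.lift ((PolyC.lift hn (D' := fun p : α × ℕ => D p.1 ∧ p.2 < m p.1)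
      (fun p hp => hp.1)).weakenRight _)
      (D' := fun p : (α × ℕ) × Str => D p.1.1 ∧ p.1.2 < m p.1.1) (fun p hp => hp)).weakenRight _
  · intro r _
    rcases r with _ | _ | r
    · exact hx.congr (fun a _ => by simp [inp2])
    · exact PolyC.nil.congr (fun a _ => by simp [inp2])
    · exact PolyC.nil.congr (fun a _ => by simp [inp2])
  · intro a ha
    refine (Pa76659.inp2_bdd (x a) []).mono ?_
    have h2 := hps a ha
    simpa using h2

theorem win_poly (hV : V ∈ PO X) (M : Prog) (p : Polynomial ℕ) {x : α → Str}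
    (hx : PolyC (fun _ => X) D ctx x) :
    PolyC (fun _ => X) D ctx (fun a => win X V q k M p (x a)) := by
  have hn := PolyN.length hx
  have hG : PolyC (fun _ => X) D ctx (fun a => GG (fun t => bq V q k (x a).length
      (oc (qry (runN (vo X V q k (x a).length) t ([M], inp2 (x a) []))))) (p.eval (x a).length)) := by
    refine GG_poly (c := fun z : α × ℕ => bq V q k (x z.1).length
      (oc (qry (runN (vo X V q k (x z.1).length) z.2 ([M], inp2 (x z.1) [])))))
      (hn.poly p) ?_
    have hx' : PolyC (fun _ : α × ℕ => X) (fun z => D z.1 ∧ z.2 < p.eval (x z.1).length)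
        (PC.lift ctx ++ [fun z => una z.2]) (fun z => x z.1) :=
      (PolyC.lift hx (fun z hz => hz.1)).weakenRight _
    have hn' := PolyN.length hx'
    refine bq_poly hV hn' ?_
    refine PolyC.qry' M (fun z : α × ℕ =>
      runN (vo X V q k (x z.1).length) z.2 ([M], inp2 (x z.1) []))
      (cfg_poly hV M hn' (PolyC.var (by simp)) hx') (fun z _ => ?_)
    have h := runT_KK (M := M) (fun _ => vo X V q k (x z.1).length) (inp2 (x z.1) []) z.2
    rwa [runT_const] at h
  have hA : PolyB (fun _ => X) D ctx (fun a =>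
      accepts (vo X V q k (x a).length) M (inp2 (x a) []) (p.eval (x a).length)) := by
    refine PolyB.accepts M (fun a => vo X V q k (x a).length) x (fun _ => [])
      (fun a => p.eval (x a).length) ?_ hx PolyC.nil (hn.poly p)
    exact vo_poly (n := fun z : α × Str => (x z.1).length) (v := fun z => z.2) hV
      ((PolyC.lift hn (fun z hz => hz)).weakenRight _) (PolyC.var (by simp))
  have hA' : PolyC (fun _ => X) D ctx (fun a =>
      [accepts (vo X V q k (x a).length) M (inp2 (x a) []) (p.eval (x a).length)]) := hA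
  exact PolyC.ite (PolyB.isNil hG) ((hA'.cons false).mono fun _ h => h.1)
    ((hG.cons true).mono fun _ h => h.1)

end

end Hi

end Pool.Agent.Lib.Pa76659G
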