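import Pool.Agent.Lib.Pa76659G.HcF1
import Pool.Agent.Lib.Pa76659G.UoH
import Pool.Agent.Lib.Pa76659G.UoFP

set_option autoImplicit false

/-!
From lists which contain hard truth tables to a language in `E` without circuits of polynomial size.
-/

namespace Pool.Agent.Lib.Pa76659G

open Pool.Agent.Lib.Pa76659
open PC

namespace Hc

open Circ

theorem inc_append : ∀ (a w : Str), bval a + 1 < 2 ^ a.length → inc (a ++ w) = inc a ++ w
  | [], w, h => by simp [bval] at h
  | true :: a, w, h => by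
      have h1 : bval a + 1 < 2 ^ a.length := by
        simp only [bval, List.length_cons, pow_succ, Bool.toNat_true] at h
        omega
      rw [List.cons_append, inc, inc, inc_append a w h1, List.cons_append]
  | false :: a, w, _ => rfl

theorem iter_inc_append {s : ℕ} (w : Str) : ∀ i : ℕ, i < 2 ^ s →
    inc^[i] (bin s 0 ++ w) = bin s i ++ w
  | 0, _ => rfl
  | i + 1, h => by
      have h1 : bin s (i + 1) = inc (bin s i) := by
        unfold bin
        rw [Function.iterate_succ_apply']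
      rw [Function.iterate_succ_apply', iter_inc_append w i (by omega), h1, inc_append]
      rw [bval_bin (by omega), bin_length]
      exact h

/-- inputs with four numbers -/
def blk (s N c d i : ℕ) : Str := bin s i ++ (bin s d ++ (bin s c ++ bin s N))

@[simp] theorem blk_length (s N c d i : ℕ) : (blk s N c d i).length = 4 * s := by
  simp [blk]
  omega

theorem blk_inj {s N c d i N' c' d' i' : ℕ} (h : blk s N c d i = blk s N' c' d' i')
    (hN : N < 2 ^ s) (hc : c < 2 ^ s) (hd : d < 2 ^ s) (hi : i < 2 ^ s)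
    (hN' : N' < 2 ^ s) (hc' : c' < 2 ^ s) (hd' : d' < 2 ^ s) (hi' : i' < 2 ^ s) :
    N = N' ∧ c = c' ∧ d = d' ∧ i = i' := by
  unfold blk at h
  obtain ⟨h1, h⟩ := List.append_inj h (by simp)
  obtain ⟨h2, h⟩ := List.append_inj h (by simp)
  obtain ⟨h3, h⟩ := List.append_inj h (by simp)
  exact ⟨bin_inj hN hN' h, bin_inj hc hc' h3, bin_inj hd hd' h2, bin_inj hi hi' h1⟩

/-- bits of the listed strings -/
def Lb (f : Str → Str) (N c d i : ℕ) : Bool :=
  (snd (f (pr (on1 N) (pr (on1 c) (on1 d))))).getD i false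

/-- test of a decomposition of the input -/
def psi (f : Str → Str) (x : Str) (s N c d i : ℕ) : Bool :=
  decide (blk s N c d i = x) && ((!(decide (2 ^ s ≤ N)) && !(decide (2 ^ s ≤ c))) &&
    ((!(decide (2 ^ s ≤ d)) && !(decide (2 ^ s ≤ i))) && Lb f N c d i))

/-- the language, with a bound for the search -/
def phi (f : Str → Str) (p : Str × Str) : Bool :=
  decide (∃ N < p.2.length, decide (∃ c < p.2.length, decide (∃ d < p.2.length,
    decide (∃ i < p.2.length, psi f p.1 (p.1.length / 2 ^ 2) N c d i = true) = true) = true) = true)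

theorem phi_eq {f : Str → Str} {s N c d i : ℕ} (hN : N < 2 ^ s) (hc : c < 2 ^ s) (hd : d < 2 ^ s)
    (hi : i < 2 ^ s) :
    phi f (blk s N c d i, una (2 ^ (blk s N c d i).length)) = Lb f N c d i := by
  have hs : (4 * s) / 2 ^ 2 = s := by omega
  have hle : 2 ^ s ≤ 2 ^ (4 * s) := Nat.pow_le_pow_right (by omega) (by omega)
  rw [Bool.eq_iff_iff]
  unfold phi
  simp only [decide_eq_true_eq, un_length, blk_length, hs]
  constructor
  · rintro ⟨N', -, c', -, d', -, i', -, h⟩
    unfold psi at h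
    simp only [Bool.and_eq_true, decide_eq_true_eq, Bool.not_eq_true', decide_eq_false_iff_not,
      not_le] at h
    obtain ⟨h1, ⟨h2, h3⟩, ⟨h4, h5⟩, h6⟩ := h
    obtain ⟨rfl, rfl, rfl, rfl⟩ := blk_inj h1 h2 h3 h4 h5 hN hc hd hi
    exact h6
  · intro h
    refine ⟨N, by omega, c, by omega, d, by omega, i, by omega, ?_⟩
    unfold psi
    simp only [Bool.and_eq_true, decide_eq_true_eq, Bool.not_eq_true', decide_eq_false_iff_not,
      not_le]
    exact ⟨trivial, ⟨hN, hc⟩, ⟨hd, hi⟩, h⟩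

section
variable {α : Type} {X : Lang} {D : α → Prop} {ctx : List (α → Str)}

theorem psi_poly {f : Str → Str} (hf : PolyC (fun _ : Str => X) (fun _ => True) [fun x => x] f)
    {x : α → Str} {s N c d i : α → ℕ} (hx : PolyC (fun _ => X) D ctx x)
    (hs : PolyN (fun _ => X) D ctx s) (hN : PolyN (fun _ => X) D ctx N)
    (hc : PolyN (fun _ => X) D ctx c) (hd : PolyN (fun _ => X) D ctx d)
    (hi : PolyN (fun _ => X) D ctx i) :
    PolyB (fun _ => X) D ctx (fun a => psi f (x a) (s a) (N a) (c a) (d a) (i a)) := by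
  have h1 := PolyB.strEq ((polyC_bin hs hi).append ((polyC_bin hs hd).append
    ((polyC_bin hs hc).append (polyC_bin hs hN)))) hx
  have h2 : PolyC (fun _ => X) D ctx (fun a => pr (on1 (N a)) (pr (on1 (c a)) (on1 (d a)))) :=
    PolyC.pr hN (PolyC.pr hc hd)
  have h3 : PolyB (fun _ => X) D ctx (fun a => Lb f (N a) (c a) (d a) (i a)) :=
    PolyB.getD (PolyC.snd (PolyC.arg hf h2)) hi
  exact h1.and (((polyB_pow hN hs).not.and (polyB_pow hc hs).not).and
    (((polyB_pow hd hs).not.and (polyB_pow hi hs).not).and h3))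

end

theorem phi_poly {X : Lang} {f : Str → Str}
    (hf : PolyC (fun _ : Str => X) (fun _ => True) [fun x => x] f) :
    PolyB (fun _ : Str × Str => X) (fun _ => True) [fun p => p.1, fun p => p.2] (phi f) := by
  have ht : PolyC (fun _ : Str × Str => X) (fun _ => True) [fun p => p.1, fun p => p.2]
    (fun p => p.2) := PolyC.var (by simp)
  refine PolyB.exists_lt (φ := fun a : (Str × Str) × ℕ => decide (∃ c < a.1.2.length,
    decide (∃ d < a.1.2.length, decide (∃ i < a.1.2.length,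
      psi f a.1.1 (a.1.1.length / 2 ^ 2) a.2 c d i = true) = true) = true))
    (PolyN.length ht) ?_
  refine PolyB.exists_lt (φ := fun a : ((Str × Str) × ℕ) × ℕ =>
    decide (∃ d < a.1.1.2.length, decide (∃ i < a.1.1.2.length,
      psi f a.1.1.1 (a.1.1.1.length / 2 ^ 2) a.1.2 a.2 d i = true) = true))
    (PolyN.length (t := fun a : (Str × Str) × ℕ => a.1.2) (PolyC.var (by simp [PC.lift]))) ?_
  refine PolyB.exists_lt (φ := fun a : (((Str × Str) × ℕ) × ℕ) × ℕ =>
    decide (∃ i < a.1.1.1.2.length,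
      psi f a.1.1.1.1 (a.1.1.1.1.length / 2 ^ 2) a.1.1.2 a.1.2 a.2 i = true))
    (PolyN.length (t := fun a : ((Str × Str) × ℕ) × ℕ => a.1.1.2)
      (PolyC.var (by simp [PC.lift]))) ?_
  refine PolyB.exists_lt (φ := fun a : ((((Str × Str) × ℕ) × ℕ) × ℕ) × ℕ =>
      psi f a.1.1.1.1.1 (a.1.1.1.1.1.length / 2 ^ 2) a.1.1.1.2 a.1.1.2 a.1.2 a.2)
    (PolyN.length (t := fun a : (((Str × Str) × ℕ) × ℕ) × ℕ => a.1.1.1.2)
      (PolyC.var (by simp [PC.lift]))) ?_
  have hx := PolyC.var (orc := fun _ : ((((Str × Str) × ℕ) × ℕ) × ℕ) × ℕ => X)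
    (D := fun a => ((((True ∧ a.1.1.1.2 < a.1.1.1.1.2.length) ∧ a.1.1.2 < a.1.1.1.1.2.length) ∧
      a.1.2 < a.1.1.1.1.2.length) ∧ a.2 < a.1.1.1.1.2.length))
    (ctx := PC.lift (PC.lift (PC.lift (PC.lift [fun p : Str × Str => p.1, fun p => p.2] ++
      [fun p => una p.2]) ++ [fun p => una p.2]) ++ [fun p => una p.2]) ++ [fun p => una p.2])
    (f := fun a => a.1.1.1.1.1) (by simp [PC.lift])
  refine psi_poly hf hx ?_ (PolyC.var (by simp [PC.lift])) (PolyC.var (by simp [PC.lift]))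
    (PolyC.var (by simp [PC.lift])) (PolyC.var (by simp [PC.lift]))
  exact Hi.div_poly (PolyN.length hx) (PolyN.const 2)

/-- Lists which contain hard truth tables give a language in `E` without small circuits. -/
theorem hard_of_lists {X : Lang}
    (H : ∀ I ∈ NPO X, ∀ q : Polynomial ℕ,
      (∀ m : ℕ, ∃ y : Str, y.length = q.eval m ∧ I (pr (on1 m) y) = false) → ∀ k : ℕ,
      ∃ f ∈ FPO X, ∃ P : Polynomial ℕ, ∀ w0 : ℕ, ∃ w ≥ w0, ∃ c ≤ P.eval (2 ^ w),
        ∃ t ≤ P.eval (2 ^ w), ∃ (m : ℕ) (y : Str),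
          f (pr (on1 (2 ^ w)) (pr (on1 c) (on1 t))) = pr (on1 m) y ∧ y.length = q.eval m ∧
            I (pr (on1 m) y) = false ∧ w ^ k ≤ m) (e : ℕ) :
    ∃ L ∈ EO X, ∀ n0 : ℕ, ∃ n ≥ n0, ∀ C : List Gate,
      (∀ x : Str, x.length = n → cval C x = L x) → n ^ e < C.length := by
  obtain ⟨f, hf, P, hP⟩ := H IF (IF_mem X) (Polynomial.X + 1) IF_tot (e + 2)
  have hf' := Uo.polyC_of_FPO hf
  obtain ⟨pf, hpf⟩ := hf'.length_le
  refine ⟨fun x => phi f (x, una (2 ^ x.length)), mem_EO (phi_poly hf'), fun n0 => ?_⟩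
  obtain ⟨d0, hd0⟩ := exists_bound (Polynomial.X + P + pf.comp (2 * Polynomial.X + 2 + 3 * P) + 1)
  obtain ⟨n1, hn1⟩ := pow_le_two_pow (e + 2)
  set K : ℕ := 4 * (2 * d0 + 1) with hK
  obtain ⟨w, hw, c, hc, t, ht, m, y, h1, h2, h3, h4⟩ := hP (n0 + n1 + 13 * K ^ (e + 1) + 2)
  set s : ℕ := d0 * (w + 1) + 1 with hs
  -- all numbers are less than `2 ^ s`
  have hB := hd0 w
  simp only [Polynomial.eval_add, Polynomial.eval_X, Polynomial.eval_comp, Polynomial.eval_mul,
    Polynomial.eval_ofNat, Polynomial.eval_one] at hB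
  have hm : m ≤ pf.eval (2 * 2 ^ w + 2 + 3 * P.eval (2 ^ w)) := by
    have h5 := hpf (pr (on1 (2 ^ w)) (pr (on1 c) (on1 t))) trivial
    rw [h1] at h5
    simp only [vals_cons, vals_nil, total_cons, total_nil, Nat.add_zero] at h5
    rw [pr_length, pr_length, pr_length, on1_eq, on1_eq, on1_eq, on1_eq, un_length, un_length,
      un_length, un_length] at h5
    have h6 := eval_mono pf (m := 2 * 2 ^ w + 1 + (2 * c + 1 + t))
      (n := 2 * 2 ^ w + 2 + 3 * P.eval (2 ^ w)) (by omega)
    omega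
  have hp0 : 0 < 2 ^ w := by positivity
  have h2s : 2 ^ s = 2 * 2 ^ (d0 * (w + 1)) := by rw [hs, pow_succ]; ring
  have hN : 2 ^ w < 2 ^ s := by omega
  have hcs : c < 2 ^ s := by omega
  have hts : t < 2 ^ s := by omega
  have hms : m + 1 ≤ 2 ^ s := by omega
  refine ⟨4 * s, ?_, fun C hC => ?_⟩
  · have h5 : w ≤ s := by
      by_contra h6
      have := Nat.pow_le_pow_right (show 0 < 2 by norm_num) (show s ≤ w by omega)
      omega
    omega
  · by_contra hcon
    push Not at hcon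
    have hws : w < s := (Nat.pow_lt_pow_iff_right (by norm_num)).1 hN
    have hsK : 4 * s ≤ K * w := by
      have h5 : d0 * (w + 1) ≤ d0 * (2 * w) := Nat.mul_le_mul_left _ (by omega)
      have h6 : K * w = 4 * (d0 * (2 * w)) + 4 * w := by rw [hK]; ring
      omega
    have hp1 : (4 * s) ^ (e + 1) = (4 * s) ^ e * (4 * s) := pow_succ _ _
    have hp2 : (4 * s) ^ (e + 2) = (4 * s) ^ (e + 1) * (4 * s) := pow_succ _ _
    have hpe : 1 ≤ (4 * s) ^ e := Nat.one_le_pow _ _ (by omega)
    have hmul1 : 4 * s ≤ (4 * s) ^ (e + 1) := by rw [hp1]; nlinarith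
    have hw1 : 4 * s + C.length ≤ 2 ^ (4 * s) := by
      have h5 := hn1 (4 * s) (by omega)
      have h6 : (4 * s) ^ e + (4 * s) ^ (e + 1) ≤ (4 * s) ^ (e + 2) := by
        rw [hp2, hp1]
        have h8 : (4 * s) ^ e * (4 * s) * 2 ≤ (4 * s) ^ e * (4 * s) * (4 * s) :=
          Nat.mul_le_mul_left _ (by omega)
        have h9 : (4 * s) ^ e * 1 ≤ (4 * s) ^ e * (4 * s) := Nat.mul_le_mul_left _ (by omega)
        omega
      omega
    have hw2 : 4 * (4 * s) + 3 + C.length * (2 * (4 * s) + 4) ≤ m := by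
      have h5 : C.length * (2 * (4 * s) + 4) ≤ (4 * s) ^ e * (6 * (4 * s)) :=
        Nat.mul_le_mul hcon (by omega)
      have h6 : (4 * s) ^ e * (6 * (4 * s)) = 6 * (4 * s) ^ (e + 1) := by rw [hp1]; ring
      have h7 : (4 * s) ^ (e + 1) ≤ (K * w) ^ (e + 1) := Nat.pow_le_pow_left hsK _
      have h8 : 13 * (K * w) ^ (e + 1) ≤ w ^ (e + 2) := by
        rw [mul_pow, ← mul_assoc, pow_succ w (e + 1), mul_comm (w ^ (e + 1)) w]
        exact Nat.mul_le_mul_right _ (by omega)
      omega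
    obtain ⟨z, hz1, hz2⟩ := Fc_win (n := 4 * s) (m := m) (C := C) (blk s (2 ^ w) c t 0)
      (blk_length _ _ _ _ _) hw1 hw2
    have h5 : IF (pr (on1 m) y) = true := by
      rw [IF_iff]
      refine ⟨z, hz1, ?_⟩
      rw [hz2]
      simp only [Polynomial.eval_add, Polynomial.eval_X, Polynomial.eval_one] at h2
      apply List.ext_getElem
      · rw [List.length_map, List.length_range, h2]
      · intro i hi hi'
        rw [List.length_map, List.length_range] at hi
        rw [List.getElem_map, List.getElem_range]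
        have h6 : inc^[i] (blk s (2 ^ w) c t 0) = blk s (2 ^ w) c t i :=
          iter_inc_append _ i (by omega)
        rw [h6, hC _ (blk_length _ _ _ _ _)]
        show phi f (blk s (2 ^ w) c t i, una (2 ^ (blk s (2 ^ w) c t i).length)) = y[i]
        rw [phi_eq hN hcs hts (by omega)]
        unfold Lb
        rw [h1, snd_pr, List.getD_eq_getElem _ _ hi']
    rw [h3] at h5
    exact absurd h5 (by simp)

end Hc

end Pool.Agent.Lib.Pa76659G
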