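import Pool.Agent.Lib.Pa76659G.UniK
import Pool.Agent.Lib.Pa76659G.Circ3
import Pool.Agent.Lib.Pa76659.Subst

set_option autoImplicit false

/-!
One language in `E(X)` is hard for all fixed polynomial circuit sizes if for each fixed polynomial
size there is a hard language in `E(X)`: the universal machine, with the program hardwired.
-/

namespace Pool.Agent.Lib.Pa76659G

open Pool.Agent.Lib.Pa76659 PC

namespace Hc

/-! ### Hardwiring a prefix of the input -/

/-- renaming of the wires when the prefix `u` of the input is fixed -/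
def hwi (u : Str) (n i : ℕ) : ℕ :=
  if i < u.length then (if u.getD i false = true then n + 1 else n)
  else if i < u.length + n then i - u.length
  else i - u.length + 2

/-- renaming of the wires of a gate -/
def hwg (u : Str) (n : ℕ) : Gate → Gate
  | Gate.and i j => Gate.and (hwi u n i) (hwi u n j)
  | Gate.or i j => Gate.or (hwi u n i) (hwi u n j)
  | Gate.not i => Gate.not (hwi u n i)

theorem hwi_getD (u x w : Str) (i : ℕ) :
    (x ++ [false, true] ++ w).getD (hwi u x.length i) false = (u ++ x ++ w).getD i false := by
  unfold hwi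
  by_cases h1 : i < u.length
  · rw [if_pos h1]
    have e : (u ++ x ++ w).getD i false = u.getD i false := by
      rw [List.append_assoc, List.getD_append _ _ _ _ h1]
    rw [e]
    rcases hb : u.getD i false with _ | _
    · rw [if_neg (by simp)]
      rw [List.append_assoc, List.getD_append_right _ _ _ _ le_rfl]
      simp
    · rw [if_pos rfl]
      rw [List.append_assoc, List.getD_append_right _ _ _ _ (by omega)]
      simp
  · rw [if_neg h1]
    push Not at h1
    by_cases h2 : i < u.length + x.length
    · rw [if_pos h2]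
      rw [List.append_assoc, List.getD_append _ _ _ _ (by omega), List.append_assoc,
        List.getD_append_right _ _ _ _ h1, List.getD_append _ _ _ _ (by omega)]
    · rw [if_neg h2]
      push Not at h2
      rw [List.getD_append_right _ _ _ _ (by simp; omega), List.getD_append_right _ _ _ _ (by simp; omega)]
      congr 1
      simp only [List.length_append, List.length_cons, List.length_nil]
      omega

theorem hwg_val (u x w : Str) (g : Gate) :
    (hwg u x.length g).val (x ++ [false, true] ++ w) = g.val (u ++ x ++ w) := by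
  cases g with
  | and i j => simp only [hwg, Gate.val, hwi_getD]
  | or i j => simp only [hwg, Gate.val, hwi_getD]
  | not i => simp only [hwg, Gate.val, hwi_getD]

theorem hw_foldl (u x : Str) : ∀ (C : List Gate) (w : Str), ∃ w' : Str,
    w'.length = w.length + C.length ∧
    C.foldl (fun v g => v ++ [g.val v]) (u ++ x ++ w) = u ++ x ++ w' ∧
    (C.map (hwg u x.length)).foldl (fun v g => v ++ [g.val v]) (x ++ [false, true] ++ w) =
      x ++ [false, true] ++ w'
  | [], w => ⟨w, rfl, rfl, rfl⟩
  | g :: C, w => by
    obtain ⟨w', h1, h2, h3⟩ := hw_foldl u x C (w ++ [g.val (u ++ x ++ w)])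
    refine ⟨w', ?_, ?_, ?_⟩
    · rw [h1]
      simp only [List.length_append, List.length_cons, List.length_nil]
      omega
    · rw [List.foldl_cons, ← h2]
      simp only [List.append_assoc]
    · rw [List.map_cons, List.foldl_cons, hwg_val, ← h3]
      simp only [List.append_assoc]

/-- Hardwiring. -/
theorem hardwire (u : Str) {n : ℕ} (hn : 1 ≤ n) (C : List Gate) :
    ∃ C' : List Gate, C'.length ≤ C.length + 2 ∧
      ∀ x : Str, x.length = n → cval C' x = cval C (u ++ x) := by
  rcases C with _ | ⟨g, C⟩
  · refine ⟨[], by simp, fun x hx => ?_⟩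
    have hx' : x ≠ [] := by
      intro h
      rw [h] at hx
      simp at hx
      omega
    show x.getLastD false = (u ++ x).getLastD false
    obtain ⟨y, b, rfl⟩ := List.eq_nil_or_concat' x |>.resolve_left hx'
    rw [← List.append_assoc, List.getLastD_concat, List.getLastD_concat]
  · refine ⟨Gate.and n n :: Gate.not (n + 1) :: (g :: C).map (hwg u n), by simp, fun x hx => ?_⟩
    subst hx
    obtain ⟨w', h1, h2, h3⟩ := hw_foldl u x (g :: C) []
    have hw : w' ≠ [] := by
      intro h
      rw [h] at h1
      simp at h1
    unfold cval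
    rw [List.append_nil] at h2
    rw [h2, List.foldl_cons, List.foldl_cons]
    have e1 : (Gate.and x.length x.length).val x = false := by
      simp [Gate.val]
    have e2 : (Gate.not (x.length + 1)).val (x ++ [false]) = true := by
      simp [Gate.val]
    rw [e1, e2]
    have e3 : x ++ [false] ++ [true] = x ++ [false, true] ++ [] := by simp
    rw [e3, h3]
    obtain ⟨y, b, rfl⟩ := List.eq_nil_or_concat' w' |>.resolve_left hw
    rw [← List.append_assoc, ← List.append_assoc, List.getLastD_concat, List.getLastD_concat]

/-! ### The universal language -/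

/-- initial configuration -/
def d0 (z : Str) : Str :=
  pr (nth (fst z) 1) (lenc ((List.range (nth (fst z) 2).length).map
    (fun j => if decide (j = 0) = true then snd z else [])))

/-- final configuration -/
def d1 (O : Lang) (z t : Str) : Str :=
  (Unv.ustep O (nth (fst z) 0) (nth (fst z) 2).length)^[t.length] (d0 z)

/-- the universal machine -/
def UE (O : Lang) (p : Str × Str) : Bool := (nth (snd (d1 O p.1 p.2)) 0).headD false

theorem d0_inv (z : Str) : Unv.Inv (nth (fst z) 0) (nth (fst z) 2).length z.length (d0 z) := by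
  refine ⟨_, _, rfl, ?_, fun j => ?_⟩
  · exact (nth_length_le (fst z) 1).trans (fst_length_le z)
  · split_ifs
    · exact snd_length_le z
    · simp

theorem UE_poly (O : Lang) :
    PolyB (fun _ : Str × Str => O) (fun _ => True) [fun p => p.1, fun p => p.2] (UE O) := by
  have hz : PolyC (fun _ : Str × Str => O) (fun _ => True) [fun p => p.1, fun p => p.2]
    (fun p => p.1) := PolyC.var (by simp)
  have ht : PolyC (fun _ : Str × Str => O) (fun _ => True) [fun p => p.1, fun p => p.2]
    (fun p => p.2) := PolyC.var (by simp)
  have f : ∀ i, PolyC (fun _ : Str × Str => O) (fun _ => True) [fun p => p.1, fun p => p.2]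
    (fun p => nth (fst p.1) i) := fun i => PolyC.nth (PolyC.fst hz) (PolyN.const i)
  have h0 : PolyC (fun _ : Str × Str => O) (fun _ => True) [fun p => p.1, fun p => p.2]
      (fun p => d0 p.1) := by
    unfold d0
    refine PolyC.pr (f 1) (PolyC.lenc_range (f := fun p : (Str × Str) × ℕ =>
      if decide (p.2 = 0) = true then snd p.1.1 else []) (PolyN.length (f 2)) ?_)
    have hk : PolyN (fun _ : (Str × Str) × ℕ => O)
        (fun p => True ∧ p.2 < (nth (fst p.1.1) 2).length)
        (PC.lift [fun p : Str × Str => p.1, fun p => p.2] ++ [fun p => una p.2])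
        (fun p => p.2) := PolyC.var (by simp)
    refine PolyC.ite (PolyB.natEq hk (PolyN.const 0)) ?_ PolyC.nil
    exact (((PolyC.snd hz).lift (D' := fun p : (Str × Str) × ℕ =>
      True ∧ p.2 < (nth (fst p.1.1) 2).length)
      (fun p hp => hp.1)).weakenRight _).mono fun _ h => h.1
  have h1 : PolyC (fun _ : Str × Str => O) (fun _ => True) [fun p => p.1, fun p => p.2]
      (fun p => d1 O p.1 p.2) := by
    unfold d1
    refine PolyC.iter (g := fun p : Str × Str =>
      Unv.ustep O (nth (fst p.1) 0) (nth (fst p.1) 2).length) ?_ h0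
      (PolyN.length ht) ⟨2 * (2 * Polynomial.X) + 1 +
        (2 * (Polynomial.X * (2 * Polynomial.X)) + Polynomial.X), fun p _ k hk => ?_⟩
    · refine Unv.ustep_poly (O := O) ?_ ?_ (PolyC.var (by simp))
      · exact ((f 0).lift (D' := fun p : (Str × Str) × Str => True) (fun p hp => hp)).weakenRight _
      · exact (PolyC.lift (PolyN.length (f 2))
          (D' := fun p : (Str × Str) × Str => True) (fun p hp => hp)).weakenRight _
    · have h2 := ((d0_inv p.1).iter (O := O)
        ((nth_length_le (fst p.1) 0).trans (fst_length_le p.1)) k).length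
      have h4 := (nth_length_le (fst p.1) 2).trans (fst_length_le p.1)
      refine h2.trans ?_
      simp only [vals_cons, vals_nil, total_cons, total_nil, Nat.add_zero, Polynomial.eval_add,
        Polynomial.eval_mul, Polynomial.eval_ofNat, Polynomial.eval_X, Polynomial.eval_one]
      have h5 : p.1.length + k ≤ 2 * (p.1.length + p.2.length) := by omega
      have h6 : (nth (fst p.1) 2).length * (p.1.length + k) ≤
          (p.1.length + p.2.length) * (2 * (p.1.length + p.2.length)) :=
        Nat.mul_le_mul (by omega) h5
      omega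
  exact PolyB.headD (PolyC.nth (PolyC.snd h1) (PolyN.const 0))

/-- the universal language -/
def UL (O : Lang) : Lang := fun z => UE O (z, una (2 ^ z.length))

theorem UL_mem (O : Lang) : UL O ∈ EO O := Circ.mem_EO (UE_poly O)

theorem UL_eq {O L : Lang} (h : L ∈ EO O) : ∃ (a : ℕ → Str) (K : ℕ),
    (∀ n, 2 * (a n).length + 1 ≤ K * (n + 1)) ∧
      ∀ n, ∀ x : Str, x.length = n → UL O (pr (a n) x) = L x := by
  obtain ⟨M, c, hM⟩ := h
  set m : ℕ := M.bnd + 1 with hm
  refine ⟨fun n => lenc [Unv.tabl M, cod M [M], una m, una (c * (n + 1))],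
    2 * (2 * ((Unv.tabl M).length + (cod M [M]).length + m + c) + 4) + 1, fun n => ?_,
    fun n x hx => ?_⟩
  · beta_reduce
    rw [lenc_length]
    simp only [total_cons, total_nil, List.length_cons, List.length_nil, PC.un_length]
    generalize (Unv.tabl M).length = A
    generalize (cod M [M]).length = B
    nlinarith [Nat.zero_le (A * n), Nat.zero_le (B * n), Nat.zero_le (m * n), Nat.zero_le n]
  · subst hx
    obtain ⟨a, ha⟩ : ∃ a, a = lenc [Unv.tabl M, cod M [M], una m, una (c * (x.length + 1))] :=
      ⟨_, rfl⟩
    have t0 : nth a 0 = Unv.tabl M := by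
      rw [ha]
      simp only [nth_lenc, List.getD_cons_zero]
    have t1 : nth a 1 = cod M [M] := by
      rw [ha]
      simp only [nth_lenc, List.getD_cons_zero, List.getD_cons_succ]
    have t2 : nth a 2 = una m := by
      rw [ha]
      simp only [nth_lenc, List.getD_cons_zero, List.getD_cons_succ]
    have hl : c * (x.length + 1) ≤ (pr a x).length := by
      rw [pr_length, ha, lenc_length]
      simp only [total_cons, total_nil, List.length_cons, List.length_nil, PC.un_length]
      omega
    have e0 : d0 (pr a x) = enc M m ([M], inp x) := by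
      unfold d0 enc
      rw [fst_pr, snd_pr, t1, t2, PC.un_length]
      refine Unv.pr_lenc_congr rfl (fun j _ => ?_)
      unfold inp
      simp only [decide_eq_true_eq]
    have e1 : d1 O (pr a x) (una (2 ^ (pr a x).length)) =
        enc M m (runN O (2 ^ (pr a x).length) ([M], inp x)) := by
      unfold d1
      rw [e0, fst_pr, t0, t2, PC.un_length, PC.un_length, Unv.ustep_run (by omega)]
    show UL O (pr (lenc [Unv.tabl M, cod M [M], una m, una (c * (x.length + 1))]) x) = L x
    rw [← ha]
    show (nth (snd (d1 O (pr a x) (una (2 ^ (pr a x).length)))) 0).headD false = L x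
    rw [e1, enc_reg _ _ _ (by omega)]
    have h1 := (halts_mono (hM x).1 (Nat.pow_le_pow_right (by norm_num) hl)).2
    rw [(hM x).2, ← h1, accepts]
    rcases (runN O (2 ^ (pr a x).length) ([M], inp x)).2 0 with _ | ⟨b, l⟩
    · rfl
    · cases b <;> rfl

theorem pr_append (a x : Str) : pr a x = pr a [] ++ x := by
  simp [pr]

/-- One language for all exponents. -/
theorem one_of_all {X : Lang} (H : ∀ e, ∃ L ∈ EO X, ∀ n0, ∃ n ≥ n0, ∀ C : List Gate,
    (∀ x, x.length = n → cval C x = L x) → n ^ e < C.length) :
    ∃ L ∈ EO X, ∀ e n0, ∃ n ≥ n0, ∀ C : List Gate,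
      (∀ x, x.length = n → cval C x = L x) → n ^ e < C.length := by
  refine ⟨UL X, UL_mem X, fun e n0 => ?_⟩
  obtain ⟨L, hL, h⟩ := H (e + 1)
  obtain ⟨a, K, ha, hU⟩ := UL_eq hL
  obtain ⟨n, hn, hC⟩ := h (n0 + (2 * (K + 1)) ^ e + 3)
  have hn1 : 1 ≤ n := by omega
  refine ⟨(pr (a n) []).length + n, by omega, fun C hC' => ?_⟩
  obtain ⟨C', h1, h2⟩ := hardwire (pr (a n) []) hn1 C
  have h3 := hC C' (fun x hx => by
    rw [h2 x hx, hC' (pr (a n) [] ++ x) (by rw [List.length_append, hx]), ← pr_append, hU n x hx])
  have h4 : (pr (a n) []).length + n ≤ 2 * (K + 1) * n := by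
    have h5 := ha n
    rw [pr_length, List.length_nil]
    have h6 : K * 1 ≤ K * n := Nat.mul_le_mul_left K hn1
    nlinarith
  have h5 : ((pr (a n) []).length + n) ^ e ≤ (2 * (K + 1)) ^ e * n ^ e := by
    rw [← mul_pow]
    exact Nat.pow_le_pow_left h4 e
  have h6 : 1 ≤ n ^ e := Nat.one_le_pow _ _ (by omega)
  have h7 : ((2 * (K + 1)) ^ e + 2) * n ^ e ≤ n * n ^ e := Nat.mul_le_mul_right _ (by omega)
  rw [pow_succ, mul_comm] at h3
  nlinarith

end Hc

end Pool.Agent.Lib.Pa76659G
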