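import Pool.Agent.Lib.Pa76659G.UoH3

set_option autoImplicit false

/-!
If `H_1 = \hat H_1` then total unary search problems are solved in subexponential time.
-/

namespace Pool.Agent.Lib.Pa76659G

open Pool.Agent.Lib.Pa76659 PC
open Pool.Agent.Lib.Pa76659H (High RHighSucc TComp)

namespace Hi

theorem pr_append (a b c : Str) : pr a b ++ c = pr a (b ++ c) := by
  unfold pr
  rw [List.append_assoc]
  rfl

theorem nth_lenc_append : ∀ (l : List Str) (c : Str) (i : ℕ), i < l.length →
    nth (lenc l ++ c) i = l.getD i []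
  | [], _, _, h => absurd h (Nat.not_lt_zero _)
  | x :: l, c, 0, _ => by
    show fst (lenc (x :: l) ++ c) = x
    rw [lenc_cons, pr_append, fst_pr]
  | x :: l, c, i + 1, h => by
    have h1 : nth (lenc (x :: l) ++ c) (i + 1) = nth (lenc l ++ c) i := by
      unfold nth
      rw [Function.iterate_succ_apply, lenc_cons, pr_append, snd_pr]
    rw [h1, nth_lenc_append l c i (by simpa using h), List.getD_cons_succ]

open Classical in
/-- solutions for all lengths at most `|fst u|` -/
noncomputable def Vs (V : Lang) (q : Polynomial ℕ) : Lang := fun u =>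
  decide (∀ l < (fst u).length + 1, (decide ((nth (snd u) l).length = q.eval l) &&
    V (pr (on1 l) (nth (snd u) l))) = true)

theorem Vs_iff {V : Lang} {q : Polynomial ℕ} {u : Str} : Vs V q u = true ↔
    ∀ l < (fst u).length + 1, (nth (snd u) l).length = q.eval l ∧
      V (pr (on1 l) (nth (snd u) l)) = true := by
  unfold Vs
  simp only [decide_eq_true_eq, Bool.and_eq_true]

theorem Vs_mem {X V : Lang} {q : Polynomial ℕ} (hV : V ∈ PO X) : Vs V q ∈ PO X := by
  classical
  refine mem_PO ?_
  have hx : PolyC (fun _ : Str => X) (fun _ => True) [fun x => x] (fun x => x) :=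
    PolyC.var (by simp)
  have hn := (PolyN.length (PolyC.fst hx)).succ
  have hs := PolyC.snd hx
  refine (PolyB.forall_lt (φ := fun p : Str × ℕ => decide ((nth (snd p.1) p.2).length = q.eval p.2) &&
    V (pr (on1 p.2) (nth (snd p.1) p.2))) hn ?_).congr (fun x _ => ?_)
  · have hs' : PolyC (fun _ : Str × ℕ => X) (fun p => True ∧ p.2 < (fst p.1).length + 1)
        (PC.lift [fun x : Str => x] ++ [fun p => una p.2]) (fun p => snd p.1) :=
      (PolyC.lift hs (D' := fun p : Str × ℕ => True ∧ p.2 < (fst p.1).length + 1)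
        (fun p hp => hp.1)).weakenRight _
    have hk : PolyN (fun _ : Str × ℕ => X) (fun p => True ∧ p.2 < (fst p.1).length + 1)
        (PC.lift [fun x : Str => x] ++ [fun p => una p.2]) (fun p => p.2) := PolyC.var (by simp)
    have hy := PolyC.nth hs' hk
    exact (PolyB.natEq (PolyN.length hy) (hk.poly q)).and
      (polyB_of_PO hV (PolyC.pr (t := fun p : Str × ℕ => on1 p.2) hk hy))
  · rw [Bool.eq_iff_iff, Vs_iff]
    simp only [decide_eq_true_eq, Bool.and_eq_true]

/-- the length of the lists of solutions -/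
noncomputable def qs (q : Polynomial ℕ) : Polynomial ℕ := (Polynomial.X + 1) * (2 * q + 1)

theorem Vs_tot {V : Lang} {q : Polynomial ℕ}
    (tot : ∀ n, ∃ y : Str, y.length = q.eval n ∧ V (pr (on1 n) y) = true) (n : ℕ) :
    ∃ y : Str, y.length = (qs q).eval n ∧ Vs V q (pr (on1 n) y) = true := by
  choose y h1 h2 using tot
  set l : List Str := (List.range (n + 1)).map y with hl
  have hlen : (lenc l).length ≤ (qs q).eval n := by
    rw [lenc_length]
    have h3 : total l ≤ (n + 1) * q.eval n := by
      refine total_map_range y (q.eval n) (n + 1) (fun r hr => ?_)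
      rw [h1 r]
      exact eval_mono q (by omega)
    have h4 : l.length = n + 1 := by simp [hl]
    rw [h4, qs]
    simp only [Polynomial.eval_mul, Polynomial.eval_add, Polynomial.eval_X, Polynomial.eval_one,
      Polynomial.eval_ofNat]
    have h5 : (n + 1) * (2 * q.eval n + 1) = 2 * ((n + 1) * q.eval n) + (n + 1) := by ring
    omega
  refine ⟨lenc l ++ List.replicate ((qs q).eval n - (lenc l).length) false, ?_, ?_⟩
  · rw [List.length_append, List.length_replicate]
    omega
  · rw [Vs_iff]
    intro i hi
    rw [fst_pr, on1_eq, PC.un_length] at hi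
    have h3 : nth (snd (pr (on1 n) (lenc l ++
        List.replicate ((qs q).eval n - (lenc l).length) false))) i = y i := by
      rw [snd_pr, nth_lenc_append l _ i (by simpa [hl] using hi),
        List.getD_eq_getElem _ _ (by simpa [hl] using hi)]
      simp [hl]
    rw [h3]
    exact ⟨h1 i, h2 i⟩

/-- If `\hat H_1 = H_1` then total unary search problems in `NP` are solved in subexponential time. -/
theorem subexp {X V : Lang} {q : Polynomial ℕ} (h : High X 1 ⊆ RHighSucc X 0) (hV : V ∈ PO X)
    (tot : ∀ n, ∃ y : Str, y.length = q.eval n ∧ V (pr (on1 n) y) = true) (k : ℕ) :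
    ∃ F ∈ FPO X, ∀ n l : ℕ, l ≤ n → l ≤ Nat.log 2 n ^ k →
      (F (pr (on1 n) (on1 l))).length = q.eval l ∧
        V (pr (on1 l) (F (pr (on1 n) (on1 l)))) = true := by
  obtain ⟨f, hf, h1⟩ := h1_find (q := qs q) h (Vs_mem (q := q) hV) (Vs_tot tot) k
  refine ⟨fun z => nth (snd (f (fst z))) (snd z).length, Uo.FPO_of_polyC ?_, fun n l hn hl => ?_⟩
  · have hx : PolyC (fun _ : Str => X) (fun _ => True) [fun x => x] (fun x => x) :=
      PolyC.var (by simp)
    exact PolyC.nth (PolyC.snd (PolyC.arg (Uo.polyC_of_FPO hf) (PolyC.fst hx)))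
      (PolyN.length (PolyC.snd hx))
  · obtain ⟨N, Y, h2, -, h3, h4⟩ := h1 (on1 n)
    rw [h2, Vs_iff] at h3
    rw [on1_eq, PC.un_length] at h4
    rw [fst_pr, on1_eq, PC.un_length] at h3
    have h5 : l < N + 1 := by
      have : l ≤ Lk k n := le_min hn hl
      omega
    have h6 := h3 l h5
    simp only [fst_pr, snd_pr]
    have h7 : (on1 l).length = l := by rw [on1_eq, PC.un_length]
    rw [h7, h2, snd_pr]
    rwa [snd_pr] at h6

/-- the search for a certificate that a string is in a language, or is not -/
noncomputable def Vt (V1 V2 : Str × Str → Bool) (q1 q2 : Polynomial ℕ) : Lang := fun u =>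
  if (snd u).headD false = true then V1 (fst u, (snd u).tail.take (q1.eval (fst u).length))
  else V2 (fst u, (snd u).tail.take (q2.eval (fst u).length))

theorem Vt_mem {X : Lang} {V1 V2 : Str × Str → Bool} {q1 q2 : Polynomial ℕ}
    (h1 : PolyB (fun _ : Str × Str => X) (fun _ => True) [fun p => p.1, fun p => p.2] V1)
    (h2 : PolyB (fun _ : Str × Str => X) (fun _ => True) [fun p => p.1, fun p => p.2] V2) :
    Vt V1 V2 q1 q2 ∈ PO X := by
  refine mem_PO ?_
  have hx : PolyC (fun _ : Str => X) (fun _ => True) [fun x => x] (fun x => x) :=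
    PolyC.var (by simp)
  have hf := PolyC.fst hx
  have hs := PolyC.snd hx
  have hn := PolyN.length hf
  exact PolyB.ite (PolyB.headD hs)
    ((PolyB.arg2 h1 hf (PolyC.take hs.tail (hn.poly q1))).mono fun _ h => h.1)
    ((PolyB.arg2 h2 hf (PolyC.take hs.tail (hn.poly q2))).mono fun _ h => h.1)

/-- If `\hat H_1 = H_1` then tally sets in `NP ∩ coNP` are decided in subexponential time. -/
theorem tally {X T : Lang} (h : High X 1 ⊆ RHighSucc X 0) (hT : T ∈ NPO X)
    (hT' : (fun x => !(T x)) ∈ NPO X) (k : ℕ) :
    ∃ L ∈ PO X, ∀ n l : ℕ, l ≤ n → l ≤ Nat.log 2 n ^ k → L (pr (on1 n) (on1 l)) = T (on1 l) := by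
  obtain ⟨V1, q1, hV1, hT1⟩ := exists_of_NPO hT
  obtain ⟨V2, q2, hV2, hT2⟩ := exists_of_NPO hT'
  have e : ∀ n, (on1 n).length = n := fun n => by rw [on1_eq, PC.un_length]
  have tot : ∀ n, ∃ y : Str, y.length = (q1 + q2 + 1).eval n ∧
      Vt V1 V2 q1 q2 (pr (on1 n) y) = true := by
    intro n
    cases hb : T (on1 n)
    · obtain ⟨y, h1, h2⟩ := (hT2 (on1 n)).1 (by rw [hb]; rfl)
      rw [e] at h1
      refine ⟨false :: (y ++ List.replicate (q1.eval n) false), ?_, ?_⟩
      · simp only [List.length_cons, List.length_append, List.length_replicate, h1,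
          Polynomial.eval_add, Polynomial.eval_one]
        omega
      · unfold Vt
        rw [snd_pr, fst_pr, List.headD_cons, if_neg (by simp), List.tail_cons, e,
          List.take_append_of_le_length (by omega), List.take_of_length_le (by omega)]
        exact h2
    · obtain ⟨y, h1, h2⟩ := (hT1 (on1 n)).1 hb
      rw [e] at h1
      refine ⟨true :: (y ++ List.replicate (q2.eval n) false), ?_, ?_⟩
      · simp only [List.length_cons, List.length_append, List.length_replicate, h1,
          Polynomial.eval_add, Polynomial.eval_one]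
      · unfold Vt
        rw [snd_pr, fst_pr, List.headD_cons, if_pos rfl, List.tail_cons, e,
          List.take_append_of_le_length (by omega), List.take_of_length_le (by omega)]
        exact h2
  obtain ⟨F, hF, h1⟩ := subexp h (Vt_mem (q1 := q1) (q2 := q2) hV1 hV2) tot k
  refine ⟨fun z => (F z).headD false, ?_, fun n l hn hl => ?_⟩
  · exact mem_PO (PolyB.headD (Uo.polyC_of_FPO hF))
  · obtain ⟨h2, h3⟩ := h1 n l hn hl
    set w := F (pr (on1 n) (on1 l)) with hw
    simp only [Polynomial.eval_add, Polynomial.eval_one] at h2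
    unfold Vt at h3
    rw [snd_pr, fst_pr, e] at h3
    show w.headD false = T (on1 l)
    cases hb : w.headD false
    · rw [hb, if_neg (by simp)] at h3
      have h4 : (!(T (on1 l))) = true := (hT2 (on1 l)).2 ⟨_, by
        rw [List.length_take, List.length_tail, e]
        omega, h3⟩
      rw [Bool.not_eq_true'] at h4
      exact h4.symm
    · rw [hb, if_pos rfl] at h3
      exact ((hT1 (on1 l)).2 ⟨_, by
        rw [List.length_take, List.length_tail, e]
        omega, h3⟩).symm

end Hi

end Pool.Agent.Lib.Pa76659G
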