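import Pool.Agent.Lib.Pa76659G.HcE
import Pool.Agent.Lib.Pa76659G.UoH4

set_option autoImplicit false

/-!
If `\hat H_1 = H_1` then subexponential time lists contain the values of functions in `FP^NP` on unary
inputs, infinitely often.
-/

namespace Pool.Agent.Lib.Pa76659G

open Pool.Agent.Lib.Pa76659 PC
open Pool.Agent.Lib.Pa76659H (High RHighSucc TComp)

namespace Hc

section
variable (V : Str × Str → Bool) (s p : Polynomial ℕ) (M : Prog)

/-- the query number `k` of the run with the answers `fst y` -/
def qk (m : ℕ) (y : Str) (k : ℕ) : Str := oc (qry (PC.cf M (on1 m) [] (fst y) k))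

/-- a wrong answer: a positive answer without witness, or a negative answer which is refuted by the
witness `z` -/
noncomputable def wr (m : ℕ) (y z : Str) (k : ℕ) : Bool :=
  !((qk M m y k).isEmpty) && (if (fst y).getD k false = true then
    !(decide ((nth (snd y) k).length = s.eval (qk M m y k).tail.length) &&
      V ((qk M m y k).tail, nth (snd y) k))
    else decide (z.length = s.eval (qk M m y k).tail.length) && V ((qk M m y k).tail, z))

/-- some answer is wrong -/
noncomputable def VI (u : Str × Str) : Bool :=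
  decide (∃ k < p.eval (fst u.1).length, wr V s M (fst u.1).length (snd u.1) u.2 k = true)

open Classical in
/-- the wrong transcripts -/
noncomputable def II : Lang := fun u => decide (∃ z : Str, VI V s p M (u, z) = true)

/-- the result of the run with the answers `fst y` -/
def res (m : ℕ) (y : Str) : Str := (PC.cf M (on1 m) [] (fst y) (p.eval m)).2 0

end

section
variable {α : Type} {D : α → Prop} {ctx : List (α → Str)} {X : Lang} {V : Str × Str → Bool}
  {s p : Polynomial ℕ} {M : Prog}

theorem on1l' (n : ℕ) : (on1 n).length = n := by rw [on1_eq, PC.un_length]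

theorem qk_poly (M : Prog) {m k : α → ℕ} {y : α → Str} (hm : PolyN (fun _ => X) D ctx m)
    (hy : PolyC (fun _ => X) D ctx y) (hk : PolyN (fun _ => X) D ctx k) :
    PolyC (fun _ => X) D ctx (fun a => qk M (m a) (y a) (k a)) :=
  PolyC.qry' M (fun a => PC.cf M (on1 (m a)) [] (fst (y a)) (k a))
    (PolyC.cf M (x := fun a => on1 (m a)) hm PolyC.nil (PolyC.fst hy) hk)
    (fun a _ => cf_KK M (on1 (m a)) [] (fst (y a)) (k a))

theorem res_poly (M : Prog) (p : Polynomial ℕ) {m : α → ℕ} {y : α → Str}
    (hm : PolyN (fun _ => X) D ctx m) (hy : PolyC (fun _ => X) D ctx y) :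
    PolyC (fun _ => X) D ctx (fun a => res p M (m a) (y a)) := by
  have h := PolyC.cf M (x := fun a => on1 (m a)) hm PolyC.nil (PolyC.fst hy) (hm.poly p)
  exact (PolyC.nth (PolyC.snd h) (PolyN.const 0)).congr (fun a _ => enc_reg _ _ _ (by omega))

theorem wr_poly (hV : PolyB (fun _ : Str × Str => X) (fun _ => True) [fun p => p.1, fun p => p.2] V)
    (M : Prog) {m k : α → ℕ} {y z : α → Str} (hm : PolyN (fun _ => X) D ctx m)
    (hy : PolyC (fun _ => X) D ctx y) (hz : PolyC (fun _ => X) D ctx z)
    (hk : PolyN (fun _ => X) D ctx k) :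
    PolyB (fun _ => X) D ctx (fun a => wr V s M (m a) (y a) (z a) (k a)) := by
  have hq := qk_poly M hm hy hk
  have hn := (PolyN.length hq.tail).poly s
  have hw := PolyC.nth (PolyC.snd hy) hk
  refine (PolyB.isNil hq).not.and (PolyB.ite (PolyB.getD (PolyC.fst hy) hk) ?_ ?_)
  · exact (((PolyB.natEq (PolyN.length hw) hn).and (PolyB.arg2 hV hq.tail hw)).not).mono
      fun _ h => h.1
  · exact ((PolyB.natEq (PolyN.length hz) hn).and (PolyB.arg2 hV hq.tail hz)).mono fun _ h => h.1

theorem VI_poly (hV : PolyB (fun _ : Str × Str => X) (fun _ => True) [fun p => p.1, fun p => p.2] V)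
    (M : Prog) (p : Polynomial ℕ) :
    PolyB (fun _ : Str × Str => X) (fun _ => True) [fun p => p.1, fun p => p.2] (VI V s p M) := by
  have hu : PolyC (fun _ : Str × Str => X) (fun _ => True) [fun p => p.1, fun p => p.2]
    (fun p => p.1) := PolyC.var (by simp)
  have hz : PolyC (fun _ : Str × Str => X) (fun _ => True) [fun p => p.1, fun p => p.2]
    (fun p => p.2) := PolyC.var (by simp)
  have hm := PolyN.length (PolyC.fst hu)
  refine PolyB.exists_lt (φ := fun a : (Str × Str) × ℕ =>
    wr V s M (fst a.1.1).length (snd a.1.1) a.1.2 a.2) (hm.poly p) ?_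
  have lf : ∀ {t : Str × Str → Str}, PolyC (fun _ : Str × Str => X) (fun _ => True)
      [fun p => p.1, fun p => p.2] t →
      PolyC (fun _ : (Str × Str) × ℕ => X) (fun a => True ∧ a.2 < p.eval (fst a.1.1).length)
        (PC.lift [fun p : Str × Str => p.1, fun p => p.2] ++ [fun p => una p.2])
        (fun a => t a.1) := fun ht => (ht.lift (fun _ _ => trivial)).weakenRight _
  exact wr_poly hV M (PolyN.length (PolyC.fst (lf hu))) (PolyC.snd (lf hu)) (lf hz)
    (PolyC.var (by simp))

theorem qk_tail_length (M : Prog) (m : ℕ) (y : Str) (k : ℕ) :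
    (qk M m y k).tail.length ≤ m + k := by
  unfold qk
  rcases hq : qry (PC.cf M (on1 m) [] (fst y) k) with _ | v
  · show 0 ≤ _
    omega
  · have := qry_bdd (cf_bdd M (on1 m) [] (fst y) k) hq
    rw [on1l'] at this
    show v.length ≤ _
    simpa using this

theorem II_mem (hV : PolyB (fun _ : Str × Str => X) (fun _ => True) [fun p => p.1, fun p => p.2] V)
    (M : Prog) (p : Polynomial ℕ) : II V s p M ∈ NPO X := by
  classical
  refine mem_NPO_le (s.comp (Polynomial.X + p)) (VI_poly (s := s) hV M p) (fun u => ?_)
  unfold II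
  rw [decide_eq_true_eq]
  constructor
  · rintro ⟨z, hz⟩
    by_cases h0 : ∃ z : Str, z.length ≤ (s.comp (Polynomial.X + p)).eval u.length ∧
        VI V s p M (u, z) = true
    · exact h0
    · exfalso
      have h1 : ¬ VI V s p M (u, []) = true := fun h => h0 ⟨[], Nat.zero_le _, h⟩
      have h2 : ¬ z.length ≤ (s.comp (Polynomial.X + p)).eval u.length := fun h => h0 ⟨z, h, hz⟩
      unfold VI at hz h1
      simp only [decide_eq_true_eq] at hz h1
      obtain ⟨k, hk, h3⟩ := hz
      have h4 : ¬ wr V s M (fst u).length (snd u) [] k = true := fun h => h1 ⟨k, hk, h⟩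
      unfold wr at h3 h4
      by_cases h5 : (fst (snd u)).getD k false = true
      · rw [if_pos h5] at h3 h4
        exact h4 h3
      · rw [if_neg h5] at h3
        simp only [Bool.and_eq_true, decide_eq_true_eq] at h3
        apply h2
        rw [h3.2.1, Polynomial.eval_comp]
        refine eval_mono s ?_
        have h6 := qk_tail_length M (fst u).length (snd u) k
        have h7 := fst_length_le u
        have h8 := eval_mono p h7
        simp only [Polynomial.eval_add, Polynomial.eval_X]
        omega
  · rintro ⟨z, -, hz⟩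
    exact ⟨z, hz⟩

theorem cf_right {B : Lang}
    (hB : ∀ x, B x = true ↔ ∃ y : Str, y.length = s.eval x.length ∧ V (x, y) = true)
    {m : ℕ} {y : Str} (h : II V s p M (pr (on1 m) y) = false) :
    PC.cf M (on1 m) [] (fst y) (p.eval m) = runN B (p.eval m) ([M], inp2 (on1 m) []) := by
  classical
  refine runT_eq (O := B) (fun k hk v hv => ?_)
  unfold II at h
  rw [decide_eq_false_iff_not] at h
  have h1 : ∀ z, ¬ wr V s M m y z k = true := by
    intro z hz
    refine h ⟨z, ?_⟩
    unfold VI
    rw [decide_eq_true_eq, fst_pr, snd_pr, on1l']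
    exact ⟨k, hk, hz⟩
  have hq : qk M m y k = true :: v := by
    unfold qk
    have : qry (PC.cf M (on1 m) [] (fst y) k) = some v := hv
    rw [this]
    rfl
  cases ha : (fst y).getD k false
  · symm
    rw [← Bool.not_eq_true, hB]
    rintro ⟨z, hz1, hz2⟩
    apply h1 z
    unfold wr
    rw [hq, ha, if_neg (by simp)]
    simp only [List.isEmpty_cons, Bool.not_false, List.tail_cons, Bool.true_and, Bool.and_eq_true]
    exact ⟨decide_eq_true hz1, hz2⟩
  · symm
    rw [hB]
    by_contra hcon
    apply h1 []
    unfold wr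
    rw [hq, ha, if_pos rfl]
    simp only [List.isEmpty_cons, Bool.not_false, List.tail_cons, Bool.true_and]
    by_contra h2
    rw [Bool.not_eq_true, Bool.not_eq_false', Bool.and_eq_true] at h2
    exact hcon ⟨_, of_decide_eq_true h2.1, h2.2⟩

theorem II_tot {B : Lang}
    (hB : ∀ x, B x = true ↔ ∃ y : Str, y.length = s.eval x.length ∧ V (x, y) = true) (m : ℕ) :
    ∃ y : Str, y.length = (2 * p + 1 + p * (2 * s.comp (Polynomial.X + p) + 1)).eval m ∧
      II V s p M (pr (on1 m) y) = false := by
  classical
  set n := p.eval m with hn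
  set S := s.eval (m + n) with hS
  set c : Cfg := ([M], inp2 (on1 m) []) with hc
  have hex : ∀ k : ℕ, ∃ w : Str, w.length ≤ S ∧ (k < n → ∀ v, qry (runN B k c) = some v →
      B v = true → w.length = s.eval v.length ∧ V (v, w) = true) := by
    intro k
    rcases hq : qry (runN B k c) with _ | v
    · exact ⟨[], by simp, fun _ q hq' => by simp at hq'⟩
    · by_cases hk : k < n
      · have hb : v.length ≤ m + n := by
          have h1 : Bdd ((on1 m).length + ([] : Str).length + k) (runN B k c).2 :=
            Pa76659.runN_bdd B k _ c (Pa76659.inp2_bdd (on1 m) [])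
          have h2 := qry_bdd h1 hq
          rw [on1l', List.length_nil] at h2
          omega
        cases hO : B v
        · refine ⟨[], by simp, fun _ q' hq' => ?_⟩
          obtain rfl : v = q' := by simpa using hq'
          exact fun h' => absurd h' (by rw [hO]; simp)
        · obtain ⟨w, hw1, hw2⟩ := (hB v).1 hO
          refine ⟨w, by rw [hw1]; exact eval_mono s hb, fun _ q' hq' => ?_⟩
          obtain rfl : v = q' := by simpa using hq'
          exact fun _ => ⟨hw1, hw2⟩
      · exact ⟨[], by simp, fun h => absurd h hk⟩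
  choose w hw1 hw2 using hex
  set l : List Str := (List.range n).map w with hl
  have hll : l.length = n := by simp [hl]
  have hlen : (pr (trueAns B c n) (lenc l)).length ≤
      (2 * p + 1 + p * (2 * s.comp (Polynomial.X + p) + 1)).eval m := by
    have h1 : (trueAns B c n).length = n := by simp [trueAns]
    have h2 : total l ≤ n * S := total_map_range w S n (fun r _ => hw1 r)
    rw [pr_length, lenc_length, h1, hll]
    simp only [Polynomial.eval_add, Polynomial.eval_mul, Polynomial.eval_X, Polynomial.eval_one,
      Polynomial.eval_ofNat, Polynomial.eval_comp]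
    have h3 : p.eval m * (2 * s.eval (m + p.eval m) + 1) = 2 * (n * S) + n := by
      rw [← hn, ← hS]
      ring
    omega
  set Y : Str := pr (trueAns B c n) (lenc l ++ List.replicate
    ((2 * p + 1 + p * (2 * s.comp (Polynomial.X + p) + 1)).eval m -
      (pr (trueAns B c n) (lenc l)).length) false) with hY
  refine ⟨Y, ?_, ?_⟩
  · rw [hY, ← Hi.pr_append, List.length_append, List.length_replicate]
    omega
  · unfold II
    rw [decide_eq_false_iff_not]
    rintro ⟨z, hz⟩
    unfold VI at hz
    rw [decide_eq_true_eq, fst_pr, snd_pr, on1l'] at hz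
    obtain ⟨k, hk, h1⟩ := hz
    have hfy : fst Y = trueAns B c n := fst_pr _ _
    have hcf : PC.cf M (on1 m) [] (fst Y) k = runN B k c := by
      rw [hfy]
      exact trueAns_spec B c n k hk.le
    unfold wr at h1
    rcases hq : qry (runN B k c) with _ | v
    · have h2 : qk M m Y k = [] := by
        unfold qk
        rw [hcf, hq]
        rfl
      rw [h2] at h1
      simp at h1
    · have h2 : qk M m Y k = true :: v := by
        unfold qk
        rw [hcf, hq]
        rfl
      have h3 : (fst Y).getD k false = B v := by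
        rw [hfy]
        exact trueAns_get B c hk hq
      have h4 : nth (snd Y) k = w k := by
        rw [hY, snd_pr, Hi.nth_lenc_append l _ k (by omega),
          List.getD_eq_getElem _ _ (by omega)]
        simp [hl]
      rw [h2, h3, h4] at h1
      simp only [List.isEmpty_cons, Bool.not_false, List.tail_cons, Bool.true_and] at h1
      cases hO : B v
      · rw [hO, if_neg (by simp)] at h1
        rw [Bool.and_eq_true] at h1
        have h5 := (hB v).2 ⟨z, of_decide_eq_true h1.1, h1.2⟩
        rw [hO] at h5
        exact absurd h5 (by simp)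
      · rw [hO, if_pos rfl] at h1
        obtain ⟨h5, h6⟩ := hw2 k hk v hq hO
        rw [Bool.not_eq_true', Bool.and_eq_false_iff] at h1
        rcases h1 with h1 | h1
        · exact of_decide_eq_false h1 h5
        · rw [h6] at h1
          exact absurd h1 (by simp)

/-- If `\hat H_1 = H_1` then subexponential time lists contain the values of the functions in `FP^NP`
on unary inputs, infinitely often. -/
theorem list_fun {B : Lang} {G : Str → Str} (h : High X 1 ⊆ RHighSucc X 0) (hB : B ∈ NPO X)
    (hG : G ∈ FPO B) (k : ℕ) :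
    ∃ f ∈ FPO X, ∃ P : Polynomial ℕ, ∀ w0 : ℕ, ∃ w ≥ w0, ∃ c ≤ P.eval (2 ^ w),
      ∃ t ≤ P.eval (2 ^ w), ∃ m : ℕ,
        f (pr (on1 (2 ^ w)) (pr (on1 c) (on1 t))) = pr (on1 m) (G (on1 m)) ∧ w ^ k ≤ m := by
  obtain ⟨V, s, hV, hBV⟩ := exists_of_NPO hB
  obtain ⟨M, p, hM⟩ := hG
  obtain ⟨f, hf, P, hP⟩ := lists h (II_mem (s := s) hV M p) (II_tot (M := M) (p := p) hBV) k
  refine ⟨fun z => pr (on1 (fst (f z)).length) (res p M (fst (f z)).length (snd (f z))),
    Uo.FPO_of_polyC ?_, P, fun w0 => ?_⟩
  · have hf' := Uo.polyC_of_FPO hf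
    have hn := PolyN.length (PolyC.fst hf')
    exact PolyC.pr (t := fun z => on1 (fst (f z)).length) hn (res_poly M p hn (PolyC.snd hf'))
  · obtain ⟨w, hw, c, hc, t, ht, m, y, h1, -, h3, h4⟩ := hP w0
    refine ⟨w, hw, c, hc, t, ht, m, ?_, h4⟩
    show pr (on1 (fst (f (pr (on1 (2 ^ w)) (pr (on1 c) (on1 t))))).length) _ = _
    rw [h1, fst_pr, snd_pr, on1l']
    congr 1
    unfold res
    rw [cf_right hBV h3]
    have h5 := (hM (on1 m)).2
    rw [on1l', inp_eq] at h5
    exact h5

end

end Hc

end Pool.Agent.Lib.Pa76659G
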