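import Pool.Agent.Lib.Pa76659G.UoH
import Pool.Agent.Lib.Pa76659G.Circ4

set_option autoImplicit false

/-!
A step function with large gaps between its values.
-/

namespace Pool.Agent.Lib.Pa76659G

open Pool.Agent.Lib.Pa76659 PC

namespace Hd

/-- the iteration -/
noncomputable def sti (g : Polynomial ℕ) (m : ℕ) : ℕ → ℕ
  | 0 => 1
  | i + 1 => if sti g m i < m then g.eval (sti g m i) + sti g m i + 1 else sti g m i

/-- the step function -/
noncomputable def st (g : Polynomial ℕ) (m : ℕ) : ℕ := sti g m m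

/-- the values -/
noncomputable def tt (g : Polynomial ℕ) : ℕ → ℕ
  | 0 => 1
  | j + 1 => g.eval (tt g j) + tt g j + 1

theorem tt_lt (g : Polynomial ℕ) (j : ℕ) : tt g j < tt g (j + 1) := by
  show tt g j < g.eval (tt g j) + tt g j + 1
  omega

theorem tt_mono (g : Polynomial ℕ) {i j : ℕ} (h : i ≤ j) : tt g i ≤ tt g j := by
  induction j, h using Nat.le_induction with
  | base => exact le_rfl
  | succ j _ ih => exact ih.trans (tt_lt g j).le

theorem sti_tt (g : Polynomial ℕ) (m : ℕ) : ∀ i, ∃ j, sti g m i = tt g j ∧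
    (j = 0 ∨ ∃ j', j = j' + 1 ∧ tt g j' < m) ∧ (i ≤ j ∨ m ≤ tt g j)
  | 0 => ⟨0, rfl, Or.inl rfl, Or.inl le_rfl⟩
  | i + 1 => by
    obtain ⟨j, h1, h2, h3⟩ := sti_tt g m i
    by_cases h : sti g m i < m
    · refine ⟨j + 1, ?_, Or.inr ⟨j, rfl, h1 ▸ h⟩, Or.inl ?_⟩
      · show (if sti g m i < m then g.eval (sti g m i) + sti g m i + 1 else sti g m i) = _
        rw [if_pos h, h1]
        rfl
      · rw [h1] at h
        omega
    · refine ⟨j, ?_, h2, Or.inr ?_⟩
      · show (if sti g m i < m then g.eval (sti g m i) + sti g m i + 1 else sti g m i) = _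
        rw [if_neg h, h1]
      · rw [h1] at h
        omega

theorem lt_tt (g : Polynomial ℕ) (j : ℕ) : j < tt g j := by
  induction j with
  | zero => exact Nat.zero_lt_one
  | succ j ih => exact lt_of_le_of_lt ih (tt_lt g j)

theorem st_tt (g : Polynomial ℕ) (m : ℕ) : ∃ j, st g m = tt g j ∧
    (j = 0 ∨ ∃ j', j = j' + 1 ∧ tt g j' < m) ∧ m ≤ tt g j := by
  obtain ⟨j, h1, h2, h3⟩ := sti_tt g m m
  refine ⟨j, h1, h2, ?_⟩
  rcases h3 with h3 | h3
  · exact h3.trans (lt_tt g j).le
  · exact h3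

theorem st_pos (g : Polynomial ℕ) (m : ℕ) : 1 ≤ st g m := by
  obtain ⟨j, h1, -, -⟩ := st_tt g m
  rw [h1]
  exact tt_mono g (Nat.zero_le j)

theorem st_ge (g : Polynomial ℕ) (m : ℕ) : m ≤ st g m := by
  obtain ⟨j, h1, -, h3⟩ := st_tt g m
  rw [h1]
  exact h3

theorem sti_le (g : Polynomial ℕ) (m : ℕ) (i : ℕ) :
    sti g m i ≤ (g + Polynomial.X + 2).eval m := by
  obtain ⟨j, h1, h2, -⟩ := sti_tt g m i
  rw [h1]
  simp only [Polynomial.eval_add, Polynomial.eval_X, Polynomial.eval_ofNat]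
  rcases h2 with rfl | ⟨j', rfl, h2⟩
  · show 1 ≤ _
    omega
  · show g.eval (tt g j') + tt g j' + 1 ≤ _
    have := eval_mono g h2.le
    omega

theorem st_le (g : Polynomial ℕ) (m : ℕ) : st g m ≤ (g + Polynomial.X + 2).eval m :=
  sti_le g m m

theorem st_gap {g : Polynomial ℕ} {m m' : ℕ} (h : st g m < st g m') :
    g.eval (st g m) ≤ st g m' := by
  obtain ⟨j, h1, -, -⟩ := st_tt g m
  obtain ⟨j', h2, -, -⟩ := st_tt g m'
  rw [h1, h2] at h ⊢
  have h3 : j < j' := by
    by_contra h4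
    push Not at h4
    have := tt_mono g h4
    omega
  have h5 := tt_mono g (show j + 1 ≤ j' by omega)
  have h6 : tt g (j + 1) = g.eval (tt g j) + tt g j + 1 := rfl
  omega

section
variable {α : Type} {D : α → Prop} {ctx : List (α → Str)} {O : Lang}

theorem st_poly {g : Polynomial ℕ} {f : α → ℕ} (hf : PolyN (fun _ => O) D ctx f) :
    PolyN (fun _ => O) D ctx (fun a => st g (f a)) := by
  obtain ⟨pf, hpf⟩ := PolyC.length_le hf
  refine PolyC.natRec (fun a k => una (sti g (f a) k)) hf (PolyN.const 1) ?_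
    ⟨(g + Polynomial.X + 2).comp pf, fun a ha k _ => ?_⟩
  · have h1 : PolyN (fun _ : α × ℕ => O) (fun p => D p.1 ∧ p.2 < f p.1)
        (PC.lift ctx ++ [fun p => una p.2, fun p => una (sti g (f p.1) p.2)])
        (fun p => sti g (f p.1) p.2) := PolyC.var (by simp)
    have h2 : PolyN (fun _ : α × ℕ => O) (fun p => D p.1 ∧ p.2 < f p.1)
        (PC.lift ctx ++ [fun p => una p.2, fun p => una (sti g (f p.1) p.2)])
        (fun p => f p.1) := (PolyC.lift hf (fun p hp => hp.1)).weakenRight _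
    have h3 := ((h1.poly g).add h1).add (PolyN.const 1)
    refine (PolyC.ite (PolyB.lt h1 h2) (PolyC.mono h3 fun _ h => h.1)
      (PolyC.mono h1 fun _ h => h.1)).congr (fun p _ => ?_)
    show (if decide (sti g (f p.1) p.2 < f p.1) = true then _ else _) = una (sti g (f p.1) (p.2 + 1))
    by_cases h : sti g (f p.1) p.2 < f p.1
    · rw [if_pos (decide_eq_true h)]
      show una _ = una (if sti g (f p.1) p.2 < f p.1 then _ else _)
      rw [if_pos h]
    · rw [if_neg (by rw [decide_eq_true_eq]; exact h)]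
      show una _ = una (if sti g (f p.1) p.2 < f p.1 then _ else _)
      rw [if_neg h]
  · rw [PC.un_length, Polynomial.eval_comp]
    have h2 := hpf a ha
    rw [PC.un_length] at h2
    exact (sti_le g (f a) k).trans (eval_mono _ h2)

end

end Hd

end Pool.Agent.Lib.Pa76659G
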