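import Pool.Agent.Lib.Pa76659G.HdB

set_option autoImplicit false

/-!
The virtual oracle with one known key.
-/

namespace Pool.Agent.Lib.Pa76659G

open Pool.Agent.Lib.Pa76659 PC
open Pool.Agent.Lib.Pa76659H (High RHighSucc TComp)

namespace Hd

open Hc (rr bf bf_iff KU_iff Kp_eq bf_poly)

/-- the virtual oracle -/
noncomputable def vo (X : Lang) (V : Str × Str → Bool) (R : Lang) (q q1 g : Polynomial ℕ)
    (k N : ℕ) (Y : Str) : Lang
  | [] => false
  | false :: u => X u
  | true :: u => (decide ((Hi.rk (fst u) + 1) ^ k ≤ (fst u).length) &&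
      bf (Unv.VU X) (fst (fst u)) (Hi.rk (fst u)) N) ||
    (!(decide ((snd u).length = q.eval (st g (fst u).length))) ||
      (if decide ((rr q q1).eval (st g (fst u).length) ≤ Nat.log 2 N) = true then
        bf V (pr (on1 (st g (fst u).length)) (snd u))
          (q1.eval (pr (on1 (st g (fst u).length)) (snd u)).length) N
      else if decide (st g (fst u).length = (fst Y).length) = true then
        !(R (pr (on1 (st g (fst u).length)) (pr (snd Y) (snd u))))
      else true))

/-- the query shows a new key -/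
def Show (I : Lang) (q q1 g : Polynomial ℕ) (N : ℕ) (Y u : Str) : Prop :=
  (snd u).length = q.eval (st g (fst u).length) ∧
    I (pr (on1 (st g (fst u).length)) (snd u)) = false ∧
    Nat.log 2 N < (rr q q1).eval (st g (fst u).length) ∧ st g (fst u).length ≠ (fst Y).length

/-- the known key is right -/
def Okk (I : Lang) (q : Polynomial ℕ) (k N : ℕ) (Y : Str) : Prop :=
  (fst Y).length = 0 ∨ ((snd Y).length = q.eval (fst Y).length ∧
    I (pr (on1 (fst Y).length) (snd Y)) = false ∧ (fst Y).length < (Nat.log 2 N + 1) ^ k)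

section
variable {X I R : Lang} {V : Str × Str → Bool} {q q1 g : Polynomial ℕ} {k N : ℕ} {Y : Str}

theorem vo_or (hV : ∀ x, I x = true ↔ ∃ y : Str, y.length = q1.eval x.length ∧ V (x, y) = true)
    (hRI : ∀ (m : ℕ) (y1 y2 : Str), y1.length = q.eval m → y2.length = q.eval m →
      I (pr (on1 m) y1) = false → (R (pr (on1 m) (pr y1 y2)) = true ↔ I (pr (on1 m) y2) = false))
    (hk : k ≠ 0) (hN : N ≠ 0) (hY : Okk I q k N Y) {v : Str}
    (h : vo X V R q q1 g k N Y v ≠ join X (AK X I q g k) v) :
    ∃ u, v = true :: u ∧ Show I q q1 g N Y u := by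
  rcases v with _ | ⟨b, u⟩
  · exact absurd rfl h
  cases b
  · exact absurd rfl h
  refine ⟨u, rfl, ?_⟩
  have hself : (Hi.rk (fst u) + 1) ^ k ≤ (fst u).length → Hi.rk (fst u) + 1 ≤ (fst u).length :=
    fun h1 => (Nat.le_self_pow hk _).trans h1
  obtain ⟨l, hl⟩ : ∃ l, l = st g (fst u).length := ⟨_, rfl⟩
  have hml : (fst u).length ≤ l := hl ▸ st_ge g _
  have hl1 : 1 ≤ l := hl ▸ st_pos g _
  change ((decide ((Hi.rk (fst u) + 1) ^ k ≤ (fst u).length) &&
      bf (Unv.VU X) (fst (fst u)) (Hi.rk (fst u)) N) ||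
    (!(decide ((snd u).length = q.eval (st g (fst u).length))) ||
      (if decide ((rr q q1).eval (st g (fst u).length) ≤ Nat.log 2 N) = true then
        bf V (pr (on1 (st g (fst u).length)) (snd u))
          (q1.eval (pr (on1 (st g (fst u).length)) (snd u)).length) N
      else if decide (st g (fst u).length = (fst Y).length) = true then
        !(R (pr (on1 (st g (fst u).length)) (pr (snd Y) (snd u))))
      else true))) ≠ (Hi.Kp X k (fst u) || key I q g u) at h
  unfold key at h
  unfold Show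
  rw [← hl] at h ⊢
  by_cases h3 : (snd u).length = q.eval l
  swap
  · exfalso
    rw [decide_eq_false h3, Bool.not_false, Bool.true_or, Bool.true_or, Bool.or_true,
      Bool.or_true] at h
    exact h rfl
  rw [decide_eq_true h3, Bool.not_true, Bool.false_or, Bool.false_or] at h
  by_cases h1 : (rr q q1).eval l ≤ Nat.log 2 N
  · exfalso
    rw [if_pos (decide_eq_true h1)] at h
    have h2 : (rr q q1).eval l = q1.eval (2 * l + 1 + q.eval l) + l := by
      simp [rr, Polynomial.eval_comp]
    rw [Kp_eq hN fun h3 => by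
      have := hself h3
      omega] at h
    refine h ?_
    congr 1
    rw [Bool.eq_iff_iff, bf_iff, hV]
    refine (Nat.pow_le_pow_right (by norm_num) ?_).trans (Nat.pow_log_le_self 2 hN)
    rw [pr_length, on1_eq, PC.un_length, h3]
    omega
  · rw [if_neg (by rw [decide_eq_true_eq]; exact h1)] at h
    by_cases h4 : l = (fst Y).length
    · exfalso
      rw [if_pos (decide_eq_true h4)] at h
      rcases hY with hY | ⟨hY1, hY2, hY3⟩
      · omega
      rw [← h4] at hY1 hY2 hY3
      rw [Kp_eq hN fun h5 => by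
        have h6 : (Hi.rk (fst u) + 1) ^ k < (Nat.log 2 N + 1) ^ k :=
          lt_of_le_of_lt (h5.trans hml) hY3
        have h7 := lt_of_pow_lt_pow_left₀ k (Nat.zero_le _) h6
        omega] at h
      refine h ?_
      congr 1
      have h8 := hRI l (snd Y) (snd u) hY1 h3 hY2
      cases hI : I (pr (on1 l) (snd u))
      · rw [h8.2 hI]
        rfl
      · cases hR : R (pr (on1 l) (pr (snd Y) (snd u)))
        · rfl
        · rw [h8.1 hR] at hI
          exact absurd hI (by simp)
    · rw [if_neg (by rw [decide_eq_true_eq]; exact h4), Bool.or_true] at h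
      have h2 : (Hi.Kp X k (fst u) || I (pr (on1 l) (snd u))) = false := by
        cases h3 : (Hi.Kp X k (fst u) || I (pr (on1 l) (snd u)))
        · rfl
        · exact absurd h3.symm h
      rw [Bool.or_eq_false_iff] at h2
      exact ⟨h3, h2.2, not_le.1 h1, h4⟩

/-- the fallible decider -/
noncomputable def Dd (X : Lang) (V : Str × Str → Bool) (R : Lang) (q q1 g : Polynomial ℕ) (k : ℕ)
    (M : Prog) (p : Polynomial ℕ) (N : ℕ) (Y z : Str) : Bool :=
  accepts (vo X V R q q1 g k N Y) M (inp2 z []) (p.eval z.length)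

/-- the query at time `t` -/
noncomputable def qt (X : Lang) (V : Str × Str → Bool) (R : Lang) (q q1 g : Polynomial ℕ) (k : ℕ)
    (M : Prog) (N : ℕ) (Y z : Str) (t : ℕ) : Str :=
  (oc (qry (runN (vo X V R q q1 g k N Y) t ([M], inp2 z [])))).tail.tail

theorem Dd_or (hV : ∀ x, I x = true ↔ ∃ y : Str, y.length = q1.eval x.length ∧ V (x, y) = true)
    (hRI : ∀ (m : ℕ) (y1 y2 : Str), y1.length = q.eval m → y2.length = q.eval m →
      I (pr (on1 m) y1) = false → (R (pr (on1 m) (pr y1 y2)) = true ↔ I (pr (on1 m) y2) = false))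
    (hk : k ≠ 0) (hN : N ≠ 0) (hY : Okk I q k N Y)
    {M : Prog} {p : Polynomial ℕ} {L : Lang} (hM : ∀ x : Str, L x =
      accepts (join X (AK X I q g k)) M (inp x) (p.eval x.length)) {z : Str}
    (h : Dd X V R q q1 g k M p N Y z ≠ L z) :
    ∃ t < p.eval z.length, Show I q q1 g N Y (qt X V R q q1 g k M N Y z t) := by
  by_contra hcon
  push Not at hcon
  refine h ?_
  have h2 : runN (vo X V R q q1 g k N Y) (p.eval z.length) ([M], inp2 z []) =
      runN (join X (AK X I q g k)) (p.eval z.length) ([M], inp2 z []) := by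
    refine Hi.run_eq (fun t ht v hv => ?_)
    by_contra h3
    obtain ⟨u, hu, hs⟩ := vo_or hV hRI hk hN hY h3
    refine hcon t ht ?_
    unfold qt
    rw [hv, hu]
    exact hs
  unfold Dd
  rw [hM z, inp_eq, accepts, accepts, h2]

end

/-! ### Computability -/

section
variable {α : Type} {D : α → Prop} {ctx : List (α → Str)} {X R : Lang} {V : Str × Str → Bool}
  {q q1 g : Polynomial ℕ} {k : ℕ}

theorem vo_poly (hV : PolyB (fun _ : Str × Str => X) (fun _ => True) [fun p => p.1, fun p => p.2] V)
    (hR : R ∈ PO X) {n : α → ℕ} {Y v : α → Str} (hn : PolyN (fun _ => X) D ctx n)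
    (hY : PolyC (fun _ => X) D ctx Y) (hv : PolyC (fun _ => X) D ctx v) :
    PolyB (fun _ => X) D ctx (fun a => vo X V R q q1 g k (n a) (Y a) (v a)) := by
  classical
  have hu := hv.tail
  have hx := PolyC.fst hu
  have hm := PolyN.length hx
  have hl := st_poly (g := g) hm
  have hy := PolyC.snd hu
  have hw := PolyC.pr (t := fun a => on1 (st g (fst (v a).tail).length)) hl hy
  have h1 := Hi.pw_poly (k := k) hx
  have h2 := bf_poly (Unv.VU_poly X) (PolyC.fst hx) (Hi.rk_poly hx) hn
  have h4 := (PolyB.natEq (PolyN.length hy) (hl.poly q)).not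
  have h5 := PolyB.le (hl.poly (rr q q1)) (Hi.log_poly hn)
  have h6 := bf_poly hV hw ((PolyN.length hw).poly q1) hn
  have h7 := PolyB.natEq hl (PolyN.length (PolyC.fst hY))
  have h8 := (polyB_of_PO hR (PolyC.pr (t := fun a => on1 (st g (fst (v a).tail).length)) hl
    (PolyC.pr (PolyC.snd hY) hy))).not
  have h9 := (h1.and h2).or (h4.or (PolyB.ite h5 (h6.mono fun _ h => h.1)
    ((PolyB.ite h7 (h8.mono fun _ h => h.1) (PolyB.const true)).mono fun _ h => h.1)))
  have h10 : PolyB (fun _ => X) D ctx (fun a => X (v a).tail) := PolyB.qry hu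
  refine PolyC.congr (PolyC.cases hv (u0 := fun _ => [false]) (u1 := fun a => [X (v a).tail])
    (PolyC.const _) (PolyC.mono h10 fun _ h => h.1) (PolyC.mono h9 fun _ h => h.1)) ?_
  intro a _
  show _ = [vo X V R q q1 g k (n a) (Y a) (v a)]
  rcases hv' : v a with _ | ⟨b, u⟩
  · rfl
  · cases b
    · rfl
    · beta_reduce
      rw [hv']
      rfl

theorem cfg_poly (hV : PolyB (fun _ : Str × Str => X) (fun _ => True) [fun p => p.1, fun p => p.2] V)
    (hR : R ∈ PO X) (M : Prog) {n m : α → ℕ} {Y x : α → Str}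
    (hn : PolyN (fun _ => X) D ctx n) (hY : PolyC (fun _ => X) D ctx Y)
    (hm : PolyN (fun _ => X) D ctx m) (hx : PolyC (fun _ => X) D ctx x) :
    PolyC (fun _ => X) D ctx (fun a => PC.enc M (M.bnd + 1)
      (runN (vo X V R q q1 g k (n a) (Y a)) (m a) ([M], inp2 (x a) []))) := by
  obtain ⟨ps, hps⟩ := hx.length_le
  refine (PolyC.runT (orc := fun _ : α => X) (D := D) (ctx := ctx) M (M.bnd + 1) (by omega)
    (fun a _ => vo X V R q q1 g k (n a) (Y a)) (fun a => inp2 (x a) []) m ?_ ?_ hm ⟨ps, ?_⟩).congr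
    (fun a _ => by rw [runT_const])
  · refine vo_poly (n := fun p : (α × ℕ) × Str => n p.1.1) (Y := fun p => Y p.1.1)
      (v := fun p => p.2) hV hR ?_ ?_ (PolyC.var (by simp))
    · exact (PolyC.lift ((PolyC.lift hn (D' := fun p : α × ℕ => D p.1 ∧ p.2 < m p.1)
        (fun p hp => hp.1)).weakenRight _)
        (D' := fun p : (α × ℕ) × Str => D p.1.1 ∧ p.1.2 < m p.1.1) (fun p hp => hp)).weakenRight _
    · exact (PolyC.lift ((PolyC.lift hY (D' := fun p : α × ℕ => D p.1 ∧ p.2 < m p.1)
        (fun p hp => hp.1)).weakenRight _)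
        (D' := fun p : (α × ℕ) × Str => D p.1.1 ∧ p.1.2 < m p.1.1) (fun p hp => hp)).weakenRight _
  · intro r _
    rcases r with _ | _ | r
    · exact hx.congr (fun a _ => by simp [inp2])
    · exact PolyC.nil.congr (fun a _ => by simp [inp2])
    · exact PolyC.nil.congr (fun a _ => by simp [inp2])
  · intro a ha
    refine (Pa76659.inp2_bdd (x a) []).mono ?_
    have h2 := hps a ha
    simpa using h2

theorem Dd_poly (hV : PolyB (fun _ : Str × Str => X) (fun _ => True) [fun p => p.1, fun p => p.2] V)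
    (hR : R ∈ PO X) (M : Prog) (p : Polynomial ℕ) {n : α → ℕ} {Y z : α → Str}
    (hn : PolyN (fun _ => X) D ctx n) (hY : PolyC (fun _ => X) D ctx Y)
    (hz : PolyC (fun _ => X) D ctx z) :
    PolyB (fun _ => X) D ctx (fun a => Dd X V R q q1 g k M p (n a) (Y a) (z a)) := by
  refine PolyB.accepts M (fun a => vo X V R q q1 g k (n a) (Y a)) z (fun _ => [])
      (fun a => p.eval (z a).length) ?_ hz PolyC.nil ((PolyN.length hz).poly p)
  exact vo_poly (n := fun z : α × Str => n z.1) (Y := fun z => Y z.1) (v := fun z => z.2) hV hR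
      ((PolyC.lift hn (fun z hz => hz)).weakenRight _)
      ((PolyC.lift hY (fun z hz => hz)).weakenRight _) (PolyC.var (by simp))

theorem qt_poly (hV : PolyB (fun _ : Str × Str => X) (fun _ => True) [fun p => p.1, fun p => p.2] V)
    (hR : R ∈ PO X) (M : Prog) {n t : α → ℕ} {Y z : α → Str} (hn : PolyN (fun _ => X) D ctx n)
    (hY : PolyC (fun _ => X) D ctx Y)
    (hz : PolyC (fun _ => X) D ctx z) (ht : PolyN (fun _ => X) D ctx t) :
    PolyC (fun _ => X) D ctx (fun a => qt X V R q q1 g k M (n a) (Y a) (z a) (t a)) := by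
  refine PolyC.tail (PolyC.tail (PolyC.qry' M
    (fun a : α => runN (vo X V R q q1 g k (n a) (Y a)) (t a) ([M], inp2 (z a) []))
      (cfg_poly hV hR M hn hY ht hz) (fun a _ => ?_)))
  have h := runT_KK (M := M) (fun _ => vo X V R q q1 g k (n a) (Y a)) (inp2 (z a) []) (t a)
  rwa [runT_const] at h

end

end Hd

end Pool.Agent.Lib.Pa76659G
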