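import Pool.Agent.Lib.Pa76659G.HdC
import Pool.Agent.Lib.Pa76659G.HcD

set_option autoImplicit false

/-!
The nested search with one known key.
-/

namespace Pool.Agent.Lib.Pa76659G

open Pool.Agent.Lib.Pa76659 PC
open Pool.Agent.Lib.Pa76659H (High RHighSucc TComp)

namespace Hd

open Hc (rr Pf srch srch_length srch_or)

section
variable (X : Lang) (V : Str × Str → Bool) (R : Lang) (q q1 g : Polynomial ℕ) (k : ℕ) (M : Prog)
  (p : Polynomial ℕ)

/-- the search by prefixes with the fallible decider -/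
noncomputable def sr (red : Str → Str) (N : ℕ) (Y u : Str) (i : ℕ) : Str :=
  srch (fun z => Dd X V R q q1 g k M p N Y (red (pr u z))) i

/-- the calls of the decider -/
noncomputable def cl (red : Str → Str) (N : ℕ) (Y u : Str) (i : ℕ) : Str :=
  red (pr u (sr X V R q q1 g k M p red N Y u i ++ [true]))

end

section
variable {X I R : Lang} {V : Str × Str → Bool} {q q1 g : Polynomial ℕ} {k : ℕ} {M : Prog}
  {p : Polynomial ℕ} {red : Str → Str} {N : ℕ} {Y : Str}

theorem sr_length (u : Str) (i : ℕ) : (sr X V R q q1 g k M p red N Y u i).length = i :=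
  srch_length _ _

theorem level {W : Str × Str → Bool} {l : Polynomial ℕ}
    (hred : ∀ w, Unv.KU X (red w) = Pf W l w) (u : Str)
    (h0 : ∃ y : Str, y.length = l.eval u.length ∧ W (u, y) = true) :
    W (u, sr X V R q q1 g k M p red N Y u (l.eval u.length)) = true ∨
      ∃ i < l.eval u.length, Dd X V R q q1 g k M p N Y (cl X V R q q1 g k M p red N Y u i) ≠
        Unv.KU X (cl X V R q q1 g k M p red N Y u i) := by
  classical
  rcases srch_or (P := fun y => W (u, y) = true)
    (fun z => Dd X V R q q1 g k M p N Y (red (pr u z))) h0 with h | ⟨i, hi, h⟩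
  · exact Or.inl h
  · refine Or.inr ⟨i, hi, fun he => h ?_⟩
    unfold cl sr at he
    rw [he, hred]
    unfold Pf
    rw [decide_eq_true_eq, fst_pr, snd_pr]

theorem cl_length {pl : Polynomial ℕ} (hpl : ∀ x : Str, (red x).length ≤ pl.eval x.length)
    {l : Polynomial ℕ} (u : Str) {i : ℕ} (hi : i < l.eval u.length) :
    (cl X V R q q1 g k M p red N Y u i).length ≤
      (pl.comp (2 * Polynomial.X + 1 + l)).eval u.length := by
  unfold cl
  refine (hpl _).trans ?_
  rw [Polynomial.eval_comp]
  refine eval_mono pl ?_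
  rw [pr_length, List.length_append, sr_length]
  simp only [Polynomial.eval_add, Polynomial.eval_mul, Polynomial.eval_ofNat, Polynomial.eval_X,
    Polynomial.eval_one, List.length_singleton]
  omega

end

section
variable {α : Type} {D : α → Prop} {ctx : List (α → Str)} {X R : Lang} {V : Str × Str → Bool}
  {q q1 g : Polynomial ℕ} {k : ℕ} {red : Str → Str}

theorem sr_poly (hV : PolyB (fun _ : Str × Str => X) (fun _ => True) [fun p => p.1, fun p => p.2] V)
    (hR : R ∈ PO X) (M : Prog) (p : Polynomial ℕ)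
    (hr : PolyC (fun _ : Str => X) (fun _ => True) [fun x => x] red)
    {n i : α → ℕ} {Y u : α → Str} (hn : PolyN (fun _ => X) D ctx n)
    (hY : PolyC (fun _ => X) D ctx Y)
    (hu : PolyC (fun _ => X) D ctx u) (hi : PolyN (fun _ => X) D ctx i) :
    PolyC (fun _ => X) D ctx (fun a => sr X V R q q1 g k M p red (n a) (Y a) (u a) (i a)) := by
  obtain ⟨pi, hpi⟩ := PolyC.length_le hi
  refine PolyC.natRec (fun a j => sr X V R q q1 g k M p red (n a) (Y a) (u a) j) hi PolyC.nil ?_
    ⟨pi, fun a ha j hj => ?_⟩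
  · set ctx' : List (α × ℕ → Str) := PC.lift ctx ++ [fun z => una z.2,
      fun z => sr X V R q q1 g k M p red (n z.1) (Y z.1) (u z.1) z.2] with hctx'
    have hF : PolyC (fun _ : α × ℕ => X) (fun z => D z.1 ∧ z.2 < i z.1) ctx'
      (fun z => sr X V R q q1 g k M p red (n z.1) (Y z.1) (u z.1) z.2) :=
      PolyC.var (by simp [hctx'])
    have hn' : PolyN (fun _ : α × ℕ => X) (fun z => D z.1 ∧ z.2 < i z.1) ctx'
      (fun z => n z.1) := (PolyC.lift hn (fun z hz => hz.1)).weakenRight _
    have hY' : PolyC (fun _ : α × ℕ => X) (fun z => D z.1 ∧ z.2 < i z.1) ctx'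
      (fun z => Y z.1) := (PolyC.lift hY (fun z hz => hz.1)).weakenRight _
    have hu' : PolyC (fun _ : α × ℕ => X) (fun z => D z.1 ∧ z.2 < i z.1) ctx'
      (fun z => u z.1) := (PolyC.lift hu (fun z hz => hz.1)).weakenRight _
    have h1 := PolyC.arg hr (PolyC.pr hu' (hF.append (PolyC.const [true])))
    have h2 := Dd_poly (q := q) (q1 := q1) (g := g) (k := k) hV hR M p hn' hY' h1
    have h3 : PolyC (fun _ : α × ℕ => X) (fun z => D z.1 ∧ z.2 < i z.1) ctx'
      (fun z => [Dd X V R q q1 g k M p (n z.1) (Y z.1) (red (pr (u z.1)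
        (sr X V R q q1 g k M p red (n z.1) (Y z.1) (u z.1) z.2 ++ [true])))]) := h2
    exact (hF.append h3).congr (fun z _ => rfl)
  · rw [sr_length]
    have h2 := hpi a ha
    rw [PC.un_length] at h2
    omega

theorem cl_poly (hV : PolyB (fun _ : Str × Str => X) (fun _ => True) [fun p => p.1, fun p => p.2] V)
    (hR : R ∈ PO X) (M : Prog) (p : Polynomial ℕ)
    (hr : PolyC (fun _ : Str => X) (fun _ => True) [fun x => x] red)
    {n i : α → ℕ} {Y u : α → Str} (hn : PolyN (fun _ => X) D ctx n)
    (hY : PolyC (fun _ => X) D ctx Y)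
    (hu : PolyC (fun _ => X) D ctx u) (hi : PolyN (fun _ => X) D ctx i) :
    PolyC (fun _ => X) D ctx (fun a => cl X V R q q1 g k M p red (n a) (Y a) (u a) (i a)) :=
  PolyC.arg hr (PolyC.pr hu ((sr_poly hV hR M p hr hn hY hu hi).append (PolyC.const [true])))

end

end Hd

end Pool.Agent.Lib.Pa76659G
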