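import Pool.Agent.Lib.Pa76659G.HdD
import Pool.Agent.Lib.Pa76659G.UoFP

set_option autoImplicit false

/-!
If `\hat H_1 = H_1` then subexponential time lists contain good keys, at all lengths, when one good key
makes the others recognisable.
-/

namespace Pool.Agent.Lib.Pa76659G

open Pool.Agent.Lib.Pa76659 PC
open Pool.Agent.Lib.Pa76659H (High RHighSucc TComp)

namespace Hd

open Hc (rr Pf Pf_mem)

section
variable (X : Lang) (V : Str × Str → Bool) (R : Lang) (q q1 g : Polynomial ℕ) (k : ℕ) (M : Prog)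
  (p : Polynomial ℕ)

/-- the test whether the search for a witness fails -/
noncomputable def W2 (red1 : Str → Str) (z : Str × Str) : Bool :=
  !(V (pr (on1 (fst z.1).length) (z.2.take (q.eval (fst z.1).length)),
    sr X V R q q1 g k M p red1 (fst z.1).length (snd z.1)
      (pr (on1 (fst z.1).length) (z.2.take (q.eval (fst z.1).length)))
      (q1.eval (pr (on1 (fst z.1).length) (z.2.take (q.eval (fst z.1).length))).length)))

/-- the key found by the search -/
noncomputable def ys (red2 : Str → Str) (N : ℕ) (Y : Str) : Str :=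
  (sr X V R q q1 g k M p red2 N Y (pr (on1 N) Y) (q.eval (pr (on1 N) Y).length)).take (q.eval N)

/-- the calls of the decider -/
noncomputable def call (red1 red2 : Str → Str) (N : ℕ) (Y : Str) (c : ℕ) : Str :=
  if decide (c < q.eval (pr (on1 N) Y).length) = true then
    cl X V R q q1 g k M p red2 N Y (pr (on1 N) Y) c
  else cl X V R q q1 g k M p red1 N Y (pr (on1 N) (ys X V R q q1 g k M p red2 N Y))
    (c - q.eval (pr (on1 N) Y).length)

/-- the lists -/
noncomputable def ff (red1 red2 : Str → Str) (N : ℕ) (Y : Str) (c t : ℕ) : Str :=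
  if decide (t = 0) = true then pr (on1 N) (ys X V R q q1 g k M p red2 N Y)
  else pr (on1 (st g (fst (qt X V R q q1 g k M N Y
      (call X V R q q1 g k M p red1 red2 N Y c) (t - 1))).length))
    (snd (qt X V R q q1 g k M N Y (call X V R q q1 g k M p red1 red2 N Y c) (t - 1)))

/-- the lists of both rounds -/
noncomputable def f2 (red1 red2 : Str → Str) (N a b c d : ℕ) : Str :=
  if decide (d = 0) = true then ff X V R q q1 g k M p red1 red2 N [] a b
  else ff X V R q q1 g k M p red1 red2 N (ff X V R q q1 g k M p red1 red2 N [] a b) c (d - 1)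

end

section
variable {α : Type} {D : α → Prop} {ctx : List (α → Str)} {X R : Lang} {V : Str × Str → Bool}
  {q q1 g : Polynomial ℕ} {k : ℕ} {red1 red2 : Str → Str}

theorem W2_poly (hV : PolyB (fun _ : Str × Str => X) (fun _ => True) [fun p => p.1, fun p => p.2] V)
    (hR : R ∈ PO X) (M : Prog) (p : Polynomial ℕ)
    (hr : PolyC (fun _ : Str => X) (fun _ => True) [fun x => x] red1) :
    PolyB (fun _ : Str × Str => X) (fun _ => True) [fun p => p.1, fun p => p.2]
      (W2 X V R q q1 g k M p red1) := by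
  have hz : PolyC (fun _ : Str × Str => X) (fun _ => True) [fun p => p.1, fun p => p.2]
    (fun p => p.1) := PolyC.var (by simp)
  have hy : PolyC (fun _ : Str × Str => X) (fun _ => True) [fun p => p.1, fun p => p.2]
    (fun p => p.2) := PolyC.var (by simp)
  have hn := PolyN.length (PolyC.fst hz)
  have hu := PolyC.pr (t := fun z : Str × Str => on1 (fst z.1).length) hn
    (PolyC.take hy (hn.poly q))
  exact (PolyB.arg2 hV hu (sr_poly hV hR M p hr hn (PolyC.snd hz) hu
    ((PolyN.length hu).poly q1))).not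

theorem ys_poly (hV : PolyB (fun _ : Str × Str => X) (fun _ => True) [fun p => p.1, fun p => p.2] V)
    (hR : R ∈ PO X) (M : Prog) (p : Polynomial ℕ)
    (hr2 : PolyC (fun _ : Str => X) (fun _ => True) [fun x => x] red2)
    {n : α → ℕ} {Y : α → Str} (hn : PolyN (fun _ => X) D ctx n) (hY : PolyC (fun _ => X) D ctx Y) :
    PolyC (fun _ => X) D ctx (fun a => ys X V R q q1 g k M p red2 (n a) (Y a)) := by
  have hu := PolyC.pr (t := fun a => on1 (n a)) hn hY
  exact PolyC.take (sr_poly hV hR M p hr2 hn hY hu ((PolyN.length hu).poly q)) (hn.poly q)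

theorem call_poly (hV : PolyB (fun _ : Str × Str => X) (fun _ => True) [fun p => p.1, fun p => p.2] V)
    (hR : R ∈ PO X) (M : Prog) (p : Polynomial ℕ)
    (hr1 : PolyC (fun _ : Str => X) (fun _ => True) [fun x => x] red1)
    (hr2 : PolyC (fun _ : Str => X) (fun _ => True) [fun x => x] red2)
    {n c : α → ℕ} {Y : α → Str} (hn : PolyN (fun _ => X) D ctx n)
    (hY : PolyC (fun _ => X) D ctx Y) (hc : PolyN (fun _ => X) D ctx c) :
    PolyC (fun _ => X) D ctx (fun a => call X V R q q1 g k M p red1 red2 (n a) (Y a) (c a)) := by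
  have hu := PolyC.pr (t := fun a => on1 (n a)) hn hY
  have hq := (PolyN.length hu).poly q
  refine PolyC.ite (PolyB.lt hc hq)
    ((cl_poly hV hR M p hr2 hn hY hu hc).mono fun _ h => h.1)
    ((cl_poly hV hR M p hr1 hn hY (PolyC.pr (t := fun a => on1 (n a)) hn
      (ys_poly hV hR M p hr2 hn hY)) (hc.sub hq)).mono fun _ h => h.1)

theorem ff_poly (hV : PolyB (fun _ : Str × Str => X) (fun _ => True) [fun p => p.1, fun p => p.2] V)
    (hR : R ∈ PO X) (M : Prog) (p : Polynomial ℕ)
    (hr1 : PolyC (fun _ : Str => X) (fun _ => True) [fun x => x] red1)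
    (hr2 : PolyC (fun _ : Str => X) (fun _ => True) [fun x => x] red2)
    {n c t : α → ℕ} {Y : α → Str} (hn : PolyN (fun _ => X) D ctx n)
    (hY : PolyC (fun _ => X) D ctx Y) (hc : PolyN (fun _ => X) D ctx c)
    (ht : PolyN (fun _ => X) D ctx t) :
    PolyC (fun _ => X) D ctx
      (fun a => ff X V R q q1 g k M p red1 red2 (n a) (Y a) (c a) (t a)) := by
  have h1 := qt_poly (q := q) (q1 := q1) (g := g) (k := k) hV hR M hn hY
    (call_poly (q := q) (q1 := q1) (g := g) (k := k) hV hR M p hr1 hr2 hn hY hc)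
    (ht.sub (PolyN.const 1))
  refine PolyC.ite (PolyB.natEq ht (PolyN.const 0))
    ((PolyC.pr (t := fun a => on1 (n a)) hn (ys_poly hV hR M p hr2 hn hY)).mono fun _ h => h.1)
    ((PolyC.pr (t := fun a => on1 _) (st_poly (g := g) (PolyN.length (PolyC.fst h1)))
      (PolyC.snd h1)).mono fun _ h => h.1)

theorem f2_poly (hV : PolyB (fun _ : Str × Str => X) (fun _ => True) [fun p => p.1, fun p => p.2] V)
    (hR : R ∈ PO X) (M : Prog) (p : Polynomial ℕ)
    (hr1 : PolyC (fun _ : Str => X) (fun _ => True) [fun x => x] red1)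
    (hr2 : PolyC (fun _ : Str => X) (fun _ => True) [fun x => x] red2)
    {n a b c d : α → ℕ} (hn : PolyN (fun _ => X) D ctx n)
    (ha : PolyN (fun _ => X) D ctx a) (hb : PolyN (fun _ => X) D ctx b)
    (hc : PolyN (fun _ => X) D ctx c) (hd : PolyN (fun _ => X) D ctx d) :
    PolyC (fun _ => X) D ctx
      (fun x => f2 X V R q q1 g k M p red1 red2 (n x) (a x) (b x) (c x) (d x)) := by
  have h0 := ff_poly (q := q) (q1 := q1) (g := g) (k := k) hV hR M p hr1 hr2 hn
    (Y := fun _ => []) PolyC.nil ha hb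
  exact PolyC.ite (PolyB.natEq hd (PolyN.const 0)) (h0.mono fun _ h => h.1)
    ((ff_poly hV hR M p hr1 hr2 hn h0 hc (hd.sub (PolyN.const 1))).mono fun _ h => h.1)

end

theorem on1l (n : ℕ) : (on1 n).length = n := by rw [on1_eq, PC.un_length]

/-- one round -/
theorem round {X I R : Lang} {V : Str × Str → Bool} {q q1 g : Polynomial ℕ} {k : ℕ} {M : Prog}
    {p : Polynomial ℕ} {red1 red2 : Str → Str}
    (hIV : ∀ x, I x = true ↔ ∃ y : Str, y.length = q1.eval x.length ∧ V (x, y) = true)
    (hRI : ∀ (m : ℕ) (y1 y2 : Str), y1.length = q.eval m → y2.length = q.eval m →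
      I (pr (on1 m) y1) = false → (R (pr (on1 m) (pr y1 y2)) = true ↔ I (pr (on1 m) y2) = false))
    (tot : ∀ m : ℕ, ∃ y : Str, y.length = q.eval m ∧ I (pr (on1 m) y) = false)
    (hk : k ≠ 0) (hM : ∀ x : Str, Unv.KU X x =
      accepts (join X (AK X I q g k)) M (inp x) (p.eval x.length))
    (hr1' : ∀ w, Unv.KU X (red1 w) = Pf V q1 w)
    (hr2' : ∀ w, Unv.KU X (red2 w) = Pf (W2 X V R q q1 g k M p red1) q w)
    {pl1 pl2 : Polynomial ℕ} (hpl1 : ∀ x : Str, (red1 x).length ≤ pl1.eval x.length)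
    (hpl2 : ∀ x : Str, (red2 x).length ≤ pl2.eval x.length) {N : ℕ} (hN : N ≠ 0) {Y : Str}
    (hY : Okk I q k N Y) {P U L1 L2 : Polynomial ℕ} (hU : U = 2 * Polynomial.X + 1 + q)
    (hL1 : L1 = (pl1.comp (2 * Polynomial.X + 1 + q1)).comp U)
    (hL2 : L2 = pl2.comp (2 * Polynomial.X + 1 + q))
    (hP : P = q + q1.comp U + (p.comp L1 + p.comp L2) + 1) :
    ∃ c ≤ P.eval (pr (on1 N) Y).length, ∃ t ≤ P.eval (pr (on1 N) Y).length,
      ∃ (m : ℕ) (y : Str), ff X V R q q1 g k M p red1 red2 N Y c t = pr (on1 m) y ∧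
        y.length = q.eval m ∧ I (pr (on1 m) y) = false ∧
        (m = N ∨ ((∃ m', m = st g m') ∧ Nat.log 2 N < (rr q q1).eval m ∧ m ≠ (fst Y).length)) := by
  classical
  set n := (pr (on1 N) Y).length with hn
  have hNn : N ≤ n := by
    rw [hn, pr_length, on1l]
    omega
  have hPe : P.eval n = q.eval n + q1.eval (U.eval n) + (p.eval (L1.eval n) + p.eval (L2.eval n)) +
      1 := by
    rw [hP]
    simp only [Polynomial.eval_add, Polynomial.eval_one, Polynomial.eval_comp]
  -- a wrong call gives a good key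
  have wrong : ∀ c, c ≤ P.eval n →
      p.eval (call X V R q q1 g k M p red1 red2 N Y c).length + 1 ≤ P.eval n →
      Dd X V R q q1 g k M p N Y (call X V R q q1 g k M p red1 red2 N Y c) ≠
        Unv.KU X (call X V R q q1 g k M p red1 red2 N Y c) →
      ∃ c ≤ P.eval n, ∃ t ≤ P.eval n, ∃ (m : ℕ) (y : Str),
        ff X V R q q1 g k M p red1 red2 N Y c t = pr (on1 m) y ∧
        y.length = q.eval m ∧ I (pr (on1 m) y) = false ∧
        (m = N ∨ ((∃ m', m = st g m') ∧ Nat.log 2 N < (rr q q1).eval m ∧ m ≠ (fst Y).length)) := by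
    intro c hc hlen hne
    obtain ⟨t, ht, hs1, hs2, hs3, hs4⟩ := Dd_or (M := M) (p := p) hIV hRI hk hN hY
      (L := Unv.KU X) hM hne
    refine ⟨c, hc, t + 1, by omega, _, _, ?_, hs1, hs2, Or.inr ⟨⟨_, rfl⟩, hs3, hs4⟩⟩
    unfold ff
    rw [if_neg (by simp), Nat.add_sub_cancel]
  set ystar := ys X V R q q1 g k M p red2 N Y with hys
  have hysl : ystar.length = q.eval N := by
    rw [hys]
    unfold ys
    rw [List.length_take, sr_length, ← hn, min_eq_left (eval_mono q hNn)]
  have hul : (pr (on1 N) ystar).length ≤ U.eval n := by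
    rw [pr_length, on1l, hysl, hU]
    have := eval_mono q hNn
    simp only [Polynomial.eval_add, Polynomial.eval_mul, Polynomial.eval_ofNat, Polynomial.eval_X,
      Polynomial.eval_one]
    omega
  rcases level (X := X) (V := V) (R := R) (q := q) (q1 := q1) (g := g) (k := k) (M := M) (p := p)
    (N := N) (Y := Y) hr2' (pr (on1 N) Y) (by
      obtain ⟨y, hy1, hy2⟩ := tot N
      refine ⟨y ++ List.replicate (q.eval n - q.eval N) false, ?_, ?_⟩
      · rw [List.length_append, List.length_replicate, hy1, ← hn]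
        have := eval_mono q hNn
        omega
      unfold W2
      rw [Bool.not_eq_true', fst_pr, snd_pr, on1l,
        List.take_append_of_le_length (by omega), List.take_of_length_le (by omega)]
      by_contra h1
      rw [Bool.not_eq_false] at h1
      have h2 : I (pr (on1 N) y) = true := (hIV _).2 ⟨_, sr_length _ _, h1⟩
      rw [hy2] at h2
      exact absurd h2 (by simp)) with h1 | ⟨i, hi, h1⟩
  · unfold W2 at h1
    rw [Bool.not_eq_true', fst_pr, snd_pr, on1l] at h1
    change V (pr (on1 N) ystar, sr X V R q q1 g k M p red1 N Y (pr (on1 N) ystar)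
      (q1.eval (pr (on1 N) ystar).length)) = false at h1
    cases hIy : I (pr (on1 N) ystar)
    · refine ⟨0, Nat.zero_le _, 0, Nat.zero_le _, N, ystar, ?_, hysl, hIy, Or.inl rfl⟩
      unfold ff
      rw [if_pos (by simp)]
    · rcases level (X := X) (V := V) (R := R) (q := q) (q1 := q1) (g := g) (k := k) (M := M)
        (p := p) (N := N) (Y := Y) hr1' (pr (on1 N) ystar) ((hIV _).1 hIy) with h2 | ⟨i, hi, h2⟩
      · rw [h1] at h2
        exact absurd h2 (by simp)
      · have hc : call X V R q q1 g k M p red1 red2 N Y (q.eval n + i) =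
            cl X V R q q1 g k M p red1 N Y (pr (on1 N) ystar) i := by
          unfold call
          rw [← hn, if_neg (by rw [decide_eq_true_eq]; omega), Nat.add_sub_cancel_left]
        have hl := cl_length (X := X) (V := V) (R := R) (q := q) (q1 := q1) (g := g) (k := k)
          (M := M) (p := p) (N := N) (Y := Y) hpl1 (pr (on1 N) ystar) hi
        have hl' : (cl X V R q q1 g k M p red1 N Y (pr (on1 N) ystar) i).length ≤ L1.eval n := by
          rw [hL1, Polynomial.eval_comp]
          exact hl.trans (eval_mono _ hul)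
        have h3 := eval_mono p hl'
        have h4 := eval_mono q1 hul
        refine wrong (q.eval n + i) (by omega) ?_ ?_
        · rw [hc]
          omega
        · rw [hc]
          exact h2
  · rw [← hn] at hi
    have hc : call X V R q q1 g k M p red1 red2 N Y i =
        cl X V R q q1 g k M p red2 N Y (pr (on1 N) Y) i := by
      unfold call
      rw [if_pos (by rw [decide_eq_true_eq]; exact hi)]
    have hl := cl_length (X := X) (V := V) (R := R) (q := q) (q1 := q1) (g := g) (k := k)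
      (M := M) (p := p) (N := N) (Y := Y) hpl2 (pr (on1 N) Y) hi
    have hl' : (cl X V R q q1 g k M p red2 N Y (pr (on1 N) Y) i).length ≤ L2.eval n := by
      rw [hL2]
      exact hl
    have h3 := eval_mono p hl'
    refine wrong i (by omega) ?_ ?_
    · rw [hc]
      omega
    · rw [hc]
      exact h1

/-- If `\hat H_1 = H_1` then subexponential time lists contain good keys, at all lengths, when one
good key makes the others recognisable. -/
theorem lists_all {X I R : Lang} {q : Polynomial ℕ} (h : High X 1 ⊆ RHighSucc X 0)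
    (hI : I ∈ NPO X)
    (tot : ∀ m : ℕ, ∃ y : Str, y.length = q.eval m ∧ I (pr (on1 m) y) = false) (hR : R ∈ PO X)
    (hRI : ∀ (m : ℕ) (y1 y2 : Str), y1.length = q.eval m → y2.length = q.eval m →
      I (pr (on1 m) y1) = false → (R (pr (on1 m) (pr y1 y2)) = true ↔ I (pr (on1 m) y2) = false))
    (k : ℕ) :
    ∃ f ∈ FPO X, ∃ P : Polynomial ℕ, ∀ N : ℕ, ∃ a ≤ P.eval N, ∃ b ≤ P.eval N, ∃ c ≤ P.eval N,
      ∃ d ≤ P.eval N, ∃ (m : ℕ) (y : Str),
        f (pr (on1 N) (pr (on1 a) (pr (on1 b) (pr (on1 c) (on1 d))))) = pr (on1 m) y ∧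
        y.length = q.eval m ∧ I (pr (on1 m) y) = false ∧ Hi.Lk k N ≤ m := by
  classical
  obtain ⟨V, q1, hV, hIV⟩ := exists_of_NPO hI
  set g : Polynomial ℕ := (rr q q1) ^ k with hg
  obtain ⟨B, hB, hLB⟩ := (h (AK_high (g := g) (k := k + 1) hI tot)).2
    ⟨Unv.KU X, ⟨X, query_mem X, Unv.KU_mem X⟩, query_mem _⟩
  obtain ⟨M, p, hM⟩ := PO_subset hB hLB
  obtain ⟨red1, hr1, hr1'⟩ := Unv.KU_hard (Pf_mem (l := q1) hV)
  obtain ⟨red2, hr2, hr2'⟩ := Unv.KU_hard (Pf_mem (l := q)
    (W2_poly (q := q) (q1 := q1) (g := g) (k := k + 1) hV hR M p (hr1 X)))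
  obtain ⟨pl1, hpl1⟩ := (hr1 X).length_le
  obtain ⟨pl2, hpl2⟩ := (hr2 X).length_le
  have hpl1' : ∀ x : Str, (red1 x).length ≤ pl1.eval x.length := fun x => by
    have := hpl1 x trivial
    simpa using this
  have hpl2' : ∀ x : Str, (red2 x).length ≤ pl2.eval x.length := fun x => by
    have := hpl2 x trivial
    simpa using this
  obtain ⟨U, hU⟩ : ∃ U : Polynomial ℕ, U = 2 * Polynomial.X + 1 + q := ⟨_, rfl⟩
  obtain ⟨L1, hL1⟩ : ∃ L : Polynomial ℕ, L = (pl1.comp (2 * Polynomial.X + 1 + q1)).comp U :=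
    ⟨_, rfl⟩
  obtain ⟨L2, hL2⟩ : ∃ L : Polynomial ℕ, L = pl2.comp (2 * Polynomial.X + 1 + q) := ⟨_, rfl⟩
  obtain ⟨P, hP⟩ : ∃ P : Polynomial ℕ, P = q + q1.comp U + (p.comp L1 + p.comp L2) + 1 := ⟨_, rfl⟩
  refine ⟨fun w => f2 X V R q q1 g (k + 1) M p red1 red2 ((fst w).length + 1)
    (fst (snd w)).length (fst (snd (snd w))).length (fst (snd (snd (snd w)))).length
    (snd (snd (snd (snd w)))).length, ?_,
    P.comp ((4 * Polynomial.X + 2 + q).comp (Polynomial.X + 1)) + 1, fun N0 => ?_⟩
  · have hx : PolyC (fun _ : Str => X) (fun _ => True) [fun x => x] (fun x => x) :=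
      PolyC.var (by simp)
    have h1 := PolyC.snd hx
    have h2 := PolyC.snd h1
    have h3 := PolyC.snd h2
    exact Uo.FPO_of_polyC (f2_poly hV hR M p (hr1 X) (hr2 X) (PolyN.length (PolyC.fst hx)).succ
      (PolyN.length (PolyC.fst h1)) (PolyN.length (PolyC.fst h2)) (PolyN.length (PolyC.fst h3))
      (PolyN.length (PolyC.snd h3)))
  obtain ⟨N, hNe⟩ : ∃ N, N = N0 + 1 := ⟨_, rfl⟩
  have hN : N ≠ 0 := by omega
  have e : ∀ a b c d, (fun w => f2 X V R q q1 g (k + 1) M p red1 red2 ((fst w).length + 1)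
      (fst (snd w)).length (fst (snd (snd w))).length (fst (snd (snd (snd w)))).length
      (snd (snd (snd (snd w)))).length)
      (pr (on1 N0) (pr (on1 a) (pr (on1 b) (pr (on1 c) (on1 d))))) =
      f2 X V R q q1 g (k + 1) M p red1 red2 N a b c d := by
    intro a b c d
    beta_reduce
    simp only [fst_pr, snd_pr, on1l, hNe]
  have hPe : (P.comp ((4 * Polynomial.X + 2 + q).comp (Polynomial.X + 1)) + 1).eval N0 =
      P.eval (4 * N + 2 + q.eval N) + 1 := by
    simp only [Polynomial.eval_add, Polynomial.eval_one, Polynomial.eval_comp, Polynomial.eval_mul,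
      Polynomial.eval_ofNat, Polynomial.eval_X, hNe]
  rw [hPe]
  have hLk : Hi.Lk k N0 ≤ Hi.Lk k N := Hi.Lk_mono k (by omega)
  have hLk1 : Hi.Lk k N ≤ N := min_le_left _ _
  have hLk2 : Hi.Lk k N ≤ Nat.log 2 N ^ k := min_le_right _ _
  obtain ⟨c0, hc0, t0, ht0, m0, y0, hf0, hy0, hI0, hm0⟩ := round hIV hRI tot (by omega)
    (fun x => (hM x).2) hr1' hr2' hpl1' hpl2' hN (Y := []) (Or.inl rfl) hU hL1 hL2 hP
  have hb0 : P.eval (pr (on1 N) []).length ≤ P.eval (4 * N + 2 + q.eval N) :=
    eval_mono P (by rw [pr_length, on1l, List.length_nil]; omega)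
  by_cases hbig : Hi.Lk k N0 ≤ m0
  · refine ⟨c0, by omega, t0, by omega, 0, by omega, 0, by omega, m0, y0, ?_, hy0, hI0, hbig⟩
    rw [e]
    unfold f2
    rw [if_pos (by simp)]
    exact hf0
  · push Not at hbig
    rcases hm0 with hm0 | ⟨⟨m0', hm0'⟩, hrr0, -⟩
    · exfalso
      omega
    have hlt : m0 < Nat.log 2 N ^ k := by omega
    have hY : Okk I q (k + 1) N (pr (on1 m0) y0) := by
      refine Or.inr ?_
      rw [fst_pr, snd_pr, on1l]
      refine ⟨hy0, hI0, hlt.trans_le ?_⟩
      exact (Nat.pow_le_pow_left (Nat.le_succ _) k).trans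
        (Nat.pow_le_pow_right (Nat.succ_pos _) (Nat.le_succ _))
    obtain ⟨c1, hc1, t1, ht1, m1, y1, hf1, hy1, hI1, hm1⟩ := round hIV hRI tot (by omega)
      (fun x => (hM x).2) hr1' hr2' hpl1' hpl2' hN hY hU hL1 hL2 hP
    have hb1 : P.eval (pr (on1 N) (pr (on1 m0) y0)).length ≤ P.eval (4 * N + 2 + q.eval N) := by
      refine eval_mono P ?_
      have := eval_mono q (show m0 ≤ N by omega)
      rw [pr_length, pr_length, on1l, on1l, hy0]
      omega
    refine ⟨c0, by omega, t0, by omega, c1, by omega, t1 + 1, by omega, m1, y1, ?_, hy1, hI1, ?_⟩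
    · rw [e]
      unfold f2
      rw [if_neg (by simp), hf0, Nat.add_sub_cancel]
      exact hf1
    · rcases hm1 with hm1 | ⟨⟨m1', hm1'⟩, hrr1, hne⟩
      · omega
      rw [fst_pr, on1l] at hne
      rcases lt_or_gt_of_ne hne with hlt1 | hgt1
      · exfalso
        have h5 := st_gap (g := g) (m := m1') (m' := m0') (by omega)
        rw [← hm1', ← hm0', hg, Polynomial.eval_pow] at h5
        have h6 := Nat.pow_le_pow_left hrr1.le k
        omega
      · have h5 := st_gap (g := g) (m := m0') (m' := m1') (by omega)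
        rw [← hm1', ← hm0', hg, Polynomial.eval_pow] at h5
        have h6 := Nat.pow_le_pow_left hrr0.le k
        omega

end Hd

end Pool.Agent.Lib.Pa76659G
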