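import Pool.Agent.Lib.Pa76659G.HdU
import Pool.Agent.Lib.Pa76659G.HdE

set_option autoImplicit false

/-!
Lists of witnesses for the runs of a machine with an oracle in `NP`.
-/

namespace Pool.Agent.Lib.Pa76659G

open Pool.Agent.Lib.Pa76659 PC
open Pool.Agent.Lib.Pa76659H (High RHighSucc TComp)

namespace Hd

section
variable (V : Str × Str → Bool) (s p : Polynomial ℕ) (M : Prog)

/-- the query at time `t` of the run with the oracle given by `y` -/
noncomputable def qg (y : Str) (l t : ℕ) : Str :=
  oc (qry (runN (Og V s y) t ([M], inp2 (on1 l) [])))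

/-- a negative answer which is refuted by the witness `z` -/
noncomputable def bad1 (y z : Str) (l t : ℕ) : Bool :=
  !((qg V s M y l t).isEmpty) && (!(Og V s y (qg V s M y l t).tail) &&
    (decide (z.length = s.eval (qg V s M y l t).tail.length) && V ((qg V s M y l t).tail, z)))

open Classical in
/-- a negative answer in the run on `1^l` -/
noncomputable def bad2 (y z : Str) (l : ℕ) : Bool :=
  decide (∃ t < p.eval l, bad1 V s M y z l t = true)

open Classical in
/-- the verifier for lists which are not complete -/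
noncomputable def VI (u : Str × Str) : Bool :=
  decide (∃ l < (fst u.1).length + 1, bad2 V s p M (snd u.1) u.2 l = true)

open Classical in
/-- lists which are not complete -/
noncomputable def II : Lang := fun u => decide (∃ z : Str, VI V s p M (u, z) = true)

/-- a witness which is missing in the second list -/
noncomputable def mis1 (y1 y2 : Str) (l t : ℕ) : Bool :=
  !((qg V s M y1 l t).isEmpty) && (Og V s y1 (qg V s M y1 l t).tail &&
    !(Og V s y2 (qg V s M y1 l t).tail))

open Classical in
/-- a witness which is missing in the second list, for the run on `1^l` -/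
noncomputable def mis2 (y1 y2 : Str) (l : ℕ) : Bool :=
  decide (∃ t < p.eval l, mis1 V s M y1 y2 l t = true)

open Classical in
/-- comparison of two lists -/
noncomputable def RR : Lang := fun u =>
  !(decide (∃ l < (fst u).length + 1, mis2 V s p M (fst (snd u)) (snd (snd u)) l = true))

end

section
variable {X B : Lang} {V : Str × Str → Bool} {s p : Polynomial ℕ} {M : Prog}

theorem bad1_iff {y z : Str} {l t : ℕ} : bad1 V s M y z l t = true ↔
    ∃ v, qry (runN (Og V s y) t ([M], inp2 (on1 l) [])) = some v ∧ Og V s y v = false ∧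
      z.length = s.eval v.length ∧ V (v, z) = true := by
  unfold bad1 qg
  rcases qry (runN (Og V s y) t ([M], inp2 (on1 l) [])) with _ | v
  · simp [oc]
  · simp only [oc, List.isEmpty_cons, Bool.not_false, Bool.true_and, List.tail_cons,
      Bool.and_eq_true, Bool.not_eq_true', Option.some.injEq, exists_eq_left']
    exact and_congr_right fun _ => and_congr_left fun _ =>
      ⟨fun h => of_decide_eq_true h, fun h => decide_eq_true h⟩

theorem mis1_iff {y1 y2 : Str} {l t : ℕ} : mis1 V s M y1 y2 l t = true ↔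
    ∃ v, qry (runN (Og V s y1) t ([M], inp2 (on1 l) [])) = some v ∧ Og V s y1 v = true ∧
      Og V s y2 v = false := by
  unfold mis1 qg
  rcases qry (runN (Og V s y1) t ([M], inp2 (on1 l) [])) with _ | v
  · simp [oc]
  · simp [oc]

theorem II_false {m : ℕ} {y : Str} : II V s p M (pr (on1 m) y) = false ↔
    ∀ l ≤ m, ∀ t < p.eval l, ∀ v z : Str,
      qry (runN (Og V s y) t ([M], inp2 (on1 l) [])) = some v → Og V s y v = false →
      z.length = s.eval v.length → V (v, z) = true → False := by
  classical
  unfold II VI bad2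
  simp only [decide_eq_false_iff_not, decide_eq_true_eq, fst_pr, snd_pr, on1l, bad1_iff]
  constructor
  · intro h l hl t ht v z h1 h2 h3 h4
    exact h ⟨z, l, by omega, t, ht, v, h1, h2, h3, h4⟩
  · rintro h ⟨z, l, hl, t, ht, v, h1, h2, h3, h4⟩
    exact h l (by omega) t ht v z h1 h2 h3 h4

theorem good_run
    (hB : ∀ x, B x = true ↔ ∃ y : Str, y.length = s.eval x.length ∧ V (x, y) = true)
    {m : ℕ} {y : Str} (h : II V s p M (pr (on1 m) y) = false) {l t : ℕ} (hl : l ≤ m)
    (ht : t ≤ p.eval l) :
    runN (Og V s y) t ([M], inp2 (on1 l) []) = runN B t ([M], inp2 (on1 l) []) := by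
  refine Hi.run_eq (fun t' ht' v hv => ?_)
  cases ho : Og V s y v
  · cases hb : B v
    · rfl
    · obtain ⟨z, hz1, hz2⟩ := (hB v).1 hb
      exact (II_false.1 h l hl t' (by omega) v z hv ho hz1 hz2).elim
  · rw [Og_sound hB ho]

theorem II_iff
    (hB : ∀ x, B x = true ↔ ∃ y : Str, y.length = s.eval x.length ∧ V (x, y) = true)
    {m : ℕ} {y : Str} : II V s p M (pr (on1 m) y) = false ↔
    ∀ l ≤ m, ∀ t < p.eval l, ∀ v : Str,
      qry (runN B t ([M], inp2 (on1 l) [])) = some v → B v = true → Og V s y v = true := by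
  constructor
  · intro h l hl t ht v hv hb
    rw [← good_run hB h hl ht.le] at hv
    by_contra ho
    rw [Bool.not_eq_true] at ho
    obtain ⟨z, hz1, hz2⟩ := (hB v).1 hb
    exact II_false.1 h l hl t ht v z hv ho hz1 hz2
  · intro h
    refine II_false.2 (fun l hl t ht v z hv ho hz1 hz2 => ?_)
    have h1 : runN B t ([M], inp2 (on1 l) []) = runN (Og V s y) t ([M], inp2 (on1 l) []) := by
      refine Hi.run_eq (fun t' ht' v' hv' => ?_)
      cases hb : B v'
      · cases ho' : Og V s y v'
        · rfl
        · rw [Og_sound hB ho'] at hb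
          exact absurd hb (by simp)
      · exact (h l hl t' (by omega) v' hv' hb).symm
    rw [← h1] at hv
    have h2 := h l hl t ht v hv ((hB v).2 ⟨z, hz1, hz2⟩)
    rw [h2] at ho
    exact absurd ho (by simp)

theorem RR_iff
    (hB : ∀ x, B x = true ↔ ∃ y : Str, y.length = s.eval x.length ∧ V (x, y) = true)
    {m : ℕ} {y1 y2 : Str} (h : II V s p M (pr (on1 m) y1) = false) :
    RR V s p M (pr (on1 m) (pr y1 y2)) = true ↔ II V s p M (pr (on1 m) y2) = false := by
  classical
  have h0 : RR V s p M (pr (on1 m) (pr y1 y2)) = true ↔ ∀ l ≤ m, ∀ t < p.eval l, ∀ v : Str,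
      qry (runN (Og V s y1) t ([M], inp2 (on1 l) [])) = some v → Og V s y1 v = true →
      Og V s y2 v = true := by
    unfold RR mis2
    simp only [Bool.not_eq_true', decide_eq_false_iff_not, decide_eq_true_eq, fst_pr, snd_pr, on1l,
      mis1_iff]
    constructor
    · intro h l hl t ht v h1 h2
      by_contra h3
      rw [Bool.not_eq_true] at h3
      exact h ⟨l, by omega, t, ht, v, h1, h2, h3⟩
    · rintro h ⟨l, hl, t, ht, v, h1, h2, h3⟩
      rw [h l (by omega) t ht v h1 h2] at h3
      exact absurd h3 (by simp)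
  rw [h0, II_iff hB]
  constructor
  · intro h1 l hl t ht v hv hb
    refine h1 l hl t ht v ?_ ((II_iff hB).1 h l hl t ht v hv hb)
    rw [good_run hB h hl ht.le]
    exact hv
  · intro h1 l hl t ht v hv hb
    rw [good_run hB h hl ht.le] at hv
    exact h1 l hl t ht v hv (Og_sound hB hb)

/-- the length of complete lists -/
noncomputable def QQ (s p : Polynomial ℕ) : Polynomial ℕ :=
  (Polynomial.X + 1) * (p + 1) * (2 * s.comp (Polynomial.X + p) + 1)

theorem II_tot
    (hB : ∀ x, B x = true ↔ ∃ y : Str, y.length = s.eval x.length ∧ V (x, y) = true) (m : ℕ) :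
    ∃ y : Str, y.length = (QQ s p).eval m ∧ II V s p M (pr (on1 m) y) = false := by
  classical
  set T := p.eval m + 1 with hT
  set S := s.eval (m + p.eval m) with hS
  have hex : ∀ l t : ℕ, ∃ w : Str, (l ≤ m → t ≤ p.eval m → w.length ≤ S) ∧ ∀ v : Str,
      qry (runN B t ([M], inp2 (on1 l) [])) = some v → B v = true →
      w.length = s.eval v.length ∧ V (v, w) = true := by
    intro l t
    rcases hq : qry (runN B t ([M], inp2 (on1 l) [])) with _ | v
    · exact ⟨[], fun _ _ => Nat.zero_le _, fun v hv => by simp at hv⟩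
    · cases hb : B v
      · refine ⟨[], fun _ _ => Nat.zero_le _, fun v' hv' hb' => ?_⟩
        obtain rfl : v = v' := by simpa using hv'
        rw [hb] at hb'
        exact absurd hb' (by simp)
      · obtain ⟨w, hw1, hw2⟩ := (hB v).1 hb
        refine ⟨w, fun hl ht => ?_, fun v' hv' hb' => ?_⟩
        · rw [hw1]
          refine eval_mono s ?_
          have h4 := qry_bdd (Pa76659.runN_bdd B t ((on1 l).length + ([] : Str).length) ([M], inp2 (on1 l) [])
            (Pa76659.inp2_bdd (on1 l) [])) hq
          rw [on1l, List.length_nil] at h4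
          omega
        · obtain rfl : v = v' := by simpa using hv'
          exact ⟨hw1, hw2⟩
  choose w hw1 hw2 using hex
  set L : List Str := (List.range ((m + 1) * T)).map (fun j => w (j / T) (j % T)) with hL
  have hLl : L.length = (m + 1) * T := by simp [hL]
  have hTpos : 0 < T := by omega
  have hlen : (lenc L).length ≤ (QQ s p).eval m := by
    rw [lenc_length, hLl]
    have h3 : total L ≤ (m + 1) * T * S := by
      refine total_map_range (fun j => w (j / T) (j % T)) S _ (fun j hj => ?_)
      have h4 : j / T < m + 1 := Nat.div_lt_of_lt_mul (by rw [mul_comm]; exact hj)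
      have h5 := Nat.mod_lt j hTpos
      exact hw1 _ _ (by omega) (by omega)
    have h6 : (QQ s p).eval m = (m + 1) * T * (2 * S + 1) := by
      simp [QQ, hT, hS, Polynomial.eval_comp]
    rw [h6]
    nlinarith
  refine ⟨lenc L ++ List.replicate ((QQ s p).eval m - (lenc L).length) false, ?_, ?_⟩
  · rw [List.length_append, List.length_replicate]
    omega
  · rw [II_iff hB]
    intro l hl t ht v hv hb
    have htT : t < T := by
      have := eval_mono p hl
      omega
    have hj : l * T + t < (m + 1) * T := by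
      have h1 : l * T + T ≤ (m + 1) * T := by
        rw [← Nat.succ_mul]
        exact Nat.mul_le_mul_right T (by omega)
      omega
    have h1 : nth (lenc L ++ List.replicate ((QQ s p).eval m - (lenc L).length) false)
        (l * T + t) = w l t := by
      rw [Hi.nth_lenc_append L _ _ (by omega), List.getD_eq_getElem _ _ (by omega)]
      simp only [hL, List.getElem_map, List.getElem_range]
      rw [Nat.add_comm, Nat.mul_comm, Nat.add_mul_div_left _ _ hTpos, Nat.add_mul_mod_self_left,
        Nat.div_eq_of_lt htT, Nat.mod_eq_of_lt htT, Nat.zero_add]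
    obtain ⟨h2, h3⟩ := hw2 l t v hv hb
    refine Og_iff.2 ⟨l * T + t, ?_, by rw [h1]; exact h2, by rw [h1]; exact h3⟩
    rw [List.length_append, lenc_length, hLl]
    omega

/-! ### Computability -/

section
variable {α : Type} {D : α → Prop} {ctx : List (α → Str)}

theorem qg_poly (hV : PolyB (fun _ : Str × Str => X) (fun _ => True) [fun p => p.1, fun p => p.2] V)
    (M : Prog) {y : α → Str} {l t : α → ℕ} (hy : PolyC (fun _ => X) D ctx y)
    (hl : PolyN (fun _ => X) D ctx l) (ht : PolyN (fun _ => X) D ctx t) :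
    PolyC (fun _ => X) D ctx (fun a => qg V s M (y a) (l a) (t a)) := by
  have hx : PolyC (fun _ => X) D ctx (fun a => on1 (l a)) := hl
  obtain ⟨ps, hps⟩ := hx.length_le
  have hrun : PolyC (fun _ => X) D ctx (fun a => PC.enc M (M.bnd + 1)
      (runN (Og V s (y a)) (t a) ([M], inp2 (on1 (l a)) []))) := by
    refine (PolyC.runT (orc := fun _ : α => X) (D := D) (ctx := ctx) M (M.bnd + 1) (by omega)
      (fun a _ => Og V s (y a)) (fun a => inp2 (on1 (l a)) []) t ?_ ?_ ht ⟨ps, ?_⟩).congr
      (fun a _ => by rw [runT_const])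
    · refine Og_poly (y := fun p : (α × ℕ) × Str => y p.1.1) (v := fun p => p.2) hV ?_
        (PolyC.var (by simp))
      exact (PolyC.lift ((PolyC.lift hy (D' := fun p : α × ℕ => D p.1 ∧ p.2 < t p.1)
        (fun p hp => hp.1)).weakenRight _)
        (D' := fun p : (α × ℕ) × Str => D p.1.1 ∧ p.1.2 < t p.1.1) (fun p hp => hp)).weakenRight _
    · intro r _
      rcases r with _ | _ | r
      · exact hx.congr (fun a _ => by simp [inp2])
      · exact PolyC.nil.congr (fun a _ => by simp [inp2])
      · exact PolyC.nil.congr (fun a _ => by simp [inp2])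
    · intro a ha
      refine (Pa76659.inp2_bdd (on1 (l a)) []).mono ?_
      have h2 := hps a ha
      simpa using h2
  refine PolyC.qry' M (fun a : α => runN (Og V s (y a)) (t a) ([M], inp2 (on1 (l a)) []))
    hrun (fun a _ => ?_)
  have h := runT_KK (M := M) (fun _ => Og V s (y a)) (inp2 (on1 (l a)) []) (t a)
  rwa [runT_const] at h

theorem VI_poly (hV : PolyB (fun _ : Str × Str => X) (fun _ => True) [fun p => p.1, fun p => p.2] V)
    (M : Prog) (p : Polynomial ℕ) :
    PolyB (fun _ : Str × Str => X) (fun _ => True) [fun p => p.1, fun p => p.2]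
      (VI V s p M) := by
  classical
  have hu : PolyC (fun _ : Str × Str => X) (fun _ => True) [fun p => p.1, fun p => p.2]
    (fun p => p.1) := PolyC.var (by simp)
  have hz : PolyC (fun _ : Str × Str => X) (fun _ => True) [fun p => p.1, fun p => p.2]
    (fun p => p.2) := PolyC.var (by simp)
  have hm := (PolyN.length (PolyC.fst hu)).succ
  refine PolyB.exists_lt (φ := fun a : (Str × Str) × ℕ =>
    bad2 V s p M (snd a.1.1) a.1.2 a.2) hm ?_
  have lf : ∀ {t : Str × Str → Str}, PolyC (fun _ : Str × Str => X) (fun _ => True)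
      [fun p => p.1, fun p => p.2] t →
      PolyC (fun _ : (Str × Str) × ℕ => X) (fun a => True ∧ a.2 < (fst a.1.1).length + 1)
        (PC.lift [fun p : Str × Str => p.1, fun p => p.2] ++ [fun p => una p.2])
        (fun a => t a.1) := fun ht => (ht.lift (fun _ _ => trivial)).weakenRight _
  have hl : PolyN (fun _ : (Str × Str) × ℕ => X) (fun a => True ∧ a.2 < (fst a.1.1).length + 1)
        (PC.lift [fun p : Str × Str => p.1, fun p => p.2] ++ [fun p => una p.2])
        (fun a => a.2) := PolyC.var (by simp)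
  have hy' := PolyC.snd (lf hu)
  have hz' := lf hz
  refine PolyB.exists_lt (φ := fun a : ((Str × Str) × ℕ) × ℕ =>
    bad1 V s M (snd a.1.1.1) a.1.1.2 a.1.2 a.2) (hl.poly p) ?_
  set ctx' : List (((Str × Str) × ℕ) × ℕ → Str) :=
    PC.lift (PC.lift [fun p : Str × Str => p.1, fun p => p.2] ++ [fun p => una p.2]) ++
      [fun p => una p.2] with hctx'
  have lg : ∀ {t : (Str × Str) × ℕ → Str}, PolyC (fun _ : (Str × Str) × ℕ => X)
      (fun a => True ∧ a.2 < (fst a.1.1).length + 1)
      (PC.lift [fun p : Str × Str => p.1, fun p => p.2] ++ [fun p => una p.2]) t →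
      PolyC (fun _ : ((Str × Str) × ℕ) × ℕ => X)
        (fun a => (True ∧ a.1.2 < (fst a.1.1.1).length + 1) ∧ a.2 < p.eval a.1.2) ctx'
        (fun a => t a.1) := fun ht => (ht.lift (fun _ hp => hp.1)).weakenRight _
  have ht' : PolyN (fun _ : ((Str × Str) × ℕ) × ℕ => X)
        (fun a => (True ∧ a.1.2 < (fst a.1.1.1).length + 1) ∧ a.2 < p.eval a.1.2) ctx'
        (fun a => a.2) := PolyC.var (by simp [hctx'])
  have hl' : PolyN (fun _ : ((Str × Str) × ℕ) × ℕ => X)
        (fun a => (True ∧ a.1.2 < (fst a.1.1.1).length + 1) ∧ a.2 < p.eval a.1.2) ctx'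
        (fun a => a.1.2) := lg hl
  have hq := qg_poly (s := s) hV M (lg hy') hl' ht'
  exact (PolyB.isNil hq).not.and ((Og_poly hV (lg hy') hq.tail).not.and
    ((PolyB.natEq (PolyN.length (lg hz')) ((PolyN.length hq.tail).poly s)).and
      (PolyB.arg2 hV hq.tail (lg hz'))))

theorem RR_mem (hV : PolyB (fun _ : Str × Str => X) (fun _ => True) [fun p => p.1, fun p => p.2] V)
    (M : Prog) (p : Polynomial ℕ) : RR V s p M ∈ PO X := by
  classical
  refine mem_PO ?_
  have hu : PolyC (fun _ : Str => X) (fun _ => True) [fun x => x] (fun x => x) :=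
    PolyC.var (by simp)
  have hm := (PolyN.length (PolyC.fst hu)).succ
  have h1 := PolyC.fst (PolyC.snd hu)
  have h2 := PolyC.snd (PolyC.snd hu)
  refine PolyB.not (PolyB.exists_lt (φ := fun a : Str × ℕ =>
    mis2 V s p M (fst (snd a.1)) (snd (snd a.1)) a.2) hm ?_)
  have lf : ∀ {t : Str → Str}, PolyC (fun _ : Str => X) (fun _ => True)
      [fun x => x] t →
      PolyC (fun _ : Str × ℕ => X) (fun a => True ∧ a.2 < (fst a.1).length + 1)
        (PC.lift [fun x : Str => x] ++ [fun p => una p.2])
        (fun a => t a.1) := fun ht => (ht.lift (fun _ _ => trivial)).weakenRight _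
  have hl : PolyN (fun _ : Str × ℕ => X) (fun a => True ∧ a.2 < (fst a.1).length + 1)
        (PC.lift [fun x : Str => x] ++ [fun p => una p.2])
        (fun a => a.2) := PolyC.var (by simp)
  refine PolyB.exists_lt (φ := fun a : (Str × ℕ) × ℕ =>
    mis1 V s M (fst (snd a.1.1)) (snd (snd a.1.1)) a.1.2 a.2) (hl.poly p) ?_
  set ctx' : List ((Str × ℕ) × ℕ → Str) :=
    PC.lift (PC.lift [fun x : Str => x] ++ [fun p => una p.2]) ++
      [fun p => una p.2] with hctx'
  have lg : ∀ {t : Str × ℕ → Str}, PolyC (fun _ : Str × ℕ => X)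
      (fun a => True ∧ a.2 < (fst a.1).length + 1)
      (PC.lift [fun x : Str => x] ++ [fun p => una p.2]) t →
      PolyC (fun _ : (Str × ℕ) × ℕ => X)
        (fun a => (True ∧ a.1.2 < (fst a.1.1).length + 1) ∧ a.2 < p.eval a.1.2) ctx'
        (fun a => t a.1) := fun ht => (ht.lift (fun _ hp => hp.1)).weakenRight _
  have ht' : PolyN (fun _ : (Str × ℕ) × ℕ => X)
        (fun a => (True ∧ a.1.2 < (fst a.1.1).length + 1) ∧ a.2 < p.eval a.1.2) ctx'
        (fun a => a.2) := PolyC.var (by simp [hctx'])
  have hl' : PolyN (fun _ : (Str × ℕ) × ℕ => X)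
        (fun a => (True ∧ a.1.2 < (fst a.1.1).length + 1) ∧ a.2 < p.eval a.1.2) ctx'
        (fun a => a.1.2) := lg hl
  have h1' := lg (lf h1)
  have h2' := lg (lf h2)
  have hq := qg_poly (s := s) hV M h1' hl' ht'
  exact (PolyB.isNil hq).not.and ((Og_poly hV h1' hq.tail).and (Og_poly hV h2' hq.tail).not)

end

theorem II_mem (hV : PolyB (fun _ : Str × Str => X) (fun _ => True) [fun p => p.1, fun p => p.2] V)
    (M : Prog) (p : Polynomial ℕ) : II V s p M ∈ NPO X := by
  classical
  refine mem_NPO_le (s.comp (Polynomial.X + p)) (VI_poly (s := s) hV M p) (fun u => ?_)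
  unfold II
  rw [decide_eq_true_eq]
  constructor
  · rintro ⟨z, hz⟩
    refine ⟨z, ?_, hz⟩
    unfold VI bad2 at hz
    simp only [decide_eq_true_eq, bad1_iff] at hz
    obtain ⟨l, hl, t, ht, v, h1, -, h3, -⟩ := hz
    rw [h3, Polynomial.eval_comp]
    refine eval_mono s ?_
    have h4 := qry_bdd (Pa76659.runN_bdd (Og V s (snd u)) t ((on1 l).length + ([] : Str).length)
      ([M], inp2 (on1 l) []) (Pa76659.inp2_bdd (on1 l) [])) h1
    rw [on1l, List.length_nil] at h4
    have h5 := fst_length_le u
    have h6 : p.eval l ≤ p.eval u.length := eval_mono p (by omega)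
    simp only [Polynomial.eval_add, Polynomial.eval_X]
    omega
  · rintro ⟨z, -, hz⟩
    exact ⟨z, hz⟩

end

/-- If `\hat H_1 = H_1` then all functions in `FP^NP` are computed on unary inputs in subexponential
time. -/
theorem fun_all {X B : Lang} {G : Str → Str} (h : High X 1 ⊆ RHighSucc X 0) (hB : B ∈ NPO X)
    (hG : G ∈ FPO B) (k : ℕ) :
    ∃ F ∈ FPO X, ∀ n l : ℕ, l ≤ n → l ≤ Nat.log 2 n ^ k → F (pr (on1 n) (on1 l)) = G (on1 l) := by
  obtain ⟨V, s, hV, hBV⟩ := exists_of_NPO hB
  obtain ⟨M, p, hM⟩ := hG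
  obtain ⟨f, hf, P, hP⟩ := lists_all h (II_mem (s := s) hV M p) (II_tot hBV) (RR_mem hV M p)
    (fun m y1 y2 _ _ h1 => RR_iff hBV h1) k
  refine fin_run hV hBV (fun x => (hM x).2) hf k (P := P) (fun N => ?_)
  obtain ⟨a, ha, b, hb, c, hc, d, hd, m, y, h1, -, h3, h4⟩ := hP N
  refine ⟨a, ha, b, hb, c, hc, d, hd, m, h4, ?_⟩
  rw [h1, snd_pr]
  exact (II_iff hBV).1 h3

end Hd

end Pool.Agent.Lib.Pa76659G
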