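import Pool.Agent.Lib.Pa76659G.UoH4

set_option autoImplicit false

/-!
The union of the witnesses of polynomially many candidates is an oracle.
-/

namespace Pool.Agent.Lib.Pa76659G

open Pool.Agent.Lib.Pa76659 PC
open Pool.Agent.Lib.Pa76659H (High RHighSucc TComp)

namespace Hd

open Classical in
/-- the oracle given by a list of witnesses -/
noncomputable def Og (V : Str × Str → Bool) (s : Polynomial ℕ) (y : Str) : Lang := fun v =>
  decide (∃ j < y.length + 1,
    (decide ((nth y j).length = s.eval v.length) && V (v, nth y j)) = true)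

theorem Og_iff {V : Str × Str → Bool} {s : Polynomial ℕ} {y v : Str} : Og V s y v = true ↔
    ∃ j < y.length + 1, (nth y j).length = s.eval v.length ∧ V (v, nth y j) = true := by
  classical
  unfold Og
  rw [decide_eq_true_eq]
  refine exists_congr fun j => and_congr_right fun _ => ?_
  rw [Bool.and_eq_true, decide_eq_true_eq]

theorem Og_sound {V : Str × Str → Bool} {s : Polynomial ℕ} {B : Lang} {y v : Str}
    (hB : ∀ x, B x = true ↔ ∃ y : Str, y.length = s.eval x.length ∧ V (x, y) = true)
    (h : Og V s y v = true) : B v = true := by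
  obtain ⟨j, -, h1, h2⟩ := Og_iff.1 h
  exact (hB v).2 ⟨_, h1, h2⟩

section
variable {α : Type} {D : α → Prop} {ctx : List (α → Str)} {X : Lang} {V : Str × Str → Bool}
  {s : Polynomial ℕ}

theorem Og_poly (hV : PolyB (fun _ : Str × Str => X) (fun _ => True) [fun p => p.1, fun p => p.2] V)
    {y v : α → Str} (hy : PolyC (fun _ => X) D ctx y) (hv : PolyC (fun _ => X) D ctx v) :
    PolyB (fun _ => X) D ctx (fun a => Og V s (y a) (v a)) := by
  classical
  refine PolyB.exists_lt (φ := fun p : α × ℕ =>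
    decide ((nth (y p.1) p.2).length = s.eval (v p.1).length) && V (v p.1, nth (y p.1) p.2))
    (PolyN.length hy).succ ?_
  have lf : ∀ {t : α → Str}, PolyC (fun _ => X) D ctx t →
      PolyC (fun _ : α × ℕ => X) (fun p => D p.1 ∧ p.2 < (y p.1).length + 1)
        (PC.lift ctx ++ [fun p => una p.2]) (fun p => t p.1) := fun ht =>
    (ht.lift (D' := fun p : α × ℕ => D p.1 ∧ p.2 < (y p.1).length + 1)
      (fun p hp => hp.1)).weakenRight _
  have hk : PolyN (fun _ : α × ℕ => X) (fun p => D p.1 ∧ p.2 < (y p.1).length + 1)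
      (PC.lift ctx ++ [fun p => una p.2]) (fun p => p.2) := PolyC.var (by simp)
  have h1 := PolyC.nth (lf hy) hk
  exact (PolyB.natEq (PolyN.length h1) ((PolyN.length (lf hv)).poly s)).and
    (PolyB.arg2 hV (lf hv) h1)

end

open Classical in
/-- bounded existential quantification over unary numbers -/
noncomputable def bex (P : Polynomial ℕ) (φ : Str → Bool) (x : Str) : Bool :=
  decide (∃ a < P.eval x.length + 1, φ (pr x (on1 a)) = true)

theorem bex_iff {P : Polynomial ℕ} {φ : Str → Bool} {x : Str} :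
    bex P φ x = true ↔ ∃ a < P.eval x.length + 1, φ (pr x (on1 a)) = true := by
  classical
  unfold bex
  rw [decide_eq_true_eq]

theorem bex_poly {X : Lang} {P : Polynomial ℕ} {φ : Str → Bool}
    (h : PolyB (fun _ : Str => X) (fun _ => True) [fun x => x] φ) :
    PolyB (fun _ : Str => X) (fun _ => True) [fun x => x] (bex P φ) := by
  classical
  have hx : PolyC (fun _ : Str => X) (fun _ => True) [fun x => x] (fun x => x) :=
    PolyC.var (by simp)
  refine PolyB.exists_lt (φ := fun p : Str × ℕ => φ (pr p.1 (on1 p.2)))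
    ((PolyN.length hx).poly P).succ ?_
  have h1 : PolyC (fun _ : Str × ℕ => X) (fun p => True ∧ p.2 < P.eval p.1.length + 1)
      (PC.lift [fun x : Str => x] ++ [fun p => una p.2]) (fun p => p.1) :=
    (hx.lift (D' := fun p : Str × ℕ => True ∧ p.2 < P.eval p.1.length + 1)
      (fun p hp => hp.1)).weakenRight _
  have h2 : PolyC (fun _ : Str × ℕ => X) (fun p => True ∧ p.2 < P.eval p.1.length + 1)
      (PC.lift [fun x : Str => x] ++ [fun p => una p.2]) (fun p => on1 p.2) :=
    PolyC.var (by simp [on1_eq])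
  exact PolyC.arg h (PolyC.pr h1 h2)

section
variable (V : Str × Str → Bool) (s P : Polynomial ℕ) (f : Str → Str)

/-- the candidate with given parameters -/
noncomputable def cand (x : Str) : Bool :=
  Og V s (snd (f (pr (fst (fst (fst (fst (fst x))))) (pr (snd (fst (fst (fst x))))
    (pr (snd (fst (fst x))) (pr (snd (fst x)) (snd x)))))))
    (snd (fst (fst (fst (fst x)))))

/-- the union oracle -/
noncomputable def On (N : ℕ) : Lang := fun v =>
  bex P (bex P (bex P (bex P (cand V s f)))) (pr (on1 N) v)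

end

section
variable {V : Str × Str → Bool} {s P : Polynomial ℕ} {f : Str → Str}

theorem On_sound {B : Lang} {N : ℕ} {v : Str}
    (hB : ∀ x, B x = true ↔ ∃ y : Str, y.length = s.eval x.length ∧ V (x, y) = true)
    (h : On V s P f N v = true) : B v = true := by
  unfold On at h
  obtain ⟨a, -, h⟩ := bex_iff.1 h
  obtain ⟨b, -, h⟩ := bex_iff.1 h
  obtain ⟨c, -, h⟩ := bex_iff.1 h
  obtain ⟨d, -, h⟩ := bex_iff.1 h
  unfold cand at h
  simp only [fst_pr, snd_pr] at h
  exact Og_sound hB h

theorem On_complete {N a b c d : ℕ} {v : Str} (ha : a ≤ P.eval N) (hb : b ≤ P.eval N)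
    (hc : c ≤ P.eval N) (hd : d ≤ P.eval N)
    (h : Og V s (snd (f (pr (on1 N) (pr (on1 a) (pr (on1 b) (pr (on1 c) (on1 d))))))) v = true) :
    On V s P f N v = true := by
  have key : ∀ x : Str, N ≤ x.length → ∀ {i : ℕ}, i ≤ P.eval N → i < P.eval x.length + 1 := by
    intro x hx i hi
    have := eval_mono P hx
    omega
  have e0 : N ≤ (pr (on1 N) v).length := by
    rw [pr_length, on1_eq, PC.un_length]
    omega
  have e1 : ∀ (x : Str) (i : ℕ), N ≤ x.length → N ≤ (pr x (on1 i)).length := by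
    intro x i hx
    rw [pr_length]
    omega
  unfold On
  refine bex_iff.2 ⟨a, key _ e0 ha, bex_iff.2 ⟨b, key _ (e1 _ _ e0) hb,
    bex_iff.2 ⟨c, key _ (e1 _ _ (e1 _ _ e0)) hc,
      bex_iff.2 ⟨d, key _ (e1 _ _ (e1 _ _ (e1 _ _ e0))) hd, ?_⟩⟩⟩⟩
  unfold cand
  simp only [fst_pr, snd_pr]
  exact h

end

section
variable {α : Type} {D : α → Prop} {ctx : List (α → Str)} {X : Lang} {V : Str × Str → Bool}
  {s P : Polynomial ℕ} {f : Str → Str}

theorem cand_poly
    (hV : PolyB (fun _ : Str × Str => X) (fun _ => True) [fun p => p.1, fun p => p.2] V)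
    (hf : PolyC (fun _ : Str => X) (fun _ => True) [fun x => x] f) :
    PolyB (fun _ : Str => X) (fun _ => True) [fun x => x] (cand V s f) := by
  have h0 : PolyC (fun _ : Str => X) (fun _ => True) [fun x => x] (fun x => x) :=
    PolyC.var (by simp)
  have h1 := PolyC.fst h0
  have h2 := PolyC.fst h1
  have h3 := PolyC.fst h2
  have h4 := PolyC.fst h3
  exact Og_poly hV (PolyC.snd (PolyC.arg hf (PolyC.pr (PolyC.fst h4) (PolyC.pr (PolyC.snd h3)
    (PolyC.pr (PolyC.snd h2) (PolyC.pr (PolyC.snd h1) (PolyC.snd h0))))))) (PolyC.snd h4)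

theorem On_poly
    (hV : PolyB (fun _ : Str × Str => X) (fun _ => True) [fun p => p.1, fun p => p.2] V)
    (hf : PolyC (fun _ : Str => X) (fun _ => True) [fun x => x] f) {n : α → ℕ} {v : α → Str}
    (hn : PolyN (fun _ => X) D ctx n) (hv : PolyC (fun _ => X) D ctx v) :
    PolyB (fun _ => X) D ctx (fun a => On V s P f (n a) (v a)) :=
  PolyC.arg (bex_poly (P := P) (bex_poly (P := P) (bex_poly (P := P) (bex_poly (P := P)
    (cand_poly hV hf))))) (PolyC.pr (t := fun a => on1 (n a)) hn hv)

theorem run_poly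
    (hV : PolyB (fun _ : Str × Str => X) (fun _ => True) [fun p => p.1, fun p => p.2] V)
    (hf : PolyC (fun _ : Str => X) (fun _ => True) [fun x => x] f) (M : Prog) {n m : α → ℕ}
    {x : α → Str} (hn : PolyN (fun _ => X) D ctx n) (hm : PolyN (fun _ => X) D ctx m)
    (hx : PolyC (fun _ => X) D ctx x) :
    PolyC (fun _ => X) D ctx (fun a => PC.enc M (M.bnd + 1)
      (runN (On V s P f (n a)) (m a) ([M], inp2 (x a) []))) := by
  obtain ⟨ps, hps⟩ := hx.length_le
  refine (PolyC.runT (orc := fun _ : α => X) (D := D) (ctx := ctx) M (M.bnd + 1) (by omega)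
    (fun a _ => On V s P f (n a)) (fun a => inp2 (x a) []) m ?_ ?_ hm ⟨ps, ?_⟩).congr
    (fun a _ => by rw [runT_const])
  · refine On_poly (n := fun p : (α × ℕ) × Str => n p.1.1) (v := fun p => p.2) hV hf ?_
      (PolyC.var (by simp))
    exact (PolyC.lift ((PolyC.lift hn (D' := fun p : α × ℕ => D p.1 ∧ p.2 < m p.1)
      (fun p hp => hp.1)).weakenRight _)
      (D' := fun p : (α × ℕ) × Str => D p.1.1 ∧ p.1.2 < m p.1.1) (fun p hp => hp)).weakenRight _
  · intro r _
    rcases r with _ | _ | r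
    · exact hx.congr (fun a _ => by simp [inp2])
    · exact PolyC.nil.congr (fun a _ => by simp [inp2])
    · exact PolyC.nil.congr (fun a _ => by simp [inp2])
  · intro a ha
    refine (Pa76659.inp2_bdd (x a) []).mono ?_
    have h2 := hps a ha
    simpa using h2

end

/-- the final run -/
theorem fin_run {X B : Lang} {V : Str × Str → Bool} {s pg P : Polynomial ℕ} {Mg : Prog}
    {f G : Str → Str}
    (hV : PolyB (fun _ : Str × Str => X) (fun _ => True) [fun p => p.1, fun p => p.2] V)
    (hB : ∀ x, B x = true ↔ ∃ y : Str, y.length = s.eval x.length ∧ V (x, y) = true)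
    (hG : ∀ x : Str, (runN B (pg.eval x.length) ([Mg], inp x)).2 0 = G x)
    (hf : f ∈ FPO X) (k : ℕ)
    (hgood : ∀ N : ℕ, ∃ a ≤ P.eval N, ∃ b ≤ P.eval N, ∃ c ≤ P.eval N, ∃ d ≤ P.eval N, ∃ m : ℕ,
      Hi.Lk k N ≤ m ∧ ∀ l ≤ m, ∀ t < pg.eval l, ∀ v : Str,
        qry (runN B t ([Mg], inp2 (on1 l) [])) = some v → B v = true →
        Og V s (snd (f (pr (on1 N) (pr (on1 a) (pr (on1 b) (pr (on1 c) (on1 d))))))) v = true) :
    ∃ F ∈ FPO X, ∀ n l : ℕ, l ≤ n → l ≤ Nat.log 2 n ^ k → F (pr (on1 n) (on1 l)) = G (on1 l) := by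
  have hf' := Uo.polyC_of_FPO hf
  have e : ∀ n, (on1 n).length = n := fun n => by rw [on1_eq, PC.un_length]
  refine ⟨fun z => (runN (On V s P f (fst z).length) (pg.eval (snd z).length)
    ([Mg], inp2 (on1 (snd z).length) [])).2 0, Uo.FPO_of_polyC ?_, fun n l hn hl => ?_⟩
  · have hx : PolyC (fun _ : Str => X) (fun _ => True) [fun x => x] (fun x => x) :=
      PolyC.var (by simp)
    have hl := PolyN.length (PolyC.snd hx)
    have h := run_poly (s := s) (P := P) hV hf' Mg (PolyN.length (PolyC.fst hx)) (hl.poly pg)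
      (x := fun z : Str => on1 (snd z).length) hl
    exact (PolyC.nth (PolyC.snd h) (PolyN.const 0)).congr (fun a _ => enc_reg _ _ _ (by omega))
  · obtain ⟨a, ha, b, hb, c, hc, d, hd, m, hm, h1⟩ := hgood n
    have hlm : l ≤ m := (le_min hn hl).trans hm
    have h2 : runN B (pg.eval l) ([Mg], inp2 (on1 l) []) =
        runN (On V s P f n) (pg.eval l) ([Mg], inp2 (on1 l) []) := by
      refine Hi.run_eq (fun t ht v hv => ?_)
      cases hb' : B v
      · cases ho : On V s P f n v
        · rfl
        · rw [On_sound hB ho] at hb'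
          exact absurd hb' (by simp)
      · exact (On_complete ha hb hc hd (h1 l hlm t ht v hv hb')).symm
    beta_reduce
    rw [fst_pr, snd_pr, e, e, ← h2, ← inp_eq]
    have h3 := hG (on1 l)
    rwa [e] at h3

end Hd

end Pool.Agent.Lib.Pa76659G
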