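import Pool.Agent.Lib.Pa76659G.HdT2

set_option autoImplicit false

/-!
Lists of values of functions in `FP^NP` at keys which are unique and verified in `coNP`.
-/

namespace Pool.Agent.Lib.Pa76659G

open Pool.Agent.Lib.Pa76659 PC
open Pool.Agent.Lib.Pa76659H (High RHighSucc TComp)

namespace Hd

section
variable (V : Str × Str → Bool) (s p : Polynomial ℕ) (M : Prog)

/-- the query at time `t` of the run with the oracle given by `y` -/
noncomputable def qx (y x : Str) (t : ℕ) : Str :=
  oc (qry (runN (Og V s y) t ([M], inp2 x [])))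

/-- a negative answer which is refuted by the witness `z` -/
noncomputable def badx (y z x : Str) (t : ℕ) : Bool :=
  !((qx V s M y x t).isEmpty) && (!(Og V s y (qx V s M y x t).tail) &&
    (decide (z.length = s.eval (qx V s M y x t).tail.length) && V ((qx V s M y x t).tail, z)))

open Classical in
/-- the verifier for lists which are not complete -/
noncomputable def VX (u : Str × Str) : Bool :=
  decide (∃ t < p.eval (fst u.1).length, badx V s M (snd u.1) u.2 (fst u.1) t = true)

open Classical in
/-- lists which are not complete -/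
noncomputable def IX : Lang := fun u => decide (∃ z : Str, VX V s p M (u, z) = true)

/-- a witness which is missing in the second list -/
noncomputable def misx (y1 y2 x : Str) (t : ℕ) : Bool :=
  !((qx V s M y1 x t).isEmpty) && (Og V s y1 (qx V s M y1 x t).tail &&
    !(Og V s y2 (qx V s M y1 x t).tail))

open Classical in
/-- comparison of two lists -/
noncomputable def RX : Lang := fun u =>
  !(decide (∃ t < p.eval (fst u).length, misx V s M (fst (snd u)) (snd (snd u)) (fst u) t = true))

end

section
variable {X B : Lang} {V : Str × Str → Bool} {s p : Polynomial ℕ} {M : Prog}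

theorem badx_iff {y z x : Str} {t : ℕ} : badx V s M y z x t = true ↔
    ∃ v, qry (runN (Og V s y) t ([M], inp2 x [])) = some v ∧ Og V s y v = false ∧
      z.length = s.eval v.length ∧ V (v, z) = true := by
  unfold badx qx
  rcases qry (runN (Og V s y) t ([M], inp2 x [])) with _ | v
  · simp [oc]
  · simp only [oc, List.isEmpty_cons, Bool.not_false, Bool.true_and, List.tail_cons,
      Bool.and_eq_true, Bool.not_eq_true', Option.some.injEq, exists_eq_left']
    exact and_congr_right fun _ => and_congr_left fun _ =>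
      ⟨fun h => of_decide_eq_true h, fun h => decide_eq_true h⟩

theorem misx_iff {y1 y2 x : Str} {t : ℕ} : misx V s M y1 y2 x t = true ↔
    ∃ v, qry (runN (Og V s y1) t ([M], inp2 x [])) = some v ∧ Og V s y1 v = true ∧
      Og V s y2 v = false := by
  unfold misx qx
  rcases qry (runN (Og V s y1) t ([M], inp2 x [])) with _ | v
  · simp [oc]
  · simp [oc]

theorem IX_false {x y : Str} : IX V s p M (pr x y) = false ↔
    ∀ t < p.eval x.length, ∀ v z : Str,
      qry (runN (Og V s y) t ([M], inp2 x [])) = some v → Og V s y v = false →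
      z.length = s.eval v.length → V (v, z) = true → False := by
  classical
  unfold IX VX
  simp only [decide_eq_false_iff_not, decide_eq_true_eq, fst_pr, snd_pr, badx_iff]
  constructor
  · intro h t ht v z h1 h2 h3 h4
    exact h ⟨z, t, ht, v, h1, h2, h3, h4⟩
  · rintro h ⟨z, t, ht, v, h1, h2, h3, h4⟩
    exact h t ht v z h1 h2 h3 h4

theorem good_runx
    (hB : ∀ x, B x = true ↔ ∃ y : Str, y.length = s.eval x.length ∧ V (x, y) = true)
    {x y : Str} (h : IX V s p M (pr x y) = false) {t : ℕ} (ht : t ≤ p.eval x.length) :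
    runN (Og V s y) t ([M], inp2 x []) = runN B t ([M], inp2 x []) := by
  refine Hi.run_eq (fun t' ht' v hv => ?_)
  cases ho : Og V s y v
  · cases hb : B v
    · rfl
    · obtain ⟨z, hz1, hz2⟩ := (hB v).1 hb
      exact (IX_false.1 h t' (by omega) v z hv ho hz1 hz2).elim
  · rw [Og_sound hB ho]

theorem IX_iff
    (hB : ∀ x, B x = true ↔ ∃ y : Str, y.length = s.eval x.length ∧ V (x, y) = true)
    {x y : Str} : IX V s p M (pr x y) = false ↔
    ∀ t < p.eval x.length, ∀ v : Str,
      qry (runN B t ([M], inp2 x [])) = some v → B v = true → Og V s y v = true := by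
  constructor
  · intro h t ht v hv hb
    rw [← good_runx hB h ht.le] at hv
    by_contra ho
    rw [Bool.not_eq_true] at ho
    obtain ⟨z, hz1, hz2⟩ := (hB v).1 hb
    exact IX_false.1 h t ht v z hv ho hz1 hz2
  · intro h
    refine IX_false.2 (fun t ht v z hv ho hz1 hz2 => ?_)
    have h1 : runN B t ([M], inp2 x []) = runN (Og V s y) t ([M], inp2 x []) := by
      refine Hi.run_eq (fun t' ht' v' hv' => ?_)
      cases hb : B v'
      · cases ho' : Og V s y v'
        · rfl
        · rw [Og_sound hB ho'] at hb
          exact absurd hb (by simp)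
      · exact (h t' (by omega) v' hv' hb).symm
    rw [← h1] at hv
    have h2 := h t ht v hv ((hB v).2 ⟨z, hz1, hz2⟩)
    rw [h2] at ho
    exact absurd ho (by simp)

theorem RX_iff
    (hB : ∀ x, B x = true ↔ ∃ y : Str, y.length = s.eval x.length ∧ V (x, y) = true)
    {x y1 y2 : Str} (h : IX V s p M (pr x y1) = false) :
    RX V s p M (pr x (pr y1 y2)) = true ↔ IX V s p M (pr x y2) = false := by
  classical
  have h0 : RX V s p M (pr x (pr y1 y2)) = true ↔ ∀ t < p.eval x.length, ∀ v : Str,
      qry (runN (Og V s y1) t ([M], inp2 x [])) = some v → Og V s y1 v = true →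
      Og V s y2 v = true := by
    unfold RX
    simp only [Bool.not_eq_true', decide_eq_false_iff_not, fst_pr, snd_pr,
      misx_iff]
    constructor
    · intro h t ht v h1 h2
      by_contra h3
      rw [Bool.not_eq_true] at h3
      exact h ⟨t, ht, v, h1, h2, h3⟩
    · rintro h ⟨t, ht, v, h1, h2, h3⟩
      rw [h t ht v h1 h2] at h3
      exact absurd h3 (by simp)
  rw [h0, IX_iff hB]
  constructor
  · intro h1 t ht v hv hb
    refine h1 t ht v ?_ ((IX_iff hB).1 h t ht v hv hb)
    rw [good_runx hB h ht.le]
    exact hv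
  · intro h1 t ht v hv hb
    rw [good_runx hB h ht.le] at hv
    exact h1 t ht v hv (Og_sound hB hb)

/-- the length of complete lists -/
noncomputable def QX (s p : Polynomial ℕ) : Polynomial ℕ :=
  p * (2 * s.comp (Polynomial.X + p) + 1)

theorem IX_tot
    (hB : ∀ x, B x = true ↔ ∃ y : Str, y.length = s.eval x.length ∧ V (x, y) = true) (x : Str) :
    ∃ y : Str, y.length = (QX s p).eval x.length ∧ IX V s p M (pr x y) = false := by
  classical
  set T := p.eval x.length with hT
  set S := s.eval (x.length + p.eval x.length) with hS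
  have hex : ∀ t : ℕ, ∃ w : Str, (t ≤ p.eval x.length → w.length ≤ S) ∧ ∀ v : Str,
      qry (runN B t ([M], inp2 x [])) = some v → B v = true →
      w.length = s.eval v.length ∧ V (v, w) = true := by
    intro t
    rcases hq : qry (runN B t ([M], inp2 x [])) with _ | v
    · exact ⟨[], fun _ => Nat.zero_le _, fun v hv => by simp at hv⟩
    · cases hb : B v
      · refine ⟨[], fun _ => Nat.zero_le _, fun v' hv' hb' => ?_⟩
        obtain rfl : v = v' := by simpa using hv'
        rw [hb] at hb'
        exact absurd hb' (by simp)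
      · obtain ⟨w, hw1, hw2⟩ := (hB v).1 hb
        refine ⟨w, fun ht => ?_, fun v' hv' hb' => ?_⟩
        · rw [hw1]
          refine eval_mono s ?_
          have h4 := qry_bdd (Pa76659.runN_bdd B t (x.length + ([] : Str).length) ([M], inp2 x [])
            (Pa76659.inp2_bdd x [])) hq
          rw [List.length_nil] at h4
          omega
        · obtain rfl : v = v' := by simpa using hv'
          exact ⟨hw1, hw2⟩
  choose w hw1 hw2 using hex
  set L : List Str := (List.range T).map w with hL
  have hLl : L.length = T := by simp [hL]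
  have hlen : (lenc L).length ≤ (QX s p).eval x.length := by
    rw [lenc_length, hLl]
    have h3 : total L ≤ T * S := by
      refine total_map_range w S _ (fun j hj => ?_)
      exact hw1 _ (by omega)
    have h6 : (QX s p).eval x.length = T * (2 * S + 1) := by
      simp [QX, hT, hS, Polynomial.eval_comp]
    rw [h6]
    nlinarith
  refine ⟨lenc L ++ List.replicate ((QX s p).eval x.length - (lenc L).length) false, ?_, ?_⟩
  · rw [List.length_append, List.length_replicate]
    omega
  · rw [IX_iff hB]
    intro t ht v hv hb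
    have h1 : nth (lenc L ++ List.replicate ((QX s p).eval x.length - (lenc L).length) false)
        t = w t := by
      rw [Hi.nth_lenc_append L _ _ (by omega), List.getD_eq_getElem _ _ (by omega)]
      simp only [hL, List.getElem_map, List.getElem_range]
    obtain ⟨h2, h3⟩ := hw2 t v hv hb
    refine Og_iff.2 ⟨t, ?_, by rw [h1]; exact h2, by rw [h1]; exact h3⟩
    rw [List.length_append, lenc_length, hLl]
    omega

/-! ### Computability -/

section
variable {α : Type} {D : α → Prop} {ctx : List (α → Str)}

theorem runx_poly (hV : PolyB (fun _ : Str × Str => X) (fun _ => True) [fun p => p.1, fun p => p.2] V)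
    (M : Prog) {y x : α → Str} {t : α → ℕ} (hy : PolyC (fun _ => X) D ctx y)
    (hx : PolyC (fun _ => X) D ctx x) (ht : PolyN (fun _ => X) D ctx t) :
    PolyC (fun _ => X) D ctx (fun a => PC.enc M (M.bnd + 1)
      (runN (Og V s (y a)) (t a) ([M], inp2 (x a) []))) := by
  obtain ⟨ps, hps⟩ := hx.length_le
  refine (PolyC.runT (orc := fun _ : α => X) (D := D) (ctx := ctx) M (M.bnd + 1) (by omega)
    (fun a _ => Og V s (y a)) (fun a => inp2 (x a) []) t ?_ ?_ ht ⟨ps, ?_⟩).congr
    (fun a _ => by rw [runT_const])
  · refine Og_poly (y := fun p : (α × ℕ) × Str => y p.1.1) (v := fun p => p.2) hV ?_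
      (PolyC.var (by simp))
    exact (PolyC.lift ((PolyC.lift hy (D' := fun p : α × ℕ => D p.1 ∧ p.2 < t p.1)
      (fun p hp => hp.1)).weakenRight _)
      (D' := fun p : (α × ℕ) × Str => D p.1.1 ∧ p.1.2 < t p.1.1) (fun p hp => hp)).weakenRight _
  · intro r _
    rcases r with _ | _ | r
    · exact hx.congr (fun a _ => by simp [inp2])
    · exact PolyC.nil.congr (fun a _ => by simp [inp2])
    · exact PolyC.nil.congr (fun a _ => by simp [inp2])
  · intro a ha
    refine (Pa76659.inp2_bdd (x a) []).mono ?_
    have h2 := hps a ha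
    simpa using h2

theorem qx_poly (hV : PolyB (fun _ : Str × Str => X) (fun _ => True) [fun p => p.1, fun p => p.2] V)
    (M : Prog) {y x : α → Str} {t : α → ℕ} (hy : PolyC (fun _ => X) D ctx y)
    (hx : PolyC (fun _ => X) D ctx x) (ht : PolyN (fun _ => X) D ctx t) :
    PolyC (fun _ => X) D ctx (fun a => qx V s M (y a) (x a) (t a)) := by
  refine PolyC.qry' M (fun a : α => runN (Og V s (y a)) (t a) ([M], inp2 (x a) []))
    (runx_poly hV M hy hx ht) (fun a _ => ?_)
  have h := runT_KK (M := M) (fun _ => Og V s (y a)) (inp2 (x a) []) (t a)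
  rwa [runT_const] at h

end

theorem VX_poly (hV : PolyB (fun _ : Str × Str => X) (fun _ => True) [fun p => p.1, fun p => p.2] V)
    (M : Prog) (p : Polynomial ℕ) :
    PolyB (fun _ : Str × Str => X) (fun _ => True) [fun p => p.1, fun p => p.2]
      (VX V s p M) := by
  classical
  have hu : PolyC (fun _ : Str × Str => X) (fun _ => True) [fun p => p.1, fun p => p.2]
    (fun p => p.1) := PolyC.var (by simp)
  have hz : PolyC (fun _ : Str × Str => X) (fun _ => True) [fun p => p.1, fun p => p.2]
    (fun p => p.2) := PolyC.var (by simp)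
  have hm := PolyN.length (PolyC.fst hu)
  refine PolyB.exists_lt (φ := fun a : (Str × Str) × ℕ =>
    badx V s M (snd a.1.1) a.1.2 (fst a.1.1) a.2) (hm.poly p) ?_
  have lf : ∀ {t : Str × Str → Str}, PolyC (fun _ : Str × Str => X) (fun _ => True)
      [fun p => p.1, fun p => p.2] t →
      PolyC (fun _ : (Str × Str) × ℕ => X) (fun a => True ∧ a.2 < p.eval (fst a.1.1).length)
        (PC.lift [fun p : Str × Str => p.1, fun p => p.2] ++ [fun p => una p.2])
        (fun a => t a.1) := fun ht => (ht.lift (fun _ _ => trivial)).weakenRight _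
  have ht' : PolyN (fun _ : (Str × Str) × ℕ => X)
        (fun a => True ∧ a.2 < p.eval (fst a.1.1).length)
        (PC.lift [fun p : Str × Str => p.1, fun p => p.2] ++ [fun p => una p.2])
        (fun a => a.2) := PolyC.var (by simp)
  have hy' := PolyC.snd (lf hu)
  have hz' := lf hz
  have hq := qx_poly (s := s) hV M hy' (PolyC.fst (lf hu)) ht'
  exact (PolyB.isNil hq).not.and ((Og_poly hV hy' hq.tail).not.and
    ((PolyB.natEq (PolyN.length hz') ((PolyN.length hq.tail).poly s)).and
      (PolyB.arg2 hV hq.tail hz')))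

theorem RX_mem (hV : PolyB (fun _ : Str × Str => X) (fun _ => True) [fun p => p.1, fun p => p.2] V)
    (M : Prog) (p : Polynomial ℕ) : RX V s p M ∈ PO X := by
  classical
  refine mem_PO ?_
  have hu : PolyC (fun _ : Str => X) (fun _ => True) [fun x => x] (fun x => x) :=
    PolyC.var (by simp)
  have hm := PolyN.length (PolyC.fst hu)
  have h1 := PolyC.fst (PolyC.snd hu)
  have h2 := PolyC.snd (PolyC.snd hu)
  refine PolyB.not (PolyB.exists_lt (φ := fun a : Str × ℕ =>
    misx V s M (fst (snd a.1)) (snd (snd a.1)) (fst a.1) a.2) (hm.poly p) ?_)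
  have lf : ∀ {t : Str → Str}, PolyC (fun _ : Str => X) (fun _ => True)
      [fun x => x] t →
      PolyC (fun _ : Str × ℕ => X) (fun a => True ∧ a.2 < p.eval (fst a.1).length)
        (PC.lift [fun x : Str => x] ++ [fun p => una p.2])
        (fun a => t a.1) := fun ht => (ht.lift (fun _ _ => trivial)).weakenRight _
  have ht' : PolyN (fun _ : Str × ℕ => X)
        (fun a => True ∧ a.2 < p.eval (fst a.1).length)
        (PC.lift [fun x : Str => x] ++ [fun p => una p.2])
        (fun a => a.2) := PolyC.var (by simp)
  have h1' := lf h1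
  have h2' := lf h2
  have hq := qx_poly (s := s) hV M h1' (PolyC.fst (lf hu)) ht'
  exact (PolyB.isNil hq).not.and ((Og_poly hV h1' hq.tail).and (Og_poly hV h2' hq.tail).not)

theorem IX_mem (hV : PolyB (fun _ : Str × Str => X) (fun _ => True) [fun p => p.1, fun p => p.2] V)
    (M : Prog) (p : Polynomial ℕ) : IX V s p M ∈ NPO X := by
  classical
  refine mem_NPO_le (s.comp (Polynomial.X + p)) (VX_poly (s := s) hV M p) (fun u => ?_)
  unfold IX
  rw [decide_eq_true_eq]
  constructor
  · rintro ⟨z, hz⟩
    refine ⟨z, ?_, hz⟩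
    unfold VX at hz
    simp only [decide_eq_true_eq, badx_iff] at hz
    obtain ⟨t, ht, v, h1, -, h3, -⟩ := hz
    rw [h3, Polynomial.eval_comp]
    refine eval_mono s ?_
    have h4 := qry_bdd (Pa76659.runN_bdd (Og V s (snd u)) t ((fst u).length + ([] : Str).length)
      ([M], inp2 (fst u) []) (Pa76659.inp2_bdd (fst u) [])) h1
    rw [List.length_nil] at h4
    have h5 := fst_length_le u
    have h6 : p.eval (fst u).length ≤ p.eval u.length := eval_mono p h5
    simp only [Polynomial.eval_add, Polynomial.eval_X]
    omega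
  · rintro ⟨z, -, hz⟩
    exact ⟨z, hz⟩

end

/-! ### The combined search problem -/

section
variable (I : Lang) (q : Polynomial ℕ) (V : Str × Str → Bool) (s p : Polynomial ℕ) (M : Prog)

/-- the key and the list are bad -/
noncomputable def Ic : Lang := fun u =>
  I (pr (on1 (fst u).length) ((snd u).take (q.eval (fst u).length))) ||
    IX V s p M (pr (pr (on1 (fst u).length) ((snd u).take (q.eval (fst u).length)))
      ((snd u).drop (q.eval (fst u).length)))

/-- comparison -/
noncomputable def Rc : Lang := fun u =>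
  decide ((fst (snd u)).take (q.eval (fst u).length) =
    (snd (snd u)).take (q.eval (fst u).length)) &&
  RX V s p M (pr (pr (on1 (fst u).length) ((fst (snd u)).take (q.eval (fst u).length)))
    (pr ((fst (snd u)).drop (q.eval (fst u).length))
      ((snd (snd u)).drop (q.eval (fst u).length))))

/-- the value computed from the key and the list -/
noncomputable def vl (w : Str) : Str :=
  pr (on1 (fst w).length) ((runN (Og V s ((snd w).drop (q.eval (fst w).length)))
    (p.eval (pr (on1 (fst w).length) ((snd w).take (q.eval (fst w).length))).length)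
    ([M], inp2 (pr (on1 (fst w).length) ((snd w).take (q.eval (fst w).length))) [])).2 0)

end

/-- If `\hat H_1 = H_1` then subexponential time lists contain the values of functions in `FP^NP` at
unique keys, at all lengths. -/
theorem lists_fun {X I B : Lang} {G : Str → Str} {q : Polynomial ℕ} {u : ℕ → Str}
    (h : High X 1 ⊆ RHighSucc X 0) (hI : I ∈ NPO X) (hu : ∀ m, (u m).length = q.eval m)
    (hIu : ∀ m z, z.length = q.eval m → (I (pr (on1 m) z) = false ↔ z = u m))
    (hB : B ∈ NPO X) (hG : G ∈ FPO B) (k : ℕ) :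
    ∃ f ∈ FPO X, ∃ P : Polynomial ℕ, ∀ N : ℕ, ∃ a ≤ P.eval N, ∃ b ≤ P.eval N, ∃ c ≤ P.eval N,
      ∃ d ≤ P.eval N, ∃ m : ℕ,
        f (pr (on1 N) (pr (on1 a) (pr (on1 b) (pr (on1 c) (on1 d))))) =
          pr (on1 m) (G (pr (on1 m) (u m))) ∧ Hi.Lk k N ≤ m := by
  obtain ⟨V, s, hV, hBV⟩ := exists_of_NPO hB
  obtain ⟨M, p, hM⟩ := hG
  have hx : PolyC (fun _ : Str => X) (fun _ => True) [fun x => x] (fun x => x) :=
    PolyC.var (by simp)
  have hn := PolyN.length (PolyC.fst hx)
  have hq := hn.poly q
  have hIc : Ic I q V s p M ∈ NPO X := by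
    have h1 := PolyC.pr (t := fun u : Str => on1 (fst u).length) hn ((PolyC.snd hx).take hq)
    exact Hc.NPO_or (NPO_comp hI h1) (NPO_comp (IX_mem hV M p)
      (PolyC.pr h1 ((PolyC.snd hx).drop hq)))
  have hRc : Rc q V s p M ∈ PO X := by
    have h2 := PolyC.fst (PolyC.snd hx)
    have h3 := PolyC.snd (PolyC.snd hx)
    have h1 := PolyC.pr (t := fun u : Str => on1 (fst u).length) hn (h2.take hq)
    exact mem_PO ((PolyB.strEq (h2.take hq) (h3.take hq)).and (polyB_of_PO (RX_mem hV M p)
      (PolyC.pr h1 (PolyC.pr (h2.drop hq) (h3.drop hq)))))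
  have hxl : ∀ m (z : Str), z.length = q.eval m →
      (pr (on1 m) z).length = (2 * Polynomial.X + 1 + q).eval m := by
    intro m z hz
    rw [pr_length, on1l, hz]
    simp
  have hIce : ∀ m (y : Str), Ic I q V s p M (pr (on1 m) y) =
      (I (pr (on1 m) (y.take (q.eval m))) ||
        IX V s p M (pr (pr (on1 m) (y.take (q.eval m))) (y.drop (q.eval m)))) := by
    intro m y
    unfold Ic
    rw [fst_pr, snd_pr, on1l]
  have htk : ∀ m (y : Str), y.length = (q + (QX s p).comp (2 * Polynomial.X + 1 + q)).eval m →
      (y.take (q.eval m)).length = q.eval m := by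
    intro m y hy
    rw [List.length_take, hy, Polynomial.eval_add]
    omega
  obtain ⟨f, hf, P, hP⟩ := lists_all (q := q + (QX s p).comp (2 * Polynomial.X + 1 + q)) h hIc
    (fun m => by
      obtain ⟨y, hy1, hy2⟩ := IX_tot (M := M) (p := p) hBV (pr (on1 m) (u m))
      have hul : (u m).length ≤ q.eval m := (hu m).le
      refine ⟨u m ++ y, ?_, ?_⟩
      · have e : (q + (QX s p).comp (2 * Polynomial.X + 1 + q)).eval m =
            q.eval m + (QX s p).eval ((2 * Polynomial.X + 1 + q).eval m) := by
          rw [Polynomial.eval_add, Polynomial.eval_comp]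
        rw [List.length_append, hu, hy1, hxl m _ (hu m), e]
      · rw [hIce, List.take_append_of_le_length (hu m).ge, List.take_of_length_le (hu m).le,
          List.drop_append_of_le_length (hu m).ge, List.drop_of_length_le (hu m).le,
          List.nil_append, hy2, (hIu m _ (hu m)).2 rfl]
        rfl)
    hRc (fun m y1 y2 hy1 hy2 h1 => by
      rw [hIce] at h1 ⊢
      rw [Bool.or_eq_false_iff] at h1
      have h3 := (hIu m _ (htk m y1 hy1)).1 h1.1
      unfold Rc
      rw [fst_pr, snd_pr, fst_pr, snd_pr, on1l, Bool.and_eq_true, decide_eq_true_eq,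
        Bool.or_eq_false_iff]
      constructor
      · rintro ⟨h4, h5⟩
        rw [← h4]
        exact ⟨h1.1, (RX_iff hBV h1.2).1 h5⟩
      · rintro ⟨h4, h5⟩
        have h6 := (hIu m _ (htk m y2 hy2)).1 h4
        rw [h6] at h5
        rw [h3] at h1 ⊢
        exact ⟨h6.symm, (RX_iff hBV h1.2).2 h5⟩) k
  refine ⟨fun w => vl q V s p M (f w), Uo.FPO_of_polyC ?_, P, fun N => ?_⟩
  · have hf' := Uo.polyC_of_FPO hf
    have hm := PolyN.length (PolyC.fst hf')
    have hqm := hm.poly q
    have h1 := PolyC.pr (t := fun w : Str => on1 (fst (f w)).length) hm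
      ((PolyC.snd hf').take hqm)
    have h2 := runx_poly (s := s) hV M ((PolyC.snd hf').drop hqm) h1 ((PolyN.length h1).poly p)
    exact PolyC.pr (t := fun w : Str => on1 (fst (f w)).length) hm
      ((PolyC.nth (PolyC.snd h2) (PolyN.const 0)).congr (fun a _ => enc_reg _ _ _ (by omega)))
  · obtain ⟨a, ha, b, hb, c, hc, d, hd, m, y, h1, h2, h3, h4⟩ := hP N
    refine ⟨a, ha, b, hb, c, hc, d, hd, m, ?_, h4⟩
    rw [hIce, Bool.or_eq_false_iff] at h3
    have h5 := (hIu m _ (htk m y h2)).1 h3.1
    beta_reduce
    rw [h1]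
    unfold vl
    rw [fst_pr, snd_pr, on1l, good_runx hBV h3.2 le_rfl, h5]
    congr 1
    have h6 := (hM (pr (on1 m) (u m))).2
    rw [inp_eq] at h6
    exact h6

end Hd

end Pool.Agent.Lib.Pa76659G
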