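import Pool.Agent.Lib.Pa76659G.HdV
import Pool.Agent.Lib.Pa76659G.UoF

set_option autoImplicit false

/-!
If `\hat H_1 = H_1` then subexponential time lists contain strings outside the range of a function, at
all lengths.
-/

namespace Pool.Agent.Lib.Pa76659G

open Pool.Agent.Lib.Pa76659 PC
open Pool.Agent.Lib.Pa76659H (High RHighSucc TComp)

namespace Hd

open Uo

section
variable {F : Str → Str} {O : Lang} (hO : PSL (VF F) Polynomial.X ∈ PO O)
  {α : Type} {D : α → Prop} {ctx : List (α → Str)} {z : α → Str} {n t i m : α → ℕ}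

theorem zinst_poly (hz : PolyC (fun _ => O) D ctx z)
    (hn : PolyN (fun _ => O) D ctx n) (ht : PolyN (fun _ => O) D ctx t)
    (hi : PolyN (fun _ => O) D ctx i) :
    PolyC (fun _ => O) D ctx (fun a => inst (n a) (i a) (eL (fun _ => z a) (n a) (t a))
      (eR (fun _ => z a) (n a) (t a))) := by
  have h1 : PolyC (fun _ => O) D ctx (fun a => eL (fun _ => z a) (n a) (t a)) :=
    PolyC.nth hz ((PolyN.const 1).add ht)
  have h2 : PolyC (fun _ => O) D ctx (fun a => eR (fun _ => z a) (n a) (t a)) :=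
    PolyC.nth hz (((PolyN.const 1).add hn).add ht)
  exact PolyC.pr (t := fun a => on1 (n a)) hn (PolyC.pr (t := fun a => on1 (i a)) hi
    (PolyC.pr h1 h2))

include hO

theorem zKK_poly (hz : PolyC (fun _ => O) D ctx z)
    (hn : PolyN (fun _ => O) D ctx n) (ht : PolyN (fun _ => O) D ctx t)
    (hi : PolyN (fun _ => O) D ctx i) :
    PolyB (fun _ => O) D ctx (fun a => Uo.KK F (fun _ => z a) (n a) (t a) (i a)) :=
  polyB_of_PO hO (PolyC.pr (zinst_poly hz hn ht hi) PolyC.nil)

theorem zSS_poly (hz : PolyC (fun _ => O) D ctx z)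
    (hn : PolyN (fun _ => O) D ctx n) (ht : PolyN (fun _ => O) D ctx t)
    (hi : PolyN (fun _ => O) D ctx i) :
    PolyC (fun _ => O) D ctx (fun a => SS F (fun _ => z a) (n a) (t a) (i a)) :=
  (PolyC.gr hO (zinst_poly hz hn ht hi) (PolyN.length (zinst_poly hz hn ht hi))).take hn

theorem zgood_poly (hz : PolyC (fun _ => O) D ctx z)
    (hn : PolyN (fun _ => O) D ctx n) (ht : PolyN (fun _ => O) D ctx t)
    (hi : PolyN (fun _ => O) D ctx i) :
    PolyB (fun _ => O) D ctx (fun a => good F (fun _ => z a) (n a) (t a) (i a)) := by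
  refine ((PolyB.forall_lt (φ := fun p : α × ℕ => Uo.KK F (fun _ => z p.1) (n p.1) p.2 0) ht ?_).and
    ((PolyB.forall_lt (φ := fun p : α × ℕ => !(Uo.KK F (fun _ => z p.1) (n p.1) (t p.1) p.2))
      hi.succ ?_).and (zKK_poly hO hz hn ht hi.succ))).congr ?_
  · refine zKK_poly hO (z := fun p : α × ℕ => z p.1) (n := fun p : α × ℕ => n p.1)
      (t := fun p => p.2) (i := fun _ => 0) ?_ ?_ (PolyC.var (by simp)) (PolyN.const 0)
    · exact (PolyC.lift hz (D' := fun p : α × ℕ => D p.1 ∧ p.2 < t p.1)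
        (fun p hp => hp.1)).weakenRight _
    · exact (PolyC.lift hn (D' := fun p : α × ℕ => D p.1 ∧ p.2 < t p.1)
        (fun p hp => hp.1)).weakenRight _
  · refine (zKK_poly hO (z := fun p : α × ℕ => z p.1) (n := fun p : α × ℕ => n p.1)
      (t := fun p => t p.1) (i := fun p => p.2) ?_ ?_ ?_ (PolyC.var (by simp))).not
    · exact (PolyC.lift hz (D' := fun p : α × ℕ => D p.1 ∧ p.2 < i p.1 + 1)
        (fun p hp => hp.1)).weakenRight _
    · exact (PolyC.lift hn (D' := fun p : α × ℕ => D p.1 ∧ p.2 < i p.1 + 1)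
        (fun p hp => hp.1)).weakenRight _
    · exact (PolyC.lift ht (D' := fun p : α × ℕ => D p.1 ∧ p.2 < i p.1 + 1)
        (fun p hp => hp.1)).weakenRight _
  · intro a _
    unfold good
    rw [Bool.eq_iff_iff]

theorem zinn_poly (hz : PolyC (fun _ => O) D ctx z)
    (hn : PolyN (fun _ => O) D ctx n) (ht : PolyN (fun _ => O) D ctx t)
    (hm : PolyN (fun _ => O) D ctx m) :
    PolyB (fun _ => O) D ctx (fun a => inn F (fun _ => z a) (n a) (t a) (m a)) := by
  refine (PolyB.exists_lt (φ := fun p : α × ℕ => good F (fun _ => z p.1) (n p.1) (t p.1) p.2 &&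
    (YY F (fun _ => z p.1) (n p.1) (t p.1) p.2).getD (m p.1) false) hn ?_).congr ?_
  · have lf : ∀ {f : α → ℕ}, PolyN (fun _ => O) D ctx f →
        PolyN (fun _ : α × ℕ => O) (fun p => D p.1 ∧ p.2 < n p.1)
          (PC.lift ctx ++ [fun p => una p.2]) (fun p => f p.1) := fun hf =>
      (PolyC.lift hf (D' := fun p : α × ℕ => D p.1 ∧ p.2 < n p.1)
        (fun p hp => hp.1)).weakenRight _
    have hz' : PolyC (fun _ : α × ℕ => O) (fun p => D p.1 ∧ p.2 < n p.1)
          (PC.lift ctx ++ [fun p => una p.2]) (fun p => z p.1) :=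
      (PolyC.lift hz (D' := fun p : α × ℕ => D p.1 ∧ p.2 < n p.1)
        (fun p hp => hp.1)).weakenRight _
    have hk : PolyN (fun _ : α × ℕ => O) (fun p => D p.1 ∧ p.2 < n p.1)
        (PC.lift ctx ++ [fun p => una p.2]) (fun p => p.2) := PolyC.var (by simp)
    have h1 : PolyC (fun _ : α × ℕ => O) (fun p => D p.1 ∧ p.2 < n p.1)
        (PC.lift ctx ++ [fun p => una p.2]) (fun p => eR (fun _ => z p.1) (n p.1) (t p.1)) :=
      PolyC.nth hz' (((PolyN.const 1).add (lf hn)).add (lf ht))
    have h2 : PolyC (fun _ : α × ℕ => O) (fun p => D p.1 ∧ p.2 < n p.1)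
        (PC.lift ctx ++ [fun p => una p.2])
        (fun p => YY F (fun _ => z p.1) (n p.1) (t p.1) p.2) :=
      (PolyC.append (PolyB.getD h1 hk) (zSS_poly hO hz' (lf hn) (lf ht) hk.succ)).congr
        (fun p _ => rfl)
    exact (zgood_poly hO hz' (lf hn) (lf ht) hk).and (PolyB.getD h2 (lf hm))
  · intro a _
    unfold inn
    rw [Bool.eq_iff_iff]

theorem zWW_poly (hz : PolyC (fun _ => O) D ctx z)
    (hn : PolyN (fun _ => O) D ctx n) (hm : PolyN (fun _ => O) D ctx m) :
    PolyB (fun _ => O) D ctx (fun a => WW F (fun _ => z a) (n a) (m a)) := by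
  refine (PolyB.exists_lt (φ := fun p : α × ℕ => inn F (fun _ => z p.1) (n p.1) p.2 (m p.1))
    hn ?_).congr ?_
  · refine zinn_poly hO (z := fun p : α × ℕ => z p.1) (n := fun p : α × ℕ => n p.1)
      (t := fun p => p.2) (m := fun p => m p.1) ?_ ?_ (PolyC.var (by simp)) ?_
    · exact (PolyC.lift hz (D' := fun p : α × ℕ => D p.1 ∧ p.2 < n p.1)
        (fun p hp => hp.1)).weakenRight _
    · exact (PolyC.lift hn (D' := fun p : α × ℕ => D p.1 ∧ p.2 < n p.1)
        (fun p hp => hp.1)).weakenRight _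
    · exact (PolyC.lift hm (D' := fun p : α × ℕ => D p.1 ∧ p.2 < n p.1)
        (fun p hp => hp.1)).weakenRight _
  · intro a _
    unfold WW
    rw [Bool.eq_iff_iff]

end

/-- the bits of the string outside the range -/
noncomputable def wb (F : Str → Str) (x : Str) (j : ℕ) : Bool :=
  if decide ((fst x).length = 0) = true then (decide (j = 0) && !((F []).headD false))
  else WW F (fun _ => snd x) (fst x).length j

/-- the string outside the range -/
noncomputable def wf (F : Str → Str) (x : Str) : Str :=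
  (List.range ((fst x).length + 1)).map (fun j => wb F x j)

theorem wf_mem (F : Str → Str) : wf F ∈ FPO (PSL (VF F) Polynomial.X) := by
  set O : Lang := PSL (VF F) Polynomial.X with hO
  have hO' : PSL (VF F) Polynomial.X ∈ PO O := query_mem _
  have hx : PolyC (fun _ : Str => O) (fun _ => True) [fun x => x] (fun x => x) :=
    PolyC.var (by simp)
  refine Uo.FPO_of_polyC (PolyC.map_range (φ := fun p : Str × ℕ => wb F p.1 p.2)
    (PolyN.length (PolyC.fst hx)).succ ?_)
  have hx' : PolyC (fun _ : Str × ℕ => O) (fun p => True ∧ p.2 < (fst p.1).length + 1)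
      (PC.lift [fun x : Str => x] ++ [fun p => una p.2]) (fun p => p.1) :=
    (hx.lift (D' := fun p : Str × ℕ => True ∧ p.2 < (fst p.1).length + 1)
      (fun p hp => hp.1)).weakenRight _
  have hk : PolyN (fun _ : Str × ℕ => O) (fun p => True ∧ p.2 < (fst p.1).length + 1)
      (PC.lift [fun x : Str => x] ++ [fun p => una p.2]) (fun p => p.2) := PolyC.var (by simp)
  have hn := PolyN.length (PolyC.fst hx')
  exact PolyB.ite (PolyB.natEq hn (PolyN.const 0))
    (((PolyB.natEq hk (PolyN.const 0)).and (PolyB.const (!((F []).headD false)))).mono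
      fun _ h => h.1) ((zWW_poly hO' (PolyC.snd hx') hn hk).mono fun _ h => h.1)

theorem wf_length (F : Str → Str) (x : Str) : (wf F x).length = (fst x).length + 1 := by
  simp [wf]

theorem wf_getD (F : Str → Str) (x : Str) {j : ℕ} (hj : j < (fst x).length + 1) :
    (wf F x).getD j false = wb F x j := by
  rw [List.getD_eq_getElem _ _ (by rw [wf_length]; exact hj)]
  simp [wf]

theorem wf_spec {F : Str → Str}
    (hC : ∀ b x, (FC F b x).length = x.length) (n : ℕ) {x : Str} (hx : x.length = n) :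
    F x ≠ wf F (pr (on1 n) (tbl hC n)) := by
  by_cases hn : n = 0
  · subst hn
    have h1 : x = [] := List.length_eq_zero_iff.1 hx
    rw [h1]
    intro h3
    have h4 : (wf F (pr (on1 0) (tbl hC 0))).headD false = !((F []).headD false) := by
      unfold wf wb
      simp only [fst_pr, on1l, Nat.zero_add, List.range_one, List.map_cons, List.map_nil,
        List.headD_cons, decide_true, if_true, Bool.true_and]
    rw [← h3] at h4
    cases h5 : (F []).headD false <;> rw [h5] at h4 <;> simp at h4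
  · obtain ⟨t0, ht0, hgap⟩ := tbl_gap hC (show 1 ≤ n by omega)
    have hk : Uo.KK F (tbl hC) n t0 0 = false := by
      rw [← Bool.not_eq_true, KK_iff]
      rintro ⟨s, hs, h3⟩
      refine hgap s hs ((chn_zero hs ?_).1 h3)
      show (nth (tbl hC n) (1 + n + t0)).length = n
      rw [nth_tbl hC (by omega)]
      exact ent_length hC _ _
    obtain ⟨t, ht, i, hi, hg⟩ := exists_good (F := F) (tb := tbl hC) (n := n) (fun t ht => by
      show (nth (tbl hC n) (1 + t)).length = n
      rw [nth_tbl hC (by omega)]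
      exact ent_length hC _ _) ⟨t0, ht0, hk⟩
    have h3 : wf F (pr (on1 n) (tbl hC n)) = YY F (tbl hC) n t i := by
      have hg' := hg
      unfold good at hg'
      simp only [Bool.and_eq_true, decide_eq_true_eq, Bool.not_eq_true'] at hg'
      apply List.ext_getElem
      · rw [wf_length, fst_pr, on1l]
        unfold YY
        rw [List.length_cons, (SS_spec hg'.2.2).1]
      · intro m hm1 hm2
        have hm3 : m < (fst (pr (on1 n) (tbl hC n))).length + 1 := by rwa [wf_length] at hm1
        rw [← List.getD_eq_getElem _ false hm1, ← List.getD_eq_getElem _ false hm2,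
          ← WW_eq ht hi hg, wf_getD F _ hm3]
        unfold wb
        rw [fst_pr, snd_pr, on1l, if_neg (by rw [decide_eq_true_eq]; exact hn)]
        rfl
    rw [h3]
    exact YY_spec hi hg hx

/-- Range avoidance: lists at all lengths. -/
theorem avoid_lists {X : Lang} {F : Str → Str} (h : High X 1 ⊆ RHighSucc X 0)
    (hF : ∀ x, (F x).length = x.length + 1) (hFP : F ∈ FPO X) (k : ℕ) :
    ∃ f ∈ FPO X, ∃ P : Polynomial ℕ, ∀ N : ℕ, ∃ a ≤ P.eval N, ∃ b ≤ P.eval N, ∃ c ≤ P.eval N,
      ∃ d ≤ P.eval N, ∃ (m : ℕ) (y : Str),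
        f (pr (on1 N) (pr (on1 a) (pr (on1 b) (pr (on1 c) (on1 d))))) = pr (on1 m) y ∧
        y.length = m + 1 ∧ (∀ x : Str, x.length = m → F x ≠ y) ∧ Hi.Lk k N ≤ m := by
  have hP := Uo.polyC_of_FPO hFP
  have hC : ∀ b x, (FC F b x).length = x.length := FC_length hF
  have hV : PolyB (fun _ : Str × Str => X) (fun _ => True) [fun p => p.1, fun p => p.2] (VF F) := by
    have hz : PolyC (fun _ : Str × Str => X) (fun _ => True) [fun p => p.1, fun p => p.2]
      (fun p => p.1) := PolyC.var (by simp)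
    have hc : PolyC (fun _ : Str × Str => X) (fun _ => True) [fun p => p.1, fun p => p.2]
      (fun p => p.2) := PolyC.var (by simp)
    have h1 := PolyC.snd hz
    have h3 := PolyC.snd h1
    have hn := PolyN.length (PolyC.fst hz)
    exact chn_poly hF hP hn (PolyN.length (PolyC.fst h1)) (PolyC.fst h3) (PolyC.snd h3)
      (hc.take hn)
  have hU := tbl_unq hC
  obtain ⟨f, hf, P, h1⟩ := lists_fun (u := tbl hC) h
    (UA_mem (q := qT) (r := Polynomial.X) (RT_poly (FC_poly hF hP) hC)) hU.1
    (fun m z hz => UA_false' hU) (PSL_mem hV) (wf_mem F) k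
  refine ⟨f, hf, P, fun N => ?_⟩
  obtain ⟨a, ha, b, hb, c, hc, d, hd, m, h2, h3⟩ := h1 N
  refine ⟨a, ha, b, hb, c, hc, d, hd, m, _, h2, ?_, fun x hx => wf_spec hC m hx, h3⟩
  rw [wf_length, fst_pr, on1l]

end Hd

end Pool.Agent.Lib.Pa76659G
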