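import Pool.Agent.Lib.Pa76659G.HcF2

set_option autoImplicit false

/-!
Lists with one index. From lists which contain strings outside the range of the window function, at
all lengths, to a language in `E` with large circuit complexity at all large lengths.
-/

namespace Pool.Agent.Lib.Pa76659G

open Pool.Agent.Lib.Pa76659 PC

namespace Hd

open Circ

section
variable {α : Type} {D : α → Prop} {ctx : List (α → Str)} {O : Lang}

theorem divN_poly {f g : α → ℕ} (hf : PolyN (fun _ => O) D ctx f)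
    (hg : PolyN (fun _ => O) D ctx g) (hp : ∀ a, D a → 1 ≤ g a) :
    PolyN (fun _ => O) D ctx (fun a => f a / g a) := by
  have h1 := PolyN.count (n := f) (φ := fun p : α × ℕ => decide ((p.2 + 1) * g p.1 ≤ f p.1)) hf (by
    have hk : PolyN (fun _ : α × ℕ => O) (fun p => D p.1 ∧ p.2 < f p.1)
      (PC.lift ctx ++ [fun p => una p.2]) (fun p => p.2) := PolyC.var (by simp)
    have hf' : PolyN (fun _ : α × ℕ => O) (fun p => D p.1 ∧ p.2 < f p.1)
      (PC.lift ctx ++ [fun p => una p.2]) (fun p => f p.1) :=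
      (PolyC.lift hf (fun p hp => hp.1)).weakenRight _
    have hg' : PolyN (fun _ : α × ℕ => O) (fun p => D p.1 ∧ p.2 < f p.1)
      (PC.lift ctx ++ [fun p => una p.2]) (fun p => g p.1) :=
      (PolyC.lift hg (fun p hp => hp.1)).weakenRight _
    exact PolyB.le (hk.succ.mul hg') hf')
  refine h1.congr (fun a ha => ?_)
  rw [← Hi.filter_lt (f a / g a) (f a) (Nat.div_le_self _ _)]
  congr 1
  refine List.filter_congr (fun i _ => ?_)
  rw [Bool.eq_iff_iff, decide_eq_true_eq, decide_eq_true_eq]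
  show (i + 1) * g a ≤ f a ↔ i < f a / g a
  rw [Nat.lt_iff_add_one_le, Nat.le_div_iff_mul_le (hp a ha)]

theorem modN_poly {f g : α → ℕ} (hf : PolyN (fun _ => O) D ctx f)
    (hg : PolyN (fun _ => O) D ctx g) (hp : ∀ a, D a → 1 ≤ g a) :
    PolyN (fun _ => O) D ctx (fun a => f a % g a) := by
  refine (hf.sub (hg.mul (divN_poly hf hg hp))).congr (fun a _ => ?_)
  have := Nat.div_add_mod (f a) (g a)
  show f a - g a * (f a / g a) = f a % g a
  omega

end

/-- the four parameters in one -/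
noncomputable def dec4 (f : Str → Str) (P : Polynomial ℕ) (w : Str) : Str :=
  f (pr (on1 (fst w).length) (pr
    (on1 ((snd w).length / (P.eval (fst w).length + 1) / (P.eval (fst w).length + 1) /
      (P.eval (fst w).length + 1))) (pr
    (on1 ((snd w).length / (P.eval (fst w).length + 1) / (P.eval (fst w).length + 1) %
      (P.eval (fst w).length + 1))) (pr
    (on1 ((snd w).length / (P.eval (fst w).length + 1) % (P.eval (fst w).length + 1)))
    (on1 ((snd w).length % (P.eval (fst w).length + 1)))))))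

theorem dec4_mem {X : Lang} {f : Str → Str} (hf : f ∈ FPO X) (P : Polynomial ℕ) :
    dec4 f P ∈ FPO X := by
  have hx : PolyC (fun _ : Str => X) (fun _ => True) [fun x => x] (fun x => x) :=
    PolyC.var (by simp)
  have hn := PolyN.length (PolyC.fst hx)
  have he := PolyN.length (PolyC.snd hx)
  have hQ := (hn.poly P).succ
  have hp : ∀ a : Str, True → 1 ≤ P.eval (fst a).length + 1 := fun a _ => by omega
  have h1 := divN_poly he hQ hp
  have h2 := divN_poly h1 hQ hp
  have h3 := divN_poly h2 hQ hp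
  exact Uo.FPO_of_polyC (PolyC.arg (Uo.polyC_of_FPO hf)
    (PolyC.pr (t := fun w : Str => on1 (fst w).length) hn
      (PolyC.pr (t := fun w : Str => on1 _) h3 (PolyC.pr (t := fun w : Str => on1 _)
        (modN_poly h2 hQ hp) (PolyC.pr (t := fun w : Str => on1 _) (modN_poly h1 hQ hp)
          (modN_poly he hQ hp))))))

theorem dec4_eq {f : Str → Str} {P : Polynomial ℕ} {N a b c d : ℕ} (hb : b ≤ P.eval N)
    (hc : c ≤ P.eval N) (hd : d ≤ P.eval N) :
    dec4 f P (pr (on1 N) (on1 (((a * (P.eval N + 1) + b) * (P.eval N + 1) + c) *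
      (P.eval N + 1) + d))) =
      f (pr (on1 N) (pr (on1 a) (pr (on1 b) (pr (on1 c) (on1 d))))) := by
  have on1l : ∀ n, (on1 n).length = n := fun n => by rw [on1_eq, PC.un_length]
  have key : ∀ u v Q : ℕ, v < Q → (u * Q + v) / Q = u ∧ (u * Q + v) % Q = v := by
    intro u v Q hv
    rw [Nat.add_comm, Nat.mul_comm, Nat.add_mul_div_left _ _ (by omega), Nat.add_mul_mod_self_left,
      Nat.div_eq_of_lt hv, Nat.mod_eq_of_lt hv, Nat.zero_add]
    exact ⟨rfl, rfl⟩
  unfold dec4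
  rw [fst_pr, snd_pr, on1l, on1l]
  obtain ⟨h1, h2⟩ := key ((a * (P.eval N + 1) + b) * (P.eval N + 1) + c) d (P.eval N + 1) (by omega)
  obtain ⟨h3, h4⟩ := key (a * (P.eval N + 1) + b) c (P.eval N + 1) (by omega)
  obtain ⟨h5, h6⟩ := key a b (P.eval N + 1) (by omega)
  rw [h1, h2, h3, h4, h5, h6]

/-- lists with one index -/
theorem one_index {X : Lang} {f : Str → Str} (hf : f ∈ FPO X) (P : Polynomial ℕ) :
    ∃ f' ∈ FPO X, ∃ P' : Polynomial ℕ, ∀ N a b c d : ℕ, a ≤ P.eval N → b ≤ P.eval N →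
      c ≤ P.eval N → d ≤ P.eval N → ∃ e ≤ P'.eval N, f' (pr (on1 N) (on1 e)) =
        f (pr (on1 N) (pr (on1 a) (pr (on1 b) (pr (on1 c) (on1 d))))) := by
  refine ⟨dec4 f P, dec4_mem hf P, (P + 1) ^ 4, fun N a b c d ha hb hc hd =>
    ⟨_, ?_, dec4_eq hb hc hd⟩⟩
  have e : ((P + 1) ^ 4).eval N = (P.eval N + 1) ^ 4 := by simp
  rw [e]
  obtain ⟨Q, hQ⟩ : ∃ Q, Q = P.eval N + 1 := ⟨_, rfl⟩
  rw [← hQ]
  have h1 : a * Q + b + 1 ≤ Q * Q := by
    have : (a + 1) * Q ≤ Q * Q := Nat.mul_le_mul_right _ (by omega)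
    have h2 : (a + 1) * Q = a * Q + Q := by ring
    omega
  have h2 : (a * Q + b) * Q + c + 1 ≤ Q * Q * Q := by
    have h3 : (a * Q + b + 1) * Q ≤ Q * Q * Q := Nat.mul_le_mul_right _ h1
    have h4 : (a * Q + b + 1) * Q = (a * Q + b) * Q + Q := by ring
    omega
  have h3 : ((a * Q + b) * Q + c) * Q + d + 1 ≤ Q * Q * Q * Q := by
    have h3 : ((a * Q + b) * Q + c + 1) * Q ≤ Q * Q * Q * Q := Nat.mul_le_mul_right _ h2
    have h4 : ((a * Q + b) * Q + c + 1) * Q = ((a * Q + b) * Q + c) * Q + Q := by ring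
    omega
  have h4 : Q ^ 4 = Q * Q * Q * Q := by ring
  omega

/-! ### Circuits -/

/-- inputs with three numbers and a rest -/
def bk (s N c i : ℕ) (r : Str) : Str := bin s i ++ (bin s c ++ (bin s N ++ r))

theorem bk_length (s N c i : ℕ) (r : Str) : (bk s N c i r).length = 3 * s + r.length := by
  simp [bk]
  omega

theorem bk_inj {s N c i N' c' i' : ℕ} {r r' : Str} (h : bk s N c i r = bk s N' c' i' r')
    (hN : N < 2 ^ s) (hc : c < 2 ^ s) (hi : i < 2 ^ s)
    (hN' : N' < 2 ^ s) (hc' : c' < 2 ^ s) (hi' : i' < 2 ^ s) : N = N' ∧ c = c' ∧ i = i' := by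
  unfold bk at h
  obtain ⟨h1, h⟩ := List.append_inj h (by simp)
  obtain ⟨h2, h⟩ := List.append_inj h (by simp)
  obtain ⟨h3, h⟩ := List.append_inj h (by simp)
  exact ⟨bin_inj hN hN' h3, bin_inj hc hc' h2, bin_inj hi hi' h1⟩

/-- bits of the listed strings -/
def Lc (f : Str → Str) (N c i : ℕ) : Bool :=
  (snd (f (pr (on1 N) (on1 c)))).getD i false

/-- test of a decomposition of the input -/
def ps (f : Str → Str) (x : Str) (s N c i : ℕ) : Bool :=
  decide (bk s N c i (x.drop (3 * s)) = x) && ((!(decide (2 ^ s ≤ N)) && !(decide (2 ^ s ≤ c))) &&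
    (!(decide (2 ^ s ≤ i)) && Lc f N c i))

/-- the language, with a bound for the search -/
def ph (f : Str → Str) (p : Str × Str) : Bool :=
  decide (∃ N < p.2.length, decide (∃ c < p.2.length,
    decide (∃ i < p.2.length, ps f p.1 (p.1.length / 3) N c i = true) = true) = true)

theorem ph_eq {f : Str → Str} {s N c i : ℕ} {r : Str} (hr : r.length < 3) (hN : N < 2 ^ s)
    (hc : c < 2 ^ s) (hi : i < 2 ^ s) :
    ph f (bk s N c i r, una (2 ^ (bk s N c i r).length)) = Lc f N c i := by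
  have hs : (3 * s + r.length) / 3 = s := by omega
  have hle : 2 ^ s ≤ 2 ^ (3 * s + r.length) := Nat.pow_le_pow_right (by omega) (by omega)
  have hdr : (bk s N c i r).drop (3 * s) = r := by
    unfold bk
    rw [← List.append_assoc, ← List.append_assoc, List.drop_append_of_le_length (by simp; omega),
      List.drop_of_length_le (by simp; omega), List.nil_append]
  rw [Bool.eq_iff_iff]
  unfold ph
  simp only [decide_eq_true_eq, un_length, bk_length, hs]
  constructor
  · rintro ⟨N', -, c', -, i', -, h⟩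
    unfold ps at h
    simp only [Bool.and_eq_true, decide_eq_true_eq, Bool.not_eq_true', decide_eq_false_iff_not,
      not_le] at h
    obtain ⟨h1, ⟨h2, h3⟩, h4, h6⟩ := h
    obtain ⟨rfl, rfl, rfl⟩ := bk_inj h1 h2 h3 h4 hN hc hi
    exact h6
  · intro h
    refine ⟨N, by omega, c, by omega, i, by omega, ?_⟩
    unfold ps
    simp only [Bool.and_eq_true, decide_eq_true_eq, Bool.not_eq_true', decide_eq_false_iff_not,
      not_le, hdr]
    exact ⟨trivial, ⟨hN, hc⟩, hi, h⟩

section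
variable {α : Type} {X : Lang} {D : α → Prop} {ctx : List (α → Str)}

theorem ps_poly {f : Str → Str} (hf : PolyC (fun _ : Str => X) (fun _ => True) [fun x => x] f)
    {x : α → Str} {s N c i : α → ℕ} (hx : PolyC (fun _ => X) D ctx x)
    (hs : PolyN (fun _ => X) D ctx s) (hN : PolyN (fun _ => X) D ctx N)
    (hc : PolyN (fun _ => X) D ctx c) (hi : PolyN (fun _ => X) D ctx i) :
    PolyB (fun _ => X) D ctx (fun a => ps f (x a) (s a) (N a) (c a) (i a)) := by
  have h1 := PolyB.strEq ((polyC_bin hs hi).append ((polyC_bin hs hc).append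
    ((polyC_bin hs hN).append (hx.drop ((PolyN.const 3).mul hs))))) hx
  have h2 : PolyC (fun _ => X) D ctx (fun a => pr (on1 (N a)) (on1 (c a))) := PolyC.pr hN hc
  have h3 : PolyB (fun _ => X) D ctx (fun a => Lc f (N a) (c a) (i a)) :=
    PolyB.getD (PolyC.snd (PolyC.arg hf h2)) hi
  exact h1.and (((polyB_pow hN hs).not.and (polyB_pow hc hs).not).and
    ((polyB_pow hi hs).not.and h3))

end

theorem ph_poly {X : Lang} {f : Str → Str}
    (hf : PolyC (fun _ : Str => X) (fun _ => True) [fun x => x] f) :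
    PolyB (fun _ : Str × Str => X) (fun _ => True) [fun p => p.1, fun p => p.2] (ph f) := by
  have ht : PolyC (fun _ : Str × Str => X) (fun _ => True) [fun p => p.1, fun p => p.2]
    (fun p => p.2) := PolyC.var (by simp)
  refine PolyB.exists_lt (φ := fun a : (Str × Str) × ℕ => decide (∃ c < a.1.2.length,
    decide (∃ i < a.1.2.length,
      ps f a.1.1 (a.1.1.length / 3) a.2 c i = true) = true))
    (PolyN.length ht) ?_
  refine PolyB.exists_lt (φ := fun a : ((Str × Str) × ℕ) × ℕ =>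
    decide (∃ i < a.1.1.2.length,
      ps f a.1.1.1 (a.1.1.1.length / 3) a.1.2 a.2 i = true))
    (PolyN.length (t := fun a : (Str × Str) × ℕ => a.1.2) (PolyC.var (by simp [PC.lift]))) ?_
  refine PolyB.exists_lt (φ := fun a : (((Str × Str) × ℕ) × ℕ) × ℕ =>
      ps f a.1.1.1.1 (a.1.1.1.1.length / 3) a.1.1.2 a.1.2 a.2)
    (PolyN.length (t := fun a : ((Str × Str) × ℕ) × ℕ => a.1.1.2)
      (PolyC.var (by simp [PC.lift]))) ?_
  have hx := PolyC.var (orc := fun _ : (((Str × Str) × ℕ) × ℕ) × ℕ => X)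
    (D := fun a => (((True ∧ a.1.1.2 < a.1.1.1.2.length) ∧ a.1.2 < a.1.1.1.2.length) ∧
      a.2 < a.1.1.1.2.length))
    (ctx := PC.lift (PC.lift (PC.lift [fun p : Str × Str => p.1, fun p => p.2] ++
      [fun p => una p.2]) ++ [fun p => una p.2]) ++ [fun p => una p.2])
    (f := fun a => a.1.1.1.1) (by simp [PC.lift])
  refine ps_poly hf hx ?_ (PolyC.var (by simp [PC.lift])) (PolyC.var (by simp [PC.lift]))
    (PolyC.var (by simp [PC.lift]))
  exact divN_poly (PolyN.length hx) (PolyN.const 3) (fun _ _ => by omega)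

/-- Lists which contain strings outside the range of the window function at all lengths give a
language in `E` with large circuit complexity at all large lengths. -/
theorem hard_all {X : Lang} {f : Str → Str} {P : Polynomial ℕ} (hf : f ∈ FPO X) (e : ℕ)
    (H : ∀ N : ℕ, ∃ c ≤ P.eval N, ∃ (m : ℕ) (y : Str), f (pr (on1 N) (on1 c)) = pr (on1 m) y ∧
      y.length = m + 1 ∧ (∀ z : Str, z.length = m → Hc.Fc z ≠ y) ∧ Hi.Lk (e + 2) N ≤ m) :
    ∃ L ∈ EO X, ∃ n0 : ℕ, ∀ n ≥ n0, ∀ C : List Gate,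
      (∀ x : Str, x.length = n → cval C x = L x) → n ^ e < C.length := by
  have hf' := Uo.polyC_of_FPO hf
  obtain ⟨pf, hpf⟩ := hf'.length_le
  obtain ⟨d0, hd0⟩ := exists_bound (Polynomial.X + P + pf.comp (2 * Polynomial.X + 2 + 3 * P) + 1)
  obtain ⟨n1, hn1⟩ := pow_le_two_pow (e + 2)
  obtain ⟨D0, hD0⟩ : ∃ D0, D0 = d0 + 1 := ⟨_, rfl⟩
  obtain ⟨K, hK⟩ : ∃ K, K = 9 * D0 + 2 := ⟨_, rfl⟩
  obtain ⟨W, hW⟩ : ∃ W, W = n1 + 13 * K ^ (e + 1) + 2 := ⟨_, rfl⟩
  refine ⟨fun x => ph f (x, una (2 ^ x.length)), mem_EO (ph_poly hf'),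
    3 * (D0 * (W + 1) + 1) + n1 + 2, fun n hn C hC => ?_⟩
  obtain ⟨s, hs⟩ : ∃ s, s = n / 3 := ⟨_, rfl⟩
  obtain ⟨w, hw⟩ : ∃ w, w = (s - 1) / D0 - 1 := ⟨_, rfl⟩
  have hs1 : D0 * (W + 1) + 1 ≤ s := by omega
  have hdiv : W + 1 ≤ (s - 1) / D0 := by
    rw [Nat.le_div_iff_mul_le (by omega), Nat.mul_comm]
    omega
  have hwW : W ≤ w := by omega
  have hsw : D0 * (w + 1) ≤ s - 1 := by
    have h1 : w + 1 = (s - 1) / D0 := by omega
    rw [h1]
    exact Nat.mul_div_le _ _
  have hsw2 : s - 1 < D0 * (w + 2) := by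
    have h1 : w + 2 = (s - 1) / D0 + 1 := by omega
    rw [h1]
    exact Nat.lt_mul_div_succ _ (by omega)
  have hnK : n ≤ K * w := by
    have h1 : n < 3 * s + 3 := by omega
    have h2 : D0 * (w + 2) ≤ D0 * (3 * w) := Nat.mul_le_mul_left _ (by omega)
    have h3 : K * w = 3 * (D0 * (3 * w)) + 2 * w := by rw [hK]; ring
    omega
  obtain ⟨c, hc, m, y, h1, h2, h3, h4⟩ := H (2 ^ w)
  -- all numbers are less than `2 ^ s`
  have hB := hd0 w
  simp only [Polynomial.eval_add, Polynomial.eval_X, Polynomial.eval_comp, Polynomial.eval_mul,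
    Polynomial.eval_ofNat, Polynomial.eval_one] at hB
  have hm : m ≤ pf.eval (2 * 2 ^ w + 2 + 3 * P.eval (2 ^ w)) := by
    have h5 := hpf (pr (on1 (2 ^ w)) (on1 c)) trivial
    rw [h1] at h5
    simp only [vals_cons, vals_nil, total_cons, total_nil, Nat.add_zero] at h5
    rw [pr_length, pr_length, on1_eq, on1_eq, on1_eq, un_length, un_length, un_length] at h5
    have h6 := eval_mono pf (m := 2 * 2 ^ w + 1 + c)
      (n := 2 * 2 ^ w + 2 + 3 * P.eval (2 ^ w)) (by omega)
    omega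
  have hp0 : 0 < 2 ^ w := by positivity
  have h2s : 2 * 2 ^ (d0 * (w + 1)) ≤ 2 ^ s := by
    have h5 : d0 * (w + 1) ≤ D0 * (w + 1) := Nat.mul_le_mul_right _ (by omega)
    calc 2 * 2 ^ (d0 * (w + 1)) = 2 ^ (d0 * (w + 1) + 1) := by rw [pow_succ]; ring
      _ ≤ 2 ^ s := Nat.pow_le_pow_right (by norm_num) (by omega)
  have hN : 2 ^ w < 2 ^ s := by omega
  have hcs : c < 2 ^ s := by omega
  have hms : m + 1 ≤ 2 ^ s := by omega
  have hwk : w ^ (e + 2) ≤ m := by
    have h5 : w ^ (e + 2) ≤ 2 ^ w := hn1 w (by omega)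
    have h6 : Nat.log 2 (2 ^ w) = w := Nat.log_pow (by norm_num) w
    unfold Hi.Lk at h4
    rw [h6, min_eq_right h5] at h4
    exact h4
  by_contra hcon
  push Not at hcon
  obtain ⟨r, hr⟩ : ∃ r : Str, r.length = n % 3 := ⟨List.replicate (n % 3) false, by simp⟩
  have hbl : ∀ i, (bk s (2 ^ w) c i r).length = n := by
    intro i
    rw [bk_length, hr, hs]
    omega
  have hn3 : 3 ≤ n := by omega
  have hp1 : n ^ (e + 1) = n ^ e * n := pow_succ _ _
  have hp2 : n ^ (e + 2) = n ^ (e + 1) * n := pow_succ _ _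
  have hpe : 1 ≤ n ^ e := Nat.one_le_pow _ _ (by omega)
  have hmul1 : n ≤ n ^ (e + 1) := by rw [hp1]; nlinarith
  have hw1 : n + C.length ≤ 2 ^ n := by
    have h5 := hn1 n (by omega)
    have h6 : n ^ e + n ^ (e + 1) ≤ n ^ (e + 2) := by
      rw [hp2, hp1]
      have h8 : n ^ e * n * 2 ≤ n ^ e * n * n := Nat.mul_le_mul_left _ (by omega)
      have h9 : n ^ e * 1 ≤ n ^ e * n := Nat.mul_le_mul_left _ (by omega)
      omega
    omega
  have hw2 : 4 * n + 3 + C.length * (2 * n + 4) ≤ m := by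
    have h5 : C.length * (2 * n + 4) ≤ n ^ e * (6 * n) :=
      Nat.mul_le_mul hcon (by omega)
    have h6 : n ^ e * (6 * n) = 6 * n ^ (e + 1) := by rw [hp1]; ring
    have h7 : n ^ (e + 1) ≤ (K * w) ^ (e + 1) := Nat.pow_le_pow_left hnK _
    have h8 : 13 * (K * w) ^ (e + 1) ≤ w ^ (e + 2) := by
      rw [mul_pow, ← mul_assoc, pow_succ w (e + 1), mul_comm (w ^ (e + 1)) w]
      exact Nat.mul_le_mul_right _ (by omega)
    omega
  obtain ⟨z, hz1, hz2⟩ := Hc.Fc_win (n := n) (m := m) (C := C) (bk s (2 ^ w) c 0 r)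
    (hbl 0) hw1 hw2
  refine h3 z hz1 ?_
  rw [hz2]
  apply List.ext_getElem
  · rw [List.length_map, List.length_range, h2]
  · intro i hi hi'
    rw [List.length_map, List.length_range] at hi
    rw [List.getElem_map, List.getElem_range]
    have h6 : inc^[i] (bk s (2 ^ w) c 0 r) = bk s (2 ^ w) c i r :=
      Hc.iter_inc_append _ i (by omega)
    rw [h6, hC _ (hbl i)]
    show ph f (bk s (2 ^ w) c i r, una (2 ^ (bk s (2 ^ w) c i r).length)) = y[i]
    rw [ph_eq (by rw [hr]; omega) hN hcs (by omega)]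
    unfold Lc
    rw [h1, snd_pr, List.getD_eq_getElem _ _ hi']

end Hd

end Pool.Agent.Lib.Pa76659G
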