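import Pool.Agent.Lib.Pa76659G.HcG

set_option autoImplicit false

/-!
One language in `E(X)` is hard for all fixed polynomial circuit sizes at all large lengths if for
each fixed polynomial size there is a language in `E(X)` hard at all large lengths: the universal
machine of `HcG`, with the header padded to fit every large length.
-/

namespace Pool.Agent.Lib.Pa76659G

open Pool.Agent.Lib.Pa76659 PC

namespace Hd

/-- The universal language decides `L` with a header of prescribed length. -/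
theorem UL_eq' {O L : Lang} (h : L ∈ EO O) : ∃ (a : ℕ → Str) (c H0 : ℕ),
    (∀ j, (pr (a j) []).length = H0 + 4 * j) ∧
      ∀ n j, c * (n + 1) ≤ j → ∀ x : Str, x.length = n → Hc.UL O (pr (a j) x) = L x := by
  obtain ⟨M, c, hM⟩ := h
  set m : ℕ := M.bnd + 1 with hm
  refine ⟨fun j => lenc [Unv.tabl M, cod M [M], una m, una j], c,
    4 * ((Unv.tabl M).length + (cod M [M]).length + m) + 9, fun j => ?_, fun n j hj x hx => ?_⟩
  · beta_reduce
    rw [pr_length, lenc_length]
    simp only [total_cons, total_nil, List.length_cons, List.length_nil, PC.un_length]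
    omega
  · subst hx
    obtain ⟨a, ha⟩ : ∃ a, a = lenc [Unv.tabl M, cod M [M], una m, una j] := ⟨_, rfl⟩
    have t0 : nth a 0 = Unv.tabl M := by
      rw [ha]
      simp only [nth_lenc, List.getD_cons_zero]
    have t1 : nth a 1 = cod M [M] := by
      rw [ha]
      simp only [nth_lenc, List.getD_cons_zero, List.getD_cons_succ]
    have t2 : nth a 2 = una m := by
      rw [ha]
      simp only [nth_lenc, List.getD_cons_zero, List.getD_cons_succ]
    have hl : c * (x.length + 1) ≤ (pr a x).length := by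
      rw [pr_length, ha, lenc_length]
      simp only [total_cons, total_nil, List.length_cons, List.length_nil, PC.un_length]
      omega
    have e0 : Hc.d0 (pr a x) = enc M m ([M], inp x) := by
      unfold Hc.d0 enc
      rw [fst_pr, snd_pr, t1, t2, PC.un_length]
      refine Unv.pr_lenc_congr rfl (fun j _ => ?_)
      unfold inp
      simp only [decide_eq_true_eq]
    have e1 : Hc.d1 O (pr a x) (una (2 ^ (pr a x).length)) =
        enc M m (runN O (2 ^ (pr a x).length) ([M], inp x)) := by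
      unfold Hc.d1
      rw [e0, fst_pr, t0, t2, PC.un_length, PC.un_length, Unv.ustep_run (by omega)]
    show Hc.UL O (pr (lenc [Unv.tabl M, cod M [M], una m, una j]) x) = L x
    rw [← ha]
    show (nth (snd (Hc.d1 O (pr a x) (una (2 ^ (pr a x).length)))) 0).headD false = L x
    rw [e1, enc_reg _ _ _ (by omega)]
    have h1 := (halts_mono (hM x).1 (Nat.pow_le_pow_right (by norm_num) hl)).2
    rw [(hM x).2, ← h1, accepts]
    rcases (runN O (2 ^ (pr a x).length) ([M], inp x)).2 0 with _ | ⟨b, l⟩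
    · rfl
    · cases b <;> rfl

/-- Every large length splits into a header and an input whose length is a constant fraction. -/
theorem split_len (c H0 : ℕ) : ∃ C0 N0 : ℕ, ∀ N, N0 ≤ N → ∃ n j : ℕ,
    N = H0 + 4 * j + n ∧ c * (n + 1) ≤ j ∧ N ≤ C0 * (n + 1) := by
  refine ⟨H0 + 3 + 12 * (4 * c + 1), H0 + 4 * (4 * c), fun N hN => ?_⟩
  obtain ⟨w, hw⟩ : ∃ w, w = (N - H0) / 4 := ⟨_, rfl⟩
  obtain ⟨r, hr⟩ : ∃ r, r = (N - H0) % 4 := ⟨_, rfl⟩
  obtain ⟨t, ht⟩ : ∃ t, t = (w - 4 * c) / (4 * c + 1) := ⟨_, rfl⟩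
  have h1 : N = H0 + 4 * w + r := by omega
  have h2 : r < 4 := by omega
  have h3 : 4 * c ≤ w := by omega
  have h4 : t * (4 * c + 1) ≤ w - 4 * c := by
    rw [ht]
    exact Nat.div_mul_le_self _ _
  have h5 : w - 4 * c < (t + 1) * (4 * c + 1) := by
    have e1 := Nat.div_add_mod (w - 4 * c) (4 * c + 1)
    have e2 := Nat.mod_lt (w - 4 * c) (show 0 < 4 * c + 1 by omega)
    rw [← ht] at e1
    have e3 : (t + 1) * (4 * c + 1) = (4 * c + 1) * t + (4 * c + 1) := by ring
    omega
  have h6 : t ≤ w := by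
    have : t * 1 ≤ t * (4 * c + 1) := Nat.mul_le_mul_left t (by omega)
    omega
  refine ⟨4 * t + r, w - t, by omega, ?_, ?_⟩
  · have e1 : t * (4 * c + 1) = 4 * (c * t) + t := by ring
    have e2 : c * (4 * t + r + 1) ≤ c * (4 * t + 4) := Nat.mul_le_mul_left c (by omega)
    have e3 : c * (4 * t + 4) = 4 * (c * t) + 4 * c := by ring
    omega
  · have e1 : (t + 1) * (4 * c + 1) = t * (4 * c + 1) + (4 * c + 1) := by ring
    have e4 : w ≤ (t + 2) * (4 * c + 1) := by
      have : (t + 2) * (4 * c + 1) = t * (4 * c + 1) + 2 * (4 * c + 1) := by ring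
      omega
    have e5 : (t + 2) * (4 * c + 1) ≤ 3 * (4 * t + r + 1) * (4 * c + 1) :=
      Nat.mul_le_mul_right _ (by omega)
    have e6 : (H0 + 3 + 12 * (4 * c + 1)) * (4 * t + r + 1) =
      (H0 + 3) * (4 * t + r + 1) + 4 * (3 * (4 * t + r + 1) * (4 * c + 1)) := by ring
    have e7 : (H0 + 3) * 1 ≤ (H0 + 3) * (4 * t + r + 1) := Nat.mul_le_mul_left _ (by omega)
    rw [e6]
    omega

/-- One language for all exponents, at all large lengths. -/
theorem one_of_all' {X : Lang} (H : ∀ e, ∃ L ∈ EO X, ∃ n0, ∀ n ≥ n0, ∀ C : List Gate,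
    (∀ x, x.length = n → cval C x = L x) → n ^ e < C.length) :
    ∃ L ∈ EO X, ∀ e, ∃ n0, ∀ n ≥ n0, ∀ C : List Gate,
      (∀ x, x.length = n → cval C x = L x) → n ^ e < C.length := by
  refine ⟨Hc.UL X, Hc.UL_mem X, fun e => ?_⟩
  obtain ⟨L, hL, n1, h⟩ := H (e + 1)
  obtain ⟨a, c, H0, ha, hU⟩ := UL_eq' hL
  obtain ⟨C0, N0, hs⟩ := split_len c H0
  refine ⟨N0 + C0 * (n1 + (2 * C0) ^ e + 4), fun N hN C hC' => ?_⟩
  obtain ⟨n, j, hNj, hj, hC0⟩ := hs N (by
    have := Nat.zero_le (C0 * (n1 + (2 * C0) ^ e + 4))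
    omega)
  have hn : n1 + (2 * C0) ^ e + 3 ≤ n := by
    by_contra hcon
    push Not at hcon
    rcases Nat.eq_zero_or_pos C0 with h0 | h0
    · subst h0
      simp only [Nat.zero_mul, Nat.le_zero] at hC0
      have hN0 : N = H0 + 4 * j + n := hNj
      have hH : (pr (a j) []).length = H0 + 4 * j := ha j
      rw [pr_length, List.length_nil] at hH
      omega
    · have e1 : C0 * (n + 1) < C0 * (n1 + (2 * C0) ^ e + 4) :=
        Nat.mul_lt_mul_of_pos_left (by omega) h0
      omega
  have hn1 : 1 ≤ n := by omega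
  obtain ⟨C', h1, h2⟩ := Hc.hardwire (pr (a j) []) hn1 C
  have hlen : (pr (a j) []).length + n = N := by rw [ha j]; exact hNj.symm
  have h3 := h n (by omega) C' (fun x hx => by
    rw [h2 x hx, hC' (pr (a j) [] ++ x) (by rw [List.length_append, hx, hlen]),
      ← Hc.pr_append, hU n j hj x hx])
  have h4 : N ≤ 2 * C0 * n := by
    have e1 : C0 * (n + 1) ≤ C0 * (2 * n) := Nat.mul_le_mul_left C0 (by omega)
    have e2 : C0 * (2 * n) = 2 * C0 * n := by ring
    omega
  have h5 : N ^ e ≤ (2 * C0) ^ e * n ^ e := by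
    rw [← mul_pow]
    exact Nat.pow_le_pow_left h4 e
  have h6 : 1 ≤ n ^ e := Nat.one_le_pow _ _ (by omega)
  have h7 : ((2 * C0) ^ e + 3) * n ^ e ≤ n * n ^ e := Nat.mul_le_mul_right _ (by omega)
  rw [pow_succ, mul_comm] at h3
  nlinarith

end Hd

end Pool.Agent.Lib.Pa76659G
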