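import Pool.Agent.Lib.Pa76659G.HdW
import Pool.Agent.Lib.Pa76659G.HdX
import Pool.Agent.Lib.Pa76659G.HdY

set_option autoImplicit false

/-!
If `\hat H_1 = H_1` then some language in `E` has large circuit complexity at all large lengths.
-/

namespace Pool.Agent.Lib.Pa76659G

open Pool.Agent.Lib.Pa76659 PC
open Pool.Agent.Lib.Pa76659H (High RHighSucc TComp)

namespace Hd

/-- Range avoidance: lists with one index, at all lengths. -/
theorem avoid_one {X : Lang} {F : Str → Str} (h : High X 1 ⊆ RHighSucc X 0)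
    (hF : ∀ x, (F x).length = x.length + 1) (hFP : F ∈ FPO X) (k : ℕ) :
    ∃ f ∈ FPO X, ∃ P : Polynomial ℕ, ∀ N : ℕ, ∃ c ≤ P.eval N, ∃ (m : ℕ) (y : Str),
      f (pr (on1 N) (on1 c)) = pr (on1 m) y ∧ y.length = m + 1 ∧
      (∀ x : Str, x.length = m → F x ≠ y) ∧ Hi.Lk k N ≤ m := by
  obtain ⟨f, hf, P, h1⟩ := avoid_lists h hF hFP k
  obtain ⟨f', hf', P', h2⟩ := one_index hf P
  refine ⟨f', hf', P', fun N => ?_⟩
  obtain ⟨a, ha, b, hb, c, hc, d, hd, m, y, h3, h4⟩ := h1 N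
  obtain ⟨e, he, h5⟩ := h2 N a b c d ha hb hc hd
  exact ⟨e, he, m, y, h5.trans h3, h4⟩

/-- Circuit lower bounds at all large lengths. -/
theorem circ_all {X : Lang} (h : High X 1 ⊆ RHighSucc X 0) :
    ∃ L ∈ EO X, ∀ e : ℕ, ∃ n0 : ℕ, ∀ n ≥ n0, ∀ C : List Gate,
      (∀ x : Str, x.length = n → cval C x = L x) → n ^ e < C.length := by
  refine one_of_all' fun e => ?_
  have hx : PolyC (fun _ : Str => X) (fun _ => True) [fun x => x] (fun x => x) :=
    PolyC.var (by simp)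
  obtain ⟨f, hf, P, h1⟩ := avoid_one (F := Hc.Fc) h Hc.Fc_length
    (Uo.FPO_of_polyC (Hc.Fc_poly hx)) (e + 2)
  exact hard_all hf e h1

end Hd

end Pool.Agent.Lib.Pa76659G
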