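import Pool.Agent.Lib.Pa76659G.HdA

set_option autoImplicit false

/-!
Two interleaved step functions: the values `tt g j` with `j` even and with `j` odd. For every `n`
one of the two parities (`par g n`) is such that the previous value is small compared with `n`.
-/

namespace Pool.Agent.Lib.Pa76659G

open Pool.Agent.Lib.Pa76659 PC

namespace He

open Hd (tt tt_lt tt_mono lt_tt)

/-- the next value -/
noncomputable def nx (g : Polynomial ℕ) (x : ℕ) : ℕ := g.eval x + x + 1

/-- the first value with index of the parity `b` (`b = 0` or `b = 1`) -/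
noncomputable def s0 (g : Polynomial ℕ) (b : ℕ) : ℕ := if b = 0 then 1 else nx g 1

/-- the iteration -/
noncomputable def s2i (g : Polynomial ℕ) (b m : ℕ) : ℕ → ℕ
  | 0 => s0 g b
  | i + 1 => if s2i g b m i < m then nx g (nx g (s2i g b m i)) else s2i g b m i

/-- the least value `tt g j ≥ m` with `j` of the parity `b` -/
noncomputable def s2 (g : Polynomial ℕ) (b m : ℕ) : ℕ := s2i g b m m

/-- the parity of the index of the least value `tt g j ≥ m` -/
noncomputable def par (g : Polynomial ℕ) (m : ℕ) : ℕ := if s2 g 0 m ≤ s2 g 1 m then 0 else 1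

/-- the bound -/
noncomputable def SB (g : Polynomial ℕ) : Polynomial ℕ :=
  (g + Polynomial.X + 1).comp (g + Polynomial.X + 1) + Polynomial.C (nx g 1)

/-- `0` or `1` -/
def b01 (b : ℕ) : ℕ := if b = 0 then 0 else 1

theorem nx_mono (g : Polynomial ℕ) {x y : ℕ} (h : x ≤ y) : nx g x ≤ nx g y := by
  have := eval_mono g h
  unfold nx
  omega

theorem nx_eval (g : Polynomial ℕ) (x : ℕ) : (g + Polynomial.X + 1).eval x = nx g x := by
  simp only [Polynomial.eval_add, Polynomial.eval_X, Polynomial.eval_one]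
  rfl

theorem SB_eval (g : Polynomial ℕ) (m : ℕ) : (SB g).eval m = nx g (nx g m) + nx g 1 := by
  unfold SB
  rw [Polynomial.eval_add, Polynomial.eval_comp, Polynomial.eval_C, nx_eval, nx_eval]

theorem s0_tt (g : Polynomial ℕ) (b : ℕ) : s0 g b = tt g (b01 b) := by
  unfold s0 b01
  split_ifs <;> rfl

theorem nx_tt (g : Polynomial ℕ) (j : ℕ) : nx g (tt g j) = tt g (j + 1) := rfl

theorem s2i_tt (g : Polynomial ℕ) (b m : ℕ) : ∀ i, ∃ j, s2i g b m i = tt g (b01 b + 2 * j) ∧
    (j = 0 ∨ ∃ j', j = j' + 1 ∧ tt g (b01 b + 2 * j') < m) ∧ (i ≤ j ∨ m ≤ tt g (b01 b + 2 * j))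
  | 0 => ⟨0, s0_tt g b, Or.inl rfl, Or.inl le_rfl⟩
  | i + 1 => by
    obtain ⟨j, h1, h2, h3⟩ := s2i_tt g b m i
    by_cases h : s2i g b m i < m
    · refine ⟨j + 1, ?_, Or.inr ⟨j, rfl, h1 ▸ h⟩, Or.inl ?_⟩
      · show (if s2i g b m i < m then nx g (nx g (s2i g b m i)) else s2i g b m i) = _
        rw [if_pos h, h1, nx_tt, nx_tt]
        rfl
      · rw [h1] at h
        omega
    · refine ⟨j, ?_, h2, Or.inr ?_⟩
      · show (if s2i g b m i < m then nx g (nx g (s2i g b m i)) else s2i g b m i) = _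
        rw [if_neg h, h1]
      · rw [h1] at h
        omega

theorem s2_tt (g : Polynomial ℕ) (b m : ℕ) : ∃ j, s2 g b m = tt g (b01 b + 2 * j) ∧
    (j = 0 ∨ ∃ j', j = j' + 1 ∧ tt g (b01 b + 2 * j') < m) ∧ m ≤ tt g (b01 b + 2 * j) := by
  obtain ⟨j, h1, h2, h3⟩ := s2i_tt g b m m
  refine ⟨j, h1, h2, ?_⟩
  rcases h3 with h3 | h3
  · have := lt_tt g (b01 b + 2 * j)
    omega
  · exact h3

theorem s2_pos (g : Polynomial ℕ) (b m : ℕ) : 1 ≤ s2 g b m := by
  obtain ⟨j, h1, -, -⟩ := s2_tt g b m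
  rw [h1]
  have := lt_tt g (b01 b + 2 * j)
  omega

theorem s2_ge (g : Polynomial ℕ) (b m : ℕ) : m ≤ s2 g b m := by
  obtain ⟨j, h1, -, h3⟩ := s2_tt g b m
  rw [h1]
  exact h3

theorem s2i_le (g : Polynomial ℕ) (b m i : ℕ) : s2i g b m i ≤ (SB g).eval m := by
  obtain ⟨j, h1, h2, -⟩ := s2i_tt g b m i
  rw [h1, SB_eval]
  rcases h2 with rfl | ⟨j', rfl, h2⟩
  · have h4 : b01 b ≤ 1 := by
      unfold b01
      split_ifs <;> omega
    have h5 : tt g (b01 b + 2 * 0) ≤ tt g 1 := tt_mono g (by omega)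
    have h6 : tt g 1 = nx g 1 := rfl
    omega
  · have h4 : tt g (b01 b + 2 * (j' + 1)) = nx g (nx g (tt g (b01 b + 2 * j'))) := rfl
    have h5 := nx_mono g (nx_mono g h2.le)
    omega

theorem s2_le (g : Polynomial ℕ) (b m : ℕ) : s2 g b m ≤ (SB g).eval m := s2i_le g b m m

theorem par_lt (g : Polynomial ℕ) (m : ℕ) : par g m < 2 := by
  unfold par
  split_ifs <;> omega

theorem tt_lt_of_lt (g : Polynomial ℕ) {i j : ℕ} (h : tt g i < tt g j) : i < j := by
  by_contra h1
  have := tt_mono g (show j ≤ i by omega)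
  omega

theorem tt_le_of_le (g : Polynomial ℕ) {i j : ℕ} (h : tt g i ≤ tt g j) : i ≤ j := by
  by_contra h1
  have h2 := tt_mono g (show j + 1 ≤ i by omega)
  have h3 := tt_lt g j
  omega

/-- the step function with the parity `par g n` has its previous value below `n`, and `g` of the
value before that too -/
theorem s2_key (g : Polynomial ℕ) (n m : ℕ) (h : s2 g (par g n) m < s2 g (par g n) n) :
    g.eval (s2 g (par g n) m) ≤ n := by
  -- the two values of the step functions at `n`
  obtain ⟨j0, a0, b0, c0⟩ := s2_tt g 0 n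
  obtain ⟨j1, a1, b1, c1⟩ := s2_tt g 1 n
  have e0 : b01 0 = 0 := rfl
  have e1 : b01 1 = 1 := rfl
  rw [e0] at a0 b0 c0
  rw [e1] at a1 b1 c1
  have key : ∀ i, tt g (i + 1) < n → g.eval (tt g i) ≤ n := by
    intro i hi
    have : tt g (i + 1) = g.eval (tt g i) + tt g i + 1 := rfl
    omega
  by_cases hp : s2 g 0 n ≤ s2 g 1 n
  · have hpar : par g n = 0 := if_pos hp
    rw [hpar] at h ⊢
    obtain ⟨i, hi, -, -⟩ := s2_tt g 0 m
    rw [e0] at hi
    rw [hi, a0] at h
    rw [hi]
    have h1 := tt_lt_of_lt g h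
    rw [a0, a1] at hp
    have h2 := tt_le_of_le g hp
    rcases b1 with rfl | ⟨j', rfl, h3⟩
    · omega
    · refine key _ (lt_of_le_of_lt (tt_mono g (by omega)) h3)
  · have hpar : par g n = 1 := if_neg hp
    rw [hpar] at h ⊢
    obtain ⟨i, hi, -, -⟩ := s2_tt g 1 m
    rw [e1] at hi
    rw [hi, a1] at h
    rw [hi]
    have h1 := tt_lt_of_lt g h
    rw [a0, a1] at hp
    have h2 := tt_lt_of_lt g (not_le.1 hp)
    rcases b0 with rfl | ⟨j', rfl, h3⟩
    · omega
    · refine key _ (lt_of_le_of_lt (tt_mono g (by omega)) h3)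

section
variable {α : Type*} {orc : α → Lang} {D : α → Prop} {ctx : List (α → Str)}

theorem nx_poly {g : Polynomial ℕ} {f : α → ℕ} (hf : PolyN orc D ctx f) :
    PolyN orc D ctx (fun a => nx g (f a)) :=
  (((hf.poly g).add hf).add (PolyN.const 1))

theorem s2_poly {g : Polynomial ℕ} {b : ℕ} {f : α → ℕ} (hf : PolyN orc D ctx f) :
    PolyN orc D ctx (fun a => s2 g b (f a)) := by
  obtain ⟨pf, hpf⟩ := PolyC.length_le hf
  refine PolyC.natRec (fun a k => una (s2i g b (f a) k)) hf (PolyN.const (s0 g b)) ?_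
    ⟨(SB g).comp pf, fun a ha k _ => ?_⟩
  · have h1 : PolyN (fun p : α × ℕ => orc p.1) (fun p => D p.1 ∧ p.2 < f p.1)
        (PC.lift ctx ++ [fun p => una p.2, fun p => una (s2i g b (f p.1) p.2)])
        (fun p => s2i g b (f p.1) p.2) := PolyC.var (by simp)
    have h2 : PolyN (fun p : α × ℕ => orc p.1) (fun p => D p.1 ∧ p.2 < f p.1)
        (PC.lift ctx ++ [fun p => una p.2, fun p => una (s2i g b (f p.1) p.2)])
        (fun p => f p.1) := (PolyC.lift hf (fun p hp => hp.1)).weakenRight _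
    have h3 := nx_poly (g := g) (nx_poly (g := g) h1)
    refine (PolyC.ite (PolyB.lt h1 h2) (PolyC.mono h3 fun _ h => h.1)
      (PolyC.mono h1 fun _ h => h.1)).congr (fun p _ => ?_)
    show (if decide (s2i g b (f p.1) p.2 < f p.1) = true then _ else _) =
      una (s2i g b (f p.1) (p.2 + 1))
    by_cases h : s2i g b (f p.1) p.2 < f p.1
    · rw [if_pos (decide_eq_true h)]
      show una _ = una (if s2i g b (f p.1) p.2 < f p.1 then _ else _)
      rw [if_pos h]
    · rw [if_neg (by rw [decide_eq_true_eq]; exact h)]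
      show una _ = una (if s2i g b (f p.1) p.2 < f p.1 then _ else _)
      rw [if_neg h]
  · rw [PC.un_length, Polynomial.eval_comp]
    have h2 := hpf a ha
    rw [PC.un_length] at h2
    exact (s2i_le g b (f a) k).trans (eval_mono _ h2)

theorem par_poly {g : Polynomial ℕ} {f : α → ℕ} (hf : PolyN orc D ctx f) :
    PolyN orc D ctx (fun a => par g (f a)) := by
  have h0 := s2_poly (g := g) (b := 0) hf
  have h1 := s2_poly (g := g) (b := 1) hf
  refine (PolyC.ite (PolyB.le h0 h1) (PolyC.mono (PolyN.const 0) fun _ h => h.1)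
    (PolyC.mono (PolyN.const 1) fun _ h => h.1)).congr (fun a _ => ?_)
  show (if decide (s2 g 0 (f a) ≤ s2 g 1 (f a)) = true then una 0 else una 1) = una (par g (f a))
  by_cases h : s2 g 0 (f a) ≤ s2 g 1 (f a)
  · rw [if_pos (decide_eq_true h)]
    unfold par
    rw [if_pos h]
  · rw [if_neg (by rw [decide_eq_true_eq]; exact h)]
    unfold par
    rw [if_neg h]

/-- the step function with variable parity -/
theorem s2_par_poly {g : Polynomial ℕ} {b f : α → ℕ} (hb : PolyN orc D ctx b)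
    (hf : PolyN orc D ctx f) : PolyN orc D ctx (fun a => s2 g (b a) (f a)) := by
  have h0 := s2_poly (g := g) (b := 0) hf
  have h1 := s2_poly (g := g) (b := 1) hf
  refine (PolyC.ite (PolyB.natEq hb (PolyN.const 0)) (PolyC.mono h0 fun _ h => h.1)
    (PolyC.mono h1 fun _ h => h.1)).congr (fun a _ => ?_)
  show (if decide (b a = 0) = true then una (s2 g 0 (f a)) else una (s2 g 1 (f a))) =
    una (s2 g (b a) (f a))
  have key : ∀ (c m i : ℕ), c ≠ 0 → s2i g c m i = s2i g 1 m i := by
    intro c m i hc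
    induction i with
    | zero =>
      show s0 g c = s0 g 1
      unfold s0
      rw [if_neg hc, if_neg one_ne_zero]
    | succ i ih =>
      show (if s2i g c m i < m then nx g (nx g (s2i g c m i)) else s2i g c m i) =
        (if s2i g 1 m i < m then nx g (nx g (s2i g 1 m i)) else s2i g 1 m i)
      rw [ih]
  by_cases h : b a = 0
  · rw [if_pos (decide_eq_true h), h]
  · rw [if_neg (by rw [decide_eq_true_eq]; exact h)]
    unfold s2
    rw [key _ _ _ h]

end

end He

end Pool.Agent.Lib.Pa76659G
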