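import Pool.Agent.Lib.Pa76659G.HeSpec
import Pool.Agent.Lib.Pa76659G.HcB
import Pool.Agent.Lib.Pa76659G.Adv

set_option autoImplicit false

/-!
Sets with hints are in `H_1`.
-/

namespace Pool.Agent.Lib.Pa76659G

open Pool.Agent.Lib.Pa76659 PC
open Pool.Agent.Lib.Pa76659H (High RHighSucc TComp)

namespace He

theorem hint_pr {K I : Lang} {q : Polynomial ℕ} (x y : Str) : hint K I q (pr x y) =
    (K x || (!(decide (y.length = q.eval x.length)) || I (pr (on1 x.length) y))) := by
  classical
  unfold hint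
  rw [Bool.eq_iff_iff, decide_eq_true_eq]
  simp only [Bool.or_eq_true, Bool.not_eq_true', decide_eq_false_iff_not]
  constructor
  · intro h
    by_cases h1 : y.length = q.eval x.length
    · rcases h x y rfl h1 with h2 | h2
      · exact Or.inl h2
      · exact Or.inr (Or.inr h2)
    · exact Or.inr (Or.inl h1)
  · rintro h x' y' he hl
    obtain ⟨rfl, rfl⟩ := pr_inj he
    rcases h with h | h | h
    · exact Or.inl h
    · exact absurd hl h
    · exact Or.inr h

theorem hint_eq {K I : Lang} {q : Polynomial ℕ} (u : Str) : hint K I q u =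
    (!(decide (u = pr (fst u) (snd u))) || (K (fst u) ||
      (!(decide ((snd u).length = q.eval (fst u).length)) ||
        I (pr (on1 (fst u).length) (snd u))))) := by
  classical
  by_cases h : u = pr (fst u) (snd u)
  · rw [decide_eq_true h, Bool.not_true, Bool.false_or]
    conv_lhs => rw [h]
    exact hint_pr _ _
  · rw [decide_eq_false h, Bool.not_false, Bool.true_or]
    unfold hint
    rw [decide_eq_true_eq]
    intro x y he _
    refine absurd ?_ h
    rw [he, fst_pr, snd_pr]

theorem hint_mem {X K I : Lang} {q : Polynomial ℕ} (hK : K ∈ NPO X) (hI : I ∈ NPO X) :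
    hint K I q ∈ NPO X := by
  have hx : PolyC (fun _ : Str => X) (fun _ => True) [fun x => x] (fun x => x) :=
    PolyC.var (by simp)
  have hf := PolyC.fst hx
  have hs := PolyC.snd hx
  have hn := PolyN.length hf
  have h0 := (PolyB.strEq hx (PolyC.pr hf hs)).not
  have h1 : (fun u => K (fst u)) ∈ NPO X := NPO_comp hK hf
  have h4 : (fun u => I (pr (on1 (fst u).length) (snd u))) ∈ NPO X :=
    NPO_comp hI (PolyC.pr (t := fun u : Str => on1 (fst u).length) hn hs)
  have h5 := Hc.NPO_or (Hc.mem_NPO_PO (mem_PO (PolyB.natEq (PolyN.length hs)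
    (hn.poly q)).not)) h4
  have h6 := Hc.NPO_or (Hc.mem_NPO_PO (mem_PO h0)) (Hc.NPO_or h1 h5)
  have e : hint K I q = fun u => (!(decide (u = pr (fst u) (snd u))) || (K (fst u) ||
      (!(decide ((snd u).length = q.eval (fst u).length)) ||
        I (pr (on1 (fst u).length) (snd u))))) := funext fun u => hint_eq u
  rw [e]
  exact h6

/-- the Turing complete sets -/
theorem tc_of {X K : Lang} (hK : K ∈ RHighSucc X 0) : NPO X ⊆ PO (join X K) := by
  intro B hB
  obtain ⟨C, hC, hL⟩ := hK.2 ⟨B, ⟨X, query_mem X, hB⟩, query_mem _⟩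
  exact PO_subset hC hL

theorem of_tc {X K A : Lang} (hK : K ∈ RHighSucc X 0) (hA : A ∈ NPO X)
    (h : K ∈ PO (join X A)) : A ∈ RHighSucc X 0 := by
  refine ⟨hA, fun L hL => ?_⟩
  obtain ⟨C, hC, hL'⟩ := hK.2 hL
  exact ⟨C, PO_subset (PO_join (left_PO X A) h) hC, hL'⟩

theorem hint_high {X K I : Lang} {q : Polynomial ℕ} (hK : K ∈ RHighSucc X 0) (hI : I ∈ NPO X)
    (tot : ∀ m : ℕ, ∃ y : Str, y.length = q.eval m ∧ I (pr (on1 m) y) = false) :
    hint K I q ∈ High X 1 := by
  refine ⟨hint_mem hK.1 hI, ?_⟩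
  rintro L ⟨B, ⟨B0, hB0, hB⟩, hL⟩
  set O := join X (hint K I q) with hO
  have hB' : B ∈ NPO X := NPO_subset hB0 hB
  have hKO : K ∈ NPO O := NPO_subset (left_PO _ _) hK.1
  have hco : (fun z => !(K z)) ∈ NPO O := by
    have hz : PolyC (fun _ : Str × Str => O) (fun _ => True) [fun p => p.1, fun p => p.2]
      (fun p => p.1) := PolyC.var (by simp)
    have hy : PolyC (fun _ : Str × Str => O) (fun _ => True) [fun p => p.1, fun p => p.2]
      (fun p => p.2) := PolyC.var (by simp)
    have h2 := (polyB_of_PO (right_PO X (hint K I q)) (PolyC.pr hz hy)).not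
    refine mem_NPO_le q h2 (fun z => ?_)
    simp only [Bool.not_eq_true']
    constructor
    · intro h3
      obtain ⟨y, hy1, hy2⟩ := tot z.length
      refine ⟨y, hy1.le, ?_⟩
      rw [hint_pr, h3, hy2, decide_eq_true hy1]
      rfl
    · rintro ⟨y, -, h5⟩
      rw [hint_pr, Bool.or_eq_false_iff] at h5
      exact h5.1
  have hlow : K ∈ Low O 1 := low1_iff.2 ⟨hKO, hco⟩
  have hBj : B ∈ PO (join O K) :=
    PO_subset (PO_join (PO_subset (left_PO O K) (left_PO X (hint K I q))) (right_PO O K))
      (tc_of hK hB')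
  exact hlow.2 ⟨join O K, query_mem _, NPO_subset hBj hL⟩

end He

end Pool.Agent.Lib.Pa76659G
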