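import Pool.Agent.Lib.Pa76659G.HeA
import Pool.Agent.Lib.Pa76659G.HeB
import Pool.Agent.Lib.Pa76659G.HdT2

set_option autoImplicit false

/-!
The virtual oracle with short queries.
-/

namespace Pool.Agent.Lib.Pa76659G

open Pool.Agent.Lib.Pa76659 PC
open Pool.Agent.Lib.Pa76659H (High RHighSucc TComp)

namespace He

/-! ### Transfer to oracle families -/

section
variable {α : Type} {orc : α → Lang} {D : α → Prop} {ctx : List (α → Str)}

theorem tr {X : Lang} {F : Str → Str} (hX : ∀ a, D a → ∀ v, orc a (false :: v) = X v)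
    (hF : PolyC (fun _ : Str => X) (fun _ => True) [fun x => x] F) {t : α → Str}
    (ht : PolyC orc D ctx t) : PolyC orc D ctx (fun a => F (t a)) := by
  obtain ⟨M, p, hM⟩ := Uo.FPO_of_polyC hF
  obtain ⟨ps, hps⟩ := ht.length_le
  have h1 := PolyC.runT (orc := orc) (D := D) (ctx := ctx) M (M.bnd + 1) (by omega)
    (fun _ _ => X) (fun a => inp2 (t a) []) (fun a => p.eval (t a).length)
    ((PolyC.query (PolyC.cons false (PolyC.var (f := fun z : (α × ℕ) × Str => z.2)
      (by simp)))).congr (fun z hz => by rw [hX _ hz.1])) (by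
      intro r _
      rcases r with _ | _ | r
      · exact ht.congr (fun a _ => by simp [inp2])
      · exact PolyC.nil.congr (fun a _ => by simp [inp2])
      · exact PolyC.nil.congr (fun a _ => by simp [inp2])) ((PolyN.length ht).poly p)
    ⟨ps, fun a ha => by
      refine (Pa76659.inp2_bdd (t a) []).mono ?_
      have := hps a ha
      simpa using this⟩
  refine (PolyC.nth (PolyC.snd h1) (PolyN.const 0)).congr (fun a _ => ?_)
  rw [enc_reg _ _ _ (by omega), runT_const, ← inp_eq]
  exact (hM (t a)).2

theorem trB {X : Lang} {F : Str → Bool} (hX : ∀ a, D a → ∀ v, orc a (false :: v) = X v)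
    (hF : PolyB (fun _ : Str => X) (fun _ => True) [fun x => x] F) {t : α → Str}
    (ht : PolyC orc D ctx t) : PolyB orc D ctx (fun a => F (t a)) := tr hX hF ht

theorem trV {X : Lang} {V : Str × Str → Bool} (hX : ∀ a, D a → ∀ v, orc a (false :: v) = X v)
    (hV : PolyB (fun _ : Str × Str => X) (fun _ => True) [fun p => p.1, fun p => p.2] V)
    {s t : α → Str} (hs : PolyC orc D ctx s) (ht : PolyC orc D ctx t) :
    PolyB orc D ctx (fun a => V (s a, t a)) := by
  have hx : PolyC (fun _ : Str => X) (fun _ => True) [fun x => x] (fun x => x) :=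
    PolyC.var (by simp)
  have h1 : PolyB (fun _ : Str => X) (fun _ => True) [fun x => x] (fun x => V (fst x, snd x)) :=
    PolyB.arg2 hV (PolyC.fst hx) (PolyC.snd hx)
  exact (trB hX h1 (PolyC.pr hs ht)).congr (fun a _ => by rw [fst_pr, snd_pr])

end

/-! ### The virtual oracle -/

section
variable (X K : Lang) (q Q g pI : Polynomial ℕ) (b k : ℕ) (MI : Prog)

/-- the length and the hint -/
noncomputable def kk (u : Str) : Str :=
  pr (on1 (s2 g b (fst u).length)) ((snd u).take (q.eval (s2 g b (fst u).length)))

/-- the virtual oracle -/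
noncomputable def vo (n : ℕ) : Lang
  | [] => false
  | false :: u => X u
  | true :: u => !(decide (u = pr (fst u) (snd u))) ||
    (!(decide ((snd u).length = Q.eval (fst u).length)) ||
      (decide (s2 g b n ≤ s2 g b (fst u).length) || (short k n K (fst u) ||
        accepts (join X (short k n K)) MI (inp2 (kk q g b u) []) (pI.eval (kk q g b u).length))))

/-- the query shows a hint -/
def Show (I : Lang) (n : ℕ) (u : Str) : Prop :=
  s2 g b n ≤ s2 g b (fst u).length ∧ I (kk q g b u) = false

end

theorem kk_pr (q g : Polynomial ℕ) (b : ℕ) (u : Str) :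
    kk q g b (pr (on1 (fst u).length) (snd u)) = kk q g b u := by
  unfold kk
  rw [fst_pr, snd_pr, Hd.on1l]

theorem short_run {X K : Lang} {k n : ℕ} {M : Prog} {x : Str} {N : ℕ}
    (h : (x.length + N) ^ k ≤ n) :
    runN (join X (short k n K)) N ([M], inp2 x []) = runN (join X K) N ([M], inp2 x []) := by
  symm
  refine Hi.run_eq (fun t ht v hv => ?_)
  have h4 := qry_bdd (Pa76659.runN_bdd (join X K) t (x.length + ([] : Str).length)
      ([M], inp2 x []) (Pa76659.inp2_bdd x [])) hv
  rw [List.length_nil] at h4
  rcases v with _ | ⟨c, v⟩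
  · rfl
  cases c
  · rfl
  · show K v = short k n K v
    unfold short
    have h5 : v.length ^ k ≤ (x.length + N) ^ k := by
      refine Nat.pow_le_pow_left ?_ k
      rw [List.length_cons] at h4
      omega
    rw [decide_eq_true (h5.trans h), Bool.true_and]

section
variable {X K I : Lang} {q Q g pI : Polynomial ℕ} {b k n : ℕ} {MI : Prog}

theorem vo_or (hI : ∀ x : Str, I x = accepts (join X K) MI (inp x) (pI.eval x.length))
    (hg : ∀ l, l ^ k ≤ g.eval l ∧ ((2 * l + 1 + q.eval l) + pI.eval (2 * l + 1 + q.eval l)) ^ k ≤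
      g.eval l) (hb : par g n = b) {v : Str}
    (h : vo X K q Q g pI b k MI n v ≠ join X (hint K (fun w => I (kk q g b w)) Q) v) :
    ∃ u, v = true :: u ∧ Show q g b I n u := by
  rcases v with _ | ⟨c, u⟩
  · exact absurd rfl h
  cases c
  · exact absurd rfl h
  refine ⟨u, rfl, ?_⟩
  change (!(decide (u = pr (fst u) (snd u))) ||
    (!(decide ((snd u).length = Q.eval (fst u).length)) ||
      (decide (s2 g b n ≤ s2 g b (fst u).length) || (short k n K (fst u) ||
        accepts (join X (short k n K)) MI (inp2 (kk q g b u) []) (pI.eval (kk q g b u).length)))))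
    ≠ hint K (fun w => I (kk q g b w)) Q u at h
  rw [hint_eq, kk_pr] at h
  unfold Show
  by_cases h1 : u = pr (fst u) (snd u)
  swap
  · rw [decide_eq_false h1, Bool.not_false, Bool.true_or, Bool.true_or] at h
    exact absurd rfl h
  rw [decide_eq_true h1, Bool.not_true, Bool.false_or, Bool.false_or] at h
  by_cases h2 : (snd u).length = Q.eval (fst u).length
  swap
  · rw [decide_eq_false h2, Bool.not_false, Bool.true_or, Bool.true_or, Bool.or_true] at h
    exact absurd rfl h
  rw [decide_eq_true h2, Bool.not_true, Bool.false_or, Bool.false_or] at h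
  by_cases h3 : s2 g b n ≤ s2 g b (fst u).length
  · rw [decide_eq_true h3, Bool.true_or] at h
    refine ⟨h3, ?_⟩
    have h4 : (K (fst u) || I (kk q g b u)) = false := by
      cases h5 : (K (fst u) || I (kk q g b u))
      · rfl
      · exact absurd h5.symm h
    rw [Bool.or_eq_false_iff] at h4
    exact h4.2
  · exfalso
    rw [decide_eq_false h3, Bool.false_or] at h
    push Not at h3
    refine h ?_
    obtain ⟨l, hl⟩ : ∃ l, l = s2 g b (fst u).length := ⟨_, rfl⟩
    have hml : (fst u).length ≤ l := hl ▸ s2_ge g b _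
    have hgl : g.eval l ≤ n := by
      subst hb
      rw [hl]
      exact s2_key _ _ _ h3
    obtain ⟨hg1, hg2⟩ := hg l
    have e1 : short k n K (fst u) = K (fst u) := by
      unfold short
      rw [decide_eq_true, Bool.true_and]
      exact (Nat.pow_le_pow_left hml k).trans (hg1.trans hgl)
    have hkl : (kk q g b u).length ≤ 2 * l + 1 + q.eval l := by
      unfold kk
      rw [pr_length, Hd.on1l, ← hl, List.length_take]
      omega
    have e2 : accepts (join X (short k n K)) MI (inp2 (kk q g b u) [])
        (pI.eval (kk q g b u).length) = I (kk q g b u) := by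
      rw [hI, inp_eq, accepts, accepts, short_run]
      refine le_trans (Nat.pow_le_pow_left ?_ k) (hg2.trans hgl)
      have := eval_mono pI hkl
      omega
    rw [e1, e2]

/-- the fallible decider -/
noncomputable def Dv (X K : Lang) (q Q g pI : Polynomial ℕ) (b k : ℕ) (MI : Prog) (M : Prog)
    (p : Polynomial ℕ) (n : ℕ) (z : Str) : Bool :=
  accepts (vo X K q Q g pI b k MI n) M (inp2 z []) (p.eval z.length)

/-- the query at time `t` -/
noncomputable def qv (X K : Lang) (q Q g pI : Polynomial ℕ) (b k : ℕ) (MI : Prog) (M : Prog)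
    (n : ℕ) (z : Str) (t : ℕ) : Str :=
  (oc (qry (runN (vo X K q Q g pI b k MI n) t ([M], inp2 z [])))).tail.tail

theorem Dv_or (hI : ∀ x : Str, I x = accepts (join X K) MI (inp x) (pI.eval x.length))
    (hg : ∀ l, l ^ k ≤ g.eval l ∧ ((2 * l + 1 + q.eval l) + pI.eval (2 * l + 1 + q.eval l)) ^ k ≤
      g.eval l) (hb : par g n = b) {M : Prog} {p : Polynomial ℕ} {L : Lang}
    (hM : ∀ x : Str, L x =
      accepts (join X (hint K (fun w => I (kk q g b w)) Q)) M (inp x) (p.eval x.length)) {z : Str}
    (h : Dv X K q Q g pI b k MI M p n z ≠ L z) :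
    ∃ t < p.eval z.length, Show q g b I n (qv X K q Q g pI b k MI M n z t) := by
  by_contra hcon
  push Not at hcon
  refine h ?_
  have h2 : runN (vo X K q Q g pI b k MI n) (p.eval z.length) ([M], inp2 z []) =
      runN (join X (hint K (fun w => I (kk q g b w)) Q)) (p.eval z.length) ([M], inp2 z []) := by
    refine Hi.run_eq (fun t ht v hv => ?_)
    by_contra h3
    obtain ⟨u, hu, hs⟩ := vo_or hI hg hb h3
    refine hcon t ht ?_
    unfold qv
    rw [hv, hu]
    exact hs
  unfold Dv
  rw [hM z, inp_eq, accepts, accepts, h2]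

end

end He

end Pool.Agent.Lib.Pa76659G
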