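import Pool.Agent.Lib.Pa76659G.HeC

set_option autoImplicit false

/-!
The search with the fallible decider and the union of the hints which are shown.
-/

namespace Pool.Agent.Lib.Pa76659G

open Pool.Agent.Lib.Pa76659 PC
open Pool.Agent.Lib.Pa76659H (High RHighSucc TComp)

namespace He

open Hc (Pf srch srch_length srch_or)
open Hd (Og II)

section
variable (X K : Lang) (q Q g pI : Polynomial ℕ) (b k : ℕ) (MI M : Prog) (p : Polynomial ℕ)
  (V : Str × Str → Bool) (s : Polynomial ℕ) (red : Str → Str)

/-- the search by prefixes with the fallible decider -/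
noncomputable def sr (n : ℕ) (v : Str) (i : ℕ) : Str :=
  srch (fun z => Dv X K q Q g pI b k MI M p n (red (pr v z))) i

/-- the calls of the decider -/
noncomputable def cl (n : ℕ) (v : Str) (i : ℕ) : Str :=
  red (pr v (sr X K q Q g pI b k MI M p red n v i ++ [true]))

open Classical in
/-- some hint shown by the call `i` contains a witness -/
noncomputable def ON1 (n : ℕ) (v : Str) (i : ℕ) : Bool :=
  decide (∃ t < p.eval (cl X K q Q g pI b k MI M p red n v i).length,
    Og V s (snd (kk q g b (qv X K q Q g pI b k MI M n (cl X K q Q g pI b k MI M p red n v i) t)))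
      v = true)

open Classical in
/-- the union oracle -/
noncomputable def ON (n : ℕ) : Lang := fun v =>
  V (v, sr X K q Q g pI b k MI M p red n v (s.eval v.length)) ||
    decide (∃ i < s.eval v.length, ON1 X K q Q g pI b k MI M p V s red n v i = true)

end

section
variable {X K B : Lang} {q Q g pI : Polynomial ℕ} {b k n : ℕ} {MI M : Prog} {p : Polynomial ℕ}
  {V : Str × Str → Bool} {s : Polynomial ℕ} {red : Str → Str}

theorem sr_length (v : Str) (i : ℕ) : (sr X K q Q g pI b k MI M p red n v i).length = i :=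
  srch_length _ _

theorem level (hred : ∀ w, Unv.KU X (red w) = Pf V s w) (v : Str)
    (h0 : ∃ y : Str, y.length = s.eval v.length ∧ V (v, y) = true) :
    V (v, sr X K q Q g pI b k MI M p red n v (s.eval v.length)) = true ∨
      ∃ i < s.eval v.length, Dv X K q Q g pI b k MI M p n (cl X K q Q g pI b k MI M p red n v i) ≠
        Unv.KU X (cl X K q Q g pI b k MI M p red n v i) := by
  classical
  rcases srch_or (P := fun y => V (v, y) = true)
    (fun z => Dv X K q Q g pI b k MI M p n (red (pr v z))) h0 with h | ⟨i, hi, h⟩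
  · exact Or.inl h
  · refine Or.inr ⟨i, hi, fun he => h ?_⟩
    unfold cl sr at he
    rw [he, hred]
    unfold Pf
    rw [decide_eq_true_eq, fst_pr, snd_pr]

theorem ON_sound (hB : ∀ x, B x = true ↔ ∃ y : Str, y.length = s.eval x.length ∧ V (x, y) = true)
    {v : Str} (h : ON X K q Q g pI b k MI M p V s red n v = true) : B v = true := by
  classical
  unfold ON at h
  rw [Bool.or_eq_true, decide_eq_true_eq] at h
  rcases h with h | ⟨i, -, h⟩
  · exact (hB v).2 ⟨_, sr_length _ _, h⟩
  · unfold ON1 at h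
    rw [decide_eq_true_eq] at h
    obtain ⟨t, -, h⟩ := h
    exact Hd.Og_sound hB h

theorem ON_complete
    (hB : ∀ x, B x = true ↔ ∃ y : Str, y.length = s.eval x.length ∧ V (x, y) = true)
    (hred : ∀ w, Unv.KU X (red w) = Pf V s w) {pg : Polynomial ℕ} {Mg : Prog}
    (hI : ∀ x : Str, II V s pg Mg x = accepts (join X K) MI (inp x) (pI.eval x.length))
    (hg : ∀ l, l ^ k ≤ g.eval l ∧ ((2 * l + 1 + q.eval l) + pI.eval (2 * l + 1 + q.eval l)) ^ k ≤
      g.eval l) (hb : par g n = b)
    (hM : ∀ x : Str, Unv.KU X x =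
      accepts (join X (hint K (fun w => II V s pg Mg (kk q g b w)) Q)) M (inp x) (p.eval x.length))
    {t : ℕ} (ht : t < pg.eval n) {v : Str}
    (hv : qry (runN B t ([Mg], inp2 (on1 n) [])) = some v) (hBv : B v = true) :
    ON X K q Q g pI b k MI M p V s red n v = true := by
  classical
  unfold ON
  rw [Bool.or_eq_true, decide_eq_true_eq]
  rcases level (X := X) (K := K) (q := q) (Q := Q) (g := g) (pI := pI) (b := b) (k := k) (MI := MI)
    (M := M) (p := p) (n := n) hred v ((hB v).1 hBv) with h | ⟨i, hi, h⟩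
  · exact Or.inl h
  · refine Or.inr ⟨i, hi, ?_⟩
    obtain ⟨t', ht', hs1, hs2⟩ := Dv_or hI hg hb hM h
    unfold ON1
    rw [decide_eq_true_eq]
    refine ⟨t', ht', ?_⟩
    unfold kk at hs2 ⊢
    rw [snd_pr]
    exact (Hd.II_iff hB).1 hs2 n ((s2_ge g b n).trans hs1) t ht v hv hBv

/-- the run with the union oracle is the true run -/
theorem ON_run
    (hB : ∀ x, B x = true ↔ ∃ y : Str, y.length = s.eval x.length ∧ V (x, y) = true)
    (hred : ∀ w, Unv.KU X (red w) = Pf V s w) {pg : Polynomial ℕ} {Mg : Prog}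
    (hI : ∀ x : Str, II V s pg Mg x = accepts (join X K) MI (inp x) (pI.eval x.length))
    (hg : ∀ l, l ^ k ≤ g.eval l ∧ ((2 * l + 1 + q.eval l) + pI.eval (2 * l + 1 + q.eval l)) ^ k ≤
      g.eval l) (hb : par g n = b)
    (hM : ∀ x : Str, Unv.KU X x =
      accepts (join X (hint K (fun w => II V s pg Mg (kk q g b w)) Q)) M (inp x)
        (p.eval x.length)) :
    runN (ON X K q Q g pI b k MI M p V s red n) (pg.eval n) ([Mg], inp2 (on1 n) []) =
      runN B (pg.eval n) ([Mg], inp2 (on1 n) []) := by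
  symm
  refine Hi.run_eq (fun t ht v hv => ?_)
  cases hb' : B v
  · cases ho : ON X K q Q g pI b k MI M p V s red n v
    · rfl
    · rw [ON_sound hB ho] at hb'
      exact absurd hb' (by simp)
  · exact (ON_complete hB hred hI hg hb hM ht hv hb').symm

end

/-! ### Computability -/

section
variable {α : Type} {orc : α → Lang} {D : α → Prop} {ctx : List (α → Str)} {X K : Lang}
  {q Q g pI : Polynomial ℕ} {b k : ℕ} {MI M : Prog} {p : Polynomial ℕ}
  {V : Str × Str → Bool} {s : Polynomial ℕ} {red : Str → Str} {n : α → ℕ}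

theorem hX_of (h : ∀ a, D a → orc a = join X (short k (n a) K)) :
    ∀ a, D a → ∀ v, orc a (false :: v) = X v := fun a ha v => by rw [h a ha]; rfl

theorem kk_poly {u : α → Str} (hu : PolyC orc D ctx u) :
    PolyC orc D ctx (fun a => kk q g b (u a)) := by
  have hl := s2_poly (g := g) (b := b) (PolyN.length (PolyC.fst hu))
  exact PolyC.pr (t := fun a => on1 (s2 g b (fst (u a)).length)) hl
    (PolyC.take (PolyC.snd hu) (hl.poly q))

theorem vo_poly (h : ∀ a, D a → orc a = join X (short k (n a) K))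
    (hn : PolyN orc D ctx n) {v : α → Str} (hv : PolyC orc D ctx v) :
    PolyB orc D ctx (fun a => vo X K q Q g pI b k MI (n a) (v a)) := by
  classical
  have hu := hv.tail
  have hf := PolyC.fst hu
  have hs := PolyC.snd hu
  have h0 := (PolyB.strEq hu (PolyC.pr hf hs)).not
  have h1 := (PolyB.natEq (PolyN.length hs) ((PolyN.length hf).poly Q)).not
  have h2 := PolyB.le (s2_poly (g := g) (b := b) hn) (s2_poly (g := g) (b := b) (PolyN.length hf))
  have h3 : PolyB orc D ctx (fun a => short k (n a) K (fst (v a).tail)) :=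
    (PolyC.query (PolyC.cons true hf)).congr (fun a ha => by rw [h a ha]; rfl)
  have hkk := kk_poly (q := q) (g := g) (b := b) hu
  have h4 : PolyB orc D ctx (fun a => accepts (join X (short k (n a) K)) MI
      (inp2 (kk q g b (v a).tail) []) (pI.eval (kk q g b (v a).tail).length)) := by
    refine PolyB.accepts MI (fun a => join X (short k (n a) K)) (fun a => kk q g b (v a).tail)
      (fun _ => []) (fun a => pI.eval (kk q g b (v a).tail).length) ?_ hkk PolyC.nil
      ((PolyN.length hkk).poly pI)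
    exact (PolyC.query (PolyC.var (f := fun z : α × Str => z.2) (by simp))).congr
      (fun z hz => by rw [h _ hz])
  have h9 := h0.or (h1.or (h2.or (h3.or h4)))
  have h10 : PolyB orc D ctx (fun a => X (v a).tail) :=
    (PolyC.query (PolyC.cons false hu)).congr (fun a ha => by rw [h a ha]; rfl)
  refine PolyC.congr (PolyC.cases hv (u0 := fun _ => [false]) (u1 := fun a => [X (v a).tail])
    (PolyC.const _) (PolyC.mono h10 fun _ h => h.1) (PolyC.mono h9 fun _ h => h.1)) ?_
  intro a _
  show _ = [vo X K q Q g pI b k MI (n a) (v a)]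
  rcases hv' : v a with _ | ⟨c, u⟩
  · rfl
  · cases c
    · rfl
    · beta_reduce
      rw [hv']
      rfl

theorem Dv_poly (h : ∀ a, D a → orc a = join X (short k (n a) K))
    (hn : PolyN orc D ctx n) {z : α → Str} (hz : PolyC orc D ctx z) :
    PolyB orc D ctx (fun a => Dv X K q Q g pI b k MI M p (n a) (z a)) := by
  refine PolyB.accepts M (fun a => vo X K q Q g pI b k MI (n a)) z (fun _ => [])
      (fun a => p.eval (z a).length) ?_ hz PolyC.nil ((PolyN.length hz).poly p)
  exact vo_poly (n := fun z : α × Str => n z.1) (v := fun z => z.2) (fun z hz => h _ hz)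
      ((PolyC.lift hn (fun z hz => hz)).weakenRight _) (PolyC.var (by simp))

theorem cfg_poly (h : ∀ a, D a → orc a = join X (short k (n a) K))
    (hn : PolyN orc D ctx n) {m : α → ℕ} {x : α → Str} (hm : PolyN orc D ctx m)
    (hx : PolyC orc D ctx x) :
    PolyC orc D ctx (fun a => PC.enc M (M.bnd + 1)
      (runN (vo X K q Q g pI b k MI (n a)) (m a) ([M], inp2 (x a) []))) := by
  obtain ⟨ps, hps⟩ := hx.length_le
  refine (PolyC.runT (orc := orc) (D := D) (ctx := ctx) M (M.bnd + 1) (by omega)
    (fun a _ => vo X K q Q g pI b k MI (n a)) (fun a => inp2 (x a) []) m ?_ ?_ hm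
    ⟨ps, ?_⟩).congr (fun a _ => by rw [runT_const])
  · refine vo_poly (n := fun p : (α × ℕ) × Str => n p.1.1) (v := fun p => p.2)
      (fun z hz => h _ hz.1) ?_ (PolyC.var (by simp))
    exact (PolyC.lift ((PolyC.lift hn (D' := fun p : α × ℕ => D p.1 ∧ p.2 < m p.1)
        (fun p hp => hp.1)).weakenRight _)
        (D' := fun p : (α × ℕ) × Str => D p.1.1 ∧ p.1.2 < m p.1.1) (fun p hp => hp)).weakenRight _
  · intro r _
    rcases r with _ | _ | r
    · exact hx.congr (fun a _ => by simp [inp2])
    · exact PolyC.nil.congr (fun a _ => by simp [inp2])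
    · exact PolyC.nil.congr (fun a _ => by simp [inp2])
  · intro a ha
    refine (Pa76659.inp2_bdd (x a) []).mono ?_
    have h2 := hps a ha
    simpa using h2

theorem qv_poly (h : ∀ a, D a → orc a = join X (short k (n a) K))
    (hn : PolyN orc D ctx n) {t : α → ℕ} {z : α → Str} (hz : PolyC orc D ctx z)
    (ht : PolyN orc D ctx t) :
    PolyC orc D ctx (fun a => qv X K q Q g pI b k MI M (n a) (z a) (t a)) := by
  refine PolyC.tail (PolyC.tail (PolyC.qry' M
    (fun a : α => runN (vo X K q Q g pI b k MI (n a)) (t a) ([M], inp2 (z a) []))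
      (cfg_poly h hn ht hz) (fun a _ => ?_)))
  have h := runT_KK (M := M) (fun _ => vo X K q Q g pI b k MI (n a)) (inp2 (z a) []) (t a)
  rwa [runT_const] at h

theorem sr_poly (h : ∀ a, D a → orc a = join X (short k (n a) K))
    (hr : PolyC (fun _ : Str => X) (fun _ => True) [fun x => x] red)
    (hn : PolyN orc D ctx n) {i : α → ℕ} {v : α → Str} (hv : PolyC orc D ctx v)
    (hi : PolyN orc D ctx i) :
    PolyC orc D ctx (fun a => sr X K q Q g pI b k MI M p red (n a) (v a) (i a)) := by
  obtain ⟨pi, hpi⟩ := PolyC.length_le hi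
  refine PolyC.natRec (fun a j => sr X K q Q g pI b k MI M p red (n a) (v a) j) hi PolyC.nil ?_
    ⟨pi, fun a ha j hj => ?_⟩
  · set ctx' : List (α × ℕ → Str) := PC.lift ctx ++ [fun z => una z.2,
      fun z => sr X K q Q g pI b k MI M p red (n z.1) (v z.1) z.2] with hctx'
    have hF : PolyC (fun z : α × ℕ => orc z.1) (fun z => D z.1 ∧ z.2 < i z.1) ctx'
      (fun z => sr X K q Q g pI b k MI M p red (n z.1) (v z.1) z.2) :=
      PolyC.var (by simp [hctx'])
    have hn' : PolyN (fun z : α × ℕ => orc z.1) (fun z => D z.1 ∧ z.2 < i z.1) ctx'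
      (fun z => n z.1) := (PolyC.lift hn (fun z hz => hz.1)).weakenRight _
    have hv' : PolyC (fun z : α × ℕ => orc z.1) (fun z => D z.1 ∧ z.2 < i z.1) ctx'
      (fun z => v z.1) := (PolyC.lift hv (fun z hz => hz.1)).weakenRight _
    have h' : ∀ z : α × ℕ, D z.1 ∧ z.2 < i z.1 → orc z.1 = join X (short k (n z.1) K) :=
      fun z hz => h _ hz.1
    have h1 := tr (hX_of h') hr (PolyC.pr hv' (hF.append (PolyC.const [true])))
    have h2 := Dv_poly (q := q) (Q := Q) (g := g) (pI := pI) (b := b) (MI := MI) (M := M) (p := p)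
      h' hn' h1
    have h3 : PolyC (fun z : α × ℕ => orc z.1) (fun z => D z.1 ∧ z.2 < i z.1) ctx'
      (fun z => [Dv X K q Q g pI b k MI M p (n z.1) (red (pr (v z.1)
        (sr X K q Q g pI b k MI M p red (n z.1) (v z.1) z.2 ++ [true])))]) := h2
    exact (hF.append h3).congr (fun z _ => rfl)
  · rw [sr_length]
    have h2 := hpi a ha
    rw [PC.un_length] at h2
    omega

theorem cl_poly (h : ∀ a, D a → orc a = join X (short k (n a) K))
    (hr : PolyC (fun _ : Str => X) (fun _ => True) [fun x => x] red)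
    (hn : PolyN orc D ctx n) {i : α → ℕ} {v : α → Str} (hv : PolyC orc D ctx v)
    (hi : PolyN orc D ctx i) :
    PolyC orc D ctx (fun a => cl X K q Q g pI b k MI M p red (n a) (v a) (i a)) :=
  tr (hX_of h) hr (PolyC.pr hv ((sr_poly h hr hn hv hi).append (PolyC.const [true])))

theorem OgV_poly (hX : ∀ a, D a → ∀ v, orc a (false :: v) = X v)
    (hV : PolyB (fun _ : Str × Str => X) (fun _ => True) [fun p => p.1, fun p => p.2] V)
    {y v : α → Str} (hy : PolyC orc D ctx y) (hv : PolyC orc D ctx v) :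
    PolyB orc D ctx (fun a => Og V s (y a) (v a)) := by
  have hx : PolyC (fun _ : Str => X) (fun _ => True) [fun x => x] (fun x => x) :=
    PolyC.var (by simp)
  exact (trB hX (Hd.Og_poly (s := s) hV (PolyC.fst hx) (PolyC.snd hx)) (PolyC.pr hy hv)).congr
    (fun a _ => by rw [fst_pr, snd_pr])

theorem ON_poly (h : ∀ a, D a → orc a = join X (short k (n a) K))
    (hV : PolyB (fun _ : Str × Str => X) (fun _ => True) [fun p => p.1, fun p => p.2] V)
    (hr : PolyC (fun _ : Str => X) (fun _ => True) [fun x => x] red)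
    (hn : PolyN orc D ctx n) {v : α → Str} (hv : PolyC orc D ctx v) :
    PolyB orc D ctx (fun a => ON X K q Q g pI b k MI M p V s red (n a) (v a)) := by
  classical
  have hl := (PolyN.length hv).poly s
  have h1 := trV (hX_of h) hV hv (sr_poly (q := q) (Q := Q) (g := g) (pI := pI) (b := b) (MI := MI)
    (M := M) (p := p) h hr hn hv hl)
  refine h1.or (PolyB.exists_lt (φ := fun z : α × ℕ =>
    ON1 X K q Q g pI b k MI M p V s red (n z.1) (v z.1) z.2) hl ?_)
  set D1 : α × ℕ → Prop := fun z => D z.1 ∧ z.2 < s.eval (v z.1).length with hD1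
  have h' : ∀ z : α × ℕ, D1 z → orc z.1 = join X (short k (n z.1) K) := fun z hz => h _ hz.1
  have hn1 : PolyN (fun z : α × ℕ => orc z.1) D1 (PC.lift ctx ++ [fun z => una z.2])
      (fun z => n z.1) := (PolyC.lift hn (fun z hz => hz.1)).weakenRight _
  have hv1 : PolyC (fun z : α × ℕ => orc z.1) D1 (PC.lift ctx ++ [fun z => una z.2])
      (fun z => v z.1) := (PolyC.lift hv (fun z hz => hz.1)).weakenRight _
  have hi1 : PolyN (fun z : α × ℕ => orc z.1) D1 (PC.lift ctx ++ [fun z => una z.2])
      (fun z => z.2) := PolyC.var (by simp)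
  have hc1 := cl_poly (q := q) (Q := Q) (g := g) (pI := pI) (b := b) (MI := MI)
    (M := M) (p := p) h' hr hn1 hv1 hi1
  refine PolyB.exists_lt (φ := fun w : (α × ℕ) × ℕ => Og V s (snd (kk q g b
    (qv X K q Q g pI b k MI M (n w.1.1) (cl X K q Q g pI b k MI M p red (n w.1.1) (v w.1.1) w.1.2)
      w.2))) (v w.1.1)) ((PolyN.length hc1).poly p) ?_
  set D2 : (α × ℕ) × ℕ → Prop := fun w => D1 w.1 ∧
    w.2 < p.eval (cl X K q Q g pI b k MI M p red (n w.1.1) (v w.1.1) w.1.2).length with hD2
  have h'' : ∀ w : (α × ℕ) × ℕ, D2 w → orc w.1.1 = join X (short k (n w.1.1) K) :=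
    fun w hw => h' _ hw.1
  have hn2 : PolyN (fun w : (α × ℕ) × ℕ => orc w.1.1) D2
      (PC.lift (PC.lift ctx ++ [fun z => una z.2]) ++ [fun w => una w.2])
      (fun w => n w.1.1) := (PolyC.lift hn1 (fun w hw => hw.1)).weakenRight _
  have hv2 : PolyC (fun w : (α × ℕ) × ℕ => orc w.1.1) D2
      (PC.lift (PC.lift ctx ++ [fun z => una z.2]) ++ [fun w => una w.2])
      (fun w => v w.1.1) := (PolyC.lift hv1 (fun w hw => hw.1)).weakenRight _
  have hc2 : PolyC (fun w : (α × ℕ) × ℕ => orc w.1.1) D2
      (PC.lift (PC.lift ctx ++ [fun z => una z.2]) ++ [fun w => una w.2])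
      (fun w => cl X K q Q g pI b k MI M p red (n w.1.1) (v w.1.1) w.1.2) :=
    (PolyC.lift hc1 (fun w hw => hw.1)).weakenRight _
  have ht2 : PolyN (fun w : (α × ℕ) × ℕ => orc w.1.1) D2
      (PC.lift (PC.lift ctx ++ [fun z => una z.2]) ++ [fun w => una w.2])
      (fun w => w.2) := PolyC.var (by simp)
  exact OgV_poly (hX_of h'') hV (PolyC.snd (kk_poly (qv_poly h'' hn2 hc2 ht2))) hv2

end

end He

end Pool.Agent.Lib.Pa76659G
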