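import Pool.Agent.Lib.Pa76659G.HeC
import Pool.Agent.Lib.Pa76659G.HdX

set_option autoImplicit false

/-!
Complete lists of witnesses are computed in `FP^NP`.
-/

namespace Pool.Agent.Lib.Pa76659G

open Pool.Agent.Lib.Pa76659 PC
open Pool.Agent.Lib.Pa76659H (High RHighSucc TComp)

namespace He

open Hd (Og II QQ)

section
variable (B : Lang) (V : Str × Str → Bool) (s p : Polynomial ℕ) (M : Prog)

/-- the query of the true run -/
noncomputable def uu (l t : ℕ) : Str :=
  (oc (qry (runN B t ([M], inp2 (on1 l) [])))).tail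

/-- its largest witness -/
noncomputable def ww (l t : ℕ) : Str := gr V s (uu B M l t) (s.eval (uu B M l t).length)

/-- the list of witnesses -/
noncomputable def LL (T : ℕ) : ℕ → List Str
  | 0 => []
  | j + 1 => ww B V s M (j / T) (j % T) :: LL T j

/-- the hint -/
noncomputable def hf (x : Str) : Str :=
  lenc (LL B V s M (p.eval x.length + 1) ((x.length + 1) * (p.eval x.length + 1))) ++
    una ((QQ s p).eval x.length -
      (lenc (LL B V s M (p.eval x.length + 1) ((x.length + 1) * (p.eval x.length + 1)))).length)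

end

section
variable {X B : Lang} {V : Str × Str → Bool} {s p : Polynomial ℕ} {M : Prog}

theorem LL_length (T : ℕ) : ∀ j, (LL B V s M T j).length = j
  | 0 => rfl
  | j + 1 => by rw [LL, List.length_cons, LL_length T j]

theorem LL_getD (T : ℕ) : ∀ j i, i < j → (LL B V s M T j).getD (j - 1 - i) [] =
    ww B V s M (i / T) (i % T)
  | 0, _, h => absurd h (Nat.not_lt_zero _)
  | j + 1, i, h => by
    rw [LL]
    by_cases hi : i = j
    · subst hi
      rw [show i + 1 - 1 - i = 0 by omega]
      rfl
    · rw [show j + 1 - 1 - i = (j - 1 - i) + 1 by omega, List.getD_cons_succ]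
      exact LL_getD T j i (by omega)

theorem uu_length (l t : ℕ) : (uu B M l t).length ≤ l + t := by
  unfold uu
  rcases hq : qry (runN B t ([M], inp2 (on1 l) [])) with _ | v
  · show ([] : Str).length ≤ _
    simp
  · have h4 := qry_bdd (Pa76659.runN_bdd B t ((on1 l).length + ([] : Str).length)
      ([M], inp2 (on1 l) []) (Pa76659.inp2_bdd (on1 l) [])) hq
    rw [Hd.on1l, List.length_nil] at h4
    show v.length ≤ _
    omega

theorem LL_total {T S m : ℕ} (hT : 0 < T) (hS : ∀ l ≤ m, ∀ t < T, (ww B V s M l t).length ≤ S) :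
    ∀ j ≤ (m + 1) * T, total (LL B V s M T j) ≤ j * S
  | 0, _ => by simp [LL, total_nil]
  | j + 1, h => by
    rw [LL, total_cons]
    have h1 := LL_total hT hS j (by omega)
    have h4 : j / T < m + 1 := Nat.div_lt_of_lt_mul (by rw [mul_comm]; omega)
    have h2 := hS (j / T) (by omega) (j % T) (Nat.mod_lt j hT)
    rw [Nat.add_mul]
    omega

theorem LL_len {m j : ℕ} (hj : j ≤ (m + 1) * (p.eval m + 1)) :
    (lenc (LL B V s M (p.eval m + 1) j)).length ≤ (QQ s p).eval m := by
  obtain ⟨S, hS⟩ : ∃ S, S = s.eval (m + p.eval m) := ⟨_, rfl⟩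
  have h1 := LL_total (B := B) (V := V) (s := s) (M := M) (T := p.eval m + 1) (S := S) (m := m)
    (Nat.succ_pos _) (fun l hl t ht => by
      unfold ww
      rw [gr_length, hS]
      refine eval_mono s ((uu_length l t).trans ?_)
      omega) j hj
  have h6 : (QQ s p).eval m = (m + 1) * (p.eval m + 1) * (2 * S + 1) := by
    simp [Hd.QQ, hS, Polynomial.eval_comp]
  rw [lenc_length, LL_length, h6]
  have h7 := Nat.mul_le_mul_right (2 * S + 1) hj
  have h8 : j * (2 * S + 1) = 2 * (j * S) + j := by ring
  omega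

theorem hf_length (m : ℕ) : (hf B V s p M (on1 m)).length = (QQ s p).eval m := by
  unfold hf
  rw [List.length_append, PC.un_length, Hd.on1l]
  have := LL_len (B := B) (V := V) (s := s) (p := p) (M := M) (m := m) le_rfl
  omega

theorem hf_good
    (hB : ∀ x, B x = true ↔ ∃ y : Str, y.length = s.eval x.length ∧ V (x, y) = true) (m : ℕ) :
    II V s p M (pr (on1 m) (hf B V s p M (on1 m))) = false := by
  rw [Hd.II_iff hB]
  intro l hl t ht v hv hb
  obtain ⟨T, hT⟩ : ∃ T, T = p.eval m + 1 := ⟨_, rfl⟩
  have hTpos : 0 < T := by omega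
  have htT : t < T := by
    have := eval_mono p hl
    omega
  have hj : l * T + t < (m + 1) * T := by
    have h1 : l * T + T ≤ (m + 1) * T := by
      rw [← Nat.succ_mul]
      exact Nat.mul_le_mul_right T (by omega)
    omega
  obtain ⟨J, hJ⟩ : ∃ J, J = (m + 1) * T := ⟨_, rfl⟩
  obtain ⟨c, hc⟩ : ∃ c, hf B V s p M (on1 m) = lenc (LL B V s M T J) ++ c := by
    refine ⟨una ((QQ s p).eval m - (lenc (LL B V s M T J)).length), ?_⟩
    unfold hf
    rw [Hd.on1l, ← hT, ← hJ]
  have hlen : l * T + t < J := by omega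
  have h1 : nth (hf B V s p M (on1 m)) (J - 1 - (l * T + t)) = ww B V s M l t := by
    rw [hc, Hi.nth_lenc_append _ _ _ (by rw [LL_length]; omega), LL_getD T J _ hlen,
      Nat.add_comm, Nat.mul_comm, Nat.add_mul_div_left _ _ hTpos, Nat.add_mul_mod_self_left,
      Nat.div_eq_of_lt htT, Nat.mod_eq_of_lt htT, Nat.zero_add]
  have h2 : uu B M l t = v := by
    unfold uu
    rw [hv]
    rfl
  obtain ⟨h3, -⟩ := gr_spec ((hB v).1 hb)
  refine Hd.Og_iff.2 ⟨J - 1 - (l * T + t), ?_, ?_, ?_⟩
  · have h4 : (LL B V s M T J).length ≤ (lenc (LL B V s M T J)).length := length_le_lenc _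
    rw [LL_length] at h4
    rw [hc, List.length_append]
    omega
  · rw [h1]
    unfold ww
    rw [gr_length, h2]
  · rw [h1]
    unfold ww
    rw [h2]
    exact h3

/-! ### Computability -/

section
variable {α : Type} {D : α → Prop} {ctx : List (α → Str)} {C : Lang}

theorem B_poly (hX : ∀ v, C (false :: v) = X v) (hC : PSL V s ∈ PO C)
    (hV : PolyB (fun _ : Str × Str => X) (fun _ => True) [fun p => p.1, fun p => p.2] V)
    (hB : ∀ x, B x = true ↔ ∃ y : Str, y.length = s.eval x.length ∧ V (x, y) = true)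
    {v : α → Str} (hv : PolyC (fun _ => C) D ctx v) :
    PolyB (fun _ => C) D ctx (fun a => B (v a)) := by
  have h1 := PolyC.gr (l := s) hC hv ((PolyN.length hv).poly s)
  refine (trV (orc := fun _ => C) (fun _ _ v => hX v) hV hv h1).congr (fun a _ => ?_)
  rw [Bool.eq_iff_iff, hB]
  constructor
  · intro h
    exact ⟨_, gr_length _ _ _ _, h⟩
  · intro h
    exact (gr_spec h).1

theorem uu_poly (hX : ∀ v, C (false :: v) = X v) (hC : PSL V s ∈ PO C)
    (hV : PolyB (fun _ : Str × Str => X) (fun _ => True) [fun p => p.1, fun p => p.2] V)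
    (hB : ∀ x, B x = true ↔ ∃ y : Str, y.length = s.eval x.length ∧ V (x, y) = true)
    {l t : α → ℕ} (hl : PolyN (fun _ => C) D ctx l) (ht : PolyN (fun _ => C) D ctx t) :
    PolyC (fun _ => C) D ctx (fun a => uu B M (l a) (t a)) := by
  have hx : PolyC (fun _ => C) D ctx (fun a => on1 (l a)) := hl
  obtain ⟨ps, hps⟩ := hx.length_le
  have hrun : PolyC (fun _ => C) D ctx (fun a => PC.enc M (M.bnd + 1)
      (runN B (t a) ([M], inp2 (on1 (l a)) []))) := by
    refine (PolyC.runT (orc := fun _ : α => C) (D := D) (ctx := ctx) M (M.bnd + 1) (by omega)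
      (fun a _ => B) (fun a => inp2 (on1 (l a)) []) t ?_ ?_ ht ⟨ps, ?_⟩).congr
      (fun a _ => by rw [runT_const])
    · exact B_poly hX hC hV hB (PolyC.var (by simp))
    · intro r _
      rcases r with _ | _ | r
      · exact hx.congr (fun a _ => by simp [inp2])
      · exact PolyC.nil.congr (fun a _ => by simp [inp2])
      · exact PolyC.nil.congr (fun a _ => by simp [inp2])
    · intro a ha
      refine (Pa76659.inp2_bdd (on1 (l a)) []).mono ?_
      have h2 := hps a ha
      simpa using h2
  refine PolyC.tail (PolyC.qry' M (fun a : α => runN B (t a) ([M], inp2 (on1 (l a)) []))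
    hrun (fun a _ => ?_))
  have h := runT_KK (M := M) (fun _ => B) (inp2 (on1 (l a)) []) (t a)
  rwa [runT_const] at h

theorem hf_poly (hX : ∀ v, C (false :: v) = X v) (hC : PSL V s ∈ PO C)
    (hV : PolyB (fun _ : Str × Str => X) (fun _ => True) [fun p => p.1, fun p => p.2] V)
    (hB : ∀ x, B x = true ↔ ∃ y : Str, y.length = s.eval x.length ∧ V (x, y) = true)
    {x : α → Str} (hx : PolyC (fun _ => C) D ctx x) :
    PolyC (fun _ => C) D ctx (fun a => hf B V s p M (x a)) := by
  have hm := PolyN.length hx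
  have hT := (hm.poly p).succ
  have hJ := hm.succ.mul hT
  have hL : PolyC (fun _ => C) D ctx (fun a => lenc (LL B V s M (p.eval (x a).length + 1)
      (((x a).length + 1) * (p.eval (x a).length + 1)))) := by
    obtain ⟨px, hpx⟩ := hx.length_le
    refine PolyC.natRec (fun a j => lenc (LL B V s M (p.eval (x a).length + 1) j)) hJ
      ((PolyC.nil).congr (fun a _ => rfl)) ?_ ⟨(QQ s p).comp px, fun a ha j hj => ?_⟩
    · set ctx' : List (α × ℕ → Str) := PC.lift ctx ++ [fun z => una z.2,
        fun z => lenc (LL B V s M (p.eval (x z.1).length + 1) z.2)] with hctx'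
      have hF : PolyC (fun _ : α × ℕ => C) (fun z => D z.1 ∧ z.2 < ((x z.1).length + 1) *
          (p.eval (x z.1).length + 1)) ctx'
        (fun z => lenc (LL B V s M (p.eval (x z.1).length + 1) z.2)) :=
        PolyC.var (by simp [hctx'])
      have hj : PolyN (fun _ : α × ℕ => C) (fun z => D z.1 ∧ z.2 < ((x z.1).length + 1) *
          (p.eval (x z.1).length + 1)) ctx' (fun z => z.2) := PolyC.var (by simp [hctx'])
      have hT' : PolyN (fun _ : α × ℕ => C) (fun z => D z.1 ∧ z.2 < ((x z.1).length + 1) *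
          (p.eval (x z.1).length + 1)) ctx' (fun z => p.eval (x z.1).length + 1) :=
        (PolyC.lift hT (fun z hz => hz.1)).weakenRight _
      have h1 := uu_poly (M := M) hX hC hV hB
        (Hd.divN_poly hj hT' (fun _ _ => Nat.succ_le_succ (Nat.zero_le _)))
        (Hd.modN_poly hj hT' (fun _ _ => Nat.succ_le_succ (Nat.zero_le _)))
      exact (PolyC.pr (PolyC.gr (l := s) hC h1 ((PolyN.length h1).poly s)) hF).congr
        (fun z _ => rfl)
    · rw [Polynomial.eval_comp]
      exact (LL_len hj).trans (eval_mono _ (hpx a ha))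
  have hQ := hm.poly (QQ s p)
  have h2 : PolyC (fun _ => C) D ctx (fun a => una ((QQ s p).eval (x a).length -
      (lenc (LL B V s M (p.eval (x a).length + 1)
      (((x a).length + 1) * (p.eval (x a).length + 1)))).length)) := hQ.sub (PolyN.length hL)
  exact hL.append h2

end

/-- complete lists of witnesses are computed in `FP^NP` -/
theorem sol_fp
    (hV : PolyB (fun _ : Str × Str => X) (fun _ => True) [fun p => p.1, fun p => p.2] V)
    (hB : ∀ x, B x = true ↔ ∃ y : Str, y.length = s.eval x.length ∧ V (x, y) = true) :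
    ∃ C ∈ NPO X, (∀ v, C (false :: v) = X v) ∧ hf B V s p M ∈ FPO C := by
  refine ⟨join X (PSL V s), NPO_join (PO_subset_NPO X (query_mem X)) (PSL_mem hV), fun _ => rfl,
    Uo.FPO_of_polyC ?_⟩
  exact hf_poly (fun _ => rfl) (right_PO _ _) hV hB (PolyC.var (by simp))

end

end He

end Pool.Agent.Lib.Pa76659G
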