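import Pool.Agent.Lib.Pa76659G.HeD
import Pool.Agent.Lib.Pa76659G.HeG

set_option autoImplicit false

/-!
If the sets with hints in `FP^NP` are Turing complete then the functions in `FP^NP` are computed on
unary inputs with short queries.
-/

namespace Pool.Agent.Lib.Pa76659G

open Pool.Agent.Lib.Pa76659 PC
open Pool.Agent.Lib.Pa76659H (High RHighSucc TComp)

namespace He

open Hc (Pf Pf_mem)
open Hd (Og II)

/-- the machine form -/
theorem short_of_polyC {X K : Lang} {k : ℕ} {f : Str → Str}
    (h : PolyC (fun n : ℕ => join X (short k n K)) (fun _ => True) [fun n => on1 n]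
      (fun n => f (on1 n))) : ShortFP X K k f := by
  obtain ⟨P, p, hP⟩ := h
  have hlen := PolyC.length_le (orc := fun n : ℕ => join X (short k n K)) (D := fun _ => True)
    (ctx := [fun n => on1 n]) (t := fun n => f (on1 n)) ⟨P, p, hP⟩
  obtain ⟨pl, hpl⟩ := hlen
  refine ⟨.seq P (.seq (clear 0) (move 1 0 2)), p + 2 * Polynomial.X + 10 * pl + 20,
    fun m => ?_⟩
  obtain ⟨n, hn, hr⟩ := hP m trivial
  have hF := hpl m trivial
  simp only [vals_cons, vals_nil, total_cons, total_nil, Nat.add_zero, List.cons_append,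
    List.nil_append, Hd.on1l] at hn hr hF
  obtain ⟨O, hO⟩ : ∃ O, O = join X (short k m K) := ⟨_, rfl⟩
  obtain ⟨x, hx⟩ : ∃ x, x = on1 m := ⟨_, rfl⟩
  obtain ⟨y, hy⟩ : ∃ y, y = f (on1 m) := ⟨_, rfl⟩
  rw [← hO, ← hx] at hr ⊢
  rw [← hx] at hF
  have hxl : x.length = m := by rw [hx, Hd.on1l]
  have h1 := run_clear (O := O) 0 (R [x, f x])
  have e1 : Function.update (R [x, f x]) 0 [] = R [[], f x] := R_update [] x [] [f x]
  have e2 : R [x, f x] 0 = x := R_length [] x [f x]
  rw [e1, e2] at h1
  have h2 := run_move (O := O) (r := 1) (s := 0) (tmp := 2) (by omega) (by omega) (by omega)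
    (R [[], f x]) (by rw [R_of_ge]; simp)
  have e3 : R [[], f x] 1 = f x := R_length [[]] (f x) []
  have e4 : R [[], f x] 0 = [] := R_length [] [] [f x]
  have e5 : Function.update (R [[], f x]) 1 [] = R [[], []] := R_update [[]] (f x) [] []
  have e6 : Function.update (R [[], []]) 0 (f x) = R [f x, []] := R_update [] [] (f x) [[]]
  rw [e3, e4, e5, List.append_nil, e6] at h2
  have h3 := (Run.seq hr (Run.seq h1 h2)).exec
  have e7 : R [x] = inp x := by
    funext i
    rcases i with _ | i
    · simp [R, inp]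
    · simp [R, inp]
  rw [e7] at h3
  have h4 := Uo.exec_run h3 (N := (p + 2 * Polynomial.X + 10 * pl + 20).eval m) (by
    simp only [Polynomial.eval_add, Polynomial.eval_mul, Polynomial.eval_X, Polynomial.eval_ofNat]
    omega)
  refine ⟨by rw [Halts, h4], ?_⟩
  rw [h4]
  exact R_length [] (f x) [[]]

section
variable {α : Type} {orc : α → Lang} {D : α → Prop} {ctx : List (α → Str)} {X K : Lang}
  {q Q g pI : Polynomial ℕ} {b k : ℕ} {MI M : Prog} {p : Polynomial ℕ}
  {V : Str × Str → Bool} {s : Polynomial ℕ} {red : Str → Str} {n : α → ℕ}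

/-- the run with the union oracle -/
theorem run_poly (h : ∀ a, D a → orc a = join X (short k (n a) K))
    (hV : PolyB (fun _ : Str × Str => X) (fun _ => True) [fun p => p.1, fun p => p.2] V)
    (hr : PolyC (fun _ : Str => X) (fun _ => True) [fun x => x] red)
    (hn : PolyN orc D ctx n) (Mg : Prog) (pg : Polynomial ℕ) :
    PolyC orc D ctx (fun a => (runN (ON X K q Q g pI b k MI M p V s red (n a)) (pg.eval (n a))
      ([Mg], inp2 (on1 (n a)) [])).2 0) := by
  have hx : PolyC orc D ctx (fun a => on1 (n a)) := hn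
  obtain ⟨ps, hps⟩ := hx.length_le
  have hrun : PolyC orc D ctx (fun a => PC.enc Mg (Mg.bnd + 1)
      (runN (ON X K q Q g pI b k MI M p V s red (n a)) (pg.eval (n a))
        ([Mg], inp2 (on1 (n a)) []))) := by
    refine (PolyC.runT (orc := orc) (D := D) (ctx := ctx) Mg (Mg.bnd + 1) (by omega)
      (fun a _ => ON X K q Q g pI b k MI M p V s red (n a)) (fun a => inp2 (on1 (n a)) [])
      (fun a => pg.eval (n a)) ?_ ?_ (hn.poly pg) ⟨ps, ?_⟩).congr
      (fun a _ => by rw [runT_const])
    · refine ON_poly (n := fun p : (α × ℕ) × Str => n p.1.1) (v := fun p => p.2)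
        (fun z hz => h _ hz.1) hV hr ?_ (PolyC.var (by simp))
      exact (PolyC.lift ((PolyC.lift hn (D' := fun z : α × ℕ => D z.1 ∧ z.2 < pg.eval (n z.1))
        (fun z hz => hz.1)).weakenRight _)
        (D' := fun w : (α × ℕ) × Str => D w.1.1 ∧ w.1.2 < pg.eval (n w.1.1))
        (fun w hw => hw)).weakenRight _
    · intro r _
      rcases r with _ | _ | r
      · exact hx.congr (fun a _ => by simp [inp2])
      · exact PolyC.nil.congr (fun a _ => by simp [inp2])
      · exact PolyC.nil.congr (fun a _ => by simp [inp2])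
    · intro a ha
      refine (Pa76659.inp2_bdd (on1 (n a)) []).mono ?_
      have h2 := hps a ha
      simpa using h2
  exact (PolyC.nth (PolyC.snd hrun) (PolyN.const 0)).congr (fun a _ => enc_reg _ _ _ (by omega))

end

/-- one of the two level sequences -/
theorem one_par {X K B : Lang} {V : Str × Str → Bool}
    {s : Polynomial ℕ} {Mg : Prog} {pg : Polynomial ℕ}
    (hV : PolyB (fun _ : Str × Str => X) (fun _ => True) [fun p => p.1, fun p => p.2] V)
    (hB : ∀ x, B x = true ↔ ∃ y : Str, y.length = s.eval x.length ∧ V (x, y) = true)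
    {q g pI : Polynomial ℕ} {k b : ℕ} {MI : Prog}
    (hI : ∀ x : Str, II V s pg Mg x = accepts (join X K) MI (inp x) (pI.eval x.length))
    (hg : ∀ l, l ^ k ≤ g.eval l ∧ ((2 * l + 1 + q.eval l) + pI.eval (2 * l + 1 + q.eval l)) ^ k ≤
      g.eval l) {Q : Polynomial ℕ}
    (hA : hint K (fun w => II V s pg Mg (kk q g b w)) Q ∈ RHighSucc X 0) :
    ∃ F : ℕ → Str, PolyC (fun n : ℕ => join X (short k n K)) (fun _ => True) [fun n => on1 n] F ∧
      ∀ n, par g n = b → F n = (runN B (pg.eval n) ([Mg], inp2 (on1 n) [])).2 0 := by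
  obtain ⟨M, p, hM⟩ := tc_of hA (Unv.KU_mem X)
  obtain ⟨red, hr1, hr2⟩ := Unv.KU_hard (Pf_mem (l := s) hV)
  refine ⟨fun n => (runN (ON X K q Q g pI b k MI M p V s red n) (pg.eval n)
    ([Mg], inp2 (on1 n) [])).2 0, ?_, fun n hn => ?_⟩
  · exact run_poly (n := fun n : ℕ => n) (fun _ _ => rfl) hV (hr1 X) (PolyC.var (by simp [on1_eq]))
      Mg pg
  · beta_reduce
    rw [ON_run hB hr2 hI hg hn (fun x => (hM x).2)]

/-- (a) implies (b) -/
theorem short_all {X K : Lang} (hK : K ∈ RHighSucc X 0)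
    (ha : ∀ I ∈ NPO X, ∀ (q : Polynomial ℕ), ∀ B ∈ NPO X, ∀ f ∈ FPO B,
      (∀ m, (f (on1 m)).length = q.eval m ∧ I (pr (on1 m) (f (on1 m))) = false) →
      hint K I q ∈ RHighSucc X 0)
    {B : Lang} (hB : B ∈ NPO X) {f : Str → Str} (hf : f ∈ FPO B) (k : ℕ) : ShortFP X K k f := by
  obtain ⟨V, s, hV, hBV⟩ := exists_of_NPO hB
  obtain ⟨Mg, pg, hMg⟩ := hf
  have hII := Hd.II_mem (s := s) hV Mg pg
  obtain ⟨MI, pI, hMI⟩ := tc_of hK hII
  obtain ⟨C, hC, hCX, hh⟩ := sol_fp (M := Mg) (p := pg) hV hBV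
  obtain ⟨q, hq⟩ : ∃ q, q = Hd.QQ s pg := ⟨_, rfl⟩
  obtain ⟨g, hgd⟩ : ∃ g : Polynomial ℕ, g = Polynomial.X ^ k +
    ((2 * Polynomial.X + 1 + q) + pI.comp (2 * Polynomial.X + 1 + q)) ^ k := ⟨_, rfl⟩
  have hg : ∀ l, l ^ k ≤ g.eval l ∧
      ((2 * l + 1 + q.eval l) + pI.eval (2 * l + 1 + q.eval l)) ^ k ≤ g.eval l := by
    intro l
    rw [hgd]
    simp only [Polynomial.eval_add, Polynomial.eval_pow, Polynomial.eval_X, Polynomial.eval_mul,
      Polynomial.eval_ofNat, Polynomial.eval_one, Polynomial.eval_comp]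
    omega
  -- the sets with hints
  have hA : ∀ b, hint K (fun w => II V s pg Mg (kk q g b w)) (q.comp (SB g)) ∈ RHighSucc X 0 := by
    intro b
    have hIb : (fun w => II V s pg Mg (kk q g b w)) ∈ NPO X := NPO_comp hII
      (kk_poly (orc := fun _ : Str => X) (D := fun _ => True) (PolyC.var (by simp)))
    have hpad : (fun x : Str => hf B V s pg Mg (on1 (s2 g b x.length)) ++
        una ((q.comp (SB g)).eval x.length - (hf B V s pg Mg (on1 (s2 g b x.length))).length)) ∈
        FPO C := by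
      refine Uo.FPO_of_polyC ?_
      have hx : PolyC (fun _ : Str => C) (fun _ => True) [fun x => x] (fun x => x) :=
        PolyC.var (by simp)
      have hl := PolyN.length hx
      have h1 : PolyC (fun _ : Str => C) (fun _ => True) [fun x => x]
          (fun x => on1 (s2 g b x.length)) := s2_poly hl
      have h2 := PolyC.arg (Uo.polyC_of_FPO hh) h1
      have h3 : PolyC (fun _ : Str => C) (fun _ => True) [fun x => x]
          (fun x => una ((q.comp (SB g)).eval x.length -
            (hf B V s pg Mg (on1 (s2 g b x.length))).length)) :=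
        (hl.poly (q.comp (SB g))).sub (PolyN.length h2)
      exact h2.append h3
    refine ha _ hIb _ C hC _ hpad (fun m => ?_)
    have e1 : (hf B V s pg Mg (on1 (s2 g b m))).length = q.eval (s2 g b m) := by
      rw [hf_length, hq]
    have e2 : q.eval (s2 g b m) ≤ (q.comp (SB g)).eval m := by
      rw [Polynomial.eval_comp]
      exact eval_mono q (s2_le g b m)
    rw [Hd.on1l]
    refine ⟨?_, ?_⟩
    · rw [List.length_append, PC.un_length, e1]
      omega
    · unfold kk
      rw [fst_pr, snd_pr, Hd.on1l, List.take_append_of_le_length e1.ge,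
        List.take_of_length_le e1.le]
      exact hf_good hBV _
  obtain ⟨F0, hF0, h0⟩ := one_par (b := 0) hV hBV (fun x => (hMI x).2) hg (hA 0)
  obtain ⟨F1, hF1, h1⟩ := one_par (b := 1) hV hBV (fun x => (hMI x).2) hg (hA 1)
  refine short_of_polyC (f := f) ?_
  have hn : PolyN (fun n : ℕ => join X (short k n K)) (fun _ => True) [fun n => on1 n]
    (fun n => n) := PolyC.var (by simp [on1_eq])
  have hpar := par_poly (g := g) hn
  refine (PolyC.ite (PolyB.natEq hpar (PolyN.const 0)) (hF0.mono fun _ h => h.1)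
    (hF1.mono fun _ h => h.1)).congr (fun n _ => ?_)
  have hfin : (runN B (pg.eval n) ([Mg], inp2 (on1 n) [])).2 0 = f (on1 n) := by
    have h5 := (hMg (on1 n)).2
    rw [Hd.on1l, inp_eq] at h5
    exact h5
  by_cases hp : par g n = 0
  · rw [if_pos (decide_eq_true hp), h0 n hp, hfin]
  · have hp1 : par g n = 1 := by
      have := par_lt g n
      omega
    rw [if_neg (by rw [decide_eq_true_eq]; exact hp), h1 n hp1, hfin]

end He

end Pool.Agent.Lib.Pa76659G
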