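import Pool.Agent.Lib.Pa76659G.HeB

set_option autoImplicit false

/-!
If the hints can be computed on unary inputs in polynomial time with short queries to `K` then the
set with hints is complete.
-/

namespace Pool.Agent.Lib.Pa76659G

open Pool.Agent.Lib.Pa76659 PC
open Pool.Agent.Lib.Pa76659H (High RHighSucc TComp)

namespace He

/-- the table of the values -/
noncomputable def tb (f : Str → Str) (k : ℕ) : Str :=
  lenc ((List.range k).reverse.map (fun j => f (on1 j)))

theorem tb_zero (f : Str → Str) : tb f 0 = [] := rfl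

theorem tb_succ (f : Str → Str) (k : ℕ) : tb f (k + 1) = pr (f (on1 k)) (tb f k) := by
  unfold tb
  rw [List.range_succ, List.reverse_append, List.map_append]
  rfl

theorem nth_tb (f : Str → Str) {j k : ℕ} (h : j < k) : nth (tb f k) (k - 1 - j) = f (on1 j) := by
  unfold tb
  rw [nth_lenc, List.getD_eq_getElem _ _ (by simp; omega)]
  simp only [List.getElem_map, List.getElem_reverse, List.getElem_range, List.length_range]
  congr 2
  omega

theorem tb_length {f : Str → Str} {q : Polynomial ℕ} (hf : ∀ m : ℕ, (f (on1 m)).length = q.eval m) :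
    ∀ k N : ℕ, k ≤ N → (tb f k).length ≤ k * (2 * q.eval N + 1)
  | 0, N, _ => by rw [tb_zero]; simp
  | k + 1, N, h => by
    rw [tb_succ, pr_length, hf]
    have h1 := tb_length hf k N (by omega)
    have h2 := eval_mono q (show k ≤ N by omega)
    rw [Nat.add_mul, Nat.one_mul]
    omega

/-- short queries -/
theorem short_eq {K A : Lang} {f : Str → Str} (hA : ∀ x : Str, A (pr x (f (on1 x.length))) = K x)
    (k : ℕ) (w : Str) : short 2 k K w = (decide (w.length ^ 2 ≤ k) &&
      (if decide (w.length < k) = true then A (pr w (nth (tb f k) (k - 1 - w.length)))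
        else if w.length < 2 then K w else false)) := by
  unfold short
  by_cases h1 : w.length ^ 2 ≤ k
  · congr 1
    by_cases h2 : w.length < k
    · rw [if_pos (decide_eq_true h2), nth_tb f h2, hA]
    · rw [if_neg (by simpa using h2), if_pos]
      by_contra h3
      have h4 : 2 * w.length ≤ w.length * w.length := Nat.mul_le_mul_right _ (by omega)
      rw [pow_two] at h1
      omega
  · rw [decide_eq_false h1, Bool.false_and, Bool.false_and]

section
variable {α : Type} {D : α → Prop} {ctx : List (α → Str)} {X K A : Lang}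

theorem voA_poly {f : Str → Str} (hA : ∀ x : Str, A (pr x (f (on1 x.length))) = K x)
    {k : α → ℕ} {w : α → Str} (hk : PolyN (fun _ => join X A) D ctx k)
    (hT : PolyC (fun _ => join X A) D ctx (fun a => tb f (k a)))
    (hw : PolyC (fun _ => join X A) D ctx w) :
    PolyB (fun _ => join X A) D ctx (fun a => join X (short 2 (k a) K) (w a)) := by
  have ht := hw.tail
  have hl := PolyN.length ht
  have h1 : PolyB (fun _ : α => join X A) D ctx (fun a => X (w a).tail) := by
    have : PolyC (fun _ : α => join X A) D ctx (fun a => [join X A (false :: (w a).tail)]) :=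
      PolyC.query (PolyC.cons false ht)
    exact this
  have h2 : PolyB (fun _ : α => join X A) D ctx
      (fun a => A (pr (w a).tail (nth (tb f (k a)) (k a - 1 - (w a).tail.length)))) := by
    have : PolyC (fun _ : α => join X A) D ctx (fun a => [join X A
        (true :: pr (w a).tail (nth (tb f (k a)) (k a - 1 - (w a).tail.length)))]) :=
      PolyC.query (PolyC.cons true (PolyC.pr ht
        (PolyC.nth hT ((hk.sub (PolyN.const 1)).sub hl))))
    exact this
  have h3 : PolyB (fun _ : α => join X A) D ctx (fun a => short 2 (k a) K (w a).tail) := by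
    refine ((PolyB.le (hl.mul hl) hk).and (PolyB.ite (PolyB.lt hl hk)
      (PolyC.mono h2 fun _ h => h.1)
      (PolyC.mono (PolyB.finite 2 K ht) fun _ h => h.1))).congr (fun a _ => ?_)
    rw [short_eq hA, pow_two]
  refine PolyC.congr (PolyC.cases hw (u0 := fun _ => [false]) (u1 := fun a => [X (w a).tail])
    (u2 := fun a => [short 2 (k a) K (w a).tail]) (PolyC.const _)
    (PolyC.mono h1 fun _ h => h.1) (PolyC.mono h3 fun _ h => h.1)) ?_
  intro a _
  show _ = [join X (short 2 (k a) K) (w a)]
  rcases w a with _ | ⟨b, v⟩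
  · rfl
  · cases b <;> rfl

theorem val_poly {f : Str → Str} (hA : ∀ x : Str, A (pr x (f (on1 x.length))) = K x)
    (hs : ShortFP X K 2 f) {k : α → ℕ} (hk : PolyN (fun _ => join X A) D ctx k)
    (hT : PolyC (fun _ => join X A) D ctx (fun a => tb f (k a))) :
    PolyC (fun _ => join X A) D ctx (fun a => f (on1 (k a))) := by
  obtain ⟨M, p, hM⟩ := hs
  obtain ⟨pk, hpk⟩ := PolyC.length_le hk
  have h1 := PolyC.runT (orc := fun _ : α => join X A) (D := D) (ctx := ctx) M (M.bnd + 1)
    (by omega) (fun a _ => join X (short 2 (k a) K)) (fun a => inp (on1 (k a)))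
    (fun a => p.eval (k a)) ?_ ?_ (hk.poly p) ⟨pk, ?_⟩
  · refine (PolyC.nth (PolyC.snd h1) (PolyN.const 0)).congr ?_
    intro a _
    rw [enc_reg _ _ _ (by omega), runT_const]
    exact (hM (k a)).2
  · have hk1 : PolyN (fun _ : α × ℕ => join X A) (fun z : α × ℕ => D z.1 ∧ z.2 < p.eval (k z.1))
        (PC.lift ctx ++ [fun z => una z.2]) (fun z => k z.1) :=
      (PolyC.lift hk (fun z hz => hz.1)).weakenRight _
    have hk2 : PolyN (fun _ : (α × ℕ) × Str => join X A)
        (fun z : (α × ℕ) × Str => D z.1.1 ∧ z.1.2 < p.eval (k z.1.1))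
        (PC.lift (PC.lift ctx ++ [fun z => una z.2]) ++ [fun z => z.2]) (fun z => k z.1.1) :=
      (PolyC.lift hk1 (fun z hz => hz)).weakenRight _
    have hT1 : PolyC (fun _ : α × ℕ => join X A) (fun z : α × ℕ => D z.1 ∧ z.2 < p.eval (k z.1))
        (PC.lift ctx ++ [fun z => una z.2]) (fun z => tb f (k z.1)) :=
      (PolyC.lift hT (fun z hz => hz.1)).weakenRight _
    have hT2 : PolyC (fun _ : (α × ℕ) × Str => join X A)
        (fun z : (α × ℕ) × Str => D z.1.1 ∧ z.1.2 < p.eval (k z.1.1))
        (PC.lift (PC.lift ctx ++ [fun z => una z.2]) ++ [fun z => z.2])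
        (fun z => tb f (k z.1.1)) :=
      (PolyC.lift hT1 (fun z hz => hz)).weakenRight _
    exact voA_poly hA hk2 hT2 (PolyC.var (by simp))
  · intro r _
    rcases r with _ | r
    · exact PolyC.congr hk (fun a _ => by rw [← on1_eq]; simp [inp])
    · exact PolyC.nil.congr (fun a _ => by simp [inp])
  · intro a ha r
    have h2 := hpk a ha
    rw [un_length] at h2
    show (if r = 0 then on1 (k a) else []).length ≤ _
    split_ifs
    · rw [on1_eq, un_length]
      exact h2
    · simp

end

theorem hint_complete {X K I : Lang} {q : Polynomial ℕ} {f : Str → Str}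
    (hK : K ∈ RHighSucc X 0) (hI : I ∈ NPO X)
    (hf : ∀ m : ℕ, (f (on1 m)).length = q.eval m ∧ I (pr (on1 m) (f (on1 m))) = false)
    (hs : ShortFP X K 2 f) : hint K I q ∈ RHighSucc X 0 := by
  refine of_tc hK (hint_mem hK.1 hI) ?_
  have hA : ∀ x : Str, hint K I q (pr x (f (on1 x.length))) = K x := by
    intro x
    obtain ⟨h1, h2⟩ := hf x.length
    rw [hint_pr, h2, decide_eq_true h1]
    simp
  set A := hint K I q with hAd
  have hx : PolyC (fun _ : Str => join X A) (fun _ => True) [fun x => x] (fun x => x) :=
    PolyC.var (by simp)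
  have hn := PolyN.length hx
  have hT : PolyC (fun _ : Str => join X A) (fun _ => True) [fun x => x]
      (fun x => tb f (x.length + 1)) := by
    refine PolyC.natRec (fun (_ : Str) k => tb f k) (n := fun x : Str => x.length + 1) hn.succ
      (PolyC.nil) ?_ ⟨(Polynomial.X + 1) * (2 * q.comp (Polynomial.X + 1) + 1), fun x _ k hk => ?_⟩
    · have hk1 : PolyN (fun _ : Str × ℕ => join X A) (fun z : Str × ℕ => True ∧ z.2 < z.1.length + 1)
        (PC.lift [fun x : Str => x] ++ [fun z => una z.2, fun z => tb f z.2]) (fun z => z.2) :=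
        PolyC.var (by simp)
      have hT1 : PolyC (fun _ : Str × ℕ => join X A)
        (fun z : Str × ℕ => True ∧ z.2 < z.1.length + 1)
        (PC.lift [fun x : Str => x] ++ [fun z => una z.2, fun z => tb f z.2])
        (fun z => tb f z.2) := PolyC.var (by simp)
      refine (PolyC.pr (val_poly hA hs hk1 hT1) hT1).congr (fun z _ => ?_)
      exact (tb_succ f z.2).symm
    · have h1 := tb_length (fun m => (hf m).1) k (x.length + 1) hk
      refine h1.trans ?_
      simp only [vals_cons, vals_nil, total_cons, total_nil, Nat.add_zero, Polynomial.eval_mul,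
        Polynomial.eval_add, Polynomial.eval_X, Polynomial.eval_one, Polynomial.eval_comp,
        Polynomial.eval_ofNat]
      exact Nat.mul_le_mul_right _ hk
  have hv : PolyC (fun _ : Str => join X A) (fun _ => True) [fun x => x]
      (fun x => f (on1 x.length)) :=
    (PolyC.fst hT).congr (fun x _ => by rw [tb_succ, fst_pr])
  have h1 : PolyC (fun _ : Str => join X A) (fun _ => True) [fun x => x]
      (fun x => [join X A (true :: pr x (f (on1 x.length)))]) :=
    PolyC.query (PolyC.cons true (PolyC.pr hx hv))
  refine mem_PO (PolyC.congr h1 (fun x _ => ?_))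
  show [A (pr x (f (on1 x.length)))] = [K x]
  rw [hA]

end He

end Pool.Agent.Lib.Pa76659G
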