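import Pool.Agent.Lib.Pa76659G.HeF

set_option autoImplicit false

/-!
If the advice can be computed on unary inputs in polynomial time with short queries to `K` then the
sets which are Turing complete with this advice are Turing complete.
-/

namespace Pool.Agent.Lib.Pa76659G

open Pool.Agent.Lib.Pa76659 PC
open Pool.Agent.Lib.Pa76659H (High RHighSucc TComp)

namespace He

theorem tb_length_le {f : Str → Str} {q : Polynomial ℕ}
    (hf : ∀ m : ℕ, (f (on1 m)).length ≤ q.eval m) :
    ∀ k N : ℕ, k ≤ N → (tb f k).length ≤ k * (2 * q.eval N + 1)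
  | 0, N, _ => by rw [tb_zero]; simp
  | k + 1, N, h => by
    rw [tb_succ, pr_length]
    have h0 := hf k
    have h1 := tb_length_le hf k N (by omega)
    have h2 := eval_mono q (show k ≤ N by omega)
    rw [Nat.add_mul, Nat.one_mul]
    omega

section
variable {α : Type} {D : α → Prop} {ctx : List (α → Str)} {X K A E : Lang}

theorem voE_poly {f : Str → Str} (hE : E ∈ PO (join X A))
    (hA : ∀ x : Str, E (pr x (f (on1 x.length))) = K x) {k : α → ℕ} {w : α → Str} (hk : PolyN (fun _ => join X A) D ctx k)
    (hT : PolyC (fun _ => join X A) D ctx (fun a => tb f (k a)))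
    (hw : PolyC (fun _ => join X A) D ctx w) :
    PolyB (fun _ => join X A) D ctx (fun a => join X (short 2 (k a) K) (w a)) := by
  have ht := hw.tail
  have hl := PolyN.length ht
  have h1 : PolyB (fun _ : α => join X A) D ctx (fun a => X (w a).tail) := by
    have : PolyC (fun _ : α => join X A) D ctx (fun a => [join X A (false :: (w a).tail)]) :=
      PolyC.query (PolyC.cons false ht)
    exact this
  have h2 : PolyB (fun _ : α => join X A) D ctx
      (fun a => E (pr (w a).tail (nth (tb f (k a)) (k a - 1 - (w a).tail.length)))) :=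
    polyB_of_PO hE (PolyC.pr ht (PolyC.nth hT ((hk.sub (PolyN.const 1)).sub hl)))
  have h3 : PolyB (fun _ : α => join X A) D ctx (fun a => short 2 (k a) K (w a).tail) := by
    refine ((PolyB.le (hl.mul hl) hk).and (PolyB.ite (PolyB.lt hl hk)
      (PolyC.mono h2 fun _ h => h.1)
      (PolyC.mono (PolyB.finite 2 K ht) fun _ h => h.1))).congr (fun a _ => ?_)
    rw [short_eq hA, pow_two]
  refine PolyC.congr (PolyC.cases hw (u0 := fun _ => [false]) (u1 := fun a => [X (w a).tail])
    (u2 := fun a => [short 2 (k a) K (w a).tail]) (PolyC.const _)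
    (PolyC.mono h1 fun _ h => h.1) (PolyC.mono h3 fun _ h => h.1)) ?_
  intro a _
  show _ = [join X (short 2 (k a) K) (w a)]
  rcases w a with _ | ⟨b, v⟩
  · rfl
  · cases b <;> rfl

theorem valE_poly {f : Str → Str} (hE : E ∈ PO (join X A))
    (hA : ∀ x : Str, E (pr x (f (on1 x.length))) = K x) (hs : ShortFP X K 2 f) {k : α → ℕ} (hk : PolyN (fun _ => join X A) D ctx k)
    (hT : PolyC (fun _ => join X A) D ctx (fun a => tb f (k a))) :
    PolyC (fun _ => join X A) D ctx (fun a => f (on1 (k a))) := by
  obtain ⟨M, p, hM⟩ := hs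
  obtain ⟨pk, hpk⟩ := PolyC.length_le hk
  have h1 := PolyC.runT (orc := fun _ : α => join X A) (D := D) (ctx := ctx) M (M.bnd + 1)
    (by omega) (fun a _ => join X (short 2 (k a) K)) (fun a => inp (on1 (k a)))
    (fun a => p.eval (k a)) ?_ ?_ (hk.poly p) ⟨pk, ?_⟩
  · refine (PolyC.nth (PolyC.snd h1) (PolyN.const 0)).congr ?_
    intro a _
    rw [enc_reg _ _ _ (by omega), runT_const]
    exact (hM (k a)).2
  · have hk1 : PolyN (fun _ : α × ℕ => join X A) (fun z : α × ℕ => D z.1 ∧ z.2 < p.eval (k z.1))
        (PC.lift ctx ++ [fun z => una z.2]) (fun z => k z.1) :=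
      (PolyC.lift hk (fun z hz => hz.1)).weakenRight _
    have hk2 : PolyN (fun _ : (α × ℕ) × Str => join X A)
        (fun z : (α × ℕ) × Str => D z.1.1 ∧ z.1.2 < p.eval (k z.1.1))
        (PC.lift (PC.lift ctx ++ [fun z => una z.2]) ++ [fun z => z.2]) (fun z => k z.1.1) :=
      (PolyC.lift hk1 (fun z hz => hz)).weakenRight _
    have hT1 : PolyC (fun _ : α × ℕ => join X A) (fun z : α × ℕ => D z.1 ∧ z.2 < p.eval (k z.1))
        (PC.lift ctx ++ [fun z => una z.2]) (fun z => tb f (k z.1)) :=
      (PolyC.lift hT (fun z hz => hz.1)).weakenRight _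
    have hT2 : PolyC (fun _ : (α × ℕ) × Str => join X A)
        (fun z : (α × ℕ) × Str => D z.1.1 ∧ z.1.2 < p.eval (k z.1.1))
        (PC.lift (PC.lift ctx ++ [fun z => una z.2]) ++ [fun z => z.2])
        (fun z => tb f (k z.1.1)) :=
      (PolyC.lift hT1 (fun z hz => hz)).weakenRight _
    exact voE_poly hE hA hk2 hT2 (PolyC.var (by simp))
  · intro r _
    rcases r with _ | r
    · exact PolyC.congr hk (fun a _ => by rw [← on1_eq]; simp [inp])
    · exact PolyC.nil.congr (fun a _ => by simp [inp])
  · intro a ha r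
    have h2 := hpk a ha
    rw [un_length] at h2
    show (if r = 0 then on1 (k a) else []).length ≤ _
    split_ifs
    · rw [on1_eq, un_length]
      exact h2
    · simp

end

/-- sets which are Turing complete with advice that is computed with short queries -/
theorem adv_complete {X K A E B : Lang} {f : Str → Str}
    (hK : K ∈ RHighSucc X 0) (hA : A ∈ NPO X) (hE : E ∈ PO (join X A)) (hf : f ∈ FPO B)
    (hKE : ∀ x : Str, K x = E (pr x (f (on1 x.length))))
    (hs : ShortFP X K 2 f) : A ∈ RHighSucc X 0 := by
  refine of_tc hK hA ?_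
  have hA' : ∀ x : Str, E (pr x (f (on1 x.length))) = K x := fun x => (hKE x).symm
  obtain ⟨q, hq⟩ := (Uo.polyC_of_FPO hf).length_le
  have hq' : ∀ m : ℕ, (f (on1 m)).length ≤ q.eval m := fun m => by
    have := hq (on1 m) trivial
    simpa [on1_eq] using this
  have hx : PolyC (fun _ : Str => join X A) (fun _ => True) [fun x => x] (fun x => x) :=
    PolyC.var (by simp)
  have hn := PolyN.length hx
  have hT : PolyC (fun _ : Str => join X A) (fun _ => True) [fun x => x]
      (fun x => tb f (x.length + 1)) := by
    refine PolyC.natRec (fun (_ : Str) k => tb f k) (n := fun x : Str => x.length + 1) hn.succ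
      (PolyC.nil) ?_ ⟨(Polynomial.X + 1) * (2 * q.comp (Polynomial.X + 1) + 1), fun x _ k hk => ?_⟩
    · have hk1 : PolyN (fun _ : Str × ℕ => join X A) (fun z : Str × ℕ => True ∧ z.2 < z.1.length + 1)
        (PC.lift [fun x : Str => x] ++ [fun z => una z.2, fun z => tb f z.2]) (fun z => z.2) :=
        PolyC.var (by simp)
      have hT1 : PolyC (fun _ : Str × ℕ => join X A)
        (fun z : Str × ℕ => True ∧ z.2 < z.1.length + 1)
        (PC.lift [fun x : Str => x] ++ [fun z => una z.2, fun z => tb f z.2])
        (fun z => tb f z.2) := PolyC.var (by simp)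
      refine (PolyC.pr (valE_poly hE hA' hs hk1 hT1) hT1).congr (fun z _ => ?_)
      exact (tb_succ f z.2).symm
    · have h1 := tb_length_le hq' k (x.length + 1) hk
      refine h1.trans ?_
      simp only [vals_cons, vals_nil, total_cons, total_nil, Nat.add_zero, Polynomial.eval_mul,
        Polynomial.eval_add, Polynomial.eval_X, Polynomial.eval_one, Polynomial.eval_comp,
        Polynomial.eval_ofNat]
      exact Nat.mul_le_mul_right _ hk
  have hv : PolyC (fun _ : Str => join X A) (fun _ => True) [fun x => x]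
      (fun x => f (on1 x.length)) :=
    (PolyC.fst hT).congr (fun x _ => by rw [tb_succ, fst_pr])
  have h1 : PolyB (fun _ : Str => join X A) (fun _ => True) [fun x => x]
      (fun x => E (pr x (f (on1 x.length)))) := polyB_of_PO hE (PolyC.pr hx hv)
  exact mem_PO (h1.congr (fun x _ => hA' x))

end He

end Pool.Agent.Lib.Pa76659G
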