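import Pool.Agent.Lib.Pa76659G.HeSpec2
import Pool.Agent.Lib.Pa76659G.HeE
import Pool.Agent.Lib.Pa76659G.HeH
import Pool.Agent.Lib.Pa76659G.HdFinal

set_option autoImplicit false

/-!
The exact price of the completeness of sets with hints.
-/

namespace Pool.Agent.Lib.Pa76659G

open Pool.Agent.Lib.Pa76659 PC
open Pool.Agent.Lib.Pa76659H (High RHighSucc TComp)

namespace He

theorem tfae {X K : Lang} (hK : K ∈ RHighSucc X 0) :
    List.TFAE [HintsComplete X K, AdviceComplete X K, ShortAll X K 2, ∀ k, ShortAll X K k] := by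
  tfae_have 1 → 4 := fun h k B hB f hf => short_all hK h hB hf k
  tfae_have 4 → 3 := fun h => h 2
  tfae_have 3 → 2 := fun h A hA E hE B hB f hf hKE => adv_complete hK hA hE hf hKE (h B hB f hf)
  tfae_have 2 → 1 := by
    intro h I hI q B hB f hf hfI
    refine h _ (hint_mem hK.1 hI) _ (right_PO _ _) B hB f hf (fun x => ?_)
    obtain ⟨h1, h2⟩ := hfI x.length
    rw [hint_pr, h2, decide_eq_true h1]
    simp
  tfae_finish

theorem hints_of_eq {X K : Lang} (h : High X 1 ⊆ RHighSucc X 0) (hK : K ∈ RHighSucc X 0) :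
    HintsComplete X K := fun _ hI _ _ _ f _ hf =>
  h (hint_high hK hI (fun m => ⟨f (on1 m), hf m⟩))

end He

/-- the price of `\hat H_1 = H_1` -/
theorem cost_exact (X : Lang) :
    (∀ K ∈ RHighSucc X 0,
      (∀ I ∈ NPO X, ∀ q : Polynomial ℕ,
        (∀ m : ℕ, ∃ y : Str, y.length = q.eval m ∧ I (pr (on1 m) y) = false) →
          hint K I q ∈ High X 1) ∧
      List.TFAE [HintsComplete X K, AdviceComplete X K, ShortAll X K 2,
        ∀ k, ShortAll X K k]) ∧
    (RHighSucc X 0 = High X 1 →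
      (∀ K ∈ RHighSucc X 0, ∀ k, ShortAll X K k) ∧
      ∀ B ∈ NPO X, ∀ G ∈ FPO B, ∀ k : ℕ, ∃ F ∈ FPO X, ∀ n l : ℕ, l ≤ n → l ≤ Nat.log 2 n ^ k →
        F (pr (on1 n) (on1 l)) = G (on1 l)) := by
  refine ⟨fun K hK => ⟨fun I hI q tot => He.hint_high hK hI tot, He.tfae hK⟩, fun h => ⟨?_, ?_⟩⟩
  · intro K hK
    exact ((He.tfae hK).out 0 3).1 (He.hints_of_eq h.ge hK)
  · exact (cost_high h.ge).1

end Pool.Agent.Lib.Pa76659G
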