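import Pool.Agent.Lib.Pa76659G.UoSpec
import Pool.Agent.Lib.Pa76659G.Spec

/-!
Computations on unary inputs with short queries, and sets with hints.
-/

set_option autoImplicit false

namespace Pool.Agent.Lib.Pa76659G

open Pool.Agent.Lib.Pa76659

/-- `K` restricted to the queries `w` with `|w|^k ≤ n`, that is `|w| ≤ n^(1/k)` -/
def short (k n : ℕ) (K : Lang) : Lang := fun w => decide (w.length ^ k ≤ n) && K w

/-- The function `f` is computed on unary inputs `1^n` in polynomial time with queries to `X` and
with queries of length at most `n^(1/k)` to `K`; input and output are in register `0`. -/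
def ShortFP (X K : Lang) (k : ℕ) (f : Str → Str) : Prop :=
  ∃ (M : Prog) (p : Polynomial ℕ), ∀ n : ℕ,
    Halts (join X (short k n K)) M (inp (on1 n)) (p.eval n) ∧
    (runN (join X (short k n K)) (p.eval n) ([M], inp (on1 n))).2 0 = f (on1 n)

open Classical in
/-- The set with hints: a pair `(x, y)` is in it iff `x ∈ K` or `y` is not a hint for the length of
`x`; the hints for the length `m` are the strings `y` of length `q(m)` with `(1^m, y) ∉ I`. (Strings
which are not pairs are in it.) -/
noncomputable def hint (K I : Lang) (q : Polynomial ℕ) : Lang := fun u =>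
  decide (∀ x y : Str, u = pr x y → y.length = q.eval x.length →
    K x = true ∨ I (pr (on1 x.length) y) = true)

end Pool.Agent.Lib.Pa76659G
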