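import Pool.Agent.Lib.Pa76659G.HeSpec
import Pool.Agent.Lib.Pa76659H.Fin

/-!
The statements which turn out to be equivalent.
-/

set_option autoImplicit false

namespace Pool.Agent.Lib.Pa76659G

open Pool.Agent.Lib.Pa76659
open Pool.Agent.Lib.Pa76659H (High RHighSucc)

/-- The sets with hints `hint K I q`, `I ∈ NP`, are Turing complete if hints `f(1^m)` for all lengths
`m` are given by a function `f` in `FP^NP`. -/
def HintsComplete (X K : Lang) : Prop :=
  ∀ I ∈ NPO X, ∀ q : Polynomial ℕ, ∀ B ∈ NPO X, ∀ f ∈ FPO B,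
    (∀ m : ℕ, (f (on1 m)).length = q.eval m ∧ I (pr (on1 m) (f (on1 m))) = false) →
      hint K I q ∈ RHighSucc X 0

/-- The sets `A ∈ NP` which are Turing complete with advice `f(1^|x|)`, `f` in `FP^NP`, are Turing
complete. -/
def AdviceComplete (X K : Lang) : Prop :=
  ∀ A ∈ NPO X, ∀ E ∈ PO (join X A), ∀ B ∈ NPO X, ∀ f ∈ FPO B,
    (∀ x : Str, K x = E (pr x (f (on1 x.length)))) → A ∈ RHighSucc X 0

/-- All functions in `FP^NP` are computed on unary inputs `1^n` in polynomial time with queries to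
`X` and with queries of length at most `n^(1/k)` to `K`. -/
def ShortAll (X K : Lang) (k : ℕ) : Prop :=
  ∀ B ∈ NPO X, ∀ f ∈ FPO B, ShortFP X K k f

end Pool.Agent.Lib.Pa76659G
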