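import Pool.Agent.Lib.Pa76659G.HeA
import Pool.Agent.Lib.Pa76659G.HcC

set_option autoImplicit false

/-!
Sets in `H_1` with keys which are verified in `coNP`, for two interleaved step functions.
-/

namespace Pool.Agent.Lib.Pa76659G

open Pool.Agent.Lib.Pa76659 PC
open Pool.Agent.Lib.Pa76659H (High RHighSucc TComp)

namespace Hf

open He (s2 s2_poly s2_le s2_ge s2_pos s2_key par par_lt SB)

section
variable (X I : Lang) (q g : Polynomial ℕ) (b : ℕ)

/-- the condition on the key -/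
noncomputable def key (u : Str) : Bool :=
  !(decide ((snd u).length = q.eval (s2 g b (fst u).length))) ||
    I (pr (on1 (s2 g b (fst u).length)) (snd u))

/-- the set in `H_1` -/
noncomputable def AK : Lang := fun u => Hi.Kp X 1 (fst u) || key I q g b u

end

section
variable {X I : Lang} {q g : Polynomial ℕ} {b : ℕ}

theorem AK_mem (hI : I ∈ NPO X) : AK X I q g b ∈ NPO X := by
  have hx : PolyC (fun _ : Str => X) (fun _ => True) [fun x => x] (fun x => x) :=
    PolyC.var (by simp)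
  have hf := PolyC.fst hx
  have hn := s2_poly (g := g) (b := b) (PolyN.length hf)
  have h1 : (fun u => Hi.Kp X 1 (fst u)) ∈ NPO X := by
    have h2 : (fun u => Unv.KU X (fst (fst u))) ∈ NPO X :=
      NPO_comp (Unv.KU_mem X) (PolyC.fst hf)
    have h3 := Hc.NPO_and h2 (Hc.mem_NPO_PO (mem_PO (Hi.pw_poly (O := X) (k := 1) hf)))
    exact h3
  have h4 : (fun u => I (pr (on1 (s2 g b (fst u).length)) (snd u))) ∈ NPO X :=
    NPO_comp hI (PolyC.pr (t := fun u : Str => on1 (s2 g b (fst u).length)) hn (PolyC.snd hx))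
  have h5 := Hc.NPO_or (Hc.mem_NPO_PO (mem_PO (PolyB.natEq (PolyN.length (PolyC.snd hx))
    (hn.poly q)).not)) h4
  exact Hc.NPO_or h1 h5

theorem coK_mem (tot : ∀ m : ℕ, ∃ y : Str, y.length = q.eval m ∧
    I (pr (on1 m) y) = false) : (fun z => !(Unv.KU X z)) ∈ NPO (join X (AK X I q g b)) := by
  set O := join X (AK X I q g b) with hO
  have hz : PolyC (fun _ : Str × Str => O) (fun _ => True) [fun p => p.1, fun p => p.2]
    (fun p => p.1) := PolyC.var (by simp)
  have hy : PolyC (fun _ : Str × Str => O) (fun _ => True) [fun p => p.1, fun p => p.2]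
    (fun p => p.2) := PolyC.var (by simp)
  have hpr := PolyC.pr (Hi.pd_poly (k := 1) hz) hy
  have h2 := (polyB_of_PO (right_PO X (AK X I q g b)) hpr).not
  refine mem_NPO_le ((q.comp (SB g)).comp
    (2 * Polynomial.X + 1 + (Polynomial.X + 1) ^ 1)) h2 (fun z => ?_)
  have hlen : (2 * Polynomial.X + 1 + (Polynomial.X + 1) ^ 1 : Polynomial ℕ).eval z.length =
      (Hi.pd 1 z).length := by
    unfold Hi.pd
    rw [pr_length, PC.un_length]
    simp
  rw [Polynomial.eval_comp, hlen, Polynomial.eval_comp]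
  simp only [Bool.not_eq_true']
  have hA : ∀ y : Str, AK X I q g b (pr (Hi.pd 1 z) y) =
      (Unv.KU X z || key I q g b (pr (Hi.pd 1 z) y)) := by
    intro y
    unfold AK
    rw [fst_pr, Hi.Kp_pd]
  constructor
  · intro h3
    obtain ⟨y, hy1, hy2⟩ := tot (s2 g b (Hi.pd 1 z).length)
    refine ⟨y, ?_, ?_⟩
    · rw [hy1]
      exact eval_mono q (s2_le g b _)
    rw [hA, h3, Bool.false_or]
    unfold key
    rw [fst_pr, snd_pr, hy2, decide_eq_true hy1]
    simp
  · rintro ⟨y, -, h5⟩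
    rw [hA, Bool.or_eq_false_iff] at h5
    exact h5.1

theorem AK_high (hI : I ∈ NPO X) (tot : ∀ m : ℕ, ∃ y : Str, y.length = q.eval m ∧
    I (pr (on1 m) y) = false) : AK X I q g b ∈ High X 1 := by
  refine ⟨AK_mem hI, ?_⟩
  rintro L ⟨B, ⟨B0, hB0, hB⟩, hL⟩
  set O := join X (AK X I q g b) with hO
  have hB' : B ∈ NPO X := NPO_subset hB0 hB
  obtain ⟨red, hr1, hr2⟩ := Unv.KU_hard hB'
  have hK : Unv.KU X ∈ NPO O := NPO_subset (left_PO _ _) (Unv.KU_mem X)
  have hlow : Unv.KU X ∈ Low O 1 := low1_iff.2 ⟨hK, coK_mem tot⟩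
  have hBj : B ∈ PO (join O (Unv.KU X)) :=
    mem_PO ((polyB_of_PO (right_PO O (Unv.KU X)) (hr1 _)).congr (fun x _ => hr2 x))
  exact hlow.2 ⟨join O (Unv.KU X), query_mem _, NPO_subset hBj hL⟩

end

end Hf

end Pool.Agent.Lib.Pa76659G
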