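import Pool.Agent.Lib.Pa76659G.HfB
import Pool.Agent.Lib.Pa76659G.HcD
import Pool.Agent.Lib.Pa76659G.UoFP

set_option autoImplicit false

/-!
If `\hat H_1 = H_1` then subexponential time lists contain good keys, at all lengths.
-/

namespace Pool.Agent.Lib.Pa76659G

open Pool.Agent.Lib.Pa76659 PC
open Pool.Agent.Lib.Pa76659H (High RHighSucc TComp)

namespace Hf

open Hc (rr Pf Pf_mem srch srch_length srch_or)
open He (s2 s2_poly s2_le s2_ge s2_pos s2_key par par_lt SB)

theorem on1l (n : ℕ) : (on1 n).length = n := by rw [on1_eq, PC.un_length]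

section
variable (X : Lang) (V : Str × Str → Bool) (q q1 g : Polynomial ℕ) (b : ℕ) (M : Prog)
  (p : Polynomial ℕ)

/-- the search by prefixes with the fallible decider -/
noncomputable def sr (red : Str → Str) (N : ℕ) (u : Str) (i : ℕ) : Str :=
  srch (fun z => Dd X V q q1 g b M p N (red (pr u z))) i

/-- the calls of the decider -/
noncomputable def cl (red : Str → Str) (N : ℕ) (u : Str) (i : ℕ) : Str :=
  red (pr u (sr X V q q1 g b M p red N u i ++ [true]))

end

section
variable {X I : Lang} {V : Str × Str → Bool} {q q1 g : Polynomial ℕ} {b : ℕ} {M : Prog}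
  {p : Polynomial ℕ} {red : Str → Str} {N : ℕ}

theorem sr_length (u : Str) (i : ℕ) : (sr X V q q1 g b M p red N u i).length = i :=
  srch_length _ _

theorem level {W : Str × Str → Bool} {l : Polynomial ℕ}
    (hred : ∀ w, Unv.KU X (red w) = Pf W l w) (u : Str)
    (h0 : ∃ y : Str, y.length = l.eval u.length ∧ W (u, y) = true) :
    W (u, sr X V q q1 g b M p red N u (l.eval u.length)) = true ∨
      ∃ i < l.eval u.length, Dd X V q q1 g b M p N (cl X V q q1 g b M p red N u i) ≠
        Unv.KU X (cl X V q q1 g b M p red N u i) := by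
  classical
  rcases srch_or (P := fun y => W (u, y) = true)
    (fun z => Dd X V q q1 g b M p N (red (pr u z))) h0 with h | ⟨i, hi, h⟩
  · exact Or.inl h
  · refine Or.inr ⟨i, hi, fun he => h ?_⟩
    unfold cl sr at he
    rw [he, hred]
    unfold Pf
    rw [decide_eq_true_eq, fst_pr, snd_pr]

theorem cl_length {pl : Polynomial ℕ} (hpl : ∀ x : Str, (red x).length ≤ pl.eval x.length)
    {l : Polynomial ℕ} (u : Str) {i : ℕ} (hi : i < l.eval u.length) :
    (cl X V q q1 g b M p red N u i).length ≤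
      (pl.comp (2 * Polynomial.X + 1 + l)).eval u.length := by
  unfold cl
  refine (hpl _).trans ?_
  rw [Polynomial.eval_comp]
  refine eval_mono pl ?_
  rw [pr_length, List.length_append, sr_length]
  simp only [Polynomial.eval_add, Polynomial.eval_mul, Polynomial.eval_ofNat, Polynomial.eval_X,
    Polynomial.eval_one, List.length_singleton]
  omega

end

section
variable {α : Type} {D : α → Prop} {ctx : List (α → Str)} {X : Lang} {V : Str × Str → Bool}
  {q q1 g : Polynomial ℕ} {b : ℕ} {red : Str → Str}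

theorem sr_poly (hV : PolyB (fun _ : Str × Str => X) (fun _ => True) [fun p => p.1, fun p => p.2] V)
    (M : Prog) (p : Polynomial ℕ)
    (hr : PolyC (fun _ : Str => X) (fun _ => True) [fun x => x] red)
    {n i : α → ℕ} {u : α → Str} (hn : PolyN (fun _ => X) D ctx n)
    (hu : PolyC (fun _ => X) D ctx u) (hi : PolyN (fun _ => X) D ctx i) :
    PolyC (fun _ => X) D ctx (fun a => sr X V q q1 g b M p red (n a) (u a) (i a)) := by
  obtain ⟨pi, hpi⟩ := PolyC.length_le hi
  refine PolyC.natRec (fun a j => sr X V q q1 g b M p red (n a) (u a) j) hi PolyC.nil ?_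
    ⟨pi, fun a ha j hj => ?_⟩
  · set ctx' : List (α × ℕ → Str) := PC.lift ctx ++ [fun z => una z.2,
      fun z => sr X V q q1 g b M p red (n z.1) (u z.1) z.2] with hctx'
    have hF : PolyC (fun _ : α × ℕ => X) (fun z => D z.1 ∧ z.2 < i z.1) ctx'
      (fun z => sr X V q q1 g b M p red (n z.1) (u z.1) z.2) :=
      PolyC.var (by simp [hctx'])
    have hn' : PolyN (fun _ : α × ℕ => X) (fun z => D z.1 ∧ z.2 < i z.1) ctx'
      (fun z => n z.1) := (PolyC.lift hn (fun z hz => hz.1)).weakenRight _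
    have hu' : PolyC (fun _ : α × ℕ => X) (fun z => D z.1 ∧ z.2 < i z.1) ctx'
      (fun z => u z.1) := (PolyC.lift hu (fun z hz => hz.1)).weakenRight _
    have h1 := PolyC.arg hr (PolyC.pr hu' (hF.append (PolyC.const [true])))
    have h2 := Dd_poly (q := q) (q1 := q1) (g := g) (b := b) hV M p hn' h1
    have h3 : PolyC (fun _ : α × ℕ => X) (fun z => D z.1 ∧ z.2 < i z.1) ctx'
      (fun z => [Dd X V q q1 g b M p (n z.1) (red (pr (u z.1)
        (sr X V q q1 g b M p red (n z.1) (u z.1) z.2 ++ [true])))]) := h2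
    exact (hF.append h3).congr (fun z _ => rfl)
  · rw [sr_length]
    have h2 := hpi a ha
    rw [PC.un_length] at h2
    omega

theorem cl_poly (hV : PolyB (fun _ : Str × Str => X) (fun _ => True) [fun p => p.1, fun p => p.2] V)
    (M : Prog) (p : Polynomial ℕ)
    (hr : PolyC (fun _ : Str => X) (fun _ => True) [fun x => x] red)
    {n i : α → ℕ} {u : α → Str} (hn : PolyN (fun _ => X) D ctx n)
    (hu : PolyC (fun _ => X) D ctx u) (hi : PolyN (fun _ => X) D ctx i) :
    PolyC (fun _ => X) D ctx (fun a => cl X V q q1 g b M p red (n a) (u a) (i a)) :=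
  PolyC.arg hr (PolyC.pr hu ((sr_poly hV M p hr hn hu hi).append (PolyC.const [true])))

end

section
variable (X : Lang) (V : Str × Str → Bool) (q q1 g : Polynomial ℕ) (b : ℕ) (M : Prog)
  (p : Polynomial ℕ)

/-- the test whether the search for a witness fails -/
noncomputable def W2 (red1 : Str → Str) (z : Str × Str) : Bool :=
  !(V (pr (on1 z.1.length) (z.2.take (q.eval z.1.length)),
    sr X V q q1 g b M p red1 z.1.length
      (pr (on1 z.1.length) (z.2.take (q.eval z.1.length)))
      (q1.eval (pr (on1 z.1.length) (z.2.take (q.eval z.1.length))).length)))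

/-- the key found by the search -/
noncomputable def ys (red2 : Str → Str) (N : ℕ) : Str :=
  sr X V q q1 g b M p red2 N (on1 N) (q.eval (on1 N).length)

/-- the calls of the decider -/
noncomputable def call (red1 red2 : Str → Str) (N : ℕ) (c : ℕ) : Str :=
  if decide (c < q.eval (on1 N).length) = true then
    cl X V q q1 g b M p red2 N (on1 N) c
  else cl X V q q1 g b M p red1 N (pr (on1 N) (ys X V q q1 g b M p red2 N))
    (c - q.eval (on1 N).length)

/-- the lists -/
noncomputable def ff (red1 red2 : Str → Str) (N : ℕ) (c t : ℕ) : Str :=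
  if decide (t = 0) = true then pr (on1 N) (ys X V q q1 g b M p red2 N)
  else pr (on1 (s2 g b (fst (qt X V q q1 g b M N
      (call X V q q1 g b M p red1 red2 N c) (t - 1))).length))
    (snd (qt X V q q1 g b M N (call X V q q1 g b M p red1 red2 N c) (t - 1)))

end

section
variable {α : Type} {D : α → Prop} {ctx : List (α → Str)} {X : Lang} {V : Str × Str → Bool}
  {q q1 g : Polynomial ℕ} {b : ℕ} {red1 red2 : Str → Str}

theorem W2_poly (hV : PolyB (fun _ : Str × Str => X) (fun _ => True) [fun p => p.1, fun p => p.2] V)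
    (M : Prog) (p : Polynomial ℕ)
    (hr : PolyC (fun _ : Str => X) (fun _ => True) [fun x => x] red1) :
    PolyB (fun _ : Str × Str => X) (fun _ => True) [fun p => p.1, fun p => p.2]
      (W2 X V q q1 g b M p red1) := by
  have hz : PolyC (fun _ : Str × Str => X) (fun _ => True) [fun p => p.1, fun p => p.2]
    (fun p => p.1) := PolyC.var (by simp)
  have hy : PolyC (fun _ : Str × Str => X) (fun _ => True) [fun p => p.1, fun p => p.2]
    (fun p => p.2) := PolyC.var (by simp)
  have hn := PolyN.length hz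
  have hu := PolyC.pr (t := fun z : Str × Str => on1 z.1.length) hn
    (PolyC.take hy (hn.poly q))
  exact (PolyB.arg2 hV hu (sr_poly hV M p hr hn hu
    ((PolyN.length hu).poly q1))).not

theorem ys_poly (hV : PolyB (fun _ : Str × Str => X) (fun _ => True) [fun p => p.1, fun p => p.2] V)
    (M : Prog) (p : Polynomial ℕ)
    (hr2 : PolyC (fun _ : Str => X) (fun _ => True) [fun x => x] red2)
    {n : α → ℕ} (hn : PolyN (fun _ => X) D ctx n) :
    PolyC (fun _ => X) D ctx (fun a => ys X V q q1 g b M p red2 (n a)) := by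
  have hu : PolyC (fun _ => X) D ctx (fun a => on1 (n a)) := hn
  exact sr_poly hV M p hr2 hn hu ((PolyN.length hu).poly q)

theorem call_poly (hV : PolyB (fun _ : Str × Str => X) (fun _ => True) [fun p => p.1, fun p => p.2] V)
    (M : Prog) (p : Polynomial ℕ)
    (hr1 : PolyC (fun _ : Str => X) (fun _ => True) [fun x => x] red1)
    (hr2 : PolyC (fun _ : Str => X) (fun _ => True) [fun x => x] red2)
    {n c : α → ℕ} (hn : PolyN (fun _ => X) D ctx n)
    (hc : PolyN (fun _ => X) D ctx c) :
    PolyC (fun _ => X) D ctx (fun a => call X V q q1 g b M p red1 red2 (n a) (c a)) := by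
  have hu : PolyC (fun _ => X) D ctx (fun a => on1 (n a)) := hn
  have hq := (PolyN.length hu).poly q
  refine PolyC.ite (PolyB.lt hc hq)
    ((cl_poly hV M p hr2 hn hu hc).mono fun _ h => h.1)
    ((cl_poly hV M p hr1 hn (PolyC.pr (t := fun a => on1 (n a)) hn
      (ys_poly hV M p hr2 hn)) (hc.sub hq)).mono fun _ h => h.1)

theorem ff_poly (hV : PolyB (fun _ : Str × Str => X) (fun _ => True) [fun p => p.1, fun p => p.2] V)
    (M : Prog) (p : Polynomial ℕ)
    (hr1 : PolyC (fun _ : Str => X) (fun _ => True) [fun x => x] red1)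
    (hr2 : PolyC (fun _ : Str => X) (fun _ => True) [fun x => x] red2)
    {n c t : α → ℕ} (hn : PolyN (fun _ => X) D ctx n)
    (hc : PolyN (fun _ => X) D ctx c)
    (ht : PolyN (fun _ => X) D ctx t) :
    PolyC (fun _ => X) D ctx
      (fun a => ff X V q q1 g b M p red1 red2 (n a) (c a) (t a)) := by
  have h1 := qt_poly (q := q) (q1 := q1) (g := g) (b := b) hV M hn
    (call_poly (q := q) (q1 := q1) (g := g) (b := b) hV M p hr1 hr2 hn hc)
    (ht.sub (PolyN.const 1))
  refine PolyC.ite (PolyB.natEq ht (PolyN.const 0))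
    ((PolyC.pr (t := fun a => on1 (n a)) hn (ys_poly hV M p hr2 hn)).mono fun _ h => h.1)
    ((PolyC.pr (t := fun a => on1 _) (s2_poly (g := g) (b := b) (PolyN.length (PolyC.fst h1)))
      (PolyC.snd h1)).mono fun _ h => h.1)

end

/-- the search -/
theorem round {X I : Lang} {V : Str × Str → Bool} {q q1 g : Polynomial ℕ} {b : ℕ} {M : Prog}
    {p : Polynomial ℕ} {red1 red2 : Str → Str}
    (hIV : ∀ x, I x = true ↔ ∃ y : Str, y.length = q1.eval x.length ∧ V (x, y) = true)
    (tot : ∀ m : ℕ, ∃ y : Str, y.length = q.eval m ∧ I (pr (on1 m) y) = false)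
    (hM : ∀ x : Str, Unv.KU X x =
      accepts (join X (AK X I q g b)) M (inp x) (p.eval x.length))
    (hr1' : ∀ w, Unv.KU X (red1 w) = Pf V q1 w)
    (hr2' : ∀ w, Unv.KU X (red2 w) = Pf (W2 X V q q1 g b M p red1) q w)
    {pl1 pl2 : Polynomial ℕ} (hpl1 : ∀ x : Str, (red1 x).length ≤ pl1.eval x.length)
    (hpl2 : ∀ x : Str, (red2 x).length ≤ pl2.eval x.length) {N : ℕ} (hN : N ≠ 0)
    {P U L1 L2 : Polynomial ℕ} (hU : U = 2 * Polynomial.X + 1 + q)
    (hL1 : L1 = (pl1.comp (2 * Polynomial.X + 1 + q1)).comp U)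
    (hL2 : L2 = pl2.comp (2 * Polynomial.X + 1 + q))
    (hP : P = q + q1.comp U + (p.comp L1 + p.comp L2) + 1) :
    ∃ c ≤ P.eval N, ∃ t ≤ P.eval N,
      ∃ (m : ℕ) (y : Str), ff X V q q1 g b M p red1 red2 N c t = pr (on1 m) y ∧
        y.length = q.eval m ∧ I (pr (on1 m) y) = false ∧
        (m = N ∨ ((∃ m', m = s2 g b m') ∧ Nat.log 2 N < (rr q q1).eval m)) := by
  classical
  have hPe : P.eval N = q.eval N + q1.eval (U.eval N) + (p.eval (L1.eval N) + p.eval (L2.eval N)) +
      1 := by
    rw [hP]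
    simp only [Polynomial.eval_add, Polynomial.eval_one, Polynomial.eval_comp]
  -- a wrong call gives a good key
  have wrong : ∀ c, c ≤ P.eval N →
      p.eval (call X V q q1 g b M p red1 red2 N c).length + 1 ≤ P.eval N →
      Dd X V q q1 g b M p N (call X V q q1 g b M p red1 red2 N c) ≠
        Unv.KU X (call X V q q1 g b M p red1 red2 N c) →
      ∃ c ≤ P.eval N, ∃ t ≤ P.eval N, ∃ (m : ℕ) (y : Str),
        ff X V q q1 g b M p red1 red2 N c t = pr (on1 m) y ∧
        y.length = q.eval m ∧ I (pr (on1 m) y) = false ∧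
        (m = N ∨ ((∃ m', m = s2 g b m') ∧ Nat.log 2 N < (rr q q1).eval m)) := by
    intro c hc hlen hne
    obtain ⟨t, ht, hs1, hs2, hs3⟩ := Dd_or (M := M) (p := p) hIV hN
      (L := Unv.KU X) hM hne
    refine ⟨c, hc, t + 1, by omega, _, _, ?_, hs1, hs2, Or.inr ⟨⟨_, rfl⟩, hs3⟩⟩
    unfold ff
    rw [if_neg (by simp), Nat.add_sub_cancel]
  set ystar := ys X V q q1 g b M p red2 N with hys
  have hysl : ystar.length = q.eval N := by
    rw [hys]
    unfold ys
    rw [sr_length, on1l]
  have hul : (pr (on1 N) ystar).length ≤ U.eval N := by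
    rw [pr_length, on1l, hysl, hU]
    simp only [Polynomial.eval_add, Polynomial.eval_mul, Polynomial.eval_ofNat, Polynomial.eval_X,
      Polynomial.eval_one]
    omega
  rcases level (X := X) (V := V) (q := q) (q1 := q1) (g := g) (b := b) (M := M) (p := p)
    (N := N) hr2' (on1 N) (by
      obtain ⟨y, hy1, hy2⟩ := tot N
      refine ⟨y, by rw [on1l]; exact hy1, ?_⟩
      unfold W2
      rw [Bool.not_eq_true', on1l, List.take_of_length_le hy1.le]
      by_contra h1
      rw [Bool.not_eq_false] at h1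
      have h2 : I (pr (on1 N) y) = true := (hIV _).2 ⟨_, sr_length _ _, h1⟩
      rw [hy2] at h2
      exact absurd h2 (by simp)) with h1 | ⟨i, hi, h1⟩
  · change W2 X V q q1 g b M p red1 (on1 N, ystar) = true at h1
    unfold W2 at h1
    rw [Bool.not_eq_true', on1l, List.take_of_length_le hysl.le] at h1
    cases hIy : I (pr (on1 N) ystar)
    · refine ⟨0, Nat.zero_le _, 0, Nat.zero_le _, N, ystar, ?_, hysl, hIy, Or.inl rfl⟩
      unfold ff
      rw [if_pos (by simp)]
    · rcases level (X := X) (V := V) (q := q) (q1 := q1) (g := g) (b := b) (M := M)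
        (p := p) (N := N) hr1' (pr (on1 N) ystar) ((hIV _).1 hIy) with h2 | ⟨i, hi, h2⟩
      · rw [h1] at h2
        exact absurd h2 (by simp)
      · have hc : call X V q q1 g b M p red1 red2 N (q.eval N + i) =
            cl X V q q1 g b M p red1 N (pr (on1 N) ystar) i := by
          unfold call
          rw [on1l, if_neg (by rw [decide_eq_true_eq]; omega), Nat.add_sub_cancel_left]
        have hl := cl_length (X := X) (V := V) (q := q) (q1 := q1) (g := g) (b := b)
          (M := M) (p := p) (N := N) hpl1 (pr (on1 N) ystar) hi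
        have hl' : (cl X V q q1 g b M p red1 N (pr (on1 N) ystar) i).length ≤ L1.eval N := by
          rw [hL1, Polynomial.eval_comp]
          exact hl.trans (eval_mono _ hul)
        have h3 := eval_mono p hl'
        have h4 := eval_mono q1 hul
        refine wrong (q.eval N + i) (by omega) ?_ ?_
        · rw [hc]
          omega
        · rw [hc]
          exact h2
  · rw [on1l] at hi
    have hc : call X V q q1 g b M p red1 red2 N i =
        cl X V q q1 g b M p red2 N (on1 N) i := by
      unfold call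
      rw [if_pos (by rw [decide_eq_true_eq, on1l]; exact hi)]
    have hl := cl_length (X := X) (V := V) (q := q) (q1 := q1) (g := g) (b := b)
      (M := M) (p := p) (N := N) hpl2 (l := q) (on1 N) (by rw [on1l]; exact hi)
    rw [on1l] at hl
    have hl' : (cl X V q q1 g b M p red2 N (on1 N) i).length ≤ L2.eval N := by
      rw [hL2]
      exact hl
    have h3 := eval_mono p hl'
    refine wrong i (by omega) ?_ ?_
    · rw [hc]
      omega
    · rw [hc]
      exact h1

/-- lists for one of the two parities -/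
theorem lists_par {X I : Lang} {q g : Polynomial ℕ} {V : Str × Str → Bool} {q1 : Polynomial ℕ}
    (h : High X 1 ⊆ RHighSucc X 0)
    (hV : PolyB (fun _ : Str × Str => X) (fun _ => True) [fun p => p.1, fun p => p.2] V)
    (hIV : ∀ x, I x = true ↔ ∃ y : Str, y.length = q1.eval x.length ∧ V (x, y) = true)
    (hI : I ∈ NPO X)
    (tot : ∀ m : ℕ, ∃ y : Str, y.length = q.eval m ∧ I (pr (on1 m) y) = false) (b : ℕ) :
    ∃ f ∈ FPO X, ∃ P : Polynomial ℕ, ∀ N : ℕ, ∃ c ≤ P.eval N, ∃ t ≤ P.eval N,
      ∃ (m : ℕ) (y : Str), f (pr (on1 N) (pr (on1 c) (on1 t))) = pr (on1 m) y ∧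
        y.length = q.eval m ∧ I (pr (on1 m) y) = false ∧
        (m = N + 1 ∨ ((∃ m', m = s2 g b m') ∧ Nat.log 2 (N + 1) < (rr q q1).eval m)) := by
  classical
  obtain ⟨B, hB, hLB⟩ := (h (AK_high (g := g) (b := b) hI tot)).2
    ⟨Unv.KU X, ⟨X, query_mem X, Unv.KU_mem X⟩, query_mem _⟩
  obtain ⟨M, p, hM⟩ := PO_subset hB hLB
  obtain ⟨red1, hr1, hr1'⟩ := Unv.KU_hard (Pf_mem (l := q1) hV)
  obtain ⟨red2, hr2, hr2'⟩ := Unv.KU_hard (Pf_mem (l := q)
    (W2_poly (q := q) (q1 := q1) (g := g) (b := b) hV M p (hr1 X)))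
  obtain ⟨pl1, hpl1⟩ := (hr1 X).length_le
  obtain ⟨pl2, hpl2⟩ := (hr2 X).length_le
  have hpl1' : ∀ x : Str, (red1 x).length ≤ pl1.eval x.length := fun x => by
    have := hpl1 x trivial
    simpa using this
  have hpl2' : ∀ x : Str, (red2 x).length ≤ pl2.eval x.length := fun x => by
    have := hpl2 x trivial
    simpa using this
  obtain ⟨U, hU⟩ : ∃ U : Polynomial ℕ, U = 2 * Polynomial.X + 1 + q := ⟨_, rfl⟩
  obtain ⟨L1, hL1⟩ : ∃ L : Polynomial ℕ, L = (pl1.comp (2 * Polynomial.X + 1 + q1)).comp U :=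
    ⟨_, rfl⟩
  obtain ⟨L2, hL2⟩ : ∃ L : Polynomial ℕ, L = pl2.comp (2 * Polynomial.X + 1 + q) := ⟨_, rfl⟩
  obtain ⟨P, hP⟩ : ∃ P : Polynomial ℕ, P = q + q1.comp U + (p.comp L1 + p.comp L2) + 1 := ⟨_, rfl⟩
  refine ⟨fun w => ff X V q q1 g b M p red1 red2 ((fst w).length + 1)
    (fst (snd w)).length (snd (snd w)).length, ?_,
    P.comp (Polynomial.X + 1), fun N0 => ?_⟩
  · have hx : PolyC (fun _ : Str => X) (fun _ => True) [fun x => x] (fun x => x) :=
      PolyC.var (by simp)
    have h1 := PolyC.snd hx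
    exact Uo.FPO_of_polyC (ff_poly hV M p (hr1 X) (hr2 X) (PolyN.length (PolyC.fst hx)).succ
      (PolyN.length (PolyC.fst h1)) (PolyN.length (PolyC.snd h1)))
  · obtain ⟨c, hc, t, ht, m, y, h1, h2, h3, h4⟩ := round hIV tot
      (fun x => (hM x).2) hr1' hr2' hpl1' hpl2' (Nat.succ_ne_zero N0) hU hL1 hL2 hP
    have e : (P.comp (Polynomial.X + 1)).eval N0 = P.eval (N0 + 1) := by
      simp [Polynomial.eval_comp]
    rw [e]
    refine ⟨c, hc, t, ht, m, y, ?_, h2, h3, h4⟩
    simp only [fst_pr, snd_pr, on1l]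
    exact h1

theorem Lk_succ_le (k N : ℕ) : Hi.Lk k N ≤ Hi.Lk (k + 1) (N + 1) := by
  rcases Nat.eq_zero_or_pos N with rfl | h
  · exact (min_le_left _ _).trans (Nat.zero_le _)
  · have h1 : 1 ≤ Nat.log 2 (N + 1) := Nat.log_pos (by norm_num) (by omega)
    refine min_le_min (Nat.le_succ N) ?_
    exact (Nat.pow_le_pow_left (Nat.log_mono_right (Nat.le_succ N)) k).trans
      (Nat.pow_le_pow_right h1 (Nat.le_succ k))

/-- If `\hat H_1 = H_1` then subexponential time lists contain good keys, at all lengths. -/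
theorem lists_gen {X I : Lang} {q : Polynomial ℕ} (h : High X 1 ⊆ RHighSucc X 0)
    (hI : I ∈ NPO X)
    (tot : ∀ m : ℕ, ∃ y : Str, y.length = q.eval m ∧ I (pr (on1 m) y) = false) (k : ℕ) :
    ∃ f ∈ FPO X, ∃ P : Polynomial ℕ, ∀ N : ℕ, ∃ a ≤ P.eval N, ∃ c ≤ P.eval N, ∃ t ≤ P.eval N,
      ∃ (m : ℕ) (y : Str), f (pr (on1 N) (pr (on1 a) (pr (on1 c) (on1 t)))) = pr (on1 m) y ∧
        y.length = q.eval m ∧ I (pr (on1 m) y) = false ∧ Hi.Lk k N ≤ m := by
  classical
  obtain ⟨V, q1, hV, hIV⟩ := exists_of_NPO hI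
  set g : Polynomial ℕ := (rr q q1) ^ (k + 1) with hg
  obtain ⟨f0, hf0, P0, h0⟩ := lists_par (g := g) h hV hIV hI tot 0
  obtain ⟨f1, hf1, P1, h1⟩ := lists_par (g := g) h hV hIV hI tot 1
  refine ⟨fun w => if decide ((fst (snd w)).length = 0) = true then
      f0 (pr (on1 (fst w).length) (snd (snd w))) else f1 (pr (on1 (fst w).length) (snd (snd w))),
    ?_, P0 + P1 + 1, fun N => ?_⟩
  · have hx : PolyC (fun _ : Str => X) (fun _ => True) [fun x => x] (fun x => x) :=
      PolyC.var (by simp)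
    have h2 := PolyC.snd hx
    have h3 := PolyC.pr (t := fun w : Str => on1 (fst w).length) (PolyN.length (PolyC.fst hx))
      (PolyC.snd h2)
    refine Uo.FPO_of_polyC (PolyC.ite (PolyB.natEq (PolyN.length (PolyC.fst h2)) (PolyN.const 0))
      ((PolyC.arg (Uo.polyC_of_FPO hf0) h3).mono fun _ h => h.1)
      ((PolyC.arg (Uo.polyC_of_FPO hf1) h3).mono fun _ h => h.1))
  · have key : ∀ (b : ℕ), b = par g (Hi.Lk (k + 1) (N + 1)) → ∀ m : ℕ,
        (m = N + 1 ∨ ((∃ m', m = s2 g b m') ∧ Nat.log 2 (N + 1) < (rr q q1).eval m)) →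
        Hi.Lk k N ≤ m := by
      intro b hb m hm
      refine (Lk_succ_le k N).trans ?_
      rcases hm with rfl | ⟨⟨m', rfl⟩, h3⟩
      · exact min_le_left _ _
      · by_contra h4
        rw [not_le] at h4
        have h5 : s2 g b m' < s2 g b (Hi.Lk (k + 1) (N + 1)) := h4.trans_le (s2_ge g b _)
        rw [hb] at h5
        have h6 := s2_key g _ _ h5
        rw [← hb] at h6
        have h7 : g.eval (s2 g b m') = (rr q q1).eval (s2 g b m') ^ (k + 1) := by
          rw [hg, Polynomial.eval_pow]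
        rw [h7] at h6
        have h8 : Hi.Lk (k + 1) (N + 1) ≤ Nat.log 2 (N + 1) ^ (k + 1) := min_le_right _ _
        have h10 : Nat.log 2 (N + 1) ^ (k + 1) < (rr q q1).eval (s2 g b m') ^ (k + 1) :=
          Nat.pow_lt_pow_left h3 (Nat.succ_ne_zero k)
        omega
    have e : (P0 + P1 + 1).eval N = P0.eval N + P1.eval N + 1 := by simp
    rw [e]
    by_cases hp : par g (Hi.Lk (k + 1) (N + 1)) = 0
    · obtain ⟨c, hc, t, ht, m, y, h2, h3, h4, h5⟩ := h0 N
      refine ⟨0, by omega, c, by omega, t, by omega, m, y, ?_, h3, h4, key 0 hp.symm m h5⟩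
      simp only [fst_pr, snd_pr, on1l]
      rw [if_pos (by simp)]
      exact h2
    · have hp1 : par g (Hi.Lk (k + 1) (N + 1)) = 1 := by
        have := par_lt g (Hi.Lk (k + 1) (N + 1))
        omega
      obtain ⟨c, hc, t, ht, m, y, h2, h3, h4, h5⟩ := h1 N
      refine ⟨1, by omega, c, by omega, t, by omega, m, y, ?_, h3, h4, key 1 hp1.symm m h5⟩
      simp only [fst_pr, snd_pr, on1l]
      rw [if_neg (by simp)]
      exact h2

end Hf

end Pool.Agent.Lib.Pa76659G
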