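import Pool.Agent.Lib.Pa76659G.Spec

/-!
Oblivious symmetric alternation.
-/

set_option autoImplicit false

namespace Pool.Agent.Lib.Pa76659G

open Pool.Agent.Lib.Pa76659

/-- The class `O_2^p` (oblivious symmetric alternation) relative to `X`: for every length `n` there
are strings `y`, `z` of length `q(n)` such that for all `x` of length `n`: if `x ∈ L` then `D`
accepts `(x, y, z')` for all `z'` of length `q(n)`; if `x ∉ L` then `D` rejects `(x, y', z)` for all
`y'` of length `q(n)`. -/
def OTwo (X : Lang) : Set Lang :=
  {L | ∃ D ∈ PO X, ∃ q : Polynomial ℕ, ∀ n : ℕ, ∃ y z : Str,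
    y.length = q.eval n ∧ z.length = q.eval n ∧ ∀ x : Str, x.length = n →
      (L x = true → ∀ z' : Str, z'.length = q.eval n → D (pr x (pr y z')) = true) ∧
      (L x = false → ∀ y' : Str, y'.length = q.eval n → D (pr x (pr y' z)) = false)}

end Pool.Agent.Lib.Pa76659G
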