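import Pool.Agent.Lib.Pa76659G.HfC
import Pool.Agent.Lib.Pa76659G.HdX
import Pool.Agent.Lib.Pa76659G.HfSpec

set_option autoImplicit false

/-!
If `\hat H_1 = H_1` then `O_2^p` is in subexponential time.
-/

namespace Pool.Agent.Lib.Pa76659G

open Pool.Agent.Lib.Pa76659 PC
open Pool.Agent.Lib.Pa76659H (High RHighSucc TComp)

namespace Hf

/-- lists with one index -/
theorem lists_one {X I : Lang} {q : Polynomial ℕ} (h : High X 1 ⊆ RHighSucc X 0)
    (hI : I ∈ NPO X)
    (tot : ∀ m : ℕ, ∃ y : Str, y.length = q.eval m ∧ I (pr (on1 m) y) = false) (k : ℕ) :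
    ∃ f ∈ FPO X, ∃ P : Polynomial ℕ, ∀ N : ℕ, ∃ e ≤ P.eval N,
      ∃ (m : ℕ) (y : Str), f (pr (on1 N) (on1 e)) = pr (on1 m) y ∧
        y.length = q.eval m ∧ I (pr (on1 m) y) = false ∧ Hi.Lk k N ≤ m := by
  obtain ⟨f, hf, P, hP⟩ := lists_gen h hI tot k
  have hx : PolyC (fun _ : Str => X) (fun _ => True) [fun x => x] (fun x => x) :=
    PolyC.var (by simp)
  have h1 := PolyC.snd hx
  have h2 := PolyC.snd h1
  have h3 := PolyC.snd h2
  have hf' : (fun w : Str => f (pr (on1 (fst w).length) (pr (on1 (fst (snd w)).length)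
      (pr (on1 (fst (snd (snd w))).length) (on1 (fst (snd (snd (snd w)))).length))))) ∈ FPO X :=
    Uo.FPO_of_polyC (PolyC.arg (Uo.polyC_of_FPO hf)
      (PolyC.pr (t := fun w : Str => on1 (fst w).length) (PolyN.length (PolyC.fst hx))
        (PolyC.pr (t := fun w : Str => on1 (fst (snd w)).length) (PolyN.length (PolyC.fst h1))
          (PolyC.pr (t := fun w : Str => on1 (fst (snd (snd w))).length)
            (PolyN.length (PolyC.fst h2)) (PolyN.length (PolyC.fst h3))))))
  obtain ⟨f', hf'', P', h4⟩ := Hd.one_index hf' P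
  refine ⟨f', hf'', P', fun N => ?_⟩
  obtain ⟨a, ha, c, hc, t, ht, m, y, h5, h6⟩ := hP N
  obtain ⟨e, he, h7⟩ := h4 N a c t 0 ha hc ht (Nat.zero_le _)
  refine ⟨e, he, m, y, ?_, h6⟩
  rw [h7]
  simp only [fst_pr, snd_pr, on1l]
  exact h5

/-! ### Slots -/

section
variable (w : ℕ) (s : ℕ → Str)

/-- blocks -/
def blk : ℕ → Str
  | 0 => []
  | n + 1 => blk n ++ (s n ++ List.replicate (w - (s n).length) false)

theorem blk_length {n : ℕ} (h : ∀ i < n, (s i).length ≤ w) : (blk w s n).length = n * w := by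
  induction n with
  | zero => simp [blk]
  | succ n ih =>
    unfold blk
    rw [List.length_append, ih fun i hi => h i (by omega), List.length_append,
      List.length_replicate]
    have := h n (by omega)
    have e : (n + 1) * w = n * w + w := by ring
    omega

theorem blk_drop {n : ℕ} (h : ∀ i < n, (s i).length ≤ w) {i : ℕ} (hi : i < n) :
    ∃ r, (blk w s n).drop (i * w) = s i ++ r := by
  induction n with
  | zero => omega
  | succ n ih =>
    have hl := blk_length w s (n := n) fun i hi => h i (by omega)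
    unfold blk
    rcases Nat.lt_succ_iff_lt_or_eq.1 hi with h1 | h1
    · obtain ⟨r, hr⟩ := ih (fun i hi => h i (by omega)) h1
      refine ⟨r ++ (s n ++ List.replicate (w - (s n).length) false), ?_⟩
      rw [List.drop_append_of_le_length (by rw [hl]; exact Nat.mul_le_mul_right w h1.le), hr,
        List.append_assoc]
    · subst h1
      refine ⟨List.replicate (w - (s i).length) false, ?_⟩
      rw [← hl, List.drop_left]

end

/-- the slot `2 l + c` of the string `Y` (width `q(m)`), cut to the length `q(l)` -/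
noncomputable def sl (q : Polynomial ℕ) (m : ℕ) (Y : Str) (l c : ℕ) : Str :=
  ((Y.drop ((2 * l + c) * q.eval m)) ++ on1 (q.eval l)).take (q.eval l)

theorem sl_length (q : Polynomial ℕ) (m : ℕ) (Y : Str) (l c : ℕ) :
    (sl q m Y l c).length = q.eval l := by
  unfold sl
  rw [List.length_take, List.length_append, on1l]
  omega

theorem sl_blk {q : Polynomial ℕ} {m : ℕ} {s : ℕ → Str}
    (h : ∀ i < 2 * m + 2, (s i).length ≤ q.eval m) {l c : ℕ} (hl : l ≤ m) (hc : c < 2)
    (hs : (s (2 * l + c)).length = q.eval l) :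
    sl q m (blk (q.eval m) s (2 * m + 2)) l c = s (2 * l + c) := by
  obtain ⟨r, hr⟩ := blk_drop (q.eval m) s h (i := 2 * l + c) (by omega)
  unfold sl
  rw [hr, List.append_assoc, List.take_append_of_le_length (by omega),
    List.take_of_length_le (by omega)]

section
variable (D : Lang) (q : Polynomial ℕ)

/-- violations -/
noncomputable def Vi (p : Str × Str) : Bool :=
  decide ((fst p.2).length ≤ (fst p.1).length) &&
  (decide ((fst (snd p.2)).length = q.eval (fst p.2).length) &&
  (decide ((snd (snd p.2)).length = q.eval (fst p.2).length) &&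
  (!(D (pr (fst p.2) (pr (sl q (fst p.1).length (snd p.1) (fst p.2).length 0)
    (snd (snd p.2))))) &&
  D (pr (fst p.2) (pr (fst (snd p.2)) (sl q (fst p.1).length (snd p.1) (fst p.2).length 1))))))

open Classical in
/-- the set of the strings with violations -/
noncomputable def Iv : Lang := fun u => decide (∃ x y' z' : Str, x.length ≤ (fst u).length ∧
  y'.length = q.eval x.length ∧ z'.length = q.eval x.length ∧
  D (pr x (pr (sl q (fst u).length (snd u) x.length 0) z')) = false ∧
  D (pr x (pr y' (sl q (fst u).length (snd u) x.length 1))) = true)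

end

section
variable {α : Type} {X : Lang} {Dm : α → Prop} {ctx : List (α → Str)}

theorem sl_poly {q : Polynomial ℕ} {m l c : α → ℕ} {Y : α → Str}
    (hm : PolyN (fun _ => X) Dm ctx m) (hY : PolyC (fun _ => X) Dm ctx Y)
    (hl : PolyN (fun _ => X) Dm ctx l) (hc : PolyN (fun _ => X) Dm ctx c) :
    PolyC (fun _ => X) Dm ctx (fun a => sl q (m a) (Y a) (l a) (c a)) := by
  have h1 := PolyC.drop hY ((((PolyN.const 2).mul hl).add hc).mul (hm.poly q))
  have h2 : PolyC (fun _ => X) Dm ctx (fun a => on1 (q.eval (l a))) := hl.poly q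
  exact PolyC.take (h1.append h2) (hl.poly q)

theorem Vi_poly {D : Lang} (hD : D ∈ PO X) (q : Polynomial ℕ) :
    PolyB (fun _ : Str × Str => X) (fun _ => True) [fun p => p.1, fun p => p.2] (Vi D q) := by
  have hu : PolyC (fun _ : Str × Str => X) (fun _ => True) [fun p => p.1, fun p => p.2]
    (fun p => p.1) := PolyC.var (by simp)
  have hz : PolyC (fun _ : Str × Str => X) (fun _ => True) [fun p => p.1, fun p => p.2]
    (fun p => p.2) := PolyC.var (by simp)
  have hx := PolyC.fst hz
  have hy' := PolyC.fst (PolyC.snd hz)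
  have hz' := PolyC.snd (PolyC.snd hz)
  have hm := PolyN.length (PolyC.fst hu)
  have hl := PolyN.length hx
  have hY := PolyC.snd hu
  exact (PolyB.le hl hm).and ((PolyB.natEq (PolyN.length hy') (hl.poly q)).and
    ((PolyB.natEq (PolyN.length hz') (hl.poly q)).and
      ((polyB_of_PO hD (PolyC.pr hx (PolyC.pr (sl_poly (q := q) hm hY hl (PolyN.const 0)) hz'))).not.and
        (polyB_of_PO hD (PolyC.pr hx (PolyC.pr hy' (sl_poly (q := q) hm hY hl (PolyN.const 1))))))))

theorem Iv_mem {D : Lang} (hD : D ∈ PO X) (q : Polynomial ℕ) : Iv D q ∈ NPO X := by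
  classical
  refine mem_NPO_le (2 * Polynomial.X + 2 + 3 * q) (Vi_poly hD q) (fun u => ?_)
  unfold Iv
  rw [decide_eq_true_eq]
  constructor
  · rintro ⟨x, y', z', h1, h2, h3, h4, h5⟩
    refine ⟨pr x (pr y' z'), ?_, ?_⟩
    · rw [pr_length, pr_length, h2, h3]
      have h6 := h1.trans (fst_length_le u)
      have h7 := eval_mono q h6
      simp only [Polynomial.eval_add, Polynomial.eval_mul, Polynomial.eval_ofNat,
        Polynomial.eval_X]
      omega
    · unfold Vi
      simp only [fst_pr, snd_pr, h4, h5, Bool.not_false, Bool.and_true, Bool.and_eq_true,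
        decide_eq_true_eq]
      exact ⟨h1, h2, h3⟩
  · rintro ⟨z, -, hz⟩
    unfold Vi at hz
    simp only [Bool.and_eq_true, decide_eq_true_eq, Bool.not_eq_true'] at hz
    exact ⟨_, _, _, hz.1, hz.2.1, hz.2.2.1, hz.2.2.2.1, hz.2.2.2.2⟩

end

/-- the algorithm -/
noncomputable def Fo (f : Str → Str) (P q : Polynomial ℕ) (D : Lang) : Lang := fun u =>
  decide (∃ c < P.eval (fst u).length + 1, decide (∀ c' < P.eval (fst u).length + 1,
    D (pr (snd u) (pr
      (sl q (fst (f (pr (on1 (fst u).length) (on1 c)))).length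
        (snd (f (pr (on1 (fst u).length) (on1 c)))) (snd u).length 0)
      (sl q (fst (f (pr (on1 (fst u).length) (on1 c')))).length
        (snd (f (pr (on1 (fst u).length) (on1 c')))) (snd u).length 1))) = true) = true)

theorem Fo_mem {X : Lang} {f : Str → Str} (hf : f ∈ FPO X) (P q : Polynomial ℕ) {D : Lang}
    (hD : D ∈ PO X) : Fo f P q D ∈ PO X := by
  classical
  refine mem_PO ?_
  have hu : PolyC (fun _ : Str => X) (fun _ => True) [fun x => x] (fun x => x) :=
    PolyC.var (by simp)
  have hm := PolyN.length (PolyC.fst hu)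
  have hP := (hm.poly P).succ
  refine PolyB.exists_lt (φ := fun a : Str × ℕ => decide (∀ c' < P.eval (fst a.1).length + 1,
    D (pr (snd a.1) (pr
      (sl q (fst (f (pr (on1 (fst a.1).length) (on1 a.2)))).length
        (snd (f (pr (on1 (fst a.1).length) (on1 a.2)))) (snd a.1).length 0)
      (sl q (fst (f (pr (on1 (fst a.1).length) (on1 c')))).length
        (snd (f (pr (on1 (fst a.1).length) (on1 c')))) (snd a.1).length 1))) = true)) hP ?_
  have hu1 := (hu.lift (D' := fun a : Str × ℕ => True ∧ a.2 < P.eval (fst a.1).length + 1)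
    (fun _ _ => trivial)).weakenRight [fun p : Str × ℕ => una p.2]
  have hc1 : PolyN (fun _ : Str × ℕ => X)
      (fun a => True ∧ a.2 < P.eval (fst a.1).length + 1)
      (PC.lift [fun x : Str => x] ++ [fun p => una p.2]) (fun a => a.2) := PolyC.var (by simp)
  have hm1 := PolyN.length (PolyC.fst hu1)
  refine PolyB.forall_lt (φ := fun a : (Str × ℕ) × ℕ =>
    D (pr (snd a.1.1) (pr
      (sl q (fst (f (pr (on1 (fst a.1.1).length) (on1 a.1.2)))).length
        (snd (f (pr (on1 (fst a.1.1).length) (on1 a.1.2)))) (snd a.1.1).length 0)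
      (sl q (fst (f (pr (on1 (fst a.1.1).length) (on1 a.2)))).length
        (snd (f (pr (on1 (fst a.1.1).length) (on1 a.2)))) (snd a.1.1).length 1))))
    ((hm1.poly P).succ) ?_
  have lf : ∀ {t : Str × ℕ → Str}, PolyC (fun _ : Str × ℕ => X)
      (fun a => True ∧ a.2 < P.eval (fst a.1).length + 1)
      (PC.lift [fun x : Str => x] ++ [fun p => una p.2]) t →
      PolyC (fun _ : (Str × ℕ) × ℕ => X)
        (fun a => (True ∧ a.1.2 < P.eval (fst a.1.1).length + 1) ∧
          a.2 < P.eval (fst a.1.1).length + 1)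
        (PC.lift (PC.lift [fun x : Str => x] ++ [fun p => una p.2]) ++ [fun p => una p.2])
        (fun a => t a.1) := fun ht => (ht.lift (fun _ h => h.1)).weakenRight _
  have hc2 : PolyN (fun _ : (Str × ℕ) × ℕ => X)
        (fun a => (True ∧ a.1.2 < P.eval (fst a.1.1).length + 1) ∧
          a.2 < P.eval (fst a.1.1).length + 1)
        (PC.lift (PC.lift [fun x : Str => x] ++ [fun p => una p.2]) ++ [fun p => una p.2])
        (fun a => a.2) := PolyC.var (by simp)
  have hu2 := lf hu1
  have hcc := lf hc1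
  have hm2 := PolyN.length (PolyC.fst hu2)
  have hf' := Uo.polyC_of_FPO hf
  have hl2 := PolyN.length (PolyC.snd hu2)
  have g1 := PolyC.arg hf' (PolyC.pr (t := fun a : (Str × ℕ) × ℕ => on1 (fst a.1.1).length) hm2
    (show PolyC _ _ _ (fun a : (Str × ℕ) × ℕ => on1 a.1.2) from hcc))
  have g2 := PolyC.arg hf' (PolyC.pr (t := fun a : (Str × ℕ) × ℕ => on1 (fst a.1.1).length) hm2
    (show PolyC _ _ _ (fun a : (Str × ℕ) × ℕ => on1 a.2) from hc2))
  exact polyB_of_PO hD (PolyC.pr (PolyC.snd hu2) (PolyC.pr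
    (sl_poly (q := q) (PolyN.length (PolyC.fst g1)) (PolyC.snd g1) hl2 (PolyN.const 0))
    (sl_poly (q := q) (PolyN.length (PolyC.fst g2)) (PolyC.snd g2) hl2 (PolyN.const 1))))

/-- If `\hat H_1 = H_1` then `O_2^p` is in subexponential time. -/
theorem otwo {X L : Lang} (h : High X 1 ⊆ RHighSucc X 0) (hL : L ∈ OTwo X) (k : ℕ) :
    ∃ F ∈ PO X, ∀ (n : ℕ) (x : Str), x.length ≤ n → x.length ≤ Nat.log 2 n ^ k →
      F (pr (on1 n) x) = L x := by
  classical
  obtain ⟨D, hD, q, hq⟩ := hL
  choose y z hy hz hyz using hq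
  -- the total search problem
  have tot : ∀ m : ℕ, ∃ Y : Str, Y.length = ((2 * Polynomial.X + 2) * q).eval m ∧
      Iv D q (pr (on1 m) Y) = false := by
    intro m
    obtain ⟨s, hs⟩ : ∃ s : ℕ → Str, s = fun i => if i % 2 = 0 then y (i / 2) else z (i / 2) :=
      ⟨_, rfl⟩
    have hs0 : ∀ l, s (2 * l + 0) = y l := by
      intro l
      rw [hs]
      beta_reduce
      rw [if_pos (by omega), show (2 * l + 0) / 2 = l by omega]
    have hs1 : ∀ l, s (2 * l + 1) = z l := by
      intro l
      rw [hs]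
      beta_reduce
      rw [if_neg (by omega), show (2 * l + 1) / 2 = l by omega]
    have hsl : ∀ i < 2 * m + 2, (s i).length ≤ q.eval m := by
      intro i hi
      have h1 : q.eval (i / 2) ≤ q.eval m := eval_mono q (by omega)
      rw [hs]
      beta_reduce
      split_ifs
      · rw [hy]
        exact h1
      · rw [hz]
        exact h1
    refine ⟨blk (q.eval m) s (2 * m + 2), ?_, ?_⟩
    · rw [blk_length _ _ hsl]
      simp
    · unfold Iv
      rw [decide_eq_false_iff_not, fst_pr, snd_pr, on1l]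
      rintro ⟨x, y', z', h1, h2, h3, h4, h5⟩
      rw [sl_blk hsl h1 (by norm_num) (by rw [hs0, hy]), hs0] at h4
      rw [sl_blk hsl h1 (by norm_num) (by rw [hs1, hz]), hs1] at h5
      cases hLx : L x
      · rw [(hyz x.length x rfl).2 hLx y' h2] at h5
        exact absurd h5 (by simp)
      · rw [(hyz x.length x rfl).1 hLx z' h3] at h4
        exact absurd h4 (by simp)
  obtain ⟨f, hf, P, hP⟩ := lists_one h (Iv_mem hD q) tot k
  refine ⟨Fo f P q D, Fo_mem hf P q hD, fun n x hx1 hx2 => ?_⟩
  obtain ⟨e, he, m, Y, h1, h2, h3, h4⟩ := hP n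
  have hlm : x.length ≤ m := (le_min hx1 hx2).trans h4
  -- the valid pair
  have hval : ∀ y' z' : Str, y'.length = q.eval x.length → z'.length = q.eval x.length →
      D (pr x (pr (sl q m Y x.length 0) z')) = false →
      D (pr x (pr y' (sl q m Y x.length 1))) = false := by
    intro y' z' hy' hz' h5
    by_contra h6
    rw [Bool.not_eq_false] at h6
    unfold Iv at h3
    rw [decide_eq_false_iff_not, fst_pr, snd_pr, on1l] at h3
    exact h3 ⟨x, y', z', hlm, hy', hz', h5, h6⟩
  have hF : Fo f P q D (pr (on1 n) x) = true ↔ ∃ c < P.eval n + 1, ∀ c' < P.eval n + 1,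
      D (pr x (pr (sl q (fst (f (pr (on1 n) (on1 c)))).length (snd (f (pr (on1 n) (on1 c))))
        x.length 0) (sl q (fst (f (pr (on1 n) (on1 c')))).length
          (snd (f (pr (on1 n) (on1 c')))) x.length 1))) = true := by
    unfold Fo
    simp only [fst_pr, snd_pr, on1l, decide_eq_true_eq]
  cases hLx : L x
  · rw [← Bool.not_eq_true, hF]
    rintro ⟨c, hc, h5⟩
    have h6 := h5 e (by omega)
    rw [h1, fst_pr, snd_pr, on1l] at h6
    have h7 := hval (sl q (fst (f (pr (on1 n) (on1 c)))).length (snd (f (pr (on1 n) (on1 c))))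
      x.length 0) (z x.length) (sl_length _ _ _ _ _) (hz _)
      ((hyz x.length x rfl).2 hLx _ (sl_length _ _ _ _ _))
    rw [h7] at h6
    exact absurd h6 (by simp)
  · rw [hF]
    refine ⟨e, by omega, fun c' hc' => ?_⟩
    rw [h1, fst_pr, snd_pr, on1l]
    by_contra h5
    rw [Bool.not_eq_true] at h5
    have h6 := hval (y x.length) _ (hy _) (sl_length _ _ _ _ _) h5
    rw [(hyz x.length x rfl).1 hLx _ (sl_length _ _ _ _ _)] at h6
    exact absurd h6 (by simp)

end Hf

end Pool.Agent.Lib.Pa76659G
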