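import Pool.Agent.Lib.Pa76659G.Spec

/-!
Existence of good shifts (for `BPP ⊆ O_2^p` without amplification).
-/

set_option autoImplicit false

namespace Pool.Agent.Lib.Pa76659G

open Pool.Agent.Lib.Pa76659

namespace Hf

/-- bitwise xor of strings -/
def sxor (v w : Str) : Str := List.zipWith xor v w

theorem sxor_length {v w : Str} {r : ℕ} (hv : v.length = r) (hw : w.length = r) :
    (sxor v w).length = r := by
  unfold sxor
  rw [List.length_zipWith, hv, hw, Nat.min_self]

theorem sxor_comm (v w : Str) : sxor v w = sxor w v := by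
  unfold sxor
  rw [List.zipWith_comm]
  congr 1
  funext a b
  cases a <;> cases b <;> rfl

theorem sxor_cancel : ∀ {v w : Str}, v.length = w.length → sxor (sxor v w) w = v
  | [], [], _ => rfl
  | [], _ :: _, h => by simp at h
  | _ :: _, [], h => by simp at h
  | a :: v, b :: w, h => by
    have ih := sxor_cancel (v := v) (w := w) (by simpa using h)
    unfold sxor at ih ⊢
    simp only [List.zipWith_cons_cons, ih]
    congr 1
    cases a <;> cases b <;> rfl

/-- shifting by `w` as a permutation of the strings of length `r` -/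
def shift {r : ℕ} (w : List.Vector Bool r) : Equiv.Perm (List.Vector Bool r) where
  toFun v := ⟨sxor v.1 w.1, sxor_length v.2 w.2⟩
  invFun v := ⟨sxor v.1 w.1, sxor_length v.2 w.2⟩
  left_inv v := Subtype.ext (sxor_cancel (by rw [v.2, w.2]))
  right_inv v := Subtype.ext (sxor_cancel (by rw [v.2, w.2]))

/-- the exponential moment of the number of hits of a random sequence -/
theorem moment {V : Type*} [Fintype V] [DecidableEq V] (P : V → Bool) (t u : ℕ) :
    ((Finset.univ.filter fun s : Fin t → V =>
        u ≤ (Finset.univ.filter fun i => P (s i) = true).card).card) * 2 ^ u ≤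
      (Fintype.card V + (Finset.univ.filter fun v => P v = true).card) ^ t := by
  have h1 : ∀ s : Fin t → V, 2 ^ (Finset.univ.filter fun i => P (s i) = true).card =
      ∏ i, (if P (s i) = true then 2 else 1) := fun s => by
    rw [Finset.prod_ite, Finset.prod_const, Finset.prod_const_one, mul_one]
  have h2 : ∑ v : V, (if P v = true then 2 else 1) =
      Fintype.card V + (Finset.univ.filter fun v => P v = true).card := by
    have : ∀ v : V, (if P v = true then 2 else 1) = 1 + (if P v = true then 1 else 0) := fun v => by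
      split_ifs <;> rfl
    rw [Finset.sum_congr rfl fun v _ => this v, Finset.sum_add_distrib, Finset.sum_const,
      smul_eq_mul, mul_one, Finset.card_univ, Finset.card_filter]
  calc _ = ∑ s ∈ Finset.univ.filter (fun s : Fin t → V =>
          u ≤ (Finset.univ.filter fun i => P (s i) = true).card), 2 ^ u := by
        rw [Finset.sum_const, smul_eq_mul]
    _ ≤ ∑ s ∈ Finset.univ.filter (fun s : Fin t → V =>
          u ≤ (Finset.univ.filter fun i => P (s i) = true).card),
          2 ^ (Finset.univ.filter fun i => P (s i) = true).card :=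
        Finset.sum_le_sum fun s hs => Nat.pow_le_pow_right (by norm_num) (Finset.mem_filter.1 hs).2
    _ ≤ ∑ s : Fin t → V, 2 ^ (Finset.univ.filter fun i => P (s i) = true).card :=
        Finset.sum_le_sum_of_subset (Finset.filter_subset _ _)
    _ = ∑ s : Fin t → V, ∏ i, (if P (s i) = true then 2 else 1) :=
        Finset.sum_congr rfl fun s _ => h1 s
    _ = _ := by
        rw [← h2]
        have := (Fintype.sum_pow (fun v : V => if P v = true then 2 else 1) t).symm
        simpa using this

/-- few sequences hit a third at least half of the time -/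
theorem few {V : Type*} [Fintype V] [DecidableEq V] (P : V → Bool) (m : ℕ)
    (h : 3 * (Finset.univ.filter fun v => P v = true).card ≤ Fintype.card V) :
    4 ^ m * ((Finset.univ.filter fun s : Fin (2 * (12 * m)) → V =>
        12 * m ≤ (Finset.univ.filter fun i => P (s i) = true).card).card) ≤
      Fintype.card V ^ (2 * (12 * m)) := by
  have h1 := moment P (2 * (12 * m)) (12 * m)
  set B := (Finset.univ.filter fun s : Fin (2 * (12 * m)) → V =>
        12 * m ≤ (Finset.univ.filter fun i => P (s i) = true).card).card with hB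
  set b := (Finset.univ.filter fun v => P v = true).card with hb
  set c := Fintype.card V with hc
  have h2 : 3 ^ (2 * (12 * m)) * (B * 2 ^ (12 * m)) ≤ (4 * c) ^ (2 * (12 * m)) :=
    calc _ ≤ 3 ^ (2 * (12 * m)) * (c + b) ^ (2 * (12 * m)) := Nat.mul_le_mul_left _ h1
      _ = (3 * (c + b)) ^ (2 * (12 * m)) := (mul_pow _ _ _).symm
      _ ≤ _ := Nat.pow_le_pow_left (by omega) _
  have h3 : 3 ^ (2 * (12 * m)) * (B * 2 ^ (12 * m)) = B * (9 ^ 12) ^ m * (2 ^ 12) ^ m := by
    rw [← pow_mul, ← pow_mul, show (3 : ℕ) ^ (2 * (12 * m)) = 9 ^ (12 * m) by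
      rw [pow_mul]; norm_num]
    ring
  have h4 : (4 * c) ^ (2 * (12 * m)) = (8 ^ 12) ^ m * (2 ^ 12) ^ m * c ^ (2 * (12 * m)) := by
    rw [mul_pow, ← pow_mul, ← pow_mul, show (4 : ℕ) ^ (2 * (12 * m)) = 16 ^ (12 * m) by
      rw [pow_mul]; norm_num, ← mul_pow]
    norm_num
  have h5 : B * (9 ^ 12) ^ m ≤ (8 ^ 12) ^ m * c ^ (2 * (12 * m)) := by
    refine Nat.le_of_mul_le_mul_right ?_ (show 0 < (2 ^ 12) ^ m by positivity)
    calc _ ≤ (4 * c) ^ (2 * (12 * m)) := by rw [← h3]; exact h2
      _ = _ := by rw [h4]; ring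
  refine Nat.le_of_mul_le_mul_left ?_ (show 0 < (8 ^ 12) ^ m by positivity)
  refine le_trans ?_ h5
  calc (8 ^ 12) ^ m * (4 ^ m * B) = B * (8 ^ 12 * 4) ^ m := by rw [mul_pow]; ring
    _ ≤ B * (9 ^ 12) ^ m :=
        Nat.mul_le_mul_left _ (Nat.pow_le_pow_left (by norm_num) _)

/-- Good shifts: `2u` strings of length `r` such that for all `x` under consideration and all `w`
fewer than `u` of the shifts of `w` are bad for `x`. -/
theorem good_exists (n r : ℕ) (bad : Str → Str → Bool) (T : Str → Prop)
    (h : ∀ x, T x → x.length = n →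
      3 * Nat.card {w : Str // w.length = r ∧ bad x w = true} ≤ 2 ^ r) :
    ∃ s : ℕ → Str, (∀ i < 2 * (12 * (n + r + 2)), (s i).length = r) ∧
      ∀ x, T x → x.length = n → ∀ w : Str, w.length = r →
        ((Finset.range (2 * (12 * (n + r + 2)))).filter fun i =>
          bad x (List.zipWith xor (s i) w) = true).card < 12 * (n + r + 2) := by
  change ∃ s : ℕ → Str, (∀ i < 2 * (12 * (n + r + 2)), (s i).length = r) ∧
      ∀ x, T x → x.length = n → ∀ w : Str, w.length = r →
        ((Finset.range (2 * (12 * (n + r + 2)))).filter fun i =>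
          bad x (sxor (s i) w) = true).card < 12 * (n + r + 2)
  classical
  set m := n + r + 2 with hm
  let V := List.Vector Bool r
  have hcV : Fintype.card V = 2 ^ r := by
    show Fintype.card (List.Vector Bool r) = _
    rw [card_vector, Fintype.card_bool]
  let Bd : List.Vector Bool n × V → Finset (Fin (2 * (12 * m)) → V) := fun p =>
    if T p.1.1 then Finset.univ.filter fun s =>
      12 * m ≤ (Finset.univ.filter fun i => bad p.1.1 (sxor (s i).1 p.2.1) = true).card
    else ∅
  have hBd : ∀ p, 4 ^ m * (Bd p).card ≤ (2 ^ r) ^ (2 * (12 * m)) := by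
    intro p
    show 4 ^ m * (if T p.1.1 then Finset.univ.filter fun s : Fin (2 * (12 * m)) → V =>
      12 * m ≤ (Finset.univ.filter fun i => bad p.1.1 (sxor (s i).1 p.2.1) = true).card
      else ∅).card ≤ _
    split_ifs with hT
    · rw [← hcV]
      refine few (fun v : V => bad p.1.1 (sxor v.1 p.2.1)) m ?_
      have h1 := h p.1.1 hT p.1.2
      rw [hcV]
      refine le_trans (le_of_eq ?_) h1
      congr 1
      have h2 : (Finset.univ.filter fun v : V => bad p.1.1 (sxor v.1 p.2.1) = true).card =
          (Finset.univ.filter fun v : V => bad p.1.1 v.1 = true).card := by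
        refine Finset.card_bij (fun v _ => shift p.2 v) ?_ ?_ ?_
        · intro v hv
          rw [Finset.mem_filter] at hv ⊢
          exact ⟨Finset.mem_univ _, hv.2⟩
        · intro a _ b _ hab
          exact (shift p.2).injective hab
        · intro v hv
          rw [Finset.mem_filter] at hv
          refine ⟨(shift p.2).symm v, ?_, (shift p.2).apply_symm_apply v⟩
          rw [Finset.mem_filter]
          refine ⟨Finset.mem_univ _, ?_⟩
          have : sxor ((shift p.2).symm v).1 p.2.1 = v.1 :=
            congrArg Subtype.val ((shift p.2).apply_symm_apply v)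
          rw [this]
          exact hv.2
      rw [h2, ← Fintype.card_subtype, ← Nat.card_eq_fintype_card]
      refine Nat.card_congr ⟨fun v => ⟨v.1.1, v.1.2, v.2⟩, fun w => ⟨⟨w.1, w.2.1⟩, w.2.2⟩, ?_, ?_⟩
      · intro v; rfl
      · intro w; rfl
    · simp
  have hU : 4 ^ m * (Finset.univ.biUnion Bd).card ≤ 2 ^ (n + r) * (2 ^ r) ^ (2 * (12 * m)) := by
    calc 4 ^ m * (Finset.univ.biUnion Bd).card ≤ 4 ^ m * ∑ p, (Bd p).card :=
          Nat.mul_le_mul_left _ Finset.card_biUnion_le
      _ = ∑ p, 4 ^ m * (Bd p).card := Finset.mul_sum _ _ _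
      _ ≤ ∑ _p : List.Vector Bool n × V, (2 ^ r) ^ (2 * (12 * m)) :=
          Finset.sum_le_sum fun p _ => hBd p
      _ = _ := by
          rw [Finset.sum_const, Finset.card_univ, Fintype.card_prod, hcV, smul_eq_mul]
          rw [card_vector, Fintype.card_bool, pow_add]
  have hlt : (Finset.univ.biUnion Bd).card < Fintype.card (Fin (2 * (12 * m)) → V) := by
    rw [Fintype.card_fun, Fintype.card_fin, hcV]
    by_contra hc
    push Not at hc
    have h1 : 4 ^ m * (2 ^ r) ^ (2 * (12 * m)) ≤ 2 ^ (n + r) * (2 ^ r) ^ (2 * (12 * m)) :=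
      le_trans (Nat.mul_le_mul_left _ hc) hU
    have h2 : 4 ^ m ≤ 2 ^ (n + r) := Nat.le_of_mul_le_mul_right h1 (by positivity)
    have h3 : 2 ^ (n + r) < 4 ^ m := by
      rw [show (4 : ℕ) = 2 ^ 2 by norm_num, ← pow_mul]
      exact Nat.pow_lt_pow_right (by norm_num) (by omega)
    omega
  obtain ⟨σ, hσ⟩ : ∃ σ : Fin (2 * (12 * m)) → V, σ ∉ Finset.univ.biUnion Bd := by
    by_contra hc
    push Not at hc
    have : Finset.univ.biUnion Bd = Finset.univ := Finset.eq_univ_iff_forall.2 hc
    rw [this, Finset.card_univ] at hlt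
    exact lt_irrefl _ hlt
  refine ⟨fun i => if hi : i < 2 * (12 * m) then (σ ⟨i, hi⟩).1 else [], ?_, ?_⟩
  · intro i hi
    simp only [dif_pos hi]
    exact (σ ⟨i, hi⟩).2
  · intro x hT hx w hw
    by_contra hc
    push Not at hc
    refine hσ (Finset.mem_biUnion.2 ⟨(⟨x, hx⟩, ⟨w, hw⟩), Finset.mem_univ _, ?_⟩)
    show σ ∈ (if T x then Finset.univ.filter fun s : Fin (2 * (12 * m)) → V =>
      12 * m ≤ (Finset.univ.filter fun i => bad x (sxor (s i).1 w) = true).card
      else ∅)
    rw [if_pos hT, Finset.mem_filter]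
    refine ⟨Finset.mem_univ _, le_trans hc (le_of_eq ?_)⟩
    symm
    refine Finset.card_bij (fun i _ => i.1) ?_ ?_ ?_
    · intro i hi
      rw [Finset.mem_filter] at hi ⊢
      refine ⟨Finset.mem_range.2 i.2, ?_⟩
      simp only [dif_pos i.2]
      exact hi.2
    · intro a _ b _ hab
      exact Fin.ext hab
    · intro i hi
      rw [Finset.mem_filter, Finset.mem_range] at hi
      refine ⟨⟨i, hi.1⟩, ?_, rfl⟩
      rw [Finset.mem_filter]
      refine ⟨Finset.mem_univ _, ?_⟩
      have := hi.2
      simp only [dif_pos hi.1] at this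
      exact this

end Hf

end Pool.Agent.Lib.Pa76659G
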