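import Pool.Agent.Lib.Pa76659G.Spec

/-!
Bounded error probabilistic polynomial time.
-/

set_option autoImplicit false

namespace Pool.Agent.Lib.Pa76659G

open Pool.Agent.Lib.Pa76659

/-- `BPP` relative to `X`: `D ∈ P(X)` errs on `(x, w)` for at most a third of the strings `w` of
length `r(|x|)`. -/
def BPPO (X : Lang) : Set Lang :=
  {L | ∃ D ∈ PO X, ∃ r : Polynomial ℕ, ∀ x : Str,
    3 * Nat.card {w : Str // w.length = r.eval x.length ∧ D (pr x w) ≠ L x} ≤
      2 ^ r.eval x.length}

end Pool.Agent.Lib.Pa76659G
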