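import Pool.Agent.Lib.Pa76659G.HfD
import Pool.Agent.Lib.Pa76659G.HfSpec2

set_option autoImplicit false

/-!
`BPP` is contained in `O_2^p`, relative to every oracle.
-/

namespace Pool.Agent.Lib.Pa76659G

open Pool.Agent.Lib.Pa76659 PC

namespace Hf

/-- bitwise exclusive or -/
def xr (a b : Str) : Str := List.zipWith xor a b

theorem xr_length (a b : Str) : (xr a b).length = min a.length b.length := by
  unfold xr
  rw [List.length_zipWith]

theorem xr_comm (a b : Str) : xr a b = xr b a := by
  unfold xr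
  exact List.zipWith_comm_of_comm (fun x y => Bool.xor_comm x y)

/-- the `i`-th block of width `r` -/
def bk (r : ℕ) (y : Str) (i : ℕ) : Str := (y.drop (i * r)).take r

theorem bk_length {r t : ℕ} {y : Str} (hy : y.length = t * r) {i : ℕ} (hi : i < t) :
    (bk r y i).length = r := by
  unfold bk
  rw [List.length_take, List.length_drop, hy]
  have h1 : (i + 1) * r ≤ t * r := Nat.mul_le_mul_right r hi
  have h2 : (i + 1) * r = i * r + r := by ring
  omega

theorem bk_blk {r t : ℕ} {s : ℕ → Str} (h : ∀ i < t, (s i).length = r) {i : ℕ} (hi : i < t) :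
    bk r (blk r s t) i = s i := by
  obtain ⟨z, hz⟩ := blk_drop r s (n := t) (fun i hi => (h i hi).le) hi
  unfold bk
  rw [hz, List.take_append_of_le_length (by rw [h i hi]), List.take_of_length_le (by rw [h i hi])]

/-- the number of accepting rows -/
def cn (D : Lang) (r t : ℕ) (x y z : Str) (j : ℕ) : ℕ :=
  ((List.range t).filter (fun i => D (pr x (xr (bk r y i) (bk r z j))))).length

/-- all columns have a majority -/
def mj (D : Lang) (r u t : ℕ) (x y z : Str) : Bool :=
  decide (∀ j < t, decide (u < cn D r t x y z j) = true)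

theorem cn_eq (D : Lang) (r t : ℕ) (x y z : Str) (j : ℕ) :
    cn D r t x y z j =
      ((Finset.range t).filter (fun i => D (pr x (xr (bk r y i) (bk r z j))) = true)).card := by
  unfold cn
  rw [Finset.card_def, Finset.filter_val, Finset.range_val, Multiset.range, Multiset.filter_coe,
    Multiset.coe_card]
  simp only [Bool.decide_eq_true]

section
variable {α : Type} {X : Lang} {Dm : α → Prop} {ctx : List (α → Str)}

theorem xr_poly {a b : α → Str} (ha : PolyC (fun _ => X) Dm ctx a)
    (hb : PolyC (fun _ => X) Dm ctx b) : PolyC (fun _ => X) Dm ctx (fun p => xr (a p) (b p)) := by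
  have h1 : PolyN (fun _ => X) Dm ctx (fun p => min (a p).length (b p).length) :=
    (PolyN.length ha).min (PolyN.length hb)
  have h2 : PolyB (fun _ : α × ℕ => X)
      (fun p : α × ℕ => Dm p.1 ∧ p.2 < min (a p.1).length (b p.1).length)
      (PC.lift ctx ++ [fun p => una p.2])
      (fun p => !((a p.1).getD p.2 false == (b p.1).getD p.2 false)) :=
    (PolyB.beq
      (PolyB.getD ((ha.lift (D' := fun p : α × ℕ => Dm p.1 ∧
        p.2 < min (a p.1).length (b p.1).length) (fun p hp => hp.1)).weakenRight _)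
        (PolyC.var (by simp)))
      (PolyB.getD ((hb.lift (D' := fun p : α × ℕ => Dm p.1 ∧
        p.2 < min (a p.1).length (b p.1).length) (fun p hp => hp.1)).weakenRight _)
        (PolyC.var (by simp)))).not
  refine (PolyC.map_range h1 h2).congr ?_
  intro p _
  apply List.ext_getElem
  · simp [xr_length]
  · intro i h3 h4
    simp only [List.length_map, List.length_range, lt_min_iff] at h3
    have e : (xr (a p) (b p))[i] = xor ((a p)[i]'h3.1) ((b p)[i]'h3.2) :=
      List.getElem_zipWith
    rw [e, List.getElem_map, List.getElem_range,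
      List.getD_eq_getElem _ _ h3.1, List.getD_eq_getElem _ _ h3.2]
    cases (a p)[i]'h3.1 <;> cases (b p)[i]'h3.2 <;> rfl

theorem bk_poly {r i : α → ℕ} {y : α → Str} (hr : PolyN (fun _ => X) Dm ctx r)
    (hy : PolyC (fun _ => X) Dm ctx y) (hi : PolyN (fun _ => X) Dm ctx i) :
    PolyC (fun _ => X) Dm ctx (fun p => bk (r p) (y p) (i p)) :=
  PolyC.take (PolyC.drop hy (hi.mul hr)) hr

theorem cn_poly {D : Lang} (hD : D ∈ PO X) {r t j : α → ℕ} {x y z : α → Str}
    (hr : PolyN (fun _ => X) Dm ctx r) (ht : PolyN (fun _ => X) Dm ctx t)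
    (hx : PolyC (fun _ => X) Dm ctx x) (hy : PolyC (fun _ => X) Dm ctx y)
    (hz : PolyC (fun _ => X) Dm ctx z) (hj : PolyN (fun _ => X) Dm ctx j) :
    PolyN (fun _ => X) Dm ctx (fun p => cn D (r p) (t p) (x p) (y p) (z p) (j p)) := by
  have hi : PolyN (fun _ : α × ℕ => X) (fun p => Dm p.1 ∧ p.2 < t p.1)
      (PC.lift ctx ++ [fun p => una p.2]) (fun p => p.2) := PolyC.var (by simp)
  have lf : ∀ {f : α → Str}, PolyC (fun _ => X) Dm ctx f →
      PolyC (fun _ : α × ℕ => X) (fun p => Dm p.1 ∧ p.2 < t p.1)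
        (PC.lift ctx ++ [fun p => una p.2]) (fun p => f p.1) :=
    fun hf => (hf.lift (fun _ h => h.1)).weakenRight _
  refine PolyN.count (φ := fun p : α × ℕ => D (pr (x p.1) (xr (bk (r p.1) (y p.1) p.2)
    (bk (r p.1) (z p.1) (j p.1))))) ht ?_
  exact polyB_of_PO hD (PolyC.pr (lf hx) (xr_poly (bk_poly (lf hr) (lf hy) hi)
    (bk_poly (lf hr) (lf hz) (lf hj))))

theorem mj_poly {D : Lang} (hD : D ∈ PO X) {r u t : α → ℕ} {x y z : α → Str}
    (hr : PolyN (fun _ => X) Dm ctx r) (hu : PolyN (fun _ => X) Dm ctx u)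
    (ht : PolyN (fun _ => X) Dm ctx t)
    (hx : PolyC (fun _ => X) Dm ctx x) (hy : PolyC (fun _ => X) Dm ctx y)
    (hz : PolyC (fun _ => X) Dm ctx z) :
    PolyB (fun _ => X) Dm ctx (fun p => mj D (r p) (u p) (t p) (x p) (y p) (z p)) := by
  have hi : PolyN (fun _ : α × ℕ => X) (fun p => Dm p.1 ∧ p.2 < t p.1)
      (PC.lift ctx ++ [fun p => una p.2]) (fun p => p.2) := PolyC.var (by simp)
  have lf : ∀ {f : α → Str}, PolyC (fun _ => X) Dm ctx f →
      PolyC (fun _ : α × ℕ => X) (fun p => Dm p.1 ∧ p.2 < t p.1)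
        (PC.lift ctx ++ [fun p => una p.2]) (fun p => f p.1) :=
    fun hf => (hf.lift (fun _ h => h.1)).weakenRight _
  exact PolyB.forall_lt (φ := fun p : α × ℕ => decide (u p.1 < cn D (r p.1) (t p.1) (x p.1)
    (y p.1) (z p.1) p.2)) ht (PolyB.lt (lf hu) (cn_poly hD (lf hr) (lf ht) (lf hx) (lf hy)
      (lf hz) hi))

end

/-- the number of repetitions -/
noncomputable def uu (r : Polynomial ℕ) : Polynomial ℕ := 12 * (Polynomial.X + r + 2)

theorem uu_eval (r : Polynomial ℕ) (n : ℕ) : (uu r).eval n = 12 * (n + r.eval n + 2) := by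
  unfold uu
  simp

/-- the verifier -/
noncomputable def Dm (D : Lang) (r : Polynomial ℕ) : Lang := fun w =>
  mj D (r.eval (fst w).length) ((uu r).eval (fst w).length) ((2 * uu r).eval (fst w).length)
    (fst w) (fst (snd w)) (snd (snd w))

theorem Dm_mem {X D : Lang} (hD : D ∈ PO X) (r : Polynomial ℕ) : Dm D r ∈ PO X := by
  have hu : PolyC (fun _ : Str => X) (fun _ => True) [fun x => x] (fun x => x) :=
    PolyC.var (by simp)
  have hn := PolyN.length (PolyC.fst hu)
  exact mem_PO (mj_poly hD (hn.poly r) (hn.poly (uu r)) (hn.poly (2 * uu r)) (PolyC.fst hu)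
    (PolyC.fst (PolyC.snd hu)) (PolyC.snd (PolyC.snd hu)))

theorem mj_iff {D : Lang} {r u t : ℕ} {x y z : Str} : mj D r u t x y z = true ↔
    ∀ j < t, u < ((Finset.range t).filter
      (fun i => D (pr x (xr (bk r y i) (bk r z j))) = true)).card := by
  unfold mj
  simp only [decide_eq_true_eq, cn_eq]

/-- all columns have a majority -/
theorem mj_true {D : Lang} {r u t : ℕ} {x z : Str} {s : ℕ → Str} (ht : t = 2 * u)
    (hs : ∀ i < t, (s i).length = r)
    (h : ∀ w : Str, w.length = r →
      ((Finset.range t).filter (fun i => (!D (pr x (xr (s i) w))) = true)).card < u)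
    (hz : z.length = t * r) : mj D r u t x (blk r s t) z = true := by
  rw [mj_iff]
  intro j hj
  have h1 := h _ (bk_length hz hj)
  have h2 : ((Finset.range t).filter
      (fun i => D (pr x (xr (bk r (blk r s t) i) (bk r z j))) = true)) =
      (Finset.range t).filter (fun i => ¬ ((!D (pr x (xr (s i) (bk r z j)))) = true)) := by
    refine Finset.filter_congr fun i hi => ?_
    rw [Finset.mem_range] at hi
    rw [bk_blk hs hi]
    simp
  rw [h2]
  have h3 := Finset.card_filter_add_card_filter_not (s := Finset.range t)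
    (fun i => (!D (pr x (xr (s i) (bk r z j)))) = true)
  rw [Finset.card_range] at h3
  omega

/-- not all columns have a majority -/
theorem mj_false {D : Lang} {r u t : ℕ} {x y : Str} {s : ℕ → Str} (hu : 0 < u) (ht : t = 2 * u)
    (hs : ∀ i < t, (s i).length = r)
    (h : ∀ w : Str, w.length = r →
      ((Finset.range t).filter (fun i => D (pr x (xr (s i) w)) = true)).card < u)
    (hy : y.length = t * r) : mj D r u t x y (blk r s t) = false := by
  rw [← Bool.not_eq_true, mj_iff]
  intro h1
  have h2 : ∀ j ∈ Finset.range t, u + 1 ≤ ∑ i ∈ Finset.range t,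
      if D (pr x (xr (bk r y i) (s j))) = true then 1 else 0 := by
    intro j hj
    rw [Finset.mem_range] at hj
    have h3 := h1 j hj
    rw [bk_blk hs hj, Finset.card_filter] at h3
    exact h3
  have h4 := Finset.sum_le_sum h2
  rw [Finset.sum_comm, Finset.sum_const, Finset.card_range, smul_eq_mul] at h4
  have h5 : ∀ i ∈ Finset.range t, (∑ j ∈ Finset.range t,
      if D (pr x (xr (bk r y i) (s j))) = true then 1 else 0) ≤ u := by
    intro i hi
    rw [Finset.mem_range] at hi
    have h6 := h _ (bk_length hy hi)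
    rw [Finset.card_filter] at h6
    simp only [xr_comm (s _)] at h6
    exact h6.le
  have h7 := Finset.sum_le_sum h5
  rw [Finset.sum_const, Finset.card_range, smul_eq_mul] at h7
  have h8 : t * (u + 1) ≤ t * u := h4.trans h7
  have h9 : t * (u + 1) = t * u + t := by ring
  omega

/-- `BPP` is contained in `O_2^p`, from the existence of good sequences. -/
theorem bpp_otwo_of (Ex : ∀ (n r : ℕ) (bad : Str → Str → Bool) (T : Str → Prop),
      (∀ x, T x → x.length = n → 3 * Nat.card {w : Str // w.length = r ∧ bad x w = true} ≤ 2 ^ r) →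
      ∃ s : ℕ → Str, (∀ i < 2 * (12 * (n + r + 2)), (s i).length = r) ∧
        ∀ x, T x → x.length = n → ∀ w : Str, w.length = r →
          ((Finset.range (2 * (12 * (n + r + 2)))).filter
            (fun i => bad x (xr (s i) w) = true)).card < 12 * (n + r + 2))
    {X : Lang} : BPPO X ⊆ OTwo X := by
  rintro L ⟨D, hD, r, hr⟩
  refine ⟨Dm D r, Dm_mem hD r, 2 * uu r * r, fun n => ?_⟩
  obtain ⟨s1, h1, h2⟩ := Ex n (r.eval n) (fun x w => !D (pr x w)) (fun x => L x = true) (by
    intro x hx hn
    have h3 := hr x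
    rw [hn, hx] at h3
    have e : {w : Str // w.length = r.eval n ∧ (!D (pr x w)) = true} =
        {w : Str // w.length = r.eval n ∧ D (pr x w) ≠ true} := by
      congr 1
      funext w
      simp
    rw [e]
    exact h3)
  obtain ⟨s0, h3, h4⟩ := Ex n (r.eval n) (fun x w => D (pr x w)) (fun x => L x = false) (by
    intro x hx hn
    have h3 := hr x
    rw [hn, hx] at h3
    have e : {w : Str // w.length = r.eval n ∧ D (pr x w) = true} =
        {w : Str // w.length = r.eval n ∧ D (pr x w) ≠ false} := by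
      congr 1
      funext w
      simp
    rw [e]
    exact h3)
  have eu : (uu r).eval n = 12 * (n + r.eval n + 2) := uu_eval r n
  have et : (2 * uu r).eval n = 2 * (12 * (n + r.eval n + 2)) := by
    rw [Polynomial.eval_mul, eu]
    simp
  have eq' : (2 * uu r * r).eval n = 2 * (12 * (n + r.eval n + 2)) * r.eval n := by
    rw [Polynomial.eval_mul, et]
  refine ⟨blk (r.eval n) s1 (2 * (12 * (n + r.eval n + 2))),
    blk (r.eval n) s0 (2 * (12 * (n + r.eval n + 2))), ?_, ?_, ?_⟩
  · rw [blk_length _ _ fun i hi => (h1 i hi).le, eq']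
  · rw [blk_length _ _ fun i hi => (h3 i hi).le, eq']
  · intro x hx
    rw [eq']
    constructor
    · intro hL z' hz'
      unfold Dm
      rw [fst_pr, snd_pr, fst_pr, snd_pr, hx, eu, et]
      exact mj_true rfl h1 (h2 x hL hx) hz'
    · intro hL y' hy'
      unfold Dm
      rw [fst_pr, snd_pr, fst_pr, snd_pr, hx, eu, et]
      exact mj_false (by omega) rfl h3 (h4 x hL hx) hy'

end Hf

end Pool.Agent.Lib.Pa76659G
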