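import Pool.Agent.Lib.Pa76659G.HeFinal
import Pool.Agent.Lib.Pa76659G.HfD
import Pool.Agent.Lib.Pa76659G.HdZ

set_option autoImplicit false

/-!
The price of the equality of the first level of the high hierarchy and its deterministic version.
-/

namespace Pool.Agent.Lib.Pa76659G

open Pool.Agent.Lib.Pa76659 PC
open Pool.Agent.Lib.Pa76659H (High RHighSucc TComp)

/-- the price of `\hat H_1 = H_1` -/
theorem cost_high1 (X : Lang) :
    (RHighSucc X 0 = High X 1 →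
      (∀ L ∈ OTwo X, ∀ k : ℕ, ∃ F ∈ PO X, ∀ (n : ℕ) (x : Str), x.length ≤ n →
        x.length ≤ Nat.log 2 n ^ k → F (pr (on1 n) x) = L x) ∧
      (∃ L ∈ EO X, ∀ e : ℕ, ∃ n0 : ℕ, ∀ n ≥ n0, ∀ C : List Gate,
        (∀ x : Str, x.length = n → cval C x = L x) → n ^ e < C.length) ∧
      ∀ K ∈ RHighSucc X 0, ∀ k, ShortAll X K k) ∧
    ∀ K ∈ RHighSucc X 0,
      (∀ I ∈ NPO X, ∀ q : Polynomial ℕ,
        (∀ m : ℕ, ∃ y : Str, y.length = q.eval m ∧ I (pr (on1 m) y) = false) →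
          hint K I q ∈ High X 1) ∧
      List.TFAE [HintsComplete X K, AdviceComplete X K, ShortAll X K 2,
        ∀ k, ShortAll X K k] := by
  obtain ⟨h1, h2⟩ := cost_exact X
  exact ⟨fun h => ⟨fun L hL k => Hf.otwo h.ge hL k, Hd.circ_all h.ge, (h2 h).1⟩, h1⟩

end Pool.Agent.Lib.Pa76659G
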