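import Pool.Agent.Lib.Pa76659G.UoU6

set_option autoImplicit false

/-!
If `L_1 = \hat L_2` then `E^NP = NE`.
-/

namespace Pool.Agent.Lib.Pa76659G.Circ

open Pool.Agent.Lib.Pa76659 Pool.Agent.Lib.Pa76659G Pool.Agent.Lib.Pa76659G.PC

/-- From unary languages to exponential time. -/
theorem hd_key {X : Lang}
    (hU : ∀ T ∈ DelSucc X 1, (fun x : Str => T (on1 x.length)) ∈ NPO X) {V : Lang}
    (hV : V ∈ DelSucc X 1) : hd V ∈ NEO X := by
  have h1 := hU _ (Tn_mem hV)
  have hx : PolyC (fun _ : Str => X) (fun _ => True) [fun x => x] (fun x => x) :=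
    PolyC.var (by simp)
  have hn := PolyN.length (PolyC.fst hx)
  have hi := PolyN.length (PolyC.snd hx)
  have h2 := NPO_comp h1 (f := fun z => una (pn (fst z).length (snd z).length))
    (((hn.add hi).mul (hn.add hi)).add hi)
  have h3 : hd V = hd (fun z => Tn V (on1 (una (pn (fst z).length (snd z).length)).length)) := by
    funext x
    rw [hd_eq, hd_eq, fst_pr, snd_pr, on1_eq, on1_eq, PC.un_length, PC.un_length, PC.un_length,
      Tn_pn]
    rfl
  rw [h3]
  exact hd_NEO h2

/-- the simulation of an exponential time computation with the input given in unary -/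
noncomputable def simL (B : Lang) (M : Prog) (c : ℕ) : Lang := fun z =>
  accepts B M (inp2 (bin (lgm (fst z).length) (snd z).length) [])
    (((2 * Polynomial.X + 2 : Polynomial ℕ) ^ c).eval (fst z).length)

theorem simL_mem (B : Lang) (M : Prog) (c : ℕ) : simL B M c ∈ PO B := by
  have hx : PolyC (fun _ : Str => B) (fun _ => True) [fun x => x] (fun x => x) :=
    PolyC.var (by simp)
  have hn := PolyN.length (PolyC.fst hx)
  have hi := PolyN.length (PolyC.snd hx)
  exact mem_PO (PolyB.accepts M (fun _ => B) _ (fun _ => []) _ (PolyB.qry (PolyC.var (by simp)))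
    (polyC_bin (polyN_lgm hn) hi) PolyC.nil (hn.poly _))

theorem hd_simL (B : Lang) (M : Prog) (c : ℕ) (x : Str) :
    hd (simL B M c) x = accepts B M (inp x) (2 ^ (c * (x.length + 1))) := by
  have h7 : 0 < 2 ^ x.length := by positivity
  have e : (((2 * Polynomial.X + 2 : Polynomial ℕ) ^ c).eval (2 ^ x.length - 1))
      = 2 ^ (c * (x.length + 1)) := by
    simp only [Polynomial.eval_pow, Polynomial.eval_add, Polynomial.eval_mul, Polynomial.eval_X,
      Polynomial.eval_ofNat]
    have h8 : 2 * (2 ^ x.length - 1) + 2 = 2 ^ (x.length + 1) := by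
      rw [pow_succ]
      omega
    rw [h8, ← pow_mul, mul_comm]
  rw [hd_eq]
  unfold simL
  rw [fst_pr, snd_pr, on1_eq, on1_eq, PC.un_length, PC.un_length, lgm_eq, bin_bval rfl, e, inp_eq]

/-- `E^NP ⊆ NE` if the unary languages in `Δ_2` are in `NP`. -/
theorem ENP_sub {X : Lang}
    (hU : ∀ T ∈ DelSucc X 1, (fun x : Str => T (on1 x.length)) ∈ NPO X) : ENP X ⊆ NEO X := by
  rintro L ⟨B, hB, M, c, hM⟩
  have h1 : L = hd (simL B M c) := by
    funext x
    rw [hd_simL, (hM x).2]
  rw [h1]
  exact hd_key hU ⟨B, ⟨X, query_mem X, hB⟩, simL_mem B M c⟩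

open Classical in
/-- the search for a witness of a nondeterministic exponential time computation -/
noncomputable def guessL (X : Lang) (M : Prog) (c d : ℕ) : Lang := fun z =>
  decide (∃ y : Str, y.length = ((2 * Polynomial.X : Polynomial ℕ) ^ c).eval (fst z).length ∧
    accepts X M (inp2 (snd z) y) (((2 * Polynomial.X : Polynomial ℕ) ^ d).eval (fst z).length)
      = true)

theorem guessL_mem (X : Lang) (M : Prog) (c d : ℕ) : guessL X M c d ∈ NPO X := by
  have hz : PolyC (fun _ : Str × Str => X) (fun _ => True) [fun p => p.1, fun p => p.2]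
    (fun p => p.1) := PolyC.var (by simp)
  have hy : PolyC (fun _ : Str × Str => X) (fun _ => True) [fun p => p.1, fun p => p.2]
    (fun p => p.2) := PolyC.var (by simp)
  have hn := PolyN.length (PolyC.fst hz)
  have e1 := PolyB.natEq (PolyN.length hy) (hn.poly ((2 * Polynomial.X : Polynomial ℕ) ^ c))
  have e2 : PolyB (fun _ : Str × Str => X) (fun _ => True) [fun p => p.1, fun p => p.2]
      (fun p => accepts X M (inp2 (snd p.1) p.2)
        (((2 * Polynomial.X : Polynomial ℕ) ^ d).eval (fst p.1).length)) :=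
    PolyB.accepts M (fun _ => X) _ _ _ (PolyB.qry (PolyC.var (by simp)))
      (PolyC.snd hz) hy (hn.poly _)
  refine mem_NPO_le ((2 * Polynomial.X : Polynomial ℕ) ^ c) (e1.and e2) (fun z => ?_)
  unfold guessL
  simp only [Bool.and_eq_true, decide_eq_true_eq]
  constructor
  · rintro ⟨y, h1, h2⟩
    exact ⟨y, by rw [h1]; exact eval_mono _ (fst_length_le z), h1, h2⟩
  · rintro ⟨y, -, h1, h2⟩
    exact ⟨y, h1, h2⟩

/-- `NE ⊆ E^NP` -/
theorem NEO_sub (X : Lang) : NEO X ⊆ ENP X := by
  rintro L ⟨M, c, d, hM⟩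
  refine ⟨guessL X M c d, guessL_mem X M c d, ?_⟩
  have hx : PolyC (fun _ : Str × Str => guessL X M c d) (fun _ => True)
    [fun p => p.1, fun p => p.2] (fun p => p.1) := PolyC.var (by simp)
  have ht : PolyC (fun _ : Str × Str => guessL X M c d) (fun _ => True)
    [fun p => p.1, fun p => p.2] (fun p => p.2) := PolyC.var (by simp)
  have h1 := mem_EO (φ := fun p : Str × Str => guessL X M c d (pr p.2 p.1))
    (PolyB.qry (PolyC.pr ht hx))
  have h2 : L = fun x => guessL X M c d (pr (una (2 ^ x.length)) x) := by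
    funext x
    have e : ∀ k : ℕ, (((2 * Polynomial.X : Polynomial ℕ) ^ k).eval (2 ^ x.length))
        = 2 ^ (k * (x.length + 1)) := by
      intro k
      simp only [Polynomial.eval_pow, Polynomial.eval_mul, Polynomial.eval_X,
        Polynomial.eval_ofNat]
      have h8 : 2 * 2 ^ x.length = 2 ^ (x.length + 1) := by
        rw [pow_succ]
        omega
      rw [h8, ← pow_mul, mul_comm]
    rw [Bool.eq_iff_iff, (hM x).2]
    unfold guessL
    simp only [fst_pr, snd_pr, PC.un_length, e, decide_eq_true_eq]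
  rw [h2]
  exact h1

/-- If `L_1 = \hat L_2` then `E^NP = NE`. -/
theorem ENP_eq {X : Lang} (h : Low X 1 = RLowSucc X 1) : ENP X = NEO X :=
  (ENP_sub fun _ hT => Uo.u1 h.symm.subset hT).antisymm (NEO_sub X)

end Pool.Agent.Lib.Pa76659G.Circ
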