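import Pool.Agent.Lib.Pa76659G.HfFinal2
import Pool.Agent.Lib.Pa76659G.HdFinal
import Pool.Agent.Lib.Pa76659G.UoV

set_option autoImplicit false

/-!
If `\hat H_1 = H_1` then `E^NP` is contained in time `2^(2^(εn))`, for every `ε > 0`.
-/

namespace Pool.Agent.Lib.Pa76659G

open Pool.Agent.Lib.Pa76659 PC Circ
open Pool.Agent.Lib.Pa76659H (High RHighSucc TComp)

namespace Hh

theorem pn_le (x : Str) : pn (2 ^ x.length - 1) (bval x) ≤ 4 * (2 ^ x.length) ^ 2 := by
  have h1 := bval_lt x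
  have h2 : 0 < 2 ^ x.length := by positivity
  generalize 2 ^ x.length = j at h1 h2 ⊢
  generalize bval x = b at h1 ⊢
  obtain ⟨i, rfl⟩ : ∃ i, j = i + 1 := ⟨j - 1, by omega⟩
  unfold pn
  rw [Nat.add_sub_cancel]
  have h3 : b ≤ i := by omega
  have h4 : (i + b) * (i + b) ≤ (2 * i) * (2 * i) := Nat.mul_le_mul (by omega) (by omega)
  nlinarith

/-- The simulation of `E^NP` in time `2^(2^(εn))`. -/
theorem enp {X L : Lang} (h : High X 1 ⊆ RHighSucc X 0) (hL : L ∈ ENP X) (k : ℕ) :
    ∃ F ∈ PO X, ∀ (n : ℕ) (x : Str), 2 ^ x.length ≤ Nat.log 2 n ^ k →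
      F (pr (on1 n) x) = L x := by
  obtain ⟨B, hB, M, c, hM⟩ := hL
  set V := simL B M c with hV
  have h1 : ∀ x, L x = V (pr (on1 (2 ^ x.length - 1)) (on1 (bval x))) := by
    intro x
    rw [← hd_eq (W := V) (x := x), hV, hd_simL, (hM x).2]
  have hVm : V ∈ DelSucc X 1 := ⟨B, ⟨X, query_mem X, hB⟩, simL_mem B M c⟩
  obtain ⟨G, hG, h2⟩ := Hd.tally_all h (Tn_mem hVm) (2 * k + 2)
  set N : Polynomial ℕ := 4 * Polynomial.X ^ (2 * k) + Polynomial.X + 4 with hN
  have hNe : ∀ n, N.eval n = 4 * n ^ (2 * k) + n + 4 := by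
    intro n
    simp only [hN, Polynomial.eval_add, Polynomial.eval_mul, Polynomial.eval_pow,
      Polynomial.eval_X, Polynomial.eval_ofNat]
  refine ⟨fun z => if decide (2 ^ (snd z).length ≤ N.eval (fst z).length) then
    decide (∃ a < 2 ^ (snd z).length, (decide (bin (snd z).length a = snd z) &&
      G (pr (on1 (N.eval (fst z).length)) (on1 (pn (2 ^ (snd z).length - 1) a)))) = true)
    else false, mem_PO ?_, fun n x hx => ?_⟩
  · have hz : PolyC (fun _ : Str => X) (fun _ => True) [fun x => x] (fun x => x) :=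
      PolyC.var (by simp)
    have hl := PolyN.length (PolyC.snd hz)
    have hn := (PolyN.length (PolyC.fst hz)).poly N
    refine PolyB.ite (polyB_pow hn hl) ?_ (PolyB.const false)
    have hl' : PolyN (fun _ : Str => X)
        (fun z => True ∧ decide (2 ^ (snd z).length ≤ N.eval (fst z).length) = true)
        [fun x => x] (fun z => 2 ^ (snd z).length) :=
      polyN_pow (hl.mono fun _ h => h.1) (hn.mono fun _ h => h.1) fun z hz => by
        simpa using hz.2
    refine PolyB.exists_lt (φ := fun p : Str × ℕ => decide (bin (snd p.1).length p.2 = snd p.1) &&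
      G (pr (on1 (N.eval (fst p.1).length)) (on1 (pn (2 ^ (snd p.1).length - 1) p.2)))) hl' ?_
    have hD : ∀ p : Str × ℕ, ((True ∧ decide (2 ^ (snd p.1).length ≤ N.eval (fst p.1).length)
        = true) ∧ p.2 < 2 ^ (snd p.1).length) →
        (True ∧ decide (2 ^ (snd p.1).length ≤ N.eval (fst p.1).length) = true) :=
      fun p hp => hp.1
    have hD' : ∀ p : Str × ℕ, ((True ∧ decide (2 ^ (snd p.1).length ≤ N.eval (fst p.1).length)
        = true) ∧ p.2 < 2 ^ (snd p.1).length) → True := fun p hp => trivial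
    have hs := (PolyC.lift (PolyC.snd hz) hD').weakenRight [fun p : Str × ℕ => una p.2]
    have hn' := (PolyC.lift hn hD').weakenRight [fun p : Str × ℕ => una p.2]
    have hp' := (PolyC.lift hl' hD).weakenRight [fun p : Str × ℕ => una p.2]
    have ha : PolyN (fun _ : Str × ℕ => X)
        (fun p : Str × ℕ => ((True ∧ decide (2 ^ (snd p.1).length ≤ N.eval (fst p.1).length)
          = true) ∧ p.2 < 2 ^ (snd p.1).length))
        (PC.lift [fun x => x] ++ [fun p => una p.2]) (fun p => p.2) := PolyC.var (by simp)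
    have hq : PolyN (fun _ : Str × ℕ => X)
        (fun p : Str × ℕ => ((True ∧ decide (2 ^ (snd p.1).length ≤ N.eval (fst p.1).length)
          = true) ∧ p.2 < 2 ^ (snd p.1).length))
        (PC.lift [fun x => x] ++ [fun p => una p.2])
        (fun p => pn (2 ^ (snd p.1).length - 1) p.2) := by
      have h3 := (PolyN.sub (f := fun p : Str × ℕ => 2 ^ (snd p.1).length) hp'
        (PolyN.const 1)).add ha
      exact (h3.mul h3).add ha
    exact (PolyB.strEq (polyC_bin (PolyN.length hs) ha) hs).and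
      (polyB_of_PO hG (PolyC.pr hn' hq))
  · beta_reduce
    have hlen : (on1 n).length = n := by rw [on1_eq, PC.un_length]
    rw [fst_pr, snd_pr, hlen]
    have hlog : Nat.log 2 n ≤ n := Nat.log_le_self 2 n
    have hk1 : Nat.log 2 n ^ k ≤ n ^ k := Nat.pow_le_pow_left hlog k
    have e2 : ∀ b : ℕ, b ^ (2 * k) = (b ^ k) ^ 2 := fun b => by rw [mul_comm, pow_mul]
    have hsq : (2 ^ x.length) ^ 2 ≤ (Nat.log 2 n ^ k) ^ 2 := Nat.pow_le_pow_left hx 2
    have hsq' : (Nat.log 2 n ^ k) ^ 2 ≤ n ^ (2 * k) := by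
      rw [e2]
      exact Nat.pow_le_pow_left hk1 2
    have hself : 2 ^ x.length ≤ (2 ^ x.length) ^ 2 := Nat.le_self_pow (by norm_num) _
    have hguard : 2 ^ x.length ≤ N.eval n := by
      rw [hNe]
      omega
    rw [if_pos (by simpa using hguard)]
    have hpn := pn_le x
    have hl1 : pn (2 ^ x.length - 1) (bval x) ≤ N.eval n := by
      rw [hNe]
      omega
    have hN4 : n ≤ N.eval n ∧ 4 ≤ N.eval n := by
      rw [hNe]
      omega
    have hl2 : pn (2 ^ x.length - 1) (bval x) ≤ Nat.log 2 (N.eval n) ^ (2 * k + 2) := by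
      have h3 : 2 ≤ Nat.log 2 (N.eval n) :=
        (Nat.le_log_iff_pow_le (by norm_num) (by omega)).2 (by omega)
      have h4 : Nat.log 2 n ≤ Nat.log 2 (N.eval n) := Nat.log_mono_right hN4.1
      have h5 : (Nat.log 2 n ^ k) ^ 2 ≤ Nat.log 2 (N.eval n) ^ (2 * k) := by
        rw [e2]
        exact Nat.pow_le_pow_left (Nat.pow_le_pow_left h4 k) 2
      have h6 : 4 ≤ Nat.log 2 (N.eval n) ^ 2 := by
        calc 4 = 2 ^ 2 := by norm_num
          _ ≤ _ := Nat.pow_le_pow_left h3 2
      calc pn (2 ^ x.length - 1) (bval x) ≤ 4 * (2 ^ x.length) ^ 2 := hpn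
        _ ≤ 4 * Nat.log 2 (N.eval n) ^ (2 * k) := by omega
        _ ≤ Nat.log 2 (N.eval n) ^ 2 * Nat.log 2 (N.eval n) ^ (2 * k) :=
          Nat.mul_le_mul_right _ h6
        _ = Nat.log 2 (N.eval n) ^ (2 * k + 2) := by rw [← pow_add, add_comm]
    have hkey : G (pr (on1 (N.eval n)) (on1 (pn (2 ^ x.length - 1) (bval x)))) = L x := by
      rw [h2 _ _ hl1 hl2, Tn_pn, h1]
    have hb := bin_bval (n := x.length) (x := x) rfl
    rw [Bool.eq_iff_iff, decide_eq_true_iff]
    constructor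
    · rintro ⟨a, ha, h3⟩
      rw [Bool.and_eq_true, decide_eq_true_iff] at h3
      have h4 : a = bval x := bin_inj ha (bval_lt x) (h3.1.trans hb.symm)
      rw [← hkey, ← h4]
      exact h3.2
    · intro h3
      refine ⟨bval x, bval_lt x, ?_⟩
      rw [Bool.and_eq_true, decide_eq_true_iff]
      exact ⟨hb, hkey.trans h3⟩

end Hh

end Pool.Agent.Lib.Pa76659G
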