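import Pool.Agent.Lib.Pa76659G.Bridge
import Pool.Agent.Lib.Pa76659.Subst

set_option autoImplicit false

/-!
The clocked interpreter: for a fixed program `M` the configuration after `n a` steps, with an
oracle that may change with time, is computable in the calculus `PolyC` as soon as the answers of
the virtual oracle are.
-/

namespace Pool.Agent.Lib.Pa76659G.PC

open Pool.Agent.Lib.Pa76659 (Str Lang Prog Cfg step runN Exec PO NPO inp inp2 Halts accepts Bdd)

variable {α : Type*} {orc : α → Lang}

/-! ### Finite control -/

/-- Stacks that occur while `p` is executed with the continuation `k`. -/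
def stk : Prog → List Prog → List (List Prog)
  | .skip, k => [.skip :: k]
  | .push r b, k => [.push r b :: k]
  | .pop r, k => [.pop r :: k]
  | .query r t, k => [.query r t :: k]
  | .seq p q, k => (.seq p q :: k) :: (stk p (q :: k) ++ stk q k)
  | .branch r p q e, k => (.branch r p q e :: k) :: (stk p k ++ (stk q k ++ stk e k))
  | .loop r p, k => (.loop r p :: k) :: stk p (.loop r p :: k)

theorem mem_stk (p : Prog) (k : List Prog) : (p :: k) ∈ stk p k := by
  cases p <;> simp [stk]

theorem step_stk (p : Prog) : ∀ (k κ : List Prog), κ ∈ stk p k → ∀ (O : Lang) (s : ℕ → Str),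
    (step O (κ, s)).1 ∈ stk p k ∨ (step O (κ, s)).1 = k := by
  induction p with
  | skip => intro k κ h O s; simp only [stk, List.mem_singleton] at h; subst h; right; rfl
  | push r b => intro k κ h O s; simp only [stk, List.mem_singleton] at h; subst h; right; rfl
  | pop r => intro k κ h O s; simp only [stk, List.mem_singleton] at h; subst h; right; rfl
  | query r t => intro k κ h O s; simp only [stk, List.mem_singleton] at h; subst h; right; rfl
  | seq p q ihp ihq =>
    intro k κ h O s
    simp only [stk, List.mem_cons, List.mem_append] at h ⊢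
    rcases h with rfl | h | h
    · left; right; left; exact mem_stk p (q :: k)
    · rcases ihp _ _ h O s with h' | h'
      · left; right; left; exact h'
      · left; right; right; rw [h']; exact mem_stk q k
    · rcases ihq _ _ h O s with h' | h'
      · left; right; right; exact h'
      · right; exact h'
  | branch r p q e ihp ihq ihe =>
    intro k κ h O s
    simp only [stk, List.mem_cons, List.mem_append] at h ⊢
    rcases h with rfl | h | h | h
    · left; right
      rcases hs : s r with _ | ⟨b, l⟩
      · right; right
        have : step O (.branch r p q e :: k, s) = (e :: k, s) := by simp [step, hs]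
        rw [this]; exact mem_stk e k
      · cases b
        · right; left
          have : step O (.branch r p q e :: k, s) = (q :: k, s) := by simp [step, hs]
          rw [this]; exact mem_stk q k
        · left
          have : step O (.branch r p q e :: k, s) = (p :: k, s) := by simp [step, hs]
          rw [this]; exact mem_stk p k
    · rcases ihp _ _ h O s with h' | h'
      · left; right; left; exact h'
      · right; exact h'
    · rcases ihq _ _ h O s with h' | h'
      · left; right; right; left; exact h'
      · right; exact h'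
    · rcases ihe _ _ h O s with h' | h'
      · left; right; right; right; exact h'
      · right; exact h'
  | loop r p ih =>
    intro k κ h O s
    simp only [stk, List.mem_cons] at h ⊢
    rcases h with rfl | h
    · rcases hs : s r with _ | ⟨b, l⟩
      · right
        simp [step, hs]
      · left; right
        have : step O (.loop r p :: k, s) = (p :: .loop r p :: k, s) := by simp [step, hs]
        rw [this]; exact mem_stk p _
    · rcases ih _ _ h O s with h' | h'
      · left; right; exact h'
      · left; left; exact h'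

theorem stk_bnd (m : ℕ) (p : Prog) : ∀ (k κ : List Prog), κ ∈ stk p k → p.bnd ≤ m →
    (∀ q ∈ k, q.bnd ≤ m) → ∀ q ∈ κ, q.bnd ≤ m := by
  induction p with
  | skip =>
    intro k κ h hp hk q hq
    simp only [stk, List.mem_singleton] at h; subst h
    rcases List.mem_cons.1 hq with rfl | hq
    · exact hp
    · exact hk q hq
  | push r b =>
    intro k κ h hp hk q hq
    simp only [stk, List.mem_singleton] at h; subst h
    rcases List.mem_cons.1 hq with rfl | hq
    · exact hp
    · exact hk q hq
  | pop r =>
    intro k κ h hp hk q hq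
    simp only [stk, List.mem_singleton] at h; subst h
    rcases List.mem_cons.1 hq with rfl | hq
    · exact hp
    · exact hk q hq
  | query r t =>
    intro k κ h hp hk q hq
    simp only [stk, List.mem_singleton] at h; subst h
    rcases List.mem_cons.1 hq with rfl | hq
    · exact hp
    · exact hk q hq
  | seq p q ihp ihq =>
    intro k κ h hp hk x hx
    have hb : p.bnd ≤ m ∧ q.bnd ≤ m := by
      simp only [Prog.bnd, max_le_iff] at hp; exact hp
    simp only [stk, List.mem_cons, List.mem_append] at h
    rcases h with rfl | h | h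
    · rcases List.mem_cons.1 hx with rfl | hx
      · exact hp
      · exact hk x hx
    · refine ihp _ _ h hb.1 ?_ x hx
      intro y hy
      rcases List.mem_cons.1 hy with rfl | hy
      · exact hb.2
      · exact hk y hy
    · exact ihq _ _ h hb.2 hk x hx
  | branch r p q e ihp ihq ihe =>
    intro k κ h hp hk x hx
    have hb : p.bnd ≤ m ∧ q.bnd ≤ m ∧ e.bnd ≤ m := by
      simp only [Prog.bnd, max_le_iff] at hp; exact hp.2
    simp only [stk, List.mem_cons, List.mem_append] at h
    rcases h with rfl | h | h | h
    · rcases List.mem_cons.1 hx with rfl | hx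
      · exact hp
      · exact hk x hx
    · exact ihp _ _ h hb.1 hk x hx
    · exact ihq _ _ h hb.2.1 hk x hx
    · exact ihe _ _ h hb.2.2 hk x hx
  | loop r p ih =>
    intro k κ h hp hk x hx
    have hb : p.bnd ≤ m := by
      simp only [Prog.bnd, max_le_iff] at hp; exact hp.2
    simp only [stk, List.mem_cons] at h
    rcases h with rfl | h
    · rcases List.mem_cons.1 hx with rfl | hx
      · exact hp
      · exact hk x hx
    · refine ih _ _ h hb ?_ x hx
      intro y hy
      rcases List.mem_cons.1 hy with rfl | hy
      · exact hp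
      · exact hk y hy

/-- All stacks of the program. -/
def KK (M : Prog) : List (List Prog) := [] :: stk M []

theorem step_KK {M : Prog} {κ : List Prog} (h : κ ∈ KK M) (O : Lang) (s : ℕ → Str) :
    (step O (κ, s)).1 ∈ KK M := by
  rcases List.mem_cons.1 h with rfl | h
  · exact List.mem_cons_self
  · rcases step_stk M _ _ h O s with h' | h'
    · exact List.mem_cons_of_mem _ h'
    · rw [h']; exact List.mem_cons_self

theorem KK_bnd {M : Prog} {m : ℕ} (hm : M.bnd ≤ m) {κ : List Prog} (h : κ ∈ KK M) :
    ∀ q ∈ κ, q.bnd ≤ m := by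
  rcases List.mem_cons.1 h with rfl | h
  · intro q hq; exact absurd hq (List.not_mem_nil)
  · exact stk_bnd m M [] κ h hm (by intro q hq; exact absurd hq (List.not_mem_nil))

open Classical in
/-- The code of a stack. -/
noncomputable def cod (M : Prog) (κ : List Prog) : Str := una ((KK M).idxOf κ)

theorem cod_inj {M : Prog} {κ κ' : List Prog} (h : κ ∈ KK M) (e : cod M κ = cod M κ') : κ = κ' := by
  classical
  have h1 := congrArg List.length e
  simp only [cod, un_length] at h1
  exact (List.idxOf_inj h).1 h1

/-- Case distinction on the stack. -/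
theorem PolyC.finCases {D : α → Prop} {ctx : List (α → Str)} (M : Prog) (κ : α → List Prog)
    (f : List Prog → α → Str) (hκ : PolyC orc D ctx (fun a => cod M (κ a)))
    (hK : ∀ a, D a → κ a ∈ KK M)
    (hf : ∀ i ∈ KK M, PolyC orc (fun a => D a ∧ κ a = i) ctx (f i)) :
    PolyC orc D ctx (fun a => f (κ a) a) := by
  have key : ∀ l : List (List Prog), (∀ i ∈ l, i ∈ KK M) →
      PolyC orc (fun a => D a ∧ κ a ∈ l) ctx (fun a => f (κ a) a) := by
    intro l
    induction l with
    | nil =>
      intro _
      exact (PolyC.nil).congr (fun a ha => absurd ha.2 List.not_mem_nil)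
    | cons i l ih =>
      intro hl
      have h1 := ih (fun j hj => hl j (List.mem_cons_of_mem _ hj))
      have h2 := hf i (hl i List.mem_cons_self)
      have h3 : PolyB orc (fun a => D a ∧ κ a ∈ i :: l) ctx (fun a => decide (cod M (κ a) = cod M i)) :=
        PolyB.strEq (hκ.mono fun _ h => h.1) (PolyC.const _)
      refine (PolyC.ite h3 (t := fun a => f (κ a) a) (u := fun a => f (κ a) a) ?_ ?_).congr ?_
      · refine (h2.mono ?_).congr (t' := fun a => f (κ a) a) ?_
        · rintro a ⟨⟨h4, h5⟩, h6⟩
          rw [decide_eq_true_eq] at h6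
          exact ⟨h4, cod_inj (hK a h4) h6⟩
        · rintro a ⟨⟨h4, h5⟩, h6⟩
          rw [decide_eq_true_eq] at h6
          rw [cod_inj (hK a h4) h6]
      · refine h1.mono ?_
        rintro a ⟨⟨h4, h5⟩, h6⟩
        refine ⟨h4, ?_⟩
        rw [decide_eq_false_iff_not] at h6
        rcases List.mem_cons.1 h5 with h7 | h7
        · exact absurd (by rw [h7]) h6
        · exact h7
      · intro a _
        exact ite_self _
  exact (key (KK M) (fun i hi => hi)).mono (fun a ha => ⟨ha, hK a ha⟩)

/-! ### Codes of configurations -/

/-- The code of a configuration (registers below `m`). -/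
noncomputable def enc (M : Prog) (m : ℕ) (c : Cfg) : Str :=
  pr (cod M c.1) (lenc ((List.range m).map c.2))

theorem PolyC.lenc {D : α → Prop} {ctx : List (α → Str)} (fs : List (α → Str))
    (h : ∀ f ∈ fs, PolyC orc D ctx f) : PolyC orc D ctx (fun a => PC.lenc (fs.map (fun f => f a))) := by
  induction fs with
  | nil => exact PolyC.nil
  | cons f fs ih =>
    exact PolyC.pr (h f List.mem_cons_self) (ih (fun g hg => h g (List.mem_cons_of_mem _ hg)))

theorem PolyC.enc {D : α → Prop} {ctx : List (α → Str)} (M : Prog) (m : ℕ) (i : List Prog)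
    (S : α → Regs) (hS : ∀ r < m, PolyC orc D ctx (fun a => S a r)) :
    PolyC orc D ctx (fun a => PC.enc M m (i, S a)) := by
  refine PolyC.pr (t := fun _ => cod M i) (PolyC.const _) ?_
  refine (PolyC.lenc ((List.range m).map (fun r a => S a r)) ?_).congr ?_
  · intro f hf
    obtain ⟨r, hr, rfl⟩ := List.mem_map.1 hf
    exact hS r (List.mem_range.1 hr)
  · intro a _
    simp only [List.map_map]
    rfl

theorem enc_reg (M : Prog) (m : ℕ) (c : Cfg) {r : ℕ} (hr : r < m) : nth (snd (enc M m c)) r = c.2 r := by
  rw [enc, snd_pr, nth_lenc, List.getD_eq_getElem _ _ (by simpa using hr)]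
  simp

theorem enc_cod (M : Prog) (m : ℕ) (c : Cfg) : fst (enc M m c) = cod M c.1 := by
  rw [enc, fst_pr]

/-- One step. -/
theorem PolyC.step {D : α → Prop} {ctx : List (α → Str)} (M : Prog) (m : ℕ) (hm : M.bnd ≤ m)
    (O : α → Lang) (κ : α → List Prog) (S : α → Regs)
    (hO : ∀ t : α → Str, PolyC orc D ctx t → PolyB orc D ctx (fun a => O a (t a)))
    (hκ : PolyC orc D ctx (fun a => cod M (κ a))) (hK : ∀ a, D a → κ a ∈ KK M)
    (hS : ∀ r < m, PolyC orc D ctx (fun a => S a r)) :
    PolyC orc D ctx (fun a => PC.enc M m (Pa76659.step (O a) (κ a, S a))) := by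
  refine PolyC.finCases M κ (fun i a => PC.enc M m (Pa76659.step (O a) (i, S a))) hκ hK ?_
  intro i hi
  have hb := KK_bnd hm hi
  have hS' : ∀ r < m, PolyC orc (fun a => D a ∧ κ a = i) ctx (fun a => S a r) :=
    fun r hr => (hS r hr).mono fun _ h => h.1
  rcases i with _ | ⟨q, k⟩
  · exact PolyC.enc M m [] S hS'
  · have hq := hb q List.mem_cons_self
    cases q with
    | skip => exact PolyC.enc M m k S hS'
    | push r b =>
      have hr : r < m := hq
      refine PolyC.enc M m k (fun a => Function.update (S a) r (b :: S a r)) ?_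
      intro r' hr'
      by_cases h : r' = r
      · subst h
        exact ((hS' r' hr').cons b).congr (fun a _ => by rw [Function.update_self])
      · exact (hS' r' hr').congr (fun a _ => by rw [Function.update_of_ne h])
    | pop r =>
      have hr : r < m := hq
      refine PolyC.enc M m k (fun a => Function.update (S a) r (S a r).tail) ?_
      intro r' hr'
      by_cases h : r' = r
      · subst h
        exact ((hS' r' hr').tail).congr (fun a _ => by rw [Function.update_self])
      · exact (hS' r' hr').congr (fun a _ => by rw [Function.update_of_ne h])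
    | query r t =>
      have hrt : r < m ∧ t < m := by
        have : max r t + 1 ≤ m := hq
        omega
      refine PolyC.enc M m k (fun a => Function.update (S a) t (O a (S a r) :: S a t)) ?_
      intro r' hr'
      by_cases h : r' = t
      · subst h
        have h1 : PolyC orc (fun a => D a ∧ κ a = Prog.query r r' :: k) ctx (fun a => [O a (S a r)]) :=
          (hO _ (hS r hrt.1)).mono fun _ h => h.1
        exact (h1.append (hS' r' hr')).congr (fun a _ => by rw [Function.update_self]; rfl)
      · exact (hS' r' hr').congr (fun a _ => by rw [Function.update_of_ne h])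
    | seq p q => exact PolyC.enc M m (p :: q :: k) S hS'
    | branch r p q e =>
      have hr : r < m := by
        have : max (r + 1) (max p.bnd (max q.bnd e.bnd)) ≤ m := hq
        omega
      refine (PolyC.cases (hS' r hr) (u0 := fun a => PC.enc M m (e :: k, S a))
        (u1 := fun a => PC.enc M m (q :: k, S a)) (u2 := fun a => PC.enc M m (p :: k, S a))
        (PolyC.enc M m (e :: k) S fun r hr => (hS' r hr).mono fun _ h => h.1)
        (PolyC.enc M m (q :: k) S fun r hr => (hS' r hr).mono fun _ h => h.1)
        (PolyC.enc M m (p :: k) S fun r hr => (hS' r hr).mono fun _ h => h.1)).congr ?_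
      intro a _
      rcases hs : S a r with _ | ⟨b, l⟩
      · simp [Pa76659.step, hs]
      · cases b <;> simp [Pa76659.step, hs]
    | loop r p =>
      have hr : r < m := by
        have : max (r + 1) p.bnd ≤ m := hq
        omega
      refine (PolyC.cases (hS' r hr) (u0 := fun a => PC.enc M m (k, S a))
        (u1 := fun a => PC.enc M m (p :: .loop r p :: k, S a))
        (u2 := fun a => PC.enc M m (p :: .loop r p :: k, S a))
        (PolyC.enc M m k S fun r hr => (hS' r hr).mono fun _ h => h.1)
        (PolyC.enc M m (p :: .loop r p :: k) S fun r hr => (hS' r hr).mono fun _ h => h.1)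
        (PolyC.enc M m (p :: .loop r p :: k) S fun r hr => (hS' r hr).mono fun _ h => h.1)).congr ?_
      intro a _
      rcases hs : S a r with _ | ⟨b, l⟩
      · simp [Pa76659.step, hs]
      · cases b <;> simp [Pa76659.step, hs]

/-! ### Iteration -/

/-- Runs with an oracle that depends on time. -/
def runT (O : ℕ → Lang) : ℕ → Cfg → Cfg
  | 0, c => c
  | n + 1, c => step (O n) (runT O n c)

theorem runT_const (O : Lang) (c : Cfg) : ∀ n, runT (fun _ => O) n c = runN O n c
  | 0 => rfl
  | n + 1 => by
    rw [runT, runT_const O c n, Pa76659.runN_add O n 1 c]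
    rfl

theorem runT_KK {M : Prog} (O : ℕ → Lang) (s : ℕ → Str) : ∀ n, (runT O n ([M], s)).1 ∈ KK M
  | 0 => List.mem_cons_of_mem _ (mem_stk M [])
  | n + 1 => by
    have h := step_KK (runT_KK (M := M) O s n) (O n) (runT O n ([M], s)).2
    exact h

theorem runT_bdd (O : ℕ → Lang) {m : ℕ} {c : Cfg} (h : Bdd m c.2) : ∀ n, Bdd (m + n) (runT O n c).2
  | 0 => h
  | n + 1 => Pa76659.step_bdd (O n) _ (runT_bdd O h n)

theorem total_map_range (s : ℕ → Str) (N : ℕ) : ∀ m : ℕ, (∀ r < m, (s r).length ≤ N) →
    total ((List.range m).map s) ≤ m * N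
  | 0, _ => by simp
  | m + 1, h => by
    rw [List.range_succ, List.map_append, total_append]
    have h1 := total_map_range s N m (fun r hr => h r (by omega))
    have h2 := h m (by omega)
    simp only [List.map_cons, List.map_nil, total_cons, total_nil]
    rw [Nat.add_mul, Nat.one_mul]
    omega

theorem enc_length (M : Prog) (m N : ℕ) (c : Cfg) (h : ∀ r < m, (c.2 r).length ≤ N) :
    (enc M m c).length ≤ 2 * (KK M).length + 1 + (2 * (m * N) + m) := by
  classical
  rw [enc, pr_length, lenc_length]
  have h1 : (cod M c.1).length ≤ (KK M).length := by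
    rw [cod, un_length]
    exact List.idxOf_le_length
  have h2 := total_map_range c.2 N m h
  simp only [List.length_map, List.length_range]
  omega

/-- The clocked interpreter. -/
theorem PolyC.runT {D : α → Prop} {ctx : List (α → Str)} (M : Prog) (m : ℕ) (hm : M.bnd ≤ m)
    (O : α → ℕ → Lang) (S0 : α → Regs) (n : α → ℕ)
    (hO : PolyB (fun p : (α × ℕ) × Str => orc p.1.1) (fun p => D p.1.1 ∧ p.1.2 < n p.1.1)
      (PC.lift (PC.lift ctx ++ [fun p => una p.2]) ++ [fun p => p.2]) (fun p => O p.1.1 p.1.2 p.2))
    (hS : ∀ r < m, PolyC orc D ctx (fun a => S0 a r)) (hn : PolyN orc D ctx n)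
    (hlen : ∃ B : Polynomial ℕ, ∀ a, D a → Bdd (B.eval (total (vals ctx a))) (S0 a)) :
    PolyC orc D ctx (fun a => PC.enc M m (PC.runT (O a) (n a) ([M], S0 a))) := by
  obtain ⟨B, hB⟩ := hlen
  obtain ⟨pn, hpn⟩ := PolyC.length_le hn
  refine PolyC.natRec (fun a k => PC.enc M m (PC.runT (O a) k ([M], S0 a))) hn
    (PolyC.enc M m [M] S0 hS) ?_
    ⟨2 * Polynomial.C (KK M).length + 1 + (2 * (Polynomial.C m * (B + pn)) + Polynomial.C m),
      fun a ha k hk => ?_⟩
  · set ctx' : List (α × ℕ → Str) := PC.lift ctx ++ [fun p => una p.2,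
      fun p => PC.enc M m (PC.runT (O p.1) p.2 ([M], S0 p.1))] with hctx'
    have hF : PolyC (fun p : α × ℕ => orc p.1) (fun p : α × ℕ => D p.1 ∧ p.2 < n p.1) ctx'
        (fun p => PC.enc M m (PC.runT (O p.1) p.2 ([M], S0 p.1))) := PolyC.var (by simp [hctx'])
    have := PolyC.step (orc := fun p : α × ℕ => orc p.1) (D := fun p : α × ℕ => D p.1 ∧ p.2 < n p.1)
      (ctx := ctx') M m hm (fun p => O p.1 p.2)
      (fun p => (PC.runT (O p.1) p.2 ([M], S0 p.1)).1)
      (fun p => (PC.runT (O p.1) p.2 ([M], S0 p.1)).2) ?_ ?_ ?_ ?_
    · exact this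
    · intro t ht
      have h1 : PolyB (fun p : (α × ℕ) × Str => orc p.1.1) (fun p => D p.1.1 ∧ p.1.2 < n p.1.1)
          (PC.lift ctx' ++ [fun p => p.2]) (fun p => O p.1.1 p.1.2 p.2) := by
        refine PolyC.subset hO ?_
        intro f hf
        simp only [hctx', PC.lift, List.map_append, List.map_cons, List.map_nil, List.mem_append,
          List.mem_cons, List.not_mem_nil, or_false] at hf ⊢
        tauto
      exact PolyB.subst (D' := fun p : (α × ℕ) × Str => D p.1.1 ∧ p.1.2 < n p.1.1) h1 ht
        (fun a ha => ha)
    · exact (PolyC.fst hF).congr (fun p _ => enc_cod M m _)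
    · intro p _
      exact runT_KK (O p.1) (S0 p.1) p.2
    · intro r hr
      exact (PolyC.nth (PolyC.snd hF) (PolyN.const r)).congr (fun p _ => enc_reg M m _ hr)
  · have h1 := runT_bdd (O a) (c := ([M], S0 a)) (hB a ha) k
    have h2 := hpn a ha
    rw [un_length] at h2
    refine (enc_length M m (B.eval (total (vals ctx a)) + pn.eval (total (vals ctx a))) _
      (fun r _ => (h1 r).trans (by omega))).trans ?_
    simp only [Polynomial.eval_add, Polynomial.eval_mul, Polynomial.eval_ofNat,
      Polynomial.eval_one, Polynomial.eval_C]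
    exact le_rfl

/-- Acceptance with a computable virtual oracle. -/
theorem PolyB.accepts {D : α → Prop} {ctx : List (α → Str)} (M : Prog)
    (O : α → Lang) (s t : α → Str) (n : α → ℕ)
    (hO : PolyB (fun p : α × Str => orc p.1) (fun p => D p.1)
      (PC.lift ctx ++ [fun p => p.2]) (fun p => O p.1 p.2))
    (hs : PolyC orc D ctx s) (ht : PolyC orc D ctx t) (hn : PolyN orc D ctx n) :
    PolyB orc D ctx (fun a => Pa76659.accepts (O a) M (inp2 (s a) (t a)) (n a)) := by
  obtain ⟨ps, hps⟩ := hs.length_le
  obtain ⟨pt, hpt⟩ := ht.length_le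
  have h1 := PolyC.runT (orc := orc) (D := D) (ctx := ctx) M (M.bnd + 1) (by omega)
    (fun a _ => O a) (fun a => inp2 (s a) (t a)) n ?_ ?_ hn ⟨ps + pt, ?_⟩
  · refine (PolyB.headD (PolyC.nth (PolyC.snd h1) (PolyN.const 0))).congr ?_
    intro a _
    rw [enc_reg _ _ _ (by omega), runT_const, Pa76659.accepts]
    rcases (runN (O a) (n a) ([M], inp2 (s a) (t a))).2 0 with _ | ⟨b, l⟩
    · rfl
    · cases b <;> rfl
  · have h2 := PolyC.reindex (D' := fun p : (α × ℕ) × Str => D p.1.1 ∧ p.1.2 < n p.1.1) hO
      (fun p : (α × ℕ) × Str => (p.1.1, p.2)) (fun p hp => hp.1)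
    refine PolyC.subset h2 ?_
    intro f hf
    simp only [PC.lift, List.map_append, List.map_cons, List.map_nil, List.mem_append,
      List.mem_map, List.mem_cons, List.not_mem_nil, or_false] at hf ⊢
    rcases hf with ⟨_, ⟨g', hg', rfl⟩, rfl⟩ | rfl
    · exact Or.inl (Or.inl ⟨fun p : α × ℕ => g' p.1, ⟨g', hg', rfl⟩, rfl⟩)
    · exact Or.inr rfl
  · intro r _
    rcases r with _ | _ | r
    · exact hs.congr (fun a _ => by simp [inp2])
    · exact ht.congr (fun a _ => by simp [inp2])
    · exact PolyC.nil.congr (fun a _ => by simp [inp2])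
  · intro a ha
    refine (Pa76659.inp2_bdd (s a) (t a)).mono ?_
    have h2 := hps a ha
    have h3 := hpt a ha
    rw [Polynomial.eval_add]
    omega

end Pool.Agent.Lib.Pa76659G.PC
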