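import Pool.Agent.Lib.Pa76659G.Chk
import Pool.Agent.Lib.Pa76659G.Exc

set_option autoImplicit false

/-!
The linear ordering principle: a language in `NP(X)` which is always in `L_2`, and for comeager many
oracles not in `\hat L_2`.
-/

namespace Pool.Agent.Lib.Pa76659G

open Pool.Agent.Lib.Pa76659 PC

/-- the relation which is written in the second half of the oracle -/
def le2 (X : Lang) (u v : Str) : Bool := X (true :: pr u v)

/-- the strings `u`, `v`, `w` show that the relation is not a strict linear order -/
def loVio (X : Lang) (u v w : Str) : Bool :=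
  (!(decide (u = v)) && ((le2 X u v && le2 X v u) || (!(le2 X u v) && !(le2 X v u)))) ||
  (!(decide (u = v)) && (!(decide (v = w)) && ((le2 X u v && le2 X v w) && !(le2 X u w))))

open Classical in
/-- the strings which are not the minimum of the linear order on the strings of their length, or all
strings if the relation is not a linear order -/
noncomputable def lopL (X : Lang) : Lang := fun x =>
  decide ((∃ y : Str, y.length = x.length ∧ y ≠ x ∧ le2 X y x = true) ∨
    ∃ u v w : Str, u.length = x.length ∧ v.length = x.length ∧ w.length = x.length ∧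
      loVio X u v w = true)

theorem lopL_iff (X : Lang) (x : Str) : lopL X x = true ↔
    (∃ y : Str, y.length = x.length ∧ y ≠ x ∧ le2 X y x = true) ∨
    ∃ u v w : Str, u.length = x.length ∧ v.length = x.length ∧ w.length = x.length ∧
      loVio X u v w = true := by
  simp only [lopL, decide_eq_true_eq]

theorem loVio1 {X : Lang} {u v : Str} (hne : u ≠ v) (h : loVio X u v v = false) :
    le2 X u v = !(le2 X v u) := by
  unfold loVio at h
  rw [decide_eq_false hne] at h
  cases h1 : le2 X u v <;> cases h2 : le2 X v u <;> simp_all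

theorem loVio2 {X : Lang} {u v w : Str} (hne : u ≠ v) (hne2 : v ≠ w) (h : loVio X u v w = false)
    (h1 : le2 X u v = true) (h2 : le2 X v w = true) : le2 X u w = true := by
  unfold loVio at h
  rw [decide_eq_false hne, decide_eq_false hne2, h1, h2] at h
  cases h3 : le2 X u w <;> simp_all

/-- If there is no violation there is a minimum, and it is the only exception. -/
theorem lop_min (X : Lang) (n : ℕ)
    (h : ∀ u v w : Str, u.length = n → v.length = n → w.length = n → loVio X u v w = false) :
    ∃ m : Str, m.length = n ∧ ∀ x : Str, x.length = n → (lopL X x = false ↔ x = m) := by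
  classical
  let r : List.Vector Bool n → List.Vector Bool n → Prop := fun a b =>
    a ≠ b ∧ le2 X a.1 b.1 = true
  have hv : ∀ a b : List.Vector Bool n, a ≠ b → a.1 ≠ b.1 := fun a b h h2 => h (Subtype.ext h2)
  have ht : IsTrans _ r := ⟨by
    rintro a b c ⟨h1, h2⟩ ⟨h3, h4⟩
    have h5 : a ≠ c := by
      rintro rfl
      have h6 := loVio1 (hv _ _ h1) (h a.1 b.1 b.1 a.2 b.2 b.2)
      rw [h2, h4] at h6
      exact absurd h6 (by simp)
    exact ⟨h5, loVio2 (hv _ _ h1) (hv _ _ h3) (h a.1 b.1 c.1 a.2 b.2 c.2) h2 h4⟩⟩
  have hi : Std.Irrefl r := ⟨fun a h1 => h1.1 rfl⟩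
  have hw : WellFounded r := Finite.wellFounded_of_trans_of_irrefl r
  obtain ⟨m, -, hm⟩ := hw.has_min Set.univ ⟨⟨List.replicate n false, by simp⟩, trivial⟩
  refine ⟨m.1, m.2, fun x hx => ?_⟩
  rw [← Bool.not_eq_true, lopL_iff]
  constructor
  · intro h1
    by_contra hne
    apply h1
    left
    refine ⟨m.1, by rw [hx]; exact m.2, fun h2 => hne h2.symm, ?_⟩
    have h2 := hm ⟨x, hx⟩ trivial
    have h3 : le2 X x m.1 ≠ true := fun h4 => h2 ⟨fun h5 => hne (congrArg Subtype.val h5), h4⟩
    have h4 := loVio1 hne (h x m.1 m.1 hx m.2 m.2)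
    have h5 : ∀ a b : Bool, a ≠ true → a = !b → b = true := by decide
    exact h5 _ _ h3 h4
  · rintro rfl (⟨y, h1, h2, h3⟩ | ⟨u, v, w, h1, h2, h3, h4⟩)
    · rw [hx] at h1
      exact hm ⟨y, h1⟩ trivial ⟨fun h5 => h2 (congrArg Subtype.val h5), h3⟩
    · rw [hx] at h1 h2 h3
      rw [h u v w h1 h2 h3] at h4
      exact absurd h4 (by simp)

theorem le2_poly {X : Lang} {α : Type*} {D : α → Prop} {ctx : List (α → Str)} {u v : α → Str}
    (hu : PolyC (fun _ => X) D ctx u) (hv : PolyC (fun _ => X) D ctx v) :
    PolyB (fun _ => X) D ctx (fun a => le2 X (u a) (v a)) :=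
  PolyC.query (PolyC.cons true (PolyC.pr hu hv))

theorem loVio_poly {X : Lang} {α : Type*} {D : α → Prop} {ctx : List (α → Str)} {u v w : α → Str}
    (hu : PolyC (fun _ => X) D ctx u) (hv : PolyC (fun _ => X) D ctx v)
    (hw : PolyC (fun _ => X) D ctx w) :
    PolyB (fun _ => X) D ctx (fun a => loVio X (u a) (v a) (w a)) := by
  have e1 := (PolyB.strEq hu hv).not
  have e2 := (PolyB.strEq hv hw).not
  have a1 := le2_poly hu hv
  have a2 := le2_poly hv hu
  have a3 := le2_poly hv hw
  have a4 := le2_poly hu hw
  exact (e1.and ((a1.and a2).or (a1.not.and a2.not))).or (e1.and (e2.and ((a1.and a3).and a4.not)))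

/-- verification of the members of `lopL` -/
def vlop (X : Lang) (x y : Str) : Bool :=
  (decide ((fst y).length = x.length) && (!(decide (fst y = x)) && le2 X (fst y) x)) ||
  ((decide ((fst y).length = x.length) && (decide ((fst (snd y)).length = x.length) &&
    decide ((snd (snd y)).length = x.length))) && loVio X (fst y) (fst (snd y)) (snd (snd y)))

theorem vlop_poly {X : Lang} {α : Type*} {D : α → Prop} {ctx : List (α → Str)} {x y : α → Str}
    (hx : PolyC (fun _ => X) D ctx x) (hy : PolyC (fun _ => X) D ctx y) :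
    PolyB (fun _ => X) D ctx (fun a => vlop X (x a) (y a)) := by
  have h1 := PolyC.fst hy
  have h2 := PolyC.fst (PolyC.snd hy)
  have h3 := PolyC.snd (PolyC.snd hy)
  have e1 := PolyB.natEq (PolyN.length h1) (PolyN.length hx)
  have e2 := PolyB.natEq (PolyN.length h2) (PolyN.length hx)
  have e3 := PolyB.natEq (PolyN.length h3) (PolyN.length hx)
  have e4 := (PolyB.strEq h1 hx).not
  exact (e1.and (e4.and (le2_poly h1 hx))).or ((e1.and (e2.and e3)).and (loVio_poly h1 h2 h3))

theorem vlop_iff (X : Lang) (x : Str) {N : ℕ} (hN : 5 * x.length + 2 ≤ N) : lopL X x = true ↔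
    ∃ y : Str, y.length ≤ N ∧ vlop X x y = true := by
  rw [lopL_iff]
  unfold vlop
  simp only [Bool.or_eq_true, Bool.and_eq_true, decide_eq_true_eq, Bool.not_eq_true',
    decide_eq_false_iff_not]
  constructor
  · rintro (⟨y, h1, h2, h3⟩ | ⟨u, v, w, h1, h2, h3, h4⟩)
    · refine ⟨pr y [], ?_, Or.inl ?_⟩
      · simp only [pr_length, List.length_nil]
        omega
      · simp only [fst_pr]
        exact ⟨h1, h2, h3⟩
    · refine ⟨pr u (pr v w), ?_, Or.inr ?_⟩
      · simp only [pr_length]
        omega
      · simp only [fst_pr, snd_pr]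
        exact ⟨⟨h1, h2, h3⟩, h4⟩
  · rintro ⟨y, -, (⟨h1, h2, h3⟩ | ⟨⟨h1, h2, h3⟩, h4⟩)⟩
    · exact Or.inl ⟨_, h1, h2, h3⟩
    · exact Or.inr ⟨_, _, _, h1, h2, h3, h4⟩

theorem lopL_mem (X : Lang) : lopL X ∈ NPO X := by
  have hx : PolyC (fun _ : Str × Str => X) (fun _ => True) [fun p => p.1, fun p => p.2]
    (fun p => p.1) := PolyC.var (by simp)
  have hy : PolyC (fun _ : Str × Str => X) (fun _ => True) [fun p => p.1, fun p => p.2]
    (fun p => p.2) := PolyC.var (by simp)
  refine mem_NPO_le (5 * Polynomial.X + 2) (vlop_poly hx hy) (fun x => ?_)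
  rw [vlop_iff X x (N := (5 * Polynomial.X + 2 : Polynomial ℕ).eval x.length) (by simp)]

/-- the advice is a violation -/
def gvio (X : Lang) (n u : Str) : Bool :=
  !(u.headD false) && (((decide ((fst u.tail).length = n.length) &&
    (decide ((fst (snd u.tail)).length = n.length) &&
    decide ((snd (snd u.tail)).length = n.length))) &&
    loVio X (fst u.tail) (fst (snd u.tail)) (snd (snd u.tail))))

theorem lopL_chk (X : Lang) : (fun x => !(lopL X x)) ∈ NPChk X := by
  classical
  -- rejected advices
  set D : Lang := fun z => !(gvio X (fst z) (snd z)) && (!((snd z).headD false) ||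
    (!(decide ((snd z).tail.length = (fst z).length)) || lopL X (snd z).tail)) with hD
  have hDm : D ∈ NPO X := by
    have hz : PolyC (fun _ : Str × Str => X) (fun _ => True) [fun p => p.1, fun p => p.2]
      (fun p => p.1) := PolyC.var (by simp)
    have hy : PolyC (fun _ : Str × Str => X) (fun _ => True) [fun p => p.1, fun p => p.2]
      (fun p => p.2) := PolyC.var (by simp)
    have hn := PolyC.fst hz
    have hu := PolyC.snd hz
    have ht := hu.tail
    have h1 := PolyC.fst ht
    have h2 := PolyC.fst (PolyC.snd ht)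
    have h3 := PolyC.snd (PolyC.snd ht)
    have e1 := PolyB.natEq (PolyN.length h1) (PolyN.length hn)
    have e2 := PolyB.natEq (PolyN.length h2) (PolyN.length hn)
    have e3 := PolyB.natEq (PolyN.length h3) (PolyN.length hn)
    have g1 : PolyB (fun _ : Str × Str => X) (fun _ => True) [fun p => p.1, fun p => p.2]
        (fun p => gvio X (fst p.1) (snd p.1)) :=
      (PolyB.headD hu).not.and ((e1.and (e2.and e3)).and (loVio_poly h1 h2 h3))
    have g2 := (PolyB.natEq (PolyN.length ht) (PolyN.length hn)).not
    have g3 := vlop_poly ht hy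
    refine mem_NPO_le (5 * Polynomial.X + 2)
      (g1.not.and ((PolyB.headD hu).not.or (g2.or g3))) (fun z => ?_)
    have hl : (snd z).tail.length ≤ z.length := by
      have h5 := snd_length z
      rw [List.length_tail]
      omega
    have h6 := vlop_iff X (snd z).tail (N := (5 * Polynomial.X + 2 : Polynomial ℕ).eval z.length)
      (by simp only [Polynomial.eval_add, Polynomial.eval_mul, Polynomial.eval_X,
        Polynomial.eval_ofNat]; omega)
    simp only [hD, Bool.and_eq_true, Bool.or_eq_true]
    rw [h6]
    constructor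
    · rintro ⟨h7, h8 | h8 | ⟨y, h9, h10⟩⟩
      · exact ⟨[], by simp, h7, Or.inl h8⟩
      · exact ⟨[], by simp, h7, Or.inr (Or.inl h8)⟩
      · exact ⟨y, h9, h7, Or.inr (Or.inr h10)⟩
    · rintro ⟨y, h9, h7, h8 | h8 | h10⟩
      · exact ⟨h7, Or.inl h8⟩
      · exact ⟨h7, Or.inr (Or.inl h8)⟩
      · exact ⟨h7, Or.inr (Or.inr ⟨y, h9, h10⟩)⟩
  refine ⟨fun z => decide (snd z = true :: fst z), ?_, D, hDm, 5 * Polynomial.X + 3, fun n => ?_⟩
  · refine PO_subset_NPO X (mem_PO ?_)
    have hx : PolyC (fun _ : Str => X) (fun _ => True) [fun x => x] (fun x => x) :=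
      PolyC.var (by simp)
    exact PolyB.strEq (PolyC.snd hx) (PolyC.cons true (PolyC.fst hx))
  have hon : (on1 n).length = n := by rw [on1_eq, PC.un_length]
  have hDe : ∀ u : Str, D (pr (on1 n) u) = (!(gvio X (on1 n) u) && (!(u.headD false) ||
      (!(decide (u.tail.length = n)) || lopL X u.tail))) := by
    intro u
    simp only [hD, fst_pr, snd_pr, hon]
  constructor
  · by_cases hv : ∃ u v w : Str, u.length = n ∧ v.length = n ∧ w.length = n ∧ loVio X u v w = true
    · obtain ⟨u, v, w, h1, h2, h3, h4⟩ := hv
      refine ⟨false :: pr u (pr v w), ?_, ?_⟩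
      · simp only [List.length_cons, pr_length, Polynomial.eval_add, Polynomial.eval_mul,
          Polynomial.eval_X, Polynomial.eval_ofNat]
        omega
      · rw [hDe]
        have h5 : gvio X (on1 n) (false :: pr u (pr v w)) = true := by
          unfold gvio
          simp only [List.headD_cons, List.tail_cons, fst_pr, snd_pr, hon, h1, h2, h3, h4]
          simp
        rw [h5]
        rfl
    · push Not at hv
      obtain ⟨m, hm1, hm2⟩ := lop_min X n (fun u v w h1 h2 h3 => by
        have := hv u v w h1 h2 h3
        cases h4 : loVio X u v w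
        · rfl
        · exact absurd h4 this)
      refine ⟨true :: m, ?_, ?_⟩
      · simp only [List.length_cons, Polynomial.eval_add, Polynomial.eval_mul,
          Polynomial.eval_X, Polynomial.eval_ofNat]
        omega
      · rw [hDe]
        simp only [List.headD_cons, List.tail_cons, hm1, (hm2 m hm1).2 rfl]
        simp
  · intro u _ hu x hx
    rw [hDe] at hu
    show (!(lopL X x)) = decide (snd (pr x u) = true :: fst (pr x u))
    rw [fst_pr, snd_pr]
    by_cases hg : gvio X (on1 n) u = true
    · have h1 := hg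
      unfold gvio at h1
      simp only [Bool.and_eq_true, Bool.not_eq_true', decide_eq_true_eq, hon] at h1
      obtain ⟨h2, ⟨h3, h4, h5⟩, h6⟩ := h1
      have h7 : lopL X x = true := by
        rw [lopL_iff]
        exact Or.inr ⟨_, _, _, h3.trans hx.symm, h4.trans hx.symm, h5.trans hx.symm, h6⟩
      rw [h7]
      have h8 : u ≠ true :: x := by
        rintro rfl
        simp at h2
      rw [decide_eq_false h8]
      rfl
    · rw [Bool.not_eq_true] at hg
      rw [hg] at hu
      simp only [Bool.not_false, Bool.true_and, Bool.or_eq_false_iff, Bool.not_eq_false',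
        decide_eq_true_eq] at hu
      obtain ⟨h1, h2, h3⟩ := hu
      obtain ⟨m, rfl⟩ : ∃ m, u = true :: m := by
        rcases u with _ | ⟨b, m⟩
        · simp at h1
        · simp at h1
          exact ⟨m, by rw [h1]⟩
      simp only [List.tail_cons] at h2 h3
      have hv : ∀ u v w : Str, u.length = n → v.length = n → w.length = n → loVio X u v w = false := by
        intro u v w h4 h5 h6
        rw [← Bool.not_eq_true]
        intro h7
        have h8 : lopL X m = true := by
          rw [lopL_iff]
          exact Or.inr ⟨u, v, w, by omega, by omega, by omega, h7⟩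
        rw [h8] at h3
        exact absurd h3 (by simp)
      obtain ⟨m', hm1, hm2⟩ := lop_min X n hv
      have h4 := (hm2 m h2).1 h3
      subst h4
      rw [Bool.eq_iff_iff, Bool.not_eq_true', hm2 x hx, decide_eq_true_eq]
      constructor
      · rintro rfl; rfl
      · intro h; exact ((List.cons_injective h)).symm

/-- `lopL` is always in `L_2`. -/
theorem lopL_low (X : Lang) : lopL X ∈ Low X 2 := ⟨lopL_mem X, chk_low (lopL_mem X) (lopL_chk X)⟩

end Pool.Agent.Lib.Pa76659G
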