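import Pool.Agent.Lib.Pa76659G.Comb
import Pool.Agent.Lib.Pa76659G.Defs

set_option autoImplicit false

/-!
Pairs of strings, iteration, equality, polynomials in the calculus `PolyC`.
-/

namespace Pool.Agent.Lib.Pa76659G.PC

open Pool.Agent.Lib.Pa76659 (Str Lang Prog Cfg step runN Exec)

variable {α β : Type*} {orc : α → Lang}

/-! ### Pairs -/

theorem pr_cons (c : Bool) (a b : Str) : pr (c :: a) b = true :: c :: pr a b := rfl

theorem pr_nil (b : Str) : pr [] b = false :: b := rfl

theorem fst_cons (c : Bool) (l : Str) : fst (true :: c :: l) = c :: fst l := rfl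

theorem snd_cons (c : Bool) (l : Str) : snd (true :: c :: l) = snd l := rfl

theorem fst_false (l : Str) : fst (false :: l) = [] := rfl

theorem snd_false (l : Str) : snd (false :: l) = l := rfl

@[simp] theorem fst_pr (a b : Str) : fst (pr a b) = a := by
  induction a with
  | nil => rfl
  | cons c a ih => rw [pr_cons, fst_cons, ih]

@[simp] theorem snd_pr (a b : Str) : snd (pr a b) = b := by
  induction a with
  | nil => rfl
  | cons c a ih => rw [pr_cons, snd_cons, ih]

theorem pr_inj {a b a' b' : Str} (h : pr a b = pr a' b') : a = a' ∧ b = b' := by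
  have h1 := congrArg fst h
  have h2 := congrArg snd h
  simp only [fst_pr, snd_pr] at h1 h2
  exact ⟨h1, h2⟩

@[simp] theorem pr_length (a b : Str) : (pr a b).length = 2 * a.length + 1 + b.length := by
  induction a with
  | nil => simp [pr_nil]; omega
  | cons c a ih =>
    rw [pr_cons]
    simp only [List.length_cons, ih]
    omega

theorem pr_ne_nil (a b : Str) : pr a b ≠ [] := by
  intro h
  have := congrArg List.length h
  rw [pr_length] at this
  simp at this

@[simp] theorem fst_nil : fst [] = [] := rfl

@[simp] theorem snd_nil : snd [] = [] := rfl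

theorem fst_length_le : ∀ w : Str, (fst w).length ≤ w.length
  | [] => by simp
  | [true] => by show ([] : Str).length ≤ _; simp
  | false :: l => by rw [fst_false]; simp
  | true :: c :: l => by
    have := fst_length_le l
    rw [fst_cons]
    simp only [List.length_cons]
    omega

theorem snd_length_le : ∀ w : Str, (snd w).length ≤ w.length
  | [] => by simp
  | [true] => by show ([] : Str).length ≤ _; simp
  | false :: l => by rw [snd_false]; simp
  | true :: c :: l => by
    have := snd_length_le l
    rw [snd_cons]
    simp only [List.length_cons]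
    omega

/-! ### Substitution and iteration -/

/-- Substitution of a computable function for the last variable. -/
theorem PolyC.subst {D : α → Prop} {D' : α × Str → Prop} {ctx : List (α → Str)} {g : α × Str → Str} {t : α → Str}
    (hg : PolyC (fun p : α × Str => orc p.1) D' (PC.lift ctx ++ [fun p => p.2]) g)
    (ht : PolyC orc D ctx t) (hD : ∀ a, D a → D' (a, t a)) : PolyC orc D ctx (fun a => g (a, t a)) := by
  have h1 : PolyC orc D ((PC.lift ctx ++ [fun p : α × Str => p.2]).map
      (fun f => f ∘ fun a => (a, t a))) (fun a => g (a, t a)) :=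
    hg.reindex (D' := D) (fun a => (a, t a)) hD
  refine PolyC.comp h1 ?_
  intro f hf
  simp only [List.map_append, List.map_cons, List.map_nil, List.mem_append, List.mem_map,
    List.mem_cons, List.not_mem_nil, or_false, PC.lift] at hf
  rcases hf with ⟨_, ⟨g', hg', rfl⟩, rfl⟩ | rfl
  · exact PolyC.var hg'
  · exact ht

theorem PolyB.subst {D : α → Prop} {D' : α × Str → Prop} {ctx : List (α → Str)} {g : α × Str → Bool} {t : α → Str}
    (hg : PolyB (fun p : α × Str => orc p.1) D' (PC.lift ctx ++ [fun p => p.2]) g)
    (ht : PolyC orc D ctx t) (hD : ∀ a, D a → D' (a, t a)) : PolyB orc D ctx (fun a => g (a, t a)) :=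
  PolyC.subst hg ht hD

/-- Iteration of a computable function. -/
theorem PolyC.iter {D : α → Prop} {ctx : List (α → Str)} {g : α → Str → Str} {t : α → Str}
    {n : α → ℕ} (hg : PolyC (fun p : α × Str => orc p.1) (fun p => D p.1)
      (PC.lift ctx ++ [fun p => p.2]) (fun p => g p.1 p.2))
    (ht : PolyC orc D ctx t) (hn : PolyN orc D ctx n)
    (hB : ∃ B : Polynomial ℕ, ∀ a, D a → ∀ k, k ≤ n a →
      ((g a)^[k] (t a)).length ≤ B.eval (total (vals ctx a))) :
    PolyC orc D ctx (fun a => (g a)^[n a] (t a)) := by
  refine PolyC.natRec (fun a k => (g a)^[k] (t a)) hn ht ?_ hB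
  have h1 := hg.reindex (D' := fun p : α × ℕ => D p.1 ∧ p.2 < n p.1)
    (fun p : α × ℕ => (p.1, (g p.1)^[p.2] (t p.1))) (fun p hp => hp.1)
  refine (PolyC.subset (ctx' := PC.lift ctx ++ [fun p : α × ℕ => una p.2,
    fun p => (g p.1)^[p.2] (t p.1)]) h1 ?_).congr ?_
  · intro f hf
    simp only [List.map_append, List.map_cons, List.map_nil, List.mem_append, List.mem_map,
      List.mem_cons, List.not_mem_nil, or_false, PC.lift] at hf ⊢
    rcases hf with ⟨_, ⟨g', hg', rfl⟩, rfl⟩ | rfl
    · exact Or.inl ⟨g', hg', rfl⟩
    · exact Or.inr (Or.inr rfl)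
  · intro p _
    simp only [Function.comp_apply, Function.iterate_succ', Function.comp]

/-! ### Natural numbers -/

theorem PolyN.sub {D : α → Prop} {ctx : List (α → Str)} {f g : α → ℕ}
    (hf : PolyN orc D ctx f) (hg : PolyN orc D ctx g) : PolyN orc D ctx (fun a => f a - g a) :=
  (PolyC.drop hf hg).congr (fun a _ => by simp [una])

theorem PolyN.ite {D : α → Prop} {ctx : List (α → Str)} {φ : α → Bool} {f g : α → ℕ}
    (hφ : PolyB orc D ctx φ) (hf : PolyN orc D ctx f) (hg : PolyN orc D ctx g) :
    PolyN orc D ctx (fun a => if φ a then f a else g a) :=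
  (PolyC.ite hφ (PolyC.mono hf fun _ h => h.1) (PolyC.mono hg fun _ h => h.1)).congr
    (fun a _ => by show _ = una (if φ a = true then f a else g a); split <;> rfl)

theorem PolyN.min {D : α → Prop} {ctx : List (α → Str)} {f g : α → ℕ}
    (hf : PolyN orc D ctx f) (hg : PolyN orc D ctx g) : PolyN orc D ctx (fun a => Min.min (f a) (g a)) :=
  (hf.sub (hf.sub hg)).congr (fun a _ => by omega)

/-- Polynomials. -/
theorem PolyN.poly {D : α → Prop} {ctx : List (α → Str)} {f : α → ℕ}
    (hf : PolyN orc D ctx f) (q : Polynomial ℕ) : PolyN orc D ctx (fun a => q.eval (f a)) := by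
  induction q using Polynomial.induction_on with
  | C c => exact (PolyN.const c).congr (fun a _ => by simp)
  | add p q hp hq => exact (hp.add hq).congr (fun a _ => by simp)
  | monomial n c ih =>
    exact (ih.mul hf).congr (fun a _ => by simp [pow_succ, mul_assoc])

/-- Counting. -/
theorem PolyN.count {D : α → Prop} {ctx : List (α → Str)} {n : α → ℕ} {φ : α × ℕ → Bool}
    (hn : PolyN orc D ctx n)
    (hφ : PolyB (fun p : α × ℕ => orc p.1) (fun p => D p.1 ∧ p.2 < n p.1)
      (PC.lift ctx ++ [fun p => una p.2]) φ) :
    PolyN orc D ctx (fun a => ((List.range (n a)).filter (fun i => φ (a, i))).length) := by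
  obtain ⟨pn, hpn⟩ := PolyC.length_le hn
  have := PolyC.natRec (D := D) (ctx := ctx) (orc := orc) (n := n)
    (fun a k => una ((List.range k).filter (fun i => φ (a, i))).length) hn
    (PolyC.nil.congr (fun a _ => by simp)) ?_ ⟨pn, fun a ha k hk => ?_⟩
  · exact this
  · have h1 : PolyN (fun p : α × ℕ => orc p.1) (fun p : α × ℕ => D p.1 ∧ p.2 < n p.1)
        (PC.lift ctx ++ [fun p => una p.2,
          fun p => una ((List.range p.2).filter (fun i => φ (p.1, i))).length])
        (fun p => ((List.range p.2).filter (fun i => φ (p.1, i))).length) := PolyC.var (by simp)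
    have h2 : PolyB (fun p : α × ℕ => orc p.1) (fun p : α × ℕ => D p.1 ∧ p.2 < n p.1)
        (PC.lift ctx ++ [fun p => una p.2,
          fun p => una ((List.range p.2).filter (fun i => φ (p.1, i))).length]) φ := by
      refine PolyC.subset hφ ?_
      intro f hf
      simp only [List.mem_append, List.mem_cons, List.not_mem_nil, or_false] at hf ⊢
      tauto
    refine PolyC.congr (PolyN.ite h2 h1.succ h1) ?_
    intro p _
    rw [List.range_succ, List.filter_append]
    cases hφp : φ p
    · have : φ (p.1, p.2) = false := hφp
      simp [List.filter_cons, this]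
    · have : φ (p.1, p.2) = true := hφp
      simp [List.filter_cons, this]
  · have h1 := hpn a ha
    simp only [un_length] at h1 ⊢
    have h2 := List.length_filter_le (fun i => φ (a, i)) (List.range k)
    rw [List.length_range] at h2
    omega

/-! ### Strings -/

theorem PolyB.beq {D : α → Prop} {ctx : List (α → Str)} {φ ψ : α → Bool}
    (hφ : PolyB orc D ctx φ) (hψ : PolyB orc D ctx ψ) : PolyB orc D ctx (fun a => φ a == ψ a) :=
  (PolyB.ite hφ (PolyC.mono hψ fun _ h => h.1) (PolyC.mono hψ.not fun _ h => h.1)).congr
    (fun a _ => by cases φ a <;> cases ψ a <;> rfl)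

/-- `take`. -/
theorem PolyC.take {D : α → Prop} {ctx : List (α → Str)} {t : α → Str} {k : α → ℕ}
    (ht : PolyC orc D ctx t) (hk : PolyN orc D ctx k) : PolyC orc D ctx (fun a => (t a).take (k a)) := by
  have h1 : PolyN orc D ctx (fun a => Min.min (k a) (t a).length) := hk.min (PolyN.length ht)
  have h2 : PolyB (fun p : α × ℕ => orc p.1)
      (fun p : α × ℕ => D p.1 ∧ p.2 < Min.min (k p.1) (t p.1).length)
      (PC.lift ctx ++ [fun p => una p.2]) (fun p => (t p.1).getD p.2 false) :=
    PolyB.getD ((ht.lift (D' := fun p : α × ℕ => D p.1 ∧ p.2 < Min.min (k p.1) (t p.1).length)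
      (fun p hp => hp.1)).weakenRight _) (PolyC.var (by simp))
  refine (PolyC.map_range h1 h2).congr ?_
  intro a _
  apply List.ext_getElem
  · simp
  · intro i h3 h4
    simp only [List.length_map, List.length_range, lt_min_iff] at h3
    simp [List.getD_eq_getElem?_getD, List.getElem?_eq_getElem h3.2]

theorem eq_iff_getD {x y : Str} : x = y ↔ x.length = y.length ∧ ∀ i < x.length, (x.getD i false == y.getD i false) = true := by
  constructor
  · rintro rfl
    exact ⟨rfl, fun i _ => by simp⟩
  · rintro ⟨h1, h2⟩
    apply List.ext_getElem h1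
    intro i h3 h4
    have := h2 i h3
    rw [beq_iff_eq, List.getD_eq_getElem _ _ h3, List.getD_eq_getElem _ _ h4] at this
    exact this

/-- Equality of strings. -/
theorem PolyB.strEq {D : α → Prop} {ctx : List (α → Str)} {t u : α → Str}
    (ht : PolyC orc D ctx t) (hu : PolyC orc D ctx u) : PolyB orc D ctx (fun a => decide (t a = u a)) := by
  have h1 := PolyB.natEq (PolyN.length ht) (PolyN.length hu)
  have h2 : PolyB (fun p : α × ℕ => orc p.1) (fun p : α × ℕ => D p.1 ∧ p.2 < (t p.1).length)
      (PC.lift ctx ++ [fun p => una p.2]) (fun p => (t p.1).getD p.2 false == (u p.1).getD p.2 false) :=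
    PolyB.beq
      (PolyB.getD ((ht.lift (D' := fun p : α × ℕ => D p.1 ∧ p.2 < (t p.1).length)
        (fun p hp => hp.1)).weakenRight _) (PolyC.var (by simp)))
      (PolyB.getD ((hu.lift (D' := fun p : α × ℕ => D p.1 ∧ p.2 < (t p.1).length)
        (fun p hp => hp.1)).weakenRight _) (PolyC.var (by simp)))
  have h3 := PolyB.forall_lt (PolyN.length ht) h2
  refine (h1.and h3).congr ?_
  intro a _
  rw [Bool.eq_iff_iff]
  simp only [Bool.and_eq_true, decide_eq_true_eq]
  exact eq_iff_getD.symm

/-- Doubling. -/
theorem PolyC.pr {D : α → Prop} {ctx : List (α → Str)} {t u : α → Str}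
    (ht : PolyC orc D ctx t) (hu : PolyC orc D ctx u) : PolyC orc D ctx (fun a => Pa76659G.pr (t a) (u a)) := by
  obtain ⟨pt, hpt⟩ := ht.length_le
  have h1 : PolyC orc D ctx (fun a => (t a).flatMap (fun c => [true, c])) := by
    refine PolyC.recOn (x := t) (fun a l => l.flatMap (fun c => [true, c])) ht PolyC.nil (fun b => ?_)
      ⟨2 * pt, fun a ha l hl => ?_⟩
    · have : PolyC (fun p : α × Str => orc p.1) (fun p : α × Str => D p.1 ∧ (b :: p.2) <:+ t p.1)
        (PC.lift ctx ++ [fun p => p.2, fun p => p.2.flatMap (fun c => [true, c])])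
        (fun p => true :: b :: p.2.flatMap (fun c => [true, c])) :=
        PolyC.cons true (PolyC.cons b (PolyC.var (by simp)))
      exact this
    · have h1 := hl.length_le
      have h2 := hpt a ha
      have h3 : ∀ l : Str, (l.flatMap (fun c => [true, c])).length = 2 * l.length := by
        intro l
        induction l with
        | nil => rfl
        | cons b l ih =>
          rw [List.flatMap_cons, List.length_append, ih]
          simp only [List.length_cons, List.length_nil]
          omega
      rw [h3]
      simp only [Polynomial.eval_mul, Polynomial.eval_ofNat]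
      omega
  exact h1.append (hu.cons false)

/-- One parsing step. -/
def rd (w : Str) : Str := if w.headD false = true then w.tail.tail else w

/-- The number of blocks. -/
def nb : Str → ℕ
  | true :: _ :: l => nb l + 1
  | _ => 0

theorem nb_le : ∀ w : Str, 2 * nb w ≤ w.length
  | [] => by simp [nb]
  | [true] => by simp [nb]
  | false :: l => by simp [nb]
  | true :: c :: l => by
    have := nb_le l
    simp only [nb, List.length_cons]
    omega

theorem snd_eq : ∀ (w : Str) (k : ℕ), w.length ≤ k → snd w = (rd^[k] w).tail
  | [], k, _ => by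
    have : rd^[k] [] = [] := Function.iterate_fixed rfl k
    rw [this]; rfl
  | [true], k, hk => by
    obtain ⟨j, rfl⟩ := Nat.exists_eq_add_of_le' (show 1 ≤ k from by simpa using hk)
    rw [Function.iterate_succ_apply]
    have h0 : rd [true] = [] := rfl
    have : rd^[j] [] = [] := Function.iterate_fixed rfl j
    rw [h0, this]; rfl
  | false :: l, k, _ => by
    have : rd^[k] (false :: l) = false :: l := Function.iterate_fixed rfl k
    rw [this]; rfl
  | true :: c :: l, k, hk => by
    obtain ⟨j, rfl⟩ := Nat.exists_eq_add_of_le' (show 1 ≤ k from by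
      simp only [List.length_cons] at hk; omega)
    rw [Function.iterate_succ_apply]
    have h0 : rd (true :: c :: l) = l := rfl
    rw [h0, snd_cons]
    exact snd_eq l j (by simp only [List.length_cons] at hk; omega)

theorem nb_eq : ∀ (w : Str) (k : ℕ), w.length ≤ k →
    nb w = ((List.range k).filter (fun i => decide (2 ≤ (rd^[i] w).length) && (rd^[i] w).headD false)).length
  | [], k, _ => by
    have : ∀ i, rd^[i] ([] : Str) = [] := fun i => Function.iterate_fixed rfl i
    simp [nb, this]
  | [true], k, hk => by
    have h1 : ∀ i, (rd^[i] [true]).length ≤ 1 := by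
      intro i
      cases i with
      | zero => simp
      | succ i =>
        rw [Function.iterate_succ_apply]
        have h0 : rd [true] = [] := rfl
        have : rd^[i] [] = [] := Function.iterate_fixed rfl i
        rw [h0, this]; simp
    have h2 : ∀ i, decide (2 ≤ (rd^[i] [true]).length) = false := by
      intro i
      have := h1 i
      rw [decide_eq_false_iff_not]; omega
    simp [nb, h2]
  | false :: l, k, _ => by
    have : ∀ i, rd^[i] (false :: l) = false :: l := fun i => Function.iterate_fixed rfl i
    simp [nb, this]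
  | true :: c :: l, k, hk => by
    obtain ⟨j, rfl⟩ := Nat.exists_eq_add_of_le' (show 1 ≤ k from by
      simp only [List.length_cons] at hk; omega)
    have h0 : rd (true :: c :: l) = l := rfl
    have ih := nb_eq l j (by simp only [List.length_cons] at hk; omega)
    rw [nb, ih, List.range_succ_eq_map, List.filter_cons]
    simp only [Function.iterate_zero, id_eq, List.length_cons, List.headD_cons, Bool.and_true]
    rw [if_pos (by rw [decide_eq_true_eq]; omega), List.length_cons, List.filter_map, List.length_map]
    congr 2

theorem fst_eq : ∀ w : Str, fst w = (List.range (nb w)).map (fun i => w.getD (2 * i + 1) false)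
  | [] => rfl
  | [true] => rfl
  | false :: l => rfl
  | true :: c :: l => by
    rw [nb, List.range_succ_eq_map, fst_cons, List.map_cons, List.map_map, fst_eq l]
    rfl

theorem PolyC.iter_rd {D : α → Prop} {ctx : List (α → Str)} {t : α → Str} {n : α → ℕ}
    (ht : PolyC orc D ctx t) (hn : PolyN orc D ctx n) : PolyC orc D ctx (fun a => rd^[n a] (t a)) := by
  obtain ⟨pt, hpt⟩ := ht.length_le
  refine PolyC.iter (g := fun _ => rd) ?_ ht hn ⟨pt, fun a ha k _ => ?_⟩
  · have h1 : PolyC (fun p : α × Str => orc p.1) (fun p : α × Str => D p.1)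
        (PC.lift ctx ++ [fun p => p.2]) (fun p => p.2) := PolyC.var (by simp)
    refine (PolyC.ite (PolyB.headD h1) ((h1.tail.tail).mono fun _ h => h.1)
      (h1.mono fun _ h => h.1)).congr ?_
    intro p _
    rfl
  · have h : ∀ (k : ℕ) (w : Str), (rd^[k] w).length ≤ w.length := by
      intro k
      induction k with
      | zero => intro w; simp
      | succ k ih =>
        intro w
        rw [Function.iterate_succ_apply]
        refine (ih _).trans ?_
        unfold rd
        split
        · simp only [List.length_tail]; omega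
        · exact le_rfl
    exact (h k _).trans (hpt a ha)

/-- Second component. -/
theorem PolyC.snd {D : α → Prop} {ctx : List (α → Str)} {t : α → Str}
    (ht : PolyC orc D ctx t) : PolyC orc D ctx (fun a => Pa76659G.snd (t a)) :=
  ((PolyC.iter_rd ht (PolyN.length ht)).tail).congr
    (fun a _ => (snd_eq (t a) _ le_rfl).symm)

/-- First component. -/
theorem PolyC.fst {D : α → Prop} {ctx : List (α → Str)} {t : α → Str}
    (ht : PolyC orc D ctx t) : PolyC orc D ctx (fun a => Pa76659G.fst (t a)) := by
  have hnb : PolyN orc D ctx (fun a => nb (t a)) := by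
    have h0 : PolyC (fun p : α × ℕ => orc p.1) (fun p : α × ℕ => D p.1 ∧ p.2 < (t p.1).length)
        (PC.lift ctx ++ [fun p => una p.2]) (fun p => rd^[p.2] (t p.1)) :=
      PolyC.iter_rd ((ht.lift (D' := fun p : α × ℕ => D p.1 ∧ p.2 < (t p.1).length)
        (fun p hp => hp.1)).weakenRight _) (PolyC.var (by simp))
    have h1 : PolyB (fun p : α × ℕ => orc p.1) (fun p : α × ℕ => D p.1 ∧ p.2 < (t p.1).length)
        (PC.lift ctx ++ [fun p => una p.2])
        (fun p => decide (2 ≤ (rd^[p.2] (t p.1)).length) && (rd^[p.2] (t p.1)).headD false) :=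
      (PolyB.le (PolyN.const 2) (PolyN.length h0)).and (PolyB.headD h0)
    exact (PolyN.count (PolyN.length ht) h1).congr (fun a _ => (nb_eq (t a) _ le_rfl).symm)
  have h2 : PolyB (fun p : α × ℕ => orc p.1) (fun p : α × ℕ => D p.1 ∧ p.2 < nb (t p.1))
      (PC.lift ctx ++ [fun p => una p.2]) (fun p => (t p.1).getD (2 * p.2 + 1) false) := by
    have h3 : PolyN (fun p : α × ℕ => orc p.1) (fun p : α × ℕ => D p.1 ∧ p.2 < nb (t p.1))
        (PC.lift ctx ++ [fun p => una p.2]) (fun p => p.2) := PolyC.var (by simp)
    exact PolyB.getD ((ht.lift (D' := fun p : α × ℕ => D p.1 ∧ p.2 < nb (t p.1))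
      (fun p hp => hp.1)).weakenRight _) ((PolyN.const 2).mul h3).succ
  exact (PolyC.map_range hnb h2).congr (fun a _ => (fst_eq (t a)).symm)

/-! ### Lists of strings -/

/-- The code of a list of strings. -/
def lenc : List Str → Str
  | [] => []
  | x :: l => pr x (lenc l)

/-- The `k`-th entry of a coded list. -/
def nth (w : Str) (k : ℕ) : Str := fst (snd^[k] w)

@[simp] theorem lenc_nil : lenc [] = [] := rfl

@[simp] theorem lenc_cons (x : Str) (l : List Str) : lenc (x :: l) = pr x (lenc l) := rfl

theorem snd_iter_lenc : ∀ (k : ℕ) (l : List Str), snd^[k] (lenc l) = lenc (l.drop k)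
  | 0, l => by simp
  | k + 1, [] => by
    have : snd^[k + 1] ([] : Str) = [] := Function.iterate_fixed rfl _
    simpa using this
  | k + 1, x :: l => by
    rw [Function.iterate_succ_apply, lenc_cons, snd_pr, snd_iter_lenc k l]
    simp

@[simp] theorem nth_lenc (l : List Str) (k : ℕ) : nth (lenc l) k = l.getD k [] := by
  rw [nth, snd_iter_lenc]
  rcases h : l.drop k with _ | ⟨x, l'⟩
  · rw [lenc_nil, fst_nil]
    rw [List.drop_eq_nil_iff] at h
    rw [List.getD_eq_default _ _ h]
  · rw [lenc_cons, fst_pr]
    rw [List.getD_eq_getElem?_getD, ← List.head?_drop, h]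
    rfl

theorem lenc_eq_nil {l : List Str} : lenc l = [] ↔ l = [] := by
  cases l with
  | nil => simp
  | cons x l => simp [pr_ne_nil]

theorem length_le_lenc (l : List Str) : l.length ≤ (lenc l).length := by
  induction l with
  | nil => simp
  | cons x l ih => simp only [lenc_cons, pr_length, List.length_cons]; omega

theorem lenc_length (l : List Str) : (lenc l).length = 2 * total l + l.length := by
  induction l with
  | nil => simp
  | cons x l ih => simp only [lenc_cons, pr_length, List.length_cons, total_cons, ih]; omega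

/-- The length of a coded list. -/
def llen (w : Str) : ℕ := ((List.range w.length).filter (fun i => !(snd^[i] w).isEmpty)).length

theorem llen_lenc (l : List Str) : llen (lenc l) = l.length := by
  unfold llen
  have h1 : ∀ i, (!(snd^[i] (lenc l)).isEmpty) = decide (i < l.length) := by
    intro i
    rw [snd_iter_lenc, Bool.eq_iff_iff, decide_eq_true_eq, Bool.not_eq_true', List.isEmpty_eq_false_iff,
      Ne, lenc_eq_nil, List.drop_eq_nil_iff, not_le]
  simp only [h1]
  have h2 := length_le_lenc l
  obtain ⟨d, hd⟩ := Nat.exists_eq_add_of_le h2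
  rw [hd]
  generalize l.length = m
  clear hd h1 h2
  induction d with
  | zero =>
    rw [Nat.add_zero, List.filter_eq_self.2]
    · simp
    · intro i hi
      simpa using hi
  | succ d ih =>
    rw [← Nat.add_assoc, List.range_succ, List.filter_append, List.length_append, ih]
    simp

theorem PolyC.iter_snd {D : α → Prop} {ctx : List (α → Str)} {t : α → Str} {n : α → ℕ}
    (ht : PolyC orc D ctx t) (hn : PolyN orc D ctx n) : PolyC orc D ctx (fun a => Pa76659G.snd^[n a] (t a)) := by
  obtain ⟨pt, hpt⟩ := ht.length_le
  refine PolyC.iter (g := fun _ => Pa76659G.snd) ?_ ht hn ⟨pt, fun a ha k _ => ?_⟩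
  · exact PolyC.snd (PolyC.var (by simp))
  · have h : ∀ (k : ℕ) (w : Str), (Pa76659G.snd^[k] w).length ≤ w.length := by
      intro k
      induction k with
      | zero => intro w; simp
      | succ k ih =>
        intro w
        rw [Function.iterate_succ_apply]
        exact (ih _).trans (snd_length_le w)
    exact (h k _).trans (hpt a ha)

theorem PolyC.nth {D : α → Prop} {ctx : List (α → Str)} {t : α → Str} {n : α → ℕ}
    (ht : PolyC orc D ctx t) (hn : PolyN orc D ctx n) : PolyC orc D ctx (fun a => PC.nth (t a) (n a)) :=
  PolyC.fst (PolyC.iter_snd ht hn)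

theorem PolyN.llen {D : α → Prop} {ctx : List (α → Str)} {t : α → Str}
    (ht : PolyC orc D ctx t) : PolyN orc D ctx (fun a => PC.llen (t a)) := by
  have h0 : PolyC (fun p : α × ℕ => orc p.1) (fun p : α × ℕ => D p.1 ∧ p.2 < (t p.1).length)
      (PC.lift ctx ++ [fun p => una p.2]) (fun p => Pa76659G.snd^[p.2] (t p.1)) :=
    PolyC.iter_snd ((ht.lift (D' := fun p : α × ℕ => D p.1 ∧ p.2 < (t p.1).length)
      (fun p hp => hp.1)).weakenRight _) (PolyC.var (by simp))
  exact PolyN.count (PolyN.length ht) (PolyB.isNil h0).not

theorem snd_iter_length_le (k : ℕ) (w : Str) : (snd^[k] w).length ≤ w.length := by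
  induction k generalizing w with
  | zero => simp
  | succ k ih =>
    rw [Function.iterate_succ_apply]
    exact (ih _).trans (snd_length_le w)

theorem nth_length_le (w : Str) (k : ℕ) : (nth w k).length ≤ w.length :=
  (fst_length_le _).trans (snd_iter_length_le k w)

end Pool.Agent.Lib.Pa76659G.PC
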