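import Pool.Agent.Lib.Pa76659G.PhpProd
import Pool.Agent.Lib.Pa76659G.Step

set_option autoImplicit false

/-!
The double counting for the pigeonhole tournament.
-/

namespace Pool.Agent.Lib.Pa76659G.Php

open Finset Pool.Agent.Lib.Pa76659 Pool.Agent.Lib.Pa76659G

variable {ι B : Type} [Fintype ι] [DecidableEq ι] [Fintype B] [DecidableEq B] {z : B}

/-- exclusive or of the bits at the two ends of an edge -/
def xr (b : ι → Bool) (e : ι × ι) : Bool := xor (b e.1) (b e.2)

/-- the edges at a vertex -/
def crs (i : ι) (e : ι × ι) : Bool := xor (decide (e.1 = i)) (decide (e.2 = i))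

/-- the local changes at a vertex -/
def kap (i : ι) (e : ι × ι) : Option Bool :=
  if crs i e = true then some (decide (e.2 = i)) else none

theorem mix_xr_flip {A : Type} (b : ι → Bool) (Y Y' : ι × ι → A) (i : ι) :
    mix (xr (flip1 b i)) Y Y' = mix (crs i) (mix (xr b) Y Y') (mix (xr b) Y' Y) := by
  funext e
  have h1 : ∀ j, flip1 b i j = xor (b j) (decide (j = i)) := by
    intro j
    unfold flip1
    by_cases h : j = i
    · subst h
      rw [Function.update_self]
      cases b j <;> simp
    · rw [Function.update_of_ne h]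
      simp [h]
  have h2 : xr (flip1 b i) e = xor (xr b e) (crs i e) := by
    unfold xr crs
    rw [h1, h1]
    cases b e.1 <;> cases b e.2 <;> cases decide (e.1 = i) <;> cases decide (e.2 = i) <;> rfl
  unfold mix
  rw [h2]
  cases xr b e <;> cases crs i e <;> simp

theorem comp_mix {A A' : Type} {I : Type} (f : A → A') (b : I → Bool) (Y Y' : I → A) :
    (fun e => f (mix b Y Y' e)) = mix b (fun e => f (Y e)) (fun e => f (Y' e)) := by
  funext e
  unfold mix
  split_ifs <;> rfl

theorem php_count (w t t2 m : ℕ) (hm : Fintype.card ι ≤ 2 ^ m)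
    (hM : 2 * KK 1 w t2 m < Fintype.card ι) (hN : 0 < Fintype.card B - 2)
    (ht : 2 * t ≤ Fintype.card B - 2) [Nonempty (Om B z)]
    (g : Fin (2 ^ w) → (ι × ι → B → B) → Bool)
    (ha : ∀ R : ι × ι → Om B z, ∃ v, g v (fun e => (R e).fd) = false)
    (hb : ∀ (i : ι) (S R : ι × ι → Om B z) v,
      g v (mix (crs i) (fun e => (S e).fd) (mdf (kap i) R)) = true)
    (hc : ∀ v x, g v x = true → ∃ C : ι × ι → Finset B, ∑ e, (C e).card ≤ t ∧
      ∀ x', (∀ e, ∀ y ∈ C e, x' e y = x e y) → g v x' = true)
    (hd : ∀ v (Y Y' : ι × ι → B → B),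
      IsC Set.univ w t2 1 (fun b : ι → Bool => g v (mix (xr b) Y Y'))) : False := by
  classical
  choose c0 hc0 using ha
  set W := Fintype.card (ι × ι → Om B z) with hW
  have hWpos : 0 < W := Fintype.card_pos
  let A : ι → ℕ := fun i => ∑ S : ι × ι → Om B z, ∑ R : ι × ι → Om B z,
    if g (c0 S) (fun e => (mix (crs i) S R e).fd) = true then 1 else 0
  -- the lower bound
  have hlow : ∀ i, W * W ≤ 2 * A i := by
    intro i
    have h1 : ∀ S : ι × ι → Om B z, W ≤ 2 * ∑ R : ι × ι → Om B z,
        if g (c0 S) (fun e => (mix (crs i) S R e).fd) = true then 1 else 0 := by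
      intro S
      have h2 := cert_survive (z := z) (kap i)
        (fun x => g (c0 S) (mix (crs i) (fun e => (S e).fd) x)) t ?_ ?_
      · have h3 : (univ.filter fun R : ι × ι → Om B z =>
            g (c0 S) (mix (crs i) (fun e => (S e).fd) (fun e => (R e).fd)) = false).card
            + (univ.filter fun R : ι × ι → Om B z =>
            g (c0 S) (mix (crs i) (fun e => (S e).fd) (fun e => (R e).fd)) = true).card = W := by
          rw [hW, ← Finset.card_univ, ← Finset.card_filter_add_card_filter_not
            (s := (univ : Finset (ι × ι → Om B z)))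
            (fun R => g (c0 S) (mix (crs i) (fun e => (S e).fd) (fun e => (R e).fd)) = false)]
          congr 2
          ext R
          simp
        have h4 : ∑ R : ι × ι → Om B z,
            (if g (c0 S) (fun e => (mix (crs i) S R e).fd) = true then 1 else 0)
            = (univ.filter fun R : ι × ι → Om B z =>
            g (c0 S) (mix (crs i) (fun e => (S e).fd) (fun e => (R e).fd)) = true).card := by
          rw [Finset.card_filter]
          refine Finset.sum_congr rfl fun R _ => ?_
          rw [comp_mix Om.fd]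
        rw [h4]
        set c := (univ.filter fun R : ι × ι → Om B z =>
            g (c0 S) (mix (crs i) (fun e => (S e).fd) (fun e => (R e).fd)) = false).card
        have h5 : (Fintype.card B - 2) * (2 * c) ≤ (Fintype.card B - 2) * W := by
          calc (Fintype.card B - 2) * (2 * c) = 2 * ((Fintype.card B - 2) * c) := by ring
            _ ≤ 2 * (t * W) := Nat.mul_le_mul_left _ h2
            _ = (2 * t) * W := by ring
            _ ≤ (Fintype.card B - 2) * W := Nat.mul_le_mul_right _ ht
        have h6 := Nat.le_of_mul_le_mul_left h5 hN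
        omega
      · intro x hx
        obtain ⟨C, hC1, hC2⟩ := hc _ _ hx
        refine ⟨C, hC1, fun x' hx' => hC2 _ fun e y hy => ?_⟩
        unfold mix
        split_ifs
        · exact hx' e y hy
        · rfl
      · intro R
        exact hb i S R _
    calc W * W = ∑ _S : ι × ι → Om B z, W := by
          rw [Finset.sum_const, Finset.card_univ, smul_eq_mul]
      _ ≤ ∑ S : ι × ι → Om B z, 2 * ∑ R : ι × ι → Om B z,
          (if g (c0 S) (fun e => (mix (crs i) S R e).fd) = true then 1 else 0) :=
          Finset.sum_le_sum fun S _ => h1 S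
      _ = 2 * A i := by rw [← Finset.mul_sum]
  -- the upper bound
  obtain ⟨Γ, hΓ, b, Rs, n0, hn0, hRs, hcube⟩ := cube ι 1 w t2 m hm
  have hup : ∑ i, A i ≤ KK 1 w t2 m * (W * W) := by
    have h1 : ∀ (Y Y' : ι × ι → Om B z), ∑ ρ, ∑ i ∈ Rs ρ,
        (if g (c0 (mix (xr (b ρ)) Y Y')) (fun e => (mix (xr (flip1 (b ρ) i)) Y Y' e).fd) = true
          then 1 else 0) ≤ KK 1 w t2 m * n0 := by
      intro Y Y'
      have h2 := hcube (fun v c => g v (fun e => (mix (xr c) Y Y' e).fd)) (fun v => by
        have h3 := hd v (fun e => (Y e).fd) (fun e => (Y' e).fd)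
        refine h3.congr fun c => ?_
        rw [comp_mix Om.fd]) (fun c => c0 (mix (xr c) Y Y'))
      refine le_trans (le_of_eq ?_) h2
      refine Finset.sum_congr rfl fun ρ _ => ?_
      rw [Finset.card_filter]
      refine Finset.sum_congr rfl fun i _ => ?_
      have h4 := hc0 (mix (xr (b ρ)) Y Y')
      simp only [h4, true_and]
    have h2 : n0 * ∑ i, A i = ∑ ρ, ∑ i ∈ Rs ρ, A i := by
      have h3 : ∀ ρ, ∑ i ∈ Rs ρ, A i = ∑ i, if i ∈ Rs ρ then A i else 0 := by
        intro ρ
        rw [← Finset.sum_filter]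
        congr 1
        ext i
        simp
      simp only [h3]
      rw [Finset.mul_sum]
      conv_rhs => rw [Finset.sum_comm]
      refine Finset.sum_congr rfl fun i _ => ?_
      rw [← Finset.sum_filter, Finset.sum_const, hRs i, smul_eq_mul]
    have h3 : ∀ ρ i, A i = ∑ Y : ι × ι → Om B z, ∑ Y' : ι × ι → Om B z,
        (if g (c0 (mix (xr (b ρ)) Y Y')) (fun e => (mix (xr (flip1 (b ρ) i)) Y Y' e).fd) = true
          then 1 else 0) := by
      intro ρ i
      rw [← Fintype.sum_prod_type' (f := fun (Y Y' : ι × ι → Om B z) =>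
        (if g (c0 (mix (xr (b ρ)) Y Y')) (fun e => (mix (xr (flip1 (b ρ) i)) Y Y' e).fd) = true
          then 1 else 0))]
      show ∑ S : ι × ι → Om B z, ∑ R : ι × ι → Om B z,
        (if g (c0 S) (fun e => (mix (crs i) S R e).fd) = true then 1 else 0) = _
      rw [← Fintype.sum_prod_type' (f := fun (S R : ι × ι → Om B z) =>
        if g (c0 S) (fun e => (mix (crs i) S R e).fd) = true then 1 else 0),
        ← Equiv.sum_comp (swp (xr (b ρ)))]
      refine Finset.sum_congr rfl fun p _ => ?_
      rw [mix_xr_flip]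
      rfl
    have h4 : n0 * ∑ i, A i ≤ n0 * (KK 1 w t2 m * (W * W)) := by
      rw [h2]
      calc ∑ ρ, ∑ i ∈ Rs ρ, A i
          = ∑ ρ, ∑ i ∈ Rs ρ, ∑ Y : ι × ι → Om B z, ∑ Y' : ι × ι → Om B z,
            (if g (c0 (mix (xr (b ρ)) Y Y'))
              (fun e => (mix (xr (flip1 (b ρ) i)) Y Y' e).fd) = true then 1 else 0) :=
            Finset.sum_congr rfl fun ρ _ => Finset.sum_congr rfl fun i _ => h3 ρ i
        _ = ∑ Y : ι × ι → Om B z, ∑ Y' : ι × ι → Om B z, ∑ ρ, ∑ i ∈ Rs ρ,
            (if g (c0 (mix (xr (b ρ)) Y Y'))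
              (fun e => (mix (xr (flip1 (b ρ) i)) Y Y' e).fd) = true then 1 else 0) := by
            have e1 : ∀ ρ, ∑ i ∈ Rs ρ, ∑ Y : ι × ι → Om B z, ∑ Y' : ι × ι → Om B z,
                (if g (c0 (mix (xr (b ρ)) Y Y'))
                (fun e => (mix (xr (flip1 (b ρ) i)) Y Y' e).fd) = true then 1 else 0)
                = ∑ Y : ι × ι → Om B z, ∑ Y' : ι × ι → Om B z, ∑ i ∈ Rs ρ,
                (if g (c0 (mix (xr (b ρ)) Y Y'))
                (fun e => (mix (xr (flip1 (b ρ) i)) Y Y' e).fd) = true then 1 else 0) := by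
              intro ρ
              rw [Finset.sum_comm]
              exact Finset.sum_congr rfl fun Y _ => Finset.sum_comm
            rw [Finset.sum_congr rfl fun ρ _ => e1 ρ, Finset.sum_comm]
            exact Finset.sum_congr rfl fun Y _ => Finset.sum_comm
        _ ≤ ∑ _Y : ι × ι → Om B z, ∑ _Y' : ι × ι → Om B z, KK 1 w t2 m * n0 :=
            Finset.sum_le_sum fun Y _ => Finset.sum_le_sum fun Y' _ => h1 Y Y'
        _ = n0 * (KK 1 w t2 m * (W * W)) := by
            simp only [Finset.sum_const, Finset.card_univ, smul_eq_mul]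
            rw [← hW]
            ring
    exact Nat.le_of_mul_le_mul_left h4 hn0
  have h1 : Fintype.card ι * (W * W) ≤ 2 * ∑ i, A i := by
    rw [Finset.mul_sum, ← Finset.card_univ, ← smul_eq_mul, ← Finset.sum_const]
    exact Finset.sum_le_sum fun i _ => hlow i
  have h2 : Fintype.card ι * (W * W) ≤ (2 * KK 1 w t2 m) * (W * W) := by
    calc Fintype.card ι * (W * W) ≤ 2 * ∑ i, A i := h1
      _ ≤ 2 * (KK 1 w t2 m * (W * W)) := Nat.mul_le_mul_left _ hup
      _ = _ := by ring
  have h3 := Nat.le_of_mul_le_mul_right h2 (Nat.mul_pos hWpos hWpos)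
  omega

end Pool.Agent.Lib.Pa76659G.Php
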