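import Mathlib

set_option autoImplicit false

/-!
Random functions with one missing value and one collision, and their local changes.
-/

namespace Pool.Agent.Lib.Pa76659G.Php

open Finset

variable {B : Type} [Fintype B] [DecidableEq B]

/-- A permutation and three points; the permutation takes the value `z` at the first of them. -/
def Om (B : Type) (z : B) : Type :=
  {ω : Equiv.Perm B × B × B × B // (ω.2.1 ≠ ω.2.2.1 ∧ ω.2.1 ≠ ω.2.2.2 ∧ ω.2.2.1 ≠ ω.2.2.2) ∧
    ω.1 ω.2.1 = z}

instance (z : B) : Fintype (Om B z) := by unfold Om; infer_instance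

instance (z : B) : DecidableEq (Om B z) := by unfold Om; infer_instance

variable {z : B}

def Om.p (ω : Om B z) : Equiv.Perm B := ω.1.1
def Om.z0 (ω : Om B z) : B := ω.1.2.1
def Om.z1 (ω : Om B z) : B := ω.1.2.2.1
def Om.z2 (ω : Om B z) : B := ω.1.2.2.2

theorem Om.h01 (ω : Om B z) : ω.z0 ≠ ω.z1 := ω.2.1.1
theorem Om.h02 (ω : Om B z) : ω.z0 ≠ ω.z2 := ω.2.1.2.1
theorem Om.h12 (ω : Om B z) : ω.z1 ≠ ω.z2 := ω.2.1.2.2
theorem Om.hp (ω : Om B z) : ω.p ω.z0 = z := ω.2.2

theorem Om.ext' {ω ω' : Om B z} (h : ω.p = ω'.p) (h0 : ω.z0 = ω'.z0) (h1 : ω.z1 = ω'.z1)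
    (h2 : ω.z2 = ω'.z2) : ω = ω' := by
  apply Subtype.ext
  exact Prod.ext h (Prod.ext h0 (Prod.ext h1 h2))

/-- one missing value and one collision -/
def Om.fd (ω : Om B z) : B → B := Function.update ω.p ω.z1 (ω.p ω.z2)

/-- no collision -/
def Om.f0 (ω : Om B z) : B → B := ω.p

/-- the value `z` is missing -/
def Om.f1 (ω : Om B z) : B → B := Function.update ω.fd ω.z0 (ω.p ω.z1)

theorem Om.fd_z0 (ω : Om B z) : ω.fd ω.z0 = z := by
  unfold Om.fd
  rw [Function.update_of_ne ω.h01, ω.hp]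

theorem Om.fd_coll (ω : Om B z) : ω.fd ω.z1 = ω.fd ω.z2 := by
  unfold Om.fd
  rw [Function.update_self, Function.update_of_ne ω.h12.symm]

theorem Om.f0_inj (ω : Om B z) : Function.Injective ω.f0 := ω.p.injective

theorem Om.f1_ne (ω : Om B z) (x : B) : ω.f1 x ≠ z := by
  unfold Om.f1
  by_cases h : x = ω.z0
  · subst h
    rw [Function.update_self]
    exact fun h => ω.h01 (ω.p.injective (ω.hp.trans h.symm))
  · rw [Function.update_of_ne h]
    unfold Om.fd
    by_cases h1 : x = ω.z1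
    · subst h1
      rw [Function.update_self]
      exact fun h => ω.h02 (ω.p.injective (ω.hp.trans h.symm))
    · rw [Function.update_of_ne h1]
      exact fun h2 => h (ω.p.injective (h2.trans ω.hp.symm))

theorem Om.f0_eq (ω : Om B z) {x : B} (h : x ≠ ω.z1) : ω.f0 x = ω.fd x := by
  unfold Om.f0 Om.fd
  rw [Function.update_of_ne h]

theorem Om.f1_eq (ω : Om B z) {x : B} (h : x ≠ ω.z0) : ω.f1 x = ω.fd x := by
  unfold Om.f1
  rw [Function.update_of_ne h]

/-- counting of pairs -/
theorem card_pairs {A : Type} [Fintype A] (P : A → Prop) [DecidablePred P] (Q : A → B → Prop)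
    [∀ a, DecidablePred (Q a)] (n : ℕ) (h : ∀ a, (univ.filter fun b => Q a b).card = n) :
    n * (univ.filter fun a => P a).card = (univ.filter fun q : A × B => P q.1 ∧ Q q.1 q.2).card := by
  rw [Finset.card_filter, Finset.card_filter, Fintype.sum_prod_type, Finset.mul_sum]
  refine Finset.sum_congr rfl fun a _ => ?_
  by_cases hP : P a
  · simp only [hP, if_true, true_and, mul_one]
    rw [← Finset.card_filter, h a]
  · simp [hP]

theorem card_pairs' {A : Type} [Fintype A] (C : A → Finset B) :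
    ∑ a, (C a).card = (univ.filter fun q : A × B => q.2 ∈ C q.1).card := by
  rw [Finset.card_filter, Fintype.sum_prod_type]
  refine Finset.sum_congr rfl fun a _ => ?_
  rw [← Finset.card_filter]
  congr 1
  ext b
  simp

theorem card_ne (y : B) : (univ.filter fun b : B => b ≠ y).card = Fintype.card B - 1 := by
  rw [Finset.filter_ne', Finset.card_erase_of_mem (Finset.mem_univ _), Finset.card_univ]

theorem card_ne2 {y y' : B} (h : y ≠ y') :
    (univ.filter fun b : B => b ≠ y ∧ b ≠ y').card = Fintype.card B - 2 := by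
  have h1 : (univ.filter fun b : B => b ≠ y ∧ b ≠ y') = (univ.erase y).erase y' := by
    ext b
    simp [and_comm]
  rw [h1, Finset.card_erase_of_mem (by simp [h.symm]), Finset.card_erase_of_mem (Finset.mem_univ _),
    Finset.card_univ]
  rfl

/-- given the permutation the point `z1` is uniform -/
theorem exch0 (C : (B → B) → Finset B) :
    (Fintype.card B - 1) * (univ.filter fun ω : Om B z => ω.z1 ∈ C ω.f0).card ≤
      ∑ ω : Om B z, (C ω.f0).card := by
  rw [card_pairs (fun ω : Om B z => ω.z1 ∈ C ω.f0) (fun ω b => b ≠ ω.z0) _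
    (fun ω => card_ne ω.z0), card_pairs' (fun ω : Om B z => C ω.f0)]
  let m : Om B z × B → Om B z × B := fun q =>
    if h : q.2 ≠ q.1.z0 then
      (⟨(q.1.p, q.1.z0, q.2, Equiv.swap q.1.z1 q.2 q.1.z2), by
        refine ⟨⟨h.symm, ?_, ?_⟩, q.1.hp⟩
        · intro h1
          have h2 : Equiv.swap q.1.z1 q.2 q.1.z0 = q.1.z0 :=
            Equiv.swap_apply_of_ne_of_ne q.1.h01 h.symm
          have h3 : Equiv.swap q.1.z1 q.2 q.1.z0 = Equiv.swap q.1.z1 q.2 q.1.z2 := h2.trans h1
          exact q.1.h02 ((Equiv.swap q.1.z1 q.2).injective h3)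
        · intro h1
          have h2 : Equiv.swap q.1.z1 q.2 q.1.z1 = q.2 := Equiv.swap_apply_left _ _
          have h3 : Equiv.swap q.1.z1 q.2 q.1.z1 = Equiv.swap q.1.z1 q.2 q.1.z2 := h2.trans h1
          exact q.1.h12 ((Equiv.swap q.1.z1 q.2).injective h3)⟩, q.1.z1)
    else q
  refine Finset.card_le_card_of_injOn m ?_ ?_
  · rintro ⟨ω, b⟩ hq
    simp only [Finset.coe_filter, Finset.mem_univ, true_and, Set.mem_ofPred_eq] at hq ⊢
    obtain ⟨h1, h2⟩ := hq
    simp only [m, dif_pos h2]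
    exact h1
  · rintro ⟨ω, b⟩ hq ⟨ω', b'⟩ hq' h
    simp only [Finset.coe_filter, Finset.mem_univ, true_and, Set.mem_ofPred_eq] at hq hq'
    simp only [m, dif_pos hq.2, dif_pos hq'.2, Prod.mk.injEq] at h
    obtain ⟨h1, h2⟩ := h
    have h3 := congrArg Om.p h1
    have h4 := congrArg Om.z0 h1
    have h5 := congrArg Om.z1 h1
    have h6 := congrArg Om.z2 h1
    change ω.p = ω'.p at h3
    change ω.z0 = ω'.z0 at h4
    change b = b' at h5
    change Equiv.swap ω.z1 b ω.z2 = Equiv.swap ω'.z1 b' ω'.z2 at h6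
    rw [← h2, ← h5] at h6
    exact Prod.ext (Om.ext' h3 h4 h2 ((Equiv.swap ω.z1 b).injective h6)) h5

/-- given the function `f1` the point `z0` is uniform -/
theorem exch1 (C : (B → B) → Finset B) :
    (Fintype.card B - 2) * (univ.filter fun ω : Om B z => ω.z0 ∈ C ω.f1).card ≤
      ∑ ω : Om B z, (C ω.f1).card := by
  rw [card_pairs (fun ω : Om B z => ω.z0 ∈ C ω.f1) (fun ω b => b ≠ ω.z1 ∧ b ≠ ω.z2) _
    (fun ω => card_ne2 ω.h12), card_pairs' (fun ω : Om B z => C ω.f1)]
  let m : Om B z × B → Om B z × B := fun q =>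
    if h : q.2 ≠ q.1.z1 ∧ q.2 ≠ q.1.z2 then
      (⟨((Equiv.swap q.2 q.1.z1).trans ((Equiv.swap q.1.z0 q.1.z1).trans q.1.p),
          q.2, q.1.z1, q.1.z2), by
        refine ⟨⟨h.1, h.2, q.1.h12⟩, ?_⟩
        simp only [Equiv.trans_apply, Equiv.swap_apply_left, Equiv.swap_apply_right]
        exact q.1.hp⟩, q.1.z0)
    else q
  have hm : ∀ (ω : Om B z) (b : B), b ≠ ω.z1 ∧ b ≠ ω.z2 → (m (ω, b)).1.f1 = ω.f1 := by
    intro ω b h
    simp only [m, dif_pos h]
    have e1 : ∀ x, Om.f1 (⟨((Equiv.swap b ω.z1).trans ((Equiv.swap ω.z0 ω.z1).trans ω.p),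
          b, ω.z1, ω.z2), by
        refine ⟨⟨h.1, h.2, ω.h12⟩, ?_⟩
        simp only [Equiv.trans_apply, Equiv.swap_apply_left, Equiv.swap_apply_right]
        exact ω.hp⟩ : Om B z) x =
        Function.update (Function.update
          ((Equiv.swap b ω.z1).trans ((Equiv.swap ω.z0 ω.z1).trans ω.p)) ω.z1
          (((Equiv.swap b ω.z1).trans ((Equiv.swap ω.z0 ω.z1).trans ω.p)) ω.z2)) b
          (((Equiv.swap b ω.z1).trans ((Equiv.swap ω.z0 ω.z1).trans ω.p)) ω.z1) x := fun x => rfl
    funext x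
    rw [e1]
    unfold Om.f1 Om.fd
    have e2 : ((Equiv.swap b ω.z1).trans ((Equiv.swap ω.z0 ω.z1).trans ω.p)) ω.z2 = ω.p ω.z2 := by
      simp only [Equiv.trans_apply]
      rw [Equiv.swap_apply_of_ne_of_ne h.2.symm ω.h12.symm,
        Equiv.swap_apply_of_ne_of_ne ω.h02.symm ω.h12.symm]
    have e3 : ((Equiv.swap b ω.z1).trans ((Equiv.swap ω.z0 ω.z1).trans ω.p)) ω.z1
        = ω.p (Equiv.swap ω.z0 ω.z1 b) := by
      simp only [Equiv.trans_apply, Equiv.swap_apply_right]
    rw [e2, e3]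
    by_cases hx : x = ω.z1
    · subst hx
      rw [Function.update_of_ne h.1.symm, Function.update_self, Function.update_of_ne ω.h01.symm,
        Function.update_self]
    · by_cases hb : x = b
      · subst hb
        rw [Function.update_self]
        by_cases h0 : x = ω.z0
        · subst h0
          rw [Function.update_self, Equiv.swap_apply_left]
        · rw [Function.update_of_ne h0, Function.update_of_ne hx,
            Equiv.swap_apply_of_ne_of_ne h0 hx]
      · rw [Function.update_of_ne hb, Function.update_of_ne hx]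
        have e4 : ((Equiv.swap b ω.z1).trans ((Equiv.swap ω.z0 ω.z1).trans ω.p)) x
            = ω.p (Equiv.swap ω.z0 ω.z1 x) := by
          simp only [Equiv.trans_apply]
          rw [Equiv.swap_apply_of_ne_of_ne hb hx]
        rw [e4]
        by_cases h0 : x = ω.z0
        · subst h0
          rw [Function.update_self, Equiv.swap_apply_left]
        · rw [Function.update_of_ne h0, Function.update_of_ne hx,
            Equiv.swap_apply_of_ne_of_ne h0 hx]
  refine Finset.card_le_card_of_injOn m ?_ ?_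
  · rintro ⟨ω, b⟩ hq
    simp only [Finset.coe_filter, Finset.mem_univ, true_and, Set.mem_ofPred_eq] at hq ⊢
    obtain ⟨h1, h2⟩ := hq
    rw [hm ω b h2]
    have h3 : (m (ω, b)).2 = ω.z0 := by simp only [m, dif_pos h2]
    rw [h3]
    exact h1
  · rintro ⟨ω, b⟩ hq ⟨ω', b'⟩ hq' h
    simp only [Finset.coe_filter, Finset.mem_univ, true_and, Set.mem_ofPred_eq] at hq hq'
    simp only [m, dif_pos hq.2, dif_pos hq'.2, Prod.mk.injEq] at h
    obtain ⟨h1, h2⟩ := h
    have h3 := congrArg Om.p h1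
    have h4 := congrArg Om.z0 h1
    have h5 := congrArg Om.z1 h1
    have h6 := congrArg Om.z2 h1
    change (Equiv.swap b ω.z1).trans ((Equiv.swap ω.z0 ω.z1).trans ω.p) =
      (Equiv.swap b' ω'.z1).trans ((Equiv.swap ω'.z0 ω'.z1).trans ω'.p) at h3
    change b = b' at h4
    change ω.z1 = ω'.z1 at h5
    change ω.z2 = ω'.z2 at h6
    rw [← h2, ← h4, ← h5] at h3
    have h7 : ω.p = ω'.p := by
      ext x
      have h8 := Equiv.congr_fun h3 (Equiv.swap b ω.z1 (Equiv.swap ω.z0 ω.z1 x))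
      simp only [Equiv.trans_apply, Equiv.swap_apply_self] at h8
      exact h8
    exact Prod.ext (Om.ext' h7 h2 h5 h6) h4

end Pool.Agent.Lib.Pa76659G.Php
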