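import Pool.Agent.Lib.Pa76659G.PhpOm

set_option autoImplicit false

/-!
Products of random functions: local changes are not seen by small certificates.
-/

namespace Pool.Agent.Lib.Pa76659G.Php

open Finset

variable {I B : Type} [Fintype I] [DecidableEq I] [Fintype B] [DecidableEq B] {z : B}

/-- a local change (`none`: no change) -/
def ch (k : Option Bool) (ω : Om B z) : B → B :=
  match k with
  | none => ω.fd
  | some false => ω.f0
  | some true => ω.f1

/-- the changed point belongs to the set -/
def hit (k : Option Bool) (ω : Om B z) (C : Finset B) : Prop :=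
  match k with
  | none => False
  | some false => ω.z1 ∈ C
  | some true => ω.z0 ∈ C

instance (k : Option Bool) (ω : Om B z) (C : Finset B) : Decidable (hit k ω C) := by
  unfold hit
  rcases k with _ | _ | _ <;> infer_instance

theorem ch_eq {k : Option Bool} {ω : Om B z} {C : Finset B} (h : ¬ hit k ω C) {x : B}
    (hx : x ∈ C) : ch k ω x = ω.fd x := by
  rcases k with _ | _ | _
  · rfl
  · refine ω.f0_eq ?_
    rintro rfl
    exact h hx
  · refine ω.f1_eq ?_
    rintro rfl
    exact h hx

/-- local changes at all coordinates -/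
def mdf (κ : I → Option Bool) (R : I → Om B z) (e : I) : B → B := ch (κ e) (R e)

theorem sum_split' {Ω M : Type} [Fintype Ω] [AddCommMonoid M] (e : I) (F : (I → Ω) → M) :
    ∑ Y, F Y = ∑ Y' : {j // j ≠ e} → Ω, ∑ y : Ω, F ((Equiv.funSplitAt e Ω).symm (y, Y')) := by
  rw [Finset.sum_comm, ← Fintype.sum_prod_type' (f := fun (y : Ω) (Y' : {j // j ≠ e} → Ω) =>
    F ((Equiv.funSplitAt e Ω).symm (y, Y')))]
  exact (Equiv.sum_comp (Equiv.funSplitAt e Ω).symm F).symm

omit [Fintype I] in
theorem split_self' {Ω : Type} (e : I) (y : Ω) (Y' : {j // j ≠ e} → Ω) :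
    (Equiv.funSplitAt e Ω).symm (y, Y') e = y := by
  simp [Equiv.funSplitAt, Equiv.piSplitAt]

omit [Fintype I] in
theorem split_ne' {Ω : Type} (e : I) (y : Ω) (Y' : {j // j ≠ e} → Ω) {j : I} (h : j ≠ e) :
    (Equiv.funSplitAt e Ω).symm (y, Y') j = Y' ⟨j, h⟩ := by
  simp [Equiv.funSplitAt, Equiv.piSplitAt, h]

theorem exch (k : Option Bool) (C : (B → B) → Finset B) :
    (Fintype.card B - 2) * (univ.filter fun ω : Om B z => hit k ω (C (ch k ω))).card ≤
      ∑ ω : Om B z, (C (ch k ω)).card := by
  rcases k with _ | _ | _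
  · have h : (univ.filter fun ω : Om B z => hit none ω (C (ch none ω))) = ∅ := by
      rw [Finset.filter_eq_empty_iff]
      intro ω _ h
      exact h
    rw [h]
    simp
  · refine le_trans (Nat.mul_le_mul_right _ (show Fintype.card B - 2 ≤ Fintype.card B - 1 by omega))
      ?_
    exact exch0 C
  · exact exch1 C

theorem exch_coord (κ : I → Option Bool) (C : (I → B → B) → I → Finset B) (e : I) :
    (Fintype.card B - 2) *
      (univ.filter fun R : I → Om B z => hit (κ e) (R e) (C (mdf κ R) e)).card ≤
      ∑ R : I → Om B z, (C (mdf κ R) e).card := by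
  rw [Finset.card_filter, Finset.mul_sum, sum_split' e, sum_split' e]
  refine Finset.sum_le_sum fun Y' _ => ?_
  let base : I → B → B := fun j => if h : j ≠ e then ch (κ j) (Y' ⟨j, h⟩) else id
  have h1 : ∀ y : Om B z, mdf κ ((Equiv.funSplitAt e (Om B z)).symm (y, Y'))
      = Function.update base e (ch (κ e) y) := by
    intro y
    funext j
    unfold mdf
    by_cases h : j = e
    · subst h
      rw [Function.update_self, split_self']
    · rw [Function.update_of_ne h, split_ne' _ _ _ h]
      simp only [base, dif_pos h]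
  simp only [h1, split_self']
  rw [← Finset.mul_sum, ← Finset.card_filter]
  exact exch (κ e) fun g => C (Function.update base e g) e

/-- Small certificates survive the return of the local changes. -/
theorem cert_survive (κ : I → Option Bool) (F : (I → B → B) → Bool) (t : ℕ)
    (hF : ∀ x, F x = true → ∃ C : I → Finset B, ∑ e, (C e).card ≤ t ∧
      ∀ x', (∀ e, ∀ y ∈ C e, x' e y = x e y) → F x' = true)
    (h1 : ∀ R : I → Om B z, F (mdf κ R) = true) :
    (Fintype.card B - 2) *
      (univ.filter fun R : I → Om B z => F (fun e => (R e).fd) = false).card ≤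
      t * Fintype.card (I → Om B z) := by
  classical
  have hC : ∀ x, ∃ C : I → Finset B, F x = true → (∑ e, (C e).card ≤ t ∧
      ∀ x', (∀ e, ∀ y ∈ C e, x' e y = x e y) → F x' = true) := by
    intro x
    by_cases h : F x = true
    · obtain ⟨C, hC⟩ := hF x h
      exact ⟨C, fun _ => hC⟩
    · exact ⟨fun _ => ∅, fun h' => absurd h' h⟩
  choose C hC using hC
  have h2 : (univ.filter fun R : I → Om B z => F (fun e => (R e).fd) = false) ⊆
      univ.biUnion fun e => univ.filter fun R : I → Om B z => hit (κ e) (R e) (C (mdf κ R) e) := by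
    intro R hR
    simp only [Finset.mem_filter, Finset.mem_univ, true_and] at hR
    by_contra hcon
    simp only [Finset.mem_biUnion, Finset.mem_filter, Finset.mem_univ, true_and, not_exists]
      at hcon
    have h3 := (hC (mdf κ R) (h1 R)).2 (fun e => (R e).fd) fun e y hy =>
      (ch_eq (hcon e) hy).symm
    rw [hR] at h3
    exact absurd h3 (by simp)
  calc (Fintype.card B - 2) *
      (univ.filter fun R : I → Om B z => F (fun e => (R e).fd) = false).card
      ≤ (Fintype.card B - 2) * ∑ e,
        (univ.filter fun R : I → Om B z => hit (κ e) (R e) (C (mdf κ R) e)).card :=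
        Nat.mul_le_mul_left _ ((Finset.card_le_card h2).trans Finset.card_biUnion_le)
    _ = ∑ e, (Fintype.card B - 2) *
        (univ.filter fun R : I → Om B z => hit (κ e) (R e) (C (mdf κ R) e)).card := by
        rw [Finset.mul_sum]
    _ ≤ ∑ e, ∑ R : I → Om B z, (C (mdf κ R) e).card :=
        Finset.sum_le_sum fun e _ => exch_coord κ C e
    _ = ∑ R : I → Om B z, ∑ e, (C (mdf κ R) e).card := Finset.sum_comm
    _ ≤ ∑ _R : I → Om B z, t := Finset.sum_le_sum fun R _ => (hC (mdf κ R) (h1 R)).1
    _ = t * Fintype.card (I → Om B z) := by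
        rw [Finset.sum_const, Finset.card_univ, smul_eq_mul, mul_comm]

end Pool.Agent.Lib.Pa76659G.Php
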