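import Pool.Agent.Lib.Pa76659G.Defs

/-!
Pairs, association lists of arrays, and the value of the hard languages on patched oracles.
-/

set_option maxHeartbeats 4000000

namespace Pool.Agent.Lib.Pa76659G

open Pool.Agent.Lib.Pa76659

theorem un_pr : ∀ a b : Str, un (pr a b) = (a, b)
  | [], b => by simp [pr, un]
  | c :: a, b => by
      have ih := un_pr a b
      have h : pr (c :: a) b = true :: c :: pr a b := by simp [pr]
      rw [h, un, ih]

@[simp] theorem fst_pr (a b : Str) : fst (pr a b) = a := by rw [fst, un_pr]

@[simp] theorem snd_pr (a b : Str) : snd (pr a b) = b := by rw [snd, un_pr]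

theorem pr_length : ∀ a b : Str, (pr a b).length = 2 * a.length + 1 + b.length
  | [], b => by simp [pr]; ring
  | c :: a, b => by
      have ih := pr_length a b
      have h : pr (c :: a) b = true :: c :: pr a b := by simp [pr]
      rw [h, List.length_cons, List.length_cons, ih, List.length_cons]; ring

theorem un_length : ∀ x : Str, (un x).1.length + (un x).2.length ≤ x.length
  | [] => by simp [un]
  | [true] => by simp [un]
  | false :: r => by simp [un]
  | true :: c :: r => by
      have ih := un_length r
      rw [un]
      simp only [List.length_cons]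
      omega

theorem fst_length (x : Str) : (fst x).length ≤ x.length := by
  have := un_length x; unfold fst; omega

theorem snd_length (x : Str) : (snd x).length ≤ x.length := by
  have := un_length x; unfold snd; omega

theorem pr_inj {a b a' b' : Str} (h : pr a b = pr a' b') : a = a' ∧ b = b' := by
  have h1 := congrArg fst h
  have h2 := congrArg snd h
  simp only [fst_pr, snd_pr] at h1 h2
  exact ⟨h1, h2⟩

@[simp] theorem fst_child (w y : Str) : fst (child w y) = fst w := by rw [child, fst_pr]

@[simp] theorem snd_child (w y : Str) : snd (child w y) = pr y (snd w) := by rw [child, snd_pr]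

theorem child_length_le (w y : Str) : (child w y).length ≤ 3 * w.length + 2 * y.length + 2 := by
  have h1 := un_length w
  rw [child, pr_length, pr_length]
  unfold fst snd
  omega

theorem length_le_child (w y : Str) (b : Str) (hw : w = pr (fst w) b) : w.length ≤
    (child w y).length := by
  have h : b = snd w := by
    have := congrArg snd hw
    rw [snd_pr] at this
    exact this.symm
  have h2 : w.length = 2 * (fst w).length + 1 + b.length := by
    conv_lhs => rw [hw]
    rw [pr_length]
  rw [child, pr_length, pr_length, ← h]
  omega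

/-! ### association lists -/

theorem look_append (a b : List (Str × Str)) (u : Str) :
    look (a ++ b) u = (look a u).or (look b u) := by
  induction a with
  | nil => simp [look]
  | cons e a ih =>
      simp only [List.cons_append, look]
      split_ifs with h
      · simp
      · exact ih

theorem look_none {a : List (Str × Str)} {u : Str} : look a u = none ↔ ∀ e, (u, e) ∉ a := by
  induction a with
  | nil => simp [look]
  | cons e a ih =>
      simp only [look]
      split_ifs with h
      · simp only [reduceCtorEq, List.mem_cons, not_or, false_iff, not_forall, not_and, not_not]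
        refine ⟨e.2, fun h2 => absurd ?_ h2⟩
        rw [h]
      · rw [ih]
        constructor
        · intro h2 e'
          simp only [List.mem_cons, not_or]
          refine ⟨?_, h2 e'⟩
          rintro rfl
          exact h rfl
        · intro h2 e'
          have := h2 e'
          simp only [List.mem_cons, not_or] at this
          exact this.2

theorem look_mem {a : List (Str × Str)} {u e : Str} (h : look a u = some e) : (u, e) ∈ a := by
  induction a with
  | nil => simp [look] at h
  | cons e' a ih =>
      simp only [look] at h
      split_ifs at h with h1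
      · simp only [Option.some.injEq] at h
        rw [h1, ← h]; exact List.mem_cons_self
      · exact List.mem_cons_of_mem _ (ih h)

/-- `e` is the entry of the array at the leaf `u` below the node `w` -/
def Leaf {m n : ℕ} : ∀ j : ℕ, Str → Arr (Idx m) (Idx n) j → Str → Str → Prop
  | 0, w, x, u, e => u = w ∧ e = x.1
  | j + 1, w, Y, u, e => ∃ y : Idx m, Leaf j (child w y.1) (Y y) u e

theorem mem_tabL {m n : ℕ} : ∀ (j : ℕ) (w : Str) (S : Arr (Idx m) (Idx n) j) (u e : Str),
    (u, e) ∈ tabL j w S ↔ Leaf j w S u e
  | 0, w, x, u, e => by simp [tabL, Leaf]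
  | j + 1, w, Y, u, e => by
      simp only [tabL, Leaf, List.mem_flatMap, Finset.mem_toList, Finset.mem_univ, true_and]
      constructor
      · rintro ⟨y, hy⟩; exact ⟨y, (mem_tabL j _ _ _ _).1 hy⟩
      · rintro ⟨y, hy⟩; exact ⟨y, (mem_tabL j _ _ _ _).2 hy⟩

/-- parent of a node -/
def up (u : Str) : Str := pr (fst u) (snd (snd u))

theorem up_child (w y : Str) : up (child w y) = pr (fst w) (snd w) := by
  rw [up, fst_child, snd_child, snd_pr]

theorem up_norm (w : Str) : up (pr (fst w) (snd w)) = up w := by
  rw [up, up, fst_pr, snd_pr]

/-- all leaves below `w` have the ancestor `w` -/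
theorem leaf_anc {m n : ℕ} : ∀ (j : ℕ) (w : Str) (S : Arr (Idx m) (Idx n) j) (u e : Str),
    Leaf j w S u e → pr (fst (up^[j] u)) (snd (up^[j] u)) = pr (fst w) (snd w)
  | 0, w, x, u, e, h => by rw [h.1]; rfl
  | j + 1, w, Y, u, e, h => by
      obtain ⟨y, hy⟩ := h
      have ih := leaf_anc j _ _ _ _ hy
      rw [Function.iterate_succ_apply']
      have h1 : up (up^[j] u) = up (child w y.1) := by
        rw [← up_norm, ih, up_norm]
      rw [h1, up_child, fst_pr, snd_pr]

theorem leaf_idx {m n : ℕ} {j : ℕ} {w : Str} {y : Idx m} {S : Arr (Idx m) (Idx n) j} {u e : Str}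
    (h : Leaf j (child w y.1) S u e) : fst (snd (up^[j] u)) = y.1 := by
  have h1 := leaf_anc j _ _ _ _ h
  have h2 := congrArg snd h1
  rw [snd_pr, snd_pr] at h2
  rw [h2, snd_child, fst_pr]

theorem leaf_unique {m n : ℕ} : ∀ (j : ℕ) (w : Str) (S : Arr (Idx m) (Idx n) j) (u e e' : Str),
    Leaf j w S u e → Leaf j w S u e' → e = e'
  | 0, w, x, u, e, e', h, h' => by rw [h.2, h'.2]
  | j + 1, w, Y, u, e, e', h, h' => by
      obtain ⟨y, hy⟩ := h
      obtain ⟨y', hy'⟩ := h'
      have h1 : y = y' := Subtype.ext ((leaf_idx hy).symm.trans (leaf_idx hy'))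
      subst h1
      exact leaf_unique j _ _ _ _ _ hy hy'

theorem look_tabL {m n : ℕ} {j : ℕ} {w : Str} {S : Arr (Idx m) (Idx n) j} {u e : Str} :
    look (tabL j w S) u = some e ↔ Leaf j w S u e := by
  constructor
  · intro h; exact (mem_tabL _ _ _ _ _).1 (look_mem h)
  · intro h
    cases h1 : look (tabL j w S) u with
    | none => exact absurd ((mem_tabL _ _ _ _ _).2 h) (look_none.1 h1 e)
    | some e' =>
        have h2 := (mem_tabL _ _ _ _ _).1 (look_mem h1)
        rw [leaf_unique j w S u _ _ h2 h]

/-- the set of leaves does not depend on the array -/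
theorem leaf_shape {m n : ℕ} : ∀ (j : ℕ) (w : Str) (S S' : Arr (Idx m) (Idx n) j) (u e : Str),
    Leaf j w S u e → ∃ e', Leaf j w S' u e'
  | 0, w, x, x', u, e, h => ⟨x'.1, h.1, rfl⟩
  | j + 1, w, Y, Y', u, e, h => by
      obtain ⟨y, hy⟩ := h
      obtain ⟨e', he'⟩ := leaf_shape j _ _ (Y' y) _ _ hy
      exact ⟨e', y, he'⟩

/-- the lookup below `w` depends on one child only -/
theorem look_dep {m n : ℕ} {j : ℕ} {w : Str} {Y Y' : Arr (Idx m) (Idx n) (j + 1)} {u : Str}
    (h : ∀ y : Idx m, y.1 = fst (snd (up^[j] u)) → Y y = Y' y) :
    look (tabL (j + 1) w Y) u = look (tabL (j + 1) w Y') u := by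
  have key : ∀ (Y Y' : Arr (Idx m) (Idx n) (j + 1)),
      (∀ y : Idx m, y.1 = fst (snd (up^[j] u)) → Y y = Y' y) → ∀ e,
      look (tabL (j + 1) w Y) u = some e → look (tabL (j + 1) w Y') u = some e := by
    intro Y Y' h e he
    rw [look_tabL] at he ⊢
    obtain ⟨y, hy⟩ := he
    refine ⟨y, ?_⟩
    rw [← h y (leaf_idx hy).symm]
    exact hy
  cases h1 : look (tabL (j + 1) w Y) u with
  | some e => rw [key Y Y' h e h1]
  | none =>
      cases h2 : look (tabL (j + 1) w Y') u with
      | none => rfl
      | some e =>
          rw [key Y' Y (fun y hy => (h y hy).symm) e h2] at h1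
          simp at h1

/-- overriding one child -/
theorem look_update {m n : ℕ} (j : ℕ) (w : Str) (Y : Arr (Idx m) (Idx n) (j + 1)) (y : Idx m)
    (S : Arr (Idx m) (Idx n) j) (a : List (Str × Str)) (u : Str) :
    look (tabL j (child w y.1) S ++ (tabL (j + 1) w Y ++ a)) u =
      look (tabL (j + 1) w (Function.update (β := fun _ => Arr (Idx m) (Idx n) j) Y y S) ++ a)
        u := by
  rw [look_append, look_append, look_append]
  set Y' : Arr (Idx m) (Idx n) (j + 1) :=
    Function.update (β := fun _ => Arr (Idx m) (Idx n) j) Y y S with hY'
  cases h1 : look (tabL j (child w y.1) S) u with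
  | some e =>
      have h2 : look (tabL (j + 1) w Y') u = some e := by
        rw [look_tabL] at h1 ⊢
        refine ⟨y, ?_⟩
        rw [hY', Function.update_self]; exact h1
      rw [h2]; simp
  | none =>
      have h2 : look (tabL (j + 1) w Y) u = look (tabL (j + 1) w Y') u ∨
          (look (tabL (j + 1) w Y) u ≠ none ∧ fst (snd (up^[j] u)) = y.1) := by
        by_cases hy : fst (snd (up^[j] u)) = y.1
        · by_cases h3 : look (tabL (j + 1) w Y) u = none
          · left
            rw [h3]
            symm
            rw [look_none]
            intro e he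
            rw [mem_tabL] at he
            obtain ⟨y1, hy1⟩ := he
            have h4 : y1 = y := Subtype.ext ((leaf_idx hy1).symm.trans hy)
            subst h4
            rw [hY', Function.update_self] at hy1
            exact (look_none.1 h1 e) ((mem_tabL _ _ _ _ _).2 hy1)
          · exact Or.inr ⟨h3, hy⟩
        · left
          apply look_dep
          intro y1 hy1
          have h4 : y1 ≠ y := by
            rintro rfl; exact hy hy1.symm
          rw [hY', Function.update_of_ne h4]
      rcases h2 with h2 | ⟨h2, hy⟩
      · rw [h2]; simp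
      · -- a leaf of the old child is a leaf of the new child
        exfalso
        obtain ⟨e, he⟩ := Option.ne_none_iff_exists'.1 h2
        rw [look_tabL] at he
        obtain ⟨y1, hy1⟩ := he
        have h4 : y1 = y := Subtype.ext ((leaf_idx hy1).symm.trans hy)
        subst h4
        obtain ⟨e', he'⟩ := leaf_shape j _ _ S _ _ hy1
        exact (look_none.1 h1 e') ((mem_tabL _ _ _ _ _).2 he')

theorem patchL_congr {G : Lang} {a b : List (Str × Str)} (h : ∀ u, look a u = look b u) :
    patchL G a = patchL G b := by
  funext v
  unfold patchL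
  rw [h]

end Pool.Agent.Lib.Pa76659G
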