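import Pool.Agent.Lib.Pa76659G.PhpCount
import Pool.Agent.Lib.Pa76659G.Php
import Pool.Agent.Lib.Pa76659G.Tab
import Pool.Agent.Lib.Pa76659.Hier

set_option autoImplicit false

/-!
Oracles with given functions at the pairs of vertices.
-/

namespace Pool.Agent.Lib.Pa76659G.Php

open Finset Pool.Agent.Lib.Pa76659 Pool.Agent.Lib.Pa76659G Pool.Agent.Lib.Pa76659.Hier

section

variable {n : ℕ} {ι : Type} (vert : ι ↪ Idx n)

def adr (i : Fin n) (u v z : Idx n) : Str := pr (on1 i) (pr u.1 (pr v.1 z.1))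

theorem adr_inj {i i' : Fin n} {u u' v v' z z' : Idx n} (h : adr i u v z = adr i' u' v' z') :
    i = i' ∧ u = u' ∧ v = v' ∧ z = z' := by
  unfold adr at h
  obtain ⟨h1, h2⟩ := pr_inj h
  obtain ⟨h3, h4⟩ := pr_inj h2
  obtain ⟨h5, h6⟩ := pr_inj h4
  refine ⟨Fin.ext ?_, Subtype.ext h3, Subtype.ext h5, Subtype.ext h6⟩
  have := congrArg List.length h1
  simpa [on1] using this

theorem adr_length (i : Fin n) (u v z : Idx n) : n ≤ (adr i u v z).length := by
  unfold adr
  rw [pr_length, pr_length, pr_length]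
  have : z.1.length = n := z.2
  omega

open Classical in
/-- the functions of all pairs -/
noncomputable def gg (x : ι × ι → Idx n → Idx n) (u v : Idx n) : Idx n → Idx n :=
  if hu : ∃ j, vert j = u then
    (if hv : ∃ l, vert l = v then x (hu.choose, hv.choose) else id)
  else fun _ => List.Vector.replicate n true

theorem gg_vert (x : ι × ι → Idx n → Idx n) (j l : ι) : gg vert x (vert j) (vert l) = x (j, l) := by
  unfold gg
  have hu : ∃ j', vert j' = vert j := ⟨j, rfl⟩
  have hv : ∃ l', vert l' = vert l := ⟨l, rfl⟩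
  rw [dif_pos hu, dif_pos hv]
  have h1 := vert.injective hu.choose_spec
  have h2 := vert.injective hv.choose_spec
  rw [h1, h2]

theorem gg_right (x : ι × ι → Idx n → Idx n) (j : ι) {v : Idx n} (hv : ¬ ∃ l, vert l = v) :
    gg vert x (vert j) v = id := by
  unfold gg
  rw [dif_pos ⟨j, rfl⟩, dif_neg hv]

theorem gg_left (x : ι × ι → Idx n → Idx n) {u : Idx n} (hu : ¬ ∃ j, vert j = u) (v : Idx n) :
    gg vert x u v = fun _ => List.Vector.replicate n true := by
  unfold gg
  rw [dif_neg hu]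

open Classical in
/-- the oracle with given functions -/
noncomputable def orc (G : Lang) (x : ι × ι → Idx n → Idx n) : Lang := fun s =>
  if h : ∃ a : Fin n × Idx n × Idx n × Idx n, s = adr a.1 a.2.1 a.2.2.1 a.2.2.2 then
    (gg vert x h.choose.2.1 h.choose.2.2.1 h.choose.2.2.2).get h.choose.1
  else G s

theorem orc_adr (G : Lang) (x : ι × ι → Idx n → Idx n) (i : Fin n) (u v z : Idx n) :
    orc vert G x (adr i u v z) = (gg vert x u v z).get i := by
  unfold orc
  have h : ∃ a : Fin n × Idx n × Idx n × Idx n,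
      adr i u v z = adr a.1 a.2.1 a.2.2.1 a.2.2.2 := ⟨(i, u, v, z), rfl⟩
  rw [dif_pos h]
  obtain ⟨h1, h2, h3, h4⟩ := adr_inj h.choose_spec
  rw [← h1, ← h2, ← h3, ← h4]

theorem orc_other (G : Lang) (x : ι × ι → Idx n → Idx n) {s : Str}
    (h : ¬ ∃ a : Fin n × Idx n × Idx n × Idx n, s = adr a.1 a.2.1 a.2.2.1 a.2.2.2) :
    orc vert G x s = G s := by
  unfold orc
  rw [dif_neg h]

theorem orc_nb (G : Lang) (x : ι × ι → Idx n → Idx n) : ∀ s : Str, s.length < n →
    orc vert G x s = G s := by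
  intro s hs
  apply orc_other
  rintro ⟨a, rfl⟩
  have := adr_length a.1 a.2.1 a.2.2.1 a.2.2.2
  omega

theorem gv_orc (Y G : Lang) (x : ι × ι → Idx n → Idx n) (u v z : Idx n) :
    gv (join Y (orc vert G x)) u.1 v.1 z.1 = (gg vert x u v z).1 := by
  unfold gv
  apply List.ext_getElem
  · have h1 : z.1.length = n := z.2
    have h2 : (gg vert x u v z).1.length = n := (gg vert x u v z).2
    simp [h1, h2]
  · intro i h1 h2
    have h3 : (gg vert x u v z).1.length = n := (gg vert x u v z).2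
    have hi : i < n := by omega
    simp only [List.getElem_map, List.getElem_range]
    show orc vert G x (pr (on1 i) (pr u.1 (pr v.1 z.1))) = _
    exact orc_adr vert G x ⟨i, hi⟩ u v z

/-- the zero -/
def zer (n : ℕ) : Idx n := List.Vector.replicate n false

theorem beats_iff (Y G : Lang) (x : ι × ι → Idx n → Idx n) (u v : Idx n) :
    Beats (join Y (orc vert G x)) u.1 v.1 ↔
      (∃ z, gg vert x u v z = zer n) ∨ ∃ z z', z ≠ z' ∧ gg vert x v u z = gg vert x v u z' := by
  have hv : v.1.length = n := v.2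
  unfold Beats
  rw [hv]
  refine or_congr ?_ ?_
  · constructor
    · rintro ⟨z, hz, h⟩
      refine ⟨⟨z, hz⟩, Subtype.ext ?_⟩
      have h1 := gv_orc vert Y G x u v ⟨z, hz⟩
      rw [← h1]
      exact h
    · rintro ⟨z, h⟩
      refine ⟨z.1, z.2, ?_⟩
      rw [gv_orc, h]
      rfl
  · constructor
    · rintro ⟨z, z', hz, hz', hne, h⟩
      refine ⟨⟨z, hz⟩, ⟨z', hz'⟩, fun h2 => hne (congrArg Subtype.val h2), Subtype.ext ?_⟩
      have h1 := gv_orc vert Y G x v u ⟨z, hz⟩
      have h2 := gv_orc vert Y G x v u ⟨z', hz'⟩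
      rw [← h1, ← h2]
      exact h
    · rintro ⟨z, z', hne, h⟩
      refine ⟨z.1, z'.1, z.2, z'.2, fun h2 => hne (Subtype.ext h2), ?_⟩
      rw [gv_orc, gv_orc, h]

open Classical in
theorem phpL_iff (Y G : Lang) (x : ι × ι → Idx n → Idx n) (v : Idx n) :
    phpL (join Y (orc vert G x)) v.1 = true ↔ ∃ u : Idx n, u ≠ v ∧
      ((∃ z, gg vert x u v z = zer n) ∨
        ∃ z z', z ≠ z' ∧ gg vert x v u z = gg vert x v u z') := by
  have hv : v.1.length = n := v.2
  unfold phpL
  rw [decide_eq_true_eq]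
  constructor
  · rintro ⟨u, hu, hne, h⟩
    rw [hv] at hu
    exact ⟨⟨u, hu⟩, fun h2 => hne (congrArg Subtype.val h2),
      (beats_iff vert Y G x ⟨u, hu⟩ v).1 h⟩
  · rintro ⟨u, hne, h⟩
    refine ⟨u.1, ?_, fun h2 => hne (Subtype.ext h2), (beats_iff vert Y G x u v).2 h⟩
    rw [hv]
    exact u.2

open Classical in
theorem phpAll_iff (X : Lang) {s : Str} (hs : s.length = n) :
    phpAll X s = true ↔ ∀ v : Idx n, phpL X v.1 = true := by
  unfold phpAll
  rw [decide_eq_true_eq, hs]
  exact ⟨fun h v => h v.1 v.2, fun h v hv => h ⟨v, hv⟩⟩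

/-! ### values on the two kinds of worlds -/

theorem ones_ne (hn : 1 ≤ n) : (List.Vector.replicate n true : Idx n) ≠ zer n := by
  intro h
  have h1 := congrArg (fun v : Idx n => v.get ⟨0, hn⟩) h
  simp only [zer, List.Vector.get_replicate] at h1
  exact absurd h1 (by simp)

theorem exists_ne_idx (hn : 1 ≤ n) (v : Idx n) : ∃ u : Idx n, u ≠ v := by
  by_cases h : v = zer n
  · exact ⟨List.Vector.replicate n true, fun h2 => ones_ne hn (h2.trans h)⟩
  · exact ⟨zer n, fun h2 => h h2.symm⟩

theorem all_true (Y G : Lang) (hn : 1 ≤ n) (x : ι × ι → Idx n → Idx n)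
    (hι : ∀ j : ι, ∃ l, l ≠ j) (hx : ∀ e, ∃ z, x e z = zer n) {s : Str} (hs : s.length = n) :
    phpAll (join Y (orc vert G x)) s = true := by
  rw [phpAll_iff _ hs]
  intro v
  rw [phpL_iff]
  by_cases hv : ∃ l, vert l = v
  · obtain ⟨l, rfl⟩ := hv
    obtain ⟨j, hj⟩ := hι l
    refine ⟨vert j, fun h => hj (vert.injective h), Or.inl ?_⟩
    rw [gg_vert]
    exact hx _
  · obtain ⟨u, hu⟩ := exists_ne_idx hn v
    refine ⟨u, hu, Or.inr ⟨zer n, List.Vector.replicate n true, (ones_ne hn).symm, ?_⟩⟩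
    rw [gg_left vert x hv]

theorem all_false (Y G : Lang) (hn : 1 ≤ n) (x : ι × ι → Idx n → Idx n) (i : ι)
    (h0 : ∀ l, l ≠ i → Function.Injective (x (i, l)))
    (h1 : ∀ l, l ≠ i → ∀ z, x (l, i) z ≠ zer n) {s : Str} (hs : s.length = n) :
    phpAll (join Y (orc vert G x)) s = false := by
  rw [← Bool.not_eq_true, phpAll_iff _ hs]
  intro h
  have h2 := h (vert i)
  rw [phpL_iff] at h2
  obtain ⟨u, hu, h3⟩ := h2
  by_cases hu2 : ∃ l, vert l = u
  · obtain ⟨l, rfl⟩ := hu2
    have hl : l ≠ i := fun h => hu (by rw [h])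
    rw [gg_vert, gg_vert] at h3
    rcases h3 with ⟨z, hz⟩ | ⟨z, z', hne, hz⟩
    · exact h1 l hl z hz
    · exact hne (h0 l hl hz)
  · rw [gg_left vert x hu2, gg_right vert x i hu2] at h3
    rcases h3 with ⟨z, hz⟩ | ⟨z, z', hne, hz⟩
    · exact ones_ne hn hz
    · exact hne hz

/-! ### circuits -/

theorem orc_tree (Y G : Lang) (Y0 Y1 : ι × ι → Idx n → Idx n) (s : Str) :
    ∃ D : DT ι Bool, D.depth ≤ 2 ∧ D.QIn Set.univ ∧
      ∀ b : ι → Bool, D.eval b = join Y (orc vert G (mix (xr b) Y0 Y1)) s := by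
  have hleaf : ∀ c : Bool, (∀ b : ι → Bool, join Y (orc vert G (mix (xr b) Y0 Y1)) s = c) →
      ∃ D : DT ι Bool, D.depth ≤ 2 ∧ D.QIn Set.univ ∧
      ∀ b : ι → Bool, D.eval b = join Y (orc vert G (mix (xr b) Y0 Y1)) s :=
    fun c hc => ⟨DT.leaf c, by simp [DT.depth], trivial, fun b => (hc b).symm⟩
  rcases s with _ | ⟨c, s⟩
  · exact hleaf false fun b => rfl
  · cases c
    · exact hleaf (Y s) fun b => rfl
    · by_cases h : ∃ a : Fin n × Idx n × Idx n × Idx n, s = adr a.1 a.2.1 a.2.2.1 a.2.2.2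
      · obtain ⟨⟨i, u, v, z⟩, rfl⟩ := h
        simp only at hleaf ⊢
        by_cases hu : ∃ j, vert j = u
        · obtain ⟨j, rfl⟩ := hu
          by_cases hv : ∃ l, vert l = v
          · obtain ⟨l, rfl⟩ := hv
            refine ⟨DT.node j (DT.node l (DT.leaf ((Y0 (j, l) z).get i))
              (DT.leaf ((Y1 (j, l) z).get i))) (DT.node l (DT.leaf ((Y1 (j, l) z).get i))
              (DT.leaf ((Y0 (j, l) z).get i))), by simp [DT.depth],
              ⟨trivial, ⟨trivial, trivial, trivial⟩, ⟨trivial, trivial, trivial⟩⟩, fun b => ?_⟩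
            show _ = orc vert G (mix (xr b) Y0 Y1) (adr i (vert j) (vert l) z)
            rw [orc_adr, gg_vert]
            simp only [DT.eval, mix, xr]
            rcases Bool.eq_false_or_eq_true (b j) with h | h <;>
              rcases Bool.eq_false_or_eq_true (b l) with h' | h' <;> simp [h, h']
          · refine hleaf (z.get i) fun b => ?_
            show orc vert G (mix (xr b) Y0 Y1) (adr i (vert j) v z) = _
            rw [orc_adr, gg_right vert _ j hv]
            rfl
        · refine hleaf ((List.Vector.replicate n true : Idx n).get i) fun b => ?_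
          show orc vert G (mix (xr b) Y0 Y1) (adr i u v z) = _
          rw [orc_adr, gg_left vert _ hu]
      · exact hleaf (G s) fun b => orc_other vert G _ h

theorem orc_isC (Y G : Lang) (Y0 Y1 : ι × ι → Idx n → Idx n) {S : Set Str} {w t k : ℕ}
    {g : Lang → Bool} (hg : IsC S w t k g) :
    IsC Set.univ w (t * 2) k
      (fun b : ι → Bool => g (join Y (orc vert G (mix (xr b) Y0 Y1)))) := by
  choose sub h1 h2 h3 using orc_tree vert Y G Y0 Y1
  refine (hg.subst (S' := Set.univ) sub (fun v _ => h1 v) (fun v _ => h2 v)).congr fun b => ?_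
  congr 1
  funext s
  exact h3 s b

/-! ### certificates -/

variable [Fintype ι] [DecidableEq ι]

theorem orc_cert (Y G : Lang) {S : Set Str} {w t : ℕ} {g : Lang → Bool} (hg : IsC S w t 1 g)
    (x : ι × ι → Idx n → Idx n) (hx : g (join Y (orc vert G x)) = true) :
    ∃ C : ι × ι → Finset (Idx n), ∑ e, (C e).card ≤ t ∧
      ∀ x', (∀ e, ∀ y ∈ C e, x' e y = x e y) → g (join Y (orc vert G x')) = true := by
  classical
  obtain ⟨h, hh, hgh⟩ := hg
  obtain ⟨j, hj⟩ := (hgh _).1 hx
  obtain ⟨T, hT1, _, hT3⟩ := hh j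
  set L := queries (join Y (orc vert G x)) T with hL
  let C : ι × ι → Finset (Idx n) := fun e => univ.filter fun z =>
    ∃ i : Fin n, true :: adr i (vert e.1) (vert e.2) z ∈ L
  refine ⟨C, ?_, ?_⟩
  · have h1 : ∑ e, (C e).card = (univ.sigma C).card := (Finset.card_sigma _ _).symm
    rw [h1]
    refine le_trans ?_ ((List.toFinset_card_le L).trans ((queries_length _ T).trans hT1))
    let f : (Σ _ : ι × ι, Idx n) → Str := fun q =>
      if h : ∃ i : Fin n, true :: adr i (vert q.1.1) (vert q.1.2) q.2 ∈ L then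
        true :: adr h.choose (vert q.1.1) (vert q.1.2) q.2 else []
    refine Finset.card_le_card_of_injOn f ?_ ?_
    · rintro ⟨e, z⟩ hq
      have h2 : ∃ i : Fin n, true :: adr i (vert e.1) (vert e.2) z ∈ L := by
        have := (Finset.mem_sigma.1 (Finset.mem_coe.1 hq)).2
        exact (Finset.mem_filter.1 this).2
      simp only [f, dif_pos h2, Finset.mem_coe, List.mem_toFinset]
      exact h2.choose_spec
    · rintro ⟨e, z⟩ hq ⟨e', z'⟩ hq' heq
      have h2 : ∃ i : Fin n, true :: adr i (vert e.1) (vert e.2) z ∈ L := by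
        have := (Finset.mem_sigma.1 (Finset.mem_coe.1 hq)).2
        exact (Finset.mem_filter.1 this).2
      have h2' : ∃ i : Fin n, true :: adr i (vert e'.1) (vert e'.2) z' ∈ L := by
        have := (Finset.mem_sigma.1 (Finset.mem_coe.1 hq')).2
        exact (Finset.mem_filter.1 this).2
      simp only [f, dif_pos h2, dif_pos h2', List.cons.injEq, true_and] at heq
      obtain ⟨_, h4, h5, h6⟩ := adr_inj heq
      have h7 : e = e' := Prod.ext (vert.injective h4) (vert.injective h5)
      subst h7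
      rw [h6]
  · intro x' hx'
    rw [hgh]
    refine ⟨j, ?_⟩
    rw [hT3] at hj ⊢
    rw [← hj]
    apply queries_eval
    intro s hs
    rcases s with _ | ⟨c, s⟩
    · rfl
    · cases c
      · rfl
      · show orc vert G x' s = orc vert G x s
        by_cases h : ∃ a : Fin n × Idx n × Idx n × Idx n, s = adr a.1 a.2.1 a.2.2.1 a.2.2.2
        · obtain ⟨⟨i, u, v, z⟩, rfl⟩ := h
          simp only at hs ⊢
          rw [orc_adr, orc_adr]
          by_cases hu : ∃ j, vert j = u
          · obtain ⟨j, rfl⟩ := hu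
            by_cases hv : ∃ l, vert l = v
            · obtain ⟨l, rfl⟩ := hv
              rw [gg_vert, gg_vert, hx' (j, l) z (Finset.mem_filter.2 ⟨Finset.mem_univ _, i, hs⟩)]
            · rw [gg_right vert _ j hv, gg_right vert _ j hv]
          · rw [gg_left vert _ hu, gg_left vert _ hu]
        · rw [orc_other vert G _ h, orc_other vert G _ h]

end

end Pool.Agent.Lib.Pa76659G.Php
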