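import Pool.Agent.Lib.Pa76659.Exec

set_option autoImplicit false

/-!
Timed big-step semantics of the oracle programs of `Pa76659`, renaming of registers. The program
`P` with oracle `O` started on registers `S` ends with registers `S'` after exactly `n` steps.
(Oracle version of `PolyTime.Prog`.)
-/

namespace Pool.Agent.Lib.Pa76659G.PC

open Pool.Agent.Lib.Pa76659 (Str Lang Prog Cfg step runN Exec)

/-- Register contents. -/
abbrev Regs := ℕ → Str

/-- `Run O P S S' n`: program `P` with oracle `O` started on registers `S` ends with registers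
`S'` after exactly `n` machine steps. -/
inductive Run (O : Lang) : Prog → Regs → Regs → ℕ → Prop
  | skip (S : Regs) : Run O Prog.skip S S 1
  | push (S : Regs) (r : ℕ) (b : Bool) :
      Run O (Prog.push r b) S (Function.update S r (b :: S r)) 1
  | pop (S : Regs) (r : ℕ) :
      Run O (Prog.pop r) S (Function.update S r (S r).tail) 1
  | query (S : Regs) (r t : ℕ) :
      Run O (Prog.query r t) S (Function.update S t (O (S r) :: S t)) 1
  | casesNil {r : ℕ} {P Q R : Prog} {S S' : Regs} {n : ℕ} (h : S r = [])
      (hr : Run O R S S' n) : Run O (Prog.branch r P Q R) S S' (n + 1)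
  | casesFalse {r : ℕ} {P Q R : Prog} {S S' : Regs} {n : ℕ} {l : Str}
      (h : S r = false :: l) (hr : Run O Q S S' n) : Run O (Prog.branch r P Q R) S S' (n + 1)
  | casesTrue {r : ℕ} {P Q R : Prog} {S S' : Regs} {n : ℕ} {l : Str}
      (h : S r = true :: l) (hr : Run O P S S' n) : Run O (Prog.branch r P Q R) S S' (n + 1)
  | seq {P Q : Prog} {S S' S'' : Regs} {n m : ℕ} (h1 : Run O P S S' n) (h2 : Run O Q S' S'' m) :
      Run O (Prog.seq P Q) S S'' (n + m + 1)
  | loopNil {r : ℕ} {P : Prog} {S : Regs} (h : S r = []) : Run O (Prog.loop r P) S S 1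
  | loopCons {r : ℕ} {P : Prog} {S S' S'' : Regs} {n m : ℕ} (h : S r ≠ [])
      (h1 : Run O P S S' n) (h2 : Run O (Prog.loop r P) S' S'' m) :
      Run O (Prog.loop r P) S S'' (n + m + 1)

variable {O : Lang}

/-- Big steps are executions. -/
theorem Run.exec {P : Prog} {S S' : Regs} {n : ℕ} (h : Run O P S S' n) : Exec O P S S' n := by
  induction h with
  | skip S => exact Pa76659.exec_skip S
  | push S r b => exact Pa76659.exec_push r b S
  | pop S r => exact Pa76659.exec_pop r S
  | query S r t => exact Pa76659.exec_query r t S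
  | casesNil h _ ih => exact Pa76659.Exec.branch_nil h ih
  | casesFalse h _ ih => exact Pa76659.Exec.branch_false h ih
  | casesTrue h _ ih => exact Pa76659.Exec.branch_true h ih
  | seq _ _ ih1 ih2 => exact (Pa76659.Exec.seq ih1 ih2).mono (by omega)
  | loopNil h => exact Pa76659.exec_loop_nil h
  | loopCons h _ _ ih1 ih2 => exact (Pa76659.Exec.loop_cons h ih1 ih2).mono (by omega)

/-- Output lengths grow by at most the running time. -/
theorem Run.length_le {P : Prog} {S S' : Regs} {n : ℕ} (h : Run O P S S' n) (r : ℕ) :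
    (S' r).length ≤ (S r).length + n := by
  induction h with
  | skip => omega
  | push S r' b =>
    by_cases h : r = r'
    · subst h; simp
    · simp [Function.update_of_ne h]
  | pop S r' =>
    by_cases h : r = r'
    · subst h
      rw [Function.update_self, List.length_tail]
      omega
    · simp [Function.update_of_ne h]
  | query S r' t =>
    by_cases h : r = t
    · subst h; simp
    · simp [Function.update_of_ne h]
  | casesNil _ _ ih => omega
  | casesFalse _ _ ih => omega
  | casesTrue _ _ ih => omega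
  | seq _ _ ih1 ih2 => omega
  | loopNil _ => omega
  | loopCons _ _ _ ih1 ih2 => omega

/-! ### Renaming of registers -/

/-- Rename registers. -/
def rename (ρ : ℕ → ℕ) : Prog → Prog
  | .skip => .skip
  | .push r b => .push (ρ r) b
  | .pop r => .pop (ρ r)
  | .query r t => .query (ρ r) (ρ t)
  | .branch r P Q R => .branch (ρ r) (rename ρ P) (rename ρ Q) (rename ρ R)
  | .seq P Q => .seq (rename ρ P) (rename ρ Q)
  | .loop r P => .loop (ρ r) (rename ρ P)

/-- Running a renamed program. -/
theorem Run.rename {ρ : ℕ → ℕ} (hρ : Function.Injective ρ) {P : Prog} {S S' : Regs} {n : ℕ}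
    (h : Run O P S S' n) : ∀ T : Regs, (∀ i, T (ρ i) = S i) →
    ∃ T' : Regs, Run O (rename ρ P) T T' n ∧ (∀ i, T' (ρ i) = S' i) ∧
      ∀ j, (∀ i, ρ i ≠ j) → T' j = T j := by
  induction h with
  | skip S => intro T hT; exact ⟨T, Run.skip T, hT, fun _ _ => rfl⟩
  | push S r b =>
    intro T hT
    refine ⟨_, Run.push T (ρ r) b, ?_, ?_⟩
    · intro i
      by_cases h : i = r
      · subst h; simp [hT]
      · rw [Function.update_of_ne h, Function.update_of_ne (fun e => h (hρ e)), hT]
    · intro j hj
      rw [Function.update_of_ne (fun e => hj r e.symm)]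
  | pop S r =>
    intro T hT
    refine ⟨_, Run.pop T (ρ r), ?_, ?_⟩
    · intro i
      by_cases h : i = r
      · subst h; simp [hT]
      · rw [Function.update_of_ne h, Function.update_of_ne (fun e => h (hρ e)), hT]
    · intro j hj
      rw [Function.update_of_ne (fun e => hj r e.symm)]
  | query S r t =>
    intro T hT
    refine ⟨_, Run.query T (ρ r) (ρ t), ?_, ?_⟩
    · intro i
      by_cases h : i = t
      · subst h; simp [hT]
      · rw [Function.update_of_ne h, Function.update_of_ne (fun e => h (hρ e)), hT]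
    · intro j hj
      rw [Function.update_of_ne (fun e => hj t e.symm)]
  | casesNil h _ ih =>
    intro T hT
    obtain ⟨T', h1, h2, h3⟩ := ih T hT
    exact ⟨T', Run.casesNil (by rw [hT, h]) h1, h2, h3⟩
  | casesFalse h _ ih =>
    intro T hT
    obtain ⟨T', h1, h2, h3⟩ := ih T hT
    exact ⟨T', Run.casesFalse (by rw [hT, h]) h1, h2, h3⟩
  | casesTrue h _ ih =>
    intro T hT
    obtain ⟨T', h1, h2, h3⟩ := ih T hT
    exact ⟨T', Run.casesTrue (by rw [hT, h]) h1, h2, h3⟩
  | seq _ _ ih1 ih2 =>
    intro T hT
    obtain ⟨T', h1, h2, h3⟩ := ih1 T hT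
    obtain ⟨T'', k1, k2, k3⟩ := ih2 T' h2
    exact ⟨T'', Run.seq h1 k1, k2, fun j hj => (k3 j hj).trans (h3 j hj)⟩
  | loopNil h =>
    intro T hT
    exact ⟨T, Run.loopNil (by rw [hT, h]), hT, fun _ _ => rfl⟩
  | loopCons h _ _ ih1 ih2 =>
    intro T hT
    obtain ⟨T', h1, h2, h3⟩ := ih1 T hT
    obtain ⟨T'', k1, k2, k3⟩ := ih2 T' h2
    exact ⟨T'', Run.loopCons (by rw [hT]; exact h) h1 k1, k2,
      fun j hj => (k3 j hj).trans (h3 j hj)⟩

end Pool.Agent.Lib.Pa76659G.PC
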