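import Pool.Agent.Lib.Pa76659G.PhpProd

set_option autoImplicit false

/-!
The worlds for the separation of `\hat L_3` and `L_3`: a list `K` of alive vertices (the head of the
list is the top), all other vertices are dead. Local tests.
-/

namespace Pool.Agent.Lib.Pa76659G.T3

open Finset Pool.Agent.Lib.Pa76659G.Php

variable {U B : Type} [DecidableEq U] [DecidableEq B] [Fintype B]

/-- `u` beats `v`: `u` is dead, or both are alive and `u` is before `v` -/
def dom (K : List U) (u v : U) : Bool :=
  decide (u ∉ K ∨ (v ∈ K ∧ K.idxOf u < K.idxOf v))

/-- the kind of the function at the pair `e`: `none`: both beat each other (one missing value and one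
collision); `some false`: only `e.1` beats `e.2` (injective); `some true`: only `e.2` beats `e.1`
(the value `z` is missing) -/
def kap (K : List U) (e : U × U) : Option Bool :=
  if dom K e.1 e.2 = true then (if dom K e.2 e.1 = true then none else some false) else some true

variable {z : B}

/-- the world with the alive vertices `K`: functions at the pairs, and (on the diagonal) a hidden
witness that the vertex is dead -/
def xw (R : U × U → Om B z) (K : List U) (e : U × U) (b : B) : B × Bool :=
  (ch (kap K e) (R e) b, decide (e.1 = e.2 ∧ kap K e = none ∧ b = (R e).z0))

/-- a local test on the arrays `E → B → A`: a value and the set of the read positions -/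
structure Tst (E B A : Type) where
  val : (E → B → A) → Bool
  qs : (E → B → A) → E → Finset B

/-- the test reads at most `T` positions, and it is determined by the values there -/
def Tst.Ok {E B A : Type} [Fintype E] (v : Tst E B A) (T : ℕ) : Prop :=
  (∀ x, ∑ e, (v.qs x e).card ≤ T) ∧
    ∀ x x' : E → B → A, (∀ e, ∀ b ∈ v.qs x e, x' e b = x e b) →
      v.val x' = v.val x ∧ v.qs x' = v.qs x

/-- all tests accept -/
def Acc {E B A : Type} (v : ℕ → Tst E B A) (x : E → B → A) : Prop := ∀ j, (v j).val x = true

/-- the vertices with the right name in their slot -/
def Z0 {S Q : Type} (e : U ≃ S × Q) (f : S → Q) (u : U) : Prop := f (e u).1 = (e u).2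

end Pool.Agent.Lib.Pa76659G.T3
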