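import Pool.Agent.Lib.Pa76659.Hier

set_option autoImplicit false

/-!
Small suborders: a statement `for all j the tree D α j is true` which holds in the world of a list
`Z` of alive names also holds in the world of a small sublist of `Z`, if the alive names are chosen
at random, one in each slot.
-/

namespace Pool.Agent.Lib.Pa76659G.T3

open Finset Pool.Agent.Lib.Pa76659 Pool.Agent.Lib.Pa76659.Hier

theorem insert_sublist {U : Type} {K Z : List U} (h : K.Sublist Z) : ∀ {u : U}, u ∈ Z → u ∉ K →
    ∃ p ≤ K.length, (K.insertIdx p u).Sublist Z := by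
  induction h with
  | slnil => intro u hu; exact absurd hu (by simp)
  | @cons l1 l2 a h ih =>
    intro u hu hK
    rcases List.mem_cons.1 hu with rfl | hu
    · exact ⟨0, Nat.zero_le _, by simpa using h.cons_cons u⟩
    · obtain ⟨p, hp, h1⟩ := ih hu hK
      exact ⟨p, hp, h1.cons a⟩
  | @cons_cons l1 l2 a h ih =>
    intro u hu hK
    rcases List.mem_cons.1 hu with rfl | hu
    · exact absurd List.mem_cons_self hK
    · obtain ⟨p, hp, h1⟩ := ih hu (fun h => hK (List.mem_cons_of_mem _ h))
      refine ⟨p + 1, by simpa using hp, ?_⟩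
      rw [List.insertIdx_succ_cons]
      exact h1.cons_cons a

section

variable {S Q V Λ : Type} (W : List (S × Q) → V → Bool) (men : V → List (S × Q))
  (D : Λ → ℕ → DT V Bool)

/-- all trees are true -/
def Pi (α : Λ) (O : V → Bool) : Prop := ∀ j, (D α j).eval O = true

open Classical in
/-- the names on the path of the first false tree -/
noncomputable def names (α : Λ) (K : List (S × Q)) : List (S × Q) :=
  if h : ∃ j, (D α j).eval (W K) = false then
    (queries (W K) (D α (Nat.find h))).flatMap men else []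

/-- insertion of a name -/
noncomputable def nxt (α : Λ) (K : List (S × Q)) (c : ℕ × ℕ) : List (S × Q) :=
  match (names W men D α K)[c.1]? with
  | some u => K.insertIdx c.2 u
  | none => K

/-- the list after given choices -/
noncomputable def out (α : Λ) : List (ℕ × ℕ) → List (S × Q)
  | [] => []
  | c :: cs => nxt W men D α (out α cs) c

variable {W men D}

theorem exists_name {α : Λ} {K Z : List (S × Q)}
    (hW : ∀ v, (∀ u ∈ men v, u ∈ Z → u ∈ K) → W K v = W Z v)
    (hZ : Pi D α (W Z)) (hK : ¬ Pi D α (W K)) : ∃ u ∈ names W men D α K, u ∈ Z ∧ u ∉ K := by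
  classical
  have h : ∃ j, (D α j).eval (W K) = false := by
    unfold Pi at hK
    push Not at hK
    obtain ⟨j, hj⟩ := hK
    exact ⟨j, by
      cases h0 : (D α j).eval (W K)
      · rfl
      · exact absurd h0 hj⟩
  have h1 := Nat.find_spec h
  by_contra hcon
  push Not at hcon
  have h2 : (D α (Nat.find h)).eval (W Z) = (D α (Nat.find h)).eval (W K) := by
    apply queries_eval
    intro v hv
    refine (hW v fun u hu hu2 => hcon u ?_ hu2).symm
    unfold names
    rw [dif_pos h, List.mem_flatMap]
    exact ⟨v, hv, hu⟩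
  rw [hZ, h1] at h2
  exact absurd h2 (by simp)

theorem names_length {T : ℕ} (hD : ∀ α j, (D α j).depth ≤ T) (hmen : ∀ v, (men v).length ≤ 2)
    (α : Λ) (K : List (S × Q)) : (names W men D α K).length ≤ 2 * T := by
  classical
  unfold names
  split_ifs with h
  · have h1 := (queries_length (W K) (D α (Nat.find h))).trans (hD α _)
    have h2 : ∀ l : List V, (l.flatMap men).length ≤ 2 * l.length := by
      intro l
      induction l with
      | nil => simp
      | cons v l ih =>
        rw [List.flatMap_cons, List.length_append, List.length_cons]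
        have := hmen v
        omega
    exact (h2 _).trans (by omega)
  · simp

/-- the process of insertions -/
theorem exists_choices {T s : ℕ} (hD : ∀ α j, (D α j).depth ≤ T) (hmen : ∀ v, (men v).length ≤ 2)
    {α : Λ} {Z : List (S × Q)}
    (hW : ∀ K, K.Sublist Z → ∀ v, (∀ u ∈ men v, u ∈ Z → u ∈ K) → W K v = W Z v)
    (hZ : Pi D α (W Z)) (hno : ∀ K, K.Sublist Z → K.length < s → ¬ Pi D α (W K)) :
    ∀ t ≤ s, ∃ cs : List (ℕ × ℕ), cs.length = t ∧ (∀ c ∈ cs, c.1 < 2 * T ∧ c.2 < s) ∧
      (out W men D α cs).Sublist Z ∧ (out W men D α cs).length = t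
  | 0, _ => ⟨[], rfl, by simp, by simp [out], by simp [out]⟩
  | t + 1, ht => by
      obtain ⟨cs, h1, h2, h3, h4⟩ := exists_choices hD hmen hW hZ hno t (by omega)
      set K := out W men D α cs with hK
      obtain ⟨u, hu1, hu2, hu3⟩ := exists_name (hW K h3) hZ (hno K h3 (by omega))
      obtain ⟨c, hc, hcu⟩ := List.getElem_of_mem hu1
      obtain ⟨p, hp, hpZ⟩ := insert_sublist h3 hu2 hu3
      have hc2 := hc.trans_le (names_length hD hmen α K)
      have h5 : out W men D α ((c, p) :: cs) = K.insertIdx p u := by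
        rw [out, nxt, ← hK]
        simp only
        rw [List.getElem?_eq_getElem hc, hcu]
      refine ⟨(c, p) :: cs, by simp [h1], ?_, ?_, ?_⟩
      · intro c' hc'
        rcases List.mem_cons.1 hc' with rfl | hc'
        · exact ⟨hc2, by simp only; omega⟩
        · exact h2 c' hc'
      · rw [h5]; exact hpZ
      · rw [h5, List.length_insertIdx]
        split_ifs <;> omega

end

section

variable {S Q : Type} [Fintype S] [DecidableEq S] [Fintype Q] [DecidableEq Q]

/-- the number of the choices of one name in each slot such that given names are chosen -/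
theorem card_fix (L : List (S × Q)) (hL : L.Nodup) :
    (univ.filter fun ζ : S → Q => ∀ u ∈ L, ζ u.1 = u.2).card * Fintype.card Q ^ L.length ≤
      Fintype.card Q ^ Fintype.card S := by
  classical
  set F := univ.filter fun ζ : S → Q => ∀ u ∈ L, ζ u.1 = u.2 with hF
  by_cases hne : F = ∅
  · rw [hne]; simp
  obtain ⟨ζ0, hζ0⟩ := Finset.nonempty_iff_ne_empty.2 hne
  rw [hF, mem_filter] at hζ0
  have hinj : Function.Injective (fun i : Fin L.length => (L.get i).1) := by
    intro i j hij
    have h1 := hζ0.2 _ (List.get_mem L i)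
    have h2 := hζ0.2 _ (List.get_mem L j)
    have h3 : L.get i = L.get j := Prod.ext hij (by
      simp only at hij
      rw [← h1, ← h2, hij])
    exact (List.nodup_iff_injective_get.1 hL) h3
  -- overwriting
  let Φ : F × (Fin L.length → Q) → (S → Q) := fun a x =>
    if h : ∃ i : Fin L.length, (L.get i).1 = x then a.2 h.choose else a.1.1 x
  have hΦ1 : ∀ a (i : Fin L.length), Φ a (L.get i).1 = a.2 i := by
    intro a i
    have h : ∃ i' : Fin L.length, (L.get i').1 = (L.get i).1 := ⟨i, rfl⟩
    simp only [Φ]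
    rw [dif_pos h, hinj h.choose_spec]
  have hΦ : Function.Injective Φ := by
    intro a b hab
    have h2 : a.2 = b.2 := by
      funext i
      rw [← hΦ1 a i, ← hΦ1 b i, hab]
    have h1 : a.1 = b.1 := by
      apply Subtype.ext
      funext x
      by_cases h : ∃ i : Fin L.length, (L.get i).1 = x
      · obtain ⟨i, rfl⟩ := h
        have h3 := (mem_filter.1 a.1.2).2 _ (List.get_mem L i)
        have h4 := (mem_filter.1 b.1.2).2 _ (List.get_mem L i)
        rw [h3, h4]
      · have h3 := congrFun hab x
        simp only [Φ] at h3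
        rwa [dif_neg h, dif_neg h] at h3
    exact Prod.ext h1 h2
  have h := Fintype.card_le_of_injective Φ hΦ
  rw [Fintype.card_prod, Fintype.card_fun, Fintype.card_fun, Fintype.card_fin,
    Fintype.card_coe] at h
  exact h

variable {V Λ : Type} [Fintype Λ] {W : List (S × Q) → V → Bool} {men : V → List (S × Q)}
  {D : Λ → ℕ → DT V Bool}

/-- K-lemma -/
theorem K_lemma {T s : ℕ} (hD : ∀ α j, (D α j).depth ≤ T) (hmen : ∀ v, (men v).length ≤ 2)
    (hW : ∀ K Z : List (S × Q), Z.Nodup → K.Sublist Z → ∀ v, (∀ u ∈ men v, u ∈ Z → u ∈ K) →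
      W K v = W Z v) (B : Finset (S → Q))
    (hB : ∀ ζ ∈ B, ∃ (α : Λ) (Z : List (S × Q)), Z.Nodup ∧ (∀ u ∈ Z, ζ u.1 = u.2) ∧
      Pi D α (W Z) ∧ ∀ K, K.Sublist Z → K.length < s → ¬ Pi D α (W K)) :
    B.card * Fintype.card Q ^ s ≤
      Fintype.card Λ * (2 * T * s) ^ s * Fintype.card Q ^ Fintype.card S := by
  classical
  -- the choices
  let out' : Λ × (Fin s → Fin (2 * T) × Fin s) → List (S × Q) := fun a =>
    out W men D a.1 ((List.ofFn a.2).map fun c => (c.1.1, c.2.1))
  let G : Λ × (Fin s → Fin (2 * T) × Fin s) → Finset (S → Q) := fun a =>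
    if (out' a).Nodup ∧ (out' a).length = s then
      univ.filter fun ζ : S → Q => ∀ u ∈ out' a, ζ u.1 = u.2 else ∅
  have h1 : B ⊆ univ.biUnion G := by
    intro ζ hζ
    obtain ⟨α, Z, hZ1, hZ2, hZ3, hZ4⟩ := hB ζ hζ
    obtain ⟨cs, h2, h3, h4, h5⟩ := exists_choices hD hmen (fun K hK => hW K Z hZ1 hK) hZ3 hZ4 s
      le_rfl
    rw [mem_biUnion]
    refine ⟨(α, fun i => (⟨(cs.get (Fin.cast h2.symm i)).1, (h3 _ (List.get_mem _ _)).1⟩,
      ⟨(cs.get (Fin.cast h2.symm i)).2, (h3 _ (List.get_mem _ _)).2⟩)), mem_univ _, ?_⟩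
    have h6 : out' (α, fun i => (⟨(cs.get (Fin.cast h2.symm i)).1, (h3 _ (List.get_mem _ _)).1⟩,
        ⟨(cs.get (Fin.cast h2.symm i)).2, (h3 _ (List.get_mem _ _)).2⟩)) =
        out W men D α cs := by
      simp only [out']
      congr 1
      apply List.ext_getElem
      · simp [h2]
      · intro i hi1 hi2
        simp
    simp only [G]
    rw [h6, if_pos ⟨h4.nodup hZ1, h5⟩, mem_filter]
    exact ⟨mem_univ _, fun u hu => hZ2 u (h4.subset hu)⟩
  have h2 : ∀ a, (G a).card * Fintype.card Q ^ s ≤ Fintype.card Q ^ Fintype.card S := by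
    intro a
    simp only [G]
    split_ifs with h
    · have h3 := card_fix (out' a) h.1
      rwa [h.2] at h3
    · simp
  calc B.card * Fintype.card Q ^ s ≤ (univ.biUnion G).card * Fintype.card Q ^ s :=
        Nat.mul_le_mul_right _ (card_le_card h1)
    _ ≤ (∑ a, (G a).card) * Fintype.card Q ^ s := Nat.mul_le_mul_right _ card_biUnion_le
    _ = ∑ a, (G a).card * Fintype.card Q ^ s := by rw [Finset.sum_mul]
    _ ≤ ∑ _a : Λ × (Fin s → Fin (2 * T) × Fin s), Fintype.card Q ^ Fintype.card S :=
        Finset.sum_le_sum fun a _ => h2 a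
    _ = _ := by
      rw [Finset.sum_const, card_univ, Fintype.card_prod, Fintype.card_fun, Fintype.card_prod,
        Fintype.card_fin, Fintype.card_fin, smul_eq_mul]

end

end Pool.Agent.Lib.Pa76659G.T3
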