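import Pool.Agent.Lib.Pa76659G.T3World
import Pool.Agent.Lib.Pa76659G.T3K

set_option autoImplicit false

/-!
The worlds fit to the lemma on sublists; splitting of strings; choice of a good pair; numbers.
-/

namespace Pool.Agent.Lib.Pa76659G.T3

open Finset Pool.Agent.Lib.Pa76659 Pool.Agent.Lib.Pa76659G Pool.Agent.Lib.Pa76659.Hier
open Pool.Agent.Lib.Pa76659G.Php

/-! ### sublists -/

theorem idxOf_sublist {U : Type} [DecidableEq U] {K Z : List U} (h : K.Sublist Z) :
    Z.Nodup → ∀ u ∈ K, ∀ v ∈ K, (K.idxOf u < K.idxOf v ↔ Z.idxOf u < Z.idxOf v) := by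
  induction h with
  | slnil => intro _ u hu; exact absurd hu (by simp)
  | @cons l1 l2 a h ih =>
    intro hZ u hu v hv
    rw [List.nodup_cons] at hZ
    have h1 : a ≠ u := fun h2 => hZ.1 (h2 ▸ h.subset hu)
    have h2 : a ≠ v := fun h2 => hZ.1 (h2 ▸ h.subset hv)
    rw [List.idxOf_cons_ne _ h1, List.idxOf_cons_ne _ h2, ih hZ.2 u hu v hv]
    exact Nat.succ_lt_succ_iff.symm
  | @cons_cons l1 l2 a h ih =>
    intro hZ u hu v hv
    rw [List.nodup_cons] at hZ
    by_cases hua : a = u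
    · by_cases hva : a = v
      · subst hua
        subst hva
        simp
      · subst hua
        rw [List.idxOf_cons_self, List.idxOf_cons_self, List.idxOf_cons_ne _ hva,
          List.idxOf_cons_ne _ hva]
        simp
    · by_cases hva : a = v
      · subst hva
        rw [List.idxOf_cons_self, List.idxOf_cons_self]
        simp
      · rw [List.idxOf_cons_ne _ hua, List.idxOf_cons_ne _ hva, List.idxOf_cons_ne _ hua,
          List.idxOf_cons_ne _ hva]
        have hu' : u ∈ l1 := (List.mem_cons.1 hu).resolve_left (fun h2 => hua h2.symm)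
        have hv' : v ∈ l1 := (List.mem_cons.1 hv).resolve_left (fun h2 => hva h2.symm)
        have h3 := ih hZ.2 u hu' v hv'
        exact Nat.succ_lt_succ_iff.trans (h3.trans Nat.succ_lt_succ_iff.symm)

theorem dom_sublist {U : Type} [DecidableEq U] {K Z : List U} (h : K.Sublist Z) (hZ : Z.Nodup)
    {u v : U} (hu : u ∈ Z → u ∈ K) (hv : v ∈ Z → v ∈ K) : dom K u v = dom Z u v := by
  unfold dom
  apply decide_eq_decide.2
  have h1 : u ∈ K ↔ u ∈ Z := ⟨fun h2 => h.subset h2, hu⟩
  have h2 : v ∈ K ↔ v ∈ Z := ⟨fun h2 => h.subset h2, hv⟩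
  by_cases h3 : u ∈ K
  · by_cases h4 : v ∈ K
    · rw [idxOf_sublist h hZ u h3 v h4, h1, h2]
    · simp only [h1, h2] at h3 h4 ⊢
      simp [h3, h4]
  · have h4 : u ∉ Z := fun h5 => h3 (h1.2 h5)
    simp [h3, h4]

theorem kap_sublist {U : Type} [DecidableEq U] {K Z : List U} (h : K.Sublist Z) (hZ : Z.Nodup)
    {e : U × U} (hu : e.1 ∈ Z → e.1 ∈ K) (hv : e.2 ∈ Z → e.2 ∈ K) : kap K e = kap Z e := by
  unfold kap
  rw [dom_sublist h hZ hu hv, dom_sublist h hZ hv hu]

/-! ### splitting of strings -/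

/-- the slot and the name in the slot -/
def spl {n m k : ℕ} (h : n = m + k) : Idx n ≃ Idx m × Idx k where
  toFun u := (⟨u.1.take m, by rw [List.length_take, u.2]; omega⟩,
    ⟨u.1.drop m, by rw [List.length_drop, u.2]; omega⟩)
  invFun p := ⟨p.1.1 ++ p.2.1, by rw [List.length_append, p.1.2, p.2.2, h]⟩
  left_inv u := Subtype.ext (List.take_append_drop _ _)
  right_inv p := by
    obtain ⟨⟨a, ha⟩, ⟨b, hb⟩⟩ := p
    refine Prod.ext (Subtype.ext ?_) (Subtype.ext ?_)
    · show (a ++ b).take m = a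
      exact List.take_left' ha
    · show (a ++ b).drop m = b
      exact List.drop_left' ha

open Classical in
/-- the names which are mentioned by a query -/
noncomputable def men {n m k : ℕ} (h : n = m + k) (s : Str) : List (Idx m × Idx k) :=
  if hs : ∃ q : (Idx n × Idx n) × Idx n, Reads s q.1 q.2 then
    [spl h hs.choose.1.1, spl h hs.choose.1.2] else []

theorem men_length {n m k : ℕ} (h : n = m + k) (s : Str) : (men h s).length ≤ 2 := by
  unfold men
  split_ifs <;> simp

theorem mem_men {n m k : ℕ} (h : n = m + k) {s : Str} {e : Idx n × Idx n} {b : Idx n}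
    (hr : Reads s e b) : spl h e.1 ∈ men h s ∧ spl h e.2 ∈ men h s := by
  unfold men
  have hs : ∃ q : (Idx n × Idx n) × Idx n, Reads s q.1 q.2 := ⟨(e, b), hr⟩
  rw [dif_pos hs]
  obtain ⟨h1, -⟩ := hr.unique hs.choose_spec
  rw [← h1]
  simp

theorem mem_map_symm {n m k : ℕ} (h : n = m + k) (K : List (Idx m × Idx k)) (u : Idx n) :
    u ∈ K.map (spl h).symm ↔ spl h u ∈ K := by
  rw [List.mem_map]
  constructor
  · rintro ⟨x, hx, rfl⟩
    rwa [Equiv.apply_symm_apply]
  · intro hx
    exact ⟨_, hx, (spl h).symm_apply_apply u⟩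

/-- the worlds of sublists -/
theorem wo_sublist (Y G : Lang) {n m k : ℕ} (h : n = m + k)
    (R : Idx n × Idx n → Om (Idx n) (zer n)) (K Z : List (Idx m × Idx k)) (hZ : Z.Nodup)
    (hK : K.Sublist Z) (s : Str) (hs : ∀ u ∈ men h s, u ∈ Z → u ∈ K) :
    wo Y G R (K.map (spl h).symm) s = wo Y G R (Z.map (spl h).symm) s := by
  unfold wo
  apply orx_agree
  intro e b hr
  obtain ⟨h1, h2⟩ := mem_men h hr
  have h3 : kap (K.map (spl h).symm) e = kap (Z.map (spl h).symm) e := by
    refine kap_sublist (hK.map _) (hZ.map (spl h).symm.injective) ?_ ?_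
    · rw [mem_map_symm, mem_map_symm]
      exact hs _ h1
    · rw [mem_map_symm, mem_map_symm]
      exact hs _ h2
  unfold xw
  rw [h3]

/-! ### a good pair -/

open Classical in
theorem exists_pair {F R : Type} [Fintype F] [Fintype R] [Nonempty F] [Nonempty R]
    (b1 b2 : F → R → Prop) (h1 : ∀ r, 2 * (univ.filter fun f => b1 f r).card < Fintype.card F)
    (h2 : ∀ f, 2 * (univ.filter fun r => b2 f r).card < Fintype.card R) :
    ∃ f r, ¬ b1 f r ∧ ¬ b2 f r := by
  by_contra hcon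
  push Not at hcon
  have e1 : 2 * ∑ r, (univ.filter fun f => b1 f r).card < Fintype.card R * Fintype.card F := by
    rw [Finset.mul_sum]
    calc ∑ r, 2 * (univ.filter fun f => b1 f r).card < ∑ _r : R, Fintype.card F :=
          Finset.sum_lt_sum_of_nonempty Finset.univ_nonempty (fun r _ => h1 r)
      _ = _ := by rw [Finset.sum_const, Finset.card_univ, smul_eq_mul]
  have e2 : 2 * ∑ f, (univ.filter fun r => b2 f r).card < Fintype.card F * Fintype.card R := by
    rw [Finset.mul_sum]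
    calc ∑ f, 2 * (univ.filter fun r => b2 f r).card < ∑ _f : F, Fintype.card R :=
          Finset.sum_lt_sum_of_nonempty Finset.univ_nonempty (fun f _ => h2 f)
      _ = _ := by rw [Finset.sum_const, Finset.card_univ, smul_eq_mul]
  have e3 : Fintype.card F * Fintype.card R ≤ ∑ r, (univ.filter fun f => b1 f r).card +
      ∑ f, (univ.filter fun r => b2 f r).card := by
    have e4 : ∑ r, (univ.filter fun f => b1 f r).card =
        ∑ f, ∑ r, (if b1 f r then 1 else 0) := by
      rw [Finset.sum_comm]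
      exact Finset.sum_congr rfl fun r _ => Finset.card_filter _ _
    have e5 : ∑ f, (univ.filter fun r => b2 f r).card =
        ∑ f, ∑ r, (if b2 f r then 1 else 0) :=
      Finset.sum_congr rfl fun f _ => Finset.card_filter _ _
    rw [e4, e5, ← Finset.sum_add_distrib]
    calc Fintype.card F * Fintype.card R = ∑ _f : F, ∑ _r : R, 1 := by simp
      _ ≤ _ := by
        refine Finset.sum_le_sum fun f _ => ?_
        rw [← Finset.sum_add_distrib]
        refine Finset.sum_le_sum fun r _ => ?_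
        by_cases h3 : b1 f r
        · rw [if_pos h3]; omega
        · rw [if_pos (hcon f r h3)]; omega
  rw [mul_comm (Fintype.card R)] at e1
  omega

/-! ### numbers -/

theorem num1 {a T s M L : ℕ} (hs : s = a + 2) (hT : 1 ≤ T) (hL : L ≤ 2 ^ a)
    (hM : (16 * T + 16) * s ≤ M) : 2 * (L * (2 * T * s) ^ s) < (M ^ 3) ^ s := by
  have h0 : 0 < (2 * T * s) ^ s := by
    apply Nat.pow_pos
    have : 0 < s := by omega
    positivity
  have h1 : 2 * (2 * T * s) ≤ M ^ 3 := by
    have h2 : 2 * (2 * T * s) ≤ (16 * T + 16) * s := by nlinarith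
    have h3 : M ≤ M ^ 3 := Nat.le_self_pow (by norm_num) _
    omega
  have h2 : (2 * (2 * T * s)) ^ s ≤ (M ^ 3) ^ s := Nat.pow_le_pow_left h1 s
  rw [mul_pow] at h2
  have h3 : 2 ^ s = 4 * 2 ^ a := by rw [hs, pow_add]; ring
  have h4 : L * (2 * T * s) ^ s ≤ 2 ^ a * (2 * T * s) ^ s := Nat.mul_le_mul_right _ hL
  have h5 : 0 < 2 ^ a * (2 * T * s) ^ s := by positivity
  rw [h3] at h2
  nlinarith

theorem num2 {a T s M : ℕ} (hs : s = a + 2) (hT : 1 ≤ T) (hM : (16 * T + 16) * s ≤ M) :
    2 * (2 ^ a * M ^ (s + s) * T ^ s) < (M ^ 4 - 2) ^ s := by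
  have hs1 : 1 ≤ s := by omega
  have hM1 : 16 * T + 16 ≤ M := by nlinarith
  have h1 : M ^ 2 * T * 2 ≤ M ^ 4 - 2 := by
    have h2 : M ^ 4 = M ^ 2 * M * M := by ring
    have h3 : M ^ 2 * M * (16 * T + 16) ≤ M ^ 2 * M * M := Nat.mul_le_mul_left _ hM1
    have h4 : 1 ≤ M ^ 2 := Nat.one_le_pow _ _ (by omega)
    have h5 : M ^ 2 * 1 ≤ M ^ 2 * M := Nat.mul_le_mul_left _ (by omega)
    have h6 : M ^ 2 * T * 2 + 2 ≤ M ^ 2 * M * (16 * T + 16) := by nlinarith
    omega
  have h2 : (M ^ 2 * T * 2) ^ s ≤ (M ^ 4 - 2) ^ s := Nat.pow_le_pow_left h1 s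
  have h3 : 2 ^ s = 4 * 2 ^ a := by rw [hs, pow_add]; ring
  have h4 : (M ^ 2 * T * 2) ^ s = M ^ (s + s) * T ^ s * 2 ^ s := by
    rw [mul_pow, mul_pow, ← pow_mul, two_mul]
  have h5 : 0 < 2 ^ a * M ^ (s + s) * T ^ s := by
    have : 0 < M := by omega
    positivity
  rw [h4, h3] at h2
  nlinarith

theorem num3 {A B C D E : ℕ} (h : A * B ≤ C * D) (h2 : 2 * C < B) (hD : 0 < D) (hE : E = A) :
    2 * E < D := by
  subst hE
  by_contra hcon
  push Not at hcon
  have h3 : 2 * (E * B) ≤ 2 * (C * D) := Nat.mul_le_mul_left _ h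
  have h4 : D * B ≤ 2 * E * B := Nat.mul_le_mul_right _ hcon
  have h5 : 2 * C * D < B * D := Nat.mul_lt_mul_of_pos_right h2 hD
  nlinarith

end Pool.Agent.Lib.Pa76659G.T3
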