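import Pool.Agent.Lib.Pa76659G.Cert

set_option autoImplicit false

/-!
(P3) If `A` is in `NP^X` and the complement of `A` is in `NP^X/poly`, then
`Σ_3^P(X ⊕ A) ⊆ Σ_3^P(X)`.
-/

namespace Pool.Agent.Lib.Pa76659G.PC

open Pool.Agent.Lib.Pa76659 (Str Lang Prog Cfg step runN Exec PO NPO inp inp2 Halts accepts Bdd Sig
  join PIx NIx pEval nEval)

/-- Runs depend on short queries only. -/
theorem runN_congr {O O' : Lang} {m : ℕ} {c : Cfg} (hc : Bdd m c.2) : ∀ n : ℕ,
    (∀ q : Str, q.length ≤ m + n → O q = O' q) → runN O n c = runN O' n c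
  | 0, _ => rfl
  | n + 1, h => by
    have ih := runN_congr hc n (fun q hq => h q (by omega))
    rw [Pa76659.runN_add O n 1 c, Pa76659.runN_add O' n 1 c, ← ih]
    show step O (runN O n c) = step O' (runN O n c)
    rcases hq : qry (runN O n c) with _ | q
    · exact step_none hq _ _
    · refine step_some hq (h q ?_)
      have := qry_bdd (Pa76659.runN_bdd O n m c hc) hq
      omega

theorem accepts_congr {O O' : Lang} {M : Prog} {x y : Str} {n : ℕ}
    (h : ∀ q : Str, q.length ≤ x.length + y.length + n → O q = O' q) :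
    accepts O M (inp2 x y) n = accepts O' M (inp2 x y) n := by
  unfold Pa76659.accepts
  rw [runN_congr (c := ([M], inp2 x y)) (Pa76659.inp2_bdd x y) n h]

theorem NPO_join {O L1 L2 : Lang} (h1 : L1 ∈ NPO O) (h2 : L2 ∈ NPO O) : join L1 L2 ∈ NPO O := by
  obtain ⟨V1, q1, hV1, hL1⟩ := exists_of_NPO h1
  obtain ⟨V2, q2, hV2, hL2⟩ := exists_of_NPO h2
  have hz : PolyC (fun _ : Str × Str => O) (fun _ => True) [fun p => p.1, fun p => p.2]
    (fun p => p.1) := PolyC.var (by simp)
  have hy : PolyC (fun _ : Str × Str => O) (fun _ => True) [fun p => p.1, fun p => p.2]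
    (fun p => p.2) := PolyC.var (by simp)
  have ha := (PolyB.natEq (PolyN.length hy) ((PolyN.length hz.tail).poly q1)).and
    (PolyB.arg2 hV1 hz.tail hy)
  have hb := (PolyB.natEq (PolyN.length hy) ((PolyN.length hz.tail).poly q2)).and
    (PolyB.arg2 hV2 hz.tail hy)
  have hV : PolyB (fun _ : Str × Str => O) (fun _ => True) [fun p => p.1, fun p => p.2]
      (fun p => match p.1 with
        | [] => false
        | false :: v => decide (p.2.length = q1.eval v.length) && V1 (v, p.2)
        | true :: v => decide (p.2.length = q2.eval v.length) && V2 (v, p.2)) := by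
    refine PolyC.congr (PolyC.cases hz (u0 := fun _ => [false])
      (u1 := fun p : Str × Str => [decide (p.2.length = q1.eval p.1.tail.length) && V1 (p.1.tail, p.2)])
      (u2 := fun p : Str × Str => [decide (p.2.length = q2.eval p.1.tail.length) && V2 (p.1.tail, p.2)])
      (PolyC.const _) (PolyC.mono ha fun _ h => h.1) (PolyC.mono hb fun _ h => h.1)) ?_
    rintro ⟨z, y⟩ _
    rcases z with _ | ⟨b, v⟩
    · rfl
    · cases b <;> rfl
  refine mem_NPO_le (q1 + q2) hV (fun z => ?_)
  rcases z with _ | ⟨b, v⟩
  · simp [Pa76659.join]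
  · cases b
    · show L1 v = true ↔ ∃ y : Str, _ ∧ (decide _ && _) = true
      rw [hL1]
      constructor
      · rintro ⟨y, h3, h4⟩
        refine ⟨y, ?_, by simp only [h3, h4, decide_true, Bool.and_true]⟩
        rw [h3, Polynomial.eval_add]
        have := eval_mono q1 (show v.length ≤ (false :: v).length by simp)
        omega
      · rintro ⟨y, -, h4⟩
        simp only [Bool.and_eq_true, decide_eq_true_eq] at h4
        exact ⟨y, h4⟩
    · show L2 v = true ↔ ∃ y : Str, _ ∧ (decide _ && _) = true
      rw [hL2]
      constructor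
      · rintro ⟨y, h3, h4⟩
        refine ⟨y, ?_, by simp only [h3, h4, decide_true, Bool.and_true]⟩
        rw [h3, Polynomial.eval_add]
        have := eval_mono q2 (show v.length ≤ (true :: v).length by simp)
        omega
      · rintro ⟨y, -, h4⟩
        simp only [Bool.and_eq_true, decide_eq_true_eq] at h4
        exact ⟨y, h4⟩

/-- Certificates for the answers of `X ⊕ A`. -/
def P0 (X : Lang) (V : Str × Str → Bool) (q : Polynomial ℕ) (_u z w : Str) : Bool :=
  match z with
  | [] => false
  | false :: v => X v
  | true :: v => decide (w.length = q.eval v.length) && V (v, w)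

/-- The pair of a string and its advice. -/
def av (u v : Str) : Str := pr v (nth u v.length)

def Q0 (X : Lang) (V : Str × Str → Bool) (q : Polynomial ℕ) (u z w : Str) : Bool :=
  match z with
  | [] => true
  | false :: v => !(X v)
  | true :: v => decide (w.length = q.eval (av u v).length) && V (av u v, w)

theorem av_length (u v : Str) : (av u v).length ≤ 2 * v.length + 1 + u.length := by
  rw [av, pr_length]
  have := nth_length_le u v.length
  omega

theorem PB3_P0 {X : Lang} {V : Str × Str → Bool} {q : Polynomial ℕ}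
    (hV : PolyB (fun _ : Str × Str => X) (fun _ => True) [fun p => p.1, fun p => p.2] V) :
    PB3 X (P0 X V q) := by
  have hz : PolyC (fun _ : Str × Str × Str => X) (fun _ => True)
    [fun p => p.1, fun p => p.2.1, fun p => p.2.2] (fun p => p.2.1) := PolyC.var (by simp)
  have hw : PolyC (fun _ : Str × Str × Str => X) (fun _ => True)
    [fun p => p.1, fun p => p.2.1, fun p => p.2.2] (fun p => p.2.2) := PolyC.var (by simp)
  have ha := (PolyB.natEq (PolyN.length hw) ((PolyN.length hz.tail).poly q)).and
    (PolyB.arg2 hV hz.tail hw)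
  refine PolyC.congr (PolyC.cases hz (u0 := fun _ => [false])
      (u1 := fun p : Str × Str × Str => [X p.2.1.tail])
      (u2 := fun p : Str × Str × Str =>
        [decide (p.2.2.length = q.eval p.2.1.tail.length) && V (p.2.1.tail, p.2.2)])
      (PolyC.const _) (PolyC.mono (PolyC.query hz.tail) fun _ h => h.1)
      (PolyC.mono ha fun _ h => h.1)) ?_
  rintro ⟨u, z, w⟩ _
  rcases z with _ | ⟨b, v⟩
  · rfl
  · cases b <;> rfl

theorem PB3_Q0 {X : Lang} {V : Str × Str → Bool} {q : Polynomial ℕ}
    (hV : PolyB (fun _ : Str × Str => X) (fun _ => True) [fun p => p.1, fun p => p.2] V) :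
    PB3 X (Q0 X V q) := by
  have hu : PolyC (fun _ : Str × Str × Str => X) (fun _ => True)
    [fun p => p.1, fun p => p.2.1, fun p => p.2.2] (fun p => p.1) := PolyC.var (by simp)
  have hz : PolyC (fun _ : Str × Str × Str => X) (fun _ => True)
    [fun p => p.1, fun p => p.2.1, fun p => p.2.2] (fun p => p.2.1) := PolyC.var (by simp)
  have hw : PolyC (fun _ : Str × Str × Str => X) (fun _ => True)
    [fun p => p.1, fun p => p.2.1, fun p => p.2.2] (fun p => p.2.2) := PolyC.var (by simp)
  have hav : PolyC (fun _ : Str × Str × Str => X) (fun _ => True)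
    [fun p => p.1, fun p => p.2.1, fun p => p.2.2] (fun p => av p.1 p.2.1.tail) :=
    PolyC.pr hz.tail (PolyC.nth hu (PolyN.length hz.tail))
  have ha := (PolyB.natEq (PolyN.length hw) ((PolyN.length hav).poly q)).and
    (PolyB.arg2 hV hav hw)
  have hx : PolyB (fun _ : Str × Str × Str => X) (fun _ => True)
    [fun p => p.1, fun p => p.2.1, fun p => p.2.2] (fun p => X p.2.1.tail) := PolyC.query hz.tail
  refine PolyC.congr (PolyC.cases hz (u0 := fun _ => [true])
      (u1 := fun p : Str × Str × Str => [!(X p.2.1.tail)])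
      (u2 := fun p : Str × Str × Str => [decide (p.2.2.length = q.eval (av p.1 p.2.1.tail).length) &&
        V (av p.1 p.2.1.tail, p.2.2)])
      (PolyC.const _) (PolyC.mono hx.not fun _ h => h.1)
      (PolyC.mono ha fun _ h => h.1)) ?_
  rintro ⟨u, z, w⟩ _
  rcases z with _ | ⟨b, v⟩
  · rfl
  · cases b <;> rfl

/-- The advice `u` is correct for the strings of length less than `m`. -/
def Corr (A C : Lang) (u : Str) (m : ℕ) : Prop := ∀ v : Str, v.length < m → C (av u v) = !(A v)

theorem good0 {X A C : Lang} {V1 V2 : Str × Str → Bool} {q1 q2 : Polynomial ℕ}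
    (hA : ∀ x, A x = true ↔ ∃ y : Str, y.length = q1.eval x.length ∧ V1 (x, y) = true)
    (hC : ∀ x, C x = true ↔ ∃ y : Str, y.length = q2.eval x.length ∧ V2 (x, y) = true)
    {u : Str} {m : ℕ} (h : Corr A C u m) :
    Good (join X A) (P0 X V1 q1) (Q0 X V2 q2) (q1 + q2.comp (2 * Polynomial.X + 1)) u m where
  posS := by
    intro z hz w hw
    rcases z with _ | ⟨b, v⟩
    · exact absurd hw (by simp [P0])
    · cases b
      · exact hw
      · simp only [P0, Bool.and_eq_true, decide_eq_true_eq] at hw
        exact (hA v).2 ⟨w, hw⟩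
  negS := by
    intro z hz w hw
    rcases z with _ | ⟨b, v⟩
    · rfl
    · cases b
      · show X v = false
        simpa [Q0] using hw
      · simp only [Q0, Bool.and_eq_true, decide_eq_true_eq] at hw
        have h1 := (hC (av u v)).2 ⟨w, hw⟩
        rw [h v (by simpa using hz)] at h1
        show A v = false
        simpa using h1
  posC := by
    intro z hz hO
    rcases z with _ | ⟨b, v⟩
    · exact absurd hO (by simp [Pa76659.join])
    · cases b
      · exact ⟨[], by simp, hO⟩
      · obtain ⟨y, hy1, hy2⟩ := (hA v).1 hO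
        refine ⟨y, ?_, ?_⟩
        · rw [hy1, Polynomial.eval_add]
          have := eval_mono q1 (show v.length ≤ u.length + m by
            simp only [List.length_cons] at hz; omega)
          omega
        · simp only [P0, hy1, hy2, decide_true, Bool.and_true]
  negC := by
    intro z hz hO
    rcases z with _ | ⟨b, v⟩
    · exact ⟨[], by simp, rfl⟩
    · cases b
      · refine ⟨[], by simp, ?_⟩
        have : X v = false := hO
        simp [Q0, this]
      · have h1 : A v = false := hO
        have h2 := h v (by simpa using hz)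
        rw [h1] at h2
        obtain ⟨y, hy1, hy2⟩ := (hC (av u v)).1 h2
        refine ⟨y, ?_, ?_⟩
        · rw [hy1, Polynomial.eval_add]
          have h3 := av_length u v
          have h4 := eval_mono q2 (show (av u v).length ≤ 2 * (u.length + m) + 1 by
            simp only [List.length_cons] at hz; omega)
          simp only [Polynomial.eval_comp, Polynomial.eval_add, Polynomial.eval_mul,
            Polynomial.eval_X, Polynomial.eval_ofNat, Polynomial.eval_one]
          omega
        · simp only [Q0, hy1, hy2, decide_true, Bool.and_true]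

/-- From the oracle to a deterministic machine. -/
theorem good1 {O B : Lang} {P Q : Str → Str → Str → Bool} {s : Polynomial ℕ} {u : Str}
    {M : Prog} {p : Polynomial ℕ} (hB : ∀ x, B x = accepts O M (inp2 x []) (p.eval x.length))
    {m' : ℕ} (h : Good O P Q s u (m' + p.eval m')) :
    Good B (fun u z w => crt P Q M p true u z [] w) (fun u z w => crt P Q M p false u z [] w)
      ((sb s).comp (Polynomial.X + p)) u m' := by
  have hm : ∀ z : Str, z.length ≤ m' → z.length + ([] : Str).length + p.eval z.length ≤
      m' + p.eval m' := by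
    intro z hz
    have := eval_mono p hz
    simp only [List.length_nil]
    omega
  have hbd : (sb s).eval (u.length + (m' + p.eval m')) ≤
      ((sb s).comp (Polynomial.X + p)).eval (u.length + m') := by
    rw [Polynomial.eval_comp]
    refine eval_mono _ ?_
    rw [Polynomial.eval_add, Polynomial.eval_X]
    have := eval_mono p (show m' ≤ u.length + m' by omega)
    omega
  constructor
  · intro z hz w hw
    rw [hB]
    exact h.sound (hm z hz) hw
  · intro z hz w hw
    rw [hB]
    exact h.sound (hm z hz) hw
  · intro z hz hO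
    obtain ⟨w, h1, h2⟩ := h.complete M p (x := z) (y := []) (hm z hz)
    rw [← hB, hO] at h2
    exact ⟨w, h1.trans hbd, h2⟩
  · intro z hz hO
    obtain ⟨w, h1, h2⟩ := h.complete M p (x := z) (y := []) (hm z hz)
    rw [← hB, hO] at h2
    exact ⟨w, h1.trans hbd, h2⟩

theorem PB3_crt {X : Lang} {P Q : Str → Str → Str → Bool} (hP : PB3 X P) (hQ : PB3 X Q)
    (M : Prog) (p : Polynomial ℕ) (b : Bool) : PB3 X (fun u z w => crt P Q M p b u z [] w) :=
  PolyB.crt hP hQ M p b (PolyC.var (by simp)) (PolyC.var (by simp)) PolyC.nil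
    (PolyC.var (by simp))

open Classical in
/-- From a deterministic machine to a nondeterministic one: the translated language. -/
noncomputable def T1 (P Q : Str → Str → Str → Bool) (M : Prog) (p q s : Polynomial ℕ) : Lang :=
  fun c => decide (∃ w : Str, w.length ≤ s.eval c.length ∧
    ((fst w).length = q.eval (snd c).length ∧
      crt P Q M p true (fst c) (snd c) (fst w) (snd w) = true))

theorem T1_mem {X : Lang} {P Q : Str → Str → Str → Bool} (hP : PB3 X P) (hQ : PB3 X Q) (M : Prog)
    (p q s : Polynomial ℕ) : T1 P Q M p q s ∈ NPO X := by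
  have hc : PolyC (fun _ : Str × Str => X) (fun _ => True) [fun p => p.1, fun p => p.2]
    (fun p => p.1) := PolyC.var (by simp)
  have hw : PolyC (fun _ : Str × Str => X) (fun _ => True) [fun p => p.1, fun p => p.2]
    (fun p => p.2) := PolyC.var (by simp)
  have h1 := PolyB.natEq (PolyN.length (PolyC.fst hw)) ((PolyN.length (PolyC.snd hc)).poly q)
  have h2 := PolyB.crt hP hQ M p true (PolyC.fst hc) (PolyC.snd hc) (PolyC.fst hw) (PolyC.snd hw)
  refine mem_NPO_le s (h1.and h2) (fun c => ?_)
  unfold T1
  simp only [decide_eq_true_eq, Bool.and_eq_true]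

theorem T1_eq {O B : Lang} {P Q : Str → Str → Str → Bool} {s : Polynomial ℕ} {u z : Str}
    {M : Prog} {p q : Polynomial ℕ}
    (hB : B z = true ↔ ∃ y : Str, y.length = q.eval z.length ∧
      accepts O M (inp2 z y) (p.eval z.length) = true)
    (h : Good O P Q s u (z.length + q.eval z.length + p.eval z.length)) :
    T1 P Q M p q (2 * q + 1 + (sb s).comp (Polynomial.X + (Polynomial.X + q + p))) (pr u z) = B z := by
  rw [Bool.eq_iff_iff]
  unfold T1
  simp only [decide_eq_true_eq, fst_pr, snd_pr]
  rw [hB]
  constructor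
  · rintro ⟨w, -, h1, h2⟩
    exact ⟨fst w, h1, h.sound (by omega) h2⟩
  · rintro ⟨y, h1, h2⟩
    obtain ⟨w, h3, h4⟩ := h.complete M p (x := z) (y := y) (by omega)
    rw [h2] at h4
    refine ⟨pr y w, ?_, by rw [fst_pr]; exact h1, by rw [fst_pr, snd_pr]; exact h4⟩
    rw [pr_length, h1]
    have h5 : z.length ≤ (pr u z).length := by rw [pr_length]; omega
    have h6 : u.length ≤ (pr u z).length := by rw [pr_length]; omega
    simp only [Polynomial.eval_add, Polynomial.eval_mul, Polynomial.eval_ofNat,
      Polynomial.eval_one, Polynomial.eval_comp, Polynomial.eval_X]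
    have h7 := eval_mono q h5
    have h8 := eval_mono p h5
    have h9 := eval_mono (sb s) (show u.length + (z.length + q.eval z.length + p.eval z.length) ≤
      (pr u z).length + ((pr u z).length + q.eval (pr u z).length + p.eval (pr u z).length) by omega)
    omega

open Classical in
/-- The next level: the oracle is a translated language. -/
noncomputable def T2 (B' : Lang) (M : Prog) (p q : Polynomial ℕ) : Lang :=
  fun c => decide (∃ y : Str, y.length = q.eval (snd c).length ∧
    accepts (fun v => B' (pr (fst c) v)) M (inp2 (snd c) y) (p.eval (snd c).length) = true)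

theorem T2_mem (B' : Lang) (M : Prog) (p q : Polynomial ℕ) : T2 B' M p q ∈ NPO B' := by
  have hc : PolyC (fun _ : Str × Str => B') (fun _ => True) [fun p => p.1, fun p => p.2]
    (fun p => p.1) := PolyC.var (by simp)
  have hw : PolyC (fun _ : Str × Str => B') (fun _ => True) [fun p => p.1, fun p => p.2]
    (fun p => p.2) := PolyC.var (by simp)
  have h1 := PolyB.natEq (PolyN.length hw) ((PolyN.length (PolyC.snd hc)).poly q)
  have h2 : PolyB (fun _ : Str × Str => B') (fun _ => True) [fun p => p.1, fun p => p.2]
      (fun a => accepts (fun v => B' (pr (fst a.1) v)) M (inp2 (snd a.1) a.2)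
        (p.eval (snd a.1).length)) := by
    refine PolyB.accepts (α := Str × Str) (orc := fun _ => B') (D := fun _ => True)
      (ctx := [fun p => p.1, fun p => p.2]) M (fun a v => B' (pr (fst a.1) v)) (fun a => snd a.1)
      (fun a => a.2) (fun a => p.eval (snd a.1).length) ?_ (PolyC.snd hc) hw
      ((PolyN.length (PolyC.snd hc)).poly p)
    have h5 : PolyC (fun _ : (Str × Str) × Str => B') (fun _ => True)
        (PC.lift [fun p => p.1, fun p => p.2] ++ [fun p => p.2]) (fun p => fst p.1.1) :=
      ((PolyC.fst hc).lift (D' := fun _ : (Str × Str) × Str => True)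
        (fun _ _ => trivial)).weakenRight _
    have h6 : PolyC (fun _ : (Str × Str) × Str => B') (fun _ => True)
        (PC.lift [fun p => p.1, fun p => p.2] ++ [fun p => p.2]) (fun p => p.2) :=
      PolyC.var (List.mem_append_right _ List.mem_cons_self)
    have h7 : PolyC (fun _ : (Str × Str) × Str => B') (fun _ => True)
        (PC.lift [fun p => p.1, fun p => p.2] ++ [fun p => p.2])
        (fun p => [B' (pr (fst p.1.1) p.2)]) := PolyC.query (PolyC.pr h5 h6)
    exact h7
  refine mem_NPO_le q (h1.and h2) (fun c => ?_)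
  unfold T2
  simp only [decide_eq_true_eq, Bool.and_eq_true]
  constructor
  · rintro ⟨y, h3, h4⟩
    refine ⟨y, ?_, h3, h4⟩
    rw [h3]
    exact eval_mono q (snd_length_le c)
  · rintro ⟨y, -, h3, h4⟩
    exact ⟨y, h3, h4⟩

theorem T2_eq {O B B' : Lang} {u z : Str} {M : Prog} {p q : Polynomial ℕ}
    (hB : B z = true ↔ ∃ y : Str, y.length = q.eval z.length ∧
      accepts O M (inp2 z y) (p.eval z.length) = true)
    (h : ∀ v : Str, v.length ≤ z.length + q.eval z.length + p.eval z.length → B' (pr u v) = O v) :
    T2 B' M p q (pr u z) = B z := by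
  rw [Bool.eq_iff_iff]
  unfold T2
  simp only [decide_eq_true_eq, fst_pr, snd_pr]
  rw [hB]
  have key : ∀ y : Str, y.length = q.eval z.length →
      accepts (fun v => B' (pr u v)) M (inp2 z y) (p.eval z.length) =
        accepts O M (inp2 z y) (p.eval z.length) := by
    intro y hy
    refine accepts_congr ?_
    intro v hv
    exact h v (by omega)
  constructor
  · rintro ⟨y, h1, h2⟩
    rw [key y h1] at h2
    exact ⟨y, h1, h2⟩
  · rintro ⟨y, h1, h2⟩
    rw [← key y h1] at h2
    exact ⟨y, h1, h2⟩

open Classical in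
/-- Incorrect advice. -/
noncomputable def Inc (A C : Lang) : Lang := fun c =>
  decide (∃ v : Str, v.length < (fst c).length ∧ C (av (snd c) v) = A v)

theorem Inc_mem (A C : Lang) : Inc A C ∈ NPO (join A C) := by
  have hc : PolyC (fun _ : Str × Str => join A C) (fun _ => True) [fun p => p.1, fun p => p.2]
    (fun p => p.1) := PolyC.var (by simp)
  have hv : PolyC (fun _ : Str × Str => join A C) (fun _ => True) [fun p => p.1, fun p => p.2]
    (fun p => p.2) := PolyC.var (by simp)
  have h1 := PolyB.lt (PolyN.length hv) (PolyN.length (PolyC.fst hc))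
  have h2 : PolyB (fun _ : Str × Str => join A C) (fun _ => True) [fun p => p.1, fun p => p.2]
      (fun a => C (av (snd a.1) a.2)) := by
    have : PolyC (fun _ : Str × Str => join A C) (fun _ => True) [fun p => p.1, fun p => p.2]
      (fun a => [join A C (true :: av (snd a.1) a.2)]) :=
      PolyC.query (PolyC.cons true (PolyC.pr hv (PolyC.nth (PolyC.snd hc) (PolyN.length hv))))
    exact this
  have h3 : PolyB (fun _ : Str × Str => join A C) (fun _ => True) [fun p => p.1, fun p => p.2]
      (fun a => A a.2) := by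
    have : PolyC (fun _ : Str × Str => join A C) (fun _ => True) [fun p => p.1, fun p => p.2]
      (fun a => [join A C (false :: a.2)]) := PolyC.query (PolyC.cons false hv)
    exact this
  refine mem_NPO_le Polynomial.X (h1.and (PolyB.beq h2 h3)) (fun c => ?_)
  unfold Inc
  simp only [decide_eq_true_eq, Bool.and_eq_true, beq_iff_eq, Polynomial.eval_X]
  constructor
  · rintro ⟨v, h4, h5⟩
    exact ⟨v, h4.le.trans (fst_length_le c), h4, h5⟩
  · rintro ⟨v, -, h4, h5⟩
    exact ⟨v, h4, h5⟩

theorem Inc_false {A C : Lang} {u : Str} {m : ℕ} : Inc A C (pr (una m) u) = false ↔ Corr A C u m := by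
  unfold Inc Corr
  rw [decide_eq_false_iff_not]
  simp only [fst_pr, snd_pr, un_length, not_exists, not_and]
  constructor
  · intro h v hv
    have h1 := h v hv
    cases h2 : C (av u v) <;> cases h3 : A v <;> simp_all
  · intro h v hv h1
    rw [h v hv] at h1
    cases h3 : A v <;> simp_all

theorem left_PO (X Z : Lang) : X ∈ PO (join X Z) := by
  refine mem_PO ?_
  have : PolyC (fun _ : Str => join X Z) (fun _ => True) [fun x => x]
      (fun x => [join X Z (false :: x)]) := PolyC.query (PolyC.cons false (PolyC.var (by simp)))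
  exact this

theorem right_PO (X Z : Lang) : Z ∈ PO (join X Z) := by
  refine mem_PO ?_
  have : PolyC (fun _ : Str => join X Z) (fun _ => True) [fun x => x]
      (fun x => [join X Z (true :: x)]) := PolyC.query (PolyC.cons true (PolyC.var (by simp)))
  exact this

end Pool.Agent.Lib.Pa76659G.PC

namespace Pool.Agent.Lib.Pa76659G

open PC
open Pool.Agent.Lib.Pa76659

/-- (P3) -/
theorem yap {X A : Lang} (hA : A ∈ NPO X) (hc : (fun x => !(A x)) ∈ NPPoly X) :
    Sig (join X A) 3 ⊆ Sig X 3 := by
  obtain ⟨C, hC, h, r, hr, hAC⟩ := hc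
  obtain ⟨V1, q1, hV1, hA1⟩ := exists_of_NPO hA
  obtain ⟨V2, q2, hV2, hC2⟩ := exists_of_NPO hC
  rintro L ⟨B2, ⟨B1, ⟨B0, hB0, hB1⟩, hB2⟩, hL⟩
  obtain ⟨M0, p0, hM0⟩ := hB0
  obtain ⟨M1, p1, k1, hM1⟩ := hB1
  obtain ⟨M2, p2, k2, hM2⟩ := hB2
  obtain ⟨M3, p3, k3, hM3⟩ := hL
  set P := P0 X V1 q1 with hPdef
  set Q := Q0 X V2 q2 with hQdef
  have hP : PB3 X P := PB3_P0 hV1
  have hQ : PB3 X Q := PB3_Q0 hV2
  set s0 : Polynomial ℕ := q1 + q2.comp (2 * Polynomial.X + 1) with hs0
  set P' : Str → Str → Str → Bool := fun u z w => crt P Q M0 p0 true u z [] w with hP'def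
  set Q' : Str → Str → Str → Bool := fun u z w => crt P Q M0 p0 false u z [] w with hQ'def
  have hP' : PB3 X P' := PB3_crt hP hQ M0 p0 true
  have hQ' : PB3 X Q' := PB3_crt hP hQ M0 p0 false
  set s1 : Polynomial ℕ := (sb s0).comp (Polynomial.X + p0) with hs1
  set s2 : Polynomial ℕ := 2 * k1 + 1 + (sb s1).comp (Polynomial.X + (Polynomial.X + k1 + p1)) with hs2
  set B1' := T1 P' Q' M1 p1 k1 s2 with hB1'
  set B2' := T2 B1' M2 p2 k2 with hB2'
  set F1 : Polynomial ℕ := (Polynomial.X + p0).comp (Polynomial.X + k1 + p1) with hF1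
  set F2 : Polynomial ℕ := F1.comp (Polynomial.X + k2 + p2) with hF2
  set F3 : Polynomial ℕ := F2.comp (Polynomial.X + k3 + p3) with hF3
  -- correctness of the translations
  have g1 : ∀ u m, Corr A C u m → ∀ m', m' + p0.eval m' ≤ m → Good B0 P' Q' s1 u m' := by
    intro u m hu m' hm'
    refine good1 (O := join X A) (fun x => ?_) ?_
    · rw [(hM0 x).2, inp_eq]
    · exact good0 hA1 hC2 (fun v hv => hu v (by omega))
  have g2 : ∀ u m, Corr A C u m → ∀ z : Str, F1.eval z.length ≤ m → B1' (pr u z) = B1 z := by
    intro u m hu z hz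
    refine T1_eq (hM1 z).2 (g1 u m hu _ ?_)
    simpa [hF1] using hz
  have g3 : ∀ u m, Corr A C u m → ∀ z : Str, F2.eval z.length ≤ m → B2' (pr u z) = B2 z := by
    intro u m hu z hz
    refine T2_eq (hM2 z).2 (fun v hv => g2 u m hu v ?_)
    refine (eval_mono F1 hv).trans ?_
    simpa [hF2] using hz
  -- classes
  have c1 : join B1' (join A C) ∈ NPO X := NPO_join (T1_mem hP' hQ' _ _ _ _) (NPO_join hA hC)
  have c2 : join B2' (Inc A C) ∈ NPO (join B1' (join A C)) := by
    refine NPO_join ?_ ?_
    · exact NPO_subset (left_PO _ _) (T2_mem _ _ _ _)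
    · exact NPO_subset (right_PO _ _) (Inc_mem A C)
  refine ⟨join B2' (Inc A C), ⟨join B1' (join A C), ⟨X, query_mem X, c1⟩, c2⟩, ?_⟩
  -- the last level
  set D := join B2' (Inc A C) with hD
  have hx : PolyC (fun _ : Str × Str => D) (fun _ => True) [fun p => p.1, fun p => p.2]
    (fun p => p.1) := PolyC.var (by simp)
  have hw : PolyC (fun _ : Str × Str => D) (fun _ => True) [fun p => p.1, fun p => p.2]
    (fun p => p.2) := PolyC.var (by simp)
  have e1 := PolyB.natEq (PolyN.length (PolyC.snd hw)) ((PolyN.length hx).poly k3)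
  have e2 : PolyB (fun _ : Str × Str => D) (fun _ => True) [fun p => p.1, fun p => p.2]
      (fun a => Inc A C (pr (una (F3.eval a.1.length)) (fst a.2))) := by
    have : PolyC (fun _ : Str × Str => D) (fun _ => True) [fun p => p.1, fun p => p.2]
        (fun a => [D (true :: pr (una (F3.eval a.1.length)) (fst a.2))]) :=
      PolyC.query (PolyC.cons true (PolyC.pr ((PolyN.length hx).poly F3) (PolyC.fst hw)))
    exact this
  have e3 : PolyB (fun _ : Str × Str => D) (fun _ => True) [fun p => p.1, fun p => p.2]
      (fun a => accepts (fun v => B2' (pr (fst a.2) v)) M3 (inp2 a.1 (snd a.2))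
        (p3.eval a.1.length)) := by
    refine PolyB.accepts (α := Str × Str) (orc := fun _ => D) (D := fun _ => True)
      (ctx := [fun p => p.1, fun p => p.2]) M3 (fun a v => B2' (pr (fst a.2) v)) (fun a => a.1)
      (fun a => snd a.2) (fun a => p3.eval a.1.length) ?_ hx (PolyC.snd hw)
      ((PolyN.length hx).poly p3)
    have h5 : PolyC (fun _ : (Str × Str) × Str => D) (fun _ => True)
        (PC.lift [fun p => p.1, fun p => p.2] ++ [fun p => p.2]) (fun p => fst p.1.2) :=
      ((PolyC.fst hw).lift (D' := fun _ : (Str × Str) × Str => True)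
        (fun _ _ => trivial)).weakenRight _
    have h6 : PolyC (fun _ : (Str × Str) × Str => D) (fun _ => True)
        (PC.lift [fun p => p.1, fun p => p.2] ++ [fun p => p.2]) (fun p => p.2) :=
      PolyC.var (List.mem_append_right _ List.mem_cons_self)
    have h7 : PolyC (fun _ : (Str × Str) × Str => D) (fun _ => True)
        (PC.lift [fun p => p.1, fun p => p.2] ++ [fun p => p.2])
        (fun p => [D (false :: pr (fst p.1.2) p.2)]) :=
      PolyC.query (PolyC.cons false (PolyC.pr h5 h6))
    exact h7
  set G : Polynomial ℕ := 2 * (2 * ((F3 + 1) * r.comp F3) + (F3 + 1)) + 1 + k3 with hG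
  refine mem_NPO_le G ((e1.and e2.not).and e3) (fun x => ?_)
  rw [(hM3 x).2]
  have last : ∀ u y : Str, Corr A C u (F3.eval x.length) → y.length = k3.eval x.length →
      accepts (fun v => B2' (pr u v)) M3 (inp2 x y) (p3.eval x.length) =
        accepts B2 M3 (inp2 x y) (p3.eval x.length) := by
    intro u y hu hy
    refine accepts_congr ?_
    intro v hv
    refine g3 u _ hu v ?_
    rw [hy] at hv
    refine (eval_mono F2 hv).trans ?_
    simp [hF3]
  constructor
  · rintro ⟨y, hy1, hy2⟩
    set m := F3.eval x.length with hm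
    set u := lenc ((List.range (m + 1)).map h) with hu
    have hnth : ∀ n ≤ m, nth u n = h n := by
      intro n hn
      rw [hu, nth_lenc, List.getD_eq_getElem _ _ (by simp; omega)]
      simp
    have hcor : Corr A C u m := by
      intro v hv
      rw [av, hnth _ hv.le]
      exact (hAC v).symm
    refine ⟨pr u y, ?_, ?_⟩
    · rw [pr_length, hy1, hu, lenc_length]
      have h1 : total ((List.range (m + 1)).map h) ≤ (m + 1) * r.eval m := by
        refine total_map_range h _ (m + 1) (fun k hk => (hr k).trans (eval_mono r (by omega)))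
      simp only [hG, Polynomial.eval_add, Polynomial.eval_mul, Polynomial.eval_ofNat,
        Polynomial.eval_one, Polynomial.eval_comp, List.length_map, List.length_range]
      rw [← hm]
      omega
    · simp only [Bool.and_eq_true, Bool.not_eq_true', decide_eq_true_eq]
      rw [fst_pr, snd_pr]
      refine ⟨⟨hy1, Inc_false.2 hcor⟩, ?_⟩
      rw [last u y hcor hy1]
      exact hy2
  · rintro ⟨w, -, hv⟩
    simp only [Bool.and_eq_true, Bool.not_eq_true', decide_eq_true_eq] at hv
    obtain ⟨⟨h1, h2⟩, h3⟩ := hv
    refine ⟨snd w, h1, ?_⟩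
    rw [last (fst w) (snd w) (Inc_false.1 h2) h1] at h3
    exact h3

end Pool.Agent.Lib.Pa76659G
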