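import Pool.Agent.Lib.Pa76659G.PhpMem
import Pool.Agent.Lib.Pa76659G.Yap
import Pool.Agent.Lib.Pa76659G.Final

set_option autoImplicit false

/-!
The language of the vertices which are not alive: it is always in `L_3`.
-/

namespace Pool.Agent.Lib.Pa76659G.T3

open Pool.Agent.Lib.Pa76659 PC

/-! ### closure properties of `NP` -/

theorem NPO_and {O L1 L2 : Lang} (h1 : L1 ∈ NPO O) (h2 : L2 ∈ NPO O) :
    (fun x => L1 x && L2 x) ∈ NPO O := by
  obtain ⟨V1, q1, hV1, hL1⟩ := exists_of_NPO h1
  obtain ⟨V2, q2, hV2, hL2⟩ := exists_of_NPO h2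
  have hx : PolyC (fun _ : Str × Str => O) (fun _ => True) [fun p => p.1, fun p => p.2]
    (fun p => p.1) := PolyC.var (by simp)
  have hy : PolyC (fun _ : Str × Str => O) (fun _ => True) [fun p => p.1, fun p => p.2]
    (fun p => p.2) := PolyC.var (by simp)
  have a1 := PolyB.natEq (PolyN.length (PolyC.fst hy)) ((PolyN.length hx).poly q1)
  have a2 := PolyB.arg2 hV1 hx (PolyC.fst hy)
  have b1 := PolyB.natEq (PolyN.length (PolyC.snd hy)) ((PolyN.length hx).poly q2)
  have b2 := PolyB.arg2 hV2 hx (PolyC.snd hy)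
  refine mem_NPO_le (2 * q1 + 1 + q2) ((a1.and a2).and (b1.and b2)) (fun x => ?_)
  simp only [Bool.and_eq_true, decide_eq_true_eq, Polynomial.eval_add, Polynomial.eval_mul,
    Polynomial.eval_ofNat, Polynomial.eval_one]
  rw [hL1, hL2]
  constructor
  · rintro ⟨⟨y1, h3, h4⟩, ⟨y2, h5, h6⟩⟩
    refine ⟨pr y1 y2, ?_, ?_⟩
    · rw [pr_length]; omega
    · rw [fst_pr, snd_pr]
      exact ⟨⟨h3, h4⟩, ⟨h5, h6⟩⟩
  · rintro ⟨y, -, ⟨h3, h4⟩, ⟨h5, h6⟩⟩
    exact ⟨⟨fst y, h3, h4⟩, ⟨snd y, h5, h6⟩⟩

theorem NPO_or {O L1 L2 : Lang} (h1 : L1 ∈ NPO O) (h2 : L2 ∈ NPO O) :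
    (fun x => L1 x || L2 x) ∈ NPO O := by
  obtain ⟨V1, q1, hV1, hL1⟩ := exists_of_NPO h1
  obtain ⟨V2, q2, hV2, hL2⟩ := exists_of_NPO h2
  have hx : PolyC (fun _ : Str × Str => O) (fun _ => True) [fun p => p.1, fun p => p.2]
    (fun p => p.1) := PolyC.var (by simp)
  have hy : PolyC (fun _ : Str × Str => O) (fun _ => True) [fun p => p.1, fun p => p.2]
    (fun p => p.2) := PolyC.var (by simp)
  have a1 := PolyB.natEq (PolyN.length (PolyC.fst hy)) ((PolyN.length hx).poly q1)
  have a2 := PolyB.arg2 hV1 hx (PolyC.fst hy)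
  have b1 := PolyB.natEq (PolyN.length (PolyC.snd hy)) ((PolyN.length hx).poly q2)
  have b2 := PolyB.arg2 hV2 hx (PolyC.snd hy)
  refine mem_NPO_le (2 * q1 + 1 + q2) ((a1.and a2).or (b1.and b2)) (fun x => ?_)
  simp only [Bool.or_eq_true, Bool.and_eq_true, decide_eq_true_eq, Polynomial.eval_add,
    Polynomial.eval_mul, Polynomial.eval_ofNat, Polynomial.eval_one]
  rw [hL1, hL2]
  constructor
  · rintro (⟨y, h3, h4⟩ | ⟨y, h3, h4⟩)
    · refine ⟨pr y [], ?_, Or.inl ?_⟩
      · rw [pr_length, List.length_nil]; omega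
      · rw [fst_pr]; exact ⟨h3, h4⟩
    · refine ⟨pr [] y, ?_, Or.inr ?_⟩
      · rw [pr_length, List.length_nil]; omega
      · rw [snd_pr]; exact ⟨h3, h4⟩
  · rintro ⟨y, -, ⟨h3, h4⟩ | ⟨h3, h4⟩⟩
    · exact Or.inl ⟨_, h3, h4⟩
    · exact Or.inr ⟨_, h3, h4⟩

theorem NPO_ex {O C L : Lang} (hC : C ∈ NPO O) (q : Polynomial ℕ)
    (h : ∀ x, L x = true ↔ ∃ y : Str, y.length ≤ q.eval x.length ∧ C (pr x y) = true) :
    L ∈ NPO O := by
  obtain ⟨V, q1, hV, hL⟩ := exists_of_NPO hC
  have hx : PolyC (fun _ : Str × Str => O) (fun _ => True) [fun p => p.1, fun p => p.2]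
    (fun p => p.1) := PolyC.var (by simp)
  have hy : PolyC (fun _ : Str × Str => O) (fun _ => True) [fun p => p.1, fun p => p.2]
    (fun p => p.2) := PolyC.var (by simp)
  have hp := PolyC.pr hx (PolyC.fst hy)
  have a0 := PolyB.lt (PolyN.length (PolyC.fst hy)) ((PolyN.length hx).poly (q + 1))
  have a1 := PolyB.natEq (PolyN.length (PolyC.snd hy)) ((PolyN.length hp).poly q1)
  have a2 := PolyB.arg2 hV hp (PolyC.snd hy)
  refine mem_NPO_le (2 * q + 1 + q1.comp (2 * Polynomial.X + 1 + q)) (a0.and (a1.and a2))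
    (fun x => ?_)
  rw [h]
  simp only [Bool.and_eq_true, decide_eq_true_eq, Polynomial.eval_add, Polynomial.eval_mul,
    Polynomial.eval_ofNat, Polynomial.eval_one, Polynomial.eval_comp, Polynomial.eval_X]
  constructor
  · rintro ⟨y, h3, h4⟩
    obtain ⟨w, h5, h6⟩ := (hL _).1 h4
    refine ⟨pr y w, ?_, ?_⟩
    · rw [pr_length, h5]
      have h7 : q1.eval (pr x y).length ≤ q1.eval (2 * x.length + 1 + q.eval x.length) := by
        apply eval_mono
        rw [pr_length]
        omega
      omega
    · rw [fst_pr, snd_pr]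
      exact ⟨by omega, h5, h6⟩
  · rintro ⟨y, -, h3, h4, h5⟩
    exact ⟨fst y, by omega, (hL _).2 ⟨snd y, h4, h5⟩⟩

/-! ### the tournament and the witnesses -/

open Classical in
/-- the first string of the pair beats the second one -/
noncomputable def bt (X : Lang) : Lang := fun p =>
  decide ((fst p).length = (snd p).length ∧ fst p ≠ snd p ∧ Beats X (fst p) (snd p))

theorem bt_iff' (X : Lang) (p : Str) :
    bt X p = true ↔ (fst p).length = (snd p).length ∧ fst p ≠ snd p ∧ Beats X (fst p) (snd p) := by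
  simp only [bt, decide_eq_true_eq]

theorem bt_iff (X : Lang) (u v : Str) :
    bt X (pr u v) = true ↔ u.length = v.length ∧ u ≠ v ∧ Beats X u v := by
  rw [bt_iff', fst_pr, snd_pr]

open Classical in
/-- `y` has a witness -/
noncomputable def vt (X : Lang) : Lang := fun y =>
  decide (∃ w : Str, w.length = y.length ∧ X (true :: pr [false] (pr y w)) = true)

theorem vt_iff (X : Lang) (y : Str) : vt X y = true ↔
    ∃ w : Str, w.length = y.length ∧ X (true :: pr [false] (pr y w)) = true := by
  simp only [vt, decide_eq_true_eq]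

open Classical in
/-- `y` has a witness or it is on a cycle of length two or three -/
noncomputable def vp (X : Lang) : Lang := fun y =>
  decide (vt X y = true ∨ (∃ u : Str, bt X (pr y u) = true ∧ bt X (pr u y) = true) ∨
    ∃ u w : Str, bt X (pr y u) = true ∧ bt X (pr u w) = true ∧ bt X (pr w y) = true)

theorem vp_iff (X : Lang) (y : Str) : vp X y = true ↔
    vt X y = true ∨ (∃ u : Str, bt X (pr y u) = true ∧ bt X (pr u y) = true) ∨
    ∃ u w : Str, bt X (pr y u) = true ∧ bt X (pr u w) = true ∧ bt X (pr w y) = true := by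
  simp only [vp, decide_eq_true_eq]

open Classical in
/-- `y` is dead: it is in `vp`, or it beats an element of `vp` -/
noncomputable def topL (X : Lang) : Lang := fun y =>
  decide (vp X y = true ∨ ∃ u : Str, vp X u = true ∧ bt X (pr y u) = true)

theorem topL_iff (X : Lang) (y : Str) : topL X y = true ↔
    vp X y = true ∨ ∃ u : Str, vp X u = true ∧ bt X (pr y u) = true := by
  simp only [topL, decide_eq_true_eq]

theorem bt_mem (X : Lang) : bt X ∈ NPO X := by
  have hp : PolyC (fun _ : Str × Str => X) (fun _ => True) [fun p => p.1, fun p => p.2]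
    (fun p => p.1) := PolyC.var (by simp)
  have hw : PolyC (fun _ : Str × Str => X) (fun _ => True) [fun p => p.1, fun p => p.2]
    (fun p => p.2) := PolyC.var (by simp)
  have hu := PolyC.fst hp
  have hv := PolyC.snd hp
  have hz := PolyC.fst hw
  have hz' := PolyC.snd hw
  have h0 : PolyC (fun _ : Str × Str => X) (fun _ => True) [fun p => p.1, fun p => p.2]
      (fun p => List.replicate (snd p.1).length false) := by
    refine (PolyC.map_range (PolyN.length hv) (φ := fun _ => false) (PolyB.const false)).congr ?_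
    intro p _
    simp
  have e1 := PolyB.natEq (PolyN.length hu) (PolyN.length hv)
  have e2 := (PolyB.strEq hu hv).not
  have e3 := PolyB.natEq (PolyN.length hz) (PolyN.length hv)
  have e4 := PolyB.strEq (gv_polyC hu hv hz) h0
  have e5 := PolyB.natEq (PolyN.length hz') (PolyN.length hv)
  have e6 := (PolyB.strEq hz hz').not
  have e7 := PolyB.strEq (gv_polyC hv hu hz) (gv_polyC hv hu hz')
  refine mem_NPO_le (3 * Polynomial.X + 1)
    (((e1.and e2).and (e3.and (e4.or (e5.and (e6.and e7)))))) (fun p => ?_)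
  have hl := snd_length_le p
  rw [bt_iff']
  unfold Beats
  simp only [Bool.and_eq_true, Bool.or_eq_true, decide_eq_true_eq, Bool.not_eq_true',
    decide_eq_false_iff_not, Polynomial.eval_add, Polynomial.eval_mul, Polynomial.eval_X,
    Polynomial.eval_ofNat, Polynomial.eval_one]
  constructor
  · rintro ⟨h1, h2, h3 | h3⟩
    · obtain ⟨z, h4, h5⟩ := h3
      refine ⟨pr z [], ?_, ?_⟩
      · simp only [pr_length, List.length_nil]
        omega
      · simp only [fst_pr]
        exact ⟨⟨h1, h2⟩, h4, Or.inl h5⟩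
    · obtain ⟨z, z', h4, h5, h6, h7⟩ := h3
      refine ⟨pr z z', ?_, ?_⟩
      · simp only [pr_length]
        omega
      · simp only [fst_pr, snd_pr]
        exact ⟨⟨h1, h2⟩, h4, Or.inr ⟨h5, h6, h7⟩⟩
  · rintro ⟨w, -, ⟨h1, h2⟩, h3, h4 | h4⟩
    · exact ⟨h1, h2, Or.inl ⟨fst w, h3, h4⟩⟩
    · exact ⟨h1, h2, Or.inr ⟨fst w, snd w, h3, h4⟩⟩

theorem vt_mem (X : Lang) : vt X ∈ NPO X := by
  have hx : PolyC (fun _ : Str × Str => X) (fun _ => True) [fun p => p.1, fun p => p.2]
    (fun p => p.1) := PolyC.var (by simp)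
  have hy : PolyC (fun _ : Str × Str => X) (fun _ => True) [fun p => p.1, fun p => p.2]
    (fun p => p.2) := PolyC.var (by simp)
  have e2 : PolyB (fun _ : Str × Str => X) (fun _ => True) [fun p => p.1, fun p => p.2]
    (fun p => X (true :: pr [false] (pr p.1 p.2))) :=
    PolyC.query (PolyC.cons true (PolyC.pr (PolyC.const [false]) (PolyC.pr hx hy)))
  refine mem_NPO Polynomial.X e2 (fun x => ?_)
  rw [vt_iff, Polynomial.eval_X]

theorem vp_mem (X : Lang) : vp X ∈ NPO X := by
  have hx : PolyC (fun _ : Str => X) (fun _ => True) [fun x => x] (fun x => x) :=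
    PolyC.var (by simp)
  have h1 := PolyC.fst hx
  have h2 := PolyC.snd hx
  have h3 := PolyC.fst h2
  have h4 := PolyC.snd h2
  have c1 := NPO_comp (bt_mem X) (PolyC.pr h1 h2)
  have c2 := NPO_comp (bt_mem X) (PolyC.pr h2 h1)
  have d1 := NPO_comp (bt_mem X) (PolyC.pr h1 h3)
  have d2 := NPO_comp (bt_mem X) (PolyC.pr h3 h4)
  have d3 := NPO_comp (bt_mem X) (PolyC.pr h4 h1)
  classical
  have e1 : (fun y => decide (∃ u : Str, bt X (pr y u) = true ∧ bt X (pr u y) = true)) ∈ NPO X := by
    refine NPO_ex (NPO_and c1 c2) Polynomial.X (fun y => ?_)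
    simp only [decide_eq_true_eq, Bool.and_eq_true, fst_pr, snd_pr, Polynomial.eval_X]
    constructor
    · rintro ⟨u, h5, h6⟩
      exact ⟨u, ((bt_iff X _ _).1 h5).1.ge, h5, h6⟩
    · rintro ⟨u, -, h5, h6⟩
      exact ⟨u, h5, h6⟩
  have e2 : (fun y => decide (∃ u w : Str, bt X (pr y u) = true ∧ bt X (pr u w) = true ∧
      bt X (pr w y) = true)) ∈ NPO X := by
    refine NPO_ex (NPO_and d1 (NPO_and d2 d3)) (3 * Polynomial.X + 1) (fun y => ?_)
    simp only [decide_eq_true_eq, Bool.and_eq_true, fst_pr, snd_pr, Polynomial.eval_X,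
      Polynomial.eval_add, Polynomial.eval_mul, Polynomial.eval_ofNat, Polynomial.eval_one]
    constructor
    · rintro ⟨u, w, h5, h6, h7⟩
      refine ⟨pr u w, ?_, ?_⟩
      · rw [pr_length]
        have h8 := ((bt_iff X _ _).1 h5).1
        have h9 := ((bt_iff X _ _).1 h6).1
        omega
      · rw [fst_pr, snd_pr]
        exact ⟨h5, h6, h7⟩
    · rintro ⟨q, -, h5, h6, h7⟩
      exact ⟨_, _, h5, h6, h7⟩
  have e3 := NPO_or (vt_mem X) (NPO_or e1 e2)
  have e4 : vp X = (fun y => vt X y || (decide (∃ u : Str, bt X (pr y u) = true ∧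
      bt X (pr u y) = true) || decide (∃ u w : Str, bt X (pr y u) = true ∧
      bt X (pr u w) = true ∧ bt X (pr w y) = true))) := by
    funext y
    rw [Bool.eq_iff_iff, vp_iff]
    simp only [Bool.or_eq_true, decide_eq_true_eq]
  rw [e4]
  exact e3

theorem topL_mem (X : Lang) : topL X ∈ NPO X := by
  have hx : PolyC (fun _ : Str => X) (fun _ => True) [fun x => x] (fun x => x) :=
    PolyC.var (by simp)
  have c1 := NPO_comp (vp_mem X) (PolyC.snd hx)
  have c2 := NPO_comp (bt_mem X) (PolyC.pr (PolyC.fst hx) (PolyC.snd hx))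
  classical
  have e1 : (fun y => decide (∃ u : Str, vp X u = true ∧ bt X (pr y u) = true)) ∈ NPO X := by
    refine NPO_ex (NPO_and c1 c2) Polynomial.X (fun y => ?_)
    simp only [decide_eq_true_eq, Bool.and_eq_true, fst_pr, snd_pr, Polynomial.eval_X]
    constructor
    · rintro ⟨u, h5, h6⟩
      exact ⟨u, ((bt_iff X _ _).1 h6).1.ge, h5, h6⟩
    · rintro ⟨u, -, h5, h6⟩
      exact ⟨u, h5, h6⟩
  have e3 := NPO_or (vp_mem X) e1
  have e4 : topL X = (fun y => vp X y || decide (∃ u : Str, vp X u = true ∧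
      bt X (pr y u) = true)) := by
    funext y
    rw [Bool.eq_iff_iff, topL_iff]
    simp only [Bool.or_eq_true, decide_eq_true_eq]
  rw [e4]
  exact e3

/-! ### the linear order of the complement -/

theorem bt_total (X : Lang) {u v : Str} (h : u.length = v.length) (hne : u ≠ v) :
    bt X (pr u v) = true ∨ bt X (pr v u) = true := by
  rw [bt_iff, bt_iff]
  by_contra hcon
  push Not at hcon
  have h1 := hcon.1 h hne
  have h2 := hcon.2 h.symm hne.symm
  unfold Beats at h1 h2
  push Not at h1 h2
  set n := v.length with hn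
  let f : List.Vector Bool n → List.Vector Bool n := fun z =>
    ⟨gv X u v z.1, by rw [gv_length]; exact z.2⟩
  have hf : Function.Injective f := by
    intro z z' hzz
    by_contra hne2
    refine h2.2 z.1 z'.1 ?_ ?_ (fun h3 => hne2 (Subtype.ext h3)) (congrArg Subtype.val hzz)
    · rw [h]; exact z.2
    · rw [h]; exact z'.2
  obtain ⟨z, hz⟩ := (Finite.injective_iff_surjective.1 hf) ⟨List.replicate n false, by simp⟩
  exact h1.1 z.1 z.2 (congrArg Subtype.val hz)

theorem vp_topL {X : Lang} {y : Str} (h : vp X y = true) : topL X y = true :=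
  (topL_iff X y).2 (Or.inl h)

/-- everything that beats a dead vertex is dead -/
theorem topL_up {X : Lang} {h x : Str} (hb : bt X (pr h x) = true) (hx : topL X x = true) :
    topL X h = true := by
  rcases (topL_iff X x).1 hx with h1 | ⟨u, h1, h2⟩
  · exact (topL_iff X h).2 (Or.inr ⟨x, h1, hb⟩)
  · by_cases hu : u = h
    · subst hu
      exact vp_topL ((vp_iff X u).2 (Or.inr (Or.inl ⟨x, hb, h2⟩)))
    · have l1 := ((bt_iff X _ _).1 hb).1
      have l2 := ((bt_iff X _ _).1 h2).1
      rcases bt_total X (u := h) (v := u) (by omega) (fun h3 => hu h3.symm) with h3 | h3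
      · exact (topL_iff X h).2 (Or.inr ⟨u, h1, h3⟩)
      · exact vp_topL ((vp_iff X h).2 (Or.inr (Or.inr ⟨x, u, hb, h2, h3⟩)))

theorem not_vp {X : Lang} {y : Str} (h : topL X y = false) : vp X y = false := by
  by_contra h1
  rw [Bool.not_eq_false] at h1
  rw [vp_topL h1] at h
  exact absurd h (by simp)

theorem bt_asymm {X : Lang} {u v : Str} (hu : topL X u = false) (h : bt X (pr u v) = true) :
    bt X (pr v u) = false := by
  by_contra h1
  rw [Bool.not_eq_false] at h1
  have h2 := (vp_iff X u).2 (Or.inr (Or.inl ⟨v, h, h1⟩))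
  rw [not_vp hu] at h2
  exact absurd h2 (by simp)

theorem bt_trans {X : Lang} {u v w : Str} (hu : topL X u = false) (hne : u ≠ w)
    (h1 : bt X (pr u v) = true) (h2 : bt X (pr v w) = true) : bt X (pr u w) = true := by
  have l1 := ((bt_iff X _ _).1 h1).1
  have l2 := ((bt_iff X _ _).1 h2).1
  rcases bt_total X (u := u) (v := w) (by omega) hne with h3 | h3
  · exact h3
  · have h4 := (vp_iff X u).2 (Or.inr (Or.inr ⟨v, w, h1, h2, h3⟩))
    rw [not_vp hu] at h4
    exact absurd h4 (by simp)

/-- the alive vertices: the top and the vertices which are beaten by it -/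
theorem top_struct (X : Lang) (n : ℕ) : (∀ x : Str, x.length = n → topL X x = true) ∨
    ∃ h : Str, h.length = n ∧ topL X h = false ∧
      ∀ x : Str, x.length = n → (topL X x = false ↔ x = h ∨ bt X (pr h x) = true) := by
  by_cases hall : ∀ x : Str, x.length = n → topL X x = true
  · exact Or.inl hall
  right
  push Not at hall
  obtain ⟨x0, hx0, hx0'⟩ := hall
  rw [ne_eq, Bool.not_eq_true] at hx0'
  classical
  let r : List.Vector Bool n → List.Vector Bool n → Prop := fun a b =>
    topL X a.1 = false ∧ topL X b.1 = false ∧ bt X (pr a.1 b.1) = true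
  have ht : IsTrans _ r := ⟨by
    rintro a b c ⟨h1, h2, h3⟩ ⟨h4, h5, h6⟩
    refine ⟨h1, h5, bt_trans h1 ?_ h3 h6⟩
    intro h7
    rw [← h7, bt_asymm h1 h3] at h6
    exact absurd h6 (by simp)⟩
  have hi : Std.Irrefl r := ⟨fun a h1 => ((bt_iff X _ _).1 h1.2.2).2.1 rfl⟩
  have hw : WellFounded r := Finite.wellFounded_of_trans_of_irrefl r
  obtain ⟨m, hm1, hm2⟩ := hw.has_min {a | topL X a.1 = false} ⟨⟨x0, hx0⟩, hx0'⟩
  refine ⟨m.1, m.2, hm1, fun x hx => ⟨fun h1 => ?_, ?_⟩⟩
  · by_cases hxm : x = m.1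
    · exact Or.inl hxm
    · right
      have hl : x.length = m.1.length := by rw [hx]; exact m.2.symm
      rcases bt_total X hl hxm with h2 | h2
      · exact absurd ⟨h1, hm1, h2⟩ (hm2 ⟨x, hx⟩ h1)
      · exact h2
  · rintro (rfl | h1)
    · exact hm1
    · by_contra h2
      rw [Bool.not_eq_false] at h2
      have h3 := topL_up h1 h2
      have h4 : topL X m.1 = false := hm1
      rw [h4] at h3
      exact absurd h3 (by simp)

theorem topL_poly (X : Lang) : (fun x => !(topL X x)) ∈ NPPoly X := by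
  classical
  have hz : PolyC (fun _ : Str => X) (fun _ => True) [fun x => x] (fun x => x) :=
    PolyC.var (by simp)
  have c1 : (fun z : Str => decide (snd z = true :: fst z)) ∈ NPO X :=
    PO_subset_NPO X (mem_PO (PolyB.strEq (PolyC.snd hz) (PolyC.cons true (PolyC.fst hz))))
  have c2 : (fun z : Str => (snd z).headD false) ∈ NPO X :=
    PO_subset_NPO X (mem_PO (PolyB.headD (PolyC.snd hz)))
  have c3 := NPO_comp (bt_mem X) (PolyC.pr (PolyC.snd hz).tail (PolyC.fst hz))
  refine ⟨_, NPO_or c1 (NPO_and c2 c3), fun n =>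
    if h : ∃ h : Str, h.length = n ∧ topL X h = false ∧
      ∀ x : Str, x.length = n → (topL X x = false ↔ x = h ∨ bt X (pr h x) = true)
    then true :: h.choose else [], Polynomial.X + 1, fun n => ?_, fun x => ?_⟩
  · simp only [Polynomial.eval_add, Polynomial.eval_X, Polynomial.eval_one]
    by_cases h : ∃ h : Str, h.length = n ∧ topL X h = false ∧
      ∀ x : Str, x.length = n → (topL X x = false ↔ x = h ∨ bt X (pr h x) = true)
    · rw [dif_pos h, List.length_cons, h.choose_spec.1]
    · rw [dif_neg h]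
      simp
  · simp only [fst_pr, snd_pr]
    by_cases h : ∃ h : Str, h.length = x.length ∧ topL X h = false ∧
      ∀ y : Str, y.length = x.length → (topL X y = false ↔ y = h ∨ bt X (pr h y) = true)
    · simp only [dif_pos h]
      rw [Bool.eq_iff_iff]
      simp only [Bool.not_eq_true', Bool.or_eq_true, decide_eq_true_eq, Bool.and_eq_true,
        List.headD_cons, List.tail_cons, List.cons.injEq, true_and]
      rw [h.choose_spec.2.2 x rfl]
      exact or_congr eq_comm Iff.rfl
    · simp only [dif_neg h]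
      rcases top_struct X x.length with h1 | h1
      · rw [h1 x rfl]
        simp
      · exact absurd h1 h

/-- The language `topL` is always in `L_3`. -/
theorem topL_low (X : Lang) : topL X ∈ Low X 3 := ⟨topL_mem X, yap (topL_mem X) (topL_poly X)⟩

/-! ### the query about the top -/

open Classical in
/-- `h` is not the top: it is dead, or it is beaten by another vertex which is alive -/
noncomputable def noTop (X : Lang) : Lang := fun h =>
  decide (topL X h = true ∨ ∃ x : Str, topL X x = false ∧ bt X (pr x h) = true)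

theorem noTop_iff (X : Lang) (h : Str) : noTop X h = true ↔
    topL X h = true ∨ ∃ x : Str, topL X x = false ∧ bt X (pr x h) = true := by
  simp only [noTop, decide_eq_true_eq]

open Classical in
/-- the top of the length of `s` begins with `true` -/
noncomputable def topQ (X : Lang) : Lang := fun s =>
  decide (∃ h : Str, h.length = s.length ∧ h.headD false = true ∧ noTop X h = false)

theorem topQ_iff (X : Lang) (s : Str) : topQ X s = true ↔
    ∃ h : Str, h.length = s.length ∧ h.headD false = true ∧ noTop X h = false := by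
  simp only [topQ, decide_eq_true_eq]

theorem topQ_mem (X : Lang) : topQ X ∈ Sig (join X (topL X)) 2 := by
  classical
  set O := join X (topL X) with hO
  have hXO : X ∈ PO O := left_mem X _
  have hx : PolyC (fun _ : Str => O) (fun _ => True) [fun x => x] (fun x => x) :=
    PolyC.var (by simp)
  have e0 : (fun h : Str => topL X h) ∈ NPO O :=
    PO_subset_NPO O (mem_PO (PolyC.query (PolyC.cons true hx)))
  have e1 : (fun p : Str => topL X (snd p)) ∈ PO O :=
    mem_PO (PolyC.query (PolyC.cons true (PolyC.snd hx)))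
  have e1' : (fun p : Str => !(topL X (snd p))) ∈ NPO O := by
    refine PO_subset_NPO O (mem_PO ?_)
    have h1 : PolyB (fun _ : Str => O) (fun _ => True) [fun x => x] (fun p => topL X (snd p)) :=
      PolyC.query (PolyC.cons true (PolyC.snd hx))
    exact h1.not
  have e2 := NPO_comp (NPO_subset hXO (bt_mem X)) (PolyC.pr (PolyC.snd hx) (PolyC.fst hx))
  have e3 : (fun h : Str => decide (∃ x : Str, topL X x = false ∧ bt X (pr x h) = true)) ∈
      NPO O := by
    refine NPO_ex (NPO_and e1' e2) Polynomial.X (fun h => ?_)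
    simp only [decide_eq_true_eq, Bool.and_eq_true, fst_pr, snd_pr, Polynomial.eval_X,
      Bool.not_eq_true']
    constructor
    · rintro ⟨x, h5, h6⟩
      exact ⟨x, ((bt_iff X _ _).1 h6).1.le, h5, h6⟩
    · rintro ⟨x, -, h5, h6⟩
      exact ⟨x, h5, h6⟩
  have e4 : noTop X ∈ NPO O := by
    have e5 := NPO_or e0 e3
    have e6 : noTop X = (fun h => topL X h || decide (∃ x : Str, topL X x = false ∧
        bt X (pr x h) = true)) := by
      funext h
      rw [Bool.eq_iff_iff, noTop_iff]
      simp only [Bool.or_eq_true, decide_eq_true_eq]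
    rw [e6]
    exact e5
  refine ⟨noTop X, ⟨O, query_mem O, e4⟩, ?_⟩
  have hs : PolyC (fun _ : Str × Str => noTop X) (fun _ => True) [fun p => p.1, fun p => p.2]
    (fun p => p.1) := PolyC.var (by simp)
  have hh : PolyC (fun _ : Str × Str => noTop X) (fun _ => True) [fun p => p.1, fun p => p.2]
    (fun p => p.2) := PolyC.var (by simp)
  have f1 := PolyB.headD hh
  have f2 : PolyB (fun _ : Str × Str => noTop X) (fun _ => True) [fun p => p.1, fun p => p.2]
    (fun p => noTop X p.2) := PolyC.query hh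
  refine mem_NPO Polynomial.X (f1.and f2.not) (fun s => ?_)
  rw [topQ_iff]
  simp only [Polynomial.eval_X, Bool.and_eq_true, Bool.not_eq_true']

end Pool.Agent.Lib.Pa76659G.T3
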