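import Pool.Agent.Lib.Pa76659G.T3Defs
import Pool.Agent.Lib.Pa76659G.T3Mem
import Pool.Agent.Lib.Pa76659G.PhpWorld

set_option autoImplicit false

/-!
The worlds as oracles; decision trees as local tests.
-/

namespace Pool.Agent.Lib.Pa76659G.T3

open Finset Pool.Agent.Lib.Pa76659 Pool.Agent.Lib.Pa76659G Pool.Agent.Lib.Pa76659.Hier
open Pool.Agent.Lib.Pa76659G.Php

section

variable {n : ℕ}

/-- the address of the bit that says that `w` is a witness for `y` -/
def vadr (y w : Idx n) : Str := pr [false] (pr y.1 w.1)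

theorem vadr_inj {y y' w w' : Idx n} (h : vadr y w = vadr y' w') : y = y' ∧ w = w' := by
  unfold vadr at h
  obtain ⟨-, h2⟩ := pr_inj h
  obtain ⟨h3, h4⟩ := pr_inj h2
  exact ⟨Subtype.ext h3, Subtype.ext h4⟩

theorem vadr_ne_adr {y w : Idx n} {i : Fin n} {u v z : Idx n} : vadr y w ≠ adr i u v z := by
  intro h
  unfold vadr adr at h
  obtain ⟨h1, -⟩ := pr_inj h
  rcases i with ⟨i, hi⟩
  rcases i with _ | i
  · simp [on1] at h1
  · simp [on1, List.replicate_succ] at h1

theorem vadr_length (y w : Idx n) : n ≤ (vadr y w).length := by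
  unfold vadr
  rw [pr_length, pr_length]
  have : w.1.length = n := w.2
  omega

open Classical in
/-- the oracle with the given array -/
noncomputable def orx (G : Lang) (x : Idx n × Idx n → Idx n → Idx n × Bool) : Lang := fun s =>
  if h : ∃ a : Fin n × Idx n × Idx n × Idx n, s = adr a.1 a.2.1 a.2.2.1 a.2.2.2 then
    (x (h.choose.2.1, h.choose.2.2.1) h.choose.2.2.2).1.get h.choose.1
  else if h : ∃ a : Idx n × Idx n, s = vadr a.1 a.2 then
    (x (h.choose.1, h.choose.1) h.choose.2).2
  else G s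

theorem orx_adr (G : Lang) (x : Idx n × Idx n → Idx n → Idx n × Bool) (i : Fin n)
    (u v z : Idx n) : orx G x (adr i u v z) = (x (u, v) z).1.get i := by
  unfold orx
  have h : ∃ a : Fin n × Idx n × Idx n × Idx n,
      adr i u v z = adr a.1 a.2.1 a.2.2.1 a.2.2.2 := ⟨(i, u, v, z), rfl⟩
  rw [dif_pos h]
  obtain ⟨h1, h2, h3, h4⟩ := adr_inj h.choose_spec
  rw [← h1, ← h2, ← h3, ← h4]

theorem orx_vadr (G : Lang) (x : Idx n × Idx n → Idx n → Idx n × Bool) (y w : Idx n) :
    orx G x (vadr y w) = (x (y, y) w).2 := by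
  unfold orx
  have h0 : ¬ ∃ a : Fin n × Idx n × Idx n × Idx n,
      vadr y w = adr a.1 a.2.1 a.2.2.1 a.2.2.2 := by
    rintro ⟨a, ha⟩
    exact vadr_ne_adr ha
  have h : ∃ a : Idx n × Idx n, vadr y w = vadr a.1 a.2 := ⟨(y, w), rfl⟩
  rw [dif_neg h0, dif_pos h]
  obtain ⟨h1, h2⟩ := vadr_inj h.choose_spec
  rw [← h1, ← h2]

theorem orx_other (G : Lang) (x : Idx n × Idx n → Idx n → Idx n × Bool) {s : Str}
    (h : ¬ ∃ a : Fin n × Idx n × Idx n × Idx n, s = adr a.1 a.2.1 a.2.2.1 a.2.2.2)
    (h' : ¬ ∃ a : Idx n × Idx n, s = vadr a.1 a.2) : orx G x s = G s := by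
  unfold orx
  rw [dif_neg h, dif_neg h']

theorem orx_nb (G : Lang) (x : Idx n × Idx n → Idx n → Idx n × Bool) : ∀ s : Str, s.length < n →
    orx G x s = G s := by
  intro s hs
  apply orx_other
  · rintro ⟨a, rfl⟩
    have := adr_length a.1 a.2.1 a.2.2.1 a.2.2.2
    omega
  · rintro ⟨a, rfl⟩
    have := vadr_length a.1 a.2
    omega

/-! ### the tests -/

/-- the string `s` reads the position `(e, b)` -/
def Reads (s : Str) (e : Idx n × Idx n) (b : Idx n) : Prop :=
  (∃ i : Fin n, s = true :: adr i e.1 e.2 b) ∨ (e.1 = e.2 ∧ s = true :: vadr e.1 b)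

theorem Reads.unique {s : Str} {e e' : Idx n × Idx n} {b b' : Idx n} (h : Reads s e b)
    (h' : Reads s e' b') : e = e' ∧ b = b' := by
  rcases h with ⟨i, h⟩ | ⟨h0, h⟩ <;> rcases h' with ⟨i', h'⟩ | ⟨h0', h'⟩
  · rw [h] at h'
    obtain ⟨-, h1, h2, h3⟩ := adr_inj (List.cons_injective h')
    exact ⟨Prod.ext h1 h2, h3⟩
  · rw [h] at h'
    exact absurd (List.cons_injective h').symm vadr_ne_adr
  · rw [h] at h'
    exact absurd (List.cons_injective h') vadr_ne_adr
  · rw [h] at h'
    obtain ⟨h1, h2⟩ := vadr_inj (List.cons_injective h')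
    exact ⟨Prod.ext h1 (by rw [← h0, ← h0', h1]), h2⟩

theorem orx_agree (Y G : Lang) {x x' : Idx n × Idx n → Idx n → Idx n × Bool} {s : Str}
    (h : ∀ e b, Reads s e b → x' e b = x e b) : join Y (orx G x') s = join Y (orx G x) s := by
  rcases s with _ | ⟨c, s⟩
  · rfl
  · cases c
    · rfl
    · show orx G x' s = orx G x s
      by_cases h1 : ∃ a : Fin n × Idx n × Idx n × Idx n, s = adr a.1 a.2.1 a.2.2.1 a.2.2.2
      · obtain ⟨⟨i, u, v, z⟩, rfl⟩ := h1
        simp only at h ⊢
        rw [orx_adr, orx_adr, h (u, v) z (Or.inl ⟨i, rfl⟩)]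
      · by_cases h2 : ∃ a : Idx n × Idx n, s = vadr a.1 a.2
        · obtain ⟨⟨y, w⟩, rfl⟩ := h2
          simp only at h ⊢
          rw [orx_vadr, orx_vadr, h (y, y) w (Or.inr ⟨rfl, rfl⟩)]
        · rw [orx_other G _ h1 h2, orx_other G _ h1 h2]

theorem queries_congr {V α : Type*} (x y : V → Bool) : ∀ T : DT V α,
    (∀ v ∈ queries x T, y v = x v) → queries y T = queries x T
  | DT.leaf _, _ => rfl
  | DT.node v f t, h => by
      have h1 : y v = x v := h v (by simp [queries])
      simp only [queries, h1]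
      congr 1
      split_ifs with hx
      · apply queries_congr x y t
        intro u hu
        apply h
        simp only [queries, hx, if_true, List.mem_cons]
        exact Or.inr hu
      · apply queries_congr x y f
        intro u hu
        apply h
        simp only [queries, List.mem_cons]
        rw [if_neg hx]
        exact Or.inr hu

open Classical in
/-- the local test of a decision tree -/
noncomputable def tst (n : ℕ) (Y G : Lang) (D : DT Str Bool) :
    Tst (Idx n × Idx n) (Idx n) (Idx n × Bool) where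
  val x := D.eval (join Y (orx G x))
  qs x e := univ.filter fun b => ∃ s ∈ queries (join Y (orx G x)) D, Reads s e b

theorem tst_ok (Y G : Lang) {D : DT Str Bool} {T : ℕ} (hD : D.depth ≤ T) :
    (tst n Y G D).Ok T := by
  classical
  refine ⟨fun x => ?_, fun x x' h => ?_⟩
  · set L := queries (join Y (orx G x)) D with hL
    have h1 : ∑ e, ((tst n Y G D).qs x e).card = (univ.sigma ((tst n Y G D).qs x)).card :=
      (Finset.card_sigma _ _).symm
    rw [h1]
    refine le_trans ?_ ((List.toFinset_card_le L).trans ((queries_length _ D).trans hD))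
    let f : (Σ _ : Idx n × Idx n, Idx n) → Str := fun q =>
      if h : ∃ s ∈ L, Reads s q.1 q.2 then h.choose else []
    refine Finset.card_le_card_of_injOn f ?_ ?_
    · rintro ⟨e, b⟩ hq
      have h2 : ∃ s ∈ L, Reads s e b :=
        (Finset.mem_filter.1 (Finset.mem_sigma.1 (Finset.mem_coe.1 hq)).2).2
      simp only [f, dif_pos h2, Finset.mem_coe, List.mem_toFinset]
      exact h2.choose_spec.1
    · rintro ⟨e, b⟩ hq ⟨e', b'⟩ hq' heq
      have h2 : ∃ s ∈ L, Reads s e b :=
        (Finset.mem_filter.1 (Finset.mem_sigma.1 (Finset.mem_coe.1 hq)).2).2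
      have h2' : ∃ s ∈ L, Reads s e' b' :=
        (Finset.mem_filter.1 (Finset.mem_sigma.1 (Finset.mem_coe.1 hq')).2).2
      simp only [f, dif_pos h2, dif_pos h2'] at heq
      have h3 := h2.choose_spec.2
      rw [heq] at h3
      obtain ⟨rfl, rfl⟩ := h3.unique h2'.choose_spec.2
      rfl
  · have h2 : ∀ s ∈ queries (join Y (orx G x)) D, join Y (orx G x') s = join Y (orx G x) s := by
      intro s hs
      apply orx_agree
      intro e b hr
      exact h e b (Finset.mem_filter.2 ⟨Finset.mem_univ _, s, hs, hr⟩)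
    refine ⟨queries_eval _ _ D h2, ?_⟩
    have h3 := queries_congr _ _ D h2
    simp only [tst, h3]

/-! ### the tournament in the worlds -/

theorem gv_orx (Y G : Lang) (x : Idx n × Idx n → Idx n → Idx n × Bool) (u v z : Idx n) :
    gv (join Y (orx G x)) u.1 v.1 z.1 = (x (u, v) z).1.1 := by
  unfold gv
  apply List.ext_getElem
  · have h1 : z.1.length = n := z.2
    have h2 : (x (u, v) z).1.1.length = n := (x (u, v) z).1.2
    simp [h1, h2]
  · intro i h1 h2
    have h3 : (x (u, v) z).1.1.length = n := (x (u, v) z).1.2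
    have hi : i < n := by omega
    simp only [List.getElem_map, List.getElem_range]
    show orx G x (pr (on1 i) (pr u.1 (pr v.1 z.1))) = _
    exact orx_adr G x ⟨i, hi⟩ u v z

theorem beats_orx (Y G : Lang) (x : Idx n × Idx n → Idx n → Idx n × Bool) (u v : Idx n) :
    Beats (join Y (orx G x)) u.1 v.1 ↔
      (∃ z, (x (u, v) z).1 = zer n) ∨ ∃ z z', z ≠ z' ∧ (x (v, u) z).1 = (x (v, u) z').1 := by
  have hv : v.1.length = n := v.2
  unfold Beats
  rw [hv]
  refine or_congr ?_ ?_
  · constructor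
    · rintro ⟨z, hz, h⟩
      refine ⟨⟨z, hz⟩, Subtype.ext ?_⟩
      have h1 := gv_orx Y G x u v ⟨z, hz⟩
      rw [← h1]
      exact h
    · rintro ⟨z, h⟩
      refine ⟨z.1, z.2, ?_⟩
      rw [gv_orx, h]
      rfl
  · constructor
    · rintro ⟨z, z', hz, hz', hne, h⟩
      refine ⟨⟨z, hz⟩, ⟨z', hz'⟩, fun h2 => hne (congrArg Subtype.val h2), Subtype.ext ?_⟩
      have h1 := gv_orx Y G x v u ⟨z, hz⟩
      have h2 := gv_orx Y G x v u ⟨z', hz'⟩
      rw [← h1, ← h2]
      exact h
    · rintro ⟨z, z', hne, h⟩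
      refine ⟨z.1, z'.1, z.2, z'.2, fun h2 => hne (Subtype.ext h2), ?_⟩
      rw [gv_orx, gv_orx, h]

theorem dom_total {U : Type} [DecidableEq U] (K : List U) {u v : U} (h : u ≠ v) :
    dom K u v = true ∨ dom K v u = true := by
  simp only [dom, decide_eq_true_eq]
  by_cases hu : u ∈ K
  · by_cases hv : v ∈ K
    · have h1 : K.idxOf u ≠ K.idxOf v := fun h2 => h ((List.idxOf_inj hu).1 h2)
      rcases lt_or_gt_of_ne h1 with h2 | h2
      · exact Or.inl (Or.inr ⟨hv, h2⟩)
      · exact Or.inr (Or.inr ⟨hu, h2⟩)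
    · exact Or.inr (Or.inl hv)
  · exact Or.inl (Or.inl hu)

/-- the oracle of the world `K` -/
noncomputable def wo (Y G : Lang) (R : Idx n × Idx n → Om (Idx n) (zer n)) (K : List (Idx n)) :
    Lang := join Y (orx G (xw R K))

theorem beats_wo (Y G : Lang) (R : Idx n × Idx n → Om (Idx n) (zer n)) (K : List (Idx n))
    {u v : Idx n} (h : u ≠ v) : Beats (wo Y G R K) u.1 v.1 ↔ dom K u v = true := by
  unfold wo
  rw [beats_orx]
  simp only [xw]
  constructor
  · rintro (⟨z, hz⟩ | ⟨z, z', hne, hz⟩)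
    · by_contra hd
      have h1 : kap K (u, v) = some true := by
        unfold kap
        rw [if_neg hd]
      rw [h1] at hz
      exact (R (u, v)).f1_ne z hz
    · by_contra hd
      have h2 : dom K v u = true := (dom_total K h).resolve_left hd
      have h1 : kap K (v, u) = some false := by
        unfold kap
        rw [if_pos h2, if_neg hd]
      rw [h1] at hz
      exact hne ((R (v, u)).f0_inj hz)
  · intro hd
    by_cases h2 : dom K v u = true
    · left
      refine ⟨(R (u, v)).z0, ?_⟩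
      have h1 : kap K (u, v) = none := by
        unfold kap
        rw [if_pos hd, if_pos h2]
      rw [h1]
      exact (R (u, v)).fd_z0
    · left
      refine ⟨(R (u, v)).z0, ?_⟩
      have h1 : kap K (u, v) = some false := by
        unfold kap
        rw [if_pos hd, if_neg h2]
      rw [h1]
      exact (R (u, v)).hp

theorem bt_wo (Y G : Lang) (R : Idx n × Idx n → Om (Idx n) (zer n)) (K : List (Idx n))
    (u v : Idx n) : bt (wo Y G R K) (pr u.1 v.1) = true ↔ u ≠ v ∧ dom K u v = true := by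
  rw [bt_iff]
  constructor
  · rintro ⟨h1, h2, h3⟩
    have h4 : u ≠ v := fun h => h2 (congrArg Subtype.val h)
    exact ⟨h4, (beats_wo Y G R K h4).1 h3⟩
  · rintro ⟨h1, h2⟩
    exact ⟨u.2.trans v.2.symm, fun h => h1 (Subtype.ext h), (beats_wo Y G R K h1).2 h2⟩

theorem vt_wo (Y G : Lang) (R : Idx n × Idx n → Om (Idx n) (zer n)) (K : List (Idx n))
    (y : Idx n) : vt (wo Y G R K) y.1 = true ↔ y ∉ K := by
  have hy : y.1.length = n := y.2
  have h0 : ∀ w : Idx n, wo Y G R K (true :: pr [false] (pr y.1 w.1)) = (xw R K (y, y) w).2 :=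
    fun w => orx_vadr G _ y w
  have hk : kap K (y, y) = none ↔ y ∉ K := by
    unfold kap
    by_cases h : dom K y y = true
    · simp only [if_pos h, true_iff]
      simp only [dom, decide_eq_true_eq, lt_self_iff_false, and_false, or_false] at h
      exact h
    · simp only [if_neg h]
      simp only [dom, decide_eq_true_eq, lt_self_iff_false, and_false, or_false] at h
      simp only [reduceCtorEq, false_iff]
      exact h
  rw [vt_iff, hy]
  constructor
  · rintro ⟨w, hw, h⟩
    rw [h0 ⟨w, hw⟩] at h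
    simp only [xw, decide_eq_true_eq, true_and] at h
    exact hk.1 h.1
  · intro h
    refine ⟨(R (y, y)).z0.1, (R (y, y)).z0.2, ?_⟩
    rw [h0]
    simp only [xw, decide_eq_true_eq, true_and, and_true]
    exact hk.2 h

theorem dom_alive {U : Type} [DecidableEq U] {K : List U} {u v : U} (hu : u ∈ K) :
    dom K u v = true ↔ v ∈ K ∧ K.idxOf u < K.idxOf v := by
  simp only [dom, decide_eq_true_eq]
  constructor
  · rintro (h | h)
    · exact absurd hu h
    · exact h
  · exact Or.inr

/-- strings of the right length -/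
theorem bt_len {X : Lang} {u v : Str} (h : bt X (pr u v) = true) : u.length = v.length :=
  ((bt_iff X _ _).1 h).1

theorem vp_wo (Y G : Lang) (R : Idx n × Idx n → Om (Idx n) (zer n)) (K : List (Idx n))
    (y : Idx n) : vp (wo Y G R K) y.1 = true ↔ y ∉ K := by
  have hyl : y.1.length = n := y.2
  rw [vp_iff, vt_wo]
  constructor
  · rintro (h | ⟨u, h1, h2⟩ | ⟨u, w, h1, h2, h3⟩)
    · exact h
    · intro hy
      have hu : u.length = n := (bt_len h1).symm.trans hyl
      have h3 := (bt_wo Y G R K y ⟨u, hu⟩).1 h1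
      have h4 := (bt_wo Y G R K ⟨u, hu⟩ y).1 h2
      obtain ⟨h5, h6⟩ := (dom_alive hy).1 h3.2
      obtain ⟨h7, h8⟩ := (dom_alive h5).1 h4.2
      omega
    · intro hy
      have hu : u.length = n := (bt_len h1).symm.trans hyl
      have hw : w.length = n := (bt_len h2).symm.trans hu
      have h4 := (bt_wo Y G R K y ⟨u, hu⟩).1 h1
      have h5 := (bt_wo Y G R K ⟨u, hu⟩ ⟨w, hw⟩).1 h2
      have h6 := (bt_wo Y G R K ⟨w, hw⟩ y).1 h3
      obtain ⟨h7, h8⟩ := (dom_alive hy).1 h4.2
      obtain ⟨h9, h10⟩ := (dom_alive h7).1 h5.2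
      obtain ⟨h11, h12⟩ := (dom_alive h9).1 h6.2
      omega
  · exact Or.inl

theorem topL_wo (Y G : Lang) (R : Idx n × Idx n → Om (Idx n) (zer n)) (K : List (Idx n))
    (y : Idx n) : topL (wo Y G R K) y.1 = true ↔ y ∉ K := by
  have hyl : y.1.length = n := y.2
  rw [topL_iff, vp_wo]
  constructor
  · rintro (h | ⟨u, h1, h2⟩)
    · exact h
    · intro hy
      have hu : u.length = n := (bt_len h2).symm.trans hyl
      have h3 := (vp_wo Y G R K ⟨u, hu⟩).1 h1
      have h4 := (bt_wo Y G R K y ⟨u, hu⟩).1 h2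
      exact h3 ((dom_alive hy).1 h4.2).1
  · exact Or.inl

theorem topL_wo' (Y G : Lang) (R : Idx n × Idx n → Om (Idx n) (zer n)) (K : List (Idx n))
    (y : Idx n) : topL (wo Y G R K) y.1 = false ↔ y ∈ K := by
  rw [← Bool.not_eq_true, topL_wo, not_not]

theorem noTop_wo (Y G : Lang) (R : Idx n × Idx n → Om (Idx n) (zer n)) (K : List (Idx n))
    (u h : Idx n) : noTop (wo Y G R (u :: K)) h.1 = false ↔ h = u := by
  rw [← Bool.not_eq_true, noTop_iff, not_or, Bool.not_eq_true, topL_wo']
  constructor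
  · rintro ⟨h1, h2⟩
    by_contra hne
    apply h2
    refine ⟨u.1, (topL_wo' Y G R _ u).2 (by simp), ?_⟩
    rw [bt_wo]
    refine ⟨fun h3 => hne h3.symm, ?_⟩
    rw [dom_alive (by simp)]
    refine ⟨h1, ?_⟩
    rw [List.idxOf_cons_self, List.idxOf_cons_ne _ (fun h3 => hne h3.symm)]
    omega
  · rintro rfl
    refine ⟨by simp, ?_⟩
    rintro ⟨x, h1, h2⟩
    have hx : x.length = n := (bt_len h2).trans h.2
    have h3 := (topL_wo' Y G R _ ⟨x, hx⟩).1 h1
    have h4 := (bt_wo Y G R _ ⟨x, hx⟩ h).1 h2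
    have h5 := ((dom_alive h3).1 h4.2).2
    rw [List.idxOf_cons_self] at h5
    omega

/-- the answer to the question about the top -/
theorem topQ_wo (Y G : Lang) (R : Idx n × Idx n → Om (Idx n) (zer n)) (K : List (Idx n))
    (u : Idx n) {s : Str} (hs : s.length = n) :
    topQ (wo Y G R (u :: K)) s = u.1.headD false := by
  rw [Bool.eq_iff_iff, topQ_iff, hs]
  constructor
  · rintro ⟨h, h1, h2, h3⟩
    have h4 := (noTop_wo Y G R K u ⟨h, h1⟩).1 h3
    rw [← h4]
    exact h2
  · intro h
    exact ⟨u.1, u.2, h, (noTop_wo Y G R K u u).2 rfl⟩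

end

end Pool.Agent.Lib.Pa76659G.T3
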