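import Pool.Agent.Lib.Pa76659G.Tab
import Pool.Agent.Lib.Pa76659G.Step

/-!
The value of the hard languages on patched oracles; mixed arrays; sizes.
-/

set_option maxHeartbeats 4000000

namespace Pool.Agent.Lib.Pa76659G

open Pool.Agent.Lib.Pa76659

theorem QL_tab (Y G : Lang) {m n : ℕ} (a : List (Str × Str)) (z : Str)
    (hz1 : (fst z).length = n) (hz2 : (fst (snd z)).length = m) (A A' : Lang)
    (hA : ∀ x : Str, x.length = n → A' x = A x) : ∀ (j : ℕ) (w : Str) (_ : fst w = z)
    (S : Arr (Idx m) (Idx n) j) (a : List (Str × Str)),
    QL (join (join Y (patchL G (tabL j w S ++ a))) A') j w = Qv (fun x : Idx n => A x.1) j S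
  | 0, w, hw, x, a => by
      set O := join (join Y (patchL G (tabL 0 w x ++ a))) A' with hO
      have h1 : entry O w = x.1 := by
        apply List.ext_getElem
        · rw [entry, List.length_map, List.length_range, hw, hz1, x.2]
        · intro i h1 h2
          simp only [entry, List.getElem_map, List.getElem_range]
          have h3 : O (false :: true :: pr (on1 i) w) = patchL G (tabL 0 w x ++ a) (pr (on1 i) w) :=
            rfl
          rw [h3]
          unfold patchL
          have h4 : look (tabL 0 w x ++ a) (snd (pr (on1 i) w)) = some x.1 := by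
            rw [snd_pr]
            simp [tabL, look]
          rw [h4]
          have h5 : (fst (pr (on1 i) w)).length = i := by simp [on1]
          simp only [h5]
          rw [if_pos h2, List.getD, List.getElem?_eq_getElem h2]
          rfl
      rw [QL, Qv, h1]
      show A' x.1 = A x.1
      exact hA _ x.2
  | j + 1, w, hw, S, a => by
      rw [QL, Qv]
      apply decide_eq_decide.2
      have key : ∀ y : Idx m, QL (join (join Y (patchL G (tabL (j + 1) w S ++ a))) A') j
          (child w y.1) = Qv (fun x : Idx n => A x.1) j (S y) := by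
        intro y
        have h1 : patchL G (tabL (j + 1) w S ++ a) =
            patchL G (tabL j (child w y.1) (S y) ++ (tabL (j + 1) w S ++ a)) := by
          apply patchL_congr
          intro u
          rw [look_update]
          rw [Function.update_eq_self]
        rw [h1]
        exact QL_tab Y G a z hz1 hz2 A A' hA j _ (by rw [fst_child, hw]) _ _
      rw [hw, hz2]
      constructor
      · rintro ⟨y, hy, hy2⟩
        refine ⟨⟨y, hy⟩, ?_⟩
        rw [← key ⟨y, hy⟩, child, hw]
        exact hy2
      · rintro ⟨y, hy⟩
        refine ⟨y.1, y.2, ?_⟩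
        have h2 := key y
        rw [child, hw] at h2
        rw [h2]; exact hy

/-- a bit of the oracle patched with a mixed array is a decision tree of depth one -/
theorem tab_mix_dt (Y G : Lang) {m n : ℕ} (j : ℕ) (w : Str) (P Q : Idx m → Arr (Idx m) (Idx n) j)
    (a : List (Str × Str)) (v : Str) : ∃ D : DT (Idx m) Bool, D.depth ≤ 1 ∧
      ∀ b : Idx m → Bool, D.eval b =
        join Y (patchL G (tabL (j + 1) w (mix b P Q : Arr (Idx m) (Idx n) (j + 1)) ++ a)) v := by
  classical
  rcases v with _ | ⟨c, v⟩
  · exact ⟨DT.leaf false, by simp [DT.depth], fun b => rfl⟩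
  cases c
  · exact ⟨DT.leaf (Y v), by simp [DT.depth], fun b => rfl⟩
  have h0 : ∀ S : Arr (Idx m) (Idx n) (j + 1), join Y (patchL G (tabL (j + 1) w S ++ a)) (true :: v)
      = patchL G (tabL (j + 1) w S ++ a) v := fun S => rfl
  simp only [h0]
  have hloc : ∀ S S' : Arr (Idx m) (Idx n) (j + 1),
      look (tabL (j + 1) w S) (snd v) = look (tabL (j + 1) w S') (snd v) →
      patchL G (tabL (j + 1) w S ++ a) v = patchL G (tabL (j + 1) w S' ++ a) v := by
    intro S S' h
    unfold patchL
    rw [look_append, look_append, h]
  by_cases hy : ∃ y : Idx m, y.1 = fst (snd (up^[j] (snd v)))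
  · obtain ⟨y, hy⟩ := hy
    refine ⟨DT.node y (DT.leaf (patchL G (tabL (j + 1) w (P : Arr (Idx m) (Idx n) (j + 1)) ++ a) v))
      (DT.leaf (patchL G (tabL (j + 1) w (Q : Arr (Idx m) (Idx n) (j + 1)) ++ a) v)),
      by simp [DT.depth], fun b => ?_⟩
    simp only [DT.eval]
    split_ifs with hb
    · apply hloc
      apply look_dep
      intro y' hy'
      have : y' = y := Subtype.ext (hy'.trans hy.symm)
      subst this
      simp [mix, hb]
    · apply hloc
      apply look_dep
      intro y' hy'
      have : y' = y := Subtype.ext (hy'.trans hy.symm)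
      subst this
      simp [mix, hb]
  · refine ⟨DT.leaf (patchL G (tabL (j + 1) w (P : Arr (Idx m) (Idx n) (j + 1)) ++ a) v),
      by simp [DT.depth], fun b => ?_⟩
    simp only [DT.eval]
    apply hloc
    apply look_dep
    intro y' hy'
    exact absurd ⟨y', hy'⟩ hy

/-! ### sizes -/

theorem szL_append (a b : List (Str × Str)) : szL (a ++ b) = szL a + szL b := by
  simp [szL]

theorem szL_tab {m n : ℕ} : ∀ (j : ℕ) (w : Str) (S : Arr (Idx m) (Idx n) j),
    szL (tabL j w S) ≤ (2 ^ m) ^ j * (3 ^ j * (w.length + 2 * m + 2) + n + 1)
  | 0, w, x => by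
      have := x.2
      simp only [tabL, szL, List.map_cons, List.map_nil, List.sum_cons, List.sum_nil, pow_zero]
      omega
  | j + 1, w, Y => by
      have h : ∀ l : List (Idx m), szL (l.flatMap (fun y => tabL j (child w y.1) (Y y))) ≤
          l.length * ((2 ^ m) ^ j * (3 ^ j * ((3 * w.length + 2 * m + 2) + 2 * m + 2) + n + 1)) := by
        intro l
        induction l with
        | nil => simp [szL]
        | cons y l ih =>
            rw [List.flatMap_cons, szL_append, List.length_cons, add_mul, one_mul, add_comm]
            apply Nat.add_le_add ih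
            refine (szL_tab j (child w y.1) (Y y)).trans ?_
            apply Nat.mul_le_mul_left
            have h1 := child_length_le w y.1
            rw [y.2] at h1
            have h2 : 3 ^ j * ((child w y.1).length + 2 * m + 2) ≤
                3 ^ j * ((3 * w.length + 2 * m + 2) + 2 * m + 2) := Nat.mul_le_mul_left _ (by omega)
            omega
      rw [tabL]
      refine (h _).trans ?_
      rw [Finset.length_toList, Finset.card_univ, card_vector, Fintype.card_bool, ← mul_assoc,
        pow_succ (2 ^ m) j, mul_comm ((2 ^ m) ^ j) (2 ^ m)]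
      apply Nat.mul_le_mul_left
      have h2 : 3 ^ j * ((3 * w.length + 2 * m + 2) + 2 * m + 2) ≤
          3 ^ (j + 1) * (w.length + 2 * m + 2) := by
        rw [pow_succ, mul_assoc]
        exact Nat.mul_le_mul_left _ (by omega)
      omega

/-- long leaves -/
theorem leaf_length {m n : ℕ} : ∀ (j : ℕ) (w : Str) (S : Arr (Idx m) (Idx n) j) (u e : Str),
    Leaf j w S u e → (w = pr (fst w) (snd w)) → w.length ≤ u.length
  | 0, w, x, u, e, h, _ => by rw [h.1]
  | j + 1, w, Y, u, e, h, hw => by
      obtain ⟨y, hy⟩ := h
      have h1 := leaf_length j _ _ _ _ hy (by rw [fst_child, snd_child, child])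
      exact (length_le_child w y.1 _ hw).trans h1

/-- the patched oracle agrees with the old one on short strings -/
theorem patch_short {m n : ℕ} (G : Lang) (j : ℕ) (w : Str) (S : Arr (Idx m) (Idx n) j)
    (hw : w = pr (fst w) (snd w)) (v : Str) (hv : v.length < w.length) :
    patchL G (tabL j w S) v = G v := by
  unfold patchL
  have h : look (tabL j w S) (snd v) = none := by
    rw [look_none]
    intro e he
    rw [mem_tabL] at he
    have h1 := leaf_length j w S _ _ he hw
    have h2 := snd_length v
    omega
  rw [h]

end Pool.Agent.Lib.Pa76659G
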