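import Pool.Agent.Lib.Pa76659G.UniK
import Pool.Agent.Lib.Pa76659G.HcB
import Pool.Agent.Lib.Pa76659G.Adv
import Pool.Agent.Lib.Pa76659H.Fin

set_option autoImplicit false

/-!
Transfer of high sets to generic extensions: the gated set.

`X = Y ⊕ G`. The set `AG Y H G` is the join of `H` with the complete set of `NP^X`, the latter only
at the lengths `n` such that `G` has an element of length in the window `(log n, n]`.
-/

namespace Pool.Agent.Lib.Pa76659G.Tr

open Pool.Agent.Lib.Pa76659 Pool.Agent.Lib.Pa76659H PC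

open Classical in
/-- `G` has an element with length in the window `(log n, n]` -/
noncomputable def ne (G : Lang) (n : ℕ) : Bool :=
  decide (∃ g : Str, n < 2 ^ g.length ∧ g.length ≤ n ∧ G g = true)

theorem ne_iff {G : Lang} {n : ℕ} :
    ne G n = true ↔ ∃ g : Str, n < 2 ^ g.length ∧ g.length ≤ n ∧ G g = true := by
  classical
  unfold ne
  rw [decide_eq_true_eq]

/-- the gated complete set -/
noncomputable def gate (Y G : Lang) : Lang := fun v =>
  Unv.KU (join Y G) (fst v) && (ne G (snd v).length && decide ((fst v).length ≤ (snd v).length))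

/-- the set of the transfer theorem -/
noncomputable def AG (Y H G : Lang) : Lang := join (gate Y G) H

theorem gate_pr {Y G : Lang} {z : Str} {n : ℕ} (h : z.length ≤ n) :
    gate Y G (pr z (on1 n)) = (Unv.KU (join Y G) z && ne G n) := by
  unfold gate
  rw [fst_pr, snd_pr, show (on1 n).length = n by simp [on1], decide_eq_true h, Bool.and_true]

/-! ### finite parts -/

theorem length_le_un : ∀ v : Str, v.length ≤ 2 * (fst v).length + (snd v).length + 1
  | [] => by simp
  | false :: l => by rw [fst_false, snd_false]; simp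
  | [true] => by simp
  | true :: c :: l => by
      have := length_le_un l
      rw [fst_cons, snd_cons]
      simp only [List.length_cons]
      omega

theorem ne_fin {G : Lang} {n0 : ℕ} (h : ∀ v : Str, n0 ≤ v.length → G v = false) {n : ℕ}
    (hn : 2 ^ n0 ≤ n) : ne G n = false := by
  rw [← Bool.not_eq_true, ne_iff]
  rintro ⟨g, h1, -, h3⟩
  by_cases hg : n0 ≤ g.length
  · rw [h g hg] at h3
    exact absurd h3 (by simp)
  · have : 2 ^ g.length ≤ 2 ^ n0 := Nat.pow_le_pow_right (by norm_num) (by omega)
    omega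

/-- for a finite `G` the gated set is finite -/
theorem gate_fin {Y G : Lang} {n0 : ℕ} (h : ∀ v : Str, n0 ≤ v.length → G v = false) {v : Str}
    (hv : 3 * 2 ^ n0 + 2 ≤ v.length) : gate Y G v = false := by
  unfold gate
  by_cases h1 : (fst v).length ≤ (snd v).length
  · have h2 := length_le_un v
    rw [ne_fin h (by omega)]
    simp
  · rw [decide_eq_false h1]
    simp

/-! ### the gated set is in `NP` -/

theorem two_pow_poly {α : Type} {O : Lang} {D : α → Prop} {ctx : List (α → Str)} {m n : α → ℕ}
    (hm : PolyN (fun _ => O) D ctx m) (hn : PolyN (fun _ => O) D ctx n) :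
    PolyB (fun _ => O) D ctx (fun a => decide (n a < 2 ^ m a)) := by
  refine (PolyB.natEq (Hi.div_poly hn hm) (PolyN.const 0)).congr (fun a _ => ?_)
  rw [Bool.eq_iff_iff, decide_eq_true_eq, decide_eq_true_eq]
  exact Nat.div_eq_zero_iff_lt (Nat.two_pow_pos _)

theorem ne_mem (Y G : Lang) : (fun v => ne G (snd v).length) ∈ NPO (join Y G) := by
  have hx : PolyC (fun _ : Str × Str => join Y G) (fun _ => True) [fun p => p.1, fun p => p.2]
    (fun p => p.1) := PolyC.var (by simp)
  have hy : PolyC (fun _ : Str × Str => join Y G) (fun _ => True) [fun p => p.1, fun p => p.2]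
    (fun p => p.2) := PolyC.var (by simp)
  have hn := PolyN.length (PolyC.snd hx)
  have hm := PolyN.length hy
  have h3 : PolyB (fun _ : Str × Str => join Y G) (fun _ => True) [fun p => p.1, fun p => p.2]
      (fun p => G p.2) := polyB_of_PO (right_PO Y G) hy
  refine mem_NPO_le (V := fun p => decide ((snd p.1).length < 2 ^ p.2.length) &&
    (decide (p.2.length ≤ (snd p.1).length) && G p.2)) Polynomial.X
    ((two_pow_poly hm hn).and ((PolyB.le hm hn).and h3)) (fun x => ?_)
  rw [ne_iff]
  simp only [Bool.and_eq_true, decide_eq_true_eq, Polynomial.eval_X]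
  constructor
  · rintro ⟨g, h1, h2, h3⟩
    exact ⟨g, h2.trans (snd_length_le x), h1, h2, h3⟩
  · rintro ⟨g, -, h1, h2, h3⟩
    exact ⟨g, h1, h2, h3⟩

theorem gate_mem (Y G : Lang) : gate Y G ∈ NPO (join Y G) := by
  have hx : PolyC (fun _ : Str => join Y G) (fun _ => True) [fun x => x] (fun x => x) :=
    PolyC.var (by simp)
  have h1 : (fun v => Unv.KU (join Y G) (fst v)) ∈ NPO (join Y G) :=
    NPO_comp (Unv.KU_mem _) (PolyC.fst hx)
  have h2 : (fun v : Str => decide ((fst v).length ≤ (snd v).length)) ∈ NPO (join Y G) :=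
    PO_subset_NPO _ (mem_PO (PolyB.le (PolyN.length (PolyC.fst hx)) (PolyN.length (PolyC.snd hx))))
  exact Hc.NPO_and h1 (Hc.NPO_and (ne_mem Y G) h2)

theorem AG_mem {Y H : Lang} (hH : H ∈ NPO Y) (G : Lang) : AG Y H G ∈ NPO (join Y G) :=
  NPO_join (gate_mem Y G) (NPO_subset (left_PO Y G) hH)

end Pool.Agent.Lib.Pa76659G.Tr
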