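import Pool.Agent.Lib.Pa76659G.TrA

set_option autoImplicit false

/-!
Closure properties of the levels of the hierarchy: reductions, parameters, tables.
-/

namespace Pool.Agent.Lib.Pa76659G.Tr

open Pool.Agent.Lib.Pa76659 Pool.Agent.Lib.Pa76659H PC

/-! ### reductions -/

theorem PO_sub_Sig (O : Lang) : ∀ k : ℕ, PO O ⊆ Sig O k
  | 0 => subset_refl _
  | k + 1 => fun _ hL => ⟨O, PO_sub_Sig O k (query_mem O), PO_subset_NPO O hL⟩

/-- `f` is computable in polynomial time from `O` and everything above `O` -/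
def Red (O : Lang) (f : Str → Str) : Prop :=
  ∀ O' : Lang, O ∈ PO O' → PolyC (fun _ : Str => O') (fun _ => True) [fun x => x] f

theorem Sig_comp {O : Lang} {k : ℕ} {L : Lang} (h : L ∈ Sig O k) {f : Str → Str} (hf : Red O f) :
    (fun x => L (f x)) ∈ Sig O k := by
  rcases k with _ | k
  · exact mem_PO (polyB_of_PO h (hf O (query_mem O)))
  · obtain ⟨B, hB, hL⟩ := h
    exact ⟨join B O, Sig_join hB (PO_sub_Sig O k (query_mem O)),
      NPO_comp (NPO_subset (left_PO B O) hL) (hf _ (right_PO B O))⟩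

theorem Del_comp {O : Lang} {k : ℕ} {L : Lang} (h : L ∈ DelSucc O k) {f : Str → Str}
    (hf : Red O f) : (fun x => L (f x)) ∈ DelSucc O k := by
  obtain ⟨B, hB, hL⟩ := h
  exact ⟨join B O, Sig_join hB (PO_sub_Sig O k (query_mem O)),
    mem_PO (polyB_of_PO (PO_subset (left_PO B O) hL) (hf _ (right_PO B O)))⟩

theorem Del_join {O : Lang} {k : ℕ} {L1 L2 : Lang} (h1 : L1 ∈ DelSucc O k)
    (h2 : L2 ∈ DelSucc O k) : join L1 L2 ∈ DelSucc O k := by
  obtain ⟨B1, hB1, hL1⟩ := h1
  obtain ⟨B2, hB2, hL2⟩ := h2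
  exact ⟨join B1 B2, Sig_join hB1 hB2, PO_join (PO_subset (left_PO _ _) hL1)
    (PO_subset (right_PO _ _) hL2)⟩

/-! ### parameters -/

/-- a family of oracles which is uniformly in `P(O)` -/
def Fam (O : Lang) (U : Str → Lang) : Prop := (fun w => U (fst w) (snd w)) ∈ PO O

theorem Fam.poly {O : Lang} {U : Str → Lang} (hU : Fam O U) {α : Type*} {D : α → Prop}
    {ctx : List (α → Str)} {s t : α → Str} (hs : PolyC (fun _ => O) D ctx s)
    (ht : PolyC (fun _ => O) D ctx t) : PolyB (fun _ => O) D ctx (fun a => U (s a) (t a)) := by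
  refine (polyB_of_PO hU (PolyC.pr hs ht)).congr (fun a _ => ?_)
  rw [fst_pr, snd_pr]

theorem sEval_param {O : Lang} {U : Str → Lang} (hU : Fam O U) (p : PIx) : ∀ l : List NIx,
    ∃ L' ∈ Sig O l.length, ∀ a z : Str, L' (pr a z) = sEval p l (U a) z
  | [] => by
      have hx : PolyC (fun _ : Str => O) (fun _ => True) [fun x => x] (fun x => x) :=
        PolyC.var (by simp)
      refine ⟨fun w => pEval p (U (fst w)) (snd w), mem_PO ?_, fun a z => ?_⟩
      · refine PolyB.pEval (orc := fun _ : Str => O) p (fun w => U (fst w)) (fun w => snd w) ?_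
          (PolyC.snd hx)
        refine hU.poly (s := fun p : Str × Str => fst p.1) (t := fun p => p.2) ?_
          (PolyC.var (by simp))
        exact ((PolyC.fst hx).lift (D' := fun _ : Str × Str => True)
          (fun _ _ => trivial)).weakenRight _
      · simp only [fst_pr, snd_pr]
        rfl
  | i :: l => by
      obtain ⟨B', hB', h⟩ := sEval_param hU p l
      refine ⟨T2 B' i.1 i.2.1 i.2.2, ⟨B', hB', T2_mem _ _ _ _⟩, fun a z => ?_⟩
      have e : (fun v => B' (pr a v)) = sEval p l (U a) := funext fun v => h a v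
      rw [Bool.eq_iff_iff]
      unfold T2
      simp only [decide_eq_true_eq, fst_pr, snd_pr, e]
      show _ ↔ nEval i (sEval p l (U a)) z = true
      unfold nEval
      simp only [decide_eq_true_eq]

/-! ### tables -/

/-- enumeration of all strings -/
def str (i : ℕ) : Str := Hi.bs (Nat.log 2 (i + 1)) (i + 1)

theorem str_surj (g : Str) {n : ℕ} (h : 2 ^ g.length ≤ n) : ∃ i < 2 * n, str i = g := by
  obtain ⟨r, hr, hg⟩ := Hi.bs_surj g
  have hl : Nat.log 2 (2 ^ g.length + r) = g.length := by
    refine (Nat.log_eq_iff (Or.inr ⟨by norm_num, by positivity⟩)).2 ⟨by omega, ?_⟩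
    rw [pow_succ]
    omega
  refine ⟨2 ^ g.length + r - 1, by omega, ?_⟩
  have h1 : 2 ^ g.length + r - 1 + 1 = 2 ^ g.length + r := by
    have := Nat.two_pow_pos g.length
    omega
  unfold str
  rw [h1, hl]
  conv_rhs => rw [← hg]
  unfold Hi.bs
  refine List.map_congr_left (fun j hj => ?_)
  rw [List.mem_range] at hj
  rw [Nat.testBit_two_pow_add_gt hj]

/-- the table of the values of `G` at the first strings -/
def tabG (G : Lang) (n : ℕ) : Str := (List.range (2 * n)).map (fun i => G (str i))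

/-- the oracle given by a table -/
def GT (T : Str) : Lang := fun g => decide (∃ i < T.length, str i = g ∧ T.getD i false = true)

theorem GT_tab {G : Lang} {n : ℕ} (hn : ne G n = false) {g : Str} (hg : g.length ≤ n) :
    GT (tabG G n) g = G g := by
  have hl : (tabG G n).length = 2 * n := by simp [tabG]
  have hget : ∀ i < 2 * n, (tabG G n).getD i false = G (str i) := by
    intro i hi
    rw [List.getD_eq_getElem _ _ (by rw [hl]; exact hi)]
    simp [tabG]
  unfold GT
  rw [Bool.eq_iff_iff, decide_eq_true_eq, hl]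
  constructor
  · rintro ⟨i, hi, h1, h2⟩
    rw [hget i hi, h1] at h2
    exact h2
  · intro h
    have h1 : 2 ^ g.length ≤ n := by
      by_contra hlt
      push Not at hlt
      rw [← Bool.not_eq_true, ne_iff] at hn
      exact hn ⟨g, hlt, hg, h⟩
    obtain ⟨i, hi, hi2⟩ := str_surj g h1
    exact ⟨i, hi, hi2, by rw [hget i hi, hi2, h]⟩

theorem str_poly {α : Type} {O : Lang} {D : α → Prop} {ctx : List (α → Str)} {i : α → ℕ}
    (hi : PolyN (fun _ => O) D ctx i) : PolyC (fun _ => O) D ctx (fun a => str (i a)) :=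
  Hi.bs_poly (Hi.log_poly hi.succ) hi.succ

theorem tabG_poly {α : Type} {O G : Lang} (hG : G ∈ PO O) {D : α → Prop} {ctx : List (α → Str)}
    {n : α → ℕ} (hn : PolyN (fun _ => O) D ctx n) :
    PolyC (fun _ => O) D ctx (fun a => tabG G (n a)) := by
  refine PolyC.map_range (φ := fun p : α × ℕ => G (str p.2)) ((PolyN.const 2).mul hn) ?_
  exact polyB_of_PO hG (str_poly (PolyC.var (by simp)))

theorem GT_poly {α : Type} {O : Lang} {D : α → Prop} {ctx : List (α → Str)} {T g : α → Str}
    (hT : PolyC (fun _ => O) D ctx T) (hg : PolyC (fun _ => O) D ctx g) :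
    PolyB (fun _ => O) D ctx (fun a => GT (T a) (g a)) := by
  refine (PolyB.exists_lt (n := fun a => (T a).length)
    (φ := fun p : α × ℕ => decide (str p.2 = g p.1) && (T p.1).getD p.2 false)
    (PolyN.length hT) ?_).congr (fun a _ => ?_)
  · have hk : PolyN (fun _ : α × ℕ => O) (fun p => D p.1 ∧ p.2 < (T p.1).length)
      (PC.lift ctx ++ [fun p => una p.2]) (fun p => p.2) := PolyC.var (by simp)
    have hT' : PolyC (fun _ : α × ℕ => O) (fun p => D p.1 ∧ p.2 < (T p.1).length)
      (PC.lift ctx ++ [fun p => una p.2]) (fun p => T p.1) :=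
      (PolyC.lift hT (fun p hp => hp.1)).weakenRight _
    have hg' : PolyC (fun _ : α × ℕ => O) (fun p => D p.1 ∧ p.2 < (T p.1).length)
      (PC.lift ctx ++ [fun p => una p.2]) (fun p => g p.1) :=
      (PolyC.lift hg (fun p hp => hp.1)).weakenRight _
    exact (PolyB.strEq (str_poly hk) hg').and (PolyB.getD hT' hk)
  · unfold GT
    rw [Bool.eq_iff_iff]
    simp only [Bool.and_eq_true, decide_eq_true_eq]

end Pool.Agent.Lib.Pa76659G.Tr
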