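import Pool.Agent.Lib.Pa76659G.TrY
import Pool.Agent.Lib.Pa76659G.Final3
import Pool.Agent.Lib.Pa76659P.PLim

set_option autoImplicit false

/-!
Both hierarchies relative to generic oracles: assembly, with a family `A` of gate sets as hypothesis.
-/

namespace Pool.Agent.Lib.Pa76659G.Tr

open Pool.Agent.Lib.Pa76659 Pool.Agent.Lib.Pa76659G Pool.Agent.Lib.Pa76659G.PC
open Pool.Agent.Lib.Pa76659H (High RHighSucc high_rhigh)

theorem rhigh_high {X : Lang} {k : ℕ} : RHighSucc X k ⊆ High X (k + 1) := by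
  rintro A ⟨hA, h⟩
  refine ⟨hA, ?_⟩
  rintro L ⟨B, hB, hL⟩
  obtain ⟨C, hC, hBC⟩ := h ⟨B, hB, query_mem B⟩
  exact ⟨C, hC, NPO_subset hBC hL⟩

/-- the gate sets -/
structure Gate (A : Lang → Lang → Lang → Lang) : Prop where
  loc : ∀ Y H, Loc (A Y H)
  fin : ∀ (Y H G : Lang) (N : ℕ), (∀ v : Str, N ≤ v.length → G v = false) → A Y H G ∈ PO (join Y H)
  high : ∀ (Y H G : Lang) (k : ℕ), H ∈ High Y k → A Y H G ∈ High (join Y G) k
  rhigh : ∀ (Y H G : Lang) (k : ℕ), H ∈ RHighSucc Y k → A Y H G ∈ RHighSucc (join Y G) k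

variable {A : Lang → Lang → Lang → Lang}

theorem trans_one (hA : Gate A) (Y : Lang) (k : ℕ) : ∀ᶠ G in residual Lang,
    RHighSucc (join Y G) k ⊆ High (join Y G) k → RHighSucc Y k ⊆ High Y k := by
  by_cases h : RHighSucc Y k ⊆ High Y k
  · exact Filter.Eventually.of_forall fun _ _ => h
  · obtain ⟨H, hH, hH2⟩ := Set.not_subset.1 h
    filter_upwards [back_sig Y H (hA.loc Y H) (fun G N hG => hA.fin Y H G N hG) (left_mem Y H)]
      with G hG hsub
    have h1 := (hsub (hA.rhigh Y H G k hH)).2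
    exact absurd ⟨hH.1, hG k h1⟩ hH2

theorem trans_two (hA : Gate A) (Y : Lang) (k : ℕ) : ∀ᶠ G in residual Lang,
    High (join Y G) (k + 1) ⊆ RHighSucc (join Y G) k → High Y (k + 1) ⊆ RHighSucc Y k := by
  by_cases h : High Y (k + 1) ⊆ RHighSucc Y k
  · exact Filter.Eventually.of_forall fun _ _ => h
  · obtain ⟨H, hH, hH2⟩ := Set.not_subset.1 h
    filter_upwards [back_del Y H (hA.loc Y H) (fun G N hG => hA.fin Y H G N hG) (left_mem Y H)]
      with G hG hsub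
    have h1 := (hsub (hA.high Y H G (k + 1) hH)).2
    exact absurd ⟨hH.1, hG k h1⟩ hH2

/-- `P` and `NP ∩ coNP` -/
theorem trans_low (Y : Lang) : ∀ᶠ G in residual Lang,
    RLowSucc Y 0 ⊂ Low Y 1 → RLowSucc (join Y G) 0 ⊂ Low (join Y G) 1 := by
  by_cases h : RLowSucc Y 0 ⊂ Low Y 1
  · obtain ⟨B, hB, hB2⟩ := Set.not_subset.1 h.2
    have hBP : B ∉ PO Y := by
      intro hP
      apply hB2
      refine ⟨hB.1, ?_⟩
      rintro L ⟨C, hC, hL⟩
      refine ⟨C, PO_subset ?_ hC, hL⟩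
      exact PO_join (query_mem Y) hP
    filter_upwards [back_P Y B hBP, generic_chain Y] with G hG hc _
    refine ⟨rlow_low, fun hsub => ?_⟩
    have hBX : B ∈ Low (join Y G) 1 := by
      have hY := left_mem Y G
      rw [(hc _ rfl).2.2.2.2.2.2.1]
      refine ⟨NPO_subset hY hB.1, NPO_subset hY ?_⟩
      have h1 : (fun x => !(B x)) ∈ Sig (join Y B) 1 := by
        refine ⟨join Y B, query_mem _, PO_subset_NPO _ (mem_PO ?_)⟩
        exact PolyB.not (PolyC.query (PolyC.cons true (PolyC.var (by simp))))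
      obtain ⟨C, hC, h2⟩ := hB.2 h1
      exact NPO_subset hC h2
    have h3 := (hsub hBX).2
    apply hG
    have h4 : B ∈ DelSucc (join (join Y G) B) 0 :=
      ⟨join (join Y G) B, query_mem _, right_mem _ _⟩
    obtain ⟨C, hC, h5⟩ := h3 h4
    exact PO_subset hC h5
  · exact Filter.Eventually.of_forall fun _ h' => absurd h' h

/-- Both hierarchies relative to generic oracles above an arbitrary base. -/
theorem generic_both (hA : Gate A) (Y : Lang) : ∀ᶠ G in residual Lang, ∀ X, X = join Y G →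
    ((∀ k, Sig X k ≠ Sig X (k + 1)) ∧
      Low X 1 ⊂ RLowSucc X 1 ∧ RLowSucc X 1 ⊂ Low X 2 ∧ Low X 2 ⊂ RLowSucc X 2 ∧
      RLowSucc X 2 ⊂ Low X 3 ∧
      (∀ k, 3 ≤ k → Low X k = RLowSucc X k ∧ RLowSucc X k = Low X (k + 1)) ∧
      Low X 1 = {A | A ∈ NPO X ∧ (fun x => !(A x)) ∈ NPO X} ∧
      RLowSucc X 1 = {A | A ∈ NPO X ∧ (fun x => !(A x)) ∈ NPAdv X 1} ∧
      Low X 2 = {A | A ∈ NPO X ∧ (fun x => !(A x)) ∈ NPChk X} ∧
      Low X 3 = {A | A ∈ NPO X ∧ (fun x => !(A x)) ∈ NPPoly X}) ∧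
    (RLowSucc Y 0 ⊂ Low Y 1 → RLowSucc X 0 ⊂ Low X 1) ∧
    RHighSucc X 0 ⊂ High X 1 ∧
    (∀ k, High Y k ⊂ RHighSucc Y k → High X k ⊂ RHighSucc X k) ∧
    ∀ k, RHighSucc Y k ⊂ High Y (k + 1) → RHighSucc X k ⊂ High X (k + 1) := by
  have h1 : ∀ᶠ G in residual Lang, ∀ k,
      RHighSucc (join Y G) k ⊆ High (join Y G) k → RHighSucc Y k ⊆ High Y k := by
    rw [eventually_countable_forall]
    exact trans_one hA Y
  have h2 : ∀ᶠ G in residual Lang, ∀ k,
      High (join Y G) (k + 1) ⊆ RHighSucc (join Y G) k → High Y (k + 1) ⊆ RHighSucc Y k := by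
    rw [eventually_countable_forall]
    exact trans_two hA Y
  filter_upwards [generic_chain Y, h1, h2, trans_low Y, high_one Y] with G c1 c2 c3 c4 c5
  rintro X rfl
  exact ⟨c1 _ rfl, c4, ⟨rhigh_high, c5⟩, fun k hk => ⟨high_rhigh, fun h => hk.2 (c2 k h)⟩,
    fun k hk => ⟨rhigh_high, fun h => hk.2 (c3 k h)⟩⟩

/-- A base for which everything is decided. -/
theorem exists_base (hA : Gate A) : ∃ Y : Lang, ∀ᶠ G in residual Lang, ∀ X, X = join Y G →
    (∀ k, Sig X k ≠ Sig X (k + 1)) ∧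
    (∀ k, RHighSucc X k ⊂ High X (k + 1)) ∧ (∀ k, High X (k + 1) ⊂ RHighSucc X (k + 1)) ∧
    (∀ k, k < 3 → RLowSucc X k ⊂ Low X (k + 1)) ∧ (∀ k, k < 2 → Low X (k + 1) ⊂ RLowSucc X (k + 1)) ∧
    ∀ k, 3 ≤ k → Low X k = RLowSucc X k ∧ RLowSucc X k = Low X (k + 1) := by
  obtain ⟨Bp, Y, hY⟩ := Pa76659P.exists_spec
  obtain ⟨b1, b2, b3, b4, b5⟩ := Pa76659P.allProper_of_spec hY
  refine ⟨Y, ?_⟩
  filter_upwards [generic_both hA Y] with G hG X hX
  obtain ⟨⟨c1, c2, c3, c4, c5, c6, -⟩, c7, -, c8, c9⟩ := hG X hX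
  refine ⟨c1, fun k => c9 k (b5 k), fun k => c8 (k + 1) (b4 k), fun k hk => ?_, fun k hk => ?_, c6⟩
  · rcases k with _ | _ | _ | k
    · exact c7 (b3 0)
    · exact c3
    · exact c5
    · omega
  · rcases k with _ | _ | k
    · exact c2
    · exact c4
    · omega

end Pool.Agent.Lib.Pa76659G.Tr
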