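import Pool.Agent.Lib.Pa76659G.TrC
import Pool.Agent.Lib.Pa76659G.TrZ
import Pool.Agent.Lib.Pa76659G.TrEnd

set_option autoImplicit false

/-!
The gated sets of `TrA` satisfy the hypotheses of `TrEnd`.
-/

namespace Pool.Agent.Lib.Pa76659G.Tr

open Pool.Agent.Lib.Pa76659 Pool.Agent.Lib.Pa76659G Pool.Agent.Lib.Pa76659G.PC
open Pool.Agent.Lib.Pa76659G.Unv

/-! ### locality -/

theorem ne_congr {G G' : Lang} {n : ℕ} (h : ∀ v : Str, v.length ≤ n → G v = G' v) :
    ne G n = ne G' n := by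
  rw [Bool.eq_iff_iff, ne_iff, ne_iff]
  constructor
  · rintro ⟨g, h1, h2, h3⟩
    exact ⟨g, h1, h2, by rw [← h g h2]; exact h3⟩
  · rintro ⟨g, h1, h2, h3⟩
    exact ⟨g, h1, h2, by rw [h g h2]; exact h3⟩

theorem loc_AG (Y H : Lang) : Loc (AG Y H) := by
  refine Loc_join ?_ (loc_const H)
  intro n
  obtain ⟨m, hm⟩ := (loc_KU.comp (Loc_join (loc_const Y) loc_id)) n
  refine ⟨m + n, fun O O' h x hx => ?_⟩
  have h1 := hm O O' (fun v hv => h v (by omega)) (fst x) ((fst_length_le x).trans hx)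
  have h2 : ne O (snd x).length = ne O' (snd x).length :=
    ne_congr (fun v hv => h v (by have := snd_length_le x; omega))
  beta_reduce at h1
  unfold gate
  rw [h1, h2]

/-! ### finite oracles -/

theorem fin_PO (O F : Lang) (N : ℕ) (h : ∀ v : Str, N ≤ v.length → F v = false) : F ∈ PO O := by
  have hx : PolyC (fun _ : Str => O) (fun _ => True) [fun x => x] (fun x => x) :=
    PolyC.var (by simp)
  refine mem_PO ((PolyB.finite N F hx).congr ?_)
  intro v _
  split_ifs with h1
  · rfl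
  · exact (h v (by omega)).symm

theorem AG_fin (Y H G : Lang) (N : ℕ) (h : ∀ v : Str, N ≤ v.length → G v = false) :
    AG Y H G ∈ PO (join Y H) :=
  PO_join (fin_PO _ _ _ fun _ hv => gate_fin h hv) (right_mem Y H)

theorem gate_AG : Gate AG where
  loc := loc_AG
  fin := AG_fin
  high := fun _ _ G _ hH => high_of_high hH G
  rhigh := fun _ _ G _ hH => rhigh_of_rhigh hH G

end Pool.Agent.Lib.Pa76659G.Tr
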