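import Pool.Agent.Lib.Pa76659G.TrS

set_option autoImplicit false

/-!
The two-mode lemma: for every length bound `N` either `O` answers all questions to `NP^X` sets, or `X`
is, on strings of length at most `N`, given by `Y` and a short table. Then an inclusion relative to the
base `Y` gives the inclusion relative to `X`.
-/

namespace Pool.Agent.Lib.Pa76659G.Tr

open Pool.Agent.Lib.Pa76659 Pool.Agent.Lib.Pa76659G Pool.Agent.Lib.Pa76659G.PC

/-- `f` is computable in polynomial time with every oracle that computes `O` -/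
def FPx (O : Lang) (f : Str → Str) : Prop :=
  ∀ O' : Lang, O ∈ PO O' → PolyC (fun _ : Str => O') (fun _ => True) [fun x => x] f

theorem self_mem (O : Lang) : ∀ k : ℕ, O ∈ Sig O k
  | 0 => query_mem O
  | k + 1 => ⟨O, self_mem O k, PO_subset_NPO O (query_mem O)⟩

theorem Sig_comp {O L : Lang} {f : Str → Str} (hf : FPx O f) : ∀ {k : ℕ}, L ∈ Sig O k →
    (fun x => L (f x)) ∈ Sig O k
  | 0, h => mem_PO (polyB_of_PO h (hf O (query_mem O)))
  | k + 1, ⟨B, hB, h⟩ =>
      ⟨join O B, Sig_join (self_mem O k) hB,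
        NPO_comp (NPO_subset (right_PO O B) h) (hf _ (left_PO O B))⟩

theorem Del_comp {O L : Lang} {f : Str → Str} (hf : FPx O f) {k : ℕ} (h : L ∈ DelSucc O k) :
    (fun x => L (f x)) ∈ DelSucc O k := by
  obtain ⟨B, hB, h⟩ := h
  exact ⟨join O B, Sig_join (self_mem O k) hB,
    mem_PO (polyB_of_PO (PO_subset (right_PO O B) h) (hf _ (left_PO O B)))⟩

theorem Del_join {X : Lang} {k : ℕ} {L1 L2 : Lang} (h1 : L1 ∈ DelSucc X k) (h2 : L2 ∈ DelSucc X k) :
    join L1 L2 ∈ DelSucc X k := by
  obtain ⟨B1, hB1, h1⟩ := h1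
  obtain ⟨B2, hB2, h2⟩ := h2
  exact ⟨join B1 B2, Sig_join hB1 hB2, PO_join (PO_subset (left_PO _ _) h1)
    (PO_subset (right_PO _ _) h2)⟩

/-- the choice between two computable strings -/
def sel (c : Str → Bool) (f1 f0 : Str → Str) : Str → Str := fun z => c z :: (if c z = true then f1 z else f0 z)

theorem sel_FPx {O : Lang} {c : Str → Bool} {f1 f0 : Str → Str} (hc : c ∈ PO O) (h1 : FPx O f1)
    (h0 : FPx O f0) : FPx O (sel c f1 f0) := by
  intro O' hO'
  have hx : PolyC (fun _ : Str => O') (fun _ => True) [fun x => x] (fun x => x) :=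
    PolyC.var (by simp)
  have hb : PolyB (fun _ : Str => O') (fun _ => True) [fun x => x] c :=
    polyB_of_PO (PO_subset hO' hc) hx
  exact PolyC.append hb (PolyC.ite hb ((h1 O' hO').mono fun _ h => h.1)
    ((h0 O' hO').mono fun _ h => h.1))

theorem join_sel (L0 L1 : Lang) (c : Str → Bool) (f1 f0 : Str → Str) (z : Str) :
    join L0 L1 (sel c f1 f0 z) = if c z = true then L1 (f1 z) else L0 (f0 z) := by
  unfold sel
  cases h : c z <;> simp [join]

/-- one nondeterministic set at the bottom -/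
theorem sig_shift {X : Lang} : ∀ {k : ℕ} {L : Lang}, L ∈ Sig X (k + 1) → ∃ B ∈ NPO X, L ∈ Sig B k
  | 0, L, ⟨B, hB, hL⟩ => ⟨L, NPO_subset hB hL, query_mem L⟩
  | k + 1, L, ⟨B, hB, hL⟩ => by
      obtain ⟨C, hC, hBC⟩ := sig_shift hB
      exact ⟨C, hC, B, hBC, hL⟩

/-- the data for the two modes -/
structure Modes (X Y H O : Lang) where
  b : ℕ → Bool
  tab : Str → Str
  W0 : Lang
  N0 : ℕ
  base : join Y H ∈ PO O
  hb : (fun w : Str => b w.length) ∈ PO O
  one : ∀ B ∈ NPO X, ∃ W ∈ PO O, ∃ r : Polynomial ℕ, ∀ N, N0 ≤ N → b N = true →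
    ∀ v : Str, r.eval v.length ≤ N → W (pr (on1 N) v) = B v
  htab : FPx O tab
  hW0 : W0 ∈ PO Y
  zero : ∀ N, N0 ≤ N → b N = false → ∀ v : Str, v.length ≤ N → W0 (pr (tab (on1 N)) v) = X v

theorem on1_length' (n : ℕ) : (on1 n).length = n := by rw [on1_eq, PC.un_length]

theorem FPx_one (O : Lang) (P : Polynomial ℕ) : FPx O (fun z => on1 (P.eval z.length)) := by
  intro O' _
  have hx : PolyC (fun _ : Str => O') (fun _ => True) [fun x => x] (fun x => x) :=
    PolyC.var (by simp)
  refine PolyC.congr ((PolyN.length hx).poly P) (fun z _ => ?_)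
  rw [on1_eq]

theorem FPx_pr1 {O : Lang} {f : Str → Str} (hf : FPx O f) : FPx O (fun z => pr (f z) z) :=
  fun O' h => PolyC.pr (hf O' h) (PolyC.var (by simp))

theorem FPx_comp {O : Lang} {f g : Str → Str} (hf : FPx O f) (hg : FPx O g) :
    FPx O (fun z => f (g z)) := fun O' h => PolyC.arg (hf O' h) (hg O' h)

theorem PO_len {O : Lang} {b : ℕ → Bool} (hb : (fun w : Str => b w.length) ∈ PO O)
    (P : Polynomial ℕ) : (fun z : Str => b (P.eval z.length)) ∈ PO O := by
  have h := mem_PO (polyB_of_PO hb (FPx_one O P O (query_mem O)))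
  have e : (fun x : Str => b (on1 (P.eval x.length)).length) = fun z => b (P.eval z.length) := by
    funext z
    rw [on1_length']
  rw [← e]
  exact h

/-- The inclusion for `Σ`. -/
theorem Modes.sig {X Y H O : Lang} (M : Modes X Y H O) {k : ℕ}
    (h : Sig Y (k + 1) ⊆ Sig (join Y H) k) : Sig X (k + 1) ⊆ Sig O k := by
  intro L hL
  obtain ⟨B, hB, hLB⟩ := sig_shift hL
  obtain ⟨W, hW, r, hr⟩ := M.one B hB
  obtain ⟨L1, hL1, F1, h1⟩ := subst hW k L hLB
  obtain ⟨L0, hL0, F0, h0⟩ := subst M.hW0 (k + 1) L hL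
  have hL0' : L0 ∈ Sig O k := Sig_mono M.base k (h hL0)
  set P : Polynomial ℕ := r.comp F1 + F0 + Polynomial.C M.N0 with hP
  have hP1 : ∀ z : Str, r.eval (F1.eval z.length) ≤ P.eval z.length := fun z => by
    simp only [hP, Polynomial.eval_add, Polynomial.eval_comp, Polynomial.eval_C]; omega
  have hP0 : ∀ z : Str, F0.eval z.length ≤ P.eval z.length := fun z => by
    simp only [hP, Polynomial.eval_add, Polynomial.eval_comp, Polynomial.eval_C]; omega
  have hPN : ∀ z : Str, M.N0 ≤ P.eval z.length := fun z => by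
    simp only [hP, Polynomial.eval_add, Polynomial.eval_comp, Polynomial.eval_C]; omega
  have hf1 : FPx O (fun z => pr (on1 (P.eval z.length)) z) := FPx_pr1 (FPx_one O P)
  have hf0 : FPx O (fun z => pr (M.tab (on1 (P.eval z.length))) z) :=
    FPx_pr1 (FPx_comp M.htab (FPx_one O P))
  have hs := sel_FPx (PO_len M.hb P) hf1 hf0
  have hfin := Sig_comp hs (Sig_join hL0' hL1)
  have e : L = fun z => join L0 L1 (sel (fun z => M.b (P.eval z.length))
      (fun z => pr (on1 (P.eval z.length)) z) (fun z => pr (M.tab (on1 (P.eval z.length))) z) z) := by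
    funext z
    rw [join_sel]
    split_ifs with hb
    · refine (h1 (on1 (P.eval z.length)) (F1.eval z.length) (fun v hv => ?_) z le_rfl).symm
      exact hr _ (hPN z) hb v ((eval_mono r hv).trans (hP1 z))
    · rw [Bool.not_eq_true] at hb
      exact (h0 _ (P.eval z.length) (fun v hv => M.zero _ (hPN z) hb v hv) z (hP0 z)).symm
  rw [e]
  exact hfin

/-- The inclusion for `Δ`. -/
theorem Modes.del {X Y H O : Lang} (M : Modes X Y H O) {k : ℕ}
    (h : DelSucc Y (k + 1) ⊆ DelSucc (join Y H) k) : DelSucc X (k + 1) ⊆ DelSucc O k := by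
  intro L hL
  obtain ⟨C, hC, hLC⟩ := id hL
  obtain ⟨B, hB, hCB⟩ := sig_shift hC
  obtain ⟨W, hW, r, hr⟩ := M.one B hB
  obtain ⟨L1, hL1, F1, h1⟩ := subst_del hW k L ⟨C, hCB, hLC⟩
  obtain ⟨L0, hL0, F0, h0⟩ := subst_del M.hW0 (k + 1) L hL
  have hL0' : L0 ∈ DelSucc O k := DelSucc_mono M.base k (h hL0)
  set P : Polynomial ℕ := r.comp F1 + F0 + Polynomial.C M.N0 with hP
  have hP1 : ∀ z : Str, r.eval (F1.eval z.length) ≤ P.eval z.length := fun z => by
    simp only [hP, Polynomial.eval_add, Polynomial.eval_comp, Polynomial.eval_C]; omega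
  have hP0 : ∀ z : Str, F0.eval z.length ≤ P.eval z.length := fun z => by
    simp only [hP, Polynomial.eval_add, Polynomial.eval_comp, Polynomial.eval_C]; omega
  have hPN : ∀ z : Str, M.N0 ≤ P.eval z.length := fun z => by
    simp only [hP, Polynomial.eval_add, Polynomial.eval_comp, Polynomial.eval_C]; omega
  have hf1 : FPx O (fun z => pr (on1 (P.eval z.length)) z) := FPx_pr1 (FPx_one O P)
  have hf0 : FPx O (fun z => pr (M.tab (on1 (P.eval z.length))) z) :=
    FPx_pr1 (FPx_comp M.htab (FPx_one O P))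
  have hs := sel_FPx (PO_len M.hb P) hf1 hf0
  have hfin := Del_comp hs (Del_join hL0' hL1)
  have e : L = fun z => join L0 L1 (sel (fun z => M.b (P.eval z.length))
      (fun z => pr (on1 (P.eval z.length)) z) (fun z => pr (M.tab (on1 (P.eval z.length))) z) z) := by
    funext z
    rw [join_sel]
    split_ifs with hb
    · refine (h1 (on1 (P.eval z.length)) (F1.eval z.length) (fun v hv => ?_) z le_rfl).symm
      exact hr _ (hPN z) hb v ((eval_mono r hv).trans (hP1 z))
    · rw [Bool.not_eq_true] at hb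
      exact (h0 _ (P.eval z.length) (fun v hv => M.zero _ (hPN z) hb v hv) z (hP0 z)).symm
  rw [e]
  exact hfin

end Pool.Agent.Lib.Pa76659G.Tr
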