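import Pool.Agent.Lib.Pa76659G.TrX

set_option autoImplicit false

/-!
Substitution of an oracle that is computed from the input: if `W (u, v) = X v` for the short strings `v`,
with `W` in `P^Y`, then the levels of the hierarchy relative to `X` are, with `u` as additional input,
in the levels relative to `Y`.
-/

namespace Pool.Agent.Lib.Pa76659G.Tr

open Pool.Agent.Lib.Pa76659 Pool.Agent.Lib.Pa76659G Pool.Agent.Lib.Pa76659G.PC

/-- deterministic machine with the oracle `W (u, ·)` -/
noncomputable def T0 (W : Lang) (p : PIx) : Lang := fun c => pEval p (fun v => W (pr (fst c) v)) (snd c)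

theorem T0_mem (W : Lang) (p : PIx) : T0 W p ∈ PO W := by
  refine mem_PO ?_
  have hx : PolyC (fun _ : Str => W) (fun _ => True) [fun x => x] (fun x => x) :=
    PolyC.var (by simp)
  refine PolyB.pEval (orc := fun _ : Str => W) p (fun c v => W (pr (fst c) v)) (fun c => snd c) ?_
    (PolyC.snd hx)
  have h1 : PolyC (fun _ : Str × Str => W) (fun _ => True) (PC.lift [fun x => x] ++ [fun p => p.2])
      (fun p => fst p.1) :=
    ((PolyC.fst hx).lift (D' := fun _ : Str × Str => True) (fun _ _ => trivial)).weakenRight _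
  have h2 : PolyC (fun _ : Str × Str => W) (fun _ => True) (PC.lift [fun x => x] ++ [fun p => p.2])
      (fun p => p.2) := PolyC.var (List.mem_append_right _ List.mem_cons_self)
  have h3 : PolyC (fun _ : Str × Str => W) (fun _ => True) (PC.lift [fun x => x] ++ [fun p => p.2])
      (fun p => [W (pr (fst p.1) p.2)]) := PolyC.query (PolyC.pr h1 h2)
  exact h3

theorem T0_eq {W X : Lang} (p : PIx) {u z : Str}
    (h : ∀ v : Str, v.length ≤ z.length + p.2.eval z.length → W (pr u v) = X v) :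
    T0 W p (pr u z) = pEval p X z := by
  unfold T0
  rw [fst_pr, snd_pr]
  unfold pEval
  rw [inp_eq]
  refine accepts_congr ?_
  intro v hv
  exact h v (by simpa using hv)

/-- Substitution in `Σ_k`. -/
theorem subst {X Y W : Lang} (hW : W ∈ PO Y) : ∀ k : ℕ, ∀ B ∈ Sig X k, ∃ B' ∈ Sig Y k,
    ∃ F : Polynomial ℕ, ∀ (u : Str) (m : ℕ), (∀ v : Str, v.length ≤ m → W (pr u v) = X v) →
      ∀ z : Str, F.eval z.length ≤ m → B' (pr u z) = B z
  | 0, B, hB => by
      obtain ⟨p, rfl⟩ := exists_pEval hB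
      refine ⟨T0 W p, PO_subset hW (T0_mem W p), Polynomial.X + p.2, fun u m hu z hz => ?_⟩
      refine T0_eq p (fun v hv => hu v ?_)
      simp only [Polynomial.eval_add, Polynomial.eval_X] at hz
      omega
  | k + 1, B2, ⟨B1, hB1, hB2⟩ => by
      obtain ⟨B1', hB1', F1, h1⟩ := subst hW k B1 hB1
      obtain ⟨M2, p2, k2, hM2⟩ := hB2
      refine ⟨T2 B1' M2 p2 k2, ⟨B1', hB1', T2_mem _ _ _ _⟩, F1.comp (Polynomial.X + k2 + p2), ?_⟩
      intro u m hu z hz
      refine T2_eq (hM2 z).2 (fun v hv => h1 u m hu v ?_)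
      refine (eval_mono F1 hv).trans ?_
      simpa using hz

/-- Substitution in `Δ_{k+1}`. -/
theorem subst_del {X Y W : Lang} (hW : W ∈ PO Y) (k : ℕ) (L : Lang) (hL : L ∈ DelSucc X k) :
    ∃ L' ∈ DelSucc Y k, ∃ F : Polynomial ℕ, ∀ (u : Str) (m : ℕ),
      (∀ v : Str, v.length ≤ m → W (pr u v) = X v) →
        ∀ z : Str, F.eval z.length ≤ m → L' (pr u z) = L z := by
  obtain ⟨B, hB, hL⟩ := hL
  obtain ⟨B', hB', F, hF⟩ := subst hW k B hB
  obtain ⟨p, rfl⟩ := exists_pEval hL
  refine ⟨T0 B' p, ⟨B', hB', T0_mem B' p⟩, F.comp (Polynomial.X + p.2), fun u m hu z hz => ?_⟩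
  refine T0_eq p (fun v hv => hF u m hu v ((eval_mono F hv).trans ?_))
  simpa using hz

end Pool.Agent.Lib.Pa76659G.Tr
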