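import Pool.Agent.Lib.Pa76659G.Cert
import Pool.Agent.Lib.Pa76659G.Circ

set_option autoImplicit false
set_option maxHeartbeats 4000000

/-!
Certificates for the machines of level 2: the run of the outer machine with guessed answers and
witnesses for the positive ones.
-/

namespace Pool.Agent.Lib.Pa76659G.Two

open Pool.Agent.Lib.Pa76659G
open Pool.Agent.Lib.Pa76659 (Str Lang Prog Cfg step runN PO NPO inp inp2 accepts Bdd Sig
  join PIx NIx pEval nEval sEval IsC SL poly_le poly_mono)
open Pool.Agent.Lib.Pa76659G.PC (qry cf top runT ansO trueAns trueAns_spec trueAns_get nth lenc)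

/-- violation at one query -/
def bad (p : PIx) (i : NIx) (O : Lang) (o : Option Str) (b : Bool) (w : Str) : Prop :=
  ∃ q, o = some q ∧ (if b = true then (w.length ≠ i.2.2.eval q.length ∨ acc p i O q w = false)
    else nEval i (pEval p O) q = true)

/-- `(y, ans, W)` does not certify that the machine `i1` with the oracle `nEval i (pEval p O)`
accepts `z` -/
def TV (p : PIx) (i1 i : NIx) (O : Lang) (z y ans W : Str) : Prop :=
  y.length ≠ i1.2.2.eval z.length ∨ top (cf i1.1 z y ans (i1.2.1.eval z.length)) = false ∨
  ∃ k < i1.2.1.eval z.length, bad p i O (qry (cf i1.1 z y ans k)) (ans.getD k false) (nth W k)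

theorem sEval_two (p : PIx) (i1 i : NIx) (O : Lang) (z : Str) :
    sEval p [i1, i] O z = true ↔ ∃ y : Str, y.length = i1.2.2.eval z.length ∧
      accepts (nEval i (pEval p O)) i1.1 (inp2 z y) (i1.2.1.eval z.length) = true := by
  show nEval i1 (nEval i (pEval p O)) z = true ↔ _
  exact nEval_true

theorem acc_nEval {p : PIx} {i : NIx} {O : Lang} {q w : Str} (hw : w.length = i.2.2.eval q.length)
    (h : acc p i O q w = true) : nEval i (pEval p O) q = true :=
  nEval_true.2 ⟨w, hw, h⟩

theorem TV_sound {p : PIx} {i1 i : NIx} {O : Lang} {z y ans W : Str}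
    (h : ¬ TV p i1 i O z y ans W) : sEval p [i1, i] O z = true := by
  unfold TV at h
  push Not at h
  obtain ⟨h1, h2, h3⟩ := h
  rw [sEval_two]
  refine ⟨y, h1, ?_⟩
  have h4 : runT (ansO ans) (i1.2.1.eval z.length) ([i1.1], inp2 z y) =
      runN (nEval i (pEval p O)) (i1.2.1.eval z.length) ([i1.1], inp2 z y) := by
    apply PC.runT_eq
    intro k hk q hq
    have h5 := h3 k hk
    by_cases hb : ans.getD k false = true
    · rw [hb]
      symm
      by_contra h6
      apply h5
      refine ⟨q, hq, ?_⟩
      rw [if_pos hb]
      by_contra h7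
      push Not at h7
      replace h7 := And.intro h7.1 (Bool.eq_true_of_not_eq_false h7.2)
      exact h6 (acc_nEval h7.1 h7.2)
    · rw [Bool.not_eq_true] at hb
      rw [hb]
      symm
      by_contra h6
      rw [Bool.not_eq_false] at h6
      apply h5
      refine ⟨q, hq, ?_⟩
      rw [hb, if_neg (by simp)]
      exact h6
  rw [ne_eq, Bool.not_eq_false] at h2
  have h5 : top (cf i1.1 z y ans (i1.2.1.eval z.length)) =
      accepts (nEval i (pEval p O)) i1.1 (inp2 z y) (i1.2.1.eval z.length) := by
    unfold top cf accepts
    rw [h4]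
  rw [← h5]
  exact h2

/-- bound for the witnesses -/
noncomputable def wb (i1 i : NIx) (n : ℕ) : ℕ :=
  i1.2.1.eval n * (2 * i.2.2.eval (n + i1.2.2.eval n + i1.2.1.eval n) + 1)

theorem total_le_mul {l : List Str} {N : ℕ} (h : ∀ x ∈ l, x.length ≤ N) :
    PC.total l ≤ l.length * N := by
  unfold PC.total
  have := List.sum_le_card_nsmul (l.map List.length) N (by
    intro k hk
    obtain ⟨x, hx, rfl⟩ := List.mem_map.1 hk
    exact h x hx)
  rw [List.length_map, smul_eq_mul] at this
  exact this

theorem TV_complete {p : PIx} {i1 i : NIx} {O : Lang} {z : Str}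
    (h : sEval p [i1, i] O z = true) : ∃ y ans W : Str, ¬ TV p i1 i O z y ans W ∧
      y.length = i1.2.2.eval z.length ∧ ans.length = i1.2.1.eval z.length ∧
      W.length ≤ wb i1 i z.length := by
  rw [sEval_two] at h
  obtain ⟨y, hy, hacc⟩ := h
  set B := nEval i (pEval p O) with hB
  set T := i1.2.1.eval z.length with hT
  set c : Cfg := ([i1.1], inp2 z y) with hc
  set ans := trueAns B c T with hans
  have hrun : ∀ k ≤ T, cf i1.1 z y ans k = runN B k c := fun k hk => trueAns_spec B c T k hk
  have hget : ∀ k < T, ∀ q, qry (cf i1.1 z y ans k) = some q → ans.getD k false = B q := by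
    intro k hk q hq
    rw [hrun k hk.le] at hq
    exact trueAns_get B c hk hq
  have hwit : ∀ k : ℕ, ∃ w : Str, w.length ≤ i.2.2.eval (z.length + y.length + T) ∧ (k < T →
      ∀ q, qry (cf i1.1 z y ans k) = some q → B q = true →
      w.length = i.2.2.eval q.length ∧ acc p i O q w = true) := by
    intro k
    by_cases hk : k < T
    · cases hq : qry (cf i1.1 z y ans k) with
      | none => exact ⟨[], by simp, fun _ q h => by simp at h⟩
      | some q =>
          by_cases hBq : B q = true
          · rw [hB, nEval_true] at hBq
            obtain ⟨w, hw1, hw2⟩ := hBq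
            have hql : q.length ≤ z.length + y.length + k := PC.qry_bdd (PC.cf_bdd _ _ _ _ _) hq
            refine ⟨w, ?_, fun _ q' hq' _ => ?_⟩
            · rw [hw1]
              exact poly_mono _ (by omega)
            · simp only [Option.some.injEq] at hq'
              rw [← hq']
              exact ⟨hw1, hw2⟩
          · refine ⟨[], by simp, fun _ q' hq' h' => ?_⟩
            simp only [Option.some.injEq] at hq'
            rw [← hq'] at h'
            exact absurd h' hBq
    · exact ⟨[], by simp, fun h => absurd h hk⟩
  choose w hw1 hw2 using hwit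
  refine ⟨y, ans, lenc ((List.range T).map w), ?_, hy, ?_, ?_⟩
  · unfold TV
    push Not
    refine ⟨hy, ?_, ?_⟩
    · rw [ne_eq, Bool.not_eq_false]
      have h5 : top (cf i1.1 z y ans T) = accepts B i1.1 (inp2 z y) T := by
        unfold top accepts
        rw [hrun T le_rfl]
      rw [h5]
      exact hacc
    · intro k hk
      rintro ⟨q, hq, h6⟩
      have h7 := hget k hk q hq
      have h8 : nth (lenc ((List.range T).map w)) k = w k := by
        rw [PC.nth_lenc, List.getD_eq_getElem _ _ (by simpa using hk)]
        simp
      rw [h8] at h6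
      by_cases hb : ans.getD k false = true
      · rw [if_pos hb] at h6
        obtain ⟨h9, h10⟩ := hw2 k hk q hq (h7.symm.trans hb)
        rcases h6 with h6 | h6
        · exact h6 h9
        · rw [h10] at h6
          exact absurd h6 (by simp)
      · rw [if_neg hb] at h6
        rw [h7] at hb
        exact hb h6
  · rw [hans, trueAns, List.length_map, List.length_range]
  · rw [PC.lenc_length]
    have h9 := total_le_mul (l := (List.range T).map w)
      (N := i.2.2.eval (z.length + y.length + T)) (by
        intro x hx
        obtain ⟨k, _, rfl⟩ := List.mem_map.1 hx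
        exact hw1 k)
    rw [List.length_map, List.length_range] at h9 ⊢
    unfold wb
    rw [← hT, ← hy]
    have h10 : T * (2 * i.2.2.eval (z.length + y.length + T) + 1) =
        2 * (T * i.2.2.eval (z.length + y.length + T)) + T := by ring
    rw [h10]
    omega

end Pool.Agent.Lib.Pa76659G.Two
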