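import Pool.Agent.Lib.Pa76659G.Step

set_option autoImplicit false

/-!
The cube lemma for uniform arrays: exchange of one entry.
-/

namespace Pool.Agent.Lib.Pa76659G.Two

open Finset Pool.Agent.Lib.Pa76659 Pool.Agent.Lib.Pa76659G

variable {ι Ω : Type} [Fintype ι] [DecidableEq ι] [Fintype Ω]

theorem cube_sum {κ : Type} [Fintype κ] (w t m : ℕ) (hm : Fintype.card ι ≤ 2 ^ m)
    (hκ : Fintype.card κ ≤ 2 ^ w) (g : κ → (ι → Ω) → Bool) (c0 : (ι → Ω) → κ)
    (hc0 : ∀ Y, g (c0 Y) Y = false)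
    (hd : ∀ v (Y Y' : ι → Ω), IsC Set.univ w t 1 (fun b : ι → Bool => g v (mix b Y Y'))) :
    ∑ i, ∑ Y : ι → Ω, ∑ Y' : ι → Ω,
      (if g (c0 Y) (Function.update Y i (Y' i)) = true then 1 else 0) ≤
      KK 1 w t m * (Fintype.card (ι → Ω) * Fintype.card (ι → Ω)) := by
  classical
  set W := Fintype.card (ι → Ω) with hW
  let e : κ → Fin (2 ^ w) := fun k => Fin.castLE hκ (Fintype.equivFin κ k)
  have he : Function.Injective e := fun i j hij =>
    (Fintype.equivFin κ).injective (Fin.castLE_injective hκ hij)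
  let A : ι → ℕ := fun i => ∑ Y : ι → Ω, ∑ Y' : ι → Ω,
    if g (c0 Y) (Function.update Y i (Y' i)) = true then 1 else 0
  obtain ⟨Γ, hΓ, b, Rs, n0, hn0, hRs, hcube⟩ := cube ι 1 w t m hm
  have h1 : ∀ (Y Y' : ι → Ω), ∑ ρ, ∑ i ∈ Rs ρ,
      (if g (c0 (mix (b ρ) Y Y')) (mix (flip1 (b ρ) i) Y Y') = true then 1 else 0) ≤
      KK 1 w t m * n0 := by
    intro Y Y'
    have h2 := hcube (fun v c => if h : ∃ k, e k = v then g h.choose (mix c Y Y') else true)
      (fun v => by
        by_cases h : ∃ k, e k = v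
        · simp only [h, dite_true]
          exact hd h.choose Y Y'
        · simp only [h, dite_false]
          exact IsC.const _ _ _ _ _) (fun c => e (c0 (mix c Y Y')))
    refine le_trans (le_of_eq ?_) h2
    refine Finset.sum_congr rfl fun ρ _ => ?_
    rw [Finset.card_filter]
    refine Finset.sum_congr rfl fun i _ => ?_
    have h3 : ∃ k, e k = e (c0 (mix (b ρ) Y Y')) := ⟨_, rfl⟩
    have h4 : h3.choose = c0 (mix (b ρ) Y Y') := he h3.choose_spec
    simp only [h3, dite_true, h4, hc0, true_and]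
  have h2 : n0 * ∑ i, A i = ∑ ρ, ∑ i ∈ Rs ρ, A i := by
    have h3 : ∀ ρ, ∑ i ∈ Rs ρ, A i = ∑ i, if i ∈ Rs ρ then A i else 0 := by
      intro ρ
      rw [← Finset.sum_filter]
      congr 1
      ext i
      simp
    simp only [h3]
    rw [Finset.mul_sum]
    conv_rhs => rw [Finset.sum_comm]
    refine Finset.sum_congr rfl fun i _ => ?_
    rw [← Finset.sum_filter, Finset.sum_const, hRs i, smul_eq_mul]
  have h3 : ∀ ρ i, A i = ∑ Y : ι → Ω, ∑ Y' : ι → Ω,
      (if g (c0 (mix (b ρ) Y Y')) (mix (flip1 (b ρ) i) Y Y') = true then 1 else 0) := by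
    intro ρ i
    rw [← Fintype.sum_prod_type' (f := fun (Y Y' : ι → Ω) =>
      (if g (c0 (mix (b ρ) Y Y')) (mix (flip1 (b ρ) i) Y Y') = true then 1 else 0))]
    show ∑ Y : ι → Ω, ∑ Y' : ι → Ω,
      (if g (c0 Y) (Function.update Y i (Y' i)) = true then 1 else 0) = _
    rw [← Fintype.sum_prod_type' (f := fun (Y Y' : ι → Ω) =>
      if g (c0 Y) (Function.update Y i (Y' i)) = true then 1 else 0),
      ← Equiv.sum_comp (swp (b ρ))]
    refine Finset.sum_congr rfl fun p _ => ?_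
    show (if g (c0 (mix (b ρ) p.1 p.2))
      (Function.update (mix (b ρ) p.1 p.2) i (mix (b ρ) p.2 p.1 i)) = true then 1 else 0) = _
    rw [mix_flip]
  have h4 : n0 * ∑ i, A i ≤ n0 * (KK 1 w t m * (W * W)) := by
    rw [h2]
    calc ∑ ρ, ∑ i ∈ Rs ρ, A i
        = ∑ ρ, ∑ i ∈ Rs ρ, ∑ Y : ι → Ω, ∑ Y' : ι → Ω,
          (if g (c0 (mix (b ρ) Y Y')) (mix (flip1 (b ρ) i) Y Y') = true then 1 else 0) :=
          Finset.sum_congr rfl fun ρ _ => Finset.sum_congr rfl fun i _ => h3 ρ i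
      _ = ∑ Y : ι → Ω, ∑ Y' : ι → Ω, ∑ ρ, ∑ i ∈ Rs ρ,
          (if g (c0 (mix (b ρ) Y Y')) (mix (flip1 (b ρ) i) Y Y') = true then 1 else 0) := by
          have e1 : ∀ ρ, ∑ i ∈ Rs ρ, ∑ Y : ι → Ω, ∑ Y' : ι → Ω,
              (if g (c0 (mix (b ρ) Y Y')) (mix (flip1 (b ρ) i) Y Y') = true then 1 else 0)
              = ∑ Y : ι → Ω, ∑ Y' : ι → Ω, ∑ i ∈ Rs ρ,
              (if g (c0 (mix (b ρ) Y Y')) (mix (flip1 (b ρ) i) Y Y') = true then 1 else 0) := by
            intro ρ
            rw [Finset.sum_comm]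
            exact Finset.sum_congr rfl fun Y _ => Finset.sum_comm
          rw [Finset.sum_congr rfl fun ρ _ => e1 ρ, Finset.sum_comm]
          exact Finset.sum_congr rfl fun Y _ => Finset.sum_comm
      _ ≤ ∑ _Y : ι → Ω, ∑ _Y' : ι → Ω, KK 1 w t m * n0 :=
          Finset.sum_le_sum fun Y _ => Finset.sum_le_sum fun Y' _ => h1 Y Y'
      _ = n0 * (KK 1 w t m * (W * W)) := by
          simp only [Finset.sum_const, Finset.card_univ, smul_eq_mul]
          rw [← hW]
          ring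
  exact Nat.le_of_mul_le_mul_left h4 hn0

theorem sum_coord {F : Ω → ℕ} (i : ι) :
    Fintype.card Ω * ∑ Y' : ι → Ω, F (Y' i) = Fintype.card (ι → Ω) * ∑ y, F y := by
  rw [← Equiv.sum_comp (Equiv.funSplitAt i Ω).symm, Fintype.sum_prod_type]
  have h : ∀ (y : Ω) (Y' : {j // j ≠ i} → Ω), (Equiv.funSplitAt i Ω).symm (y, Y') i = y := by
    intro y Y'
    simp [Equiv.funSplitAt, Equiv.piSplitAt]
  simp only [h, Finset.sum_const, Finset.card_univ, smul_eq_mul]
  rw [Fintype.card_congr (Equiv.funSplitAt i Ω), Fintype.card_prod, ← Finset.mul_sum]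
  ring

/-- A table and a position such that the test of the table rejects half of the elements. -/
theorem exists_half [Nonempty Ω] {κ : Type} [Fintype κ] (w t m : ℕ)
    (hm : Fintype.card ι ≤ 2 ^ m) (hκ : Fintype.card κ ≤ 2 ^ w)
    (hM : 2 * KK 1 w t m < Fintype.card ι)
    (g : κ → (ι → Ω) → Bool) (c0 : (ι → Ω) → κ) (hc0 : ∀ Y, g (c0 Y) Y = false)
    (hd : ∀ v (Y Y' : ι → Ω), IsC Set.univ w t 1 (fun b : ι → Bool => g v (mix b Y Y'))) :
    ∃ (i : ι) (Y : ι → Ω), 2 * (univ.filter fun y : Ω =>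
      g (c0 Y) (Function.update Y i y) = true).card ≤ Fintype.card Ω := by
  classical
  by_contra hcon
  push Not at hcon
  have h1 := cube_sum w t m hm hκ g c0 hc0 hd
  set W := Fintype.card (ι → Ω) with hW
  have hWpos : 0 < W := Fintype.card_pos
  have hΩ : 0 < Fintype.card Ω := Fintype.card_pos
  have h2 : ∀ i (Y : ι → Ω), W ≤ 2 * ∑ Y' : ι → Ω,
      (if g (c0 Y) (Function.update Y i (Y' i)) = true then 1 else 0) := by
    intro i Y
    have h3 : Fintype.card Ω * ∑ Y' : ι → Ω,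
        (if g (c0 Y) (Function.update Y i (Y' i)) = true then 1 else 0) = W *
        (univ.filter fun y : Ω => g (c0 Y) (Function.update Y i y) = true).card := by
      rw [Finset.card_filter]
      exact sum_coord (ι := ι) (F := fun y =>
        if g (c0 Y) (Function.update Y i y) = true then 1 else 0) i
    have h4 := hcon i Y
    have h5 : Fintype.card Ω * W ≤ Fintype.card Ω * (2 * ∑ Y' : ι → Ω,
        (if g (c0 Y) (Function.update Y i (Y' i)) = true then 1 else 0)) := by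
      calc Fintype.card Ω * W = W * Fintype.card Ω := by ring
        _ ≤ W * (2 * (univ.filter fun y : Ω =>
            g (c0 Y) (Function.update Y i y) = true).card) := Nat.mul_le_mul_left _ h4.le
        _ = 2 * (W * (univ.filter fun y : Ω =>
            g (c0 Y) (Function.update Y i y) = true).card) := by ring
        _ = 2 * (Fintype.card Ω * ∑ Y' : ι → Ω,
            (if g (c0 Y) (Function.update Y i (Y' i)) = true then 1 else 0)) := by rw [h3]
        _ = _ := by ring
    exact Nat.le_of_mul_le_mul_left h5 hΩ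
  have h3 : Fintype.card ι * (W * W) ≤ 2 * ∑ i, ∑ Y : ι → Ω, ∑ Y' : ι → Ω,
      (if g (c0 Y) (Function.update Y i (Y' i)) = true then 1 else 0) := by
    rw [Finset.mul_sum, ← Finset.card_univ, ← smul_eq_mul, ← Finset.sum_const]
    refine Finset.sum_le_sum fun i _ => ?_
    rw [Finset.mul_sum]
    calc W * W = ∑ _Y : ι → Ω, W := by rw [Finset.sum_const, Finset.card_univ, smul_eq_mul]
      _ ≤ _ := Finset.sum_le_sum fun Y _ => h2 i Y
  have h4 : Fintype.card ι * (W * W) ≤ (2 * KK 1 w t m) * (W * W) := by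
    calc Fintype.card ι * (W * W) ≤ _ := h3
      _ ≤ 2 * (KK 1 w t m * (W * W)) := Nat.mul_le_mul_left _ h1
      _ = _ := by ring
  have h5 := Nat.le_of_mul_le_mul_right h4 (Nat.mul_pos hWpos hWpos)
  omega

end Pool.Agent.Lib.Pa76659G.Two
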