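import Pool.Agent.Lib.Pa76659G.Two1
import Pool.Agent.Lib.Pa76659G.Two2

set_option autoImplicit false
set_option maxHeartbeats 4000000

/-!
The failure of a certificate of level 2 is a disjunction of few literals, hence a shallow circuit.
-/

namespace Pool.Agent.Lib.Pa76659G.Two

open Pool.Agent.Lib.Pa76659G
open Pool.Agent.Lib.Pa76659 (Str Lang Prog Cfg step runN PO NPO inp inp2 accepts Bdd Sig
  join PIx NIx pEval nEval sEval IsC SL poly_le poly_mono)
open Pool.Agent.Lib.Pa76659G.PC (qry cf top runT ansO trueAns trueAns_spec trueAns_get nth lenc)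

open Classical in
noncomputable def tvb (p : PIx) (i1 i : NIx) (z y ans W : Str) : Lang → Bool :=
  fun O => decide (TV p i1 i O z y ans W)

open Classical in
theorem tvb_true {p : PIx} {i1 i : NIx} {z y ans W : Str} {O : Lang} :
    tvb p i1 i z y ans W O = true ↔ TV p i1 i O z y ans W := by
  unfold tvb
  rw [decide_eq_true_eq]

open Classical in
theorem tvb_false {p : PIx} {i1 i : NIx} {z y ans W : Str} {O : Lang} :
    tvb p i1 i z y ans W O = false ↔ ¬ TV p i1 i O z y ans W := by
  unfold tvb
  rw [decide_eq_false_iff_not]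

theorem tvb_FF (p : PIx) (i1 i : NIx) : ∃ c : ℕ, ∀ N : ℕ, 2 ≤ N → ∀ z : Str, z.length ≤ N →
    ∀ y ans W : Str, tvb p i1 i z y ans W ∈ FF p i (N ^ c) (N ^ c) (N ^ c) 0 := by
  classical
  obtain ⟨c, hc⟩ := poly_le (i1.2.1 + 2 + Polynomial.C (i.2.2.eval 0) +
    (Polynomial.X + i1.2.2 + i1.2.1) + i.2.2.comp (Polynomial.X + i1.2.2 + i1.2.1))
  refine ⟨c, fun N hN z hz y ans W => ?_⟩
  have hc' := hc N hN
  simp only [Polynomial.eval_add, Polynomial.eval_X, Polynomial.eval_comp, Polynomial.eval_ofNat,
    Polynomial.eval_C] at hc'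
  have hT := poly_mono i1.2.1 hz
  have hQ := poly_mono i1.2.2 hz
  set T := i1.2.1.eval z.length with hTd
  by_cases hSt : y.length ≠ i1.2.2.eval z.length ∨ top (cf i1.1 z y ans T) = false ∨
      ∃ k < T, ∃ q, qry (cf i1.1 z y ans k) = some q ∧ ans.getD k false = true ∧
        (nth W k).length ≠ i.2.2.eval q.length
  · have h1 : tvb p i1 i z y ans W = fun _ => true := by
      funext O
      rw [tvb_true]
      rcases hSt with h | h | ⟨k, hk, q, hq, hb, hl⟩
      · exact Or.inl h
      · exact Or.inr (Or.inl h)
      · refine Or.inr (Or.inr ⟨k, hk, q, hq, ?_⟩)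
        rw [if_pos hb]
        exact Or.inl hl
    rw [h1]
    exact FF_const p i _ _ _ (by omega) (by omega) 0 true
  · push Not at hSt
    obtain ⟨h1, h2, h3⟩ := hSt
    let f : ℕ → Option (Bool × Str × Str) := fun k => (qry (cf i1.1 z y ans k)).map
      (fun q => if ans.getD k false = true then (false, q, nth W k) else (true, q, []))
    have hmem : ∀ τ, τ ∈ (List.range T).filterMap f ↔ ∃ k < T, ∃ q,
        qry (cf i1.1 z y ans k) = some q ∧
        τ = if ans.getD k false = true then (false, q, nth W k) else (true, q, []) := by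
      intro τ
      simp only [List.mem_filterMap, List.mem_range, f, Option.map_eq_some_iff]
      constructor
      · rintro ⟨k, hk, q, hq, h⟩
        exact ⟨k, hk, q, hq, h.symm⟩
      · rintro ⟨k, hk, q, hq, h⟩
        exact ⟨k, hk, q, hq, h.symm⟩
    refine ⟨(List.range T).filterMap f, ?_, ?_, ?_⟩
    · refine (List.length_filterMap_le _ _).trans ?_
      rw [List.length_range]
      omega
    · intro τ hτ
      obtain ⟨k, hk, q, hq, rfl⟩ := (hmem τ).1 hτ
      have hql : q.length ≤ z.length + y.length + k := PC.qry_bdd (PC.cf_bdd _ _ _ _ _) hq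
      have hql2 : q.length ≤ N + i1.2.2.eval N + i1.2.1.eval N := by
        rw [h1] at hql
        omega
      by_cases hb : ans.getD k false = true
      · rw [if_pos hb]
        refine ⟨?_, ?_⟩
        · show q.length ≤ _
          omega
        · show (nth W k).length ≤ _
          have h4 := h3 k hk q hq hb
          have h5 := poly_mono i.2.2 hql2
          omega
      · rw [if_neg hb]
        refine ⟨?_, by simp⟩
        show q.length ≤ _
        omega
    · intro O
      rw [tvb_true]
      constructor
      · rintro (h | h | ⟨k, hk, q, hq, h⟩)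
        · exact absurd h1 h
        · exact absurd h h2
        · refine ⟨_, (hmem _).2 ⟨k, hk, q, hq, rfl⟩, ?_⟩
          by_cases hb : ans.getD k false = true
          · rw [if_pos hb] at h ⊢
            rcases h with h | h
            · exact absurd (h3 k hk q hq hb) h
            · simp [lit, h]
          · rw [if_neg hb] at h ⊢
            simp [lit, h]
      · rintro ⟨τ, hτ, h⟩
        obtain ⟨k, hk, q, hq, rfl⟩ := (hmem τ).1 hτ
        refine Or.inr (Or.inr ⟨k, hk, q, hq, ?_⟩)
        by_cases hb : ans.getD k false = true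
        · rw [if_pos hb] at h ⊢
          right
          simpa [lit] using h
        · rw [if_neg hb] at h ⊢
          simpa [lit] using h

theorem tvb_isC (p : PIx) (i1 i : NIx) : ∃ c : ℕ, ∀ N : ℕ, 2 ≤ N → ∀ z : Str, z.length ≤ N →
    ∀ y ans W : Str, IsC (SL (N ^ c)) (N ^ c) (N ^ c) 1 (tvb p i1 i z y ans W) := by
  obtain ⟨c, hc⟩ := tvb_FF p i1 i
  obtain ⟨b, hb⟩ := FF_isC p i c
  exact ⟨b, fun N hN z hz y ans W => hb N hN 0 _ (hc N hN z hz y ans W)⟩

/-! ### a finite set of certificates -/

/-- strings of length at most `a` from vectors of length `a + 1` -/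
def dcd {a : ℕ} (v : Idx (a + 1)) : Str := (v.1.reverse.dropWhile (fun b => !b)).tail.reverse

theorem dcd_surj {a : ℕ} {s : Str} (hs : s.length ≤ a) : ∃ v : Idx (a + 1), dcd v = s := by
  refine ⟨⟨s ++ true :: List.replicate (a - s.length) false, ?_⟩, ?_⟩
  · simp only [List.length_append, List.length_cons, List.length_replicate]
    omega
  · unfold dcd
    have h1 : (s ++ true :: List.replicate (a - s.length) false).reverse =
        List.replicate (a - s.length) false ++ true :: s.reverse := by
      simp
    show ((s ++ true :: List.replicate (a - s.length) false).reverse.dropWhile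
      (fun b => !b)).tail.reverse = s
    rw [h1]
    have h2 : ∀ m : ℕ, (List.replicate m false ++ true :: s.reverse).dropWhile (fun b => !b) =
        true :: s.reverse := by
      intro m
      induction m with
      | zero => simp
      | succ m ih =>
        rw [List.replicate_succ, List.cons_append, List.dropWhile_cons_of_pos (by simp)]
        exact ih
    rw [h2, List.tail_cons, List.reverse_reverse]

end Pool.Agent.Lib.Pa76659G.Two
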