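import Pool.Agent.Lib.Pa76659G.Two1
import Pool.Agent.Lib.Pa76659G.Core2

set_option autoImplicit false
set_option maxHeartbeats 4000000

/-!
The language of one-sided tests.
-/

namespace Pool.Agent.Lib.Pa76659G.Two

open Pool.Agent.Lib.Pa76659G
open Pool.Agent.Lib.Pa76659 (Str Lang Prog Cfg step runN PO NPO inp inp2 accepts Bdd Sig
  join PIx NIx pEval nEval sEval IsC SL poly_le poly_mono)
open Pool.Agent.Lib.Pa76659G.PC (qry cf top runT ansO nth lenc llen ra ac oc PolyC PolyB PolyN una)

/-- the root for the length `n` with `m` index bits -/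
def zz (cc N0 n m : ℕ) : Str := root n m ((n + 2) ^ cc + N0)

theorem zz_length (cc N0 n m : ℕ) :
    (zz cc N0 n m).length = 4 * n + 4 * m + 2 * ((n + 2) ^ cc + N0) + 5 := root_length _ _ _

def tM (c : Str) : ℕ := (fst c).length
def tI (c : Str) : Str := fst (snd c)
def tC (c : Str) : Str := fst (snd (snd c))
def tY (c : Str) : Str := fst (snd (snd (snd c)))
def tA (c : Str) : Str := fst (snd (snd (snd (snd c))))
def tW (c : Str) : Str := snd (snd (snd (snd (snd c))))

/-- the root of the test `c` for the string `x` -/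
def tZ (cc N0 : ℕ) (x c : Str) : Str := zz cc N0 x.length (tM c)

/-- the code of the patch -/
def tP (cc N0 : ℕ) (x c : Str) : Str := pr (pr (child (tZ cc N0 x c) (tI c)) x) (tC c)

/-- the format of the test -/
def fmt (cc N0 : ℕ) (x c : Str) : Bool :=
  decide ((tI c).length = tM c) &&
    decide (∀ k < llen (tC c), decide ((tZ cc N0 x c).length ≤ (fst (nth (tC c) k)).length) = true)

/-- the oracle of the test -/
def tO (cc N0 : ℕ) (Y G : Lang) (x c : Str) : Lang := join Y (patchL G (ra (tP cc N0 x c)))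

/-- verification of a violation at one query -/
noncomputable def badb (p : PIx) (i : NIx) (O : Lang) (o : Str) (b : Bool) (w y' : Str) : Bool :=
  if o.isEmpty = true then false else
    if b = true then (!(decide (w.length = i.2.2.eval o.tail.length)) || !(acc p i O o.tail w))
    else (decide (y'.length = i.2.2.eval o.tail.length) && acc p i O o.tail y')

theorem badb_bad {p : PIx} {i : NIx} {O : Lang} {o : Option Str} {b : Bool} {w y' : Str}
    (h : badb p i O (oc o) b w y' = true) : bad p i O o b w := by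
  unfold badb at h
  rcases o with _ | q
  · simp [oc] at h
  · refine ⟨q, rfl, ?_⟩
    simp only [oc, List.isEmpty_cons, Bool.false_eq_true, if_false, List.tail_cons] at h
    by_cases hb : b = true
    · rw [if_pos hb] at h ⊢
      simp only [Bool.or_eq_true, Bool.not_eq_true', decide_eq_false_iff_not] at h
      exact h
    · rw [if_neg hb] at h ⊢
      simp only [Bool.and_eq_true, decide_eq_true_eq] at h
      exact acc_nEval h.1 h.2

theorem bad_badb {p : PIx} {i : NIx} {O : Lang} {o : Option Str} {b : Bool} {w : Str}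
    (h : bad p i O o b w) : ∃ y' : Str, (∀ m, (∀ q, o = some q → q.length ≤ m) →
      y'.length ≤ i.2.2.eval m) ∧ badb p i O (oc o) b w y' = true := by
  obtain ⟨q, rfl, h⟩ := h
  unfold badb
  simp only [oc, List.isEmpty_cons, Bool.false_eq_true, if_false, List.tail_cons]
  by_cases hb : b = true
  · rw [if_pos hb] at h
    refine ⟨[], by simp, ?_⟩
    rw [if_pos hb]
    simp only [Bool.or_eq_true, Bool.not_eq_true', decide_eq_false_iff_not]
    exact h
  · rw [if_neg hb, nEval_true] at h
    obtain ⟨y', h1, h2⟩ := h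
    refine ⟨y', fun m hm => ?_, ?_⟩
    · rw [h1]
      exact poly_mono _ (hm q rfl)
    · rw [if_neg hb]
      simp only [Bool.and_eq_true, decide_eq_true_eq]
      exact ⟨h1, h2⟩

/-- verification of the test -/
noncomputable def ttb (cc N0 : ℕ) (p : PIx) (i1 i : NIx) (Y G : Lang) (x c y' : Str) : Bool :=
  !(fmt cc N0 x c) || (!(decide ((tY c).length = i1.2.2.eval (tZ cc N0 x c).length)) ||
    (!(top (cf i1.1 (tZ cc N0 x c) (tY c) (tA c) (i1.2.1.eval (tZ cc N0 x c).length))) ||
    decide (∃ k < i1.2.1.eval (tZ cc N0 x c).length,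
      badb p i (tO cc N0 Y G x c) (oc (qry (cf i1.1 (tZ cc N0 x c) (tY c) (tA c) k)))
        ((tA c).getD k false) (nth (tW c) k) y' = true)))

/-- the test as a property -/
def TTP (cc N0 : ℕ) (p : PIx) (i1 i : NIx) (Y G : Lang) (x c : Str) : Prop :=
  fmt cc N0 x c = false ∨ TV p i1 i (tO cc N0 Y G x c) (tZ cc N0 x c) (tY c) (tA c) (tW c)

/-- the polynomial for the witnesses -/
noncomputable def tq (cc N0 : ℕ) (i1 i : NIx) : Polynomial ℕ :=
  i.2.2.comp ((8 * Polynomial.X + 2 * ((Polynomial.X + 2) ^ cc + Polynomial.C N0) + 5) +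
    i1.2.2.comp (8 * Polynomial.X + 2 * ((Polynomial.X + 2) ^ cc + Polynomial.C N0) + 5) +
    i1.2.1.comp (8 * Polynomial.X + 2 * ((Polynomial.X + 2) ^ cc + Polynomial.C N0) + 5))

theorem ttb_TTP {cc N0 : ℕ} {p : PIx} {i1 i : NIx} {Y G : Lang} {x c y' : Str}
    (h : ttb cc N0 p i1 i Y G x c y' = true) : TTP cc N0 p i1 i Y G x c := by
  unfold ttb at h
  simp only [Bool.or_eq_true, Bool.not_eq_true', decide_eq_false_iff_not, decide_eq_true_eq] at h
  rcases h with h | h | h | ⟨k, hk, h⟩
  · exact Or.inl h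
  · exact Or.inr (Or.inl h)
  · exact Or.inr (Or.inr (Or.inl h))
  · exact Or.inr (Or.inr (Or.inr ⟨k, hk, badb_bad h⟩))

theorem TTP_ttb {cc N0 : ℕ} {p : PIx} {i1 i : NIx} {Y G : Lang} {x c : Str}
    (h : TTP cc N0 p i1 i Y G x c) : ∃ y' : Str,
      y'.length ≤ (tq cc N0 i1 i).eval (pr x c).length ∧ ttb cc N0 p i1 i Y G x c y' = true := by
  have hz : (tZ cc N0 x c).length ≤ 8 * (pr x c).length + 2 * (((pr x c).length + 2) ^ cc + N0) + 5 := by
    unfold tZ tM
    rw [zz_length]
    have h1 := PC.fst_length_le c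
    have h2 : (x.length + 2) ^ cc ≤ ((pr x c).length + 2) ^ cc :=
      Nat.pow_le_pow_left (by rw [pr_length]; omega) _
    rw [pr_length] at h2 ⊢
    omega
  set Z := 8 * (pr x c).length + 2 * (((pr x c).length + 2) ^ cc + N0) + 5 with hZ
  have hq : (tq cc N0 i1 i).eval (pr x c).length =
      i.2.2.eval (Z + i1.2.2.eval Z + i1.2.1.eval Z) := by
    unfold tq
    simp only [Polynomial.eval_comp, Polynomial.eval_add, Polynomial.eval_mul, Polynomial.eval_pow,
      Polynomial.eval_X, Polynomial.eval_C, Polynomial.eval_ofNat]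
    rw [← hZ]
  rcases h with h | h
  · exact ⟨[], by simp, by unfold ttb; simp [h]⟩
  · unfold TV at h
    by_cases h0 : (tY c).length = i1.2.2.eval (tZ cc N0 x c).length
    · rcases h with h | h | ⟨k, hk, h⟩
      · exact absurd h0 h
      · exact ⟨[], by simp, by unfold ttb; simp [h]⟩
      · obtain ⟨y', h1, h2⟩ := bad_badb h
        refine ⟨y', ?_, ?_⟩
        · rw [hq]
          apply h1
          intro q hq
          have h3 := PC.qry_bdd (PC.cf_bdd _ _ _ _ _) hq
          have h4 := poly_mono i1.2.2 hz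
          have h5 := poly_mono i1.2.1 hz
          omega
        · unfold ttb
          simp only [Bool.or_eq_true, Bool.not_eq_true', decide_eq_false_iff_not, decide_eq_true_eq]
          exact Or.inr (Or.inr (Or.inr ⟨k, hk, h2⟩))
    · refine ⟨[], by simp, ?_⟩
      unfold ttb
      simp only [Bool.or_eq_true, Bool.not_eq_true', decide_eq_false_iff_not, decide_eq_true_eq]
      exact Or.inr (Or.inl h0)

end Pool.Agent.Lib.Pa76659G.Two
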