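import Pool.Agent.Lib.Pa76659G.Two4
import Pool.Agent.Lib.Pa76659G.Cert

set_option autoImplicit false
set_option maxHeartbeats 4000000

/-!
The language of one-sided tests is in `NP`.
-/

namespace Pool.Agent.Lib.Pa76659G.Two

open Pool.Agent.Lib.Pa76659G
open Pool.Agent.Lib.Pa76659 (Str Lang Prog Cfg step runN PO NPO inp inp2 accepts Bdd Sig
  join PIx NIx pEval nEval sEval IsC SL poly_le poly_mono)
open Pool.Agent.Lib.Pa76659G.PC (qry cf top runT ansO nth lenc llen ra ac oc PolyC PolyB PolyN una)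

variable {α : Type} {D : α → Prop} {ctx : List (α → Str)} {Y G : Lang}

theorem polyB_badb (p : PIx) (i : NIx) {cP o w y' : α → Str} {b : α → Bool}
    (hP : PolyC (fun _ => join Y G) D ctx cP) (ho : PolyC (fun _ => join Y G) D ctx o)
    (hb : PolyB (fun _ => join Y G) D ctx b) (hw : PolyC (fun _ => join Y G) D ctx w)
    (hy : PolyC (fun _ => join Y G) D ctx y') : PolyB (fun _ => join Y G) D ctx
      (fun a => badb p i (join Y (patchL G (ra (cP a)))) (o a) (b a) (w a) (y' a)) := by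
  have ht := ho.tail
  have hL : PolyN (fun _ => join Y G) D ctx (fun a => i.2.2.eval (o a).tail.length) :=
    (PolyN.length ht).poly i.2.2
  refine PolyB.ite (PolyB.isNil ho) (PolyB.const false) ?_
  refine PolyC.mono ?_ fun _ h => h.1
  refine PolyB.ite hb ?_ ?_
  · refine PolyC.mono ?_ fun _ h => h.1
    exact (PolyB.natEq (PolyN.length hw) hL).not.or (PolyB.acc p i cP _ _ hP ht hw).not
  · refine PolyC.mono ?_ fun _ h => h.1
    exact (PolyB.natEq (PolyN.length hy) hL).and (PolyB.acc p i cP _ _ hP ht hy)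

theorem polyC_zz (cc N0 : ℕ) {n m : α → ℕ} (hn : PolyN (fun _ => join Y G) D ctx n)
    (hm : PolyN (fun _ => join Y G) D ctx m) :
    PolyC (fun _ => join Y G) D ctx (fun a => zz cc N0 (n a) (m a)) := by
  have hL : PolyN (fun _ => join Y G) D ctx
      (fun a => ((Polynomial.X + 2) ^ cc + Polynomial.C N0 : Polynomial ℕ).eval (n a)) := hn.poly _
  have h := PolyC.pr (PolyC.pr hn (PolyC.pr hm hL)) PolyC.nil
  refine h.congr fun a _ => ?_
  simp only [Polynomial.eval_add, Polynomial.eval_pow, Polynomial.eval_X, Polynomial.eval_C,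
    Polynomial.eval_ofNat]
  rfl

variable {x c y' : α → Str}

theorem polyC_tZ (cc N0 : ℕ) (hx : PolyC (fun _ => join Y G) D ctx x)
    (hc : PolyC (fun _ => join Y G) D ctx c) :
    PolyC (fun _ => join Y G) D ctx (fun a => tZ cc N0 (x a) (c a)) :=
  polyC_zz cc N0 (PolyN.length hx) (PolyN.length (PolyC.fst hc))

theorem polyC_tP (cc N0 : ℕ) (hx : PolyC (fun _ => join Y G) D ctx x)
    (hc : PolyC (fun _ => join Y G) D ctx c) :
    PolyC (fun _ => join Y G) D ctx (fun a => tP cc N0 (x a) (c a)) := by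
  have hz := polyC_tZ cc N0 hx hc
  have hI : PolyC (fun _ => join Y G) D ctx (fun a => tI (c a)) := PolyC.fst (PolyC.snd hc)
  have hC : PolyC (fun _ => join Y G) D ctx (fun a => tC (c a)) :=
    PolyC.fst (PolyC.snd (PolyC.snd hc))
  exact PolyC.pr (PolyC.pr (PolyC.pr (PolyC.fst hz) (PolyC.pr hI (PolyC.snd hz))) hx) hC

theorem polyB_fmt (cc N0 : ℕ) (hx : PolyC (fun _ => join Y G) D ctx x)
    (hc : PolyC (fun _ => join Y G) D ctx c) :
    PolyB (fun _ => join Y G) D ctx (fun a => fmt cc N0 (x a) (c a)) := by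
  have hI : PolyC (fun _ => join Y G) D ctx (fun a => tI (c a)) := PolyC.fst (PolyC.snd hc)
  have hC : PolyC (fun _ => join Y G) D ctx (fun a => tC (c a)) :=
    PolyC.fst (PolyC.snd (PolyC.snd hc))
  have hM : PolyN (fun _ => join Y G) D ctx (fun a => tM (c a)) := PolyN.length (PolyC.fst hc)
  refine (PolyB.natEq (PolyN.length hI) hM).and ?_
  refine PolyB.forall_lt (φ := fun q : α × ℕ =>
    decide ((tZ cc N0 (x q.1) (c q.1)).length ≤ (fst (nth (tC (c q.1)) q.2)).length))
    (PolyN.llen hC) ?_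
  have lf : ∀ {t : α → Str}, PolyC (fun _ => join Y G) D ctx t →
      PolyC (fun _ : α × ℕ => join Y G) (fun q => D q.1 ∧ q.2 < llen (tC (c q.1)))
        (PC.lift ctx ++ [fun q => una q.2]) (fun q => t q.1) := fun ht =>
    (ht.lift (D' := fun q : α × ℕ => D q.1 ∧ q.2 < llen (tC (c q.1)))
      (fun q hq => hq.1)).weakenRight _
  exact PolyB.le (PolyN.length (polyC_tZ cc N0 (lf hx) (lf hc)))
    (PolyN.length (PolyC.fst (PolyC.nth (lf hC) (PolyC.var (by simp)))))

theorem polyB_ttb (cc N0 : ℕ) (p : PIx) (i1 i : NIx) (hx : PolyC (fun _ => join Y G) D ctx x)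
    (hc : PolyC (fun _ => join Y G) D ctx c) (hy : PolyC (fun _ => join Y G) D ctx y') :
    PolyB (fun _ => join Y G) D ctx (fun a => ttb cc N0 p i1 i Y G (x a) (c a) (y' a)) := by
  have hz := polyC_tZ cc N0 hx hc
  have hP := polyC_tP cc N0 hx hc
  have h3 := PolyC.snd (PolyC.snd (PolyC.snd hc))
  have hY : PolyC (fun _ => join Y G) D ctx (fun a => tY (c a)) := PolyC.fst h3
  have hA : PolyC (fun _ => join Y G) D ctx (fun a => tA (c a)) := PolyC.fst (PolyC.snd h3)
  have hW : PolyC (fun _ => join Y G) D ctx (fun a => tW (c a)) := PolyC.snd (PolyC.snd h3)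
  have hT : PolyN (fun _ => join Y G) D ctx (fun a => i1.2.1.eval (tZ cc N0 (x a) (c a)).length) :=
    (PolyN.length hz).poly _
  refine (polyB_fmt cc N0 hx hc).not.or ((PolyB.natEq (PolyN.length hY)
    ((PolyN.length hz).poly i1.2.2)).not.or (PolyB.or (PolyB.not ?_) ?_))
  · have h2 := PolyC.cf i1.1 hz hY hA hT
    refine (PolyB.headD (PolyC.nth (PolyC.snd h2) (PolyN.const 0))).congr ?_
    intro a _
    rw [PC.enc_reg _ _ _ (by omega), top]
    rcases (cf i1.1 (tZ cc N0 (x a) (c a)) (tY (c a)) (tA (c a))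
      (i1.2.1.eval (tZ cc N0 (x a) (c a)).length)).2 0 with _ | ⟨d, l⟩
    · rfl
    · cases d <;> rfl
  · refine PolyB.exists_lt (φ := fun q : α × ℕ => badb p i (tO cc N0 Y G (x q.1) (c q.1))
      (oc (qry (cf i1.1 (tZ cc N0 (x q.1) (c q.1)) (tY (c q.1)) (tA (c q.1)) q.2)))
      ((tA (c q.1)).getD q.2 false) (nth (tW (c q.1)) q.2) (y' q.1)) hT ?_
    have lf : ∀ {t : α → Str}, PolyC (fun _ => join Y G) D ctx t →
        PolyC (fun _ : α × ℕ => join Y G)
          (fun q => D q.1 ∧ q.2 < i1.2.1.eval (tZ cc N0 (x q.1) (c q.1)).length)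
          (PC.lift ctx ++ [fun q => una q.2]) (fun q => t q.1) := fun ht =>
      (ht.lift (D' := fun q : α × ℕ => D q.1 ∧
        q.2 < i1.2.1.eval (tZ cc N0 (x q.1) (c q.1)).length) (fun q hq => hq.1)).weakenRight _
    have hk : PolyN (fun _ : α × ℕ => join Y G)
        (fun q => D q.1 ∧ q.2 < i1.2.1.eval (tZ cc N0 (x q.1) (c q.1)).length)
        (PC.lift ctx ++ [fun q => una q.2]) (fun q => q.2) := PolyC.var (by simp)
    have h4 : PolyC (fun _ : α × ℕ => join Y G)
        (fun q => D q.1 ∧ q.2 < i1.2.1.eval (tZ cc N0 (x q.1) (c q.1)).length)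
        (PC.lift ctx ++ [fun q => una q.2])
        (fun q => PC.enc i1.1 (i1.1.bnd + 1)
          (cf i1.1 (tZ cc N0 (x q.1) (c q.1)) (tY (c q.1)) (tA (c q.1)) q.2)) :=
      PolyC.cf i1.1 (lf hz) (lf hY) (lf hA) hk
    have h5 : PolyC (fun _ : α × ℕ => join Y G)
        (fun q => D q.1 ∧ q.2 < i1.2.1.eval (tZ cc N0 (x q.1) (c q.1)).length)
        (PC.lift ctx ++ [fun q => una q.2])
        (fun q => oc (qry (cf i1.1 (tZ cc N0 (x q.1) (c q.1)) (tY (c q.1)) (tA (c q.1)) q.2))) :=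
      PolyC.qry' (α := α × ℕ) (orc := fun _ => join Y G)
        (D := fun q => D q.1 ∧ q.2 < i1.2.1.eval (tZ cc N0 (x q.1) (c q.1)).length)
        (ctx := PC.lift ctx ++ [fun q => una q.2])
        i1.1 (fun q => cf i1.1 (tZ cc N0 (x q.1) (c q.1)) (tY (c q.1)) (tA (c q.1)) q.2) h4
        (fun q _ => PC.cf_KK i1.1 _ _ _ _)
    have g1 : PolyC (fun _ : α × ℕ => join Y G)
        (fun q => D q.1 ∧ q.2 < i1.2.1.eval (tZ cc N0 (x q.1) (c q.1)).length)
        (PC.lift ctx ++ [fun q => una q.2]) (fun q => tP cc N0 (x q.1) (c q.1)) :=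
      lf (t := fun a => tP cc N0 (x a) (c a)) hP
    have g2 : PolyB (fun _ : α × ℕ => join Y G)
        (fun q => D q.1 ∧ q.2 < i1.2.1.eval (tZ cc N0 (x q.1) (c q.1)).length)
        (PC.lift ctx ++ [fun q => una q.2]) (fun q => (tA (c q.1)).getD q.2 false) :=
      PolyB.getD (lf hA) hk
    have g3 : PolyC (fun _ : α × ℕ => join Y G)
        (fun q => D q.1 ∧ q.2 < i1.2.1.eval (tZ cc N0 (x q.1) (c q.1)).length)
        (PC.lift ctx ++ [fun q => una q.2]) (fun q => nth (tW (c q.1)) q.2) :=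
      PolyC.nth (lf hW) hk
    have g4 : PolyC (fun _ : α × ℕ => join Y G)
        (fun q => D q.1 ∧ q.2 < i1.2.1.eval (tZ cc N0 (x q.1) (c q.1)).length)
        (PC.lift ctx ++ [fun q => una q.2]) (fun q => y' q.1) := lf hy
    have g5 := polyB_badb (Y := Y) (G := G) p i g1 h5 g2 g3 g4
    exact g5

open Classical in
/-- the language of tests -/
noncomputable def TT (cc N0 : ℕ) (p : PIx) (i1 i : NIx) (Y G : Lang) : Lang :=
  fun w => decide (TTP cc N0 p i1 i Y G (fst w) (snd w))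

open Classical in
theorem TT_pr {cc N0 : ℕ} {p : PIx} {i1 i : NIx} {x c : Str} :
    TT cc N0 p i1 i Y G (pr x c) = true ↔ TTP cc N0 p i1 i Y G x c := by
  unfold TT
  rw [decide_eq_true_eq, fst_pr, snd_pr]

open Classical in
theorem TT_mem (cc N0 : ℕ) (p : PIx) (i1 i : NIx) (Y G : Lang) :
    TT cc N0 p i1 i Y G ∈ NPO (join Y G) := by
  refine PC.mem_NPO_le (V := fun q => ttb cc N0 p i1 i Y G (fst q.1) (snd q.1) q.2)
    ((tq cc N0 i1 i).comp (3 * Polynomial.X + 1)) ?_ ?_
  · have hz : PolyC (fun _ : Str × Str => join Y G) (fun _ => True) [fun p => p.1, fun p => p.2]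
      (fun p => p.1) := PolyC.var (by simp)
    have hy : PolyC (fun _ : Str × Str => join Y G) (fun _ => True) [fun p => p.1, fun p => p.2]
      (fun p => p.2) := PolyC.var (by simp)
    exact polyB_ttb cc N0 p i1 i (PolyC.fst hz) (PolyC.snd hz) hy
  · intro w
    unfold TT
    rw [decide_eq_true_eq]
    constructor
    · intro h
      obtain ⟨y', h1, h2⟩ := TTP_ttb h
      refine ⟨y', h1.trans ?_, h2⟩
      rw [Polynomial.eval_comp]
      apply poly_mono
      rw [pr_length]
      simp only [Polynomial.eval_add, Polynomial.eval_mul, Polynomial.eval_X,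
        Polynomial.eval_ofNat, Polynomial.eval_one]
      have h3 := PC.fst_length_le w
      have h4 := PC.snd_length_le w
      omega
    · rintro ⟨y', _, h⟩
      exact ttb_TTP h

end Pool.Agent.Lib.Pa76659G.Two
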