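import Pool.Agent.Lib.Pa76659G.Two5
import Pool.Agent.Lib.Pa76659G.Core3

set_option autoImplicit false
set_option maxHeartbeats 4000000

/-!
One-sidedness of the tests.
-/

namespace Pool.Agent.Lib.Pa76659G.Two

open Pool.Agent.Lib.Pa76659G
open Pool.Agent.Lib.Pa76659 (Str Lang Prog Cfg step runN PO NPO inp inp2 accepts Bdd Sig
  join PIx NIx pEval nEval sEval IsC SL poly_le poly_mono)
open Pool.Agent.Lib.Pa76659G.PC (qry cf top runT ansO nth lenc llen ra ac oc PolyC PolyB PolyN una
  ra_ac ac_cons)

theorem snd_lt : ∀ w : Str, w ≠ [] → (snd w).length < w.length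
  | [], h => absurd rfl h
  | [true], _ => by simp [snd, un]
  | false :: r, _ => by simp [snd, un]
  | true :: c :: r, _ => by
      have h := un_length r
      simp only [snd, un, List.length_cons]
      omega

theorem snd_iter_nil : ∀ (k : ℕ) (w : Str), w.length ≤ k → snd^[k] w = []
  | 0, w, h => by
      have : w = [] := List.length_eq_zero_iff.1 (by omega)
      rw [this]; rfl
  | k + 1, w, h => by
      rw [Function.iterate_succ_apply]
      apply snd_iter_nil
      by_cases hw : w = []
      · rw [hw]; simp [snd, un]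
      · have := snd_lt w hw
        omega

theorem llen_eq {w : Str} {m : ℕ} (h : w.length ≤ m) : llen w =
    ((List.range m).filter (fun i => !(snd^[i] w).isEmpty)).length := by
  unfold llen
  obtain ⟨d, rfl⟩ := Nat.exists_eq_add_of_le h
  clear h
  induction d with
  | zero => rfl
  | succ d ih =>
    rw [ih, ← Nat.add_assoc, List.range_succ, List.filter_append, List.length_append]
    simp [snd_iter_nil (w.length + d) w (by omega)]

theorem llen_pr (a b : Str) : llen (pr a b) = llen b + 1 := by
  have h1 : (pr a b).length ≤ (b.length + 2 * a.length) + 1 := by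
    rw [pr_length]; omega
  rw [llen_eq h1, llen_eq (show b.length ≤ b.length + 2 * a.length by omega)]
  rw [List.range_succ_eq_map, List.filter_cons]
  have h2 : (!(snd^[0] (pr a b)).isEmpty) = true := by
    have h3 : pr a b ≠ [] := by
      intro h
      have := congrArg List.length h
      rw [pr_length] at this
      simp at this
    simpa using h3
  rw [if_pos h2, List.length_cons, List.filter_map, List.length_map]
  congr 2
  apply List.filter_congr
  intro i _
  simp only [Function.comp, Function.iterate_succ_apply, snd_pr]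

theorem nth_pr_zero (a b : Str) : nth (pr a b) 0 = a := by
  simp [nth]

theorem nth_pr_succ (a b : Str) (k : ℕ) : nth (pr a b) (k + 1) = nth b k := by
  simp only [nth, Function.iterate_succ_apply, snd_pr]

theorem ra_pr (a b : Str) : ra (pr a b) = (fst a, snd a) :: ra b := by
  unfold ra
  rw [llen_pr, List.range_succ_eq_map, List.map_cons, List.map_map]
  congr 1
  · simp [nth]
  · apply List.map_congr_left
    intro k _
    simp only [Function.comp, nth_pr_succ]

theorem ra_tP (cc N0 : ℕ) (x c : Str) : ra (tP cc N0 x c) =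
    (child (tZ cc N0 x c) (tI c), x) :: ra (tC c) := by
  unfold tP
  rw [ra_pr, fst_pr, snd_pr]

theorem zz_pr (cc N0 n m : ℕ) : zz cc N0 n m = pr (fst (zz cc N0 n m)) (snd (zz cc N0 n m)) := by
  unfold zz root
  rw [fst_pr, snd_pr]

theorem zz_n (cc N0 n m : ℕ) : (fst (fst (zz cc N0 n m))).length = n := by
  unfold zz root
  rw [fst_pr, fst_pr, on1, List.length_replicate]

theorem zz_m (cc N0 n m : ℕ) : (fst (snd (fst (zz cc N0 n m)))).length = m := by
  unfold zz root
  rw [fst_pr, snd_pr, fst_pr, on1, List.length_replicate]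

theorem fmt_iff {cc N0 : ℕ} {x c : Str} : fmt cc N0 x c = true ↔ (tI c).length = tM c ∧
    ∀ e ∈ ra (tC c), (tZ cc N0 x c).length ≤ e.1.length := by
  unfold fmt
  simp only [Bool.and_eq_true, decide_eq_true_eq]
  apply and_congr Iff.rfl
  unfold ra
  simp only [List.mem_map, List.mem_range, forall_exists_index, and_imp]
  constructor
  · rintro h e k hk rfl
    exact h k hk
  · intro h k hk
    exact h _ k hk rfl

theorem patchL_short {G : Lang} {a : List (Str × Str)} {N : ℕ} (h : ∀ e ∈ a, N ≤ e.1.length)
    (v : Str) (hv : v.length < N) : patchL G a v = G v := by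
  unfold patchL
  have h1 : look a (snd v) = none := by
    rw [look_none]
    intro e he
    have h2 := h _ he
    have h3 := snd_length v
    simp only at h2
    omega
  rw [h1]

theorem one_sided {Y : Lang} {Φ : Lang → Lang} {cc : ℕ} (hcc : ∀ (x : Str) (X X' : Lang),
    (∀ v : Str, v.length ≤ (x.length + 2) ^ cc → X v = X' v) → Φ X x = Φ X' x)
    {p : PIx} {i1 i : NIx} {G : Lang} {N0 : ℕ}
    (h : ∀ G' ∈ nb G N0, Right Y Φ p [i1, i] 1 G') {x c : Str}
    (hx : Φ (join Y G) x = false) : TTP cc N0 p i1 i Y G x c := by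
  by_cases hf : fmt cc N0 x c = false
  · exact Or.inl hf
  rw [Bool.not_eq_false, fmt_iff] at hf
  obtain ⟨hI, hC⟩ := hf
  refine Or.inr ?_
  by_contra hTV
  have h1 := TV_sound hTV
  set z := tZ cc N0 x c with hz
  have hzl : z.length = 4 * x.length + 4 * tM c + 2 * ((x.length + 2) ^ cc + N0) + 5 := by
    rw [hz, tZ, zz_length]
  have hzp : z = pr (fst z) (snd z) := by
    rw [hz, tZ]
    exact zz_pr cc N0 x.length (tM c)
  set G' := patchL G (ra (tP cc N0 x c)) with hG'
  have hkeys : ∀ e ∈ ra (tP cc N0 x c), z.length ≤ e.1.length := by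
    intro e he
    rw [ra_tP, List.mem_cons] at he
    rcases he with rfl | he
    · exact length_le_child z (tI c) (snd z) hzp
    · exact hC e he
  have h2 : ∀ v : Str, v.length < z.length → G' v = G v := fun v hv =>
    patchL_short hkeys v hv
  have h3 : G' ∈ nb G N0 := fun v hv => h2 v (by omega)
  have h4 := h G' h3 z
  have h5 : ∀ v : Str, v.length < z.length → join Y G' v = join Y G v := by
    intro v hv
    have h2' : G' ∈ nb G z.length := h2
    exact join_congr h2' hv.le
  have h6 : ∀ x' : Str, x'.length = x.length → Φ (join Y G') x' = Φ (join Y G) x' := by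
    intro x' hx'
    apply hcc
    intro v hv
    rw [hx'] at hv
    exact h5 v (by omega)
  have h7 : QL (join (join Y G') (Φ (join Y G'))) 0 (child z (tI c)) = false := by
    have h8 := QL_tab Y G (m := tM c) (n := x.length) [] (fst (child z (tI c)))
      (by rw [fst_child, hz, tZ, zz_n]) (by rw [fst_child, hz, tZ, zz_m])
      (Φ (join Y G)) (Φ (join Y G')) h6 0 (child z (tI c)) rfl ⟨x, rfl⟩ (ra (tC c))
    rw [show (tabL (m := tM c) 0 (child z (tI c)) (⟨x, rfl⟩ : Idx x.length) ++ ra (tC c) :
        List (Str × Str)) = ra (tP cc N0 x c) by rw [ra_tP]; rfl] at h8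
    rw [h8]
    exact hx
  have h10 : QL (join (join Y G') (Φ (join Y G'))) 1 z = true := by
    rw [QL_succ]
    refine ⟨tI c, ?_, h7⟩
    rw [hI, hz, tZ, zz_m]
  have h11 : sEval p [i1, i] (join Y G') z = true := h1
  rw [h4, h10] at h11
  exact absurd h11 (by simp)

end Pool.Agent.Lib.Pa76659G.Two
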