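import Pool.Agent.Lib.Pa76659G.Two3
import Pool.Agent.Lib.Pa76659G.Two6

set_option autoImplicit false
set_option maxHeartbeats 4000000

/-!
A test rejects half of any set of strings of the language.
-/

namespace Pool.Agent.Lib.Pa76659G.Two

open Pool.Agent.Lib.Pa76659G
open Pool.Agent.Lib.Pa76659 (Str Lang Prog Cfg step runN PO NPO inp inp2 accepts Bdd Sig
  join PIx NIx pEval nEval sEval IsC SL poly_le poly_mono pow_le_two_pow)
open Pool.Agent.Lib.Pa76659G.PC (qry cf top runT ansO nth lenc llen ra ac oc PolyC PolyB PolyN una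
  ra_ac ac_cons ac_length)

theorem exists_m' (d : ℕ) : ∃ e : ℕ, ∀ n : ℕ, ∃ m : ℕ, 2 * (n + m + 2) ^ d < 2 ^ m ∧
    2 ^ m ≤ (n + 2) ^ e := by
  obtain ⟨n0, hn0⟩ := pow_le_two_pow (2 * d + 2)
  set s := max (max n0 2) d with hs
  have hs0 : n0 ≤ s := le_trans (le_max_left _ _) (le_max_left _ _)
  have hs2 : 2 ≤ s := le_trans (le_max_right _ _) (le_max_left _ _)
  have hsd : d ≤ s := le_max_right _ _
  have h1 := hn0 (s + 1) (by omega)
  have h2 : 2 ^ (d + 1) * (s + 1) ^ d ≤ 2 ^ s := by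
    have h3 : 2 * (2 ^ (d + 1) * (s + 1) ^ d) ≤ 2 * 2 ^ s := by
      calc 2 * (2 ^ (d + 1) * (s + 1) ^ d) ≤ (s + 1) * ((s + 1) ^ (d + 1) * (s + 1) ^ d) :=
            Nat.mul_le_mul (by omega) (Nat.mul_le_mul_right _ (Nat.pow_le_pow_left (by omega) _))
        _ = (s + 1) ^ (2 * d + 2) := by ring
        _ ≤ 2 ^ (s + 1) := h1
        _ = 2 * 2 ^ s := by ring
    omega
  refine ⟨2 * s, fun n => ⟨s * (Nat.log 2 (n + 2) + 1), ?_, ?_⟩⟩
  · set m := s * (Nat.log 2 (n + 2) + 1) with hm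
    have h3 : 2 ^ Nat.log 2 (n + 2) ≤ n + 2 := Nat.pow_log_le_self 2 (by omega)
    have h4 : Nat.log 2 (n + 2) < n + 2 := lt_of_lt_of_le Nat.lt_two_pow_self h3
    have h5 : n + m + 2 ≤ (s + 1) * (n + 2) := by
      have h6 : m ≤ s * (n + 2) := Nat.mul_le_mul_left _ (by omega)
      calc n + m + 2 ≤ n + s * (n + 2) + 2 := by omega
        _ = (s + 1) * (n + 2) := by ring
    have h6 : (n + 2) ^ s < 2 ^ m := by
      rw [hm, mul_comm, pow_mul]
      exact Nat.pow_lt_pow_left (Nat.lt_pow_succ_log_self (by norm_num) _) (by omega)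
    refine lt_of_le_of_lt ?_ h6
    have h7 : 2 ^ (d + 1) * (s + 1) ^ d * 2 ^ (s - d) ≤ 2 ^ s * 2 ^ (s - d) :=
      Nat.mul_le_mul_right _ h2
    have h8 : 2 * (s + 1) ^ d ≤ 2 ^ (s - d) := by
      have h9 : 2 ^ s = 2 ^ d * 2 ^ (s - d) := by
        rw [← pow_add]
        congr 1
        omega
      rw [h9] at h2
      have h10 : 2 ^ d * (2 * (s + 1) ^ d) ≤ 2 ^ d * 2 ^ (s - d) := by
        calc 2 ^ d * (2 * (s + 1) ^ d) = 2 ^ (d + 1) * (s + 1) ^ d := by ring
          _ ≤ _ := h2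
      exact Nat.le_of_mul_le_mul_left h10 (by positivity)
    calc 2 * (n + m + 2) ^ d ≤ 2 * ((s + 1) * (n + 2)) ^ d :=
          Nat.mul_le_mul_left _ (Nat.pow_le_pow_left h5 _)
      _ = (2 * (s + 1) ^ d) * (n + 2) ^ d := by rw [mul_pow]; ring
      _ ≤ 2 ^ (s - d) * (n + 2) ^ d := Nat.mul_le_mul_right _ h8
      _ ≤ (n + 2) ^ (s - d) * (n + 2) ^ d :=
          Nat.mul_le_mul_right _ (Nat.pow_le_pow_left (by omega) _)
      _ = (n + 2) ^ s := by
          rw [← pow_add]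
          congr 1
          omega
  · rw [mul_comm, pow_mul, pow_mul]
    apply Nat.pow_le_pow_left
    rw [pow_succ]
    have h5 := Nat.pow_log_le_self 2 (show n + 2 ≠ 0 by omega)
    nlinarith

/-- the polynomial of the witnesses -/
noncomputable def wbp (i1 i : NIx) : Polynomial ℕ :=
  i1.2.1 * (2 * i.2.2.comp (Polynomial.X + i1.2.2 + i1.2.1) + 1)

theorem wbp_eval (i1 i : NIx) (n : ℕ) : (wbp i1 i).eval n = wb i1 i n := by
  unfold wbp wb
  simp only [Polynomial.eval_mul, Polynomial.eval_add, Polynomial.eval_comp, Polynomial.eval_X,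
    Polynomial.eval_ofNat, Polynomial.eval_one]

theorem dcd_length {a : ℕ} (v : Idx (a + 1)) : (dcd v).length ≤ a := by
  unfold dcd
  rw [List.length_reverse, List.length_tail]
  have h1 := (List.dropWhile_suffix (l := v.1.reverse) (fun b => !b)).length_le
  rw [List.length_reverse, v.2] at h1
  omega

/-- the code of a test -/
noncomputable def mkc {m n : ℕ} (z : Str) (I : Idx m) (S : Arr (Idx m) (Idx n) 1) (y ans W : Str) : Str :=
  pr (on1 m) (pr I.1 (pr (ac (tabL 1 z S)) (pr y (pr ans W))))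

theorem mkc_length {m n : ℕ} (z : Str) (I : Idx m) (S : Arr (Idx m) (Idx n) 1) (y ans W : Str) :
    (mkc z I S y ans W).length ≤ 4 * m + 5 + 8 * (2 ^ m * (3 * (z.length + 2 * m + 2) + n + 1)) +
      2 * y.length + 2 * ans.length + W.length := by
  unfold mkc
  simp only [pr_length]
  have h1 := ac_length (tabL 1 z S)
  have h2 := szL_tab 1 z S
  rw [pow_one, pow_one] at h2
  rw [I.2, on1, List.length_replicate]
  omega

theorem mkc_TTP {cc N0 : ℕ} {p : PIx} {i1 i : NIx} {Y G : Lang} {m n : ℕ} {I : Idx m}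
    {S : Arr (Idx m) (Idx n) 1} {y ans W : Str} {x : Idx n} :
    TTP cc N0 p i1 i Y G x.1 (mkc (zz cc N0 n m) I S y ans W) ↔
      TV p i1 i (join Y (patchL G (tabL 1 (zz cc N0 n m)
        (Function.update (β := fun _ => Arr (Idx m) (Idx n) 0) S I x : Arr (Idx m) (Idx n) 1))))
        (zz cc N0 n m) y ans W := by
  set z := zz cc N0 n m with hz
  have hM : tM (mkc z I S y ans W) = m := by
    unfold tM mkc
    rw [fst_pr, on1, List.length_replicate]
  have hI : tI (mkc z I S y ans W) = I.1 := by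
    unfold tI mkc
    rw [snd_pr, fst_pr]
  have hC : tC (mkc z I S y ans W) = ac (tabL 1 z S) := by
    unfold tC mkc
    rw [snd_pr, snd_pr, fst_pr]
  have hY : tY (mkc z I S y ans W) = y := by
    unfold tY mkc
    rw [snd_pr, snd_pr, snd_pr, fst_pr]
  have hA : tA (mkc z I S y ans W) = ans := by
    unfold tA mkc
    rw [snd_pr, snd_pr, snd_pr, snd_pr, fst_pr]
  have hW : tW (mkc z I S y ans W) = W := by
    unfold tW mkc
    rw [snd_pr, snd_pr, snd_pr, snd_pr, snd_pr]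
  have hZ : tZ cc N0 x.1 (mkc z I S y ans W) = z := by
    unfold tZ
    rw [hM, x.2]
  have hzp : z = pr (fst z) (snd z) := zz_pr cc N0 n m
  have hf : fmt cc N0 x.1 (mkc z I S y ans W) = true := by
    rw [fmt_iff, hI, hM, hC, hZ, ra_ac]
    refine ⟨I.2, ?_⟩
    rintro ⟨u, e⟩ he
    exact leaf_length 1 z S u e ((mem_tabL _ _ _ _ _).1 he) hzp
  have hO : tO cc N0 Y G x.1 (mkc z I S y ans W) = join Y (patchL G (tabL 1 z
      (Function.update (β := fun _ => Arr (Idx m) (Idx n) 0) S I x : Arr (Idx m) (Idx n) 1))) := by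
    unfold tO
    rw [ra_tP, hZ, hI, hC, ra_ac]
    congr 1
    apply patchL_congr
    intro u
    have h1 := look_update 0 z S I x [] u
    rw [List.append_nil, List.append_nil] at h1
    rw [← h1]
    rfl
  unfold TTP
  rw [hf, hO, hZ, hY, hA, hW]
  simp

theorem reject_half {Y : Lang} {Φ : Lang → Lang} {cc : ℕ} (hcc : ∀ (x : Str) (X X' : Lang),
    (∀ v : Str, v.length ≤ (x.length + 2) ^ cc → X v = X' v) → Φ X x = Φ X' x)
    (p : PIx) (i1 i : NIx) (N0 : ℕ) : ∃ ρ : ℕ, ∀ G : Lang,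
    (∀ G' ∈ nb G N0, Right Y Φ p [i1, i] 1 G') → ∀ (n : ℕ) (W : Finset (Idx n)),
    (∀ x ∈ W, Φ (join Y G) x.1 = true) → W.Nonempty → ∃ c : Str, c.length ≤ (n + 2) ^ ρ ∧
      2 * (W.filter (fun x => TT cc N0 p i1 i Y G (pr x.1 c) = true)).card ≤ W.card := by
  obtain ⟨c1, hc1⟩ := poly_le (8 * Polynomial.X + 2 * (Polynomial.X ^ cc + Polynomial.C N0) + 5)
  obtain ⟨b, hb⟩ := tvb_isC p i1 i
  obtain ⟨c2, hc2⟩ := poly_le (i1.2.2.comp (8 * Polynomial.X + 2 * (Polynomial.X ^ cc +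
    Polynomial.C N0) + 5) + i1.2.1.comp (8 * Polynomial.X + 2 * (Polynomial.X ^ cc +
    Polynomial.C N0) + 5) + (wbp i1 i).comp (8 * Polynomial.X + 2 * (Polynomial.X ^ cc +
    Polynomial.C N0) + 5) + 1)
  set e := (c1 + 1) * b + c2 + 1 with he
  obtain ⟨d, hd⟩ := KK_poly 1 e
  obtain ⟨e', he'⟩ := exists_m' d
  obtain ⟨ρ, hρ⟩ := poly_le (4 * Polynomial.X ^ e' + 5 + 8 * (Polynomial.X ^ e' *
    (3 * ((4 * Polynomial.X + 4 * Polynomial.X ^ e' + 2 * (Polynomial.X ^ cc + Polynomial.C N0) + 5) +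
      2 * Polynomial.X ^ e' + 2) + Polynomial.X + 1)) +
    2 * i1.2.2.comp (4 * Polynomial.X + 4 * Polynomial.X ^ e' + 2 * (Polynomial.X ^ cc +
      Polynomial.C N0) + 5) + 2 * i1.2.1.comp (4 * Polynomial.X + 4 * Polynomial.X ^ e' +
      2 * (Polynomial.X ^ cc + Polynomial.C N0) + 5) + (wbp i1 i).comp (4 * Polynomial.X +
      4 * Polynomial.X ^ e' + 2 * (Polynomial.X ^ cc + Polynomial.C N0) + 5))
  refine ⟨ρ, fun G hG n W hW hWn => ?_⟩
  classical
  obtain ⟨m, hm1, hm2⟩ := he' n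
  set M := n + m + 2 with hM
  have hM2 : 2 ≤ M := by omega
  set z := zz cc N0 n m with hz
  have hzl : z.length = 4 * n + 4 * m + 2 * ((n + 2) ^ cc + N0) + 5 := zz_length _ _ _ _
  have hzp : z = pr (fst z) (snd z) := zz_pr cc N0 n m
  have hc1' := hc1 M hM2
  have hc2' := hc2 M hM2
  have hρ' := hρ (n + 2) (by omega)
  simp only [Polynomial.eval_add, Polynomial.eval_mul, Polynomial.eval_pow, Polynomial.eval_X,
    Polynomial.eval_ofNat, Polynomial.eval_C, Polynomial.eval_comp, Polynomial.eval_one]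
    at hc1' hc2' hρ'
  have hZ1 : z.length ≤ 8 * M + 2 * (M ^ cc + N0) + 5 := by
    have : (n + 2) ^ cc ≤ M ^ cc := Nat.pow_le_pow_left (by omega) _
    omega
  have hmm : m ≤ (n + 2) ^ e' := le_trans (Nat.lt_two_pow_self).le hm2
  have hZ2 : z.length ≤ 4 * (n + 2) + 4 * (n + 2) ^ e' + 2 * ((n + 2) ^ cc + N0) + 5 := by
    omega
  have hq1 := poly_mono i1.2.2 hZ1
  have hT1 := poly_mono i1.2.1 hZ1
  have hw1 := poly_mono (wbp i1 i) hZ1
  have hq2 := poly_mono i1.2.2 hZ2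
  have hT2 := poly_mono i1.2.1 hZ2
  have hw2 := poly_mono (wbp i1 i) hZ2
  rw [wbp_eval] at hw1 hw2
  have : Nonempty {x : Idx n // x ∈ W} := ⟨⟨hWn.choose, hWn.choose_spec⟩⟩
  set q := i1.2.2.eval z.length with hq
  set T := i1.2.1.eval z.length with hT
  set ω := wb i1 i z.length with hω
  let tb : (Idx m → {x : Idx n // x ∈ W}) → Arr (Idx m) (Idx n) 1 := fun Y => fun y => (Y y).1
  let g : (Idx q × Idx T × Idx (ω + 1)) → (Idx m → {x : Idx n // x ∈ W}) → Bool := fun k U =>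
    tvb p i1 i z k.1.1 k.2.1.1 (dcd k.2.2) (join Y (patchL G (tabL 1 z (tb U))))
  have hcert : ∀ U : Idx m → {x : Idx n // x ∈ W}, ∃ k, g k U = false := by
    intro U
    have h1 : patchL G (tabL 1 z (tb U)) ∈ nb G N0 := fun v hv =>
      patch_short G 1 z (tb U) hzp v (by omega)
    have h2 := hG _ h1 z
    have h3 : ∀ x : Str, x.length = n → Φ (join Y (patchL G (tabL 1 z (tb U)))) x =
        Φ (join Y G) x := by
      intro x hx
      apply hcc
      intro v hv
      rw [hx] at hv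
      have h4 : patchL G (tabL 1 z (tb U)) ∈ nb G z.length := fun v hv =>
        patch_short G 1 z (tb U) hzp v hv
      exact join_congr h4 (by omega)
    have h6 := QL_tab Y G [] (fst z) (zz_n cc N0 n m) (zz_m cc N0 n m) (Φ (join Y G))
      (Φ (join Y (patchL G (tabL 1 z (tb U))))) h3 1 z rfl (tb U) []
    rw [List.append_nil] at h6
    have h7 : Qv (fun x : Idx n => Φ (join Y G) x.1) 1 (tb U) = false := by
      rw [Qv, decide_eq_false_iff_not]
      rintro ⟨y, hy⟩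
      have h8 : Φ (join Y G) (U y).1.1 = true := hW _ (U y).2
      have h9 : Φ (join Y G) (U y).1.1 = false := hy
      rw [h8] at h9
      exact absurd h9 (by simp)
    rw [h6, h7] at h2
    obtain ⟨y, ans, w, h8, h9, h10, h11⟩ := TV_complete (h2.trans rfl)
    obtain ⟨v, hv⟩ := dcd_surj h11
    refine ⟨(⟨y, h9⟩, ⟨ans, h10⟩, v), ?_⟩
    show tvb p i1 i z y ans (dcd v) _ = false
    rw [tvb_false, hv]
    exact h8
  choose c0 hc0 using hcert
  have hMe1 : M ≤ M ^ e := by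
    calc M = M ^ 1 := (pow_one M).symm
      _ ≤ M ^ e := Nat.pow_le_pow_right (by omega) (by omega)
  have hκ : Fintype.card (Idx q × Idx T × Idx (ω + 1)) ≤ 2 ^ (M ^ e) := by
    rw [Fintype.card_prod, Fintype.card_prod, card_vector, card_vector, card_vector,
      Fintype.card_bool, ← pow_add, ← pow_add]
    apply Nat.pow_le_pow_right (by norm_num)
    have : M ^ c2 ≤ M ^ e := Nat.pow_le_pow_right (by omega) (by omega)
    omega
  have hN2 : 2 ≤ M ^ (c1 + 1) := by
    calc 2 ≤ M := hM2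
      _ = M ^ 1 := (pow_one M).symm
      _ ≤ M ^ (c1 + 1) := Nat.pow_le_pow_right (by omega) (by omega)
  have hNc : M ^ c1 ≤ M ^ (c1 + 1) := Nat.pow_le_pow_right (by omega) (by omega)
  have hle : (M ^ (c1 + 1)) ^ b ≤ M ^ e := by
    rw [← pow_mul]
    exact Nat.pow_le_pow_right (by omega) (by omega)
  have hdep : ∀ v (U U' : Idx m → {x : Idx n // x ∈ W}), IsC Set.univ (M ^ e) (M ^ e) 1
      (fun β : Idx m → Bool => g v (mix β U U')) := by
    intro v U U'
    have h1 := (hb (M ^ (c1 + 1)) hN2 z (by omega) v.1.1 v.2.1.1 (dcd v.2.2)).mono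
      (subset_refl _) hle hle
    have h2 := mix_isC Y G (n := n) (le_refl 1) h1 0 z (tb U) (tb U') []
    refine (iff_of_eq ?_).1 h2
    congr 1
    funext β
    show tvb p i1 i z v.1.1 v.2.1.1 (dcd v.2.2) _ = tvb p i1 i z v.1.1 v.2.1.1 (dcd v.2.2) _
    rw [List.append_nil]
    have h3 : (mix β (tb U) (tb U') : Arr (Idx m) (Idx n) 1) = tb (mix β U U') := by
      funext y
      show (if β y = true then (tb U') y else (tb U) y) = ((if β y = true then U' y else U y) :
        {x : Idx n // x ∈ W}).1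
      split_ifs <;> rfl
    rw [← h3]
  have hKK : 2 * KK 1 (M ^ e) (M ^ e) m < Fintype.card (Idx m) := by
    rw [card_vector, Fintype.card_bool]
    have h1 := hd M hM2 (M ^ e) (M ^ e) m le_rfl le_rfl (by omega)
    omega
  obtain ⟨I, U, hIU⟩ := exists_half (ι := Idx m) (Ω := {x : Idx n // x ∈ W}) (M ^ e) (M ^ e) m
    (by rw [card_vector, Fintype.card_bool]) hκ hKK g c0 hc0 hdep
  refine ⟨mkc z I (tb U) (c0 U).1.1 (c0 U).2.1.1 (dcd (c0 U).2.2), ?_, ?_⟩
  · refine (mkc_length z I (tb U) _ _ _).trans (le_trans ?_ hρ')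
    have h1 : (c0 U).1.1.length = q := (c0 U).1.2
    have h2 : (c0 U).2.1.1.length = T := (c0 U).2.1.2
    have h3 : (dcd (c0 U).2.2).length ≤ ω := dcd_length _
    have h4 : 2 ^ m * (3 * (z.length + 2 * m + 2) + n + 1) ≤ (n + 2) ^ e' *
        (3 * ((4 * (n + 2) + 4 * (n + 2) ^ e' + 2 * ((n + 2) ^ cc + N0) + 5) +
          2 * (n + 2) ^ e' + 2) + (n + 2) + 1) := Nat.mul_le_mul hm2 (by omega)
    rw [h1, h2]
    omega
  · rw [Fintype.card_coe] at hIU
    refine le_trans (Nat.mul_le_mul_left _ ?_) hIU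
    apply Finset.card_le_card_of_surjOn (fun y : {x : Idx n // x ∈ W} => y.1)
    intro x hx
    rw [Finset.mem_coe, Finset.mem_filter] at hx
    refine ⟨⟨x, hx.1⟩, ?_, rfl⟩
    rw [Finset.mem_coe, Finset.mem_filter]
    refine ⟨Finset.mem_univ _, ?_⟩
    have h1 := (mkc_TTP (cc := cc) (N0 := N0)).1 (TT_pr.1 hx.2)
    show tvb p i1 i z (c0 U).1.1 (c0 U).2.1.1 (dcd (c0 U).2.2) _ = true
    rw [tvb_true]
    have h2 : tb (Function.update U I ⟨x, hx.1⟩) =
        (Function.update (β := fun _ => Arr (Idx m) (Idx n) 0) (tb U) I x :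
          Arr (Idx m) (Idx n) 1) := by
      funext y
      show ((Function.update U I ⟨x, hx.1⟩ y : {x : Idx n // x ∈ W})).1 = _
      by_cases hy : y = I
      · subst hy
        rw [Function.update_self]
        exact (Function.update_self (β := fun _ => Arr (Idx m) (Idx n) 0) y x (tb U)).symm
      · rw [Function.update_of_ne hy]
        exact (Function.update_of_ne (β := fun _ => Arr (Idx m) (Idx n) 0) hy x (tb U)).symm
    rw [h2]
    exact h1

end Pool.Agent.Lib.Pa76659G.Two
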