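import Pool.Agent.Lib.Pa76659G.Two7
import Pool.Agent.Lib.Pa76659G.Defs2
import Pool.Agent.Lib.Pa76659G.Chk

set_option autoImplicit false
set_option maxHeartbeats 4000000

/-!
Halving, and the classes.
-/

namespace Pool.Agent.Lib.Pa76659G.Two

open Pool.Agent.Lib.Pa76659G
open Pool.Agent.Lib.Pa76659 (Str Lang Prog Cfg step runN PO NPO inp inp2 accepts Bdd Sig
  join PIx NIx pEval nEval sEval IsC SL poly_le poly_mono pow_le_two_pow)
open Pool.Agent.Lib.Pa76659G.PC (qry cf top runT ansO nth lenc llen ra ac oc PolyC PolyB PolyN una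
  ra_ac ac_cons ac_length exists_of_NPO)

theorem reject_all {n r : ℕ} (T : Str → Str → Bool) (A : Str → Bool)
    (h : ∀ W : Finset (Idx n), (∀ x ∈ W, A x.1 = true) → W.Nonempty → ∃ c : Str, c.length ≤ r ∧
      2 * (W.filter (fun x => T x.1 c = true)).card ≤ W.card) :
    ∀ (k : ℕ) (W : Finset (Idx n)), (∀ x ∈ W, A x.1 = true) → W.card < 2 ^ k →
      ∃ l : List Str, l.length ≤ k ∧ (∀ c ∈ l, c.length ≤ r) ∧ ∀ x ∈ W, ∃ c ∈ l, T x.1 c = false
  | 0, W, _, hk => by
      have : W = ∅ := Finset.card_eq_zero.1 (by simpa using hk)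
      subst this
      exact ⟨[], by simp, by simp, by simp⟩
  | k + 1, W, hW, hk => by
      by_cases hn : W.Nonempty
      · obtain ⟨c, hc1, hc2⟩ := h W hW hn
        obtain ⟨l, h1, h2, h3⟩ := reject_all T A h k (W.filter (fun x => T x.1 c = true))
          (fun x hx => hW x (Finset.mem_filter.1 hx).1) (by rw [pow_succ] at hk; omega)
        refine ⟨c :: l, by simpa using h1, ?_, ?_⟩
        · intro c' hc'
          rcases List.mem_cons.1 hc' with rfl | hc'
          · exact hc1
          · exact h2 c' hc'
        · intro x hx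
          by_cases hT : T x.1 c = true
          · obtain ⟨c', hc', h4⟩ := h3 x (Finset.mem_filter.2 ⟨hx, hT⟩)
            exact ⟨c', List.mem_cons_of_mem _ hc', h4⟩
          · exact ⟨c, List.mem_cons_self, by simpa using hT⟩
      · rw [Finset.not_nonempty_iff_eq_empty] at hn
        subst hn
        exact ⟨[], by simp, by simp, by simp⟩

theorem llen_le (w : Str) : llen w ≤ w.length := by
  unfold llen
  refine (List.length_filter_le _ _).trans ?_
  simp

theorem nth_length_le (w : Str) (k : ℕ) : (nth w k).length ≤ w.length :=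
  (PC.fst_length_le _).trans (PC.snd_iter_length_le k w)

open Classical in
/-- all the tests of the list accept -/
noncomputable def AllT (L : Lang) : Lang := fun w =>
  decide (∀ t < llen (snd w), L (pr (fst w) (nth (snd w) t)) = true)

open Classical in
theorem AllT_pr {L : Lang} {x u : Str} :
    AllT L (pr x u) = true ↔ ∀ t < llen u, L (pr x (nth u t)) = true := by
  unfold AllT
  rw [decide_eq_true_eq, fst_pr, snd_pr]

open Classical in
theorem AllT_mem {O L : Lang} (h : L ∈ NPO O) : AllT L ∈ NPO O := by
  obtain ⟨V, q, hV, hq⟩ := exists_of_NPO h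
  refine PC.mem_NPO_le (V := fun z => decide (∀ t < llen (snd z.1),
    ((decide ((nth z.2 t).length = q.eval (pr (fst z.1) (nth (snd z.1) t)).length) &&
      V (pr (fst z.1) (nth (snd z.1) t), nth z.2 t))) = true))
    (2 * (Polynomial.X * q.comp (3 * Polynomial.X + 1)) + Polynomial.X) ?_ ?_
  · have hw : PolyC (fun _ : Str × Str => O) (fun _ => True) [fun p => p.1, fun p => p.2]
      (fun p => p.1) := PolyC.var (by simp)
    have hy : PolyC (fun _ : Str × Str => O) (fun _ => True) [fun p => p.1, fun p => p.2]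
      (fun p => p.2) := PolyC.var (by simp)
    refine PolyB.forall_lt (φ := fun s : (Str × Str) × ℕ =>
      (decide ((nth s.1.2 s.2).length = q.eval (pr (fst s.1.1) (nth (snd s.1.1) s.2)).length) &&
      V (pr (fst s.1.1) (nth (snd s.1.1) s.2), nth s.1.2 s.2)))
      (PolyN.llen (PolyC.snd hw)) ?_
    have lf : ∀ {t : Str × Str → Str}, PolyC (fun _ => O) (fun _ => True)
        [fun p : Str × Str => p.1, fun p => p.2] t →
        PolyC (fun _ : (Str × Str) × ℕ => O) (fun s => True ∧ s.2 < llen (snd s.1.1))
          (PC.lift [fun p : Str × Str => p.1, fun p => p.2] ++ [fun s => una s.2])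
          (fun s => t s.1) := fun ht =>
      (ht.lift (D' := fun s : (Str × Str) × ℕ => True ∧ s.2 < llen (snd s.1.1))
        (fun s hs => hs.1)).weakenRight _
    have hk : PolyN (fun _ : (Str × Str) × ℕ => O) (fun s => True ∧ s.2 < llen (snd s.1.1))
        (PC.lift [fun p : Str × Str => p.1, fun p => p.2] ++ [fun s => una s.2])
        (fun s => s.2) := PolyC.var (by simp)
    have h1 := lf (t := fun p => p.1) hw
    have h2 := lf (t := fun p => p.2) hy
    have h3 := PolyC.pr (PolyC.fst h1) (PolyC.nth (PolyC.snd h1) hk)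
    have h4 := PolyC.nth h2 hk
    exact (PolyB.natEq (PolyN.length h4) ((PolyN.length h3).poly q)).and (PolyB.arg2 hV h3 h4)
  · intro w
    unfold AllT
    rw [decide_eq_true_eq]
    have hb : ∀ t, (pr (fst w) (nth (snd w) t)).length ≤ 3 * w.length + 1 := by
      intro t
      rw [pr_length]
      have h1 := PC.fst_length_le w
      have h2 := nth_length_le (snd w) t
      have h3 := PC.snd_length_le w
      omega
    constructor
    · intro h1
      have h2 : ∀ t, ∃ y : Str, y.length ≤ q.eval (3 * w.length + 1) ∧ (t < llen (snd w) →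
          y.length = q.eval (pr (fst w) (nth (snd w) t)).length ∧
          V (pr (fst w) (nth (snd w) t), y) = true) := by
        intro t
        by_cases ht : t < llen (snd w)
        · obtain ⟨y, hy1, hy2⟩ := (hq _).1 (h1 t ht)
          exact ⟨y, by rw [hy1]; exact poly_mono _ (hb t), fun _ => ⟨hy1, hy2⟩⟩
        · exact ⟨[], by simp, fun h => absurd h ht⟩
      choose y hy1 hy2 using h2
      refine ⟨lenc ((List.range (llen (snd w))).map y), ?_, ?_⟩
      · rw [PC.lenc_length]
        have h3 := total_le_mul (l := (List.range (llen (snd w))).map y)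
          (N := q.eval (3 * w.length + 1)) (by
            intro s hs
            obtain ⟨t, _, rfl⟩ := List.mem_map.1 hs
            exact hy1 t)
        rw [List.length_map, List.length_range] at h3 ⊢
        simp only [Polynomial.eval_add, Polynomial.eval_mul, Polynomial.eval_X,
          Polynomial.eval_ofNat, Polynomial.eval_one, Polynomial.eval_comp]
        have h4 := llen_le (snd w)
        have h5 := PC.snd_length_le w
        have h6 : llen (snd w) * q.eval (3 * w.length + 1) ≤
            w.length * q.eval (3 * w.length + 1) := Nat.mul_le_mul_right _ (by omega)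
        omega
      · rw [decide_eq_true_eq]
        intro t ht
        have h3 : nth (lenc ((List.range (llen (snd w))).map y)) t = y t := by
          rw [PC.nth_lenc, List.getD_eq_getElem _ _ (by simpa using ht)]
          simp
        simp only [h3, Bool.and_eq_true, decide_eq_true_eq]
        exact hy2 t ht
    · rintro ⟨y, _, h1⟩ t ht
      rw [decide_eq_true_eq] at h1
      have h2 := h1 t ht
      simp only [Bool.and_eq_true, decide_eq_true_eq] at h2
      exact (hq _).2 ⟨_, h2.1, h2.2⟩

open Classical in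
/-- some string of the length of `fst w` is in `A` and is accepted with the advice `snd w` -/
noncomputable def ExT (A C : Lang) : Lang := fun w =>
  decide (∃ x : Str, x.length = (fst w).length ∧ A x = true ∧ C (pr x (snd w)) = true)

open Classical in
theorem ExT_pr {A C : Lang} {v u : Str} : ExT A C (pr v u) = true ↔
    ∃ x : Str, x.length = v.length ∧ A x = true ∧ C (pr x u) = true := by
  unfold ExT
  rw [decide_eq_true_eq, fst_pr, snd_pr]

open Classical in
theorem ExT_mem {O A C : Lang} (hA : A ∈ NPO O) (hC : C ∈ NPO O) : ExT A C ∈ NPO O := by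
  obtain ⟨V1, q1, hV1, hq1⟩ := exists_of_NPO hA
  obtain ⟨V2, q2, hV2, hq2⟩ := exists_of_NPO hC
  refine PC.mem_NPO_le (V := fun z => decide ((fst z.2).length = (fst z.1).length) &&
    ((decide ((fst (snd z.2)).length = q1.eval (fst z.2).length) &&
      V1 (fst z.2, fst (snd z.2))) &&
    (decide ((snd (snd z.2)).length = q2.eval (pr (fst z.2) (snd z.1)).length) &&
      V2 (pr (fst z.2) (snd z.1), snd (snd z.2)))))
    (2 * Polynomial.X + 2 + 2 * q1 + q2.comp (3 * Polynomial.X + 1)) ?_ ?_
  · have hw : PolyC (fun _ : Str × Str => O) (fun _ => True) [fun p => p.1, fun p => p.2]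
      (fun p => p.1) := PolyC.var (by simp)
    have hy : PolyC (fun _ : Str × Str => O) (fun _ => True) [fun p => p.1, fun p => p.2]
      (fun p => p.2) := PolyC.var (by simp)
    have h1 := PolyC.fst hy
    have h2 := PolyC.fst (PolyC.snd hy)
    have h3 := PolyC.snd (PolyC.snd hy)
    have h4 := PolyC.pr h1 (PolyC.snd hw)
    exact (PolyB.natEq (PolyN.length h1) (PolyN.length (PolyC.fst hw))).and
      (((PolyB.natEq (PolyN.length h2) ((PolyN.length h1).poly q1)).and (PolyB.arg2 hV1 h1 h2)).and
      ((PolyB.natEq (PolyN.length h3) ((PolyN.length h4).poly q2)).and (PolyB.arg2 hV2 h4 h3)))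
  · intro w
    unfold ExT
    rw [decide_eq_true_eq]
    constructor
    · rintro ⟨x, h1, h2, h3⟩
      obtain ⟨y1, h4, h5⟩ := (hq1 x).1 h2
      obtain ⟨y2, h6, h7⟩ := (hq2 _).1 h3
      refine ⟨pr x (pr y1 y2), ?_, ?_⟩
      · rw [pr_length, pr_length, h4, h6]
        simp only [Polynomial.eval_add, Polynomial.eval_mul, Polynomial.eval_X,
          Polynomial.eval_ofNat, Polynomial.eval_one, Polynomial.eval_comp]
        have h8 := PC.fst_length_le w
        have h9 := PC.snd_length_le w
        have h10 : (pr x (snd w)).length ≤ 3 * w.length + 1 := by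
          rw [pr_length]; omega
        have h11 := poly_mono q2 h10
        have h12 := poly_mono q1 (show x.length ≤ w.length by omega)
        omega
      · simp only [fst_pr, snd_pr, h1, h4, h5, h6, h7, decide_true, Bool.and_self]
    · rintro ⟨y, _, h⟩
      simp only [Bool.and_eq_true, decide_eq_true_eq] at h
      exact ⟨fst y, h.1, (hq1 _).2 ⟨_, h.2.1.1, h.2.1.2⟩, (hq2 _).2 ⟨_, h.2.2.1, h.2.2.2⟩⟩

theorem chk_of_forced {Y : Lang} {Φ : Lang → Lang} (hΦ : PLoc Φ) {p : PIx} {i1 i : NIx} {G : Lang}
    {N0 : ℕ} (h : ∀ G' ∈ nb G N0, Right Y Φ p [i1, i] 1 G')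
    (hA : Φ (join Y G) ∈ NPO (join Y G)) :
    (fun x => !(Φ (join Y G) x)) ∈ NPChk (join Y G) := by
  classical
  obtain ⟨cc, hcc⟩ := hΦ
  obtain ⟨ρ, hρ⟩ := reject_half hcc p i1 i N0
  have hC := AllT_mem (TT_mem cc N0 p i1 i Y G)
  refine ⟨AllT (TT cc N0 p i1 i Y G), hC, ExT (Φ (join Y G)) (AllT (TT cc N0 p i1 i Y G)),
    ExT_mem hA hC, 2 * ((Polynomial.X + 1) * (Polynomial.X + 2) ^ ρ) + (Polynomial.X + 1),
    fun n => ⟨?_, ?_⟩⟩
  · obtain ⟨l, h1, h2, h3⟩ := reject_all (n := n) (r := (n + 2) ^ ρ)
      (fun x c => TT cc N0 p i1 i Y G (pr x c)) (Φ (join Y G)) (fun W hW hn => hρ G h n W hW hn)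
      (n + 1) (Finset.univ.filter (fun x : Idx n => Φ (join Y G) x.1 = true))
      (fun x hx => (Finset.mem_filter.1 hx).2) (by
        refine lt_of_le_of_lt (Finset.card_filter_le _ _) ?_
        rw [Finset.card_univ, card_vector, Fintype.card_bool]
        exact Nat.pow_lt_pow_right (by norm_num) (by omega))
    refine ⟨lenc l, ?_, ?_⟩
    · rw [PC.lenc_length]
      simp only [Polynomial.eval_add, Polynomial.eval_mul, Polynomial.eval_X,
        Polynomial.eval_ofNat, Polynomial.eval_one, Polynomial.eval_pow]
      have h4 := total_le_mul h2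
      have h5 : l.length * (n + 2) ^ ρ ≤ (n + 1) * (n + 2) ^ ρ := Nat.mul_le_mul_right _ h1
      omega
    · rw [← Bool.not_eq_true, ExT_pr]
      rintro ⟨x, h4, h5, h6⟩
      rw [on1, List.length_replicate] at h4
      rw [AllT_pr] at h6
      obtain ⟨c, h7, h8⟩ := h3 ⟨x, h4⟩ (Finset.mem_filter.2 ⟨Finset.mem_univ _, h5⟩)
      obtain ⟨t, ht, rfl⟩ := List.mem_iff_getElem.1 h7
      have h9 := h6 t (by rw [PC.llen_lenc]; exact ht)
      rw [PC.nth_lenc, List.getD_eq_getElem _ _ ht] at h9
      rw [h9] at h8
      exact absurd h8 (by simp)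
  · intro u _ hD x hx
    cases hAx : Φ (join Y G) x with
    | true =>
        symm
        beta_reduce
        rw [hAx, Bool.not_true, ← Bool.not_eq_true]
        intro h4
        rw [← Bool.not_eq_true, ExT_pr] at hD
        exact hD ⟨x, by rw [on1, List.length_replicate, hx], hAx, h4⟩
    | false =>
        symm
        beta_reduce
        rw [hAx, Bool.not_false, AllT_pr]
        intro t _
        rw [TT_pr]
        exact one_sided hcc h hAx

end Pool.Agent.Lib.Pa76659G.Two
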