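import Pool.Agent.Lib.Pa76659G.Chk
import Pool.Agent.Lib.Pa76659G.Exc

set_option autoImplicit false

/-!
If `\hat L_2 = L_2` then the only string of each length with a coNP property is computable with an
oracle in `NP`.
-/

namespace Pool.Agent.Lib.Pa76659G

open Pool.Agent.Lib.Pa76659 PC

namespace Uo

/-- the pairs with the form of candidates -/
noncomputable def frm (q : Polynomial ℕ) (z : Str) : Bool :=
  decide (z = pr (on1 (fst z).length) (snd z)) && decide ((snd z).length = q.eval (fst z).length)

theorem frm_iff {q : Polynomial ℕ} {z : Str} : frm q z = true ↔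
    ∃ n v, z = pr (on1 n) v ∧ v.length = q.eval n := by
  unfold frm
  rw [Bool.and_eq_true, decide_eq_true_eq, decide_eq_true_eq]
  constructor
  · rintro ⟨h1, h2⟩
    exact ⟨_, _, h1, h2⟩
  · rintro ⟨n, v, rfl, h⟩
    rw [fst_pr, snd_pr, on1_eq, PC.un_length]
    exact ⟨rfl, h⟩

theorem frm_poly {O : Lang} (q : Polynomial ℕ) {α : Type*} {D : α → Prop} {ctx : List (α → Str)}
    {z : α → Str} (hz : PolyC (fun _ => O) D ctx z) :
    PolyB (fun _ => O) D ctx (fun a => frm q (z a)) := by
  have h1 : PolyN (fun _ => O) D ctx (fun a => (fst (z a)).length) := PolyN.length (PolyC.fst hz)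
  have h2 := PolyB.strEq hz (PolyC.pr (t := fun a => on1 (fst (z a)).length) h1 (PolyC.snd hz))
  have h3 := PolyB.natEq (PolyN.length (PolyC.snd hz)) (h1.poly q)
  exact h2.and h3

open Classical in
/-- the strings which are not the objects -/
noncomputable def UA (q r : Polynomial ℕ) (R : Str × Str → Bool) : Lang := fun z =>
  !(frm q z) || decide (∃ y : Str, y.length = r.eval (fst z).length ∧ R (z, y) = false)

theorem UA_mem {X : Lang} {q r : Polynomial ℕ} {R : Str × Str → Bool}
    (hR : PolyB (fun _ : Str × Str => X) (fun _ => True) [fun p => p.1, fun p => p.2] R) :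
    UA q r R ∈ NPO X := by
  have hz : PolyC (fun _ : Str × Str => X) (fun _ => True) [fun p => p.1, fun p => p.2]
    (fun p => p.1) := PolyC.var (by simp)
  have hy : PolyC (fun _ : Str × Str => X) (fun _ => True) [fun p => p.1, fun p => p.2]
    (fun p => p.2) := PolyC.var (by simp)
  have e1 := (frm_poly q hz).not
  have e2 := PolyB.natEq (PolyN.length hy) ((PolyN.length (PolyC.fst hz)).poly r)
  refine mem_NPO_le r (e1.or (e2.and hR.not)) (fun z => ?_)
  unfold UA
  simp only [Bool.or_eq_true, Bool.and_eq_true, decide_eq_true_eq, Bool.not_eq_true']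
  constructor
  · rintro (h | ⟨y, h1, h2⟩)
    · exact ⟨[], by simp, Or.inl h⟩
    · refine ⟨y, ?_, Or.inr ⟨h1, h2⟩⟩
      rw [h1]
      exact eval_mono r (fst_length_le z)
  · rintro ⟨y, -, h | ⟨h1, h2⟩⟩
    · exact Or.inl h
    · exact Or.inr ⟨y, h1, h2⟩

/-- the objects are unique -/
def Unq (q r : Polynomial ℕ) (R : Str × Str → Bool) (u : ℕ → Str) : Prop :=
  (∀ n, (u n).length = q.eval n) ∧ ∀ n v, v.length = q.eval n →
    ((∀ y : Str, y.length = r.eval n → R (pr (on1 n) v, y) = true) ↔ v = u n)

theorem UA_false {q r : Polynomial ℕ} {R : Str × Str → Bool} {u : ℕ → Str} (h : Unq q r R u)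
    {z : Str} : UA q r R z = false ↔ ∃ n, z = pr (on1 n) (u n) := by
  unfold UA
  rw [Bool.or_eq_false_iff, Bool.not_eq_false', frm_iff, decide_eq_false_iff_not]
  constructor
  · rintro ⟨⟨n, v, rfl, hv⟩, h1⟩
    refine ⟨n, ?_⟩
    rw [fst_pr, on1_eq, PC.un_length] at h1
    have h2 := (h.2 n v hv).1 (by
      intro y hy
      by_contra h3
      exact h1 ⟨y, hy, by rw [on1_eq] at h3; cases h4 : R (pr (una n) v, y)
                          · rfl
                          · exact absurd h4 h3⟩)
    rw [h2]
  · rintro ⟨n, rfl⟩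
    refine ⟨⟨n, u n, rfl, h.1 n⟩, ?_⟩
    rintro ⟨y, hy, h1⟩
    rw [fst_pr, on1_eq, PC.un_length] at hy
    have h2 := (h.2 n (u n) (h.1 n)).2 rfl y hy
    rw [h1] at h2
    exact absurd h2 (by simp)

theorem UA_false' {q r : Polynomial ℕ} {R : Str × Str → Bool} {u : ℕ → Str} (h : Unq q r R u)
    {n : ℕ} {v : Str} : UA q r R (pr (on1 n) v) = false ↔ v = u n := by
  rw [UA_false h]
  constructor
  · rintro ⟨n', h1⟩
    obtain ⟨h2, h3⟩ := pr_inj h1
    have h4 := congrArg List.length h2
    rw [on1_eq, on1_eq, PC.un_length, PC.un_length] at h4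
    rw [h3, h4]
  · rintro rfl
    exact ⟨n, rfl⟩

/-- the length of the code -/
noncomputable def cl (q : Polynomial ℕ) (n : ℕ) : ℕ := 2 * n + 1 + q.eval n

theorem cl_inj {q : Polynomial ℕ} {n m : ℕ} (h : cl q n = cl q m) : n = m := by
  unfold cl at h
  rcases lt_trichotomy n m with h1 | h1 | h1
  · have := eval_mono q h1.le
    omega
  · exact h1
  · have := eval_mono q h1.le
    omega

theorem length_of_frm {q : Polynomial ℕ} {z : Str} (h : frm q z = true) :
    ∃ n, z.length = cl q n := by
  obtain ⟨n, v, rfl, hv⟩ := frm_iff.1 h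
  exact ⟨n, by rw [pr_length, on1_eq, PC.un_length, hv]; rfl⟩

theorem UA_chk {X : Lang} {q r : Polynomial ℕ} {R : Str × Str → Bool} {u : ℕ → Str}
    (hR : PolyB (fun _ : Str × Str => X) (fun _ => True) [fun p => p.1, fun p => p.2] R)
    (h : Unq q r R u) : (fun x => !(UA q r R x)) ∈ NPChk X := by
  classical
  have hA := UA_mem (q := q) (r := r) hR
  -- rejected advices
  set D : Lang := fun z => decide (∃ n < (fst z).length, decide ((fst z).length = cl q n) = true) &&
    (!(decide ((snd z).length = (fst z).length)) || UA q r R (snd z)) with hD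
  have hDm : D ∈ NPO X := by
    obtain ⟨V, qq, hV, hL⟩ := exists_of_NPO hA
    have hz : PolyC (fun _ : Str × Str => X) (fun _ => True) [fun p => p.1, fun p => p.2]
      (fun p => p.1) := PolyC.var (by simp)
    have hy : PolyC (fun _ : Str × Str => X) (fun _ => True) [fun p => p.1, fun p => p.2]
      (fun p => p.2) := PolyC.var (by simp)
    have hl := PolyN.length (PolyC.fst hz)
    have e1 : PolyB (fun _ : Str × Str => X) (fun _ => True) [fun p => p.1, fun p => p.2]
        (fun p => decide (∃ n < (fst p.1).length, decide ((fst p.1).length = cl q n) = true)) := by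
      refine PolyB.exists_lt (φ := fun p : (Str × Str) × ℕ =>
        decide ((fst p.1.1).length = cl q p.2)) hl ?_
      have hk : PolyN (fun _ : (Str × Str) × ℕ => X)
          (fun p => True ∧ p.2 < (fst p.1.1).length)
          (PC.lift [fun p : Str × Str => p.1, fun p => p.2] ++ [fun p => una p.2])
          (fun p => p.2) := PolyC.var (by simp)
      have hl' : PolyN (fun _ : (Str × Str) × ℕ => X)
          (fun p => True ∧ p.2 < (fst p.1.1).length)
          (PC.lift [fun p : Str × Str => p.1, fun p => p.2] ++ [fun p => una p.2])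
          (fun p => (fst p.1.1).length) :=
        (PolyC.lift hl (D' := fun p : (Str × Str) × ℕ => True ∧ p.2 < (fst p.1.1).length)
          (fun p hp => hp.1)).weakenRight _
      exact PolyB.natEq hl' ((((PolyN.const 2).mul hk).add (PolyN.const 1)).add (hk.poly q))
    have e2 := (PolyB.natEq (PolyN.length (PolyC.snd hz)) hl).not
    have e3 := PolyB.natEq (PolyN.length hy) ((PolyN.length (PolyC.snd hz)).poly qq)
    have e4 := PolyB.arg2 hV (PolyC.snd hz) hy
    refine mem_NPO_le qq (e1.and (e2.or (e3.and e4))) (fun z => ?_)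
    simp only [hD, Bool.and_eq_true, Bool.or_eq_true]
    rw [hL]
    simp only [decide_eq_true_eq]
    constructor
    · rintro ⟨h1, h2 | ⟨y, h3, h4⟩⟩
      · exact ⟨[], by simp, h1, Or.inl h2⟩
      · refine ⟨y, ?_, h1, Or.inr ⟨h3, h4⟩⟩
        rw [h3]
        exact eval_mono qq (snd_length_le z)
    · rintro ⟨y, -, h1, h2 | ⟨h3, h4⟩⟩
      · exact ⟨h1, Or.inl h2⟩
      · exact ⟨h1, Or.inr ⟨y, h3, h4⟩⟩
  refine ⟨fun w => decide (snd w = fst w) && frm q (fst w), ?_, D, hDm, Polynomial.X, fun n => ?_⟩
  · refine PO_subset_NPO X (mem_PO ?_)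
    have hx : PolyC (fun _ : Str => X) (fun _ => True) [fun x => x] (fun x => x) :=
      PolyC.var (by simp)
    exact (PolyB.strEq (PolyC.snd hx) (PolyC.fst hx)).and (frm_poly q (PolyC.fst hx))
  have hon : (on1 n).length = n := by rw [on1_eq, PC.un_length]
  have hDe : ∀ w : Str, D (pr (on1 n) w) = (decide (∃ m < n, decide (n = cl q m) = true) &&
      (!(decide (w.length = n)) || UA q r R w)) := by
    intro w
    simp only [hD, fst_pr, snd_pr, hon]
  by_cases hn : ∃ m < n, decide (n = cl q m) = true
  · obtain ⟨m, hm, hm2⟩ := hn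
    have hm3 : n = cl q m := by simpa using hm2
    constructor
    · refine ⟨pr (on1 m) (u m), ?_, ?_⟩
      · rw [Polynomial.eval_X, pr_length, on1_eq, PC.un_length, h.1, hm3]
        rfl
      · rw [hDe, (UA_false' h).2 rfl]
        have h5 : (pr (on1 m) (u m)).length = n := by
          rw [pr_length, on1_eq, PC.un_length, h.1, hm3]
          rfl
        rw [h5]
        simp
    · intro w hw hDw x hx
      rw [hDe, decide_eq_true ⟨m, hm, hm2⟩] at hDw
      simp only [Bool.true_and, Bool.or_eq_false_iff, Bool.not_eq_false', decide_eq_true_eq] at hDw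
      obtain ⟨n1, h1⟩ := (UA_false h).1 hDw.2
      show (!(UA q r R x)) = (decide (snd (pr x w) = fst (pr x w)) && frm q (fst (pr x w)))
      rw [fst_pr, snd_pr, Bool.eq_iff_iff, Bool.not_eq_true', UA_false h, Bool.and_eq_true,
        decide_eq_true_eq]
      constructor
      · rintro ⟨n2, h2⟩
        have h3 : cl q n1 = cl q n2 := by
          have h4 : w.length = cl q n1 := by
            rw [h1, pr_length, on1_eq, PC.un_length, h.1]
            rfl
          have h5 : x.length = cl q n2 := by
            rw [h2, pr_length, on1_eq, PC.un_length, h.1]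
            rfl
          omega
        have h4 := cl_inj h3
        subst h4
        exact ⟨h1.trans h2.symm, frm_iff.2 ⟨_, _, h2, h.1 _⟩⟩
      · rintro ⟨rfl, -⟩
        exact ⟨n1, h1⟩
  · constructor
    · refine ⟨[], by simp, ?_⟩
      rw [hDe, decide_eq_false hn]
      rfl
    · intro w _ _ x hx
      have h1 : ∀ m, n ≠ cl q m := by
        intro m hm
        exact hn ⟨m, by rw [hm]; unfold cl; omega, by simpa using hm⟩
      have h2 : frm q x = false := by
        rw [← Bool.not_eq_true]
        intro h2
        obtain ⟨m, hm⟩ := length_of_frm h2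
        exact h1 m (hx.symm.trans hm)
      show (!(UA q r R x)) = (decide (snd (pr x w) = fst (pr x w)) && frm q (fst (pr x w)))
      rw [fst_pr, h2, Bool.and_false]
      rw [Bool.not_eq_false', ← Bool.not_eq_false]
      intro h3
      obtain ⟨m, hm⟩ := (UA_false h).1 h3
      refine h1 m ?_
      rw [← hx, hm, pr_length, on1_eq, PC.un_length, h.1]
      rfl

/-- the bits of the objects -/
theorem unique_obj {X : Lang} (h2 : Low X 2 ⊆ RLowSucc X 1) {q r : Polynomial ℕ}
    {R : Str × Str → Bool} {u : ℕ → Str}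
    (hR : PolyB (fun _ : Str × Str => X) (fun _ => True) [fun p => p.1, fun p => p.2] R)
    (h : Unq q r R u) : ∃ W ∈ DelSucc X 1, ∀ n, advStr W q n = u n := by
  classical
  have hA := UA_mem (q := q) (r := r) hR
  have hlow : UA q r R ∈ RLowSucc X 1 := h2 ⟨hA, chk_low hA (UA_chk hR h)⟩
  set A := UA q r R with hAdef
  set W : Lang := fun v => decide (∃ w : Str, w.length = q.eval (fst v).length ∧
    A (pr (fst v) w) = false ∧ w.getD (snd v).length false = true) with hW
  have hWm : W ∈ NPO (join X A) := by
    have hz : PolyC (fun _ : Str × Str => join X A) (fun _ => True) [fun p => p.1, fun p => p.2]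
      (fun p => p.1) := PolyC.var (by simp)
    have hy : PolyC (fun _ : Str × Str => join X A) (fun _ => True) [fun p => p.1, fun p => p.2]
      (fun p => p.2) := PolyC.var (by simp)
    have e1 := PolyB.natEq (PolyN.length hy) ((PolyN.length (PolyC.fst hz)).poly q)
    have e2 : PolyB (fun _ : Str × Str => join X A) (fun _ => True) [fun p => p.1, fun p => p.2]
        (fun p => A (pr (fst p.1) p.2)) := PolyC.query (PolyC.cons true (PolyC.pr (PolyC.fst hz) hy))
    have e3 := PolyB.getD hy (PolyN.length (PolyC.snd hz))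
    refine mem_NPO_le q (e1.and (e2.not.and e3)) (fun v => ?_)
    simp only [hW, decide_eq_true_eq, Bool.and_eq_true, Bool.not_eq_true']
    constructor
    · rintro ⟨w, h1, h2, h3⟩
      refine ⟨w, ?_, h1, h2, h3⟩
      rw [h1]
      exact eval_mono q (fst_length_le v)
    · rintro ⟨w, -, h1, h2, h3⟩
      exact ⟨w, h1, h2, h3⟩
  refine ⟨W, hlow.2 ⟨W, ⟨join X A, query_mem _, hWm⟩, query_mem _⟩, fun n => ?_⟩
  apply List.ext_getElem
  · rw [advStr_length, h.1]
  · intro i hi1 hi2
    unfold advStr
    rw [List.getElem_map, List.getElem_range]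
    have h3 : (u n)[i] = (u n).getD i false := by
      rw [List.getD_eq_getElem _ _ hi2]
    rw [h3, Bool.eq_iff_iff]
    simp only [hW, decide_eq_true_eq, fst_pr, snd_pr, on1_eq, PC.un_length]
    constructor
    · rintro ⟨w, h4, h5, h6⟩
      rw [← on1_eq] at h5
      rw [← (UA_false' h).1 h5]
      exact h6
    · intro h4
      refine ⟨u n, h.1 n, ?_, h4⟩
      rw [← on1_eq]
      exact (UA_false' h).2 rfl

end Uo

end Pool.Agent.Lib.Pa76659G
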