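import Pool.Agent.Lib.Pa76659G.UoA
import Pool.Agent.Lib.Pa76659G.Search

set_option autoImplicit false

/-!
Linear orders on the strings of length `n` at the nodes of a binary tree: some pair of minima at the
two sons of a node is not in the range of a function from `n` bits to `2 n` bits.
-/

namespace Pool.Agent.Lib.Pa76659G

open Pool.Agent.Lib.Pa76659 PC

namespace Uo

/-- the lexicographic order -/
def lexB (x y : Str) : Bool :=
  decide (∃ k < x.length, (decide (∀ j < k, (x.getD j false == y.getD j false) = true) &&
    (!(x.getD k false) && y.getD k false)) = true)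

theorem lexB_iff {x y : Str} : lexB x y = true ↔ ∃ k < x.length,
    (∀ j < k, x.getD j false = y.getD j false) ∧ x.getD k false = false ∧ y.getD k false = true := by
  unfold lexB
  simp only [Bool.and_eq_true, decide_eq_true_eq, Bool.not_eq_true', beq_iff_eq]

/-- strict linear orders on the strings of length `n` -/
structure SLO (n : ℕ) (r : Str → Str → Bool) : Prop where
  irr : ∀ x : Str, x.length = n → r x x = false
  tot : ∀ x y : Str, x.length = n → y.length = n → x ≠ y → r x y = true ∨ r y x = true
  tra : ∀ x y z : Str, x.length = n → y.length = n → z.length = n → r x y = true →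
    r y z = true → r x z = true

theorem lexB_slo (n : ℕ) : SLO n lexB := by
  refine ⟨fun x _ => ?_, fun x y hx hy hne => ?_, fun x y z hx hy hz h1 h2 => ?_⟩
  · rw [← Bool.not_eq_true, lexB_iff]
    rintro ⟨k, -, -, h1, h2⟩
    rw [h1] at h2
    exact absurd h2 (by simp)
  · have h1 : ∃ k, k < n ∧ x.getD k false ≠ y.getD k false := by
      by_contra hcon
      push Not at hcon
      apply hne
      rw [eq_iff_getD]
      refine ⟨hx.trans hy.symm, fun i hi => ?_⟩
      rw [beq_iff_eq]
      exact hcon i (by omega)
    classical
    have h2 := Nat.find_spec h1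
    have h3 : ∀ j < Nat.find h1, x.getD j false = y.getD j false := by
      intro j hj
      have h4 := Nat.find_min h1 hj
      by_contra h5
      exact h4 ⟨by omega, h5⟩
    rw [lexB_iff, lexB_iff]
    cases h4 : x.getD (Nat.find h1) false
    · left
      refine ⟨Nat.find h1, by omega, h3, h4, ?_⟩
      rw [h4] at h2
      cases h5 : y.getD (Nat.find h1) false
      · exact absurd h5.symm h2.2
      · rfl
    · right
      refine ⟨Nat.find h1, by omega, fun j hj => (h3 j hj).symm, ?_, h4⟩
      rw [h4] at h2
      cases h5 : y.getD (Nat.find h1) false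
      · rfl
      · exact absurd h5.symm h2.2
  · rw [lexB_iff] at h1 h2 ⊢
    obtain ⟨k, hk, h3, h4, h5⟩ := h1
    obtain ⟨l, hl, h6, h7, h8⟩ := h2
    rcases lt_trichotomy k l with h | h | h
    · refine ⟨k, hk, fun j hj => (h3 j hj).trans (h6 j (by omega)), h4, ?_⟩
      rw [← h6 k h]
      exact h5
    · subst h
      rw [h5] at h7
      exact absurd h7 (by simp)
    · refine ⟨l, by omega, fun j hj => (h3 j (by omega)).trans (h6 j hj), ?_, h8⟩
      rw [h3 l h]
      exact h7

theorem SLO.comb {n : ℕ} {r0 r1 r2 : Str → Str → Bool} (h0 : SLO n r0) (h1 : SLO n r1)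
    (h2 : SLO n r2) {f0 f1 : Str → Str} (hf0 : ∀ x : Str, x.length = n → (f0 x).length = n)
    (hf1 : ∀ x : Str, x.length = n → (f1 x).length = n) :
    SLO n (fun x y => if decide (f0 x = f0 y) then (if decide (f1 x = f1 y) then r2 x y
      else r1 (f1 x) (f1 y)) else r0 (f0 x) (f0 y)) := by
  refine ⟨fun x hx => ?_, fun x y hx hy hne => ?_, fun x y z hx hy hz => ?_⟩
  · simp only [decide_true, if_true]
    exact h2.irr x hx
  · simp only [decide_eq_true_eq]
    by_cases e0 : f0 x = f0 y
    · rw [if_pos e0, if_pos e0.symm]
      by_cases e1 : f1 x = f1 y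
      · rw [if_pos e1, if_pos e1.symm]
        exact h2.tot x y hx hy hne
      · rw [if_neg e1, if_neg (fun h => e1 h.symm)]
        exact h1.tot _ _ (hf1 x hx) (hf1 y hy) e1
    · rw [if_neg e0, if_neg (fun h => e0 h.symm)]
      exact h0.tot _ _ (hf0 x hx) (hf0 y hy) e0
  · simp only [decide_eq_true_eq]
    by_cases e0 : f0 x = f0 y
    · by_cases e0' : f0 y = f0 z
      · rw [if_pos e0, if_pos e0', if_pos (e0.trans e0')]
        by_cases e1 : f1 x = f1 y
        · by_cases e1' : f1 y = f1 z
          · rw [if_pos e1, if_pos e1', if_pos (e1.trans e1')]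
            exact h2.tra x y z hx hy hz
          · rw [if_pos e1, if_neg e1', if_neg (fun h => e1' (e1.symm.trans h)), e1]
            exact fun _ h => h
        · by_cases e1' : f1 y = f1 z
          · rw [if_neg e1, if_pos e1', if_neg (fun h => e1 (h.trans e1'.symm)), ← e1']
            exact fun h _ => h
          · rw [if_neg e1, if_neg e1']
            intro h3 h4
            have h5 := h1.tra _ _ _ (hf1 x hx) (hf1 y hy) (hf1 z hz) h3 h4
            have h6 : f1 x ≠ f1 z := by
              intro h6
              rw [h6, h1.irr _ (hf1 z hz)] at h5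
              exact absurd h5 (by simp)
            rw [if_neg h6]
            exact h5
      · rw [if_neg e0', if_neg (fun h => e0' (e0.symm.trans h)), e0]
        exact fun _ h => h
    · by_cases e0' : f0 y = f0 z
      · rw [if_neg e0, ← e0', if_neg e0]
        exact fun h _ => h
      · rw [if_neg e0, if_neg e0']
        intro h3 h4
        have h5 := h0.tra _ _ _ (hf0 x hx) (hf0 y hy) (hf0 z hz) h3 h4
        have h6 : f0 x ≠ f0 z := by
          intro h6
          rw [h6, h0.irr _ (hf0 z hz)] at h5
          exact absurd h5 (by simp)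
        rw [if_neg h6]
        exact h5

theorem SLO.leaf {n : ℕ} {r : Str → Str → Bool} (h : SLO n r) (τ : Str) :
    SLO n (fun x y => !(decide (y = τ)) && (decide (x = τ) || r x y)) := by
  refine ⟨fun x hx => ?_, fun x y hx hy hne => ?_, fun x y z hx hy hz h1 h2 => ?_⟩
  · simp only [h.irr x hx]
    cases decide (x = τ) <;> rfl
  · simp only [Bool.and_eq_true, Bool.not_eq_true', decide_eq_false_iff_not, Bool.or_eq_true,
      decide_eq_true_eq]
    by_cases e1 : x = τ
    · left
      exact ⟨fun h => hne (e1.trans h.symm), Or.inl e1⟩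
    · by_cases e2 : y = τ
      · right
        exact ⟨e1, Or.inl e2⟩
      · rcases h.tot x y hx hy hne with h3 | h3
        · exact Or.inl ⟨e2, Or.inr h3⟩
        · exact Or.inr ⟨e1, Or.inr h3⟩
  · simp only [Bool.and_eq_true, Bool.not_eq_true', decide_eq_false_iff_not, Bool.or_eq_true,
      decide_eq_true_eq] at h1 h2 ⊢
    refine ⟨h2.1, ?_⟩
    rcases h1.2 with h3 | h3
    · exact Or.inl h3
    · rcases h2.2 with h4 | h4
      · exact absurd h4 h1.1
      · exact Or.inr (h.tra x y z hx hy hz h3 h4)

theorem SLO.exists_min {n : ℕ} {r : Str → Str → Bool} (h : SLO n r) :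
    ∃ m : Str, m.length = n ∧ ∀ y : Str, y.length = n → r y m = false := by
  classical
  let r' : List.Vector Bool n → List.Vector Bool n → Prop := fun a b => r a.1 b.1 = true
  have ht : IsTrans _ r' := ⟨fun a b c h1 h2 => h.tra _ _ _ a.2 b.2 c.2 h1 h2⟩
  have hi : Std.Irrefl r' := ⟨fun a h1 => by
    have h2 := h.irr a.1 a.2
    rw [show r a.1 a.1 = true from h1] at h2
    exact absurd h2 (by simp)⟩
  have hw : WellFounded r' := Finite.wellFounded_of_trans_of_irrefl r'
  obtain ⟨m, -, hm⟩ := hw.has_min Set.univ ⟨⟨List.replicate n false, by simp⟩, trivial⟩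
  refine ⟨m.1, m.2, fun y hy => ?_⟩
  rw [← Bool.not_eq_true]
  intro h1
  exact hm ⟨y, hy⟩ trivial h1

theorem SLO.min_unique {n : ℕ} {r : Str → Str → Bool} (h : SLO n r) {m m' : Str}
    (hm : m.length = n) (hm' : m'.length = n) (h1 : ∀ y : Str, y.length = n → r y m = false)
    (h2 : ∀ y : Str, y.length = n → r y m' = false) : m = m' := by
  by_contra hne
  rcases h.tot m m' hm hm' hne with h3 | h3
  · rw [h2 m hm] at h3
    exact absurd h3 (by simp)
  · rw [h1 m' hm'] at h3
    exact absurd h3 (by simp)

variable (C : Bool → Str → Str)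

/-- the value at the end of a path -/
def pth (ν x : Str) : Str := ν.foldl (fun x b => C b x) x

/-- the target at a leaf -/
def tau (ν : Str) : Str := (!((pth C ν ν).headD false)) :: (pth C ν ν).tail

/-- the order at a node of height `d` -/
def ltR : ℕ → Str → Str → Str → Bool
  | 0, ν => fun x y => !(decide (y = tau C ν)) && (decide (x = tau C ν) || lexB x y)
  | d + 1, ν => fun x y => if decide (C false x = C false y) then
      (if decide (C true x = C true y) then lexB x y
        else ltR d (ν ++ [true]) (C true x) (C true y))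
      else ltR d (ν ++ [false]) (C false x) (C false y)

variable {C} (hC : ∀ b x, (C b x).length = x.length)

include hC

theorem ltR_slo (n : ℕ) : ∀ (d : ℕ) (ν : Str), SLO n (ltR C d ν)
  | 0, ν => (lexB_slo n).leaf _
  | d + 1, ν => (ltR_slo n d (ν ++ [false])).comb (ltR_slo n d (ν ++ [true])) (lexB_slo n)
      (fun x hx => (hC _ _).trans hx) (fun x hx => (hC _ _).trans hx)

/-- the minimum at a node -/
noncomputable def M (n d : ℕ) (ν : Str) : Str := (ltR_slo hC n d ν).exists_min.choose

theorem M_length (n d : ℕ) (ν : Str) : (M hC n d ν).length = n :=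
  (ltR_slo hC n d ν).exists_min.choose_spec.1

theorem M_min (n d : ℕ) (ν : Str) {y : Str} (hy : y.length = n) :
    ltR C d ν y (M hC n d ν) = false :=
  (ltR_slo hC n d ν).exists_min.choose_spec.2 y hy

theorem M_unique {n d : ℕ} {ν m : Str} (hm : m.length = n)
    (h : ∀ y : Str, y.length = n → ltR C d ν y m = false) : m = M hC n d ν :=
  (ltR_slo hC n d ν).min_unique hm (M_length hC n d ν) h (fun _ hy => M_min hC n d ν hy)

theorem pth_length (ν x : Str) : (pth C ν x).length = x.length := by
  unfold pth
  induction ν generalizing x with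
  | nil => rfl
  | cons b ν ih => rw [List.foldl_cons, ih, hC]

theorem tau_length {ν : Str} (h : ν ≠ []) : (tau C ν).length = ν.length := by
  have h1 := pth_length hC ν ν
  have h2 : 0 < ν.length := List.length_pos_iff.2 h
  unfold tau
  rw [List.length_cons, List.length_tail, h1]
  omega

theorem M_zero {n : ℕ} {ν : Str} (h : ν ≠ []) (hν : ν.length = n) : M hC n 0 ν = tau C ν := by
  symm
  refine M_unique hC ((tau_length hC h).trans hν) (fun y _ => ?_)
  show (!(decide (tau C ν = tau C ν)) && _) = false
  simp

theorem M_succ {n d : ℕ} {ν x : Str} (hx : x.length = n) (h0 : C false x = M hC n d (ν ++ [false]))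
    (h1 : C true x = M hC n d (ν ++ [true])) (b : Bool) :
    C b (M hC n (d + 1) ν) = M hC n d (ν ++ [b]) := by
  set m := M hC n (d + 1) ν with hm
  have hml : m.length = n := M_length hC n (d + 1) ν
  have h2 := M_min hC n (d + 1) ν hx
  rw [← hm, ltR] at h2
  simp only [decide_eq_true_eq] at h2
  have e0 : C false x = C false m := by
    by_contra hne
    rw [if_neg hne] at h2
    rcases (ltR_slo hC n d (ν ++ [false])).tot _ _ ((hC _ _).trans hx) ((hC _ _).trans hml) hne with
      h3 | h3
    · rw [h2] at h3
      exact absurd h3 (by simp)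
    · rw [h0, M_min hC n d _ ((hC _ _).trans hml)] at h3
      exact absurd h3 (by simp)
  have e1 : C true x = C true m := by
    by_contra hne
    rw [if_pos e0, if_neg hne] at h2
    rcases (ltR_slo hC n d (ν ++ [true])).tot _ _ ((hC _ _).trans hx) ((hC _ _).trans hml) hne with
      h3 | h3
    · rw [h2] at h3
      exact absurd h3 (by simp)
    · rw [h1, M_min hC n d _ ((hC _ _).trans hml)] at h3
      exact absurd h3 (by simp)
  cases b
  · rw [← e0, h0]
  · rw [← e1, h1]

/-- the pair of the minima at the sons of some node on the path given by the minimum at the root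
is not a value -/
theorem exists_gap {n : ℕ} (hn : 1 ≤ n) : ∃ t < n, ∀ x : Str, x.length = n →
    ¬ (C false x = M hC n (n - t - 1) ((M hC n n []).take t ++ [false]) ∧
      C true x = M hC n (n - t - 1) ((M hC n n []).take t ++ [true])) := by
  by_contra hcon
  push Not at hcon
  set j := M hC n n [] with hj
  have hjl : j.length = n := M_length hC n n []
  have key : ∀ t ≤ n, M hC n (n - t) (j.take t) = pth C (j.take t) j := by
    intro t
    induction t with
    | zero =>
      intro _
      rw [List.take_zero, Nat.sub_zero, ← hj]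
      rfl
    | succ t ih =>
      intro ht
      obtain ⟨x, hx, h1, h2⟩ := hcon t (by omega)
      have h3 := M_succ hC hx h1 h2 (j.getD t false)
      rw [show n - t - 1 + 1 = n - t by omega, ih (by omega)] at h3
      rw [take_succ_eq (show t < j.length by omega), show n - (t + 1) = n - t - 1 by omega, ← h3]
      unfold pth
      rw [List.foldl_append]
      rfl
  have h1 := key n le_rfl
  rw [List.take_of_length_le hjl.le, Nat.sub_self] at h1
  have hne : j ≠ [] := by
    intro h
    rw [h] at hjl
    simp at hjl
    omega
  rw [M_zero hC hne hjl] at h1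
  unfold tau at h1
  have h2 := congrArg (fun l => List.headD l false) h1
  simp only [List.headD_cons] at h2
  cases h3 : (pth C j j).headD false <;> rw [h3] at h2 <;> simp at h2

end Uo

end Pool.Agent.Lib.Pa76659G
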