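import Pool.Agent.Lib.Pa76659G.UoC

set_option autoImplicit false

/-!
The orders of `UoC` are computable.
-/

namespace Pool.Agent.Lib.Pa76659G

open Pool.Agent.Lib.Pa76659 PC

namespace Uo

/-- one step down in the tree -/
def dnS (C : Bool → Str → Str) (w : Str) : Str :=
  if decide (C false (fst (snd w)) = C false (snd (snd w))) then
    (if decide (C true (fst (snd w)) = C true (snd (snd w))) then w
      else pr (fst w ++ [true]) (pr (C true (fst (snd w))) (C true (snd (snd w)))))
    else pr (fst w ++ [false]) (pr (C false (fst (snd w))) (C false (snd (snd w))))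

/-- comparison at the end of the path -/
def cmpS (C : Bool → Str → Str) (n : ℕ) (w : Str) : Bool :=
  if decide ((fst w).length = n) then
    !(decide (snd (snd w) = tau C (fst w))) &&
      (decide (fst (snd w) = tau C (fst w)) || lexB (fst (snd w)) (snd (snd w)))
    else lexB (fst (snd w)) (snd (snd w))

/-- the order at the node `ν` -/
def ltS (C : Bool → Str → Str) (n : ℕ) (ν x y : Str) : Bool :=
  cmpS C n ((dnS C)^[n - ν.length] (pr ν (pr x y)))

theorem dnS_pr (C : Bool → Str → Str) (ν x y : Str) : dnS C (pr ν (pr x y)) =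
    if C false x = C false y then (if C true x = C true y then pr ν (pr x y)
      else pr (ν ++ [true]) (pr (C true x) (C true y)))
      else pr (ν ++ [false]) (pr (C false x) (C false y)) := by
  unfold dnS
  simp only [fst_pr, snd_pr, decide_eq_true_eq]

theorem ltS_eq (C : Bool → Str → Str) (n : ℕ) : ∀ (d : ℕ) (ν x y : Str), ν.length + d = n →
    ltS C n ν x y = ltR C d ν x y
  | 0, ν, x, y, h => by
      unfold ltS cmpS
      rw [show n - ν.length = 0 by omega, Function.iterate_zero, id, fst_pr, snd_pr, fst_pr, snd_pr,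
        if_pos (by simpa using h)]
      rfl
  | d + 1, ν, x, y, h => by
      have ih1 := ltS_eq C n d (ν ++ [true]) (C true x) (C true y) (by
        rw [List.length_append, List.length_singleton]; omega)
      have ih0 := ltS_eq C n d (ν ++ [false]) (C false x) (C false y) (by
        rw [List.length_append, List.length_singleton]; omega)
      unfold ltS at ih0 ih1 ⊢
      rw [List.length_append, List.length_singleton, show n - (ν.length + 1) = d by omega] at ih0 ih1
      rw [show n - ν.length = d + 1 by omega]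
      show _ = if decide (C false x = C false y) then
        (if decide (C true x = C true y) then lexB x y
          else ltR C d (ν ++ [true]) (C true x) (C true y))
        else ltR C d (ν ++ [false]) (C false x) (C false y)
      simp only [decide_eq_true_eq]
      by_cases e0 : C false x = C false y
      · by_cases e1 : C true x = C true y
        · rw [if_pos e0, if_pos e1]
          have h1 : dnS C (pr ν (pr x y)) = pr ν (pr x y) := by
            rw [dnS_pr, if_pos e0, if_pos e1]
          rw [Function.iterate_fixed h1]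
          unfold cmpS
          rw [fst_pr, snd_pr, fst_pr, snd_pr, if_neg (by rw [decide_eq_true_eq]; omega)]
        · rw [if_pos e0, if_neg e1, Function.iterate_succ_apply, dnS_pr, if_pos e0, if_neg e1]
          exact ih1
      · rw [if_neg e0, Function.iterate_succ_apply, dnS_pr, if_neg e0]
        exact ih0

theorem lexB_poly {X : Lang} {α : Type*} {D : α → Prop} {ctx : List (α → Str)} {x y : α → Str}
    (hx : PolyC (fun _ => X) D ctx x) (hy : PolyC (fun _ => X) D ctx y) :
    PolyB (fun _ => X) D ctx (fun a => lexB (x a) (y a)) := by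
  refine PolyB.exists_lt (φ := fun p : α × ℕ => decide (∀ j < p.2,
    ((x p.1).getD j false == (y p.1).getD j false) = true) &&
    (!((x p.1).getD p.2 false) && (y p.1).getD p.2 false)) (PolyN.length hx) ?_
  have lf : ∀ {t : α → Str}, PolyC (fun _ => X) D ctx t →
      PolyC (fun _ : α × ℕ => X) (fun p => D p.1 ∧ p.2 < (x p.1).length)
        (PC.lift ctx ++ [fun p => una p.2]) (fun p => t p.1) := fun ht =>
    (ht.lift (D' := fun p : α × ℕ => D p.1 ∧ p.2 < (x p.1).length)
      (fun p hp => hp.1)).weakenRight _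
  have hk : PolyN (fun _ : α × ℕ => X) (fun p => D p.1 ∧ p.2 < (x p.1).length)
      (PC.lift ctx ++ [fun p => una p.2]) (fun p => p.2) := PolyC.var (by simp)
  refine (PolyB.forall_lt (φ := fun p : (α × ℕ) × ℕ =>
    (x p.1.1).getD p.2 false == (y p.1.1).getD p.2 false) hk ?_).and
    ((PolyB.getD (lf hx) hk).not.and (PolyB.getD (lf hy) hk))
  have lf2 : ∀ {t : α → Str}, PolyC (fun _ => X) D ctx t →
      PolyC (fun _ : (α × ℕ) × ℕ => X)
        (fun p => (D p.1.1 ∧ p.1.2 < (x p.1.1).length) ∧ p.2 < p.1.2)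
        (PC.lift (PC.lift ctx ++ [fun p => una p.2]) ++ [fun p => una p.2])
        (fun p => t p.1.1) := fun ht =>
    ((lf ht).lift (D' := fun p : (α × ℕ) × ℕ =>
      (D p.1.1 ∧ p.1.2 < (x p.1.1).length) ∧ p.2 < p.1.2) (fun p hp => hp.1)).weakenRight _
  have hk2 : PolyN (fun _ : (α × ℕ) × ℕ => X)
      (fun p => (D p.1.1 ∧ p.1.2 < (x p.1.1).length) ∧ p.2 < p.1.2)
      (PC.lift (PC.lift ctx ++ [fun p => una p.2]) ++ [fun p => una p.2]) (fun p => p.2) :=
    PolyC.var (by simp)
  exact PolyB.beq (PolyB.getD (lf2 hx) hk2) (PolyB.getD (lf2 hy) hk2)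

section

variable {X : Lang} {C : Bool → Str → Str}
  (hP : ∀ b, PolyC (fun _ : Str => X) (fun _ => True) [fun x => x] (C b))
  (hC : ∀ b x, (C b x).length = x.length)

include hP hC

theorem pth_poly {α : Type*} {D : α → Prop} {ctx : List (α → Str)} {ν x : α → Str}
    (hν : PolyC (fun _ => X) D ctx ν) (hx : PolyC (fun _ => X) D ctx x) :
    PolyC (fun _ => X) D ctx (fun a => pth C (ν a) (x a)) := by
  obtain ⟨pn, hpn⟩ := hx.length_le
  have h0 := PolyC.natRec (orc := fun _ : α => X) (D := D) (ctx := ctx)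
    (fun a k => pth C ((ν a).take k) (x a)) (PolyN.length hν) (hx.congr (fun a _ => by
      rw [List.take_zero]; rfl)) ?_ ⟨pn, fun a ha k hk => ?_⟩
  · refine h0.congr (fun a _ => ?_)
    rw [List.take_of_length_le le_rfl]
  · have h1 : PolyC (fun _ : α × ℕ => X) (fun p => D p.1 ∧ p.2 < (ν p.1).length)
        (PC.lift ctx ++ [fun p => una p.2, fun p => pth C ((ν p.1).take p.2) (x p.1)])
        (fun p => pth C ((ν p.1).take p.2) (x p.1)) := PolyC.var (by simp)
    have h2 : PolyC (fun _ : α × ℕ => X) (fun p => D p.1 ∧ p.2 < (ν p.1).length)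
        (PC.lift ctx ++ [fun p => una p.2, fun p => pth C ((ν p.1).take p.2) (x p.1)])
        (fun p => ν p.1) := (hν.lift (fun p hp => hp.1)).weakenRight _
    have h3 : PolyN (fun _ : α × ℕ => X) (fun p => D p.1 ∧ p.2 < (ν p.1).length)
        (PC.lift ctx ++ [fun p => una p.2, fun p => pth C ((ν p.1).take p.2) (x p.1)])
        (fun p => p.2) := PolyC.var (by simp)
    refine (PolyC.ite (PolyB.getD h2 h3) ((PolyC.arg (hP true) h1).mono fun _ h => h.1)
      ((PolyC.arg (hP false) h1).mono fun _ h => h.1)).congr ?_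
    rintro ⟨a, k⟩ ⟨ha, hk⟩
    simp only at hk ⊢
    rw [take_succ_eq hk]
    unfold pth
    rw [List.foldl_append]
    cases (ν a).getD k false <;> rfl
  · rw [pth_length hC]
    exact hpn a ha

theorem tau_poly {α : Type*} {D : α → Prop} {ctx : List (α → Str)} {ν : α → Str}
    (hν : PolyC (fun _ => X) D ctx ν) : PolyC (fun _ => X) D ctx (fun a => tau C (ν a)) := by
  have h1 := pth_poly hP hC hν hν
  exact ((PolyB.headD h1).not.append h1.tail).congr (fun a _ => rfl)

theorem dnS_poly {α : Type*} {D : α → Prop} {ctx : List (α → Str)} {w : α → Str}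
    (hw : PolyC (fun _ => X) D ctx w) : PolyC (fun _ => X) D ctx (fun a => dnS C (w a)) := by
  have hν := PolyC.fst hw
  have hx := PolyC.fst (PolyC.snd hw)
  have hy := PolyC.snd (PolyC.snd hw)
  have e0 := PolyB.strEq (PolyC.arg (hP false) hx) (PolyC.arg (hP false) hy)
  have e1 := PolyB.strEq (PolyC.arg (hP true) hx) (PolyC.arg (hP true) hy)
  refine PolyC.ite e0 (PolyC.ite (e1.mono fun _ h => h.1) (hw.mono fun _ h => h.1.1) ?_) ?_
  · exact (PolyC.pr (hν.append (PolyC.const [true])) (PolyC.pr (PolyC.arg (hP true) hx)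
      (PolyC.arg (hP true) hy))).mono fun _ h => h.1.1
  · exact (PolyC.pr (hν.append (PolyC.const [false])) (PolyC.pr (PolyC.arg (hP false) hx)
      (PolyC.arg (hP false) hy))).mono fun _ h => h.1

omit hP in
theorem dnS_iter (ν x y : Str) (k : ℕ) : ∃ ν' x' y' : Str,
    (dnS C)^[k] (pr ν (pr x y)) = pr ν' (pr x' y') ∧ ν'.length ≤ ν.length + k ∧
      x'.length = x.length ∧ y'.length = y.length := by
  induction k with
  | zero => exact ⟨ν, x, y, rfl, by simp, rfl, rfl⟩
  | succ k ih =>
    obtain ⟨ν', x', y', h1, h2, h3, h4⟩ := ih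
    rw [Function.iterate_succ_apply', h1, dnS_pr]
    split_ifs
    · exact ⟨ν', x', y', rfl, by omega, h3, h4⟩
    · refine ⟨_, _, _, rfl, ?_, ?_, ?_⟩
      · rw [List.length_append, List.length_singleton]; omega
      · rw [hC]; exact h3
      · rw [hC]; exact h4
    · refine ⟨_, _, _, rfl, ?_, ?_, ?_⟩
      · rw [List.length_append, List.length_singleton]; omega
      · rw [hC]; exact h3
      · rw [hC]; exact h4

theorem ltS_poly {α : Type*} {D : α → Prop} {ctx : List (α → Str)} {ν x y : α → Str} {n : α → ℕ}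
    (hn : PolyN (fun _ => X) D ctx n) (hν : PolyC (fun _ => X) D ctx ν)
    (hx : PolyC (fun _ => X) D ctx x) (hy : PolyC (fun _ => X) D ctx y) :
    PolyB (fun _ => X) D ctx (fun a => ltS C (n a) (ν a) (x a) (y a)) := by
  obtain ⟨pn, hpn⟩ := PolyC.length_le hn
  obtain ⟨pν, hpν⟩ := hν.length_le
  obtain ⟨px, hpx⟩ := hx.length_le
  obtain ⟨py, hpy⟩ := hy.length_le
  have hw : PolyC (fun _ => X) D ctx
      (fun a => (dnS C)^[n a - (ν a).length] (pr (ν a) (pr (x a) (y a)))) := by
    refine PolyC.iter (g := fun _ => dnS C) (dnS_poly hP hC (PolyC.var (by simp)))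
      (PolyC.pr hν (PolyC.pr hx hy)) (hn.sub (PolyN.length hν))
      ⟨2 * (pν + pn) + 1 + (2 * px + 1 + py), fun a ha k hk => ?_⟩
    obtain ⟨ν', x', y', h1, h2, h3, h4⟩ := dnS_iter (C := C) hC (ν a) (x a) (y a) k
    rw [h1, pr_length, pr_length]
    have e1 := hpn a ha
    have e2 := hpν a ha
    have e3 := hpx a ha
    have e4 := hpy a ha
    rw [PC.un_length] at e1
    simp only [Polynomial.eval_add, Polynomial.eval_mul, Polynomial.eval_ofNat,
      Polynomial.eval_one]
    omega
  have h1 := PolyC.fst hw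
  have h2 := PolyC.fst (PolyC.snd hw)
  have h3 := PolyC.snd (PolyC.snd hw)
  have e0 := PolyB.natEq (PolyN.length h1) hn
  have ht := tau_poly hP hC h1
  have hl := lexB_poly h2 h3
  exact PolyB.ite e0 (((PolyB.strEq h3 ht).not.and ((PolyB.strEq h2 ht).or hl)).mono
    fun _ h => h.1) (hl.mono fun _ h => h.1)

end

end Uo

end Pool.Agent.Lib.Pa76659G
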