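import Pool.Agent.Lib.Pa76659G.UoD

set_option autoImplicit false

/-!
The table of the minima which are needed is the only string with a coNP property.
-/

namespace Pool.Agent.Lib.Pa76659G

open Pool.Agent.Lib.Pa76659 PC

namespace Uo

/-- the node of the entry `k` of the table -/
def nodeOf (n k : ℕ) (j : Str) : Str :=
  if decide (k = 0) then [] else if decide (k ≤ n) then j.take (k - 1) ++ [false]
    else j.take (k - 1 - n) ++ [true]

theorem nodeOf_poly {X : Lang} {α : Type*} {D : α → Prop} {ctx : List (α → Str)} {n k : α → ℕ}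
    {j : α → Str} (hn : PolyN (fun _ => X) D ctx n) (hk : PolyN (fun _ => X) D ctx k)
    (hj : PolyC (fun _ => X) D ctx j) :
    PolyC (fun _ => X) D ctx (fun a => nodeOf (n a) (k a) (j a)) := by
  have h1 := hk.sub (PolyN.const 1)
  refine PolyC.ite (PolyB.natEq hk (PolyN.const 0)) PolyC.nil (PolyC.ite
    ((PolyB.le hk hn).mono fun _ h => h.1) ?_ ?_)
  · exact ((hj.take h1).append (PolyC.const [false])).mono fun _ h => h.1.1
  · exact ((hj.take (h1.sub hn)).append (PolyC.const [true])).mono fun _ h => h.1.1

theorem nodeOf_zero (n : ℕ) (j : Str) : nodeOf n 0 j = [] := by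
  unfold nodeOf
  simp

theorem nodeOf_left {n t : ℕ} (h : t < n) (j : Str) : nodeOf n (1 + t) j = j.take t ++ [false] := by
  unfold nodeOf
  rw [if_neg (by rw [decide_eq_true_eq]; omega), if_pos (by rw [decide_eq_true_eq]; omega),
    show 1 + t - 1 = t by omega]

theorem nodeOf_right (n t : ℕ) (j : Str) : nodeOf n (1 + n + t) j = j.take t ++ [true] := by
  unfold nodeOf
  rw [if_neg (by rw [decide_eq_true_eq]; omega), if_neg (by rw [decide_eq_true_eq]; omega),
    show 1 + n + t - 1 - n = t by omega]

theorem nodeOf_length {n k : ℕ} {j : Str} (hj : j.length = n) (hk : k < 2 * n + 1) :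
    (nodeOf n k j).length ≤ n := by
  unfold nodeOf
  split_ifs with h1 h2
  · simp
  · rw [decide_eq_true_eq] at h1 h2
    rw [List.length_append, List.length_take, List.length_singleton]
    omega
  · rw [decide_eq_true_eq] at h1 h2
    rw [List.length_append, List.length_take, List.length_singleton]
    omega

/-- the length of the table -/
noncomputable def qT : Polynomial ℕ := (2 * Polynomial.X + 1) * (2 * Polynomial.X + 1)

theorem qT_eval (n : ℕ) : qT.eval n = (2 * n + 1) * (2 * n + 1) := by
  simp [qT]

theorem total_const {l : List Str} {n : ℕ} (h : ∀ s ∈ l, s.length = n) :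
    total l = l.length * n := by
  induction l with
  | nil => simp
  | cons s l ih =>
    rw [total_cons, ih (fun t ht => h t (List.mem_cons_of_mem _ ht)), h s List.mem_cons_self,
      List.length_cons]
    ring

/-- the check of the table -/
def RT (C : Bool → Str → Str) (p : Str × Str) : Bool :=
  decide (snd p.1 = lenc ((List.range (2 * (fst p.1).length + 1)).map (fun k => nth (snd p.1) k))) &&
  decide (∀ k < 2 * (fst p.1).length + 1, (decide ((nth (snd p.1) k).length = (fst p.1).length) &&
    !(ltS C (fst p.1).length (nodeOf (fst p.1).length k (nth (snd p.1) 0)) p.2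
      (nth (snd p.1) k))) = true)

section

variable {X : Lang} {C : Bool → Str → Str}
  (hP : ∀ b, PolyC (fun _ : Str => X) (fun _ => True) [fun x => x] (C b))
  (hC : ∀ b x, (C b x).length = x.length)

include hP hC in
theorem RT_poly :
    PolyB (fun _ : Str × Str => X) (fun _ => True) [fun p => p.1, fun p => p.2] (RT C) := by
  have hz : PolyC (fun _ : Str × Str => X) (fun _ => True) [fun p => p.1, fun p => p.2]
    (fun p => p.1) := PolyC.var (by simp)
  have hy : PolyC (fun _ : Str × Str => X) (fun _ => True) [fun p => p.1, fun p => p.2]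
    (fun p => p.2) := PolyC.var (by simp)
  have hn := PolyN.length (PolyC.fst hz)
  have hv := PolyC.snd hz
  have hN : PolyN (fun _ : Str × Str => X) (fun _ => True) [fun p => p.1, fun p => p.2]
      (fun p => 2 * (fst p.1).length + 1) := ((PolyN.const 2).mul hn).succ
  have lf : ∀ {t : Str × Str → Str}, PolyC (fun _ : Str × Str => X) (fun _ => True)
      [fun p => p.1, fun p => p.2] t →
      PolyC (fun _ : (Str × Str) × ℕ => X) (fun p => True ∧ p.2 < 2 * (fst p.1.1).length + 1)
        (PC.lift [fun p : Str × Str => p.1, fun p => p.2] ++ [fun p => una p.2])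
        (fun p => t p.1) := fun ht =>
    (ht.lift (D' := fun p : (Str × Str) × ℕ => True ∧ p.2 < 2 * (fst p.1.1).length + 1)
      (fun p hp => hp.1)).weakenRight _
  have hk : PolyN (fun _ : (Str × Str) × ℕ => X)
      (fun p => True ∧ p.2 < 2 * (fst p.1.1).length + 1)
      (PC.lift [fun p : Str × Str => p.1, fun p => p.2] ++ [fun p => una p.2])
      (fun p => p.2) := PolyC.var (by simp)
  have e1 := PolyB.strEq hv (PolyC.lenc_range
    (f := fun p : (Str × Str) × ℕ => nth (snd p.1.1) p.2) hN (PolyC.nth (lf hv) hk))
  refine e1.and (PolyB.forall_lt (φ := fun p : (Str × Str) × ℕ =>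
    decide ((nth (snd p.1.1) p.2).length = (fst p.1.1).length) &&
    !(ltS C (fst p.1.1).length (nodeOf (fst p.1.1).length p.2 (nth (snd p.1.1) 0)) p.1.2
      (nth (snd p.1.1) p.2))) hN ?_)
  have hn' : PolyN (fun _ : (Str × Str) × ℕ => X)
      (fun p => True ∧ p.2 < 2 * (fst p.1.1).length + 1)
      (PC.lift [fun p : Str × Str => p.1, fun p => p.2] ++ [fun p => una p.2])
      (fun p => (fst p.1.1).length) := lf hn
  have hm := PolyC.nth (lf hv) hk
  exact (PolyB.natEq (PolyN.length hm) hn').and
    (ltS_poly hP hC hn' (nodeOf_poly hn' hk (PolyC.nth (lf hv) (PolyN.const 0))) (lf hy) hm).not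

/-- the entries of the table -/
noncomputable def ent (n k : ℕ) : Str :=
  M hC n (n - (nodeOf n k (M hC n n [])).length) (nodeOf n k (M hC n n []))

/-- the table -/
noncomputable def tbl (n : ℕ) : Str := lenc ((List.range (2 * n + 1)).map (fun k => ent hC n k))

theorem ent_length (n k : ℕ) : (ent hC n k).length = n := M_length hC _ _ _

theorem nth_tbl {n k : ℕ} (hk : k < 2 * n + 1) : nth (tbl hC n) k = ent hC n k := by
  unfold tbl
  rw [nth_lenc, List.getD_eq_getElem _ _ (by simpa using hk)]
  simp only [List.getElem_map, List.getElem_range]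

theorem tbl_length (n : ℕ) : (tbl hC n).length = qT.eval n := by
  unfold tbl
  rw [lenc_length, total_const (n := n), List.length_map, List.length_range, qT_eval]
  · ring
  · intro s hs
    obtain ⟨k, -, rfl⟩ := List.mem_map.1 hs
    exact ent_length hC n k

theorem RT_iff {n : ℕ} {v y : Str} : RT C (pr (on1 n) v, y) = true ↔
    v = lenc ((List.range (2 * n + 1)).map (fun k => nth v k)) ∧
    ∀ k < 2 * n + 1, (nth v k).length = n ∧ ltS C n (nodeOf n k (nth v 0)) y (nth v k) = false := by
  unfold RT
  simp only [fst_pr, snd_pr, on1_eq, PC.un_length, Bool.and_eq_true, decide_eq_true_eq,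
    Bool.not_eq_true']

theorem tbl_unq : Unq qT Polynomial.X (RT C) (tbl hC) := by
  refine ⟨tbl_length hC, fun n v _ => ?_⟩
  rw [Polynomial.eval_X]
  constructor
  · intro h
    obtain ⟨h1, h2⟩ := RT_iff.1 (h (List.replicate n false) (by simp))
    have h3 : ∀ k < 2 * n + 1, ∀ y : Str, y.length = n →
        ltS C n (nodeOf n k (nth v 0)) y (nth v k) = false := by
      intro k hk y hy
      exact ((RT_iff.1 (h y hy)).2 k hk).2
    have h4 : nth v 0 = M hC n n [] := by
      refine M_unique hC (h2 0 (by omega)).1 (fun y hy => ?_)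
      have h5 := h3 0 (by omega) y hy
      rw [nodeOf_zero, ltS_eq C n n [] y (nth v 0) (by simp)] at h5
      exact h5
    rw [h1]
    unfold tbl
    congr 1
    apply List.map_congr_left
    intro k hk
    rw [List.mem_range] at hk
    refine M_unique hC (h2 k hk).1 (fun y hy => ?_)
    have h5 := h3 k hk y hy
    rw [h4] at h5
    have h6 := nodeOf_length (n := n) (j := M hC n n []) (M_length hC n n []) hk
    rw [ltS_eq C n _ _ y (nth v k) (Nat.add_sub_cancel' h6)] at h5
    exact h5
  · rintro rfl y hy
    rw [RT_iff]
    refine ⟨?_, fun k hk => ?_⟩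
    · conv_lhs => unfold tbl
      congr 1
      apply List.map_congr_left
      intro k hk
      rw [List.mem_range] at hk
      rw [nth_tbl hC hk]
    · have h4 : ent hC n 0 = M hC n n [] := by
        unfold ent
        rw [nodeOf_zero]
        rfl
      rw [nth_tbl hC hk, nth_tbl hC (show 0 < 2 * n + 1 by omega), h4]
      refine ⟨ent_length hC n k, ?_⟩
      have h6 := nodeOf_length (n := n) (j := M hC n n []) (M_length hC n n []) hk
      rw [ltS_eq C n _ _ y _ (Nat.add_sub_cancel' h6)]
      exact M_min hC n _ _ hy

theorem ent_left {n t : ℕ} (h : t < n) : ent hC n (1 + t) =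
    M hC n (n - t - 1) ((M hC n n []).take t ++ [false]) := by
  unfold ent
  rw [nodeOf_left h, List.length_append, List.length_take, M_length, List.length_singleton,
    show n - (min t n + 1) = n - t - 1 by omega]

theorem ent_right {n t : ℕ} (h : t < n) : ent hC n (1 + n + t) =
    M hC n (n - t - 1) ((M hC n n []).take t ++ [true]) := by
  unfold ent
  rw [nodeOf_right, List.length_append, List.length_take, M_length, List.length_singleton,
    show n - (min t n + 1) = n - t - 1 by omega]

/-- some pair of entries is not a value -/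
theorem tbl_gap {n : ℕ} (hn : 1 ≤ n) : ∃ t < n, ∀ x : Str, x.length = n →
    ¬ (C false x = nth (tbl hC n) (1 + t) ∧ C true x = nth (tbl hC n) (1 + n + t)) := by
  obtain ⟨t, ht, h⟩ := exists_gap hC hn
  refine ⟨t, ht, fun x hx => ?_⟩
  rw [nth_tbl hC (by omega), nth_tbl hC (by omega), ent_left hC ht, ent_right hC ht]
  exact h x hx

end

end Uo

end Pool.Agent.Lib.Pa76659G
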