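import Pool.Agent.Lib.Pa76659.Defs
import Pool.Agent.Lib.Pa76659G.Spec

/-!
The linear order of the strings which are below all cycles of a total relation.
-/

set_option autoImplicit false

namespace Pool.Agent.Lib.Pa76659G

open Pool.Agent.Lib.Pa76659

/-- The relation `T` (a language of pairs) is total: of two different strings of the same length one
beats the other (or both beat each other). -/
def Tot (T : Lang) : Prop := ∀ u v : Str, u.length = v.length → u ≠ v →
  T (pr u v) = true ∨ T (pr v u) = true

/-- `u` beats `v` -/
def Bts (T : Lang) (u v : Str) : Prop := u.length = v.length ∧ u ≠ v ∧ T (pr u v) = true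

/-- `y` is marked by `V` or it is on a cycle of length two or three -/
def Cyc (T V : Lang) (y : Str) : Prop := V y = true ∨ (∃ u : Str, Bts T y u ∧ Bts T u y) ∨
  ∃ u w : Str, Bts T y u ∧ Bts T u w ∧ Bts T w y

/-- `y` is dead: it is as above or it beats such a string -/
def Dead (T V : Lang) (y : Str) : Prop := Cyc T V y ∨ ∃ u : Str, Cyc T V u ∧ Bts T y u

/-- `h` is the top of the living strings of its length -/
def Top (T V : Lang) (h : Str) : Prop := ¬ Dead T V h ∧
  ∀ x : Str, x.length = h.length → ¬ Dead T V x → x ≠ h → Bts T h x

end Pool.Agent.Lib.Pa76659G
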