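import Pool.Agent.Lib.Pa76659G.T3Mem
import Pool.Agent.Lib.Pa76659G.UoTSpec

set_option autoImplicit false

/-!
The order of the living strings of a total relation in `NP`: the top is computable with an oracle in
`Σ_2` if `\hat L_3 = L_3`.
-/

namespace Pool.Agent.Lib.Pa76659G.UoT

open Pool.Agent.Lib.Pa76659 Pool.Agent.Lib.Pa76659G PC
open Pool.Agent.Lib.Pa76659G.T3 (NPO_and NPO_or NPO_ex)

section

variable {T V : Lang}

open Classical in
/-- the relation as a language of pairs -/
noncomputable def btL (T : Lang) : Lang := fun p => decide (Bts T (fst p) (snd p))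

theorem btL_pr (T : Lang) (u v : Str) : btL T (pr u v) = true ↔ Bts T u v := by
  simp only [btL, decide_eq_true_eq, fst_pr, snd_pr]

theorem btL_mem {X : Lang} (hT : T ∈ NPO X) : btL T ∈ NPO X := by
  have hx : PolyC (fun _ : Str => X) (fun _ => True) [fun x => x] (fun x => x) :=
    PolyC.var (by simp)
  have c1 : (fun z : Str => decide ((fst z).length = (snd z).length) &&
      !(decide (fst z = snd z))) ∈ NPO X :=
    PO_subset_NPO X (mem_PO ((PolyB.natEq (PolyN.length (PolyC.fst hx))
      (PolyN.length (PolyC.snd hx))).and (PolyB.strEq (PolyC.fst hx) (PolyC.snd hx)).not))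
  have c2 := NPO_comp hT (PolyC.pr (PolyC.fst hx) (PolyC.snd hx))
  have c3 := NPO_and c1 c2
  have e : btL T = fun z => (decide ((fst z).length = (snd z).length) &&
      !(decide (fst z = snd z))) && T (pr (fst z) (snd z)) := by
    funext z
    rw [Bool.eq_iff_iff]
    unfold btL Bts
    simp only [Bool.and_eq_true, Bool.not_eq_true', decide_eq_true_eq, decide_eq_false_iff_not]
    tauto
  rw [e]
  exact c3

open Classical in
/-- the strings on short cycles -/
noncomputable def cyL (T V : Lang) : Lang := fun y => decide (Cyc T V y)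

theorem cyL_iff (T V : Lang) (y : Str) : cyL T V y = true ↔ Cyc T V y := by
  simp only [cyL, decide_eq_true_eq]

open Classical in
/-- the dead strings -/
noncomputable def ddL (T V : Lang) : Lang := fun y => decide (Dead T V y)

theorem ddL_iff (T V : Lang) (y : Str) : ddL T V y = true ↔ Dead T V y := by
  simp only [ddL, decide_eq_true_eq]

theorem cyL_mem {X : Lang} (hT : T ∈ NPO X) (hV : V ∈ NPO X) : cyL T V ∈ NPO X := by
  have hx : PolyC (fun _ : Str => X) (fun _ => True) [fun x => x] (fun x => x) :=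
    PolyC.var (by simp)
  have h1 := PolyC.fst hx
  have h2 := PolyC.snd hx
  have h3 := PolyC.fst h2
  have h4 := PolyC.snd h2
  have hb := btL_mem hT
  have c1 := NPO_comp hb (PolyC.pr h1 h2)
  have c2 := NPO_comp hb (PolyC.pr h2 h1)
  have d1 := NPO_comp hb (PolyC.pr h1 h3)
  have d2 := NPO_comp hb (PolyC.pr h3 h4)
  have d3 := NPO_comp hb (PolyC.pr h4 h1)
  classical
  have e1 : (fun y => decide (∃ u : Str, Bts T y u ∧ Bts T u y)) ∈ NPO X := by
    refine NPO_ex (NPO_and c1 c2) Polynomial.X (fun y => ?_)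
    simp only [decide_eq_true_eq, Bool.and_eq_true, fst_pr, snd_pr, Polynomial.eval_X, btL_pr]
    constructor
    · rintro ⟨u, h5, h6⟩
      exact ⟨u, h5.1.ge, h5, h6⟩
    · rintro ⟨u, -, h5, h6⟩
      exact ⟨u, h5, h6⟩
  have e2 : (fun y => decide (∃ u w : Str, Bts T y u ∧ Bts T u w ∧ Bts T w y)) ∈ NPO X := by
    refine NPO_ex (NPO_and d1 (NPO_and d2 d3)) (3 * Polynomial.X + 1) (fun y => ?_)
    simp only [decide_eq_true_eq, Bool.and_eq_true, fst_pr, snd_pr, Polynomial.eval_X,
      Polynomial.eval_add, Polynomial.eval_mul, Polynomial.eval_ofNat, Polynomial.eval_one,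
      btL_pr]
    constructor
    · rintro ⟨u, w, h5, h6, h7⟩
      refine ⟨pr u w, ?_, ?_⟩
      · rw [pr_length]
        have h8 := h5.1
        have h9 := h6.1
        omega
      · rw [fst_pr, snd_pr]
        exact ⟨h5, h6, h7⟩
    · rintro ⟨q, -, h5, h6, h7⟩
      exact ⟨_, _, h5, h6, h7⟩
  have e3 := NPO_or hV (NPO_or e1 e2)
  have e4 : cyL T V = (fun y => V y || (decide (∃ u : Str, Bts T y u ∧ Bts T u y) ||
      decide (∃ u w : Str, Bts T y u ∧ Bts T u w ∧ Bts T w y))) := by
    funext y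
    rw [Bool.eq_iff_iff, cyL_iff]
    unfold Cyc
    simp only [Bool.or_eq_true, decide_eq_true_eq]
  rw [e4]
  exact e3

theorem ddL_mem {X : Lang} (hT : T ∈ NPO X) (hV : V ∈ NPO X) : ddL T V ∈ NPO X := by
  have hx : PolyC (fun _ : Str => X) (fun _ => True) [fun x => x] (fun x => x) :=
    PolyC.var (by simp)
  have c1 := NPO_comp (cyL_mem hT hV) (PolyC.snd hx)
  have c2 := NPO_comp (btL_mem hT) (PolyC.pr (PolyC.fst hx) (PolyC.snd hx))
  classical
  have e1 : (fun y => decide (∃ u : Str, Cyc T V u ∧ Bts T y u)) ∈ NPO X := by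
    refine NPO_ex (NPO_and c1 c2) Polynomial.X (fun y => ?_)
    simp only [decide_eq_true_eq, Bool.and_eq_true, fst_pr, snd_pr, Polynomial.eval_X, btL_pr,
      cyL_iff]
    constructor
    · rintro ⟨u, h5, h6⟩
      exact ⟨u, h6.1.ge, h5, h6⟩
    · rintro ⟨u, -, h5, h6⟩
      exact ⟨u, h5, h6⟩
  have e3 := NPO_or (cyL_mem hT hV) e1
  have e4 : ddL T V = (fun y => cyL T V y || decide (∃ u : Str, Cyc T V u ∧ Bts T y u)) := by
    funext y
    rw [Bool.eq_iff_iff, ddL_iff]
    unfold Dead
    simp only [Bool.or_eq_true, decide_eq_true_eq, cyL_iff]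
  rw [e4]
  exact e3

/-! ### the linear order of the living strings -/

theorem bts_total (hT : Tot T) {u v : Str} (h : u.length = v.length) (hne : u ≠ v) :
    Bts T u v ∨ Bts T v u := by
  rcases hT u v h hne with h1 | h1
  · exact Or.inl ⟨h, hne, h1⟩
  · exact Or.inr ⟨h.symm, hne.symm, h1⟩

/-- everything that beats a dead string is dead -/
theorem dead_up (hT : Tot T) {h x : Str} (hb : Bts T h x) (hx : Dead T V x) : Dead T V h := by
  rcases hx with h1 | ⟨u, h1, h2⟩
  · exact Or.inr ⟨x, h1, hb⟩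
  · by_cases hu : u = h
    · subst hu
      exact Or.inl (Or.inr (Or.inl ⟨x, hb, h2⟩))
    · have l1 := hb.1
      have l2 := h2.1
      rcases bts_total hT (u := h) (v := u) (by omega) (fun h3 => hu h3.symm) with h3 | h3
      · exact Or.inr ⟨u, h1, h3⟩
      · exact Or.inl (Or.inr (Or.inr ⟨x, u, hb, h2, h3⟩))

theorem bts_asymm {u v : Str} (hu : ¬ Dead T V u) (h : Bts T u v) : ¬ Bts T v u :=
  fun h1 => hu (Or.inl (Or.inr (Or.inl ⟨v, h, h1⟩)))

theorem bts_trans (hT : Tot T) {u v w : Str} (hu : ¬ Dead T V u) (hne : u ≠ w)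
    (h1 : Bts T u v) (h2 : Bts T v w) : Bts T u w := by
  have l1 := h1.1
  have l2 := h2.1
  rcases bts_total hT (u := u) (v := w) (by omega) hne with h3 | h3
  · exact h3
  · exact absurd (Or.inl (Or.inr (Or.inr ⟨v, w, h1, h2, h3⟩))) hu

/-- the top exists and is unique -/
theorem exists_top (hT : Tot T) {n : ℕ} {x0 : Str} (hx0 : x0.length = n)
    (hx0' : ¬ Dead T V x0) : ∃ h : Str, h.length = n ∧ Top T V h := by
  classical
  let r : List.Vector Bool n → List.Vector Bool n → Prop := fun a b =>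
    ¬ Dead T V a.1 ∧ ¬ Dead T V b.1 ∧ Bts T a.1 b.1
  have ht : IsTrans _ r := ⟨by
    rintro a b c ⟨h1, h2, h3⟩ ⟨h4, h5, h6⟩
    refine ⟨h1, h5, bts_trans hT h1 ?_ h3 h6⟩
    intro h7
    rw [← h7] at h6
    exact bts_asymm h1 h3 h6⟩
  have hi : Std.Irrefl r := ⟨fun a h1 => h1.2.2.2.1 rfl⟩
  have hw : WellFounded r := Finite.wellFounded_of_trans_of_irrefl r
  obtain ⟨m, hm1, hm2⟩ := hw.has_min {a | ¬ Dead T V a.1} ⟨⟨x0, hx0⟩, hx0'⟩
  refine ⟨m.1, m.2, hm1, fun x hx hx2 hne => ?_⟩
  rcases bts_total hT hx hne with h2 | h2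
  · exact absurd ⟨hx2, hm1, h2⟩ (hm2 ⟨x, by rw [hx]; exact m.2⟩ hx2)
  · exact h2

theorem top_unique {h h' : Str} (hl : h.length = h'.length) (h1 : Top T V h)
    (h2 : Top T V h') : h = h' := by
  by_contra hne
  have h3 := h1.2 h' hl.symm h2.1 (fun h4 => hne h4.symm)
  have h4 := h2.2 h hl h1.1 hne
  exact bts_asymm h1.1 h3 h4

theorem alive_iff (hT : Tot T) {h : Str} (hh : Top T V h) {x : Str} (hx : x.length = h.length) :
    ¬ Dead T V x ↔ x = h ∨ Bts T h x := by
  constructor
  · intro h1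
    by_cases h2 : x = h
    · exact Or.inl h2
    · exact Or.inr (hh.2 x hx h1 h2)
  · rintro (rfl | h1)
    · exact hh.1
    · exact fun h2 => hh.1 (dead_up hT h1 h2)

theorem advStr_get {W : Lang} {r : Polynomial ℕ} {n i : ℕ} (hi : i < (advStr W r n).length) :
    (advStr W r n)[i] = W (pr (on1 n) (on1 i)) := by
  simp [advStr]

theorem ddL_poly {X : Lang} (hT : T ∈ NPO X) (hTot : Tot T) :
    (fun x => !(ddL T V x)) ∈ NPPoly X := by
  classical
  have hz : PolyC (fun _ : Str => X) (fun _ => True) [fun x => x] (fun x => x) :=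
    PolyC.var (by simp)
  have c1 : (fun z : Str => decide (snd z = true :: fst z)) ∈ NPO X :=
    PO_subset_NPO X (mem_PO (PolyB.strEq (PolyC.snd hz) (PolyC.cons true (PolyC.fst hz))))
  have c2 : (fun z : Str => (snd z).headD false) ∈ NPO X :=
    PO_subset_NPO X (mem_PO (PolyB.headD (PolyC.snd hz)))
  have c3 := NPO_comp (btL_mem hT) (PolyC.pr (PolyC.snd hz).tail (PolyC.fst hz))
  refine ⟨_, NPO_or c1 (NPO_and c2 c3), fun n =>
    if h : ∃ h : Str, h.length = n ∧ Top T V h then true :: h.choose else [],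
    Polynomial.X + 1, fun n => ?_, fun x => ?_⟩
  · simp only [Polynomial.eval_add, Polynomial.eval_X, Polynomial.eval_one]
    by_cases h : ∃ h : Str, h.length = n ∧ Top T V h
    · rw [dif_pos h, List.length_cons, h.choose_spec.1]
    · rw [dif_neg h]
      simp
  · simp only [fst_pr, snd_pr]
    by_cases h : ∃ h : Str, h.length = x.length ∧ Top T V h
    · simp only [dif_pos h]
      rw [Bool.eq_iff_iff]
      simp only [Bool.not_eq_true', Bool.or_eq_true, decide_eq_true_eq, Bool.and_eq_true,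
        List.headD_cons, List.tail_cons, List.cons.injEq, true_and]
      rw [← Bool.not_eq_true, ddL_iff, alive_iff hTot h.choose_spec.2 h.choose_spec.1.symm, btL_pr]
      exact or_congr eq_comm Iff.rfl
    · simp only [dif_neg h]
      have h1 : ddL T V x = true := by
        rw [ddL_iff]
        by_contra h1
        exact h (exists_top hTot rfl h1)
      rw [h1]
      simp

/-- The set of the dead strings is in `L_3`. -/
theorem ddL_low {X : Lang} (hT : T ∈ NPO X) (hV : V ∈ NPO X) (hTot : Tot T) :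
    ddL T V ∈ Low X 3 := ⟨ddL_mem hT hV, yap (ddL_mem hT hV) (ddL_poly hT hTot)⟩

/-! ### the bits of the top -/

open Classical in
/-- not the top -/
noncomputable def ntL (T V : Lang) : Lang := fun h => decide (¬ Top T V h)

theorem ntL_iff (T V : Lang) (h : Str) : ntL T V h = true ↔
    Dead T V h ∨ ∃ x : Str, ddL T V x = false ∧ x.length = h.length ∧ x ≠ h ∧
      ¬ Bts T h x := by
  simp only [ntL, decide_eq_true_eq]
  unfold Top
  have h1 : ∀ x, ddL T V x = false ↔ ¬ Dead T V x := fun x => by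
    rw [← ddL_iff, Bool.not_eq_true]
  simp only [h1]
  push Not
  constructor
  · intro h2
    by_cases h3 : Dead T V h
    · exact Or.inl h3
    · obtain ⟨x, h4, h5, h6, h7⟩ := h2 h3
      exact Or.inr ⟨x, h5, h4, h6, h7⟩
  · rintro (h2 | ⟨x, h5, h4, h6, h7⟩) h3
    · exact absurd h2 h3
    · exact ⟨x, h4, h5, h6, h7⟩

/-- a form without negation of the relation -/
theorem ntL_iff' (hTot : Tot T) (h : Str) : ntL T V h = true ↔
    ddL T V h = true ∨ ∃ x : Str, ddL T V x = false ∧ btL T (pr x h) = true := by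
  rw [ntL_iff, ddL_iff]
  refine or_congr_right' fun h0 => ?_
  simp only [btL_pr]
  constructor
  · rintro ⟨x, h1, h2, h3, h4⟩
    rcases bts_total hTot h2 h3 with h5 | h5
    · exact ⟨x, h1, h5⟩
    · exact absurd h5 h4
  · rintro ⟨x, h1, h2⟩
    have h3 : ¬ Dead T V x := by rw [← ddL_iff, h1]; simp
    exact ⟨x, h1, h2.1, h2.2.1, bts_asymm h3 h2⟩

open Classical in
/-- the bits of the top -/
noncomputable def tpL (T V : Lang) : Lang := fun z =>
  decide (∃ h : Str, h.length = (fst z).length ∧ Top T V h ∧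
    (true :: h).getD (snd z).length false = true)

theorem tpL_iff (T V : Lang) (z : Str) : tpL T V z = true ↔ ∃ h : Str,
    h.length = (fst z).length ∧ Top T V h ∧ (true :: h).getD (snd z).length false = true := by
  simp only [tpL, decide_eq_true_eq]

theorem tpL_mem {X : Lang} (hT : T ∈ NPO X) (hTot : Tot T) :
    tpL T V ∈ Sig (join X (ddL T V)) 2 := by
  classical
  set O := join X (ddL T V) with hO
  have hXO : X ∈ PO O := left_mem X _
  have hx : PolyC (fun _ : Str => O) (fun _ => True) [fun x => x] (fun x => x) :=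
    PolyC.var (by simp)
  have e0 : (fun h : Str => ddL T V h) ∈ NPO O :=
    PO_subset_NPO O (mem_PO (PolyC.query (PolyC.cons true hx)))
  have e1' : (fun p : Str => !(ddL T V (snd p))) ∈ NPO O := by
    refine PO_subset_NPO O (mem_PO ?_)
    have h1 : PolyB (fun _ : Str => O) (fun _ => True) [fun x => x] (fun p => ddL T V (snd p)) :=
      PolyC.query (PolyC.cons true (PolyC.snd hx))
    exact h1.not
  have e2 := NPO_comp (NPO_subset hXO (btL_mem hT)) (PolyC.pr (PolyC.snd hx) (PolyC.fst hx))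
  have e3 : (fun h : Str => decide (∃ x : Str, ddL T V x = false ∧ btL T (pr x h) = true)) ∈
      NPO O := by
    refine NPO_ex (NPO_and e1' e2) Polynomial.X (fun h => ?_)
    simp only [decide_eq_true_eq, Bool.and_eq_true, fst_pr, snd_pr, Polynomial.eval_X,
      Bool.not_eq_true']
    constructor
    · rintro ⟨x, h5, h6⟩
      exact ⟨x, ((btL_pr T _ _).1 h6).1.le, h5, h6⟩
    · rintro ⟨x, -, h5, h6⟩
      exact ⟨x, h5, h6⟩
  have e4 : ntL T V ∈ NPO O := by
    have e5 := NPO_or e0 e3
    have e6 : ntL T V = (fun h => ddL T V h || decide (∃ x : Str, ddL T V x = false ∧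
        btL T (pr x h) = true)) := by
      funext h
      rw [Bool.eq_iff_iff, ntL_iff' hTot]
      simp only [Bool.or_eq_true, decide_eq_true_eq]
    rw [e6]
    exact e5
  refine ⟨ntL T V, ⟨O, query_mem O, e4⟩, ?_⟩
  have hs : PolyC (fun _ : Str × Str => ntL T V) (fun _ => True) [fun p => p.1, fun p => p.2]
    (fun p => p.1) := PolyC.var (by simp)
  have hh : PolyC (fun _ : Str × Str => ntL T V) (fun _ => True) [fun p => p.1, fun p => p.2]
    (fun p => p.2) := PolyC.var (by simp)
  have f0 := PolyB.natEq (PolyN.length hh) (PolyN.length (PolyC.fst hs))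
  have f1 := PolyB.getD (PolyC.cons true hh) (PolyN.length (PolyC.snd hs))
  have f2 : PolyB (fun _ : Str × Str => ntL T V) (fun _ => True) [fun p => p.1, fun p => p.2]
    (fun p => ntL T V p.2) := PolyC.query hh
  refine mem_NPO_le Polynomial.X (f0.and (f2.not.and f1)) (fun z => ?_)
  have h0 : ∀ h, ntL T V h = false ↔ Top T V h := fun h => by
    simp only [ntL, decide_eq_false_iff_not, not_not]
  simp only [tpL, Polynomial.eval_X, Bool.and_eq_true, Bool.not_eq_true', decide_eq_true_eq, h0]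
  constructor
  · rintro ⟨h, h1, h2, h3⟩
    exact ⟨h, by rw [h1]; exact fst_length_le z, h1, h2, h3⟩
  · rintro ⟨h, -, h1, h2, h3⟩
    exact ⟨h, h1, h2, h3⟩

end

/-- If `\hat L_3 = L_3` then the top of the living strings is computable with an oracle in `Σ_2`. -/
theorem top_adv {X : Lang} (h3 : Low X 3 ⊆ RLowSucc X 2) {T V : Lang} (hT : T ∈ NPO X)
    (hV : V ∈ NPO X) (hTot : Tot T) : ∃ W ∈ DelSucc X 2, ∀ n : ℕ,
      ((∀ x : Str, x.length = n → Dead T V x) ∧
        advStr W (Polynomial.X + 1) n = List.replicate (n + 1) false) ∨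
      ∃ h : Str, h.length = n ∧ Top T V h ∧ advStr W (Polynomial.X + 1) n = true :: h := by
  have hlow := h3 (ddL_low hT hV hTot)
  refine ⟨tpL T V, hlow.2 ⟨tpL T V, tpL_mem hT hTot, query_mem _⟩, fun n => ?_⟩
  by_cases h : ∃ x : Str, x.length = n ∧ ¬ Dead T V x
  · right
    obtain ⟨x0, hx0, hx0'⟩ := h
    obtain ⟨h, hh1, hh2⟩ := exists_top hTot hx0 hx0'
    refine ⟨h, hh1, hh2, ?_⟩
    apply List.ext_getElem
    · rw [advStr_length, List.length_cons, hh1]
      simp
    · intro i hi1 hi2
      rw [advStr_get, Bool.eq_iff_iff, tpL_iff]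
      simp only [fst_pr, snd_pr, on1_eq, PC.un_length]
      rw [← List.getD_eq_getElem _ false hi2]
      constructor
      · rintro ⟨h', h4, h5, h6⟩
        rw [top_unique (hh1.trans h4.symm) hh2 h5]
        exact h6
      · intro h4
        exact ⟨h, hh1, hh2, h4⟩
  · left
    push Not at h
    refine ⟨h, ?_⟩
    apply List.ext_getElem
    · rw [advStr_length]
      simp
    · intro i hi1 hi2
      rw [advStr_get, List.getElem_replicate, ← Bool.not_eq_true, tpL_iff]
      simp only [fst_pr, snd_pr, on1_eq, PC.un_length]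
      rintro ⟨h', h4, h5, -⟩
      exact h5.1 (h h' h4)

end Pool.Agent.Lib.Pa76659G.UoT
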