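import Pool.Agent.Lib.Pa76659G.UoA
import Pool.Agent.Lib.Pa76659G.T3Mem
import Pool.Agent.Lib.Pa76659G.H2c
import Pool.Agent.Lib.Pa76659G.Low1

set_option autoImplicit false

/-!
If `L_1 = \hat L_2` then every tally set in `P^NP` is in `NP`.
-/

namespace Pool.Agent.Lib.Pa76659G

open Pool.Agent.Lib.Pa76659 PC

namespace Uo

/-! ### the lexicographic order -/

theorem lexLt_trans {a b c : Str} (h1 : lexLt a b) (h2 : lexLt b c) : lexLt a c := by
  obtain ⟨k, a1, a2, a3⟩ := h1
  obtain ⟨j, b1, b2, b3⟩ := h2
  rcases lt_trichotomy k j with h | h | h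
  · refine ⟨k, fun i hi => (a1 i hi).trans (b1 i (by omega)), a2, ?_⟩
    rw [← b1 k h]; exact a3
  · subst h
    rw [a3] at b2
    exact absurd b2 (by simp)
  · refine ⟨j, fun i hi => (a1 i (by omega)).trans (b1 i hi), ?_, b3⟩
    rw [a1 j h]; exact b2

theorem lexLt_congr {a b b' : Str} (h : ∀ k, b.getD k false = b'.getD k false) :
    lexLt a b ↔ lexLt a b' := by
  unfold lexLt
  simp only [h]

theorem lexLt_congr' {a a' b : Str} (h : ∀ k, a.getD k false = a'.getD k false) :
    lexLt a b ↔ lexLt a' b := by
  unfold lexLt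
  simp only [h]

open Classical in
/-- the order as a Boolean function -/
noncomputable def lexC (a b : Str) : Bool := decide (lexLt a b)

theorem lexC_iff (a b : Str) : lexC a b = true ↔ lexLt a b := by
  simp only [lexC, decide_eq_true_eq]

theorem lexC_eq (a b : Str) : lexC a b = !(decide (∀ k < b.length,
    (!((decide (∀ j < k, (a.getD j false == b.getD j false) = true)) &&
      ((!(a.getD k false)) && b.getD k false))) = true)) := by
  rw [Bool.eq_iff_iff, lexC_iff]
  simp only [decide_eq_true_eq, Bool.not_eq_true', decide_eq_false_iff_not, not_forall,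
    Bool.not_eq_false, Bool.and_eq_true, beq_iff_eq, lexLt, exists_prop]
  constructor
  · rintro ⟨k, h1, h2, h3⟩
    have hk : k < b.length := by
      by_contra h4
      rw [List.getD_eq_default _ _ (by omega)] at h3
      exact absurd h3 (by simp)
    exact ⟨k, hk, h1, h2, h3⟩
  · rintro ⟨k, hk, h1, h2, h3⟩
    exact ⟨k, h1, h2, h3⟩

theorem lexC_poly {O : Lang} {α : Type*} {D : α → Prop} {ctx : List (α → Str)}
    {a b : α → Str} (ha : PolyC (fun _ => O) D ctx a) (hb : PolyC (fun _ => O) D ctx b) :
    PolyB (fun _ => O) D ctx (fun t => lexC (a t) (b t)) := by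
  have h0 : PolyB (fun _ => O) D ctx (fun t => decide (∀ k < (b t).length,
      (!((decide (∀ j < k, ((a t).getD j false == (b t).getD j false) = true)) &&
        ((!((a t).getD k false)) && (b t).getD k false))) = true)) := by
    refine PolyB.forall_lt (φ := fun q : α × ℕ =>
      (!((decide (∀ j < q.2, ((a q.1).getD j false == (b q.1).getD j false) = true)) &&
        ((!((a q.1).getD q.2 false)) && (b q.1).getD q.2 false)))) (PolyN.length hb) ?_
    have hk : PolyN (fun _ : α × ℕ => O) (fun p => D p.1 ∧ p.2 < (b p.1).length)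
      (PC.lift ctx ++ [fun p => una p.2]) (fun p => p.2) := PolyC.var (by simp)
    have ha' : PolyC (fun _ : α × ℕ => O) (fun p => D p.1 ∧ p.2 < (b p.1).length)
      (PC.lift ctx ++ [fun p => una p.2]) (fun p => a p.1) :=
        (ha.lift (fun p hp => hp.1)).weakenRight _
    have hb' : PolyC (fun _ : α × ℕ => O) (fun p => D p.1 ∧ p.2 < (b p.1).length)
      (PC.lift ctx ++ [fun p => una p.2]) (fun p => b p.1) :=
        (hb.lift (fun p hp => hp.1)).weakenRight _
    refine (PolyB.and ?_ ((PolyB.getD ha' hk).not.and (PolyB.getD hb' hk))).not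
    refine PolyB.forall_lt (φ := fun q : (α × ℕ) × ℕ =>
      ((a q.1.1).getD q.2 false == (b q.1.1).getD q.2 false)) hk ?_
    exact PolyB.beq (PolyB.getD ((ha'.lift (fun p hp => hp.1)).weakenRight _)
        (PolyC.var (by simp)))
      (PolyB.getD ((hb'.lift (fun p hp => hp.1)).weakenRight _) (PolyC.var (by simp)))
  refine h0.not.congr (fun t _ => ?_)
  rw [lexC_eq]

/-! ### supported answers -/

/-- the `k`-th answer is supported by the witness `w` -/
noncomputable def anc1 (M : Prog) (V : Str × Str → Bool) (q : Polynomial ℕ) (z c w : Str)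
    (k : ℕ) : Bool :=
  !((oc (qry (cf M z [] c k))).isEmpty) &&
    (decide (w.length = q.eval (oc (qry (cf M z [] c k))).tail.length) &&
      V ((oc (qry (cf M z [] c k))).tail, w))

theorem anc1_poly {O : Lang} {α : Type} {D : α → Prop} {ctx : List (α → Str)} (M : Prog)
    {V : Str × Str → Bool} (q : Polynomial ℕ)
    (hV : PolyB (fun _ : Str × Str => O) (fun _ => True) [fun p => p.1, fun p => p.2] V)
    {z c w : α → Str} {k : α → ℕ}
    (hz : PolyC (fun _ => O) D ctx z) (hc : PolyC (fun _ => O) D ctx c)
    (hw : PolyC (fun _ => O) D ctx w) (hk : PolyN (fun _ => O) D ctx k) :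
    PolyB (fun _ => O) D ctx (fun a => anc1 M V q (z a) (c a) (w a) (k a)) := by
  have h1 := PolyC.cf M hz (PolyC.nil (orc := fun _ : α => O) (D := D) (ctx := ctx)) hc hk
  have h2 := PolyC.qry' M (fun a => PC.cf M (z a) [] (c a) (k a)) h1
    (fun a _ => cf_KK _ _ _ _ _)
  exact (PolyB.isNil h2).not.and ((PolyB.natEq (PolyN.length hw)
    ((PolyN.length h2.tail).poly q)).and (PolyB.arg2 hV h2.tail hw))

open Classical in
/-- the supported answers: `v = pr z c` -/
noncomputable def supL (M : Prog) (t : Polynomial ℕ) (C : Lang) : Lang := fun v =>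
  decide ((snd v).length = t.eval (fst v).length ∧ Sup C M (fst v) (t.eval (fst v).length) (snd v))

theorem supL_iff (M : Prog) (t : Polynomial ℕ) (C : Lang) (v : Str) : supL M t C v = true ↔
    (snd v).length = t.eval (fst v).length ∧ Sup C M (fst v) (t.eval (fst v).length) (snd v) := by
  simp only [supL, decide_eq_true_eq]

theorem supL_mem {X C : Lang} (hC : C ∈ NPO X) (M : Prog) (t : Polynomial ℕ) :
    supL M t C ∈ NPO X := by
  classical
  obtain ⟨V, q, hV, hCV⟩ := exists_of_NPO hC
  have hv : PolyC (fun _ : Str × Str => X) (fun _ => True) [fun p => p.1, fun p => p.2]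
    (fun p => p.1) := PolyC.var (by simp)
  have hw : PolyC (fun _ : Str × Str => X) (fun _ => True) [fun p => p.1, fun p => p.2]
    (fun p => p.2) := PolyC.var (by simp)
  have hN := (PolyN.length (PolyC.fst hv)).poly t
  have e1 := PolyB.natEq (PolyN.length (PolyC.snd hv)) hN
  have e2 : PolyB (fun _ : Str × Str => X) (fun _ => True) [fun p => p.1, fun p => p.2]
      (fun p => decide (∀ k < t.eval (fst p.1).length, (!((snd p.1).getD k false) ||
        anc1 M V q (fst p.1) (snd p.1) (PC.nth p.2 k) k) = true)) := by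
    refine PolyB.forall_lt (φ := fun s : (Str × Str) × ℕ => !((snd s.1.1).getD s.2 false) ||
        anc1 M V q (fst s.1.1) (snd s.1.1) (PC.nth s.1.2 s.2) s.2) hN ?_
    have hk : PolyN (fun _ : (Str × Str) × ℕ => X)
      (fun p => True ∧ p.2 < t.eval (fst p.1.1).length)
      (PC.lift [fun p : Str × Str => p.1, fun p => p.2] ++ [fun p => una p.2])
      (fun p => p.2) := PolyC.var (by simp)
    have hv' : PolyC (fun _ : (Str × Str) × ℕ => X)
      (fun p => True ∧ p.2 < t.eval (fst p.1.1).length)
      (PC.lift [fun p : Str × Str => p.1, fun p => p.2] ++ [fun p => una p.2])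
      (fun p => p.1.1) := (hv.lift (fun p hp => hp.1)).weakenRight _
    have hw' : PolyC (fun _ : (Str × Str) × ℕ => X)
      (fun p => True ∧ p.2 < t.eval (fst p.1.1).length)
      (PC.lift [fun p : Str × Str => p.1, fun p => p.2] ++ [fun p => una p.2])
      (fun p => p.1.2) := (hw.lift (fun p hp => hp.1)).weakenRight _
    exact (PolyB.getD (PolyC.snd hv') hk).not.or
      (anc1_poly M q hV (PolyC.fst hv') (PolyC.snd hv') (PolyC.nth hw' hk) hk)
  refine mem_NPO_le (2 * (t * (q.comp (Polynomial.X + t))) + t) (e1.and e2) (fun v => ?_)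
  rw [supL_iff]
  simp only [Bool.and_eq_true, decide_eq_true_eq]
  constructor
  · rintro ⟨h1, h2⟩
    have h3 : ∀ k, ∃ w : Str, w.length ≤ q.eval (v.length + t.eval v.length) ∧
        (k < t.eval (fst v).length → (snd v).getD k false = true →
          anc1 M V q (fst v) (snd v) w k = true) := by
      intro k
      by_cases hk : k < t.eval (fst v).length ∧ (snd v).getD k false = true
      · obtain ⟨u, hu, hCu⟩ := h2 k hk.1 hk.2
        obtain ⟨w, hw1, hw2⟩ := (hCV u).1 hCu
        refine ⟨w, ?_, fun _ _ => ?_⟩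
        · rw [hw1]
          apply eval_mono
          have h4 := qry_length hu
          have h5 := fst_length_le v
          have h6 := eval_mono t h5
          omega
        · unfold anc1
          rw [hu]
          simp only [oc, List.isEmpty_cons, Bool.not_false, List.tail_cons, Bool.true_and,
            Bool.and_eq_true]
          exact ⟨decide_eq_true hw1, hw2⟩
      · exact ⟨[], by simp, fun h5 h6 => absurd ⟨h5, h6⟩ hk⟩
    choose w hw1 hw2 using h3
    refine ⟨lenc ((List.range (t.eval (fst v).length)).map w), ?_, h1, fun k hk => ?_⟩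
    · rw [lenc_length]
      have h4 := total_map_range w (q.eval (v.length + t.eval v.length)) (t.eval (fst v).length)
        (fun r _ => hw1 r)
      have h5 := eval_mono t (fst_length_le v)
      have h6 := Nat.mul_le_mul_right (q.eval (v.length + t.eval v.length)) h5
      simp only [List.length_map, List.length_range, Polynomial.eval_add, Polynomial.eval_mul,
        Polynomial.eval_ofNat, Polynomial.eval_comp, Polynomial.eval_X]
      omega
    · have h7 : PC.nth (lenc ((List.range (t.eval (fst v).length)).map w)) k = w k := by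
        rw [nth_lenc, List.getD_eq_getElem _ _ (by simpa using hk)]
        simp only [List.getElem_map, List.getElem_range]
      rw [h7]
      simp only [Bool.or_eq_true, Bool.not_eq_true']
      rcases h4 : (snd v).getD k false with _ | _
      · exact Or.inl rfl
      · exact Or.inr (hw2 k hk h4)
  · rintro ⟨w, -, h1, h2⟩
    refine ⟨h1, fun k hk h3 => ?_⟩
    have h4 := h2 k hk
    rw [h3] at h4
    simp only [Bool.not_true, Bool.false_or] at h4
    unfold anc1 at h4
    rcases h5 : qry (cf M (fst v) [] (snd v) k) with _ | u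
    · rw [h5] at h4
      simp [oc] at h4
    · rw [h5] at h4
      simp only [oc, List.isEmpty_cons, Bool.not_false, List.tail_cons, Bool.true_and,
        Bool.and_eq_true] at h4
      exact ⟨u, rfl, (hCV u).2 ⟨_, of_decide_eq_true h4.1, h4.2⟩⟩

/-- the right answers are computable -/
theorem rta_poly {C : Lang} {α : Type} {D : α → Prop} {ctx : List (α → Str)} (M : Prog)
    {z : α → Str} {N : α → ℕ} (hz : PolyC (fun _ => C) D ctx z)
    (hN : PolyN (fun _ => C) D ctx N) :
    PolyC (fun _ => C) D ctx (fun a => rta C M (z a) (N a)) := by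
  obtain ⟨pz, hpz⟩ := hz.length_le
  have h0 : PolyC (fun _ => C) D ctx (fun a => (List.range (N a)).map (fun k =>
      !((oc (qry (runN C k ([M], inp2 (z a) [])))).isEmpty) &&
        C ((oc (qry (runN C k ([M], inp2 (z a) [])))).tail))) := by
    refine PolyC.map_range hN (φ := fun p : α × ℕ =>
      !((oc (qry (runN C p.2 ([M], inp2 (z p.1) [])))).isEmpty) &&
        C ((oc (qry (runN C p.2 ([M], inp2 (z p.1) [])))).tail)) ?_
    have hk : PolyN (fun _ : α × ℕ => C) (fun p => D p.1 ∧ p.2 < N p.1)
      (PC.lift ctx ++ [fun p => una p.2]) (fun p => p.2) := PolyC.var (by simp)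
    have hz' : PolyC (fun _ : α × ℕ => C) (fun p => D p.1 ∧ p.2 < N p.1)
      (PC.lift ctx ++ [fun p => una p.2]) (fun p => z p.1) :=
        (hz.lift (fun p hp => hp.1)).weakenRight _
    have h1 : PolyC (fun _ : α × ℕ => C) (fun p => D p.1 ∧ p.2 < N p.1)
        (PC.lift ctx ++ [fun p => una p.2]) (fun p => PC.enc M (M.bnd + 1)
          (PC.runT (fun _ => C) p.2 ([M], inp2 (z p.1) []))) := by
      obtain ⟨pz', hpz'⟩ := hz'.length_le
      refine PolyC.runT (orc := fun _ : α × ℕ => C) M (M.bnd + 1) (by omega)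
        (fun _ _ => C) (fun p => inp2 (z p.1) []) (fun p => p.2) ?_ ?_ hk ⟨pz', ?_⟩
      · exact PolyC.query (PolyC.var (by simp))
      · intro r _
        rcases r with _ | _ | r
        · exact hz'.congr (fun a _ => by simp [inp2])
        · exact PolyC.nil.congr (fun a _ => by simp [inp2])
        · exact PolyC.nil.congr (fun a _ => by simp [inp2])
      · intro a ha
        refine (Pa76659.inp2_bdd (z a.1) []).mono ?_
        have h2 := hpz' a ha
        simpa using h2
    have h2 : PolyC (fun _ : α × ℕ => C) (fun p => D p.1 ∧ p.2 < N p.1)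
        (PC.lift ctx ++ [fun p => una p.2])
        (fun p => oc (PC.qry (PC.runT (fun _ => C) p.2 ([M], inp2 (z p.1) [])))) :=
      PolyC.qry' (α := α × ℕ) (orc := fun _ => C) (D := fun p => D p.1 ∧ p.2 < N p.1)
        (ctx := PC.lift ctx ++ [fun p => una p.2]) M
        (fun p => PC.runT (fun _ => C) p.2 ([M], inp2 (z p.1) [])) h1
        (fun p _ => runT_KK _ _ _)
    have h3 : PolyC (fun _ : α × ℕ => C) (fun p => D p.1 ∧ p.2 < N p.1)
        (PC.lift ctx ++ [fun p => una p.2])
        (fun p => oc (PC.qry (runN C p.2 ([M], inp2 (z p.1) [])))) :=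
      h2.congr (fun p _ => by rw [runT_const])
    exact (PolyB.isNil h3).not.and (PolyC.query h3.tail)
  refine h0.congr (fun a _ => ?_)
  unfold rta trueAns
  apply List.map_congr_left
  intro k _
  rcases hq : qry (runN C k ([M], inp2 (z a) [])) with _ | u
  · simp [oc]
  · simp [oc]

open Classical in
/-- the answers which are smaller than some supported answers -/
noncomputable def bigL (M : Prog) (t : Polynomial ℕ) (C : Lang) : Lang := fun v =>
  decide (frm t v = true ∧ ∃ c : Str, c.length = t.eval (fst v).length ∧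
    Sup C M (fst v) (t.eval (fst v).length) c ∧ lexLt (snd v) c)

theorem bigL_iff (M : Prog) (t : Polynomial ℕ) (C : Lang) (v : Str) : bigL M t C v = true ↔
    frm t v = true ∧ ∃ c : Str, c.length = t.eval (fst v).length ∧
      Sup C M (fst v) (t.eval (fst v).length) c ∧ lexLt (snd v) c := by
  simp only [bigL, decide_eq_true_eq]

theorem bigL_mem {X C : Lang} (hC : C ∈ NPO X) (M : Prog) (t : Polynomial ℕ) :
    bigL M t C ∈ NPO X := by
  have hx : PolyC (fun _ : Str => X) (fun _ => True) [fun x => x] (fun x => x) :=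
    PolyC.var (by simp)
  have e1 : (fun v => frm t (fst v)) ∈ NPO X :=
    PO_subset_NPO X (mem_PO (frm_poly t (PolyC.fst hx)))
  have e2 : (fun v => lexC (snd (fst v)) (snd v)) ∈ NPO X :=
    PO_subset_NPO X (mem_PO (lexC_poly (PolyC.snd (PolyC.fst hx)) (PolyC.snd hx)))
  have e3 := NPO_comp (supL_mem hC M t) (PolyC.pr (PolyC.fst (PolyC.fst hx)) (PolyC.snd hx))
  refine T3.NPO_ex (T3.NPO_and e1 (T3.NPO_and e2 e3)) t (fun v => ?_)
  rw [bigL_iff]
  simp only [Bool.and_eq_true, fst_pr, snd_pr, supL_iff, lexC, decide_eq_true_eq]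
  constructor
  · rintro ⟨h1, c, h2, h3, h4⟩
    exact ⟨c, by rw [h2]; exact eval_mono t (fst_length_le v), h1, h4, h2, h3⟩
  · rintro ⟨c, -, h1, h4, h2, h3⟩
    exact ⟨h1, c, h2, h3, h4⟩

theorem sup_le {B : Lang} {M : Prog} {z : Str} {N : ℕ} {c a : Str} (hN : c.length = N)
    (h : Sup B M z N c) (hl : lexLt a c) : lexLt a (rta B M z N) := by
  rcases sup_cases h with h1 | h1
  · refine (lexLt_congr fun k => ?_).1 hl
    by_cases hk : k < N
    · exact h1 k hk
    · rw [List.getD_eq_default _ _ (by omega), List.getD_eq_default _ _ (by rw [rta_length]; omega)]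
  · exact lexLt_trans hl h1.1

theorem bigL_iff' (M : Prog) (t : Polynomial ℕ) (C : Lang) (n : ℕ) (a : Str)
    (ha : a.length = t.eval n) : bigL M t C (pr (on1 n) a) = true ↔
      lexLt a (rta C M (on1 n) (t.eval n)) := by
  rw [bigL_iff, frm_iff, fst_pr, snd_pr, on1_eq, PC.un_length]
  constructor
  · rintro ⟨-, c, h1, h2, h3⟩
    exact sup_le h1 h2 h3
  · intro h
    exact ⟨⟨n, a, rfl, ha⟩, _, rta_length _ _ _ _, rta_sup _ _ _ _, h⟩

open Classical in
/-- the bits of the right answers for the length of a code -/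
noncomputable def wad (M : Prog) (t : Polynomial ℕ) (C : Lang) : Lang := fun v =>
  !(decide (∀ n < (fst v).length + 1, (!(decide (cl t n = (fst v).length) &&
    (rta C M (on1 n) (t.eval n)).getD (snd v).length false)) = true))

theorem wad_mem (M : Prog) (t : Polynomial ℕ) (C : Lang) : wad M t C ∈ PO C := by
  refine mem_PO (PolyB.not ?_)
  have hv : PolyC (fun _ : Str => C) (fun _ => True) [fun x => x] (fun x => x) :=
    PolyC.var (by simp)
  refine PolyB.forall_lt (φ := fun q : Str × ℕ => !(decide (cl t q.2 = (fst q.1).length) &&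
    (rta C M (on1 q.2) (t.eval q.2)).getD (snd q.1).length false))
    (PolyN.length (PolyC.fst hv)).succ ?_
  have hk : PolyN (fun _ : Str × ℕ => C) (fun p => True ∧ p.2 < (fst p.1).length + 1)
    (PC.lift [fun x : Str => x] ++ [fun p => una p.2]) (fun p => p.2) := PolyC.var (by simp)
  have hv' : PolyC (fun _ : Str × ℕ => C) (fun p => True ∧ p.2 < (fst p.1).length + 1)
    (PC.lift [fun x : Str => x] ++ [fun p => una p.2]) (fun p => p.1) :=
      (hv.lift (fun p hp => hp.1)).weakenRight _
  have h1 : PolyN (fun _ : Str × ℕ => C) (fun p => True ∧ p.2 < (fst p.1).length + 1)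
    (PC.lift [fun x : Str => x] ++ [fun p => una p.2]) (fun p => cl t p.2) := by
    have := hk.poly (2 * Polynomial.X + 1 + t)
    refine this.congr (fun p _ => ?_)
    simp [cl]
  have h2 : PolyC (fun _ : Str × ℕ => C) (fun p => True ∧ p.2 < (fst p.1).length + 1)
    (PC.lift [fun x : Str => x] ++ [fun p => una p.2]) (fun p => on1 p.2) := hk
  exact ((PolyB.natEq h1 (PolyN.length (PolyC.fst hv'))).and
    (PolyB.getD (rta_poly M h2 (hk.poly t)) (PolyN.length (PolyC.snd hv')))).not

theorem wad_iff (M : Prog) (t : Polynomial ℕ) (C : Lang) (n i : ℕ) :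
    wad M t C (pr (on1 (cl t n)) (on1 i)) = (rta C M (on1 n) (t.eval n)).getD i false := by
  unfold wad
  rw [Bool.eq_iff_iff, fst_pr, snd_pr, on1_eq (cl t n), on1_eq i, PC.un_length, PC.un_length]
  simp only [Bool.not_eq_true', decide_eq_false_iff_not, not_forall, Bool.not_eq_false,
    Bool.and_eq_true, decide_eq_true_eq, exists_prop]
  constructor
  · rintro ⟨m, -, h1, h2⟩
    rw [← cl_inj h1]
    exact h2
  · intro h
    refine ⟨n, ?_, rfl, h⟩
    unfold cl
    omega

theorem bigL_adv {X C : Lang} (hC : C ∈ NPO X) (M : Prog) (t : Polynomial ℕ) :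
    (fun v => !(bigL M t C v)) ∈ NPAdv X 1 := by
  have hx : PolyC (fun _ : Str => X) (fun _ => True) [fun x => x] (fun x => x) :=
    PolyC.var (by simp)
  refine ⟨fun z => !(frm t (fst z)) || !(lexC (snd (fst z)) (snd z)), ?_, wad M t C,
    ⟨C, ⟨X, query_mem X, hC⟩, wad_mem M t C⟩, Polynomial.X, fun v => ?_⟩
  · exact PO_subset_NPO X (mem_PO ((frm_poly t (PolyC.fst hx)).not.or
      (lexC_poly (PolyC.snd (PolyC.fst hx)) (PolyC.snd hx)).not))
  · simp only [fst_pr, snd_pr]
    rcases hf : frm t v with _ | _
    · have h1 : bigL M t C v = false := by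
        rw [← Bool.not_eq_true, bigL_iff, hf]
        simp
      rw [h1]
      rfl
    · obtain ⟨n, a, rfl, ha⟩ := frm_iff.1 hf
      rw [snd_pr]
      have hl : (pr (on1 n) a).length = cl t n := by
        rw [pr_length, on1_eq, PC.un_length, ha]
        rfl
      have h1 : lexLt a (rta C M (on1 n) (t.eval n)) ↔
          lexLt a (advStr (wad M t C) Polynomial.X (pr (on1 n) a).length) := by
        refine lexLt_congr fun k => ?_
        rw [hl]
        by_cases hk : k < cl t n
        · rw [List.getD_eq_getElem (advStr _ _ _) _ (by rw [advStr_length, Polynomial.eval_X]; exact hk)]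
          simp only [advStr, List.getElem_map, List.getElem_range]
          rw [wad_iff]
        · rw [List.getD_eq_default (advStr _ _ _) _
            (by rw [advStr_length, Polynomial.eval_X]; omega), List.getD_eq_default]
          rw [rta_length]
          unfold cl at hk
          omega
      simp only [Bool.not_true, Bool.false_or]
      congr 1
      rw [Bool.eq_iff_iff, bigL_iff' M t C n a ha, h1]
      simp only [lexC, decide_eq_true_eq]

/-- If `L_1 = \hat L_2` then every tally set in `P^NP` is in `NP`. -/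
theorem u1 {X : Lang} (h : RLowSucc X 1 ⊆ Low X 1) {T : Lang} (hT : T ∈ DelSucc X 1) :
    (fun x : Str => T (on1 x.length)) ∈ NPO X := by
  obtain ⟨C, ⟨B, hB, hC⟩, hTC⟩ := hT
  have hC := NPO_subset hB hC
  obtain ⟨⟨M, t⟩, rfl⟩ := exists_pEval hTC
  have h1 : bigL M t C ∈ RLowSucc X 1 := rlow_of_adv (k := 0) (bigL_mem hC M t) (bigL_adv hC M t)
  have h2 := (low1_iff.1 (h h1)).2
  have hx : PolyC (fun _ : Str => X) (fun _ => True) [fun x => x] (fun x => x) :=
    PolyC.var (by simp)
  have ho : PolyC (fun _ : Str => X) (fun _ => True) [fun x => x]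
    (fun x => on1 (fst x).length) := PolyN.length (PolyC.fst hx)
  have e1 := NPO_comp (supL_mem hC M t) (PolyC.pr ho (PolyC.snd hx))
  have e2 := NPO_comp h2 (PolyC.pr ho (PolyC.snd hx))
  have e3 : (fun v : Str => top (cf M (on1 (fst v).length) [] (snd v) (t.eval (fst v).length))) ∈
      NPO X := by
    refine PO_subset_NPO X (mem_PO ?_)
    have h3 := PolyC.cf M ho (PolyC.nil (orc := fun _ : Str => X) (D := fun _ => True)
      (ctx := [fun x => x])) (PolyC.snd hx) ((PolyN.length (PolyC.fst hx)).poly t)
    refine (PolyB.headD (PolyC.nth (PolyC.snd h3) (PolyN.const 0))).congr ?_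
    intro a _
    rw [enc_reg _ _ _ (by omega), top]
    rcases (PC.cf M (on1 (fst a).length) [] (snd a) (t.eval (fst a).length)).2 0 with _ | ⟨c, l⟩
    · rfl
    · cases c <;> rfl
  refine T3.NPO_ex (T3.NPO_and e1 (T3.NPO_and e2 e3)) t (fun x => ?_)
  simp only [Bool.and_eq_true, fst_pr, snd_pr, supL_iff, on1_eq, PC.un_length,
    Bool.not_eq_true']
  have htop : ∀ c : Str, c.length = t.eval x.length → Sup C M (una x.length) (t.eval x.length) c →
      (bigL M t C (pr (on1 x.length) c) = false) →
        pEval (M, t) C (una x.length) = top (cf M (una x.length) [] c (t.eval x.length)) := by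
    intro c h3 h4 h5
    have h6 := pEval_top (B := C) (p2 := (M, t)) (z := una x.length) (c := c) (by
      simp only [PC.un_length]
      rcases sup_cases h4 with h7 | h7
      · exact h7
      · exfalso
        rw [← Bool.not_eq_true, bigL_iff' M t C _ c h3] at h5
        exact h5 h7.1)
    simp only [PC.un_length] at h6
    exact h6
  constructor
  · intro h3
    refine ⟨rta C M (una x.length) (t.eval x.length), (rta_length _ _ _ _).le,
      ⟨rta_length _ _ _ _, rta_sup _ _ _ _⟩, ?_, ?_⟩
    · rw [← Bool.not_eq_true, ← on1_eq, bigL_iff' M t C _ _ (rta_length _ _ _ _)]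
      rintro ⟨k, -, h4, h5⟩
      rw [h4] at h5
      exact absurd h5 (by simp)
    · rw [← htop _ (rta_length _ _ _ _) (rta_sup _ _ _ _)]
      · exact h3
      · rw [← Bool.not_eq_true, ← on1_eq, bigL_iff' M t C _ _ (rta_length _ _ _ _)]
        rintro ⟨k, -, h4, h5⟩
        rw [h4] at h5
        exact absurd h5 (by simp)
  · rintro ⟨c, -, ⟨h3, h4⟩, h5, h6⟩
    rw [htop c h3 h4 h5]
    exact h6

end Uo

end Pool.Agent.Lib.Pa76659G
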