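import Pool.Agent.Lib.Pa76659G.UoA
import Pool.Agent.Lib.Pa76659G.T3Mem
import Pool.Agent.Lib.Pa76659G.Low1

set_option autoImplicit false

/-!
If `L_2 = \hat L_3` then the tally sets defined by the existence of an exception of a set in `NP`
with at most one exception of each length are in `Π_2`. If `L_1 = L_2` then the graph of every unary
function with a graph in `coNP` is in `NP`.
-/

namespace Pool.Agent.Lib.Pa76659G

open Pool.Agent.Lib.Pa76659 PC

namespace Uo

open Classical in
/-- all strings of the length of `s` are in `D` -/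
noncomputable def allIn (D : Lang) : Lang := fun s =>
  decide (∀ v : Str, v.length = s.length → D v = true)

theorem allIn_iff (D : Lang) (s : Str) :
    allIn D s = true ↔ ∀ v : Str, v.length = s.length → D v = true := by
  simp only [allIn, decide_eq_true_eq]

/-- the complement is in `NP` -/
theorem allIn_not_mem {D : Lang} : (fun s => !(allIn D s)) ∈ NPO D := by
  have hv : PolyC (fun _ : Str × Str => D) (fun _ => True) [fun p => p.1, fun p => p.2]
    (fun p => p.2) := PolyC.var (by simp)
  have h1 : PolyB (fun _ : Str × Str => D) (fun _ => True) [fun p => p.1, fun p => p.2]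
    (fun p => D p.2) := PolyC.query hv
  refine mem_NPO Polynomial.X h1.not (fun s => ?_)
  rw [Bool.not_eq_true', ← Bool.not_eq_true, allIn_iff]
  push Not
  simp only [Polynomial.eval_X, Bool.not_eq_true', Bool.not_eq_true]

theorem sig_two_of_co {O L : Lang} (h : (fun s => !(L s)) ∈ NPO O) : L ∈ Sig O 2 := by
  refine ⟨fun s => !(L s), ⟨O, query_mem O, h⟩, ?_⟩
  have hs : PolyC (fun _ : Str => fun s => !(L s)) (fun _ => True) [fun x => x] (fun x => x) :=
    PolyC.var (by simp)
  have h1 : PolyB (fun _ : Str => fun s => !(L s)) (fun _ => True) [fun x => x]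
    (fun s => !(L s)) := PolyC.query hs
  refine PO_subset_NPO _ (mem_PO (h1.not.congr fun s _ => ?_))
  simp

/-- If `L_2 = \hat L_3` then `there is an exception of this length` is in `Π_2`. -/
theorem u3 {X D : Lang} (h : RLowSucc X 2 ⊆ Low X 2) (hD : D ∈ NPO X)
    (h1 : ∀ x y : Str, x.length = y.length → D x = false → D y = false → x = y) :
    allIn D ∈ Sig X 2 := by
  have h2 := (h (rlow_of_exc hD h1)).2
  refine h2 (sig_two_of_co ?_)
  exact NPO_subset (right_mem X D) allIn_not_mem

/-- If `L_1 = L_2` then unary functions with a graph in `coNP` have a graph in `NP`. -/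
theorem u12 {X : Lang} (h2 : Low X 2 ⊆ Low X 1) {q r : Polynomial ℕ}
    {R : Str × Str → Bool} {u : ℕ → Str}
    (hR : PolyB (fun _ : Str × Str => X) (fun _ => True) [fun p => p.1, fun p => p.2] R)
    (h : Unq q r R u) : (fun z => !(UA q r R z)) ∈ NPO X := by
  have hA := UA_mem (q := q) (r := r) hR
  exact (low1_iff.1 (h2 ⟨hA, chk_low hA (UA_chk hR h)⟩)).2

end Uo

end Pool.Agent.Lib.Pa76659G
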