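import Pool.Agent.Lib.Pa76659G.UoG
import Pool.Agent.Lib.Pa76659G.UoU1
import Pool.Agent.Lib.Pa76659G.UoU3
import Pool.Agent.Lib.Pa76659G.UoT
import Pool.Agent.Lib.Pa76659G.UoFP
import Pool.Agent.Lib.Pa76659G.Circ6

set_option autoImplicit false

/-!
The price of an equality in the low hierarchy.
-/

namespace Pool.Agent.Lib.Pa76659G

open Pool.Agent.Lib.Pa76659 PC

namespace Uo

theorem sig_one {X B : Lang} (h : B ∈ Sig X 1) : B ∈ NPO X := by
  obtain ⟨C, hC, h⟩ := h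
  exact NPO_subset hC h

/-- unary functions with coNP graph -/
theorem graph_fp {X : Lang} (h2 : Low X 2 ⊆ RLowSucc X 1) (q : Polynomial ℕ) (u : ℕ → Str)
    (hl : ∀ n, (u n).length = q.eval n) {A : Lang} (hA : A ∈ NPO X)
    (h : ∀ n v, v.length = q.eval n → (A (pr (on1 n) v) = false ↔ v = u n)) :
    ∃ B ∈ NPO X, ∃ f ∈ FPO B, ∀ n, f (on1 n) = u n := by
  obtain ⟨W, hW, h1⟩ := graph_fun h2 q u hl hA h
  obtain ⟨B, hB, hf⟩ := FPO_of_adv hW q
  refine ⟨B, sig_one hB, _, hf, fun n => ?_⟩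
  show advStr W q (on1 n).length = u n
  rw [on1_eq, PC.un_length, h1]

/-- range avoidance -/
theorem avoid_fp {X : Lang} (h2 : Low X 2 ⊆ RLowSucc X 1) {F : Str → Str} (hFP : F ∈ FPO X)
    (hF : ∀ x, (F x).length = x.length + 1) :
    ∃ B ∈ NPO X, ∃ f ∈ FPO B, ∀ n, (f (on1 n)).length = n + 1 ∧
      ∀ x : Str, x.length = n → F x ≠ f (on1 n) := by
  obtain ⟨W, hW, h1⟩ := avoid h2 hF (polyC_of_FPO hFP)
  obtain ⟨B, hB, hf⟩ := FPO_of_adv hW (Polynomial.X + 1)
  refine ⟨B, sig_one hB, _, hf, fun n => ?_⟩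
  have e : (on1 n).length = n := by rw [on1_eq, PC.un_length]
  refine ⟨?_, fun x hx => ?_⟩
  · show (advStr W (Polynomial.X + 1) (on1 n).length).length = n + 1
    rw [advStr_length, e]
    simp
  · show F x ≠ advStr W (Polynomial.X + 1) (on1 n).length
    rw [e]
    exact h1 n x hx

/-- the top of the living strings -/
theorem top_fp {X : Lang} (h3 : Low X 3 ⊆ RLowSucc X 2) {T V : Lang} (hT : T ∈ NPO X)
    (hV : V ∈ NPO X) (hTot : Tot T) : ∃ B ∈ Sig X 2, ∃ f ∈ FPO B, ∀ n : ℕ,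
      ((∀ x : Str, x.length = n → Dead T V x) ∧ f (on1 n) = []) ∨
      ∃ h : Str, h.length = n ∧ Top T V h ∧ f (on1 n) = true :: h := by
  obtain ⟨W, ⟨B, hB, hW⟩, h1⟩ := UoT.top_adv h3 hT hV hTot
  have hw : PolyC (fun _ : Str => B) (fun _ => True) [fun x => x]
      (fun x => advStr W (Polynomial.X + 1) x.length) :=
    PolyC.advStr hW _ (PolyN.length (PolyC.var (by simp)))
  have hf : PolyC (fun _ : Str => B) (fun _ => True) [fun x => x]
      (fun x => if (advStr W (Polynomial.X + 1) x.length).headD false then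
        advStr W (Polynomial.X + 1) x.length else []) :=
    PolyC.ite (PolyB.headD hw) (hw.mono fun _ h => h.1) PolyC.nil
  refine ⟨B, hB, _, FPO_of_polyC hf, fun n => ?_⟩
  have e : (on1 n).length = n := by rw [on1_eq, PC.un_length]
  rcases h1 n with ⟨h2, h4⟩ | ⟨h, h2, h4, h5⟩
  · left
    refine ⟨h2, ?_⟩
    show (if (advStr W (Polynomial.X + 1) (on1 n).length).headD false then
      advStr W (Polynomial.X + 1) (on1 n).length else []) = []
    rw [e, h4]
    rfl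
  · right
    refine ⟨h, h2, h4, ?_⟩
    show (if (advStr W (Polynomial.X + 1) (on1 n).length).headD false then
      advStr W (Polynomial.X + 1) (on1 n).length else []) = true :: h
    rw [e, h5]
    rfl

end Uo

/-- consequences of the equalities at `k = 2` in the low hierarchy -/
theorem cost_two (X : Lang) :
    (Low X 1 = RLowSucc X 1 → ∀ T ∈ DelSucc X 1, (fun x => T (on1 x.length)) ∈ NPO X) ∧
    (RLowSucc X 1 = Low X 2 →
      (∀ (q : Polynomial ℕ) (u : ℕ → Str), (∀ n, (u n).length = q.eval n) →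
        (∃ A ∈ NPO X, ∀ (n : ℕ) (v : Str), v.length = q.eval n →
          (A (pr (on1 n) v) = false ↔ v = u n)) →
        ∃ B ∈ NPO X, ∃ f ∈ FPO B, ∀ n, f (on1 n) = u n) ∧
      (∀ F ∈ FPO X, (∀ x, (F x).length = x.length + 1) →
        ∃ B ∈ NPO X, ∃ f ∈ FPO B, ∀ n, (f (on1 n)).length = n + 1 ∧
          ∀ x : Str, x.length = n → F x ≠ f (on1 n)) ∧
      ∃ L ∈ ENP X, ∀ (n : ℕ) (C : List Gate), (∀ x : Str, x.length = n → cval C x = L x) →
        2 ^ n ≤ (2 * n + 2) * (C.length + 1)) ∧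
    (Low X 1 = Low X 2 → ∃ L ∈ NEO X, (fun x => !(L x)) ∈ NEO X ∧
      ∀ (n : ℕ) (C : List Gate), (∀ x : Str, x.length = n → cval C x = L x) →
        2 ^ n ≤ (2 * n + 2) * (C.length + 1)) := by
  refine ⟨fun h T hT => Uo.u1 h.symm.subset hT, fun h => ⟨?_, ?_, ?_⟩, fun h => ?_⟩
  · rintro q u hl ⟨A, hA, hu⟩
    exact Uo.graph_fp h.symm.subset q u hl hA hu
  · intro F hFP hF
    exact Uo.avoid_fp h.symm.subset hFP hF
  · exact Circ.circ_ENP h.symm.subset
  · have h1 : Low X 2 ⊆ RLowSucc X 1 := h.symm.subset.trans low_rlow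
    have h2 : RLowSucc X 1 ⊆ Low X 1 := rlow_low.trans h.symm.subset
    exact Circ.circ_NE h1 fun T hT => Uo.u1 h2 hT

/-- consequences of the equalities at `k = 3` in the low hierarchy -/
theorem cost_three (X : Lang) :
    (Low X 2 = RLowSucc X 2 → ∀ D ∈ NPO X,
      (∀ x y : Str, x.length = y.length → D x = false → D y = false → x = y) →
      ∃ B ∈ Sig X 2, ∀ x : Str, B x = true ↔ ∀ v : Str, v.length = x.length → D v = true) ∧
    (RLowSucc X 2 = Low X 3 → ∀ T ∈ NPO X, ∀ V ∈ NPO X, Tot T →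
      ∃ B ∈ Sig X 2, ∃ f ∈ FPO B, ∀ n : ℕ,
        ((∀ x : Str, x.length = n → Dead T V x) ∧ f (on1 n) = []) ∨
        ∃ h : Str, h.length = n ∧ Top T V h ∧ f (on1 n) = true :: h) :=
  ⟨fun h D hD h1 => ⟨Uo.allIn D, Uo.u3 h.symm.subset hD h1, Uo.allIn_iff D⟩,
    fun h _ hT _ hV hTot => Uo.top_fp h.symm.subset hT hV hTot⟩

end Pool.Agent.Lib.Pa76659G
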