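import Pool.Agent.Lib.Pa76659G.UoF

set_option autoImplicit false

/-!
Consequences of `\hat L_2 = L_2`: unary functions with a coNP graph, range avoidance.
-/

namespace Pool.Agent.Lib.Pa76659G

open Pool.Agent.Lib.Pa76659 PC

namespace Uo

/-- Unary functions with a coNP graph are in `FP^NP`. -/
theorem graph_fun {X : Lang} (h2 : Low X 2 ⊆ RLowSucc X 1) (q : Polynomial ℕ) (u : ℕ → Str)
    (hl : ∀ n, (u n).length = q.eval n) {A : Lang} (hA : A ∈ NPO X)
    (h : ∀ n v, v.length = q.eval n → (A (pr (on1 n) v) = false ↔ v = u n)) :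
    ∃ W ∈ DelSucc X 1, ∀ n, advStr W q n = u n := by
  obtain ⟨V, qq, hV, hL⟩ := exists_of_NPO hA
  refine unique_obj h2 (q := q) (r := qq.comp (2 * Polynomial.X + 1 + q)) (u := u) hV.not
    ⟨hl, fun n v hv => ?_⟩
  rw [← h n v hv, ← Bool.not_eq_true, hL]
  have e : (qq.comp (2 * Polynomial.X + 1 + q)).eval n = qq.eval (pr (on1 n) v).length := by
    rw [pr_length, on1_eq, PC.un_length, hv]
    simp
  rw [e]
  constructor
  · rintro h1 ⟨y, h3, h4⟩
    have h5 : (!(V (pr (on1 n) v, y))) = true := h1 y h3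
    rw [h4] at h5
    exact absurd h5 (by simp)
  · intro h1 y hy
    show (!(V (pr (on1 n) v, y))) = true
    rw [Bool.not_eq_true', ← Bool.not_eq_true]
    intro h3
    exact h1 ⟨y, hy, h3⟩

/-- Range avoidance, for a function with bits in `P`. -/
theorem avoid_bits {X : Lang} (h2 : Low X 2 ⊆ RLowSucc X 1) {F : Str → Str}
    (hF : ∀ x, (F x).length = x.length + 1) {L : Lang} (hL : L ∈ PO X)
    (h : ∀ x i, i < x.length + 1 → (F x).getD i false = L (pr x (on1 i))) :
    ∃ W ∈ DelSucc X 1, ∀ x : Str, F x ≠ advStr W (Polynomial.X + 1) x.length := by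
  have hx : PolyC (fun _ : Str => X) (fun _ => True) [fun x => x] (fun x => x) :=
    PolyC.var (by simp)
  have h1 : PolyC (fun _ : Str => X) (fun _ => True) [fun x => x]
      (fun x => (List.range (x.length + 1)).map (fun i => L (pr x (una i)))) := by
    refine PolyC.map_range (φ := fun p : Str × ℕ => L (pr p.1 (una p.2))) (PolyN.length hx).succ ?_
    refine polyB_of_PO hL (PolyC.pr ?_ (PolyC.var (by simp)))
    exact (PolyC.lift hx (D' := fun p : Str × ℕ => True ∧ p.2 < p.1.length + 1)
      (fun p hp => hp.1)).weakenRight _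
  have hP : PolyC (fun _ : Str => X) (fun _ => True) [fun x => x] F := by
    refine h1.congr (fun x _ => ?_)
    apply List.ext_getElem
    · rw [List.length_map, List.length_range, hF]
    · intro i hi1 hi2
      rw [List.getElem_map, List.getElem_range, ← List.getD_eq_getElem _ false hi2,
        h x i (by rw [← hF]; exact hi2)]
      rfl
  obtain ⟨W, hW, h3⟩ := avoid h2 hF hP
  exact ⟨W, hW, fun x => h3 x.length x rfl⟩

end Uo

end Pool.Agent.Lib.Pa76659G
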