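import Pool.Agent.Lib.Pa76659G.UoH2
import Pool.Agent.Lib.Pa76659G.Search

set_option autoImplicit false

/-!
Consequences of `H_1 = \hat H_1`: functions in `FP^NP`.
-/

namespace Pool.Agent.Lib.Pa76659G

open Pool.Agent.Lib.Pa76659 PC
open Pool.Agent.Lib.Pa76659H (High RHighSucc TComp)

namespace Hi

section
variable {X V : Lang} {q : Polynomial ℕ} {k : ℕ}

/-- the bits of the values of a function -/
def LG (G : Str → Str) : Lang := fun z => (pr (G (fst z)) []).getD (snd z).length false

/-- the string of the bits, followed by `false`s -/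
theorem fst_pad (w : Str) : ∀ N : ℕ, 2 * w.length ≤ N →
    fst ((List.range N).map (fun i => (pr w []).getD i false)) = w := by
  induction w with
  | nil =>
    intro N _
    rcases N with _ | N
    · rfl
    · rw [List.range_succ_eq_map]
      rfl
  | cons c w ih =>
    intro N hN
    rw [List.length_cons] at hN
    obtain ⟨N', rfl⟩ : ∃ N', N = N' + 2 := ⟨N - 2, by omega⟩
    have h1 : (List.range (N' + 2)).map (fun i => (pr (c :: w) []).getD i false) =
        true :: c :: (List.range N').map (fun i => (pr w []).getD i false) := by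
      rw [List.range_succ_eq_map, List.map_cons, List.range_succ_eq_map, List.map_cons,
        List.map_cons, List.map_map, List.map_map]
      rfl
    rw [h1, fst_cons, ih N' (by omega)]

/-- the function version of the win-win algorithm -/
def FF (f : Str → Str) (N : ℕ) (x : Str) : Str :=
  if (GG (fun i => if (f (pr x (on1 i))).headD false = true then f (pr x (on1 i)) else []) N).isEmpty
    = true
  then false :: fst ((List.range N).map (fun i => (f (pr x (on1 i))).tail.headD false))
  else GG (fun i => if (f (pr x (on1 i))).headD false = true then f (pr x (on1 i)) else []) N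

theorem FF_spec {f G : Str → Str} {N : ℕ} {x : Str}
    (hf : ∀ z, f z = [false, LG G z] ∨ ∃ w, f z = true :: w ∧ Sol V q k z.length w)
    (hN : 2 * (G x).length ≤ N) :
    FF f N x = false :: G x ∨ ∃ w, FF f N x = true :: w ∧ Sol V q k x.length w := by
  unfold FF
  set c : ℕ → Str := fun i => if (f (pr x (on1 i))).headD false = true then f (pr x (on1 i)) else []
    with hc
  by_cases h : GG c N = []
  · left
    rw [if_pos (by rw [h]; rfl)]
    have h1 := GG_nil h
    have h2 : (List.range N).map (fun i => (f (pr x (on1 i))).tail.headD false) =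
        (List.range N).map (fun i => (pr (G x) []).getD i false) := by
      refine List.map_congr_left (fun i hi => ?_)
      rw [List.mem_range] at hi
      have h3 := h1 i hi
      rcases hf (pr x (on1 i)) with h4 | ⟨w, h4, -⟩
      · rw [h4]
        show LG G (pr x (on1 i)) = _
        unfold LG
        rw [fst_pr, snd_pr, on1_eq, PC.un_length]
      · rw [hc] at h3
        simp only [h4, List.headD_cons] at h3
        exact absurd h3 (by simp)
    rw [h2, fst_pad _ _ hN]
  · right
    rw [if_neg (by rwa [List.isEmpty_iff])]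
    obtain ⟨i, hi, he⟩ := GG_ne h
    rw [he]
    have h5 : c i ≠ [] := by rw [← he]; exact h
    rw [hc] at h5 ⊢
    simp only at h5 ⊢
    rcases hf (pr x (on1 i)) with h4 | ⟨w, h4, h6⟩
    · rw [h4, List.headD_cons, if_neg (by simp)] at h5
      exact absurd rfl h5
    · rw [h4, List.headD_cons, if_pos rfl]
      refine ⟨w, rfl, h6.mono ?_⟩
      rw [pr_length]
      omega

theorem FF_poly {f : Str → Str} (hf : PolyC (fun _ : Str => X) (fun _ => True) [fun x => x] f)
    (N : Polynomial ℕ) :
    PolyC (fun _ : Str => X) (fun _ => True) [fun x => x] (fun x : Str => FF f (N.eval x.length) x) := by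
  have hx : PolyC (fun _ : Str => X) (fun _ => True) [fun x => x] (fun x => x) :=
    PolyC.var (by simp)
  have hn := (PolyN.length hx).poly N
  set ctx' : List (Str × ℕ → Str) := PC.lift [fun x : Str => x] ++ [fun p => una p.2] with hctx'
  have hx' : PolyC (fun _ : Str × ℕ => X) (fun p => True ∧ p.2 < N.eval p.1.length) ctx'
    (fun p => p.1) := PolyC.var (by simp [hctx', PC.lift])
  have hk : PolyC (fun _ : Str × ℕ => X) (fun p => True ∧ p.2 < N.eval p.1.length) ctx'
    (fun p => on1 p.2) := PolyC.var (by simp [hctx', on1_eq])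
  have hfp : PolyC (fun _ : Str × ℕ => X) (fun p => True ∧ p.2 < N.eval p.1.length) ctx'
    (fun p => f (pr p.1 (on1 p.2))) := PolyC.arg hf (PolyC.pr hx' hk)
  have hG : PolyC (fun _ : Str => X) (fun _ => True) [fun x => x] (fun x : Str =>
      GG (fun i => if (f (pr x (on1 i))).headD false = true then f (pr x (on1 i)) else [])
        (N.eval x.length)) := by
    refine GG_poly (c := fun p : Str × ℕ => if (f (pr p.1 (on1 p.2))).headD false = true then
      f (pr p.1 (on1 p.2)) else []) hn ?_
    exact PolyC.ite (PolyB.headD hfp) (hfp.mono fun _ h => h.1) PolyC.nil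
  have hm : PolyC (fun _ : Str => X) (fun _ => True) [fun x => x] (fun x : Str =>
      (List.range (N.eval x.length)).map (fun i => (f (pr x (on1 i))).tail.headD false)) :=
    PolyC.map_range (φ := fun p : Str × ℕ => (f (pr p.1 (on1 p.2))).tail.headD false) hn
      (PolyB.headD hfp.tail)
  exact PolyC.ite (PolyB.isNil hG) (((PolyC.fst hm).cons false).mono fun _ h => h.1)
    (hG.mono fun _ h => h.1)

/-- Functions in `FP^NP`: either the value or a long solution. -/
theorem win_fun (h : High X 1 ⊆ RHighSucc X 0) (hV : V ∈ PO X)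
    (tot : ∀ n, ∃ y : Str, y.length = q.eval n ∧ V (pr (on1 n) y) = true) (k : ℕ) {B : Lang}
    (hB : B ∈ NPO X) {G : Str → Str} (hG : G ∈ FPO B) : ∃ F ∈ FPO X,
      ∀ x, F x = false :: G x ∨ ∃ w, F x = true :: w ∧ Sol V q k x.length w := by
  have hG' := Uo.polyC_of_FPO hG
  obtain ⟨pG, hpG⟩ := hG'.length_le
  have hL : LG G ∈ DelSucc X 1 := by
    refine ⟨B, ⟨X, query_mem X, hB⟩, mem_PO ?_⟩
    have hx : PolyC (fun _ : Str => B) (fun _ => True) [fun x => x] (fun x => x) :=
      PolyC.var (by simp)
    exact PolyB.getD (PolyC.pr (PolyC.arg hG' (PolyC.fst hx)) PolyC.nil)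
      (PolyN.length (PolyC.snd hx))
  obtain ⟨f, h1, h2⟩ := win_win h hV tot k hL
  refine ⟨_, Uo.FPO_of_polyC (FF_poly h1 (2 * pG)), fun x => FF_spec h2 ?_⟩
  have h3 := hpG x trivial
  simp only [vals_cons, vals_nil, total_cons, total_nil, Nat.add_zero] at h3
  rw [Polynomial.eval_mul, Polynomial.eval_ofNat]
  omega

/-- Total unary search problems. -/
theorem find_fun (h : High X 1 ⊆ RHighSucc X 0) (hV : V ∈ PO X)
    (tot : ∀ n, ∃ y : Str, y.length = q.eval n ∧ V (pr (on1 n) y) = true) (k : ℕ) :
    ∃ F ∈ FPO X, ∀ x, Sol V q k x.length (F x) := h1_find h hV tot k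

end

end Hi

end Pool.Agent.Lib.Pa76659G
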