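import Pool.Agent.Lib.Pa76659.Defs

/-!
Functions which are computable in polynomial time with an oracle.
-/

set_option autoImplicit false

namespace Pool.Agent.Lib.Pa76659G

open Pool.Agent.Lib.Pa76659

/-- `FP(O)`: the functions computed in polynomial time with oracle `O`; the input and the output are
in register `0`. -/
def FPO (O : Lang) : Set (Str → Str) :=
  {F | ∃ (M : Prog) (p : Polynomial ℕ), ∀ x : Str, Halts O M (inp x) (p.eval x.length) ∧
    (runN O (p.eval x.length) ([M], inp x)).2 0 = F x}

end Pool.Agent.Lib.Pa76659G
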