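import Pool.Agent.Lib.Pa76659G.Search
import Pool.Agent.Lib.Pa76659G.Yap

set_option autoImplicit false

/-!
If `\hat L_3 = L_3` then the sets in `NP` with small circuits have circuits which are computable with
an oracle in `Σ_2`.
-/

namespace Pool.Agent.Lib.Pa76659G

open Pool.Agent.Lib.Pa76659 PC

namespace Uo

/-- the circuits `w` which are correct for the length of `z` -/
noncomputable def VC (A L : Lang) (p : Str × Str) : Bool := by
  classical
  exact decide (∀ y : Str, y.length = p.1.length → A y = L (pr y (PC.afterTrue p.2)))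

theorem VC_iff {A L : Lang} {z w : Str} : VC A L (z, w) = true ↔
    ∀ y : Str, y.length = z.length → A y = L (pr y (PC.afterTrue w)) := by
  classical
  unfold VC
  rw [decide_eq_true_eq]

theorem PSLC_mem {X A L : Lang} (hL : L ∈ PO X) (l : Polynomial ℕ) :
    PSL (VC A L) l ∈ Sig (join X A) 2 := by
  classical
  set O := join X A with hO
  set B : Lang := fun z => decide (∃ y : Str, y.length = (fst z).length ∧
    (!(A y == L (pr y (PC.afterTrue (snd z))))) = true) with hB
  have hBm : B ∈ NPO O := by
    have hz : PolyC (fun _ : Str × Str => O) (fun _ => True) [fun p => p.1, fun p => p.2]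
      (fun p => p.1) := PolyC.var (by simp)
    have hy : PolyC (fun _ : Str × Str => O) (fun _ => True) [fun p => p.1, fun p => p.2]
      (fun p => p.2) := PolyC.var (by simp)
    have hL' : L ∈ PO O := PO_subset (left_PO _ _) hL
    have e1 := PolyB.natEq (PolyN.length hy) (PolyN.length (PolyC.fst hz))
    have e2 : PolyB (fun _ : Str × Str => O) (fun _ => True) [fun p => p.1, fun p => p.2]
        (fun p => A p.2) := PolyC.query (PolyC.cons true hy)
    have e3 := polyB_of_PO hL' (PolyC.pr hy (PolyC.afterTrue (PolyC.snd hz)))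
    refine mem_NPO_le Polynomial.X (e1.and (PolyB.beq e2 e3).not) (fun z => ?_)
    simp only [hB, decide_eq_true_eq, Bool.and_eq_true]
    constructor
    · rintro ⟨y, h1, h2⟩
      refine ⟨y, ?_, h1, h2⟩
      rw [h1, Polynomial.eval_X]
      exact fst_length_le z
    · rintro ⟨y, -, h1, h2⟩
      exact ⟨y, h1, h2⟩
  refine ⟨B, ⟨O, query_mem O, hBm⟩, ?_⟩
  have hz : PolyC (fun _ : Str × Str => B) (fun _ => True) [fun p => p.1, fun p => p.2]
    (fun p => p.1) := PolyC.var (by simp)
  have hc : PolyC (fun _ : Str × Str => B) (fun _ => True) [fun p => p.1, fun p => p.2]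
    (fun p => p.2) := PolyC.var (by simp)
  have e1 := PolyB.natEq (PolyN.length hc) ((PolyN.length (PolyC.fst hz)).poly l)
  have e2 := PolyB.strEq (PolyC.take hc (PolyN.length (PolyC.snd hz))) (PolyC.snd hz)
  have e3 : PolyB (fun _ : Str × Str => B) (fun _ => True) [fun p => p.1, fun p => p.2]
      (fun p => B (pr (fst p.1) p.2)) := PolyC.query (PolyC.pr (PolyC.fst hz) hc)
  refine mem_NPO_le l (e1.and (e2.and e3.not)) (fun z => ?_)
  show PS (VC A L) l (fst z) (snd z) = true ↔ _
  rw [PS_iff]
  have key : ∀ c : Str, VC A L (fst z, c) = true ↔ B (pr (fst z) c) = false := by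
    intro c
    rw [VC_iff]
    simp only [hB, decide_eq_false_iff_not, fst_pr, snd_pr]
    constructor
    · rintro h ⟨y, h1, h2⟩
      rw [h y h1] at h2
      simp at h2
    · intro h y hy
      by_contra hne
      exact h ⟨y, hy, by simpa using hne⟩
  simp only [Bool.and_eq_true, decide_eq_true_eq, Bool.not_eq_true', key]
  constructor
  · rintro ⟨c, h1, h2, h3⟩
    refine ⟨c, ?_, h1, h2, h3⟩
    rw [h1]
    exact eval_mono l (fst_length_le z)
  · rintro ⟨c, -, h1, h2, h3⟩
    exact ⟨c, h1, h2, h3⟩

/-- Circuits for the sets in `NP ∩ P/poly`. -/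
theorem circ_adv {X A L : Lang} (h3 : Low X 3 ⊆ RLowSucc X 2) (hA : A ∈ NPO X) (hL : L ∈ PO X)
    {h : ℕ → Str} {r : Polynomial ℕ} (hh : ∀ n, (h n).length ≤ r.eval n)
    (hAL : ∀ x, A x = L (pr x (h x.length))) :
    ∃ L' ∈ PO X, ∃ W ∈ DelSucc X 2, ∃ r' : Polynomial ℕ,
      ∀ x, A x = L' (pr x (advStr W r' x.length)) := by
  have hx : PolyC (fun _ : Str => X) (fun _ => True) [fun x => x] (fun x => x) :=
    PolyC.var (by simp)
  have hlow : A ∈ Low X 3 := by
    refine ⟨hA, yap hA ?_⟩
    refine ⟨fun z => !(L z), PO_subset_NPO X (mem_PO (polyB_of_PO hL hx).not), h, r, hh,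
      fun x => ?_⟩
    show (!(A x)) = !(L (pr x (h x.length)))
    rw [hAL]
  set l : Polynomial ℕ := r + 1 with hl
  set O := PSL (VC A L) l with hO
  have hOm : O ∈ Sig (join X A) 2 := PSLC_mem hL l
  set W : Lang := fun v => (gr (VC A L) l (fst v) (l.eval (fst v).length)).getD (snd v).length false
    with hW
  have hWm : W ∈ PO O := by
    have hv : PolyC (fun _ : Str => O) (fun _ => True) [fun x => x] (fun x => x) :=
      PolyC.var (by simp)
    exact mem_PO (PolyB.getD (PolyC.gr (query_mem O) (PolyC.fst hv)
      ((PolyN.length (PolyC.fst hv)).poly l)) (PolyN.length (PolyC.snd hv)))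
  have hWd : W ∈ DelSucc X 2 := (h3 hlow).2 ⟨O, hOm, hWm⟩
  refine ⟨fun z => L (pr (fst z) (PC.afterTrue (snd z))), ?_, W, hWd, l, fun x => ?_⟩
  · exact mem_PO (polyB_of_PO hL (PolyC.pr (PolyC.fst hx) (PolyC.afterTrue (PolyC.snd hx))))
  · have h1 : advStr W l x.length = gr (VC A L) l (on1 x.length) (l.eval x.length) := by
      apply List.ext_getElem
      · rw [advStr_length, gr_length]
      · intro i hi1 hi2
        unfold advStr
        rw [List.getElem_map, List.getElem_range, ← List.getD_eq_getElem _ false hi2]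
        simp only [hW, fst_pr, snd_pr, on1_eq, PC.un_length]
    show A x = L (pr (fst (pr x (advStr W l x.length)))
      (PC.afterTrue (snd (pr x (advStr W l x.length)))))
    rw [fst_pr, snd_pr, h1]
    have e : (on1 x.length).length = x.length := by rw [on1_eq, PC.un_length]
    have h2 := (gr_spec (V := VC A L) (l := l) (x := on1 x.length)
      ⟨una (r.eval x.length - (h x.length).length) ++ false :: h x.length, by
        rw [e, List.length_append, PC.un_length, List.length_cons, hl]
        have := hh x.length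
        simp only [Polynomial.eval_add, Polynomial.eval_one]
        omega, by
        rw [VC_iff]
        intro y hy
        rw [e] at hy
        rw [afterTrue_un, hAL y, hy]⟩).1
    rw [e] at h2
    exact VC_iff.1 h2 x e.symm

end Uo

end Pool.Agent.Lib.Pa76659G
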