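import Pool.Agent.Lib.Pa76659G.UoU3
import Pool.Agent.Lib.Pa76659G.Search

set_option autoImplicit false

/-!
Sets in `NP` with polynomially many exceptions of each length are in `\hat L_3`; if `L_2 = \hat L_3`
then the exceptions can be counted in `Π_2`.
-/

namespace Pool.Agent.Lib.Pa76659G

open Pool.Agent.Lib.Pa76659 PC

namespace Uo

theorem ne_false {b : Bool} (h : b ≠ false) : b = true := by
  cases b
  · exact absurd rfl h
  · rfl

/-- the `i`-th block of length `n + 1` -/
def blk (n : ℕ) (Y : Str) (i : ℕ) : Str :=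
  (List.range (n + 1)).map (fun t => Y.getD (i * (n + 1) + t) false)

/-- the string with given blocks -/
def mkY (n m : ℕ) (f : ℕ → Str) : Str :=
  (List.range (m * (n + 1))).map (fun p => (f (p / (n + 1))).getD (p % (n + 1)) false)

theorem blk_length (n : ℕ) (Y : Str) (i : ℕ) : (blk n Y i).length = n + 1 := by simp [blk]

theorem mkY_length (n m : ℕ) (f : ℕ → Str) : (mkY n m f).length = m * (n + 1) := by simp [mkY]

theorem blk_getD (n : ℕ) (Y : Str) (i : ℕ) {t : ℕ} (ht : t < n + 1) :
    (blk n Y i).getD t false = Y.getD (i * (n + 1) + t) false := by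
  rw [List.getD_eq_getElem _ _ (by rw [blk_length]; exact ht)]
  simp [blk]

theorem mkY_getD {n m : ℕ} {f : ℕ → Str} {p : ℕ} (hp : p < m * (n + 1)) :
    (mkY n m f).getD p false = (f (p / (n + 1))).getD (p % (n + 1)) false := by
  rw [List.getD_eq_getElem _ _ (by rw [mkY_length]; exact hp)]
  simp [mkY]

theorem blk_mkY {n m : ℕ} {f : ℕ → Str} {i : ℕ} (hi : i < m) (hf : (f i).length = n + 1) :
    blk n (mkY n m f) i = f i := by
  apply List.ext_getElem
  · rw [blk_length, hf]
  · intro t h1 h2
    rw [blk_length] at h1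
    have h3 : i * (n + 1) + t < m * (n + 1) := by
      calc i * (n + 1) + t < i * (n + 1) + (n + 1) := by omega
        _ = (i + 1) * (n + 1) := by ring
        _ ≤ m * (n + 1) := Nat.mul_le_mul_right _ hi
    rw [← List.getD_eq_getElem _ false, ← List.getD_eq_getElem _ false, blk_getD n _ i h1,
      mkY_getD h3]
    have h4 : (i * (n + 1) + t) / (n + 1) = i := by
      rw [Nat.mul_comm, Nat.mul_add_div (by omega), Nat.div_eq_of_lt h1, Nat.add_zero]
    have h5 : (i * (n + 1) + t) % (n + 1) = t := by
      rw [Nat.mul_comm, Nat.mul_add_mod, Nat.mod_eq_of_lt h1]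
    rw [h4, h5]

open Classical in
/-- the flagged blocks are different exceptions -/
noncomputable def okY (A : Lang) (n m : ℕ) (Y : Str) : Bool :=
  decide (∀ i < m, (blk n Y i).headD false = true →
    A (blk n Y i).tail = false ∧ ∀ j < i, blk n Y j ≠ blk n Y i)

theorem okY_iff {A : Lang} {n m : ℕ} {Y : Str} : okY A n m Y = true ↔
    ∀ i < m, (blk n Y i).headD false = true →
      A (blk n Y i).tail = false ∧ ∀ j < i, blk n Y j ≠ blk n Y i := by
  simp only [okY, decide_eq_true_eq]

section
variable {A : Lang}

theorem blk_poly {α : Type*} {D : α → Prop} {ctx : List (α → Str)} {n i : α → ℕ} {Y : α → Str}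
    (hn : PolyN (fun _ => A) D ctx n) (hY : PolyC (fun _ => A) D ctx Y)
    (hi : PolyN (fun _ => A) D ctx i) :
    PolyC (fun _ => A) D ctx (fun a => blk (n a) (Y a) (i a)) := by
  refine PolyC.map_range (φ := fun p : α × ℕ => (Y p.1).getD (i p.1 * (n p.1 + 1) + p.2) false)
    hn.succ ?_
  have lf : ∀ {f : α → Str}, PolyC (fun _ => A) D ctx f →
      PolyC (fun _ : α × ℕ => A) (fun p => D p.1 ∧ p.2 < n p.1 + 1)
        (PC.lift ctx ++ [fun p => una p.2]) (fun p => f p.1) := fun hf =>
    (PolyC.lift hf (D' := fun p : α × ℕ => D p.1 ∧ p.2 < n p.1 + 1)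
      (fun p hp => hp.1)).weakenRight _
  have hk : PolyN (fun _ : α × ℕ => A) (fun p => D p.1 ∧ p.2 < n p.1 + 1)
        (PC.lift ctx ++ [fun p => una p.2]) (fun p => p.2) := PolyC.var (by simp)
  have hn' : PolyN (fun _ : α × ℕ => A) (fun p => D p.1 ∧ p.2 < n p.1 + 1)
        (PC.lift ctx ++ [fun p => una p.2]) (fun p => n p.1) := lf hn
  have hi' : PolyN (fun _ : α × ℕ => A) (fun p => D p.1 ∧ p.2 < n p.1 + 1)
        (PC.lift ctx ++ [fun p => una p.2]) (fun p => i p.1) := lf hi
  exact PolyB.getD (lf hY) ((hi'.mul hn'.succ).add hk)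

theorem okY_poly {α : Type*} {D : α → Prop} {ctx : List (α → Str)} {n m : α → ℕ} {Y : α → Str}
    (hn : PolyN (fun _ => A) D ctx n) (hm : PolyN (fun _ => A) D ctx m)
    (hY : PolyC (fun _ => A) D ctx Y) :
    PolyB (fun _ => A) D ctx (fun a => okY A (n a) (m a) (Y a)) := by
  classical
  have h1 : PolyB (fun _ => A) D ctx (fun a => decide (∀ i < m a,
      (!((blk (n a) (Y a) i).headD false) || (!(A (blk (n a) (Y a) i).tail) &&
        decide (∀ j < i, (!(decide (blk (n a) (Y a) j = blk (n a) (Y a) i))) = true))) = true)) := by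
    refine PolyB.forall_lt (φ := fun p : α × ℕ =>
      (!((blk (n p.1) (Y p.1) p.2).headD false) || (!(A (blk (n p.1) (Y p.1) p.2).tail) &&
        decide (∀ j < p.2, (!(decide (blk (n p.1) (Y p.1) j = blk (n p.1) (Y p.1) p.2))) = true))))
      hm ?_
    have lf : ∀ {f : α → Str}, PolyC (fun _ => A) D ctx f →
        PolyC (fun _ : α × ℕ => A) (fun p => D p.1 ∧ p.2 < m p.1)
          (PC.lift ctx ++ [fun p => una p.2]) (fun p => f p.1) := fun hf =>
      (PolyC.lift hf (D' := fun p : α × ℕ => D p.1 ∧ p.2 < m p.1)
        (fun p hp => hp.1)).weakenRight _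
    have hk : PolyN (fun _ : α × ℕ => A) (fun p => D p.1 ∧ p.2 < m p.1)
          (PC.lift ctx ++ [fun p => una p.2]) (fun p => p.2) := PolyC.var (by simp)
    have hn' : PolyN (fun _ : α × ℕ => A) (fun p => D p.1 ∧ p.2 < m p.1)
          (PC.lift ctx ++ [fun p => una p.2]) (fun p => n p.1) := lf hn
    have hY' := lf hY
    have hb := blk_poly hn' hY' hk
    have hA : PolyB (fun _ : α × ℕ => A) (fun p => D p.1 ∧ p.2 < m p.1)
          (PC.lift ctx ++ [fun p => una p.2])
          (fun p => A (blk (n p.1) (Y p.1) p.2).tail) := PolyC.query hb.tail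
    refine (PolyB.headD hb).not.or (hA.not.and ?_)
    refine PolyB.forall_lt (φ := fun p : (α × ℕ) × ℕ =>
      !(decide (blk (n p.1.1) (Y p.1.1) p.2 = blk (n p.1.1) (Y p.1.1) p.1.2))) hk ?_
    have lf2 : ∀ {f : α × ℕ → Str}, PolyC (fun _ : α × ℕ => A) (fun p => D p.1 ∧ p.2 < m p.1)
          (PC.lift ctx ++ [fun p => una p.2]) f →
        PolyC (fun _ : (α × ℕ) × ℕ => A) (fun p => (D p.1.1 ∧ p.1.2 < m p.1.1) ∧ p.2 < p.1.2)
          (PC.lift (PC.lift ctx ++ [fun p => una p.2]) ++ [fun p => una p.2]) (fun p => f p.1) :=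
      fun hf => (PolyC.lift hf (D' := fun p : (α × ℕ) × ℕ =>
        (D p.1.1 ∧ p.1.2 < m p.1.1) ∧ p.2 < p.1.2) (fun p hp => hp.1)).weakenRight _
    have hk2 : PolyN (fun _ : (α × ℕ) × ℕ => A)
        (fun p => (D p.1.1 ∧ p.1.2 < m p.1.1) ∧ p.2 < p.1.2)
        (PC.lift (PC.lift ctx ++ [fun p => una p.2]) ++ [fun p => una p.2]) (fun p => p.2) :=
      PolyC.var (by simp)
    have hn2 : PolyN (fun _ : (α × ℕ) × ℕ => A)
        (fun p => (D p.1.1 ∧ p.1.2 < m p.1.1) ∧ p.2 < p.1.2)
        (PC.lift (PC.lift ctx ++ [fun p => una p.2]) ++ [fun p => una p.2]) (fun p => n p.1.1) :=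
      lf2 hn'
    exact (PolyB.strEq (blk_poly hn2 (lf2 hY') hk2) (lf2 hb)).not
  refine h1.congr (fun a _ => ?_)
  rw [Bool.eq_iff_iff, okY_iff, decide_eq_true_eq]
  refine forall_congr' fun i => forall_congr' fun _ => ?_
  cases (blk (n a) (Y a) i).headD false
  · simp
  · cases hA : A (blk (n a) (Y a) i).tail <;> simp [hA]

end

/-- the number of the exceptions of length `n` is at most `s` -/
def Few (A : Lang) (n s : ℕ) : Prop :=
  ∀ f : ℕ → Str, (∀ i < s + 1, (f i).length = n ∧ A (f i) = false) →
    ∃ i < s + 1, ∃ j < i, f j = f i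

/-- the search problem -/
noncomputable def VE (A : Lang) (s : Polynomial ℕ) (z : Str × Str) : Bool :=
  okY A z.1.length (s.eval z.1.length) z.2

/-- the bound for the length of the list -/
noncomputable def lE (s : Polynomial ℕ) : Polynomial ℕ := s * (Polynomial.X + 1)

theorem lE_eval (s : Polynomial ℕ) (n : ℕ) : (lE s).eval n = s.eval n * (n + 1) := by
  simp [lE]

theorem VE_poly (A : Lang) (s : Polynomial ℕ) :
    PolyB (fun _ : Str × Str => A) (fun _ => True) [fun p => p.1, fun p => p.2] (VE A s) := by
  have hz : PolyC (fun _ : Str × Str => A) (fun _ => True) [fun p => p.1, fun p => p.2]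
    (fun p => p.1) := PolyC.var (by simp)
  have hy : PolyC (fun _ : Str × Str => A) (fun _ => True) [fun p => p.1, fun p => p.2]
    (fun p => p.2) := PolyC.var (by simp)
  exact okY_poly (PolyN.length hz) ((PolyN.length hz).poly s) hy

/-- the list of the exceptions -/
noncomputable def lst (A : Lang) (s : Polynomial ℕ) (n : ℕ) : Str :=
  gr (VE A s) (lE s) (on1 n) ((lE s).eval n)

theorem lst_length (A : Lang) (s : Polynomial ℕ) (n : ℕ) :
    (lst A s n).length = s.eval n * (n + 1) := by
  rw [lst, gr_length, lE_eval]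

theorem lst_spec (A : Lang) (s : Polynomial ℕ) (n : ℕ) :
    okY A n (s.eval n) (lst A s n) = true ∧
      ∀ c : Str, c.length = s.eval n * (n + 1) → okY A n (s.eval n) c = true →
        ¬ lexLt (lst A s n) c := by
  have h1 : ∃ c : Str, c.length = (lE s).eval (on1 n).length ∧ VE A s (on1 n, c) = true := by
    refine ⟨List.replicate ((lE s).eval (on1 n).length) false, by simp, ?_⟩
    unfold VE
    rw [okY_iff]
    intro i _ h
    exfalso
    have h2 : (blk (on1 n).length (List.replicate ((lE s).eval (on1 n).length) false) i).headD false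
        = false := by
      unfold blk
      rw [List.range_succ_eq_map]
      simp only [List.map_cons, List.headD_cons]
      rw [List.getD_eq_getElem?_getD, List.getElem?_replicate]
      split_ifs <;> rfl
    rw [h2] at h
    exact absurd h (by simp)
  have h2 := gr_spec h1
  have e : (on1 n).length = n := by rw [on1_eq, PC.un_length]
  rw [e] at h2
  refine ⟨?_, fun c h3 h4 => h2.2 c (by rw [lE_eval]; exact h3) ?_⟩
  · have h3 := h2.1
    unfold VE at h3
    simp only [e] at h3
    exact h3
  · unfold VE
    simp only [e]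
    exact h4

theorem lst_all {A : Lang} {s : Polynomial ℕ} {n : ℕ} (hF : Few A n (s.eval n)) {x : Str}
    (hx : x.length = n) : A x = false ↔ ∃ i < s.eval n, blk n (lst A s n) i = true :: x := by
  obtain ⟨hv, hmax⟩ := lst_spec A s n
  set Y := lst A s n with hY
  have hv' := okY_iff.1 hv
  constructor
  · intro hA
    by_contra hno
    push Not at hno
    -- some block is free
    have hfree : ∃ i < s.eval n, (blk n Y i).headD false = false := by
      by_contra hall
      push Not at hall
      obtain ⟨i, hi, j, hj, he⟩ := hF (fun i => if i < s.eval n then (blk n Y i).tail else x)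
        (fun i _ => by
          by_cases h : i < s.eval n
          · rw [if_pos h]
            have h1 := ne_false (hall i h)
            exact ⟨by rw [List.length_tail, blk_length]; rfl, (hv' i h h1).1⟩
          · rw [if_neg h]
            exact ⟨hx, hA⟩)
      have hb : ∀ i < s.eval n, blk n Y i = true :: (blk n Y i).tail := by
        intro i h
        have h1 := ne_false (hall i h)
        have h2 := blk_length n Y i
        rcases h3 : blk n Y i with _ | ⟨b, l⟩
        · rw [h3] at h2; simp at h2
        · rw [h3, List.headD_cons] at h1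
          rw [h1]
          rfl
      have hj' : j < s.eval n := by omega
      simp only [if_pos hj'] at he
      by_cases h : i < s.eval n
      · rw [if_pos h] at he
        have h1 := ne_false (hall i h)
        exact (hv' i h h1).2 j hj (by rw [hb j hj', hb i h, he])
      · rw [if_neg h] at he
        exact hno j hj' (by rw [hb j hj', he])
    obtain ⟨i0, hi0, hf0⟩ := hfree
    set f : ℕ → Str := fun i => if i = i0 then true :: x else blk n Y i with hf
    have hfl : ∀ i, (f i).length = n + 1 := by
      intro i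
      rw [hf]
      by_cases h : i = i0
      · simp [h, hx]
      · simp [h, blk_length]
    have hb : ∀ i < s.eval n, blk n (mkY n (s.eval n) f) i = f i := fun i hi =>
      blk_mkY hi (hfl i)
    refine hmax (mkY n (s.eval n) f) (mkY_length _ _ _) (okY_iff.2 fun i hi h => ?_) ?_
    · rw [hb i hi] at h ⊢
      by_cases h1 : i = i0
      · have h2 : f i = true :: x := by rw [hf]; simp [h1]
        rw [h2]
        refine ⟨hA, fun j hj he => ?_⟩
        rw [hb j (by omega)] at he
        have h3 : f j = blk n Y j := by rw [hf]; simp [show j ≠ i0 by omega]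
        rw [h3] at he
        exact hno j (by omega) he
      · have h2 : f i = blk n Y i := by rw [hf]; simp [h1]
        rw [h2] at h ⊢
        obtain ⟨h3, h4⟩ := hv' i hi h
        refine ⟨h3, fun j hj he => ?_⟩
        rw [hb j (by omega)] at he
        by_cases h5 : j = i0
        · have h6 : f j = true :: x := by rw [hf]; simp [h5]
          rw [h6] at he
          exact hno i hi he.symm
        · have h6 : f j = blk n Y j := by rw [hf]; simp [h5]
          rw [h6] at he
          exact h4 j hj he
    · have hk : i0 * (n + 1) < s.eval n * (n + 1) := Nat.mul_lt_mul_of_pos_right hi0 (by omega)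
      refine ⟨i0 * (n + 1), fun p hp => ?_, ?_, ?_⟩
      · rw [mkY_getD (by omega)]
        have h1 : p / (n + 1) < i0 := Nat.div_lt_of_lt_mul (by rw [Nat.mul_comm]; exact hp)
        have h2 : f (p / (n + 1)) = blk n Y (p / (n + 1)) := by rw [hf]; simp [h1.ne]
        rw [h2, blk_getD n Y _ (Nat.mod_lt _ (by omega))]
        congr 1
        rw [Nat.mul_comm]
        exact (Nat.div_add_mod p (n + 1)).symm
      · have h1 : (blk n Y i0).headD false = Y.getD (i0 * (n + 1)) false := by
          unfold blk
          rw [List.range_succ_eq_map]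
          simp
        rw [← h1]
        exact hf0
      · rw [mkY_getD hk, Nat.mul_div_cancel _ (by omega : 0 < n + 1), Nat.mul_mod_left]
        rw [hf]
        simp
  · rintro ⟨i, hi, h⟩
    have h1 := (hv' i hi (by rw [h]; rfl)).1
    rw [h] at h1
    exact h1

/-- A set in `NP` with polynomially many exceptions of each length is in `\hat L_3`. -/
theorem rlow_of_few {X A : Lang} (hA : A ∈ NPO X) {s : Polynomial ℕ}
    (h1 : ∀ n, Few A n (s.eval n)) : A ∈ RLowSucc X 2 := by
  classical
  refine rlow_of_adv hA ?_
  set P : Lang := PSL (VE A s) (lE s) with hP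
  have hPm : P ∈ NPO A := PSL_mem (VE_poly A s)
  set W : Lang := fun v => (lst A s (fst v).length).getD (snd v).length false with hW
  have hWm : W ∈ PO P := by
    refine mem_PO ?_
    have hx : PolyC (fun _ : Str => P) (fun _ => True) [fun x => x] (fun x => x) :=
      PolyC.var (by simp)
    have hn := PolyN.length (PolyC.fst hx)
    have hl : PolyC (fun _ : Str => P) (fun _ => True) [fun x => x]
      (fun v => lst A s (fst v).length) := PolyC.gr (query_mem P) hn (hn.poly (lE s))
    exact PolyB.getD hl (PolyN.length (PolyC.snd hx))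
  set C : Lang := fun z => decide (∃ i < s.eval (fst z).length,
    decide (blk (fst z).length (snd z) i = true :: fst z) = true) with hC
  have hCm : C ∈ PO X := by
    refine mem_PO ?_
    have hx : PolyC (fun _ : Str => X) (fun _ => True) [fun x => x] (fun x => x) :=
      PolyC.var (by simp)
    have hf := PolyC.fst hx
    have hs := PolyC.snd hx
    refine PolyB.exists_lt (φ := fun p : Str × ℕ =>
      decide (blk (fst p.1).length (snd p.1) p.2 = true :: fst p.1))
      ((PolyN.length hf).poly s) ?_
    have lf : ∀ {f : Str → Str}, PolyC (fun _ : Str => X) (fun _ => True) [fun x => x] f →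
        PolyC (fun _ : Str × ℕ => X) (fun p => True ∧ p.2 < s.eval (fst p.1).length)
          (PC.lift [fun x : Str => x] ++ [fun p => una p.2]) (fun p => f p.1) := fun hf =>
      (PolyC.lift hf (D' := fun p : Str × ℕ => True ∧ p.2 < s.eval (fst p.1).length)
        (fun p hp => hp.1)).weakenRight _
    have hf' := lf hf
    exact PolyB.strEq (blk_poly (PolyN.length hf') (lf hs) (PolyC.var (by simp))) (hf'.cons true)
  refine ⟨C, PO_subset_NPO X hCm, W, ⟨P, ⟨A, ⟨X, query_mem X, hA⟩, hPm⟩, hWm⟩, lE s, ?_⟩
  intro x
  have e1 : advStr W (lE s) x.length = lst A s x.length := by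
    apply List.ext_getElem
    · rw [advStr_length, lst_length, lE_eval]
    · intro i h2 h3
      simp only [advStr, List.getElem_map, List.getElem_range]
      rw [← List.getD_eq_getElem _ false h3, hW]
      simp only [fst_pr, snd_pr, on1_eq, PC.un_length]
  rw [e1, Bool.eq_iff_iff, Bool.not_eq_true', lst_all (h1 x.length) rfl, hC]
  simp only [decide_eq_true_eq, fst_pr, snd_pr]

/-! ### Counting -/

/-- the exceptions of length `n` -/
def Ex (A : Lang) (n : ℕ) : Set Str := {y | y.length = n ∧ A y = false}

theorem Ex_finite (A : Lang) (n : ℕ) : (Ex A n).Finite :=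
  (List.finite_length_eq Bool n).subset (fun _ h => h.1)

theorem few_of_ncard {A : Lang} {n s : ℕ} (h : (Ex A n).ncard ≤ s) : Few A n s := by
  classical
  intro f hf
  by_contra hno
  push Not at hno
  have h1 : ((Finset.range (s + 1)).image f).card = s + 1 := by
    rw [Finset.card_image_of_injOn, Finset.card_range]
    intro i hi j hj he
    rw [Finset.coe_range, Set.mem_Iio] at hi hj
    rcases lt_trichotomy i j with h2 | h2 | h2
    · exact absurd he (hno j hj i h2)
    · exact h2
    · exact absurd he.symm (hno i hi j h2)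
  have h2 : (((Finset.range (s + 1)).image f : Finset Str) : Set Str) ⊆ Ex A n := by
    intro y hy
    rw [Finset.coe_image] at hy
    obtain ⟨i, hi, rfl⟩ := hy
    rw [Finset.coe_range, Set.mem_Iio] at hi
    exact hf i hi
  have h3 := Set.ncard_le_ncard h2 (Ex_finite A n)
  rw [Set.ncard_coe_finset, h1] at h3
  omega

theorem exists_list {A : Lang} {n k : ℕ} : (∃ Y : Str, Y.length = k * (n + 1) ∧
    okY A n k Y = true ∧ ∀ i < k, (blk n Y i).headD false = true) ↔ k ≤ (Ex A n).ncard := by
  classical
  constructor
  · rintro ⟨Y, -, hY, hfl⟩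
    rw [okY_iff] at hY
    have hb : ∀ i < k, blk n Y i = true :: (blk n Y i).tail := by
      intro i h
      have h1 := hfl i h
      have h2 := blk_length n Y i
      rcases h3 : blk n Y i with _ | ⟨b, l⟩
      · rw [h3] at h2; simp at h2
      · rw [h3, List.headD_cons] at h1
        rw [h1]
        rfl
    have h1 : ((Finset.range k).image (fun i => (blk n Y i).tail)).card = k := by
      rw [Finset.card_image_of_injOn, Finset.card_range]
      intro i hi j hj he
      rw [Finset.coe_range, Set.mem_Iio] at hi hj
      simp only at he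
      rcases lt_trichotomy i j with h2 | h2 | h2
      · exact absurd (by rw [hb i hi, hb j hj, he]) ((hY j hj (hfl j hj)).2 i h2)
      · exact h2
      · exact absurd (by rw [hb i hi, hb j hj, he]) ((hY i hi (hfl i hi)).2 j h2)
    have h2 : (((Finset.range k).image (fun i => (blk n Y i).tail) : Finset Str) : Set Str) ⊆
        Ex A n := by
      intro y hy
      rw [Finset.coe_image] at hy
      obtain ⟨i, hi, rfl⟩ := hy
      rw [Finset.coe_range, Set.mem_Iio] at hi
      exact ⟨by rw [List.length_tail, blk_length]; rfl, (hY i hi (hfl i hi)).1⟩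
    have h3 := Set.ncard_le_ncard h2 (Ex_finite A n)
    rwa [Set.ncard_coe_finset, h1] at h3
  · intro h
    have hfin := Ex_finite A n
    set l : List Str := hfin.toFinset.toList with hl
    have hnd : l.Nodup := Finset.nodup_toList _
    have hlen : l.length = (Ex A n).ncard := by
      rw [hl, Finset.length_toList, Set.ncard_eq_toFinset_card _ hfin]
    have hmem : ∀ i < k, l.getD i [] ∈ Ex A n := by
      intro i hi
      rw [List.getD_eq_getElem _ _ (by omega)]
      have hm : ∀ y ∈ l, y ∈ Ex A n := by
        intro y hy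
        rwa [hl, Finset.mem_toList, Set.Finite.mem_toFinset] at hy
      exact hm _ (List.getElem_mem _)
    set f : ℕ → Str := fun i => true :: l.getD i [] with hf
    have hb : ∀ i < k, blk n (mkY n k f) i = true :: l.getD i [] := fun i hi =>
      blk_mkY hi (by rw [hf, List.length_cons, (hmem i hi).1])
    refine ⟨mkY n k f, mkY_length _ _ _, okY_iff.2 fun i hi _ => ?_, fun i hi => ?_⟩
    · rw [hb i hi]
      refine ⟨(hmem i hi).2, fun j hj he => ?_⟩
      rw [hb j (by omega)] at he
      have he' := List.cons_injective he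
      rw [List.getD_eq_getElem _ _ (by omega), List.getD_eq_getElem _ _ (by omega)] at he'
      have := (List.Nodup.getElem_inj_iff hnd).1 he'
      omega
    · rw [hb i hi]
      rfl

/-- the number of the exceptions of length `|fst z|` is less than `|snd z|` -/
noncomputable def cen (A : Lang) : Lang := fun z =>
  decide ((Ex A (fst z).length).ncard < (snd z).length)

theorem cen_not_mem (A : Lang) : (fun z => !(cen A z)) ∈ NPO A := by
  have hz : PolyC (fun _ : Str × Str => A) (fun _ => True) [fun p => p.1, fun p => p.2]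
    (fun p => p.1) := PolyC.var (by simp)
  have hy : PolyC (fun _ : Str × Str => A) (fun _ => True) [fun p => p.1, fun p => p.2]
    (fun p => p.2) := PolyC.var (by simp)
  have hn := PolyN.length (PolyC.fst hz)
  have hk := PolyN.length (PolyC.snd hz)
  have e1 := PolyB.natEq (PolyN.length hy) (hk.mul hn.succ)
  have e2 := okY_poly hn hk hy
  have e3 : PolyB (fun _ : Str × Str => A) (fun _ => True) [fun p => p.1, fun p => p.2]
      (fun p => decide (∀ i < (snd p.1).length, (blk (fst p.1).length p.2 i).headD false = true)) := by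
    refine PolyB.forall_lt (φ := fun p : (Str × Str) × ℕ =>
      (blk (fst p.1.1).length p.1.2 p.2).headD false) hk ?_
    have lf : ∀ {f : Str × Str → Str},
        PolyC (fun _ : Str × Str => A) (fun _ => True) [fun p => p.1, fun p => p.2] f →
        PolyC (fun _ : (Str × Str) × ℕ => A) (fun p => True ∧ p.2 < (snd p.1.1).length)
          (PC.lift [fun p : Str × Str => p.1, fun p => p.2] ++ [fun p => una p.2])
          (fun p => f p.1) := fun hf =>
      (PolyC.lift hf (D' := fun p : (Str × Str) × ℕ => True ∧ p.2 < (snd p.1.1).length)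
        (fun p hp => hp.1)).weakenRight _
    exact PolyB.headD (blk_poly (lf hn) (lf hy) (PolyC.var (by simp)))
  refine mem_NPO_le (Polynomial.X * (Polynomial.X + 1)) (e1.and (e2.and e3)) (fun z => ?_)
  unfold cen
  rw [Bool.not_eq_true', decide_eq_false_iff_not, not_lt, ← exists_list]
  simp only [Bool.and_eq_true, decide_eq_true_eq, Polynomial.eval_mul, Polynomial.eval_add,
    Polynomial.eval_X, Polynomial.eval_one]
  constructor
  · rintro ⟨Y, h1, h2, h3⟩
    refine ⟨Y, ?_, h1, h2, h3⟩
    rw [h1]
    exact Nat.mul_le_mul (snd_length_le z) (Nat.add_le_add_right (fst_length_le z) 1)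
  · rintro ⟨Y, -, h1, h2, h3⟩
    exact ⟨Y, h1, h2, h3⟩

/-- If `L_2 = \hat L_3` then the polynomially many exceptions of a set in `NP` can be counted in
`Σ_2 ∩ Π_2`. -/
theorem u5 {X D : Lang} (h : RLowSucc X 2 ⊆ Low X 2) (hD : D ∈ NPO X) {s : Polynomial ℕ}
    (h1 : ∀ n, (Ex D n).ncard ≤ s.eval n) : cen D ∈ Sig X 2 := by
  have h2 := (h (rlow_of_few hD (fun n => few_of_ncard (h1 n)))).2
  refine h2 (sig_two_of_co ?_)
  exact NPO_subset (right_mem X D) (cen_not_mem D)

/-- The same without abbreviations. -/
theorem u5' {X D : Lang} (h : RLowSucc X 2 ⊆ Low X 2) (hD : D ∈ NPO X) {s : Polynomial ℕ}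
    (h1 : ∀ n, {y : Str | y.length = n ∧ D y = false}.ncard ≤ s.eval n) :
    ∃ B ∈ Sig X 2, ∀ n k : ℕ, B (pr (on1 n) (on1 k)) = true ↔
      {y : Str | y.length = n ∧ D y = false}.ncard < k := by
  refine ⟨cen D, u5 h hD h1, fun n k => ?_⟩
  unfold cen
  rw [decide_eq_true_eq, fst_pr, snd_pr, on1_eq, on1_eq, PC.un_length, PC.un_length]
  rfl

end Uo

end Pool.Agent.Lib.Pa76659G
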