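import Pool.Agent.Lib.Pa76659G.UoFinal
import Pool.Agent.Lib.Pa76659G.UoU5

set_option autoImplicit false

/-!
If `L_2 = \hat L_3` then polynomially many coNP witnesses on unary inputs can be counted in
`Σ_2 ∩ Π_2`.
-/

namespace Pool.Agent.Lib.Pa76659G

open Pool.Agent.Lib.Pa76659 PC

namespace Uo

/-- `z` is a pair `(1^n, y)` with `|y| = q(n)` -/
def isP (q : Polynomial ℕ) : Lang := fun z =>
  decide ((snd z).length = q.eval (fst z).length) && decide (z = pr (on1 (fst z).length) (snd z))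

theorem isP_iff {q : Polynomial ℕ} {z : Str} :
    isP q z = true ↔ ∃ n : ℕ, ∃ y : Str, y.length = q.eval n ∧ z = pr (on1 n) y := by
  unfold isP
  rw [Bool.and_eq_true, decide_eq_true_eq, decide_eq_true_eq]
  constructor
  · rintro ⟨h1, h2⟩
    exact ⟨_, _, h1, h2⟩
  · rintro ⟨n, y, h1, rfl⟩
    rw [fst_pr, snd_pr, on1_eq, PC.un_length]
    exact ⟨h1, rfl⟩

theorem isP_mem (X : Lang) (q : Polynomial ℕ) : isP q ∈ PO X := by
  have hx : PolyC (fun _ : Str => X) (fun _ => True) [fun x => x] (fun x => x) :=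
    PolyC.var (by simp)
  have hf := PolyC.fst hx
  have hs := PolyC.snd hx
  have hn := PolyN.length hf
  refine mem_PO ((PolyB.natEq (PolyN.length hs) (hn.poly q)).and (PolyB.strEq hx (PolyC.pr ?_ hs)))
  exact hn

theorem isP_not_mem (X : Lang) (q : Polynomial ℕ) : (fun z => !(isP q z)) ∈ PO X := by
  have hx : PolyC (fun _ : Str => X) (fun _ => True) [fun x => x] (fun x => x) :=
    PolyC.var (by simp)
  have hf := PolyC.fst hx
  have hs := PolyC.snd hx
  have hn := PolyN.length hf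
  refine mem_PO (((PolyB.natEq (PolyN.length hs) (hn.poly q)).and
    (PolyB.strEq hx (PolyC.pr ?_ hs))).not)
  exact hn

/-- the set `A` outside of the pairs -/
def ext (A : Lang) (q : Polynomial ℕ) : Lang := fun z => !(isP q z) || A z

theorem ext_mem {X A : Lang} (hA : A ∈ NPO X) (q : Polynomial ℕ) : ext A q ∈ NPO X :=
  T3.NPO_or (PO_subset_NPO X (isP_not_mem X q)) hA

theorem ext_iff {A : Lang} {q : Polynomial ℕ} {z : Str} : ext A q z = false ↔
    ∃ n : ℕ, ∃ y : Str, y.length = q.eval n ∧ z = pr (on1 n) y ∧ A (pr (on1 n) y) = false := by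
  unfold ext
  rw [Bool.or_eq_false_iff, Bool.not_eq_false', isP_iff]
  constructor
  · rintro ⟨⟨n, y, h1, rfl⟩, h2⟩
    exact ⟨n, y, h1, rfl, h2⟩
  · rintro ⟨n, y, h1, rfl, h2⟩
    exact ⟨⟨n, y, h1, rfl⟩, h2⟩

/-- the few witnesses -/
def Yn (A : Lang) (q : Polynomial ℕ) (n : ℕ) : Set Str :=
  {y | y.length = q.eval n ∧ A (pr (on1 n) y) = false}

theorem Ex_ext (A : Lang) (q : Polynomial ℕ) (n : ℕ) :
    Ex (ext A q) (2 * n + 1 + q.eval n) = (pr (on1 n)) '' (Yn A q n) := by
  ext z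
  constructor
  · rintro ⟨h1, h2⟩
    obtain ⟨m, y, h3, rfl, h4⟩ := ext_iff.1 h2
    rw [pr_length, on1_eq, PC.un_length, h3] at h1
    have : m = n := by
      rcases lt_trichotomy m n with h | h | h
      · have := eval_mono q h.le
        omega
      · exact h
      · have := eval_mono q h.le
        omega
    subst this
    exact ⟨y, ⟨h3, h4⟩, rfl⟩
  · rintro ⟨y, ⟨h3, h4⟩, rfl⟩
    refine ⟨?_, ext_iff.2 ⟨n, y, h3, rfl, h4⟩⟩
    rw [pr_length, on1_eq, PC.un_length, h3]

theorem Ex_ext_ncard (A : Lang) (q : Polynomial ℕ) (n : ℕ) :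
    (Ex (ext A q) (2 * n + 1 + q.eval n)).ncard = (Yn A q n).ncard := by
  rw [Ex_ext]
  exact Set.ncard_image_of_injective _ fun a b h => (pr_inj h).2

theorem Ex_ext_le {A : Lang} {q s : Polynomial ℕ} (h : ∀ n, (Yn A q n).ncard ≤ s.eval n) (m : ℕ) :
    (Ex (ext A q) m).ncard ≤ s.eval m := by
  by_cases h1 : ∃ n, m = 2 * n + 1 + q.eval n
  · obtain ⟨n, rfl⟩ := h1
    rw [Ex_ext_ncard]
    exact (h n).trans (eval_mono s (by omega))
  · have : Ex (ext A q) m = ∅ := by
      rw [Set.eq_empty_iff_forall_notMem]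
      rintro z ⟨h2, h3⟩
      obtain ⟨n, y, h4, rfl, -⟩ := ext_iff.1 h3
      rw [pr_length, on1_eq, PC.un_length, h4] at h2
      exact h1 ⟨n, h2.symm⟩
    rw [this, Set.ncard_empty]
    exact Nat.zero_le _

/-- If `L_2 = \hat L_3`: counting the witnesses. -/
theorem u6 {X A : Lang} (h : RLowSucc X 2 ⊆ Low X 2) (hA : A ∈ NPO X) (q s : Polynomial ℕ)
    (hs : ∀ n, {y : Str | y.length = q.eval n ∧ A (pr (on1 n) y) = false}.ncard ≤ s.eval n) :
    ∃ B ∈ Sig X 2, ∀ n k : ℕ, B (pr (on1 n) (on1 k)) = true ↔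
      {y : Str | y.length = q.eval n ∧ A (pr (on1 n) y) = false}.ncard < k := by
  obtain ⟨C, hC, hB⟩ := u5 h (ext_mem hA q) (Ex_ext_le (s := s) hs)
  refine ⟨fun z => cen (ext A q) (pr (on1 (2 * (fst z).length + 1 + q.eval (fst z).length)) (snd z)),
    ⟨C, hC, NPO_comp hB ?_⟩, fun n k => ?_⟩
  · have hx : PolyC (fun _ : Str => C) (fun _ => True) [fun x => x] (fun x => x) :=
      PolyC.var (by simp)
    have hf := PolyC.fst hx
    have hs := PolyC.snd hx
    have hn := PolyN.length hf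
    refine PolyC.pr ?_ hs
    have h1 : PolyN (fun _ : Str => C) (fun _ => True) [fun x => x]
        (fun z => 2 * (fst z).length + 1 + q.eval (fst z).length) :=
      (((PolyN.const 2).mul hn).succ.add (hn.poly q)).congr fun _ _ => by omega
    exact h1
  · unfold cen
    simp only [decide_eq_true_eq, fst_pr, snd_pr, on1_eq, PC.un_length]
    have := Ex_ext_ncard A q n
    rw [this]
    rfl

end Uo

end Pool.Agent.Lib.Pa76659G
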