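import Pool.Agent.Lib.Pa76659G.UoU4
import Pool.Agent.Lib.Pa76659G.UoFP

set_option autoImplicit false

/-!
The sets in `NP` which are decided in `P` with advice of polynomial length are in `L_3`; they are in
`\hat L_3` if and only if they have such advice in `FP^{Σ_2}`.
-/

namespace Pool.Agent.Lib.Pa76659G

open Pool.Agent.Lib.Pa76659 PC

namespace Uo

/-- Advice gives membership in `L_3`. -/
theorem low_of_adv {X A L : Lang} (hA : A ∈ NPO X) (hL : L ∈ PO X)
    {h : ℕ → Str} {r : Polynomial ℕ} (hh : ∀ n, (h n).length ≤ r.eval n)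
    (hAL : ∀ x, A x = L (pr x (h x.length))) : A ∈ Low X 3 := by
  have hx : PolyC (fun _ : Str => X) (fun _ => True) [fun x => x] (fun x => x) :=
    PolyC.var (by simp)
  refine ⟨hA, yap hA ?_⟩
  refine ⟨fun z => !(L z), PO_subset_NPO X (mem_PO (polyB_of_PO hL hx).not), h, r, hh,
    fun x => ?_⟩
  show (!(A x)) = !(L (pr x (h x.length)))
  rw [hAL]

/-- Advice for the sets in `\hat L_3`, computed with an oracle in `Σ_2`. -/
theorem circ_fp {X A L : Lang} (hR : A ∈ RLowSucc X 2) (hL : L ∈ PO X)
    {h : ℕ → Str} {r : Polynomial ℕ} (hh : ∀ n, (h n).length ≤ r.eval n)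
    (hAL : ∀ x, A x = L (pr x (h x.length))) :
    ∃ B ∈ Sig X 2, ∃ f ∈ FPO B, ∀ x, A x = L (pr x (f (on1 x.length))) := by
  set l : Polynomial ℕ := r + 1 with hl
  set O := PSL (VC A L) l with hO
  have hOm : O ∈ Sig (join X A) 2 := PSLC_mem hL l
  set W : Lang := fun v => (gr (VC A L) l (fst v) (l.eval (fst v).length)).getD (snd v).length false
    with hW
  have hWm : W ∈ PO O := by
    have hv : PolyC (fun _ : Str => O) (fun _ => True) [fun x => x] (fun x => x) :=
      PolyC.var (by simp)
    exact mem_PO (PolyB.getD (PolyC.gr (query_mem O) (PolyC.fst hv)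
      ((PolyN.length (PolyC.fst hv)).poly l)) (PolyN.length (PolyC.snd hv)))
  have hWd : W ∈ DelSucc X 2 := hR.2 ⟨O, hOm, hWm⟩
  obtain ⟨B, hB, hWB⟩ := hWd
  refine ⟨B, hB, fun x => PC.afterTrue (advStr W l x.length), FPO_of_polyC (PolyC.afterTrue
    (PolyC.advStr hWB l (PolyN.length (PolyC.var (by simp))))), fun x => ?_⟩
  have h1 : advStr W l x.length = gr (VC A L) l (on1 x.length) (l.eval x.length) := by
    apply List.ext_getElem
    · rw [advStr_length, gr_length]
    · intro i hi1 hi2
      unfold advStr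
      rw [List.getElem_map, List.getElem_range, ← List.getD_eq_getElem _ false hi2]
      simp only [hW, fst_pr, snd_pr, on1_eq, PC.un_length]
  have e : (on1 x.length).length = x.length := by rw [on1_eq, PC.un_length]
  show A x = L (pr x (PC.afterTrue (advStr W l (on1 x.length).length)))
  rw [e, h1]
  have h2 := (gr_spec (V := VC A L) (l := l) (x := on1 x.length)
    ⟨una (r.eval x.length - (h x.length).length) ++ false :: h x.length, by
      rw [e, List.length_append, PC.un_length, List.length_cons, hl]
      have := hh x.length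
      simp only [Polynomial.eval_add, Polynomial.eval_one]
      omega, by
      rw [VC_iff]
      intro y hy
      rw [e] at hy
      rw [afterTrue_un, hAL y, hy]⟩).1
  rw [e] at h2
  exact VC_iff.1 h2 x e.symm

/-- Advice in `FP^{Σ_2}` gives membership in `\hat L_3`. -/
theorem rlow_of_fp {X A L B : Lang} {f : Str → Str} (hA : A ∈ NPO X) (hL : L ∈ PO X)
    (hB : B ∈ Sig X 2) (hf : f ∈ FPO B) (h : ∀ x, A x = L (pr x (f (on1 x.length)))) :
    A ∈ RLowSucc X 2 := by
  have hf := polyC_of_FPO hf
  obtain ⟨pl, hpl⟩ := hf.length_le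
  have hle : ∀ n, (f (on1 n)).length ≤ pl.eval n := by
    intro n
    have := hpl (on1 n) trivial
    simpa [on1_eq] using this
  set pad : ℕ → Str := fun n => una (pl.eval n - (f (on1 n)).length) ++ false :: f (on1 n) with hpad
  have hpadl : ∀ n, (pad n).length = (pl + 1).eval n := by
    intro n
    have := hle n
    simp only [hpad, List.length_append, PC.un_length, List.length_cons, Polynomial.eval_add,
      Polynomial.eval_one]
    omega
  set W : Lang := fun v => (pad (fst v).length).getD (snd v).length false with hW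
  have hWm : W ∈ PO B := by
    have hv : PolyC (fun _ : Str => B) (fun _ => True) [fun x => x] (fun x => x) :=
      PolyC.var (by simp)
    have h1 : PolyC (fun _ : Str => B) (fun _ => True) [fun x => x]
        (fun v => on1 (fst v).length) := PolyN.length (PolyC.fst hv)
    have h2 : PolyC (fun _ : Str => B) (fun _ => True) [fun x => x]
        (fun v => f (on1 (fst v).length)) := PolyC.arg hf h1
    have h3 : PolyN (fun _ : Str => B) (fun _ => True) [fun x => x]
        (fun v => pl.eval (fst v).length - (f (on1 (fst v).length)).length) :=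
      PolyN.sub ((PolyN.length (PolyC.fst hv)).poly pl) (PolyN.length h2)
    have h4 : PolyC (fun _ : Str => B) (fun _ => True) [fun x => x]
        (fun v => pad (fst v).length) := PolyC.append h3 (PolyC.cons false h2)
    exact mem_PO (PolyB.getD h4 (PolyN.length (PolyC.snd hv)))
  have hx : PolyC (fun _ : Str => X) (fun _ => True) [fun x => x] (fun x => x) :=
    PolyC.var (by simp)
  refine rlow_of_adv (k := 1) hA ⟨fun z => !(L (pr (fst z) (PC.afterTrue (snd z)))),
    PO_subset_NPO X (mem_PO (polyB_of_PO hL (PolyC.pr (PolyC.fst hx)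
      (PolyC.afterTrue (PolyC.snd hx)))).not), W, ⟨B, hB, hWm⟩, pl + 1, fun x => ?_⟩
  have e : advStr W (pl + 1) x.length = pad x.length := by
    apply List.ext_getElem
    · rw [advStr_length, hpadl]
    · intro i hi1 hi2
      unfold advStr
      rw [List.getElem_map, List.getElem_range, ← List.getD_eq_getElem _ false hi2]
      simp only [hW, fst_pr, snd_pr, on1_eq, PC.un_length]
  show (!(A x)) = !(L (pr (fst (pr x (advStr W (pl + 1) x.length)))
    (PC.afterTrue (snd (pr x (advStr W (pl + 1) x.length))))))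
  rw [fst_pr, snd_pr, e, hpad]
  show (!(A x)) = !(L (pr x (PC.afterTrue (una _ ++ false :: f (on1 x.length)))))
  rw [afterTrue_un, h x]

/-- The sets in `NP` with advice of polynomial length. -/
theorem circ_iff {X A L : Lang} (hA : A ∈ NPO X) (hL : L ∈ PO X)
    {h : ℕ → Str} {r : Polynomial ℕ} (hh : ∀ n, (h n).length ≤ r.eval n)
    (hAL : ∀ x, A x = L (pr x (h x.length))) :
    A ∈ Low X 3 ∧ (A ∈ RLowSucc X 2 ↔
      ∃ B ∈ Sig X 2, ∃ f ∈ FPO B, ∀ x, A x = L (pr x (f (on1 x.length)))) :=
  ⟨low_of_adv hA hL hh hAL, fun hR => circ_fp hR hL hh hAL,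
    fun ⟨_, hB, _, hf, h1⟩ => rlow_of_fp hA hL hB hf h1⟩

end Uo

end Pool.Agent.Lib.Pa76659G
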